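import Mathlib
import Pool.Agent.P.MP_181257_gt.DefsS

-- part Pool.Agent.P.MP_181257_gt.Defs
section

set_option autoImplicit false

open MeasureTheory ProbabilityTheory
open scoped RealInnerProductSpace

noncomputable section

namespace Pool.Agent.P.MP_181257_gt

variable {V : Type} [NormedAddCommGroup V] [InnerProductSpace ℝ V] [FiniteDimensional ℝ V]
  [MeasurableSpace V] [BorelSpace V]

/-- The `i`-th intrinsic volume up to a positive factor depending only on `i`, by Kubota's formula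
in Tsirelson's form: the mean `i`-dimensional volume of the image of `M` under
`x ↦ (⟪g₁, x⟫, …, ⟪g_i, x⟫)`, where `g₁, …, g_i` are independent standard Gaussian vectors. -/
def intrinsicVol (i : ℕ) (M : Set V) : ℝ :=
  ∫ g : Fin i → V, (volume ((fun x : V => fun j : Fin i => ⟪g j, x⟫) '' M)).toReal
    ∂(Measure.pi fun _ : Fin i => stdGaussian V)

/-- The `i`-th projection body: the set cut out by the support function
`u ↦ V_i (K | u^⊥)` on the unit sphere. -/
def projBody (i : ℕ) (K : Set V) : Set V :=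
  {x | ∀ u : V, ‖u‖ = 1 → ⟪x, u⟫ ≤ intrinsicVol i ((ℝ ∙ u)ᗮ.starProjection '' K)}

end Pool.Agent.P.MP_181257_gt
end
end

-- part Pool.Agent.P.MP_181257_gt.Basic
section

/-! Common definitions: projections, parallelepiped volume `D`, densities, the maps `Rd`, `sk`. -/

set_option autoImplicit false
set_option linter.unusedSectionVars false

open MeasureTheory ProbabilityTheory Module Set
open scoped RealInnerProductSpace ENNReal Pointwise

noncomputable section

namespace Pool.Agent.P.MP_181257_gt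

section alg

variable {V : Type} [NormedAddCommGroup V] [InnerProductSpace ℝ V]
variable {W : Type} [NormedAddCommGroup W] [InnerProductSpace ℝ W]

/-- orthogonal projection onto the complement of `a` (the identity for `a = 0`) -/
def pr (a v : V) : V := v - (⟪a, v⟫ / ‖a‖ ^ 2) • a

/-- `pr a` as a continuous linear map -/
def prL (a : V) : V →L[ℝ] V :=
  ContinuousLinearMap.id ℝ V - (‖a‖ ^ 2)⁻¹ • (innerSL ℝ a).smulRight a

@[simp] theorem prL_apply (a v : V) : prL a v = pr a v := by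
  simp [prL, pr, smul_smul, div_eq_inv_mul]

theorem pr_add (a v w : V) : pr a (v + w) = pr a v + pr a w := by
  simpa using (prL a).map_add v w

theorem pr_sub (a v w : V) : pr a (v - w) = pr a v - pr a w := by
  simpa using (prL a).map_sub v w

theorem pr_smul (a : V) (c : ℝ) (v : V) : pr a (c • v) = c • pr a v := by
  rw [← prL_apply, ← prL_apply, map_smul]

@[simp] theorem pr_zero_left (v : V) : pr (0 : V) v = v := by simp [pr]

@[simp] theorem pr_zero_right (a : V) : pr a 0 = 0 := by simp [pr]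

theorem inner_pr_self (a v : V) : ⟪a, pr a v⟫ = 0 := by
  by_cases ha : a = 0
  · simp [ha]
  · have : ‖a‖ ≠ 0 := norm_ne_zero_iff.2 ha
    simp only [pr, inner_sub_right, real_inner_smul_right, real_inner_self_eq_norm_sq]
    field_simp
    ring

theorem pr_of_inner_eq_zero {a v : V} (h : ⟪a, v⟫ = 0) : pr a v = v := by simp [pr, h]

@[simp] theorem pr_self (a : V) : pr a a = 0 := by
  by_cases ha : a = 0
  · simp [ha]
  · have : ‖a‖ ≠ 0 := norm_ne_zero_iff.2 ha
    simp only [pr, real_inner_self_eq_norm_sq]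
    rw [div_self (pow_ne_zero 2 this), one_smul, sub_self]

@[simp] theorem pr_pr (a v : V) : pr a (pr a v) = pr a v := pr_of_inner_eq_zero (inner_pr_self a v)

theorem inner_pr_comm (a v w : V) : ⟪pr a v, w⟫ = ⟪v, pr a w⟫ := by
  simp only [pr, inner_sub_left, inner_sub_right, real_inner_smul_left, real_inner_smul_right,
    real_inner_comm a v]
  ring

theorem pr_smul_left {t : ℝ} (ht : t ≠ 0) (a v : V) : pr (t • a) v = pr a v := by
  by_cases ha : a = 0
  · simp [ha]
  · have : ‖a‖ ≠ 0 := norm_ne_zero_iff.2 ha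
    simp only [pr, real_inner_smul_left, norm_smul, smul_smul, mul_pow, Real.norm_eq_abs, sq_abs]
    congr 2
    field_simp

theorem norm_sq_pr (a v : V) : ‖pr a v‖ ^ 2 = ‖v‖ ^ 2 - ⟪a, v⟫ ^ 2 / ‖a‖ ^ 2 := by
  rw [← real_inner_self_eq_norm_sq, inner_pr_comm, pr_pr]
  simp only [pr, inner_sub_right, real_inner_smul_right, real_inner_self_eq_norm_sq,
    real_inner_comm a v]
  ring

theorem norm_pr_le (a v : V) : ‖pr a v‖ ≤ ‖v‖ := by
  refine abs_le_of_sq_le_sq' ?_ (norm_nonneg _) |>.2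
  rw [norm_sq_pr]
  have : 0 ≤ ⟪a, v⟫ ^ 2 / ‖a‖ ^ 2 := by positivity
  linarith

theorem map_pr (ι : W →ₗᵢ[ℝ] V) (a v : W) : ι (pr a v) = pr (ι a) (ι v) := by
  simp [pr]

theorem starProjection_eq_pr (u v : V) : (ℝ ∙ u)ᗮ.starProjection v = pr u v := by
  rw [Submodule.starProjection_orthogonal_val, Submodule.starProjection_singleton]
  simp [pr]

/-- volume of the parallelepiped spanned by a family of vectors -/
def D {k : ℕ} (v : Fin k → V) : ℝ := √((Matrix.gram ℝ v).det)

theorem D_nonneg {k : ℕ} (v : Fin k → V) : 0 ≤ D v := Real.sqrt_nonneg _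

theorem D_sq {k : ℕ} (v : Fin k → V) : D v ^ 2 = (Matrix.gram ℝ v).det :=
  Real.sq_sqrt (Matrix.posSemidef_gram ℝ v).det_nonneg

@[simp] theorem D_fin_zero (v : Fin 0 → V) : D v = 1 := by simp [D]

theorem D_perm {k : ℕ} (v : Fin k → V) (σ : Equiv.Perm (Fin k)) : D (fun j => v (σ j)) = D v := by
  unfold D
  rw [← Matrix.det_submatrix_equiv_self σ (Matrix.gram ℝ v)]
  rfl

theorem D_map {k : ℕ} (ι : W →ₗᵢ[ℝ] V) (v : Fin k → W) : D (fun j => ι (v j)) = D v := by
  unfold D
  congr 2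
  ext i j
  simp

theorem continuous_D {k : ℕ} : Continuous (D : (Fin k → V) → ℝ) := by
  unfold D
  refine Continuous.sqrt (Continuous.matrix_det ?_)
  refine continuous_matrix fun i j => ?_
  simp only [Matrix.gram_apply]
  fun_prop

theorem D_cons {k : ℕ} (a : V) (v : Fin k → V) :
    D (Fin.cons a v : Fin (k + 1) → V) = ‖a‖ * D (fun j => pr a (v j)) := by
  set w : Fin (k + 1) → V := Fin.cons a fun j => pr a (v j) with hw
  set c : Fin (k + 1) → ℝ := Fin.cons 0 fun j => ⟪a, v j⟫ / ‖a‖ ^ 2 with hc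
  have hv : ∀ i, (Fin.cons a v : Fin (k + 1) → V) i = w i + c i • w 0 := by
    intro i
    refine Fin.cases ?_ (fun j => ?_) i
    · simp [hw, hc]
    · simp [hw, hc, pr]
  set M : Matrix (Fin (k + 1)) (Fin (k + 1)) ℝ :=
    Matrix.of fun i j => ⟪w i, (Fin.cons a v : Fin (k + 1) → V) j⟫ with hM
  have h1 : (Matrix.gram ℝ (Fin.cons a v : Fin (k + 1) → V)).det = M.det := by
    refine Matrix.det_eq_of_forall_row_eq_smul_add_const c 0 (by simp [hc]) fun i j => ?_
    rw [Matrix.gram_apply, hv i, inner_add_left, real_inner_smul_left]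
    simp [hM]
  have h2 : M.det = (Matrix.gram ℝ w).det := by
    rw [← Matrix.det_transpose M, ← Matrix.det_transpose (Matrix.gram ℝ w)]
    refine Matrix.det_eq_of_forall_row_eq_smul_add_const c 0 (by simp [hc]) fun i j => ?_
    simp only [Matrix.transpose_apply, hM, Matrix.of_apply, Matrix.gram_apply]
    rw [hv i, inner_add_right, real_inner_smul_right]
  have h3 : (Matrix.gram ℝ w).det = ‖a‖ ^ 2 * (Matrix.gram ℝ fun j => pr a (v j)).det := by
    rw [Matrix.det_succ_row_zero, Fin.sum_univ_succ]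
    have : ∀ j : Fin k, Matrix.gram ℝ w 0 j.succ = 0 := fun j => by
      simp [hw, inner_pr_self]
    simp only [this, mul_zero, zero_mul, Finset.sum_const_zero, add_zero]
    have e : (Matrix.gram ℝ w).submatrix Fin.succ (Fin.succAbove 0)
        = Matrix.gram ℝ fun j => pr a (v j) := by
      ext i j
      simp [hw]
    rw [e]
    simp [hw]
  unfold D
  rw [h1, h2, h3, Real.sqrt_mul (by positivity), Real.sqrt_sq (norm_nonneg _)]

theorem D_succ {k : ℕ} (v : Fin (k + 1) → V) :
    D v = ‖v 0‖ * D (fun j : Fin k => pr (v 0) (v j.succ)) := by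
  conv_lhs => rw [← Fin.cons_self_tail v]
  exact D_cons _ _

theorem D_swap {k : ℕ} (a b : V) (v : Fin k → V) :
    D (Fin.cons a (Fin.cons b v : Fin (k + 1) → V) : Fin (k + 2) → V)
      = D (Fin.cons b (Fin.cons a v : Fin (k + 1) → V) : Fin (k + 2) → V) := by
  rw [← D_perm _ (Equiv.swap 0 1)]
  congr 1
  ext j
  refine Fin.cases ?_ (fun j => Fin.cases ?_ (fun j => ?_) j) j
  · simp
  · simp
  · rw [Equiv.swap_apply_of_ne_of_ne (Fin.succ_ne_zero _) (by simp [Fin.ext_iff])]
    simp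

theorem D_le_prod : ∀ {k : ℕ} (v : Fin k → V), D v ≤ ∏ j, ‖v j‖
  | 0, v => by simp
  | k + 1, v => by
    rw [D_succ, Fin.prod_univ_succ]
    refine mul_le_mul_of_nonneg_left ((D_le_prod _).trans ?_) (norm_nonneg _)
    exact Finset.prod_le_prod (fun _ _ => norm_nonneg _) fun j _ => norm_pr_le _ _

theorem D_one (v : Fin 1 → V) : D v = ‖v 0‖ := by rw [D_succ]; simp

theorem D_two (a b : V) : D ![a, b] = ‖a‖ * ‖pr a b‖ := by
  rw [D_succ, D_one]; rfl

/-- orthogonal projection onto the complement of the span of `x`, by recursion -/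
def Pj : (k : ℕ) → (Fin k → V) → V →L[ℝ] V
  | 0, _ => ContinuousLinearMap.id ℝ V
  | k + 1, x => (Pj k fun j => pr (x 0) (x j.succ)).comp (prL (x 0))

theorem Pj_realize : True := by have := @Pj.eq_def; trivial

@[simp] theorem Pj_zero (x : Fin 0 → V) (v : V) : Pj 0 x v = v := rfl

theorem Pj_succ {k : ℕ} (x : Fin (k + 1) → V) (v : V) :
    Pj (k + 1) x v = Pj k (fun j => pr (x 0) (x j.succ)) (pr (x 0) v) := by
  simp [Pj]

theorem Pj_of_inner : ∀ {k : ℕ} (x : Fin k → V) (a : V), (∀ j, ⟪x j, a⟫ = 0) → Pj k x a = a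
  | 0, _, _, _ => rfl
  | k + 1, x, a, h => by
    rw [Pj_succ, pr_of_inner_eq_zero (h 0)]
    refine Pj_of_inner _ _ fun j => ?_
    rw [inner_pr_comm, pr_of_inner_eq_zero (h 0), h]

theorem inner_Pj_comm : ∀ {k : ℕ} (x : Fin k → V) (v w : V), ⟪Pj k x v, w⟫ = ⟪v, Pj k x w⟫
  | 0, _, _, _ => rfl
  | k + 1, x, v, w => by
    have ha : Pj k (fun j => pr (x 0) (x j.succ)) (x 0) = x 0 :=
      Pj_of_inner _ _ fun j => by rw [real_inner_comm]; exact inner_pr_self _ _
    rw [Pj_succ, Pj_succ, inner_Pj_comm, inner_pr_comm]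
    congr 1
    rw [pr, ← inner_Pj_comm, ha, pr, map_sub, map_smul, ha]

theorem map_Pj (ι : W →ₗᵢ[ℝ] V) : ∀ {k : ℕ} (x : Fin k → W) (v : W),
    ι (Pj k x v) = Pj k (fun j => ι (x j)) (ι v)
  | 0, _, _ => rfl
  | k + 1, x, v => by
    rw [Pj_succ, Pj_succ, map_Pj ι]
    simp only [map_pr]

theorem D_cons_eq : ∀ {k : ℕ} (u : V) (x : Fin k → V),
    D (Fin.cons u x : Fin (k + 1) → V) = D x * ‖Pj k x u‖
  | 0, u, x => by rw [D_one]; simp
  | k + 1, u, x => by
    have h : (Fin.cons u x : Fin (k + 2) → V) = Fin.cons u (Fin.cons (x 0) (Fin.tail x)) := by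
      rw [Fin.cons_self_tail]
    rw [h, D_swap, D_cons, D_succ x, Pj_succ, mul_assoc, ← D_cons_eq]
    congr 2
    ext j
    refine Fin.cases ?_ (fun j => ?_) j <;> simp [Fin.tail]

/-- the linear map `x ↦ (⟪g j, x⟫)_j` -/
def lin {k : ℕ} (g : Fin k → V) : V →L[ℝ] (Fin k → ℝ) :=
  ContinuousLinearMap.pi fun j => innerSL ℝ (g j)

@[simp] theorem lin_apply {k : ℕ} (g : Fin k → V) (x : V) (j : Fin k) : lin g x j = ⟪g j, x⟫ := by
  simp [lin]

/-- the convex set cut out by the values of `h` on the unit sphere -/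
def Zs (h : V → ℝ) : Set V := {x | ∀ u : V, ‖u‖ = 1 → ⟪x, u⟫ ≤ h u}

end alg

section meas

variable {V : Type} [NormedAddCommGroup V] [InnerProductSpace ℝ V] [FiniteDimensional ℝ V]
  [MeasurableSpace V] [BorelSpace V]

variable (V) in
/-- `k` independent standard Gaussian vectors -/
abbrev γk (k : ℕ) : Measure (Fin k → V) := Measure.pi fun _ : Fin k => stdGaussian V

@[fun_prop] theorem measurable_pr {X : Type*} [MeasurableSpace X] {a v : X → V}
    (ha : Measurable a) (hv : Measurable v) : Measurable fun x => pr (a x) (v x) := by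
  unfold pr
  fun_prop

@[fun_prop] theorem measurable_D {X : Type*} [MeasurableSpace X] {k : ℕ} {v : X → Fin k → V}
    (hv : Measurable v) : Measurable fun x => D (v x) :=
  continuous_D.measurable.comp hv

theorem measurable_Pj : ∀ (k : ℕ) {X : Type} [MeasurableSpace X] {x : X → Fin k → V} {v : X → V},
    Measurable x → Measurable v → Measurable fun p => Pj k (x p) (v p)
  | 0, _, _, _, _, _, hv => hv
  | k + 1, _, _, x, v, hx, hv => by
    simp only [Pj_succ]
    exact measurable_Pj k (by fun_prop) (by fun_prop)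

theorem integrable_norm_pow (p : ℕ) : Integrable (fun x : V => ‖x‖ ^ p) (stdGaussian V) := by
  rcases Nat.eq_zero_or_pos p with rfl | hp
  · simp
  · exact (IsGaussian.memLp_id (stdGaussian V) p (by simp)).integrable_norm_pow hp.ne'

theorem integrable_prod_norm_pow (k p : ℕ) :
    Integrable (fun x : Fin k → V => ∏ j, ‖x j‖ ^ p) (γk V k) :=
  Integrable.fintype_prod (f := fun _ (x : V) => ‖x‖ ^ p) fun _ => integrable_norm_pow p

/-- bounded measurable functions -/
structure Bd {X : Type} [MeasurableSpace X] (f : X → ℝ) : Prop where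
  meas : Measurable f
  bdd : ∃ C, ∀ x, |f x| ≤ C

/-- measurable functions bounded above and below by positive constants -/
structure Pos {X : Type} [MeasurableSpace X] (f : X → ℝ) : Prop where
  meas : Measurable f
  bdd : ∃ c C, 0 < c ∧ ∀ x, c ≤ f x ∧ f x ≤ C

/-- densities on the sphere, as `0`-homogeneous functions -/
structure Den (f : V → ℝ) : Prop extends Pos f where
  hom : ∀ t : ℝ, 0 < t → ∀ x, f (t • x) = f x

theorem Pos.pos {X : Type} [MeasurableSpace X] {f : X → ℝ} (hf : Pos f) (x : X) : 0 < f x := by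
  obtain ⟨c, C, hc, h⟩ := hf.bdd
  exact hc.trans_le (h x).1

theorem Pos.bd {X : Type} [MeasurableSpace X] {f : X → ℝ} (hf : Pos f) : Bd f := by
  obtain ⟨c, C, hc, h⟩ := hf.bdd
  exact ⟨hf.meas, C, fun x => by rw [abs_of_pos (hf.pos x)]; exact (h x).2⟩

theorem Bd.integrable {X : Type} [MeasurableSpace X] {f : X → ℝ} (hf : Bd f) (μ : Measure X)
    [IsFiniteMeasure μ] : Integrable f μ := by
  obtain ⟨C, h⟩ := hf.bdd
  exact Integrable.of_bound hf.meas.aestronglyMeasurable C (ae_of_all _ h)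

theorem Pos.rpow {X : Type} [MeasurableSpace X] {f : X → ℝ} (hf : Pos f) {r : ℝ} (hr : 0 ≤ r) :
    Pos fun x => f x ^ r := by
  obtain ⟨c, C, hc, h⟩ := hf.bdd
  refine ⟨hf.meas.pow_const r, c ^ r, C ^ r, Real.rpow_pos_of_pos hc r, fun x => ⟨?_, ?_⟩⟩
  · exact Real.rpow_le_rpow hc.le (h x).1 hr
  · exact Real.rpow_le_rpow (hf.pos x).le (h x).2 hr

theorem Den.rpow {f : V → ℝ} (hf : Den f) {r : ℝ} (hr : 0 ≤ r) : Den fun x => f x ^ r :=
  ⟨hf.toPos.rpow hr, fun t ht x => by rw [hf.hom t ht]⟩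

theorem Den.one : Den fun _ : V => (1 : ℝ) :=
  ⟨⟨measurable_const, 1, 1, one_pos, fun _ => ⟨le_rfl, le_rfl⟩⟩, fun _ _ _ => rfl⟩

/-- support function of the zonoid with generating density `f` -/
def hz (f : V → ℝ) (u : V) : ℝ := ∫ y, |⟪u, y⟫| * f y ∂(stdGaussian V)

/-- spherical Radon transform -/
def Rd (f : V → ℝ) (y : V) : ℝ := ∫ x, f (pr y x) ∂(stdGaussian V)

/-- density of the `k`-th area measure of the zonoid with generating density `f` -/
def sk (k : ℕ) (f : V → ℝ) (y : V) : ℝ := by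
  classical
  exact if y = 0 then 1 else
    (∫ x, D (fun j => pr y (x j)) ^ 2 * ∏ j, f (pr y (x j)) ∂(γk V k))
      / ((finrank ℝ V - 1).descFactorial k : ℝ)

/-- the projection body operator on support functions -/
def PP (i : ℕ) (h : V → ℝ) (u : V) : ℝ := intrinsicVol i (pr u '' Zs h)

theorem intrinsicVol_eq (i : ℕ) (M : Set V) :
    intrinsicVol i M = ∫ g, (volume (lin g '' M)).toReal ∂(γk V i) := rfl

theorem projBody_eq (i : ℕ) (K : Set V) :
    projBody i K = Zs fun u => intrinsicVol i (pr u '' K) := by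
  ext x
  simp only [projBody, Zs, mem_ofPred_eq]
  have : ∀ u : V, ((ℝ ∙ u)ᗮ.starProjection : V → V) = pr u := fun u =>
    funext fun v => starProjection_eq_pr u v
  simp only [this]

end meas

end Pool.Agent.P.MP_181257_gt
end
end

-- part Pool.Agent.P.MP_181257_gt.Var
section

/-! First variation of a smoothed volume under Minkowski addition. -/

set_option autoImplicit false
set_option linter.unusedSectionVars false

open MeasureTheory ProbabilityTheory Module Set Filter Topology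
open scoped RealInnerProductSpace ENNReal Pointwise Matrix

noncomputable section

namespace Pool.Agent.P.MP_181257_gt

variable {V : Type} [NormedAddCommGroup V] [InnerProductSpace ℝ V] [FiniteDimensional ℝ V]
  [MeasurableSpace V] [BorelSpace V]

/-- the Lipschitz bump of height `η` over `C` -/
def bump {d : ℕ} (η : ℝ) (C : Set (Fin d → ℝ)) (x : Fin d → ℝ) : ℝ :=
  max (η - Metric.infDist x C) 0

theorem var_lip {d : ℕ} (η : ℝ) (C : Set (Fin d → ℝ)) : LipschitzWith 1 (bump η C) := by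
  refine LipschitzWith.of_le_add fun x y => ?_
  have h : Metric.infDist y C ≤ Metric.infDist x C + dist y x :=
    Metric.infDist_le_infDist_add_dist
  rw [dist_comm] at h
  have h0 : 0 ≤ dist x y := dist_nonneg
  unfold bump
  refine max_le ?_ ?_
  · have := le_max_left (η - Metric.infDist y C) 0
    linarith
  · have := le_max_right (η - Metric.infDist y C) 0
    linarith

theorem var_bump_nonneg {d : ℕ} (η : ℝ) (C : Set (Fin d → ℝ)) (x : Fin d → ℝ) :
    0 ≤ bump η C x := le_max_right _ _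

theorem var_zero_far {d : ℕ} (η : ℝ) {C : Set (Fin d → ℝ)} (hC : IsCompact C)
    (hne : C.Nonempty) {R : ℝ} (hR : ∀ c ∈ C, ‖c‖ ≤ R) {x : Fin d → ℝ}
    (hx : x ∉ Metric.closedBall (0 : Fin d → ℝ) (R + η)) : bump η C x = 0 := by
  obtain ⟨c, hc, he⟩ := hC.exists_infDist_eq_dist hne x
  rw [mem_closedBall_zero_iff, not_le] at hx
  have h1 : ‖x‖ - ‖c‖ ≤ ‖x - c‖ := norm_sub_norm_le x c
  have h2 := hR c hc
  unfold bump
  rw [he, dist_eq_norm]
  exact max_eq_right (by linarith)

theorem var_compactSupport {d : ℕ} (η : ℝ) {C : Set (Fin d → ℝ)} (hC : IsCompact C)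
    (hne : C.Nonempty) : HasCompactSupport (bump η C) := by
  obtain ⟨R, hR⟩ := hC.isBounded.exists_norm_le
  exact HasCompactSupport.intro (isCompact_closedBall (0 : Fin d → ℝ) (R + η))
    fun x hx => var_zero_far η hC hne hR hx

theorem integrable_bump {d : ℕ} (η : ℝ) {C : Set (Fin d → ℝ)} (hC : IsCompact C)
    (hne : C.Nonempty) : Integrable (bump η C) :=
  (var_lip η C).continuous.integrable_of_hasCompactSupport (var_compactSupport η hC hne)

theorem norm_fderiv_bump_le {d : ℕ} (η : ℝ) (C : Set (Fin d → ℝ)) (x : Fin d → ℝ) :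
    ‖fderiv ℝ (bump η C) x‖ ≤ 1 := by
  simpa using norm_fderiv_le_of_lipschitz ℝ (x₀ := x) (var_lip η C)

theorem integrable_norm_fderiv_bump {d : ℕ} (η : ℝ) {C : Set (Fin d → ℝ)} (hC : IsCompact C)
    (hne : C.Nonempty) : Integrable fun x => ‖fderiv ℝ (bump η C) x‖ := by
  have hs : IsCompact (tsupport (bump η C)) := var_compactSupport η hC hne
  have hsub : Function.support (fun x => ‖fderiv ℝ (bump η C) x‖) ⊆ tsupport (bump η C) := by
    intro x hx
    apply support_fderiv_subset ℝ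
    intro h
    apply hx
    simp [h]
  rw [← integrableOn_iff_integrable_of_support_subset hsub]
  refine Measure.integrableOn_of_bounded (M := 1) hs.measure_lt_top.ne ?_ ?_
  · exact (measurable_fderiv ℝ (bump η C)).norm.aestronglyMeasurable
  · refine Eventually.of_forall fun x => ?_
    rw [norm_norm]
    exact norm_fderiv_bump_le η C x

theorem var_le_add {d : ℕ} (η t : ℝ) {C M : Set (Fin d → ℝ)} (hC : IsCompact C)
    (hne : C.Nonempty) {m : Fin d → ℝ} (hm : m ∈ M) (x : Fin d → ℝ) :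
    bump η C (x - t • m) ≤ bump η (C + t • M) x := by
  obtain ⟨c, hc, he⟩ := hC.exists_infDist_eq_dist hne (x - t • m)
  have h1 : Metric.infDist x (C + t • M) ≤ dist x (c + t • m) :=
    Metric.infDist_le_dist_of_mem (Set.add_mem_add hc (Set.smul_mem_smul_set hm))
  have h2 : dist x (c + t • m) = dist (x - t • m) c := by
    rw [dist_eq_norm, dist_eq_norm]
    congr 1
    abel
  unfold bump
  refine max_le_max ?_ le_rfl
  linarith

theorem var_exists_eq {d : ℕ} (η t : ℝ) {C M : Set (Fin d → ℝ)} (hC : IsCompact C)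
    (hne : C.Nonempty) (hM : IsCompact M) (hMne : M.Nonempty) (x : Fin d → ℝ) :
    ∃ m ∈ M, bump η (C + t • M) x = bump η C (x - t • m) := by
  obtain ⟨y, hy, he⟩ := (hC.add (hM.smul t)).exists_infDist_eq_dist (hne.add (hMne.smul_set)) x
  obtain ⟨c, hc, z, ⟨m, hm, rfl⟩, rfl⟩ := hy
  refine ⟨m, hm, le_antisymm ?_ (var_le_add η t hC hne hm x)⟩
  have h1 : Metric.infDist (x - t • m) C ≤ dist (x - t • m) c := Metric.infDist_le_dist_of_mem hc
  have h2 : dist x (c + t • m) = dist (x - t • m) c := by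
    rw [dist_eq_norm, dist_eq_norm]
    congr 1
    abel
  unfold bump
  refine max_le_max ?_ le_rfl
  simp only at he
  linarith

theorem var_pointwise {d : ℕ} (η : ℝ) {C M : Set (Fin d → ℝ)} (hC : IsCompact C)
    (hne : C.Nonempty) (hM : IsCompact M) {H : ((Fin d → ℝ) →L[ℝ] ℝ) → ℝ}
    (hH : ∀ ℓ : (Fin d → ℝ) →L[ℝ] ℝ, IsGreatest (ℓ '' M) (H ℓ)) {x : Fin d → ℝ}
    (hx : DifferentiableAt ℝ (bump η C) x) :
    Tendsto (fun t : ℝ => (bump η (C + t • M) x - bump η C x) / t) (𝓝[>] 0)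
      (𝓝 (H (-fderiv ℝ (bump η C) x))) := by
  obtain ⟨R0, hR0⟩ := hM.isBounded.exists_norm_le
  set R := max R0 1 with hRdef
  have hR : ∀ m ∈ M, ‖m‖ ≤ R := fun m hm => (hR0 m hm).trans (le_max_left _ _)
  have hRpos : 0 < R := lt_of_lt_of_le one_pos (le_max_right _ _)
  set D := fderiv ℝ (bump η C) x with hD
  obtain ⟨⟨m0, hm0, hm0e⟩, hup⟩ := hH (-D)
  have hMne : M.Nonempty := ⟨m0, hm0⟩
  have hlo := (hasFDerivAt_iff_isLittleO_nhds_zero.1 hx.hasFDerivAt)
  rw [Metric.tendsto_nhdsWithin_nhds]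
  intro ε hε
  have hev := hlo.def (c := ε / (2 * R)) (by positivity)
  obtain ⟨δ, hδ, hb⟩ := Metric.eventually_nhds_iff.1 hev
  refine ⟨δ / R, by positivity, fun {t} ht htd => ?_⟩
  have ht0 : 0 < t := ht
  rw [dist_zero_right, Real.norm_eq_abs, abs_of_pos ht0, lt_div_iff₀ hRpos] at htd
  have key : ∀ m ∈ M, |bump η C (x - t • m) - bump η C x - t * (-D) m| ≤ t * (ε / 2) := by
    intro m hm
    have hn : ‖-(t • m)‖ ≤ t * R := by
      rw [norm_neg, norm_smul, Real.norm_eq_abs, abs_of_pos ht0]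
      exact mul_le_mul_of_nonneg_left (hR m hm) ht0.le
    have h1 := hb (y := -(t • m)) (by rw [dist_zero_right]; exact hn.trans_lt htd)
    rw [Real.norm_eq_abs, ← sub_eq_add_neg, ← hD] at h1
    have h2 : D (-(t • m)) = t * (-D) m := by simp
    rw [h2] at h1
    refine h1.trans ?_
    calc ε / (2 * R) * ‖-(t • m)‖ ≤ ε / (2 * R) * (t * R) := by gcongr
      _ = t * (ε / 2) := by field_simp
  obtain ⟨m1, hm1, he⟩ := var_exists_eq η t hC hne hM hMne x
  have hA := abs_le.1 (key m1 hm1)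
  have hB := abs_le.1 (key m0 hm0)
  have hC1 := var_le_add η t hC hne hm0 x
  have hD1 : (-D) m1 ≤ H (-D) := hup ⟨m1, hm1, rfl⟩
  have hD2 : t * (-D) m1 ≤ t * H (-D) := mul_le_mul_of_nonneg_left hD1 ht0.le
  rw [hm0e] at hB
  rw [Real.dist_eq]
  have h3 : (bump η (C + t • M) x - bump η C x) / t - H (-D)
      = (bump η (C + t • M) x - bump η C x - t * H (-D)) / t := by
    field_simp
  rw [h3, abs_div, abs_of_pos ht0, div_lt_iff₀ ht0]
  have h4 : |bump η (C + t • M) x - bump η C x - t * H (-D)| ≤ t * (ε / 2) := by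
    rw [abs_le]
    constructor
    · linarith [hB.1]
    · rw [he]
      linarith [hA.2]
  have h5 : 0 < t * ε := mul_pos ht0 hε
  linarith

theorem first_variation {d : ℕ} (η : ℝ) {C M : Set (Fin d → ℝ)} (hC : IsCompact C)
    (hne : C.Nonempty) (hM : IsCompact M) {H : ((Fin d → ℝ) →L[ℝ] ℝ) → ℝ}
    (hH : ∀ ℓ : (Fin d → ℝ) →L[ℝ] ℝ, IsGreatest (ℓ '' M) (H ℓ)) :
    Tendsto (fun t : ℝ => ((∫ x, bump η (C + t • M) x) - ∫ x, bump η C x) / t) (𝓝[>] 0)
      (𝓝 (∫ x, H (-fderiv ℝ (bump η C) x))) := by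
  obtain ⟨R0, hR0⟩ := hM.isBounded.exists_norm_le
  obtain ⟨S, hS⟩ := hC.isBounded.exists_norm_le
  set R := max R0 0 with hRdef
  have hR : ∀ m ∈ M, ‖m‖ ≤ R := fun m hm => (hR0 m hm).trans (le_max_left _ _)
  have hRn : 0 ≤ R := le_max_right _ _
  obtain ⟨⟨m0, hm0, -⟩, -⟩ := hH 0
  have hMne : M.Nonempty := ⟨m0, hm0⟩
  have hint : ∀ t : ℝ, Integrable (bump η (C + t • M)) := fun t =>
    integrable_bump η (hC.add (hM.smul t)) (hne.add hMne.smul_set)
  have h1 : (fun t : ℝ => ((∫ x, bump η (C + t • M) x) - ∫ x, bump η C x) / t)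
      = fun t : ℝ => ∫ x, (bump η (C + t • M) x - bump η C x) / t := by
    funext t
    rw [integral_div, integral_sub (hint t) (integrable_bump η hC hne)]
  rw [h1]
  refine tendsto_integral_filter_of_dominated_convergence
    ((Metric.closedBall (0 : Fin d → ℝ) (S + R + η)).indicator fun _ => R) ?_ ?_ ?_ ?_
  · refine Eventually.of_forall fun t => ?_
    exact (((var_lip η (C + t • M)).continuous.sub (var_lip η C).continuous).div_const
      t).aestronglyMeasurable
  · filter_upwards [Ioc_mem_nhdsGT (zero_lt_one' ℝ)] with t ht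
    refine Eventually.of_forall fun x => ?_
    by_cases hx : x ∈ Metric.closedBall (0 : Fin d → ℝ) (S + R + η)
    · rw [indicator_of_mem hx]
      obtain ⟨m, hm, he⟩ := var_exists_eq η t hC hne hM hMne x
      have h2 := (var_lip η C).dist_le_mul (x - t • m) x
      rw [Real.dist_eq, dist_eq_norm, NNReal.coe_one, one_mul, sub_sub_cancel_left, norm_neg,
        norm_smul, Real.norm_eq_abs, abs_of_pos ht.1] at h2
      rw [he, Real.norm_eq_abs, abs_div, abs_of_pos ht.1, div_le_iff₀ ht.1, mul_comm]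
      exact h2.trans (mul_le_mul_of_nonneg_left (hR m hm) ht.1.le)
    · rw [indicator_of_notMem hx]
      have h2 : bump η C x = 0 :=
        var_zero_far η hC hne (R := S + R) (fun c hc => by linarith [hS c hc]) hx
      have h3 : bump η (C + t • M) x = 0 := by
        refine var_zero_far η (hC.add (hM.smul t)) (hne.add hMne.smul_set) (R := S + R) ?_ hx
        rintro _ ⟨c, hc, z, ⟨m, hm, rfl⟩, rfl⟩
        refine (norm_add_le _ _).trans (add_le_add (hS c hc) ?_)
        rw [norm_smul, Real.norm_eq_abs, abs_of_pos ht.1]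
        calc t * ‖m‖ ≤ 1 * R := mul_le_mul ht.2 (hR m hm) (norm_nonneg _) zero_le_one
          _ = R := one_mul R
      simp [h2, h3]
  · rw [integrable_indicator_iff Metric.isClosed_closedBall.measurableSet]
    exact integrableOn_const (isCompact_closedBall _ _).measure_lt_top.ne
  · filter_upwards [(var_lip η C).ae_differentiableAt (μ := volume)] with x hx
    exact var_pointwise η hC hne hM hH hx

/-- the shrunken bump -/
def varB {d : ℕ} (η s : ℝ) (Z : Set (Fin d → ℝ)) (x : Fin d → ℝ) : ℝ :=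
  max (η - s * Metric.infDist x Z) 0

theorem var_scale {d : ℕ} (η : ℝ) {s : ℝ} (hs : 0 < s) (Z : Set (Fin d → ℝ)) :
    ∫ x, bump η (s • Z) x = s ^ d * ∫ x, varB η s Z x := by
  have h := Measure.integral_comp_smul (volume : Measure (Fin d → ℝ)) (bump η (s • Z)) s
  have h2 : (fun x => bump η (s • Z) (s • x)) = varB η s Z := by
    funext x
    unfold bump varB
    rw [infDist_smul₀ hs.ne', Real.norm_eq_abs, abs_of_pos hs]
  have hp : 0 < s ^ d := pow_pos hs d
  rw [h2, Module.finrank_fin_fun, abs_of_pos (inv_pos.2 hp), smul_eq_mul] at h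
  rw [h, ← mul_assoc, mul_inv_cancel₀ hp.ne', one_mul]

theorem var_diff_bounds {d : ℕ} {η t : ℝ} (hη : 0 < η) (ht : 0 ≤ t) {Z : Set (Fin d → ℝ)}
    (hne : Z.Nonempty) (x : Fin d → ℝ) :
    0 ≤ bump η Z x - varB η (1 + t) Z x ∧
      bump η Z x - varB η (1 + t) Z x
        ≤ (Metric.cthickening η Z \ Z).indicator (fun _ => t * η) x := by
  have h0 : 0 ≤ Metric.infDist x Z := Metric.infDist_nonneg
  have h1 : 0 ≤ t * Metric.infDist x Z := mul_nonneg ht h0
  constructor
  · unfold bump varB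
    have : max (η - (1 + t) * Metric.infDist x Z) 0 ≤ max (η - Metric.infDist x Z) 0 :=
      max_le_max (by linarith) le_rfl
    linarith
  · by_cases hx : x ∈ Z
    · have : (Metric.cthickening η Z \ Z).indicator (fun _ => t * η) x = 0 :=
        indicator_of_notMem (fun h => h.2 hx) _
      rw [this]
      unfold bump varB
      rw [Metric.infDist_zero_of_mem hx]
      simp
    · by_cases hlt : Metric.infDist x Z < η
      · have hm : x ∈ Metric.cthickening η Z \ Z :=
          ⟨Metric.thickening_subset_cthickening _ _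
            ((Metric.mem_thickening_iff_infDist_lt hne).2 hlt), hx⟩
        rw [indicator_of_mem hm]
        unfold bump varB
        have h2 : t * Metric.infDist x Z ≤ t * η := mul_le_mul_of_nonneg_left hlt.le ht
        rw [max_eq_left (by linarith : 0 ≤ η - Metric.infDist x Z)]
        have := le_max_left (η - (1 + t) * Metric.infDist x Z) 0
        linarith
      · have h2 : bump η Z x = 0 := max_eq_right (by linarith [not_lt.1 hlt])
        have h3 : 0 ≤ varB η (1 + t) Z x := le_max_right _ _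
        have h4 : 0 ≤ (Metric.cthickening η Z \ Z).indicator (fun _ => t * η) x :=
          indicator_nonneg (fun _ _ => mul_nonneg ht hη.le) x
        linarith

theorem var_integrable_varB {d : ℕ} {η t : ℝ} (hη : 0 < η) (ht : 0 ≤ t) {Z : Set (Fin d → ℝ)}
    (hZ : IsCompact Z) (hne : Z.Nonempty) : Integrable (varB η (1 + t) Z) := by
  refine (integrable_bump η hZ hne).mono' ?_ (Eventually.of_forall fun x => ?_)
  · have : Continuous (varB η (1 + t) Z) :=
      (continuous_const.sub (continuous_const.mul (Metric.continuous_infDist_pt Z))).max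
        continuous_const
    exact this.aestronglyMeasurable
  · have h3 : 0 ≤ varB η (1 + t) Z x := le_max_right _ _
    rw [Real.norm_eq_abs, abs_of_nonneg h3]
    linarith [(var_diff_bounds hη ht hne x).1]

theorem var_int_diff {d : ℕ} {η t : ℝ} (hη : 0 < η) (ht : 0 ≤ t) {Z : Set (Fin d → ℝ)}
    (hZ : IsCompact Z) (hne : Z.Nonempty) :
    0 ≤ (∫ x, bump η Z x) - ∫ x, varB η (1 + t) Z x ∧
      (∫ x, bump η Z x) - ∫ x, varB η (1 + t) Z x
        ≤ (volume.real (Metric.cthickening η Z) - volume.real Z) * (t * η) := by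
  have hi1 := integrable_bump η hZ hne
  have hi2 := var_integrable_varB hη ht hZ hne
  have hK : IsCompact (Metric.cthickening η Z) := hZ.cthickening
  have hmeas : MeasurableSet (Metric.cthickening η Z \ Z) :=
    hK.measurableSet.diff hZ.measurableSet
  rw [← integral_sub hi1 hi2]
  refine ⟨integral_nonneg fun x => (var_diff_bounds hη ht hne x).1, ?_⟩
  have hi3 : Integrable ((Metric.cthickening η Z \ Z).indicator fun _ => t * η) := by
    rw [integrable_indicator_iff hmeas]
    exact integrableOn_const ((measure_mono sdiff_subset).trans_lt hK.measure_lt_top).ne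
  refine (integral_mono (hi1.sub hi2) hi3 fun x => (var_diff_bounds hη ht hne x).2).trans ?_
  rw [integral_indicator_const _ hmeas, smul_eq_mul,
    measureReal_sdiff (Metric.self_subset_cthickening Z) hZ.measurableSet hK.measure_lt_top.ne]

theorem var_int_bounds {d : ℕ} {η : ℝ} (hη : 0 < η) {Z : Set (Fin d → ℝ)}
    (hZ : IsCompact Z) (hne : Z.Nonempty) :
    volume.real Z * η ≤ ∫ x, bump η Z x ∧
      ∫ x, bump η Z x ≤ volume.real (Metric.cthickening η Z) * η := by
  have hi1 := integrable_bump η hZ hne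
  have hK : IsCompact (Metric.cthickening η Z) := hZ.cthickening
  constructor
  · have hi3 : Integrable (Z.indicator fun _ => η) := by
      rw [integrable_indicator_iff hZ.measurableSet]
      exact integrableOn_const hZ.measure_lt_top.ne
    have := integral_mono hi3 hi1 fun x => by
      by_cases hx : x ∈ Z
      · rw [indicator_of_mem hx]
        unfold bump
        rw [Metric.infDist_zero_of_mem hx, sub_zero]
        exact le_max_left _ _
      · rw [indicator_of_notMem hx]
        exact var_bump_nonneg η Z x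
    rwa [integral_indicator_const _ hZ.measurableSet, smul_eq_mul] at this
  · have hi3 : Integrable ((Metric.cthickening η Z).indicator fun _ => η) := by
      rw [integrable_indicator_iff hK.measurableSet]
      exact integrableOn_const hK.measure_lt_top.ne
    have := integral_mono hi1 hi3 fun x => by
      have h0 : 0 ≤ Metric.infDist x Z := Metric.infDist_nonneg
      by_cases hx : x ∈ Metric.cthickening η Z
      · rw [indicator_of_mem hx]
        exact max_le (by linarith) hη.le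
      · rw [indicator_of_notMem hx]
        have : ¬ Metric.infDist x Z < η := fun hlt =>
          hx (Metric.thickening_subset_cthickening _ _
            ((Metric.mem_thickening_iff_infDist_lt hne).2 hlt))
        exact max_le (by linarith [not_lt.1 this]) le_rfl
    rwa [integral_indicator_const _ hK.measurableSet, smul_eq_mul] at this

theorem var_limit_bounds {d : ℕ} {η : ℝ} (hη : 0 < η) {Z : Set (Fin d → ℝ)} (hZ : IsCompact Z)
    (hc : Convex ℝ Z) {H : ((Fin d → ℝ) →L[ℝ] ℝ) → ℝ}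
    (hH : ∀ ℓ : (Fin d → ℝ) →L[ℝ] ℝ, IsGreatest (ℓ '' Z) (H ℓ)) :
    d * (∫ x, bump η Z x) - (volume.real (Metric.cthickening η Z) - volume.real Z) * η
        ≤ ∫ x, H (-fderiv ℝ (bump η Z) x) ∧
      ∫ x, H (-fderiv ℝ (bump η Z) x) ≤ d * ∫ x, bump η Z x := by
  obtain ⟨⟨m0, hm0, -⟩, -⟩ := hH 0
  have hne : Z.Nonempty := ⟨m0, hm0⟩
  have hfv := first_variation η hZ hne hZ hH
  set Φ := ∫ x, bump η Z x with hΦ
  set w := volume.real (Metric.cthickening η Z) - volume.real Z with hw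
  have hslope : Tendsto (fun t : ℝ => t⁻¹ * ((1 + t) ^ d - 1)) (𝓝[>] 0) (𝓝 (d : ℝ)) := by
    have := (hasDerivAt_pow d (1 : ℝ)).tendsto_slope_zero_right
    simpa using this
  have hpow : Tendsto (fun t : ℝ => (1 + t) ^ d) (𝓝[>] 0) (𝓝 1) := by
    have : Continuous fun t : ℝ => (1 + t) ^ d := by fun_prop
    have h2 := this.tendsto 0
    simp only [add_zero, one_pow] at h2
    exact h2.mono_left nhdsWithin_le_nhds
  have hq : ∀ t : ℝ, 0 < t → ((∫ x, bump η (Z + t • Z) x) - Φ) / t
      = t⁻¹ * ((1 + t) ^ d - 1) * Φ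
        - (1 + t) ^ d * ((Φ - ∫ x, varB η (1 + t) Z x) / t) := by
    intro t ht
    have h1 : Z + t • Z = (1 + t) • Z := by
      rw [hc.add_smul zero_le_one ht.le, one_smul]
    rw [h1, var_scale η (by linarith)]
    field_simp
    ring
  constructor
  · have hl : Tendsto (fun t : ℝ => t⁻¹ * ((1 + t) ^ d - 1) * Φ - (1 + t) ^ d * (w * η))
        (𝓝[>] 0) (𝓝 (d * Φ - 1 * (w * η))) :=
      (hslope.mul_const Φ).sub (hpow.mul_const _)
    rw [one_mul] at hl
    refine le_of_tendsto_of_tendsto hl hfv ?_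
    filter_upwards [self_mem_nhdsWithin] with t ht
    have ht0 : 0 < t := ht
    rw [hq t ht0]
    have h2 := (var_int_diff hη ht0.le hZ hne).2
    have h3 : (Φ - ∫ x, varB η (1 + t) Z x) / t ≤ w * η := by
      rw [div_le_iff₀ ht0]
      linarith
    have h4 : 0 ≤ (1 + t) ^ d := by positivity
    linarith [mul_le_mul_of_nonneg_left h3 h4]
  · refine le_of_tendsto_of_tendsto hfv (hslope.mul_const Φ) ?_
    filter_upwards [self_mem_nhdsWithin] with t ht
    have ht0 : 0 < t := ht
    rw [hq t ht0]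
    have h2 := (var_int_diff hη ht0.le hZ hne).1
    have h3 : 0 ≤ (Φ - ∫ x, varB η (1 + t) Z x) / t := div_nonneg h2 ht0.le
    have h4 : 0 ≤ (1 + t) ^ d := by positivity
    linarith [mul_nonneg h4 h3]

/-- the first variation in the direction of the body itself -/
theorem self_variation {d : ℕ} {Z : Set (Fin d → ℝ)} (hZ : IsCompact Z) (hc : Convex ℝ Z)
    {H : ((Fin d → ℝ) →L[ℝ] ℝ) → ℝ}
    (hH : ∀ ℓ : (Fin d → ℝ) →L[ℝ] ℝ, IsGreatest (ℓ '' Z) (H ℓ)) :
    Tendsto (fun η : ℝ => (∫ x, H (-fderiv ℝ (bump η Z) x)) / η) (𝓝[>] 0)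
      (𝓝 (d * volume.real Z)) := by
  obtain ⟨⟨m0, hm0, -⟩, -⟩ := hH 0
  have hne : Z.Nonempty := ⟨m0, hm0⟩
  have hv : Tendsto (fun η : ℝ => volume.real (Metric.cthickening η Z)) (𝓝[>] 0)
      (𝓝 (volume.real Z)) :=
    ((ENNReal.tendsto_toReal hZ.measure_lt_top.ne).comp
      (tendsto_measure_cthickening_of_isCompact hZ)).mono_left nhdsWithin_le_nhds
  have hd : (0 : ℝ) ≤ d := Nat.cast_nonneg d
  have hlo : Tendsto (fun η : ℝ => d * volume.real Z
      - (volume.real (Metric.cthickening η Z) - volume.real Z)) (𝓝[>] 0)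
      (𝓝 (d * volume.real Z - (volume.real Z - volume.real Z))) :=
    tendsto_const_nhds.sub (hv.sub_const _)
  rw [sub_self, sub_zero] at hlo
  refine tendsto_of_tendsto_of_tendsto_of_le_of_le' hlo (hv.const_mul (d : ℝ)) ?_ ?_
  · filter_upwards [self_mem_nhdsWithin] with η hη
    have h0 : 0 < η := hη
    rw [le_div_iff₀ h0]
    have h1 := (var_limit_bounds h0 hZ hc hH).1
    have h2 := mul_le_mul_of_nonneg_left (var_int_bounds h0 hZ hne).1 hd
    linarith
  · filter_upwards [self_mem_nhdsWithin] with η hη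
    have h0 : 0 < η := hη
    rw [div_le_iff₀ h0]
    have h1 := (var_limit_bounds h0 hZ hc hH).2
    have h2 := mul_le_mul_of_nonneg_left (var_int_bounds h0 hZ hne).2 hd
    linarith

end Pool.Agent.P.MP_181257_gt
end
end

-- part Pool.Agent.P.MP_181257_gt.Shadow
section

/-! Shadows of convex sets. -/

set_option autoImplicit false
set_option linter.unusedSectionVars false

open MeasureTheory ProbabilityTheory Module Set Filter Topology
open scoped RealInnerProductSpace ENNReal Pointwise Matrix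

noncomputable section

namespace Pool.Agent.P.MP_181257_gt

variable {V : Type} [NormedAddCommGroup V] [InnerProductSpace ℝ V] [FiniteDimensional ℝ V]
  [MeasurableSpace V] [BorelSpace V]

/-- `‖z‖` times the volume of the projection of `C` along `z` -/
def shad {d : ℕ} (C : Set (Fin d → ℝ)) (z : Fin d → ℝ) : ℝ :=
  (volume.real (C + segment ℝ (-z) z) - volume.real C) / 2

theorem shadow_line {S : Set ℝ} (hc : Convex ℝ S) (hb : Bornology.IsBounded S) (hne : S.Nonempty)
    {r : ℝ} (hr : 0 ≤ r) :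
    volume (S + Icc (-r) r) = volume S + ENNReal.ofReal (2 * r) := by
  have hbb : BddBelow S := hb.bddBelow
  have hba : BddAbove S := hb.bddAbove
  have hab : sInf S ≤ sSup S := csInf_le_csSup hne hbb hba
  have hoc : S.OrdConnected := hc.ordConnected
  have h1 : volume S = ENNReal.ofReal (sSup S - sInf S) := by
    apply le_antisymm
    · rw [← Real.volume_Icc]
      exact measure_mono fun x hx => ⟨csInf_le hbb hx, le_csSup hba hx⟩
    · rw [← Real.volume_Ioo]
      refine measure_mono fun x hx => ?_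
      obtain ⟨a, ha, hax⟩ := exists_lt_of_csInf_lt hne hx.1
      obtain ⟨b, hb', hxb⟩ := exists_lt_of_lt_csSup hne hx.2
      exact hoc.out ha hb' ⟨hax.le, hxb.le⟩
  have h2 : volume (S + Icc (-r) r) = ENNReal.ofReal ((sSup S + r) - (sInf S - r)) := by
    apply le_antisymm
    · rw [← Real.volume_Icc]
      refine measure_mono ?_
      rintro _ ⟨x, hx, y, hy, rfl⟩
      have h1 := csInf_le hbb hx
      have h2 := le_csSup hba hx
      exact ⟨by have := hy.1; simp only; linarith, by have := hy.2; simp only; linarith⟩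
    · rw [← Real.volume_Ioo]
      refine measure_mono fun t ht => ?_
      obtain ⟨a, ha, hax⟩ := exists_lt_of_csInf_lt hne (show sInf S < t + r by linarith [ht.1])
      obtain ⟨b, hb', hxb⟩ := exists_lt_of_lt_csSup hne (show t - r < sSup S by linarith [ht.2])
      by_cases h : t - r ≤ a
      · exact ⟨a, ha, t - a, ⟨by linarith, by linarith⟩, by simp⟩
      · push Not at h
        exact ⟨t - r, hoc.out ha hb' ⟨h.le, hxb.le⟩, r, ⟨by linarith, le_rfl⟩, by simp⟩
  rw [h1, h2, ← ENNReal.ofReal_add (by linarith) (by linarith)]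
  congr 1
  ring

theorem shadow_slice {d : ℕ} {S : Set (Fin (d + 1) → ℝ)} (hS : MeasurableSet S) :
    volume S = ∫⁻ w : Fin d → ℝ, volume {t : ℝ | (Fin.cons t w : Fin (d + 1) → ℝ) ∈ S} := by
  have h := (volume_preserving_piFinSuccAbove (fun _ : Fin (d + 1) => ℝ) 0).symm
  rw [← h.measure_preimage hS.nullMeasurableSet, Measure.volume_eq_prod,
    Measure.prod_apply_symm (h.measurable hS)]
  refine lintegral_congr fun w => ?_
  congr 1
  ext t
  simp [MeasurableEquiv.piFinSuccAbove, Fin.insertNthEquiv]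

theorem shadow_isCompact_segment {d : ℕ} (a b : Fin d → ℝ) : IsCompact (segment ℝ a b) := by
  rw [segment_eq_image]
  exact isCompact_Icc.image (by fun_prop)

/-- dropping the first coordinate, as a linear map -/
def shadowTail (d : ℕ) : (Fin (d + 1) → ℝ) →ₗ[ℝ] (Fin d → ℝ) where
  toFun x := Fin.tail x
  map_add' _ _ := rfl
  map_smul' _ _ := rfl

theorem shadow_meas_image {d e : ℕ} (L : (Fin d → ℝ) →ₗ[ℝ] (Fin e → ℝ))
    (hL : Function.Surjective L) {C : Set (Fin d → ℝ)} (hm : IsOpen C ∨ IsCompact C) :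
    IsOpen (L '' C) ∨ IsCompact (L '' C) := by
  rcases hm with h | h
  · exact Or.inl (L.isOpenMap_of_finiteDimensional hL C h)
  · exact Or.inr (h.image L.continuous_of_finiteDimensional)

theorem shadow_measurableSet {d : ℕ} {C : Set (Fin d → ℝ)} (hm : IsOpen C ∨ IsCompact C) :
    MeasurableSet C := by
  rcases hm with h | h
  · exact h.measurableSet
  · exact h.measurableSet

theorem shadow_add_segment {d : ℕ} {C : Set (Fin d → ℝ)} (hm : IsOpen C ∨ IsCompact C)
    (a b : Fin d → ℝ) : IsOpen (C + segment ℝ a b) ∨ IsCompact (C + segment ℝ a b) := by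
  rcases hm with h | h
  · exact Or.inl h.add_right
  · exact Or.inr (h.add (shadow_isCompact_segment a b))

theorem shadow_mem_segment {d : ℕ} {r : ℝ} (hr : 0 ≤ r) (y : Fin (d + 1) → ℝ) :
    y ∈ segment ℝ (-(Pi.single 0 r : Fin (d + 1) → ℝ)) (Pi.single 0 r) ↔
      ∃ s ∈ Icc (-r) r, y = Pi.single 0 s := by
  have h : segment ℝ (-(Pi.single 0 r : Fin (d + 1) → ℝ)) (Pi.single 0 r)
      = (LinearMap.single ℝ (fun _ : Fin (d + 1) => ℝ) 0).toAffineMap '' segment ℝ (-r) r := by
    rw [image_segment]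
    simp [Pi.single_neg]
  rw [h, segment_eq_Icc (by linarith)]
  simp [eq_comm]

theorem shadow_vol_one {d : ℕ} {C : Set (Fin (d + 1) → ℝ)} (hc : Convex ℝ C)
    (hb : Bornology.IsBounded C) (hm : IsOpen C ∨ IsCompact C) {r : ℝ} (hr : 0 ≤ r) :
    volume (C + segment ℝ (-(Pi.single 0 r : Fin (d + 1) → ℝ)) (Pi.single 0 r))
      = volume C + ENNReal.ofReal (2 * r) * volume (shadowTail d '' C) := by
  have hsurj : Function.Surjective (shadowTail d) := fun w => ⟨Fin.cons 0 w, rfl⟩
  have hT : MeasurableSet (shadowTail d '' C) :=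
    shadow_measurableSet (shadow_meas_image _ hsurj hm)
  rw [shadow_slice (shadow_measurableSet (shadow_add_segment hm _ _)),
    shadow_slice (shadow_measurableSet hm), ← lintegral_indicator_const hT,
    ← lintegral_add_right _ (measurable_const.indicator hT)]
  refine lintegral_congr fun w => ?_
  set S : Set ℝ := {t : ℝ | (Fin.cons t w : Fin (d + 1) → ℝ) ∈ C} with hS
  have hcons : ∀ t s : ℝ, (Fin.cons (t + s) w : Fin (d + 1) → ℝ)
      = (Fin.cons t w : Fin (d + 1) → ℝ) + Pi.single 0 s := by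
    intro t s
    ext j
    refine Fin.cases ?_ (fun j => ?_) j <;> simp
  have hsum : {t : ℝ | (Fin.cons t w : Fin (d + 1) → ℝ) ∈
      C + segment ℝ (-(Pi.single 0 r : Fin (d + 1) → ℝ)) (Pi.single 0 r)} = S + Icc (-r) r := by
    ext t
    constructor
    · rintro ⟨x, hx, y, hy, hxy⟩
      obtain ⟨s, hs, rfl⟩ := (shadow_mem_segment hr y).1 hy
      refine ⟨t - s, ?_, s, hs, by simp⟩
      have h1 := hcons (t - s) s
      rw [sub_add_cancel] at h1
      have : x = Fin.cons (t - s) w := by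
        have h2 : x + Pi.single 0 s = (Fin.cons t w : Fin (d + 1) → ℝ) := hxy
        rw [h1] at h2
        exact add_right_cancel h2
      show (Fin.cons (t - s) w : Fin (d + 1) → ℝ) ∈ C
      rw [← this]; exact hx
    · rintro ⟨a, ha, s, hs, rfl⟩
      exact ⟨Fin.cons a w, ha, Pi.single 0 s, (shadow_mem_segment hr _).2 ⟨s, hs, rfl⟩,
        (hcons a s).symm⟩
  rw [hsum]
  by_cases hw : w ∈ shadowTail d '' C
  · rw [indicator_of_mem hw]
    refine shadow_line ?_ ?_ ?_ hr
    · intro a ha b hb' p q hp hq hpq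
      have := hc ha hb' hp hq hpq
      show (Fin.cons (p • a + q • b) w : Fin (d + 1) → ℝ) ∈ C
      convert this using 1
      ext j
      refine Fin.cases ?_ (fun j => ?_) j
      · simp
      · simp only [Fin.cons_succ, Pi.add_apply, Pi.smul_apply, smul_eq_mul]
        rw [← add_mul, hpq, one_mul]
    · obtain ⟨R, hR⟩ := hb.exists_norm_le
      refine (Metric.isBounded_iff_subset_closedBall 0).2 ⟨R, fun t ht => ?_⟩
      have h1 := hR _ ht
      have h2 := norm_le_pi_norm (Fin.cons t w : Fin (d + 1) → ℝ) 0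
      simp only [Fin.cons_zero] at h2
      simpa using h2.trans h1
    · obtain ⟨x, hx, rfl⟩ := hw
      refine ⟨x 0, ?_⟩
      show (Fin.cons (x 0) (Fin.tail x) : Fin (d + 1) → ℝ) ∈ C
      rw [Fin.cons_self_tail]; exact hx
  · rw [indicator_of_notMem hw]
    have : S = ∅ := eq_empty_of_forall_notMem fun t ht => hw ⟨_, ht, rfl⟩
    simp [this]

theorem shadow_vol {d : ℕ} {C : Set (Fin (d + 1) → ℝ)} (hc : Convex ℝ C)
    (hb : Bornology.IsBounded C) (hm : IsOpen C ∨ IsCompact C)
    {A : Matrix (Fin (d + 1)) (Fin (d + 1)) ℝ} (hA : A.det ≠ 0) {z : Fin (d + 1) → ℝ} {r : ℝ}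
    (hr : 0 ≤ r) (hz : A *ᵥ z = Pi.single 0 r) :
    volume (C + segment ℝ (-z) z) = volume C + ENNReal.ofReal (2 * r / |A.det|)
      * volume ((fun x => Fin.tail (A *ᵥ x)) '' C) := by
  set f : (Fin (d + 1) → ℝ) →ₗ[ℝ] (Fin (d + 1) → ℝ) := Matrix.toLin' A with hf
  have hdet : LinearMap.det f = A.det := by rw [hf, LinearMap.det_toLin']
  have hsurj : Function.Surjective f := by
    intro y
    refine ⟨A⁻¹ *ᵥ y, ?_⟩
    rw [hf, Matrix.toLin'_apply, Matrix.mulVec_mulVec, Matrix.mul_nonsing_inv _ (Ne.isUnit hA),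
      Matrix.one_mulVec]
  have h1 := shadow_vol_one (hc.linear_image f)
    ((LinearMap.toContinuousLinearMap f).lipschitz.isBounded_image hb)
    (shadow_meas_image f hsurj hm) hr
  have hseg : segment ℝ (-(Pi.single 0 r : Fin (d + 1) → ℝ)) (Pi.single 0 r)
      = f '' segment ℝ (-z) z := by
    have := image_segment ℝ f.toAffineMap (-z) z
    simp only [LinearMap.coe_toAffineMap, map_neg] at this
    rw [this, hf, Matrix.toLin'_apply, hz]
  rw [hseg, ← image_add, Measure.addHaar_image_linearMap, Measure.addHaar_image_linearMap, hdet,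
    image_image] at h1
  have hpos : 0 < |A.det| := abs_pos.2 hA
  have hne : ENNReal.ofReal |A.det| ≠ 0 := by simpa using hA
  refine (ENNReal.mul_right_inj hne ENNReal.ofReal_ne_top).1 ?_
  rw [h1, mul_add, ← mul_assoc, ← ENNReal.ofReal_mul hpos.le]
  congr 3
  field_simp

theorem shadow_img_ne_top {d : ℕ} {C : Set (Fin (d + 1) → ℝ)} (hb : Bornology.IsBounded C)
    (A : Matrix (Fin (d + 1)) (Fin (d + 1)) ℝ) :
    volume ((fun x => Fin.tail (A *ᵥ x)) '' C) ≠ ⊤ := by
  have h := (LinearMap.toContinuousLinearMap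
    ((shadowTail d).comp (Matrix.toLin' A))).lipschitz.isBounded_image hb
  exact h.measure_lt_top.ne

theorem shad_eq {d : ℕ} {C : Set (Fin (d + 1) → ℝ)} (hc : Convex ℝ C)
    (hb : Bornology.IsBounded C) (hm : IsOpen C ∨ IsCompact C)
    {A : Matrix (Fin (d + 1)) (Fin (d + 1)) ℝ} (hA : A.det ≠ 0) {z : Fin (d + 1) → ℝ} {r : ℝ}
    (hr : 0 ≤ r) (hz : A *ᵥ z = Pi.single 0 r) :
    shad C z = r * volume.real ((fun x => Fin.tail (A *ᵥ x)) '' C) / |A.det| := by
  have hpos : 0 < |A.det| := abs_pos.2 hA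
  unfold shad
  simp only [Measure.real]
  rw [shadow_vol hc hb hm hA hr hz, ENNReal.toReal_add hb.measure_lt_top.ne
    (ENNReal.mul_ne_top ENNReal.ofReal_ne_top (shadow_img_ne_top hb A)), ENNReal.toReal_mul,
    ENNReal.toReal_ofReal (by positivity)]
  ring

theorem exists_matrix {d : ℕ} {z : Fin (d + 1) → ℝ} (hz : z ≠ 0) :
    ∃ A : Matrix (Fin (d + 1)) (Fin (d + 1)) ℝ, A.det ≠ 0 ∧ A *ᵥ z = Pi.single 0 1 := by
  have h1 : (Pi.single 0 1 : Fin (d + 1) → ℝ) ≠ 0 := by
    intro h
    simpa using congrFun h 0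
  obtain ⟨e, he⟩ := SeparatingDual.exists_continuousLinearEquiv_apply_eq (R := ℝ) hz h1
  refine ⟨LinearMap.toMatrix' (e.toLinearEquiv : (Fin (d + 1) → ℝ) →ₗ[ℝ] (Fin (d + 1) → ℝ)),
    ?_, ?_⟩
  · rw [LinearMap.det_toMatrix']
    exact e.toLinearEquiv.isUnit_det'.ne_zero
  · rw [LinearMap.toMatrix'_mulVec]
    exact he

theorem shad_zero {d : ℕ} (C : Set (Fin d → ℝ)) : shad C 0 = 0 := by
  simp [shad]

theorem shadow_mono {d : ℕ} {C C' : Set (Fin (d + 1) → ℝ)} (hc : Convex ℝ C)
    (hm : IsOpen C ∨ IsCompact C) (hc' : Convex ℝ C') (hb' : Bornology.IsBounded C')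
    (hm' : IsOpen C' ∨ IsCompact C') (h : C ⊆ C') (z : Fin (d + 1) → ℝ) :
    shad C z ≤ shad C' z := by
  by_cases hz : z = 0
  · simp [hz, shad_zero]
  obtain ⟨A, hA, hAz⟩ := exists_matrix hz
  rw [shad_eq hc (hb'.subset h) hm hA zero_le_one hAz, shad_eq hc' hb' hm' hA zero_le_one hAz]
  have := measureReal_mono (μ := volume) (image_mono (f := fun x => Fin.tail (A *ᵥ x)) h)
    (shadow_img_ne_top hb' A)
  gcongr

theorem shadow_smul {d : ℕ} {C : Set (Fin (d + 1) → ℝ)} (hc : Convex ℝ C)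
    (hb : Bornology.IsBounded C) (hm : IsOpen C ∨ IsCompact C) (z : Fin (d + 1) → ℝ) {t : ℝ}
    (ht : 0 ≤ t) : shad C (t • z) = t * shad C z := by
  by_cases hz : z = 0
  · simp [hz, shad_zero]
  obtain ⟨A, hA, hAz⟩ := exists_matrix hz
  have h2 : A *ᵥ (t • z) = Pi.single 0 t := by
    rw [Matrix.mulVec_smul, hAz, ← Pi.single_smul, smul_eq_mul, mul_one]
  rw [shad_eq hc hb hm hA zero_le_one hAz, shad_eq hc hb hm hA ht h2]
  ring

theorem shadow_nonneg {d : ℕ} {C : Set (Fin (d + 1) → ℝ)} (hc : Convex ℝ C)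
    (hb : Bornology.IsBounded C) (hm : IsOpen C ∨ IsCompact C) (z : Fin (d + 1) → ℝ) :
    0 ≤ shad C z := by
  by_cases hz : z = 0
  · simp [hz, shad_zero]
  obtain ⟨A, hA, hAz⟩ := exists_matrix hz
  rw [shad_eq hc hb hm hA zero_le_one hAz]
  positivity

theorem shadow_vol_eq {d : ℕ} {C : Set (Fin (d + 1) → ℝ)} (hc : Convex ℝ C)
    (hb : Bornology.IsBounded C) (hm : IsOpen C ∨ IsCompact C) (z : Fin (d + 1) → ℝ) :
    volume (C + segment ℝ (-z) z) = volume C + ENNReal.ofReal (2 * shad C z) := by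
  have h0 := shadow_nonneg hc hb hm z
  have hb2 : Bornology.IsBounded (C + segment ℝ (-z) z) :=
    hb.add (shadow_isCompact_segment _ _).isBounded
  rw [← ofReal_measureReal hb2.measure_lt_top.ne, ← ofReal_measureReal hb.measure_lt_top.ne,
    ← ENNReal.ofReal_add measureReal_nonneg (by positivity)]
  congr 1
  unfold shad
  ring

theorem shadow_layer {d : ℕ} (η : ℝ) {C : Set (Fin d → ℝ)} (hC : IsCompact C)
    (hne : C.Nonempty) :
    ENNReal.ofReal (∫ x, bump η C x)
      = ∫⁻ τ in Ioi (0 : ℝ), volume (Metric.thickening (η - τ) C) := by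
  have hi := integrable_bump η hC hne
  have h0 : 0 ≤ᵐ[volume] bump η C := ae_of_all _ fun x => le_max_right _ _
  rw [ofReal_integral_eq_lintegral_ofReal hi h0,
    lintegral_eq_lintegral_meas_lt _ h0 hi.aemeasurable]
  refine setLIntegral_congr_fun measurableSet_Ioi fun τ hτ => ?_
  congr 1
  ext x
  have hτ' : 0 < τ := hτ
  rw [Metric.mem_thickening_iff_infDist_lt hne]
  simp only [bump, mem_ofPred_eq, lt_max_iff]
  constructor
  · rintro (h | h)
    · linarith
    · linarith
  · intro h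
    left; linarith

theorem shadow_diff {d : ℕ} {η : ℝ} (hη : 0 < η) {C : Set (Fin (d + 1) → ℝ)} (hC : IsCompact C)
    (hc : Convex ℝ C) (hne : C.Nonempty) (z : Fin (d + 1) → ℝ) :
    (∫ x, bump η C x) + 2 * shad C z * η ≤ ∫ x, bump η (C + segment ℝ (-z) z) x ∧
      ∫ x, bump η (C + segment ℝ (-z) z) x
        ≤ (∫ x, bump η C x) + 2 * shad (Metric.cthickening η C) z * η := by
  have hM := shadow_isCompact_segment (-z) z
  have hC2 : IsCompact (C + segment ℝ (-z) z) := hC.add hM
  have hne2 : (C + segment ℝ (-z) z).Nonempty := hne.add ⟨z, right_mem_segment _ _ _⟩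
  have hnn : ∀ S : Set (Fin (d + 1) → ℝ), 0 ≤ ∫ x, bump η S x := fun S =>
    integral_nonneg fun x => le_max_right _ _
  have hth : ∀ s : ℝ, volume (Metric.thickening s (C + segment ℝ (-z) z))
      = volume (Metric.thickening s C)
        + ENNReal.ofReal (2 * shad (Metric.thickening s C) z) := by
    intro s
    rw [← shadow_vol_eq (hc.thickening s) hC.isBounded.thickening
      (Or.inl Metric.isOpen_thickening), ← add_ball_zero, ← add_ball_zero, add_right_comm]
  have hs0 := shadow_nonneg hc hC.isBounded (Or.inr hC) z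
  have hs1 := shadow_nonneg (hc.cthickening η) hC.cthickening.isBounded
    (Or.inr hC.cthickening) z
  have hind : ∀ a : ℝ, 0 ≤ a → ∫⁻ τ in Ioi (0 : ℝ), (volume (Metric.thickening (η - τ) C)
      + (Iio η).indicator (fun _ => ENNReal.ofReal a) τ)
      = ENNReal.ofReal ((∫ x, bump η C x) + a * η) := by
    intro a ha
    rw [lintegral_add_right _ (measurable_const.indicator measurableSet_Iio),
      ← shadow_layer η hC hne, lintegral_indicator_const measurableSet_Iio,
      Measure.restrict_apply measurableSet_Iio, Iio_inter_Ioi, Real.volume_Ioo, sub_zero,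
      ← ENNReal.ofReal_mul ha, ← ENNReal.ofReal_add (hnn C) (by positivity)]
  constructor
  · rw [← ENNReal.ofReal_le_ofReal_iff (hnn _), ← hind _ (by positivity),
      shadow_layer η hC2 hne2]
    refine setLIntegral_mono' measurableSet_Ioi fun τ _ => ?_
    rw [hth]
    refine add_le_add le_rfl ?_
    by_cases h : τ ∈ Iio η
    · rw [indicator_of_mem h]
      refine ENNReal.ofReal_le_ofReal ?_
      have h' : τ < η := h
      have := shadow_mono hc (Or.inr hC) (hc.thickening (η - τ)) hC.isBounded.thickening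
        (Or.inl Metric.isOpen_thickening) (Metric.self_subset_thickening (by linarith) C) z
      linarith
    · rw [indicator_of_notMem h]
      exact zero_le
  · rw [← ENNReal.ofReal_le_ofReal_iff (by have := hnn C; positivity),
      ← hind _ (by positivity), shadow_layer η hC2 hne2]
    refine setLIntegral_mono' measurableSet_Ioi fun τ hτ => ?_
    have hτ' : 0 < τ := hτ
    by_cases h : τ ∈ Iio η
    · rw [hth, indicator_of_mem h]
      refine add_le_add le_rfl (ENNReal.ofReal_le_ofReal ?_)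
      have := shadow_mono (hc.thickening (η - τ)) (Or.inl Metric.isOpen_thickening)
        (hc.cthickening η) hC.cthickening.isBounded (Or.inr hC.cthickening)
        (Metric.thickening_subset_cthickening_of_le (by linarith) C) z
      linarith
    · have h' : η - τ ≤ 0 := by
        have : ¬ τ < η := h
        linarith
      rw [Metric.thickening_of_nonpos h']
      simp

theorem shadow_sandwich {d : ℕ} {η : ℝ} (hη : 0 < η) {C : Set (Fin (d + 1) → ℝ)}
    (hC : IsCompact C) (hc : Convex ℝ C) (hne : C.Nonempty) (z : Fin (d + 1) → ℝ) :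
    2 * shad C z ≤ (∫ x, |fderiv ℝ (bump η C) x z|) / η ∧
      (∫ x, |fderiv ℝ (bump η C) x z|) / η ≤ 2 * shad (Metric.cthickening η C) z := by
  have hM := shadow_isCompact_segment (-z) z
  have hH : ∀ ℓ : (Fin (d + 1) → ℝ) →L[ℝ] ℝ, IsGreatest (ℓ '' segment ℝ (-z) z) |ℓ z| := by
    intro ℓ
    constructor
    · rcases le_total 0 (ℓ z) with h | h
      · exact ⟨z, right_mem_segment _ _ _, (abs_of_nonneg h).symm⟩
      · exact ⟨-z, left_mem_segment _ _ _, by rw [map_neg, abs_of_nonpos h]⟩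
    · rintro _ ⟨y, ⟨a, b, ha, hb, hab, rfl⟩, rfl⟩
      simp only [map_add, map_smul, map_neg, smul_eq_mul]
      have h1 := le_abs_self (ℓ z)
      have h2 := neg_abs_le (ℓ z)
      have h3 : a * -ℓ z ≤ a * |ℓ z| := mul_le_mul_of_nonneg_left (by linarith) ha
      have h4 : b * ℓ z ≤ b * |ℓ z| := mul_le_mul_of_nonneg_left h1 hb
      calc a * -ℓ z + b * ℓ z ≤ (a + b) * |ℓ z| := by linarith
        _ = |ℓ z| := by rw [hab, one_mul]
  have hlim := first_variation η hC hne hM (H := fun ℓ => |ℓ z|) hH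
  simp only [neg_apply, abs_neg] at hlim
  have hseg : ∀ t : ℝ, t • segment ℝ (-z) z = segment ℝ (-(t • z)) (t • z) := by
    intro t
    have := image_segment ℝ (t • (LinearMap.id : (Fin (d + 1) → ℝ) →ₗ[ℝ] _)).toAffineMap (-z) z
    simpa using this
  have hev : ∀ᶠ t : ℝ in 𝓝[>] 0,
      2 * shad C z * η ≤ ((∫ x, bump η (C + t • segment ℝ (-z) z) x) - ∫ x, bump η C x) / t ∧
      ((∫ x, bump η (C + t • segment ℝ (-z) z) x) - ∫ x, bump η C x) / t
        ≤ 2 * shad (Metric.cthickening η C) z * η := by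
    filter_upwards [self_mem_nhdsWithin] with t ht
    have ht' : 0 < t := ht
    obtain ⟨h1, h2⟩ := shadow_diff hη hC hc hne (t • z)
    rw [shadow_smul hc hC.isBounded (Or.inr hC) z ht'.le] at h1
    rw [shadow_smul (hc.cthickening η) hC.cthickening.isBounded (Or.inr hC.cthickening) z
      ht'.le] at h2
    rw [hseg, le_div_iff₀ ht', div_le_iff₀ ht']
    constructor <;> linarith
  constructor
  · rw [le_div_iff₀ hη]
    exact ge_of_tendsto hlim (hev.mono fun t h => h.1)
  · rw [div_le_iff₀ hη]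
    exact le_of_tendsto hlim (hev.mono fun t h => h.2)

theorem shad_limit {d : ℕ} {C : Set (Fin (d + 1) → ℝ)} (hC : IsCompact C) (hc : Convex ℝ C)
    (hne : C.Nonempty) (z : Fin (d + 1) → ℝ) :
    Tendsto (fun η : ℝ => (∫ x, |fderiv ℝ (bump η C) x z|) / η) (𝓝[>] 0) (𝓝 (2 * shad C z)) := by
  have hM := shadow_isCompact_segment (-z) z
  have hC2 : IsCompact (C + segment ℝ (-z) z) := hC.add hM
  have hreal : ∀ {S : Set (Fin (d + 1) → ℝ)}, IsCompact S →
      Tendsto (fun η : ℝ => volume.real (Metric.cthickening η S)) (𝓝[>] 0)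
        (𝓝 (volume.real S)) := fun {S} hS =>
    ((ENNReal.tendsto_toReal hS.measure_lt_top.ne).comp
      (tendsto_measure_cthickening_of_isCompact hS)).mono_left nhdsWithin_le_nhds
  have hup : Tendsto (fun η : ℝ => 2 * shad (Metric.cthickening η C) z) (𝓝[>] 0)
      (𝓝 (2 * shad C z)) := by
    refine ((((hreal hC2).sub (hreal hC)).div_const 2).const_mul 2).congr' ?_
    filter_upwards [self_mem_nhdsWithin] with η hη
    have hη' : 0 < η := hη
    unfold shad
    rw [← hC2.add_closedBall_zero hη'.le, add_right_comm, hC.add_closedBall_zero hη'.le]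
  refine tendsto_of_tendsto_of_tendsto_of_le_of_le' tendsto_const_nhds hup ?_ ?_
  · filter_upwards [self_mem_nhdsWithin] with η hη using (shadow_sandwich hη hC hc hne z).1
  · filter_upwards [self_mem_nhdsWithin] with η hη using (shadow_sandwich hη hC hc hne z).2

theorem shad_bound {d : ℕ} {C : Set (Fin (d + 1) → ℝ)} (hC : IsCompact C) (hc : Convex ℝ C)
    (hne : C.Nonempty) : ∃ B : ℝ, ∀ η ∈ Ioc (0 : ℝ) 1, ∀ z : Fin (d + 1) → ℝ,
      (∫ x, |fderiv ℝ (bump η C) x z|) / η ≤ B * ‖z‖ := by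
  set C1 := Metric.cthickening 1 C with hC1
  have hK : IsCompact C1 := hC.cthickening
  have hc1 : Convex ℝ C1 := hc.cthickening 1
  have hK2 : IsCompact (C1 + Metric.closedBall (0 : Fin (d + 1) → ℝ) 1) :=
    hK.add (isCompact_closedBall _ _)
  refine ⟨volume.real (C1 + Metric.closedBall (0 : Fin (d + 1) → ℝ) 1), fun η hη z => ?_⟩
  refine (shadow_sandwich hη.1 hC hc hne z).2.trans ?_
  have h1 := shadow_mono (hc.cthickening η) (Or.inr hC.cthickening) hc1 hK.isBounded (Or.inr hK)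
    (Metric.cthickening_mono hη.2 C) z
  by_cases hz : z = 0
  · simp [hz, shad_zero]
  have hn : 0 < ‖z‖ := norm_pos_iff.2 hz
  set u : Fin (d + 1) → ℝ := ‖z‖⁻¹ • z with hu
  have hu1 : ‖u‖ = 1 := by rw [hu, norm_smul, norm_inv, norm_norm, inv_mul_cancel₀ hn.ne']
  have hzu : z = ‖z‖ • u := by rw [hu, smul_smul, mul_inv_cancel₀ hn.ne', one_smul]
  have h2 : shad C1 z = ‖z‖ * shad C1 u := by
    rw [← shadow_smul hc1 hK.isBounded (Or.inr hK) u hn.le, ← hzu]
  have h3 : segment ℝ (-u) u ⊆ Metric.closedBall (0 : Fin (d + 1) → ℝ) 1 :=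
    (convex_closedBall _ _).segment_subset (by simp [hu1]) (by simp [hu1])
  have h4 : volume.real (C1 + segment ℝ (-u) u)
      ≤ volume.real (C1 + Metric.closedBall (0 : Fin (d + 1) → ℝ) 1) :=
    measureReal_mono (add_subset_add_left h3) hK2.measure_lt_top.ne
  have h5 : 2 * shad C1 u ≤ volume.real (C1 + Metric.closedBall (0 : Fin (d + 1) → ℝ) 1) := by
    have : 0 ≤ volume.real C1 := measureReal_nonneg
    unfold shad
    linarith
  have h6 := mul_le_mul_of_nonneg_right h5 hn.le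
  rw [h2] at h1
  linarith

theorem shad_comb_nonneg {d : ℕ} {C : Set (Fin (d + 1) → ℝ)} (hC : IsCompact C)
    (hc : Convex ℝ C) (hne : C.Nonempty) {ι : Type} (s : Finset ι) (c : ι → ℝ)
    (z : ι → Fin (d + 1) → ℝ)
    (h : ∀ ℓ : (Fin (d + 1) → ℝ) →L[ℝ] ℝ, 0 ≤ ∑ j ∈ s, c j * |ℓ (z j)|) :
    0 ≤ ∑ j ∈ s, c j * shad C (z j) := by
  have hlim : Tendsto (fun η : ℝ => ∑ j ∈ s, c j * ((∫ x, |fderiv ℝ (bump η C) x (z j)|) / η))
      (𝓝[>] 0) (𝓝 (∑ j ∈ s, c j * (2 * shad C (z j)))) :=
    tendsto_finsetSum _ fun j _ => (shad_limit hC hc hne (z j)).const_mul _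
  have hint : ∀ (η : ℝ) (y : Fin (d + 1) → ℝ),
      Integrable fun x => |fderiv ℝ (bump η C) x y| := by
    intro η y
    refine ((integrable_norm_fderiv_bump η hC hne).mul_const ‖y‖).mono'
      (measurable_fderiv_apply_const ℝ _ y).abs.aestronglyMeasurable (ae_of_all _ fun x => ?_)
    rw [Real.norm_eq_abs, abs_abs, ← Real.norm_eq_abs]
    exact ContinuousLinearMap.le_opNorm _ _
  have h2 : 0 ≤ ∑ j ∈ s, c j * (2 * shad C (z j)) := by
    refine ge_of_tendsto hlim ?_
    filter_upwards [self_mem_nhdsWithin] with η hη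
    have hη' : 0 < η := hη
    have : ∑ j ∈ s, c j * ((∫ x, |fderiv ℝ (bump η C) x (z j)|) / η)
        = (∫ x, ∑ j ∈ s, c j * |fderiv ℝ (bump η C) x (z j)|) / η := by
      rw [integral_finsetSum _ fun j _ => (hint η (z j)).const_mul _, Finset.sum_div]
      refine Finset.sum_congr rfl fun j _ => ?_
      rw [integral_const_mul, mul_div_assoc]
    rw [this]
    exact div_nonneg (integral_nonneg fun x => h _) hη'.le
  have h3 : ∑ j ∈ s, c j * (2 * shad C (z j)) = 2 * ∑ j ∈ s, c j * shad C (z j) := by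
    rw [Finset.mul_sum]
    exact Finset.sum_congr rfl fun j _ => by ring
  linarith

end Pool.Agent.P.MP_181257_gt
end
end

-- part Pool.Agent.P.MP_181257_gt.Gauss
section

/-! Gaussian measure: linear images, density, radial law. -/

set_option autoImplicit false
set_option linter.unusedSectionVars false

open MeasureTheory ProbabilityTheory Module Set Filter Topology
open scoped RealInnerProductSpace ENNReal Pointwise Matrix

noncomputable section

namespace Pool.Agent.P.MP_181257_gt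

variable {V : Type} [NormedAddCommGroup V] [InnerProductSpace ℝ V] [FiniteDimensional ℝ V]
  [MeasurableSpace V] [BorelSpace V]

section two
variable {H₁ H₂ : Type} [NormedAddCommGroup H₁] [InnerProductSpace ℝ H₁] [FiniteDimensional ℝ H₁]
  [MeasurableSpace H₁] [BorelSpace H₁] [NormedAddCommGroup H₂] [InnerProductSpace ℝ H₂]
  [FiniteDimensional ℝ H₂] [MeasurableSpace H₂] [BorelSpace H₂]

/-- image of the standard Gaussian under a map with isometric adjoint -/
theorem mp_coiso (T : H₁ → V) (hT : Measurable T) (S : V → H₁)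
    (hS : ∀ z t, ⟪T z, t⟫ = ⟪z, S t⟫) (hc : ∀ t, ‖S t‖ = ‖t‖) :
    MeasurePreserving T (stdGaussian H₁) (stdGaussian V) := by
  refine ⟨hT, ?_⟩
  have : IsProbabilityMeasure ((stdGaussian H₁).map T) :=
    Measure.isProbabilityMeasure_map hT.aemeasurable
  apply Measure.ext_of_charFun
  ext t
  rw [charFun_stdGaussian, charFun_apply, integral_map hT.aemeasurable (by fun_prop)]
  simp_rw [hS]
  rw [← charFun_apply, charFun_stdGaussian, hc]

theorem mp_split (T₁ : H₁ → V) (T₂ : H₂ → V) (h₁ : Measurable T₁) (h₂ : Measurable T₂)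
    (S₁ : V → H₁) (S₂ : V → H₂)
    (hs₁ : ∀ z t, ⟪T₁ z, t⟫ = ⟪z, S₁ t⟫) (hs₂ : ∀ z t, ⟪T₂ z, t⟫ = ⟪z, S₂ t⟫)
    (hn : ∀ t, ‖S₁ t‖ ^ 2 + ‖S₂ t‖ ^ 2 = ‖t‖ ^ 2) :
    MeasurePreserving (fun q : H₁ × H₂ => T₁ q.1 + T₂ q.2)
      ((stdGaussian H₁).prod (stdGaussian H₂)) (stdGaussian V) := by
  have hm : Measurable (fun q : H₁ × H₂ => T₁ q.1 + T₂ q.2) := by fun_prop
  refine ⟨hm, ?_⟩
  have : IsProbabilityMeasure (((stdGaussian H₁).prod (stdGaussian H₂)).map
      (fun q => T₁ q.1 + T₂ q.2)) := Measure.isProbabilityMeasure_map hm.aemeasurable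
  apply Measure.ext_of_charFun
  ext t
  rw [charFun_stdGaussian, charFun_apply, integral_map hm.aemeasurable (by fun_prop)]
  simp_rw [inner_add_left, hs₁, hs₂, Complex.ofReal_add, add_mul, Complex.exp_add]
  rw [integral_prod_mul (fun z : H₁ => Complex.exp ((⟪z, S₁ t⟫ : ℝ) * Complex.I))
    (fun z : H₂ => Complex.exp ((⟪z, S₂ t⟫ : ℝ) * Complex.I)), ← charFun_apply, ← charFun_apply,
    charFun_stdGaussian, charFun_stdGaussian, ← Complex.exp_add]
  congr 1
  have := hn t
  have h2 : ((‖t‖ : ℂ)) ^ 2 = (‖S₁ t‖ : ℂ) ^ 2 + (‖S₂ t‖ : ℂ) ^ 2 := by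
    exact_mod_cast this.symm
  rw [h2]; ring

end two

theorem stdGaussian_real : stdGaussian ℝ = gaussianReal 0 1 := by
  apply Measure.ext_of_charFun
  ext t
  rw [charFun_stdGaussian, charFun_gaussianReal]
  congr 1
  have : ((‖t‖ : ℝ) : ℂ) ^ 2 = (t : ℂ) ^ 2 := by
    rw [← Complex.ofReal_pow, Real.norm_eq_abs, sq_abs, Complex.ofReal_pow]
  rw [this]; simp; ring

/-- splitting along a unit vector, ambient form -/
theorem mp_pr_split {u : V} (hu : ‖u‖ = 1) :
    MeasurePreserving (fun q : V × ℝ => pr u q.1 + q.2 • u)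
      ((stdGaussian V).prod (gaussianReal 0 1)) (stdGaussian V) := by
  rw [← stdGaussian_real]
  refine mp_split (pr u) (fun t : ℝ => t • u) (by fun_prop) (by fun_prop) (pr u)
    (fun t => ⟪u, t⟫) (inner_pr_comm u) (fun z t => ?_) (fun t => ?_)
  · rw [real_inner_smul_left]; simp [mul_comm]
  · rw [norm_sq_pr, hu, Real.norm_eq_abs, sq_abs]; ring

/-- splitting along a unit vector `e` parallel to `a`, with the hyperplane as a type -/
theorem mp_sub_split {a e : V} (he : ‖e‖ = 1) (hae : a = ‖a‖ • e) (ha : a ≠ 0) :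
    MeasurePreserving (fun q : (ℝ ∙ a)ᗮ × ℝ => (q.1 : V) + q.2 • e)
      ((stdGaussian (ℝ ∙ a)ᗮ).prod (gaussianReal 0 1)) (stdGaussian V) := by
  rw [← stdGaussian_real]
  have hna : ‖a‖ ≠ 0 := norm_ne_zero_iff.2 ha
  refine mp_split (fun z : (ℝ ∙ a)ᗮ => (z : V)) (fun t : ℝ => t • e) measurable_subtype_coe
    (by fun_prop) (fun v => ⟨pr a v,
      Submodule.mem_orthogonal_singleton_iff_inner_right.2 (inner_pr_self a v)⟩)
    (fun t => ⟪e, t⟫) (fun z t => ?_) (fun z t => ?_) (fun t => ?_)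
  · have hz : ⟪a, (z : V)⟫ = 0 := Submodule.mem_orthogonal_singleton_iff_inner_right.1 z.2
    rw [Submodule.coe_inner, ← inner_pr_comm, pr_of_inner_eq_zero hz]
  · rw [real_inner_smul_left]; simp [mul_comm]
  · have h1 : ⟪a, t⟫ = ‖a‖ * ⟪e, t⟫ := by
      conv_lhs => rw [hae]
      rw [real_inner_smul_left]
    show ‖pr a t‖ ^ 2 + _ = _
    rw [norm_sq_pr, h1, Real.norm_eq_abs, sq_abs]
    field_simp
    ring

/-- the projection to a hyperplane, as an element of the hyperplane -/
def prS (a v : V) : (ℝ ∙ a)ᗮ :=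
  ⟨pr a v, Submodule.mem_orthogonal_singleton_iff_inner_right.2 (inner_pr_self a v)⟩

@[simp] theorem coe_prS (a v : V) : (prS a v : V) = pr a v := rfl

theorem mp_prS (a : V) : MeasurePreserving (prS a) (stdGaussian V) (stdGaussian (ℝ ∙ a)ᗮ) := by
  refine mp_coiso (prS a) (Measurable.subtype_mk (by fun_prop)) (fun z => (z : V))
    (fun z t => ?_) (fun t => rfl)
  have ht : ⟪a, (t : V)⟫ = 0 := Submodule.mem_orthogonal_singleton_iff_inner_right.1 t.2
  rw [Submodule.coe_inner, coe_prS, inner_pr_comm, pr_of_inner_eq_zero ht]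

theorem finrank_orth {a : V} (ha : a ≠ 0) : finrank ℝ (ℝ ∙ a)ᗮ + 1 = finrank ℝ V := by
  have h := Submodule.finrank_add_finrank_orthogonal (ℝ ∙ a)
  rw [finrank_span_singleton ha] at h
  omega

theorem mp_pi_split {k : ℕ} {A B : Type} [MeasurableSpace A] [MeasurableSpace B] {μ : Measure A}
    {ν : Measure B} [IsProbabilityMeasure μ] [IsProbabilityMeasure ν] {T : A × B → V}
    (hT : MeasurePreserving T (μ.prod ν) (stdGaussian V)) :
    MeasurePreserving (fun q : (Fin k → A) × (Fin k → B) => fun j => T (q.1 j, q.2 j))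
      ((Measure.pi fun _ => μ).prod (Measure.pi fun _ => ν)) (γk V k) := by
  have h1 := (measurePreserving_arrowProdEquivProdArrow A B (Fin k) (fun _ => μ)
    (fun _ => ν)).symm
  have h2 := measurePreserving_pi (fun _ : Fin k => μ.prod ν) (fun _ => stdGaussian V)
    (f := fun _ => T) (fun _ => hT)
  exact h2.comp h1

/-- `Fin.cons` as a measure preserving map -/
theorem mp_cons {k : ℕ} {A : Type} [MeasurableSpace A] (μ : Measure A) [SigmaFinite μ] :
    MeasurePreserving (fun q : A × (Fin k → A) => (Fin.cons q.1 q.2 : Fin (k + 1) → A))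
      (μ.prod (Measure.pi fun _ => μ)) (Measure.pi fun _ => μ) := by
  have h1 := (measurePreserving_piFinSuccAbove (fun _ : Fin (k + 1) => μ) 0).symm
  convert h1 using 1
  funext q
  simp [MeasurableEquiv.piFinSuccAbove, Fin.insertNthEquiv]

theorem mp_perm {k : ℕ} {A : Type} [MeasurableSpace A] (μ : Measure A) [SigmaFinite μ]
    (σ : Equiv.Perm (Fin k)) :
    MeasurePreserving (fun x : Fin k → A => fun j => x (σ j))
      (Measure.pi fun _ => μ) (Measure.pi fun _ => μ) := by
  have h1 := measurePreserving_arrowCongr' (fun _ : Fin k => μ) (fun _ : Fin k => μ) σ.symm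
    (MeasurableEquiv.refl A) (fun _ => MeasurePreserving.id μ)
  exact h1

theorem stdGaussian_eq_withDensity : stdGaussian V = (volume : Measure V).withDensity fun x =>
    ENNReal.ofReal ((2 * Real.pi) ^ (-(finrank ℝ V : ℝ) / 2) * Real.exp (-‖x‖ ^ 2 / 2)) := by
  set c : ℝ := (2 * Real.pi) ^ (-(finrank ℝ V : ℝ) / 2) with hc
  have hpi := Real.pi_pos
  have hc0 : 0 < c := Real.rpow_pos_of_pos (by positivity) _
  have hb : 0 < ((1 / 2 : ℂ)).re := by norm_num
  have hint : Integrable (fun x : V => c * Real.exp (-‖x‖ ^ 2 / 2)) volume := by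
    have h := (GaussianFourier.integrable_cexp_neg_mul_sq_norm_add hb 0 (0 : V)).norm
    refine (h.congr (ae_of_all _ fun x => ?_)).const_mul c
    simp only [zero_mul, add_zero, Complex.norm_exp]
    congr 1
    have : -(1 / 2 : ℂ) * (‖x‖ : ℂ) ^ 2 = ((-‖x‖ ^ 2 / 2 : ℝ) : ℂ) := by push_cast; ring
    rw [this, Complex.ofReal_re]
  have : IsFiniteMeasure ((volume : Measure V).withDensity fun x =>
      ENNReal.ofReal (c * Real.exp (-‖x‖ ^ 2 / 2))) :=
    isFiniteMeasure_withDensity_ofReal hint.2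
  apply Measure.ext_of_charFun
  ext t
  rw [charFun_stdGaussian, charFun_apply, integral_withDensity_eq_integral_toReal_smul
    (by fun_prop) (ae_of_all _ fun x => ENNReal.ofReal_lt_top)]
  have h1 : ∀ x : V, (ENNReal.ofReal (c * Real.exp (-‖x‖ ^ 2 / 2))).toReal •
      Complex.exp ((⟪x, t⟫ : ℝ) * Complex.I)
      = (c : ℂ) * Complex.exp (-(1 / 2 : ℂ) * (‖x‖ : ℂ) ^ 2 + Complex.I * (⟪t, x⟫ : ℝ)) := by
    intro x
    rw [ENNReal.toReal_ofReal (by positivity), Complex.real_smul, Complex.exp_add,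
      real_inner_comm x t]
    push_cast
    rw [mul_assoc]
    congr 3 <;> ring
  simp_rw [h1]
  rw [integral_const_mul, GaussianFourier.integral_cexp_neg_mul_sq_norm_add hb, ← mul_assoc]
  have h2 : (c : ℂ) * ((Real.pi : ℂ) / (1 / 2)) ^ ((finrank ℝ V : ℂ) / 2) = 1 := by
    have e1 : ((Real.pi : ℂ) / (1 / 2)) = ((2 * Real.pi : ℝ) : ℂ) := by push_cast; ring
    have e2 : ((finrank ℝ V : ℂ) / 2) = (((finrank ℝ V : ℝ) / 2 : ℝ) : ℂ) := by push_cast; ring
    rw [e1, e2, ← Complex.ofReal_cpow (by positivity), ← Complex.ofReal_mul, hc,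
      ← Real.rpow_add (by positivity)]
    have : -(finrank ℝ V : ℝ) / 2 + (finrank ℝ V : ℝ) / 2 = 0 := by ring
    rw [this]; simp
  rw [h2, one_mul, Complex.I_sq]
  congr 1
  ring

theorem ae_inner_ne_zero {a : V} (ha : a ≠ 0) : ∀ᵐ x ∂(stdGaussian V), ⟪a, x⟫ ≠ 0 := by
  have hna : ‖a‖ ≠ 0 := norm_ne_zero_iff.2 ha
  have hm := mp_coiso (fun x : V => ⟪‖a‖⁻¹ • a, x⟫) (by fun_prop) (fun t : ℝ => t • ‖a‖⁻¹ • a)
    (fun z t => by rw [real_inner_smul_right, real_inner_comm z]; simp)
    (fun t => by simp [norm_smul, hna])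
  rw [stdGaussian_real] at hm
  have := nullSingletonClass_gaussianReal (μ := 0) (v := 1) (by norm_num)
  have h0 : ∀ᵐ t ∂(gaussianReal 0 1), t ≠ 0 := by
    rw [ae_iff]; simp
  filter_upwards [hm.quasiMeasurePreserving.ae h0] with x hx h
  exact hx (by rw [real_inner_smul_left, h, mul_zero])

theorem ae_ne_zero (hn : 1 ≤ finrank ℝ V) : ∀ᵐ x ∂(stdGaussian V), x ≠ 0 := by
  have : Nontrivial V := Module.finrank_pos_iff.1 hn
  obtain ⟨a, ha⟩ := exists_ne (0 : V)
  filter_upwards [ae_inner_ne_zero ha] with x hx h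
  exact hx (by rw [h, inner_zero_right])

/-- the radial integral in dimension `n` -/
def rad (n : ℕ) (ψ : ℝ → ℝ≥0∞) : ℝ≥0∞ :=
  ∫⁻ r in Ioi (0 : ℝ), ψ r * ENNReal.ofReal (r ^ (n - 1) * Real.exp (-r ^ 2 / 2))

theorem rad_one_ne_zero (n : ℕ) : rad n (fun _ => 1) ≠ 0 := by
  unfold rad
  intro h
  rw [lintegral_eq_zero_iff (by fun_prop)] at h
  have h1 : ∀ᵐ r ∂(volume.restrict (Ioi (0 : ℝ))), False := by
    filter_upwards [h, ae_restrict_mem measurableSet_Ioi] with r hr hr0
    have hr1 : 0 < r := hr0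
    have : 0 < r ^ (n - 1) * Real.exp (-r ^ 2 / 2) := by positivity
    simp only [one_mul, Pi.zero_apply, ENNReal.ofReal_eq_zero] at hr
    linarith
  rw [eventually_false_iff_eq_bot, ae_eq_bot, Measure.restrict_eq_zero] at h1
  simp at h1

theorem rad_one_ne_top (n : ℕ) : rad n (fun _ => 1) ≠ ∞ := by
  unfold rad
  have hi : IntegrableOn (fun r : ℝ => r ^ (n - 1) * Real.exp (-r ^ 2 / 2)) (Ioi 0) := by
    have h := integrableOn_rpow_mul_exp_neg_mul_sq (b := 1 / 2) (by norm_num)
      (s := ((n - 1 : ℕ) : ℝ)) (by have := Nat.cast_nonneg (α := ℝ) (n - 1); linarith)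
    refine h.congr_fun (fun r _ => ?_) measurableSet_Ioi
    simp only [Real.rpow_natCast]
    congr 2
    ring
  simp only [one_mul]
  exact (hi.lintegral_lt_top).ne

theorem lintegral_norm_rad (hn : 1 ≤ finrank ℝ V) {ψ : ℝ → ℝ≥0∞} (hψ : Measurable ψ) :
    (∫⁻ x, ψ ‖x‖ ∂(stdGaussian V)) * rad (finrank ℝ V) (fun _ => 1) = rad (finrank ℝ V) ψ := by
  have : Nontrivial V := Module.finrank_pos_iff.1 hn
  set c : ℝ := (2 * Real.pi) ^ (-(finrank ℝ V : ℝ) / 2) with hc
  have hpi := Real.pi_pos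
  have hc0 : 0 < c := Real.rpow_pos_of_pos (by positivity) _
  have key : ∀ φ : ℝ → ℝ≥0∞, Measurable φ → ∫⁻ x, φ ‖x‖ ∂(stdGaussian V) =
      ((volume : Measure V).toSphere univ * ENNReal.ofReal c) * rad (finrank ℝ V) φ := by
    intro φ hφ
    set f : ℝ → ℝ≥0∞ := fun r => ENNReal.ofReal (c * Real.exp (-r ^ 2 / 2)) * φ r with hf
    have hfm : Measurable f := by rw [hf]; fun_prop
    rw [stdGaussian_eq_withDensity, lintegral_withDensity_eq_lintegral_mul _ (by fun_prop)
      (by fun_prop)]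
    calc ∫⁻ x : V, ((fun x : V => ENNReal.ofReal (c * Real.exp (-‖x‖ ^ 2 / 2))) *
          fun x : V => φ ‖x‖) x
        = ∫⁻ x : ({(0)}ᶜ : Set V), f ‖x.1‖ ∂((volume : Measure V).comap (↑)) := by
          rw [lintegral_subtype_comap (measurableSet_singleton _).compl fun x => f ‖x‖,
            restrict_compl_singleton]
          rfl
      _ = ∫⁻ x, f x.2 ∂((volume : Measure V).toSphere.prod
            (Measure.volumeIoiPow (finrank ℝ V - 1))) := by
          simpa using (volume : Measure V).measurePreserving_homeomorphUnitSphereProd.lintegral_comp_emb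
            (Homeomorph.measurableEmbedding _) (f ∘ Subtype.val ∘ Prod.snd)
      _ = (volume : Measure V).toSphere univ *
            ∫⁻ x : Ioi (0 : ℝ), f x ∂(Measure.volumeIoiPow (finrank ℝ V - 1)) := by
          rw [lintegral_prod _ (by fun_prop)]
          simp only [lintegral_const]
          rw [mul_comm]
      _ = _ := by
          rw [mul_assoc]
          congr 1
          rw [Measure.volumeIoiPow, lintegral_withDensity_eq_lintegral_mul _ (by fun_prop)
            (by fun_prop)]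
          have e := lintegral_subtype_comap (μ := volume) (measurableSet_Ioi (a := (0 : ℝ)))
            fun r => ENNReal.ofReal (r ^ (finrank ℝ V - 1)) * f r
          simp only [Pi.mul_apply]
          rw [e, rad, ← lintegral_const_mul _ (by fun_prop)]
          refine setLIntegral_congr_fun measurableSet_Ioi fun r hr => ?_
          have hr1 : 0 < r := hr
          simp only [hf]
          rw [ENNReal.ofReal_mul hc0.le, ENNReal.ofReal_mul (by positivity)]
          ring
  have h1 := key (fun _ => 1) measurable_const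
  rw [lintegral_const, measure_univ, mul_one] at h1
  rw [key ψ hψ, mul_right_comm, ← h1, one_mul]

/-- the first absolute moment of the standard normal law -/
def c0 : ℝ := ∫ t, |t| ∂(gaussianReal 0 1)

theorem c0_pos : 0 < c0 := by
  unfold c0
  have hi : Integrable (fun t : ℝ => |t|) (gaussianReal 0 1) := by
    have := (memLp_id_gaussianReal (μ := 0) (v := 1) 1)
    rw [ENNReal.coe_one, memLp_one_iff_integrable] at this
    exact this.abs
  rw [integral_pos_iff_support_of_nonneg (fun t => abs_nonneg t) hi]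
  have := nullSingletonClass_gaussianReal (μ := 0) (v := 1) (by norm_num)
  have h : Function.support (fun t : ℝ => |t|) = {0}ᶜ := by
    ext t; simp
  rw [h, prob_compl_eq_one_sub (measurableSet_singleton _), measure_singleton]
  simp

theorem integrable_abs_inner (w : V) : Integrable (fun x => |⟪w, x⟫|) (stdGaussian V) := by
  have h := (integrable_norm_pow (V := V) 1).const_mul ‖w‖
  refine h.mono' (by fun_prop) (ae_of_all _ fun x => ?_)
  rw [Real.norm_eq_abs, abs_abs, pow_one]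
  exact abs_real_inner_le_norm w x

theorem integral_abs_inner (w : V) : ∫ x, |⟪w, x⟫| ∂(stdGaussian V) = c0 * ‖w‖ := by
  by_cases hw : w = 0
  · simp [hw]
  have hna : ‖w‖ ≠ 0 := norm_ne_zero_iff.2 hw
  have hm := mp_coiso (fun x : V => ⟪‖w‖⁻¹ • w, x⟫) (by fun_prop) (fun t : ℝ => t • ‖w‖⁻¹ • w)
    (fun z t => by rw [real_inner_smul_right, real_inner_comm z]; simp)
    (fun t => by simp [norm_smul, hna])
  rw [stdGaussian_real] at hm
  rw [c0, ← hm.map_eq, integral_map hm.measurable.aemeasurable (by fun_prop),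
    ← integral_mul_const]
  refine integral_congr_ae (ae_of_all _ fun x => ?_)
  simp only [real_inner_smul_left, abs_mul, abs_inv, abs_norm]
  field_simp

theorem integral_norm_sq : ∫ x, ‖x‖ ^ 2 ∂(stdGaussian V) = finrank ℝ V := by
  set b := stdOrthonormalBasis ℝ V
  have h0 : ∫ x, x ^ 2 ∂(gaussianReal 0 1) = 1 := by
    have h := variance_id_gaussianReal (μ := 0) (v := 1)
    rw [variance_eq_integral (by fun_prop)] at h
    simpa using h
  have hi : Integrable (fun x : ℝ => x ^ 2) (gaussianReal 0 1) := by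
    have := (memLp_id_gaussianReal (μ := 0) (v := 1) 2).integrable_sq
    simpa using this
  have hm : ∀ i, MeasurePreserving (fun x : V => ⟪x, b i⟫) (stdGaussian V) (gaussianReal 0 1) := by
    intro i
    rw [← stdGaussian_real]
    exact mp_coiso (fun x : V => ⟪x, b i⟫) (by fun_prop) (fun t : ℝ => t • b i)
      (by intro z t; simp [inner_smul_right])
      (by intro t; simp [norm_smul, b.orthonormal.1 i])
  have h1 : ∀ x : V, ‖x‖ ^ 2 = ∑ i, ⟪x, b i⟫ ^ 2 := fun x => (b.sum_sq_inner_left x).symm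
  simp_rw [h1]
  have h3 : ∀ i, Integrable (fun x : V => ⟪x, b i⟫ ^ 2) (stdGaussian V) := fun i =>
    (hm i).integrable_comp_of_integrable hi
  rw [integral_finsetSum _ (fun i _ => h3 i)]
  have h2 : ∀ i, ∫ x, ⟪x, b i⟫ ^ 2 ∂(stdGaussian V) = 1 := by
    intro i
    rw [← h0, ← (hm i).map_eq, integral_map (hm i).measurable.aemeasurable (by fun_prop)]
  simp [h2]

end Pool.Agent.P.MP_181257_gt
end
end

-- part Pool.Agent.P.MP_181257_gt.Haar
section

/-! Haar measure on the orthogonal group, polar formula, orthogonal invariance. -/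

set_option autoImplicit false
set_option linter.unusedSectionVars false

open MeasureTheory ProbabilityTheory Module Set Filter Topology
open scoped RealInnerProductSpace ENNReal Pointwise Matrix

noncomputable section

namespace Pool.Agent.P.MP_181257_gt

variable {V : Type} [NormedAddCommGroup V] [InnerProductSpace ℝ V] [FiniteDimensional ℝ V]
  [MeasurableSpace V] [BorelSpace V]

variable (V) in
/-- the orthogonal group -/
abbrev OG : Type := unitary (V →L[ℝ] V)

/-- action of the orthogonal group on vectors -/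
def ap (g : OG V) (x : V) : V := (g : V →L[ℝ] V) x

theorem inner_ap (g : OG V) (x y : V) : ⟪ap g x, ap g y⟫ = ⟪x, y⟫ :=
  (Unitary.linearIsometryEquiv g).inner_map_map x y

theorem norm_ap (g : OG V) (x : V) : ‖ap g x‖ = ‖x‖ :=
  (Unitary.linearIsometryEquiv g).norm_map x

theorem ap_mul (g h : OG V) (x : V) : ap (g * h) x = ap g (ap h x) := rfl

theorem ap_smul (g : OG V) (c : ℝ) (x : V) : ap g (c • x) = c • ap g x := map_smul _ _ _

theorem ap_pr (g : OG V) (a v : V) : ap g (pr a v) = pr (ap g a) (ap g v) :=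
  map_pr (Unitary.linearIsometryEquiv g).toLinearIsometry a v

@[fun_prop] theorem continuous_ap {X : Type*} [TopologicalSpace X] {g : X → OG V} {x : X → V}
    (hg : Continuous g) (hx : Continuous x) : Continuous fun s => ap (g s) (x s) :=
  (continuous_subtype_val.comp hg).clm_apply hx

/-- the element of the group given by a linear isometry -/
def ofIso (f : V ≃ₗᵢ[ℝ] V) : OG V := Unitary.linearIsometryEquiv.symm f

@[simp] theorem ap_ofIso (f : V ≃ₗᵢ[ℝ] V) (x : V) : ap (ofIso f) x = f x := rfl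

instance : MeasurableSpace (OG V) := borel _

instance : BorelSpace (OG V) := ⟨rfl⟩

theorem exists_ap_eq {x y : V} (h : ‖x‖ = ‖y‖) :
    ∃ g : OG V, ap g x = y ∧ ap g y = x ∧ ∀ z, ⟪x - y, z⟫ = 0 → ap g z = z := by
  refine ⟨ofIso (Submodule.reflection (ℝ ∙ (x - y))ᗮ), Submodule.reflection_sub h, ?_, ?_⟩
  · have h1 := Submodule.reflection_sub h
    have h2 := Submodule.reflection_reflection (ℝ ∙ (x - y))ᗮ x
    rwa [h1] at h2
  · intro z hz
    exact Submodule.reflection_mem_subspace_eq_self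
      (Submodule.mem_orthogonal_singleton_iff_inner_right.2 hz)

instance : CompactSpace (OG V) := by
  have h : IsCompact ((unitary (V →L[ℝ] V) : Submonoid _) : Set (V →L[ℝ] V)) := by
    refine Metric.isCompact_of_isClosed_isBounded isClosed_unitary ?_
    refine (Metric.isBounded_closedBall (x := (0 : V →L[ℝ] V)) (r := 1)).subset fun g hg => ?_
    rw [mem_closedBall_zero_iff]
    refine ContinuousLinearMap.opNorm_le_bound _ zero_le_one fun x => ?_
    rw [one_mul]
    exact (norm_ap ⟨g, hg⟩ x).le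
  exact isCompact_iff_compactSpace.1 h

variable (V) in
/-- normalised Haar measure on the orthogonal group -/
def haar : Measure (OG V) := Measure.haarMeasure ⊤

instance : IsProbabilityMeasure (haar V) :=
  ⟨by simpa [haar] using (Measure.haarMeasure_self (G := OG V) (K₀ := ⊤))⟩

instance : (haar V).IsHaarMeasure := by
  unfold haar
  infer_instance

instance : (haar V).IsMulRightInvariant := by
  refine ⟨fun g => ?_⟩
  have : IsProbabilityMeasure (Measure.map (· * g) (haar V)) :=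
    Measure.isProbabilityMeasure_map (by fun_prop)
  exact Measure.isHaarMeasure_eq_of_isProbabilityMeasure _ _

instance haar_secondCountable : SecondCountableTopology (OG V) := by
  have : FiniteDimensional ℝ (V →L[ℝ] V) := inferInstance
  have : SecondCountableTopology (V →L[ℝ] V) := inferInstance
  exact TopologicalSpace.Subtype.secondCountableTopology _

theorem haar_measurable_ap : Measurable fun p : OG V × V => ap p.1 p.2 :=
  (continuous_ap continuous_fst continuous_snd).measurable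

@[fun_prop] theorem measurable_ap {X : Type*} [MeasurableSpace X] {g : X → OG V} {x : X → V}
    (hg : Measurable g) (hx : Measurable x) : Measurable fun s => ap (g s) (x s) := by
  exact haar_measurable_ap.comp (hg.prodMk hx)

theorem mp_ap (g : OG V) : MeasurePreserving (ap g) (stdGaussian V) (stdGaussian V) := by
  refine ⟨measurable_ap measurable_const measurable_id, ?_⟩
  exact stdGaussian_map (Unitary.linearIsometryEquiv g)

theorem mp_ap_volume (g : OG V) : MeasurePreserving (ap g) (volume : Measure V) volume := by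
  exact (Unitary.linearIsometryEquiv g).measurePreserving

/-- the group acts transitively on orthogonal pairs with given norms -/
theorem exists_ap_pair {x y x' y' : V} (hx : ‖x‖ = ‖x'‖) (hy : ‖y‖ = ‖y'‖) (h : ⟪x, y⟫ = 0)
    (h' : ⟪x', y'⟫ = 0) : ∃ g : OG V, ap g x = x' ∧ ap g y = y' := by
  obtain ⟨g₁, h1, -, -⟩ := exists_ap_eq hx
  have hn : ‖ap g₁ y‖ = ‖y'‖ := by rw [norm_ap, hy]
  obtain ⟨g₂, h2, -, h3⟩ := exists_ap_eq hn
  refine ⟨g₂ * g₁, ?_, ?_⟩
  · rw [ap_mul, h1]
    refine h3 _ ?_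
    rw [inner_sub_left, ← h1, inner_ap, h1, real_inner_comm, h, real_inner_comm, h', sub_zero]
  · rw [ap_mul, h2]

/-- polar formula for an invariant measure -/
theorem polar (Q : Measure V) [SFinite Q] (hQ : ∀ g : OG V, MeasurePreserving (ap g) Q Q)
    {e : V} (he : ‖e‖ = 1) {F : V → ℝ≥0∞} (hF : Measurable F) :
    ∫⁻ x, F x ∂Q = ∫⁻ g, ∫⁻ x, F (‖x‖ • ap g e) ∂Q ∂(haar V) := by
  have h1 : ∀ g : OG V, ∫⁻ x, F x ∂Q = ∫⁻ x, F (ap g x) ∂Q := fun g =>
    ((hQ g).lintegral_comp hF).symm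
  have h2 : ∀ x : V, ∫⁻ g, F (ap g x) ∂(haar V) = ∫⁻ g, F (‖x‖ • ap g e) ∂(haar V) := by
    intro x
    have hn : ‖‖x‖ • e‖ = ‖x‖ := by rw [norm_smul, he, mul_one, norm_norm]
    obtain ⟨h, hh, -, -⟩ := exists_ap_eq hn
    rw [← lintegral_mul_right_eq_self (fun g : OG V => F (‖x‖ • ap g e)) h]
    refine lintegral_congr fun g => ?_
    rw [← ap_smul, ap_mul, hh]
  calc ∫⁻ x, F x ∂Q = ∫⁻ g, ∫⁻ x, F (ap g x) ∂Q ∂(haar V) := by
        simp_rw [← h1]
        simp
    _ = ∫⁻ x, ∫⁻ g, F (ap g x) ∂(haar V) ∂Q :=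
        lintegral_lintegral_swap (Measurable.aemeasurable (hF.comp haar_measurable_ap))
    _ = ∫⁻ x, ∫⁻ g, F (‖x‖ • ap g e) ∂(haar V) ∂Q := lintegral_congr h2
    _ = ∫⁻ g, ∫⁻ x, F (‖x‖ • ap g e) ∂Q ∂(haar V) := by
        refine (lintegral_lintegral_swap (Measurable.aemeasurable ?_)).symm
        exact hF.comp (by fun_prop)

theorem haar_exists_unit (hn : 1 ≤ finrank ℝ V) : ∃ e : V, ‖e‖ = 1 := by
  have : Nontrivial V := Module.finrank_pos_iff.1 hn
  exact exists_norm_eq V zero_le_one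

theorem haar_radial (hn : 1 ≤ finrank ℝ V) {e : V} (he : ‖e‖ = 1) {ρ : ℝ → ℝ≥0∞}
    (hρ : Measurable ρ) {ψ : V → ℝ≥0∞} (hψ : Measurable ψ)
    (hom : ∀ t : ℝ, 0 < t → ∀ x, ψ (t • x) = ψ x) :
    ∫⁻ x, ρ ‖x‖ * ψ x ∂(stdGaussian V)
      = (∫⁻ x, ρ ‖x‖ ∂(stdGaussian V)) * ∫⁻ g, ψ (ap g e) ∂(haar V) := by
  have hF : Measurable fun x : V => ρ ‖x‖ * ψ x := (hρ.comp measurable_norm).mul hψ
  have hG : Measurable fun g : OG V => ψ (ap g e) := hψ.comp (by fun_prop)
  rw [polar (stdGaussian V) mp_ap he hF, ← lintegral_const_mul _ hG]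
  refine lintegral_congr fun g => ?_
  have hρ' : Measurable fun x : V => ρ ‖x‖ := hρ.comp measurable_norm
  rw [← lintegral_mul_const _ hρ']
  refine lintegral_congr_ae ?_
  filter_upwards [ae_ne_zero hn] with x hx
  rw [hom _ (norm_pos_iff.2 hx), norm_smul, norm_ap, he, mul_one, norm_norm]

/-- norm and direction of a Gaussian vector are independent -/
theorem radial_indep_lintegral (hn : 1 ≤ finrank ℝ V) {ρ : ℝ → ℝ≥0∞} (hρ : Measurable ρ)
    {ψ : V → ℝ≥0∞} (hψ : Measurable ψ) (hom : ∀ t : ℝ, 0 < t → ∀ x, ψ (t • x) = ψ x) :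
    ∫⁻ x, ρ ‖x‖ * ψ x ∂(stdGaussian V)
      = (∫⁻ x, ρ ‖x‖ ∂(stdGaussian V)) * ∫⁻ x, ψ x ∂(stdGaussian V) := by
  obtain ⟨e, he⟩ := haar_exists_unit hn
  have h1 := haar_radial hn he (ρ := fun _ => 1) measurable_const hψ hom
  simp only [one_mul, lintegral_const, measure_univ] at h1
  rw [haar_radial hn he hρ hψ hom, h1]

theorem radial_indep (hn : 1 ≤ finrank ℝ V) (p : ℕ) {ψ : V → ℝ} (hψ : Bd ψ) (h0 : ∀ x, 0 ≤ ψ x)
    (hom : ∀ t : ℝ, 0 < t → ∀ x, ψ (t • x) = ψ x) :
    ∫ x, ‖x‖ ^ p * ψ x ∂(stdGaussian V)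
      = (∫ x, ‖x‖ ^ p ∂(stdGaussian V)) * ∫ x, ψ x ∂(stdGaussian V) := by
  have h1 := radial_indep_lintegral hn (ρ := fun r => ENNReal.ofReal (r ^ p)) (by fun_prop)
    (ψ := fun x => ENNReal.ofReal (ψ x)) hψ.meas.ennreal_ofReal
    (fun t ht x => by rw [hom t ht])
  have hm : Measurable fun x : V => ‖x‖ ^ p := by fun_prop
  rw [integral_eq_lintegral_of_nonneg_ae (ae_of_all _ fun x => mul_nonneg (by positivity) (h0 x))
      (hm.mul hψ.meas).aestronglyMeasurable,
    integral_eq_lintegral_of_nonneg_ae (ae_of_all _ fun x => by positivity)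
      hm.aestronglyMeasurable,
    integral_eq_lintegral_of_nonneg_ae (ae_of_all _ h0) hψ.meas.aestronglyMeasurable,
    ← ENNReal.toReal_mul, ← h1]
  congr 1
  refine lintegral_congr fun x => ?_
  rw [ENNReal.ofReal_mul (by positivity)]

theorem haar_mp_toLp {k : ℕ} :
    MeasurePreserving (WithLp.toLp 2 : (Fin k → V) → PiLp 2 fun _ : Fin k => V) (γk V k)
      (stdGaussian (PiLp 2 fun _ : Fin k => V)) := by
  refine ⟨by fun_prop, ?_⟩
  apply Measure.ext_of_charFun
  ext t
  rw [charFun_pi, charFun_stdGaussian]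
  simp_rw [charFun_stdGaussian, ← Complex.exp_sum, ← Complex.ofReal_pow, PiLp.norm_sq_eq_of_L2]
  simp [Finset.sum_div, neg_div]

theorem haar_norm_sq_rows {k : ℕ} (Q : Matrix (Fin k) (Fin k) ℝ) (hQ : Q * Qᵀ = 1)
    (t : Fin k → V) : ∑ l, ‖∑ a, Q a l • t a‖ ^ 2 = ∑ a, ‖t a‖ ^ 2 := by
  have h1 : ∀ l, ‖∑ a, Q a l • t a‖ ^ 2 = ∑ a, ∑ b, Q a l * Q b l * ⟪t a, t b⟫ := by
    intro l
    rw [← real_inner_self_eq_norm_sq, sum_inner]
    refine Finset.sum_congr rfl fun a _ => ?_
    rw [inner_sum]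
    refine Finset.sum_congr rfl fun b _ => ?_
    rw [real_inner_smul_left, real_inner_smul_right, mul_assoc]
  simp_rw [h1]
  rw [Finset.sum_comm]
  refine Finset.sum_congr rfl fun a _ => ?_
  rw [Finset.sum_comm]
  have h2 : ∀ b, ∑ l, Q a l * Q b l * ⟪t a, t b⟫ = if a = b then ⟪t a, t b⟫ else 0 := by
    intro b
    rw [← Finset.sum_mul]
    have := congrFun (congrFun hQ a) b
    rw [Matrix.mul_apply, Matrix.one_apply] at this
    simp only [Matrix.transpose_apply] at this
    rw [this]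
    split_ifs <;> simp
  simp_rw [h2]
  simp

/-- a Gaussian matrix is invariant under orthogonal row operations -/
theorem mp_orth {k : ℕ} (Q : Matrix (Fin k) (Fin k) ℝ) (hQ : Q * Qᵀ = 1) :
    MeasurePreserving (fun g : Fin k → V => fun a => ∑ l, Q a l • g l) (γk V k) (γk V k) := by
  have hT : MeasurePreserving (fun z : PiLp 2 fun _ : Fin k => V =>
      (WithLp.toLp 2 fun a => ∑ l, Q a l • z l : PiLp 2 fun _ : Fin k => V))
      (stdGaussian _) (stdGaussian _) := by
    refine mp_coiso _ (by fun_prop) (fun t => WithLp.toLp 2 fun l => ∑ a, Q a l • t a) ?_ ?_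
    · intro z t
      simp only [PiLp.inner_apply, sum_inner, inner_sum, real_inner_smul_left,
        real_inner_smul_right]
      exact Finset.sum_comm
    · intro t
      refine (pow_left_inj₀ (norm_nonneg _) (norm_nonneg _) two_ne_zero).1 ?_
      rw [PiLp.norm_sq_eq_of_L2, PiLp.norm_sq_eq_of_L2]
      exact haar_norm_sq_rows Q hQ _
  have h1 : MeasurePreserving (MeasurableEquiv.toLp 2 (Fin k → V)) (γk V k)
      (stdGaussian (PiLp 2 fun _ : Fin k => V)) := haar_mp_toLp
  exact (h1.symm.comp hT).comp h1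

theorem exists_orth {k : ℕ} (t : Fin (k + 1) → ℝ) :
    ∃ Q : Matrix (Fin (k + 1)) (Fin (k + 1)) ℝ,
      Q * Qᵀ = 1 ∧ Q *ᵥ t = Pi.single 0 √(∑ l, t l ^ 2) := by
  set r := √(∑ l, t l ^ 2) with hr
  have hr2 : r ^ 2 = ∑ l, t l ^ 2 := Real.sq_sqrt (by positivity)
  set w : Fin (k + 1) → ℝ := t - Pi.single 0 r with hw
  have htt : t ⬝ᵥ t = r ^ 2 := by rw [hr2]; simp [dotProduct, sq]
  have hwt : w ⬝ᵥ t = r ^ 2 - r * t 0 := by
    rw [hw, sub_dotProduct, htt]; simp
  have hww : w ⬝ᵥ w = 2 * (r ^ 2 - r * t 0) := by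
    conv_lhs => rw [hw]
    rw [dotProduct_sub, ← hw, hwt, hw]
    simp
    ring
  by_cases h0 : w ⬝ᵥ w = 0
  · refine ⟨1, by simp, ?_⟩
    rw [Matrix.one_mulVec]
    exact sub_eq_zero.1 (dotProduct_self_eq_zero.1 h0)
  · refine ⟨1 - (2 / (w ⬝ᵥ w)) • Matrix.vecMulVec w w, ?_, ?_⟩
    · rw [Matrix.transpose_sub, Matrix.transpose_one, Matrix.transpose_smul,
        Matrix.transpose_vecMulVec]
      simp only [Matrix.sub_mul, Matrix.mul_sub, Matrix.one_mul, Matrix.mul_one, Matrix.smul_mul,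
        Matrix.mul_smul, Matrix.vecMulVec_mul_vecMulVec, Matrix.vecMulVec_smul, smul_smul]
      rw [div_mul_cancel₀ _ h0]
      module
    · rw [Matrix.sub_mulVec, Matrix.one_mulVec, Matrix.smul_mulVec, Matrix.vecMulVec_mulVec]
      have : (2 / (w ⬝ᵥ w)) * (w ⬝ᵥ t) = 1 := by
        rw [div_mul_eq_mul_div, div_eq_one_iff_eq h0, hww, hwt]
      rw [op_smul_eq_smul, smul_smul, this, one_smul, hw, sub_sub_cancel]

/-- mean Euclidean norm of a standard Gaussian vector in dimension `d` -/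
def aN (d : ℕ) : ℝ≥0∞ :=
  ∫⁻ t : Fin d → ℝ, ENNReal.ofReal √(∑ l, t l ^ 2) ∂(Measure.pi fun _ => gaussianReal 0 1)

theorem haar_aN_eq (d : ℕ) :
    aN d = ∫⁻ x, ENNReal.ofReal ‖x‖ ∂(stdGaussian (EuclideanSpace ℝ (Fin d))) := by
  rw [← map_pi_eq_stdGaussian, lintegral_map (by fun_prop) (by fun_prop), aN]
  refine lintegral_congr fun t => ?_
  rw [EuclideanSpace.norm_eq]
  simp

theorem aN_ne_top (d : ℕ) : aN d ≠ ∞ := by
  rw [haar_aN_eq]
  have h := (integrable_norm_pow (V := EuclideanSpace ℝ (Fin d)) 1).2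
  rw [hasFiniteIntegral_iff_ofReal (ae_of_all _ fun x => by positivity)] at h
  simpa using h.ne

theorem aN_ne_zero (d : ℕ) : aN (d + 1) ≠ 0 := by
  rw [haar_aN_eq]
  intro h
  rw [lintegral_eq_zero_iff (by fun_prop)] at h
  have h1 := ae_ne_zero (V := EuclideanSpace ℝ (Fin (d + 1))) (by simp)
  obtain ⟨x, hx, hx'⟩ := (h.and h1).exists
  have : ‖x‖ ≤ 0 := by simpa using hx
  exact hx' (norm_le_zero_iff.1 this)

theorem haar_mp_tail {k : ℕ} :
    MeasurePreserving (fun g : Fin (k + 1) → V => fun a : Fin k => g a.succ)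
      (γk V (k + 1)) (γk V k) := by
  refine ⟨by fun_prop, ?_⟩
  have h1 := mp_cons (k := k) (stdGaussian V)
  change Measure.map _ (Measure.pi fun _ => stdGaussian V) = _
  rw [← h1.map_eq, Measure.map_map (by fun_prop) h1.measurable]
  exact (measurePreserving_snd (μ := stdGaussian V) (ν := γk V k)).map_eq

/-- removing the direction `u` and one row from a Gaussian matrix -/
theorem core {k : ℕ} {u : V} (hu : ‖u‖ = 1) {Φ : (Fin (k + 1) → V) → ℝ≥0∞}
    {Θ : (Fin k → V) → ℝ≥0∞} (hΦ : Measurable Φ) (hΘ : Measurable Θ)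
    (h : ∀ (t : Fin (k + 1) → ℝ) (g : Fin (k + 1) → V) (Q : Matrix (Fin (k + 1)) (Fin (k + 1)) ℝ)
      (r : ℝ), Q * Qᵀ = 1 → 0 ≤ r → Q *ᵥ t = Pi.single 0 r →
      Φ (fun l => pr u (g l) + t l • u)
        = ENNReal.ofReal r * Θ (fun a => ∑ l, Q a.succ l • g l)) :
    ∫⁻ g, Φ g ∂(γk V (k + 1)) = aN (k + 1) * ∫⁻ g, Θ g ∂(γk V k) := by
  have h1 := mp_pi_split (k := k + 1) (mp_pr_split hu)
  have hm : Measurable fun q : (Fin (k + 1) → V) × (Fin (k + 1) → ℝ) =>
      Φ fun j => pr u (q.1 j, q.2 j).1 + (q.1 j, q.2 j).2 • u := hΦ.comp h1.measurable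
  rw [← h1.lintegral_comp hΦ, lintegral_prod_symm _ hm.aemeasurable, aN,
    ← lintegral_mul_const _ (by fun_prop)]
  refine lintegral_congr fun t => ?_
  obtain ⟨Q, hQ, hQt⟩ := exists_orth t
  have h2 := (haar_mp_tail (V := V) (k := k)).comp (mp_orth Q hQ)
  have hm2 : Measurable fun g : Fin (k + 1) → V => Θ fun a => ∑ l, Q a.succ l • g l :=
    hΘ.comp h2.measurable
  rw [← h2.lintegral_comp hΘ]
  refine Eq.trans ?_ (lintegral_const_mul _ hm2)
  refine lintegral_congr fun g => ?_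
  exact h t g Q _ hQ (Real.sqrt_nonneg _) hQt

end Pool.Agent.P.MP_181257_gt
end
end

-- part Pool.Agent.P.MP_181257_gt.Kub
section

/-! Elementary properties of the intrinsic volumes, the positivity property. -/

set_option autoImplicit false
set_option linter.unusedSectionVars false

open MeasureTheory ProbabilityTheory Module Set Filter Topology
open scoped RealInnerProductSpace ENNReal Pointwise Matrix

noncomputable section

namespace Pool.Agent.P.MP_181257_gt

variable {V : Type} [NormedAddCommGroup V] [InnerProductSpace ℝ V] [FiniteDimensional ℝ V]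
  [MeasurableSpace V] [BorelSpace V]

theorem measurable_vol {k : ℕ} {M : Set V} (hM : IsCompact M) :
    Measurable fun g : Fin k → V => volume (lin g '' M) := by
  have : CompactSpace M := isCompact_iff_compactSpace.1 hM
  have hT : IsClosed {q : ((Fin k → V) × (Fin k → ℝ)) × M | lin q.1.1 (q.2 : V) = q.1.2} := by
    refine isClosed_eq ?_ (by fun_prop)
    refine continuous_pi fun j => ?_
    simp only [lin_apply]
    fun_prop
  have hS : IsClosed {p : (Fin k → V) × (Fin k → ℝ) | p.2 ∈ lin p.1 '' M} := by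
    convert isClosedMap_fst_of_compactSpace _ hT using 1
    ext p
    constructor
    · rintro ⟨x, hx, e⟩
      exact ⟨(p, ⟨x, hx⟩), e, rfl⟩
    · rintro ⟨⟨p', x, hx⟩, e, rfl⟩
      exact ⟨x, hx, e⟩
  exact measurable_measure_prodMk_left (ν := volume) hS.measurableSet

theorem integrable_vol {k : ℕ} {M : Set V} (hM : IsCompact M) :
    Integrable (fun g : Fin k → V => (volume (lin g '' M)).toReal) (γk V k) := by
  obtain ⟨R, hR0, hR⟩ := hM.isBounded.exists_pos_norm_le
  have hI : Integrable (fun g : Fin k → V => (2 * R) ^ k * ∏ j, ‖g j‖ ^ 1) (γk V k) :=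
    (integrable_prod_norm_pow k 1).const_mul _
  refine hI.mono' (measurable_vol hM).ennreal_toReal.aestronglyMeasurable (ae_of_all _ fun g => ?_)
  rw [Real.norm_of_nonneg ENNReal.toReal_nonneg]
  have hsub : lin g '' M ⊆ Icc (fun j => -(R * ‖g j‖)) (fun j => R * ‖g j‖) := by
    rintro _ ⟨x, hx, rfl⟩
    have key : ∀ j, |⟪g j, x⟫| ≤ R * ‖g j‖ := fun j =>
      (abs_real_inner_le_norm _ _).trans (by
        rw [mul_comm]
        exact mul_le_mul_of_nonneg_right (hR x hx) (norm_nonneg _))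
    exact ⟨fun j => by simpa using (abs_le.1 (key j)).1, fun j => by simpa using (abs_le.1 (key j)).2⟩
  have hle : (fun j => -(R * ‖g j‖)) ≤ fun j => R * ‖g j‖ := fun j => by
    have : 0 ≤ R * ‖g j‖ := by positivity
    simp only
    linarith
  calc (volume (lin g '' M)).toReal
      ≤ (volume (Icc (fun j => -(R * ‖g j‖)) (fun j => R * ‖g j‖))).toReal :=
        ENNReal.toReal_mono isCompact_Icc.measure_lt_top.ne (measure_mono hsub)
    _ = ∏ j, (R * ‖g j‖ - -(R * ‖g j‖)) := Real.volume_Icc_pi_toReal hle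
    _ = ∏ j : Fin k, (2 * R) * ‖g j‖ ^ 1 := Finset.prod_congr rfl fun j _ => by ring
    _ = (2 * R) ^ k * ∏ j, ‖g j‖ ^ 1 := by
        rw [Finset.prod_mul_distrib]
        simp

theorem intrinsicVol_nonneg (i : ℕ) (M : Set V) : 0 ≤ intrinsicVol i M := by
  rw [intrinsicVol_eq]
  exact integral_nonneg fun g => ENNReal.toReal_nonneg

theorem intrinsicVol_mono (i : ℕ) {M N : Set V} (hM : IsCompact M) (hN : IsCompact N)
    (h : M ⊆ N) : intrinsicVol i M ≤ intrinsicVol i N := by
  rw [intrinsicVol_eq, intrinsicVol_eq]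
  refine integral_mono (integrable_vol hM) (integrable_vol hN) fun g => ?_
  exact ENNReal.toReal_mono (hN.image (lin g).continuous).measure_lt_top.ne
    (measure_mono (image_mono h))

theorem intrinsicVol_smul (i : ℕ) (M : Set V) {t : ℝ} (ht : 0 ≤ t) :
    intrinsicVol i (t • M) = t ^ i * intrinsicVol i M := by
  rw [intrinsicVol_eq, intrinsicVol_eq, ← integral_const_mul]
  refine integral_congr_ae (ae_of_all _ fun g => ?_)
  have e : lin g '' (t • M) = t • (lin g '' M) := by
    ext y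
    constructor
    · rintro ⟨_, ⟨x, hx, rfl⟩, rfl⟩
      exact ⟨lin g x, ⟨x, hx, rfl⟩, (map_smul _ _ _).symm⟩
    · rintro ⟨_, ⟨x, hx, rfl⟩, rfl⟩
      exact ⟨t • x, ⟨x, hx, rfl⟩, map_smul _ _ _⟩
  simp only
  rw [e, Measure.addHaar_smul_of_nonneg _ ht, ENNReal.toReal_mul,
    ENNReal.toReal_ofReal (by positivity)]
  simp

theorem intrinsicVol_vadd (i : ℕ) (M : Set V) (x : V) :
    intrinsicVol i (x +ᵥ M) = intrinsicVol i M := by
  rw [intrinsicVol_eq, intrinsicVol_eq]
  refine integral_congr_ae (ae_of_all _ fun g => ?_)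
  have e : lin g '' (x +ᵥ M) = (fun y => -lin g x + y) ⁻¹' (lin g '' M) := by
    ext y
    constructor
    · rintro ⟨_, ⟨z, hz, rfl⟩, rfl⟩
      exact ⟨z, hz, by simp⟩
    · rintro ⟨z, hz, e⟩
      refine ⟨x + z, ⟨z, hz, rfl⟩, ?_⟩
      rw [map_add, e]
      simp
  simp only
  rw [e, measure_preimage_add]

theorem convex_Zs (h : V → ℝ) : Convex ℝ (Zs h) := by
  intro x hx y hy a b ha hb hab u hu
  rw [inner_add_left, real_inner_smul_left, real_inner_smul_left]
  have h1 := mul_le_mul_of_nonneg_left (hx u hu) ha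
  have h2 := mul_le_mul_of_nonneg_left (hy u hu) hb
  have h3 : a * h u + b * h u = h u := by rw [← add_mul, hab, one_mul]
  linarith

theorem kub_norm_le_of_mem_Zs {h : V → ℝ} {B : ℝ} (hB : ∀ u, ‖u‖ = 1 → h u ≤ B) (h0 : 0 ≤ B) {x : V}
    (hx : x ∈ Zs h) : ‖x‖ ≤ B := by
  by_cases hx0 : x = 0
  · simpa [hx0] using h0
  · have hn : ‖x‖ ≠ 0 := norm_ne_zero_iff.2 hx0
    have hu : ‖‖x‖⁻¹ • x‖ = 1 := norm_smul_inv_norm hx0
    have h1 := (hx _ hu).trans (hB _ hu)
    rw [real_inner_smul_right, real_inner_self_eq_norm_sq] at h1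
    have e : ‖x‖⁻¹ * ‖x‖ ^ 2 = ‖x‖ := by field_simp
    rwa [e] at h1

theorem kub_continuous_pr (u : V) : Continuous (pr u) := by
  have : pr u = prL u := funext fun v => (prL_apply u v).symm
  rw [this]
  exact (prL u).continuous

theorem isCompact_Zs {h : V → ℝ} {B : ℝ} (hB : ∀ u, ‖u‖ = 1 → h u ≤ B) : IsCompact (Zs h) := by
  refine Metric.isCompact_of_isClosed_isBounded ?_ ?_
  · have e : Zs h = ⋂ u : V, ⋂ _ : ‖u‖ = 1, {x : V | ⟪x, u⟫ ≤ h u} := by
      ext x
      simp [Zs]
    rw [e]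
    exact isClosed_iInter fun u => isClosed_iInter fun _ =>
      isClosed_le (by fun_prop) continuous_const
  · refine (Metric.isBounded_closedBall (x := (0 : V)) (r := max B 0)).subset fun x hx => ?_
    rw [mem_closedBall_zero_iff]
    exact kub_norm_le_of_mem_Zs (fun u hu => (hB u hu).trans (le_max_left _ _)) (le_max_right _ _) hx

theorem Zs_smul (h : V → ℝ) {t : ℝ} (ht : 0 < t) : Zs (fun u => t * h u) = t • Zs h := by
  ext x
  rw [mem_smul_set_iff_inv_smul_mem₀ ht.ne']
  simp only [Zs, mem_ofPred_eq, real_inner_smul_left]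
  refine forall_congr' fun u => forall_congr' fun _ => ?_
  rw [inv_mul_le_iff₀ ht]

theorem Zs_congr {h h' : V → ℝ} (e : ∀ u, ‖u‖ = 1 → h u = h' u) : Zs h = Zs h' := by
  ext x
  simp only [Zs, mem_ofPred_eq]
  refine forall_congr' fun u => forall_congr' fun hu => ?_
  rw [e u hu]

theorem Zs_const {r : ℝ} (hr : 0 ≤ r) : Zs (fun _ : V => r) = Metric.closedBall 0 r := by
  ext x
  rw [mem_closedBall_zero_iff]
  refine ⟨kub_norm_le_of_mem_Zs (fun _ _ => le_rfl) hr, fun hx u hu => ?_⟩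
  refine (real_inner_le_norm _ _).trans ?_
  rwa [hu, mul_one]

theorem PP_congr (i : ℕ) {h h' : V → ℝ} (e : ∀ u, ‖u‖ = 1 → h u = h' u) : PP i h = PP i h' := by
  funext u
  simp only [PP, Zs_congr e]

theorem PP_smul (i : ℕ) (h : V → ℝ) {t : ℝ} (ht : 0 < t) (u : V) :
    PP i (fun u => t * h u) u = t ^ i * PP i h u := by
  simp only [PP]
  rw [Zs_smul h ht, ← intrinsicVol_smul i _ ht.le]
  congr 1
  ext y
  constructor
  · rintro ⟨_, ⟨x, hx, rfl⟩, rfl⟩
    exact ⟨pr u x, ⟨x, hx, rfl⟩, (pr_smul _ _ _).symm⟩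
  · rintro ⟨_, ⟨x, hx, rfl⟩, rfl⟩
    exact ⟨t • x, ⟨x, hx, rfl⟩, pr_smul _ _ _⟩

theorem PP_mono (i : ℕ) {h h' : V → ℝ} {B : ℝ} (hB : ∀ u, ‖u‖ = 1 → h' u ≤ B)
    (e : ∀ u, ‖u‖ = 1 → h u ≤ h' u) (u : V) : PP i h u ≤ PP i h' u := by
  refine intrinsicVol_mono i
    ((isCompact_Zs fun v hv => (e v hv).trans (hB v hv)).image (kub_continuous_pr u))
    ((isCompact_Zs hB).image (kub_continuous_pr u)) (image_mono fun x hx v hv => ?_)
  exact (hx v hv).trans (e v hv)

theorem exists_bound_proj (i : ℕ) {K : Set V} (hK : IsCompact K) :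
    ∃ B : ℝ, ∀ u : V, intrinsicVol i (pr u '' K) ≤ B := by
  obtain ⟨R, -, hR⟩ := hK.isBounded.exists_pos_norm_le
  refine ⟨intrinsicVol i (Metric.closedBall (0 : V) R), fun u => ?_⟩
  refine intrinsicVol_mono i (hK.image (kub_continuous_pr u)) (isCompact_closedBall _ _) ?_
  rintro _ ⟨x, hx, rfl⟩
  rw [mem_closedBall_zero_iff]
  exact (norm_pr_le u x).trans (hR x hx)

/-- the positivity property of zonoid support functions -/
def Zon (h : V → ℝ) : Prop :=
  ∀ (ι : Type) (s : Finset ι) (c : ι → ℝ) (u : ι → V), (∀ j, ‖u j‖ = 1) →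
    (∀ y : V, 0 ≤ ∑ j ∈ s, c j * |⟪u j, y⟫|) → 0 ≤ ∑ j ∈ s, c j * h (u j)

theorem integral_shad (i : ℕ) {L : Set V} (hL : IsCompact L) (hc : Convex ℝ L) {u : V}
    (hu : ‖u‖ = 1) :
    Integrable (fun g : Fin (i + 1) → V => shad (lin g '' L) (lin g u)) (γk V (i + 1)) ∧
    ∫ g, shad (lin g '' L) (lin g u) ∂(γk V (i + 1))
      = (aN (i + 1)).toReal * intrinsicVol i (pr u '' L) := by
  have hseg : IsCompact (segment ℝ (-u) u) := by
    rw [segment_eq_image]
    exact isCompact_Icc.image (by fun_prop)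
  have hLs : IsCompact (L + segment ℝ (-u) u) := hL.add hseg
  have hP : IsCompact (pr u '' L) := hL.image (kub_continuous_pr u)
  have e : ∀ g : Fin (i + 1) → V, shad (lin g '' L) (lin g u)
      = ((volume (lin g '' (L + segment ℝ (-u) u))).toReal - (volume (lin g '' L)).toReal) / 2 := by
    intro g
    have h1 : lin g '' segment ℝ (-u) u = segment ℝ (-lin g u) (lin g u) := by
      have := image_segment ℝ (lin g).toLinearMap.toAffineMap (-u) u
      simpa using this
    rw [image_add, h1]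
    rfl
  have hint : Integrable (fun g : Fin (i + 1) → V => shad (lin g '' L) (lin g u))
      (γk V (i + 1)) := by
    simp only [e]
    exact ((integrable_vol hLs).sub (integrable_vol hL)).div_const 2
  have hmeas : Measurable fun g : Fin (i + 1) → V => shad (lin g '' L) (lin g u) := by
    simp only [e]
    exact ((measurable_vol hLs).ennreal_toReal.sub (measurable_vol hL).ennreal_toReal).div_const 2
  have hnn : ∀ g : Fin (i + 1) → V, 0 ≤ shad (lin g '' L) (lin g u) := by
    intro g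
    rw [e]
    refine div_nonneg (sub_nonneg.2 ?_) zero_le_two
    refine ENNReal.toReal_mono (hLs.image (lin g).continuous).measure_lt_top.ne
      (measure_mono (image_mono fun x hx => ?_))
    refine ⟨x, hx, 0, ?_, add_zero x⟩
    exact ⟨1 / 2, 1 / 2, by norm_num, by norm_num, by norm_num, by simp⟩
  refine ⟨hint, ?_⟩
  rw [integral_eq_lintegral_of_nonneg_ae (ae_of_all _ hnn) hint.aestronglyMeasurable,
    intrinsicVol_eq, integral_toReal (measurable_vol hP).aemeasurable
      (ae_of_all _ fun g => (hP.image (lin g).continuous).measure_lt_top), ← ENNReal.toReal_mul]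
  congr 1
  refine core hu hmeas.ennreal_ofReal (measurable_vol hP) fun t g Q r hQ hr hQt => ?_
  set g' : Fin (i + 1) → V := fun l => pr u (g l) + t l • u with hg'
  have h1 : lin g' u = t := by
    funext l
    rw [lin_apply, hg']
    simp only
    rw [inner_add_left, real_inner_smul_left, real_inner_self_eq_norm_sq, hu, real_inner_comm,
      inner_pr_self]
    simp
  have hdet : |Q.det| = 1 := by
    have h2 := congrArg Matrix.det hQ
    rw [Matrix.det_mul, Matrix.det_transpose, Matrix.det_one] at h2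
    rcases mul_self_eq_one_iff.1 h2 with h | h <;> simp [h]
  have hdet0 : Q.det ≠ 0 := by
    intro h
    simp [h] at hdet
  have hC : IsCompact (lin g' '' L) := hL.image (lin g').continuous
  have h3 : (fun x => Fin.tail (Q *ᵥ x)) '' (lin g' '' L)
      = lin (fun a : Fin i => ∑ l, Q a.succ l • g l) '' (pr u '' L) := by
    rw [image_image, image_image]
    refine image_congr fun x _ => ?_
    funext a
    have h4 : ∑ l, Q a.succ l * t l = 0 := by
      have := congrFun hQt a.succ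
      simpa [Matrix.mulVec, dotProduct] using this
    simp only [Fin.tail, Matrix.mulVec, dotProduct, lin_apply, hg', inner_add_left,
      real_inner_smul_left, sum_inner, inner_pr_comm, mul_add, Finset.sum_add_distrib,
      ← mul_assoc, ← Finset.sum_mul, h4, zero_mul, add_zero]
  have hcv : Convex ℝ (lin g' '' L) := hc.is_linear_image (lin g').toLinearMap.isLinear
  rw [h1, shad_eq hcv hC.isBounded (Or.inr hC)
    hdet0 hr hQt, hdet, div_one, h3, ENNReal.ofReal_mul hr,
    ofReal_measureReal (hP.image (lin _).continuous).measure_lt_top.ne]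

theorem zon_proj (i : ℕ) {L : Set V} (hL : IsCompact L) (hc : Convex ℝ L) (hne : L.Nonempty) :
    Zon fun u => intrinsicVol i (pr u '' L) := by
  intro ι s c u hu h
  have := FiniteDimensional.complete ℝ V
  have h1 : ∀ g : Fin (i + 1) → V, 0 ≤ ∑ j ∈ s, c j * shad (lin g '' L) (lin g (u j)) := by
    intro g
    refine shad_comb_nonneg (hL.image (lin g).continuous)
      (hc.is_linear_image (lin g).toLinearMap.isLinear) (hne.image _) s c _ fun ℓ => ?_
    have h2 := h ((InnerProductSpace.toDual ℝ V).symm (ℓ.comp (lin g)))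
    refine h2.trans_eq (Finset.sum_congr rfl fun j _ => ?_)
    rw [real_inner_comm, InnerProductSpace.toDual_symm_apply]
    rfl
  have h3 : 0 ≤ ∫ g, ∑ j ∈ s, c j * shad (lin g '' L) (lin g (u j)) ∂(γk V (i + 1)) :=
    integral_nonneg h1
  rw [integral_finsetSum _ fun j _ => (integral_shad i hL hc (hu j)).1.const_mul _] at h3
  have h4 : ∀ j ∈ s, ∫ g, c j * shad (lin g '' L) (lin g (u j)) ∂(γk V (i + 1))
      = (aN (i + 1)).toReal * (c j * intrinsicVol i (pr (u j) '' L)) := fun j _ => by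
    rw [integral_const_mul, (integral_shad i hL hc (hu j)).2]
    ring
  rw [Finset.sum_congr rfl h4, ← Finset.mul_sum] at h3
  exact nonneg_of_mul_nonneg_right h3 (ENNReal.toReal_pos (aN_ne_zero i) (aN_ne_top _))

end Pool.Agent.P.MP_181257_gt
end
end

-- part Pool.Agent.P.MP_181257_gt.Rep
section

/-! Generating measures and their approximation by bounded densities. -/

set_option autoImplicit false
set_option linter.unusedSectionVars false

open MeasureTheory ProbabilityTheory Module Set Filter Topology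
open scoped RealInnerProductSpace ENNReal Pointwise Matrix

noncomputable section

namespace Pool.Agent.P.MP_181257_gt

variable {V : Type} [NormedAddCommGroup V] [InnerProductSpace ℝ V] [FiniteDimensional ℝ V]
  [MeasurableSpace V] [BorelSpace V]

/-- the function `y ↦ |⟪u, y⟫|` on the unit sphere -/
def rep_fn (u : V) : CompactlySupportedContinuousMap (Metric.sphere (0 : V) 1) ℝ :=
  ⟨⟨fun y => |⟪u, (y : V)⟫|, by fun_prop⟩, HasCompactSupport.of_compactSpace _⟩

theorem rep_fn_apply (u : V) (y : Metric.sphere (0 : V) 1) : rep_fn u y = |⟪u, (y : V)⟫| := rfl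

/-- evaluation as a linear map -/
def rep_ev (y : Metric.sphere (0 : V) 1) :
    CompactlySupportedContinuousMap (Metric.sphere (0 : V) 1) ℝ →ₗ[ℝ] ℝ where
  toFun g := g y
  map_add' _ _ := rfl
  map_smul' _ _ := rfl

theorem rep_one_le {y : V} (hy : ‖y‖ = 1) :
    1 ≤ ∑ k, |⟪stdOrthonormalBasis ℝ V k, y⟫| := by
  have h1 := (stdOrthonormalBasis ℝ V).sum_inner_mul_inner y y
  rw [real_inner_self_eq_norm_sq, hy] at h1
  have h2 : ∀ k, ⟪y, stdOrthonormalBasis ℝ V k⟫ * ⟪stdOrthonormalBasis ℝ V k, y⟫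
      ≤ |⟪stdOrthonormalBasis ℝ V k, y⟫| := by
    intro k
    have h3 : |⟪stdOrthonormalBasis ℝ V k, y⟫| ≤ 1 := by
      have := abs_real_inner_le_norm (stdOrthonormalBasis ℝ V k) y
      rwa [(stdOrthonormalBasis ℝ V).orthonormal.1 k, hy, one_mul] at this
    rw [real_inner_comm (stdOrthonormalBasis ℝ V k) y, ← abs_mul_abs_self]
    exact mul_le_of_le_one_left (abs_nonneg _) h3
  calc (1 : ℝ) = 1 ^ 2 := by norm_num
    _ = _ := h1.symm
    _ ≤ _ := Finset.sum_le_sum fun k _ => h2 k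

theorem Zon.exists_measure {h : V → ℝ} (hZ : Zon h) :
    ∃ μ : Measure V, IsFiniteMeasure μ ∧ (∀ᵐ x ∂μ, ‖x‖ = 1) ∧
      ∀ u, ‖u‖ = 1 → h u = ∫ x, |⟪u, x⟫| ∂μ := by
  classical
  let X := Metric.sphere (0 : V) 1
  let E := CompactlySupportedContinuousMap X ℝ
  have hX : ∀ u : X, ‖(u : V)‖ = 1 := fun u => mem_sphere_zero_iff_norm.1 u.2
  let A : (X →₀ ℝ) →ₗ[ℝ] E := Finsupp.linearCombination ℝ fun u : X => rep_fn (u : V)
  let B : (X →₀ ℝ) →ₗ[ℝ] ℝ := Finsupp.linearCombination ℝ fun u : X => h u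
  have hA : ∀ (c : X →₀ ℝ) (y : X), A c y = ∑ j ∈ c.support, c j * |⟪(j : V), (y : V)⟫| := by
    intro c y
    change rep_ev y (A c) = _
    simp only [A, Finsupp.linearCombination_apply, Finsupp.sum, map_sum, map_smul, smul_eq_mul]
    rfl
  have key : ∀ c : X →₀ ℝ, (∀ y : X, 0 ≤ A c y) → 0 ≤ B c := by
    intro c hc
    have := hZ X c.support c (fun j => (j : V)) hX (fun y => by
      by_cases hy : y = 0
      · simp [hy]
      · have hn : 0 < ‖y‖ := norm_pos_iff.2 hy
        have h1 : ‖(‖y‖⁻¹ • y)‖ = 1 := by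
          rw [norm_smul, norm_inv, norm_norm, inv_mul_cancel₀ hn.ne']
        have h2 := hc ⟨‖y‖⁻¹ • y, mem_sphere_zero_iff_norm.2 h1⟩
        rw [hA] at h2
        simp only [real_inner_smul_right, abs_mul, abs_inv, abs_norm] at h2
        have h3 : ∑ j ∈ c.support, c j * |⟪(j : V), y⟫|
            = ‖y‖ * ∑ j ∈ c.support, c j * (‖y‖⁻¹ * |⟪(j : V), y⟫|) := by
          rw [Finset.mul_sum]
          refine Finset.sum_congr rfl fun j _ => ?_
          field_simp
        rw [h3]
        exact mul_nonneg hn.le h2)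
    simpa only [B, Finsupp.linearCombination_apply, Finsupp.sum, smul_eq_mul] using this
  have hker : B ∈ (LinearMap.ker A).dualAnnihilator := by
    rw [Submodule.mem_dualAnnihilator]
    intro c hc
    rw [LinearMap.mem_ker] at hc
    have h1 := key c fun y => by rw [hc]; exact le_rfl
    have h2 := key (-c) fun y => by rw [map_neg, hc, neg_zero]; exact le_rfl
    rw [map_neg] at h2
    linarith
  rw [← LinearMap.range_dualMap_eq_dualAnnihilator_ker] at hker
  obtain ⟨g0, hg0⟩ := hker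
  have hg0' : ∀ c, g0 (A c) = B c := fun c => by
    rw [← hg0]; rfl
  let s : PointedCone ℝ E := PointedCone.ofConeComb {g : E | ∀ y, 0 ≤ g y}
    ⟨0, fun _ => le_rfl⟩ (fun g hg g' hg' a ha b hb y =>
      add_nonneg (mul_nonneg ha (hg y)) (mul_nonneg hb (hg' y)))
  have hs : ∀ g : E, g ∈ s ↔ ∀ y, 0 ≤ g y := fun g => Iff.rfl
  obtain ⟨g, hg1, hg2⟩ := riesz_extension s (g0.toPMap (LinearMap.range A))
    (by
      rintro ⟨x, c, rfl⟩ hx
      change 0 ≤ g0 (A c)
      rw [hg0']
      exact key c hx)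
    (by
      intro φ
      obtain ⟨C, hC⟩ : ∃ C : ℝ, ∀ y, ‖φ y‖ ≤ C :=
        ⟨‖φ.toBoundedContinuousFunction‖, fun y => φ.toBoundedContinuousFunction.norm_coe_le_norm y⟩
      let b := stdOrthonormalBasis ℝ V
      let e : Fin (finrank ℝ V) → X := fun k => ⟨b k, mem_sphere_zero_iff_norm.2 (b.orthonormal.1 k)⟩
      refine ⟨⟨A (∑ k, Finsupp.single (e k) |C|), LinearMap.mem_range_self _ _⟩, ?_⟩
      rw [hs]
      intro y
      change 0 ≤ rep_ev y (A (∑ k, Finsupp.single (e k) |C|)) + φ y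
      simp only [A, map_sum, Finsupp.linearCombination_single, map_smul, smul_eq_mul]
      rw [← Finset.mul_sum]
      have h1 : (1 : ℝ) ≤ ∑ k, rep_ev y (rep_fn (e k : V)) := rep_one_le (hX y)
      have h2 := hC y
      rw [Real.norm_eq_abs] at h2
      have h3 := neg_abs_le (φ y)
      have h4 := le_abs_self C
      nlinarith [abs_nonneg C])
  let Λ : E →ₚ[ℝ] ℝ := PositiveLinearMap.mk₀ g fun x hx => hg2 x hx
  let ν : Measure X := RealRMK.rieszMeasure Λ
  refine ⟨ν.map Subtype.val, inferInstance, ?_, fun u hu => ?_⟩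
  · rw [ae_map_iff (by fun_prop) (isClosed_eq (by fun_prop) (by fun_prop)).measurableSet]
    exact ae_of_all _ hX
  · rw [integral_map (by fun_prop) (by fun_prop)]
    have h1 := RealRMK.integral_rieszMeasure Λ (rep_fn u)
    have h2 : Λ (rep_fn u) = h u := by
      have e1 : rep_fn u = A (Finsupp.single ⟨u, mem_sphere_zero_iff_norm.2 hu⟩ 1) := by
        simp [A]
      have e2 := hg1 ⟨A (Finsupp.single ⟨u, mem_sphere_zero_iff_norm.2 hu⟩ 1), LinearMap.mem_range_self _ _⟩
      change g (rep_fn u) = _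
      rw [e1]
      refine e2.trans ?_
      change g0 (A _) = _
      rw [hg0']
      simp [B]
    rw [← h2, ← h1]
    rfl

/-- pairs `(x, y)` with `x` a unit vector and `y` in the cone of opening `ε` about `x` -/
def rep_cone (ε : ℝ) : Set (V × V) := {p | ‖p.1‖ = 1 ∧ ‖p.2 - ‖p.2‖ • p.1‖ ≤ ε * ‖p.2‖}

theorem rep_cone_meas (ε : ℝ) : MeasurableSet (rep_cone ε : Set (V × V)) := by
  have h1 : IsClosed {p : V × V | ‖p.1‖ = 1} := isClosed_eq (by fun_prop) (by fun_prop)
  have h2 : IsClosed {p : V × V | ‖p.2 - ‖p.2‖ • p.1‖ ≤ ε * ‖p.2‖} :=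
    isClosed_le (by fun_prop) (by fun_prop)
  exact (h1.inter h2).measurableSet

/-- the weighted Gaussian mass of a cone -/
def rep_mass (ε : ℝ) (x : V) : ℝ :=
  ∫ y, (rep_cone ε).indicator (fun p : V × V => ‖p.2‖) (x, y) ∂(stdGaussian V)

theorem rep_mass_meas (ε : ℝ) : Measurable (rep_mass ε : V → ℝ) :=
  (StronglyMeasurable.integral_prod_right' (ν := stdGaussian V)
    ((Measurable.indicator (by fun_prop) (rep_cone_meas ε)).stronglyMeasurable)).measurable

theorem rep_int_norm : Integrable (fun y : V => ‖y‖) (stdGaussian V) := by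
  simpa using integrable_norm_pow (V := V) 1

theorem rep_int_ind (ε : ℝ) (x : V) :
    Integrable (fun y => (rep_cone ε).indicator (fun p : V × V => ‖p.2‖) (x, y))
      (stdGaussian V) := by
  refine rep_int_norm.mono' ?_ (ae_of_all _ fun y => ?_)
  · exact ((Measurable.indicator (by fun_prop) (rep_cone_meas ε)).comp
      measurable_prodMk_left).aestronglyMeasurable
  · by_cases hp : (x, y) ∈ rep_cone ε <;> simp [hp]

theorem rep_mass_lower : ∃ c : ℝ, 0 < c ∧ ∀ ε ∈ Ioc (0 : ℝ) 1, ∀ x : V, ‖x‖ = 1 →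
    c * ε ^ finrank ℝ V ≤ rep_mass ε x := by
  set δ : ℝ := (2 * Real.pi) ^ (-(finrank ℝ V : ℝ) / 2) * Real.exp (-2) with hδ
  have hδ0 : 0 < δ := by positivity
  set v : ℝ := (volume (Metric.ball (0 : V) 1)).toReal with hv
  have hv0 : 0 < v :=
    ENNReal.toReal_pos (Metric.measure_ball_pos _ _ one_pos).ne' measure_ball_lt_top.ne
  refine ⟨3 / 4 * (δ * ((1 / 4) ^ finrank ℝ V * v)), by positivity, fun ε hε x hx => ?_⟩
  obtain ⟨hε0, hε1⟩ := hε
  have hb : ∀ y ∈ Metric.ball x (ε / 4), 3 / 4 ≤ ‖y‖ ∧ ‖y‖ ≤ 2 ∧ (x, y) ∈ rep_cone ε := by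
    intro y hy
    rw [mem_ball_iff_norm] at hy
    have h1 : |‖y‖ - ‖x‖| ≤ ‖y - x‖ := abs_norm_sub_norm_le y x
    rw [hx] at h1
    obtain ⟨h2, h3⟩ := abs_le.1 h1
    refine ⟨by linarith, by linarith, hx, ?_⟩
    have e : y - ‖y‖ • x = (y - x) + (1 - ‖y‖) • x := by
      rw [sub_smul, one_smul]; abel
    change ‖y - ‖y‖ • x‖ ≤ ε * ‖y‖
    rw [e]
    refine (norm_add_le _ _).trans ?_
    rw [norm_smul, hx, mul_one, Real.norm_eq_abs, abs_sub_comm]
    nlinarith
  have hm : ENNReal.ofReal δ * volume (Metric.ball x (ε / 4))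
      ≤ stdGaussian V (Metric.ball x (ε / 4)) := by
    rw [stdGaussian_eq_withDensity, withDensity_apply _ measurableSet_ball, ← setLIntegral_const]
    refine setLIntegral_mono' measurableSet_ball fun y hy => ENNReal.ofReal_le_ofReal ?_
    refine mul_le_mul_of_nonneg_left (Real.exp_le_exp.2 ?_) (by positivity)
    have := hb y hy
    nlinarith [norm_nonneg y]
  rw [Measure.addHaar_ball_of_pos _ _ (by positivity : 0 < ε / 4)] at hm
  have hm2 := ENNReal.toReal_mono (measure_ne_top _ _) hm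
  rw [ENNReal.toReal_mul, ENNReal.toReal_mul, ENNReal.toReal_ofReal hδ0.le,
    ENNReal.toReal_ofReal (by positivity), ← hv] at hm2
  have hI : ∫ y, (Metric.ball x (ε / 4)).indicator (fun _ => (3 / 4 : ℝ)) y ∂(stdGaussian V)
      ≤ rep_mass ε x := by
    refine integral_mono ((integrable_const _).indicator measurableSet_ball) (rep_int_ind ε x)
      fun y => ?_
    by_cases hy : y ∈ Metric.ball x (ε / 4)
    · have := hb y hy
      simp only [indicator_of_mem hy, indicator_of_mem this.2.2]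
      exact this.1
    · simp only [indicator_of_notMem hy]
      exact indicator_nonneg (fun _ _ => norm_nonneg _) _
  rw [integral_indicator_const _ measurableSet_ball, smul_eq_mul, Measure.real] at hI
  have e : 3 / 4 * (δ * ((1 / 4) ^ finrank ℝ V * v)) * ε ^ finrank ℝ V
      = 3 / 4 * (δ * ((ε / 4) ^ finrank ℝ V * v)) := by
    rw [div_pow ε, div_pow 1, one_pow]; ring
  rw [e]
  linarith

/-- the smoothing kernel -/
def rep_k (ε : ℝ) (p : V × V) : ℝ := (rep_cone ε).indicator (fun p => (rep_mass ε p.1)⁻¹) p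

theorem rep_k_meas (ε : ℝ) : Measurable (rep_k ε : V × V → ℝ) :=
  Measurable.indicator ((rep_mass_meas ε).comp measurable_fst).inv (rep_cone_meas ε)

theorem rep_k_hom (ε : ℝ) {t : ℝ} (ht : 0 < t) (x y : V) :
    rep_k ε (x, t • y) = rep_k ε (x, y) := by
  have e : (x, t • y) ∈ rep_cone ε ↔ (x, y) ∈ rep_cone ε := by
    change (‖x‖ = 1 ∧ ‖t • y - ‖t • y‖ • x‖ ≤ ε * ‖t • y‖) ↔ (‖x‖ = 1 ∧ ‖y - ‖y‖ • x‖ ≤ ε * ‖y‖)
    rw [norm_smul, Real.norm_eq_abs, abs_of_pos ht, mul_smul, ← smul_sub, norm_smul,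
      Real.norm_eq_abs, abs_of_pos ht, mul_left_comm, mul_le_mul_iff_right₀ ht]
  unfold rep_k
  by_cases hp : (x, y) ∈ rep_cone ε
  · rw [indicator_of_mem hp, indicator_of_mem (e.2 hp)]
  · rw [indicator_of_notMem hp, indicator_of_notMem fun h => hp (e.1 h)]

theorem exists_den_approx (hn : 1 ≤ finrank ℝ V) (μ : Measure V) [IsFiniteMeasure μ]
    (h1 : ∀ᵐ x ∂μ, ‖x‖ = 1) :
    ∃ A : ℝ, 1 ≤ A ∧ ∀ ε ∈ Ioc (0 : ℝ) 1, ∃ f : V → ℝ, Den f ∧
      (∀ y, ε ≤ f y ∧ f y ≤ A / ε ^ finrank ℝ V) ∧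
      ∀ u, ‖u‖ = 1 → |hz f u - ∫ x, |⟪u, x⟫| ∂μ| ≤ A * ε := by
  obtain ⟨c, hc, hcm⟩ := rep_mass_lower (V := V)
  set M : ℝ := μ.real univ with hM
  have hM0 : 0 ≤ M := measureReal_nonneg
  have hc0 := c0_pos
  have hMc : 0 ≤ M / c := by positivity
  refine ⟨1 + c0 + M + M / c, by linarith, fun ε hε => ?_⟩
  have hcm := hcm ε hε
  obtain ⟨hε0, hε1⟩ := hε
  have hp : 0 < ε ^ finrank ℝ V := by positivity
  have hp1 : ε ^ finrank ℝ V ≤ 1 := pow_le_one₀ hε0.le hε1
  set K : ℝ := (c * ε ^ finrank ℝ V)⁻¹ with hK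
  have hK0 : 0 < K := by positivity
  have hk : ∀ p : V × V, 0 ≤ rep_k ε p ∧ rep_k ε p ≤ K := by
    intro p
    unfold rep_k
    by_cases hp' : p ∈ rep_cone ε
    · rw [indicator_of_mem hp']
      have := hcm p.1 hp'.1
      have h0 : 0 < c * ε ^ finrank ℝ V := by positivity
      exact ⟨(inv_pos.2 (h0.trans_le this)).le, inv_anti₀ h0 this⟩
    · rw [indicator_of_notMem hp']
      exact ⟨le_rfl, hK0.le⟩
  have hkn : ∀ p : V × V, ‖rep_k ε p‖ ≤ K := fun p => by
    rw [Real.norm_of_nonneg (hk p).1]; exact (hk p).2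
  set q : V → ℝ := fun y => ∫ x, rep_k ε (x, y) ∂μ with hq
  have hqm : Measurable q :=
    (StronglyMeasurable.integral_prod_left' (μ := μ) (rep_k_meas ε).stronglyMeasurable).measurable
  have hq0 : ∀ y, 0 ≤ q y := fun y => integral_nonneg fun x => (hk _).1
  have hq1 : ∀ y, q y ≤ K * M := fun y =>
    (le_abs_self _).trans (norm_integral_le_of_norm_le_const (μ := μ)
      (f := fun x => rep_k ε (x, y)) (ae_of_all _ fun x => hkn _))
  have hbd : ∀ y, ε ≤ ε + q y ∧ ε + q y ≤ (1 + c0 + M + M / c) / ε ^ finrank ℝ V := by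
    intro y
    refine ⟨by linarith [hq0 y], ?_⟩
    rw [le_div_iff₀ hp]
    have e : K * M * ε ^ finrank ℝ V = M / c := by
      rw [hK]; field_simp
    have h2 : q y * ε ^ finrank ℝ V ≤ M / c := e ▸ mul_le_mul_of_nonneg_right (hq1 y) hp.le
    have h3 : ε * ε ^ finrank ℝ V ≤ 1 := mul_le_one₀ hε1 hp.le hp1
    nlinarith
  refine ⟨fun y => ε + q y, ⟨⟨hqm.const_add ε, ε, _, hε0, hbd⟩, fun t ht y => ?_⟩, hbd,
    fun u hu => ?_⟩
  · simp only [hq, rep_k_hom ε ht]
  have hui : ∀ y : V, |⟪u, y⟫| ≤ ‖y‖ := fun y => by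
    simpa [hu] using abs_real_inner_le_norm u y
  have hFm : Measurable fun p : V × V => |⟪u, p.2⟫| * rep_k ε p :=
    Measurable.mul (by fun_prop) (rep_k_meas ε)
  have hF : Integrable (fun p : V × V => |⟪u, p.2⟫| * rep_k ε p) (μ.prod (stdGaussian V)) := by
    refine ((rep_int_norm.comp_snd μ).mul_const K).mono' hFm.aestronglyMeasurable
      (ae_of_all _ fun p => ?_)
    rw [norm_mul, Real.norm_eq_abs, abs_abs]
    exact mul_le_mul (hui _) (hkn _) (norm_nonneg _) (norm_nonneg _)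
  have hsplit : hz (fun y => ε + q y) u
      = ε * c0 + ∫ x, ∫ y, |⟪u, y⟫| * rep_k ε (x, y) ∂(stdGaussian V) ∂μ := by
    rw [integral_integral_swap (f := fun x y => |⟪u, y⟫| * rep_k ε (x, y)) hF]
    have e1 : ∀ y : V, ∫ x, |⟪u, y⟫| * rep_k ε (x, y) ∂μ = |⟪u, y⟫| * q y := fun y =>
      integral_const_mul _ _
    have hi : Integrable (fun y : V => |⟪u, y⟫| * q y) (stdGaussian V) := by
      simpa only [e1] using hF.integral_prod_right
    simp only [e1, hz, mul_add]
    rw [integral_add ((integrable_abs_inner u).mul_const ε) hi, integral_mul_const,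
      integral_abs_inner, hu]
    ring
  have hloc : ∀ x : V, ‖x‖ = 1 →
      |(∫ y, |⟪u, y⟫| * rep_k ε (x, y) ∂(stdGaussian V)) - (|⟪u, x⟫|)| ≤ ε := by
    intro x hx
    have hm0 : 0 < rep_mass ε x := lt_of_lt_of_le (by positivity) (hcm x hx)
    have e1 : ∀ y : V, ‖y‖ * rep_k ε (x, y)
        = (rep_cone ε).indicator (fun p : V × V => ‖p.2‖) (x, y) * (rep_mass ε x)⁻¹ := by
      intro y
      unfold rep_k
      by_cases hp' : (x, y) ∈ rep_cone ε <;> simp [hp']
    have hi1 : Integrable (fun y : V => ‖y‖ * rep_k ε (x, y)) (stdGaussian V) := by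
      simpa only [e1] using (rep_int_ind ε x).mul_const _
    have hone : ∫ y, ‖y‖ * rep_k ε (x, y) ∂(stdGaussian V) = 1 := by
      simp only [e1]
      rw [integral_mul_const]
      exact mul_inv_cancel₀ hm0.ne'
    have hi2 : Integrable (fun y : V => |⟪u, y⟫| * rep_k ε (x, y)) (stdGaussian V) := by
      refine hi1.mono' (hFm.comp measurable_prodMk_left).aestronglyMeasurable
        (ae_of_all _ fun y => ?_)
      rw [norm_mul, Real.norm_eq_abs, abs_abs, Real.norm_of_nonneg (hk _).1]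
      exact mul_le_mul_of_nonneg_right (hui _) (hk _).1
    have e2 : (∫ y, |⟪u, y⟫| * rep_k ε (x, y) ∂(stdGaussian V)) - |⟪u, x⟫|
        = ∫ y, (|⟪u, y⟫| * rep_k ε (x, y) - |⟪u, x⟫| * (‖y‖ * rep_k ε (x, y)))
          ∂(stdGaussian V) := by
      rw [integral_sub hi2 (hi1.const_mul _), integral_const_mul, hone, mul_one]
    rw [e2]
    have h3 := norm_integral_le_of_norm_le (μ := stdGaussian V) (hi1.const_mul ε)
      (f := fun y => |⟪u, y⟫| * rep_k ε (x, y) - |⟪u, x⟫| * (‖y‖ * rep_k ε (x, y)))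
      (ae_of_all _ fun y => by
        by_cases hp' : (x, y) ∈ rep_cone ε
        · have h4 : ‖y - ‖y‖ • x‖ ≤ ε * ‖y‖ := hp'.2
          have h5 : |(|⟪u, y⟫| - |⟪u, x⟫| * ‖y‖)| ≤ ε * ‖y‖ := by
            have h6 := abs_abs_sub_abs_le_abs_sub ⟪u, y⟫ ⟪u, ‖y‖ • x⟫
            rw [← inner_sub_right, real_inner_smul_right, abs_mul, abs_norm, mul_comm] at h6
            exact h6.trans ((hui _).trans h4)
          rw [← mul_assoc, ← sub_mul, norm_mul, Real.norm_of_nonneg (hk _).1, ← mul_assoc]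
          exact mul_le_mul_of_nonneg_right h5 (hk _).1
        · simp [rep_k, hp'])
    rwa [integral_const_mul, hone, mul_one] at h3
  have hi3 : Integrable (fun x : V => |⟪u, x⟫|) μ := by
    refine Integrable.of_bound (by fun_prop) 1 ?_
    filter_upwards [h1] with x hx
    rw [Real.norm_eq_abs, abs_abs, ← hx]
    exact hui x
  have h4 := norm_integral_le_of_norm_le_const (μ := μ) (C := ε)
    (f := fun x => (∫ y, |⟪u, y⟫| * rep_k ε (x, y) ∂(stdGaussian V)) - |⟪u, x⟫|)
    (by filter_upwards [h1] with x hx using hloc x hx)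
  rw [integral_sub hF.integral_prod_left hi3, Real.norm_eq_abs, ← hM] at h4
  rw [hsplit, add_sub_assoc]
  refine (abs_add_le _ _).trans ?_
  rw [abs_of_pos (mul_pos hε0 hc0)]
  nlinarith [mul_nonneg hMc hε0.le]

/-- the support function of a zonoid is attained -/
theorem isGreatest_Zs {Ω : Type} [MeasurableSpace Ω] (μ : Measure Ω) {Y : Ω → V}
    (hY : Measurable Y) (hi : Integrable Y μ) (w : V) :
    IsGreatest ((fun x => ⟪x, w⟫) '' Zs fun u => ∫ ω, |⟪u, Y ω⟫| ∂μ) (∫ ω, |⟪w, Y ω⟫| ∂μ) := by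
  classical
  constructor
  · let s : Ω → ℝ := fun ω => if 0 ≤ ⟪w, Y ω⟫ then 1 else -1
    have hs : Measurable s :=
      Measurable.ite (measurableSet_le measurable_const (by fun_prop)) measurable_const
        measurable_const
    have hs1 : ∀ ω, |s ω| = 1 := fun ω => by
      by_cases h : 0 ≤ ⟪w, Y ω⟫ <;> simp [s, h]
    have hi' : Integrable (fun ω => s ω • Y ω) μ := by
      refine hi.norm.mono' (hs.smul hY).aestronglyMeasurable (ae_of_all _ fun ω => ?_)
      rw [norm_smul, Real.norm_eq_abs, hs1, one_mul]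
    refine ⟨∫ ω, s ω • Y ω ∂μ, fun u hu => ?_, ?_⟩
    · rw [real_inner_comm, ← integral_inner hi']
      refine integral_mono (hi'.const_inner u) (hi.const_inner u).abs fun ω => ?_
      change ⟪u, s ω • Y ω⟫ ≤ |⟪u, Y ω⟫|
      refine (le_abs_self _).trans ?_
      rw [real_inner_smul_right, abs_mul, hs1, one_mul]
    · change ⟪∫ ω, s ω • Y ω ∂μ, w⟫ = _
      rw [real_inner_comm, ← integral_inner hi']
      refine integral_congr_ae (ae_of_all _ fun ω => ?_)
      change ⟪w, s ω • Y ω⟫ = |⟪w, Y ω⟫|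
      rw [real_inner_smul_right]
      by_cases h : 0 ≤ ⟪w, Y ω⟫
      · simp [s, h, abs_of_nonneg h]
      · simp [s, h, abs_of_neg (not_le.1 h)]
  · rintro _ ⟨x, hx, rfl⟩
    by_cases hw : w = 0
    · simp [hw]
    · have hn : 0 < ‖w‖ := norm_pos_iff.2 hw
      have h1 : ‖(‖w‖⁻¹ • w)‖ = 1 := by
        rw [norm_smul, norm_inv, norm_norm, inv_mul_cancel₀ hn.ne']
      have h2 := hx _ h1
      simp only [real_inner_smul_right, real_inner_smul_left, abs_mul, abs_inv, abs_norm,
        integral_const_mul] at h2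
      exact le_of_mul_le_mul_left h2 (inv_pos.2 hn)

end Pool.Agent.P.MP_181257_gt
end
end

-- part Pool.Agent.P.MP_181257_gt.ZonVol
section

/-! The volume of a zonoid. -/

set_option autoImplicit false
set_option linter.unusedSectionVars false

open MeasureTheory ProbabilityTheory Module Set Filter Topology
open scoped RealInnerProductSpace ENNReal Pointwise Matrix

noncomputable section

namespace Pool.Agent.P.MP_181257_gt

variable {V : Type} [NormedAddCommGroup V] [InnerProductSpace ℝ V] [FiniteDimensional ℝ V]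
  [MeasurableSpace V] [BorelSpace V]

theorem integrable_det {d : ℕ} {Ω : Type} [MeasurableSpace Ω] (μ : Measure Ω) [IsFiniteMeasure μ]
    {Y : Ω → Fin d → ℝ} (hY : Measurable Y) (hi : Integrable Y μ) :
    Integrable (fun ω : Fin d → Ω => |(Matrix.of fun l j => Y (ω j) l).det|)
      (Measure.pi fun _ => μ) := by
  refine Integrable.abs ?_
  simp only [Matrix.det_apply', Matrix.of_apply]
  refine integrable_finsetSum _ fun σ _ => Integrable.const_mul ?_ _
  exact Integrable.fintype_prod (f := fun j ω => Y ω (σ j)) fun j => hi.eval (σ j)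

theorem zonvol_det {d : ℕ} {A : Matrix (Fin (d + 1)) (Fin (d + 1)) ℝ} {z : Fin (d + 1) → ℝ}
    (hz : A *ᵥ z = Pi.single 0 1) (y : Fin d → Fin (d + 1) → ℝ) :
    (Matrix.of fun l j => Fin.tail (A *ᵥ y j) l).det =
      A.det * (Matrix.of fun l j => (Fin.cons z y : Fin (d + 1) → Fin (d + 1) → ℝ) j l).det := by
  rw [← Matrix.det_mul, Matrix.det_succ_column_zero, Fin.sum_univ_succ]
  have h : ∀ i j, (A * Matrix.of fun l j => (Fin.cons z y : Fin (d + 1) → Fin (d + 1) → ℝ) j l) i j
      = (A *ᵥ (Fin.cons z y : Fin (d + 1) → Fin (d + 1) → ℝ) j) i := fun i j => rfl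
  have h0 : ∀ i, (A * Matrix.of fun l j => (Fin.cons z y : Fin (d + 1) → Fin (d + 1) → ℝ) j l) i 0
      = (Pi.single 0 1 : Fin (d + 1) → ℝ) i := fun i => by rw [h, Fin.cons_zero, hz]
  simp only [h0, Pi.single_eq_same, Pi.single_eq_of_ne (Fin.succ_ne_zero _), mul_zero, zero_mul,
    Finset.sum_const_zero, add_zero, Fin.val_zero, pow_zero, one_mul]
  rfl

theorem zonvol_shad {Ω : Type} [MeasurableSpace Ω] (μ : Measure Ω) [IsFiniteMeasure μ] {d : ℕ}
    {Y : Ω → Fin (d + 1) → ℝ} (hY : Measurable Y) (hi : Integrable Y μ)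
    {Z : Set (Fin (d + 1) → ℝ)} (hZ : IsCompact Z) (hc : Convex ℝ Z)
    (hH : ∀ ℓ : (Fin (d + 1) → ℝ) →L[ℝ] ℝ, IsGreatest (ℓ '' Z) (∫ ω, |ℓ (Y ω)| ∂μ)) :
    ((d + 1 : ℕ) : ℝ) * volume.real Z = ∫ ω, 2 * shad Z (Y ω) ∂μ := by
  have hne : Z.Nonempty := by
    obtain ⟨x, hx, -⟩ := (hH 0).1
    exact ⟨x, hx⟩
  have hint : ∀ η : ℝ, Integrable (Function.uncurry fun (x : Fin (d + 1) → ℝ) (ω : Ω) =>
      |fderiv ℝ (bump η Z) x (Y ω)|) ((volume : Measure (Fin (d + 1) → ℝ)).prod μ) := by
    intro η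
    refine ((integrable_norm_fderiv_bump η hZ hne).mul_prod hi.norm).mono' ?_
      (Eventually.of_forall fun q => ?_)
    · have hm : Measurable fun q : (Fin (d + 1) → ℝ) × Ω => fderiv ℝ (bump η Z) q.1 (Y q.2) :=
        isBoundedBilinearMap_apply.continuous.measurable.comp
          (((measurable_fderiv ℝ (bump η Z)).comp measurable_fst).prodMk (hY.comp measurable_snd))
      exact hm.abs.aestronglyMeasurable
    · rw [Function.uncurry_def, Real.norm_eq_abs, abs_abs]
      exact (fderiv ℝ (bump η Z) q.1).le_opNorm (Y q.2)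
  have h1 := self_variation hZ hc hH
  have h2 : ∀ η : ℝ, (∫ x, ∫ ω, |(-fderiv ℝ (bump η Z) x) (Y ω)| ∂μ) / η =
      ∫ ω, (∫ x, |fderiv ℝ (bump η Z) x (Y ω)|) / η ∂μ := by
    intro η
    simp only [neg_apply, abs_neg]
    rw [integral_integral_swap (hint η), integral_div]
  simp only [h2] at h1
  obtain ⟨B, hB⟩ := shad_bound hZ hc hne
  refine tendsto_nhds_unique h1 (tendsto_integral_filter_of_dominated_convergence
    (fun ω => B * ‖Y ω‖) (Eventually.of_forall fun η => ?_) ?_ (hi.norm.const_mul B)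
    (Eventually.of_forall fun ω => shad_limit hZ hc hne (Y ω)))
  · exact ((hint η).integral_prod_right.div_const η).aestronglyMeasurable
  · filter_upwards [Ioc_mem_nhdsGT (zero_lt_one' ℝ)] with η hη
    refine Eventually.of_forall fun ω => ?_
    rw [Real.norm_of_nonneg (div_nonneg (integral_nonneg fun x => abs_nonneg _) hη.1.le)]
    exact hB η hη (Y ω)

theorem zon_vol {Ω : Type} [MeasurableSpace Ω] (μ : Measure Ω) [IsFiniteMeasure μ] :
    ∀ (d : ℕ) (Y : Ω → Fin d → ℝ), Measurable Y → Integrable Y μ →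
      ∀ Z : Set (Fin d → ℝ), IsCompact Z → Convex ℝ Z →
      (∀ ℓ : (Fin d → ℝ) →L[ℝ] ℝ, IsGreatest (ℓ '' Z) (∫ ω, |ℓ (Y ω)| ∂μ)) →
      volume.real Z * (d.factorial : ℝ)
        = 2 ^ d * ∫ ω : Fin d → Ω, |(Matrix.of fun l j => Y (ω j) l).det|
            ∂(Measure.pi fun _ => μ) := by
  intro d
  induction d with
  | zero =>
    intro Y _ _ Z _ _ hH
    obtain ⟨x, hx, -⟩ := (hH 0).1
    have hZ : Z = univ := eq_univ_of_forall fun y => Subsingleton.elim x y ▸ hx
    simp [hZ, Measure.real, volume_pi]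
  | succ d ih =>
    intro Y hY hi Z hZ hc hH
    have key : ∀ z : Fin (d + 1) → ℝ, shad Z z * (d.factorial : ℝ) = 2 ^ d * ∫ ω : Fin d → Ω,
        |(Matrix.of fun l j =>
          (Fin.cons z (fun j => Y (ω j)) : Fin (d + 1) → Fin (d + 1) → ℝ) j l).det|
          ∂(Measure.pi fun _ => μ) := by
      intro z
      by_cases hz : z = 0
      · subst hz
        have h0 : ∀ ω : Fin d → Ω, (Matrix.of fun l j =>
            (Fin.cons 0 (fun j => Y (ω j)) : Fin (d + 1) → Fin (d + 1) → ℝ) j l).det = 0 :=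
          fun ω => Matrix.det_eq_zero_of_column_eq_zero 0 fun i => rfl
        simp only [h0, shad_zero, abs_zero, integral_zero, zero_mul, mul_zero]
      obtain ⟨A, hA, hAz⟩ := exists_matrix hz
      let T : (Fin (d + 1) → ℝ) →L[ℝ] (Fin d → ℝ) :=
        LinearMap.toContinuousLinearMap ((LinearMap.funLeft ℝ ℝ Fin.succ).comp A.mulVecLin)
      have hT : ∀ x, T x = Fin.tail (A *ᵥ x) := fun x => rfl
      have h1 := ih (fun ω => T (Y ω)) (T.continuous.measurable.comp hY) (T.integrable_comp hi)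
        (T '' Z) (hZ.image T.continuous) (hc.linear_image T.toLinearMap)
        (fun ℓ => by rw [image_image]; exact hH (ℓ.comp T))
      simp only [hT, zonvol_det hAz, abs_mul] at h1
      rw [integral_const_mul] at h1
      have hA' : |A.det| ≠ 0 := abs_ne_zero.2 hA
      rw [shad_eq hc hZ.isBounded (Or.inr hZ) hA zero_le_one hAz, one_mul, div_mul_eq_mul_div, h1]
      field_simp
    have hm := mp_cons (k := d) μ
    have hI := integrable_det μ hY hi
    have e1 : ∫ ω : Fin (d + 1) → Ω, |(Matrix.of fun l j => Y (ω j) l).det|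
        ∂(Measure.pi fun _ => μ) = ∫ a, ∫ ω : Fin d → Ω, |(Matrix.of fun l j =>
          (Fin.cons (Y a) (fun j => Y (ω j)) : Fin (d + 1) → Fin (d + 1) → ℝ) j l).det|
          ∂(Measure.pi fun _ => μ) ∂μ := by
      rw [← hm.map_eq, integral_map hm.measurable.aemeasurable
        (by rw [hm.map_eq]; exact hI.aestronglyMeasurable)]
      refine (integral_prod _ (hm.integrable_comp_of_integrable hI)).trans
        (integral_congr_ae (Eventually.of_forall fun a =>
          integral_congr_ae (Eventually.of_forall fun ω => ?_)))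
      have e : (fun l j => Y ((Fin.cons a ω : Fin (d + 1) → Ω) j) l) = fun l j =>
          (Fin.cons (Y a) (fun j => Y (ω j)) : Fin (d + 1) → Fin (d + 1) → ℝ) j l := by
        funext l j
        refine Fin.cases ?_ (fun j => ?_) j <;> rfl
      simp only [Function.comp_apply, e]
    rw [e1, Nat.factorial_succ, Nat.cast_mul, ← mul_assoc, mul_comm (volume.real Z),
      zonvol_shad μ hY hi hZ hc hH, ← integral_mul_const, ← integral_const_mul]
    refine integral_congr_ae (Eventually.of_forall fun a => ?_)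
    simp only
    rw [mul_assoc, key]
    ring

end Pool.Agent.P.MP_181257_gt
end
end

-- part Pool.Agent.P.MP_181257_gt.BP
section

/-! Blaschke-Petkantschin formula in Gaussian form. -/

set_option autoImplicit false
set_option linter.unusedSectionVars false

open MeasureTheory ProbabilityTheory Module Set Filter Topology
open scoped RealInnerProductSpace ENNReal Pointwise Matrix

noncomputable section

namespace Pool.Agent.P.MP_181257_gt

variable {V : Type} [NormedAddCommGroup V] [InnerProductSpace ℝ V] [FiniteDimensional ℝ V]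
  [MeasurableSpace V] [BorelSpace V]

theorem bp_avg {G : V × V → ℝ≥0∞} (hG : Measurable G) :
    ∫⁻ a, ∫⁻ b, G (a, b) ∂(stdGaussian V) ∂(stdGaussian V)
      = ∫⁻ a, ∫⁻ b, ∫⁻ g, G (ap g a, ap g b) ∂(haar V) ∂(stdGaussian V) ∂(stdGaussian V) := by
  have hm : Measurable fun q : OG V × V × V => G (ap q.1 q.2.1, ap q.1 q.2.2) :=
    hG.comp (by fun_prop)
  have h1 : ∀ g : OG V, ∫⁻ q, G (ap g q.1, ap g q.2) ∂((stdGaussian V).prod (stdGaussian V))
      = ∫⁻ q, G q ∂((stdGaussian V).prod (stdGaussian V)) := fun g =>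
    ((mp_ap g).prod (mp_ap g)).lintegral_comp hG
  rw [← lintegral_prod _ hG.aemeasurable,
    ← lintegral_prod (fun q : V × V => ∫⁻ g, G (ap g q.1, ap g q.2) ∂(haar V))
      hm.lintegral_prod_left'.aemeasurable,
    ← lintegral_lintegral_swap (f := fun (g : OG V) (q : V × V) => G (ap g q.1, ap g q.2))
      hm.aemeasurable]
  simp_rw [h1]
  simp

theorem bp_rad (hn : 1 ≤ finrank ℝ V) {ψ : ℝ → ℝ≥0∞} (hψ : Measurable ψ) :
    ∫⁻ x, ψ ‖x‖ ∂(stdGaussian V) = (rad (finrank ℝ V) fun _ => 1)⁻¹ * rad (finrank ℝ V) ψ := by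
  rw [← lintegral_norm_rad hn hψ, mul_left_comm,
    ENNReal.inv_mul_cancel (rad_one_ne_zero _) (rad_one_ne_top _), mul_one]

theorem bp_rad_pr {m : ℕ} (hn : finrank ℝ V = m + 2) {a : V} (ha : a ≠ 0) {ψ : ℝ → ℝ≥0∞}
    (hψ : Measurable ψ) :
    ∫⁻ b, ψ ‖pr a b‖ ∂(stdGaussian V) = (rad (m + 1) fun _ => 1)⁻¹ * rad (m + 1) ψ := by
  have h1 : finrank ℝ (ℝ ∙ a)ᗮ = m + 1 := by have := finrank_orth ha; omega
  rw [← h1, ← bp_rad (by omega) hψ]
  exact (mp_prS a).lintegral_comp (hψ.comp measurable_norm)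

theorem bp_ae_pr {m : ℕ} (hn : finrank ℝ V = m + 2) {a : V} (ha : a ≠ 0) :
    ∀ᵐ b ∂(stdGaussian V), pr a b ≠ 0 := by
  have h1 : finrank ℝ (ℝ ∙ a)ᗮ = m + 1 := by have := finrank_orth ha; omega
  filter_upwards [(mp_prS a).quasiMeasurePreserving.ae (ae_ne_zero (by omega))] with b hb h
  exact hb (Subtype.ext h)

theorem bp_rad_mul (d s : ℕ) (ψ : ℝ → ℝ≥0∞) :
    rad (d + 1) (fun r => ENNReal.ofReal (r ^ s) * ψ r) = rad (d + 1 + s) ψ := by
  refine setLIntegral_congr_fun measurableSet_Ioi fun r hr => ?_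
  have hr1 : 0 < r := hr
  simp only [show d + 1 + s - 1 = s + d by omega, Nat.add_sub_cancel]
  rw [pow_add, mul_assoc (r ^ s), ENNReal.ofReal_mul (p := r ^ s) (by positivity)]
  ring

@[fun_prop] theorem bp_measurable_cons {X : Type*} [MeasurableSpace X] {k : ℕ} {a : X → V}
    {x : X → Fin k → V} (ha : Measurable a) (hx : Measurable x) :
    Measurable fun p => (Fin.cons (a p) (x p) : Fin (k + 1) → V) :=
  (mp_cons (stdGaussian V)).measurable.comp (ha.prodMk hx)

theorem bp_one (n s : ℕ) (hn : 2 ≤ n) : ∃ C : ℝ≥0∞, C ≠ 0 ∧ C ≠ ∞ ∧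
    ∀ (V : Type) [NormedAddCommGroup V] [InnerProductSpace ℝ V] [FiniteDimensional ℝ V]
      [MeasurableSpace V] [BorelSpace V], finrank ℝ V = n →
      ∀ H : V × V → ℝ≥0∞, Measurable H →
      (∀ x y (t : ℝ), 0 < t → H (x, t • y) = ENNReal.ofReal (t ^ s) * H (x, y)) →
      ∫⁻ a, ∫⁻ b, H (a, pr a b) ∂(stdGaussian V) ∂(stdGaussian V)
        = C * ∫⁻ b, ∫⁻ a, ENNReal.ofReal ‖pr b a‖ * H (pr b a, b)
            ∂(stdGaussian V) ∂(stdGaussian V) := by
  obtain ⟨m, rfl⟩ : ∃ m, n = m + 2 := ⟨n - 2, by omega⟩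
  refine ⟨rad (m + 1 + s) (fun _ => 1) * (rad (m + 2 + s) fun _ => 1)⁻¹,
    mul_ne_zero (rad_one_ne_zero _) (ENNReal.inv_ne_zero.2 (rad_one_ne_top _)),
    ENNReal.mul_ne_top (rad_one_ne_top _) (ENNReal.inv_ne_top.2 (rad_one_ne_zero _)), ?_⟩
  intro V _ _ _ _ _ hV H hH hom
  let i0 : Fin (finrank ℝ V) := ⟨0, by omega⟩
  let i1 : Fin (finrank ℝ V) := ⟨1, by omega⟩
  set e1 := stdOrthonormalBasis ℝ V i0
  set e2 := stdOrthonormalBasis ℝ V i1
  have he1 : ‖e1‖ = 1 := (stdOrthonormalBasis ℝ V).orthonormal.1 i0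
  have he2 : ‖e2‖ = 1 := (stdOrthonormalBasis ℝ V).orthonormal.1 i1
  have he : ⟪e1, e2⟫ = 0 := (stdOrthonormalBasis ℝ V).orthonormal.2 (by simp [i0, i1])
  let J : ℝ → ℝ≥0∞ := fun r => ∫⁻ g, H (r • ap g e1, ap g e2) ∂(haar V)
  have hJ : Measurable J :=
    Measurable.lintegral_prod_right' (f := fun q : ℝ × OG V => H (q.1 • ap q.2 e1, ap q.2 e2))
      (hH.comp (by fun_prop))
  have hbar : ∀ x y : V, ⟪x, y⟫ = 0 → y ≠ 0 →
      ∫⁻ g, H (ap g x, ap g y) ∂(haar V) = ENNReal.ofReal (‖y‖ ^ s) * J ‖x‖ := by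
    intro x y hxy hy
    obtain ⟨h, h1, h2⟩ := exists_ap_pair (x' := x) (y' := y) (x := ‖x‖ • e1) (y := ‖y‖ • e2)
      (by simp [norm_smul, he1]) (by simp [norm_smul, he2])
      (by simp [real_inner_smul_left, real_inner_smul_right, he]) hxy
    rw [← lintegral_const_mul' _ _ ENNReal.ofReal_ne_top,
      ← lintegral_mul_right_eq_self (fun g : OG V => H (ap g x, ap g y)) h⁻¹]
    refine lintegral_congr fun g => ?_
    rw [← hom _ _ _ (norm_pos_iff.2 hy), ← ap_smul, ← ap_smul]
    conv_lhs => rw [← h1, ← h2, ← ap_mul, ← ap_mul, inv_mul_cancel_right]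
  have hps : Measurable fun r : ℝ => ENNReal.ofReal (r ^ s) := by fun_prop
  have hL : ∫⁻ a, ∫⁻ b, H (a, pr a b) ∂(stdGaussian V) ∂(stdGaussian V) =
      (rad (m + 1) fun _ => 1)⁻¹ * rad (m + 1 + s) (fun _ => 1) *
        ((rad (m + 2) fun _ => 1)⁻¹ * rad (m + 2) J) := by
    rw [bp_avg (G := fun q => H (q.1, pr q.1 q.2)) (hH.comp (by fun_prop)), ← hV,
      ← bp_rad (by omega) hJ, ← lintegral_const_mul (f := fun x : V => J ‖x‖) _ (hJ.comp measurable_norm)]
    refine lintegral_congr_ae ?_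
    filter_upwards [ae_ne_zero (V := V) (by omega)] with a ha
    have h1 := bp_rad_pr hV ha hps
    rw [← bp_rad_mul]
    simp only [mul_one]
    rw [← h1, ← lintegral_mul_const _ (by fun_prop)]
    refine lintegral_congr_ae ?_
    filter_upwards [bp_ae_pr hV ha] with b hb
    simp only [← ap_pr]
    exact hbar a _ (inner_pr_self a b) hb
  have hR : ∫⁻ b, ∫⁻ a, ENNReal.ofReal ‖pr b a‖ * H (pr b a, b) ∂(stdGaussian V) ∂(stdGaussian V)
      = (rad (m + 2) fun _ => 1)⁻¹ * rad (m + 2 + s) (fun _ => 1) *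
        ((rad (m + 1) fun _ => 1)⁻¹ * rad (m + 2) J) := by
    have h1 := bp_rad (V := V) (by omega) hps
    have h2 := bp_rad_mul (m + 1) s fun _ => 1
    have h3 := bp_rad_mul m 1 J
    simp only [mul_one] at h2
    simp only [pow_one] at h3
    rw [hV, h2] at h1
    rw [bp_avg (G := fun q => ENNReal.ofReal ‖pr q.1 q.2‖ * H (pr q.1 q.2, q.1))
      (Measurable.mul (by fun_prop) (hH.comp (by fun_prop))), ← h1,
      ← lintegral_mul_const _ (by fun_prop)]
    refine lintegral_congr_ae ?_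
    filter_upwards [ae_ne_zero (V := V) (by omega)] with b hb
    have hm : Measurable fun r : ℝ => ENNReal.ofReal r * J r := Measurable.mul (by fun_prop) hJ
    rw [← h3, ← bp_rad_pr hV hb hm, ← lintegral_const_mul' _ _ ENNReal.ofReal_ne_top]
    refine lintegral_congr fun a => ?_
    simp only [← ap_pr, norm_ap]
    rw [lintegral_const_mul' _ _ ENNReal.ofReal_ne_top,
      hbar _ b (by rw [real_inner_comm]; exact inner_pr_self b a) hb, mul_left_comm]
  rw [hL, hR]
  calc _ = rad (m + 1 + s) (fun _ => 1) * ((rad (m + 2 + s) fun _ => 1)⁻¹ *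
        rad (m + 2 + s) fun _ => 1) * ((rad (m + 2) fun _ => 1)⁻¹ *
          ((rad (m + 1) fun _ => 1)⁻¹ * rad (m + 2) J)) := by
        rw [ENNReal.inv_mul_cancel (rad_one_ne_zero _) (rad_one_ne_top _)]
        ring
    _ = _ := by ring

/-- the induction step for a fixed first vector -/
theorem bp_step {k : ℕ} {C : ℝ≥0∞} (hC : C ≠ ∞) {s : ℕ} {a : V} (ha : a ≠ 0)
    (ih : ∀ F : (Fin k → (ℝ ∙ a)ᗮ) × (ℝ ∙ a)ᗮ → ℝ≥0∞, Measurable F →
      (∀ x y (t : ℝ), 0 < t → F (x, t • y) = ENNReal.ofReal (t ^ s) * F (x, y)) →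
      ∫⁻ x, ∫⁻ b, F (x, Pj k x b) ∂(stdGaussian (ℝ ∙ a)ᗮ) ∂(γk (ℝ ∙ a)ᗮ k)
        = C * ∫⁻ b, ∫⁻ x, ENNReal.ofReal (D fun j => pr b (x j)) * F (fun j => pr b (x j), b)
            ∂(γk (ℝ ∙ a)ᗮ k) ∂(stdGaussian (ℝ ∙ a)ᗮ))
    {G : (Fin k → V) × V → ℝ≥0∞} (hG : Measurable G)
    (hom : ∀ x y (t : ℝ), 0 < t → G (x, t • y) = ENNReal.ofReal (t ^ s) * G (x, y)) :
    ∫⁻ x, ∫⁻ b, G (x, Pj k (fun j => pr a (x j)) (pr a b)) ∂(stdGaussian V) ∂(γk V k)
      = C * ∫⁻ b, ∫⁻ x, ENNReal.ofReal (D fun j => pr a (pr (pr a b) (x j))) *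
          G (fun j => pr (pr a b) (x j), pr a b) ∂(γk V k) ∂(stdGaussian V) := by
  have hna : ‖a‖ ≠ 0 := norm_ne_zero_iff.2 ha
  set e : V := ‖a‖⁻¹ • a with he
  have hsp := mp_pi_split (k := k) (mp_sub_split (a := a) (e := e)
    (by simp [he, norm_smul, hna]) (by simp [he, smul_smul, hna]) ha)
  set ν : Measure (Fin k → ℝ) := Measure.pi fun _ => gaussianReal 0 1
  have hsplit : ∀ Φ : (Fin k → V) → ℝ≥0∞, Measurable Φ → ∫⁻ x, Φ x ∂(γk V k) =
      ∫⁻ t, ∫⁻ z, Φ (fun j => (z j : V) + t j • e) ∂(γk (ℝ ∙ a)ᗮ k) ∂ν := fun Φ hΦ =>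
    (hsp.lintegral_comp hΦ).symm.trans
      (lintegral_prod_symm _ (hΦ.comp hsp.measurable).aemeasurable)
  have hz : ∀ z : (ℝ ∙ a)ᗮ, ⟪a, (z : V)⟫ = 0 := fun z =>
    Submodule.mem_orthogonal_singleton_iff_inner_right.1 z.2
  have h1 : ∀ (z : (ℝ ∙ a)ᗮ) (t : ℝ), pr a ((z : V) + t • e) = z := fun z t => by
    rw [pr_add, pr_of_inner_eq_zero (hz z), he, pr_smul, pr_smul, pr_self, smul_zero, smul_zero,
      add_zero]
  have h2 : ∀ (w z : (ℝ ∙ a)ᗮ) (t : ℝ),
      pr (w : V) ((z : V) + t • e) = ((pr w z : (ℝ ∙ a)ᗮ) : V) + t • e := fun w z t => by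
    rw [pr_add, pr_of_inner_eq_zero (a := (w : V)) (v := t • e)
      (by rw [he, real_inner_smul_right, real_inner_smul_right, real_inner_comm, hz]; simp)]
    exact congrArg (· + t • e) (map_pr (ℝ ∙ a)ᗮ.subtypeₗᵢ w z).symm
  have hc : Measurable ((↑) : (ℝ ∙ a)ᗮ → V) := measurable_subtype_coe
  let K : (Fin k → ℝ) × (ℝ ∙ a)ᗮ × (Fin k → (ℝ ∙ a)ᗮ) → ℝ≥0∞ := fun q =>
    ENNReal.ofReal (D fun j => pr q.2.1 (q.2.2 j)) *
      G (fun j => ((pr q.2.1 (q.2.2 j) : (ℝ ∙ a)ᗮ) : V) + q.1 j • e, q.2.1)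
  have hK : Measurable K := Measurable.mul (by fun_prop) (hG.comp (by fun_prop))
  have hΦ : Measurable fun x : Fin k → V =>
      ∫⁻ b, G (x, Pj k (fun j => pr a (x j)) (pr a b)) ∂(stdGaussian V) :=
    Measurable.lintegral_prod_right'
      (f := fun q : (Fin k → V) × V => G (q.1, Pj k (fun j => pr a (q.1 j)) (pr a q.2)))
      (hG.comp (measurable_fst.prodMk (measurable_Pj k (by fun_prop) (by fun_prop))))
  have hΨ : Measurable fun q : V × (Fin k → V) =>
      ENNReal.ofReal (D fun j => pr a (pr q.1 (q.2 j))) * G (fun j => pr q.1 (q.2 j), q.1) :=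
    Measurable.mul (by fun_prop) (hG.comp (by fun_prop))
  calc _ = ∫⁻ t, ∫⁻ z, ∫⁻ w, G (fun j => (z j : V) + t j • e, ((Pj k z w : (ℝ ∙ a)ᗮ) : V))
          ∂(stdGaussian (ℝ ∙ a)ᗮ) ∂(γk (ℝ ∙ a)ᗮ k) ∂ν := by
        rw [hsplit _ hΦ]
        refine lintegral_congr fun t => lintegral_congr fun z => ?_
        refine Eq.trans (lintegral_congr fun b => ?_) ((mp_prS a).lintegral_comp
          (hG.comp (measurable_const.prodMk (hc.comp (Pj k z).continuous.measurable))))
        simp only [h1]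
        exact congrArg (fun v => G (_, v)) (map_Pj (ℝ ∙ a)ᗮ.subtypeₗᵢ z (prS a b)).symm
    _ = C * ∫⁻ t, ∫⁻ w, ∫⁻ z, K (t, w, z) ∂(γk (ℝ ∙ a)ᗮ k) ∂(stdGaussian (ℝ ∙ a)ᗮ) ∂ν := by
        rw [← lintegral_const_mul' _ _ hC]
        refine lintegral_congr fun t => ?_
        exact ih (fun q => G (fun j => (q.1 j : V) + t j • e, (q.2 : V))) (hG.comp (by fun_prop))
          fun x y r hr => hom _ _ r hr
    _ = C * ∫⁻ w, ∫⁻ t, ∫⁻ z, K (t, w, z) ∂(γk (ℝ ∙ a)ᗮ k) ∂ν ∂(stdGaussian (ℝ ∙ a)ᗮ) := by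
        rw [lintegral_lintegral_swap]
        exact (Measurable.lintegral_prod_right'
          (f := fun q : ((Fin k → ℝ) × (ℝ ∙ a)ᗮ) × (Fin k → (ℝ ∙ a)ᗮ) => K (q.1.1, q.1.2, q.2))
          (hK.comp (by fun_prop))).aemeasurable
    _ = _ := by
        congr 1
        refine Eq.trans (lintegral_congr fun w => ?_)
          ((mp_prS a).lintegral_comp (hΨ.lintegral_prod_right'.comp hc)).symm
        refine Eq.trans (lintegral_congr fun t => lintegral_congr fun z => ?_)
          (hsplit _ (hΨ.comp (measurable_prodMk_left (x := (w : V))))).symm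
        simp only [K, Function.comp, h2, h1]
        exact congrArg (fun r => ENNReal.ofReal r * _)
          (D_map (ℝ ∙ a)ᗮ.subtypeₗᵢ fun j => pr w (z j)).symm

theorem bp (s : ℕ) : ∀ (k n : ℕ), k + 1 ≤ n → ∃ C : ℝ≥0∞, C ≠ 0 ∧ C ≠ ∞ ∧
    ∀ (V : Type) [NormedAddCommGroup V] [InnerProductSpace ℝ V] [FiniteDimensional ℝ V]
      [MeasurableSpace V] [BorelSpace V], finrank ℝ V = n →
      ∀ F : (Fin k → V) × V → ℝ≥0∞, Measurable F →
      (∀ x y (t : ℝ), 0 < t → F (x, t • y) = ENNReal.ofReal (t ^ s) * F (x, y)) →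
      ∫⁻ x, ∫⁻ b, F (x, Pj k x b) ∂(stdGaussian V) ∂(γk V k)
        = C * ∫⁻ b, ∫⁻ x, ENNReal.ofReal (D fun j => pr b (x j)) * F (fun j => pr b (x j), b)
            ∂(γk V k) ∂(stdGaussian V) := by
  intro k
  induction k with
  | zero =>
    refine fun n _ => ⟨1, one_ne_zero, ENNReal.one_ne_top, ?_⟩
    intro V _ _ _ _ _ _ F hF _
    rw [one_mul, lintegral_lintegral_swap (f := fun x b => F (x, Pj 0 x b)) hF.aemeasurable]
    refine lintegral_congr fun b => lintegral_congr fun x => ?_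
    rw [D_fin_zero, ENNReal.ofReal_one, one_mul, Subsingleton.elim (fun j => pr b (x j)) x]
    rfl
  | succ k ih =>
    intro n hn
    obtain ⟨C, hC0, hC, h1⟩ := ih (n - 1) (by omega)
    obtain ⟨E, hE0, hE, h2⟩ := bp_one n s (by omega)
    refine ⟨C * E, mul_ne_zero hC0 hE0, ENNReal.mul_ne_top hC hE, ?_⟩
    intro V _ _ _ _ _ hV F hF hom
    have hcons : ∀ Φ : (Fin (k + 1) → V) → ℝ≥0∞, Measurable Φ → ∫⁻ x, Φ x ∂(γk V (k + 1)) =
        ∫⁻ a, ∫⁻ x, Φ (Fin.cons a x) ∂(γk V k) ∂(stdGaussian V) := fun Φ hΦ =>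
      ((mp_cons (stdGaussian V)).lintegral_comp hΦ).symm.trans
        (lintegral_prod _ (hΦ.comp (mp_cons (stdGaussian V)).measurable).aemeasurable)
    have hΨ : Measurable fun q : (V × V) × (Fin k → V) =>
        ENNReal.ofReal (D fun j => pr q.1.1 (pr q.1.2 (q.2 j))) *
          F (Fin.cons q.1.1 fun j => pr q.1.2 (q.2 j), q.1.2) :=
      Measurable.mul (by fun_prop) (hF.comp (by fun_prop))
    have hΦ : Measurable fun x : Fin (k + 1) → V => ∫⁻ b, F (x, Pj (k + 1) x b) ∂(stdGaussian V) :=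
      Measurable.lintegral_prod_right'
        (f := fun q : (Fin (k + 1) → V) × V => F (q.1, Pj (k + 1) q.1 q.2))
        (hF.comp (measurable_fst.prodMk (measurable_Pj _ measurable_fst measurable_snd)))
    have h3 := h2 V hV _ (hΨ.lintegral_prod_right' (ν := γk V k)) fun x y t ht => by
      rw [← lintegral_const_mul' _ _ ENNReal.ofReal_ne_top]
      refine lintegral_congr fun z => ?_
      simp only [pr_smul_left ht.ne']
      rw [hom _ _ t ht, mul_left_comm]
    calc _ = C * ∫⁻ a, ∫⁻ b, ∫⁻ x, ENNReal.ofReal (D fun j => pr a (pr (pr a b) (x j))) *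
            F (Fin.cons a fun j => pr (pr a b) (x j), pr a b)
            ∂(γk V k) ∂(stdGaussian V) ∂(stdGaussian V) := by
          rw [hcons _ hΦ, ← lintegral_const_mul' _ _ hC]
          refine lintegral_congr_ae ?_
          filter_upwards [ae_ne_zero (V := V) (by omega)] with a ha
          simp only [Pj_succ, Fin.cons_zero, Fin.cons_succ]
          exact bp_step hC ha (h1 _ (by have := finrank_orth ha; omega))
            (G := fun q => F (Fin.cons a q.1, q.2)) (hF.comp (by fun_prop))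
            fun x y t ht => hom _ _ t ht
      _ = _ := by
          rw [mul_assoc, h3]
          congr 2
          refine lintegral_congr fun b => ?_
          have hb : Measurable fun x : Fin (k + 1) → V =>
              ENNReal.ofReal (D fun j => pr b (x j)) * F (fun j => pr b (x j), b) :=
            Measurable.mul (by fun_prop) (hF.comp (by fun_prop))
          rw [hcons _ hb]
          refine lintegral_congr fun a => ?_
          rw [← lintegral_const_mul' _ _ ENNReal.ofReal_ne_top]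
          refine lintegral_congr fun x => ?_
          have h4 : (fun j => pr b ((Fin.cons a x : Fin (k + 1) → V) j)) =
              (Fin.cons (pr b a) fun j => pr b (x j) : Fin (k + 1) → V) :=
            funext fun j => Fin.cases rfl (fun _ => rfl) j
          simp only [h4]
          rw [D_cons, ENNReal.ofReal_mul (norm_nonneg _), mul_assoc]

end Pool.Agent.P.MP_181257_gt
end
end

-- part Pool.Agent.P.MP_181257_gt.Sym
section

/-! Maclaurin and AM-GM bounds for elementary symmetric sums. -/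

set_option autoImplicit false
set_option linter.unusedSectionVars false

open MeasureTheory ProbabilityTheory Module Set Filter Topology
open scoped RealInnerProductSpace ENNReal Pointwise Matrix

noncomputable section

namespace Pool.Agent.P.MP_181257_gt

variable {V : Type} [NormedAddCommGroup V] [InnerProductSpace ℝ V] [FiniteDimensional ℝ V]
  [MeasurableSpace V] [BorelSpace V]

/-- `k!` times the `k`-th elementary symmetric function -/
def inj {m : ℕ} (k : ℕ) (r : Fin m → ℝ) : ℝ := by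
  classical
  exact ∑ l ∈ Finset.univ.filter (fun l : Fin k → Fin m => Function.Injective l), ∏ j, r (l j)

theorem card_fiber {m k : ℕ} (S : Finset (Fin m)) (hS : S.card = k) :
    ((Finset.univ.filter (fun l : Fin k → Fin m => Function.Injective l)).filter
      (fun l => Finset.univ.image l = S)).card = k.factorial := by
  classical
  have h1 : (Finset.univ : Finset (Fin k ↪ S)).card = k.factorial := by
    rw [Finset.card_univ, Fintype.card_embedding_eq]
    simp [hS, Nat.descFactorial_self]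
  rw [← h1]
  symm
  refine Finset.card_bij (fun e _ => fun j => (e j : Fin m)) ?_ ?_ ?_
  · intro e _
    have hi : Function.Injective (fun j => (e j : Fin m)) :=
      Subtype.val_injective.comp e.injective
    simp only [Finset.mem_filter, Finset.mem_univ, true_and]
    refine ⟨hi, Finset.eq_of_subset_of_card_le ?_ ?_⟩
    · intro a ha
      obtain ⟨j, -, rfl⟩ := Finset.mem_image.1 ha
      exact (e j).2
    · rw [Finset.card_image_of_injective _ hi]; simp [hS]
  · intro e₁ _ e₂ _ h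
    ext j
    exact congrArg Fin.val (congrFun h j)
  · intro l hl
    simp only [Finset.mem_filter, Finset.mem_univ, true_and] at hl
    refine ⟨⟨fun j => ⟨l j, ?_⟩, fun a b h => hl.1 (congrArg Subtype.val h)⟩, Finset.mem_univ _, rfl⟩
    rw [← hl.2]; exact Finset.mem_image_of_mem _ (Finset.mem_univ _)

theorem inj_eq {m : ℕ} (k : ℕ) (r : Fin m → ℝ) :
    inj k r = (k.factorial : ℝ) * ∑ S ∈ Finset.powersetCard k Finset.univ, ∏ a ∈ S, r a := by
  classical
  unfold inj
  rw [Finset.mul_sum, ← Finset.sum_fiberwise_of_maps_to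
    (t := Finset.powersetCard k (Finset.univ : Finset (Fin m))) (g := fun l => Finset.univ.image l)]
  · refine Finset.sum_congr rfl fun S hS => ?_
    have hc : S.card = k := (Finset.mem_powersetCard.1 hS).2
    rw [Finset.sum_congr rfl (g := fun _ => ∏ a ∈ S, r a), Finset.sum_const, nsmul_eq_mul]
    · congr 2
      convert card_fiber S hc
    · intro l hl
      simp only [Finset.mem_filter, Finset.mem_univ, true_and] at hl
      rw [← hl.2, Finset.prod_image fun a _ b _ h => hl.1 h]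
  · intro l hl
    simp only [Finset.mem_filter, Finset.mem_univ, true_and] at hl
    refine Finset.mem_powersetCard.2 ⟨Finset.subset_univ _, ?_⟩
    rw [Finset.card_image_of_injective _ hl]; simp

theorem tangent (k : ℕ) {A y : ℝ} (hA : 0 ≤ A) (hy : 0 ≤ y) :
    A ^ (k + 1) + (k + 1 : ℝ) * A ^ k * (y - A) ≤ y ^ (k + 1) := by
  induction k with
  | zero => simp
  | succ k ih =>
    have h1 : y * (A ^ (k + 1) + (k + 1 : ℝ) * A ^ k * (y - A)) ≤ y * y ^ (k + 1) :=
      mul_le_mul_of_nonneg_left ih hy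
    have h2 : 0 ≤ (k + 1 : ℝ) * A ^ k * (y - A) ^ 2 := by positivity
    have h3 : y * (A ^ (k + 1) + (k + 1 : ℝ) * A ^ k * (y - A)) =
        A ^ (k + 1 + 1) + ((k + 1 : ℕ) + 1 : ℝ) * A ^ (k + 1) * (y - A)
          + (k + 1 : ℝ) * A ^ k * (y - A) ^ 2 := by
      push_cast; ring
    calc _ ≤ y * (A ^ (k + 1) + (k + 1 : ℝ) * A ^ k * (y - A)) := by rw [h3]; linarith
      _ ≤ _ := by rw [pow_succ' y (k + 1)]; exact h1

theorem maclaurin {α : Type} [DecidableEq α] {r : α → ℝ} (hr : ∀ l, 0 ≤ r l) (T : Finset α) :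
    ∀ k : ℕ, ∑ S ∈ Finset.powersetCard k T, ∏ a ∈ S, r a ≤
      (T.card.choose k : ℝ) * ((∑ a ∈ T, r a) / T.card) ^ k := by
  induction T using Finset.induction_on with
  | empty =>
    intro k
    cases k with
    | zero => simp
    | succ k =>
      rw [Finset.powersetCard_eq_empty.2 (by simp)]
      simp
  | insert x T hx ih =>
    intro k
    cases k with
    | zero => simp
    | succ k =>
      have hd : Disjoint (Finset.powersetCard (k + 1) T)
          ((Finset.powersetCard k T).image (insert x)) := by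
        refine Finset.disjoint_left.2 fun S h1 h2 => ?_
        obtain ⟨U, -, rfl⟩ := Finset.mem_image.1 h2
        exact hx ((Finset.mem_powersetCard.1 h1).1 (Finset.mem_insert_self _ _))
      have hn : ∀ U ∈ Finset.powersetCard k T, x ∉ U := fun U hU h =>
        hx ((Finset.mem_powersetCard.1 hU).1 h)
      have e := Finset.powersetCard_succ_insert hx k
      rw [Nat.succ_eq_add_one] at e
      rw [e, Finset.sum_union hd, Finset.sum_image, Finset.card_insert_of_notMem hx,
        Finset.sum_insert hx]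
      swap
      · intro U hU U' hU' h
        have := congrArg (fun W => Finset.erase W x) h
        simpa [Finset.erase_insert (hn U hU), Finset.erase_insert (hn U' hU')] using this
      rw [Finset.sum_congr rfl fun U hU => Finset.prod_insert (f := r) (hn U hU), ← Finset.mul_sum]
      set t := T.card with ht
      set s := ∑ a ∈ T, r a with hs
      set A := s / t with hA
      have hs0 : 0 ≤ s := Finset.sum_nonneg fun a _ => hr a
      have hA0 : 0 ≤ A := by positivity
      have hsA : s = t * A := by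
        rcases Nat.eq_zero_or_pos t with h | h
        · have : T = ∅ := Finset.card_eq_zero.1 h
          rw [hs, h, this, Finset.sum_empty, Nat.cast_zero, zero_mul]
        · have : (t : ℝ) ≠ 0 := by positivity
          rw [hA]; field_simp
      have hx0 := hr x
      have ht1 : (0 : ℝ) < t + 1 := Nat.cast_add_one_pos t
      have h1 := tangent k hA0 (y := (r x + s) / (t + 1)) (div_nonneg (add_nonneg hx0 hs0) ht1.le)
      have c1 : ((t : ℝ) + 1) * t.choose k = (t + 1).choose (k + 1) * (k + 1) := by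
        have := congrArg (Nat.cast (R := ℝ)) (Nat.add_one_mul_choose_eq t k)
        rw [Nat.cast_mul, Nat.cast_mul, Nat.cast_add, Nat.cast_add, Nat.cast_one] at this
        exact this
      have c2 : ((t + 1).choose (k + 1) : ℝ) = t.choose k + t.choose (k + 1) := by
        rw [Nat.choose_succ_succ' t k, Nat.cast_add]
      have hy : (r x + s) / (t + 1) - A = (r x - A) / (t + 1) := by
        clear_value A s
        rw [hsA]; field_simp; ring
      have c3 : ((t + 1).choose (k + 1) : ℝ) * ((k + 1) * A ^ k * ((r x - A) / (t + 1))) =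
          t.choose k * (A ^ k * (r x - A)) := by
        clear_value A s
        rw [← mul_assoc, ← mul_assoc, ← c1]; field_simp
      rw [hy] at h1
      have h2 := mul_le_mul_of_nonneg_left h1 (Nat.cast_nonneg (α := ℝ) ((t + 1).choose (k + 1)))
      rw [mul_add, c3] at h2
      have h3 := mul_le_mul_of_nonneg_left (ih k) hx0
      have h4 := ih (k + 1)
      push_cast
      refine le_trans (add_le_add h4 h3) (le_trans (le_of_eq ?_) h2)
      rw [c2]; ring

theorem inj_le {m k : ℕ} (hk : k ≤ m) {r : Fin m → ℝ} (hr : ∀ l, 0 ≤ r l) :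
    inj k r ≤ (m.descFactorial k : ℝ) * ((∑ l, r l) / m) ^ k := by
  have h := maclaurin hr Finset.univ k
  rw [Finset.card_univ, Fintype.card_fin] at h
  rw [inj_eq, Nat.descFactorial_eq_factorial_mul_choose]
  push_cast
  rw [mul_assoc]
  exact mul_le_mul_of_nonneg_left h (Nat.cast_nonneg _)

theorem card_inj (m k : ℕ) :
    (Finset.univ.filter (fun l : Fin k → Fin m => Function.Injective l)).card =
      m.descFactorial k := by
  have h := inj_eq k (fun _ : Fin m => (1 : ℝ))
  unfold inj at h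
  simp only [Finset.prod_const_one, Finset.sum_const, nsmul_eq_mul, mul_one,
    Finset.card_powersetCard, Finset.card_univ, Fintype.card_fin] at h
  rw [Nat.descFactorial_eq_factorial_mul_choose]
  have h' : (((Finset.univ.filter (fun l : Fin k → Fin m => Function.Injective l)).card : ℕ) : ℝ) =
      ((k.factorial * m.choose k : ℕ) : ℝ) := by
    push_cast
    convert h
  exact_mod_cast h'

theorem sum_inj {m k : ℕ} (φ : Fin m → ℝ) (j : Fin k) :
    (m : ℝ) * ∑ l ∈ Finset.univ.filter (fun l : Fin k → Fin m => Function.Injective l), φ (l j) =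
      (m.descFactorial k : ℝ) * ∑ a, φ a := by
  rcases Nat.eq_zero_or_pos m with rfl | hm
  · simp
  haveI : NeZero m := ⟨hm.ne'⟩
  have h1 : ∀ c : Fin m,
      ∑ l ∈ Finset.univ.filter (fun l : Fin k → Fin m => Function.Injective l), φ (l j) =
      ∑ l ∈ Finset.univ.filter (fun l : Fin k → Fin m => Function.Injective l), φ (l j + c) := by
    intro c
    symm
    refine Finset.sum_nbij' (fun l i => l i + c) (fun l i => l i - c) ?_ ?_ ?_ ?_ ?_
    · intro l hl
      simp only [Finset.mem_filter, Finset.mem_univ, true_and] at hl ⊢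
      exact fun a b h => hl (add_right_cancel h)
    · intro l hl
      simp only [Finset.mem_filter, Finset.mem_univ, true_and] at hl ⊢
      exact fun a b h => hl (sub_left_injective h)
    · intro l _; funext i; simp
    · intro l _; funext i; simp
    · intro l _; rfl
  calc _ = ∑ c : Fin m,
        ∑ l ∈ Finset.univ.filter (fun l : Fin k → Fin m => Function.Injective l), φ (l j) := by
        simp
    _ = ∑ l ∈ Finset.univ.filter (fun l : Fin k → Fin m => Function.Injective l),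
        ∑ c : Fin m, φ (l j + c) := by
        rw [Finset.sum_congr rfl fun c _ => h1 c, Finset.sum_comm]
    _ = ∑ l ∈ Finset.univ.filter (fun l : Fin k → Fin m => Function.Injective l), ∑ a, φ a :=
        Finset.sum_congr rfl fun l _ => Equiv.sum_comp (Equiv.addLeft (l j)) φ
    _ = _ := by rw [Finset.sum_const, card_inj, nsmul_eq_mul]

theorem le_inj {m k : ℕ} (hk : k ≤ m) {r : Fin m → ℝ} (hr : ∀ l, 0 < r l) :
    (m.descFactorial k : ℝ) * (∏ l, r l) ^ ((k : ℝ) / m) ≤ inj k r := by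
  rcases Nat.eq_zero_or_pos k with rfl | hk0
  · simp [inj_eq]
  have hm : (0 : ℝ) < m := by exact_mod_cast hk0.trans_le hk
  have hN : (0 : ℝ) < m.descFactorial k := by exact_mod_cast Nat.descFactorial_pos.2 hk
  set F := Finset.univ.filter (fun l : Fin k → Fin m => Function.Injective l) with hF
  set N : ℝ := (m.descFactorial k : ℝ) with hNd
  have hc : (F.card : ℝ) = N := by rw [hF, card_inj]
  have hp : ∀ l : Fin k → Fin m, 0 < ∏ j, r (l j) := fun l => Finset.prod_pos fun j _ => hr _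
  have h := Real.geom_mean_le_arith_mean_weighted F (fun _ => N⁻¹) (fun l => ∏ j, r (l j))
    (fun _ _ => by positivity) (by rw [Finset.sum_const, nsmul_eq_mul, hc]; field_simp)
    (fun l _ => (hp l).le)
  have e1 : ∏ l ∈ F, (∏ j, r (l j)) ^ N⁻¹ = (∏ l, r l) ^ ((k : ℝ) / m) := by
    have hP : 0 < ∏ l, r l := Finset.prod_pos fun l _ => hr l
    apply Real.log_injOn_pos (Finset.prod_pos fun l _ => Real.rpow_pos_of_pos (hp l) _)
      (Real.rpow_pos_of_pos hP _)
    rw [Real.log_prod fun l _ => (Real.rpow_pos_of_pos (hp l) _).ne', Real.log_rpow hP,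
      Real.log_prod fun l _ => (hr l).ne']
    rw [Finset.sum_congr rfl fun l _ => Real.log_rpow (hp l) _,
      Finset.sum_congr rfl fun l _ => congrArg (N⁻¹ * ·)
        (Real.log_prod (s := Finset.univ) (f := fun j => r (l j)) fun j _ => (hr (l j)).ne'),
      ← Finset.mul_sum, Finset.sum_comm]
    have e2 : ∀ j : Fin k, ∑ l ∈ F, Real.log (r (l j)) = N * (∑ a, Real.log (r a)) / m := by
      intro j
      rw [eq_div_iff hm.ne', mul_comm]
      exact sum_inj (fun a => Real.log (r a)) j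
    rw [Finset.sum_congr rfl fun j _ => e2 j]
    simp only [Finset.sum_const, Finset.card_univ, Fintype.card_fin, nsmul_eq_mul]
    field_simp
  rw [e1, ← Finset.mul_sum] at h
  have e3 : inj k r = ∑ l ∈ F, ∏ j, r (l j) := by
    unfold inj
    congr
  rw [e3]
  calc _ ≤ N * (N⁻¹ * ∑ l ∈ F, ∏ j, r (l j)) := mul_le_mul_of_nonneg_left h hN.le
    _ = _ := by field_simp

end Pool.Agent.P.MP_181257_gt
end
end

-- part Pool.Agent.P.MP_181257_gt.Inertia
section

/-! The inertia inequality: determinant of second moments against an Lp norm. -/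

set_option autoImplicit false
set_option linter.unusedSectionVars false

open MeasureTheory ProbabilityTheory Module Set Filter Topology
open scoped RealInnerProductSpace ENNReal Pointwise Matrix

noncomputable section

namespace Pool.Agent.P.MP_181257_gt

variable {V : Type} [NormedAddCommGroup V] [InnerProductSpace ℝ V] [FiniteDimensional ℝ V]
  [MeasurableSpace V] [BorelSpace V]

theorem inertia_ne (B : V →ₗ[ℝ] V) (hB : LinearMap.det B = 1) {x : V} (hx : x ≠ 0) :
    B x ≠ 0 := by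
  intro h
  have : LinearMap.ker B ≠ ⊥ := by
    intro hk
    exact hx (by simpa [hk] using (LinearMap.mem_ker.2 h : x ∈ LinearMap.ker B))
  rw [← LinearMap.det_eq_zero_iff_ker_ne_bot, hB] at this
  exact one_ne_zero this

theorem inertia_haar (B : V →ₗ[ℝ] V) (hB : LinearMap.det B = 1) {e : V} (he : ‖e‖ = 1) :
    ∫⁻ g, ENNReal.ofReal (‖B (ap g e)‖⁻¹ ^ finrank ℝ V) ∂(haar V) = 1 := by
  have hBc : Continuous B := B.continuous_of_finiteDimensional
  have hS : MeasurableSet (B ⁻¹' Metric.closedBall (0 : V) 1) :=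
    hBc.measurable Metric.isClosed_closedBall.measurableSet
  have h1 := polar (volume : Measure V) mp_ap_volume he
    (F := (B ⁻¹' Metric.closedBall (0 : V) 1).indicator 1) (measurable_one.indicator hS)
  rw [lintegral_indicator_one hS, Measure.addHaar_preimage_linearMap _ (by rw [hB]; simp), hB]
    at h1
  have h2 : ∀ g : OG V, ∫⁻ x : V, (B ⁻¹' Metric.closedBall (0 : V) 1).indicator
      (1 : V → ℝ≥0∞) (‖x‖ • ap g e)
      = ENNReal.ofReal (‖B (ap g e)‖⁻¹ ^ finrank ℝ V) * volume (Metric.closedBall (0 : V) 1) := by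
    intro g
    have hne : ap g e ≠ 0 := by
      intro h
      have := norm_ap g e
      rw [h, norm_zero, he] at this
      exact zero_ne_one this
    have hp : 0 < ‖B (ap g e)‖ := norm_pos_iff.2 (inertia_ne B hB hne)
    rw [← Measure.addHaar_closedBall' _ (0 : V) (inv_nonneg.2 hp.le),
      ← lintegral_indicator_one Metric.isClosed_closedBall.measurableSet]
    refine lintegral_congr fun x => ?_
    have : ‖x‖ • ap g e ∈ B ⁻¹' Metric.closedBall (0 : V) 1
        ↔ x ∈ Metric.closedBall (0 : V) ‖B (ap g e)‖⁻¹ := by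
      simp only [mem_preimage, mem_closedBall_zero_iff, map_smul, norm_smul, norm_norm]
      rw [← one_div, le_div_iff₀ hp]
    by_cases hx : x ∈ Metric.closedBall (0 : V) ‖B (ap g e)‖⁻¹
    · rw [indicator_of_mem hx, indicator_of_mem (this.2 hx)]
      rfl
    · rw [indicator_of_notMem hx, indicator_of_notMem (fun h => hx (this.1 h))]
  simp only [h2] at h1
  have hm : Measurable fun g : OG V => ENNReal.ofReal (‖B (ap g e)‖⁻¹ ^ finrank ℝ V) := by
    have : Measurable fun g : OG V => B (ap g e) :=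
      hBc.measurable.comp (measurable_ap measurable_id measurable_const)
    fun_prop
  rw [lintegral_mul_const _ hm] at h1
  have h0 : volume (Metric.closedBall (0 : V) 1) ≠ 0 :=
    (Metric.measure_closedBall_pos _ _ one_pos).ne'
  have ht : volume (Metric.closedBall (0 : V) 1) ≠ ∞ := measure_closedBall_lt_top.ne
  simp only [inv_one, abs_one, ENNReal.ofReal_one] at h1
  exact ((ENNReal.mul_left_inj h0 ht).1 h1).symm

theorem inertia_gauss (hn : 1 ≤ finrank ℝ V) (B : V →ₗ[ℝ] V) (hB : LinearMap.det B = 1) {e : V}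
    (he : ‖e‖ = 1) :
    ∫⁻ x, ENNReal.ofReal ((‖x‖ / ‖B x‖) ^ finrank ℝ V) ∂(stdGaussian V) = 1 := by
  have hBc : Continuous B := B.continuous_of_finiteDimensional
  have hm : Measurable fun x : V => ENNReal.ofReal ((‖x‖ / ‖B x‖) ^ finrank ℝ V) := by
    have := hBc.measurable
    fun_prop
  rw [polar (stdGaussian V) mp_ap he hm, ← inertia_haar B hB he]
  refine lintegral_congr fun g => ?_
  rw [← mul_one (ENNReal.ofReal (‖B (ap g e)‖⁻¹ ^ finrank ℝ V)),
    ← measure_univ (μ := stdGaussian V), ← lintegral_const]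
  refine lintegral_congr_ae ?_
  filter_upwards [ae_ne_zero hn] with x hx
  have : ‖x‖ ≠ 0 := norm_ne_zero_iff.2 hx
  congr 2
  rw [map_smul, norm_smul, norm_smul, norm_norm, norm_ap, he, mul_one, div_mul_eq_div_div,
    div_self this, one_div]

theorem inertia_exists {m : ℕ} (b : OrthonormalBasis (Fin m) ℝ V) (β : Fin m → ℝ)
    (hβ : ∏ l, β l = 1) :
    ∃ B : V →ₗ[ℝ] V, LinearMap.det B = 1 ∧ ∀ x, ‖B x‖ ^ 2 = ∑ l, β l ^ 2 * ⟪b l, x⟫ ^ 2 := by
  refine ⟨Matrix.toLin b.toBasis b.toBasis (Matrix.diagonal β), ?_, fun x => ?_⟩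
  · rw [LinearMap.det_toLin, Matrix.det_diagonal, hβ]
  · rw [← b.sum_sq_inner_right]
    refine Finset.sum_congr rfl fun l _ => ?_
    rw [Matrix.toLin_apply]
    simp only [OrthonormalBasis.coe_toBasis]
    rw [b.orthonormal.inner_right_fintype, Matrix.mulVec_diagonal,
      OrthonormalBasis.coe_toBasis_repr_apply, OrthonormalBasis.repr_apply_apply, mul_pow]

theorem inertia_int {f : V → ℝ} (hf : Den f) (a : V) :
    Integrable (fun x => ⟪a, x⟫ ^ 2 * f x) (stdGaussian V) := by
  obtain ⟨C, hC⟩ := hf.toPos.bd.bdd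
  have hm := hf.meas
  refine ((integrable_norm_pow (V := V) 2).const_mul (‖a‖ ^ 2 * C)).mono'
    (by fun_prop : Measurable fun x => ⟪a, x⟫ ^ 2 * f x).aestronglyMeasurable
    (ae_of_all _ fun x => ?_)
  rw [Real.norm_eq_abs, abs_mul, abs_pow]
  have h1 : |⟪a, x⟫| ^ 2 ≤ (‖a‖ * ‖x‖) ^ 2 :=
    pow_le_pow_left₀ (abs_nonneg _) (abs_real_inner_le_norm a x) 2
  calc |⟪a, x⟫| ^ 2 * |f x| ≤ (‖a‖ * ‖x‖) ^ 2 * C :=
        mul_le_mul h1 (hC x) (abs_nonneg _) (by positivity)
    _ = ‖a‖ ^ 2 * C * ‖x‖ ^ 2 := by ring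

theorem inertia_pos {f : V → ℝ} (hf : Den f) {a : V} (ha : a ≠ 0) :
    0 < ∫ x, ⟪a, x⟫ ^ 2 * f x ∂(stdGaussian V) := by
  have h0 : 0 ≤ fun x => ⟪a, x⟫ ^ 2 * f x := fun x =>
    mul_nonneg (sq_nonneg _) (hf.toPos.pos x).le
  refine lt_of_le_of_ne (integral_nonneg h0) fun h => ?_
  have h1 := (integral_eq_zero_iff_of_nonneg h0 (inertia_int hf a)).1 h.symm
  have h2 : ∀ᵐ x ∂(stdGaussian V), False := by
    filter_upwards [h1, ae_inner_ne_zero ha] with x hx hx'
    exact mul_ne_zero (pow_ne_zero 2 hx') (hf.toPos.pos x).ne' hx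
  obtain ⟨_, h3⟩ := h2.exists
  exact h3

theorem inertia_amgm {m : ℕ} {y s lam : ℝ} (hy : 0 < y) (hs : 0 < s) (hl : 0 < lam) :
    y ^ ((m : ℝ) / (m + 2)) ≤ lam ^ ((m : ℝ) / (m + 2)) *
      ((m : ℝ) / (m + 2) * (lam⁻¹ * (y * s⁻¹ ^ 2)) + 2 / (m + 2) * s ^ m) := by
  have hm : (0 : ℝ) < m + 2 := by positivity
  refine le_trans (le_of_eq ?_) (mul_le_mul_of_nonneg_left
    (Real.geom_mean_le_arith_mean2_weighted (by positivity) (by positivity) (by positivity)
      (by positivity) (by field_simp)) (by positivity))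
  have e1 : (s⁻¹ ^ 2) ^ ((m : ℝ) / (m + 2)) * (s ^ m) ^ (2 / ((m : ℝ) + 2)) = 1 := by
    rw [← Real.rpow_natCast s⁻¹, ← Real.rpow_natCast s, ← Real.rpow_mul (inv_nonneg.2 hs.le),
      ← Real.rpow_mul hs.le, Real.inv_rpow hs.le]
    have : ((2 : ℕ) : ℝ) * ((m : ℝ) / (m + 2)) = m * (2 / ((m : ℝ) + 2)) := by
      push_cast
      ring
    rw [this, inv_mul_cancel₀ (Real.rpow_pos_of_pos hs _).ne']
  have e2 : lam ^ ((m : ℝ) / (m + 2)) * lam⁻¹ ^ ((m : ℝ) / (m + 2)) = 1 := by
    rw [Real.inv_rpow hl.le, mul_inv_cancel₀ (Real.rpow_pos_of_pos hl _).ne']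
  rw [Real.mul_rpow (by positivity) (by positivity), Real.mul_rpow hy.le (by positivity)]
  calc y ^ ((m : ℝ) / (m + 2)) = (lam ^ ((m : ℝ) / (m + 2)) * lam⁻¹ ^ ((m : ℝ) / (m + 2))) *
        y ^ ((m : ℝ) / (m + 2)) *
        ((s⁻¹ ^ 2) ^ ((m : ℝ) / (m + 2)) * (s ^ m) ^ (2 / ((m : ℝ) + 2))) := by
        rw [e1, e2]; ring
    _ = _ := by ring

theorem inertia {m : ℕ} (hm : finrank ℝ V = m) (h1 : 1 ≤ m) (b : OrthonormalBasis (Fin m) ℝ V)
    {f : V → ℝ} (hf : Den f) :
    (∫ x, f x ^ ((m : ℝ) / (m + 2)) ∂(stdGaussian V)) ^ (m + 2)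
      ≤ ∏ l, ∫ x, ⟪b l, x⟫ ^ 2 * f x ∂(stdGaussian V) := by
  have hn : 1 ≤ finrank ℝ V := hm ▸ h1
  have hm0 : (0 : ℝ) < m := by exact_mod_cast h1
  set r : Fin m → ℝ := fun l => ∫ x, ⟪b l, x⟫ ^ 2 * f x ∂(stdGaussian V) with hr
  have hrp : ∀ l, 0 < r l := fun l => inertia_pos hf (b.orthonormal.ne_zero l)
  set P : ℝ := ∏ l, r l with hP
  have hPp : 0 < P := Finset.prod_pos fun l _ => hrp l
  set lam : ℝ := P ^ ((m : ℝ)⁻¹) with hlam
  have hl : 0 < lam := Real.rpow_pos_of_pos hPp _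
  have hlm : lam ^ m = P := Real.rpow_inv_natCast_pow hPp.le (by omega)
  obtain ⟨B, hB, hBn⟩ := inertia_exists b (fun l => √(lam / r l)) (by
    rw [← Real.sqrt_prod _ (fun l _ => (div_pos hl (hrp l)).le), Finset.prod_div_distrib,
      Finset.prod_const, Finset.card_univ, Fintype.card_fin, hlm, ← hP, div_self hPp.ne',
      Real.sqrt_one])
  have hBn' : ∀ x, ‖B x‖ ^ 2 = ∑ l, lam / r l * ⟪b l, x⟫ ^ 2 := fun x => by
    rw [hBn]
    exact Finset.sum_congr rfl fun l _ => by rw [Real.sq_sqrt (div_pos hl (hrp l)).le]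
  have hBc : Continuous B := B.continuous_of_finiteDimensional
  have hBm := hBc.measurable
  have hfm := hf.meas
  -- the function `ψ = f t ^ 2`
  set ψ : V → ℝ := fun x => f x * (‖x‖ / ‖B x‖)⁻¹ ^ 2 with hψ
  have hψ0 : ∀ x, 0 ≤ ψ x := fun x => mul_nonneg (hf.toPos.pos x).le (sq_nonneg _)
  have hψb : Bd ψ := by
    obtain ⟨C, hC⟩ := hf.toPos.bd.bdd
    refine ⟨by fun_prop, C * ‖LinearMap.toContinuousLinearMap B‖ ^ 2, fun x => ?_⟩
    rw [abs_of_nonneg (hψ0 x)]
    have hC0 : 0 ≤ C := (abs_nonneg _).trans (hC 0)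
    refine mul_le_mul ((le_abs_self _).trans (hC x)) ?_ (sq_nonneg _) hC0
    refine pow_le_pow_left₀ (by positivity) ?_ 2
    rw [inv_div]
    exact (LinearMap.toContinuousLinearMap B).ratio_le_opNorm x
  have hψh : ∀ t : ℝ, 0 < t → ∀ x, ψ (t • x) = ψ x := fun t ht x => by
    simp only [hψ, hf.hom t ht, map_smul, norm_smul]
    rw [mul_div_mul_left _ _ (norm_ne_zero_iff.2 ht.ne')]
  have hψi : ∫ x, ψ x ∂(stdGaussian V) = lam := by
    have h := radial_indep hn 2 hψb hψ0 hψh
    rw [integral_norm_sq, hm] at h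
    have h2 : ∫ x, ‖x‖ ^ 2 * ψ x ∂(stdGaussian V) = m * lam := by
      have : ∀ x, ‖x‖ ^ 2 * ψ x = ∑ l, lam / r l * (⟪b l, x⟫ ^ 2 * f x) := by
        intro x
        have e : ‖x‖ ^ 2 * ψ x = ‖B x‖ ^ 2 * f x := by
          by_cases hx : x = 0
          · simp [hx]
          · have : ‖x‖ ≠ 0 := norm_ne_zero_iff.2 hx
            simp only [hψ, inv_div]
            field_simp
        rw [e, hBn', Finset.sum_mul]
        exact Finset.sum_congr rfl fun l _ => mul_assoc _ _ _
      simp only [this]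
      rw [integral_finsetSum _ fun l _ => (inertia_int hf (b l)).const_mul _]
      simp only [integral_const_mul]
      rw [Finset.sum_congr rfl fun l _ => div_mul_cancel₀ lam (hrp l).ne']
      simp
    rw [h2] at h
    exact (mul_left_cancel₀ hm0.ne' h).symm
  -- the function `φ = t ^ (-m)`
  set φ : V → ℝ := fun x => (‖x‖ / ‖B x‖) ^ m with hφ
  have hφ0 : ∀ x, 0 ≤ φ x := fun x => by positivity
  have hφm : Measurable φ := by fun_prop
  have hφl : ∫⁻ x, ENNReal.ofReal (φ x) ∂(stdGaussian V) = 1 := by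
    have := inertia_gauss hn B hB (b.orthonormal.norm_eq_one ⟨0, h1⟩)
    rwa [hm] at this
  have hφi : Integrable φ (stdGaussian V) :=
    ⟨hφm.aestronglyMeasurable, (hasFiniteIntegral_iff_ofReal (ae_of_all _ hφ0)).2
      (by rw [hφl]; exact ENNReal.one_lt_top)⟩
  have hφ1 : ∫ x, φ x ∂(stdGaussian V) = 1 := by
    rw [integral_eq_lintegral_of_nonneg_ae (ae_of_all _ hφ0) hφm.aestronglyMeasurable, hφl]
    simp
  have hp0 : (0 : ℝ) ≤ (m : ℝ) / (m + 2) := by positivity
  have hψint : Integrable ψ (stdGaussian V) := hψb.integrable _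
  have key : ∫ x, f x ^ ((m : ℝ) / (m + 2)) ∂(stdGaussian V) ≤ lam ^ ((m : ℝ) / (m + 2)) := by
    calc ∫ x, f x ^ ((m : ℝ) / (m + 2)) ∂(stdGaussian V)
        ≤ ∫ x, lam ^ ((m : ℝ) / (m + 2)) *
          ((m : ℝ) / (m + 2) * (lam⁻¹ * ψ x) + 2 / (m + 2) * φ x) ∂(stdGaussian V) := by
          refine integral_mono_ae ((hf.toPos.rpow hp0).bd.integrable _)
            ((((hψint.const_mul _).const_mul _).add (hφi.const_mul _)).const_mul _) ?_
          filter_upwards [ae_ne_zero hn] with x hx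
          exact inertia_amgm (hf.toPos.pos x)
            (div_pos (norm_pos_iff.2 hx) (norm_pos_iff.2 (inertia_ne B hB hx))) hl
      _ = lam ^ ((m : ℝ) / (m + 2)) := by
          rw [integral_const_mul, integral_add ((hψint.const_mul _).const_mul _) (hφi.const_mul _),
            integral_const_mul, integral_const_mul, integral_const_mul, hψi, hφ1,
            inv_mul_cancel₀ hl.ne']
          field_simp
  calc (∫ x, f x ^ ((m : ℝ) / (m + 2)) ∂(stdGaussian V)) ^ (m + 2)
      ≤ (lam ^ ((m : ℝ) / (m + 2))) ^ (m + 2) :=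
        pow_le_pow_left₀ (integral_nonneg fun x => Real.rpow_nonneg (hf.toPos.pos x).le _) key _
    _ = P := by
        rw [← Real.rpow_natCast, ← Real.rpow_mul hl.le, ← hlm, ← Real.rpow_natCast]
        congr 1
        push_cast
        field_simp

end Pool.Agent.P.MP_181257_gt
end
end

-- part Pool.Agent.P.MP_181257_gt.Moment
section

/-! Second moments of parallelepiped volumes, the bounds for sk. -/

set_option autoImplicit false
set_option linter.unusedSectionVars false

open MeasureTheory ProbabilityTheory Module Set Filter Topology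
open scoped RealInnerProductSpace ENNReal Pointwise Matrix

noncomputable section

namespace Pool.Agent.P.MP_181257_gt

variable {V : Type} [NormedAddCommGroup V] [InnerProductSpace ℝ V] [FiniteDimensional ℝ V]
  [MeasurableSpace V] [BorelSpace V]

theorem integrable_D_sq {k : ℕ} {g : Fin k → V → ℝ} (hg : ∀ j, Bd (g j)) :
    Integrable (fun x : Fin k → V => D x ^ 2 * ∏ j, g j (x j)) (γk V k) := by
  choose C hC using fun j => (hg j).bdd
  have hm : ∀ j, Measurable (g j) := fun j => (hg j).meas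
  have h1 : Integrable (fun x : Fin k → V => D x ^ 2) (γk V k) := by
    refine (integrable_prod_norm_pow k 2).mono' (Measurable.aestronglyMeasurable (by fun_prop))
      (ae_of_all _ fun x => ?_)
    rw [Real.norm_eq_abs, abs_of_nonneg (sq_nonneg _), Finset.prod_pow]
    exact pow_le_pow_left₀ (D_nonneg x) (D_le_prod x) 2
  refine h1.mul_bdd (c := ∏ j, C j) (Measurable.aestronglyMeasurable ?_) (ae_of_all _ fun x => ?_)
  · exact Finset.measurable_prod _ fun j _ => (hm j).comp (measurable_pi_apply j)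
  · rw [Real.norm_eq_abs, Finset.abs_prod]
    exact Finset.prod_le_prod (fun _ _ => abs_nonneg _) fun j _ => hC j (x j)

theorem moment_integrable_inner {f : V → ℝ} (hf : Bd f) (v w : V) :
    Integrable (fun x => ⟪v, x⟫ * ⟪w, x⟫ * f x) (stdGaussian V) := by
  obtain ⟨C, hC⟩ := hf.bdd
  have hm := hf.meas
  have h1 : Integrable (fun x : V => ⟪v, x⟫ * ⟪w, x⟫) (stdGaussian V) := by
    refine ((integrable_norm_pow (V := V) 2).const_mul (‖v‖ * ‖w‖)).mono'
      (Measurable.aestronglyMeasurable (by fun_prop)) (ae_of_all _ fun x => ?_)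
    rw [Real.norm_eq_abs, abs_mul]
    calc |⟪v, x⟫| * |⟪w, x⟫| ≤ (‖v‖ * ‖x‖) * (‖w‖ * ‖x‖) :=
          mul_le_mul (abs_real_inner_le_norm v x) (abs_real_inner_le_norm w x) (abs_nonneg _)
            (by positivity)
      _ = ‖v‖ * ‖w‖ * ‖x‖ ^ 2 := by ring
  exact h1.mul_bdd (c := C) hm.aestronglyMeasurable (ae_of_all _ fun x => hC x)

theorem moment_integrable_smul {f : V → ℝ} (hf : Bd f) (v : V) :
    Integrable (fun x => (⟪v, x⟫ * f x) • x) (stdGaussian V) := by
  obtain ⟨C, hC⟩ := hf.bdd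
  have hm := hf.meas
  refine ((integrable_norm_pow (V := V) 2).const_mul (‖v‖ * C)).mono'
    (Measurable.aestronglyMeasurable (by fun_prop)) (ae_of_all _ fun x => ?_)
  rw [norm_smul, Real.norm_eq_abs, abs_mul]
  have h0 : 0 ≤ C := (abs_nonneg _).trans (hC x)
  calc |⟪v, x⟫| * |f x| * ‖x‖ ≤ (‖v‖ * ‖x‖) * C * ‖x‖ :=
        mul_le_mul_of_nonneg_right
          (mul_le_mul (abs_real_inner_le_norm v x) (hC x) (abs_nonneg _) (by positivity))
          (norm_nonneg _)
    _ = ‖v‖ * C * ‖x‖ ^ 2 := by ring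

/-- an orthonormal basis diagonalising the second moment form -/
theorem moment_exists_diag {m : ℕ} (hm : finrank ℝ V = m) {f : V → ℝ} (hf : Bd f) :
    ∃ b : OrthonormalBasis (Fin m) ℝ V, ∀ l l', l ≠ l' →
      ∫ x, ⟪b l, x⟫ * ⟪b l', x⟫ * f x ∂(stdGaussian V) = 0 := by
  let A : V →ₗ[ℝ] V :=
    { toFun := fun v => ∫ x, (⟪v, x⟫ * f x) • x ∂(stdGaussian V)
      map_add' := fun v w => by
        rw [← integral_add (moment_integrable_smul hf v) (moment_integrable_smul hf w)]
        congr 1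
        ext x
        rw [inner_add_left, add_mul, add_smul]
      map_smul' := fun c v => by
        rw [RingHom.id_apply, ← integral_smul]
        congr 1
        ext x
        rw [real_inner_smul_left, smul_smul, mul_assoc] }
  have hA : ∀ v w, ⟪w, A v⟫ = ∫ x, ⟪v, x⟫ * ⟪w, x⟫ * f x ∂(stdGaussian V) := by
    intro v w
    change ⟪w, ∫ x, (⟪v, x⟫ * f x) • x ∂(stdGaussian V)⟫ = _
    rw [← integral_inner (moment_integrable_smul hf v)]
    congr 1
    ext x
    rw [real_inner_smul_right]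
    ring
  have hs : A.IsSymmetric := by
    intro v w
    rw [real_inner_comm, hA, hA]
    congr 1
    ext x
    ring
  refine ⟨hs.eigenvectorBasis hm, fun l l' h => ?_⟩
  rw [← hA, hs.apply_eigenvectorBasis, inner_smul_right,
    (hs.eigenvectorBasis hm).orthonormal.inner_eq_zero h.symm, mul_zero]

theorem moment_det_expand {m k : ℕ} (b : OrthonormalBasis (Fin m) ℝ V) (x : Fin k → V) :
    D x ^ 2 = ∑ l : Fin k → Fin m, ∑ σ : Equiv.Perm (Fin k),
      (Equiv.Perm.sign σ : ℤ) * ∏ j, ⟪b (l (σ j)), x j⟫ * ⟪b (l j), x j⟫ := by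
  have h1 : ∀ i j, Matrix.gram ℝ x i j = ∑ l, ⟪b l, x i⟫ * ⟪b l, x j⟫ := by
    intro i j
    rw [Matrix.gram_apply, ← b.sum_inner_mul_inner]
    simp only [real_inner_comm (x i)]
  rw [D_sq, Matrix.det_apply']
  simp only [h1, Finset.prod_univ_sum, Fintype.piFinset_univ, Finset.mul_sum]
  rw [Finset.sum_comm]
  refine Finset.sum_congr rfl fun l _ => ?_
  simp only [Finset.prod_mul_distrib, ← mul_assoc, ← Finset.sum_mul]
  congr 1
  have h2 := Matrix.det_transpose (Matrix.of fun i j : Fin k => ⟪b (l j), x i⟫)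
  rw [Matrix.det_apply', Matrix.det_apply'] at h2
  exact h2.symm

theorem exists_moment_eq {m : ℕ} (hm : finrank ℝ V = m) {f : V → ℝ} (hf : Pos f) :
    ∃ b : OrthonormalBasis (Fin m) ℝ V, ∀ k : ℕ,
      ∫ x, D x ^ 2 * ∏ j, f (x j) ∂(γk V k)
        = inj k fun l => ∫ x, ⟪b l, x⟫ ^ 2 * f x ∂(stdGaussian V) := by
  classical
  obtain ⟨b, hb⟩ := moment_exists_diag hm hf.bd
  refine ⟨b, fun k => ?_⟩
  set M : Fin m → Fin m → ℝ := fun l l' => ∫ x, ⟪b l, x⟫ * ⟪b l', x⟫ * f x ∂(stdGaussian V)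
    with hM
  have h1 : ∀ x : Fin k → V, D x ^ 2 * ∏ j, f (x j) = ∑ l : Fin k → Fin m,
      ∑ σ : Equiv.Perm (Fin k), (Equiv.Perm.sign σ : ℤ) *
        ∏ j, ⟪b (l (σ j)), x j⟫ * ⟪b (l j), x j⟫ * f (x j) := by
    intro x
    rw [moment_det_expand b x, Finset.sum_mul]
    refine Finset.sum_congr rfl fun l _ => ?_
    rw [Finset.sum_mul]
    refine Finset.sum_congr rfl fun σ _ => ?_
    rw [mul_assoc, ← Finset.prod_mul_distrib]
  have hi : ∀ (l : Fin k → Fin m) (σ : Equiv.Perm (Fin k)), Integrable (fun x : Fin k → V =>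
      ((Equiv.Perm.sign σ : ℤ) : ℝ) * ∏ j, ⟪b (l (σ j)), x j⟫ * ⟪b (l j), x j⟫ * f (x j))
      (γk V k) := fun l σ =>
    (Integrable.fintype_prod (f := fun j (x : V) => ⟪b (l (σ j)), x⟫ * ⟪b (l j), x⟫ * f x)
      fun j => moment_integrable_inner hf.bd _ _).const_mul _
  simp only [h1]
  rw [integral_finsetSum _ fun l _ => integrable_finsetSum _ fun σ _ => hi l σ]
  have h2 : ∀ l : Fin k → Fin m, ∫ x, ∑ σ : Equiv.Perm (Fin k), ((Equiv.Perm.sign σ : ℤ) : ℝ) *
      ∏ j, ⟪b (l (σ j)), x j⟫ * ⟪b (l j), x j⟫ * f (x j) ∂(γk V k)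
      = (Matrix.of fun i j : Fin k => M (l i) (l j)).det := by
    intro l
    rw [integral_finsetSum _ fun σ _ => hi l σ, Matrix.det_apply']
    refine Finset.sum_congr rfl fun σ _ => ?_
    rw [integral_const_mul, integral_fintype_prod_eq_prod
      (f := fun j (x : V) => ⟪b (l (σ j)), x⟫ * ⟪b (l j), x⟫ * f x)]
    rfl
  simp only [h2]
  unfold inj
  rw [Finset.sum_filter]
  refine Finset.sum_congr rfl fun l _ => ?_
  split_ifs with hl
  · have : (Matrix.of fun i j : Fin k => M (l i) (l j)) = Matrix.diagonal fun j => M (l j) (l j) := by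
      ext i j
      by_cases hij : i = j
      · subst hij
        simp
      · rw [Matrix.diagonal_apply_ne _ hij, Matrix.of_apply]
        exact hb _ _ fun h => hij (hl h)
    rw [this, Matrix.det_diagonal]
    simp only [hM, sq]
  · obtain ⟨i, j, hij, hne⟩ := Function.not_injective_iff.1 hl
    refine Matrix.det_zero_of_row_eq hne ?_
    ext t
    simp only [Matrix.of_apply, hij]

theorem moment_integrable_sq {f : V → ℝ} (hf : Bd f) (v : V) :
    Integrable (fun x => ⟪v, x⟫ ^ 2 * f x) (stdGaussian V) := by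
  simpa only [sq] using moment_integrable_inner hf v v

theorem moment_le {m k : ℕ} (hm : finrank ℝ V = m) (h1 : 1 ≤ m) (hk : k ≤ m) {f : V → ℝ}
    (hf : Den f) :
    ∫ x, D x ^ 2 * ∏ j, f (x j) ∂(γk V k)
      ≤ (m.descFactorial k : ℝ) * (∫ x, f x ∂(stdGaussian V)) ^ k := by
  obtain ⟨b, hb⟩ := exists_moment_eq hm hf.toPos
  rw [hb k]
  refine (inj_le hk fun l => integral_nonneg fun x =>
    mul_nonneg (sq_nonneg _) (hf.toPos.pos x).le).trans_eq ?_
  congr 2
  rw [← integral_finsetSum _ fun l _ => moment_integrable_sq hf.toPos.bd (b l)]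
  simp only [← Finset.sum_mul, b.sum_sq_inner_right]
  rw [radial_indep (hm ▸ h1) 2 hf.toPos.bd (fun x => (hf.toPos.pos x).le) hf.hom,
    integral_norm_sq, hm]
  have : (m : ℝ) ≠ 0 := by positivity
  field_simp

theorem moment_integral_pos {X : Type} [MeasurableSpace X] {f : X → ℝ} (hf : Pos f)
    (μ : Measure X) [IsProbabilityMeasure μ] : 0 < ∫ x, f x ∂μ := by
  obtain ⟨c, C, hc, h⟩ := hf.bdd
  refine hc.trans_le ?_
  have := integral_mono (integrable_const (μ := μ) c) (hf.bd.integrable μ) fun x => (h x).1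
  simpa using this

theorem le_moment {m k : ℕ} (hm : finrank ℝ V = m) (h1 : 1 ≤ m) (hk : k ≤ m) {f : V → ℝ}
    (hf : Den f) :
    (m.descFactorial k : ℝ)
        * (∫ x, f x ^ ((m : ℝ) / (m + 2)) ∂(stdGaussian V)) ^ ((k : ℝ) * (m + 2) / m)
      ≤ ∫ x, D x ^ 2 * ∏ j, f (x j) ∂(γk V k) := by
  obtain ⟨b, hb⟩ := exists_moment_eq hm hf.toPos
  rw [hb k]
  have hI := inertia hm h1 b hf
  have hp : 0 < ∫ x, f x ^ ((m : ℝ) / (m + 2)) ∂(stdGaussian V) :=
    moment_integral_pos (hf.toPos.rpow (by positivity)) _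
  have hr : ∀ l, 0 < ∫ x, ⟪b l, x⟫ ^ 2 * f x ∂(stdGaussian V) := by
    intro l
    refine lt_of_le_of_ne (integral_nonneg fun x =>
      mul_nonneg (sq_nonneg _) (hf.toPos.pos x).le) fun h0 => ?_
    rw [Finset.prod_eq_zero (Finset.mem_univ l) h0.symm] at hI
    exact absurd hI (not_le.2 (pow_pos hp _))
  refine le_trans (mul_le_mul_of_nonneg_left ?_ (Nat.cast_nonneg _)) (le_inj hk hr)
  refine le_trans (le_of_eq ?_) (Real.rpow_le_rpow (pow_pos hp _).le hI (by positivity))
  rw [← Real.rpow_natCast, ← Real.rpow_mul hp.le]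
  congr 1
  push_cast
  ring

theorem pos_Rd {f : V → ℝ} (hf : Pos f) : Pos (Rd f) := by
  have hm := hf.meas
  obtain ⟨c, C, hc, h⟩ := hf.bdd
  have hi : ∀ y : V, Integrable (fun x => f (pr y x)) (stdGaussian V) := fun y =>
    Pos.bd (f := fun x => f (pr y x)) ⟨by fun_prop, c, C, hc, fun x => h _⟩ |>.integrable _
  refine ⟨?_, c, C, hc, fun y => ⟨?_, ?_⟩⟩
  · have : Measurable fun q : V × V => f (pr q.1 q.2) := by fun_prop
    exact (this.stronglyMeasurable.integral_prod_right' (ν := stdGaussian V)).measurable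
  · have := integral_mono (integrable_const (μ := stdGaussian V) c) (hi y) fun x => (h _).1
    simpa [Rd] using this
  · have := integral_mono (hi y) (integrable_const (μ := stdGaussian V) C) fun x => (h _).2
    simpa [Rd] using this

theorem moment_integral_mp {X Y : Type} [MeasurableSpace X] [MeasurableSpace Y] {μ : Measure X}
    {ν : Measure Y} {T : X → Y} (hT : MeasurePreserving T μ ν) {F : Y → ℝ} (hF : Measurable F) :
    ∫ x, F (T x) ∂μ = ∫ y, F y ∂ν := by
  rw [← hT.map_eq, integral_map hT.measurable.aemeasurable hF.aestronglyMeasurable]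

theorem moment_den_coe {f : V → ℝ} (hf : Den f) (W : Submodule ℝ V) :
    Den fun z : W => f (z : V) := by
  obtain ⟨c, C, hc, h⟩ := hf.bdd
  exact ⟨⟨hf.meas.comp measurable_subtype_coe, c, C, hc, fun z => h _⟩,
    fun t ht z => hf.hom t ht _⟩

theorem moment_Rd_eq {f : V → ℝ} (hf : Measurable f) (y : V) :
    Rd f y = ∫ z : (ℝ ∙ y)ᗮ, f (z : V) ∂(stdGaussian (ℝ ∙ y)ᗮ) :=
  moment_integral_mp (mp_prS y) (F := fun z : (ℝ ∙ y)ᗮ => f (z : V))
    (hf.comp measurable_subtype_coe)

theorem moment_sk_eq {m k : ℕ} (hm : finrank ℝ V = m + 1) {f : V → ℝ} (hf : Measurable f)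
    {y : V} (hy : y ≠ 0) :
    sk k f y = (∫ z : Fin k → (ℝ ∙ y)ᗮ, D z ^ 2 * ∏ j, f (z j : V) ∂(γk (ℝ ∙ y)ᗮ k))
      / (m.descFactorial k : ℝ) := by
  have hT : MeasurePreserving (fun (x : Fin k → V) j => prS y (x j)) (γk V k) (γk (ℝ ∙ y)ᗮ k) :=
    measurePreserving_pi _ _ fun _ => mp_prS y
  have hF : Measurable fun z : Fin k → (ℝ ∙ y)ᗮ => D z ^ 2 * ∏ j, f (z j : V) :=
    ((measurable_D measurable_id).pow_const 2).mul (Finset.measurable_prod _ fun j _ =>
      hf.comp (measurable_subtype_coe.comp (measurable_pi_apply j)))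
  rw [← moment_integral_mp hT hF]
  unfold sk
  rw [if_neg hy, hm, Nat.add_sub_cancel]
  refine congrArg (· / (m.descFactorial k : ℝ)) (integral_congr_ae (ae_of_all _ fun x => ?_))
  have : D (fun j => pr y (x j)) = D (fun j => prS y (x j)) :=
    D_map (ℝ ∙ y)ᗮ.subtypeₗᵢ fun j => prS y (x j)
  simp only [this, coe_prS]

theorem moment_finrank {m : ℕ} (hm : finrank ℝ V = m + 1) {y : V} (hy : y ≠ 0) :
    finrank ℝ (ℝ ∙ y)ᗮ = m := by
  have := finrank_orth hy
  omega

theorem moment_desc_pos {m k : ℕ} (hk : k ≤ m) : (0 : ℝ) < m.descFactorial k := by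
  exact_mod_cast Nat.descFactorial_pos.2 hk

theorem sk_le {m k : ℕ} (hm : finrank ℝ V = m + 1) (h1 : 1 ≤ m) (hk : k ≤ m) {f : V → ℝ}
    (hf : Den f) {y : V} (hy : y ≠ 0) : sk k f y ≤ Rd f y ^ k := by
  rw [moment_sk_eq hm hf.meas hy, moment_Rd_eq hf.meas, div_le_iff₀' (moment_desc_pos hk)]
  exact moment_le (moment_finrank hm hy) h1 hk (moment_den_coe hf _)

theorem le_sk {m k : ℕ} (hm : finrank ℝ V = m + 1) (h1 : 1 ≤ m) (hk : k ≤ m) {f : V → ℝ}
    (hf : Den f) {y : V} (hy : y ≠ 0) :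
    Rd (fun x => f x ^ ((m : ℝ) / (m + 2))) y ^ ((k : ℝ) * (m + 2) / m) ≤ sk k f y := by
  rw [moment_sk_eq hm hf.meas hy, moment_Rd_eq (hf.meas.pow_const _),
    le_div_iff₀' (moment_desc_pos hk)]
  exact le_moment (moment_finrank hm hy) h1 hk (moment_den_coe hf _)

theorem moment_measurable_sk {k : ℕ} {f : V → ℝ} (hf : Measurable f) : Measurable (sk k f) := by
  classical
  have h : Measurable fun q : V × (Fin k → V) =>
      D (fun j => pr q.1 (q.2 j)) ^ 2 * ∏ j, f (pr q.1 (q.2 j)) :=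
    ((measurable_D (by fun_prop)).pow_const 2).mul
      (Finset.measurable_prod _ fun j _ => by fun_prop)
  have h2 := (h.stronglyMeasurable.integral_prod_right' (ν := γk V k)).measurable
  unfold sk
  exact Measurable.ite (measurableSet_singleton 0) measurable_const (h2.div_const _)

theorem den_sk {m k : ℕ} (hm : finrank ℝ V = m + 1) (h1 : 1 ≤ m) (hk : k ≤ m) {f : V → ℝ}
    (hf : Den f) : Den (sk k f) := by
  obtain ⟨c, C', hc, h⟩ := (pos_Rd (hf.toPos.rpow (r := (m : ℝ) / (m + 2)) (by positivity))).bdd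
  have hR := pos_Rd hf.toPos
  obtain ⟨c', C, -, h'⟩ := hR.bdd
  refine ⟨⟨moment_measurable_sk hf.meas, min 1 (c ^ ((k : ℝ) * (m + 2) / m)), max 1 (C ^ k),
    lt_min one_pos (Real.rpow_pos_of_pos hc _), fun y => ?_⟩, fun t ht y => ?_⟩
  · by_cases hy : y = 0
    · have : sk k f y = 1 := by
        unfold sk
        rw [if_pos hy]
      rw [this]
      exact ⟨min_le_left _ _, le_max_left _ _⟩
    · refine ⟨(min_le_right _ _).trans (le_trans ?_ (le_sk hm h1 hk hf hy)),
        (sk_le hm h1 hk hf hy).trans (le_trans ?_ (le_max_right _ _))⟩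
      · exact Real.rpow_le_rpow hc.le (h y).1 (by positivity)
      · exact pow_le_pow_left₀ (hR.pos y).le (h' y).2 k
  · have : t • y = 0 ↔ y = 0 := by simp [ht.ne']
    unfold sk
    by_cases hy : y = 0
    · rw [if_pos hy, if_pos (this.2 hy)]
    · rw [if_neg hy, if_neg fun h0 => hy (this.1 h0)]
      simp only [pr_smul_left ht.ne']

theorem sk_one {m k : ℕ} (hm : finrank ℝ V = m + 1) (h1 : 1 ≤ m) (hk : k ≤ m) (y : V) :
    sk k (fun _ : V => (1 : ℝ)) y = 1 := by
  by_cases hy : y = 0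
  · unfold sk
    rw [if_pos hy]
  · refine le_antisymm ?_ ?_
    · simpa [Rd] using sk_le hm h1 hk Den.one hy
    · simpa [Rd] using le_sk hm h1 hk Den.one hy

end Pool.Agent.P.MP_181257_gt
end
end

-- part Pool.Agent.P.MP_181257_gt.AFKer
section

/-! The two analytic inputs of the Alexandrov-Fenchel inequality for zonoids. -/

set_option autoImplicit false
set_option linter.unusedSectionVars false

open MeasureTheory ProbabilityTheory Module Set Filter Topology
open scoped RealInnerProductSpace ENNReal Pointwise Matrix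

noncomputable section

namespace Pool.Agent.P.MP_181257_gt

variable {V : Type} [NormedAddCommGroup V] [InnerProductSpace ℝ V] [FiniteDimensional ℝ V]
  [MeasurableSpace V] [BorelSpace V]

namespace AFK

variable {X : Type} [MeasurableSpace X]

theorem bd_const (c : ℝ) : Bd fun _ : X => c := ⟨measurable_const, |c|, fun _ => le_rfl⟩

theorem bd_mul {f g : X → ℝ} (hf : Bd f) (hg : Bd g) : Bd fun x => f x * g x := by
  obtain ⟨C, hC⟩ := hf.bdd
  obtain ⟨E, hE⟩ := hg.bdd
  refine ⟨hf.meas.mul hg.meas, C * E, fun x => ?_⟩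
  rw [abs_mul]
  exact mul_le_mul (hC x) (hE x) (abs_nonneg _) ((abs_nonneg _).trans (hC x))

theorem bd_add {f g : X → ℝ} (hf : Bd f) (hg : Bd g) : Bd fun x => f x + g x := by
  obtain ⟨C, hC⟩ := hf.bdd
  obtain ⟨E, hE⟩ := hg.bdd
  exact ⟨hf.meas.add hg.meas, C + E, fun x => (abs_add_le _ _).trans (add_le_add (hC x) (hE x))⟩

theorem bd_fst {f : X → ℝ} (hf : Bd f) : Bd fun p : X × X => f p.1 := by
  obtain ⟨C, hC⟩ := hf.bdd
  exact ⟨hf.meas.comp measurable_fst, C, fun p => hC p.1⟩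

theorem bd_snd {f : X → ℝ} (hf : Bd f) : Bd fun p : X × X => f p.2 := by
  obtain ⟨C, hC⟩ := hf.bdd
  exact ⟨hf.meas.comp measurable_snd, C, fun p => hC p.2⟩

theorem int_mul {μ : Measure X} {u f : X → ℝ} (hu : Integrable u μ) (hf : Bd f) :
    Integrable (fun x => u x * f x) μ := by
  obtain ⟨C, hC⟩ := hf.bdd
  exact hu.mul_bdd hf.meas.aestronglyMeasurable (ae_of_all _ hC)

/-- finite sums of squares of bounded measurable functions -/
def PK (k : X → X → ℝ) : Prop :=
  ∃ (ι : Type) (_ : Fintype ι) (φ : ι → X → ℝ), (∀ l, Bd (φ l)) ∧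
    ∀ x z, k x z = ∑ l, φ l x * φ l z

theorem PK.zero : PK fun _ _ : X => (0 : ℝ) :=
  ⟨Empty, inferInstance, fun l => l.elim, fun l => l.elim, fun _ _ => by simp⟩

theorem PK.add {k k' : X → X → ℝ} (h : PK k) (h' : PK k') : PK fun x z => k x z + k' x z := by
  obtain ⟨ι, _, φ, hφ, e⟩ := h
  obtain ⟨ι', _, φ', hφ', e'⟩ := h'
  refine ⟨ι ⊕ ι', inferInstance, Sum.elim φ φ', fun l => ?_, fun x z => ?_⟩
  · cases l with
    | inl l => exact hφ l
    | inr l => exact hφ' l
  · simp [Fintype.sum_sum_type, e, e']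

theorem PK.mul {k k' : X → X → ℝ} (h : PK k) (h' : PK k') : PK fun x z => k x z * k' x z := by
  obtain ⟨ι, _, φ, hφ, e⟩ := h
  obtain ⟨ι', _, φ', hφ', e'⟩ := h'
  refine ⟨ι × ι', inferInstance, fun l x => φ l.1 x * φ' l.2 x, fun l => bd_mul (hφ _) (hφ' _),
    fun x z => ?_⟩
  simp only [e, e', Fintype.sum_prod_type, Finset.sum_mul_sum]
  refine Finset.sum_congr rfl fun _ _ => Finset.sum_congr rfl fun _ _ => by ring

theorem PK.half {k : X → X → ℝ} (h : PK k) : PK fun x z => k x z / 2 := by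
  obtain ⟨ι, _, φ, hφ, e⟩ := h
  refine ⟨ι × Fin 2, inferInstance, fun l x => φ l.1 x * (1 / 2),
    fun l => bd_mul (hφ _) (bd_const _), fun x z => ?_⟩
  simp only [e, Fintype.sum_prod_type, Fin.sum_univ_two, Finset.sum_div]
  refine Finset.sum_congr rfl fun _ _ => by ring

theorem PK.inner {a : X → V} (ha : Measurable a) (h1 : ∀ x, ‖a x‖ ≤ 1) :
    PK fun x z => ⟪a x, a z⟫ := by
  let b := stdOrthonormalBasis ℝ V
  refine ⟨Fin (finrank ℝ V), inferInstance, fun l x => ⟪b l, a x⟫,
    fun l => ⟨by fun_prop, 1, fun x => ?_⟩, fun x z => ?_⟩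
  · refine (abs_real_inner_le_norm _ _).trans ?_
    rw [b.orthonormal.1 l, one_mul]
    exact h1 x
  · simp only
    rw [← b.sum_inner_mul_inner]
    exact Finset.sum_congr rfl fun l _ => by rw [real_inner_comm]

theorem PK.measurable {k : X → X → ℝ} (h : PK k) : Measurable fun p : X × X => k p.1 p.2 := by
  obtain ⟨ι, _, φ, hφ, e⟩ := h
  simp only [e]
  exact Finset.measurable_sum _ fun l _ => (bd_fst (hφ l)).meas.mul (bd_snd (hφ l)).meas

theorem PK.nonneg {k : X → X → ℝ} (h : PK k) (μ : Measure X) [IsFiniteMeasure μ] {u : X → ℝ}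
    (hu : Integrable u μ) : 0 ≤ ∫ p : X × X, u p.1 * u p.2 * k p.1 p.2 ∂(μ.prod μ) := by
  obtain ⟨ι, _, φ, hφ, e⟩ := h
  have e2 : ∀ p : X × X, u p.1 * u p.2 * k p.1 p.2
      = ∑ l, (u p.1 * φ l p.1) * (u p.2 * φ l p.2) := fun p => by
    rw [e, Finset.mul_sum]
    exact Finset.sum_congr rfl fun _ _ => by ring
  simp only [e2]
  rw [integral_finsetSum _ fun l _ => (int_mul hu (hφ l)).mul_prod (int_mul hu (hφ l))]
  refine Finset.sum_nonneg fun l _ => ?_
  rw [integral_prod_mul (fun x => u x * φ l x) fun x => u x * φ l x]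
  exact mul_self_nonneg _

/-- polynomial approximation of `1 - √(1 - s)` from below -/
def Y (j : ℕ) (s : ℝ) : ℝ := (fun y : ℝ => (s + y * y) / 2)^[j] 0

theorem Y_zero (s : ℝ) : Y 0 s = 0 := rfl

theorem Y_succ (j : ℕ) (s : ℝ) : Y (j + 1) s = (s + Y j s * Y j s) / 2 := by
  unfold Y
  rw [Function.iterate_succ_apply']

theorem Y_mem {s : ℝ} (h0 : 0 ≤ s) (h1 : s ≤ 1) (j : ℕ) :
    0 ≤ Y j s ∧ Y j s ≤ 1 ∧ Y j s ≤ Y (j + 1) s := by
  induction j with
  | zero => simp only [Y_succ, Y_zero]; refine ⟨le_rfl, zero_le_one, by linarith⟩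
  | succ j ih =>
    obtain ⟨a, b, c⟩ := ih
    refine ⟨a.trans c, by rw [Y_succ]; nlinarith, ?_⟩
    rw [Y_succ (j + 1)]
    have := mul_self_le_mul_self a c
    have e := Y_succ j s
    linarith

theorem Y_tendsto {s : ℝ} (h0 : 0 ≤ s) (h1 : s ≤ 1) :
    Tendsto (fun j => Y j s) atTop (𝓝 (1 - √(1 - s))) := by
  have hm : Monotone fun j => Y j s := monotone_nat_of_le_succ fun j => (Y_mem h0 h1 j).2.2
  have hb : BddAbove (range fun j => Y j s) := ⟨1, by rintro _ ⟨j, rfl⟩; exact (Y_mem h0 h1 j).2.1⟩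
  have ht := tendsto_atTop_ciSup hm hb
  set L := ⨆ j, Y j s
  have hL : L ≤ 1 := le_of_tendsto' ht fun j => (Y_mem h0 h1 j).2.1
  have h2 : Tendsto (fun j => Y (j + 1) s) atTop (𝓝 ((s + L * L) / 2)) := by
    simp only [Y_succ]
    exact ((ht.mul ht).const_add s).div_const 2
  have h3 : L = (s + L * L) / 2 := tendsto_nhds_unique ((tendsto_add_atTop_iff_nat 1).2 ht) h2
  have h4 : √(1 - s) = 1 - L := by
    rw [Real.sqrt_eq_iff_mul_self_eq (by linarith) (by linarith)]
    nlinarith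
  rw [h4, sub_sub_cancel]
  exact ht

theorem PK.Y {k : X → X → ℝ} (h : PK k) (j : ℕ) : PK fun x z => Y j (k x z) := by
  induction j with
  | zero => exact PK.zero
  | succ j ih => simp only [Y_succ]; exact (h.add (ih.mul ih)).half

theorem norm_unit (a : V) : ‖‖a‖⁻¹ • a‖ ≤ 1 := by
  rw [norm_smul, norm_inv, norm_norm]
  exact inv_mul_le_one_of_le₀ le_rfl (norm_nonneg _)

theorem D_two_eq (a b : V) : D ![a, b]
    = ‖a‖ * ‖b‖ * √(1 - ⟪‖a‖⁻¹ • a, ‖b‖⁻¹ • b⟫ * ⟪‖a‖⁻¹ • a, ‖b‖⁻¹ • b⟫) := by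
  rw [D_two]
  by_cases ha : a = 0
  · simp [ha]
  by_cases hb : b = 0
  · simp [hb]
  have ha' : ‖a‖ ≠ 0 := norm_ne_zero_iff.2 ha
  have hb' : ‖b‖ ≠ 0 := norm_ne_zero_iff.2 hb
  rw [mul_assoc, ← Real.sqrt_sq (norm_nonneg (pr a b)), norm_sq_pr]
  congr 1
  nth_rewrite 2 [← Real.sqrt_sq (norm_nonneg b)]
  rw [← Real.sqrt_mul (sq_nonneg _)]
  congr 1
  simp only [real_inner_smul_left, real_inner_smul_right]
  field_simp

end AFK

open AFK in
/-- the kernel `|a ∧ b|` is negative semidefinite on a hyperplane -/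
theorem ker_neg {X : Type} [MeasurableSpace X] (μ : Measure X) [IsFiniteMeasure μ] {v : X → V}
    (hv : Measurable v) (hi : Integrable (fun x => ‖v x‖) μ) {ξ : X → ℝ} (hξ : Bd ξ)
    (h0 : ∫ x, ‖v x‖ * ξ x ∂μ = 0) :
    ∫ p : X × X, D ![v p.1, v p.2] * (ξ p.1 * ξ p.2) ∂(μ.prod μ) ≤ 0 := by
  set a : X → V := fun x => ‖v x‖⁻¹ • v x with ha
  have ham : Measurable a := by fun_prop
  have hk := PK.inner ham fun x => norm_unit (v x)
  set s : X → X → ℝ := fun x z => ⟪a x, a z⟫ * ⟪a x, a z⟫ with hs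
  have hsk : PK s := hk.mul hk
  have hs0 : ∀ x z, 0 ≤ s x z := fun x z => mul_self_nonneg _
  have hs1 : ∀ x z, s x z ≤ 1 := fun x z => by
    have h : |⟪a x, a z⟫| ≤ 1 := (abs_real_inner_le_norm _ _).trans
      (mul_le_one₀ (norm_unit (v x)) (norm_nonneg _) (norm_unit (v z)))
    exact abs_le_one_iff_mul_self_le_one.1 h
  set u : X → ℝ := fun x => ‖v x‖ * ξ x with hu
  have hui : Integrable u μ := int_mul hi hξ
  have huu : Integrable (fun p : X × X => u p.1 * u p.2) (μ.prod μ) := hui.mul_prod hui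
  have hY : ∀ j, Bd fun p : X × X => Y j (s p.1 p.2) := fun j =>
    ⟨(hsk.Y j).measurable, 1, fun p => by
      have := Y_mem (hs0 p.1 p.2) (hs1 p.1 p.2) j
      rw [abs_of_nonneg this.1]; exact this.2.1⟩
  have hlim : Tendsto (fun j => ∫ p : X × X, (u p.1 * u p.2 - u p.1 * u p.2 * Y j (s p.1 p.2))
      ∂(μ.prod μ)) atTop (𝓝 (∫ p : X × X, D ![v p.1, v p.2] * (ξ p.1 * ξ p.2) ∂(μ.prod μ))) := by
    refine tendsto_integral_of_dominated_convergence (fun p => ‖u p.1 * u p.2‖)
      (fun j => (huu.sub (int_mul huu (hY j))).aestronglyMeasurable) huu.norm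
      (fun j => ae_of_all _ fun p => ?_) (ae_of_all _ fun p => ?_)
    · have := Y_mem (hs0 p.1 p.2) (hs1 p.1 p.2) j
      rw [← mul_one_sub, norm_mul]
      refine mul_le_of_le_one_right (norm_nonneg _) ?_
      rw [Real.norm_eq_abs, abs_le]
      constructor <;> linarith [this.1, this.2.1]
    · have h := ((Y_tendsto (hs0 p.1 p.2) (hs1 p.1 p.2)).const_mul (u p.1 * u p.2)).const_sub
        (u p.1 * u p.2)
      convert h using 2
      rw [D_two_eq]
      simp only [hu, hs, ha]
      ring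
  refine le_of_tendsto' hlim fun j => ?_
  rw [integral_sub huu (int_mul huu (hY j)), integral_prod_mul u u, h0, zero_mul, zero_sub,
    neg_nonpos]
  exact (hsk.Y j).nonneg μ hui

/-- the bilinear form of a kernel -/
def BF {X : Type} [MeasurableSpace X] (μ : Measure X) (w : X × X → ℝ) (g h : X → ℝ) : ℝ :=
  ∫ p : X × X, w p * (g p.1 * h p.2) ∂(μ.prod μ)

namespace AFK

theorem abstract {E : Type} [AddCommGroup E] [Module ℝ E] (A B : E →ₗ[ℝ] E →ₗ[ℝ] ℝ)
    (hA : ∀ g h, A g h = A h g) (hB : ∀ g h, B g h = B h g) (P : E → E)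
    (hP : ∀ g h, A (P g) h = B g h) (hT : ∀ g, B g g ≤ A (P g) (P g))
    (hA0 : ∀ g, 0 ≤ A g g) (hAB : ∀ g, 0 ≤ A g g + B g g) {l : ℝ} (hl0 : 0 ≤ l) (hl1 : l < 1)
    (hgap : ∀ g, B g g ≤ l * A g g) (g : E) : B g g ≤ 0 := by
  have step : ∀ m : ℝ, 0 ≤ m → (∀ g, B g g ≤ m * A g g) → ∀ g, (2 - m) * B g g ≤ m * A g g := by
    intro m hm H g
    set h : E := m • g - P g with hh
    have e1 : m * A g h - B g h = A h h := by
      rw [← hP]
      nth_rewrite 3 [hh]
      simp
    have e2 : A h h = m * m * A g g - 2 * m * B g g + A (P g) (P g) := by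
      simp only [hh, map_sub, map_smul, LinearMap.sub_apply, LinearMap.smul_apply, smul_eq_mul,
        hA g (P g), hP g g]
      ring
    have e3 := H ((1 + m) • g - h)
    simp only [map_sub, map_smul, LinearMap.sub_apply, LinearMap.smul_apply, smul_eq_mul,
      hA h g, hB h g] at e3
    have e4 := hAB h
    have e5 : (1 + m) * A h h ≤ (1 + m) * ((1 + m) * (m * A g g - B g g)) := by
      have : (1 + m) * (m * A g h - B g h) = (1 + m) * A h h := by rw [e1]
      nlinarith
    have e6 := le_of_mul_le_mul_left e5 (by linarith)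
    have e7 := hT g
    nlinarith
  set r : ℝ := (2 - l)⁻¹ with hr
  have h2 : (0 : ℝ) < 2 - l := by linarith
  have hr0 : 0 ≤ r := by positivity
  have hr1 : r < 1 := inv_lt_one_of_one_lt₀ (by linarith)
  have hrl : r * (2 - l) = 1 := inv_mul_cancel₀ h2.ne'
  have iter : ∀ n : ℕ, ∀ g, B g g ≤ l * r ^ n * A g g := by
    intro n
    induction n with
    | zero => simpa using hgap
    | succ n ih =>
      intro g
      have hm0 : 0 ≤ l * r ^ n := by positivity
      have hml : l * r ^ n ≤ l := mul_le_of_le_one_right hl0 (pow_le_one₀ hr0 hr1.le)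
      have h := step _ hm0 ih g
      rcases le_total (B g g) 0 with hb | hb
      · exact hb.trans (mul_nonneg (by positivity) (hA0 g))
      · have h' : (2 - l) * B g g ≤ l * r ^ n * A g g :=
          (mul_le_mul_of_nonneg_right (by linarith) hb).trans h
        have h'' := mul_le_mul_of_nonneg_left h' hr0
        rw [← mul_assoc, hrl, one_mul] at h''
        refine h''.trans_eq (by ring)
  have ht : Tendsto (fun n : ℕ => l * r ^ n * A g g) atTop (𝓝 (l * 0 * A g g)) :=
    ((tendsto_pow_atTop_nhds_zero_of_lt_one hr0 hr1).const_mul l).mul_const _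
  simpa using ge_of_tendsto' ht fun n => iter n g

variable {X : Type} [MeasurableSpace X]

/-- the diagonal form of a kernel -/
def AF0 (μ : Measure X) (w : X × X → ℝ) (g h : X → ℝ) : ℝ :=
  ∫ p : X × X, w p * (g p.1 * h p.1) ∂(μ.prod μ)

variable {μ : Measure X} [IsProbabilityMeasure μ] {w : X × X → ℝ}

theorem BF_comm (hs : ∀ x z, w (x, z) = w (z, x)) (g h : X → ℝ) : BF μ w g h = BF μ w h g := by
  unfold BF
  rw [← integral_prod_swap]
  refine integral_congr_ae (ae_of_all _ fun p => ?_)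
  simp only [Prod.fst_swap, Prod.snd_swap]
  rw [mul_comm (g p.2), show w p.swap = w p from (hs p.1 p.2).symm]

theorem dir_eq (hs : ∀ x z, w (x, z) = w (z, x)) (hi : Integrable w (μ.prod μ)) {g : X → ℝ}
    (hg : Bd g) (e : ℝ) : ∫ p : X × X, w p * (g p.1 + e * g p.2) ^ 2 ∂(μ.prod μ)
      = (1 + e ^ 2) * AF0 μ w g g + 2 * e * BF μ w g g := by
  have h1 := int_mul hi (bd_mul (bd_fst hg) (bd_fst hg))
  have h2 := int_mul hi (bd_mul (bd_snd hg) (bd_snd hg))
  have h3 := int_mul hi (bd_mul (bd_fst hg) (bd_snd hg))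
  have e2 : ∫ p : X × X, w p * (g p.2 * g p.2) ∂(μ.prod μ) = AF0 μ w g g := by
    unfold AF0
    rw [← integral_prod_swap]
    refine integral_congr_ae (ae_of_all _ fun p => ?_)
    simp only [Prod.snd_swap]
    rw [show w p.swap = w p from (hs p.1 p.2).symm]
  have e3 : ∀ p : X × X, w p * (g p.1 + e * g p.2) ^ 2 = (w p * (g p.1 * g p.1)
      + e ^ 2 * (w p * (g p.2 * g p.2))) + 2 * e * (w p * (g p.1 * g p.2)) := fun p => by ring
  simp only [e3]
  have h4 : Integrable (fun p : X × X => w p * (g p.1 * g p.1) + e ^ 2 * (w p * (g p.2 * g p.2)))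
      (μ.prod μ) := h1.add (h2.const_mul _)
  rw [integral_add h4 (h3.const_mul _), integral_add h1 (h2.const_mul _),
    integral_const_mul, integral_const_mul, e2]
  unfold AF0 BF
  ring

theorem BF_shift (hi : Integrable w (μ.prod μ)) {g h : X → ℝ} (hg : Bd g) (hh : Bd h) (s : ℝ) :
    BF μ w (fun x => g x + s) h = BF μ w g h + s * BF μ w (fun _ => 1) h := by
  unfold BF
  rw [← integral_const_mul, ← integral_add (int_mul hi (bd_mul (bd_fst hg) (bd_snd hh)))
    ((int_mul hi (bd_mul (bd_fst (bd_const 1)) (bd_snd hh))).const_mul _)]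
  refine integral_congr_ae (ae_of_all _ fun p => ?_)
  simp only
  ring

/-- bounded measurable functions of mean zero -/
def Sp (μ : Measure X) [IsProbabilityMeasure μ] {w : X × X → ℝ}
    (hi : Integrable w (μ.prod μ)) : Submodule ℝ (X → ℝ) where
  carrier := {g | Bd g ∧ BF μ w g (fun _ => 1) = 0}
  zero_mem' := ⟨bd_const 0, by simp [BF]⟩
  add_mem' := by
    rintro g h ⟨hg, hg0⟩ ⟨hh, hh0⟩
    refine ⟨bd_add hg hh, ?_⟩
    unfold BF at *
    simp only [Pi.add_apply, add_mul, mul_add]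
    rw [integral_add (int_mul hi (bd_mul (bd_fst hg) (bd_const 1)))
      (int_mul hi (bd_mul (bd_fst hh) (bd_const 1))), hg0, hh0, add_zero]
  smul_mem' := by
    rintro c g ⟨hg, hg0⟩
    refine ⟨bd_mul (bd_const c) hg, ?_⟩
    unfold BF at *
    simp only [Pi.smul_apply, smul_eq_mul, mul_assoc, mul_left_comm _ c]
    rw [integral_const_mul, hg0, mul_zero]

/-- the form `∫ w g(x) h(t(x, z))` on `Sp` -/
def form (μ : Measure X) [IsProbabilityMeasure μ] {w : X × X → ℝ}
    (hi : Integrable w (μ.prod μ)) (t : X × X → X)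
    (ht : ∀ g : X → ℝ, Bd g → Bd fun p => g (t p)) : Sp μ hi →ₗ[ℝ] Sp μ hi →ₗ[ℝ] ℝ :=
  LinearMap.mk₂ ℝ (fun g h => ∫ p : X × X, w p * (g.1 p.1 * h.1 (t p)) ∂(μ.prod μ))
    (fun g g' h => by
      simp only [Submodule.coe_add, Pi.add_apply, add_mul, mul_add]
      exact integral_add (int_mul hi (bd_mul (bd_fst g.2.1) (ht _ h.2.1)))
        (int_mul hi (bd_mul (bd_fst g'.2.1) (ht _ h.2.1))))
    (fun c g h => by
      simp only [Submodule.coe_smul, Pi.smul_apply, smul_eq_mul, mul_assoc, mul_left_comm _ c]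
      exact integral_const_mul _ _)
    (fun g h h' => by
      simp only [Submodule.coe_add, Pi.add_apply, mul_add]
      exact integral_add (int_mul hi (bd_mul (bd_fst g.2.1) (ht _ h.2.1)))
        (int_mul hi (bd_mul (bd_fst g.2.1) (ht _ h'.2.1))))
    (fun c g h => by
      simp only [Submodule.coe_smul, Pi.smul_apply, smul_eq_mul, mul_left_comm _ c]
      exact integral_const_mul _ _)

/-- the averaging operator -/
def Pm (μ : Measure X) (w : X × X → ℝ) (g : X → ℝ) (x : X) : ℝ :=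
  (∫ z, w (x, z) * g z ∂μ) / ∫ z, w (x, z) ∂μ

theorem abs_row (h0 : ∀ p, 0 ≤ w p) (hrow : ∀ x, Integrable (fun z => w (x, z)) μ) {g : X → ℝ}
    {C : ℝ} (hC : ∀ x, |g x| ≤ C) (x : X) :
    |∫ z, w (x, z) * g z ∂μ| ≤ C * ∫ z, w (x, z) ∂μ := by
  rw [← integral_const_mul, ← Real.norm_eq_abs]
  refine norm_integral_le_of_norm_le ((hrow x).const_mul C) (ae_of_all _ fun z => ?_)
  rw [norm_mul, Real.norm_of_nonneg (h0 _), mul_comm]
  exact mul_le_mul_of_nonneg_right (hC z) (h0 _)

theorem bd_Pm (hw : Measurable w) (h0 : ∀ p, 0 ≤ w p)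
    (hrow : ∀ x, Integrable (fun z => w (x, z)) μ) {g : X → ℝ} (hg : Bd g) : Bd (Pm μ w g) := by
  obtain ⟨C, hC⟩ := hg.bdd
  refine ⟨?_, C, fun x => ?_⟩
  · exact ((hw.mul (bd_snd hg).meas).stronglyMeasurable.integral_prod_right').measurable.div
      hw.stronglyMeasurable.integral_prod_right'.measurable
  · have h1 : 0 ≤ ∫ z, w (x, z) ∂μ := integral_nonneg fun z => h0 _
    unfold Pm
    rw [abs_div, abs_of_nonneg h1]
    exact div_le_of_le_mul₀ h1 ((abs_nonneg _).trans (hC x)) (abs_row h0 hrow hC x)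

theorem row_Pm (h0 : ∀ p, 0 ≤ w p) (hrow : ∀ x, Integrable (fun z => w (x, z)) μ) {g : X → ℝ}
    (hg : Bd g) (x : X) : (∫ z, w (x, z) ∂μ) * Pm μ w g x = ∫ z, w (x, z) * g z ∂μ := by
  obtain ⟨C, hC⟩ := hg.bdd
  unfold Pm
  by_cases h : ∫ z, w (x, z) ∂μ = 0
  · have := abs_row h0 hrow hC x
    rw [h, mul_zero, abs_nonpos_iff] at this
    rw [h, this, zero_mul]
  · field_simp

theorem AF0_eq (hi : Integrable w (μ.prod μ)) {g h : X → ℝ} (hg : Bd g) (hh : Bd h) :
    AF0 μ w g h = ∫ x, (∫ z, w (x, z) ∂μ) * g x * h x ∂μ := by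
  unfold AF0
  rw [integral_prod _ (int_mul hi (bd_mul (bd_fst hg) (bd_fst hh)))]
  simp only [integral_mul_const, mul_assoc]

theorem AF0_Pm (hw : Measurable w) (hs : ∀ x z, w (x, z) = w (z, x)) (h0 : ∀ p, 0 ≤ w p)
    (hi : Integrable w (μ.prod μ)) (hrow : ∀ x, Integrable (fun z => w (x, z)) μ) {g h : X → ℝ}
    (hg : Bd g) (hh : Bd h) : AF0 μ w (Pm μ w g) h = BF μ w g h := by
  rw [AF0_eq hi (bd_Pm hw h0 hrow hg) hh, BF_comm hs]
  unfold BF
  rw [integral_prod _ (int_mul hi (bd_mul (bd_fst hh) (bd_snd hg)))]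
  refine integral_congr_ae (ae_of_all _ fun x => ?_)
  simp only
  rw [row_Pm h0 hrow hg, ← integral_mul_const]
  refine integral_congr_ae (ae_of_all _ fun z => ?_)
  simp only
  ring

end AFK

open AFK in
/-- Bochner (trickle down) step -/
theorem bochner {X : Type} [MeasurableSpace X] (μ : Measure X) [IsProbabilityMeasure μ]
    {w w₀ : X × X → ℝ} (hw : Measurable w) (hw₀ : Measurable w₀)
    (hs : ∀ x z, w (x, z) = w (z, x)) (hs₀ : ∀ x z, w₀ (x, z) = w₀ (z, x))
    (h0 : ∀ p, 0 ≤ w₀ p) (hi : Integrable w₀ (μ.prod μ))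
    (hrow : ∀ x, Integrable (fun z => w₀ (x, z)) μ)
    {c C : ℝ} (hc : 0 < c) (hcmp : ∀ p, c * w₀ p ≤ w p ∧ w p ≤ C * w₀ p)
    (hpos : 0 < BF μ w₀ (fun _ => 1) fun _ => 1)
    (hyp : ∀ g, Bd g → BF μ w₀ g g * BF μ w₀ (fun _ => 1) (fun _ => 1)
      ≤ BF μ w₀ g (fun _ => 1) ^ 2)
    (trickle : ∀ g, Bd g →
      BF μ w g g ≤ ∫ x, (∫ z, w (x, z) * g z ∂μ) ^ 2 / (∫ z, w (x, z) ∂μ) ∂μ)
    {g : X → ℝ} (hg : Bd g) (hg0 : BF μ w g (fun _ => 1) = 0) : BF μ w g g ≤ 0 := by
  have w0 : ∀ p, 0 ≤ w p := fun p => (mul_nonneg hc.le (h0 p)).trans (hcmp p).1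
  have wi : Integrable w (μ.prod μ) := (hi.const_mul C).mono' hw.aestronglyMeasurable
    (ae_of_all _ fun p => by rw [Real.norm_of_nonneg (w0 p)]; exact (hcmp p).2)
  have wrow : ∀ x, Integrable (fun z => w (x, z)) μ := fun x => ((hrow x).const_mul C).mono'
    (hw.comp measurable_prodMk_left).aestronglyMeasurable
    (ae_of_all _ fun z => by rw [Real.norm_of_nonneg (w0 _)]; exact (hcmp _).2)
  set K : ℝ := max C c with hK
  have hK0 : 0 < K := hc.trans_le (le_max_right _ _)
  have hwK : ∀ p, w p ≤ K * w₀ p := fun p =>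
    (hcmp p).2.trans (mul_le_mul_of_nonneg_right (le_max_left _ _) (h0 p))
  have gap : ∀ g : X → ℝ, Bd g → BF μ w g (fun _ => 1) = 0 →
      BF μ w g g ≤ (1 - c / K) * AF0 μ w g g := by
    intro g hg hg0
    set s : ℝ := -(BF μ w₀ g (fun _ => 1) / BF μ w₀ (fun _ => 1) fun _ => 1) with hsd
    have hg' : Bd fun x => g x + s := bd_add hg (bd_const s)
    have a1 : BF μ w₀ (fun x => g x + s) (fun _ => 1) = 0 := by
      rw [BF_shift hi hg (bd_const 1), hsd]
      field_simp
      ring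
    have a2 : BF μ w₀ (fun x => g x + s) (fun x => g x + s) ≤ 0 := by
      have := hyp _ hg'
      rw [a1] at this
      nlinarith
    have a3 := dir_eq hs₀ hi hg' (-1)
    have a4 := dir_eq hs wi hg (-1)
    have hd : Bd fun p : X × X => (g p.1 + -1 * g p.2) ^ 2 := by
      have := bd_add (bd_fst hg) (bd_mul (bd_const (-1)) (bd_snd hg))
      simpa only [sq] using bd_mul this this
    have a5 : c * ∫ p : X × X, w₀ p * (g p.1 + s + -1 * (g p.2 + s)) ^ 2 ∂(μ.prod μ)
        ≤ ∫ p : X × X, w p * (g p.1 + -1 * g p.2) ^ 2 ∂(μ.prod μ) := by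
      have e : ∀ p : X × X, g p.1 + s + -1 * (g p.2 + s) = g p.1 + -1 * g p.2 := fun p => by ring
      simp only [e]
      rw [← integral_const_mul]
      refine integral_mono ((int_mul hi hd).const_mul c) (int_mul wi hd) fun p => ?_
      simp only
      rw [← mul_assoc]
      exact mul_le_mul_of_nonneg_right (hcmp p).1 (sq_nonneg _)
    have a6 : AF0 μ w (fun x => g x + s) (fun x => g x + s)
        ≤ K * AF0 μ w₀ (fun x => g x + s) (fun x => g x + s) := by
      unfold AF0
      rw [← integral_const_mul]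
      have hb := bd_mul (bd_fst hg') (bd_fst hg')
      refine integral_mono (int_mul wi hb) ((int_mul hi hb).const_mul K) fun p => ?_
      simp only
      rw [← mul_assoc K]
      exact mul_le_mul_of_nonneg_right (hwK p) (mul_self_nonneg _)
    have a7 : AF0 μ w g g ≤ AF0 μ w (fun x => g x + s) (fun x => g x + s) := by
      have hb := int_mul wi (bd_mul (bd_fst hg') (bd_fst hg'))
      have h1 := int_mul wi (bd_mul (bd_fst hg) (bd_fst hg))
      have h2 := (int_mul wi (bd_mul (bd_fst hg) (bd_const 1))).const_mul (2 * s)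
      have e : AF0 μ w g g = ∫ p : X × X, (w p * (g p.1 * g p.1) + 2 * s * (w p * (g p.1 * 1)))
          ∂(μ.prod μ) := by
        rw [integral_add h1 h2, integral_const_mul]
        unfold BF at hg0
        rw [hg0, mul_zero, add_zero]
        rfl
      rw [e]
      refine integral_mono (h1.add h2) hb fun p => ?_
      simp only
      nlinarith [mul_nonneg (w0 p) (mul_self_nonneg s)]
    rw [a3, a4] at a5
    have a8 : c / K * AF0 μ w g g ≤ c * AF0 μ w₀ (fun x => g x + s) (fun x => g x + s) := by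
      rw [div_mul_eq_mul_div, div_le_iff₀ hK0]
      nlinarith [mul_le_mul_of_nonneg_left (a7.trans a6) hc.le]
    nlinarith [mul_nonneg hc.le (neg_nonneg.2 a2)]
  let P : Sp μ wi → Sp μ wi := fun g => ⟨Pm μ w g.1, bd_Pm hw w0 wrow g.2.1,
    (AF0_Pm hw hs w0 wi wrow g.2.1 (bd_const 1)).trans g.2.2⟩
  refine abstract (form μ wi Prod.fst fun _ => bd_fst) (form μ wi Prod.snd fun _ => bd_snd)
    (fun g h => ?_) (fun g h => BF_comm hs g.1 h.1) P
    (fun g h => AF0_Pm hw hs w0 wi wrow g.2.1 h.2.1) (fun g => ?_) (fun g => ?_) (fun g => ?_)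
    (l := 1 - c / K) ?_ ?_ (fun g => gap g.1 g.2.1 g.2.2) ⟨g, hg, hg0⟩
  · change AF0 μ w g.1 h.1 = AF0 μ w h.1 g.1
    unfold AF0
    simp only [mul_comm (g.1 _)]
  · change BF μ w g.1 g.1 ≤ AF0 μ w (Pm μ w g.1) (Pm μ w g.1)
    have hb := bd_Pm hw w0 wrow g.2.1
    rw [AF0_eq wi hb hb]
    refine (trickle _ g.2.1).trans_eq (integral_congr_ae (ae_of_all _ fun x => ?_))
    simp only
    rw [row_Pm w0 wrow g.2.1, sq, mul_div_assoc]
    rfl
  · exact integral_nonneg fun p => mul_nonneg (w0 p) (mul_self_nonneg _)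
  · change 0 ≤ AF0 μ w g.1 g.1 + BF μ w g.1 g.1
    have h := dir_eq hs wi g.2.1 1
    have h' : 0 ≤ ∫ p : X × X, w p * (g.1 p.1 + 1 * g.1 p.2) ^ 2 ∂(μ.prod μ) :=
      integral_nonneg fun p => mul_nonneg (w0 p) (sq_nonneg _)
    rw [h] at h'
    linarith
  · rw [sub_nonneg, div_le_one hK0]
    exact le_max_right _ _
  · have := div_pos hc hK0
    linarith

end Pool.Agent.P.MP_181257_gt
end
end

-- part Pool.Agent.P.MP_181257_gt.AF
section

/-! Alexandrov-Fenchel inequality for zonoids with bounded densities. -/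

set_option autoImplicit false
set_option linter.unusedSectionVars false

open MeasureTheory ProbabilityTheory Module Set Filter Topology
open scoped RealInnerProductSpace ENNReal Pointwise Matrix

noncomputable section

namespace Pool.Agent.P.MP_181257_gt

variable {V : Type} [NormedAddCommGroup V] [InnerProductSpace ℝ V] [FiniteDimensional ℝ V]
  [MeasurableSpace V] [BorelSpace V]

theorem af_mp_integral {A B : Type} [MeasurableSpace A] [MeasurableSpace B] {μ : Measure A}
    {ν : Measure B} {T : A → B} (h : MeasurePreserving T μ ν) {f : B → ℝ}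
    (hf : AEStronglyMeasurable f ν) : ∫ a, f (T a) ∂μ = ∫ b, f b ∂ν := by
  rw [← h.map_eq] at hf ⊢
  rw [integral_map h.measurable.aemeasurable hf]

theorem af_measurable {k : ℕ} (T : V →L[ℝ] V) {g : Fin k → V → ℝ} (hg : ∀ j, Bd (g j)) :
    Measurable fun x : Fin k → V => D (fun j => T (x j)) * ∏ j, g j (x j) := by
  refine Measurable.mul (by fun_prop) (Finset.measurable_prod _ fun j _ => ?_)
  exact (hg j).meas.comp (measurable_pi_apply j)

theorem integrable_D {k : ℕ} (T : V →L[ℝ] V) (hT : ∀ x, ‖T x‖ ≤ ‖x‖) {g : Fin k → V → ℝ}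
    (hg : ∀ j, Bd (g j)) :
    Integrable (fun x : Fin k → V => D (fun j => T (x j)) * ∏ j, g j (x j)) (γk V k) := by
  choose C hC using fun j => (hg j).bdd
  refine Integrable.mono' ((integrable_prod_norm_pow (V := V) k 1).mul_const (∏ j, C j))
    (af_measurable T hg).aestronglyMeasurable (ae_of_all _ fun x => ?_)
  rw [Real.norm_eq_abs, abs_mul, abs_of_nonneg (D_nonneg _), Finset.abs_prod]
  refine mul_le_mul ((D_le_prod _).trans ?_) ?_ (by positivity) (by positivity)
  · exact Finset.prod_le_prod (fun _ _ => norm_nonneg _) fun j _ => by simpa using hT _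
  · exact Finset.prod_le_prod (fun _ _ => abs_nonneg _) fun j _ => hC j _

/-- mixed volume of projected zonoids -/
def II {k : ℕ} (T : V →L[ℝ] V) (g : Fin k → V → ℝ) : ℝ :=
  ∫ x, D (fun j => T (x j)) * ∏ j, g j (x j) ∂(γk V k)

/-- the projection in the link of `a` -/
def lk (T : V →L[ℝ] V) (a : V) : V →L[ℝ] V := (prL (T a)).comp T

@[simp] theorem lk_apply (T : V →L[ℝ] V) (a x : V) : lk T a x = pr (T a) (T x) := by simp [lk]

/-- `T` is a contraction that fixes a subspace of dimension at least `k` -/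
structure Ex (T : V →L[ℝ] V) (k : ℕ) : Prop where
  le : ∀ x, ‖T x‖ ≤ ‖x‖
  fix : ∃ U : Submodule ℝ V, k ≤ finrank ℝ U ∧ ∀ u ∈ U, T u = u

theorem lk_le {T : V →L[ℝ] V} (hT : ∀ x, ‖T x‖ ≤ ‖x‖) (a x : V) : ‖lk T a x‖ ≤ ‖x‖ := by
  rw [lk_apply]; exact (norm_pr_le _ _).trans (hT x)

theorem Ex.lk {T : V →L[ℝ] V} {k : ℕ} (h : Ex T (k + 1)) (a : V) : Ex (lk T a) k := by
  obtain ⟨U, hU, hfix⟩ := h.fix
  refine ⟨lk_le h.le a, U ⊓ (ℝ ∙ T a)ᗮ, ?_, fun u hu => ?_⟩
  · have h1 := Submodule.finrank_sup_add_finrank_inf_eq U (ℝ ∙ T a)ᗮ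
    have h2 := Submodule.finrank_le (U ⊔ (ℝ ∙ T a)ᗮ)
    have h3 := Submodule.finrank_add_finrank_orthogonal (ℝ ∙ T a)
    have h4 : finrank ℝ (ℝ ∙ T a) ≤ 1 := by
      simpa using finrank_span_le_card (R := ℝ) ({T a} : Set V)
    omega
  · rw [lk_apply, hfix u hu.1]
    exact pr_of_inner_eq_zero (Submodule.mem_orthogonal_singleton_iff_inner_right.1 hu.2)

theorem Ex.mono {T : V →L[ℝ] V} {k l : ℕ} (h : Ex T k) (hl : l ≤ k) : Ex T l := by
  obtain ⟨U, hU, hfix⟩ := h.fix
  exact ⟨h.le, U, hl.trans hU, hfix⟩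

theorem integrable_norm_T {T : V →L[ℝ] V} (hT : ∀ x, ‖T x‖ ≤ ‖x‖) :
    Integrable (fun x => ‖T x‖) (stdGaussian V) :=
  Integrable.mono' (integrable_norm_pow (V := V) 1) (by fun_prop)
    (ae_of_all _ fun x => by simpa using hT x)

theorem Ex.c0_le {T : V →L[ℝ] V} (h : Ex T 1) : c0 ≤ ∫ x, ‖T x‖ ∂(stdGaussian V) := by
  obtain ⟨U, hU, hfix⟩ := h.fix
  have : Nontrivial U := finrank_pos_iff.1 hU
  obtain ⟨v, hv⟩ := exists_ne (0 : U)
  have hv' : (v : V) ≠ 0 := fun e => hv (Subtype.ext e)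
  set u : V := ‖(v : V)‖⁻¹ • (v : V) with hu
  have hu1 : ‖u‖ = 1 := norm_smul_inv_norm hv'
  have huT : T u = u := hfix u (U.smul_mem _ v.2)
  set w : V := ContinuousLinearMap.adjoint T u with hw
  have hw1 : 1 ≤ ‖w‖ := by
    have h1 : ⟪w, u⟫ = 1 := by
      rw [hw, ContinuousLinearMap.adjoint_inner_left, huT, real_inner_self_eq_norm_sq, hu1]; simp
    have h2 := real_inner_le_norm w u
    rw [h1, hu1, mul_one] at h2
    exact h2
  calc c0 ≤ c0 * ‖w‖ := le_mul_of_one_le_right c0_pos.le hw1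
    _ = ∫ x, |⟪w, x⟫| ∂(stdGaussian V) := (integral_abs_inner w).symm
    _ ≤ _ := by
      refine integral_mono (integrable_abs_inner w) (integrable_norm_T h.le) fun x => ?_
      have := abs_real_inner_le_norm u (T x)
      rw [hu1, one_mul] at this
      simpa [hw, ContinuousLinearMap.adjoint_inner_left] using this

theorem II_perm {k : ℕ} (T : V →L[ℝ] V) {g : Fin k → V → ℝ} (hg : ∀ j, Bd (g j))
    (σ : Equiv.Perm (Fin k)) : II T (fun j => g (σ j)) = II T g := by
  unfold II
  rw [← af_mp_integral (mp_perm (stdGaussian V) σ)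
    (af_measurable T (g := fun j => g (σ j)) fun j => hg _).aestronglyMeasurable]
  congr 1
  ext x
  rw [D_perm (fun j => T (x j)) σ, Equiv.prod_comp σ fun j => g j (x j)]

theorem bd_cons {k : ℕ} {a : V → ℝ} {g : Fin k → V → ℝ} (ha : Bd a) (hg : ∀ j, Bd (g j)) :
    ∀ j, Bd ((Fin.cons a g : Fin (k + 1) → V → ℝ) j) :=
  Fin.cases ha hg

theorem pos_cons {k : ℕ} {a : V → ℝ} {g : Fin k → V → ℝ} (ha : Pos a) (hg : ∀ j, Pos (g j)) :
    ∀ j, Pos ((Fin.cons a g : Fin (k + 1) → V → ℝ) j) :=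
  Fin.cases ha hg

theorem II_cons_aux {k : ℕ} (T : V →L[ℝ] V) (a : V → ℝ) (g : Fin k → V → ℝ) (x : V)
    (y : Fin k → V) :
    D (fun j => T ((Fin.cons x y : Fin (k + 1) → V) j))
        * ∏ j, (Fin.cons a g : Fin (k + 1) → V → ℝ) j ((Fin.cons x y : Fin (k + 1) → V) j)
      = a x * (‖T x‖ * (D (fun j => lk T x (y j)) * ∏ j, g j (y j))) := by
  rw [D_succ, Fin.prod_univ_succ]
  simp only [Fin.cons_zero, Fin.cons_succ, lk_apply]
  ring

theorem II_cons {k : ℕ} {T : V →L[ℝ] V} (hT : ∀ x, ‖T x‖ ≤ ‖x‖) {a : V → ℝ} {g : Fin k → V → ℝ}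
    (ha : Bd a) (hg : ∀ j, Bd (g j)) :
    Integrable (fun x => a x * (‖T x‖ * II (lk T x) g)) (stdGaussian V) ∧
      II T (Fin.cons a g : Fin (k + 1) → V → ℝ)
        = ∫ x, a x * (‖T x‖ * II (lk T x) g) ∂(stdGaussian V) := by
  have hi := integrable_D T hT (bd_cons ha hg)
  have hi2 := (mp_cons (k := k) (stdGaussian V)).integrable_comp_of_integrable hi
  have e : ∀ x : V, ∫ y : Fin k → V, a x * (‖T x‖ * (D (fun j => lk T x (y j)) * ∏ j, g j (y j)))
      ∂(γk V k) = a x * (‖T x‖ * II (lk T x) g) := fun x => by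
    rw [integral_const_mul, integral_const_mul]; rfl
  have hi3 : Integrable (fun q : V × (Fin k → V) =>
      a q.1 * (‖T q.1‖ * (D (fun j => lk T q.1 (q.2 j)) * ∏ j, g j (q.2 j))))
      ((stdGaussian V).prod (γk V k)) := by
    refine hi2.congr (ae_of_all _ fun q => ?_)
    exact II_cons_aux T a g q.1 q.2
  refine ⟨by simpa only [e] using hi3.integral_prod_left, ?_⟩
  unfold II
  rw [← af_mp_integral (mp_cons (k := k) (stdGaussian V)) hi.aestronglyMeasurable]
  simp only [II_cons_aux]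
  rw [integral_prod _ hi3]
  exact congrArg _ (funext e)

theorem bd_one : Bd fun _ : V => (1 : ℝ) := (Den.one (V := V)).toPos.bd

theorem II_nonneg {k : ℕ} (T : V →L[ℝ] V) {g : Fin k → V → ℝ} (hg : ∀ j, Pos (g j)) :
    0 ≤ II T g :=
  integral_nonneg fun _ => mul_nonneg (D_nonneg _)
    (Finset.prod_nonneg fun j _ => ((hg j).pos _).le)

theorem II_one_ge : ∀ (k : ℕ) {T : V →L[ℝ] V}, Ex T k →
    c0 ^ k ≤ II T fun (_ : Fin k) (_ : V) => (1 : ℝ)
  | 0, T, _ => by simp [II]
  | k + 1, T, h => by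
    have e : (fun (_ : Fin (k + 1)) (_ : V) => (1 : ℝ))
        = Fin.cons (fun _ => 1) fun (_ : Fin k) (_ : V) => (1 : ℝ) := by
      ext j; refine Fin.cases ?_ (fun j => ?_) j <;> simp
    obtain ⟨hi, he⟩ := II_cons (k := k) h.le bd_one (g := fun _ _ => 1) fun _ => bd_one
    rw [e, he]
    calc c0 ^ (k + 1) = c0 * c0 ^ k := by ring
      _ ≤ (∫ x, ‖T x‖ ∂(stdGaussian V)) * c0 ^ k :=
        mul_le_mul_of_nonneg_right (h.mono (by omega)).c0_le (pow_pos c0_pos k).le
      _ = ∫ x, ‖T x‖ * c0 ^ k ∂(stdGaussian V) := (integral_mul_const _ _).symm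
      _ ≤ _ := by
        refine integral_mono ((integrable_norm_T h.le).mul_const _) hi fun x => ?_
        simp only [one_mul]
        exact mul_le_mul_of_nonneg_left (II_one_ge k (h.lk x)) (norm_nonneg _)

theorem II_bounds {k : ℕ} {g : Fin k → V → ℝ} (hg : ∀ j, Pos (g j)) :
    ∃ c C : ℝ, 0 < c ∧ ∀ T : V →L[ℝ] V, Ex T k → c ≤ II T g ∧ II T g ≤ C := by
  choose c C hc h using fun j => (hg j).bdd
  have hcp : 0 < ∏ j, c j := Finset.prod_pos fun j _ => hc j
  refine ⟨c0 ^ k * ∏ j, c j, (∫ x, ∏ j, ‖x j‖ ^ 1 ∂(γk V k)) * ∏ j, C j,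
    mul_pos (pow_pos c0_pos k) hcp, fun T hT => ⟨?_, ?_⟩⟩
  · refine (mul_le_mul_of_nonneg_right (II_one_ge k hT) hcp.le).trans ?_
    unfold II
    rw [← integral_mul_const]
    refine integral_mono ((integrable_D T hT.le fun _ => bd_one).mul_const _)
      (integrable_D T hT.le fun j => (hg j).bd) fun x => ?_
    simp only [Finset.prod_const_one, mul_one]
    exact mul_le_mul_of_nonneg_left
      (Finset.prod_le_prod (fun j _ => (hc j).le) fun j _ => (h j _).1) (D_nonneg _)
  · unfold II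
    rw [← integral_mul_const]
    refine integral_mono (integrable_D T hT.le fun j => (hg j).bd)
      ((integrable_prod_norm_pow k 1).mul_const _) fun x => ?_
    refine mul_le_mul ((D_le_prod _).trans ?_) ?_
      (Finset.prod_nonneg fun j _ => ((hg j).pos _).le) (by positivity)
    · exact Finset.prod_le_prod (fun _ _ => norm_nonneg _) fun j _ => by simpa using hT.le _
    · exact Finset.prod_le_prod (fun j _ => ((hg j).pos _).le) fun j _ => (h j _).2

/-- the kernel of the quadratic form in the first two slots -/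
def om {k : ℕ} (T : V →L[ℝ] V) (g : Fin k → V → ℝ) (p : V × V) : ℝ :=
  ∫ y, D (fun j => T ((Fin.cons p.1 (Fin.cons p.2 y : Fin (k + 1) → V) : Fin (k + 2) → V) j))
    * ∏ j, g j (y j) ∂(γk V k)

theorem om_eq {k : ℕ} (T : V →L[ℝ] V) (g : Fin k → V → ℝ) (x z : V) :
    om T g (x, z) = ‖T x‖ * (‖lk T x z‖ * II (lk (lk T x) z) g) := by
  unfold om II
  rw [← integral_const_mul, ← integral_const_mul]
  congr 1
  ext y
  rw [D_succ, D_succ]
  simp only [Fin.cons_zero, Fin.cons_succ, lk_apply]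
  ring

theorem om_eq' {k : ℕ} (T : V →L[ℝ] V) (g : Fin k → V → ℝ) (x z : V) :
    om T g (x, z) = D ![T x, T z] * II (lk (lk T x) z) g := by
  rw [om_eq, D_two, lk_apply, mul_assoc]

theorem om_symm {k : ℕ} (T : V →L[ℝ] V) (g : Fin k → V → ℝ) (x z : V) :
    om T g (x, z) = om T g (z, x) := by
  unfold om
  congr 1
  ext y
  congr 1
  have e : ∀ a b : V, (fun j => T ((Fin.cons a (Fin.cons b y : Fin (k + 1) → V) :
      Fin (k + 2) → V) j)) = Fin.cons (T a) (Fin.cons (T b) fun j => T (y j) : Fin (k + 1) → V) := by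
    intro a b
    ext j
    refine Fin.cases ?_ (fun j => Fin.cases ?_ (fun j => ?_) j) j <;> simp
  rw [e, e, D_swap]

theorem measurable_om {k : ℕ} (T : V →L[ℝ] V) {g : Fin k → V → ℝ} (hg : ∀ j, Bd (g j)) :
    Measurable (om T g) := by
  unfold om
  refine (StronglyMeasurable.integral_prod_right (f := fun (p : V × V) (y : Fin k → V) =>
    D (fun j => T ((Fin.cons p.1 (Fin.cons p.2 y : Fin (k + 1) → V) : Fin (k + 2) → V) j))
      * ∏ j, g j (y j)) (Measurable.stronglyMeasurable ?_)).measurable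
  refine Measurable.mul (measurable_D (measurable_pi_lambda _ fun j => ?_))
    (Finset.measurable_prod _ fun j _ => ?_)
  · refine Fin.cases ?_ (fun j => Fin.cases ?_ (fun j => ?_) j) j <;>
      simp only [Fin.cons_zero, Fin.cons_succ] <;> fun_prop
  · exact (hg j).meas.comp ((measurable_pi_apply j).comp measurable_snd)

theorem D2_le {T : V →L[ℝ] V} (hT : ∀ x, ‖T x‖ ≤ ‖x‖) (x z : V) :
    D ![T x, T z] ≤ ‖x‖ * ‖z‖ := by
  rw [D_two]
  exact mul_le_mul (hT x) ((norm_pr_le _ _).trans (hT z)) (norm_nonneg _) (norm_nonneg _)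

theorem measurable_D2 (T : V →L[ℝ] V) : Measurable fun p : V × V => D ![T p.1, T p.2] := by
  simp only [D_two]
  fun_prop

theorem integrable_D2 {T : V →L[ℝ] V} (hT : ∀ x, ‖T x‖ ≤ ‖x‖) :
    Integrable (fun p : V × V => D ![T p.1, T p.2]) ((stdGaussian V).prod (stdGaussian V)) := by
  refine Integrable.mono' ((integrable_norm_pow (V := V) 1).mul_prod (integrable_norm_pow 1))
    (measurable_D2 T).aestronglyMeasurable (ae_of_all _ fun p => ?_)
  rw [Real.norm_eq_abs, abs_of_nonneg (D_nonneg _)]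
  simpa using D2_le hT p.1 p.2

theorem integrable_D2_row {T : V →L[ℝ] V} (hT : ∀ x, ‖T x‖ ≤ ‖x‖) (x : V) :
    Integrable (fun z : V => D ![T x, T z]) (stdGaussian V) := by
  refine Integrable.mono' ((integrable_norm_pow (V := V) 1).const_mul ‖x‖)
    ((measurable_D2 T).comp measurable_prodMk_left).aestronglyMeasurable (ae_of_all _ fun z => ?_)
  rw [Real.norm_eq_abs, abs_of_nonneg (D_nonneg _)]
  simpa using D2_le hT x z

theorem om_bounds {k : ℕ} {T : V →L[ℝ] V} (hT : Ex T (k + 2)) {g : Fin k → V → ℝ}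
    (hg : ∀ j, Pos (g j)) : ∃ c C : ℝ, 0 < c ∧
      ∀ p : V × V, c * D ![T p.1, T p.2] ≤ om T g p ∧ om T g p ≤ C * D ![T p.1, T p.2] := by
  obtain ⟨c, C, hc, h⟩ := II_bounds hg
  refine ⟨c, C, hc, fun ⟨x, z⟩ => ?_⟩
  have := h _ ((hT.lk x).lk z)
  rw [om_eq', mul_comm c, mul_comm C]
  exact ⟨mul_le_mul_of_nonneg_left this.1 (D_nonneg _),
    mul_le_mul_of_nonneg_left this.2 (D_nonneg _)⟩

theorem integrable_om {k : ℕ} {T : V →L[ℝ] V} (hT : Ex T (k + 2)) {g : Fin k → V → ℝ}
    (hg : ∀ j, Pos (g j)) : Integrable (om T g) ((stdGaussian V).prod (stdGaussian V)) := by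
  obtain ⟨c, C, hc, h⟩ := om_bounds hT hg
  refine Integrable.mono' ((integrable_D2 hT.le).const_mul C)
    (measurable_om T fun j => (hg j).bd).aestronglyMeasurable (ae_of_all _ fun p => ?_)
  rw [Real.norm_eq_abs, abs_of_nonneg ((mul_nonneg hc.le (D_nonneg _)).trans (h p).1)]
  exact (h p).2

theorem integrable_BF {w : V × V → ℝ} (hw : Integrable w ((stdGaussian V).prod (stdGaussian V)))
    {a b : V → ℝ} (ha : Bd a) (hb : Bd b) :
    Integrable (fun p : V × V => w p * (a p.1 * b p.2)) ((stdGaussian V).prod (stdGaussian V)) := by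
  obtain ⟨A, hA⟩ := ha.bdd
  obtain ⟨B, hB⟩ := hb.bdd
  refine hw.mul_bdd (c := A * B) ((ha.meas.comp measurable_fst).mul
    (hb.meas.comp measurable_snd)).aestronglyMeasurable (ae_of_all _ fun p => ?_)
  rw [Real.norm_eq_abs, abs_mul]
  exact mul_le_mul (hA _) (hB _) (abs_nonneg _) ((abs_nonneg _).trans (hA p.1))

theorem row_om {k : ℕ} {T : V →L[ℝ] V} (hT : ∀ x, ‖T x‖ ≤ ‖x‖) {g : Fin k → V → ℝ}
    (hg : ∀ j, Bd (g j)) {b : V → ℝ} (hb : Bd b) (x : V) :
    ∫ z, om T g (x, z) * b z ∂(stdGaussian V)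
      = ‖T x‖ * II (lk T x) (Fin.cons b g : Fin (k + 1) → V → ℝ) := by
  rw [(II_cons (lk_le hT x) hb hg).2, ← integral_const_mul]
  congr 1
  ext z
  rw [om_eq]
  ring

theorem II_eq_BF {k : ℕ} {T : V →L[ℝ] V} (hT : Ex T (k + 2)) {g : Fin k → V → ℝ}
    (hg : ∀ j, Pos (g j)) {a b : V → ℝ} (ha : Bd a) (hb : Bd b) :
    II T (Fin.cons a (Fin.cons b g : Fin (k + 1) → V → ℝ) : Fin (k + 2) → V → ℝ)
      = BF (stdGaussian V) (om T g) a b := by
  rw [(II_cons hT.le ha (bd_cons hb fun j => (hg j).bd)).2, BF,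
    integral_prod _ (integrable_BF (integrable_om hT hg) ha hb)]
  congr 1
  ext x
  rw [← row_om hT.le (fun j => (hg j).bd) hb x, ← integral_const_mul]
  congr 1
  ext z
  ring

theorem Bd.sub_mul {a b : V → ℝ} (ha : Bd a) (hb : Bd b) (s : ℝ) : Bd fun x => a x - s * b x := by
  obtain ⟨A, hA⟩ := ha.bdd
  obtain ⟨B, hB⟩ := hb.bdd
  refine ⟨ha.meas.sub (hb.meas.const_mul s), A + |s| * B, fun x => ?_⟩
  refine (abs_sub _ _).trans (add_le_add (hA x) ?_)
  rw [abs_mul]
  exact mul_le_mul_of_nonneg_left (hB x) (abs_nonneg s)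

theorem Bd.mul {a b : V → ℝ} (ha : Bd a) (hb : Bd b) : Bd fun x => a x * b x := by
  obtain ⟨A, hA⟩ := ha.bdd
  obtain ⟨B, hB⟩ := hb.bdd
  refine ⟨ha.meas.mul hb.meas, A * B, fun x => ?_⟩
  rw [abs_mul]
  exact mul_le_mul (hA _) (hB _) (abs_nonneg _) ((abs_nonneg _).trans (hA x))

theorem Bd.div {a b : V → ℝ} (ha : Bd a) (hb : Pos b) : Bd fun x => a x / b x := by
  obtain ⟨A, hA⟩ := ha.bdd
  obtain ⟨c, C, hc, h⟩ := hb.bdd
  refine ⟨ha.meas.div hb.meas, A / c, fun x => ?_⟩
  rw [abs_div, abs_of_pos (hb.pos x)]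
  exact div_le_div₀ ((abs_nonneg _).trans (hA x)) (hA x) hc (h x).1

theorem BF_symm {w : V × V → ℝ} (hs : ∀ x z, w (x, z) = w (z, x)) (a b : V → ℝ) :
    BF (stdGaussian V) w a b = BF (stdGaussian V) w b a := by
  unfold BF
  rw [← integral_prod_swap]
  congr 1
  ext ⟨x, z⟩
  simp only [Prod.swap_prod_mk]
  rw [hs z x, mul_comm (a z)]

theorem BF_sub_left {w : V × V → ℝ} (hw : Integrable w ((stdGaussian V).prod (stdGaussian V)))
    {a b c : V → ℝ} (ha : Bd a) (hb : Bd b) (hc : Bd c) (s : ℝ) :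
    BF (stdGaussian V) w (fun x => a x - s * b x) c
      = BF (stdGaussian V) w a c - s * BF (stdGaussian V) w b c := by
  unfold BF
  rw [← integral_const_mul, ← integral_sub (integrable_BF hw ha hc)
    ((integrable_BF hw hb hc).const_mul s)]
  congr 1
  ext p
  ring

/-- negative on a hyperplane implies the reverse Cauchy-Schwarz inequality -/
theorem hyp_of_neg {w : V × V → ℝ} (hw : Integrable w ((stdGaussian V).prod (stdGaussian V)))
    (hs : ∀ x z, w (x, z) = w (z, x)) (ℓ : (V → ℝ) → ℝ) {ξ η : V → ℝ} (hξ : Bd ξ) (hη : Bd η)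
    (hℓ : ∀ s, ℓ (fun x => ξ x - s * η x) = ℓ ξ - s * ℓ η) (h0 : ℓ η ≠ 0)
    (hη0 : 0 ≤ BF (stdGaussian V) w η η)
    (neg : ∀ ζ, Bd ζ → ℓ ζ = 0 → BF (stdGaussian V) w ζ ζ ≤ 0) :
    BF (stdGaussian V) w ξ ξ * BF (stdGaussian V) w η η ≤ BF (stdGaussian V) w ξ η ^ 2 := by
  set s := ℓ ξ / ℓ η
  have hz := hξ.sub_mul hη s
  have h1 := neg _ hz (by rw [hℓ]; simp only [s]; field_simp; ring)
  rw [BF_sub_left hw hξ hη hz, BF_symm hs ξ, BF_symm hs η, BF_sub_left hw hξ hη hξ,
    BF_sub_left hw hξ hη hη, BF_symm hs η ξ] at h1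
  nlinarith [mul_nonneg hη0 (neg_nonneg.2 h1),
    sq_nonneg (BF (stdGaussian V) w ξ η - s * BF (stdGaussian V) w η η)]

theorem hyp_base {T : V →L[ℝ] V} (hT : Ex T 1) {ξ η : V → ℝ} (hξ : Bd ξ) (hη : Pos η) :
    BF (stdGaussian V) (fun p => D ![T p.1, T p.2]) ξ ξ
        * BF (stdGaussian V) (fun p => D ![T p.1, T p.2]) η η
      ≤ BF (stdGaussian V) (fun p => D ![T p.1, T p.2]) ξ η ^ 2 := by
  have hi := integrable_norm_T hT.le
  have hm : ∀ {a : V → ℝ}, Bd a → Integrable (fun x => ‖T x‖ * a x) (stdGaussian V) := by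
    intro a ha
    obtain ⟨A, hA⟩ := ha.bdd
    exact hi.mul_bdd ha.meas.aestronglyMeasurable (ae_of_all _ hA)
  refine hyp_of_neg (integrable_D2 hT.le) (fun x z => D_swap _ _ _)
    (fun a => ∫ x, ‖T x‖ * a x ∂(stdGaussian V)) hξ hη.bd (fun s => ?_) ?_ ?_ fun ζ hζ h => ?_
  · rw [← integral_const_mul, ← integral_sub (hm hξ) ((hm hη.bd).const_mul s)]
    congr 1
    ext x
    ring
  · obtain ⟨c, C, hc, h⟩ := hη.bdd
    refine ne_of_gt (lt_of_lt_of_le (mul_pos c0_pos hc) ?_)
    refine (mul_le_mul_of_nonneg_right hT.c0_le hc.le).trans ?_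
    rw [← integral_mul_const]
    exact integral_mono (hi.mul_const c) (hm hη.bd) fun x =>
      mul_le_mul_of_nonneg_left (h x).1 (norm_nonneg _)
  · exact integral_nonneg fun p => mul_nonneg (D_nonneg _) (mul_pos (hη.pos _) (hη.pos _)).le
  · exact ker_neg (stdGaussian V) (v := fun x => T x) (by fun_prop) hi hζ h

theorem om_zero (T : V →L[ℝ] V) (g : Fin 0 → V → ℝ) : om T g = fun p => D ![T p.1, T p.2] := by
  ext ⟨x, z⟩
  rw [om_eq']
  simp [II]

theorem integrable_trickle {w : V × V → ℝ} (hm : Measurable w)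
    (hw : Integrable w ((stdGaussian V).prod (stdGaussian V))) (h0 : ∀ p, 0 ≤ w p)
    {g : V → ℝ} (hg : Bd g) :
    Integrable (fun x => (∫ z, w (x, z) * g z ∂(stdGaussian V)) ^ 2
      / ∫ z, w (x, z) ∂(stdGaussian V)) (stdGaussian V) := by
  obtain ⟨A, hA⟩ := hg.bdd
  have m1 : Measurable fun x => ∫ z, w (x, z) * g z ∂(stdGaussian V) :=
    (StronglyMeasurable.integral_prod_right (f := fun x z => w (x, z) * g z)
      (hm.mul (hg.meas.comp measurable_snd)).stronglyMeasurable).measurable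
  have m2 : Measurable fun x => ∫ z, w (x, z) ∂(stdGaussian V) :=
    (StronglyMeasurable.integral_prod_right (f := fun x z => w (x, z))
      hm.stronglyMeasurable).measurable
  refine Integrable.mono' (hw.integral_prod_left.const_mul (A ^ 2))
    ((m1.pow_const 2).div m2).aestronglyMeasurable ?_
  filter_upwards [hw.prod_right_ae] with x hx
  have hW : 0 ≤ ∫ z, w (x, z) ∂(stdGaussian V) := integral_nonneg fun z => h0 _
  have h1 : |∫ z, w (x, z) * g z ∂(stdGaussian V)| ≤ A * ∫ z, w (x, z) ∂(stdGaussian V) := by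
    rw [← integral_const_mul, ← Real.norm_eq_abs]
    refine norm_integral_le_of_norm_le (hx.const_mul A) (ae_of_all _ fun z => ?_)
    rw [Real.norm_eq_abs, abs_mul, abs_of_nonneg (h0 _), mul_comm]
    exact mul_le_mul_of_nonneg_right (hA z) (h0 _)
  rw [Real.norm_eq_abs, abs_of_nonneg (by positivity)]
  refine div_le_of_le_mul₀ hW (by positivity) ?_
  have := pow_le_pow_left₀ (abs_nonneg _) h1 2
  rw [sq_abs] at this
  nlinarith

theorem hyp : ∀ (r : ℕ) {T : V →L[ℝ] V}, Ex T (r + 2) → ∀ {g : Fin r → V → ℝ},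
    (∀ j, Pos (g j)) → ∀ {ξ η : V → ℝ}, Bd ξ → Pos η →
    BF (stdGaussian V) (om T g) ξ ξ * BF (stdGaussian V) (om T g) η η
      ≤ BF (stdGaussian V) (om T g) ξ η ^ 2
  | 0, T, hT, g, _, ξ, η, hξ, hη => by
    rw [om_zero]; exact hyp_base (hT.mono (by omega)) hξ hη
  | r + 1, T, hT, g, hg, ξ, η, hξ, hη => by
    obtain ⟨m, g', rfl⟩ : ∃ (m : V → ℝ) (g' : Fin r → V → ℝ), g = Fin.cons m g' :=
      ⟨g 0, Fin.tail g, (Fin.cons_self_tail g).symm⟩
    have hm : Pos m := hg 0
    have hg' : ∀ j, Pos (g' j) := fun j => hg j.succ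
    have hb : ∀ j, Bd ((Fin.cons m g' : Fin (r + 1) → V → ℝ) j) := fun j => (hg j).bd
    set ω := om T (Fin.cons m g' : Fin (r + 1) → V → ℝ) with hω
    have hωi : Integrable ω ((stdGaussian V).prod (stdGaussian V)) := integrable_om hT hg
    set w : V × V → ℝ := fun p => ω p * (m p.1 * m p.2) with hw
    have hwm : Measurable w := (measurable_om T hb).mul
      ((hm.meas.comp measurable_fst).mul (hm.meas.comp measurable_snd))
    have hwB : ∀ a b : V → ℝ, BF (stdGaussian V) w a b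
        = BF (stdGaussian V) ω (fun x => a x * m x) fun x => b x * m x := fun a b => by
      unfold BF
      congr 1
      ext p
      simp only [hw]
      ring
    obtain ⟨c, C, hc, hcC⟩ := om_bounds hT hg
    obtain ⟨c', C', hc', hm'⟩ := hm.bdd
    have hω0 : ∀ p, 0 ≤ ω p := fun p => (mul_nonneg hc.le (D_nonneg _)).trans (hcC p).1
    have hw0 : ∀ p, 0 ≤ w p := fun p => mul_nonneg (hω0 p) (mul_pos (hm.pos _) (hm.pos _)).le
    have hII : ∀ {a b : V → ℝ}, Pos a → Pos b → 0 < BF (stdGaussian V) ω a b := by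
      intro a b ha hb'
      rw [hω, ← II_eq_BF hT hg ha.bd hb'.bd]
      obtain ⟨c1, C1, hc1, h1⟩ := II_bounds (pos_cons ha (pos_cons hb' hg))
      exact hc1.trans_le (h1 T hT).1
    have key : ∀ a : V → ℝ, Bd a → BF (stdGaussian V) w a (fun _ => 1) = 0 →
        BF (stdGaussian V) w a a ≤ 0 := by
      intro a ha
      refine bochner (stdGaussian V) (w₀ := fun p => D ![T p.1, T p.2]) hwm (measurable_D2 T)
        (fun x z => by simp only [hw, hω]; rw [om_symm, mul_comm (m x)]) (fun x z => D_swap _ _ _)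
        (fun p => D_nonneg _) (integrable_D2 hT.le) (integrable_D2_row hT.le)
        (c := c * (c' * c')) (C := C * (C' * C')) (by positivity) (fun p => ⟨?_, ?_⟩) ?_
        (fun b hb' => hyp_base (hT.mono (by omega)) hb' Den.one.toPos) (fun b hb' => ?_) ha
      · have h1 := mul_le_mul (hm' p.1).1 (hm' p.2).1 hc'.le (hm.pos _).le
        calc c * (c' * c') * D ![T p.1, T p.2] = c * D ![T p.1, T p.2] * (c' * c') := by ring
          _ ≤ _ := mul_le_mul (hcC p).1 h1 (by positivity) (hω0 p)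
      · have h1 := mul_le_mul (hm' p.1).2 (hm' p.2).2 (hm.pos _).le ((hm.pos _).le.trans (hm' p.1).2)
        calc w p ≤ C * D ![T p.1, T p.2] * (C' * C') :=
            mul_le_mul (hcC p).2 h1 (mul_pos (hm.pos _) (hm.pos _)).le ((hω0 p).trans (hcC p).2)
          _ = _ := by ring
      · have h2 : Ex T (0 + 2) := hT.mono (by omega)
        have hp : ∀ j : Fin 0, Pos ((fun _ _ => 1 : Fin 0 → V → ℝ) j) := fun j => j.elim0
        rw [← om_zero T fun _ _ => 1, ← II_eq_BF h2 hp bd_one bd_one]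
        obtain ⟨c1, C1, hc1, h1⟩ := II_bounds (pos_cons Den.one.toPos (pos_cons Den.one.toPos hp))
        exact hc1.trans_le (h1 T h2).1
      · have hbm : Bd fun x => b x * m x := hb'.mul hm.bd
        have hgb : ∀ j, Bd (g' j) := fun j => (hg' j).bd
        have hperm : II T (Fin.cons (fun x => b x * m x) (Fin.cons (fun x => b x * m x)
              (Fin.cons m g' : Fin (r + 1) → V → ℝ) : Fin (r + 2) → V → ℝ) : Fin (r + 3) → V → ℝ)
            = II T (Fin.cons m (Fin.cons (fun x => b x * m x)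
              (Fin.cons (fun x => b x * m x) g' : Fin (r + 1) → V → ℝ) : Fin (r + 2) → V → ℝ) :
                Fin (r + 3) → V → ℝ) := by
          rw [← II_perm T (bd_cons hbm (bd_cons hbm hb)) (Equiv.swap 0 (Fin.succ (Fin.succ 0)))]
          congr 1
          funext j
          refine Fin.cases ?_ (fun j => Fin.cases ?_ (fun j => Fin.cases ?_ (fun j => ?_) j) j) j
          · rw [Equiv.swap_apply_left]; rfl
          · rw [Equiv.swap_apply_of_ne_of_ne (Fin.succ_ne_zero _)
              fun h => Fin.succ_ne_zero _ (Fin.succ_injective _ h).symm]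
            rfl
          · rw [Equiv.swap_apply_right]; rfl
          · rw [Equiv.swap_apply_of_ne_of_ne (Fin.succ_ne_zero _)
              fun h => Fin.succ_ne_zero _ (Fin.succ_injective _ (Fin.succ_injective _ h))]
            rfl
        obtain ⟨hi, he⟩ := II_cons hT.le hm.bd (bd_cons hbm (bd_cons hbm hgb))
        rw [hwB, hω, ← II_eq_BF hT hg hbm hbm, hperm, he]
        refine integral_mono hi (integrable_trickle hwm (integrable_BF hωi hm.bd hm.bd) hw0 hb')
          fun x => ?_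
        have r1 : ∫ z, w (x, z) * b z ∂(stdGaussian V) = m x * (‖T x‖ *
            BF (stdGaussian V) (om (lk T x) g') (fun x => b x * m x) m) := by
          rw [← II_eq_BF (hT.lk x) hg' hbm hm.bd, ← row_om hT.le hb hbm x, ← integral_const_mul]
          congr 1
          ext z
          simp only [hw, hω]
          ring
        have r2 : ∫ z, w (x, z) ∂(stdGaussian V) = m x * (‖T x‖ *
            BF (stdGaussian V) (om (lk T x) g') m m) := by
          rw [← II_eq_BF (hT.lk x) hg' hm.bd hm.bd, ← row_om hT.le hb hm.bd x, ← integral_const_mul]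
          congr 1
          ext z
          simp only [hw, hω]
          ring
        have hq : 0 < BF (stdGaussian V) (om (lk T x) g') m m := by
          rw [← II_eq_BF (hT.lk x) hg' hm.bd hm.bd]
          obtain ⟨c1, C1, hc1, h1⟩ := II_bounds (pos_cons hm (pos_cons hm hg'))
          exact hc1.trans_le (h1 _ (hT.lk x)).1
        have ih := hyp r (hT.lk x) hg' hbm hm
        simp only
        rw [r1, r2, II_eq_BF (hT.lk x) hg' hbm hbm]
        rcases (norm_nonneg (T x)).eq_or_lt with h0 | h0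
        · rw [← h0]; simp
        · rw [le_div_iff₀ (mul_pos (hm.pos x) (mul_pos h0 hq))]
          have := mul_le_mul_of_nonneg_left ih (sq_nonneg (m x * ‖T x‖))
          nlinarith
    refine hyp_of_neg hωi (om_symm T _) (fun a => BF (stdGaussian V) ω a m) hξ hη.bd
      (fun s => BF_sub_left hωi hξ hη.bd hm.bd s) (hII hη hm).ne' (hII hη hη).le fun ζ hζ h => ?_
    have e : (fun x => ζ x / m x * m x) = ζ := funext fun x => div_mul_cancel₀ _ (hm.pos x).ne'
    have := key _ (hζ.div hm) (by rw [hwB, e]; simpa using h)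
    rwa [hwB, e] at this

theorem ex_id {k : ℕ} (hk : k ≤ finrank ℝ V) : Ex (ContinuousLinearMap.id ℝ V) k :=
  ⟨fun _ => le_rfl, ⊤, by simpa using hk, fun _ _ => rfl⟩

theorem integral_D_pos {k : ℕ} (hk : k ≤ finrank ℝ V) : 0 < ∫ x, D x ∂(γk V k) := by
  have := (pow_pos c0_pos k).trans_le (II_one_ge k (ex_id hk))
  simpa [II] using this

/-- families with values `f` and `1` -/
def fam {k : ℕ} (f : V → ℝ) (β : Fin k → Bool) : Fin k → V → ℝ :=
  fun l => if β l then f else fun _ => 1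

/-- number of slots with value `f` -/
def cnt {k : ℕ} (β : Fin k → Bool) : ℕ := ∑ l, if β l then 1 else 0

theorem pos_fam {k : ℕ} {f : V → ℝ} (hf : Pos f) (β : Fin k → Bool) (l : Fin k) :
    Pos (fam f β l) := by
  unfold fam
  split_ifs
  exacts [hf, Den.one.toPos]

theorem fam_cons {k : ℕ} (f : V → ℝ) (b : Bool) (β : Fin k → Bool) :
    fam f (Fin.cons b β : Fin (k + 1) → Bool)
      = Fin.cons (if b then f else fun _ => 1) (fam f β) := by
  funext j
  refine Fin.cases ?_ (fun j => ?_) j <;> simp [fam]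

theorem cnt_cons {k : ℕ} (b : Bool) (β : Fin k → Bool) :
    cnt (Fin.cons b β : Fin (k + 1) → Bool) = (if b then 1 else 0) + cnt β := by
  unfold cnt
  rw [Fin.sum_univ_succ]
  rfl

theorem cnt_le {k : ℕ} (β : Fin k → Bool) : cnt β ≤ k := by
  calc cnt β ≤ ∑ _l : Fin k, 1 := Finset.sum_le_sum fun l _ => by split_ifs <;> simp
    _ = k := by simp

theorem exists_cnt : ∀ (k j : ℕ), j ≤ k → ∃ β : Fin k → Bool, cnt β = j
  | k, 0, _ => ⟨fun _ => false, by simp [cnt]⟩
  | k + 1, j + 1, h => by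
    obtain ⟨β, hβ⟩ := exists_cnt k j (by omega)
    exact ⟨Fin.cons true β, by rw [cnt_cons, hβ]; simp [add_comm]⟩

theorem II_fam_eq {k : ℕ} (T : V →L[ℝ] V) {f : V → ℝ} (hf : Pos f) {β β' : Fin k → Bool}
    (h : cnt β = cnt β') : II T (fam f β) = II T (fam f β') := by
  have hc : Fintype.card {l // β l = true} = Fintype.card {l // β' l = true} := by
    simpa [cnt, Fintype.card_subtype] using h
  set σ := Equiv.extendSubtype (Fintype.equivOfCardEq hc)
  rw [← II_perm T (fun l => (pos_fam hf β' l).bd) σ]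
  congr 1
  funext l
  by_cases hl : β l = true
  · have := Equiv.extendSubtype_mem (Fintype.equivOfCardEq hc) l hl
    simp [fam, hl, σ, this]
  · have := Equiv.extendSubtype_not_mem (Fintype.equivOfCardEq hc) l hl
    simp [fam, hl, σ, this]

theorem II_lk_id (k : ℕ) {x x' : V} (hx : x ≠ 0) (hx' : x' ≠ 0) :
    II (lk (ContinuousLinearMap.id ℝ V) x) (fun (_ : Fin k) (_ : V) => (1 : ℝ))
      = II (lk (ContinuousLinearMap.id ℝ V) x') fun (_ : Fin k) (_ : V) => (1 : ℝ) := by
  have hn : ‖x‖ ≠ 0 := norm_ne_zero_iff.2 hx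
  have hn' : ‖x'‖ ≠ 0 := norm_ne_zero_iff.2 hx'
  obtain ⟨g, hg, -⟩ := exists_ap_eq (x := (‖x'‖ / ‖x‖) • x) (y := x') (by
    rw [norm_smul, Real.norm_eq_abs, abs_of_nonneg (by positivity)]; field_simp)
  unfold II
  rw [← af_mp_integral (measurePreserving_pi _ _ fun _ : Fin k => mp_ap g)
    (af_measurable (lk (ContinuousLinearMap.id ℝ V) x') fun _ => bd_one).aestronglyMeasurable]
  congr 1
  ext y
  simp only [lk_apply, ContinuousLinearMap.id_apply]
  rw [← D_map (Unitary.linearIsometryEquiv g).toLinearIsometry]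
  congr 2
  funext j
  rw [← hg, ← ap_pr, pr_smul_left (div_ne_zero hn' hn)]
  rfl

theorem II_first {k : ℕ} (hn : 1 ≤ finrank ℝ V) {f : V → ℝ} (hf : Den f) :
    II (ContinuousLinearMap.id ℝ V) (Fin.cons f fun (_ : Fin k) (_ : V) => (1 : ℝ))
      = (∫ x, f x ∂(stdGaussian V)) * II (ContinuousLinearMap.id ℝ V)
          (Fin.cons (fun _ => 1) fun (_ : Fin k) (_ : V) => (1 : ℝ)) := by
  have : Nontrivial V := finrank_pos_iff.1 hn
  obtain ⟨e, he⟩ := exists_ne (0 : V)
  have h : ∀ {a : V → ℝ}, Bd a →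
      II (ContinuousLinearMap.id ℝ V) (Fin.cons a fun (_ : Fin k) (_ : V) => (1 : ℝ))
        = (∫ x, ‖x‖ ^ 1 * a x ∂(stdGaussian V))
          * II (lk (ContinuousLinearMap.id ℝ V) e) fun (_ : Fin k) (_ : V) => (1 : ℝ) := by
    intro a ha
    rw [(II_cons (fun _ => le_rfl) ha fun _ => bd_one).2, ← integral_mul_const]
    refine integral_congr_ae ?_
    filter_upwards [ae_ne_zero hn] with x hx
    rw [II_lk_id k hx he]
    simp only [ContinuousLinearMap.id_apply]
    ring
  rw [h hf.toPos.bd, h bd_one, radial_indep hn 1 hf.toPos.bd (fun x => (hf.toPos.pos x).le) hf.hom]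
  simp only [mul_one]
  ring

theorem af_step {k : ℕ} (hk : k ≤ finrank ℝ V) {f : V → ℝ} (hf : Den f) : ∀ (j : ℕ)
    (β β' : Fin k → Bool), cnt β = j + 1 → cnt β' = j →
    II (ContinuousLinearMap.id ℝ V) (fam f β)
      ≤ (∫ x, f x ∂(stdGaussian V)) * II (ContinuousLinearMap.id ℝ V) (fam f β')
  | 0, β, β', h, h' => by
    obtain ⟨r, rfl⟩ : ∃ r, k = r + 1 := ⟨k - 1, by have := cnt_le β; omega⟩
    rw [II_fam_eq _ hf.toPos (β := β) (β' := Fin.cons true fun _ => false)
        (by rw [h, cnt_cons]; simp [cnt]),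
      II_fam_eq _ hf.toPos (β := β') (β' := Fin.cons false fun _ => false)
        (by rw [h', cnt_cons]; simp [cnt]), fam_cons, fam_cons]
    exact (II_first (k := r) (by omega) hf).le
  | j + 1, β, β', h, h' => by
    obtain ⟨r, rfl⟩ : ∃ r, k = r + 2 := ⟨k - 2, by have := cnt_le β; omega⟩
    obtain ⟨β₀, h₀⟩ := exists_cnt r j (by have := cnt_le β; omega)
    have ih := af_step hk hf j (Fin.cons true (Fin.cons false β₀))
      (Fin.cons false (Fin.cons false β₀)) (by rw [cnt_cons, cnt_cons, h₀]; simp [add_comm])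
      (by rw [cnt_cons, cnt_cons, h₀]; simp)
    rw [II_fam_eq _ hf.toPos (β := β) (β' := Fin.cons true (Fin.cons true β₀))
        (by rw [h, cnt_cons, cnt_cons, h₀]; simp; ring),
      II_fam_eq _ hf.toPos (β := β') (β' := Fin.cons true (Fin.cons false β₀))
        (by rw [h', cnt_cons, cnt_cons, h₀]; simp [add_comm])]
    simp only [fam_cons, if_true, Bool.false_eq_true, if_false] at ih ⊢
    have hp := pos_fam hf.toPos β₀
    have h1 := hyp r (ex_id hk) hp hf.toPos.bd Den.one.toPos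
    obtain ⟨c, C, hc, hcC⟩ := II_bounds (pos_cons Den.one.toPos (pos_cons Den.one.toPos hp))
    have h2 := hc.trans_le (hcC _ (ex_id hk)).1
    have h3 := II_nonneg (ContinuousLinearMap.id ℝ V) (pos_cons hf.toPos (pos_cons Den.one.toPos hp))
    rw [← II_eq_BF (ex_id hk) hp hf.toPos.bd hf.toPos.bd, ← II_eq_BF (ex_id hk) hp bd_one bd_one,
      ← II_eq_BF (ex_id hk) hp hf.toPos.bd bd_one] at h1
    refine le_of_mul_le_mul_right (h1.trans ?_) h2
    nlinarith [mul_le_mul_of_nonneg_left ih h3]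

theorem af {k : ℕ} (hk : k ≤ finrank ℝ V) {f : V → ℝ} (hf : Den f) :
    ∫ x, D x * ∏ j, f (x j) ∂(γk V k)
      ≤ (∫ x, D x ∂(γk V k)) * (∫ x, f x ∂(stdGaussian V)) ^ k := by
  have h0 : 0 ≤ ∫ x, f x ∂(stdGaussian V) := integral_nonneg fun x => (hf.toPos.pos x).le
  have h : ∀ j, ∀ β : Fin k → Bool, cnt β = j → II (ContinuousLinearMap.id ℝ V) (fam f β)
      ≤ (∫ x, D x ∂(γk V k)) * (∫ x, f x ∂(stdGaussian V)) ^ j := by
    intro j
    induction j with
    | zero =>
      intro β hβ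
      rw [II_fam_eq _ hf.toPos (β := β) (β' := fun _ => false) (by rw [hβ]; simp [cnt])]
      simp [II, fam]
    | succ j ih =>
      intro β hβ
      obtain ⟨β', hβ'⟩ := exists_cnt k j (by have := cnt_le β; omega)
      refine (af_step hk hf j β β' hβ hβ').trans ?_
      refine (mul_le_mul_of_nonneg_left (ih β' hβ') h0).trans (le_of_eq ?_)
      ring
  simpa [II, fam] using h k (fun _ => true) (by simp [cnt])

end Pool.Agent.P.MP_181257_gt
end
end

-- part Pool.Agent.P.MP_181257_gt.Proj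
section

/-! The projection body operator on densities. -/

set_option autoImplicit false
set_option linter.unusedSectionVars false

open MeasureTheory ProbabilityTheory Module Set Filter Topology
open scoped RealInnerProductSpace ENNReal Pointwise Matrix

noncomputable section

namespace Pool.Agent.P.MP_181257_gt

variable {V : Type} [NormedAddCommGroup V] [InnerProductSpace ℝ V] [FiniteDimensional ℝ V]
  [MeasurableSpace V] [BorelSpace V]

theorem proj_continuous_det {k : ℕ} :
    Continuous fun q : (Fin k → V) × (Fin k → V) =>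
      |(Matrix.of fun l j => ⟪q.1 l, q.2 j⟫).det| := by
  refine Continuous.abs (Continuous.matrix_det ?_)
  refine continuous_matrix fun i j => ?_
  simp only [Matrix.of_apply]
  fun_prop

theorem proj_measurable_det {k : ℕ} (v : Fin k → V) :
    Measurable fun g : Fin k → V => |(Matrix.of fun l j => ⟪g l, v j⟫).det| :=
  (proj_continuous_det.comp (continuous_id.prodMk continuous_const)).measurable

theorem proj_det_step {k : ℕ} (v : Fin (k + 1) → V) {u : V} (hu : ‖u‖ = 1)
    (hau : v 0 = ‖v 0‖ • u) (ha : v 0 ≠ 0) (t : Fin (k + 1) → ℝ) (g : Fin (k + 1) → V)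
    (Q : Matrix (Fin (k + 1)) (Fin (k + 1)) ℝ) (r : ℝ) (hQ : Q * Qᵀ = 1) (hr : 0 ≤ r)
    (ht : Q *ᵥ t = Pi.single 0 r) :
    |(Matrix.of fun l j => ⟪pr u (g l) + t l • u, v j⟫).det|
      = r * (‖v 0‖ * |(Matrix.of fun (l j : Fin k) =>
          ⟪∑ i, Q l.succ i • g i, pr (v 0) (v j.succ)⟫).det|) := by
  have hpos : 0 < ‖v 0‖ := norm_pos_iff.2 ha
  have hpr : ∀ x, pr (v 0) x = pr u x := fun x => by
    rw [hau]; exact pr_smul_left hpos.ne' u x
  set w : Fin (k + 1) → V := Fin.cons (v 0) fun j => pr (v 0) (v j.succ) with hw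
  set c : Fin (k + 1) → ℝ := Fin.cons 0 fun j => ⟪v 0, v j.succ⟫ / ‖v 0‖ ^ 2 with hc
  have hv : ∀ i, v i = w i + c i • w 0 := by
    intro i
    refine Fin.cases ?_ (fun j => ?_) i
    · simp [hw, hc]
    · simp [hw, hc, pr]
  set M : Matrix (Fin (k + 1)) (Fin (k + 1)) ℝ :=
    Matrix.of fun l j => ⟪pr u (g l) + t l • u, w j⟫ with hM
  have h1 : (Matrix.of fun l j => ⟪pr u (g l) + t l • u, v j⟫).det = M.det := by
    rw [← Matrix.det_transpose M, ← Matrix.det_transpose (Matrix.of _)]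
    refine Matrix.det_eq_of_forall_row_eq_smul_add_const c 0 (by simp [hc]) fun i j => ?_
    simp only [Matrix.transpose_apply, hM, Matrix.of_apply]
    rw [hv i, inner_add_right, real_inner_smul_right]
  have hd : |Q.det| = 1 := by
    have := congrArg Matrix.det hQ
    rw [Matrix.det_mul, Matrix.det_transpose, Matrix.det_one] at this
    rcases mul_self_eq_one_iff.1 this with h | h <;> simp [h]
  have h2 : |M.det| = |(Q * M).det| := by rw [Matrix.det_mul, abs_mul, hd, one_mul]
  have hcol : ∀ l, (Q * M) l 0 = ‖v 0‖ * (Pi.single 0 r : Fin (k + 1) → ℝ) l := by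
    intro l
    rw [← ht, Matrix.mul_apply, Matrix.mulVec, dotProduct, Finset.mul_sum]
    refine Finset.sum_congr rfl fun i _ => ?_
    have e : M i 0 = ‖v 0‖ * t i := by
      simp only [hM, Matrix.of_apply, hw, Fin.cons_zero]
      conv_lhs => rw [hau]
      rw [real_inner_smul_right, inner_add_left, real_inner_smul_left, real_inner_comm,
        inner_pr_self, real_inner_self_eq_norm_sq, hu]
      ring
    rw [e]; ring
  have hsub : (Q * M).submatrix (Fin.succAbove 0) Fin.succ = Matrix.of fun (l j : Fin k) =>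
      ⟪∑ i, Q l.succ i • g i, pr (v 0) (v j.succ)⟫ := by
    ext l j
    simp only [Matrix.submatrix_apply, Fin.succAbove_zero, Matrix.mul_apply, Matrix.of_apply, hM,
      hw, Fin.cons_succ, sum_inner, real_inner_smul_left]
    refine Finset.sum_congr rfl fun i _ => ?_
    rw [hpr, inner_add_left, real_inner_smul_left, inner_pr_self, inner_pr_comm, pr_pr]
    ring
  rw [h1, h2, Matrix.det_succ_column_zero, Fin.sum_univ_succ]
  have hz : ∀ i : Fin k, (Q * M) i.succ 0 = 0 := fun i => by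
    rw [hcol]; simp
  simp only [hz, mul_zero, zero_mul, Finset.sum_const_zero, add_zero]
  rw [hsub, hcol]
  simp only [Pi.single_eq_same, Fin.val_zero, pow_zero, one_mul, abs_mul, abs_norm, abs_of_nonneg hr]
  ring

theorem proj_gauss_det : ∀ k : ℕ, ∃ c : ℝ≥0∞, c ≠ 0 ∧ c ≠ ∞ ∧ ∀ v : Fin k → V,
    ∫⁻ g, ENNReal.ofReal |(Matrix.of fun l j => ⟪g l, v j⟫).det| ∂(γk V k)
      = c * ENNReal.ofReal (D v)
  | 0 => ⟨1, one_ne_zero, ENNReal.one_ne_top, fun v => by simp⟩
  | k + 1 => by
    obtain ⟨c, hc0, hct, h⟩ := proj_gauss_det k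
    refine ⟨aN (k + 1) * c, mul_ne_zero (aN_ne_zero k) hc0,
      ENNReal.mul_ne_top (aN_ne_top _) hct, fun v => ?_⟩
    by_cases ha : v 0 = 0
    · have : ∀ g : Fin (k + 1) → V, (Matrix.of fun l j => ⟪g l, v j⟫).det = 0 := fun g =>
        Matrix.det_eq_zero_of_column_eq_zero 0 fun i => by simp [ha]
      simp [this, D_succ, ha]
    · have hpos : 0 < ‖v 0‖ := norm_pos_iff.2 ha
      have hu : ‖‖v 0‖⁻¹ • v 0‖ = 1 := by
        rw [norm_smul, norm_inv, norm_norm, inv_mul_cancel₀ hpos.ne']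
      have hau : v 0 = ‖v 0‖ • ‖v 0‖⁻¹ • v 0 := by
        rw [smul_smul, mul_inv_cancel₀ hpos.ne', one_smul]
      have hm := (proj_measurable_det fun j : Fin k => pr (v 0) (v j.succ)).ennreal_ofReal
      rw [core hu (Θ := fun g => ENNReal.ofReal ‖v 0‖ * ENNReal.ofReal
          |(Matrix.of fun (l j : Fin k) => ⟪g l, pr (v 0) (v j.succ)⟫).det|)
          (proj_measurable_det v).ennreal_ofReal (hm.const_mul _) ?_]
      · rw [lintegral_const_mul _ hm, h, D_succ, ENNReal.ofReal_mul (norm_nonneg _)]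
        ring
      · intro t g Q r hQ hr ht
        rw [proj_det_step v hu hau ha t g Q r hQ hr ht, ENNReal.ofReal_mul hr,
          ENNReal.ofReal_mul (norm_nonneg _)]

theorem gauss_det (k : ℕ) : ∃ c : ℝ, 0 < c ∧ ∀ v : Fin k → V,
    Integrable (fun g : Fin k → V => |(Matrix.of fun l j => ⟪g l, v j⟫).det|) (γk V k) ∧
    ∫ g, |(Matrix.of fun l j => ⟪g l, v j⟫).det| ∂(γk V k) = c * D v := by
  obtain ⟨c, hc0, hct, h⟩ := proj_gauss_det (V := V) k
  refine ⟨c.toReal, ENNReal.toReal_pos hc0 hct, fun v => ⟨?_, ?_⟩⟩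
  · refine ⟨(proj_measurable_det v).aestronglyMeasurable, ?_⟩
    rw [hasFiniteIntegral_iff_ofReal (ae_of_all _ fun g => abs_nonneg _), h]
    exact ENNReal.mul_lt_top hct.lt_top ENNReal.ofReal_lt_top
  · rw [integral_eq_lintegral_of_nonneg_ae (ae_of_all _ fun g => abs_nonneg _)
      (proj_measurable_det v).aestronglyMeasurable, h, ENNReal.toReal_mul,
      ENNReal.toReal_ofReal (D_nonneg _)]

theorem proj_integrable_hz {f : V → ℝ} (hf : Bd f) (u : V) :
    Integrable (fun y => |⟪u, y⟫| * f y) (stdGaussian V) := by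
  obtain ⟨C, h⟩ := hf.bdd
  exact (integrable_abs_inner u).mul_bdd hf.meas.aestronglyMeasurable (ae_of_all _ h)

theorem hz_le {f : V → ℝ} (hf : Pos f) : ∃ B : ℝ, ∀ u : V, ‖u‖ = 1 → hz f u ≤ B := by
  obtain ⟨c, C, hc, h⟩ := hf.bdd
  refine ⟨c0 * C, fun u hu => ?_⟩
  calc hz f u ≤ ∫ y, |⟪u, y⟫| * C ∂(stdGaussian V) :=
        integral_mono (proj_integrable_hz hf.bd u) ((integrable_abs_inner u).mul_const C)
          fun y => mul_le_mul_of_nonneg_left (h y).2 (abs_nonneg _)
    _ = c0 * C := by rw [integral_mul_const, integral_abs_inner, hu, mul_one]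

theorem proj_vol {i : ℕ} {f : V → ℝ} (hf : Pos f) (u : V) (g : Fin i → V) :
    (volume (lin g '' (pr u '' Zs (hz f)))).toReal = 2 ^ i / (i.factorial : ℝ) *
      ∫ x : Fin i → V, |(Matrix.of fun l j => ⟪g l, pr u (x j)⟫).det| * ∏ j, f (x j)
        ∂(γk V i) := by
  obtain ⟨B, hB⟩ := hz_le hf
  obtain ⟨C, hC⟩ := hf.bd.bdd
  have hid : Integrable (fun x : V => x) (stdGaussian V) := by
    have := integrable_norm_pow (V := V) 1
    simp only [pow_one] at this
    exact (integrable_norm_iff measurable_id.aestronglyMeasurable).1 this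
  have hY0 : Measurable fun w : V => f w • w := hf.meas.smul measurable_id
  have hi0 : Integrable (fun w : V => f w • w) (stdGaussian V) :=
    hid.bdd_smul C hf.meas.aestronglyMeasurable (ae_of_all _ hC)
  set L : V →L[ℝ] (Fin i → ℝ) := (lin g).comp (prL u) with hL
  have himg : lin g '' (pr u '' Zs (hz f)) = L '' Zs (hz f) := by
    rw [image_image]
    exact image_congr fun x _ => by simp [hL]
  have hZ : hz f = fun a => ∫ w, |⟪a, f w • w⟫| ∂(stdGaussian V) := by
    funext a
    refine integral_congr_ae (ae_of_all _ fun w => ?_)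
    simp only [real_inner_smul_right, abs_mul, abs_of_pos (hf.pos w)]
    ring
  have key := zon_vol (stdGaussian V) i (fun w => L (f w • w)) (L.continuous.measurable.comp hY0)
    (L.integrable_comp hi0) (L '' Zs (hz f)) ((isCompact_Zs hB).image L.continuous)
    ((convex_Zs _).linear_image (L : V →ₗ[ℝ] (Fin i → ℝ))) (fun ℓ => by
      set w : V := (InnerProductSpace.toDual ℝ V).symm (ℓ.comp L) with hw
      have hw' : ∀ x, ℓ (L x) = ⟪w, x⟫ := fun x => by
        rw [hw, InnerProductSpace.toDual_symm_apply]; rfl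
      have := isGreatest_Zs (stdGaussian V) hY0 hi0 w
      rw [← hZ] at this
      rw [image_image]
      simp only [hw']
      simpa only [real_inner_comm w] using this)
  have hdet : ∀ x : Fin i → V, |(Matrix.of fun l j => L (f (x j) • x j) l).det|
      = |(Matrix.of fun l j => ⟪g l, pr u (x j)⟫).det| * ∏ j, f (x j) := by
    intro x
    have e : (Matrix.of fun l j => L (f (x j) • x j) l)
        = Matrix.of fun l j => f (x j) * (Matrix.of fun l j => ⟪g l, pr u (x j)⟫) l j := by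
      ext l j
      simp [hL]
    rw [e, Matrix.det_mul_row, abs_mul,
      abs_of_nonneg (Finset.prod_nonneg fun j _ => (hf.pos _).le), mul_comm]
  simp only [hdet] at key
  have hfac : (i.factorial : ℝ) ≠ 0 := by positivity
  rw [himg, ← measureReal_def, div_mul_eq_mul_div, eq_div_iff hfac, key]

theorem PP_hz_eq (i : ℕ) : ∃ c : ℝ, 0 < c ∧ ∀ f : V → ℝ, Pos f → ∀ u : V,
    PP i (hz f) u = c * ∫ x, D (fun j => pr u (x j)) * ∏ j, f (x j) ∂(γk V i) := by
  obtain ⟨c, hc, h⟩ := gauss_det (V := V) i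
  refine ⟨2 ^ i / (i.factorial : ℝ) * c, by positivity, fun f hf u => ?_⟩
  have hprod : Measurable fun x : Fin i → V => ∏ j, f (x j) :=
    Finset.measurable_prod _ fun j _ => hf.meas.comp (measurable_pi_apply j)
  have hin : ∀ x : Fin i → V,
      ∫ g, |(Matrix.of fun l j => ⟪g l, pr u (x j)⟫).det| * ∏ j, f (x j) ∂(γk V i)
        = c * (D (fun j => pr u (x j)) * ∏ j, f (x j)) := fun x => by
    rw [integral_mul_const, (h _).2, mul_assoc]
  have hD := integrable_D (k := i) (prL u) (fun x => by rw [prL_apply]; exact norm_pr_le u x)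
    (g := fun _ => f) fun _ => hf.bd
  simp only [prL_apply] at hD
  have hmeas : Measurable fun q : (Fin i → V) × (Fin i → V) =>
      |(Matrix.of fun l j => ⟪q.1 l, pr u (q.2 j)⟫).det| * ∏ j, f (q.2 j) := by
    refine Measurable.mul ?_ (hprod.comp measurable_snd)
    refine Continuous.measurable (Continuous.abs (Continuous.matrix_det ?_))
    refine continuous_matrix fun l j => ?_
    simp only [Matrix.of_apply, ← prL_apply]
    fun_prop
  have hint : Integrable (fun q : (Fin i → V) × (Fin i → V) =>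
      |(Matrix.of fun l j => ⟪q.1 l, pr u (q.2 j)⟫).det| * ∏ j, f (q.2 j))
      ((γk V i).prod (γk V i)) := by
    refine (integrable_prod_iff' hmeas.aestronglyMeasurable).2 ⟨ae_of_all _ fun x => ?_, ?_⟩
    · exact (h fun j => pr u (x j)).1.mul_const (∏ j, f (x j))
    refine (hD.const_mul c).congr (ae_of_all _ fun x => ?_)
    simp only
    rw [← hin]
    refine integral_congr_ae (ae_of_all _ fun g => ?_)
    simp only
    rw [Real.norm_of_nonneg
      (mul_nonneg (abs_nonneg _) (Finset.prod_nonneg fun j _ => (hf.pos _).le))]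
  rw [PP, intrinsicVol_eq]
  simp only [proj_vol hf]
  rw [integral_const_mul, integral_integral_swap hint]
  simp only [hin]
  rw [integral_const_mul, mul_assoc]

theorem proj_integrable_sq {k : ℕ} {f : V → ℝ} (hf : Pos f) (b : V) :
    Integrable (fun x : Fin k → V => D (fun j => pr b (x j)) ^ 2 * ∏ j, f (pr b (x j)))
      (γk V k) := by
  obtain ⟨C, hC⟩ := hf.bd.bdd
  have hprod : Measurable fun x : Fin k → V => ∏ j, f (pr b (x j)) :=
    Finset.measurable_prod _ fun j _ => hf.meas.comp (by fun_prop)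
  have h1 : Integrable (fun x : Fin k → V => D (fun j => pr b (x j)) ^ 2) (γk V k) := by
    refine (integrable_prod_norm_pow k 2).mono' (Measurable.aestronglyMeasurable (by fun_prop))
      (ae_of_all _ fun x => ?_)
    rw [Real.norm_of_nonneg (sq_nonneg _), Finset.prod_pow]
    refine pow_le_pow_left₀ (D_nonneg _) ((D_le_prod _).trans ?_) 2
    exact Finset.prod_le_prod (fun _ _ => norm_nonneg _) fun j _ => norm_pr_le _ _
  refine h1.mul_bdd (c := C ^ k) hprod.aestronglyMeasurable (ae_of_all _ fun x => ?_)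
  rw [Real.norm_eq_abs, Finset.abs_prod]
  calc ∏ j, |f (pr b (x j))| ≤ ∏ _j : Fin k, C :=
        Finset.prod_le_prod (fun _ _ => abs_nonneg _) fun j _ => hC _
    _ = C ^ k := by simp

theorem proj_bp (s : ℕ) {m k : ℕ} (hm : finrank ℝ V = m + 1) (hk : k ≤ m) :
    ∃ C : ℝ≥0∞, C ≠ 0 ∧ C ≠ ∞ ∧ ∀ f : V → ℝ, Pos f → ∀ φ : V → ℝ≥0∞, Measurable φ →
      (∀ b, φ b ≠ ∞) → (∀ y (t : ℝ), 0 < t → φ (t • y) = ENNReal.ofReal (t ^ s) * φ y) →
      ∫⁻ x, ENNReal.ofReal (D x * ∏ j, f (x j)) * ∫⁻ b, φ (Pj k x b) ∂(stdGaussian V) ∂(γk V k)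
        = C * ∫⁻ b, φ b * ENNReal.ofReal (sk k f b) ∂(stdGaussian V) := by
  obtain ⟨C, hC0, hCt, h⟩ := bp s k (m + 1) (by omega)
  have hN : (0 : ℝ) < (m.descFactorial k : ℝ) := by
    exact_mod_cast Nat.descFactorial_pos.2 hk
  refine ⟨C * ENNReal.ofReal (m.descFactorial k : ℝ), mul_ne_zero hC0 (by simpa using hN),
    ENNReal.mul_ne_top hCt ENNReal.ofReal_ne_top, fun f hf φ hφ hfin hom => ?_⟩
  have hprod : Measurable fun x : Fin k → V => ∏ j, f (x j) :=
    Finset.measurable_prod _ fun j _ => hf.meas.comp (measurable_pi_apply j)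
  have hA : Measurable fun x : Fin k → V => ENNReal.ofReal (D x * ∏ j, f (x j)) :=
    ((measurable_D measurable_id).mul hprod).ennreal_ofReal
  have key := h V hm (fun q => ENNReal.ofReal (D q.1 * ∏ j, f (q.1 j)) * φ q.2)
    ((hA.comp measurable_fst).mul (hφ.comp measurable_snd))
    (fun x y t ht => by simp only [hom y t ht]; ring)
  simp only at key
  have e1 : ∀ x : Fin k → V, ∫⁻ b, ENNReal.ofReal (D x * ∏ j, f (x j)) * φ (Pj k x b)
      ∂(stdGaussian V) = ENNReal.ofReal (D x * ∏ j, f (x j)) * ∫⁻ b, φ (Pj k x b)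
      ∂(stdGaussian V) := fun x => lintegral_const_mul' _ _ ENNReal.ofReal_ne_top
  simp only [e1] at key
  rw [key, mul_assoc, ← lintegral_const_mul' _ _ ENNReal.ofReal_ne_top]
  congr 1
  refine lintegral_congr_ae ((ae_ne_zero (V := V) (by omega)).mono fun b hb => ?_)
  have e2 : ∀ x : Fin k → V, ENNReal.ofReal (D fun j => pr b (x j)) *
      (ENNReal.ofReal (D (fun j => pr b (x j)) * ∏ j, f (pr b (x j))) * φ b)
      = φ b * ENNReal.ofReal (D (fun j => pr b (x j)) ^ 2 * ∏ j, f (pr b (x j))) := fun x => by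
    rw [← mul_assoc, ← ENNReal.ofReal_mul (D_nonneg _), mul_comm, ← mul_assoc, ← sq]
  simp only [e2]
  rw [lintegral_const_mul' _ _ (hfin b), ← ofReal_integral_eq_lintegral_ofReal
    (proj_integrable_sq hf b) (ae_of_all _ fun x =>
      mul_nonneg (sq_nonneg _) (Finset.prod_nonneg fun j _ => (hf.pos _).le)),
    mul_left_comm, ← ENNReal.ofReal_mul hN.le]
  congr 2
  simp only [sk, if_neg hb, hm, Nat.add_sub_cancel]
  field_simp

theorem proj_integrable_D {k : ℕ} {f : V → ℝ} (hf : Pos f) :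
    Integrable (fun x : Fin k → V => D x * ∏ j, f (x j)) (γk V k) :=
  integrable_D (k := k) (ContinuousLinearMap.id ℝ V) (fun _ => le_rfl) (g := fun _ => f)
    fun _ => hf.bd

theorem bp_mass {m k : ℕ} (hm : finrank ℝ V = m + 1) (h1 : 1 ≤ m) (hk : k ≤ m) {f : V → ℝ}
    (hf : Den f) :
    (∫ y, sk k f y ∂(stdGaussian V)) * ∫ x, D x ∂(γk V k)
      = ∫ x, D x * ∏ j, f (x j) ∂(γk V k) := by
  obtain ⟨C, hC0, hCt, h⟩ := proj_bp (V := V) 0 hm hk
  have key : ∀ g : V → ℝ, Den g →
      ∫ x, D x * ∏ j, g (x j) ∂(γk V k) = C.toReal * ∫ y, sk k g y ∂(stdGaussian V) := by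
    intro g hg
    have hs := den_sk hm h1 hk hg
    have := h g hg.toPos (fun _ => 1) measurable_const (fun _ => ENNReal.one_ne_top)
      (fun _ _ _ => by simp)
    simp only [lintegral_const, measure_univ, mul_one, one_mul] at this
    rw [integral_eq_lintegral_of_nonneg_ae (ae_of_all _ fun x =>
        mul_nonneg (D_nonneg _) (Finset.prod_nonneg fun j _ => (hg.toPos.pos _).le))
      (proj_integrable_D hg.toPos).aestronglyMeasurable, this, ENNReal.toReal_mul,
      integral_eq_lintegral_of_nonneg_ae (ae_of_all _ fun y => (hs.toPos.pos y).le)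
        hs.meas.aestronglyMeasurable]
  have h1' := key _ Den.one
  simp only [Finset.prod_const_one, mul_one, sk_one hm h1 hk, integral_const, probReal_univ,
    smul_eq_mul] at h1'
  rw [key f hf, h1', mul_comm]

theorem bp_supp {m k : ℕ} (hm : finrank ℝ V = m + 1) (h1 : 1 ≤ m) (hk : k ≤ m) :
    ∃ c : ℝ, 0 < c ∧ ∀ f : V → ℝ, Den f → ∀ u : V, ‖u‖ = 1 →
      ∫ x, D (fun j => pr u (x j)) * ∏ j, f (x j) ∂(γk V k) = c * hz (sk k f) u := by
  obtain ⟨C, hC0, hCt, h⟩ := proj_bp (V := V) 1 hm hk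
  have hc := c0_pos
  refine ⟨C.toReal / c0, div_pos (ENNReal.toReal_pos hC0 hCt) hc, fun f hf u hu => ?_⟩
  have hs := den_sk hm h1 hk hf
  have key := h f hf.toPos (fun y => ENNReal.ofReal |⟪u, y⟫|)
    (Measurable.ennreal_ofReal (by fun_prop)) (fun _ => ENNReal.ofReal_ne_top)
    (fun y t ht => by
      rw [real_inner_smul_right, abs_mul, abs_of_pos ht, pow_one, ENNReal.ofReal_mul ht.le])
  have hpn : ∀ x : Fin k → V, 0 ≤ ∏ j, f (x j) := fun x =>
    Finset.prod_nonneg fun j _ => (hf.toPos.pos _).le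
  have e1 : ∀ x : Fin k → V, ENNReal.ofReal (D x * ∏ j, f (x j)) *
      ∫⁻ b, ENNReal.ofReal |⟪u, Pj k x b⟫| ∂(stdGaussian V)
      = ENNReal.ofReal (c0 * (D (fun j => pr u (x j)) * ∏ j, f (x j))) := by
    intro x
    simp only [← inner_Pj_comm]
    rw [← ofReal_integral_eq_lintegral_ofReal (integrable_abs_inner _)
      (ae_of_all _ fun _ => abs_nonneg _), integral_abs_inner,
      ← ENNReal.ofReal_mul (mul_nonneg (D_nonneg _) (hpn x))]
    congr 1
    have e := D_cons_eq u x
    rw [D_cons, hu, one_mul] at e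
    rw [e]
    ring
  have e2 : ∀ b : V, ENNReal.ofReal |⟪u, b⟫| * ENNReal.ofReal (sk k f b)
      = ENNReal.ofReal (|⟪u, b⟫| * sk k f b) := fun b => (ENNReal.ofReal_mul (abs_nonneg _)).symm
  simp only [e1, e2] at key
  have hD := integrable_D (k := k) (prL u) (fun x => by rw [prL_apply]; exact norm_pr_le u x)
    (g := fun _ => f) fun _ => hf.toPos.bd
  simp only [prL_apply] at hD
  have key2 := congrArg ENNReal.toReal key
  rw [← integral_eq_lintegral_of_nonneg_ae (ae_of_all _ fun x =>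
      mul_nonneg hc.le (mul_nonneg (D_nonneg _) (hpn x))) (hD.const_mul c0).aestronglyMeasurable,
    ENNReal.toReal_mul, ← integral_eq_lintegral_of_nonneg_ae (ae_of_all _ fun b =>
      mul_nonneg (abs_nonneg _) (hs.toPos.pos b).le)
      (proj_integrable_hz hs.toPos.bd u).aestronglyMeasurable, integral_const_mul] at key2
  rw [hz, div_mul_eq_mul_div, eq_div_iff hc.ne', ← key2, mul_comm]

theorem PP_hz {m i : ℕ} (hm : finrank ℝ V = m + 1) (h1 : 1 ≤ m) (hi : i ≤ m) :
    ∃ c : ℝ, 0 < c ∧ ∀ f : V → ℝ, Den f → ∀ u : V, ‖u‖ = 1 →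
      PP i (hz f) u = c * hz (sk i f) u := by
  obtain ⟨c, hc, h⟩ := PP_hz_eq (V := V) i
  obtain ⟨c', hc', h'⟩ := bp_supp hm h1 hi
  exact ⟨c * c', mul_pos hc hc', fun f hf u hu => by rw [h f hf.toPos u, h' f hf u hu, mul_assoc]⟩

theorem integral_sk_le {m k : ℕ} (hm : finrank ℝ V = m + 1) (h1 : 1 ≤ m) (hk : k ≤ m)
    {f : V → ℝ} (hf : Den f) :
    ∫ y, sk k f y ∂(stdGaussian V) ≤ (∫ x, f x ∂(stdGaussian V)) ^ k := by
  have hk' : k ≤ finrank ℝ V := by omega
  have h := af hk' hf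
  rw [← bp_mass hm h1 hk hf, mul_comm] at h
  exact le_of_mul_le_mul_left h (integral_D_pos hk')

theorem le_integral_Rd {m : ℕ} (hm : finrank ℝ V = m + 1) (h1 : 1 ≤ m) {f : V → ℝ} (hf : Den f) :
    ∫ x, f x ∂(stdGaussian V) ≤ ∫ y, Rd f y ∂(stdGaussian V) := by
  have hn : 1 ≤ finrank ℝ V := by omega
  have hmp : MeasurePreserving (fun x : Fin 1 → V => x 0) (γk V 1) (stdGaussian V) :=
    measurePreserving_eval (fun _ : Fin 1 => stdGaussian V) 0
  have hint : ∀ ψ : V → ℝ, Measurable ψ →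
      ∫ x, ψ (x 0) ∂(γk V 1) = ∫ y, ψ y ∂(stdGaussian V) := fun ψ hψ => by
    rw [← hmp.map_eq, integral_map hmp.measurable.aemeasurable hψ.aestronglyMeasurable]
  have h := bp_mass hm h1 h1 hf
  have hpos := integral_D_pos (V := V) hn
  simp only [D_one, Fin.prod_univ_one] at h hpos
  have hr := radial_indep hn 1 hf.toPos.bd (fun x => (hf.toPos.pos x).le) hf.hom
  simp only [pow_one] at hr
  rw [hint (fun y => ‖y‖) measurable_norm] at h hpos
  rw [hint (fun y => ‖y‖ * f y) (measurable_norm.mul hf.meas), hr, mul_comm] at h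
  rw [← mul_left_cancel₀ hpos.ne' h]
  refine integral_mono_ae ((den_sk hm h1 h1 hf).toPos.bd.integrable _)
    ((pos_Rd hf.toPos).bd.integrable _) ((ae_ne_zero hn).mono fun y hy => ?_)
  simpa using sk_le hm h1 h1 hf hy

end Pool.Agent.P.MP_181257_gt
end
end

-- part Pool.Agent.P.MP_181257_gt.BPG
section

/-! The Blaschke-Petkantschin formula in arbitrary codimension. -/

set_option autoImplicit false
set_option linter.unusedSectionVars false

open MeasureTheory ProbabilityTheory Module Set Filter Topology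
open scoped RealInnerProductSpace ENNReal Pointwise Matrix

noncomputable section

namespace Pool.Agent.P.MP_181257_gt

variable {V : Type} [NormedAddCommGroup V] [InnerProductSpace ℝ V] [FiniteDimensional ℝ V]
  [MeasurableSpace V] [BorelSpace V]

theorem exists_transfer (q : ℕ) : ∀ (i : ℕ) (V : Type) [NormedAddCommGroup V]
    [InnerProductSpace ℝ V] [FiniteDimensional ℝ V] [MeasurableSpace V] [BorelSpace V],
    finrank ℝ V = q + i → ∀ x : Fin i → V, D x ≠ 0 →
      ∃ (ι : EuclideanSpace ℝ (Fin q) →ₗᵢ[ℝ] V) (T : V → EuclideanSpace ℝ (Fin q)),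
        MeasurePreserving T (stdGaussian V) (stdGaussian (EuclideanSpace ℝ (Fin q))) ∧
        ∀ b, ι (T b) = Pj i x b := by
  intro i
  induction i with
  | zero =>
    intro V _ _ _ _ _ hV x _
    let e : V ≃ₗᵢ[ℝ] EuclideanSpace ℝ (Fin q) :=
      ((stdOrthonormalBasis ℝ V).reindex (finCongr hV)).repr
    refine ⟨e.symm.toLinearIsometry, e, ?_, fun b => by simp⟩
    exact mp_coiso e e.continuous.measurable e.symm
      (fun z t => by rw [← e.inner_map_map z, e.apply_symm_apply]) (fun t => e.symm.norm_map t)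
  | succ i ih =>
    intro V _ _ _ _ _ hV x hx
    rw [D_succ] at hx
    have ha : x 0 ≠ 0 := norm_ne_zero_iff.1 (left_ne_zero_of_mul hx)
    have hW : finrank ℝ (ℝ ∙ x 0)ᗮ = q + i := by
      have := finrank_orth ha
      omega
    have hD : D (fun j : Fin i => prS (x 0) (x j.succ)) ≠ 0 := by
      rw [← D_map (ℝ ∙ x 0)ᗮ.subtypeₗᵢ]
      exact right_ne_zero_of_mul hx
    obtain ⟨ι, T, hT, h⟩ := ih (ℝ ∙ x 0)ᗮ hW _ hD
    refine ⟨(ℝ ∙ x 0)ᗮ.subtypeₗᵢ.comp ι, fun b => T (prS (x 0) b), hT.comp (mp_prS (x 0)),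
      fun b => ?_⟩
    rw [Pj_succ]
    show (ℝ ∙ x 0)ᗮ.subtypeₗᵢ (ι (T (prS (x 0) b))) = _
    rw [h, map_Pj]
    rfl

/-- the mean norm of a Gaussian vector depends on the dimension only -/
theorem bpg_mean (n : ℕ) (hn : 1 ≤ n) : ∃ m : ℝ≥0∞, m ≠ 0 ∧ m ≠ ∞ ∧
    ∀ (V : Type) [NormedAddCommGroup V] [InnerProductSpace ℝ V] [FiniteDimensional ℝ V]
      [MeasurableSpace V] [BorelSpace V], finrank ℝ V = n →
      ∫⁻ x, ENNReal.ofReal ‖x‖ ∂(stdGaussian V) = m := by
  have hE : finrank ℝ (EuclideanSpace ℝ (Fin n)) = n := by simp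
  refine ⟨∫⁻ x, ENNReal.ofReal ‖x‖ ∂(stdGaussian (EuclideanSpace ℝ (Fin n))), ?_, ?_, ?_⟩
  · intro h
    rw [lintegral_eq_zero_iff (by fun_prop)] at h
    have h1 : ∀ᵐ x ∂(stdGaussian (EuclideanSpace ℝ (Fin n))), False := by
      filter_upwards [h, ae_ne_zero (V := EuclideanSpace ℝ (Fin n)) (by omega)] with x hx hx0
      simp only [Pi.zero_apply, ENNReal.ofReal_eq_zero] at hx
      exact hx0 (norm_le_zero_iff.1 hx)
    rw [eventually_false_iff_eq_bot, ae_eq_bot] at h1
    exact IsProbabilityMeasure.ne_zero _ h1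
  · have hi := integrable_norm_pow (V := EuclideanSpace ℝ (Fin n)) 1
    simp only [pow_one] at hi
    exact hi.lintegral_lt_top.ne
  · intro V _ _ _ _ _ hV
    have h1 := lintegral_norm_rad (V := V) (by omega) ENNReal.measurable_ofReal
    have h2 := lintegral_norm_rad (V := EuclideanSpace ℝ (Fin n)) (by omega)
      ENNReal.measurable_ofReal
    rw [hV] at h1
    rw [hE] at h2
    exact (ENNReal.mul_left_inj (rad_one_ne_zero n) (rad_one_ne_top n)).1 (h1.trans h2.symm)

/-- the inner integral of the formula -/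
def bpgIn (q i p : ℕ) (Ψ : (Fin q → V) → ℝ≥0∞) (x : Fin i → V) : ℝ≥0∞ :=
  ∫⁻ b, ENNReal.ofReal (D (fun l => Pj i x (b l)) ^ p) * Ψ (fun l => Pj i x (b l)) ∂(γk V q)

theorem bpg_meas_in (q i p : ℕ) {Ψ : (Fin q → V) → ℝ≥0∞} (hΨ : Measurable Ψ) :
    Measurable (bpgIn q i p Ψ) := by
  have h : Measurable fun z : (Fin i → V) × (Fin q → V) => fun l => Pj i z.1 (z.2 l) :=
    measurable_pi_lambda _ fun l => measurable_Pj i measurable_fst (by fun_prop)
  exact Measurable.lintegral_prod_right' (f := fun z : (Fin i → V) × (Fin q → V) =>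
    ENNReal.ofReal (D (fun l => Pj i z.1 (z.2 l)) ^ p) * Ψ (fun l => Pj i z.1 (z.2 l)))
    (((measurable_D h).pow_const p).ennreal_ofReal.mul (hΨ.comp h))

theorem bpg_meas_cons (i : ℕ) :
    Measurable fun z : V × (Fin i → V) => (Fin.cons z.1 z.2 : Fin (i + 1) → V) :=
  (mp_cons (k := i) (stdGaussian V)).measurable

/-- the formula inside the hyperplane orthogonal to `a`, written in the ambient space -/
theorem bpg_hyper (q i : ℕ) (C : ℝ≥0∞) (a : V) {Ψ : (Fin q → V) → ℝ≥0∞} (hΨ : Measurable Ψ)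
    (h : ∀ Φ : (Fin q → (ℝ ∙ a)ᗮ) → ℝ≥0∞, Measurable Φ → ∫⁻ y, Φ y ∂(γk (ℝ ∙ a)ᗮ q)
      = C * ∫⁻ x, ENNReal.ofReal (D x) * bpgIn q i i Φ x ∂(γk (ℝ ∙ a)ᗮ i)) :
    ∫⁻ y, ENNReal.ofReal (D fun j => pr a (y j)) * Ψ (fun j => pr a (y j)) ∂(γk V q)
      = C * ∫⁻ x, ENNReal.ofReal (D fun j => pr a (x j)) *
        bpgIn q (i + 1) (i + 1) Ψ (Fin.cons a x) ∂(γk V i) := by
  have hT : ∀ k : ℕ, MeasurePreserving (fun (x : Fin k → V) j => prS a (x j)) (γk V k)
      (γk (ℝ ∙ a)ᗮ k) := fun k => measurePreserving_pi _ _ fun _ => mp_prS a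
  have hD : ∀ (k : ℕ) (z : Fin k → (ℝ ∙ a)ᗮ), D (fun j => (z j : V)) = D z :=
    fun k z => D_map (ℝ ∙ a)ᗮ.subtypeₗᵢ z
  set Φ : (Fin q → (ℝ ∙ a)ᗮ) → ℝ≥0∞ :=
    fun z => ENNReal.ofReal (D z) * Ψ (fun j => (z j : V)) with hΦ
  have hΦm : Measurable Φ :=
    (measurable_D measurable_id).ennreal_ofReal.mul (hΨ.comp (by fun_prop))
  have h1 : ∫⁻ y, ENNReal.ofReal (D fun j => pr a (y j)) * Ψ (fun j => pr a (y j)) ∂(γk V q)
      = ∫⁻ y, Φ y ∂(γk (ℝ ∙ a)ᗮ q) := by
    rw [← (hT q).lintegral_comp hΦm]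
    refine lintegral_congr fun y => ?_
    simp only [hΦ, coe_prS]
    rw [← hD q]
    rfl
  rw [h1, h Φ hΦm]
  congr 1
  have hA : Measurable fun x : Fin i → (ℝ ∙ a)ᗮ => ENNReal.ofReal (D x) * bpgIn q i i Φ x :=
    (measurable_D measurable_id).ennreal_ofReal.mul (bpg_meas_in q i i hΦm)
  rw [← (hT i).lintegral_comp hA]
  refine lintegral_congr fun x => ?_
  rw [← hD i]
  congr 1
  have hm : Measurable fun b : Fin q → (ℝ ∙ a)ᗮ => fun l => Pj i (fun j => prS a (x j)) (b l) :=
    measurable_pi_lambda _ fun l => measurable_Pj i measurable_const (by fun_prop)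
  have hB : Measurable fun b : Fin q → (ℝ ∙ a)ᗮ =>
      ENNReal.ofReal (D (fun l => Pj i (fun j => prS a (x j)) (b l)) ^ i) *
        Φ (fun l => Pj i (fun j => prS a (x j)) (b l)) :=
    ((measurable_D hm).pow_const i).ennreal_ofReal.mul (hΦm.comp hm)
  unfold bpgIn
  rw [← (hT q).lintegral_comp hB]
  refine lintegral_congr fun b => ?_
  have e : ∀ l, Pj (i + 1) (Fin.cons a x : Fin (i + 1) → V) (b l)
      = (Pj i (fun j => prS a (x j)) (prS a (b l)) : V) := by
    intro l
    rw [Pj_succ]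
    exact (map_Pj (ℝ ∙ a)ᗮ.subtypeₗᵢ (fun j => prS a (x j)) (prS a (b l))).symm
  simp only [e, hΦ, hD q]
  rw [pow_succ, ENNReal.ofReal_mul (pow_nonneg (D_nonneg _) _), mul_assoc]

theorem bpg (q : ℕ) : ∀ i : ℕ, ∃ C : ℝ≥0∞, C ≠ 0 ∧ C ≠ ∞ ∧
    ∀ (V : Type) [NormedAddCommGroup V] [InnerProductSpace ℝ V] [FiniteDimensional ℝ V]
      [MeasurableSpace V] [BorelSpace V], finrank ℝ V = q + i →
      ∀ Ψ : (Fin q → V) → ℝ≥0∞, Measurable Ψ →
      ∫⁻ y, Ψ y ∂(γk V q) = C * ∫⁻ x, ENNReal.ofReal (D x) *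
        ∫⁻ b, ENNReal.ofReal (D (fun l => Pj i x (b l)) ^ i) * Ψ (fun l => Pj i x (b l))
          ∂(γk V q) ∂(γk V i) := by
  intro i
  induction i with
  | zero =>
    refine ⟨1, one_ne_zero, ENNReal.one_ne_top, ?_⟩
    intro V _ _ _ _ _ _ Ψ _
    simp
  | succ i ih =>
    obtain ⟨C2, h20, h2t, h2⟩ := ih
    obtain ⟨C1, h10, h1t, h1⟩ := bp 0 q (q + (i + 1)) (by omega)
    obtain ⟨m, hm0, hmt, hm⟩ := bpg_mean (q + (i + 1)) (by omega)
    refine ⟨C1 * C2 * m⁻¹, mul_ne_zero (mul_ne_zero h10 h20) (ENNReal.inv_ne_zero.2 hmt),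
      ENNReal.mul_ne_top (ENNReal.mul_ne_top h1t h2t) (ENNReal.inv_ne_top.2 hm0), ?_⟩
    intro V _ _ _ _ _ hV Ψ hΨ
    have hn : 1 ≤ finrank ℝ V := by omega
    set H : V → ℝ≥0∞ := fun a => ∫⁻ x, ENNReal.ofReal (D fun j => pr a (x j)) *
      bpgIn q (i + 1) (i + 1) Ψ (Fin.cons a x) ∂(γk V i) with hH
    have hI : Measurable fun z : V × (Fin i → V) => ENNReal.ofReal (D fun j => pr z.1 (z.2 j)) *
        bpgIn q (i + 1) (i + 1) Ψ (Fin.cons z.1 z.2) :=
      (measurable_D (by fun_prop)).ennreal_ofReal.mul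
        ((bpg_meas_in q (i + 1) (i + 1) hΨ).comp (bpg_meas_cons i))
    have hHm : Measurable H := Measurable.lintegral_prod_right' hI
    have hom : ∀ t : ℝ, 0 < t → ∀ a, H (t • a) = H a := by
      intro t ht a
      simp only [hH, bpgIn, Pj_succ, Fin.cons_zero, Fin.cons_succ, pr_smul_left ht.ne']
    have e1 := h1 V hV (fun z => Ψ z.1) (hΨ.comp measurable_fst) (by intro x y t _; simp)
    simp only [lintegral_const, measure_univ, mul_one] at e1
    have e2 : ∫⁻ a, ∫⁻ y, ENNReal.ofReal (D fun j => pr a (y j)) * Ψ (fun j => pr a (y j))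
        ∂(γk V q) ∂(stdGaussian V) = C2 * ∫⁻ a, H a ∂(stdGaussian V) := by
      rw [← lintegral_const_mul _ hHm]
      refine lintegral_congr_ae ?_
      filter_upwards [ae_ne_zero hn] with a ha
      have hW : finrank ℝ (ℝ ∙ a)ᗮ = q + i := by
        have := finrank_orth ha
        omega
      exact bpg_hyper q i C2 a hΨ (h2 _ hW)
    have e3 : ∫⁻ x, ENNReal.ofReal (D x) * bpgIn q (i + 1) (i + 1) Ψ x ∂(γk V (i + 1))
        = m * ∫⁻ a, H a ∂(stdGaussian V) := by
      have hF : Measurable fun x : Fin (i + 1) → V =>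
          ENNReal.ofReal (D x) * bpgIn q (i + 1) (i + 1) Ψ x :=
        (measurable_D measurable_id).ennreal_ofReal.mul (bpg_meas_in q (i + 1) (i + 1) hΨ)
      have hG : Measurable fun z : V × (Fin i → V) =>
          ENNReal.ofReal (D (Fin.cons z.1 z.2 : Fin (i + 1) → V)) *
            bpgIn q (i + 1) (i + 1) Ψ (Fin.cons z.1 z.2) := hF.comp (bpg_meas_cons i)
      rw [← (mp_cons (k := i) (stdGaussian V)).lintegral_comp hF,
        lintegral_prod _ hG.aemeasurable, ← hm V hV,
        ← radial_indep_lintegral hn ENNReal.measurable_ofReal hHm hom]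
      refine lintegral_congr fun a => ?_
      have hJ : Measurable fun x : Fin i → V => ENNReal.ofReal (D fun j => pr a (x j)) *
          bpgIn q (i + 1) (i + 1) Ψ (Fin.cons a x) := hI.comp measurable_prodMk_left
      rw [hH, ← lintegral_const_mul _ hJ]
      refine lintegral_congr fun x => ?_
      rw [D_cons, ENNReal.ofReal_mul (norm_nonneg _), mul_assoc]
    show _ = C1 * C2 * m⁻¹ *
      ∫⁻ x, ENNReal.ofReal (D x) * bpgIn q (i + 1) (i + 1) Ψ x ∂(γk V (i + 1))
    rw [e1, e2, e3, mul_assoc, mul_assoc, ← mul_assoc m⁻¹, ENNReal.inv_mul_cancel hm0 hmt, one_mul]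

end Pool.Agent.P.MP_181257_gt
end
end

-- part Pool.Agent.P.MP_181257_gt.Quant
section

/-! The quantile map of a bounded set of reals. -/

set_option autoImplicit false
set_option linter.unusedSectionVars false

open MeasureTheory ProbabilityTheory Module Set Filter Topology
open scoped RealInnerProductSpace ENNReal Pointwise Matrix

noncomputable section

namespace Pool.Agent.P.MP_181257_gt

variable {V : Type} [NormedAddCommGroup V] [InnerProductSpace ℝ V] [FiniteDimensional ℝ V]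
  [MeasurableSpace V] [BorelSpace V]

/-- the centred open interval with the length of `A` -/
def cen (A : Set ℝ) : Set ℝ := Ioo (-(volume.real A / 2)) (volume.real A / 2)

theorem exists_quantile {A : Set ℝ} (hA : MeasurableSet A) (hb : Bornology.IsBounded A) :
    ∃ τ : ℝ → ℝ, MeasurePreserving τ (volume.restrict (cen A)) (volume.restrict A) ∧
      ∀ s, 0 ≤ s → s < volume.real A / 2 → 2 * s ≤ τ s - τ (-s) := by
  obtain ⟨R, hR, hAR⟩ := hb.subset_ball_lt 0 0
  rw [Real.ball_eq_Ioo, zero_sub, zero_add] at hAR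
  have hfin : volume A ≠ ∞ := hb.measure_lt_top.ne
  have hfin' : ∀ B, volume (A ∩ B) ≠ ∞ := fun B =>
    ne_top_of_le_ne_top hfin (measure_mono inter_subset_left)
  set a := volume.real A / 2 with ha
  let c : ℝ → ℝ := fun t => volume.real (A ∩ Iic t) - a
  have hmono : Monotone c := fun t t' h => sub_le_sub_right
    (measureReal_mono (inter_subset_inter_right _ (Iic_subset_Iic.2 h)) (hfin' _)) a
  have hlip : ∀ t t', t ≤ t' → c t' ≤ c t + (t' - t) := by
    intro t t' h
    have h1 : A ∩ Iic t' ⊆ A ∩ Iic t ∪ Ioc t t' := fun x hx =>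
      (le_or_gt x t).imp (fun h2 => ⟨hx.1, h2⟩) fun h2 => ⟨h2, hx.2⟩
    have h2 := (measureReal_mono h1 (measure_union_ne_top (hfin' _) measure_Ioc_lt_top.ne)).trans
      (measureReal_union_le _ _)
    rw [Real.volume_real_Ioc_of_le h] at h2
    simp only [c]
    linarith
  have hlo : c (-R) = -a := by
    have h1 : A ∩ Iic (-R) = ∅ :=
      eq_empty_of_forall_notMem fun x hx => absurd (hAR hx.1).1 (not_lt.2 hx.2)
    simp [c, h1]
  have hhi : c R = a := by
    have h1 : A ∩ Iic R = A := inter_eq_left.2 fun x hx => (hAR hx).2.le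
    simp only [c, h1, ha]
    ring
  have hc1 : ∀ t, -a ≤ c t := fun t => by
    have := measureReal_nonneg (μ := volume) (s := A ∩ Iic t)
    simp only [c]
    linarith
  have hc2 : ∀ t, c t ≤ a := fun t => by
    have := measureReal_mono (μ := volume) (inter_subset_left : A ∩ Iic t ⊆ A) hfin
    simp only [c]
    linarith
  let S : ℝ → Set ℝ := fun s => {t | -R ≤ t ∧ (s ≤ c t ∨ t = R)}
  have hne : ∀ s, (S s).Nonempty := fun s => ⟨R, by linarith, Or.inr rfl⟩
  have hbd : ∀ s, BddBelow (S s) := fun s => ⟨-R, fun t ht => ht.1⟩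
  let τ : ℝ → ℝ := fun s => sInf (S s)
  have hτ : Monotone τ := fun s s' h =>
    csInf_le_csInf (hbd s) (hne s') fun t ht => ⟨ht.1, ht.2.imp_left h.trans⟩
  have key : ∀ s, -a < s → s < a → ∀ t, τ s ≤ t ↔ s ≤ c t := by
    intro s h1 h2 t
    refine ⟨fun h => le_trans ?_ (hmono h), fun h => csInf_le (hbd s) ⟨?_, Or.inl h⟩⟩
    · have h3 : s - c (τ s) + τ s ≤ τ s := le_csInf (hne s) fun u hu => by
        have h4 : s ≤ c u := hu.2.elim id fun h5 => by rw [h5, hhi]; exact h2.le
        have h5 := hlip (τ s) u (csInf_le (hbd s) hu)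
        linarith
      linarith
    · by_contra h3
      have h4 := hmono (not_le.1 h3).le
      linarith
  refine ⟨τ, ⟨hτ.measurable, ?_⟩, fun s h0 h1 => ?_⟩
  · have : IsFiniteMeasure (volume.restrict (cen A)) :=
      isFiniteMeasure_restrict.2 measure_Ioo_lt_top.ne
    refine Measure.ext_of_Iic _ _ fun t => ?_
    rw [Measure.map_apply hτ.measurable measurableSet_Iic,
      Measure.restrict_apply (hτ.measurable measurableSet_Iic),
      Measure.restrict_apply measurableSet_Iic, inter_comm _ A, ← ofReal_measureReal (hfin' _),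
      show volume.real (A ∩ Iic t) = c t - -a by simp only [c]; ring]
    refine le_antisymm ?_ ?_
    · rw [← Real.volume_Ioc]
      exact measure_mono fun s hs => ⟨hs.2.1, (key s hs.2.1 hs.2.2 t).1 hs.1⟩
    · rw [← Real.volume_Ioo]
      exact measure_mono fun s hs => ⟨(key s hs.1 (hs.2.trans_le (hc2 t)) t).2 hs.2.le, hs.1,
        hs.2.trans_le (hc2 t)⟩
  · have h2 := (key s (by linarith) h1 (τ s)).1 le_rfl
    have h3 := hlip (τ s - 2 * s) (τ s) (by linarith)
    have h4 := (key (-s) (by linarith) (by linarith) (τ s - 2 * s)).2 (by linarith)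
    linarith

end Pool.Agent.P.MP_181257_gt
end
end

-- part Pool.Agent.P.MP_181257_gt.SteinA
section

/-! Steiner symmetrisation: measure, containment, gain. -/

set_option autoImplicit false
set_option linter.unusedSectionVars false

open MeasureTheory ProbabilityTheory Module Set Filter Topology
open scoped RealInnerProductSpace ENNReal Pointwise Matrix

noncomputable section

namespace Pool.Agent.P.MP_181257_gt

variable {V : Type} [NormedAddCommGroup V] [InnerProductSpace ℝ V] [FiniteDimensional ℝ V]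
  [MeasurableSpace V] [BorelSpace V]

/-- the section of `S` along the line through `z` with direction `v` -/
def sec (v : V) (S : Set V) (z : V) : Set ℝ := {t | z + t • v ∈ S}

/-- the Steiner symmetral of `S` in direction `v` -/
def St (v : V) (S : Set V) : Set V := {x | ⟪v, x⟫ ∈ cen (sec v S (pr v x))}

theorem mp_vol_split {v : V} (hv : ‖v‖ = 1) :
    MeasurePreserving (fun q : (ℝ ∙ v)ᗮ × ℝ => (q.1 : V) + q.2 • v)
      ((volume : Measure (ℝ ∙ v)ᗮ).prod (volume : Measure ℝ)) (volume : Measure V) := by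
  have h1 := ((ℝ ∙ v).measurePreserving_measurableEquivProd (0 : V)).symm
  rw [InnerProductSpace.euclideanHausdorffMeasure_eq_volume] at h1
  have h2 := (LinearIsometryEquiv.toSpanUnitSingleton (𝕜 := ℝ) v hv).measurePreserving
  have h3 := (h2.prod (MeasurePreserving.id (volume : Measure (ℝ ∙ v)ᗮ))).comp
    (Measure.measurePreserving_swap (μ := (volume : Measure (ℝ ∙ v)ᗮ))
      (ν := (volume : Measure ℝ)))
  have h4 := h1.comp h3
  have e : (fun q : (ℝ ∙ v)ᗮ × ℝ => (q.1 : V) + q.2 • v)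
      = ((ℝ ∙ v).measurableEquivProd (0 : V)).symm ∘
        Prod.map (LinearIsometryEquiv.toSpanUnitSingleton (𝕜 := ℝ) v hv) id ∘ Prod.swap := by
    funext q
    simp [add_comm]
  rw [e]
  exact h4

theorem measurableSet_sec (v : V) {S : Set V} (hS : MeasurableSet S) (z : V) :
    MeasurableSet (sec v S z) := by
  have h : Measurable fun t : ℝ => z + t • v := by fun_prop
  exact h hS

theorem steinA_norm_sq {v z : V} (hv : ‖v‖ = 1) (hz : ⟪v, z⟫ = 0) (t : ℝ) :
    ‖z + t • v‖ ^ 2 = ‖z‖ ^ 2 + t ^ 2 := by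
  rw [norm_add_sq_real, real_inner_smul_right, real_inner_comm, hz, norm_smul, hv]
  simp

theorem steinA_volume {v : V} (hv : ‖v‖ = 1) {T : Set V} (hT : MeasurableSet T) :
    volume T = ∫⁻ z : (ℝ ∙ v)ᗮ, volume (sec v T z) := by
  have h := mp_vol_split hv
  rw [← h.measure_preimage hT.nullMeasurableSet, Measure.prod_apply (h.measurable hT)]
  rfl

theorem steinA_measurable (v : V) {T : Set V} (hT : MeasurableSet T) :
    Measurable fun z : V => volume (sec v T z) := by
  have h : Measurable fun p : V × ℝ => p.1 + p.2 • v := by fun_prop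
  exact measurable_measure_prodMk_left (ν := volume) (h hT)

theorem steinA_volume_cen {A : Set ℝ} (hb : Bornology.IsBounded A) :
    volume (cen A) = volume A := by
  rw [cen, Real.volume_Ioo, sub_neg_eq_add, add_halves, ofReal_measureReal hb.measure_lt_top.ne]

theorem steinA_line {A : Set ℝ} (hA : MeasurableSet A) (hb : Bornology.IsBounded A) (r c : ℝ) :
    volume (A ∩ Ioo (-r) r) + volume ((Ioo (-r) r \ A) ∩ {t | t + c ∈ A \ Ioo (-r) r})
      ≤ volume (cen A ∩ Ioo (-r) r) := by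
  rcases le_total (volume.real A / 2) r with h | h
  · have e : cen A ∩ Ioo (-r) r = cen A :=
      inter_eq_left.2 (Ioo_subset_Ioo (neg_le_neg h) h)
    rw [e, steinA_volume_cen hb, ← measure_inter_add_sdiff A (measurableSet_Ioo (a := -r) (b := r))]
    refine add_le_add le_rfl ?_
    rw [← measure_preimage_add_right volume c (A \ Ioo (-r) r)]
    exact measure_mono inter_subset_right
  · have e : cen A ∩ Ioo (-r) r = Ioo (-r) r :=
      inter_eq_right.2 (Ioo_subset_Ioo (neg_le_neg h) h)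
    rw [e, inter_comm A]
    refine le_trans (add_le_add le_rfl (measure_mono inter_subset_left)) ?_
    exact (measure_inter_add_sdiff _ hA).le

theorem steinA_sec_ball {v z : V} (hv : ‖v‖ = 1) (hz : ⟪v, z⟫ = 0) (ρ : ℝ) :
    ∃ r : ℝ, sec v (Metric.ball 0 ρ) z = Ioo (-r) r := by
  rcases le_or_gt ρ 0 with h | h
  · refine ⟨0, ?_⟩
    rw [Metric.ball_eq_empty.2 h]
    simp [sec]
  · refine ⟨√(ρ ^ 2 - ‖z‖ ^ 2), ?_⟩
    ext t
    simp only [sec, mem_ofPred_eq, mem_ball_zero_iff, mem_Ioo]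
    rw [← abs_lt, Real.lt_sqrt (abs_nonneg t), sq_abs,
      ← sq_lt_sq₀ (norm_nonneg _) h.le, steinA_norm_sq hv hz]
    constructor <;> intro _ <;> linarith

theorem isBounded_sec {v : V} (hv : ‖v‖ = 1) {S : Set V} {R : ℝ}
    (hb : S ⊆ Metric.closedBall 0 R) (z : V) : Bornology.IsBounded (sec v S z) := by
  refine (Metric.isBounded_closedBall (x := (0 : ℝ)) (r := R + ‖z‖)).subset fun t ht => ?_
  have h1 := hb ht
  rw [mem_closedBall_zero_iff] at h1 ⊢
  have h2 : ‖t • v‖ ≤ ‖z + t • v‖ + ‖z‖ := by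
    have := norm_sub_le (z + t • v) z
    rwa [add_sub_cancel_left] at this
  rw [norm_smul, hv, mul_one] at h2
  linarith

theorem sec_St {v : V} (hv : ‖v‖ = 1) (S : Set V) {z : V} (hz : ⟪v, z⟫ = 0) :
    sec v (St v S) z = cen (sec v S z) := by
  ext t
  have h1 : ⟪v, z + t • v⟫ = t := by
    rw [inner_add_right, hz, real_inner_smul_right, real_inner_self_eq_norm_sq, hv]
    simp
  have h2 : pr v (z + t • v) = z := by
    rw [pr_add, pr_smul, pr_self, pr_of_inner_eq_zero hz]
    simp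
  simp only [sec, St, mem_ofPred_eq, h1, h2]

theorem measurableSet_St (v : V) {S : Set V} (hS : MeasurableSet S) :
    MeasurableSet (St v S) := by
  have h1 : Measurable fun x : V => volume.real (sec v S (pr v x)) :=
    ((steinA_measurable v hS).comp
      (measurable_pr measurable_const measurable_id)).ennreal_toReal
  have h2 : Measurable fun x : V => ⟪v, x⟫ := by fun_prop
  exact (measurableSet_lt (h1.div_const 2).neg h2).inter (measurableSet_lt h2 (h1.div_const 2))

theorem St_subset {v : V} (hv : ‖v‖ = 1) {S : Set V} {R : ℝ} (hb : S ⊆ Metric.closedBall 0 R) :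
    St v S ⊆ Metric.closedBall 0 R := by
  intro x hx
  set z := pr v x with hz
  have hz0 : ⟪v, z⟫ = 0 := inner_pr_self v x
  have h1 : |⟪v, x⟫| < volume.real (sec v S z) / 2 := abs_lt.2 hx
  have h2 : sec v S z ⊆ Icc (-√(R ^ 2 - ‖z‖ ^ 2)) √(R ^ 2 - ‖z‖ ^ 2) := by
    intro t ht
    have h3 := hb ht
    rw [mem_closedBall_zero_iff] at h3
    have h4 := pow_le_pow_left₀ (norm_nonneg _) h3 2
    rw [steinA_norm_sq hv hz0] at h4
    exact abs_le.1 (Real.abs_le_sqrt (by linarith))
  have h5 := measureReal_mono (μ := volume) h2 isCompact_Icc.measure_lt_top.ne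
  rw [Real.volume_real_Icc_of_le (by linarith [Real.sqrt_nonneg (R ^ 2 - ‖z‖ ^ 2)])] at h5
  have h6 : |⟪v, x⟫| < √(R ^ 2 - ‖z‖ ^ 2) := by linarith
  rw [Real.lt_sqrt (abs_nonneg _), sq_abs] at h6
  obtain ⟨t, ht⟩ : (sec v S z).Nonempty := by
    refine nonempty_of_measureReal_ne_zero (μ := volume) ?_
    have := abs_nonneg ⟪v, x⟫
    linarith
  have hR : 0 ≤ R := (norm_nonneg _).trans (mem_closedBall_zero_iff.1 (hb ht))
  have h7 := norm_sq_pr v x
  rw [hv, ← hz] at h7
  rw [mem_closedBall_zero_iff]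
  refine (sq_le_sq₀ (norm_nonneg _) hR).1 ?_
  linarith

theorem volume_St {v : V} (hv : ‖v‖ = 1) {S : Set V} (hS : MeasurableSet S) {R : ℝ}
    (hb : S ⊆ Metric.closedBall 0 R) : volume (St v S) = volume S := by
  rw [steinA_volume hv hS, steinA_volume hv (measurableSet_St v hS)]
  refine lintegral_congr fun z => ?_
  rw [sec_St hv S (Submodule.mem_orthogonal_singleton_iff_inner_right.1 z.2),
    steinA_volume_cen (isBounded_sec hv hb _)]

theorem St_gain {v : V} (hv : ‖v‖ = 1) {S : Set V} (hS : MeasurableSet S) {R : ℝ}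
    (hb : S ⊆ Metric.closedBall 0 R) (ρ c : ℝ) :
    volume (S ∩ Metric.ball 0 ρ)
        + volume ((Metric.ball 0 ρ \ S) ∩ {x | x + c • v ∈ S \ Metric.ball 0 ρ})
      ≤ volume (St v S ∩ Metric.ball 0 ρ) := by
  have hB : MeasurableSet (Metric.ball (0 : V) ρ) := measurableSet_ball
  have h1 : MeasurableSet ((Metric.ball 0 ρ \ S) ∩ {x | x + c • v ∈ S \ Metric.ball 0 ρ}) :=
    (hB.diff hS).inter (measurable_add_const (c • v) (hS.diff hB))
  have h2 : Measurable fun z : (ℝ ∙ v)ᗮ => volume (sec v (S ∩ Metric.ball 0 ρ) z) :=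
    (steinA_measurable v (hS.inter hB)).comp measurable_subtype_coe
  rw [steinA_volume hv (hS.inter hB), steinA_volume hv h1,
    steinA_volume hv ((measurableSet_St v hS).inter hB), ← lintegral_add_left h2]
  refine lintegral_mono fun z => ?_
  have hz : ⟪v, (z : V)⟫ = 0 := Submodule.mem_orthogonal_singleton_iff_inner_right.1 z.2
  obtain ⟨r, hr⟩ := steinA_sec_ball hv hz ρ
  have e1 : sec v (S ∩ Metric.ball 0 ρ) z = sec v S z ∩ Ioo (-r) r := by
    rw [← hr]
    rfl
  have e2 : sec v ((Metric.ball 0 ρ \ S) ∩ {x | x + c • v ∈ S \ Metric.ball 0 ρ}) z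
      = (Ioo (-r) r \ sec v S z) ∩ {t | t + c ∈ sec v S z \ Ioo (-r) r} := by
    rw [← hr]
    ext t
    simp only [sec, mem_ofPred_eq, mem_inter_iff, Set.mem_sdiff, add_smul, add_assoc]
  have e3 : sec v (St v S ∩ Metric.ball 0 ρ) z = cen (sec v S z) ∩ Ioo (-r) r := by
    rw [← hr, ← sec_St hv S hz]
    rfl
  simp only
  rw [e1, e2, e3]
  exact steinA_line (measurableSet_sec v hS _) (isBounded_sec hv hb _) r c

end Pool.Agent.P.MP_181257_gt
end
end

-- part Pool.Agent.P.MP_181257_gt.Box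
section

/-! Rearrangement on the line for even convex kernels. -/

set_option autoImplicit false
set_option linter.unusedSectionVars false

open MeasureTheory ProbabilityTheory Module Set Filter Topology
open scoped RealInnerProductSpace ENNReal Pointwise Matrix

noncomputable section

namespace Pool.Agent.P.MP_181257_gt

variable {V : Type} [NormedAddCommGroup V] [InnerProductSpace ℝ V] [FiniteDimensional ℝ V]
  [MeasurableSpace V] [BorelSpace V]

theorem box_mp_sign (A : Set ℝ) (ε : ℤˣ) :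
    MeasurePreserving (fun x : ℝ => ε • x) (volume.restrict (cen A)) (volume.restrict (cen A)) := by
  rcases Int.units_eq_one_or ε with rfl | rfl
  · simp only [one_smul]
    exact MeasurePreserving.id _
  · have h := (Measure.measurePreserving_neg (volume : Measure ℝ)).restrict_preimage
      (s := cen A) measurableSet_Ioo
    have e : Neg.neg ⁻¹' cen A = cen A := by
      ext x
      simp only [cen, mem_preimage, mem_Ioo]
      constructor <;> rintro ⟨h1, h2⟩ <;> constructor <;> linarith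
    rw [e] at h
    have e2 : (fun x : ℝ => (-1 : ℤˣ) • x) = Neg.neg := funext fun x => by simp
    rwa [e2]

theorem box_sum_le {k : ℕ} {Φ : (Fin k → ℝ) → ℝ} (hc : ConvexOn ℝ univ Φ) {s t : Fin k → ℝ}
    (h : ∀ l, |s l| ≤ |t l|) :
    ∑ e : Fin k → ℤˣ, Φ (e • s) ≤ ∑ e : Fin k → ℤˣ, Φ (e • t) := by
  have hΨ : ConvexOn ℝ univ fun x : Fin k → ℝ => ∑ e : Fin k → ℤˣ, Φ (e • x) := by
    refine ⟨convex_univ, fun x _ y _ a b ha hb hab => ?_⟩
    simp only [Finset.smul_sum, ← Finset.sum_add_distrib]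
    refine Finset.sum_le_sum fun e _ => ?_
    have h1 := hc.2 (mem_univ (e • x)) (mem_univ (e • y)) ha hb hab
    have e1 : e • (a • x + b • y) = a • e • x + b • e • y := by
      ext l
      simp only [Pi.smul_apply', Pi.add_apply, Pi.smul_apply, smul_add, smul_comm (e l)]
    rwa [e1]
  have hs : s ∈ convexHull ℝ (Set.pi univ fun l => ({-|t l|, |t l|} : Set ℝ)) := by
    rw [convexHull_pi]
    intro l _
    beta_reduce
    rw [convexHull_pair, segment_eq_Icc (neg_le_self (abs_nonneg _))]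
    exact abs_le.1 (h l)
  obtain ⟨y, hy, hle⟩ := hΨ.exists_ge_of_mem_convexHull (subset_univ _) hs
  have hex : ∀ l, ∃ ε : ℤˣ, y l = ε • t l := by
    intro l
    have h1 := hy l (mem_univ _)
    simp only [mem_insert_iff, mem_singleton_iff] at h1
    rcases h1 with h1 | h1 <;> rcases abs_choice (t l) with h2 | h2 <;> rw [h2] at h1
    · exact ⟨-1, by simpa using h1⟩
    · exact ⟨1, by simpa using h1⟩
    · exact ⟨1, by simpa using h1⟩
    · exact ⟨-1, by simpa using h1⟩
  choose e' he' using hex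
  have e2 : y = e' • t := funext he'
  refine hle.trans (le_of_eq ?_)
  simp only [e2, ← mul_smul]
  exact Equiv.sum_comp (Equiv.mulRight e') fun e => Φ (e • t)

theorem box_le {k : ℕ} {Φ : (Fin k → ℝ) → ℝ} (hc : ConvexOn ℝ univ Φ) (he : ∀ t, Φ (-t) = Φ t)
    (h0 : ∀ t, 0 ≤ Φ t) (hm : Measurable Φ) {A : Fin k → Set ℝ} (hA : ∀ l, MeasurableSet (A l))
    (hb : ∀ l, Bornology.IsBounded (A l)) :
    ∫⁻ t, ENNReal.ofReal (Φ t) ∂(Measure.pi fun l => volume.restrict (cen (A l)))
      ≤ ∫⁻ t, ENNReal.ofReal (Φ t) ∂(Measure.pi fun l => volume.restrict (A l)) := by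
  choose τ hτ hgap using fun l => exists_quantile (hA l) (hb l)
  set Q : Measure (Fin k → ℝ) := Measure.pi fun l => volume.restrict (cen (A l)) with hQ
  set R := ∫⁻ t, ENNReal.ofReal (Φ t) ∂(Measure.pi fun l => volume.restrict (A l)) with hR
  have hF : Measurable fun t => ENNReal.ofReal (Φ t) := hm.ennreal_ofReal
  have hT : MeasurePreserving (fun (s : Fin k → ℝ) l => τ l (s l)) Q
      (Measure.pi fun l => volume.restrict (A l)) := measurePreserving_pi _ _ hτ
  have hE : ∀ e : Fin k → ℤˣ, MeasurePreserving (fun s : Fin k → ℝ => e • s) Q Q := fun e =>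
    measurePreserving_pi _ _ fun l => box_mp_sign (A l) (e l)
  set σ : (Fin k → ℝ) → Fin k → ℝ := fun s l => (τ l (s l) - τ l (-s l)) / 2 with hσ
  have hσm : Measurable σ := by
    refine measurable_pi_lambda _ fun l => Measurable.div_const (Measurable.sub ?_ ?_) _
    · exact (hτ l).measurable.comp (measurable_pi_apply l)
    · exact (hτ l).measurable.comp (measurable_pi_apply l).neg
  have hσe : ∀ (e : Fin k → ℤˣ) (s : Fin k → ℝ), e • σ s = σ (e • s) := by
    intro e s
    ext l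
    simp only [hσ, Pi.smul_apply']
    rcases Int.units_eq_one_or (e l) with h | h <;> rw [h]
    · simp
    · simp only [Units.neg_smul, one_smul, neg_neg]
      ring
  have h1 : ∫⁻ s, ENNReal.ofReal (Φ (σ s)) ∂Q ≤ R := by
    have a1 : ∫⁻ s, ENNReal.ofReal (Φ fun l => τ l (s l)) ∂Q = R := hT.lintegral_comp hF
    have a2 : ∫⁻ s, ENNReal.ofReal (Φ fun l => τ l (-s l)) ∂Q = R := by
      rw [← a1, ← (hE (-1)).lintegral_comp (f := fun s => ENNReal.ofReal (Φ fun l => τ l (s l)))
        (hF.comp hT.measurable)]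
      simp [Pi.smul_apply']
    have a3 : ∀ s, 2 * ENNReal.ofReal (Φ (σ s))
        ≤ ENNReal.ofReal (Φ fun l => τ l (s l)) + ENNReal.ofReal (Φ fun l => τ l (-s l)) := by
      intro s
      have b1 := hc.2 (mem_univ fun l => τ l (s l)) (mem_univ (-fun l => τ l (-s l)))
        (show (0 : ℝ) ≤ 1 / 2 by norm_num) (show (0 : ℝ) ≤ 1 / 2 by norm_num) (by norm_num)
      have b2 : (1 / 2 : ℝ) • (fun l => τ l (s l)) + (1 / 2 : ℝ) • (-fun l => τ l (-s l))
          = σ s := by
        ext l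
        simp only [hσ, Pi.add_apply, Pi.smul_apply, Pi.neg_apply, smul_eq_mul]
        ring
      rw [b2, he, smul_eq_mul, smul_eq_mul] at b1
      rw [← ENNReal.ofReal_add (h0 _) (h0 _), ← ENNReal.ofReal_ofNat,
        ← ENNReal.ofReal_mul (by norm_num)]
      exact ENNReal.ofReal_le_ofReal (by linarith)
    have a4 := lintegral_mono (μ := Q) a3
    have m1 : Measurable fun s : Fin k → ℝ => ENNReal.ofReal (Φ fun l => τ l (s l)) :=
      hF.comp hT.measurable
    rw [lintegral_const_mul' _ _ ENNReal.ofNat_ne_top, lintegral_add_left m1, a1, a2,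
      ← two_mul] at a4
    exact (ENNReal.mul_le_mul_iff_right two_ne_zero ENNReal.ofNat_ne_top).1 a4
  refine le_trans ?_ h1
  have hae : ∀ᵐ s ∂Q, ∀ l, s l ∈ cen (A l) := ae_all_iff.2 fun l =>
    (Measure.quasiMeasurePreserving_eval _ l).ae (ae_restrict_mem measurableSet_Ioo)
  have h2 : ∫⁻ s, ∑ e : Fin k → ℤˣ, ENNReal.ofReal (Φ (e • s)) ∂Q
      ≤ ∫⁻ s, ∑ e : Fin k → ℤˣ, ENNReal.ofReal (Φ (σ (e • s))) ∂Q := by
    refine lintegral_mono_ae (hae.mono fun s hs => ?_)
    simp only [← hσe]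
    rw [← ENNReal.ofReal_sum_of_nonneg fun _ _ => h0 _,
      ← ENNReal.ofReal_sum_of_nonneg fun _ _ => h0 _]
    refine ENNReal.ofReal_le_ofReal (box_sum_le hc fun l => ?_)
    have hl := hs l
    simp only [hσ]
    rcases le_total 0 (s l) with h | h
    · have := hgap l (s l) h hl.2
      rw [abs_of_nonneg h]
      exact le_abs.2 (Or.inl (by linarith))
    · have := hgap l (-s l) (by linarith) (by linarith [hl.1])
      rw [neg_neg] at this
      rw [abs_of_nonpos h]
      exact le_abs.2 (Or.inr (by linarith))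
  have m2 : ∀ e : Fin k → ℤˣ, Measurable fun s => ENNReal.ofReal (Φ (e • s)) := fun e =>
    hF.comp (hE e).measurable
  have m3 : ∀ e : Fin k → ℤˣ, Measurable fun s => ENNReal.ofReal (Φ (σ (e • s))) := fun e =>
    (hF.comp hσm).comp (hE e).measurable
  rw [lintegral_finsetSum _ fun e _ => m2 e, lintegral_finsetSum _ fun e _ => m3 e] at h2
  have c1 : ∀ e : Fin k → ℤˣ, ∫⁻ s, ENNReal.ofReal (Φ (e • s)) ∂Q
      = ∫⁻ s, ENNReal.ofReal (Φ s) ∂Q := fun e => (hE e).lintegral_comp hF
  have c2 : ∀ e : Fin k → ℤˣ, ∫⁻ s, ENNReal.ofReal (Φ (σ (e • s))) ∂Q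
      = ∫⁻ s, ENNReal.ofReal (Φ (σ s)) ∂Q := fun e =>
    (hE e).lintegral_comp (f := fun s => ENNReal.ofReal (Φ (σ s))) (hF.comp hσm)
  simp only [c1, c2, Finset.sum_const, nsmul_eq_mul] at h2
  refine (ENNReal.mul_le_mul_iff_right ?_ (ENNReal.natCast_ne_top _)).1 h2
  exact Nat.cast_ne_zero.2 (Finset.card_pos.2 Finset.univ_nonempty).ne'

end Pool.Agent.P.MP_181257_gt
end
end

-- part Pool.Agent.P.MP_181257_gt.SteinB
section

/-! Steiner symmetrisation decreases the moments of random parallelepipeds. -/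

set_option autoImplicit false
set_option linter.unusedSectionVars false

open MeasureTheory ProbabilityTheory Module Set Filter Topology
open scoped RealInnerProductSpace ENNReal Pointwise Matrix

noncomputable section

namespace Pool.Agent.P.MP_181257_gt

variable {V : Type} [NormedAddCommGroup V] [InnerProductSpace ℝ V] [FiniteDimensional ℝ V]
  [MeasurableSpace V] [BorelSpace V]

/-- the `j`-th moment of the volume spanned by `k` points of `S` -/
def JJ (k j : ℕ) (S : Set V) : ℝ≥0∞ :=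
  ∫⁻ y, ENNReal.ofReal (D y ^ j) ∂(Measure.pi fun _ : Fin k => (volume : Measure V).restrict S)

theorem steinB_det_eq {k : ℕ} (M : Matrix (Fin k) (Fin k) ℝ) (u t : Fin k → ℝ) :
    (Matrix.of fun l j => M l j + u l * t j).det
      = ((Matrix.fromBlocks M (Matrix.of fun l (_ : Unit) => -u l) 0 1).updateRow (Sum.inr ())
          (Sum.elim t fun _ => 1)).det := by
  have h : (Matrix.fromBlocks M (Matrix.of fun l (_ : Unit) => -u l) 0 1).updateRow (Sum.inr ())
      (Sum.elim t fun _ => 1)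
      = Matrix.fromBlocks M (Matrix.of fun l (_ : Unit) => -u l)
          (Matrix.of fun (_ : Unit) j => t j) 1 := by
    ext i j
    rcases i with i | i <;> rcases j with j | j <;> simp [Matrix.updateRow_apply]
  rw [h, Matrix.det_fromBlocks_one₂₂]
  congr 1
  ext i j
  simp [Matrix.mul_apply]

theorem steinB_det_affine {k : ℕ} (M : Matrix (Fin k) (Fin k) ℝ) (u s t : Fin k → ℝ) {a b : ℝ}
    (hab : a + b = 1) :
    (Matrix.of fun l j => M l j + u l * (a • s + b • t) j).det
      = a * (Matrix.of fun l j => M l j + u l * s j).det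
        + b * (Matrix.of fun l j => M l j + u l * t j).det := by
  rw [steinB_det_eq, steinB_det_eq, steinB_det_eq]
  have h : (Sum.elim (a • s + b • t) fun _ : Unit => (1 : ℝ))
      = a • (Sum.elim s fun _ : Unit => (1 : ℝ)) + b • (Sum.elim t fun _ : Unit => (1 : ℝ)) := by
    ext j
    rcases j with j | j <;> simp [hab]
  rw [h, Matrix.det_updateRow_add, Matrix.det_updateRow_smul, Matrix.det_updateRow_smul]

theorem convexOn_D {k : ℕ} (z : Fin k → V) (v : V) :
    ConvexOn ℝ univ fun t : Fin k → ℝ => D fun l => z l + t l • v := by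
  obtain ⟨c, hc, h⟩ := gauss_det (V := V) k
  refine ⟨convex_univ, fun s _ t _ a b ha hb hab => ?_⟩
  refine le_of_mul_le_mul_left ?_ hc
  have e : ∀ (g : Fin k → V) (r : Fin k → ℝ), (Matrix.of fun l j => ⟪g l, z j + r j • v⟫)
      = Matrix.of fun l j => (Matrix.of fun l j => ⟪g l, z j⟫) l j + ⟪g l, v⟫ * r j := by
    intro g r
    ext l j
    simp [inner_add_right, real_inner_smul_right, mul_comm]
  simp only [smul_eq_mul]
  rw [mul_add, mul_left_comm c a, mul_left_comm c b, ← (h _).2, ← (h _).2, ← (h _).2,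
    ← integral_const_mul, ← integral_const_mul,
    ← integral_add ((h _).1.const_mul a) ((h _).1.const_mul b)]
  refine integral_mono (h _).1 (((h _).1.const_mul a).add ((h _).1.const_mul b)) fun g => ?_
  simp only [e]
  rw [steinB_det_affine _ _ _ _ hab]
  refine (abs_add_le _ _).trans ?_
  rw [abs_mul, abs_mul, abs_of_nonneg ha, abs_of_nonneg hb]

theorem D_reflect {k : ℕ} {z : Fin k → V} {v : V} (h : ∀ l, ⟪v, z l⟫ = 0) (t : Fin k → ℝ) :
    D (fun l => z l + (-t) l • v) = D fun l => z l + t l • v := by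
  unfold D
  congr 2
  ext i j
  have h' : ∀ l, ⟪z l, v⟫ = 0 := fun l => by rw [real_inner_comm]; exact h l
  simp [Matrix.gram_apply, inner_add_left, inner_add_right, real_inner_smul_left,
    real_inner_smul_right, h, h']

theorem steinB_JJ (k j : ℕ) {v : V} (hv : ‖v‖ = 1) {T : Set V} (hT : MeasurableSet T) :
    JJ k j T = ∫⁻ z : Fin k → (ℝ ∙ v)ᗮ, ∫⁻ t : Fin k → ℝ,
        ENNReal.ofReal (D (fun l => (z l : V) + t l • v) ^ j)
          ∂(Measure.pi fun l => volume.restrict (sec v T (z l)))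
      ∂(Measure.pi fun _ => (volume : Measure (ℝ ∙ v)ᗮ)) := by
  have h1 := (measurePreserving_arrowProdEquivProdArrow (ℝ ∙ v)ᗮ ℝ (Fin k)
    (fun _ => (volume : Measure (ℝ ∙ v)ᗮ)) (fun _ => (volume : Measure ℝ))).symm
  have h2 := measurePreserving_pi
    (fun _ : Fin k => (volume : Measure (ℝ ∙ v)ᗮ).prod (volume : Measure ℝ))
    (fun _ => (volume : Measure V))
    (f := fun _ => fun q : (ℝ ∙ v)ᗮ × ℝ => (q.1 : V) + q.2 • v) (fun _ => mp_vol_split hv)
  have h3 : MeasurePreserving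
      (fun q : (Fin k → (ℝ ∙ v)ᗮ) × (Fin k → ℝ) => fun l => (q.1 l : V) + q.2 l • v)
      ((Measure.pi fun _ => (volume : Measure (ℝ ∙ v)ᗮ)).prod
        (Measure.pi fun _ => (volume : Measure ℝ)))
      (Measure.pi fun _ => (volume : Measure V)) := h2.comp h1
  have hP : MeasurableSet (univ.pi fun _ : Fin k => T) := MeasurableSet.univ_pi fun _ => hT
  have hF : Measurable fun y : Fin k → V => ENNReal.ofReal (D y ^ j) :=
    ENNReal.measurable_ofReal.comp ((measurable_D measurable_id).pow_const j)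
  unfold JJ
  rw [← Measure.restrict_pi_pi, ← lintegral_indicator hP, ← h3.lintegral_comp (hF.indicator hP)]
  refine (lintegral_prod _ ((hF.indicator hP).comp h3.measurable).aemeasurable).trans ?_
  refine lintegral_congr fun z => ?_
  rw [← Measure.restrict_pi_pi,
    ← lintegral_indicator (MeasurableSet.univ_pi fun l => measurableSet_sec v hT (z l))]
  refine lintegral_congr fun t => ?_
  simp only [Function.comp_apply]
  by_cases ht : t ∈ univ.pi fun l => sec v T (z l)
  · rw [indicator_of_mem ht, indicator_of_mem]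
    exact fun l hl => ht l hl
  · rw [indicator_of_notMem ht, indicator_of_notMem]
    exact fun h => ht fun l hl => h l hl

theorem JJ_St (k j : ℕ) {v : V} (hv : ‖v‖ = 1) {S : Set V} (hS : MeasurableSet S) {R : ℝ}
    (hb : S ⊆ Metric.closedBall 0 R) : JJ k j (St v S) ≤ JJ k j S := by
  rw [steinB_JJ k j hv hS, steinB_JJ k j hv (measurableSet_St v hS)]
  refine lintegral_mono fun z => ?_
  have hz : ∀ l, ⟪v, (z l : V)⟫ = 0 := fun l =>
    Submodule.mem_orthogonal_singleton_iff_inner_right.1 (z l).2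
  simp only [sec_St hv S (hz _)]
  refine box_le (Φ := fun t : Fin k → ℝ => D (fun l => (z l : V) + t l • v) ^ j) ?_ ?_ ?_ ?_
    (fun l => measurableSet_sec v hS _) (fun l => isBounded_sec hv hb _)
  · exact (convexOn_D (fun l => (z l : V)) v).pow (fun _ _ => D_nonneg _) j
  · intro t
    rw [D_reflect (z := fun l => (z l : V)) hz t]
  · exact fun t => pow_nonneg (D_nonneg _) j
  · exact (measurable_D (by fun_prop)).pow_const j

end Pool.Agent.P.MP_181257_gt
end
end

-- part Pool.Agent.P.MP_181257_gt.SteinC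
section

/-! The ball minimises the moments of random parallelepipeds. -/

set_option autoImplicit false
set_option linter.unusedSectionVars false

open MeasureTheory ProbabilityTheory Module Set Filter Topology
open scoped RealInnerProductSpace ENNReal Pointwise Matrix

noncomputable section

namespace Pool.Agent.P.MP_181257_gt

variable {V : Type} [NormedAddCommGroup V] [InnerProductSpace ℝ V] [FiniteDimensional ℝ V]
  [MeasurableSpace V] [BorelSpace V]

theorem steinC_conv {A B : Set V} (hA : MeasurableSet A) (hB : MeasurableSet B) :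
    ∫⁻ w : V, volume (A ∩ {x | x + w ∈ B}) = volume A * volume B := by
  set E : Set (V × V) := {p | p.2 ∈ A ∧ p.2 + p.1 ∈ B} with hE
  have hEm : MeasurableSet E :=
    (measurable_snd hA).inter ((measurable_snd.add measurable_fst) hB)
  have h1 : ((volume : Measure V).prod (volume : Measure V)) E
      = ∫⁻ w : V, volume (A ∩ {x | x + w ∈ B}) := by
    rw [Measure.prod_apply hEm]
    rfl
  have h2 : ((volume : Measure V).prod (volume : Measure V)) E
      = ∫⁻ x : V, A.indicator (fun _ => volume B) x := by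
    rw [Measure.prod_apply_symm hEm]
    refine lintegral_congr fun x => ?_
    by_cases hx : x ∈ A
    · rw [indicator_of_mem hx, ← measure_preimage_add volume x B]
      congr 1
      ext w
      simp [hE, hx]
    · rw [indicator_of_notMem hx]
      have : (fun w : V => (w, x)) ⁻¹' E = ∅ := by
        ext w
        simp [hE, hx]
      rw [this, measure_empty]
  rw [← h1, h2, lintegral_indicator_const hA, mul_comm]

theorem steinC_exists (hn : 1 ≤ finrank ℝ V) {A B : Set V} (hA : MeasurableSet A)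
    (hB : MeasurableSet B) {R : ℝ} (hR : 0 < R) (ha : A ⊆ Metric.closedBall 0 R)
    (hb : B ⊆ Metric.closedBall 0 R) :
    ∃ w : V, w ≠ 0 ∧ volume A * volume B / (2 * volume (Metric.closedBall (0 : V) (2 * R)))
      ≤ volume (A ∩ {x | x + w ∈ B}) := by
  have : Nontrivial V := Module.nontrivial_of_finrank_pos (R := ℝ) hn
  by_contra hcon
  push Not at hcon
  set P := volume A * volume B with hP
  set c := volume (Metric.closedBall (0 : V) (2 * R)) with hc
  have hc0 : c ≠ 0 := (Metric.measure_closedBall_pos volume _ (by positivity)).ne'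
  have hct : c ≠ ∞ := measure_closedBall_lt_top.ne
  have hPt : P ≠ ∞ := ENNReal.mul_ne_top
    ((measure_mono ha).trans_lt measure_closedBall_lt_top).ne
    ((measure_mono hb).trans_lt measure_closedBall_lt_top).ne
  have hP0 : P ≠ 0 := by
    intro h0
    obtain ⟨w, hw⟩ := exists_ne (0 : V)
    have := hcon w hw
    rw [h0] at this
    simp at this
  have hle : P ≤ ∫⁻ w : V, (Metric.closedBall (0 : V) (2 * R)).indicator
      (fun _ => P / (2 * c)) w := by
    rw [hP, ← steinC_conv hA hB]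
    refine lintegral_mono_ae ?_
    have hae : ∀ᵐ w : V, w ≠ 0 := by
      have : (volume : Measure V) {0} = 0 := measure_singleton 0
      exact compl_mem_ae_iff.2 this
    filter_upwards [hae] with w hw
    by_cases hm : w ∈ Metric.closedBall (0 : V) (2 * R)
    · rw [indicator_of_mem hm, steinC_conv hA hB]
      exact (hcon w hw).le
    · have : A ∩ {x | x + w ∈ B} = ∅ := by
        refine eq_empty_of_forall_notMem fun x hx => hm ?_
        have h1 : ‖x‖ ≤ R := by simpa using ha hx.1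
        have h2 : ‖x + w‖ ≤ R := by simpa using hb hx.2
        have h3 : ‖w‖ ≤ ‖x + w‖ + ‖x‖ := by
          simpa using norm_sub_le (x + w) x
        simp only [Metric.mem_closedBall, dist_zero_right]
        linarith
      rw [this, measure_empty]
      exact zero_le
  rw [lintegral_indicator_const measurableSet_closedBall, ← hc] at hle
  have he : P / (2 * c) * c = P / 2 := by
    rw [div_eq_mul_inv, div_eq_mul_inv, ENNReal.mul_inv (by simp) (by simp), mul_assoc P,
      mul_assoc _ c⁻¹, ENNReal.inv_mul_cancel hc0 hct, mul_one]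
  rw [he] at hle
  exact absurd (ENNReal.half_lt_self hP0 hPt) (not_lt.2 hle)

theorem exists_gain (hn : 1 ≤ finrank ℝ V) {S : Set V} (hS : MeasurableSet S) {R ρ : ℝ}
    (hR : 0 < R) (hb : S ⊆ Metric.closedBall 0 R) (hρ : ρ ≤ R) :
    ∃ v : V, ‖v‖ = 1 ∧
      volume (S ∩ Metric.ball 0 ρ)
          + volume (Metric.ball 0 ρ \ S) * volume (S \ Metric.ball 0 ρ)
            / (2 * volume (Metric.closedBall (0 : V) (2 * R)))
        ≤ volume (St v S ∩ Metric.ball 0 ρ) := by
  have hB : Metric.ball (0 : V) ρ ⊆ Metric.closedBall 0 R :=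
    Metric.ball_subset_closedBall.trans (Metric.closedBall_subset_closedBall hρ)
  obtain ⟨w, hw, h⟩ := steinC_exists hn (measurableSet_ball.diff hS) (hS.diff measurableSet_ball)
    hR (sdiff_subset.trans hB) (sdiff_subset.trans hb)
  have hn0 : ‖w‖ ≠ 0 := norm_ne_zero_iff.2 hw
  have hv : ‖(‖w‖⁻¹ • w : V)‖ = 1 := by
    rw [norm_smul, norm_inv, norm_norm, inv_mul_cancel₀ hn0]
  refine ⟨‖w‖⁻¹ • w, hv, ?_⟩
  have hg := St_gain hv hS hb ρ ‖w‖
  rw [smul_smul, mul_inv_cancel₀ hn0, one_smul] at hg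
  exact (add_le_add le_rfl h).trans hg

theorem steinC_JJ (k j : ℕ) (S : Set V) :
    JJ k j S = ∫⁻ y in univ.pi fun _ : Fin k => S, ENNReal.ofReal (D y ^ j)
      ∂(Measure.pi fun _ : Fin k => (volume : Measure V)) := by
  rw [JJ, Measure.restrict_pi_pi]

theorem JJ_le_add (k j : ℕ) {S T : Set V} (hS : MeasurableSet S) (hT : MeasurableSet T) {R : ℝ}
    (hR : 0 < R) (hb : T ⊆ Metric.closedBall 0 R) :
    JJ (k + 1) j T ≤ JJ (k + 1) j S + ENNReal.ofReal (R ^ ((k + 1) * j)) * (k + 1 : ℕ)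
      * volume (Metric.closedBall (0 : V) R) ^ k * volume (T \ S) := by
  classical
  set E : Fin (k + 1) → Set (Fin (k + 1) → V) := fun l =>
    univ.pi (Function.update (fun _ => Metric.closedBall (0 : V) R) l (T \ S)) with hE
  have hsub : ∀ l i, Function.update (fun _ : Fin (k + 1) => Metric.closedBall (0 : V) R) l
      (T \ S) i ⊆ Metric.closedBall 0 R := by
    intro l i
    by_cases h : i = l
    · subst h
      rw [Function.update_self]
      exact sdiff_subset.trans hb
    · rw [Function.update_of_ne h]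
  have hEm : ∀ l, MeasurableSet (E l) := by
    intro l
    refine MeasurableSet.univ_pi fun i => ?_
    by_cases h : i = l
    · subst h
      rw [Function.update_self]
      exact hT.diff hS
    · rw [Function.update_of_ne h]
      exact measurableSet_closedBall
  have hcov : (univ.pi fun _ : Fin (k + 1) => T) ⊆ (univ.pi fun _ : Fin (k + 1) => S) ∪ ⋃ l, E l := by
    intro y hy
    by_cases h : ∀ l, y l ∈ S
    · exact Or.inl fun l _ => h l
    · push Not at h
      obtain ⟨l, hl⟩ := h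
      refine Or.inr (mem_iUnion.2 ⟨l, fun i _ => ?_⟩)
      by_cases h : i = l
      · subst h
        rw [Function.update_self]
        exact ⟨hy i trivial, hl⟩
      · rw [Function.update_of_ne h]
        exact hb (hy i trivial)
  have hvol : ∀ l, (Measure.pi fun _ : Fin (k + 1) => (volume : Measure V)) (E l)
      = volume (Metric.closedBall (0 : V) R) ^ k * volume (T \ S) := by
    intro l
    rw [hE, Measure.pi_pi, Fin.prod_univ_succAbove _ l, Function.update_self, mul_comm]
    congr 1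
    rw [Finset.prod_congr rfl fun i _ => by rw [Function.update_of_ne (Fin.succAbove_ne l i)]]
    simp
  have hbd : ∀ y ∈ ⋃ l, E l, ENNReal.ofReal (D y ^ j) ≤ ENNReal.ofReal (R ^ ((k + 1) * j)) := by
    intro y hy
    obtain ⟨l, hl⟩ := mem_iUnion.1 hy
    refine ENNReal.ofReal_le_ofReal ?_
    rw [pow_mul]
    refine pow_le_pow_left₀ (D_nonneg _) ((D_le_prod y).trans ?_) j
    calc ∏ i, ‖y i‖ ≤ ∏ _i : Fin (k + 1), R :=
          Finset.prod_le_prod (fun _ _ => norm_nonneg _) fun i _ => by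
            simpa using hsub l i (hl i trivial)
      _ = R ^ (k + 1) := by simp
  rw [steinC_JJ, steinC_JJ]
  refine (lintegral_mono_set hcov).trans ((lintegral_union_le _ _ _).trans (add_le_add le_rfl ?_))
  refine (setLIntegral_mono' (MeasurableSet.iUnion hEm) hbd).trans ?_
  rw [setLIntegral_const, mul_assoc, mul_assoc]
  refine mul_le_mul_right ((measure_iUnion_fintype_le _ _).trans (le_of_eq ?_)) _
  simp [hvol]

theorem steinC_approx (hn : 1 ≤ finrank ℝ V) (k j : ℕ) {S : Set V} (hS : MeasurableSet S) {R : ℝ}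
    (hR : 0 < R) (hb : S ⊆ Metric.closedBall 0 R) {ρ : ℝ} (hρR : ρ ≤ R)
    (hρ : volume (Metric.ball (0 : V) ρ) = volume S) {δ : ℝ≥0∞} (hδ : δ ≠ 0) :
    ∃ S' : Set V, MeasurableSet S' ∧ JJ k j S' ≤ JJ k j S ∧ volume (Metric.ball 0 ρ \ S') ≤ δ := by
  by_contra hcon
  push Not at hcon
  set B := Metric.ball (0 : V) ρ with hB
  set C : Set (Set V) := {S' | MeasurableSet S' ∧ S' ⊆ Metric.closedBall 0 R ∧
    volume S' = volume S ∧ JJ k j S' ≤ JJ k j S} with hC
  have : Nonempty C := ⟨⟨S, hS, hb, rfl, le_rfl⟩⟩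
  have hBt : volume B ≠ ∞ := measure_ball_lt_top.ne
  set N := ⨆ s : C, volume ((s : Set V) ∩ B) with hN
  have hNt : N ≠ ∞ :=
    ne_top_of_le_ne_top hBt (iSup_le fun s => measure_mono inter_subset_right)
  set η := δ * δ / (2 * volume (Metric.closedBall (0 : V) (2 * R))) with hη
  have hη0 : η ≠ 0 := ENNReal.div_ne_zero.2
    ⟨mul_ne_zero hδ hδ, ENNReal.mul_ne_top (by simp) measure_closedBall_lt_top.ne⟩
  have hstep : N + η ≤ N := by
    conv_lhs => rw [hN, ENNReal.iSup_add]
    refine iSup_le fun s => ?_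
    obtain ⟨s, h1, h2, h3, h4⟩ := s
    obtain ⟨v, hv, hg⟩ := exists_gain hn h1 hR h2 hρR
    have hd : δ ≤ volume (B \ s) := (hcon s h1 h4).le
    have hsym : volume (s \ B) = volume (B \ s) := by
      have e1 := measure_inter_add_sdiff (μ := volume) s (measurableSet_ball : MeasurableSet B)
      have e2 := measure_inter_add_sdiff (μ := volume) B h1
      rw [inter_comm, hρ, ← h3, ← e1] at e2
      have ht : volume (s ∩ B) ≠ ∞ := ne_top_of_le_ne_top hBt (measure_mono inter_subset_right)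
      exact ((ENNReal.add_right_inj ht).1 e2).symm
    have hmem : St v s ∈ C := ⟨measurableSet_St v h1, St_subset hv h2,
      (volume_St hv h1 h2).trans h3, (JJ_St k j hv h1 h2).trans h4⟩
    refine le_trans (add_le_add le_rfl ?_) (hg.trans
      (le_iSup (fun s : C => volume ((s : Set V) ∩ B)) ⟨_, hmem⟩))
    rw [hη]
    exact ENNReal.div_le_div_right (mul_le_mul' hd (hd.trans hsym.ge)) _
  exact absurd (ENNReal.lt_add_right hNt hη0) (not_lt.2 hstep)

theorem JJ_ball_le (hn : 1 ≤ finrank ℝ V) (k j : ℕ) {S : Set V} (hS : MeasurableSet S) {R : ℝ}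
    (hb : S ⊆ Metric.closedBall 0 R) {ρ : ℝ} (hρ : volume (Metric.ball (0 : V) ρ) = volume S) :
    JJ k j (Metric.ball (0 : V) ρ) ≤ JJ k j S := by
  rcases k with _ | k
  · simp only [JJ]
    rw [Measure.pi_of_empty, Measure.pi_of_empty]
  set R' := max (max R ρ) 1 with hR'
  have h0 : 0 < R' := one_pos.trans_le (le_max_right _ _)
  have h1 : R ≤ R' := (le_max_left _ _).trans (le_max_left _ _)
  have h2 : ρ ≤ R' := (le_max_right _ _).trans (le_max_left _ _)
  set M := ENNReal.ofReal (R' ^ ((k + 1) * j)) * (k + 1 : ℕ)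
    * volume (Metric.closedBall (0 : V) R') ^ k with hM
  have hMt : M ≠ ∞ := ENNReal.mul_ne_top (ENNReal.mul_ne_top ENNReal.ofReal_ne_top (by simp))
    (ENNReal.pow_ne_top measure_closedBall_lt_top.ne)
  refine ENNReal.le_of_forall_pos_le_add fun ε hε _ => ?_
  obtain ⟨S', hm, hJ, hd⟩ := steinC_approx hn (k + 1) j hS h0
    (hb.trans (Metric.closedBall_subset_closedBall h1)) h2 hρ
    (δ := (ε : ℝ≥0∞) / M) (ENNReal.div_ne_zero.2 ⟨by simpa using hε.ne', hMt⟩)
  refine (JJ_le_add k j hm measurableSet_ball h0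
    (Metric.ball_subset_closedBall.trans (Metric.closedBall_subset_closedBall h2))).trans
    (add_le_add hJ ?_)
  exact (mul_le_mul_right hd M).trans ENNReal.mul_div_le

end Pool.Agent.P.MP_181257_gt
end
end

-- part Pool.Agent.P.MP_181257_gt.BRS
section

/-! Busemann's random simplex inequality in Gaussian form. -/

set_option autoImplicit false
set_option linter.unusedSectionVars false

open MeasureTheory ProbabilityTheory Module Set Filter Topology
open scoped RealInnerProductSpace ENNReal Pointwise Matrix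

noncomputable section

namespace Pool.Agent.P.MP_181257_gt

variable {V : Type} [NormedAddCommGroup V] [InnerProductSpace ℝ V] [FiniteDimensional ℝ V]
  [MeasurableSpace V] [BorelSpace V]

theorem D_smul {k : ℕ} (t : Fin k → ℝ) (y : Fin k → V) :
    D (fun l => t l • y l) = (∏ l, |t l|) * D y := by
  have h : Matrix.gram ℝ (fun l => t l • y l)
      = Matrix.diagonal t * Matrix.gram ℝ y * Matrix.diagonal t := by
    ext a b
    rw [Matrix.mul_diagonal, Matrix.diagonal_mul, Matrix.gram_apply, Matrix.gram_apply,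
      real_inner_smul_left, real_inner_smul_right]
    ring
  unfold D
  rw [h, Matrix.det_mul, Matrix.det_mul, Matrix.det_diagonal, mul_right_comm,
    Real.sqrt_mul (mul_self_nonneg _), Real.sqrt_mul_self_eq_abs, Finset.abs_prod]

theorem brs_measurable_cons {k : ℕ} :
    Measurable fun q : V × (Fin k → V) => (Fin.cons q.1 q.2 : Fin (k + 1) → V) := by
  refine measurable_pi_iff.2 fun l => ?_
  refine Fin.cases ?_ (fun l => ?_) l
  · exact measurable_fst
  · exact (measurable_pi_apply l).comp measurable_snd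

/-- an identity for homogeneous functions passes to separately homogeneous functions -/
theorem pi_congr_hom (j : ℕ) {μ ν : Measure V} [SigmaFinite μ] [SigmaFinite ν] {w : V → ℝ≥0∞}
    (hw : Measurable w) (h : ∀ G : V → ℝ≥0∞, Measurable G →
      (∀ t : ℝ, 0 < t → ∀ y, G (t • y) = ENNReal.ofReal (t ^ j) * G y) →
      ∫⁻ y, G y ∂μ = ∫⁻ y, G y * w y ∂ν) :
    ∀ (k : ℕ) (G : (Fin k → V) → ℝ≥0∞), Measurable G →
      (∀ t : Fin k → ℝ, (∀ l, 0 < t l) → ∀ y,
        G (fun l => t l • y l) = (∏ l, ENNReal.ofReal (t l ^ j)) * G y) →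
      ∫⁻ y, G y ∂(Measure.pi fun _ => μ)
        = ∫⁻ y, G y * ∏ l, w (y l) ∂(Measure.pi fun _ => ν) := by
  intro k
  induction k with
  | zero =>
    intro G _ _
    rw [Measure.pi_of_empty (fun _ : Fin 0 => μ), Measure.pi_of_empty (fun _ : Fin 0 => ν)]
    simp
  | succ k ih =>
    intro G hG hom
    have hc := brs_measurable_cons (V := V) (k := k)
    have hW : Measurable fun y : Fin k → V => ∏ l, w (y l) :=
      Finset.measurable_prod _ fun l _ => hw.comp (measurable_pi_apply l)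
    have hW' : Measurable fun y : Fin (k + 1) → V => ∏ l, w (y l) :=
      Finset.measurable_prod _ fun l _ => hw.comp (measurable_pi_apply l)
    have hGc : Measurable fun q : V × (Fin k → V) => G (Fin.cons q.1 q.2) := hG.comp hc
    have h1 : ∀ a : V, ∫⁻ z, G (Fin.cons a z) ∂(Measure.pi fun _ : Fin k => μ)
        = ∫⁻ z, G (Fin.cons a z) * ∏ l, w (z l) ∂(Measure.pi fun _ : Fin k => ν) := by
      intro a
      refine ih (fun z => G (Fin.cons a z)) (hGc.comp measurable_prodMk_left) fun t ht z => ?_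
      have := hom (Fin.cons 1 t) (fun l => Fin.cases one_pos ht l) (Fin.cons a z)
      rw [Fin.prod_univ_succ] at this
      simp only [Fin.cons_zero, Fin.cons_succ, one_pow, ENNReal.ofReal_one, one_mul] at this
      rw [← this]
      congr 1
      funext l
      refine Fin.cases ?_ (fun l => ?_) l <;> simp
    have hH : Measurable fun q : V × (Fin k → V) => G (Fin.cons q.1 q.2) * ∏ l, w (q.2 l) :=
      hGc.mul (hW.comp measurable_snd)
    have hHa : ∀ a : V, Measurable fun z : Fin k → V => G (Fin.cons a z) * ∏ l, w (z l) :=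
      fun a => hH.comp measurable_prodMk_left
    have hGW : Measurable fun y : Fin (k + 1) → V => G y * ∏ l, w (y l) := hG.mul hW'
    have hGWc : Measurable fun q : V × (Fin k → V) => G (Fin.cons q.1 q.2)
        * ∏ l, w ((Fin.cons q.1 q.2 : Fin (k + 1) → V) l) := hGW.comp hc
    have h2 := h (fun a => ∫⁻ z, G (Fin.cons a z) * ∏ l, w (z l) ∂(Measure.pi fun _ : Fin k => ν))
      hH.lintegral_prod_right' (fun s hs a => by
        rw [← lintegral_const_mul _ (hHa a)]
        refine lintegral_congr fun z => ?_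
        have := hom (Fin.cons s fun _ => 1) (fun l => Fin.cases hs (fun _ => one_pos) l)
          (Fin.cons a z)
        rw [Fin.prod_univ_succ] at this
        simp only [Fin.cons_zero, Fin.cons_succ, one_pow, ENNReal.ofReal_one,
          Finset.prod_const_one, mul_one] at this
        rw [← mul_assoc, ← this]
        congr 2
        funext l
        refine Fin.cases ?_ (fun l => ?_) l <;> simp)
    rw [← (mp_cons μ).lintegral_comp hG, ← (mp_cons ν).lintegral_comp hGW,
      lintegral_prod _ hGc.aemeasurable, lintegral_prod _ hGWc.aemeasurable]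
    simp only [h1]
    rw [h2]
    refine lintegral_congr fun a => ?_
    rw [← lintegral_mul_const _ (hHa a)]
    refine lintegral_congr fun z => ?_
    simp only [Fin.prod_univ_succ, Fin.cons_zero, Fin.cons_succ]
    ring

theorem brs_scale (j : ℕ) {r : ℝ} (hr : 0 < r) :
    ∫⁻ x in Metric.ball (0 : V) r, ENNReal.ofReal (‖x‖ ^ j)
      = ENNReal.ofReal (r ^ (finrank ℝ V + j))
        * ∫⁻ x in Metric.ball (0 : V) 1, ENNReal.ofReal (‖x‖ ^ j) := by
  have hm : Measurable fun x : V => ENNReal.ofReal (‖x‖ ^ j) := by fun_prop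
  have hi : r⁻¹ ≠ 0 := inv_ne_zero hr.ne'
  have h1 := Measure.map_addHaar_smul (volume : Measure V) hi
  have h2 := lintegral_map (μ := (volume : Measure V))
    (hm.indicator (Metric.isOpen_ball (x := (0 : V)) (ε := 1)).measurableSet)
    (measurable_const_smul r⁻¹)
  rw [h1, lintegral_smul_measure, lintegral_indicator Metric.isOpen_ball.measurableSet, inv_pow,
    inv_inv, abs_of_pos (pow_pos hr _), smul_eq_mul] at h2
  rw [pow_add, mul_comm (r ^ finrank ℝ V), ENNReal.ofReal_mul (by positivity), mul_assoc, h2,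
    ← lintegral_indicator Metric.isOpen_ball.measurableSet, ← lintegral_const_mul' _ _
      ENNReal.ofReal_ne_top]
  refine lintegral_congr fun x => ?_
  have hx : r⁻¹ • x ∈ Metric.ball (0 : V) 1 ↔ x ∈ Metric.ball (0 : V) r := by
    simp only [mem_ball_zero_iff, norm_smul, norm_inv, Real.norm_eq_abs, abs_of_pos hr]
    rw [inv_mul_lt_iff₀ hr, mul_one]
  by_cases h : x ∈ Metric.ball (0 : V) r
  · rw [indicator_of_mem h, indicator_of_mem (hx.2 h), ← ENNReal.ofReal_mul (by positivity),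
      ← mul_pow, norm_smul, norm_inv, Real.norm_eq_abs, abs_of_pos hr, ← mul_assoc,
      mul_inv_cancel₀ hr.ne', one_mul]
  · rw [indicator_of_notMem h, indicator_of_notMem (fun h' => h (hx.1 h')), mul_zero]

theorem brs_vol_ae (hn : 1 ≤ finrank ℝ V) : ∀ᵐ x ∂(volume : Measure V), x ≠ 0 := by
  have : Nontrivial V := Module.finrank_pos_iff.1 hn
  exact Measure.ae_ne _ _

theorem brs_A_ne_zero (hn : 1 ≤ finrank ℝ V) (j : ℕ) :
    ∫⁻ x in Metric.ball (0 : V) 1, ENNReal.ofReal (‖x‖ ^ j) ≠ 0 := by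
  intro h
  rw [lintegral_eq_zero_iff (by fun_prop)] at h
  have h1 : ∀ᵐ x ∂((volume : Measure V).restrict (Metric.ball (0 : V) 1)), False := by
    filter_upwards [h, ae_restrict_of_ae (brs_vol_ae hn)] with x hx hx'
    have h2 : 0 < ‖x‖ ^ j := pow_pos (norm_pos_iff.2 hx') j
    exact (ENNReal.ofReal_pos.2 h2).ne' hx
  rw [eventually_false_iff_eq_bot, ae_eq_bot, Measure.restrict_eq_zero] at h1
  exact (Metric.measure_ball_pos _ _ one_pos).ne' h1

theorem brs_A_ne_top (j : ℕ) :
    ∫⁻ x in Metric.ball (0 : V) 1, ENNReal.ofReal (‖x‖ ^ j) ≠ ∞ := by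
  refine ne_top_of_le_ne_top (b := ∫⁻ _ in Metric.ball (0 : V) 1, 1) ?_ ?_
  · rw [setLIntegral_one]
    exact measure_ball_lt_top.ne
  · refine setLIntegral_mono measurable_const fun x hx => ?_
    rw [ENNReal.ofReal_le_one]
    exact pow_le_one₀ (norm_nonneg _) (mem_ball_zero_iff.1 hx).le

theorem brs_B_ne_zero (hn : 1 ≤ finrank ℝ V) (j : ℕ) :
    ∫⁻ x, ENNReal.ofReal (‖x‖ ^ j) ∂(stdGaussian V) ≠ 0 := by
  intro h
  rw [lintegral_eq_zero_iff (by fun_prop)] at h
  obtain ⟨x, hx, hx'⟩ := (h.and (ae_ne_zero hn)).exists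
  have h2 : 0 < ‖x‖ ^ j := pow_pos (norm_pos_iff.2 hx') j
  exact (ENNReal.ofReal_pos.2 h2).ne' hx

theorem brs_B_ne_top (j : ℕ) : ∫⁻ x, ENNReal.ofReal (‖x‖ ^ j) ∂(stdGaussian V) ≠ ∞ := by
  have h := (integrable_norm_pow (V := V) j).2
  rw [hasFiniteIntegral_iff_ofReal (ae_of_all _ fun x => by positivity)] at h
  exact h.ne

theorem brs_measurableSet {ρ : V → ℝ} (hρ : Measurable ρ) : MeasurableSet {y | ‖y‖ < ρ y} :=
  measurableSet_lt measurable_norm hρ

/-- integration of homogeneous functions over a star-shaped set -/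
theorem star_lintegral (hn : 1 ≤ finrank ℝ V) (j : ℕ) : ∃ c : ℝ≥0∞, c ≠ 0 ∧ c ≠ ∞ ∧
    ∀ ρ : V → ℝ, Den ρ → ∀ G : V → ℝ≥0∞, Measurable G →
      (∀ t : ℝ, 0 < t → ∀ y, G (t • y) = ENNReal.ofReal (t ^ j) * G y) →
      ∫⁻ y in {y | ‖y‖ < ρ y}, G y
        = c * ∫⁻ y, G y * ENNReal.ofReal (ρ y ^ (finrank ℝ V + j)) ∂(stdGaussian V) := by
  set A := ∫⁻ x in Metric.ball (0 : V) 1, ENNReal.ofReal (‖x‖ ^ j) with hA
  set B := ∫⁻ x, ENNReal.ofReal (‖x‖ ^ j) ∂(stdGaussian V) with hB
  have hA0 : A ≠ 0 := brs_A_ne_zero hn j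
  have hA1 : A ≠ ∞ := brs_A_ne_top j
  have hB0 : B ≠ 0 := brs_B_ne_zero hn j
  have hB1 : B ≠ ∞ := brs_B_ne_top j
  refine ⟨A / B, ENNReal.div_ne_zero.2 ⟨hA0, hB1⟩, ENNReal.div_ne_top hA1 hB0,
    fun ρ hρ G hG hom => ?_⟩
  obtain ⟨e, he⟩ := haar_exists_unit hn
  have hρm := hρ.meas
  have hS := brs_measurableSet hρm
  have hm : Measurable fun x : V => ENNReal.ofReal (‖x‖ ^ j) := by fun_prop
  have hK : Measurable fun y : V => G y * ENNReal.ofReal (ρ y ^ (finrank ℝ V + j)) := by
    fun_prop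
  have hI : Measurable fun g : OG V =>
      G (ap g e) * ENNReal.ofReal (ρ (ap g e) ^ (finrank ℝ V + j)) :=
    hK.comp (measurable_ap measurable_id measurable_const)
  have hL : ∫⁻ y in {y | ‖y‖ < ρ y}, G y = A * ∫⁻ g,
      G (ap g e) * ENNReal.ofReal (ρ (ap g e) ^ (finrank ℝ V + j)) ∂(haar V) := by
    rw [← lintegral_indicator hS, polar (volume : Measure V) mp_ap_volume he (hG.indicator hS),
      ← lintegral_const_mul _ hI]
    refine lintegral_congr fun g => ?_
    have hp : 0 < ρ (ap g e) := hρ.toPos.pos _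
    rw [mul_comm A, mul_assoc, hA, ← brs_scale j hp, mul_comm,
      ← lintegral_indicator Metric.isOpen_ball.measurableSet,
      ← lintegral_mul_const _ (hm.indicator Metric.isOpen_ball.measurableSet)]
    refine lintegral_congr_ae ?_
    filter_upwards [brs_vol_ae hn] with x hx
    have hx' : 0 < ‖x‖ := norm_pos_iff.2 hx
    have hmem : ‖x‖ • ap g e ∈ {y | ‖y‖ < ρ y} ↔ x ∈ Metric.ball (0 : V) (ρ (ap g e)) := by
      simp only [mem_ofPred_eq, mem_ball_zero_iff]
      rw [hρ.hom _ hx', norm_smul, norm_norm, norm_ap, he, mul_one]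
    by_cases h : x ∈ Metric.ball (0 : V) (ρ (ap g e))
    · rw [indicator_of_mem h, indicator_of_mem (hmem.2 h), hom _ hx']
    · rw [indicator_of_notMem h, indicator_of_notMem (fun h' => h (hmem.1 h')), zero_mul]
  have hR : ∫⁻ y, G y * ENNReal.ofReal (ρ y ^ (finrank ℝ V + j)) ∂(stdGaussian V) = B * ∫⁻ g,
      G (ap g e) * ENNReal.ofReal (ρ (ap g e) ^ (finrank ℝ V + j)) ∂(haar V) := by
    rw [polar (stdGaussian V) mp_ap he hK, ← lintegral_const_mul _ hI]
    refine lintegral_congr fun g => ?_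
    rw [hB, ← lintegral_mul_const _ hm]
    refine lintegral_congr_ae ?_
    filter_upwards [ae_ne_zero hn] with x hx
    have hx' : 0 < ‖x‖ := norm_pos_iff.2 hx
    rw [hom _ hx', hρ.hom _ hx', mul_assoc]
  rw [hL, hR, ← mul_assoc, ENNReal.div_mul_cancel hB0 hB1]

theorem integrable_D_pow (k j : ℕ) {F : V → ℝ} (hF : Bd F) :
    Integrable (fun y : Fin k → V => D y ^ j * ∏ l, F (y l)) (γk V k) := by
  obtain ⟨C, hC⟩ := hF.bdd
  have hm := hF.meas
  have hP : Measurable fun y : Fin k → V => ∏ l, F (y l) :=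
    Finset.measurable_prod _ fun l _ => hm.comp (measurable_pi_apply l)
  have hD : Measurable fun y : Fin k → V => D y ^ j := (measurable_D measurable_id).pow_const j
  refine ((integrable_prod_norm_pow (V := V) k j).mul_const (C ^ k)).mono'
    (hD.mul hP).aestronglyMeasurable (ae_of_all _ fun y => ?_)
  rw [Real.norm_eq_abs, abs_mul, abs_of_nonneg (pow_nonneg (D_nonneg y) j), Finset.abs_prod,
    Finset.prod_pow]
  refine mul_le_mul (pow_le_pow_left₀ (D_nonneg y) (D_le_prod y) j) ?_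
    (Finset.prod_nonneg fun _ _ => abs_nonneg _) (by positivity)
  calc ∏ l, |F (y l)| ≤ ∏ _l : Fin k, C :=
        Finset.prod_le_prod (fun _ _ => abs_nonneg _) fun l _ => hC _
    _ = C ^ k := by simp

theorem brs_JJ (hn : 1 ≤ finrank ℝ V) (k j : ℕ) : ∃ c : ℝ≥0∞, c ≠ 0 ∧ c ≠ ∞ ∧
    ∀ ρ : V → ℝ, Den ρ → JJ k j {y | ‖y‖ < ρ y}
      = c * ∫⁻ y, ENNReal.ofReal (D y ^ j * ∏ l, ρ (y l) ^ (finrank ℝ V + j)) ∂(γk V k) := by
  obtain ⟨c, hc0, hc1, hc⟩ := star_lintegral hn j
  refine ⟨c ^ k, pow_ne_zero k hc0, ENNReal.pow_ne_top hc1, fun ρ hρ => ?_⟩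
  have hρm := hρ.meas
  have hw : Measurable fun y : V => c * ENNReal.ofReal (ρ y ^ (finrank ℝ V + j)) := by fun_prop
  have hD : Measurable fun y : Fin k → V => ENNReal.ofReal (D y ^ j) :=
    ((measurable_D measurable_id).pow_const j).ennreal_ofReal
  have h1 := pi_congr_hom j (μ := (volume : Measure V).restrict {y | ‖y‖ < ρ y})
    (ν := stdGaussian V) hw (fun G hG hom => by
      rw [hc ρ hρ G hG hom, ← lintegral_const_mul' _ _ hc1]
      refine lintegral_congr fun y => ?_
      ring) k _ hD (fun t ht y => by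
      rw [D_smul, mul_pow, ENNReal.ofReal_mul (by positivity), ← Finset.prod_pow,
        ENNReal.ofReal_prod_of_nonneg (fun _ _ => by positivity)]
      simp only [abs_of_pos (ht _)])
  rw [JJ, h1, ← lintegral_const_mul' _ _ (ENNReal.pow_ne_top hc1)]
  refine lintegral_congr fun y => ?_
  rw [Finset.prod_mul_distrib, Finset.prod_const, Finset.card_univ, Fintype.card_fin,
    ENNReal.ofReal_mul (pow_nonneg (D_nonneg y) j),
    ENNReal.ofReal_prod_of_nonneg (fun l _ => pow_nonneg (hρ.toPos.pos _).le _)]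
  ring

theorem brs {d : ℕ} (hd : finrank ℝ V = d) (h1 : 1 ≤ d) (k j : ℕ) {F : V → ℝ} (hF : Den F) :
    (∫ y, D y ^ j ∂(γk V k))
        * (∫ x, F x ^ ((d : ℝ) / (d + j)) ∂(stdGaussian V)) ^ ((k : ℝ) * (d + j) / d)
      ≤ ∫ y, D y ^ j * ∏ l, F (y l) ∂(γk V k) := by
  have hn : 1 ≤ finrank ℝ V := hd ▸ h1
  have hd0 : (0 : ℝ) < d := by exact_mod_cast h1
  have hdj : (0 : ℝ) < d + j := by positivity
  set m := ∫ x, F x ^ ((d : ℝ) / (d + j)) ∂(stdGaussian V) with hm
  have hFd : Den fun x => F x ^ ((d : ℝ) / (d + j)) := hF.rpow (by positivity)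
  have hm0 : 0 < m := by
    obtain ⟨a, C, ha, h⟩ := hFd.bdd
    refine ha.trans_le ?_
    calc a = ∫ _x, a ∂(stdGaussian V) := by simp
      _ ≤ m := integral_mono (integrable_const a) (hFd.toPos.bd.integrable _) fun x => (h x).1
  set r := m ^ (1 / (d : ℝ)) with hr
  have hr0 : 0 < r := Real.rpow_pos_of_pos hm0 _
  have hρ : Den fun x => F x ^ (1 / ((d : ℝ) + j)) := hF.rpow (by positivity)
  have hb : Den fun _ : V => r :=
    ⟨⟨measurable_const, r, r, hr0, fun _ => ⟨le_rfl, le_rfl⟩⟩, fun _ _ _ => rfl⟩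
  have hball : Metric.ball (0 : V) r = {y : V | ‖y‖ < (fun _ : V => r) y} := by
    ext y
    simp
  have hS := brs_measurableSet hρ.meas
  have e1 : ∀ x, (F x ^ (1 / ((d : ℝ) + j))) ^ (d + 0) = F x ^ ((d : ℝ) / (d + j)) := by
    intro x
    rw [← Real.rpow_natCast, ← Real.rpow_mul (hF.toPos.pos x).le]
    congr 1
    push_cast
    field_simp
    ring
  have e2 : ∀ x, (F x ^ (1 / ((d : ℝ) + j))) ^ (d + j) = F x := by
    intro x
    rw [← Real.rpow_natCast, ← Real.rpow_mul (hF.toPos.pos x).le]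
    push_cast
    rw [one_div_mul_cancel hdj.ne', Real.rpow_one]
  have e3 : r ^ (d + 0) = m := by
    rw [hr, ← Real.rpow_natCast, ← Real.rpow_mul hm0.le]
    push_cast
    rw [add_zero, one_div_mul_cancel hd0.ne', Real.rpow_one]
  have e4 : (r ^ (d + j)) ^ k = m ^ ((k : ℝ) * (d + j) / d) := by
    rw [hr, ← pow_mul, ← Real.rpow_natCast, ← Real.rpow_mul hm0.le]
    congr 1
    push_cast
    field_simp
  have hvol : volume (Metric.ball (0 : V) r)
      = volume {y : V | ‖y‖ < F y ^ (1 / ((d : ℝ) + j))} := by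
    obtain ⟨c, -, -, hc⟩ := star_lintegral hn 0
    have h2 := hc _ hρ (fun _ => 1) measurable_const (by simp)
    have h3 := hc _ hb (fun _ => 1) measurable_const (by simp)
    rw [setLIntegral_one] at h2 h3
    rw [hball, h2, h3, hd]
    congr 1
    simp only [one_mul, e1, e3, lintegral_const, measure_univ, mul_one]
    rw [hm, ofReal_integral_eq_lintegral_ofReal (hFd.toPos.bd.integrable _)
      (ae_of_all _ fun x => (hFd.toPos.pos x).le)]
  obtain ⟨a, R, -, hR⟩ := hρ.bdd
  have hsub : {y : V | ‖y‖ < F y ^ (1 / ((d : ℝ) + j))} ⊆ Metric.closedBall 0 R := fun y hy =>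
    mem_closedBall_zero_iff.2 ((le_of_lt hy).trans (hR y).2)
  have hJ := JJ_ball_le hn k j hS hsub hvol
  obtain ⟨c, hc0, hc1, hc⟩ := brs_JJ hn k j
  rw [hball, hc _ hb, hc _ hρ, ENNReal.mul_le_mul_iff_right hc0 hc1, hd] at hJ
  simp only [e2, Finset.prod_const, Finset.card_univ, Fintype.card_fin, e4] at hJ
  have i1 := integrable_D_pow k j (Den.one (V := V)).toPos.bd
  simp only [Finset.prod_const_one, mul_one] at i1
  have i2 := integrable_D_pow k j hF.toPos.bd
  have n2 : ∀ y : Fin k → V, 0 ≤ D y ^ j * ∏ l, F (y l) := fun y =>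
    mul_nonneg (pow_nonneg (D_nonneg y) j) (Finset.prod_nonneg fun l _ => (hF.toPos.pos _).le)
  rw [← ofReal_integral_eq_lintegral_ofReal (i1.mul_const _) (ae_of_all _ fun y =>
      mul_nonneg (pow_nonneg (D_nonneg y) j) (Real.rpow_pos_of_pos hm0 _).le),
    ← ofReal_integral_eq_lintegral_ofReal i2 (ae_of_all _ n2),
    ENNReal.ofReal_le_ofReal_iff (integral_nonneg n2), integral_mul_const] at hJ
  exact hJ

end Pool.Agent.P.MP_181257_gt
end
end

-- part Pool.Agent.P.MP_181257_gt.BridgeA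
section

/-! Growth of the volume when a multiple of a zonoid is added to a convex set. -/

set_option autoImplicit false
set_option linter.unusedSectionVars false

open MeasureTheory ProbabilityTheory Module Set Filter Topology
open scoped RealInnerProductSpace ENNReal Pointwise Matrix

noncomputable section

namespace Pool.Agent.P.MP_181257_gt

theorem brA_meas_vol {X K : Type} [TopologicalSpace X] [MeasurableSpace X] [BorelSpace X]
    [SecondCountableTopology X] [TopologicalSpace K] [CompactSpace K] {k : ℕ}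
    {F : X × K → (Fin k → ℝ)} (hF : Continuous F) :
    Measurable fun x => volume (range fun q => F (x, q)) := by
  have hT : IsClosed {q : (X × (Fin k → ℝ)) × K | F (q.1.1, q.2) = q.1.2} :=
    isClosed_eq (by fun_prop) (by fun_prop)
  have hS : IsClosed {p : X × (Fin k → ℝ) | p.2 ∈ range fun q => F (p.1, q)} := by
    convert isClosedMap_fst_of_compactSpace _ hT using 1
    ext p
    constructor
    · rintro ⟨x, e⟩
      exact ⟨(p, x), e, rfl⟩
    · rintro ⟨⟨p', x⟩, e, rfl⟩
      exact ⟨x, e⟩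
  exact measurable_measure_prodMk_left (ν := volume) hS.measurableSet

theorem brA_mem_segment {E : Type} [AddCommGroup E] [Module ℝ E] (z y : E) :
    y ∈ segment ℝ (-z) z ↔ ∃ s ∈ Icc (-1 : ℝ) 1, y = s • z := by
  constructor
  · rintro ⟨a, b, ha, hb, hab, rfl⟩
    refine ⟨b - a, ⟨by linarith, by linarith⟩, ?_⟩
    rw [sub_smul, smul_neg]
    abel
  · rintro ⟨s, ⟨h1, h2⟩, rfl⟩
    refine ⟨(1 - s) / 2, (1 + s) / 2, by linarith, by linarith, by ring, ?_⟩
    rw [smul_neg, ← neg_smul, ← add_smul]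
    congr 1
    ring

theorem brA_meas_shad {d : ℕ} {C : Set (Fin d → ℝ)} (hC : IsCompact C) : Measurable (shad C) := by
  have : CompactSpace C := isCompact_iff_compactSpace.1 hC
  have h := brA_meas_vol (X := Fin d → ℝ) (K := C × Icc (-1 : ℝ) 1)
    (F := fun p => (p.2.1 : Fin d → ℝ) + (p.2.2 : ℝ) • p.1) (by fun_prop)
  have e : ∀ z : Fin d → ℝ, C + segment ℝ (-z) z
      = range fun q : C × Icc (-1 : ℝ) 1 => (q.1 : Fin d → ℝ) + (q.2 : ℝ) • z := by
    intro z
    ext p
    constructor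
    · rintro ⟨c, hc, y, hy, rfl⟩
      obtain ⟨s, hs, rfl⟩ := (brA_mem_segment z y).1 hy
      exact ⟨(⟨c, hc⟩, ⟨s, hs⟩), rfl⟩
    · rintro ⟨⟨⟨c, hc⟩, ⟨s, hs⟩⟩, rfl⟩
      exact ⟨c, hc, s • z, (brA_mem_segment z _).2 ⟨s, hs, rfl⟩, rfl⟩
  unfold shad
  simp only [e, Measure.real]
  exact (h.ennreal_toReal.sub measurable_const).div_const 2

theorem brA_int_shad {Ω : Type} [MeasurableSpace Ω] (μ : Measure Ω) {d : ℕ}
    {Y : Ω → Fin (d + 1) → ℝ} (hY : Measurable Y) (hi : Integrable Y μ)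
    {C : Set (Fin (d + 1) → ℝ)} (hC : IsCompact C) (hc : Convex ℝ C) (hne : C.Nonempty) :
    Integrable (fun ω => 2 * shad C (Y ω)) μ := by
  obtain ⟨B, hB⟩ := shad_bound hC hc hne
  refine (hi.norm.const_mul B).mono'
    (((brA_meas_shad hC).comp hY).const_mul 2).aestronglyMeasurable (ae_of_all _ fun ω => ?_)
  rw [Real.norm_of_nonneg
    (mul_nonneg zero_le_two (shadow_nonneg hc hC.isBounded (Or.inr hC) _))]
  exact (shadow_sandwich one_pos hC hc hne _).1.trans (hB 1 ⟨one_pos, le_rfl⟩ _)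

theorem brA_deriv_bounds {Ω : Type} [MeasurableSpace Ω] (μ : Measure Ω) [IsFiniteMeasure μ]
    {d : ℕ} {Y : Ω → Fin (d + 1) → ℝ} (hY : Measurable Y) (hi : Integrable Y μ)
    {C : Set (Fin (d + 1) → ℝ)} (hC : IsCompact C) (hc : Convex ℝ C) (hne : C.Nonempty)
    {η : ℝ} (hη : 0 < η) :
    (∫ ω, 2 * shad C (Y ω) ∂μ) * η ≤ ∫ x, ∫ ω, |(-fderiv ℝ (bump η C) x) (Y ω)| ∂μ ∧
      ∫ x, ∫ ω, |(-fderiv ℝ (bump η C) x) (Y ω)| ∂μ
        ≤ (∫ ω, 2 * shad (Metric.cthickening η C) (Y ω) ∂μ) * η := by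
  have hint : Integrable (Function.uncurry fun (x : Fin (d + 1) → ℝ) (ω : Ω) =>
      |fderiv ℝ (bump η C) x (Y ω)|) ((volume : Measure (Fin (d + 1) → ℝ)).prod μ) := by
    refine ((integrable_norm_fderiv_bump η hC hne).mul_prod hi.norm).mono' ?_
      (Eventually.of_forall fun q => ?_)
    · have hm : Measurable fun q : (Fin (d + 1) → ℝ) × Ω => fderiv ℝ (bump η C) q.1 (Y q.2) :=
        isBoundedBilinearMap_apply.continuous.measurable.comp
          (((measurable_fderiv ℝ (bump η C)).comp measurable_fst).prodMk (hY.comp measurable_snd))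
      exact hm.abs.aestronglyMeasurable
    · rw [Function.uncurry_def, Real.norm_eq_abs, abs_abs]
      exact (fderiv ℝ (bump η C) q.1).le_opNorm (Y q.2)
  simp only [neg_apply, abs_neg]
  rw [integral_integral_swap hint, ← integral_mul_const, ← integral_mul_const]
  have h1 := brA_int_shad μ hY hi hC hc hne
  have h2 := brA_int_shad μ hY hi (hC.cthickening (r := η)) (hc.cthickening η)
    (hne.mono (Metric.self_subset_cthickening C))
  constructor
  · refine integral_mono (h1.mul_const η) hint.integral_prod_right fun ω => ?_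
    exact (le_div_iff₀ hη).1 (shadow_sandwich hη hC hc hne (Y ω)).1
  · refine integral_mono hint.integral_prod_right (h2.mul_const η) fun ω => ?_
    exact (div_le_iff₀ hη).1 (shadow_sandwich hη hC hc hne (Y ω)).2

theorem brA_add_smul {E : Type} [AddCommGroup E] [Module ℝ E] {C Z : Set E} (hZ : Convex ℝ Z)
    {r t : ℝ} (hr : 0 ≤ r) (ht : 0 ≤ t) : C + r • Z + t • Z = C + (r + t) • Z := by
  rw [hZ.add_smul hr ht, add_assoc]

theorem brA_subset {E : Type} [AddCommGroup E] [Module ℝ E] {C Z : Set E} (hZ : Convex ℝ Z)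
    (h0 : (0 : E) ∈ Z) {r t : ℝ} (hr : 0 ≤ r) (ht : r ≤ t) : C + r • Z ⊆ C + t • Z := by
  have e : t = r + (t - r) := by ring
  rw [e, ← brA_add_smul hZ hr (sub_nonneg.2 ht)]
  intro x hx
  exact ⟨x, hx, 0, ⟨0, h0, smul_zero _⟩, add_zero x⟩

theorem brA_bump_mono {d : ℕ} (η : ℝ) {C C' : Set (Fin d → ℝ)} (hne : C.Nonempty) (h : C ⊆ C')
    (x : Fin d → ℝ) : bump η C x ≤ bump η C' x := by
  unfold bump
  exact max_le_max (sub_le_sub_left (Metric.infDist_le_infDist_of_subset h hne) η) le_rfl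

theorem brA_cont {d : ℕ} (η : ℝ) {C Z : Set (Fin d → ℝ)} (hC : IsCompact C) (hne : C.Nonempty)
    (hZ : IsCompact Z) (hZc : Convex ℝ Z) (h0 : (0 : Fin d → ℝ) ∈ Z) (t : ℝ) :
    ContinuousOn (fun r : ℝ => ∫ x, bump η (C + r • Z) x) (Icc 0 t) := by
  obtain ⟨R, hR0, hR⟩ := hZ.isBounded.exists_pos_norm_le
  have hZne : Z.Nonempty := ⟨0, h0⟩
  refine continuousOn_of_dominated (bound := bump η (C + t • Z)) (fun r _ => ?_) (fun r hr => ?_)
    (integrable_bump η (hC.add (hZ.smul t)) (hne.add hZne.smul_set)) (ae_of_all _ fun x => ?_)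
  · exact (var_lip η _).continuous.aestronglyMeasurable
  · refine ae_of_all _ fun x => ?_
    rw [Real.norm_of_nonneg (var_bump_nonneg _ _ _)]
    exact brA_bump_mono η (hne.add hZne.smul_set) (brA_subset hZc h0 hr.1 hr.2) x
  · have hl : LipschitzWith ⟨R, hR0.le⟩ fun r : ℝ => bump η (C + r • Z) x := by
      refine LipschitzWith.of_le_add_mul _ fun r s => ?_
      obtain ⟨m, hm, he⟩ := var_exists_eq η r hC hne hZ hZne x
      have h1 := var_le_add η s hC hne hm x
      have h2 := (var_lip η C).le_add_mul (x - r • m) (x - s • m)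
      have h3 : dist (x - r • m) (x - s • m) ≤ R * dist r s := by
        rw [dist_sub_left, dist_eq_norm, ← sub_smul, norm_smul, Real.dist_eq, Real.norm_eq_abs,
          mul_comm]
        exact mul_le_mul_of_nonneg_right (hR m hm) (abs_nonneg _)
      have h4 : bump η C (x - r • m) ≤ bump η C (x - s • m) + dist (x - r • m) (x - s • m) := by
        simpa using h2
      show bump η (C + r • Z) x ≤ bump η (C + s • Z) x + R * dist r s
      linarith
    exact hl.continuous.continuousOn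

theorem brA_hasDeriv {d : ℕ} (η : ℝ) {C Z : Set (Fin d → ℝ)} (hC : IsCompact C)
    (hne : C.Nonempty) (hZ : IsCompact Z) (hZc : Convex ℝ Z)
    {H : ((Fin d → ℝ) →L[ℝ] ℝ) → ℝ} (hH : ∀ ℓ : (Fin d → ℝ) →L[ℝ] ℝ, IsGreatest (ℓ '' Z) (H ℓ))
    {r : ℝ} (hr : 0 ≤ r) :
    HasDerivWithinAt (fun r : ℝ => ∫ x, bump η (C + r • Z) x)
      (∫ x, H (-fderiv ℝ (bump η (C + r • Z)) x)) (Ici r) r := by
  have hZne : Z.Nonempty := by
    obtain ⟨x, hx, -⟩ := (hH 0).1
    exact ⟨x, hx⟩
  have h := first_variation η (hC.add (hZ.smul r)) (hne.add hZne.smul_set) hZ hH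
  refine HasDerivWithinAt.Ici_of_Ioi ?_
  rw [hasDerivWithinAt_iff_tendsto_slope' (by simp)]
  have h2 : Tendsto (fun y : ℝ => y - r) (𝓝[>] r) (𝓝[>] 0) := by
    refine tendsto_nhdsWithin_iff.2 ⟨?_, ?_⟩
    · have : Tendsto (fun y : ℝ => y - r) (𝓝 r) (𝓝 (r - r)) :=
        (continuous_id.sub continuous_const).tendsto r
      rw [sub_self] at this
      exact this.mono_left nhdsWithin_le_nhds
    · filter_upwards [self_mem_nhdsWithin] with y hy using sub_pos.2 (mem_Ioi.1 hy)
  refine (h.comp h2).congr' ?_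
  filter_upwards [self_mem_nhdsWithin] with y hy
  have hy' : 0 ≤ y - r := (sub_pos.2 (mem_Ioi.1 hy)).le
  simp only [Function.comp_apply, slope_def_field]
  rw [brA_add_smul hZc hr hy', add_sub_cancel]

theorem brA_tendsto_vol {d : ℕ} {S : Set (Fin d → ℝ)} (hS : IsCompact S) :
    Tendsto (fun η : ℝ => volume.real (Metric.cthickening η S)) (𝓝[>] 0) (𝓝 (volume.real S)) :=
  ((ENNReal.tendsto_toReal hS.measure_lt_top.ne).comp
    (tendsto_measure_cthickening_of_isCompact hS)).mono_left nhdsWithin_le_nhds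

theorem brA_tendsto_bump {d : ℕ} {S : Set (Fin d → ℝ)} (hS : IsCompact S) (hne : S.Nonempty) :
    Tendsto (fun η : ℝ => (∫ x, bump η S x) / η) (𝓝[>] 0) (𝓝 (volume.real S)) := by
  refine tendsto_of_tendsto_of_tendsto_of_le_of_le' tendsto_const_nhds (brA_tendsto_vol hS) ?_ ?_
  · filter_upwards [self_mem_nhdsWithin] with η hη
    exact (le_div_iff₀ hη).2 (var_int_bounds hη hS hne).1
  · filter_upwards [self_mem_nhdsWithin] with η hη
    exact (div_le_iff₀ hη).2 (var_int_bounds hη hS hne).2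

theorem brA_tendsto_shad {d : ℕ} {C : Set (Fin d → ℝ)} (hC : IsCompact C) (z : Fin d → ℝ) :
    Tendsto (fun η : ℝ => 2 * shad (Metric.cthickening η C) z) (𝓝[>] 0) (𝓝 (2 * shad C z)) := by
  have hC2 : IsCompact (C + segment ℝ (-z) z) := hC.add (shadow_isCompact_segment (-z) z)
  refine ((((brA_tendsto_vol hC2).sub (brA_tendsto_vol hC)).div_const 2).const_mul 2).congr' ?_
  filter_upwards [self_mem_nhdsWithin] with η hη
  have hη' : 0 < η := hη
  unfold shad
  rw [← hC2.add_closedBall_zero hη'.le, add_right_comm, hC.add_closedBall_zero hη'.le]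

theorem brA_sandwich {Ω : Type} [MeasurableSpace Ω] (μ : Measure Ω) [IsFiniteMeasure μ] {d : ℕ}
    {Y : Ω → Fin (d + 1) → ℝ} (hY : Measurable Y) (hi : Integrable Y μ)
    {C Z : Set (Fin (d + 1) → ℝ)} (hC : IsCompact C) (hc : Convex ℝ C) (hne : C.Nonempty)
    (hZ : IsCompact Z) (hZc : Convex ℝ Z) (h0 : (0 : Fin (d + 1) → ℝ) ∈ Z)
    (hH : ∀ ℓ : (Fin (d + 1) → ℝ) →L[ℝ] ℝ, IsGreatest (ℓ '' Z) (∫ ω, |ℓ (Y ω)| ∂μ))
    {t : ℝ} (ht : 0 ≤ t) :
    t * ∫ ω, 2 * shad C (Y ω) ∂μ ≤ volume.real (C + t • Z) - volume.real C ∧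
      volume.real (C + t • Z) - volume.real C ≤ t * ∫ ω, 2 * shad (C + t • Z) (Y ω) ∂μ := by
  have hZne : Z.Nonempty := ⟨0, h0⟩
  have hK : ∀ r : ℝ, IsCompact (C + r • Z) := fun r => hC.add (hZ.smul r)
  have hKc : ∀ r : ℝ, Convex ℝ (C + r • Z) := fun r => hc.add (hZc.smul r)
  have hKn : ∀ r : ℝ, (C + r • Z).Nonempty := fun r => hne.add hZne.smul_set
  have hC0 : C + (0 : ℝ) • Z = C := by rw [Set.zero_smul_set hZne, add_zero]
  have hsub : ∀ r : ℝ, 0 ≤ r → C ⊆ C + r • Z := fun r hr => by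
    conv_lhs => rw [← hC0]
    exact brA_subset hZc h0 le_rfl hr
  have hlim : Tendsto (fun η : ℝ => (∫ x, bump η (C + t • Z) x) / η - (∫ x, bump η C x) / η)
      (𝓝[>] 0) (𝓝 (volume.real (C + t • Z) - volume.real C)) :=
    (brA_tendsto_bump (hK t) (hKn t)).sub (brA_tendsto_bump hC hne)
  have hlin : ∀ a b r : ℝ, HasDerivWithinAt (fun r : ℝ => a + r * b) b (Ici r) r := fun a b r => by
    simpa using (((hasDerivAt_id r).mul_const b).const_add a).hasDerivWithinAt
  constructor
  · refine ge_of_tendsto hlim ?_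
    filter_upwards [self_mem_nhdsWithin] with η hη
    have hη' : 0 < η := hη
    have key := image_le_of_deriv_right_le_deriv_boundary (a := 0) (b := t)
      (f := fun r : ℝ => (∫ x, bump η C x) + r * ((∫ ω, 2 * shad C (Y ω) ∂μ) * η))
      (by fun_prop) (fun r _ => hlin _ _ r) (B := fun r : ℝ => ∫ x, bump η (C + r • Z) x)
      (by simp only [hC0, zero_mul, add_zero, le_refl]) (brA_cont η hC hne hZ hZc h0 t)
      (fun r hr => brA_hasDeriv η hC hne hZ hZc hH hr.1)
      (fun r hr => by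
        refine le_trans (mul_le_mul_of_nonneg_right ?_ hη'.le)
          (brA_deriv_bounds μ hY hi (hK r) (hKc r) (hKn r) hη').1
        refine integral_mono (brA_int_shad μ hY hi hC hc hne)
          (brA_int_shad μ hY hi (hK r) (hKc r) (hKn r)) fun ω => ?_
        exact mul_le_mul_of_nonneg_left (shadow_mono hc (Or.inr hC) (hKc r) (hK r).isBounded
          (Or.inr (hK r)) (hsub r hr.1) _) zero_le_two) ⟨ht, le_rfl⟩
    rw [← sub_div, le_div_iff₀ hη']
    linarith
  · have hup : Tendsto (fun η : ℝ => t * ∫ ω, 2 * shad (Metric.cthickening η (C + t • Z)) (Y ω) ∂μ)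
        (𝓝[>] 0) (𝓝 (t * ∫ ω, 2 * shad (C + t • Z) (Y ω) ∂μ)) := by
      refine Tendsto.const_mul t (tendsto_integral_filter_of_dominated_convergence
        (fun ω => 2 * shad (Metric.cthickening 1 (C + t • Z)) (Y ω))
        (Eventually.of_forall fun η => ?_) ?_ ?_
        (Eventually.of_forall fun ω => brA_tendsto_shad (hK t) (Y ω)))
      · exact (((brA_meas_shad (hK t).cthickening).comp hY).const_mul 2).aestronglyMeasurable
      · filter_upwards [Ioc_mem_nhdsGT (zero_lt_one' ℝ)] with η hη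
        refine Eventually.of_forall fun ω => ?_
        rw [Real.norm_of_nonneg (mul_nonneg zero_le_two (shadow_nonneg ((hKc t).cthickening η)
          (hK t).cthickening.isBounded (Or.inr (hK t).cthickening) _))]
        exact mul_le_mul_of_nonneg_left (shadow_mono ((hKc t).cthickening η)
          (Or.inr (hK t).cthickening) ((hKc t).cthickening 1) (hK t).cthickening.isBounded
          (Or.inr (hK t).cthickening) (Metric.cthickening_mono hη.2 _) _) zero_le_two
      · exact brA_int_shad μ hY hi (hK t).cthickening ((hKc t).cthickening 1)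
          ((hKn t).mono (Metric.self_subset_cthickening _))
    refine le_of_tendsto_of_tendsto hlim hup ?_
    filter_upwards [self_mem_nhdsWithin] with η hη
    have hη' : 0 < η := hη
    have key := image_le_of_deriv_right_le_deriv_boundary (a := 0) (b := t)
      (f := fun r : ℝ => ∫ x, bump η (C + r • Z) x) (brA_cont η hC hne hZ hZc h0 t)
      (fun r hr => brA_hasDeriv η hC hne hZ hZc hH hr.1)
      (B := fun r : ℝ => (∫ x, bump η C x)
        + r * ((∫ ω, 2 * shad (Metric.cthickening η (C + t • Z)) (Y ω) ∂μ) * η))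
      (by simp only [hC0, zero_mul, add_zero, le_refl]) (by fun_prop) (fun r _ => hlin _ _ r)
      (fun r hr => by
        refine le_trans (brA_deriv_bounds μ hY hi (hK r) (hKc r) (hKn r) hη').2
          (mul_le_mul_of_nonneg_right ?_ hη'.le)
        refine integral_mono
          (brA_int_shad μ hY hi (hK r).cthickening ((hKc r).cthickening η)
            ((hKn r).mono (Metric.self_subset_cthickening _)))
          (brA_int_shad μ hY hi (hK t).cthickening ((hKc t).cthickening η)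
            ((hKn t).mono (Metric.self_subset_cthickening _))) fun ω => ?_
        exact mul_le_mul_of_nonneg_left (shadow_mono ((hKc r).cthickening η)
          (Or.inr (hK r).cthickening) ((hKc t).cthickening η) (hK t).cthickening.isBounded
          (Or.inr (hK t).cthickening)
          (Metric.cthickening_subset_of_subset η (brA_subset hZc h0 hr.1 hr.2.le)) _) zero_le_two)
      ⟨ht, le_rfl⟩
    rw [← sub_div, div_le_iff₀ hη']
    linarith

end Pool.Agent.P.MP_181257_gt
end
end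

-- part Pool.Agent.P.MP_181257_gt.BridgeB
section

/-! Orthonormal frames, the Kubota recursion and the top degree. -/

set_option autoImplicit false
set_option linter.unusedSectionVars false

open MeasureTheory ProbabilityTheory Module Set Filter Topology
open scoped RealInnerProductSpace ENNReal Pointwise Matrix

noncomputable section

namespace Pool.Agent.P.MP_181257_gt

variable {V : Type} [NormedAddCommGroup V] [InnerProductSpace ℝ V] [FiniteDimensional ℝ V]
  [MeasurableSpace V] [BorelSpace V]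

/-- a fixed orthonormal frame -/
def brE {j : ℕ} (hj : j ≤ finrank ℝ V) (b : Fin j) : V := stdOrthonormalBasis ℝ V (Fin.castLE hj b)

theorem brB_frame {j : ℕ} (hj : j ≤ finrank ℝ V) (x : Fin j → V) :
    ∃ (h : OG V) (A : Matrix (Fin j) (Fin j) ℝ), |A.det| = D x ∧
      ∀ a, x a = ∑ b, A a b • ap h (brE hj b) := by
  classical
  let x' : Fin (finrank ℝ V) → V := fun i => if h : i.val < j then x ⟨i, h⟩ else 0
  have hcard : finrank ℝ V = Fintype.card (Fin (finrank ℝ V)) := by simp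
  let b := InnerProductSpace.gramSchmidtOrthonormalBasis hcard x'
  have hx : ∀ a : Fin j, x' (Fin.castLE hj a) = x a := fun a => by simp [x']
  let A : Matrix (Fin j) (Fin j) ℝ := Matrix.of fun a l => ⟪b (Fin.castLE hj l), x a⟫
  have hA : ∀ a, x a = ∑ l, A a l • b (Fin.castLE hj l) := by
    intro a
    conv_lhs => rw [← b.sum_repr' (x a)]
    refine (Fintype.sum_of_injective (Fin.castLE hj) (Fin.castLE_injective hj) _ _
      (fun i hi => ?_) (fun l => rfl)).symm
    have h1 : Fin.castLE hj a < i := by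
      by_contra h
      have h2 : i.val ≤ a.val := not_lt.1 h
      exact hi ⟨⟨i.val, h2.trans_lt a.2⟩, rfl⟩
    have h3 := InnerProductSpace.gramSchmidtOrthonormalBasis_inv_triangular hcard x' h1
    rw [hx] at h3
    rw [h3, zero_smul]
  refine ⟨ofIso ((stdOrthonormalBasis ℝ V).equiv b (Equiv.refl _)), A, ?_, fun a => ?_⟩
  · have hg : Matrix.gram ℝ x = A * Aᵀ := by
      ext a a'
      rw [Matrix.gram_apply, Matrix.mul_apply]
      conv_lhs => rw [hA a, sum_inner]
      refine Finset.sum_congr rfl fun l _ => ?_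
      rw [real_inner_smul_left]
      rfl
    unfold D
    rw [hg, Matrix.det_mul, Matrix.det_transpose, Real.sqrt_mul_self_eq_abs]
  · simp only [ap_ofIso, brE, OrthonormalBasis.equiv_apply_basis, Equiv.refl_apply]
    exact hA a

theorem brB_vol {j : ℕ} (A : Matrix (Fin j) (Fin j) ℝ) (f : Fin j → V) (L : Set V) :
    volume (lin (fun a => ∑ b, A a b • f b) '' L)
      = ENNReal.ofReal |A.det| * volume (lin f '' L) := by
  rw [← LinearMap.det_toLin' A, ← Measure.addHaar_image_linearMap, image_image]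
  congr 2
  funext v a
  simp [Matrix.mulVec, dotProduct, sum_inner, real_inner_smul_left]

/-- mean volume of the projections of `L` onto rotated frames -/
def brK {j : ℕ} (hj : j ≤ finrank ℝ V) (L : Set V) : ℝ≥0∞ :=
  ∫⁻ h, volume (lin (fun b => ap h (brE hj b)) '' L) ∂(haar V)

theorem brB_avg {j : ℕ} (hj : j ≤ finrank ℝ V) {L : Set V} (hL : IsCompact L) (x : Fin j → V) :
    ∫⁻ h, volume (lin (fun a => ap h (x a)) '' L) ∂(haar V) = ENNReal.ofReal (D x) * brK hj L := by
  obtain ⟨h₀, A, hA, hx⟩ := brB_frame hj x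
  have e : ∀ h : OG V, (fun a => ap h (x a)) = fun a => ∑ b, A a b • ap (h * h₀) (brE hj b) := by
    intro h
    funext a
    rw [hx a]
    simp only [ap_mul]
    simp only [ap, map_sum, map_smul]
  simp only [e, brB_vol, hA]
  rw [lintegral_const_mul' _ _ ENNReal.ofReal_ne_top]
  congr 1
  exact lintegral_mul_right_eq_self
    (fun h : OG V => volume (lin (fun b => ap h (brE hj b)) '' L)) h₀

theorem brB_haar {k : ℕ} {F : (Fin k → V) → ℝ≥0∞} (hF : Measurable F) :
    ∫⁻ x, F x ∂(γk V k) = ∫⁻ x, ∫⁻ h, F (fun a => ap h (x a)) ∂(haar V) ∂(γk V k) := by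
  have h1 : ∀ h : OG V, ∫⁻ x, F (fun a => ap h (x a)) ∂(γk V k) = ∫⁻ x, F x ∂(γk V k) := fun h =>
    (measurePreserving_pi _ _ fun _ => mp_ap h).lintegral_comp hF
  rw [lintegral_lintegral_swap (by fun_prop)]
  simp [h1]

variable (V) in
/-- mean volume of a Gaussian parallelepiped -/
def brD (k : ℕ) : ℝ≥0∞ := ∫⁻ x, ENNReal.ofReal (D x) ∂(γk V k)

theorem brB_intD (k : ℕ) : Integrable (fun x : Fin k → V => D x) (γk V k) := by
  refine (integrable_prod_norm_pow k 1).mono' continuous_D.aestronglyMeasurable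
    (ae_of_all _ fun x => ?_)
  rw [Real.norm_of_nonneg (D_nonneg _)]
  simpa using D_le_prod x

theorem brD_eq (k : ℕ) : brD V k = ENNReal.ofReal (∫ x, D x ∂(γk V k)) :=
  (ofReal_integral_eq_lintegral_ofReal (brB_intD k) (ae_of_all _ fun x => D_nonneg x)).symm

theorem brD_pos {k : ℕ} (hk : k ≤ finrank ℝ V) : 0 < (brD V k).toReal := by
  rw [brD_eq, ENNReal.toReal_ofReal (integral_D_pos hk).le]
  exact integral_D_pos hk

theorem brD_ne_top (k : ℕ) : brD V k ≠ ∞ := by
  rw [brD_eq]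
  exact ENNReal.ofReal_ne_top

theorem brB_lint {j : ℕ} {L : Set V} (hL : IsCompact L) :
    ENNReal.ofReal (intrinsicVol j L) = ∫⁻ g, volume (lin g '' L) ∂(γk V j) := by
  rw [intrinsicVol_eq, ofReal_integral_eq_lintegral_ofReal (integrable_vol hL)
    (ae_of_all _ fun g => ENNReal.toReal_nonneg)]
  exact lintegral_congr fun g =>
    ENNReal.ofReal_toReal (hL.image (lin g).continuous).measure_lt_top.ne

theorem brB_W {j : ℕ} (hj : j ≤ finrank ℝ V) {L : Set V} (hL : IsCompact L) :
    ENNReal.ofReal (intrinsicVol j L) = brD V j * brK hj L := by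
  rw [brB_lint hL, brB_haar (measurable_vol hL)]
  simp only [brB_avg hj hL]
  rw [lintegral_mul_const _ (by fun_prop)]
  rfl

theorem brB_W' {j : ℕ} (hj : j ≤ finrank ℝ V) {L : Set V} (hL : IsCompact L) :
    intrinsicVol j L = (brD V j).toReal * (brK hj L).toReal := by
  rw [← ENNReal.toReal_mul, ← brB_W hj hL, ENNReal.toReal_ofReal (intrinsicVol_nonneg _ _)]

theorem brB_img {j : ℕ} (y : V) (g : Fin j → V) (L : Set V) :
    lin g '' (pr y '' L) = lin (fun a => pr y (g a)) '' L := by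
  rw [image_image]
  congr 1
  funext v a
  simp [inner_pr_comm]

theorem brB_rec {j : ℕ} (hj : j ≤ finrank ℝ V) {L : Set V} (hL : IsCompact L) :
    ∫⁻ y, ENNReal.ofReal (‖y‖ * intrinsicVol j (pr y '' L)) ∂(stdGaussian V)
      = brD V (j + 1) * brK hj L := by
  have hF : Measurable fun x : Fin (j + 1) → V => ENNReal.ofReal ‖x 0‖
      * volume (lin (fun a : Fin j => pr (x 0) (x a.succ)) '' L) :=
    Measurable.mul (by fun_prop) ((measurable_vol hL).comp (by fun_prop))
  have h1 := brB_haar hF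
  have h2 : ∀ x : Fin (j + 1) → V, ∫⁻ h, ENNReal.ofReal ‖ap h (x 0)‖
      * volume (lin (fun a : Fin j => pr (ap h (x 0)) (ap h (x a.succ))) '' L) ∂(haar V)
      = ENNReal.ofReal (D x) * brK hj L := by
    intro x
    simp only [norm_ap, ← ap_pr]
    rw [lintegral_const_mul' _ _ ENNReal.ofReal_ne_top, brB_avg hj hL, D_succ x,
      ENNReal.ofReal_mul (norm_nonneg _), mul_assoc]
  simp only [h2] at h1
  rw [lintegral_mul_const _ (by fun_prop)] at h1
  rw [brD, ← h1, ← (mp_cons (k := j) (stdGaussian V)).lintegral_comp hF]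
  refine Eq.trans ?_ (lintegral_prod _
    (hF.comp (mp_cons (k := j) (stdGaussian V)).measurable).aemeasurable).symm
  refine lintegral_congr fun y => ?_
  simp only [Function.comp_apply, Fin.cons_zero, Fin.cons_succ]
  rw [lintegral_const_mul' _ _ ENNReal.ofReal_ne_top, ENNReal.ofReal_mul (norm_nonneg _),
    brB_lint (hL.image (kub_continuous_pr y))]
  simp only [brB_img]

theorem brB_meas {j : ℕ} {L : Set V} (hL : IsCompact L) :
    Measurable fun y : V => intrinsicVol j (pr y '' L) := by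
  have h : Measurable fun p : V × (Fin j → V) =>
      (volume (lin (fun a => pr p.1 (p.2 a)) '' L)).toReal :=
    ((measurable_vol hL).comp (by fun_prop)).ennreal_toReal
  simp only [intrinsicVol_eq, brB_img]
  exact h.stronglyMeasurable.integral_prod_right'.measurable

theorem brB_int {j : ℕ} {L : Set V} (hL : IsCompact L) :
    Integrable (fun y : V => ‖y‖ * intrinsicVol j (pr y '' L)) (stdGaussian V) := by
  obtain ⟨B, hB⟩ := exists_bound_proj j hL
  refine ((integrable_norm_pow (V := V) 1).mul_const B).mono'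
    (measurable_norm.mul (brB_meas hL)).aestronglyMeasurable (ae_of_all _ fun y => ?_)
  rw [Real.norm_of_nonneg (mul_nonneg (norm_nonneg _) (intrinsicVol_nonneg _ _)), pow_one]
  exact mul_le_mul_of_nonneg_left (hB y) (norm_nonneg _)

/-- Kubota recursion -/
theorem brB_kubota {j : ℕ} (hj : j + 1 ≤ finrank ℝ V) : ∃ c : ℝ, 0 < c ∧ ∀ L : Set V,
    IsCompact L →
      ∫ y, ‖y‖ * intrinsicVol j (pr y '' L) ∂(stdGaussian V) = c * intrinsicVol j L := by
  have hj' : j ≤ finrank ℝ V := by omega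
  have h0 := brD_pos hj'
  refine ⟨(brD V (j + 1)).toReal / (brD V j).toReal, div_pos (brD_pos hj) h0, fun L hL => ?_⟩
  rw [integral_eq_lintegral_of_nonneg_ae
    (ae_of_all _ fun y => mul_nonneg (norm_nonneg _) (intrinsicVol_nonneg _ _))
    (brB_int hL).aestronglyMeasurable, brB_rec hj' hL, brB_W' hj' hL, ENNReal.toReal_mul]
  field_simp

/-- top degree -/
theorem brB_top : ∃ c : ℝ, 0 < c ∧ ∀ L : Set V, IsCompact L →
    intrinsicVol (finrank ℝ V) L = c * (volume L).toReal := by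
  refine ⟨(brD V (finrank ℝ V)).toReal, brD_pos le_rfl, fun L hL => ?_⟩
  rw [brB_W' le_rfl hL]
  congr 2
  have h : ∀ h : OG V, volume (lin (fun b => ap h (brE (le_refl (finrank ℝ V)) b)) '' L)
      = volume L := by
    intro h
    let b := (stdOrthonormalBasis ℝ V).map (Unitary.linearIsometryEquiv h)
    have hm := (PiLp.volume_preserving_ofLp (Fin (finrank ℝ V))).comp b.measurePreserving_repr
    have e : (lin (fun b => ap h (brE (le_refl (finrank ℝ V)) b)) : V → _)
        = WithLp.ofLp ∘ b.repr := by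
      funext v a
      simp only [lin_apply, Function.comp_apply, OrthonormalBasis.repr_apply_apply]
      rfl
    have hi : Function.Injective (WithLp.ofLp ∘ b.repr) :=
      (WithLp.ofLp_injective 2).comp b.repr.injective
    have hc : IsCompact ((WithLp.ofLp ∘ b.repr) '' L) := by
      rw [← e]
      exact hL.image (lin _).continuous
    rw [e, ← hm.measure_preimage hc.measurableSet.nullMeasurableSet, preimage_image_eq _ hi]
  simp [brK, h]

theorem brB_zero {L : Set V} (hne : L.Nonempty) : intrinsicVol 0 L = 1 := by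
  have h : ∀ g : Fin 0 → V, lin g '' L = univ := fun g => by
    obtain ⟨x, hx⟩ := hne
    exact eq_univ_of_forall fun y => ⟨x, hx, Subsingleton.elim _ _⟩
  simp [intrinsicVol_eq, h, volume_pi]

end Pool.Agent.P.MP_181257_gt
end
end

-- part Pool.Agent.P.MP_181257_gt.Bridge
section

/-! Steiner's formula: the Gaussian mean projection volumes are multiples of the intrinsic
volumes. -/

set_option autoImplicit false
set_option linter.unusedSectionVars false

open MeasureTheory ProbabilityTheory Module Set Filter Topology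
open scoped RealInnerProductSpace ENNReal Pointwise Matrix

noncomputable section

namespace Pool.Agent.P.MP_181257_gt

variable {V : Type} [NormedAddCommGroup V] [InnerProductSpace ℝ V] [FiniteDimensional ℝ V]
  [MeasurableSpace V] [BorelSpace V]

theorem brC_meas {k : ℕ} {L : Set V} (hL : IsCompact L) :
    Measurable fun p : (Fin k → V) × V => shad (lin p.1 '' L) (lin p.1 p.2) := by
  have : CompactSpace L := isCompact_iff_compactSpace.1 hL
  have h := brA_meas_vol (X := (Fin k → V) × V) (K := L × Icc (-1 : ℝ) 1)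
    (F := fun p => lin p.1.1 (p.2.1 : V) + (p.2.2 : ℝ) • lin p.1.1 p.1.2) (by
      refine continuous_pi fun j => ?_
      simp only [Pi.add_apply, Pi.smul_apply, lin_apply]
      fun_prop)
  have e : ∀ p : (Fin k → V) × V, lin p.1 '' L + segment ℝ (-lin p.1 p.2) (lin p.1 p.2)
      = range fun q : L × Icc (-1 : ℝ) 1 => lin p.1 (q.1 : V) + (q.2 : ℝ) • lin p.1 p.2 := by
    intro p
    ext w
    constructor
    · rintro ⟨_, ⟨c, hc, rfl⟩, y, hy, rfl⟩
      obtain ⟨s, hs, rfl⟩ := (brA_mem_segment _ y).1 hy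
      exact ⟨(⟨c, hc⟩, ⟨s, hs⟩), rfl⟩
    · rintro ⟨⟨⟨c, hc⟩, ⟨s, hs⟩⟩, rfl⟩
      exact ⟨_, ⟨c, hc, rfl⟩, s • lin p.1 p.2, (brA_mem_segment _ _).2 ⟨s, hs, rfl⟩, rfl⟩
  unfold shad
  simp only [e, Measure.real]
  exact (h.ennreal_toReal.sub
    ((measurable_vol hL).comp measurable_fst).ennreal_toReal).div_const 2

theorem brC_slice {j : ℕ} {L : Set V} (hL : IsCompact L) (hc : Convex ℝ L) {y : V} (hy : y ≠ 0) :
    Integrable (fun g : Fin (j + 1) → V => shad (lin g '' L) (lin g y)) (γk V (j + 1)) ∧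
    ∫ g, shad (lin g '' L) (lin g y) ∂(γk V (j + 1))
      = (aN (j + 1)).toReal * (‖y‖ * intrinsicVol j (pr y '' L)) := by
  have hn : 0 < ‖y‖ := norm_pos_iff.2 hy
  have hu : ‖‖y‖⁻¹ • y‖ = 1 := norm_smul_inv_norm hy
  obtain ⟨h1, h2⟩ := integral_shad j hL hc hu
  have e : ∀ g : Fin (j + 1) → V, shad (lin g '' L) (lin g y)
      = ‖y‖ * shad (lin g '' L) (lin g (‖y‖⁻¹ • y)) := by
    intro g
    have hC : IsCompact (lin g '' L) := hL.image (lin g).continuous
    have hcv : Convex ℝ (lin g '' L) := hc.is_linear_image (lin g).toLinearMap.isLinear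
    rw [← shadow_smul hcv hC.isBounded (Or.inr hC) _
      hn.le, ← map_smul, smul_smul, mul_inv_cancel₀ hn.ne', one_smul]
  have e2 : pr (‖y‖⁻¹ • y) = pr y := funext fun v => pr_smul_left (inv_ne_zero hn.ne') y v
  simp only [e]
  refine ⟨h1.const_mul _, ?_⟩
  rw [integral_const_mul, h2, e2]
  ring

theorem brC_fubini {j : ℕ} (hn : 1 ≤ finrank ℝ V) {L : Set V} (hL : IsCompact L)
    (hc : Convex ℝ L) :
    Integrable (fun g : Fin (j + 1) → V => ∫ y, 2 * shad (lin g '' L) (lin g y) ∂(stdGaussian V))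
      (γk V (j + 1)) ∧
    ∫ g, ∫ y, 2 * shad (lin g '' L) (lin g y) ∂(stdGaussian V) ∂(γk V (j + 1))
      = 2 * (aN (j + 1)).toReal * ∫ y, ‖y‖ * intrinsicVol j (pr y '' L) ∂(stdGaussian V) := by
  have hm := brC_meas (k := j + 1) hL
  have hnn : ∀ (g : Fin (j + 1) → V) (y : V), 0 ≤ shad (lin g '' L) (lin g y) := fun g y => by
    have hC : IsCompact (lin g '' L) := hL.image (lin g).continuous
    exact shadow_nonneg (hc.is_linear_image (lin g).toLinearMap.isLinear) hC.isBounded
      (Or.inr hC) _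
  have hI : Integrable (fun p : (Fin (j + 1) → V) × V => shad (lin p.1 '' L) (lin p.1 p.2))
      ((γk V (j + 1)).prod (stdGaussian V)) := by
    refine (integrable_prod_iff' hm.aestronglyMeasurable).2 ⟨?_, ?_⟩
    · filter_upwards [ae_ne_zero hn] with y hy using (brC_slice hL hc hy).1
    · refine ((brB_int (j := j) hL).const_mul (aN (j + 1)).toReal).congr ?_
      filter_upwards [ae_ne_zero hn] with y hy
      rw [← (brC_slice hL hc hy).2]
      exact integral_congr_ae (ae_of_all _ fun g => (Real.norm_of_nonneg (hnn g y)).symm)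
  simp only [integral_const_mul]
  refine ⟨hI.integral_prod_left.const_mul 2, ?_⟩
  have e : ∫ y, ∫ g, shad (lin g '' L) (lin g y) ∂(γk V (j + 1)) ∂(stdGaussian V)
      = ∫ y, (aN (j + 1)).toReal * (‖y‖ * intrinsicVol j (pr y '' L)) ∂(stdGaussian V) := by
    refine integral_congr_ae ?_
    filter_upwards [ae_ne_zero hn] with y hy using (brC_slice hL hc hy).2
  rw [integral_integral_swap (f := fun (g : Fin (j + 1) → V) (y : V) =>
    shad (lin g '' L) (lin g y)) hI, e, integral_const_mul, mul_assoc]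

theorem brC_isGreatest {k : ℕ} (g : Fin k → V) (ℓ : (Fin k → ℝ) →L[ℝ] ℝ) :
    IsGreatest (ℓ '' (lin g '' Metric.closedBall (0 : V) c0))
      (∫ y, |ℓ (lin g y)| ∂(stdGaussian V)) := by
  have := FiniteDimensional.complete ℝ V
  set w := (InnerProductSpace.toDual ℝ V).symm (ℓ.comp (lin g)) with hw
  have h : ∀ y, ℓ (lin g y) = ⟪w, y⟫ := fun y => by
    rw [hw, InnerProductSpace.toDual_symm_apply]
    rfl
  simp only [h, image_image]
  rw [integral_abs_inner]
  constructor
  · by_cases hw0 : w = 0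
    · exact ⟨0, Metric.mem_closedBall_self c0_pos.le, by simp [hw0]⟩
    · have hn : ‖w‖ ≠ 0 := norm_ne_zero_iff.2 hw0
      refine ⟨c0 • ‖w‖⁻¹ • w, ?_, ?_⟩
      · have hu : ‖‖w‖⁻¹ • w‖ = 1 := norm_smul_inv_norm hw0
        rw [mem_closedBall_zero_iff, norm_smul, hu, mul_one, Real.norm_of_nonneg c0_pos.le]
      · simp only [real_inner_smul_right, real_inner_self_eq_norm_sq]
        field_simp
  · rintro _ ⟨x, hx, rfl⟩
    rw [mem_closedBall_zero_iff] at hx
    refine (real_inner_le_norm _ _).trans ?_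
    rw [mul_comm]
    exact mul_le_mul_of_nonneg_right hx (norm_nonneg _)

theorem brC_sandwich {j : ℕ} (hj : j + 1 ≤ finrank ℝ V) : ∃ k : ℝ, 0 < k ∧ ∀ L : Set V,
    IsCompact L → Convex ℝ L → L.Nonempty → ∀ s : ℝ, 0 ≤ s →
      s * (k * intrinsicVol j L)
        ≤ intrinsicVol (j + 1) (Metric.cthickening s L) - intrinsicVol (j + 1) L ∧
      intrinsicVol (j + 1) (Metric.cthickening s L) - intrinsicVol (j + 1) L
        ≤ s * (k * intrinsicVol j (Metric.cthickening s L)) := by
  obtain ⟨c, hc0, hc⟩ := brB_kubota hj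
  have ha : 0 < (aN (j + 1)).toReal := ENNReal.toReal_pos (aN_ne_zero j) (aN_ne_top _)
  have h0 := c0_pos
  refine ⟨2 * (aN (j + 1)).toReal * c / c0, by positivity, fun L hL hcv hne s hs => ?_⟩
  have ht : 0 ≤ s / c0 := by positivity
  have hT : IsCompact (Metric.cthickening s L) := hL.cthickening
  have e : ∀ g : Fin (j + 1) → V, lin g '' L + (s / c0) • (lin g '' Metric.closedBall (0 : V) c0)
      = lin g '' Metric.cthickening s L := by
    intro g
    have e1 : (s / c0) • Metric.closedBall (0 : V) c0 = Metric.closedBall (0 : V) s := by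
      rw [smul_closedBall _ _ h0.le, smul_zero, Real.norm_of_nonneg ht, div_mul_cancel₀ _ h0.ne']
    rw [← hL.add_closedBall_zero hs, image_add, ← e1, image_smul_set]
  have key : ∀ g : Fin (j + 1) → V,
      s / c0 * ∫ y, 2 * shad (lin g '' L) (lin g y) ∂(stdGaussian V)
        ≤ (volume (lin g '' Metric.cthickening s L)).toReal - (volume (lin g '' L)).toReal ∧
      (volume (lin g '' Metric.cthickening s L)).toReal - (volume (lin g '' L)).toReal
        ≤ s / c0 * ∫ y, 2 * shad (lin g '' Metric.cthickening s L) (lin g y) ∂(stdGaussian V) := by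
    intro g
    have h := brA_sandwich (stdGaussian V) (Y := lin g) (lin g).continuous.measurable
      ((lin g).integrable_comp IsGaussian.integrable_id) (hL.image (lin g).continuous)
      (hcv.is_linear_image (lin g).toLinearMap.isLinear) (hne.image _)
      ((isCompact_closedBall (0 : V) c0).image (lin g).continuous)
      ((convex_closedBall (0 : V) c0).is_linear_image (lin g).toLinearMap.isLinear)
      ⟨0, Metric.mem_closedBall_self h0.le, map_zero _⟩ (brC_isGreatest g) ht
    rw [e] at h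
    exact h
  obtain ⟨i1, e1⟩ := brC_fubini (j := j) (by omega) hL hcv
  obtain ⟨i2, e2⟩ := brC_fubini (j := j) (by omega) hT (hcv.cthickening s)
  have i3 := (integrable_vol (k := j + 1) hT).sub (integrable_vol hL)
  have a1 := integral_mono (i1.const_mul (s / c0)) i3 fun g => (key g).1
  have a2 := integral_mono i3 (i2.const_mul (s / c0)) fun g => (key g).2
  simp only [Pi.sub_apply] at a1 a2
  rw [integral_sub (integrable_vol hT) (integrable_vol hL), ← intrinsicVol_eq, ← intrinsicVol_eq,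
    integral_const_mul] at a1 a2
  rw [e1, hc L hL] at a1
  rw [e2, hc _ hT] at a2
  constructor
  · refine le_trans (le_of_eq ?_) a1
    ring
  · refine a2.trans (le_of_eq ?_)
    ring

theorem brC_hasDeriv {f g : ℝ → ℝ} (hg : ContinuousOn g (Ici 0))
    (h : ∀ a b : ℝ, 0 ≤ a → a ≤ b → (b - a) * g a ≤ f b - f a ∧ f b - f a ≤ (b - a) * g b)
    {r : ℝ} (hr : 0 ≤ r) : HasDerivWithinAt f (g r) (Ici 0) r := by
  rw [hasDerivWithinAt_iff_tendsto_slope]
  have h1 : Tendsto g (𝓝[Ici 0 \ {r}] r) (𝓝 (g r)) :=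
    (hg r hr).tendsto.mono_left (nhdsWithin_mono _ diff_subset)
  have h2 : Tendsto (fun y => min (g r) (g y)) (𝓝[Ici 0 \ {r}] r) (𝓝 (g r)) := by
    simpa using (tendsto_const_nhds (x := g r)).min h1
  have h3 : Tendsto (fun y => max (g r) (g y)) (𝓝[Ici 0 \ {r}] r) (𝓝 (g r)) := by
    simpa using (tendsto_const_nhds (x := g r)).max h1
  have hb : ∀ y ∈ Ici (0 : ℝ) \ {r},
      min (g r) (g y) ≤ slope f r y ∧ slope f r y ≤ max (g r) (g y) := by
    rintro y ⟨hy, hyr⟩
    rcases lt_or_gt_of_ne (show y ≠ r from hyr) with hl | hl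
    · obtain ⟨a1, a2⟩ := h y r hy hl.le
      have hp : 0 < r - y := sub_pos.2 hl
      rw [slope_comm, slope_def_field]
      refine ⟨(min_le_right _ _).trans ?_, le_trans ?_ (le_max_left _ _)⟩
      · rw [le_div_iff₀ hp]
        linarith
      · rw [div_le_iff₀ hp]
        linarith
    · obtain ⟨a1, a2⟩ := h r y hr hl.le
      have hp : 0 < y - r := sub_pos.2 hl
      rw [slope_def_field]
      refine ⟨(min_le_left _ _).trans ?_, le_trans ?_ (le_max_right _ _)⟩
      · rw [le_div_iff₀ hp]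
        linarith
      · rw [div_le_iff₀ hp]
        linarith
  refine tendsto_of_tendsto_of_tendsto_of_le_of_le' h2 h3 ?_ ?_
  · filter_upwards [self_mem_nhdsWithin] with y hy using (hb y hy).1
  · filter_upwards [self_mem_nhdsWithin] with y hy using (hb y hy).2

theorem brC_iter {n : ℕ} {F : ℕ → ℝ → ℝ}
    (hF : ∀ j, j + 1 ≤ n → ∀ r : ℝ, 0 ≤ r → HasDerivWithinAt (F (j + 1)) (F j r) (Ici 0) r)
    (i : ℕ) : ∀ m : ℕ, i + m ≤ n → EqOn (iteratedDerivWithin m (F (i + m)) (Ici 0)) (F i) (Ici 0)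
  | 0, _ => by simp [EqOn]
  | m + 1, h => by
    rw [iteratedDerivWithin_succ']
    refine EqOn.trans (iteratedDerivWithin_congr fun r hr => ?_) (brC_iter hF i m (by omega))
    exact (hF (i + m) h r hr).derivWithin (uniqueDiffOn_Ici 0 r hr)

theorem brC_poly {n : ℕ} {F : ℕ → ℝ → ℝ} (h0 : ∀ r : ℝ, 0 ≤ r → F 0 r = F 0 0)
    (hF : ∀ j, j + 1 ≤ n → ∀ r : ℝ, 0 ≤ r → HasDerivWithinAt (F (j + 1)) (F j r) (Ici 0) r) :
    ∀ j : ℕ, j ≤ n → ∀ r : ℝ, 0 ≤ r →
      F j r = ∑ l ∈ Finset.range (j + 1), F (j - l) 0 / (l.factorial : ℝ) * r ^ l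
  | 0, _, r, hr => by simpa using h0 r hr
  | j + 1, h, r, hr => by
    have hd : ∀ x : ℝ, HasDerivAt (fun r : ℝ => ∑ l ∈ Finset.range (j + 1 + 1),
        F (j + 1 - l) 0 / (l.factorial : ℝ) * r ^ l)
        (∑ l ∈ Finset.range (j + 1), F (j - l) 0 / (l.factorial : ℝ) * x ^ l) x := by
      intro x
      have h1 := HasDerivAt.fun_sum (u := Finset.range (j + 1 + 1)) fun l _ =>
        (hasDerivAt_pow l x).const_mul (F (j + 1 - l) 0 / (l.factorial : ℝ))
      refine h1.congr_deriv ?_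
      rw [Finset.sum_range_succ']
      simp only [Nat.cast_zero, zero_mul, mul_zero, add_zero, Nat.add_sub_add_right,
        Nat.add_sub_cancel, Nat.factorial_succ]
      refine Finset.sum_congr rfl fun l _ => ?_
      push_cast
      field_simp
    refine eq_of_has_deriv_right_eq (a := 0) (b := r) (f' := F j)
      (fun x hx => (hF j h x hx.1).mono (Ici_subset_Ici.2 hx.1)) (fun x hx => ?_)
      (fun x hx => (hF j h x hx.1).continuousWithinAt.mono Icc_subset_Ici_self)
      (fun x _ => (hd x).continuousAt.continuousWithinAt) ?_ r ⟨hr, le_rfl⟩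
    · rw [brC_poly h0 hF j (by omega) x hx.1]
      exact (hd x).hasDerivWithinAt
    · rw [Finset.sum_range_succ']
      simp

theorem brC_family : ∃ P : ℕ → ℝ, (∀ j, 0 < P j) ∧ ∀ M : Set V, IsCompact M → Convex ℝ M →
    M.Nonempty → ∃ F : ℕ → ℝ → ℝ, (∀ j, F j 0 = P j * intrinsicVol j M) ∧
      (∀ r : ℝ, 0 ≤ r → F 0 r = F 0 0) ∧
      (∀ j, j + 1 ≤ finrank ℝ V → ∀ r : ℝ, 0 ≤ r →
        HasDerivWithinAt (F (j + 1)) (F j r) (Ici 0) r) ∧
      F (finrank ℝ V) = fun r : ℝ => (volume (Metric.cthickening r M)).toReal := by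
  have hk : ∀ j : ℕ, ∃ k : ℝ, 0 < k ∧ (j + 1 ≤ finrank ℝ V → ∀ L : Set V,
      IsCompact L → Convex ℝ L → L.Nonempty → ∀ s : ℝ, 0 ≤ s →
      s * (k * intrinsicVol j L)
        ≤ intrinsicVol (j + 1) (Metric.cthickening s L) - intrinsicVol (j + 1) L ∧
      intrinsicVol (j + 1) (Metric.cthickening s L) - intrinsicVol (j + 1) L
        ≤ s * (k * intrinsicVol j (Metric.cthickening s L))) := by
    intro j
    by_cases hj : j + 1 ≤ finrank ℝ V
    · obtain ⟨k, h0, h⟩ := brC_sandwich hj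
      exact ⟨k, h0, fun _ => h⟩
    · exact ⟨1, one_pos, fun h => absurd h hj⟩
  choose k hk0 hk using hk
  obtain ⟨c, hc0, hc⟩ := brB_top (V := V)
  have hQ : ∀ j, 0 < ∏ l ∈ Finset.range j, k l := fun j => Finset.prod_pos fun l _ => hk0 l
  refine ⟨fun j => (∏ l ∈ Finset.range (finrank ℝ V), k l) / (c * ∏ l ∈ Finset.range j, k l),
    fun j => div_pos (hQ _) (mul_pos hc0 (hQ j)), fun M hM hcv hne => ?_⟩
  have hT : ∀ r : ℝ, IsCompact (Metric.cthickening r M) := fun r => hM.cthickening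
  have hN : ∀ r : ℝ, (Metric.cthickening r M).Nonempty := fun r =>
    hne.mono (Metric.self_subset_cthickening M)
  have hder : ∀ j, j + 1 ≤ finrank ℝ V →
      ContinuousOn (fun r : ℝ => intrinsicVol j (Metric.cthickening r M)) (Ici 0) →
      ∀ r : ℝ, 0 ≤ r → HasDerivWithinAt (fun r : ℝ => intrinsicVol (j + 1) (Metric.cthickening r M))
        (k j * intrinsicVol j (Metric.cthickening r M)) (Ici 0) r := by
    intro j hj hcont r hr
    refine brC_hasDeriv (g := fun r : ℝ => k j * intrinsicVol j (Metric.cthickening r M))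
      (continuousOn_const.mul hcont) (fun a b ha hab => ?_) hr
    have h := hk j hj _ (hT a) (hcv.cthickening a) (hN a) (b - a) (sub_nonneg.2 hab)
    rwa [cthickening_cthickening (sub_nonneg.2 hab) ha, sub_add_cancel] at h
  have hcont : ∀ j, j ≤ finrank ℝ V →
      ContinuousOn (fun r : ℝ => intrinsicVol j (Metric.cthickening r M)) (Ici 0) := by
    intro j
    induction j with
    | zero =>
      intro _
      simp only [brB_zero (hN _)]
      exact continuousOn_const
    | succ j ih => exact fun hj r hr => (hder j hj (ih (by omega)) r hr).continuousWithinAt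
  refine ⟨fun j r => (∏ l ∈ Finset.range (finrank ℝ V), k l) / (c * ∏ l ∈ Finset.range j, k l)
    * intrinsicVol j (Metric.cthickening r M), fun j => ?_, fun r _ => ?_, fun j hj r hr => ?_, ?_⟩
  · simp only [Metric.cthickening_zero, hM.isClosed.closure_eq]
  · simp only [brB_zero (hN _)]
  · refine ((hder j hj (hcont j (by omega)) r hr).const_mul _).congr_deriv ?_
    have h1 := (hQ j).ne'
    have h2 := (hk0 j).ne'
    rw [Finset.prod_range_succ]
    field_simp
  · funext r
    have h1 := (hQ (finrank ℝ V)).ne'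
    simp only [hc _ (hT r)]
    field_simp

theorem ballVol_pos (m : ℕ) : 0 < ballVol m :=
  ENNReal.toReal_pos (Metric.measure_closedBall_pos _ _ one_pos).ne' measure_closedBall_lt_top.ne

/-- the Steiner coefficient is a fixed positive multiple of the Gaussian mean projection volume -/
theorem steinerVol_eq {i : ℕ} (hi : i ≤ finrank ℝ V) : ∃ c : ℝ, 0 < c ∧ ∀ M : Set V,
    IsCompact M → Convex ℝ M → M.Nonempty → steinerVol i M = c * intrinsicVol i M := by
  obtain ⟨P, hP, h⟩ := brC_family (V := V)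
  have hb := ballVol_pos (finrank ℝ V - i)
  have hp := hP i
  refine ⟨P i / (((finrank ℝ V - i).factorial : ℝ) * ballVol (finrank ℝ V - i)), by positivity,
    fun M hM hcv hne => ?_⟩
  obtain ⟨F, h1, -, h3, h4⟩ := h M hM hcv hne
  have h5 := brC_iter h3 i (finrank ℝ V - i) (by omega) (mem_Ici.2 le_rfl)
  rw [Nat.add_sub_cancel' hi, h4, h1] at h5
  rw [steinerVol, h5]
  ring

/-- Steiner's formula -/
theorem steiner_formula {M : Set V} (hM : IsCompact M) (hcv : Convex ℝ M) (hne : M.Nonempty)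
    {r : ℝ} (hr : 0 ≤ r) :
    (volume (Metric.cthickening r M)).toReal = ∑ j ∈ Finset.range (finrank ℝ V + 1),
      ballVol (finrank ℝ V - j) * steinerVol j M * r ^ (finrank ℝ V - j) := by
  obtain ⟨P, -, h⟩ := brC_family (V := V)
  obtain ⟨F, -, h2, h3, h4⟩ := h M hM hcv hne
  have h6 := brC_poly h2 h3 _ le_rfl r hr
  rw [h4] at h6
  simp only at h6
  rw [h6, ← Finset.sum_range_reflect]
  refine Finset.sum_congr rfl fun j hj => ?_
  have hj' : j ≤ finrank ℝ V := Nat.lt_succ_iff.1 (Finset.mem_range.1 hj)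
  have h5 := brC_iter h3 j (finrank ℝ V - j) (by omega) (mem_Ici.2 le_rfl)
  rw [Nat.add_sub_cancel' hj', h4] at h5
  have hb := (ballVol_pos (finrank ℝ V - j)).ne'
  have e1 : finrank ℝ V + 1 - 1 - j = finrank ℝ V - j := by omega
  have e2 : finrank ℝ V - (finrank ℝ V - j) = j := by omega
  rw [steinerVol, h5, e1, e2]
  field_simp

theorem projBodyS_eq {i : ℕ} (hi : i ≤ finrank ℝ V) : ∃ c : ℝ, 0 < c ∧ ∀ K : Set V,
    IsCompact K → Convex ℝ K → K.Nonempty → projBodyS i K = c • projBody i K := by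
  obtain ⟨c, hc, h⟩ := steinerVol_eq hi
  refine ⟨c, hc, fun K hK hcv hne => ?_⟩
  rw [projBody_eq, ← Zs_smul _ hc]
  ext x
  simp only [projBodyS, Zs, mem_ofPred_eq]
  refine forall_congr' fun u => forall_congr' fun _ => ?_
  have e : ((ℝ ∙ u)ᗮ.starProjection : V → V) = pr u := funext fun v => starProjection_eq_pr u v
  have e2 : pr u = prL u := funext fun v => (prL_apply u v).symm
  rw [e, h _ (hK.image (kub_continuous_pr u))
    (by rw [e2]; exact hcv.is_linear_image (prL u).toLinearMap.isLinear) (hne.image _)]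

theorem projBody_smul (i : ℕ) (K : Set V) {t : ℝ} (ht : 0 < t) :
    projBody i (t • K) = t ^ i • projBody i K := by
  rw [projBody_eq, projBody_eq, ← Zs_smul _ (pow_pos ht i)]
  congr 1
  funext u
  have e2 : pr u = prL u := funext fun v => (prL_apply u v).symm
  rw [← intrinsicVol_smul i _ ht.le, e2, image_smul_set]

theorem projBodyS_sq {i : ℕ} (hi : i ≤ finrank ℝ V) : ∃ c : ℝ, 0 < c ∧ ∀ K : Set V,
    IsCompact K → Convex ℝ K → K.Nonempty →
      projBodyS i (projBodyS i K) = c • projBody i (projBody i K) := by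
  obtain ⟨c, hc, h⟩ := projBodyS_eq hi
  refine ⟨c * c ^ i, by positivity, fun K hK hcv hne => ?_⟩
  obtain ⟨B, hB⟩ := exists_bound_proj i hK
  have h1 : IsCompact (projBody i K) := by
    rw [projBody_eq]
    exact isCompact_Zs fun u _ => hB u
  have h2 : Convex ℝ (projBody i K) := by
    rw [projBody_eq]
    exact convex_Zs _
  have h3 : (projBody i K).Nonempty := by
    rw [projBody_eq]
    exact ⟨0, fun u _ => by simpa using intrinsicVol_nonneg i _⟩
  rw [h K hK hcv hne, h _ (h1.smul c) (h2.smul c) h3.smul_set, projBody_smul i _ hc, smul_smul]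

/-- the fixed point equation does not depend on the normalisation of the intrinsic volume -/
theorem fixed_iff {i : ℕ} (hi : i ≤ finrank ℝ V) {K : Set V} (hK : IsCompact K) (hcv : Convex ℝ K)
    (hne : K.Nonempty) :
    (∃ (x : V) (lam : ℝ), 0 < lam ∧ K = x +ᵥ lam • projBodyS i (projBodyS i K)) ↔
      ∃ (x : V) (lam : ℝ), 0 < lam ∧ K = x +ᵥ lam • projBody i (projBody i K) := by
  obtain ⟨c, hc, h⟩ := projBodyS_sq hi
  rw [h K hK hcv hne]
  constructor
  · rintro ⟨x, lam, hl, e⟩
    exact ⟨x, lam * c, by positivity, by rwa [smul_smul] at e⟩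
  · rintro ⟨x, lam, hl, e⟩
    exact ⟨x, lam / c, by positivity, by rwa [smul_smul, div_mul_cancel₀ _ hc.ne']⟩

end Pool.Agent.P.MP_181257_gt
end
end

-- part Pool.Agent.P.MP_181257_gt.Holder
section

/-! The contraction of the logarithmic ratio of two Lp norms. -/

set_option autoImplicit false
set_option linter.unusedSectionVars false

open MeasureTheory ProbabilityTheory Module Set Filter Topology
open scoped RealInnerProductSpace ENNReal Pointwise Matrix

noncomputable section

namespace Pool.Agent.P.MP_181257_gt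

variable {V : Type} [NormedAddCommGroup V] [InnerProductSpace ℝ V] [FiniteDimensional ℝ V]
  [MeasurableSpace V] [BorelSpace V]

/-- logarithm of the `r`-th moment -/
def Lm (f : V → ℝ) (r : ℝ) : ℝ := Real.log (∫ x, f x ^ r ∂(stdGaussian V))

/-- `log (‖f‖_P / ‖f‖_{1/P})` with `P = (m + 2) / m` -/
def Δ (m : ℕ) (f : V → ℝ) : ℝ :=
  Lm f (((m : ℝ) + 2) / m) / (((m : ℝ) + 2) / m) - (((m : ℝ) + 2) / m) * Lm f ((m : ℝ) / (m + 2))

theorem holder_int {f : V → ℝ} (hf : Pos f) {r : ℝ} (hr : 0 ≤ r) :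
    Integrable (fun x => f x ^ r) (stdGaussian V) :=
  (hf.rpow hr).bd.integrable _

theorem holder_pos {f : V → ℝ} (hf : Pos f) : 0 < ∫ x, f x ∂(stdGaussian V) := by
  obtain ⟨c, C, hc, h⟩ := hf.bdd
  have h1 : ∫ _x, c ∂(stdGaussian V) ≤ ∫ x, f x ∂(stdGaussian V) :=
    integral_mono (integrable_const c) (hf.bd.integrable _) fun x => (h x).1
  simp only [integral_const, probReal_univ, one_smul] at h1
  exact hc.trans_le h1

theorem holder_zero (f : V → ℝ) : Lm f 0 = 0 := by
  simp [Lm]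

theorem Lm_convex {f : V → ℝ} (hf : Pos f) {r₀ r₁ a : ℝ} (h₀ : 0 ≤ r₀) (h₁ : 0 ≤ r₁) (ha : 0 ≤ a)
    (ha' : a ≤ 1) : Lm f (a * r₀ + (1 - a) * r₁) ≤ a * Lm f r₀ + (1 - a) * Lm f r₁ := by
  have hb : 0 ≤ 1 - a := by linarith
  have hA := holder_pos (hf.rpow h₀)
  have hB := holder_pos (hf.rpow h₁)
  have hr : 0 ≤ a * r₀ + (1 - a) * r₁ := by positivity
  have hC := holder_pos (hf.rpow hr)
  unfold Lm
  generalize hAe : ∫ x, f x ^ r₀ ∂(stdGaussian V) = A at hA ⊢
  generalize hBe : ∫ x, f x ^ r₁ ∂(stdGaussian V) = B at hB ⊢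
  have hK : 0 < A ^ a * B ^ (1 - a) := by positivity
  have hp : ∀ x, f x ^ (a * r₀ + (1 - a) * r₁)
      ≤ A ^ a * B ^ (1 - a) * (a / A * f x ^ r₀ + (1 - a) / B * f x ^ r₁) := by
    intro x
    have hx := hf.pos x
    have h2 := Real.geom_mean_le_arith_mean2_weighted (p₁ := f x ^ r₀ / A) (p₂ := f x ^ r₁ / B)
      ha hb (by positivity) (by positivity) (by ring)
    have e : f x ^ (a * r₀ + (1 - a) * r₁)
        = A ^ a * B ^ (1 - a) * ((f x ^ r₀ / A) ^ a * (f x ^ r₁ / B) ^ (1 - a)) := by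
      rw [Real.div_rpow (by positivity) hA.le, Real.div_rpow (by positivity) hB.le,
        ← Real.rpow_mul hx.le, ← Real.rpow_mul hx.le, Real.rpow_add hx, mul_comm r₀, mul_comm r₁]
      field_simp
    rw [e]
    refine mul_le_mul_of_nonneg_left (h2.trans_eq ?_) hK.le
    ring
  have i0 := (holder_int hf h₀).const_mul (a / A)
  have i1 := (holder_int hf h₁).const_mul ((1 - a) / B)
  have h3 := integral_mono (holder_int hf hr) ((i0.add i1).const_mul (A ^ a * B ^ (1 - a))) hp
  simp only [Pi.add_apply] at h3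
  rw [integral_const_mul, integral_add i0 i1, integral_const_mul, integral_const_mul, hAe, hBe,
    div_mul_cancel₀ _ hA.ne', div_mul_cancel₀ _ hB.ne', add_sub_cancel, mul_one] at h3
  refine (Real.log_le_log hC h3).trans_eq ?_
  rw [Real.log_mul (by positivity) (by positivity), Real.log_rpow hA, Real.log_rpow hB]

theorem holder_scale {f : V → ℝ} (hf : Pos f) {r s : ℝ} (hr : 0 ≤ r) (h0 : 0 ≤ s) (h1 : s ≤ 1) :
    Lm f (s * r) ≤ s * Lm f r := by
  have h := Lm_convex hf hr le_rfl h0 h1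
  rwa [holder_zero, mul_zero, add_zero, add_zero] at h

theorem Δ_nonneg {m : ℕ} (h1 : 1 ≤ m) {f : V → ℝ} (hf : Pos f) : 0 ≤ Δ m f := by
  have hm : (1 : ℝ) ≤ m := by exact_mod_cast h1
  have hp : (m : ℝ) / (m + 2) ≤ 1 := by
    rw [div_le_one (by linarith)]
    linarith
  have h := holder_scale hf (r := ((m : ℝ) + 2) / m) (s := (m / (m + 2)) ^ 2) (by positivity)
    (by positivity) (pow_le_one₀ (by positivity) hp)
  rw [show ((m : ℝ) / (m + 2)) ^ 2 * ((m + 2) / m) = m / (m + 2) by field_simp] at h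
  have h2 := mul_le_mul_of_nonneg_left h (by positivity : 0 ≤ ((m : ℝ) + 2) / m)
  unfold Δ
  refine sub_nonneg.2 (h2.trans_eq ?_)
  field_simp

theorem Δ_le {m : ℕ} (h1 : 1 ≤ m) {f : V → ℝ} (hf : Pos f) {c C : ℝ} (hc : 0 < c)
    (h : ∀ x, c ≤ f x ∧ f x ≤ C) : Δ m f ≤ Real.log (C / c) := by
  have hm : (1 : ℝ) ≤ m := by exact_mod_cast h1
  have hC : 0 < C := hc.trans_le ((h 0).1.trans (h 0).2)
  have hu : ∀ r : ℝ, 0 ≤ r → Lm f r ≤ r * Real.log C := by
    intro r hr
    have h2 : ∫ x, f x ^ r ∂(stdGaussian V) ≤ ∫ _x, C ^ r ∂(stdGaussian V) :=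
      integral_mono (holder_int hf hr) (integrable_const _) fun x =>
        Real.rpow_le_rpow (hf.pos x).le (h x).2 hr
    simp only [integral_const, probReal_univ, one_smul] at h2
    rw [← Real.log_rpow hC]
    exact Real.log_le_log (holder_pos (hf.rpow hr)) h2
  have hl : ∀ r : ℝ, 0 ≤ r → r * Real.log c ≤ Lm f r := by
    intro r hr
    have h2 : ∫ _x, c ^ r ∂(stdGaussian V) ≤ ∫ x, f x ^ r ∂(stdGaussian V) :=
      integral_mono (integrable_const _) (holder_int hf hr) fun x =>
        Real.rpow_le_rpow hc.le (h x).1 hr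
    simp only [integral_const, probReal_univ, one_smul] at h2
    rw [← Real.log_rpow hc]
    exact Real.log_le_log (by positivity) h2
  have hP : 0 < ((m : ℝ) + 2) / m := by positivity
  have h2 : Lm f (((m : ℝ) + 2) / m) / (((m : ℝ) + 2) / m) ≤ Real.log C := by
    rw [div_le_iff₀ hP, mul_comm]
    exact hu _ hP.le
  have h3 := mul_le_mul_of_nonneg_left (hl ((m : ℝ) / (m + 2)) (by positivity)) hP.le
  have h4 : ((m : ℝ) + 2) / m * (m / (m + 2) * Real.log c) = Real.log c := by field_simp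
  rw [Real.log_div hC.ne' hc.ne']
  unfold Δ
  linarith only [h2, h3, h4]

theorem holder_up {m i : ℕ} (hm : finrank ℝ V = m + 1) (hi : 1 ≤ i) (him : i ≤ m) {f : V → ℝ}
    (hf : Den f) : Lm (sk i f) (((m : ℝ) + 2) / i) ≤ m * Lm f (((m : ℝ) + 2) / m) := by
  have h1 : 1 ≤ m := hi.trans him
  have hm' : (1 : ℝ) ≤ m := by exact_mod_cast h1
  have hi' : (1 : ℝ) ≤ i := by exact_mod_cast hi
  have hP : 0 ≤ ((m : ℝ) + 2) / m := by positivity
  have hQ : 0 ≤ ((m : ℝ) + 2) / i := by positivity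
  have hg := den_sk hm h1 him hf
  have hF := hf.rpow hP
  have h2 : ∫ y, sk i f y ^ (((m : ℝ) + 2) / i) ∂(stdGaussian V)
      ≤ ∫ y, sk m (fun x => f x ^ (((m : ℝ) + 2) / m)) y ∂(stdGaussian V) := by
    refine integral_mono_ae (holder_int hg.toPos hQ)
      ((den_sk hm h1 le_rfl hF).toPos.bd.integrable _) ?_
    filter_upwards [ae_ne_zero (V := V) (by omega)] with y hy
    have h3 := le_sk hm h1 le_rfl hF hy
    have e : (fun x => (f x ^ (((m : ℝ) + 2) / m)) ^ ((m : ℝ) / (m + 2))) = f := by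
      funext x
      rw [← Real.rpow_mul (hf.toPos.pos x).le,
        show ((m : ℝ) + 2) / m * (m / (m + 2)) = 1 by field_simp, Real.rpow_one]
    rw [e] at h3
    refine le_trans ?_ h3
    refine (Real.rpow_le_rpow (hg.toPos.pos y).le (sk_le hm h1 him hf hy) hQ).trans_eq ?_
    rw [← Real.rpow_natCast, ← Real.rpow_mul ((pos_Rd hf.toPos).pos y).le]
    congr 1
    field_simp
  have h4 := Real.log_le_log (holder_pos (hg.toPos.rpow hQ))
    (h2.trans (integral_sk_le hm h1 le_rfl hF))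
  rwa [Real.log_pow] at h4

theorem holder_low {m i : ℕ} (hm : finrank ℝ V = m + 1) (hi : 1 ≤ i) (him : i ≤ m) {f : V → ℝ}
    (hf : Den f) : i * Lm f ((m : ℝ) / (m + 2)) ≤ Lm (sk i f) ((m : ℝ) / (m + 2)) := by
  have h1 : 1 ≤ m := hi.trans him
  have hm' : (1 : ℝ) ≤ m := by exact_mod_cast h1
  have hi' : (1 : ℝ) ≤ i := by exact_mod_cast hi
  have hp : 0 ≤ (m : ℝ) / (m + 2) := by positivity
  have hq : 0 ≤ (i : ℝ)⁻¹ * ((m : ℝ) / (m + 2)) := by positivity
  have hg := den_sk hm h1 him hf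
  have hF := hf.rpow hp
  have hR := pos_Rd hF.toPos
  have h2 : ∫ y, Rd (fun x => f x ^ ((m : ℝ) / (m + 2))) y ∂(stdGaussian V)
      ≤ ∫ y, sk i f y ^ ((i : ℝ)⁻¹ * ((m : ℝ) / (m + 2))) ∂(stdGaussian V) := by
    refine integral_mono_ae (hR.bd.integrable _) (holder_int hg.toPos hq) ?_
    filter_upwards [ae_ne_zero (V := V) (by omega)] with y hy
    have h3 := Real.rpow_le_rpow (Real.rpow_nonneg (hR.pos y).le _) (le_sk hm h1 him hf hy) hq
    rw [← Real.rpow_mul (hR.pos y).le,
      show (i : ℝ) * (m + 2) / m * ((i : ℝ)⁻¹ * (m / (m + 2))) = 1 by field_simp,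
      Real.rpow_one] at h3
    exact h3
  have h4 := Real.log_le_log (holder_pos hF.toPos) ((le_integral_Rd hm h1 hF).trans h2)
  have h5 := holder_scale hg.toPos hp (s := (i : ℝ)⁻¹) (by positivity) (inv_le_one_of_one_le₀ hi')
  have h6 := mul_le_mul_of_nonneg_left (h4.trans h5) (by positivity : (0 : ℝ) ≤ i)
  rwa [← mul_assoc, mul_inv_cancel₀ (by positivity), one_mul] at h6

theorem Δ_sk_le {m i : ℕ} (hm : finrank ℝ V = m + 1) (hi : 1 ≤ i) (hn : 5 * i ≤ m + 3) :
    ∃ κ : ℝ, 0 ≤ κ ∧ κ < 1 ∧ ∀ f : V → ℝ, Den f → Δ m (sk i f) ≤ κ * Δ m f := by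
  have him : i ≤ m := by omega
  have h1 : 1 ≤ m := hi.trans him
  have hm' : (1 : ℝ) ≤ m := by exact_mod_cast h1
  have hi' : (1 : ℝ) ≤ i := by exact_mod_cast hi
  have hn' : 5 * (i : ℝ) ≤ m + 3 := by exact_mod_cast hn
  have hk : 4 * ((m : ℝ) + 1) * i < (m + 2) ^ 2 - i * m := by
    have := mul_le_mul_of_nonneg_right hn' (by positivity : (0 : ℝ) ≤ 5 * m + 4)
    linarith only [this, hm', show ((m : ℝ) + 2) ^ 2 = m * m + 4 * m + 4 by ring]
  have hD : 0 < ((m : ℝ) + 2) ^ 2 - i * m := lt_trans (by positivity) hk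
  obtain ⟨κ, hκ⟩ : ∃ κ : ℝ, κ = 4 * ((m : ℝ) + 1) * i / ((m + 2) ^ 2 - i * m) := ⟨_, rfl⟩
  have k0 : 0 ≤ κ := by rw [hκ]; positivity
  have k1 : κ < 1 := by rw [hκ]; exact (div_lt_one hD).2 hk
  refine ⟨κ, k0, k1, fun f hf => ?_⟩
  have hg := den_sk hm h1 him hf
  have b0 : 0 ≤ κ / m := by positivity
  have b1 : κ / m ≤ 1 := by
    rw [div_le_one (by linarith)]
    linarith
  have e : κ / m * (((m : ℝ) + 2) / i) + (1 - κ / m) * ((m : ℝ) / (m + 2)) = (m + 2) / m := by
    have e0 : κ * (((m : ℝ) + 2) ^ 2 - i * m) = 4 * ((m : ℝ) + 1) * i := by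
      rw [hκ, div_mul_cancel₀ _ hD.ne']
    field_simp
    linear_combination e0
  have h2 := Lm_convex hg.toPos (r₀ := ((m : ℝ) + 2) / i) (r₁ := (m : ℝ) / (m + 2))
    (by positivity) (by positivity) b0 b1
  rw [e] at h2
  have h3 := holder_up hm hi him hf
  have h4 := holder_low hm hi him hf
  unfold Δ
  generalize Lm (sk i f) (((m : ℝ) + 2) / i) = gQ at *
  generalize Lm (sk i f) (((m : ℝ) + 2) / m) = gP at *
  generalize Lm (sk i f) ((m : ℝ) / (m + 2)) = gp at *
  generalize Lm f (((m : ℝ) + 2) / m) = fP at *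
  generalize Lm f ((m : ℝ) / (m + 2)) = fp at *
  have hp : 0 ≤ (m : ℝ) / (m + 2) := by positivity
  have e1 : ∀ t : ℝ, t / (((m : ℝ) + 2) / m) = m / (m + 2) * t := fun t => by field_simp
  have e2 : ((m : ℝ) + 2) / m = κ / m * ((m + 2) / i) + (1 - κ / m) * (m / (m + 2)) := e.symm
  have a1 := mul_le_mul_of_nonneg_left h2 hp
  have a2 := mul_le_mul_of_nonneg_left h3 (mul_nonneg hp b0)
  have a3 := mul_le_mul_of_nonneg_left h4
    (by positivity : 0 ≤ κ / m * (((m : ℝ) + 2) / i))
  have e3 : (m : ℝ) / (m + 2) * (κ / m) * (m * fP) = κ * (m / (m + 2) * fP) := by field_simp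
  have e4 : κ / m * (((m : ℝ) + 2) / i) * (i * fp) = κ * ((m + 2) / m * fp) := by field_simp
  have e5 : ((m : ℝ) + 2) / m * gp
      = κ / m * ((m + 2) / i) * gp + (1 - κ / m) * (m / (m + 2)) * gp := by
    rw [← add_mul, e]
  rw [e1, e1]
  linarith only [a1, a2, a3, e3, e4, e5]

/-- a quantitative form of the Bernoulli inequality -/
theorem holder_bern {P d t : ℝ} (hP : 1 < P) (hd : 0 < d) (ht : 0 < t) :
    |t - 1| ≤ (t ^ P - 1 - P * (t - 1)) / (2 * d * (P - 1)) + d * (t + 1) := by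
  obtain ⟨s, hs, rfl⟩ : ∃ s : ℝ, 0 < s ∧ t = s ^ 2 :=
    ⟨√t, Real.sqrt_pos.2 ht, (Real.sq_sqrt ht.le).symm⟩
  have h1 := one_add_mul_self_le_rpow_one_add (s := s - 1) (by linarith) (p := 2 * P - 1)
    (by linarith)
  have e : (s ^ 2) ^ P = s * s ^ (2 * P - 1) := by
    rw [← Real.rpow_natCast, ← Real.rpow_mul hs.le, Real.rpow_sub hs, Real.rpow_one]
    push_cast
    field_simp
  rw [add_sub_cancel] at h1
  have h2 := mul_le_mul_of_nonneg_left h1 hs.le
  have h3 : (s - 1) ^ 2 / (2 * d) ≤ ((s ^ 2) ^ P - 1 - P * (s ^ 2 - 1)) / (2 * d * (P - 1)) := by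
    have hP' : 0 < P - 1 := by linarith
    rw [← mul_div_mul_right _ _ hP'.ne']
    refine div_le_div_of_nonneg_right ?_ (by positivity)
    rw [e]
    linarith only [h2]
  refine le_trans ?_ (add_le_add_left h3 _)
  have h4 : |s ^ 2 - 1| = |s - 1| * (s + 1) := by
    rw [show s ^ 2 - 1 = (s - 1) * (s + 1) by ring, abs_mul, abs_of_pos (by linarith : 0 < s + 1)]
  rw [h4, ← sq_abs (s - 1)]
  generalize |s - 1| = w
  have h5 : w ^ 2 / (2 * d) + d * (s ^ 2 + 1) - w * (s + 1)
      = (w - d * (s + 1)) ^ 2 / (2 * d) + d * (s - 1) ^ 2 / 2 := by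
    field_simp
    ring
  have h6 : 0 ≤ (w - d * (s + 1)) ^ 2 / (2 * d) + d * (s - 1) ^ 2 / 2 := by positivity
  linarith only [h5, h6]

/-- closeness in mean -/
theorem holder_mean {m : ℕ} (h1 : 1 ≤ m) {η : ℝ} (hη : 0 < η) :
    ∃ δ : ℝ, 0 < δ ∧ ∀ f : V → ℝ, Pos f → Δ m f ≤ δ →
      ∫ x, |f x - ∫ y, f y ∂(stdGaussian V)| ∂(stdGaussian V) ≤ η * ∫ y, f y ∂(stdGaussian V) := by
  have hm : (1 : ℝ) ≤ m := by exact_mod_cast h1
  obtain ⟨P, hPe⟩ : ∃ P : ℝ, P = ((m : ℝ) + 2) / m := ⟨_, rfl⟩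
  have hP : 1 < P := by
    rw [hPe, lt_div_iff₀ (by linarith)]
    linarith
  have hP1 : 0 < P - 1 := by linarith
  have hP0 : 0 < P := by linarith
  have hK : 0 < η * (η / 4) * (P - 1) := by positivity
  refine ⟨Real.log (1 + η * (η / 4) * (P - 1)) / P,
    div_pos (Real.log_pos (by linarith)) hP0, fun f hf hΔ => ?_⟩
  have hM := holder_pos hf
  have hL : Lm f 1 = Real.log (∫ y, f y ∂(stdGaussian V)) := by simp [Lm]
  have h2 := holder_scale hf zero_le_one (s := (m : ℝ) / (m + 2)) (by positivity) (by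
    rw [div_le_one (by linarith)]
    linarith)
  rw [mul_one, hL] at h2
  have h3 := mul_le_mul_of_nonneg_left h2 hP0.le
  have hi := hf.bd.integrable (stdGaussian V)
  have hiP := holder_int hf hP0.le
  have hI := holder_pos (hf.rpow hP0.le)
  unfold Δ at hΔ
  rw [← hPe] at hΔ
  generalize hMe : ∫ y, f y ∂(stdGaussian V) = M at hM h3 ⊢
  have e : P * ((m : ℝ) / (m + 2) * Real.log M) = Real.log M := by
    rw [hPe]
    field_simp
  have h4 : Lm f P ≤ Real.log (1 + η * (η / 4) * (P - 1)) + P * Real.log M := by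
    have h5 : Lm f P / P ≤ Real.log (1 + η * (η / 4) * (P - 1)) / P + Real.log M := by
      linarith only [hΔ, h3, e]
    rw [div_le_iff₀ hP0, add_mul, div_mul_cancel₀ _ hP0.ne'] at h5
    linarith only [h5]
  have hMP : 0 < M ^ P := by positivity
  rw [← Real.log_rpow hM, ← Real.log_mul (by positivity) hMP.ne', Lm,
    Real.log_le_log_iff hI (by positivity)] at h4
  have hp : ∀ x, |f x - M| ≤ M / (2 * (η / 4) * (P - 1) * M ^ P) * f x ^ P
      + ((η / 4 - P / (2 * (η / 4) * (P - 1))) * f x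
        + M * ((P - 1) / (2 * (η / 4) * (P - 1)) + η / 4)) := by
    intro x
    have hx := hf.pos x
    have h5 := mul_le_mul_of_nonneg_left
      (holder_bern hP (d := η / 4) (t := f x / M) (by positivity) (by positivity)) hM.le
    have e1 : |f x - M| = M * |f x / M - 1| := by
      rw [← abs_of_pos hM, ← abs_mul, abs_of_pos hM]
      congr 1
      field_simp
    rw [e1]
    refine h5.trans_eq ?_
    rw [Real.div_rpow hx.le hM.le]
    field_simp
    ring
  have i1 := hiP.const_mul (M / (2 * (η / 4) * (P - 1) * M ^ P))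
  have i2 := hi.const_mul (η / 4 - P / (2 * (η / 4) * (P - 1)))
  have i3 : Integrable (fun _ : V => M * ((P - 1) / (2 * (η / 4) * (P - 1)) + η / 4))
      (stdGaussian V) := integrable_const _
  have h6 := integral_mono (hi.sub (integrable_const M)).abs (i1.add (i2.add i3)) hp
  simp only [Pi.add_apply, Pi.sub_apply] at h6
  have i4 := integral_add i1 (i2.add i3)
  simp only [Pi.add_apply] at i4
  rw [i4, integral_add i2 i3, integral_const_mul, integral_const_mul,
    integral_const, probReal_univ, one_smul, hMe] at h6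
  refine h6.trans ?_
  have h7 := mul_le_mul_of_nonneg_left h4
    (by positivity : 0 ≤ M / (2 * (η / 4) * (P - 1) * M ^ P))
  refine (add_le_add_left h7 _).trans_eq ?_
  field_simp
  ring

theorem hz_close {m : ℕ} (hm : finrank ℝ V = m + 1) (h1 : 1 ≤ m) {ε : ℝ} (hε : 0 < ε) :
    ∃ δ : ℝ, 0 < δ ∧ ∀ f : V → ℝ, Den f → Δ m f ≤ δ → ∀ u u' : V, ‖u‖ = 1 → ‖u'‖ = 1 →
      hz f u ≤ (1 + ε) * hz f u' := by
  have hc := c0_pos
  obtain ⟨N, hN⟩ : ∃ N : ℝ, N = ∫ x, ‖x‖ ^ 1 ∂(stdGaussian V) := ⟨_, rfl⟩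
  have hN0 : 0 ≤ N := by
    rw [hN]
    exact integral_nonneg fun x => by positivity
  obtain ⟨δ, hδ, h⟩ := holder_mean (V := V) h1 (η := ε * c0 / ((2 + ε) * (N + 1)))
    (by positivity)
  refine ⟨δ, hδ, fun f hf hΔ u u' hu hu' => ?_⟩
  have h2 := h f hf.toPos hΔ
  have hM := holder_pos hf.toPos
  generalize ∫ y, f y ∂(stdGaussian V) = M at h2 hM
  obtain ⟨C, hC⟩ := hf.toPos.bd.bdd
  have hb : Bd fun x => |f x - M| := by
    refine ⟨(hf.meas.sub_const M).abs, C + |M|, fun x => ?_⟩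
    rw [abs_abs]
    exact (abs_sub _ _).trans (add_le_add_left (hC x) _)
  have h3 := radial_indep (V := V) (by omega) 1 hb (fun x => abs_nonneg _)
    fun t ht x => by rw [hf.hom t ht]
  rw [← hN] at h3
  have key : ∀ w : V, ‖w‖ = 1 → |hz f w - c0 * M| ≤ N * (ε * c0 / ((2 + ε) * (N + 1)) * M) := by
    intro w hw
    have i1 : Integrable (fun y => |⟪w, y⟫| * f y) (stdGaussian V) :=
      (integrable_abs_inner w).mul_bdd hf.meas.aestronglyMeasurable (c := C) (ae_of_all _ hC)
    have i2 := (integrable_abs_inner w).mul_const M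
    have i3 : Integrable (fun x : V => ‖x‖ ^ 1 * |f x - M|) (stdGaussian V) := by
      obtain ⟨C', hC'⟩ := hb.bdd
      exact (integrable_norm_pow 1).mul_bdd hb.meas.aestronglyMeasurable (c := C')
        (ae_of_all _ hC')
    have e : hz f w - c0 * M = ∫ y, (|⟪w, y⟫| * f y - |⟪w, y⟫| * M) ∂(stdGaussian V) := by
      rw [integral_sub i1 i2, integral_mul_const, integral_abs_inner, hw, mul_one, hz]
    rw [e]
    refine abs_integral_le_integral_abs.trans ?_
    refine le_trans (integral_mono (i1.sub i2).abs i3 fun y => ?_) ?_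
    · beta_reduce
      rw [← mul_sub, abs_mul, abs_abs, pow_one]
      refine mul_le_mul_of_nonneg_right ?_ (abs_nonneg _)
      simpa [hw] using abs_real_inner_le_norm w y
    · rw [h3]
      exact mul_le_mul_of_nonneg_left h2 hN0
  have k1 := (abs_le.1 (key u hu)).2
  have k2 := mul_le_mul_of_nonneg_left (abs_le.1 (key u' hu')).1 (by linarith : 0 ≤ 1 + ε)
  have k3 : (2 + ε) * (N * (ε * c0 / ((2 + ε) * (N + 1)) * M)) ≤ ε * c0 * M := by
    have e : (2 + ε) * (N * (ε * c0 / ((2 + ε) * (N + 1)) * M)) = N / (N + 1) * (ε * c0 * M) := by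
      field_simp
    rw [e]
    refine mul_le_of_le_one_left (by positivity) ?_
    rw [div_le_one (by linarith)]
    linarith
  linarith only [k1, k2, k3]

end Pool.Agent.P.MP_181257_gt
end
end
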