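import Pool.Agent.K.MP_181257_gt.C1
import Pool.Agent.K.MP_181257_gt.C0

-- part Pool.Agent.P.MP_181257_gt.HiDefs
section

/-! Definitions for the range `i ≤ (1 - ε) n`. -/

set_option autoImplicit false
set_option linter.unusedSectionVars false
set_option linter.unusedVariables false

open MeasureTheory ProbabilityTheory Module Set Filter Topology
open scoped RealInnerProductSpace ENNReal Pointwise Matrix

noncomputable section

namespace Pool.Agent.P.MP_181257_gt

variable {V : Type} [NormedAddCommGroup V] [InnerProductSpace ℝ V] [FiniteDimensional ℝ V]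
  [MeasurableSpace V] [BorelSpace V]

/-- Euclidean `n`-space -/
abbrev En (n : ℕ) : Type := EuclideanSpace ℝ (Fin n)

/-- product of `k` copies of a measure -/
abbrev mk (μ : Measure V) (k : ℕ) : Measure (Fin k → V) := Measure.pi fun _ : Fin k => μ

/-- orthogonal projection on a subspace -/
abbrev pU (U : Submodule ℝ V) : V →L[ℝ] V := U.starProjection

/-- the normal space of a family of vectors -/
def nrm {k : ℕ} (x : Fin k → V) : Submodule ℝ V := (Submodule.span ℝ (range x))ᗮ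

/-- total volume weight of the `k`-frames -/
def Wr (k : ℕ) (μ : Measure V) : ℝ := ∫ x, D x ∂(mk μ k)

/-- the frame law -/
def Fr (k : ℕ) (μ : Measure V) : Measure (Fin k → V) :=
  (ENNReal.ofReal (Wr k μ))⁻¹ • (mk μ k).withDensity fun x => ENNReal.ofReal (D x)

/-- the law of a Gaussian vector in the normal space of a random frame -/
def Tn (k : ℕ) (μ : Measure V) : Measure V :=
  ((Fr k μ).prod (stdGaussian V)).map fun p => Pj k p.1 p.2

/-- probability measures with a first moment -/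
structure Mom (μ : Measure V) : Prop where
  prob : IsProbabilityMeasure μ
  int : Integrable (fun x => ‖x‖) μ

/-- a fixed pair -/
structure FP (i : ℕ) (μ ν : Measure V) : Prop where
  ml : Mom μ
  mr : Mom ν
  posl : 0 < Wr (i + 1) μ
  posr : 0 < Wr (i + 1) ν
  el : μ = Tn i ν
  er : ν = Tn i μ

theorem FP.symm {i : ℕ} {μ ν : Measure V} (h : FP i μ ν) : FP i ν μ :=
  ⟨h.mr, h.ml, h.posr, h.posl, h.er, h.el⟩

/-- second moments -/
def Sg (μ : Measure V) (a b : V) : ℝ := ∫ w, ⟪a, w⟫ * ⟪b, w⟫ ∂μ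

/-- mean projection on the normal space -/
def SS (k : ℕ) (μ : Measure V) (a b : V) : ℝ := ∫ x, ⟪Pj k x a, b⟫ ∂(Fr k μ)

/-- mean length of the normal part -/
def th (k : ℕ) (μ : Measure V) (u : V) : ℝ := ∫ x, ‖Pj k x u‖ ∂(Fr k μ)

/-- ratio of consecutive weights -/
def Zq (i : ℕ) (μ : Measure V) : ℝ := Wr (i + 1) μ / Wr i μ

/-- even moments of the standard Gaussian on the line -/
def Km (k : ℕ) : ℝ := ∫ t, t ^ (2 * k) ∂(gaussianReal 0 1)

/-- regularised relative length of a projection -/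
def rho (δ : ℝ) (U : Submodule ℝ V) (w : V) : ℝ := ‖pU U w‖ ^ 2 / ‖w‖ ^ 2 + δ ^ 2

/-- the doubled space -/
abbrev Db (V : Type) : Type := WithLp 2 (V × V)

/-- regularised volume of the projections of `e` on the normal space of `x` -/
def Dl {r k : ℕ} (δ : ℝ) (e : Fin r → V) (x : Fin k → V) : ℝ :=
  D fun l => (WithLp.toLp 2 (Pj k x (e l), δ • e l) : Db V)

/-- second derivative of `u ↦ ‖T u‖` -/
def Phi (T : V →L[ℝ] V) (u a b : V) : ℝ :=
  ⟪T a, T b⟫ / ‖T u‖ - ⟪T a, T u⟫ * ⟪T b, T u⟫ / ‖T u‖ ^ 3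

/-- second derivative of `th i μ` -/
def MK (i : ℕ) (μ : Measure V) (u a b : V) : ℝ := ∫ x, Phi (Pj i x) u a b ∂(Fr i μ)

/-- second moments of a density on the hyperplane orthogonal to `u` -/
def Mf (F : V → ℝ) (u a b : V) : ℝ :=
  ∫ g, ⟪a, pr u g⟫ * ⟪b, pr u g⟫ * F (pr u g) ∂(stdGaussian V)

/-- `i!` times the `i`-th elementary symmetric function of a bilinear form -/
def Ei (i : ℕ) (M : V → V → ℝ) : ℝ :=
  ∑ l : Fin i → Fin (finrank ℝ V),
    (Matrix.of fun j j' => M (stdOrthonormalBasis ℝ V (l j)) (stdOrthonormalBasis ℝ V (l j'))).det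

/-- the squared-volume moment of a density on the hyperplane orthogonal to `y` -/
def Vq (i : ℕ) (F : V → ℝ) (y : V) : ℝ :=
  ∫ x, D (fun j => pr y (x j)) ^ 2 * ∏ j, F (pr y (x j)) ∂(γk V i)

/-- the candidate density -/
def dens (i : ℕ) (μ : Measure V) (y : V) : ℝ := Ei i fun a b => ‖y‖ * MK i μ y a b

/-- bounded nonnegative `0`-homogeneous functions that are Lipschitz on the unit sphere -/
structure Lf (f : V → ℝ) : Prop where
  meas : Measurable f
  hom : ∀ t : ℝ, 0 < t → ∀ x, f (t • x) = f x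
  nonneg : ∀ x, 0 ≤ f x
  bdd : ∃ C, ∀ x, f x ≤ C
  lip : ∃ L, 0 ≤ L ∧ ∀ x y : V, ‖x‖ = 1 → ‖y‖ = 1 → |f x - f y| ≤ L * ‖x - y‖

/-- Fisher information -/
def Jf (f : V → ℝ) : ℝ≥0∞ :=
  ∫⁻ x, ENNReal.ofReal (‖x‖ ^ 2 * ‖fderiv ℝ f x‖ ^ 2 / f x) ∂(stdGaussian V)

/-- rotation by the angle `t` in the plane of the orthonormal pair `y, v` -/
def rot (y v : V) (t : ℝ) (w : V) : V :=
  w + ⟪y, w⟫ • ((Real.cos t - 1) • y + Real.sin t • v)
    + ⟪v, w⟫ • ((Real.cos t - 1) • v - Real.sin t • y)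

/-- inverse fourth moments of the normal part are bounded by `C` -/
def Neg4 (i : ℕ) (μ : Measure V) (C : ℝ) : Prop :=
  ∀ u : V, ‖u‖ = 1 → ∫⁻ x, (ENNReal.ofReal ‖Pj i x u‖)⁻¹ ^ 4 ∂(Fr i μ) ≤ ENNReal.ofReal C

/-- projections on subspaces of codimension at most `i` are not short -/
def Sub (i : ℕ) (μ : Measure V) (lam : ℝ) : Prop :=
  ∀ U : Submodule ℝ V, finrank ℝ V ≤ finrank ℝ U + i →
    lam ≤ ∫ w, ‖pU U w‖ ∂μ ∧
      ∫⁻ w, (ENNReal.ofReal ‖pU U w‖)⁻¹ ^ 8 ∂μ ≤ (ENNReal.ofReal lam)⁻¹ ^ 8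

/-- the sign of a real number -/
def sg (t : ℝ) : ℝ := t / |t|

/-- twice the Gaussian density at the origin -/
def c2 : ℝ := 2 * gaussianPDFReal 0 1 0

/-- the kernel of the mixed volume form for a base measure and densities -/
def omR (ρ : Measure V) {k : ℕ} (T : V →L[ℝ] V) (g : Fin k → V → ℝ) (p : V × V) : ℝ :=
  ∫ y, D (fun j => T ((Fin.cons p.1 (Fin.cons p.2 y : Fin (k + 1) → V) : Fin (k + 2) → V) j))
    * ∏ j, g j (y j) ∂(mk ρ k)

/-- the kernel of the mixed volume form in the link `U` -/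
def omU (μ : Measure V) (k : ℕ) (U : Submodule ℝ V) (p : V × V) : ℝ :=
  ∫ y, D (fun j => pU U ((Fin.cons p.1 (Fin.cons p.2 y : Fin (k + 1) → V) : Fin (k + 2) → V) j))
    ∂(mk μ k)

/-- volume weighted integral in the link `U` -/
def IU (μ : Measure V) (k : ℕ) (U : Submodule ℝ V) (F : (Fin k → V) → ℝ) : ℝ :=
  ∫ x, D (fun j => pU U (x j)) * F x ∂(mk μ k)

/-- `P + d (1 - P)` -/
def Td (d : ℝ) (P : V →L[ℝ] V) : V →L[ℝ] V := P + d • (ContinuousLinearMap.id ℝ V - P)

/-- unnormalised density of the law of `Td d P g` -/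
def Gd (d : ℝ) (P : V →L[ℝ] V) (x : V) : ℝ := Real.exp (-((d⁻¹ ^ 2 - 1) * ‖x - P x‖ ^ 2 / 2))

/-- density of the law of `Td d P g` -/
def Fd (d : ℝ) (P : V →L[ℝ] V) (x : V) : ℝ := Gd d P x / ∫ z, Gd d P z ∂(stdGaussian V)

/-- density of the smoothed measure -/
def Fa (d : ℝ) (i : ℕ) (ν : Measure V) (x : V) : ℝ := ∫ y, Fd d (Pj i y) x ∂(Fr i ν)

/-- two-sided bound for the second moments on all hyperplanes -/
def Pin (f : V → ℝ) (r R : ℝ) : Prop :=
  ∀ y v : V, ‖y‖ = 1 → ‖v‖ = 1 → ⟪y, v⟫ = 0 → r ≤ Mf f y v v ∧ Mf f y v v ≤ R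

end Pool.Agent.P.MP_181257_gt
end
end

-- part Pool.Agent.P.MP_181257_gt.HiP1
section

/-! Projections on normal spaces. -/

set_option autoImplicit false
set_option linter.unusedSectionVars false
set_option linter.unusedVariables false

open MeasureTheory ProbabilityTheory Module Set Filter Topology
open scoped RealInnerProductSpace ENNReal Pointwise Matrix

noncomputable section

namespace Pool.Agent.P.MP_181257_gt

variable {V : Type} [NormedAddCommGroup V] [InnerProductSpace ℝ V] [FiniteDimensional ℝ V]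
  [MeasurableSpace V] [BorelSpace V]

theorem mem_nrm_HiP1 {k : ℕ} (x : Fin k → V) (v : V) : v ∈ nrm x ↔ ∀ j, ⟪x j, v⟫ = 0 := by
  rw [nrm, Submodule.mem_orthogonal]
  refine ⟨fun h j => h _ (Submodule.subset_span ⟨j, rfl⟩), fun h u hu => ?_⟩
  induction hu using Submodule.span_induction with
  | mem y hy => obtain ⟨j, rfl⟩ := hy; exact h j
  | zero => simp
  | add y z _ _ h1 h2 => rw [inner_add_left, h1, h2, add_zero]
  | smul c y _ h1 => rw [real_inner_smul_left, h1, mul_zero]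

theorem row_HiP1 : ∀ {k : ℕ} (x : Fin k → V) (j : Fin k), Pj k x (x j) = 0
  | 0, _, j => j.elim0
  | k + 1, x, j => by
    rw [Pj_succ]
    refine Fin.cases ?_ (fun i => ?_) j
    · rw [pr_self, map_zero]
    · exact row_HiP1 (fun j => pr (x 0) (x j.succ)) i

theorem mem_pU_HiP1 (U : Submodule ℝ V) (v : V) : pU U v ∈ U := U.starProjection_apply_mem v

theorem Pj_eq {k : ℕ} (x : Fin k → V) : Pj k x = pU (nrm x) := by
  ext v
  refine (Submodule.eq_starProjection_of_mem_of_inner_eq_zero ?_ fun w hw => ?_).symm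
  · rw [mem_nrm_HiP1]
    intro j
    rw [← inner_Pj_comm, row_HiP1, inner_zero_left]
  · rw [inner_sub_left, inner_Pj_comm, Pj_of_inner x w ((mem_nrm_HiP1 x w).1 hw), sub_self]

theorem finrank_nrm_ge {k : ℕ} (x : Fin k → V) : finrank ℝ V ≤ finrank ℝ (nrm x) + k := by
  have h1 := (Submodule.span ℝ (range x)).finrank_add_finrank_orthogonal
  have h2 : finrank ℝ (Submodule.span ℝ (range x)) ≤ k := by
    simpa [Set.finrank] using finrank_range_le_card (R := ℝ) x
  unfold nrm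
  omega

theorem finrank_nrm_eq {k : ℕ} {x : Fin k → V} (hx : D x ≠ 0) :
    finrank ℝ (nrm x) + k = finrank ℝ V := by
  have h1 := (Submodule.span ℝ (range x)).finrank_add_finrank_orthogonal
  have h0 : (Matrix.gram ℝ x).det ≠ 0 := fun h => hx (by rw [D, h, Real.sqrt_zero])
  have h2 : finrank ℝ (Submodule.span ℝ (range x)) = k := by
    simpa using finrank_span_eq_card (Matrix.linearIndependent_of_det_gram_ne_zero h0)
  unfold nrm
  omega

theorem D_pU_eq_zero {k : ℕ} {U : Submodule ℝ V} (hU : finrank ℝ U < k) (x : Fin k → V) :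
    D (fun j => pU U (x j)) = 0 := by
  by_contra hx
  have h0 : (Matrix.gram ℝ fun j => pU U (x j)).det ≠ 0 :=
    fun h => hx (by rw [D, h, Real.sqrt_zero])
  have h1 : LinearIndependent ℝ fun j => (⟨pU U (x j), mem_pU_HiP1 U _⟩ : U) :=
    LinearIndependent.of_comp U.subtype (Matrix.linearIndependent_of_det_gram_ne_zero h0)
  have h2 := h1.fintype_card_le_finrank
  rw [Fintype.card_fin] at h2
  omega

theorem norm_pU_le (U : Submodule ℝ V) (v : V) : ‖pU U v‖ ≤ ‖v‖ := by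
  exact U.norm_starProjection_apply_le v

theorem norm_pU_mono {U U' : Submodule ℝ V} (h : U ≤ U') (v : V) : ‖pU U v‖ ≤ ‖pU U' v‖ := by
  have h1 : pU U (pU U' v) = pU U v :=
    congrArg (fun T : V →L[ℝ] V => T v) (Submodule.starProjection_comp_starProjection_of_le h)
  rw [← h1]
  exact norm_pU_le _ _

theorem norm_Pj_le {k : ℕ} (x : Fin k → V) (v : V) : ‖Pj k x v‖ ≤ ‖v‖ := by
  rw [Pj_eq]
  exact norm_pU_le _ _

theorem Pj_Pj {k : ℕ} (x : Fin k → V) (v : V) : Pj k x (Pj k x v) = Pj k x v := by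
  rw [Pj_eq]
  exact Submodule.starProjection_eq_self_iff.2 (mem_pU_HiP1 _ _)

theorem Pj_row {k : ℕ} (x : Fin k → V) (j : Fin k) : Pj k x (x j) = 0 := by
  exact row_HiP1 x j

theorem inner_Pj_self {k : ℕ} (x : Fin k → V) (a : V) : ⟪Pj k x a, a⟫ = ‖Pj k x a‖ ^ 2 := by
  rw [← real_inner_self_eq_norm_sq, ← inner_Pj_comm, Pj_Pj]

theorem Pj_perm {k : ℕ} (x : Fin k → V) (σ : Equiv.Perm (Fin k)) :
    Pj k (fun j => x (σ j)) = Pj k x := by
  have h : nrm (fun j => x (σ j)) = nrm x := by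
    ext v
    simp only [mem_nrm_HiP1]
    exact ⟨fun h j => by simpa using h (σ.symm j), fun h j => h _⟩
  rw [Pj_eq, Pj_eq, h]

theorem Pj_smul {k : ℕ} (x : Fin k → V) {t : Fin k → ℝ} (ht : ∀ j, t j ≠ 0) :
    Pj k (fun j => t j • x j) = Pj k x := by
  have h : nrm (fun j => t j • x j) = nrm x := by
    ext v
    simp only [mem_nrm_HiP1, real_inner_smul_left, mul_eq_zero, ht, false_or]
  rw [Pj_eq, Pj_eq, h]

theorem pr_pU (U : Submodule ℝ V) (a v : V) :
    pr (pU U a) (pU U v) = pU (U ⊓ (ℝ ∙ pU U a)ᗮ) v := by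
  refine (Submodule.eq_starProjection_of_mem_of_inner_eq_zero
    (Submodule.mem_inf.2 ⟨?_, ?_⟩) fun w hw => ?_).symm
  · exact U.sub_mem (mem_pU_HiP1 U v) (U.smul_mem _ (mem_pU_HiP1 U a))
  · exact Submodule.mem_orthogonal_singleton_iff_inner_right.2 (inner_pr_self _ _)
  · have h1 := U.starProjection_inner_eq_zero v w hw.1
    have h2 : ⟪pU U a, w⟫ = 0 := Submodule.mem_orthogonal_singleton_iff_inner_right.1 hw.2
    rw [inner_sub_left] at h1 ⊢
    rw [inner_pr_comm, pr_of_inner_eq_zero h2]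
    exact h1

theorem finrank_link (U : Submodule ℝ V) (a : V) :
    finrank ℝ U ≤ finrank ℝ (U ⊓ (ℝ ∙ a)ᗮ : Submodule ℝ V) + 1 := by
  have h1 := Submodule.finrank_sup_add_finrank_inf_eq U (ℝ ∙ a)ᗮ
  have h2 := Submodule.finrank_le (U ⊔ (ℝ ∙ a)ᗮ)
  have h3 := (ℝ ∙ a).finrank_add_finrank_orthogonal
  have h4 : finrank ℝ (ℝ ∙ a) ≤ 1 := by
    simpa using finrank_span_le_card (R := ℝ) ({a} : Set V)
  omega

theorem Pj_pU (U : Submodule ℝ V) {k : ℕ} (x : Fin k → V) (v : V) :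
    Pj k (fun j => pU U (x j)) (pU U v) = pU (U ⊓ nrm fun j => pU U (x j)) v := by
  rw [Pj_eq]
  have hle : Submodule.span ℝ (range fun j => pU U (x j)) ≤ U :=
    Submodule.span_le.2 (by rintro _ ⟨j, rfl⟩; exact mem_pU_HiP1 U _)
  refine (Submodule.eq_starProjection_of_mem_of_inner_eq_zero
    (Submodule.mem_inf.2 ⟨?_, mem_pU_HiP1 _ _⟩) fun w hw => ?_).symm
  · have h1 : pU (nrm fun j => pU U (x j)) (pU U v) = pU U v -
        pU (Submodule.span ℝ (range fun j => pU U (x j))) (pU U v) :=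
      Submodule.starProjection_orthogonal_val _
    rw [h1]
    exact U.sub_mem (mem_pU_HiP1 U v) (hle (mem_pU_HiP1 _ _))
  · have h1 := U.starProjection_inner_eq_zero v w hw.1
    have h2 := (nrm fun j => pU U (x j)).starProjection_inner_eq_zero (pU U v) w hw.2
    rw [inner_sub_left] at h1 h2 ⊢
    linarith

theorem finrank_inf_nrm (U : Submodule ℝ V) {k : ℕ} (x : Fin k → V) :
    finrank ℝ U ≤ finrank ℝ (U ⊓ nrm x : Submodule ℝ V) + k := by
  have h1 := Submodule.finrank_sup_add_finrank_inf_eq U (nrm x)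
  have h2 := Submodule.finrank_le (U ⊔ nrm x)
  have h3 := finrank_nrm_ge x
  omega

theorem Pj_cons {k : ℕ} (a : V) (x : Fin k → V) (v : V) :
    Pj (k + 1) (Fin.cons a x : Fin (k + 1) → V) v = pr (Pj k x a) (Pj k x v) := by
  have h : nrm (Fin.cons a x : Fin (k + 1) → V) = nrm x ⊓ (ℝ ∙ pU (nrm x) a)ᗮ := by
    ext z
    rw [Submodule.mem_inf, Submodule.mem_orthogonal_singleton_iff_inner_right, mem_nrm_HiP1,
      Fin.forall_fin_succ]
    simp only [Fin.cons_zero, Fin.cons_succ]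
    rw [← mem_nrm_HiP1, and_comm]
    refine and_congr_right fun hz => ?_
    have h1 := (nrm x).starProjection_inner_eq_zero a z hz
    rw [inner_sub_left, sub_eq_zero] at h1
    rw [h1]
  rw [Pj_eq, Pj_eq, pr_pU, h]

theorem norm_sq_Pj_cons {k : ℕ} (a : V) (x : Fin k → V) (v : V) :
    ‖Pj (k + 1) (Fin.cons a x : Fin (k + 1) → V) v‖ ^ 2
      = ‖Pj k x v‖ ^ 2 - ⟪Pj k x a, v⟫ ^ 2 / ‖Pj k x a‖ ^ 2 := by
  rw [Pj_cons, norm_sq_pr, ← inner_Pj_comm, Pj_Pj]

theorem norm_Pj_swap {k : ℕ} (a u : V) (x : Fin k → V) :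
    ‖Pj (k + 1) (Fin.cons a x : Fin (k + 1) → V) u‖ * ‖Pj k x a‖
      = ‖Pj k x u‖ * ‖Pj (k + 1) (Fin.cons u x : Fin (k + 1) → V) a‖ := by
  by_cases ha : Pj k x a = 0
  · rw [Pj_cons u x a, ha]; simp
  by_cases hu : Pj k x u = 0
  · rw [Pj_cons a x u, hu]; simp
  have ha' : ‖Pj k x a‖ ≠ 0 := norm_ne_zero_iff.2 ha
  have hu' : ‖Pj k x u‖ ≠ 0 := norm_ne_zero_iff.2 hu
  have h1 : ⟪Pj k x u, a⟫ = ⟪Pj k x a, u⟫ := by rw [inner_Pj_comm, real_inner_comm]
  refine (pow_left_inj₀ (by positivity) (by positivity) two_ne_zero).1 ?_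
  rw [mul_pow, mul_pow, norm_sq_Pj_cons, norm_sq_Pj_cons, h1]
  field_simp

end Pool.Agent.P.MP_181257_gt
end
end

-- part Pool.Agent.P.MP_181257_gt.HiP2
section

/-! Orthonormal families, diagonalisation, dual bases. -/

set_option autoImplicit false
set_option linter.unusedSectionVars false
set_option linter.unusedVariables false

open MeasureTheory ProbabilityTheory Module Set Filter Topology
open scoped RealInnerProductSpace ENNReal Pointwise Matrix

noncomputable section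

namespace Pool.Agent.P.MP_181257_gt

variable {V : Type} [NormedAddCommGroup V] [InnerProductSpace ℝ V] [FiniteDimensional ℝ V]
  [MeasurableSpace V] [BorelSpace V]

theorem exists_on (U : Submodule ℝ V) {r : ℕ} (hr : r ≤ finrank ℝ U) :
    ∃ e : Fin r → V, Orthonormal ℝ e ∧ ∀ l, e l ∈ U := by
  refine ⟨fun l => (stdOrthonormalBasis ℝ U (Fin.castLE hr l) : V), ?_, fun l => Subtype.prop _⟩
  exact ((stdOrthonormalBasis ℝ U).orthonormal.comp _ (Fin.castLE_injective hr)).comp_linearIsometry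
    U.subtypeₗᵢ

theorem sum_inner_sq_le {U : Submodule ℝ V} {r : ℕ} {e : Fin r → V} (he : Orthonormal ℝ e)
    (hU : ∀ l, e l ∈ U) (w : V) : ∑ l, ⟪e l, w⟫ ^ 2 ≤ ‖pU U w‖ ^ 2 := by
  have h := he.sum_inner_products_le (s := Finset.univ) (pU U w)
  refine le_of_eq_of_le (Finset.sum_congr rfl fun l _ => ?_) h
  rw [Real.norm_eq_abs, sq_abs, ← Submodule.inner_starProjection_left_eq_right,
    Submodule.starProjection_eq_self_iff.2 (hU l)]

theorem exists_onb (U : Submodule ℝ V) : ∃ e : Fin (finrank ℝ U) → V, Orthonormal ℝ e ∧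
    (∀ l, e l ∈ U) ∧ ∀ w, ‖pU U w‖ ^ 2 = ∑ l, ⟪e l, w⟫ ^ 2 := by
  refine ⟨fun l => (stdOrthonormalBasis ℝ U l : V),
    (stdOrthonormalBasis ℝ U).orthonormal.comp_linearIsometry U.subtypeₗᵢ,
    fun l => Subtype.prop _, fun w => ?_⟩
  have h := (stdOrthonormalBasis ℝ U).sum_sq_inner_right
    (⟨pU U w, U.starProjection_apply_mem w⟩ : U)
  rw [Submodule.coe_norm] at h
  refine h.symm.trans (Finset.sum_congr rfl fun l _ => ?_)
  rw [Submodule.coe_inner, ← Submodule.inner_starProjection_left_eq_right,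
    Submodule.starProjection_eq_self_iff.2 (Subtype.prop _)]

theorem sum_norm_sq_pU {n : ℕ} (b : OrthonormalBasis (Fin n) ℝ V) (U : Submodule ℝ V) :
    ∑ l, ‖pU U (b l)‖ ^ 2 = (finrank ℝ U : ℝ) := by
  obtain ⟨e, he, -, h⟩ := exists_onb U
  simp only [h]
  rw [Finset.sum_comm]
  have h1 : ∀ j, ∑ l, ⟪e j, b l⟫ ^ 2 = 1 := fun j => by
    rw [b.sum_sq_inner_left, he.1 j, one_pow]
  simp [h1]

theorem exists_diag (M : V → V → ℝ) (hs : ∀ a b, M a b = M b a)
    (hadd : ∀ a a' b, M (a + a') b = M a b + M a' b)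
    (hsm : ∀ (t : ℝ) a b, M (t • a) b = t * M a b) :
    ∃ (b : OrthonormalBasis (Fin (finrank ℝ V)) ℝ V) (s : Fin (finrank ℝ V) → ℝ),
      ∀ l a, M (b l) a = s l * ⟪b l, a⟫ := by
  let c := stdOrthonormalBasis ℝ V
  let A : V →ₗ[ℝ] V :=
    { toFun := fun v => ∑ l, M v (c l) • c l
      map_add' := fun v w => by
        simp only [hadd, add_smul, Finset.sum_add_distrib]
      map_smul' := fun t v => by
        simp only [hsm, RingHom.id_apply, Finset.smul_sum, smul_smul] }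
  have hA : ∀ v w, ⟪A v, w⟫ = M v w := by
    intro v w
    let L : V →ₗ[ℝ] ℝ :=
      { toFun := fun u => M u v
        map_add' := fun u u' => hadd u u' v
        map_smul' := fun t u => hsm t u v }
    have h1 : M v w = L (∑ l, ⟪c l, w⟫ • c l) := by
      rw [c.sum_repr' w, hs v w]
      rfl
    rw [h1, map_sum]
    change ⟪∑ l, M v (c l) • c l, w⟫ = _
    rw [sum_inner]
    refine Finset.sum_congr rfl fun l _ => ?_
    rw [real_inner_smul_left, map_smul, smul_eq_mul, mul_comm, hs v (c l)]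
    rfl
  have hsy : A.IsSymmetric := by
    intro v w
    rw [hA, real_inner_comm, hA, hs]
  refine ⟨hsy.eigenvectorBasis rfl, hsy.eigenvalues rfl, fun l a => ?_⟩
  rw [← hA, hsy.apply_eigenvectorBasis, inner_smul_left]
  simp

theorem dual_basis {k : ℕ} (x : Fin (k + 1) → V) (a b : V) :
    D x * (⟪a, b⟫ - ⟪Pj (k + 1) x a, b⟫)
      = ∑ j : Fin (k + 1), D (fun l => x (j.succAbove l)) *
          (⟪a, x j⟫ * (⟪Pj k (fun l => x (j.succAbove l)) (x j), b⟫
            / ‖Pj k (fun l => x (j.succAbove l)) (x j)‖)) := by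
  have hsub : ∀ {m : ℕ} (y : Fin m → V) (v : V), v - Pj m y v ∈ Submodule.span ℝ (range y) := by
    intro m y v
    have h := Submodule.sub_starProjection_mem_orthogonal (K := nrm y) v
    rw [Pj_eq]
    rwa [nrm, Submodule.orthogonal_orthogonal] at h
  have hD : ∀ j : Fin (k + 1), D x = D (fun l => x (j.succAbove l))
      * ‖Pj k (fun l => x (j.succAbove l)) (x j)‖ := by
    intro j
    rw [← D_cons_eq, ← D_perm x (Fin.cycleRange j).symm]
    congr 1
    funext i
    refine Fin.cases ?_ (fun i => ?_) i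
    · simp
    · simp
  set A : V := D x • (a - Pj (k + 1) x a) with hA
  set B : V := ∑ j : Fin (k + 1), (D (fun l => x (j.succAbove l)) *
      (⟪a, x j⟫ / ‖Pj k (fun l => x (j.succAbove l)) (x j)‖))
        • Pj k (fun l => x (j.succAbove l)) (x j) with hB
  have hAm : A ∈ Submodule.span ℝ (range x) := Submodule.smul_mem _ _ (hsub x a)
  have hBm : B ∈ Submodule.span ℝ (range x) := by
    refine Submodule.sum_mem _ fun j _ => Submodule.smul_mem _ _ ?_
    have h1 : x j ∈ Submodule.span ℝ (range x) := Submodule.subset_span (mem_range_self j)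
    have h2 : x j - Pj k (fun l => x (j.succAbove l)) (x j) ∈ Submodule.span ℝ (range x) := by
      refine Submodule.span_mono ?_ (hsub (fun l => x (j.succAbove l)) (x j))
      rintro _ ⟨l, rfl⟩
      exact mem_range_self _
    simpa using Submodule.sub_mem _ h1 h2
  have hin : ∀ l, ⟪A - B, x l⟫ = 0 := by
    intro l
    have h1 : ⟪A, x l⟫ = D x * ⟪a, x l⟫ := by
      rw [hA, real_inner_smul_left, inner_sub_left, inner_Pj_comm, Pj_row, inner_zero_right,
        sub_zero]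
    have h2 : ⟪B, x l⟫ = D x * ⟪a, x l⟫ := by
      rw [hB, sum_inner, Finset.sum_eq_single l]
      · rw [real_inner_smul_left, inner_Pj_self, hD l]
        by_cases h0 : ‖Pj k (fun i => x (l.succAbove i)) (x l)‖ = 0
        · rw [h0]
          ring
        · field_simp
      · intro j _ hj
        obtain ⟨i, rfl⟩ := Fin.exists_succAbove_eq hj.symm
        rw [real_inner_smul_left, inner_Pj_comm,
          Pj_row (fun l => x (j.succAbove l)) i, inner_zero_right, mul_zero]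
      · intro h
        exact absurd (Finset.mem_univ l) h
    rw [inner_sub_left, h1, h2, sub_self]
  have hall : ∀ v ∈ Submodule.span ℝ (range x), ⟪A - B, v⟫ = 0 := by
    intro v hv
    induction hv using Submodule.span_induction with
    | mem v hv => obtain ⟨l, rfl⟩ := hv; exact hin l
    | zero => exact inner_zero_right _
    | add v w _ _ h1 h2 => rw [inner_add_right, h1, h2, add_zero]
    | smul t v _ h1 => rw [real_inner_smul_right, h1, mul_zero]
  have hAB : A = B :=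
    sub_eq_zero.1 (inner_self_eq_zero.1 (hall _ (Submodule.sub_mem _ hAm hBm)))
  have h3 : ⟪A, b⟫ = ⟪B, b⟫ := by rw [hAB]
  rw [hA, hB, real_inner_smul_left, inner_sub_left, sum_inner] at h3
  rw [h3]
  refine Finset.sum_congr rfl fun j _ => ?_
  rw [real_inner_smul_left]
  ring

end Pool.Agent.P.MP_181257_gt
end
end

-- part Pool.Agent.P.MP_181257_gt.HiG1
section

/-! Gaussian moments. -/

set_option autoImplicit false
set_option linter.unusedSectionVars false
set_option linter.unusedVariables false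

open MeasureTheory ProbabilityTheory Module Set Filter Topology
open scoped RealInnerProductSpace ENNReal Pointwise Matrix

noncomputable section

namespace Pool.Agent.P.MP_181257_gt

variable {V : Type} [NormedAddCommGroup V] [InnerProductSpace ℝ V] [FiniteDimensional ℝ V]
  [MeasurableSpace V] [BorelSpace V]

theorem Km_nonneg (k : ℕ) : 0 ≤ Km k :=
  integral_nonneg fun t => by
    show 0 ≤ t ^ (2 * k)
    rw [pow_mul]; positivity

theorem Km_one : Km 1 = 1 := by
  have h := variance_id_gaussianReal (μ := 0) (v := 1)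
  rw [variance_eq_integral (by fun_prop)] at h
  simpa [Km] using h

theorem deriv_HiG1 {p p' : ℝ → ℝ} (h : ∀ t, HasDerivAt p (p' t) t) :
    deriv (fun t => p t * Real.exp (t ^ 2 / 2)) =
      fun t => (p' t + t * p t) * Real.exp (t ^ 2 / 2) := by
  funext t
  have h1 : HasDerivAt (fun t : ℝ => t ^ 2 / 2) t t := by
    have := (hasDerivAt_pow 2 t).div_const 2
    refine this.congr_deriv ?_
    simp
  have h2 := (h t).mul h1.exp
  rw [show (fun t => p t * Real.exp (t ^ 2 / 2)) = p * fun t : ℝ => Real.exp (t ^ 2 / 2) from rfl,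
    h2.deriv]
  ring

theorem Km_two : Km 2 = 3 := by
  have h0 : Km 2 = iteratedDeriv 4 (mgf (fun x => x) (gaussianReal 0 1)) 0 := by
    rw [iteratedDeriv_mgf_zero] <;> simp [Km]
  have h1 : mgf (fun x : ℝ => x) (gaussianReal 0 1) = fun t => 1 * Real.exp (t ^ 2 / 2) := by
    rw [mgf_fun_id_gaussianReal]
    funext t
    simp
  have d1 := deriv_HiG1 (p := fun _ => 1) (p' := fun _ => 0) (fun t => hasDerivAt_const t 1)
  have d2 := deriv_HiG1 (p := fun t => 0 + t * 1) (p' := fun _ => 1) (fun t => by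
    simpa using hasDerivAt_id' t)
  have d3 := deriv_HiG1 (p := fun t => 1 + t * (0 + t * 1)) (p' := fun t => 2 * t) (fun t => by
    have := (hasDerivAt_pow 2 t).const_add 1
    refine (this.congr_deriv (by simp)).congr_of_eventuallyEq (Eventually.of_forall fun x => ?_)
    ring)
  have d4 := deriv_HiG1 (p := fun t => 2 * t + t * (1 + t * (0 + t * 1)))
    (p' := fun t => 3 + 3 * t ^ 2) (fun t => by
    have := ((hasDerivAt_id' t).const_mul 3).add (hasDerivAt_pow 3 t)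
    refine (this.congr_deriv (by simp)).congr_of_eventuallyEq (Eventually.of_forall fun x => ?_)
    simp only [Pi.add_apply]
    ring)
  rw [h0, h1, iteratedDeriv_succ, iteratedDeriv_succ, iteratedDeriv_succ, iteratedDeriv_one,
    d1, d2, d3, d4]
  simp

theorem c2_pos : 0 < c2 :=
  mul_pos two_pos (gaussianPDFReal_pos 0 1 0 one_ne_zero)

theorem measurable_sg : Measurable sg := by
  unfold sg
  fun_prop

theorem integrable_inner_pow (a : V) (p : ℕ) :
    Integrable (fun g => ⟪a, g⟫ ^ p) (stdGaussian V) := by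
  have h := (integrable_norm_pow (V := V) p).const_mul (‖a‖ ^ p)
  refine h.mono' (by fun_prop) (ae_of_all _ fun x => ?_)
  rw [Real.norm_eq_abs, abs_pow, ← mul_pow]
  exact pow_le_pow_left₀ (abs_nonneg _) (abs_real_inner_le_norm a x) p

theorem integral_inner_pow (a : V) (k : ℕ) :
    ∫ g, ⟪a, g⟫ ^ (2 * k) ∂(stdGaussian V) = Km k * ‖a‖ ^ (2 * k) := by
  by_cases hw : a = 0
  · rcases Nat.eq_zero_or_pos k with rfl | hk
    · simp [Km]
    · have : 2 * k ≠ 0 := by omega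
      simp [hw, this]
  have hna : ‖a‖ ≠ 0 := norm_ne_zero_iff.2 hw
  have hm := mp_coiso (fun x : V => ⟪‖a‖⁻¹ • a, x⟫) (by fun_prop) (fun t : ℝ => t • ‖a‖⁻¹ • a)
    (fun z t => by rw [real_inner_smul_right, real_inner_comm z]; simp)
    (fun t => by simp [norm_smul, hna])
  rw [stdGaussian_real] at hm
  rw [Km, ← hm.map_eq, integral_map hm.measurable.aemeasurable (by fun_prop),
    ← integral_mul_const]
  refine integral_congr_ae (ae_of_all _ fun x => ?_)
  simp only [real_inner_smul_left]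
  rw [← mul_pow]
  congr 1
  field_simp

theorem integral_norm_pow_le {k : ℕ} (hk : 1 ≤ k) :
    ∫ g, ‖g‖ ^ (2 * k) ∂(stdGaussian V) ≤ (finrank ℝ V : ℝ) ^ k * Km k := by
  obtain ⟨j, rfl⟩ : ∃ j, k = j + 1 := ⟨k - 1, by omega⟩
  set b := stdOrthonormalBasis ℝ V
  have h1 : ∀ g : V, ‖g‖ ^ (2 * (j + 1)) ≤
      (finrank ℝ V : ℝ) ^ j * ∑ l, ⟪b l, g⟫ ^ (2 * (j + 1)) := by
    intro g
    have h2 := pow_sum_le_card_mul_sum_pow (s := Finset.univ) (f := fun l => ⟪b l, g⟫ ^ 2)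
      (fun l _ => sq_nonneg _) j
    rw [b.sum_sq_inner_right, Finset.card_univ, Fintype.card_fin] at h2
    simpa only [pow_mul] using h2
  have h3 : Integrable (fun g : V => (finrank ℝ V : ℝ) ^ j * ∑ l, ⟪b l, g⟫ ^ (2 * (j + 1)))
      (stdGaussian V) :=
    (integrable_finsetSum _ fun l _ => integrable_inner_pow (b l) _).const_mul _
  refine (integral_mono (integrable_norm_pow _) h3 h1).trans (le_of_eq ?_)
  rw [integral_const_mul, integral_finsetSum _ fun l _ => integrable_inner_pow (b l) _]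
  simp only [integral_inner_pow, b.orthonormal.1, one_pow, mul_one, Finset.sum_const,
    Finset.card_univ, Fintype.card_fin, nsmul_eq_mul]
  ring

theorem sq_HiG1 (a : V) : ∫ g, ⟪a, g⟫ ^ 2 ∂(stdGaussian V) = ‖a‖ ^ 2 := by
  have := integral_inner_pow a 1
  rwa [Km_one, one_mul] at this

theorem four_HiG1 (a : V) : ∫ g, ⟪a, g⟫ ^ 4 ∂(stdGaussian V) = 3 * ‖a‖ ^ 4 := by
  have := integral_inner_pow a 2
  rwa [Km_two] at this

theorem integral_inner_mul (a b : V) : ∫ g, ⟪a, g⟫ * ⟪b, g⟫ ∂(stdGaussian V) = ⟪a, b⟫ := by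
  have h1 : ∀ g : V, ⟪a, g⟫ * ⟪b, g⟫ = (1 / 4) * (⟪a + b, g⟫ ^ 2 - ⟪a - b, g⟫ ^ 2) := by
    intro g
    rw [inner_add_left, inner_sub_left]
    ring
  simp only [h1]
  rw [integral_const_mul, integral_sub (integrable_inner_pow _ _) (integrable_inner_pow _ _),
    sq_HiG1, sq_HiG1, norm_add_sq_real, norm_sub_sq_real]
  ring

theorem sqsq_HiG1 (a b g : V) : ⟪a, g⟫ ^ 2 * ⟪b, g⟫ ^ 2 = (1 / 12) *
    ((⟪a + b, g⟫ ^ 4 + ⟪a - b, g⟫ ^ 4) - (2 * ⟪a, g⟫ ^ 4 + 2 * ⟪b, g⟫ ^ 4)) := by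
  rw [inner_add_left, inner_sub_left]
  ring

theorem int_sqsq_HiG1 (a b : V) :
    Integrable (fun g => ⟪a, g⟫ ^ 2 * ⟪b, g⟫ ^ 2) (stdGaussian V) := by
  simp only [sqsq_HiG1]
  exact (((integrable_inner_pow _ 4).add (integrable_inner_pow _ 4)).sub
    (((integrable_inner_pow _ 4).const_mul 2).add
      ((integrable_inner_pow _ 4).const_mul 2))).const_mul _

theorem integral_inner_sq_mul (a b : V) :
    ∫ g, ⟪a, g⟫ ^ 2 * ⟪b, g⟫ ^ 2 ∂(stdGaussian V) = ‖a‖ ^ 2 * ‖b‖ ^ 2 + 2 * ⟪a, b⟫ ^ 2 := by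
  simp only [sqsq_HiG1]
  have i1 : Integrable (fun g => ⟪a + b, g⟫ ^ 4 + ⟪a - b, g⟫ ^ 4) (stdGaussian V) :=
    (integrable_inner_pow _ 4).add (integrable_inner_pow _ 4)
  have i2 : Integrable (fun g => 2 * ⟪a, g⟫ ^ 4 + 2 * ⟪b, g⟫ ^ 4) (stdGaussian V) :=
    ((integrable_inner_pow _ 4).const_mul 2).add ((integrable_inner_pow _ 4).const_mul 2)
  rw [integral_const_mul, integral_sub i1 i2,
    integral_add (integrable_inner_pow _ 4) (integrable_inner_pow _ 4),
    integral_add ((integrable_inner_pow _ 4).const_mul 2) ((integrable_inner_pow _ 4).const_mul 2),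
    integral_const_mul, integral_const_mul, four_HiG1, four_HiG1, four_HiG1, four_HiG1]
  have e1 : ‖a + b‖ ^ 4 = (‖a‖ ^ 2 + 2 * ⟪a, b⟫ + ‖b‖ ^ 2) ^ 2 := by
    rw [← norm_add_sq_real]; ring
  have e2 : ‖a - b‖ ^ 4 = (‖a‖ ^ 2 - 2 * ⟪a, b⟫ + ‖b‖ ^ 2) ^ 2 := by
    rw [← norm_sub_sq_real]; ring
  rw [e1, e2]
  ring

theorem normsq_HiG1 {n : ℕ} (b : OrthonormalBasis (Fin n) ℝ V) (T : V →L[ℝ] V) (g : V) :
    ‖T g‖ ^ 2 = ∑ l, ⟪ContinuousLinearMap.adjoint T (b l), g⟫ ^ 2 := by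
  simp only [ContinuousLinearMap.adjoint_inner_left]
  exact (b.sum_sq_inner_right _).symm

theorem mean_HiG1 {n : ℕ} (b : OrthonormalBasis (Fin n) ℝ V) (T : V →L[ℝ] V) :
    ∫ g, ‖T g‖ ^ 2 ∂(stdGaussian V) = ∑ l, ‖ContinuousLinearMap.adjoint T (b l)‖ ^ 2 := by
  simp only [normsq_HiG1 b T]
  rw [integral_finsetSum _ fun l _ => integrable_inner_pow _ _]
  simp only [sq_HiG1]

theorem integral_norm_sq_clm {n : ℕ} (b : OrthonormalBasis (Fin n) ℝ V) (T : V →L[ℝ] V) :
    ∫ g, ‖T g‖ ^ 2 ∂(stdGaussian V) = ∑ l, ‖T (b l)‖ ^ 2 := by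
  rw [mean_HiG1 b T]
  simp only [normsq_HiG1 b T]
  rw [Finset.sum_comm]
  refine Finset.sum_congr rfl fun l _ => ?_
  exact (b.sum_sq_inner_left _).symm

theorem quad_var (T : V →L[ℝ] V) (hT : ∀ x, ‖T x‖ ≤ ‖x‖) :
    ∫ g, (‖T g‖ ^ 2 - ∫ z, ‖T z‖ ^ 2 ∂(stdGaussian V)) ^ 2 ∂(stdGaussian V)
      ≤ 2 * (finrank ℝ V : ℝ) := by
  set b := stdOrthonormalBasis ℝ V
  obtain ⟨c, hc⟩ : ∃ c : Fin (finrank ℝ V) → V, ∀ l, c l = ContinuousLinearMap.adjoint T (b l) :=
    ⟨_, fun _ => rfl⟩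
  have h1 : ∀ g, ‖T g‖ ^ 2 = ∑ l, ⟪c l, g⟫ ^ 2 := fun g => by
    simp only [hc]; exact normsq_HiG1 b T g
  have h2 : ∫ z, ‖T z‖ ^ 2 ∂(stdGaussian V) = ∑ l, ‖c l‖ ^ 2 := by
    simp only [hc]; exact mean_HiG1 b T
  have h3 : ∀ l, ‖c l‖ ≤ 1 := by
    intro l
    have e1 : ‖c l‖ ^ 2 = ⟪b l, T (c l)⟫ := by
      rw [← real_inner_self_eq_norm_sq, ← ContinuousLinearMap.adjoint_inner_left, ← hc]
    have e2 : ⟪b l, T (c l)⟫ ≤ ‖c l‖ := by
      refine (real_inner_le_norm _ _).trans ?_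
      rw [b.orthonormal.1 l, one_mul]
      exact hT _
    nlinarith [norm_nonneg (c l)]
  have h4 : ∀ l, ∑ l', ⟪c l', c l⟫ ^ 2 ≤ 1 := by
    intro l
    rw [← h1]
    have := (hT (c l)).trans (h3 l)
    nlinarith [norm_nonneg (T (c l))]
  set m := ∑ l, ‖c l‖ ^ 2 with hm
  have i1 : Integrable (fun g => ∑ l, ⟪c l, g⟫ ^ 2) (stdGaussian V) :=
    integrable_finsetSum _ fun l _ => integrable_inner_pow _ _
  have i2 : Integrable (fun g => ∑ l, ∑ l', ⟪c l', g⟫ ^ 2 * ⟪c l, g⟫ ^ 2) (stdGaussian V) :=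
    integrable_finsetSum _ fun l _ => integrable_finsetSum _ fun l' _ => int_sqsq_HiG1 _ _
  have h5 : ∀ g, (‖T g‖ ^ 2 - m) ^ 2 =
      (∑ l, ∑ l', ⟪c l', g⟫ ^ 2 * ⟪c l, g⟫ ^ 2 - 2 * m * ∑ l, ⟪c l, g⟫ ^ 2) + m ^ 2 := by
    intro g
    simp only [← Finset.sum_mul, ← Finset.mul_sum]
    rw [h1]
    ring
  have h6 : ∫ g, ∑ l, ⟪c l, g⟫ ^ 2 ∂(stdGaussian V) = m := by
    rw [integral_finsetSum _ fun l _ => integrable_inner_pow _ _]
    simp only [sq_HiG1, hm]
  have h7 : ∫ g, ∑ l, ∑ l', ⟪c l', g⟫ ^ 2 * ⟪c l, g⟫ ^ 2 ∂(stdGaussian V) =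
      m ^ 2 + 2 * ∑ l, ∑ l', ⟪c l', c l⟫ ^ 2 := by
    rw [integral_finsetSum _ fun l _ => integrable_finsetSum _ fun l' _ => int_sqsq_HiG1 _ _]
    have : ∀ l, ∫ g, ∑ l', ⟪c l', g⟫ ^ 2 * ⟪c l, g⟫ ^ 2 ∂(stdGaussian V) =
        m * ‖c l‖ ^ 2 + 2 * ∑ l', ⟪c l', c l⟫ ^ 2 := by
      intro l
      rw [integral_finsetSum _ fun l' _ => int_sqsq_HiG1 _ _]
      simp only [integral_inner_sq_mul, Finset.sum_add_distrib, ← Finset.sum_mul,
        ← Finset.mul_sum, hm]
    simp only [this, Finset.sum_add_distrib, ← Finset.mul_sum, ← hm]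
    ring
  have h8 : ∑ l, ∑ l', ⟪c l', c l⟫ ^ 2 ≤ (finrank ℝ V : ℝ) := by
    refine (Finset.sum_le_sum fun l _ => h4 l).trans (le_of_eq ?_)
    simp
  rw [h2]
  simp only [h5]
  have i3 : Integrable (fun g => ∑ l, ∑ l', ⟪c l', g⟫ ^ 2 * ⟪c l, g⟫ ^ 2
      - 2 * m * ∑ l, ⟪c l, g⟫ ^ 2) (stdGaussian V) := i2.sub (i1.const_mul _)
  rw [integral_add i3 (integrable_const _), integral_sub i2 (i1.const_mul _), integral_const_mul,
    h6, h7]
  simp only [integral_const, probReal_univ, smul_eq_mul, one_mul]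
  linarith

theorem abs_sg_HiG1 (t : ℝ) : |sg t| ≤ 1 := by
  rw [sg, abs_div, abs_abs]
  exact div_self_le_one _

theorem int_sg_HiG1 (z b : V) : Integrable (fun g => sg ⟪z, g⟫ * ⟪b, g⟫) (stdGaussian V) := by
  refine (integrable_abs_inner b).mono' ?_ (ae_of_all _ fun x => ?_)
  · exact ((measurable_sg.comp (by fun_prop)).mul (by fun_prop)).aestronglyMeasurable
  · rw [Real.norm_eq_abs, abs_mul]
    exact mul_le_of_le_one_left (abs_nonneg _) (abs_sg_HiG1 _)

theorem orth_sg_HiG1 {z c : V} (h : ⟪c, z⟫ = 0) :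
    ∫ g, sg ⟪z, g⟫ * ⟪c, g⟫ ∂(stdGaussian V) = 0 := by
  have hm := mp_coiso (fun g : V => (2 : ℝ) • pr c g - g) (by fun_prop)
    (fun g : V => (2 : ℝ) • pr c g - g)
    (fun x t => by
      rw [inner_sub_left, inner_sub_right, real_inner_smul_left, real_inner_smul_right,
        inner_pr_comm])
    (fun t => by
      have e1 : ⟪pr c t, t⟫ = ‖pr c t‖ ^ 2 := by
        rw [← real_inner_self_eq_norm_sq, ← inner_pr_comm, pr_pr]
      have e2 : ‖(2 : ℝ) • pr c t - t‖ ^ 2 = ‖t‖ ^ 2 := by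
        rw [norm_sub_sq_real, real_inner_smul_left, e1, norm_smul]
        simp only [Real.norm_ofNat]
        ring
      exact (sq_eq_sq₀ (norm_nonneg _) (norm_nonneg _)).1 e2)
  have h1 := moment_integral_mp hm (F := fun g => sg ⟪z, g⟫ * ⟪c, g⟫)
    ((measurable_sg.comp (by fun_prop)).mul (by fun_prop))
  have h2 : ∀ g : V, sg ⟪z, (2 : ℝ) • pr c g - g⟫ * ⟪c, (2 : ℝ) • pr c g - g⟫ =
      -(sg ⟪z, g⟫ * ⟪c, g⟫) := by
    intro g
    have e1 : ⟪z, (2 : ℝ) • pr c g - g⟫ = ⟪z, g⟫ := by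
      rw [inner_sub_right, real_inner_smul_right, ← inner_pr_comm, pr_of_inner_eq_zero h]
      ring
    have e2 : ⟪c, (2 : ℝ) • pr c g - g⟫ = -⟪c, g⟫ := by
      rw [inner_sub_right, real_inner_smul_right, inner_pr_self]
      ring
    rw [e1, e2]
    ring
  simp only [h2, integral_neg] at h1
  linarith

theorem integral_sg (z b : V) :
    ∫ g, sg ⟪z, g⟫ * ⟪b, g⟫ ∂(stdGaussian V) = c0 * (⟪z, b⟫ / ‖z‖) := by
  have h1 : ∀ g : V, sg ⟪z, g⟫ * ⟪b, g⟫ =
      sg ⟪z, g⟫ * ⟪pr z b, g⟫ + (⟪z, b⟫ / ‖z‖ ^ 2) * |⟪z, g⟫| := by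
    intro g
    have e1 : sg ⟪z, g⟫ * ⟪z, g⟫ = |⟪z, g⟫| := by
      rw [sg]
      by_cases h : ⟪z, g⟫ = 0
      · simp [h]
      · have : |⟪z, g⟫| ≠ 0 := abs_ne_zero.2 h
        field_simp
        rw [sq_abs]
    rw [pr, inner_sub_left, real_inner_smul_left, ← e1]
    ring
  simp only [h1]
  rw [integral_add (int_sg_HiG1 _ _) ((integrable_abs_inner z).const_mul _), integral_const_mul,
    orth_sg_HiG1 (by rw [real_inner_comm]; exact inner_pr_self z b), integral_abs_inner]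
  by_cases hz : ‖z‖ = 0
  · simp [hz]
  · field_simp
    ring

theorem aN_HiG1 (d : ℕ) :
    ∫ x, ‖x‖ ∂(stdGaussian (EuclideanSpace ℝ (Fin d))) = (aN d).toReal := by
  rw [haar_aN_eq, integral_eq_lintegral_of_nonneg_ae (ae_of_all _ fun x => norm_nonneg x)
    (by fun_prop)]

theorem integral_norm_pU (U : Submodule ℝ V) :
    ∫ g, ‖pU U g‖ ∂(stdGaussian V) = (aN (finrank ℝ U)).toReal := by
  obtain ⟨e, he, -, hw⟩ := exists_onb U
  have hm := mp_coiso
    (fun g : V => (WithLp.toLp 2 fun l => ⟪e l, g⟫ : EuclideanSpace ℝ (Fin (finrank ℝ U))))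
    (by fun_prop) (fun t => ∑ l, t l • e l)
    (fun z t => by
      simp only [PiLp.inner_apply, inner_sum, real_inner_smul_right]
      refine Finset.sum_congr rfl fun l _ => ?_
      simp [real_inner_comm])
    (fun t => by
      have e1 : ‖∑ l, t l • e l‖ ^ 2 = ‖t‖ ^ 2 := by
        rw [← real_inner_self_eq_norm_sq, he.inner_sum, EuclideanSpace.real_norm_sq_eq]
        simp [sq]
      exact (sq_eq_sq₀ (norm_nonneg _) (norm_nonneg _)).1 e1)
  rw [← aN_HiG1, ← moment_integral_mp hm (F := fun x => ‖x‖) (by fun_prop)]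
  refine integral_congr_ae (ae_of_all _ fun g => ?_)
  refine (sq_eq_sq₀ (norm_nonneg _) (norm_nonneg _)).1 ?_
  rw [hw, EuclideanSpace.real_norm_sq_eq]

theorem aN_mono (d : ℕ) : (aN d).toReal ≤ (aN (d + 1)).toReal := by
  have ha : (EuclideanSpace.single 0 1 : EuclideanSpace ℝ (Fin (d + 1))) ≠ 0 := by
    rw [← norm_ne_zero_iff]
    simp
  have h1 := finrank_orth ha
  rw [finrank_euclideanSpace_fin] at h1
  have h2 := integral_norm_pU
    (ℝ ∙ (EuclideanSpace.single 0 1 : EuclideanSpace ℝ (Fin (d + 1))))ᗮ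
  rw [Nat.add_right_cancel h1] at h2
  rw [← h2, ← aN_HiG1]
  have i1 : Integrable (fun x : EuclideanSpace ℝ (Fin (d + 1)) => ‖x‖) (stdGaussian _) := by
    simpa using integrable_norm_pow (V := EuclideanSpace ℝ (Fin (d + 1))) 1
  exact integral_mono_of_nonneg (ae_of_all _ fun x => norm_nonneg _) i1
    (ae_of_all _ fun x => norm_pU_le _ x)

end Pool.Agent.P.MP_181257_gt
end
end

-- part Pool.Agent.P.MP_181257_gt.HiR1
section

/-! Injectivity of the cosine transform. -/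

set_option autoImplicit false
set_option linter.unusedSectionVars false
set_option linter.unusedVariables false

open MeasureTheory ProbabilityTheory Module Set Filter Topology
open scoped RealInnerProductSpace ENNReal Pointwise Matrix

noncomputable section

namespace Pool.Agent.P.MP_181257_gt

variable {V : Type} [NormedAddCommGroup V] [InnerProductSpace ℝ V] [FiniteDimensional ℝ V]
  [MeasurableSpace V] [BorelSpace V]

theorem int_pow_exp_HiR1 (n : ℕ) :
    Integrable (fun t : ℝ => t ^ n * Real.exp (-(t ^ 2 / 2))) := by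
  have h := integrable_rpow_mul_exp_neg_mul_sq (b := 1 / 2) (by norm_num) (s := (n : ℝ))
    (by have : (0 : ℝ) ≤ n := Nat.cast_nonneg n; linarith)
  refine h.congr (ae_of_all _ fun t => ?_)
  simp only [Real.rpow_natCast]
  congr 2
  ring

theorem deriv_exp_HiR1 (t : ℝ) :
    HasDerivAt (fun s : ℝ => Real.exp (-(s ^ 2 / 2))) (Real.exp (-(t ^ 2 / 2)) * (-t)) t := by
  have h : HasDerivAt (fun s : ℝ => -(s ^ 2 / 2)) (-t) t := by
    have := ((hasDerivAt_pow 2 t).div_const 2).neg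
    refine this.congr_deriv ?_
    simp
  exact h.exp

theorem pdf_eq_HiR1 (t : ℝ) :
    gaussianPDFReal 0 1 t = gaussianPDFReal 0 1 0 * Real.exp (-(t ^ 2 / 2)) := by
  simp only [gaussianPDFReal, NNReal.coe_one, mul_one, sub_zero]
  norm_num
  left
  ring

theorem stein_vol_HiR1 (a : ℝ) :
    ∫ t : ℝ, (t ^ 2 - 1) * |a + t| * Real.exp (-(t ^ 2 / 2)) = 2 * Real.exp (-(a ^ 2 / 2)) := by
  set F : ℝ → ℝ := fun t => -((a + t) * t * Real.exp (-(t ^ 2 / 2))) - Real.exp (-(t ^ 2 / 2))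
    with hF
  set f : ℝ → ℝ := fun t => (t ^ 2 - 1) * (a + t) * Real.exp (-(t ^ 2 / 2)) with hf
  have hd : ∀ t, HasDerivAt F (f t) t := by
    intro t
    have h1 : HasDerivAt (fun s : ℝ => (a + s) * s) (1 * t + (a + t) * 1) t :=
      ((hasDerivAt_id t).const_add a).mul (hasDerivAt_id t)
    have h2 := ((h1.mul (deriv_exp_HiR1 t)).neg).sub (deriv_exp_HiR1 t)
    refine h2.congr_deriv ?_
    simp only [hf]
    ring
  have h0 := int_pow_exp_HiR1 0
  have h1 := int_pow_exp_HiR1 1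
  have h2 := int_pow_exp_HiR1 2
  have h3 := int_pow_exp_HiR1 3
  have hFi : Integrable F := by
    refine (((h1.const_mul a).add h2).neg.sub h0).congr (ae_of_all _ fun t => ?_)
    simp only [hF, Pi.sub_apply, Pi.neg_apply, Pi.add_apply]
    ring
  have hfi : Integrable f := by
    refine ((((h2.const_mul a).add h3).sub (h0.const_mul a)).sub h1).congr
      (ae_of_all _ fun t => ?_)
    simp only [hf, Pi.sub_apply, Pi.add_apply]
    ring
  have htop : Tendsto F atTop (𝓝 0) :=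
    tendsto_zero_of_hasDerivAt_of_integrableOn_Ioi (a := -a) (fun t _ => hd t)
      hfi.integrableOn hFi.integrableOn
  have hbot : Tendsto F atBot (𝓝 0) :=
    tendsto_zero_of_hasDerivAt_of_integrableOn_Iic (a := -a) (fun t _ => hd t)
      hfi.integrableOn hFi.integrableOn
  have e1 : ∫ t in Ioi (-a), f t = 0 - F (-a) :=
    integral_Ioi_of_hasDerivAt_of_tendsto (hd (-a)).continuousAt.continuousWithinAt
      (fun t _ => hd t) hfi.integrableOn htop
  have e2 : ∫ t in Iic (-a), f t = F (-a) - 0 :=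
    integral_Iic_of_hasDerivAt_of_tendsto (hd (-a)).continuousAt.continuousWithinAt
      (fun t _ => hd t) hfi.integrableOn hbot
  have hFa : F (-a) = -Real.exp (-(a ^ 2 / 2)) := by
    simp [hF]
  set g : ℝ → ℝ := fun t => (t ^ 2 - 1) * |a + t| * Real.exp (-(t ^ 2 / 2)) with hg
  have g1 : EqOn g f (Ioi (-a)) := by
    intro t ht
    have : 0 ≤ a + t := by have := mem_Ioi.1 ht; linarith
    simp only [hg, hf, abs_of_nonneg this]
  have g2 : EqOn g (fun t => -f t) (Iic (-a)) := by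
    intro t ht
    have : a + t ≤ 0 := by have := mem_Iic.1 ht; linarith
    simp only [hg, hf, abs_of_nonpos this]
    ring
  have i1 : IntegrableOn g (Ioi (-a)) :=
    hfi.integrableOn.congr_fun g1.symm measurableSet_Ioi
  have i2 : IntegrableOn g (Iic (-a)) :=
    (hfi.neg.integrableOn (s := Iic (-a))).congr_fun g2.symm measurableSet_Iic
  rw [← intervalIntegral.integral_Iic_add_Ioi i2 i1, setIntegral_congr_fun measurableSet_Ioi g1,
    setIntegral_congr_fun measurableSet_Iic g2, integral_neg, e1, e2, hFa]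
  ring

theorem stein_abs (a : ℝ) :
    ∫ t, (t ^ 2 - 1) * |a + t| ∂(gaussianReal 0 1) = c2 * Real.exp (-(a ^ 2 / 2)) := by
  rw [integral_gaussianReal_eq_integral_smul (by norm_num)]
  have h : ∀ t : ℝ, gaussianPDFReal 0 1 t • ((t ^ 2 - 1) * |a + t|)
      = gaussianPDFReal 0 1 0 * ((t ^ 2 - 1) * |a + t| * Real.exp (-(t ^ 2 / 2))) := by
    intro t
    rw [pdf_eq_HiR1 t, smul_eq_mul]
    ring
  simp_rw [h]
  rw [integral_const_mul, stein_vol_HiR1, c2]
  ring

theorem int_real_pow_HiR1 (p : ℕ) : Integrable (fun t : ℝ => ‖t‖ ^ p) (gaussianReal 0 1) := by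
  have := integrable_norm_pow (V := ℝ) p
  rwa [stdGaussian_real] at this

theorem int_abs_HiR1 (a : ℝ) : Integrable (fun t : ℝ => |a + t|) (gaussianReal 0 1) := by
  refine ((integrable_const |a|).add (int_real_pow_HiR1 1)).mono' (by fun_prop)
    (ae_of_all _ fun t => ?_)
  simp only [Real.norm_eq_abs, abs_abs, Pi.add_apply, pow_one]
  exact abs_add_le a t

theorem int_stein_HiR1 (a : ℝ) :
    Integrable (fun t : ℝ => (t ^ 2 - 1) * |a + t|) (gaussianReal 0 1) := by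
  refine ((((int_real_pow_HiR1 2).const_mul |a|).add (int_real_pow_HiR1 3)).add
    ((integrable_const |a|).add (int_real_pow_HiR1 1))).mono' (by fun_prop)
    (ae_of_all _ fun t => ?_)
  simp only [Real.norm_eq_abs, abs_mul, abs_abs, Pi.add_apply, pow_one]
  have h1 : |t ^ 2 - 1| ≤ |t| ^ 2 + 1 := by
    rw [sq_abs]
    exact abs_le.2 ⟨by nlinarith [sq_nonneg t], by linarith⟩
  have h2 := abs_add_le a t
  calc |t ^ 2 - 1| * |a + t| ≤ (|t| ^ 2 + 1) * (|a| + |t|) :=
        mul_le_mul h1 h2 (abs_nonneg _) (by positivity)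
    _ = _ := by ring

theorem int_pr_HiR1 (e : V) : Integrable (fun g : V => ‖pr e g‖ ^ 2) (stdGaussian V) := by
  refine (integrable_norm_pow (V := V) 2).mono' (by fun_prop) (ae_of_all _ fun g => ?_)
  rw [Real.norm_eq_abs, abs_of_nonneg (by positivity)]
  exact pow_le_pow_left₀ (norm_nonneg _) (norm_pr_le e g) 2

theorem mean_pr_HiR1 {e : V} (he : ‖e‖ = 1) :
    ∫ g, ‖pr e g‖ ^ 2 ∂(stdGaussian V) = (finrank ℝ V : ℝ) - 1 := by
  have h : ∀ g : V, ‖pr e g‖ ^ 2 = ‖g‖ ^ 2 - ⟪e, g⟫ ^ 2 := by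
    intro g
    rw [norm_sq_pr, he]
    simp
  simp_rw [h]
  rw [integral_sub (integrable_norm_pow 2) (integrable_inner_pow e 2), integral_norm_sq]
  have h2 := integral_inner_pow e 1
  rw [Km_one, he] at h2
  simp only [mul_one, one_pow] at h2
  rw [h2]

theorem stein_inner (u x : V) :
    ∫ G, (‖G‖ ^ 2 - finrank ℝ V) * |⟪u + G, x⟫| ∂(stdGaussian V)
      = c2 * (‖x‖ * Real.exp (-(⟪u, ‖x‖⁻¹ • x⟫ ^ 2 / 2))) := by
  by_cases hx : x = 0
  · simp [hx]
  have hn : ‖x‖ ≠ 0 := norm_ne_zero_iff.2 hx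
  set e : V := ‖x‖⁻¹ • x with he
  have he1 : ‖e‖ = 1 := by simp [he, norm_smul, hn]
  have hxe : x = ‖x‖ • e := by rw [he, smul_smul, mul_inv_cancel₀ hn, one_smul]
  set a : ℝ := ⟪u, e⟫ with ha
  rw [← moment_integral_mp (mp_pr_split he1)
    (F := fun G : V => (‖G‖ ^ 2 - finrank ℝ V) * |⟪u + G, x⟫|) (by fun_prop)]
  have key : ∀ q : V × ℝ, (‖pr e q.1 + q.2 • e‖ ^ 2 - finrank ℝ V) * |⟪u + (pr e q.1 + q.2 • e), x⟫|
      = ‖x‖ * ((‖pr e q.1‖ ^ 2 - ((finrank ℝ V : ℝ) - 1)) * |a + q.2|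
        + (1 : ℝ) * ((q.2 ^ 2 - 1) * |a + q.2|)) := by
    intro q
    have h0 : ⟪pr e q.1, e⟫ = 0 := by rw [real_inner_comm]; exact inner_pr_self e q.1
    have hee : ⟪e, e⟫ = 1 := by rw [real_inner_self_eq_norm_sq, he1]; norm_num
    have h1 : ‖pr e q.1 + q.2 • e‖ ^ 2 = ‖pr e q.1‖ ^ 2 + q.2 ^ 2 := by
      rw [norm_add_sq_real, real_inner_smul_right, h0, norm_smul, he1]
      simp
    have h2 : ⟪u + (pr e q.1 + q.2 • e), x⟫ = ‖x‖ * (a + q.2) := by
      have : ⟪u + (pr e q.1 + q.2 • e), x⟫ = ⟪u + (pr e q.1 + q.2 • e), ‖x‖ • e⟫ := by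
        rw [← hxe]
      rw [this, real_inner_smul_right, inner_add_left, inner_add_left, h0, real_inner_smul_left,
        hee]
      simp [ha]
    rw [h1, h2, abs_mul, abs_norm]
    ring
  simp_rw [key]
  have i1 : Integrable (fun q : V × ℝ => (‖pr e q.1‖ ^ 2 - ((finrank ℝ V : ℝ) - 1)) * |a + q.2|)
      ((stdGaussian V).prod (gaussianReal 0 1)) :=
    ((int_pr_HiR1 e).sub (integrable_const _)).mul_prod (int_abs_HiR1 a)
  have i2 : Integrable (fun q : V × ℝ => (1 : ℝ) * ((q.2 ^ 2 - 1) * |a + q.2|))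
      ((stdGaussian V).prod (gaussianReal 0 1)) :=
    (integrable_const (1 : ℝ)).mul_prod (int_stein_HiR1 a)
  rw [integral_const_mul, integral_add i1 i2,
    integral_prod_mul (fun g : V => ‖pr e g‖ ^ 2 - ((finrank ℝ V : ℝ) - 1)) (fun t : ℝ => |a + t|),
    integral_prod_mul (fun g : V => (1 : ℝ)) (fun t : ℝ => (t ^ 2 - 1) * |a + t|),
    integral_sub (int_pr_HiR1 e) (integrable_const _), mean_pr_HiR1 he1, stein_abs]
  simp
  ring

theorem stein_meas_HiR1 {α : Measure V} (hα : Mom α) (u : V) :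
    ∫ G, (‖G‖ ^ 2 - finrank ℝ V) * (∫ x, |⟪u + G, x⟫| ∂α) ∂(stdGaussian V)
      = c2 * ∫ x, ‖x‖ * Real.exp (-(⟪u, ‖x‖⁻¹ • x⟫ ^ 2 / 2)) ∂α := by
  have := hα.prob
  have hb : Integrable (fun G : V => (‖G‖ ^ 2 + finrank ℝ V) * (‖u‖ + ‖G‖)) (stdGaussian V) := by
    refine (((((integrable_norm_pow (V := V) 2).const_mul ‖u‖).add (integrable_norm_pow 3)).add
      (integrable_const ((finrank ℝ V : ℝ) * ‖u‖))).add
      ((integrable_norm_pow 1).const_mul (finrank ℝ V : ℝ))).congr (ae_of_all _ fun G => ?_)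
    simp only [Pi.add_apply]
    ring
  have hi : Integrable (Function.uncurry fun (G : V) (x : V) =>
      (‖G‖ ^ 2 - finrank ℝ V) * |⟪u + G, x⟫|) ((stdGaussian V).prod α) := by
    refine (hb.mul_prod hα.int).mono' ?_ (ae_of_all _ fun p => ?_)
    · apply Measurable.aestronglyMeasurable
      unfold Function.uncurry
      fun_prop
    · simp only [Function.uncurry, Real.norm_eq_abs, abs_mul, abs_abs]
      have h1 : |‖p.1‖ ^ 2 - (finrank ℝ V : ℝ)| ≤ ‖p.1‖ ^ 2 + finrank ℝ V := by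
        have : (0 : ℝ) ≤ finrank ℝ V := Nat.cast_nonneg _
        exact abs_le.2 ⟨by nlinarith [sq_nonneg ‖p.1‖], by linarith⟩
      have h2 : |⟪u + p.1, p.2⟫| ≤ (‖u‖ + ‖p.1‖) * ‖p.2‖ :=
        (abs_real_inner_le_norm _ _).trans
          (mul_le_mul_of_nonneg_right (norm_add_le _ _) (norm_nonneg _))
      calc _ ≤ (‖p.1‖ ^ 2 + finrank ℝ V) * ((‖u‖ + ‖p.1‖) * ‖p.2‖) :=
            mul_le_mul h1 h2 (abs_nonneg _) (by positivity)
        _ = _ := by ring
  simp_rw [← integral_const_mul]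
  rw [integral_integral_swap hi]
  refine integral_congr_ae (ae_of_all _ fun x => ?_)
  exact stein_inner u x

/-- the auxiliary measure -/
def Am_HiR1 (α : Measure V) : Measure V :=
  ((α.withDensity fun x => ENNReal.ofReal ‖x‖).prod (gaussianReal 0 1)).map
    fun p : V × ℝ => p.2 • ‖p.1‖⁻¹ • p.1

theorem fin_wd_HiR1 {α : Measure V} (hα : Mom α) :
    IsFiniteMeasure (α.withDensity fun x => ENNReal.ofReal ‖x‖) :=
  isFiniteMeasure_withDensity_ofReal hα.int.hasFiniteIntegral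

theorem fin_Am_HiR1 {α : Measure V} (hα : Mom α) : IsFiniteMeasure (Am_HiR1 α) := by
  have := fin_wd_HiR1 hα
  unfold Am_HiR1
  infer_instance

theorem char_Am_HiR1 {α : Measure V} (hα : Mom α) (u : V) :
    charFun (Am_HiR1 α) u
      = ((∫ x, ‖x‖ * Real.exp (-(⟪u, ‖x‖⁻¹ • x⟫ ^ 2 / 2)) ∂α : ℝ) : ℂ) := by
  have := fin_wd_HiR1 hα
  have hm : Measurable fun p : V × ℝ => p.2 • ‖p.1‖⁻¹ • p.1 := by fun_prop
  rw [charFun_apply, Am_HiR1, integral_map hm.aemeasurable (by fun_prop), integral_prod]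
  · have h1 : ∀ x : V, ∫ t : ℝ, Complex.exp ((⟪t • ‖x‖⁻¹ • x, u⟫ : ℝ) * Complex.I)
        ∂(gaussianReal 0 1) = ((Real.exp (-(⟪u, ‖x‖⁻¹ • x⟫ ^ 2 / 2)) : ℝ) : ℂ) := by
      intro x
      have h2 := charFun_gaussianReal (μ := 0) (v := 1) ⟪u, ‖x‖⁻¹ • x⟫
      rw [charFun_apply_real] at h2
      have h3 : ∀ t : ℝ, Complex.exp ((⟪t • ‖x‖⁻¹ • x, u⟫ : ℝ) * Complex.I)
          = Complex.exp ((⟪u, ‖x‖⁻¹ • x⟫ : ℝ) * (t : ℂ) * Complex.I) := by
        intro t
        rw [real_inner_smul_left, real_inner_comm u]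
        push_cast
        ring_nf
      simp_rw [h3]
      rw [h2]
      push_cast
      congr 1
      simp
    simp_rw [h1]
    rw [integral_complex_ofReal, integral_withDensity_eq_integral_toReal_smul (by fun_prop)
      (ae_of_all _ fun x => ENNReal.ofReal_lt_top)]
    congr 1
    refine integral_congr_ae (ae_of_all _ fun x => ?_)
    simp
  · refine (integrable_const (1 : ℝ)).mono' (by fun_prop) (ae_of_all _ fun p => ?_)
    rw [Complex.norm_exp_ofReal_mul_I]

theorem lint_Am_HiR1 {α : Measure V} (hα : Mom α) {φ : V → ℝ≥0∞} (hφ : Measurable φ)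
    (hom : ∀ (t : ℝ) (x : V), φ (t • x) = ENNReal.ofReal |t| * φ x) :
    ∫⁻ x, φ x ∂(Am_HiR1 α) = ENNReal.ofReal c0 * ∫⁻ x, φ x ∂α := by
  have := fin_wd_HiR1 hα
  have hm : Measurable fun p : V × ℝ => p.2 • ‖p.1‖⁻¹ • p.1 := by fun_prop
  have hc : ∫⁻ t : ℝ, ENNReal.ofReal |t| ∂(gaussianReal 0 1) = ENNReal.ofReal c0 := by
    rw [c0, ofReal_integral_eq_lintegral_ofReal _ (ae_of_all _ fun t => abs_nonneg t)]
    simpa using int_abs_HiR1 0
  rw [Am_HiR1, lintegral_map hφ hm, lintegral_prod (fun p : V × ℝ => φ (p.2 • ‖p.1‖⁻¹ • p.1))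
    (hφ.comp hm).aemeasurable]
  have h1 : ∀ x : V, ∫⁻ t : ℝ, φ (t • ‖x‖⁻¹ • x) ∂(gaussianReal 0 1)
      = ENNReal.ofReal c0 * φ (‖x‖⁻¹ • x) := by
    intro x
    simp_rw [fun t => hom t (‖x‖⁻¹ • x)]
    rw [lintegral_mul_const _ (by fun_prop), hc]
  simp_rw [h1]
  rw [lintegral_withDensity_eq_lintegral_mul _ (by fun_prop) (by fun_prop),
    ← lintegral_const_mul _ hφ]
  refine lintegral_congr fun x => ?_
  have h2 : ‖x‖ • ‖x‖⁻¹ • x = x := by
    by_cases hx : x = 0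
    · simp [hx]
    · rw [smul_smul, mul_inv_cancel₀ (norm_ne_zero_iff.2 hx), one_smul]
  have h3 := hom ‖x‖ (‖x‖⁻¹ • x)
  rw [h2, abs_norm] at h3
  simp only [Pi.mul_apply]
  rw [mul_left_comm, ← h3]

theorem cos_inj {α β : Measure V} (hα : Mom α) (hβ : Mom β) {c : ℝ} (hc : 0 < c)
    (h : ∀ u : V, ∫ x, |⟪u, x⟫| ∂α = c * ∫ x, |⟪u, x⟫| ∂β) {φ : V → ℝ≥0∞} (hφ : Measurable φ)
    (hom : ∀ (t : ℝ) (x : V), φ (t • x) = ENNReal.ofReal |t| * φ x) :
    ∫⁻ x, φ x ∂α = ENNReal.ofReal c * ∫⁻ x, φ x ∂β := by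
  have h1 : ∀ u : V, ∫ x, ‖x‖ * Real.exp (-(⟪u, ‖x‖⁻¹ • x⟫ ^ 2 / 2)) ∂α
      = c * ∫ x, ‖x‖ * Real.exp (-(⟪u, ‖x‖⁻¹ • x⟫ ^ 2 / 2)) ∂β := by
    intro u
    have e1 := stein_meas_HiR1 hα u
    have e2 := stein_meas_HiR1 hβ u
    simp_rw [h, mul_left_comm _ c] at e1
    rw [integral_const_mul, e2] at e1
    apply mul_left_cancel₀ c2_pos.ne'
    rw [← e1]
    ring
  have := fin_Am_HiR1 hα
  have := fin_Am_HiR1 hβ
  have : IsFiniteMeasure (ENNReal.ofReal c • Am_HiR1 β) :=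
    ⟨by rw [Measure.smul_apply, smul_eq_mul]
        exact ENNReal.mul_lt_top ENNReal.ofReal_lt_top (measure_lt_top _ _)⟩
  have hAB : Am_HiR1 α = ENNReal.ofReal c • Am_HiR1 β := by
    apply Measure.ext_of_charFun
    funext u
    rw [char_Am_HiR1 hα, h1, charFun_apply, integral_smul_measure, ← charFun_apply,
      char_Am_HiR1 hβ, ENNReal.toReal_ofReal hc.le]
    simp
  have h2 := lint_Am_HiR1 hα hφ hom
  rw [hAB, lintegral_smul_measure, lint_Am_HiR1 hβ hφ hom, smul_eq_mul, mul_left_comm] at h2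
  exact ((ENNReal.mul_right_inj (by simpa using c0_pos) ENNReal.ofReal_ne_top).1 h2).symm

end Pool.Agent.P.MP_181257_gt
end
end

-- part Pool.Agent.P.MP_181257_gt.HiFr1
section

/-! The frame law. -/

set_option autoImplicit false
set_option linter.unusedSectionVars false
set_option linter.unusedVariables false

open MeasureTheory ProbabilityTheory Module Set Filter Topology
open scoped RealInnerProductSpace ENNReal Pointwise Matrix

noncomputable section

namespace Pool.Agent.P.MP_181257_gt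

variable {V : Type} [NormedAddCommGroup V] [InnerProductSpace ℝ V] [FiniteDimensional ℝ V]
  [MeasurableSpace V] [BorelSpace V]

theorem measurable_ofReal_D_HiFr1 {k : ℕ} :
    Measurable fun x : Fin k → V => ENNReal.ofReal (D x) :=
  (measurable_D measurable_id).ennreal_ofReal

theorem integrable_prod_norm_mk {μ : Measure V} (hμ : Mom μ) (k : ℕ) :
    Integrable (fun x : Fin k → V => ∏ j, ‖x j‖) (mk μ k) := by
  have := hμ.prob
  exact Integrable.fintype_prod (f := fun (_ : Fin k) (v : V) => ‖v‖) fun _ => hμ.int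

theorem integrable_D_mk {μ : Measure V} (hμ : Mom μ) (k : ℕ) (U : Submodule ℝ V) :
    Integrable (fun x : Fin k → V => D fun j => pU U (x j)) (mk μ k) := by
  refine (integrable_prod_norm_mk hμ k).mono' ?_ (Eventually.of_forall fun x => ?_)
  · exact (measurable_D (by fun_prop)).aestronglyMeasurable
  · rw [Real.norm_of_nonneg (D_nonneg _)]
    exact (D_le_prod _).trans
      (Finset.prod_le_prod (fun j _ => norm_nonneg _) fun j _ => norm_pU_le U (x j))

theorem integrable_D_mk' {μ : Measure V} (hμ : Mom μ) (k : ℕ) :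
    Integrable (fun x : Fin k → V => D x) (mk μ k) := by
  refine (integrable_prod_norm_mk hμ k).mono' ?_ (Eventually.of_forall fun x => ?_)
  · exact (measurable_D measurable_id).aestronglyMeasurable
  · rw [Real.norm_of_nonneg (D_nonneg _)]
    exact D_le_prod _

theorem Wr_nonneg (k : ℕ) (μ : Measure V) : 0 ≤ Wr k μ := by
  exact integral_nonneg fun x => D_nonneg x

theorem ofReal_Wr {μ : Measure V} (hμ : Mom μ) (k : ℕ) :
    ENNReal.ofReal (Wr k μ) = ∫⁻ x, ENNReal.ofReal (D x) ∂(mk μ k) := by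
  exact ofReal_integral_eq_lintegral_ofReal (integrable_D_mk' hμ k)
    (Eventually.of_forall fun x => D_nonneg x)

theorem Fr_prob {μ : Measure V} (hμ : Mom μ) {k : ℕ} (h : 0 < Wr k μ) :
    IsProbabilityMeasure (Fr k μ) := by
  constructor
  rw [Fr, Measure.smul_apply, withDensity_apply _ MeasurableSet.univ, Measure.restrict_univ,
    ← ofReal_Wr hμ k, smul_eq_mul]
  exact ENNReal.inv_mul_cancel (by simpa using h) ENNReal.ofReal_ne_top

theorem lintegral_Fr (μ : Measure V) (k : ℕ) {F : (Fin k → V) → ℝ≥0∞} (hF : Measurable F) :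
    ∫⁻ x, F x ∂(Fr k μ)
      = (ENNReal.ofReal (Wr k μ))⁻¹ * ∫⁻ x, ENNReal.ofReal (D x) * F x ∂(mk μ k) := by
  rw [Fr, lintegral_smul_measure,
    lintegral_withDensity_eq_lintegral_mul _ measurable_ofReal_D_HiFr1 hF, smul_eq_mul]
  rfl

theorem integral_Fr {μ : Measure V} {k : ℕ} (h : 0 < Wr k μ) (F : (Fin k → V) → ℝ) :
    ∫ x, F x ∂(Fr k μ) = (Wr k μ)⁻¹ * ∫ x, D x * F x ∂(mk μ k) := by
  rw [Fr, integral_smul_measure,
    integral_withDensity_eq_integral_toReal_smul measurable_ofReal_D_HiFr1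
      (Eventually.of_forall fun x => ENNReal.ofReal_lt_top),
    ENNReal.toReal_inv, ENNReal.toReal_ofReal h.le, smul_eq_mul]
  congr 1
  refine integral_congr_ae (Eventually.of_forall fun x => ?_)
  simp only [ENNReal.toReal_ofReal (D_nonneg x), smul_eq_mul]

theorem ae_D_Fr (μ : Measure V) (k : ℕ) : ∀ᵐ x ∂(Fr k μ), D x ≠ 0 := by
  refine Measure.ae_smul_measure ?_ _
  rw [ae_withDensity_iff measurable_ofReal_D_HiFr1]
  refine Eventually.of_forall fun x hx h0 => hx ?_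
  simp [h0]

theorem mp_perm_Fr {μ : Measure V} (hμ : Mom μ) {k : ℕ} (σ : Equiv.Perm (Fin k)) :
    MeasurePreserving (fun x : Fin k → V => fun j => x (σ j)) (Fr k μ) (Fr k μ) := by
  have := hμ.prob
  have hm : Measurable (fun x : Fin k → V => fun j => x (σ j)) := (mp_perm μ σ).measurable
  refine ⟨hm, Measure.ext_of_lintegral _ fun f hf => ?_⟩
  rw [lintegral_map hf hm, lintegral_Fr μ k hf,
    lintegral_Fr μ k (F := fun x => f fun j => x (σ j)) (hf.comp hm)]
  congr 1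
  rw [← (mp_perm μ σ).lintegral_comp (measurable_ofReal_D_HiFr1.fun_mul hf)]
  simp only [D_perm]

theorem lintegral_mk_cons {μ : Measure V} (hμ : Mom μ) {k : ℕ} {F : (Fin (k + 1) → V) → ℝ≥0∞}
    (hF : Measurable F) :
    ∫⁻ x, F x ∂(mk μ (k + 1)) = ∫⁻ x, ∫⁻ a, F (Fin.cons a x) ∂μ ∂(mk μ k) := by
  have := hμ.prob
  rw [← (mp_cons μ).lintegral_comp hF]
  exact lintegral_prod_symm _ (hF.comp brs_measurable_cons).aemeasurable

theorem lintegral_D_cons_HiFr1 {μ : Measure V} (hμ : Mom μ) {k : ℕ}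
    {F : (Fin (k + 1) → V) → ℝ≥0∞} (hF : Measurable F) :
    ∫⁻ x, ENNReal.ofReal (D x) * F x ∂(mk μ (k + 1)) = ∫⁻ x, ENNReal.ofReal (D x) *
      ∫⁻ a, ENNReal.ofReal ‖Pj k x a‖ * F (Fin.cons a x) ∂μ ∂(mk μ k) := by
  rw [lintegral_mk_cons hμ (measurable_ofReal_D_HiFr1.fun_mul hF)]
  refine lintegral_congr fun x => ?_
  rw [← lintegral_const_mul' _ _ ENNReal.ofReal_ne_top]
  refine lintegral_congr fun a => ?_
  rw [D_cons_eq, ENNReal.ofReal_mul (D_nonneg x), mul_assoc]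

theorem Wr_pos_of_succ {μ : Measure V} (hμ : Mom μ) {k : ℕ} (h : 0 < Wr (k + 1) μ) :
    0 < Wr k μ := by
  by_contra h0
  have h1 : Wr k μ = 0 := le_antisymm (not_lt.1 h0) (Wr_nonneg k μ)
  have h2 := ofReal_Wr hμ k
  rw [h1, ENNReal.ofReal_zero, eq_comm, lintegral_eq_zero_iff measurable_ofReal_D_HiFr1] at h2
  have h3 := lintegral_D_cons_HiFr1 hμ (k := k) (F := fun _ => 1) measurable_const
  simp only [mul_one] at h3
  rw [← ofReal_Wr hμ, lintegral_congr_ae (g := fun _ => 0), lintegral_zero] at h3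
  · simp only [ENNReal.ofReal_eq_zero] at h3
    linarith
  · filter_upwards [h2] with x hx
    simp only [Pi.zero_apply] at hx
    simp [hx]

theorem Zq_pos {μ : Measure V} (hμ : Mom μ) {k : ℕ} (h : 0 < Wr (k + 1) μ) : 0 < Zq k μ := by
  exact div_pos h (Wr_pos_of_succ hμ h)

theorem integrable_norm_Pj_prod {μ : Measure V} (hμ : Mom μ) {k : ℕ} (h : 0 < Wr k μ) :
    Integrable (fun p : (Fin k → V) × V => ‖Pj k p.1 p.2‖) ((Fr k μ).prod μ) := by
  have := hμ.prob
  have := Fr_prob hμ h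
  refine (hμ.int.comp_snd (Fr k μ)).mono' ?_ (Eventually.of_forall fun p => ?_)
  · exact (measurable_Pj k measurable_fst measurable_snd).norm.aestronglyMeasurable
  · rw [norm_norm]
    exact norm_Pj_le _ _

theorem integral_D_cons_HiFr1 {μ : Measure V} (hμ : Mom μ) {k : ℕ} (h : 0 < Wr k μ)
    {F : (Fin (k + 1) → V) → ℝ} (hF : Bd F) :
    ∫ x, D x * F x ∂(mk μ (k + 1)) = Wr k μ *
      ∫ p : (Fin k → V) × V, ‖Pj k p.1 p.2‖ * F (Fin.cons p.2 p.1) ∂((Fr k μ).prod μ) := by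
  have := hμ.prob
  have := Fr_prob hμ h
  have hi : Integrable (fun x => D x * F x) (mk μ (k + 1)) := AFK.int_mul (integrable_D_mk' hμ _) hF
  have hF' : Bd fun p : (Fin k → V) × V => F (Fin.cons p.2 p.1) :=
    ⟨hF.meas.comp (bp_measurable_cons measurable_snd measurable_fst),
      hF.bdd.imp fun C hC p => hC _⟩
  have hi2 := AFK.int_mul (integrable_norm_Pj_prod hμ h) hF'
  have hi3 := (mp_cons (k := k) μ).integrable_comp_of_integrable hi
  rw [integral_prod _ hi2, integral_Fr h, ← mul_assoc, mul_inv_cancel₀ h.ne', one_mul,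
    ← af_mp_integral (mp_cons μ) hi.aestronglyMeasurable]
  refine (integral_prod_symm _ hi3).trans ?_
  refine integral_congr_ae (Eventually.of_forall fun x => ?_)
  simp only [Function.comp_apply]
  rw [← integral_const_mul]
  refine integral_congr_ae (Eventually.of_forall fun a => ?_)
  simp only [D_cons_eq, mul_assoc]

theorem Zq_eq {μ : Measure V} (hμ : Mom μ) {k : ℕ} (h : 0 < Wr k μ) :
    Zq k μ = ∫ p : (Fin k → V) × V, ‖Pj k p.1 p.2‖ ∂((Fr k μ).prod μ) := by
  have h1 := integral_D_cons_HiFr1 hμ h (F := fun _ => 1) (AFK.bd_const 1)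
  simp only [mul_one] at h1
  rw [Zq, div_eq_iff h.ne', mul_comm]
  exact h1

theorem lintegral_Fr_succ {μ : Measure V} (hμ : Mom μ) {k : ℕ} (h : 0 < Wr (k + 1) μ)
    {F : (Fin (k + 1) → V) → ℝ≥0∞} (hF : Measurable F) :
    ∫⁻ x, F x ∂(Fr (k + 1) μ) = (ENNReal.ofReal (Zq k μ))⁻¹ *
      ∫⁻ x, ∫⁻ a, ENNReal.ofReal ‖Pj k x a‖ * F (Fin.cons a x) ∂μ ∂(Fr k μ) := by
  have := hμ.prob
  have hk := Wr_pos_of_succ hμ h
  have hm : Measurable fun x : Fin k → V =>
      ∫⁻ a, ENNReal.ofReal ‖Pj k x a‖ * F (Fin.cons a x) ∂μ :=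
    Measurable.lintegral_prod_right' (f := fun p : (Fin k → V) × V =>
      ENNReal.ofReal ‖Pj k p.1 p.2‖ * F (Fin.cons p.2 p.1))
      ((measurable_Pj k measurable_fst measurable_snd).norm.ennreal_ofReal.mul
        (hF.comp (bp_measurable_cons measurable_snd measurable_fst)))
  rw [lintegral_Fr μ _ hF, lintegral_Fr μ _ hm, lintegral_D_cons_HiFr1 hμ hF, ← mul_assoc]
  congr 1
  have e : Wr (k + 1) μ = Zq k μ * Wr k μ := by rw [Zq, div_mul_cancel₀ _ hk.ne']
  rw [e, ENNReal.ofReal_mul (Zq_pos hμ h).le,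
    ENNReal.mul_inv (Or.inr ENNReal.ofReal_ne_top) (Or.inl ENNReal.ofReal_ne_top)]

theorem integral_Fr_succ {μ : Measure V} (hμ : Mom μ) {k : ℕ} (h : 0 < Wr (k + 1) μ)
    {F : (Fin (k + 1) → V) → ℝ} (hF : Bd F) :
    ∫ x, F x ∂(Fr (k + 1) μ) = (Zq k μ)⁻¹ *
      ∫ p : (Fin k → V) × V, ‖Pj k p.1 p.2‖ * F (Fin.cons p.2 p.1) ∂((Fr k μ).prod μ) := by
  have hk := Wr_pos_of_succ hμ h
  rw [integral_Fr h, integral_D_cons_HiFr1 hμ hk hF, Zq, inv_div, ← mul_assoc]
  congr 1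
  rw [div_eq_mul_inv, mul_comm]

theorem Wr_pos {μ : Measure V} (hμ : Mom μ)
    (hpos : ∀ u : V, ‖u‖ = 1 → 0 < ∫ x, |⟪u, x⟫| ∂μ) : ∀ k : ℕ, k ≤ finrank ℝ V → 0 < Wr k μ := by
  have := hμ.prob
  intro k
  induction k with
  | zero => intro _; simp [Wr]
  | succ k ih =>
    intro hk
    have h := ih (by omega)
    have := Fr_prob hμ h
    have h1 := Zq_eq hμ h
    have hi := integrable_norm_Pj_prod hμ h
    rw [integral_prod _ hi] at h1
    have h2 : ∀ x : Fin k → V, 0 < ∫ a, ‖Pj k x a‖ ∂μ := by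
      intro x
      have h3 := finrank_nrm_ge x
      obtain ⟨v, hv0⟩ := (Module.finrank_pos_iff_exists_ne_zero (R := ℝ) (M := nrm x)).1 (by omega)
      have hv1 : (v : V) ≠ 0 := fun e => hv0 (Subtype.ext e)
      have hn : ‖(v : V)‖ ≠ 0 := norm_ne_zero_iff.2 hv1
      have hu : ‖(‖(v : V)‖⁻¹ • (v : V))‖ = 1 := by
        rw [norm_smul, norm_inv, norm_norm, inv_mul_cancel₀ hn]
      have hP : Pj k x (‖(v : V)‖⁻¹ • (v : V)) = ‖(v : V)‖⁻¹ • (v : V) := by
        refine Pj_of_inner x _ fun j => ?_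
        have h4 : ⟪x j, (v : V)⟫ = 0 :=
          (Submodule.mem_orthogonal _ _).1 v.2 (x j) (Submodule.subset_span ⟨j, rfl⟩)
        rw [inner_smul_right, h4, mul_zero]
      refine (hpos _ hu).trans_le (integral_mono_of_nonneg
        (Eventually.of_forall fun a => abs_nonneg _) ?_ (Eventually.of_forall fun a => ?_))
      · exact hμ.int.mono' (Pj k x).continuous.norm.aestronglyMeasurable
          (Eventually.of_forall fun a => by rw [norm_norm]; exact norm_Pj_le _ _)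
      · have h5 := abs_real_inner_le_norm (‖(v : V)‖⁻¹ • (v : V)) (Pj k x a)
        rw [hu, one_mul, ← inner_Pj_comm, hP] at h5
        exact h5
    have h6 : 0 < Zq k μ := by
      rw [h1, integral_pos_iff_support_of_nonneg (fun x => (h2 x).le) hi.integral_prod_left]
      have : Function.support (fun x : Fin k → V => ∫ a, ‖Pj k x a‖ ∂μ) = univ :=
        eq_univ_of_forall fun x => (h2 x).ne'
      rw [this]
      simp
    exact (div_pos_iff_of_pos_right h).1 h6

end Pool.Agent.P.MP_181257_gt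
end
end

-- part Pool.Agent.P.MP_181257_gt.HiFr2
section

/-! The law of the Gaussian normal vector. -/

set_option autoImplicit false
set_option linter.unusedSectionVars false
set_option linter.unusedVariables false

open MeasureTheory ProbabilityTheory Module Set Filter Topology
open scoped RealInnerProductSpace ENNReal Pointwise Matrix

noncomputable section

namespace Pool.Agent.P.MP_181257_gt

variable {V : Type} [NormedAddCommGroup V] [InnerProductSpace ℝ V] [FiniteDimensional ℝ V]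
  [MeasurableSpace V] [BorelSpace V]

theorem mp_Tn {μ : Measure V} {k : ℕ} :
    MeasurePreserving (fun p : (Fin k → V) × V => Pj k p.1 p.2)
      ((Fr k μ).prod (stdGaussian V)) (Tn k μ) := by
  exact ⟨measurable_Pj k measurable_fst measurable_snd, rfl⟩

theorem lintegral_Tn {μ : Measure V} (hμ : Mom μ) {k : ℕ} (h : 0 < Wr k μ) {φ : V → ℝ≥0∞}
    (hφ : Measurable φ) :
    ∫⁻ w, φ w ∂(Tn k μ) = ∫⁻ x, ∫⁻ g, φ (Pj k x g) ∂(stdGaussian V) ∂(Fr k μ) := by
  have := Fr_prob hμ h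
  rw [← (mp_Tn (μ := μ) (k := k)).lintegral_comp hφ]
  exact lintegral_prod _ (hφ.comp (mp_Tn (μ := μ) (k := k)).measurable).aemeasurable

theorem Tn_prob_HiFr2 {μ : Measure V} (hμ : Mom μ) {k : ℕ} (h : 0 < Wr k μ) :
    IsProbabilityMeasure (Tn k μ) := by
  have := Fr_prob hμ h
  exact Measure.isProbabilityMeasure_map (mp_Tn (μ := μ) (k := k)).measurable.aemeasurable

theorem integral_le_const_HiFr2 {X : Type} [MeasurableSpace X] {ρ : Measure X}
    [IsProbabilityMeasure ρ] {F : X → ℝ} {C : ℝ} (h0 : ∀ x, 0 ≤ F x) (hC : ∀ x, F x ≤ C) :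
    ∫ x, F x ∂ρ ≤ C := by
  have := integral_mono_of_nonneg (μ := ρ) (Eventually.of_forall h0) (integrable_const C)
    (Eventually.of_forall hC)
  simpa using this

theorem inner_pow_bound_HiFr2 (a : V) (p : ℕ) (w : V) :
    |⟪a, w⟫ ^ p| ≤ ‖a‖ ^ p * (1 + ‖w‖ ^ p) := by
  rw [abs_pow]
  have h1 := pow_le_pow_left₀ (abs_nonneg _) (abs_real_inner_le_norm a w) p
  rw [mul_pow] at h1
  have h2 : 0 ≤ ‖a‖ ^ p := by positivity
  nlinarith

theorem abs_sg_le_HiFr2 (t : ℝ) : |sg t| ≤ 1 := by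
  unfold sg
  rw [abs_div, abs_abs]
  exact div_self_le_one _

theorem abs_inner_Pj_le_HiFr2 {k : ℕ} (x : Fin k → V) (a b : V) :
    ‖⟪Pj k x a, b⟫‖ ≤ ‖a‖ * ‖b‖ :=
  (abs_real_inner_le_norm _ _).trans
    (mul_le_mul_of_nonneg_right (norm_Pj_le x a) (norm_nonneg _))

theorem integrable_SS_HiFr2 {μ : Measure V} (hμ : Mom μ) {k : ℕ} (h : 0 < Wr k μ) (a b : V) :
    Integrable (fun x => ⟪Pj k x a, b⟫) (Fr k μ) := by
  have := Fr_prob hμ h
  have hm : Measurable fun x : Fin k → V => ⟪Pj k x a, b⟫ :=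
    (measurable_Pj k measurable_id measurable_const).inner measurable_const
  exact (integrable_const (‖a‖ * ‖b‖)).mono' hm.aestronglyMeasurable
    (Eventually.of_forall fun x => abs_inner_Pj_le_HiFr2 x a b)

theorem integrable_norm_pow_Tn {μ : Measure V} (hμ : Mom μ) {k : ℕ} (h : 0 < Wr k μ) (p : ℕ) :
    Integrable (fun w => ‖w‖ ^ p) (Tn k μ) := by
  have := Fr_prob hμ h
  have hm : Measurable fun w : V => ‖w‖ ^ p := by fun_prop
  refine ((mp_Tn (μ := μ) (k := k)).integrable_comp hm.aestronglyMeasurable).1 ?_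
  refine ((integrable_norm_pow (V := V) p).comp_snd (Fr k μ)).mono'
    (hm.comp (mp_Tn (μ := μ) (k := k)).measurable).aestronglyMeasurable
    (Eventually.of_forall fun q => ?_)
  simp only [Function.comp, Real.norm_eq_abs, abs_pow, abs_norm]
  exact pow_le_pow_left₀ (norm_nonneg _) (norm_Pj_le _ _) p

/-- functions of polynomial growth -/
theorem integrable_Tn {μ : Measure V} (hμ : Mom μ) {k : ℕ} (h : 0 < Wr k μ) {φ : V → ℝ}
    (hφ : Measurable φ) {C : ℝ} {p : ℕ} (hb : ∀ w, |φ w| ≤ C * (1 + ‖w‖ ^ p)) :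
    Integrable φ (Tn k μ) ∧
      ∫ w, φ w ∂(Tn k μ) = ∫ x, ∫ g, φ (Pj k x g) ∂(stdGaussian V) ∂(Fr k μ) := by
  have := Fr_prob hμ h
  have := Tn_prob_HiFr2 hμ h
  have hi : Integrable φ (Tn k μ) := by
    refine (((integrable_const (1 : ℝ)).add (integrable_norm_pow_Tn hμ h p)).const_mul C).mono'
      hφ.aestronglyMeasurable (Eventually.of_forall fun w => ?_)
    simpa only [Real.norm_eq_abs, Pi.add_apply] using hb w
  refine ⟨hi, ?_⟩
  rw [← af_mp_integral (mp_Tn (μ := μ) (k := k)) hφ.aestronglyMeasurable]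
  exact integral_prod _ (((mp_Tn (μ := μ) (k := k)).integrable_comp hφ.aestronglyMeasurable).2 hi)

theorem Tn_mom {μ : Measure V} (hμ : Mom μ) {k : ℕ} (h : 0 < Wr k μ) : Mom (Tn k μ) := by
  exact ⟨Tn_prob_HiFr2 hμ h, by simpa only [pow_one] using integrable_norm_pow_Tn hμ h 1⟩

theorem integral_norm_pow_Tn {μ : Measure V} (hμ : Mom μ) {k : ℕ} (h : 0 < Wr k μ) {j : ℕ}
    (hj : 1 ≤ j) : ∫ w, ‖w‖ ^ (2 * j) ∂(Tn k μ) ≤ (finrank ℝ V : ℝ) ^ j * Km j := by
  have := Fr_prob hμ h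
  have hm : Measurable fun w : V => ‖w‖ ^ (2 * j) := by fun_prop
  have hb : ∀ w : V, |‖w‖ ^ (2 * j)| ≤ 1 * (1 + ‖w‖ ^ (2 * j)) := fun w => by
    rw [abs_of_nonneg (by positivity)]; linarith
  rw [(integrable_Tn hμ h hm hb).2]
  refine integral_le_const_HiFr2 (fun x => integral_nonneg fun g => by positivity) fun x => ?_
  refine le_trans ?_ (integral_norm_pow_le (V := V) hj)
  refine integral_mono_of_nonneg (Eventually.of_forall fun g => by positivity)
    (integrable_norm_pow _) (Eventually.of_forall fun g => ?_)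
  exact pow_le_pow_left₀ (norm_nonneg _) (norm_Pj_le _ _) _

theorem integrable_inner_pow_Tn {μ : Measure V} (hμ : Mom μ) {k : ℕ} (h : 0 < Wr k μ) (a : V)
    (p : ℕ) : Integrable (fun w => ⟪a, w⟫ ^ p) (Tn k μ) := by
  have hm : Measurable fun w : V => ⟪a, w⟫ ^ p := by fun_prop
  exact (integrable_Tn hμ h hm (inner_pow_bound_HiFr2 a p)).1

theorem integral_inner_pow_Tn {μ : Measure V} (hμ : Mom μ) {k : ℕ} (h : 0 < Wr k μ) (a : V)
    (j : ℕ) : ∫ w, ⟪a, w⟫ ^ (2 * j) ∂(Tn k μ) ≤ Km j * ‖a‖ ^ (2 * j) := by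
  have := Fr_prob hμ h
  have hm : Measurable fun w : V => ⟪a, w⟫ ^ (2 * j) := by fun_prop
  rw [(integrable_Tn hμ h hm (inner_pow_bound_HiFr2 a (2 * j))).2]
  refine integral_le_const_HiFr2
    (fun x => integral_nonneg fun g => by rw [pow_mul]; positivity) fun x => ?_
  simp only [← inner_Pj_comm x a]
  rw [integral_inner_pow]
  exact mul_le_mul_of_nonneg_left (pow_le_pow_left₀ (norm_nonneg _) (norm_Pj_le _ _) _)
    (Km_nonneg j)

theorem Sg_Tn {μ : Measure V} (hμ : Mom μ) {k : ℕ} (h : 0 < Wr k μ) (a b : V) :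
    Sg (Tn k μ) a b = SS k μ a b := by
  have hm : Measurable fun w : V => ⟪a, w⟫ * ⟪b, w⟫ := by fun_prop
  have hb : ∀ w : V, |⟪a, w⟫ * ⟪b, w⟫| ≤ (‖a‖ * ‖b‖) * (1 + ‖w‖ ^ 2) := fun w => by
    rw [abs_mul]
    have h1 := abs_real_inner_le_norm a w
    have h2 := abs_real_inner_le_norm b w
    have h3 := mul_le_mul h1 h2 (abs_nonneg _) (by positivity)
    have h4 : 0 ≤ ‖a‖ * ‖b‖ := by positivity
    nlinarith
  unfold Sg SS
  rw [(integrable_Tn hμ h hm hb).2]
  refine integral_congr_ae (Eventually.of_forall fun x => ?_)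
  simp only [← inner_Pj_comm x a, ← inner_Pj_comm x b]
  rw [integral_inner_mul, ← inner_Pj_comm, Pj_Pj]

theorem abs_inner_Tn {μ : Measure V} (hμ : Mom μ) {k : ℕ} (h : 0 < Wr k μ) (u : V) :
    ∫ w, |⟪u, w⟫| ∂(Tn k μ) = c0 * th k μ u := by
  have hm : Measurable fun w : V => |⟪u, w⟫| := by fun_prop
  have hb : ∀ w : V, |(|⟪u, w⟫|)| ≤ ‖u‖ * (1 + ‖w‖ ^ 1) := fun w => by
    rw [abs_abs, pow_one]
    have h1 := abs_real_inner_le_norm u w
    have h2 := norm_nonneg u
    nlinarith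
  unfold th
  rw [(integrable_Tn hμ h hm hb).2, ← integral_const_mul]
  refine integral_congr_ae (Eventually.of_forall fun x => ?_)
  simp only [← inner_Pj_comm x u]
  rw [integral_abs_inner]

theorem sg_Tn {μ : Measure V} (hμ : Mom μ) {k : ℕ} (h : 0 < Wr k μ) (w b : V) :
    ∫ y, sg ⟪w, y⟫ * ⟪b, y⟫ ∂(Tn k μ)
      = c0 * ∫ x, ⟪Pj k x w, b⟫ / ‖Pj k x w‖ ∂(Fr k μ) := by
  have hm : Measurable fun y : V => sg ⟪w, y⟫ * ⟪b, y⟫ :=
    (measurable_sg.comp (by fun_prop : Measurable fun y : V => ⟪w, y⟫)).mul (by fun_prop)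
  have hb : ∀ y : V, |sg ⟪w, y⟫ * ⟪b, y⟫| ≤ ‖b‖ * (1 + ‖y‖ ^ 1) := fun y => by
    rw [abs_mul, pow_one]
    have h1 := abs_real_inner_le_norm b y
    have h2 := norm_nonneg b
    have h3 := abs_sg_le_HiFr2 ⟪w, y⟫
    have h4 := mul_le_mul h3 h1 (abs_nonneg _) zero_le_one
    nlinarith
  rw [(integrable_Tn hμ h hm hb).2, ← integral_const_mul]
  refine integral_congr_ae (Eventually.of_forall fun x => ?_)
  simp only [← inner_Pj_comm x w, ← inner_Pj_comm x b]
  rw [integral_sg, ← inner_Pj_comm x (Pj k x w) b, Pj_Pj]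

theorem FP.wl {i : ℕ} {μ ν : Measure V} (h : FP i μ ν) : 0 < Wr i μ :=
  Wr_pos_of_succ h.ml h.posl

theorem FP.wr {i : ℕ} {μ ν : Measure V} (h : FP i μ ν) : 0 < Wr i ν :=
  Wr_pos_of_succ h.mr h.posr

theorem Zq_eq_th {μ : Measure V} (hμ : Mom μ) {k : ℕ} (h : 0 < Wr k μ) :
    Zq k μ = ∫ w, th k μ w ∂μ := by
  have := Fr_prob hμ h
  have := hμ.prob
  rw [Zq_eq hμ h, integral_prod_symm _ (integrable_norm_Pj_prod hμ h)]
  rfl

theorem Zq_symm {i : ℕ} {μ ν : Measure V} (hμ : Mom μ) (hν : Mom ν) (h1 : 0 < Wr i μ)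
    (h2 : 0 < Wr i ν) (el : μ = Tn i ν) (er : ν = Tn i μ) : Zq i μ = Zq i ν := by
  have := hμ.prob
  have := hν.prob
  have e1 : c0 * Zq i μ = ∫ w, ∫ y, |⟪w, y⟫| ∂ν ∂μ := by
    rw [Zq_eq_th hμ h1, ← integral_const_mul]
    refine integral_congr_ae (Eventually.of_forall fun w => ?_)
    have := abs_inner_Tn hμ h1 w
    rw [← er] at this
    exact this.symm
  have e2 : c0 * Zq i ν = ∫ y, ∫ w, |⟪w, y⟫| ∂μ ∂ν := by
    rw [Zq_eq_th hν h2, ← integral_const_mul]
    refine integral_congr_ae (Eventually.of_forall fun y => ?_)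
    have := abs_inner_Tn hν h2 y
    rw [← el] at this
    simp only [real_inner_comm y]
    exact this.symm
  have hi : Integrable (Function.uncurry fun w y : V => |⟪w, y⟫|) (μ.prod ν) := by
    have hm : Measurable (Function.uncurry fun w y : V => |⟪w, y⟫|) := by
      have : Measurable fun q : V × V => |⟪q.1, q.2⟫| := by fun_prop
      exact this
    refine (hμ.int.mul_prod hν.int).mono' hm.aestronglyMeasurable
      (Eventually.of_forall fun q => ?_)
    simp only [Function.uncurry, Real.norm_eq_abs, abs_abs]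
    exact abs_real_inner_le_norm _ _
  have e3 := integral_integral_swap hi
  exact mul_left_cancel₀ c0_pos.ne' (e1.trans (e3.trans e2.symm))

theorem SS_symm (k : ℕ) (μ : Measure V) (a b : V) : SS k μ a b = SS k μ b a := by
  unfold SS
  refine integral_congr_ae (Eventually.of_forall fun x => ?_)
  simp only []
  rw [inner_Pj_comm, real_inner_comm]

theorem SS_self (k : ℕ) (μ : Measure V) (a : V) :
    SS k μ a a = ∫ x, ‖Pj k x a‖ ^ 2 ∂(Fr k μ) := by
  unfold SS
  simp only [inner_Pj_self]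

theorem SS_add {μ : Measure V} (hμ : Mom μ) {k : ℕ} (h : 0 < Wr k μ) (a a' b : V) :
    SS k μ (a + a') b = SS k μ a b + SS k μ a' b := by
  unfold SS
  rw [← integral_add (integrable_SS_HiFr2 hμ h a b) (integrable_SS_HiFr2 hμ h a' b)]
  simp only [map_add, inner_add_left]

theorem SS_smul (k : ℕ) (μ : Measure V) (t : ℝ) (a b : V) :
    SS k μ (t • a) b = t * SS k μ a b := by
  unfold SS
  rw [← integral_const_mul]
  simp only [map_smul, real_inner_smul_left]

theorem abs_SS_le {μ : Measure V} (hμ : Mom μ) {k : ℕ} (h : 0 < Wr k μ) (a b : V) :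
    |SS k μ a b| ≤ ‖a‖ * ‖b‖ := by
  have := Fr_prob hμ h
  unfold SS
  have := norm_integral_le_of_norm_le_const (μ := Fr k μ) (f := fun x => ⟪Pj k x a, b⟫)
    (C := ‖a‖ * ‖b‖) (Eventually.of_forall fun x => abs_inner_Pj_le_HiFr2 x a b)
  simpa using this

theorem sum_SS {μ : Measure V} (hμ : Mom μ) {k : ℕ} (h : 0 < Wr k μ) {n : ℕ}
    (b : OrthonormalBasis (Fin n) ℝ V) :
    ∑ l, SS k μ (b l) (b l) = (finrank ℝ V : ℝ) - k := by
  have := Fr_prob hμ h
  unfold SS
  rw [← integral_finsetSum _ fun l _ => integrable_SS_HiFr2 hμ h (b l) (b l)]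
  have : ∀ᵐ x ∂(Fr k μ), ∑ l, ⟪Pj k x (b l), b l⟫ = (finrank ℝ V : ℝ) - k := by
    filter_upwards [ae_D_Fr μ k] with x hx
    simp only [inner_Pj_self]
    rw [Pj_eq, sum_norm_sq_pU, ← finrank_nrm_eq hx]
    push_cast
    ring
  rw [integral_congr_ae this]
  simp

end Pool.Agent.P.MP_181257_gt
end
end

-- part Pool.Agent.P.MP_181257_gt.HiR2
section

/-! The normal law depends on the support function only. -/

set_option autoImplicit false
set_option linter.unusedSectionVars false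
set_option linter.unusedVariables false

open MeasureTheory ProbabilityTheory Module Set Filter Topology
open scoped RealInnerProductSpace ENNReal Pointwise Matrix

noncomputable section

namespace Pool.Agent.P.MP_181257_gt

variable {V : Type} [NormedAddCommGroup V] [InnerProductSpace ℝ V] [FiniteDimensional ℝ V]
  [MeasurableSpace V] [BorelSpace V]

theorem cos_inj_pi {α β : Measure V} (hα : Mom α) (hβ : Mom β) {c : ℝ} (hc : 0 < c)
    (h : ∀ u : V, ∫ x, |⟪u, x⟫| ∂α = c * ∫ x, |⟪u, x⟫| ∂β) : ∀ (k : ℕ)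
    {G : (Fin k → V) → ℝ≥0∞}, Measurable G →
    (∀ (t : Fin k → ℝ) (x : Fin k → V),
      G (fun j => t j • x j) = (∏ j, ENNReal.ofReal |t j|) * G x) →
    ∫⁻ x, G x ∂(mk α k) = ENNReal.ofReal c ^ k * ∫⁻ x, G x ∂(mk β k) := by
  intro k
  induction k with
  | zero =>
    intro G hG _
    rw [pow_zero, one_mul]
    have e1 : mk α 0 = Measure.dirac (fun j : Fin 0 => (Fin.elim0 j : V)) :=
      Measure.pi_of_empty _ _
    have e2 : mk β 0 = Measure.dirac (fun j : Fin 0 => (Fin.elim0 j : V)) :=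
      Measure.pi_of_empty _ _
    rw [e1, e2]
  | succ k ih =>
    intro G hG hom
    have := hβ.prob
    have hm1 : ∀ x : Fin k → V, Measurable fun a : V => G (Fin.cons a x) := fun x =>
      hG.comp (bp_measurable_cons measurable_id measurable_const)
    have hm2 : Measurable fun p : (Fin k → V) × V => G (Fin.cons p.2 p.1) :=
      hG.comp (bp_measurable_cons measurable_snd measurable_fst)
    have hH : Measurable fun x : Fin k → V => ∫⁻ a, G (Fin.cons a x) ∂β :=
      hm2.lintegral_prod_right'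
    have h1 : ∀ x : Fin k → V, ∫⁻ a, G (Fin.cons a x) ∂α
        = ENNReal.ofReal c * ∫⁻ a, G (Fin.cons a x) ∂β := by
      intro x
      refine cos_inj hα hβ hc h (hm1 x) ?_
      intro t a
      have := hom (Fin.cons t (fun _ => 1)) (Fin.cons a x)
      rw [Fin.prod_univ_succ] at this
      simp only [Fin.cons_zero, Fin.cons_succ, abs_one, ENNReal.ofReal_one,
        Finset.prod_const_one, mul_one] at this
      rw [← this]
      congr 1
      funext j
      refine Fin.cases ?_ (fun j => ?_) j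
      · simp
      · simp
    have h2 : ∀ (t : Fin k → ℝ) (x : Fin k → V),
        ∫⁻ a, G (Fin.cons a (fun j => t j • x j)) ∂β
          = (∏ j, ENNReal.ofReal |t j|) * ∫⁻ a, G (Fin.cons a x) ∂β := by
      intro t x
      rw [← lintegral_const_mul _ (hm1 x)]
      refine lintegral_congr fun a => ?_
      have := hom (Fin.cons 1 t) (Fin.cons a x)
      rw [Fin.prod_univ_succ] at this
      simp only [Fin.cons_zero, Fin.cons_succ, abs_one, ENNReal.ofReal_one, one_mul] at this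
      rw [← this]
      congr 1
      funext j
      refine Fin.cases ?_ (fun j => ?_) j
      · simp
      · simp
    rw [lintegral_mk_cons hα hG, lintegral_mk_cons hβ hG, lintegral_congr h1,
      lintegral_const_mul _ hH, ih hH h2, pow_succ', mul_assoc]

theorem ofReal_D_smul_HiR2 {k : ℕ} (t : Fin k → ℝ) (x : Fin k → V) :
    ENNReal.ofReal (D fun j => t j • x j)
      = (∏ j, ENNReal.ofReal |t j|) * ENNReal.ofReal (D x) := by
  rw [D_smul, ENNReal.ofReal_mul (Finset.prod_nonneg fun j _ => abs_nonneg _),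
    ENNReal.ofReal_prod_of_nonneg fun j _ => abs_nonneg _]

theorem Tn_congr {α β : Measure V} (hα : Mom α) (hβ : Mom β) {c : ℝ} (hc : 0 < c)
    (h : ∀ u : V, ∫ x, |⟪u, x⟫| ∂α = c * ∫ x, |⟪u, x⟫| ∂β) {k : ℕ} (hW : 0 < Wr k β) :
    Tn k α = Tn k β := by
  have hD : Measurable fun x : Fin k → V => ENNReal.ofReal (D x) :=
    (measurable_D measurable_id).ennreal_ofReal
  have hWe : ENNReal.ofReal (Wr k α) = ENNReal.ofReal c ^ k * ENNReal.ofReal (Wr k β) := by
    rw [ofReal_Wr hα, ofReal_Wr hβ]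
    exact cos_inj_pi hα hβ hc h k hD fun t x => ofReal_D_smul_HiR2 t x
  have hc0 : ENNReal.ofReal c ^ k ≠ 0 := pow_ne_zero _ (ENNReal.ofReal_pos.mpr hc).ne'
  have hct : ENNReal.ofReal c ^ k ≠ ∞ := ENNReal.pow_ne_top ENNReal.ofReal_ne_top
  have hW' : 0 < Wr k α := by
    rw [← ENNReal.ofReal_pos, hWe]
    exact ENNReal.mul_pos hc0 (ENNReal.ofReal_pos.mpr hW).ne'
  have key : ∀ {φ : V → ℝ≥0∞}, Measurable φ →
      ∫⁻ w, φ w ∂(Tn k α) = ∫⁻ w, φ w ∂(Tn k β) := by
    intro φ hφ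
    have hm : Measurable fun p : (Fin k → V) × V => φ (Pj k p.1 p.2) :=
      hφ.comp (measurable_Pj k measurable_fst measurable_snd)
    have hF : Measurable fun x : Fin k → V => ∫⁻ g, φ (Pj k x g) ∂(stdGaussian V) :=
      hm.lintegral_prod_right'
    have hG : Measurable fun x : Fin k → V =>
        ENNReal.ofReal (D x) * ∫⁻ g, φ (Pj k x g) ∂(stdGaussian V) := hD.mul hF
    rw [lintegral_Tn hα hW' hφ, lintegral_Tn hβ hW hφ, lintegral_Fr α k hF, lintegral_Fr β k hF,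
      cos_inj_pi hα hβ hc h k hG ?_, hWe,
      ENNReal.mul_inv (Or.inl hc0) (Or.inl hct), mul_comm (ENNReal.ofReal c ^ k)⁻¹, mul_assoc,
      ← mul_assoc (ENNReal.ofReal c ^ k)⁻¹, ENNReal.inv_mul_cancel hc0 hct, one_mul]
    intro t x
    rw [ofReal_D_smul_HiR2, mul_assoc]
    by_cases ht : ∀ j, t j ≠ 0
    · rw [Pj_smul x ht]
    · push Not at ht
      obtain ⟨j, hj⟩ := ht
      have : (∏ j, ENNReal.ofReal |t j|) = 0 :=
        Finset.prod_eq_zero (Finset.mem_univ j) (by simp [hj])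
      rw [this, zero_mul, zero_mul]
  refine Measure.ext fun s hs => ?_
  rw [← lintegral_indicator_one hs, ← lintegral_indicator_one hs]
  exact key (measurable_one.indicator hs)

end Pool.Agent.P.MP_181257_gt
end
end

-- part Pool.Agent.P.MP_181257_gt.HiR3
section

/-! The projection body of the zonoid of a measure. -/

set_option autoImplicit false
set_option linter.unusedSectionVars false
set_option linter.unusedVariables false

open MeasureTheory ProbabilityTheory Module Set Filter Topology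
open scoped RealInnerProductSpace ENNReal Pointwise Matrix

noncomputable section

namespace Pool.Agent.P.MP_181257_gt

variable {V : Type} [NormedAddCommGroup V] [InnerProductSpace ℝ V] [FiniteDimensional ℝ V]
  [MeasurableSpace V] [BorelSpace V]

theorem vol_meas_HiR3 {i : ℕ} {α : Measure V} (hα : Mom α) (u : V) (g : Fin i → V) :
    (volume (lin g '' (pr u '' Zs fun w => ∫ x, |⟪w, x⟫| ∂α))).toReal
      = 2 ^ i / (i.factorial : ℝ) *
        ∫ x : Fin i → V, |(Matrix.of fun l j => ⟪g l, pr u (x j)⟫).det| ∂(mk α i) := by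
  haveI := hα.prob
  have hid : Integrable (fun x : V => x) α :=
    (integrable_norm_iff measurable_id.aestronglyMeasurable).1 hα.int
  have hB : ∀ w : V, ‖w‖ = 1 → (fun w : V => ∫ x, |⟪w, x⟫| ∂α) w ≤ ∫ x, ‖x‖ ∂α := by
    intro w hw
    refine integral_mono_of_nonneg (ae_of_all _ fun x => abs_nonneg _) hα.int
      (ae_of_all _ fun x => ?_)
    have := abs_real_inner_le_norm w x
    rwa [hw, one_mul] at this
  set L : V →L[ℝ] (Fin i → ℝ) := (lin g).comp (prL u) with hL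
  have himg : lin g '' (pr u '' Zs fun w => ∫ x, |⟪w, x⟫| ∂α)
      = L '' Zs fun w => ∫ x, |⟪w, x⟫| ∂α := by
    rw [image_image]
    exact image_congr fun x _ => by simp [hL]
  have key := zon_vol α i (fun w => L w) L.continuous.measurable
    (L.integrable_comp hid) (L '' Zs fun w => ∫ x, |⟪w, x⟫| ∂α)
    ((isCompact_Zs hB).image L.continuous)
    ((convex_Zs _).linear_image (L : V →ₗ[ℝ] (Fin i → ℝ))) (fun ℓ => by
      set w : V := (InnerProductSpace.toDual ℝ V).symm (ℓ.comp L) with hw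
      have hw' : ∀ x, ℓ (L x) = ⟪w, x⟫ := fun x => by
        rw [hw, InnerProductSpace.toDual_symm_apply]; rfl
      have := isGreatest_Zs α (Y := fun x : V => x) measurable_id hid w
      rw [image_image]
      simp only [hw']
      simpa only [real_inner_comm w] using this)
  have hdet : ∀ x : Fin i → V, |(Matrix.of fun l j => L (x j) l).det|
      = |(Matrix.of fun l j => ⟪g l, pr u (x j)⟫).det| := by
    intro x
    have e : (Matrix.of fun l j => L (x j) l)
        = Matrix.of fun l j => ⟪g l, pr u (x j)⟫ := by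
      ext l j
      simp [hL]
    rw [e]
  simp only [hdet] at key
  have hfac : (i.factorial : ℝ) ≠ 0 := by positivity
  rw [himg, ← measureReal_def, div_mul_eq_mul_div, eq_div_iff hfac, key]

theorem PP_meas (i : ℕ) : ∃ c : ℝ, 0 < c ∧ ∀ α : Measure V, Mom α → ∀ u : V, ‖u‖ = 1 →
    PP i (fun w => ∫ x, |⟪w, x⟫| ∂α) u = c * ∫ x, D x * ‖Pj i x u‖ ∂(mk α i) := by
  obtain ⟨c, hc, h⟩ := gauss_det (V := V) i
  refine ⟨2 ^ i / (i.factorial : ℝ) * c, by positivity, fun α hα u hu => ?_⟩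
  haveI := hα.prob
  have hDeq : ∀ x : Fin i → V, D (fun j => pr u (x j)) = D x * ‖Pj i x u‖ := fun x => by
    rw [← D_cons_eq, D_cons, hu, one_mul]
  have hD : Integrable (fun x : Fin i → V => D fun j => pr u (x j)) (mk α i) := by
    refine (integrable_prod_norm_mk hα i).mono'
      (Measurable.aestronglyMeasurable (by fun_prop)) (ae_of_all _ fun x => ?_)
    rw [Real.norm_of_nonneg (D_nonneg _)]
    exact (D_le_prod _).trans
      (Finset.prod_le_prod (fun j _ => norm_nonneg _) fun j _ => norm_pr_le u (x j))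
  have hmeas : Measurable fun q : (Fin i → V) × (Fin i → V) =>
      |(Matrix.of fun l j => ⟪q.1 l, pr u (q.2 j)⟫).det| := by
    refine Continuous.measurable (Continuous.abs (Continuous.matrix_det ?_))
    refine continuous_matrix fun l j => ?_
    simp only [Matrix.of_apply, ← prL_apply]
    fun_prop
  have hint : Integrable (fun q : (Fin i → V) × (Fin i → V) =>
      |(Matrix.of fun l j => ⟪q.1 l, pr u (q.2 j)⟫).det|) ((γk V i).prod (mk α i)) := by
    refine (integrable_prod_iff' hmeas.aestronglyMeasurable).2 ⟨ae_of_all _ fun x => ?_, ?_⟩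
    · exact (h fun j => pr u (x j)).1
    refine (hD.const_mul c).congr (ae_of_all _ fun x => ?_)
    simp only
    rw [← (h fun j => pr u (x j)).2]
    refine integral_congr_ae (ae_of_all _ fun g => ?_)
    simp only
    rw [Real.norm_of_nonneg (abs_nonneg _)]
  have hin : ∀ x : Fin i → V,
      ∫ g, |(Matrix.of fun l j => ⟪g l, pr u (x j)⟫).det| ∂(γk V i)
        = c * (D x * ‖Pj i x u‖) := fun x => by
    rw [(h fun j => pr u (x j)).2, hDeq]
  rw [PP, intrinsicVol_eq]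
  simp only [vol_meas_HiR3 hα]
  rw [integral_const_mul, integral_integral_swap hint]
  simp only [hin]
  rw [integral_const_mul, mul_assoc]

end Pool.Agent.P.MP_181257_gt
end
end

-- part Pool.Agent.P.MP_181257_gt.HiR4
section

/-! Reduction to a fixed pair. -/

set_option autoImplicit false
set_option linter.unusedSectionVars false
set_option linter.unusedVariables false

open MeasureTheory ProbabilityTheory Module Set Filter Topology
open scoped RealInnerProductSpace ENNReal Pointwise Matrix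

noncomputable section

namespace Pool.Agent.P.MP_181257_gt

variable {V : Type} [NormedAddCommGroup V] [InnerProductSpace ℝ V] [FiniteDimensional ℝ V]
  [MeasurableSpace V] [BorelSpace V]

theorem hom_HiR4 {α β : Measure V} {c : ℝ}
    (h : ∀ u : V, ‖u‖ = 1 → ∫ x, |⟪u, x⟫| ∂α = c * ∫ x, |⟪u, x⟫| ∂β) (u : V) :
    ∫ x, |⟪u, x⟫| ∂α = c * ∫ x, |⟪u, x⟫| ∂β := by
  rcases eq_or_ne u 0 with rfl | hu
  · simp
  · have h1 := h _ (norm_smul_inv_norm (𝕜 := ℝ) hu)
    have hn : 0 < ‖u‖ := norm_pos_iff.2 hu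
    simp only [real_inner_smul_left, abs_mul, integral_const_mul, RCLike.ofReal_real_eq_id,
      id_eq] at h1
    have h2 : |‖u‖⁻¹| ≠ 0 := by positivity
    refine mul_left_cancel₀ h2 ?_
    rw [h1]
    ring

theorem normalise_HiR4 {h : V → ℝ} {δ : ℝ} (hn : 1 ≤ finrank ℝ V) (hZ : Zon h) (hδ : 0 < δ)
    (hpos : ∀ u, ‖u‖ = 1 → δ ≤ h u) :
    ∃ (μ : Measure V) (t : ℝ), Mom μ ∧ 0 < t ∧ ∀ u, ‖u‖ = 1 → h u = t * ∫ x, |⟪u, x⟫| ∂μ := by
  obtain ⟨m, hm, h1, hh⟩ := hZ.exists_measure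
  have : Nontrivial V := finrank_pos_iff.1 hn
  obtain ⟨u, hu⟩ := exists_norm_eq V zero_le_one
  have hm0 : m ≠ 0 := by
    rintro rfl
    have h2 := hpos u hu
    rw [hh u hu] at h2
    simp only [integral_zero_measure] at h2
    linarith
  have hu0 : m univ ≠ 0 := by simpa using hm0
  have hut : m univ ≠ ∞ := measure_ne_top _ _
  have hp : IsProbabilityMeasure ((m univ)⁻¹ • m) :=
    ⟨by simp [ENNReal.inv_mul_cancel hu0 hut]⟩
  have ht : 0 < (m univ).toReal := ENNReal.toReal_pos hu0 hut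
  refine ⟨(m univ)⁻¹ • m, (m univ).toReal, ⟨hp, ?_⟩, ht, fun u hu => ?_⟩
  · refine Integrable.smul_measure ?_ (ENNReal.inv_ne_top.2 hu0)
    exact (integrable_const (1 : ℝ)).congr (h1.mono fun x hx => hx.symm)
  · rw [integral_smul_measure, hh u hu, smul_eq_mul, ENNReal.toReal_inv, ← mul_assoc,
      mul_inv_cancel₀ ht.ne', one_mul]

theorem th_HiR4 {α : Measure V} {i : ℕ} (hW : 0 < Wr i α) (u : V) :
    ∫ x, D x * ‖Pj i x u‖ ∂(mk α i) = Wr i α * th i α u := by
  rw [th, integral_Fr hW, ← mul_assoc, mul_inv_cancel₀ hW.ne', one_mul]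

theorem reduce {i : ℕ} (hi : i + 1 ≤ finrank ℝ V) {h : V → ℝ} {δ lam : ℝ} (hZ : Zon h)
    (hδ : 0 < δ) (hpos : ∀ u, ‖u‖ = 1 → δ ≤ h u) (hlam : 0 < lam)
    (hfix : ∀ u, ‖u‖ = 1 → h u = lam * PP i (PP i h) u) :
    ∃ (μ ν : Measure V) (a : ℝ), FP i μ ν ∧ ∀ u, ‖u‖ = 1 → h u = a * th i ν u := by
  obtain ⟨μ0, t, hμ0, ht, hh⟩ := normalise_HiR4 (by omega) hZ hδ hpos
  obtain ⟨c, hc, hPP⟩ := PP_meas (V := V) i
  have : Nontrivial V := finrank_pos_iff.1 (show 0 < finrank ℝ V by omega)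
  obtain ⟨u0, hu0⟩ := exists_norm_eq V zero_le_one
  have hp0 : ∀ u : V, ‖u‖ = 1 → 0 < ∫ x, |⟪u, x⟫| ∂μ0 := fun u hu => by
    have h1 := hδ.trans_le (hpos u hu)
    rw [hh u hu] at h1
    exact (mul_pos_iff_of_pos_left ht).1 h1
  have hW0 : 0 < Wr i μ0 := Wr_pos hμ0 hp0 i (by omega)
  set ν := Tn i μ0 with hν
  have hνm : Mom ν := Tn_mom hμ0 hW0
  have hc0 := c0_pos
  set a1 : ℝ := t ^ i * (c * Wr i μ0) / c0 with ha1
  have ha1p : 0 < a1 := by positivity
  have e1 : ∀ u : V, ‖u‖ = 1 → PP i h u = a1 * ∫ x, |⟪u, x⟫| ∂ν := fun u hu => by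
    rw [PP_congr i hh, PP_smul i _ ht, hPP μ0 hμ0 u hu, th_HiR4 hW0, hν,
      abs_inner_Tn hμ0 hW0, ha1]
    field_simp
  have e2 : ∀ u : V, ‖u‖ = 1 →
      h u = lam * (a1 ^ i * (c * ∫ x, D x * ‖Pj i x u‖ ∂(mk ν i))) := fun u hu => by
    rw [hfix u hu, PP_congr i e1, PP_smul i _ ha1p, hPP ν hνm u hu]
  have hWν : 0 < Wr i ν := by
    have h1 := hδ.trans_le (hpos u0 hu0)
    rw [e2 u0 hu0] at h1
    have h2 : 0 < ∫ x, D x * ‖Pj i x u0‖ ∂(mk ν i) :=
      (mul_pos_iff_of_pos_left hc).1 ((mul_pos_iff_of_pos_left (pow_pos ha1p i)).1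
        ((mul_pos_iff_of_pos_left hlam).1 h1))
    refine h2.trans_le (integral_mono_of_nonneg
      (ae_of_all _ fun x => mul_nonneg (D_nonneg _) (norm_nonneg _)) (integrable_D_mk' hνm i)
      (ae_of_all _ fun x => ?_))
    exact mul_le_of_le_one_right (D_nonneg _) ((norm_Pj_le x u0).trans_eq hu0)
  set a : ℝ := lam * (a1 ^ i * (c * Wr i ν)) with ha
  have hap : 0 < a := by positivity
  have e3 : ∀ u : V, ‖u‖ = 1 → h u = a * th i ν u := fun u hu => by
    rw [e2 u hu, th_HiR4 hWν, ha]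
    ring
  set μ := Tn i ν with hμ
  have hμm : Mom μ := Tn_mom hνm hWν
  have e4 : ∀ u : V, ‖u‖ = 1 →
      ∫ x, |⟪u, x⟫| ∂μ = c0 * t / a * ∫ x, |⟪u, x⟫| ∂μ0 := fun u hu => by
    have h1 := (e3 u hu).symm.trans (hh u hu)
    rw [hμ, abs_inner_Tn hνm hWν]
    field_simp
    linarith
  have hk : 0 < c0 * t / a := by positivity
  have er : ν = Tn i μ := (Tn_congr hμm hμ0 hk (hom_HiR4 e4) hW0).symm
  have hp : ∀ u : V, ‖u‖ = 1 → 0 < ∫ x, |⟪u, x⟫| ∂μ := fun u hu => by
    rw [e4 u hu]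
    exact mul_pos hk (hp0 u hu)
  have hWμ : 0 < Wr (i + 1) μ := Wr_pos hμm hp (i + 1) hi
  have hz := Zq_symm hμm hνm (Wr_pos_of_succ hμm hWμ) hWν hμ er
  have hz2 : 0 < Wr (i + 1) ν / Wr i ν := (Zq_pos hμm hWμ).trans_eq hz
  exact ⟨μ, ν, a, ⟨hμm, hνm, hWμ, (div_pos_iff_of_pos_right hWν).1 hz2, hμ, er⟩, e3⟩

end Pool.Agent.P.MP_181257_gt
end
end
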