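import Pool.Agent.K.MP_181257_gt.C0
import Pool.Agent.K.MP_181257_gt.C1

-- part Pool.Agent.P.MP_181257_gt.BSG
section

/-! The Busemann-Straus-Grinberg inequality and its dual. -/

set_option autoImplicit false
set_option linter.unusedSectionVars false

open MeasureTheory ProbabilityTheory Module Set Filter Topology
open scoped RealInnerProductSpace ENNReal Pointwise Matrix

noncomputable section

namespace Pool.Agent.P.MP_181257_gt

variable {V : Type} [NormedAddCommGroup V] [InnerProductSpace ℝ V] [FiniteDimensional ℝ V]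
  [MeasurableSpace V] [BorelSpace V]

theorem bsg_int_avg {φ : V → ℝ} (hφ : Pos φ) (k : ℕ) (x : Fin k → V) :
    Integrable (fun b => φ (Pj k x b)) (stdGaussian V) := by
  obtain ⟨c, C, hc, h⟩ := hφ.bdd
  exact Pos.bd (f := fun b => φ (Pj k x b))
    ⟨hφ.meas.comp (Pj k x).continuous.measurable, c, C, hc, fun b => h _⟩ |>.integrable _

theorem bsg_pos_avg {φ : V → ℝ} (hφ : Pos φ) (k : ℕ) :
    Pos fun x : Fin k → V => ∫ b, φ (Pj k x b) ∂(stdGaussian V) := by
  have hi := bsg_int_avg hφ k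
  obtain ⟨c, C, hc, h⟩ := hφ.bdd
  refine ⟨?_, c, C, hc, fun x => ⟨?_, ?_⟩⟩
  · have : Measurable fun p : (Fin k → V) × V => φ (Pj k p.1 p.2) :=
      hφ.meas.comp (measurable_Pj k measurable_fst measurable_snd)
    exact (this.stronglyMeasurable.integral_prod_right' (ν := stdGaussian V)).measurable
  · simpa using integral_mono (integrable_const (μ := stdGaussian V) c) (hi x) fun b => (h _).1
  · simpa using integral_mono (hi x) (integrable_const (μ := stdGaussian V) C) fun b => (h _).2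

theorem bsg_pos_pow {X : Type} [MeasurableSpace X] {f : X → ℝ} (hf : Pos f) (n : ℕ) :
    Pos fun x => f x ^ n := by
  simpa using hf.rpow (r := (n : ℝ)) (Nat.cast_nonneg n)

theorem bsg_int_mul {X : Type} [MeasurableSpace X] {μ : Measure X} {u a : X → ℝ}
    (hu : Integrable u μ) (ha : Pos a) : Integrable (fun x => u x * a x) μ := by
  obtain ⟨C, hC⟩ := ha.bd.bdd
  exact hu.mul_bdd (c := C) ha.meas.aestronglyMeasurable (ae_of_all _ fun x => hC x)

theorem bsg_int_D (k : ℕ) : Integrable (fun x : Fin k → V => D x) (γk V k) := by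
  simpa using proj_integrable_D (V := V) (k := k) Den.one.toPos

theorem bsg_den_comp {W : Type} [NormedAddCommGroup W] [InnerProductSpace ℝ W]
    [FiniteDimensional ℝ W] [MeasurableSpace W] [BorelSpace W] {F : V → ℝ} (hF : Den F)
    (ι : W →ₗᵢ[ℝ] V) : Den fun z => F (ι z) := by
  obtain ⟨c, C, hc, h⟩ := hF.bdd
  exact ⟨⟨hF.meas.comp ι.continuous.measurable, c, C, hc, fun z => h _⟩,
    fun t ht z => by rw [map_smul, hF.hom t ht]⟩

/-- transfer of the inner integral of the Blaschke-Petkantschin formula to a model space -/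
theorem bsg_inner {q i : ℕ} {F : V → ℝ} (hF : Den F) {x : Fin i → V}
    (ι : EuclideanSpace ℝ (Fin q) →ₗᵢ[ℝ] V) {T : V → EuclideanSpace ℝ (Fin q)}
    (hT : MeasurePreserving T (stdGaussian V) (stdGaussian (EuclideanSpace ℝ (Fin q))))
    (h : ∀ b, ι (T b) = Pj i x b) :
    ∫⁻ b, ENNReal.ofReal (D (fun l => Pj i x (b l)) ^ i)
        * ENNReal.ofReal (∏ l, F (Pj i x (b l))) ∂(γk V q)
      = ENNReal.ofReal (∫ z, D z ^ i * ∏ l, F (ι (z l)) ∂(γk (EuclideanSpace ℝ (Fin q)) q)) := by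
  have hG := bsg_den_comp hF ι
  have hint := integrable_D_pow q i hG.toPos.bd
  have hnn : ∀ z : Fin q → EuclideanSpace ℝ (Fin q), 0 ≤ D z ^ i * ∏ l, F (ι (z l)) := fun z =>
    mul_nonneg (pow_nonneg (D_nonneg _) _) (Finset.prod_nonneg fun l _ => (hF.toPos.pos _).le)
  have hm : Measurable fun z : Fin q → EuclideanSpace ℝ (Fin q) =>
      ENNReal.ofReal (D z ^ i * ∏ l, F (ι (z l))) :=
    (((measurable_D measurable_id).pow_const i).mul
      (Finset.measurable_prod _ fun l _ => hG.meas.comp (measurable_pi_apply l))).ennreal_ofReal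
  have hP : MeasurePreserving (fun (b : Fin q → V) l => T (b l)) (γk V q)
      (γk (EuclideanSpace ℝ (Fin q)) q) := measurePreserving_pi _ _ fun _ => hT
  rw [ofReal_integral_eq_lintegral_ofReal hint (ae_of_all _ hnn), ← hP.lintegral_comp hm]
  refine lintegral_congr fun b => ?_
  rw [← ENNReal.ofReal_mul (pow_nonneg (D_nonneg _) _)]
  simp only [← h]
  rw [D_map]

theorem bsg {q i : ℕ} (hq : 1 ≤ q) (hn : finrank ℝ V = q + i) {F : V → ℝ} (hF : Den F) :
    ∫ x, D x * (∫ b, F (Pj i x b) ^ ((q : ℝ) / (q + i)) ∂(stdGaussian V)) ^ (q + i) ∂(γk V i)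
      ≤ (∫ x, D x ∂(γk V i)) * (∫ y, F y ∂(stdGaussian V)) ^ q := by
  obtain ⟨C, hC0, hCt, h⟩ := bpg q i
  have hE : finrank ℝ (EuclideanSpace ℝ (Fin q)) = q := by simp
  set M : ℝ := ∫ z, D z ^ i ∂(γk (EuclideanSpace ℝ (Fin q)) q) with hM
  have hM0 : 0 ≤ M := integral_nonneg fun z => pow_nonneg (D_nonneg _) _
  have hr : (0 : ℝ) ≤ (q : ℝ) / (q + i) := by positivity
  have hA := bsg_pos_pow (bsg_pos_avg (hF.rpow hr).toPos i) (q + i)
  have hI := bsg_int_mul (bsg_int_D (V := V) i) hA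
  have hI0 : ∀ x : Fin i → V, 0 ≤ D x *
      (∫ b, F (Pj i x b) ^ ((q : ℝ) / (q + i)) ∂(stdGaussian V)) ^ (q + i) := fun x =>
    mul_nonneg (D_nonneg _) (hA.pos x).le
  have hmeas : ∀ G : V → ℝ, Den G → Measurable fun y : Fin q → V =>
      ENNReal.ofReal (∏ l, G (y l)) := fun G hG =>
    (Finset.measurable_prod _ fun l _ => hG.meas.comp (measurable_pi_apply l)).ennreal_ofReal
  -- the normalisation
  have h1 : C.toReal * (M * ∫ x, D x ∂(γk V i)) = 1 := by
    have key := h V hn _ (hmeas _ Den.one)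
    have e : ∀ x : Fin i → V, ENNReal.ofReal (D x) *
        ∫⁻ b, ENNReal.ofReal (D (fun l => Pj i x (b l)) ^ i)
          * ENNReal.ofReal (∏ _l : Fin q, (1 : ℝ)) ∂(γk V q) = ENNReal.ofReal (M * D x) := by
      intro x
      by_cases hx : D x = 0
      · simp [hx]
      obtain ⟨ι, T, hT, hι⟩ := exists_transfer q i V hn x hx
      rw [bsg_inner (F := fun _ => (1 : ℝ)) Den.one ι hT hι, ← ENNReal.ofReal_mul (D_nonneg _)]
      simp [hM, mul_comm]
    simp only [e] at key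
    rw [← ofReal_integral_eq_lintegral_ofReal ((bsg_int_D i).const_mul M)
      (ae_of_all _ fun x => mul_nonneg hM0 (D_nonneg _)), integral_const_mul] at key
    have key2 := congrArg ENNReal.toReal key
    rw [ENNReal.toReal_mul, ENNReal.toReal_ofReal
      (mul_nonneg hM0 (integral_nonneg fun x => D_nonneg x))] at key2
    rw [← key2]
    simp
  have h2 : C.toReal * (M * ∫ x, D x *
      (∫ b, F (Pj i x b) ^ ((q : ℝ) / (q + i)) ∂(stdGaussian V)) ^ (q + i) ∂(γk V i))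
      ≤ (∫ y, F y ∂(stdGaussian V)) ^ q := by
    have key := h V hn _ (hmeas _ hF)
    have e : ∀ x : Fin i → V, ENNReal.ofReal (M * (D x *
        (∫ b, F (Pj i x b) ^ ((q : ℝ) / (q + i)) ∂(stdGaussian V)) ^ (q + i)))
        ≤ ENNReal.ofReal (D x) * ∫⁻ b, ENNReal.ofReal (D (fun l => Pj i x (b l)) ^ i)
          * ENNReal.ofReal (∏ l, F (Pj i x (b l))) ∂(γk V q) := by
      intro x
      by_cases hx : D x = 0
      · simp [hx]
      obtain ⟨ι, T, hT, hι⟩ := exists_transfer q i V hn x hx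
      rw [bsg_inner hF ι hT hι, ← ENNReal.ofReal_mul (D_nonneg _)]
      refine ENNReal.ofReal_le_ofReal ?_
      have hG := bsg_den_comp hF ι
      have hb := brs hE hq q i hG
      have hq0 : (q : ℝ) ≠ 0 := by positivity
      have hexp : (q : ℝ) * (q + i) / q = ((q + i : ℕ) : ℝ) := by
        push_cast; field_simp
      rw [hexp, Real.rpow_natCast, ← moment_integral_mp hT (hG.rpow hr).meas] at hb
      simp only [hι] at hb
      rw [mul_left_comm]
      exact mul_le_mul_of_nonneg_left hb (D_nonneg _)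
    have hle := mul_le_mul_right (lintegral_mono (μ := γk V i) e) C
    have hFi : Integrable (fun y : Fin q → V => ∏ l, F (y l)) (γk V q) :=
      Integrable.fintype_prod (f := fun _ => F) fun _ => hF.toPos.bd.integrable _
    rw [← key, ← ofReal_integral_eq_lintegral_ofReal (hI.const_mul M)
      (ae_of_all _ fun x => mul_nonneg hM0 (hI0 x)), integral_const_mul,
      ← ofReal_integral_eq_lintegral_ofReal hFi
        (ae_of_all _ fun y => Finset.prod_nonneg fun l _ => (hF.toPos.pos _).le),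
      integral_fintype_prod_eq_pow, Fintype.card_fin] at hle
    have key2 := ENNReal.toReal_mono ENNReal.ofReal_ne_top hle
    rwa [ENNReal.toReal_mul, ENNReal.toReal_ofReal (mul_nonneg hM0 (integral_nonneg hI0)),
      ENNReal.toReal_ofReal
        (pow_nonneg (integral_nonneg fun y => (hF.toPos.pos y).le) _)] at key2
  have hD0 : 0 ≤ ∫ x, D x ∂(γk V i) := integral_nonneg fun x => D_nonneg x
  have h3 := mul_le_mul_of_nonneg_left h2 hD0
  calc _ = C.toReal * (M * ∫ x, D x ∂(γk V i)) * ∫ x, D x *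
        (∫ b, F (Pj i x b) ^ ((q : ℝ) / (q + i)) ∂(stdGaussian V)) ^ (q + i) ∂(γk V i) := by
        rw [h1, one_mul]
    _ = _ := by ring
    _ ≤ _ := h3

theorem sk_pair {m k : ℕ} (hm : finrank ℝ V = m + 1) (h1 : 1 ≤ m) (hk : k ≤ m) {f φ : V → ℝ}
    (hf : Den f) (hφ : Den φ) :
    (∫ y, φ y * sk k f y ∂(stdGaussian V)) * ∫ x, D x ∂(γk V k)
      = ∫ x, (D x * ∏ j, f (x j)) * ∫ b, φ (Pj k x b) ∂(stdGaussian V) ∂(γk V k) := by
  obtain ⟨C, hC0, hCt, h⟩ := proj_bp (V := V) 0 hm hk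
  have key : ∀ g ψ : V → ℝ, Den g → Den ψ →
      ∫ x, (D x * ∏ j, g (x j)) * ∫ b, ψ (Pj k x b) ∂(stdGaussian V) ∂(γk V k)
        = C.toReal * ∫ y, ψ y * sk k g y ∂(stdGaussian V) := by
    intro g ψ hg hψ
    have hs := den_sk hm h1 hk hg
    have ha := bsg_pos_avg hψ.toPos k
    have h0 : ∀ x : Fin k → V, 0 ≤ D x * ∏ j, g (x j) := fun x =>
      mul_nonneg (D_nonneg _) (Finset.prod_nonneg fun j _ => (hg.toPos.pos _).le)
    have := h g hg.toPos (fun y => ENNReal.ofReal (ψ y)) hψ.meas.ennreal_ofReal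
      (fun _ => ENNReal.ofReal_ne_top) (fun y t ht => by simp [hψ.hom t ht])
    have e1 : ∀ x : Fin k → V, ENNReal.ofReal (D x * ∏ j, g (x j)) *
        ∫⁻ b, ENNReal.ofReal (ψ (Pj k x b)) ∂(stdGaussian V)
        = ENNReal.ofReal ((D x * ∏ j, g (x j)) * ∫ b, ψ (Pj k x b) ∂(stdGaussian V)) := by
      intro x
      rw [← ofReal_integral_eq_lintegral_ofReal (bsg_int_avg hψ.toPos k x)
        (ae_of_all _ fun b => (hψ.toPos.pos _).le), ← ENNReal.ofReal_mul (h0 x)]
    have e2 : ∀ b : V, ENNReal.ofReal (ψ b) * ENNReal.ofReal (sk k g b)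
        = ENNReal.ofReal (ψ b * sk k g b) := fun b =>
      (ENNReal.ofReal_mul (hψ.toPos.pos b).le).symm
    simp only [e1, e2] at this
    rw [integral_eq_lintegral_of_nonneg_ae (ae_of_all _ fun x => mul_nonneg (h0 x) (ha.pos x).le)
      (bsg_int_mul (proj_integrable_D hg.toPos) ha).aestronglyMeasurable, this, ENNReal.toReal_mul,
      integral_eq_lintegral_of_nonneg_ae
        (ae_of_all _ fun y => mul_nonneg (hψ.toPos.pos y).le (hs.toPos.pos y).le)
        (hψ.meas.mul hs.meas).aestronglyMeasurable]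
  have h1' := key _ _ Den.one Den.one
  simp only [Finset.prod_const_one, mul_one, sk_one hm h1 hk, integral_const, probReal_univ,
    smul_eq_mul] at h1'
  rw [key f φ hf hφ, h1', mul_comm]

theorem sk_norm_le {m i : ℕ} (hm : finrank ℝ V = m + 1) (hi : 1 ≤ i) (him : i ≤ m) {f : V → ℝ}
    (hf : Den f) :
    (∫ y, sk i f y ^ (((m : ℝ) + 1) / i) ∂(stdGaussian V)) ^ i
      ≤ (∫ y, sk i (fun x => f x ^ (((m : ℝ) + 1) / m)) y ∂(stdGaussian V)) ^ m := by
  have h1 : 1 ≤ m := hi.trans him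
  obtain ⟨q, hq⟩ : ∃ q, m + 1 = q + i := ⟨m + 1 - i, by omega⟩
  have hq1 : 1 ≤ q := by omega
  have hqr : (m : ℝ) + 1 = q + i := by exact_mod_cast hq
  have hi0 : (0 : ℝ) < i := by exact_mod_cast hi
  have hm0 : (0 : ℝ) < m := by exact_mod_cast h1
  have hq0 : (0 : ℝ) < q := by exact_mod_cast hq1
  have hg := den_sk hm h1 him hf
  have hF := hg.rpow (r := ((m : ℝ) + 1) / i) (by positivity)
  have hφ := hg.rpow (r := (q : ℝ) / i) (by positivity)
  have hf' := hf.rpow (r := ((m : ℝ) + 1) / m) (by positivity)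
  set G : ℝ := ∫ y, sk i f y ^ (((m : ℝ) + 1) / i) ∂(stdGaussian V) with hG
  set Z : ℝ := ∫ y, sk i (fun x => f x ^ (((m : ℝ) + 1) / m)) y ∂(stdGaussian V) with hZ
  set E : ℝ := ∫ x, D x ∂(γk V i) with hE
  have hG0 : 0 < G := moment_integral_pos hF.toPos _
  have hZ0 : 0 < Z := moment_integral_pos (den_sk hm h1 him hf').toPos _
  have hE0 : 0 < E := integral_D_pos (by omega)
  set a : (Fin i → V) → ℝ := fun x => ∫ b, sk i f (Pj i x b) ^ ((q : ℝ) / i) ∂(stdGaussian V)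
    with ha
  have hap : Pos a := bsg_pos_avg hφ.toPos i
  have e1 : G * E = ∫ x, (D x * ∏ j, f (x j)) * a x ∂(γk V i) := by
    rw [← sk_pair hm h1 him hf hφ, hG]
    congr 2
    funext y
    rw [← Real.rpow_add_one (hg.toPos.pos y).ne', hqr]
    congr 1
    field_simp
  have e2 : ∫ x, D x * a x ^ (m + 1) ∂(γk V i) ≤ E * G ^ q := by
    have := bsg hq1 (hm.trans hq) hF
    rw [← hq] at this
    refine le_of_eq_of_le ?_ this
    congr 1
    funext x
    congr 2
    simp only [ha]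
    congr 1
    funext b
    rw [← Real.rpow_mul (hg.toPos.pos _).le, hqr]
    congr 1
    field_simp
  have e3 : Z * E = ∫ x, D x * ∏ j, f (x j) ^ (((m : ℝ) + 1) / m) ∂(γk V i) :=
    bp_mass hm h1 him hf'
  set w₁ : ℝ := m / (m + 1) with hw₁
  set w₂ : ℝ := ((m + 1 : ℕ) : ℝ)⁻¹ with hw₂
  have hw₁0 : 0 ≤ w₁ := by positivity
  have hw₂0 : 0 ≤ w₂ := by positivity
  have hw : w₁ + w₂ = 1 := by rw [hw₁, hw₂]; push_cast; field_simp
  set s : ℝ := Z ^ w₁ * (G ^ q) ^ w₂ with hs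
  have hs0 : 0 < s := by positivity
  have hpt : ∀ x : Fin i → V, (D x * ∏ j, f (x j)) * a x
      ≤ s * w₁ / Z * (D x * ∏ j, f (x j) ^ (((m : ℝ) + 1) / m))
        + s * w₂ / G ^ q * (D x * a x ^ (m + 1)) := by
    intro x
    have hP : 0 ≤ ∏ j, f (x j) := Finset.prod_nonneg fun j _ => (hf.toPos.pos _).le
    have ha0 := (hap.pos x).le
    rw [Real.finsetProd_rpow _ _ (fun j _ => (hf.toPos.pos _).le)]
    have hy := Real.geom_mean_le_arith_mean2_weighted hw₁0 hw₂0
      (p₁ := (∏ j, f (x j)) ^ (((m : ℝ) + 1) / m) / Z) (p₂ := a x ^ (m + 1) / G ^ q)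
      (by positivity) (by positivity) hw
    have hexp : ((m : ℝ) + 1) / m * w₁ = 1 := by rw [hw₁]; field_simp
    rw [Real.div_rpow (by positivity) hZ0.le, Real.div_rpow (by positivity) (by positivity),
      ← Real.rpow_mul hP, hexp, Real.rpow_one, hw₂,
      Real.pow_rpow_inv_natCast ha0 (Nat.succ_ne_zero m), ← hw₂, div_mul_div_comm, ← hs,
      div_le_iff₀ hs0] at hy
    have := mul_le_mul_of_nonneg_left hy (D_nonneg x)
    refine le_of_eq_of_le (by ring) (this.trans (le_of_eq ?_))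
    ring
  have hI1 := proj_integrable_D (k := i) hf'.toPos
  have hI2 := bsg_int_mul (bsg_int_D (V := V) i) (bsg_pos_pow hap (m + 1))
  have hle := integral_mono (bsg_int_mul (proj_integrable_D hf.toPos) hap)
    ((hI1.const_mul (s * w₁ / Z)).add (hI2.const_mul (s * w₂ / G ^ q))) hpt
  simp only [Pi.add_apply] at hle
  rw [integral_add (hI1.const_mul _) (hI2.const_mul _), integral_const_mul, integral_const_mul,
    ← e1, ← e3] at hle
  have hGs : G ≤ s := by
    have h4 : s * w₂ / G ^ q * ∫ x, D x * a x ^ (m + 1) ∂(γk V i) ≤ s * w₂ / G ^ q * (E * G ^ q) :=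
      mul_le_mul_of_nonneg_left e2 (by positivity)
    have h5 : s * w₁ / Z * (Z * E) + s * w₂ / G ^ q * (E * G ^ q) = s * E := by
      have : s * w₁ / Z * (Z * E) + s * w₂ / G ^ q * (E * G ^ q) = s * E * (w₁ + w₂) := by
        field_simp
      rw [this, hw, mul_one]
    exact le_of_mul_le_mul_right (by linarith) hE0
  have hsn : s ^ (m + 1) = Z ^ m * G ^ q := by
    have hexp : w₁ * ((m + 1 : ℕ) : ℝ) = (m : ℝ) := by rw [hw₁]; push_cast; field_simp
    rw [hs, mul_pow, hw₂, Real.rpow_inv_natCast_pow (by positivity) (Nat.succ_ne_zero m),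
      ← Real.rpow_natCast (Z ^ w₁), ← Real.rpow_mul hZ0.le, hexp, Real.rpow_natCast]
  have h6 : G ^ (m + 1) ≤ s ^ (m + 1) := pow_le_pow_left₀ hG0.le hGs _
  rw [hsn, hq, add_comm q i, pow_add] at h6
  exact le_of_mul_le_mul_right h6 (by positivity)

end Pool.Agent.P.MP_181257_gt
end
end

-- part Pool.Agent.P.MP_181257_gt.Half
section

/-! The contraction for `2 i < n` and the classification. -/

set_option autoImplicit false
set_option linter.unusedSectionVars false

open MeasureTheory ProbabilityTheory Module Set Filter Topology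
open scoped RealInnerProductSpace ENNReal Pointwise Matrix

noncomputable section

namespace Pool.Agent.P.MP_181257_gt

variable {V : Type} [NormedAddCommGroup V] [InnerProductSpace ℝ V] [FiniteDimensional ℝ V]
  [MeasurableSpace V] [BorelSpace V]

/-- `log (‖f‖_Q / ‖f‖_1)` -/
def Gap (Q : ℝ) (f : V → ℝ) : ℝ := Lm f Q / Q - Lm f 1

/-- the volume weighted moment -/
def Wm (k : ℕ) (f : V → ℝ) (r : ℝ) : ℝ := ∫ x, D x * ∏ j, f (x j) ^ r ∂(γk V k)

theorem three_point {f : V → ℝ} (hf : Pos f) {p Q : ℝ} (hp : 0 < p) (hp1 : p ≤ 1) (hQ : 1 < Q) :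
    Lm f Q / Q - Lm f p / p ≤ (Q - p) / (p * (Q - 1)) * Gap Q f := by
  have h1 : 0 < Q - p := by linarith
  have h2 : 0 < Q - 1 := by linarith
  have hQ0 : 0 < Q := by linarith
  have h := Lm_convex hf (r₀ := Q) (r₁ := p) (a := (1 - p) / (Q - p)) hQ0.le hp.le
    (div_nonneg (by linarith) h1.le) (by rw [div_le_one h1]; linarith)
  rw [show (1 - p) / (Q - p) * Q + (1 - (1 - p) / (Q - p)) * p = 1 by field_simp; ring] at h
  have h3 := mul_le_mul_of_nonneg_left h (by positivity : 0 ≤ (Q - p) / (p * (Q - 1)))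
  have e : (Q - p) / (p * (Q - 1)) * ((1 - p) / (Q - p) * Lm f Q + (1 - (1 - p) / (Q - p)) * Lm f p)
      = (Q - p) / (p * (Q - 1)) * (Lm f Q / Q) - (Lm f Q / Q - Lm f p / p) := by
    field_simp
    ring
  unfold Gap
  rw [e] at h3
  linarith

theorem Gap_nonneg {f : V → ℝ} (hf : Pos f) {Q : ℝ} (hQ : 1 ≤ Q) : 0 ≤ Gap Q f := by
  have hQ0 : 0 < Q := by linarith
  have h := holder_scale hf (r := Q) (s := Q⁻¹) hQ0.le (by positivity) (inv_le_one_of_one_le₀ hQ)
  rw [inv_mul_cancel₀ hQ0.ne'] at h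
  unfold Gap
  rw [div_eq_inv_mul]
  linarith

theorem Gap_le {f : V → ℝ} (hf : Pos f) {Q : ℝ} (hQ : 0 < Q) {c C : ℝ} (hc : 0 < c)
    (h : ∀ x, c ≤ f x ∧ f x ≤ C) : Gap Q f ≤ Real.log (C / c) := by
  have hC : 0 < C := hc.trans_le ((h 0).1.trans (h 0).2)
  have hu : Lm f Q ≤ Q * Real.log C := by
    have h2 : ∫ x, f x ^ Q ∂(stdGaussian V) ≤ ∫ _x, C ^ Q ∂(stdGaussian V) :=
      integral_mono (holder_int hf hQ.le) (integrable_const _) fun x =>
        Real.rpow_le_rpow (hf.pos x).le (h x).2 hQ.le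
    simp only [integral_const, probReal_univ, one_smul] at h2
    rw [← Real.log_rpow hC]
    exact Real.log_le_log (holder_pos (hf.rpow hQ.le)) h2
  have hl : Real.log c ≤ Lm f 1 := by
    have h2 : ∫ _x, c ∂(stdGaussian V) ≤ ∫ x, f x ^ (1 : ℝ) ∂(stdGaussian V) :=
      integral_mono (integrable_const _) (holder_int hf zero_le_one) fun x => by
        simpa using (h x).1
    simp only [integral_const, probReal_univ, one_smul] at h2
    exact Real.log_le_log hc h2
  have h2 : Lm f Q / Q ≤ Real.log C := by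
    rw [div_le_iff₀ hQ, mul_comm]
    exact hu
  rw [Real.log_div hC.ne' hc.ne']
  unfold Gap
  linarith

theorem Gap_close {m : ℕ} (hm : finrank ℝ V = m + 1) (h2 : 2 ≤ m) {Q : ℝ} (hQ : 2 ≤ Q) {ε : ℝ}
    (hε : 0 < ε) : ∃ δ : ℝ, 0 < δ ∧ ∀ f : V → ℝ, Den f → Gap Q f ≤ δ →
      ∀ u u' : V, ‖u‖ = 1 → ‖u'‖ = 1 → hz f u ≤ (1 + ε) * hz f u' := by
  obtain ⟨δ, hδ, h⟩ := hz_close hm (by omega) hε
  have hm2 : (2 : ℝ) ≤ m := by exact_mod_cast h2
  have hp : (0 : ℝ) < m / (m + 2) := by positivity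
  have hp1 : (m : ℝ) / (m + 2) ≤ 1 := by rw [div_le_one (by positivity)]; linarith
  set c : ℝ := (Q - m / (m + 2)) / (m / (m + 2) * (Q - 1)) with hc
  have hc0 : 0 < c := div_pos (by linarith) (mul_pos hp (by linarith))
  refine ⟨δ / c, by positivity, fun f hf hG => h f hf ?_⟩
  have h3 := three_point hf.toPos hp hp1 (by linarith : 1 < Q)
  have hP : ((m : ℝ) + 2) / m ≤ Q := by
    rw [div_le_iff₀ (by positivity)]
    nlinarith
  have hQ0 : 0 < Q := by linarith
  have h4 := holder_scale hf.toPos (r := Q) (s := ((m : ℝ) + 2) / m / Q) hQ0.le (by positivity)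
    ((div_le_one hQ0).2 hP)
  rw [div_mul_cancel₀ _ hQ0.ne'] at h4
  have h5 : Lm f (((m : ℝ) + 2) / m) / (((m : ℝ) + 2) / m) ≤ Lm f Q / Q := by
    rw [div_le_iff₀ (by positivity)]
    refine h4.trans_eq ?_
    ring
  have h6 : c * Gap Q f ≤ δ := by
    rw [mul_comm, ← le_div_iff₀ hc0]
    exact hG
  have h7 : ((m : ℝ) + 2) / m * Lm f ((m : ℝ) / (m + 2))
      = Lm f ((m : ℝ) / (m + 2)) / ((m : ℝ) / (m + 2)) := by
    field_simp
  unfold Δ
  rw [h7]
  linarith

theorem Wm_eq {m k : ℕ} (hm : finrank ℝ V = m + 1) (h1 : 1 ≤ m) (hk : k ≤ m) {f : V → ℝ}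
    (hf : Den f) {r : ℝ} (hr : 0 ≤ r) :
    Wm k f r = (∫ y, sk k (fun x => f x ^ r) y ∂(stdGaussian V)) * ∫ x, D x ∂(γk V k) :=
  (bp_mass hm h1 hk (hf.rpow hr)).symm

theorem Wm_pos {m k : ℕ} (hm : finrank ℝ V = m + 1) (h1 : 1 ≤ m) (hk : k ≤ m) {f : V → ℝ}
    (hf : Den f) {r : ℝ} (hr : 0 ≤ r) : 0 < Wm k f r := by
  rw [Wm_eq hm h1 hk hf hr]
  exact mul_pos (holder_pos (den_sk hm h1 hk (hf.rpow hr)).toPos) (integral_D_pos (by omega))

theorem Wm_convex {m k : ℕ} (hm : finrank ℝ V = m + 1) (h1 : 1 ≤ m) (hk : k ≤ m) {f : V → ℝ}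
    (hf : Den f) {r₀ r₁ a : ℝ} (h₀ : 0 ≤ r₀) (h₁ : 0 ≤ r₁) (ha : 0 ≤ a) (ha' : a ≤ 1) :
    Real.log (Wm k f (a * r₀ + (1 - a) * r₁))
      ≤ a * Real.log (Wm k f r₀) + (1 - a) * Real.log (Wm k f r₁) := by
  have hb : 0 ≤ 1 - a := by linarith
  have hA := Wm_pos hm h1 hk hf h₀
  have hB := Wm_pos hm h1 hk hf h₁
  have hr : 0 ≤ a * r₀ + (1 - a) * r₁ := by positivity
  have hC := Wm_pos hm h1 hk hf hr
  have hint : ∀ r : ℝ, 0 ≤ r →
      Integrable (fun x : Fin k → V => D x * ∏ j, f (x j) ^ r) (γk V k) := fun r hr =>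
    proj_integrable_D (hf.toPos.rpow hr)
  generalize hAe : Wm k f r₀ = A at hA ⊢
  generalize hBe : Wm k f r₁ = B at hB ⊢
  have hK : 0 < A ^ a * B ^ (1 - a) := by positivity
  have hp : ∀ x : Fin k → V, D x * ∏ j, f (x j) ^ (a * r₀ + (1 - a) * r₁)
      ≤ A ^ a * B ^ (1 - a) * (a / A * (D x * ∏ j, f (x j) ^ r₀)
        + (1 - a) / B * (D x * ∏ j, f (x j) ^ r₁)) := by
    intro x
    have hx : 0 < ∏ j, f (x j) := Finset.prod_pos fun j _ => hf.toPos.pos _
    simp only [Real.finsetProd_rpow _ _ fun j _ => (hf.toPos.pos (x j)).le]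
    generalize ∏ j, f (x j) = u at hx
    have h2 := Real.geom_mean_le_arith_mean2_weighted (p₁ := u ^ r₀ / A) (p₂ := u ^ r₁ / B)
      ha hb (by positivity) (by positivity) (by ring)
    have e : u ^ (a * r₀ + (1 - a) * r₁)
        = A ^ a * B ^ (1 - a) * ((u ^ r₀ / A) ^ a * (u ^ r₁ / B) ^ (1 - a)) := by
      rw [Real.div_rpow (by positivity) hA.le, Real.div_rpow (by positivity) hB.le,
        ← Real.rpow_mul hx.le, ← Real.rpow_mul hx.le, Real.rpow_add hx, mul_comm r₀, mul_comm r₁]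
      field_simp
    rw [e]
    have h3 := mul_le_mul_of_nonneg_left (mul_le_mul_of_nonneg_left h2 hK.le) (D_nonneg x)
    refine h3.trans_eq ?_
    ring
  have i0 := (hint r₀ h₀).const_mul (a / A)
  have i1 := (hint r₁ h₁).const_mul ((1 - a) / B)
  have h3 := integral_mono (hint _ hr) ((i0.add i1).const_mul (A ^ a * B ^ (1 - a))) hp
  simp only [Pi.add_apply] at h3
  unfold Wm at hAe hBe hC ⊢
  rw [integral_const_mul, integral_add i0 i1, integral_const_mul, integral_const_mul, hAe, hBe,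
    div_mul_cancel₀ _ hA.ne', div_mul_cancel₀ _ hB.ne', add_sub_cancel, mul_one] at h3
  refine (Real.log_le_log hC h3).trans_eq ?_
  rw [Real.log_mul (by positivity) (by positivity), Real.log_rpow hA, Real.log_rpow hB]

theorem Gap_sk_le {m i : ℕ} (hm : finrank ℝ V = m + 1) (hi : 1 ≤ i) (him : i ≤ m) {f : V → ℝ}
    (hf : Den f) : Gap (((m : ℝ) + 1) / i) (sk i f)
      ≤ i * ((m : ℝ) + 2 - i) / ((m : ℝ) + 1 - i) ^ 2 * Gap (((m : ℝ) + 1) / i) f := by
  have h1 : 1 ≤ m := hi.trans him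
  have hi' : (1 : ℝ) ≤ i := by exact_mod_cast hi
  have him' : (i : ℝ) ≤ m := by exact_mod_cast him
  have hm0 : (0 : ℝ) < m := by linarith
  have hi0 : (0 : ℝ) < i := by linarith
  have hq : (0 : ℝ) < m + 1 - i := by linarith
  have hE : 0 < ∫ x, D x ∂(γk V i) := integral_D_pos (by omega)
  set Q : ℝ := ((m : ℝ) + 1) / i with hQ
  have hQ0 : 0 < Q := by positivity
  have hQ1 : 1 < Q := by rw [hQ, lt_div_iff₀ hi0]; linarith
  have hg := den_sk hm h1 him hf
  -- the function `ζ`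
  set ζ : ℝ → ℝ := fun r => Real.log (∫ y, sk i (fun x => f x ^ r) y ∂(stdGaussian V)) with hζ
  have hpos : ∀ r : ℝ, 0 ≤ r → 0 < ∫ y, sk i (fun x => f x ^ r) y ∂(stdGaussian V) := fun r hr =>
    holder_pos (den_sk hm h1 him (hf.rpow hr)).toPos
  have hW : ∀ r : ℝ, 0 ≤ r →
      Real.log (Wm i f r) = ζ r + Real.log (∫ x, D x ∂(γk V i)) := fun r hr => by
    rw [Wm_eq hm h1 him hf hr, Real.log_mul (hpos r hr).ne' hE.ne']
  have e1 : Lm (sk i f) 1 = ζ 1 := by simp [Lm, hζ]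
  have hU : (i : ℝ) * Lm (sk i f) Q ≤ m * ζ (((m : ℝ) + 1) / m) := by
    have := Real.log_le_log (pow_pos (holder_pos (hg.toPos.rpow hQ0.le)) i)
      (sk_norm_le hm hi him hf)
    rwa [Real.log_pow, Real.log_pow] at this
  have hAF : ζ Q ≤ i * Lm f Q := by
    have := Real.log_le_log (hpos Q hQ0.le) (integral_sk_le hm h1 him (hf.rpow hQ0.le))
    rwa [Real.log_pow] at this
  have hL : (i : ℝ) * (Lm f (((m : ℝ) + 1) / (m + 2)) / (((m : ℝ) + 1) / (m + 2))) ≤ ζ 1 := by
    have h2 := brs hm (by omega) i 1 hf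
    simp only [pow_one] at h2
    rw [← bp_mass hm h1 him hf, mul_comm] at h2
    have h3 := le_of_mul_le_mul_right h2 hE
    push_cast at h3
    rw [show (m : ℝ) + 1 + 1 = m + 2 by ring] at h3
    have hp := holder_pos (hf.toPos.rpow (r := ((m : ℝ) + 1) / (m + 2)) (by positivity))
    have h4 := Real.log_le_log (Real.rpow_pos_of_pos hp _) h3
    rw [Real.log_rpow hp] at h4
    have e : ζ 1 = Real.log (∫ y, sk i f y ∂(stdGaussian V)) := by simp [hζ]
    rw [e]
    refine le_of_eq_of_le ?_ h4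
    unfold Lm
    field_simp
  have hC := Wm_convex hm h1 him hf (r₀ := Q) (r₁ := 1) (a := i / ((m + 1 - i) * m)) hQ0.le
    zero_le_one (by positivity) (by rw [div_le_one (by positivity)]; nlinarith)
  rw [show (i : ℝ) / ((m + 1 - i) * m) * Q + (1 - i / ((m + 1 - i) * m)) * 1 = (m + 1) / m by
    rw [hQ]; field_simp; ring, hW _ (by positivity), hW _ hQ0.le, hW _ zero_le_one] at hC
  have h3 := three_point hf.toPos (p := ((m : ℝ) + 1) / (m + 2)) (by positivity)
    (by rw [div_le_one (by positivity)]; linarith) hQ1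
  have e2 : (Q - ((m : ℝ) + 1) / (m + 2)) / (((m : ℝ) + 1) / (m + 2) * (Q - 1))
      = ((m : ℝ) + 2 - i) / (m + 1 - i) := by
    rw [hQ]
    field_simp
  rw [e2] at h3
  -- assemble
  have s1 : Lm (sk i f) Q / Q ≤ m / (m + 1) * ζ (((m : ℝ) + 1) / m) := by
    have : Lm (sk i f) Q / Q = (i * Lm (sk i f) Q) / (m + 1) := by rw [hQ]; field_simp
    rw [this, div_le_iff₀ (by positivity)]
    refine hU.trans_eq ?_
    field_simp
  have s2 : m / (m + 1) * ζ (((m : ℝ) + 1) / m) - ζ 1 ≤ (ζ Q / Q - ζ 1) / (m + 1 - i) := by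
    have hC' : ζ (((m : ℝ) + 1) / m)
        ≤ i / ((m + 1 - i) * m) * ζ Q + (1 - i / ((m + 1 - i) * m)) * ζ 1 := by linarith
    have := mul_le_mul_of_nonneg_left hC' (by positivity : (0 : ℝ) ≤ m / (m + 1))
    refine (sub_le_sub_right this _).trans_eq ?_
    rw [hQ]
    field_simp
    ring
  have s3 : ζ Q / Q ≤ i * (Lm f Q / Q) := by
    rw [← mul_div_assoc]
    exact div_le_div_of_nonneg_right hAF hQ0.le
  have s4 : ζ Q / Q - ζ 1 ≤ i * (((m : ℝ) + 2 - i) / (m + 1 - i) * Gap Q f) := by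
    have := mul_le_mul_of_nonneg_left h3 hi0.le
    linarith
  have s5 := div_le_div_of_nonneg_right s4 hq.le
  calc Gap Q (sk i f) = Lm (sk i f) Q / Q - ζ 1 := by rw [Gap, e1]
    _ ≤ i * (((m : ℝ) + 2 - i) / (m + 1 - i) * Gap Q f) / (m + 1 - i) := by linarith
    _ = _ := by field_simp

theorem classification_half {i : ℕ} (hi : 1 ≤ i) (hn : 2 * i < finrank ℝ V) {K : Set V}
    (hK : IsCompact K) (hint : (interior K).Nonempty) :
    (∃ (x : V) (lam : ℝ), 0 < lam ∧ K = x +ᵥ lam • projBody i (projBody i K)) ↔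
      ∃ (x : V) (r : ℝ), K = Metric.closedBall x r := by
  obtain ⟨m, hm⟩ : ∃ m, finrank ℝ V = m + 1 := ⟨finrank ℝ V - 1, by omega⟩
  have him : i ≤ m := by omega
  have hi' : (1 : ℝ) ≤ i := by exact_mod_cast hi
  have h2 : 2 * (i : ℝ) ≤ m := by exact_mod_cast (by omega : 2 * i ≤ m)
  have hQ : 2 ≤ ((m : ℝ) + 1) / i := by
    rw [le_div_iff₀ (by positivity)]
    linarith
  have hq : (0 : ℝ) < m + 1 - i := by linarith
  refine classification_of hm hi him (fun _ _ _ hZ hδ hpos hlam hfix => const_of_contr hm hi him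
    (κ := i * ((m : ℝ) + 2 - i) / ((m : ℝ) + 1 - i) ^ 2) (E := Gap (((m : ℝ) + 1) / i)) ?_ ?_
    (fun f hf => Gap_nonneg hf.toPos (by linarith)) (fun f hf => Gap_sk_le hm hi him hf)
    (fun f hf _ _ hc hb => Gap_le hf.toPos (by positivity) hc hb)
    (fun _ hε => Gap_close hm (by omega) hQ hε) hZ hδ hpos hlam hfix) hK hint
  · have : (0 : ℝ) ≤ m + 2 - i := by linarith
    positivity
  · rw [div_lt_one (by positivity)]
    nlinarith

end Pool.Agent.P.MP_181257_gt
end
end
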