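import Pool.Agent.K.MP_181257_gt.C2
import Pool.Agent.P.MP_181257_gt.DefsP

-- part Pool.Agent.P.MP_181257_gt.PdDefs
section

/-! Definitions for the case `i = n - 1`. -/

set_option autoImplicit false
set_option linter.unusedSectionVars false
set_option linter.unusedVariables false

open MeasureTheory ProbabilityTheory Module Set Filter Topology Function
open scoped RealInnerProductSpace ENNReal Pointwise LinearAlgebra.Projectivization

noncomputable section

namespace Pool.Agent.P.MP_181257_gt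

variable {V : Type} [NormedAddCommGroup V] [InnerProductSpace ℝ V] [FiniteDimensional ℝ V]
  [MeasurableSpace V] [BorelSpace V] {ι : Type} [Fintype ι] [DecidableEq ι]

/-- support function of the zonoid of a measure -/
def Hm (μ : Measure V) (u : V) : ℝ := ∫ x, |⟪u, x⟫| ∂μ

/-- product of copies of a measure -/
abbrev pw (μ : Measure V) (ι : Type) [Fintype ι] : Measure (ι → V) := Measure.pi fun _ : ι => μ

/-- the vector representing `u ↦ det (x with x j := u)` -/
def Nv (b : Basis ι ℝ V) (j : ι) (x : ι → V) : V :=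
  ∑ k, b.det (update x j (stdOrthonormalBasis ℝ V k)) • stdOrthonormalBasis ℝ V k

/-- mean volume with one fixed vector -/
def Qm (b : Basis ι ℝ V) (j : ι) (μ : Measure V) (u : V) : ℝ :=
  ∫ x, |b.det (update x j u)| ∂(pw μ ι)

/-- mean volume with two fixed vectors -/
def Gm (b : Basis ι ℝ V) (j k : ι) (μ : Measure V) (u v : V) : ℝ :=
  ∫ x, |b.det (update (update x j u) k v)| ∂(pw μ ι)

/-- mean volume with one fixed vector, basis free -/
def Qd (μ : Measure V) (u : V) : ℝ :=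
  ∫ x, D (Fin.cons u x : Fin (finrank ℝ V - 1 + 1) → V) ∂(mk μ (finrank ℝ V - 1))

/-- spanning probability measures with a first moment -/
structure Good (μ : Measure V) : Prop where
  mom : Mom μ
  zero : μ {0} = 0
  pos : ∀ u, u ≠ 0 → 0 < Hm μ u

/-- `ν` generates the projection body of the zonoid of `μ` -/
def Half (μ ν : Measure V) : Prop := ∃ a : ℝ, 0 < a ∧ ∀ u, Hm ν u = a * Qd μ u

/-- a fixed pair -/
structure Pair (μ ν : Measure V) : Prop where
  gl : Good μ
  gr : Good ν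
  hl : Half μ ν
  hr : Half ν μ

theorem Pair.symm {μ ν : Measure V} (h : Pair μ ν) : Pair ν μ := ⟨h.gr, h.gl, h.hr, h.hl⟩

/-- normalised restriction to a subspace -/
def res (μ : Measure V) (E : Submodule ℝ V) : Measure E :=
  (μ E)⁻¹ • μ.comap (Subtype.val : E → V)

/-- the measure lives on two complementary subspaces -/
def Splits (μ : Measure V) : Prop :=
  ∃ E F : Submodule ℝ V, IsCompl E F ∧ E ≠ ⊥ ∧ F ≠ ⊥ ∧ μ ((E : Set V) ∪ (F : Set V))ᶜ = 0

/-- the set lies in two complementary subspaces -/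
def SplitsS (A : Set V) : Prop :=
  ∃ E F : Submodule ℝ V, IsCompl E F ∧ E ≠ ⊥ ∧ F ≠ ⊥ ∧ A ⊆ (E : Set V) ∪ (F : Set V)

/-- the cone over a set -/
def cone (O : Set V) : Set V := {x | ∃ t : ℝ, t ≠ 0 ∧ t • x ∈ O}

/-- the projective support -/
def csupp (μ : Measure V) : Set V := {z | ∀ O : Set V, IsOpen O → z ∈ O → μ (cone O) ≠ 0}

/-- the lines of positive mass -/
def atoms (μ : Measure V) : Set V := {z | z = 0 ∨ μ ((ℝ ∙ z : Submodule ℝ V) : Set V) ≠ 0}

/-- the measure lives on countably many lines -/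
def Atomic (μ : Measure V) : Prop :=
  ∃ S : Set V, S.Countable ∧ μ (⋃ z ∈ S, ((ℝ ∙ z : Submodule ℝ V) : Set V))ᶜ = 0

/-- the subspace is spanned by its points in `A` -/
def Sp (A : Set V) (U : Submodule ℝ V) : Prop := U ≤ Submodule.span ℝ (A ∩ (U : Set V))

/-- closed pairs of cones -/
structure Cl (A A' : Set V) : Prop where
  sl : ∀ (t : ℝ) z, z ∈ A → t • z ∈ A
  sr : ∀ (t : ℝ) z, z ∈ A' → t • z ∈ A'
  tl : Submodule.span ℝ A = ⊤
  tr : Submodule.span ℝ A' = ⊤
  dl : ∀ w, w ≠ 0 → Sp A (ℝ ∙ w)ᗮ → w ∈ A'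
  dr : ∀ w, w ≠ 0 → Sp A' (ℝ ∙ w)ᗮ → w ∈ A

theorem Cl.symm {A A' : Set V} (h : Cl A A') : Cl A' A := ⟨h.sr, h.sl, h.tr, h.tl, h.dr, h.dl⟩

/-- essential flats -/
structure Flat (μ : Measure V) (e : V → Submodule ℝ V) : Prop where
  count : (range e).Countable
  meas : ∀ E, MeasurableSet {x | e x = E}
  mem : ∀ x, x ∈ e x
  smul : ∀ (t : ℝ) x, t ≠ 0 → e (t • x) = e x
  gen : ∀ F : Submodule ℝ V, μ {x | x ∈ F ∧ ¬ e x ≤ F} = 0

/-- a plane with an orthonormal basis -/
structure Pl (V : Type) [NormedAddCommGroup V] [InnerProductSpace ℝ V] where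
  p : V
  q : V
  hp : ‖p‖ = 1
  hq : ‖q‖ = 1
  hpq : ⟪p, q⟫ = 0

/-- the plane as a subspace -/
def Pl.sp (π : Pl V) : Submodule ℝ V := Submodule.span ℝ {π.p, π.q}

/-- projection on the plane followed by a quarter turn -/
def Pl.J (π : Pl V) (x : V) : V := ⟪x, π.q⟫ • π.p - ⟪x, π.p⟫ • π.q

/-- the product of the cosines of the angles between two planes -/
def gp (l π : Pl V) : ℝ := |⟪l.p, π.p⟫ * ⟪l.q, π.q⟫ - ⟪l.p, π.q⟫ * ⟪l.q, π.p⟫|

/-- weight of the families spanning the orthogonal complement of a plane -/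
def Mp (b : Basis ι ℝ V) (j k : ι) (μ : Measure V) (π : Pl V) : ℝ :=
  ∫ y in {y : ι → V | ∀ i, i ≠ j → i ≠ k → y i ∈ π.spᗮ},
    |b.det (update (update y j π.p) k π.q)| ∂(pw μ ι)

/-- weight of a line -/
def aL (μ ν : Measure V) (x : ℙ ℝ V) : ℝ := ∫ z in (x.submodule : Set V), Hm ν z ∂μ

/-- mass sent from a line to the pencil of a plane -/
def Rp (b : Basis ι ℝ V) (j k : ι) (μ : Measure V) (π : Pl V) (x : V) : ℝ :=
  ((Fintype.card ι : ℝ) - 1) * Mp b j k μ π * Hm μ (π.J x) / Qm b j μ x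

/-- transition weight between planes -/
def tp (b : Basis ι ℝ V) (j k : ι) (μ : Measure V) (l π : Pl V) : ℝ :=
  gp l π * Mp b j k μ π / Gm b j k μ l.p l.q

/-- the perspectivity -/
def persp (π : Pl V) (x : ℙ ℝ V) : ℙ ℝ V := by
  classical
  exact if h : π.J x.rep = 0 then x else Projectivization.mk ℝ (π.J x.rep) h

/-- the truncated power -/
def Psi (L s r : ℝ) : ℝ := min (L * r) (r ^ s)

end Pool.Agent.P.MP_181257_gt
end
end

-- part Pool.Agent.P.MP_181257_gt.PdG5
section

set_option autoImplicit false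
set_option linter.unusedSectionVars false
set_option linter.unusedVariables false

open MeasureTheory ProbabilityTheory Module Set Filter Topology Function
open scoped RealInnerProductSpace ENNReal Pointwise LinearAlgebra.Projectivization

noncomputable section

namespace Pool.Agent.P.MP_181257_gt

variable {V : Type} [NormedAddCommGroup V] [InnerProductSpace ℝ V] [FiniteDimensional ℝ V]
  [MeasurableSpace V] [BorelSpace V] {ι : Type} [Fintype ι] [DecidableEq ι]

theorem Psi_nonneg {L s r : ℝ} (hL : 0 ≤ L) (hr : 0 ≤ r) : 0 ≤ Psi L s r :=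
  le_min (mul_nonneg hL hr) (Real.rpow_nonneg hr s)

theorem Psi_mono {L s r r' : ℝ} (hL : 0 ≤ L) (hs : 0 ≤ s) (hr : 0 ≤ r) (h : r ≤ r') :
    Psi L s r ≤ Psi L s r' :=
  min_le_min (mul_le_mul_of_nonneg_left h hL) (Real.rpow_le_rpow hr h hs)

theorem Psi_scale {L s r ρ : ℝ} (hL : 0 ≤ L) (hs1 : s ≤ 1) (hr : 0 ≤ r) (hρ : 1 ≤ ρ) :
    ρ ^ s * Psi L s r ≤ Psi L s (ρ * r) := by
  have h0 : 0 ≤ ρ := zero_le_one.trans hρ
  have h1 : ρ ^ s ≤ ρ := by
    have := Real.rpow_le_rpow_of_exponent_le hρ hs1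
    rwa [Real.rpow_one] at this
  refine le_min ?_ ?_
  · calc ρ ^ s * Psi L s r ≤ ρ * (L * r) :=
          mul_le_mul h1 (min_le_left _ _) (Psi_nonneg hL hr) h0
      _ = L * (ρ * r) := by ring
  · rw [Real.mul_rpow h0 hr]
    exact mul_le_mul_of_nonneg_left (min_le_right _ _) (Real.rpow_nonneg h0 s)

theorem rpow_tangent_PdG5 {s r m : ℝ} (hs0 : 0 ≤ s) (hs1 : s ≤ 1) (hr : 0 ≤ r) (hm : 0 < m) :
    r ^ s ≤ m ^ s * (1 - s) + s * (m ^ s / m) * r := by
  have h := rpow_one_add_le_one_add_mul_self (s := r / m - 1)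
    (by have := div_nonneg hr hm.le; linarith) hs0 hs1
  have e : 1 + (r / m - 1) = r / m := by ring
  rw [e, Real.div_rpow hr hm.le, div_le_iff₀ (Real.rpow_pos_of_pos hm s)] at h
  refine h.trans_eq ?_
  field_simp
  ring

theorem Psi_jensen {I : Type} (T : Finset I) {w r : I → ℝ} {L s : ℝ} (hs0 : 0 < s) (hs1 : s ≤ 1)
    (hw : ∀ i ∈ T, 0 ≤ w i) (hr : ∀ i ∈ T, 0 ≤ r i) (hW : ∑ i ∈ T, w i ≤ 1) :
    ∑ i ∈ T, w i * Psi L s (r i) ≤ Psi L s (∑ i ∈ T, w i * r i) := by
  refine le_min ?_ ?_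
  · rw [Finset.mul_sum]
    refine Finset.sum_le_sum fun i hi => ?_
    calc w i * Psi L s (r i) ≤ w i * (L * r i) :=
          mul_le_mul_of_nonneg_left (min_le_left _ _) (hw i hi)
      _ = L * (w i * r i) := by ring
  · have h1 : ∑ i ∈ T, w i * Psi L s (r i) ≤ ∑ i ∈ T, w i * r i ^ s :=
      Finset.sum_le_sum fun i hi => mul_le_mul_of_nonneg_left (min_le_right _ _) (hw i hi)
    refine h1.trans ?_
    set m := ∑ i ∈ T, w i * r i with hm
    have hm0 : 0 ≤ m := Finset.sum_nonneg fun i hi => mul_nonneg (hw i hi) (hr i hi)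
    rcases hm0.eq_or_lt with h0 | h0
    · have h2 := (Finset.sum_eq_zero_iff_of_nonneg
        fun i hi => mul_nonneg (hw i hi) (hr i hi)).1 (hm.symm.trans h0.symm)
      refine le_trans (le_of_eq (Finset.sum_eq_zero fun i hi => ?_)) (Real.rpow_nonneg hm0 s)
      rcases mul_eq_zero.1 (h2 i hi) with e | e
      · rw [e, zero_mul]
      · rw [e, Real.zero_rpow hs0.ne', mul_zero]
    · have hp := Real.rpow_pos_of_pos h0 s
      calc ∑ i ∈ T, w i * r i ^ s
          ≤ ∑ i ∈ T, (m ^ s * (1 - s) * w i + s * (m ^ s / m) * (w i * r i)) := by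
            refine Finset.sum_le_sum fun i hi => ?_
            refine (mul_le_mul_of_nonneg_left (rpow_tangent_PdG5 hs0.le hs1 (hr i hi) h0)
              (hw i hi)).trans_eq ?_
            ring
        _ = m ^ s * (1 - s) * ∑ i ∈ T, w i + s * (m ^ s / m) * m := by
            rw [Finset.sum_add_distrib, ← Finset.mul_sum, ← Finset.mul_sum]
        _ ≤ m ^ s * (1 - s) * 1 + s * (m ^ s / m) * m := by
            gcongr
        _ = m ^ s := by
            field_simp
            ring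

theorem gain_PdG5 {s t R : ℝ} (hs0 : 0 ≤ s) (ht : 0 < t) (hR : t ≤ R) :
    t + s / 2 * min (R - t) t ≤ t * (R / t) ^ s := by
  set x := min (R / t) 2 with hx
  have h1 : 1 ≤ R / t := (one_le_div ht).2 hR
  have hx1 : 1 ≤ x := le_min h1 (by norm_num)
  have hx2 : x ≤ 2 := min_le_right _ _
  have hx0 : 0 < x := by linarith
  have e : min (R - t) t = t * (x - 1) := by
    rcases le_total (R / t) 2 with h | h
    · rw [hx, min_eq_left h, min_eq_left]
      · field_simp
      · rw [div_le_iff₀ ht] at h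
        linarith
    · rw [hx, min_eq_right h, min_eq_right]
      · ring
      · rw [le_div_iff₀ ht] at h
        linarith
  have h2 : x ^ s ≤ (R / t) ^ s := Real.rpow_le_rpow hx0.le (min_le_left _ _) hs0
  have h3 : 1 + s * Real.log x ≤ x ^ s := by
    rw [Real.rpow_def_of_pos hx0]
    have := Real.add_one_le_exp (Real.log x * s)
    linarith
  have h4 : (x - 1) / 2 ≤ Real.log x := by
    refine le_trans ?_ (Real.one_sub_inv_le_log_of_pos hx0)
    have : 1 - x⁻¹ = (x - 1) / x := by field_simp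
    rw [this]
    exact div_le_div_of_nonneg_left (by linarith) hx0 hx2
  have h5 := mul_le_mul_of_nonneg_left h4 hs0
  rw [e]
  have h6 : 1 + s / 2 * (x - 1) ≤ (R / t) ^ s := by linarith
  have := mul_le_mul_of_nonneg_left h6 ht.le
  linarith

/-- item (iv): the abstract double counting -/
theorem core_half {P I J : Type} (I₀ : Finset I) (J₀ : Finset J) (X : I → Set P) (Y : J → Set P)
    (a b : P → ℝ) (β : I → ℝ) (α : J → ℝ) (τ : I → J → ℝ) (σ : I → P → P) (R : J → P → ℝ)
    (Ex : Finset P) {Z s δ L : ℝ} (hs0 : 0 < s) (hs1 : s ≤ 1) (hδ : 0 ≤ δ) (hL : 0 ≤ L)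
    (ha : ∀ x, 0 ≤ a x ∧ a x ≤ Z) (hβ : ∀ i ∈ I₀, 0 < β i) (hα : ∀ j ∈ J₀, 0 < α j)
    (hτ : ∀ i j, 0 ≤ τ i j) (hsum : ∀ j ∈ J₀, ∑ i ∈ I₀, τ i j ≤ α j)
    (hσ : ∀ i ∈ I₀, ∀ j ∈ J₀, τ i j ≠ 0 → BijOn (σ i) (Y j) (X i))
    (hEx : ∀ i ∈ I₀, ∀ i' ∈ I₀, i ≠ i' → ∀ x, x ∈ X i → x ∈ X i' → x ∈ Ex)
    (hb : ∀ j ∈ J₀, ∀ v ∈ Y j, ∀ S : Finset P,
      (∀ x ∈ S, ∃ i ∈ I₀, τ i j ≠ 0 ∧ x = σ i v) → ∑ x ∈ S, R j x * a x ≤ b v)
    (hR : ∀ i ∈ I₀, ∀ j ∈ J₀, ∀ x ∈ X i, τ i j / β i ≤ R j x)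
    (hg : ∀ i ∈ I₀, ∀ x ∈ X i,
      1 + δ ≤ ∑ j ∈ J₀, (τ i j / β i + s / 2 * min (R j x - τ i j / β i) (τ i j / β i))) :
    ENNReal.ofReal (1 + δ) *
        ∑ i ∈ I₀, ENNReal.ofReal (β i) * ∑' x : X i, ENNReal.ofReal (Psi L s (a x / β i))
      ≤ ∑ j ∈ J₀, ENNReal.ofReal (α j) * ∑' v : Y j, ENNReal.ofReal (Psi L s (b v / α j))
        + ENNReal.ofReal ((1 + δ) * ∑ i ∈ I₀, β i * (Ex.card * (Z / β i) ^ s)) := by
  classical
  set c : I → J → P → ℝ := fun i j x => if τ i j ≠ 0 ∧ x ∉ Ex then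
    τ i j * ((R j x / (τ i j / β i)) ^ s * Psi L s (a x / β i)) else 0 with hc
  have hP : ∀ i ∈ I₀, ∀ x, 0 ≤ Psi L s (a x / β i) := fun i hi x =>
    Psi_nonneg hL (div_nonneg (ha x).1 (hβ i hi).le)
  have hρ : ∀ i ∈ I₀, ∀ j ∈ J₀, τ i j ≠ 0 → ∀ x ∈ X i, 1 ≤ R j x / (τ i j / β i) :=
    fun i hi j hj h x hx =>
      (one_le_div (div_pos ((hτ i j).lt_of_ne' h) (hβ i hi))).2 (hR i hi j hj x hx)
  have hc0 : ∀ i ∈ I₀, ∀ j ∈ J₀, ∀ x, (τ i j ≠ 0 → x ∈ X i) → 0 ≤ c i j x := by
    intro i hi j hj x hx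
    simp only [hc]
    split_ifs with h
    · exact mul_nonneg (hτ i j) (mul_nonneg (Real.rpow_nonneg
        (zero_le_one.trans (hρ i hi j hj h.1 x (hx h.1))) s) (hP i hi x))
    · exact le_rfl
  have hA : ∀ j ∈ J₀, ∀ v ∈ Y j, ∑ i ∈ I₀, c i j (σ i v) ≤ α j * Psi L s (b v / α j) := by
    intro j hj v hv
    set T := I₀.filter fun i => τ i j ≠ 0 ∧ σ i v ∉ Ex with hT
    have hTm : ∀ i ∈ T, i ∈ I₀ ∧ τ i j ≠ 0 ∧ σ i v ∉ Ex := fun i hi => Finset.mem_filter.1 hi
    have hX : ∀ i ∈ T, σ i v ∈ X i := fun i hi =>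
      (hσ i (hTm i hi).1 j hj (hTm i hi).2.1).mapsTo hv
    have hα0 := hα j hj
    have hinj : ∀ i ∈ T, ∀ i' ∈ T, σ i v = σ i' v → i = i' := fun i hi i' hi' e => by
      by_contra hne
      exact (hTm i hi).2.2 (hEx i (hTm i hi).1 i' (hTm i' hi').1 hne _ (hX i hi) (e ▸ hX i' hi'))
    have h1 := hb j hj v hv (T.image fun i => σ i v) fun x hx => by
      obtain ⟨i, hi, rfl⟩ := Finset.mem_image.1 hx
      exact ⟨i, (hTm i hi).1, (hTm i hi).2.1, rfl⟩
    rw [Finset.sum_image hinj] at h1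
    have hr : ∀ i ∈ T, 0 ≤ R j (σ i v) / (τ i j / β i) * (a (σ i v) / β i) := fun i hi =>
      mul_nonneg (zero_le_one.trans (hρ i (hTm i hi).1 j hj (hTm i hi).2.1 _ (hX i hi)))
        (div_nonneg (ha _).1 (hβ i (hTm i hi).1).le)
    have h2 := Psi_jensen T (w := fun i => τ i j / α j)
      (r := fun i => R j (σ i v) / (τ i j / β i) * (a (σ i v) / β i)) (L := L) hs0 hs1
      (fun i _ => div_nonneg (hτ i j) hα0.le) hr (by
        rw [← Finset.sum_div, div_le_one hα0]
        exact (Finset.sum_le_sum_of_subset_of_nonneg (Finset.filter_subset _ _)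
          fun i _ _ => hτ i j).trans (hsum j hj))
    have h3 : ∑ i ∈ T, τ i j / α j * (R j (σ i v) / (τ i j / β i) * (a (σ i v) / β i))
        = (∑ i ∈ T, R j (σ i v) * a (σ i v)) / α j := by
      rw [Finset.sum_div]
      refine Finset.sum_congr rfl fun i hi => ?_
      have := (hTm i hi).2.1
      have := (hβ i (hTm i hi).1).ne'
      field_simp
    have h4 : Psi L s (∑ i ∈ T, τ i j / α j * (R j (σ i v) / (τ i j / β i) * (a (σ i v) / β i)))
        ≤ Psi L s (b v / α j) := by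
      refine Psi_mono hL hs0.le (Finset.sum_nonneg fun i hi =>
        mul_nonneg (div_nonneg (hτ i j) hα0.le) (hr i hi)) ?_
      rw [h3]
      exact div_le_div_of_nonneg_right h1 hα0.le
    refine le_trans ?_ (mul_le_mul_of_nonneg_left (h2.trans h4) hα0.le)
    simp only [hc]
    rw [← Finset.sum_filter, Finset.mul_sum]
    refine Finset.sum_le_sum fun i hi => ?_
    have h5 := Psi_scale (s := s) hL hs1 (div_nonneg (ha (σ i v)).1 (hβ i (hTm i hi).1).le)
      (hρ i (hTm i hi).1 j hj (hTm i hi).2.1 _ (hX i hi))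
    refine (mul_le_mul_of_nonneg_left h5 (hτ i j)).trans_eq ?_
    field_simp
  have hB : ∀ i ∈ I₀, ∀ j ∈ J₀, ∑' x : X i, ENNReal.ofReal (c i j x)
      = ∑' v : Y j, ENNReal.ofReal (c i j (σ i v)) := by
    intro i hi j hj
    by_cases h : τ i j = 0
    · simp [hc, h]
    · exact ((hσ i hi j hj h).equiv.tsum_eq fun x : X i => ENNReal.ofReal (c i j x)).symm
  have hC : ∀ i ∈ I₀, ∀ x ∈ X i, (1 + δ) * (β i * Psi L s (a x / β i))
      ≤ ∑ j ∈ J₀, c i j x + if x ∈ Ex then (1 + δ) * (β i * (Z / β i) ^ s) else 0 := by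
    intro i hi x hx
    have hβ0 := hβ i hi
    split_ifs with h
    · have h1 : 0 ≤ ∑ j ∈ J₀, c i j x := Finset.sum_nonneg fun j hj => hc0 i hi j hj x fun _ => hx
      have h2 : Psi L s (a x / β i) ≤ (Z / β i) ^ s := (min_le_right _ _).trans
        (Real.rpow_le_rpow (div_nonneg (ha x).1 hβ0.le)
          (div_le_div_of_nonneg_right (ha x).2 hβ0.le) hs0.le)
      have h3 : (1 + δ) * (β i * Psi L s (a x / β i)) ≤ (1 + δ) * (β i * (Z / β i) ^ s) := by
        gcongr
      linarith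
    · rw [add_zero]
      refine (mul_le_mul_of_nonneg_right (hg i hi x hx) (mul_nonneg hβ0.le (hP i hi x))).trans ?_
      rw [Finset.sum_mul]
      refine Finset.sum_le_sum fun j hj => ?_
      by_cases h0 : τ i j = 0
      · have h1 := hR i hi j hj x hx
        simp only [hc, h0, zero_div, sub_zero] at h1 ⊢
        rw [min_eq_right h1]
        simp
      · have h1 := gain_PdG5 hs0.le (div_pos ((hτ i j).lt_of_ne' h0) hβ0) (hR i hi j hj x hx)
        refine (mul_le_mul_of_nonneg_right h1 (mul_nonneg hβ0.le (hP i hi x))).trans_eq ?_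
        simp only [hc]
        rw [if_pos ⟨h0, h⟩]
        field_simp
  have hZ : ∀ i ∈ I₀, 0 ≤ β i * (Ex.card * (Z / β i) ^ s) := by
    intro i hi
    rcases Ex.eq_empty_or_nonempty with e | ⟨x, -⟩
    · simp [e]
    · have := hβ i hi
      have := Real.rpow_nonneg (div_nonneg ((ha x).1.trans (ha x).2) (hβ i hi).le) s
      positivity
  have hD : ∀ i ∈ I₀, ENNReal.ofReal (1 + δ) *
      (ENNReal.ofReal (β i) * ∑' x : X i, ENNReal.ofReal (Psi L s (a x / β i)))
      ≤ ∑ j ∈ J₀, ∑' x : X i, ENNReal.ofReal (c i j x)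
        + ENNReal.ofReal ((1 + δ) * (β i * (Ex.card * (Z / β i) ^ s))) := by
    intro i hi
    have hβ0 := hβ i hi
    rw [← ENNReal.tsum_mul_left, ← ENNReal.tsum_mul_left,
      ← Summable.tsum_finsetSum fun _ _ => ENNReal.summable]
    have h1 : ∑' x : X i, ENNReal.ofReal (if (x : P) ∈ Ex then (1 + δ) * (β i * (Z / β i) ^ s)
        else 0) ≤ ENNReal.ofReal ((1 + δ) * (β i * (Ex.card * (Z / β i) ^ s))) := by
      refine (ENNReal.tsum_comp_le_tsum_of_injective Subtype.val_injective fun x : P =>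
        ENNReal.ofReal (if x ∈ Ex then (1 + δ) * (β i * (Z / β i) ^ s) else 0)).trans ?_
      rw [tsum_eq_sum (s := Ex) fun x hx => by simp [hx],
        Finset.sum_congr rfl fun x hx => by rw [if_pos hx], Finset.sum_const, nsmul_eq_mul,
        ← ENNReal.ofReal_natCast, ← ENNReal.ofReal_mul (Nat.cast_nonneg _)]
      exact ENNReal.ofReal_le_ofReal (le_of_eq (by ring))
    refine le_trans ?_ (add_le_add le_rfl h1)
    rw [← ENNReal.tsum_add]
    refine ENNReal.tsum_le_tsum fun x => ?_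
    rw [← ENNReal.ofReal_mul hβ0.le, ← ENNReal.ofReal_mul (by linarith),
      ← ENNReal.ofReal_sum_of_nonneg fun j hj => hc0 i hi j hj x fun _ => x.2]
    exact (ENNReal.ofReal_le_ofReal (hC i hi x x.2)).trans ENNReal.ofReal_add_le
  rw [Finset.mul_sum]
  refine (Finset.sum_le_sum hD).trans ?_
  rw [Finset.sum_add_distrib, Finset.sum_comm, Finset.mul_sum,
    ENNReal.ofReal_sum_of_nonneg fun i hi => mul_nonneg (by linarith) (hZ i hi)]
  refine add_le_add (Finset.sum_le_sum fun j hj => ?_) le_rfl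
  rw [Finset.sum_congr rfl fun i hi => hB i hi j hj,
    ← Summable.tsum_finsetSum fun _ _ => ENNReal.summable, ← ENNReal.tsum_mul_left]
  refine ENNReal.tsum_le_tsum fun v => ?_
  rw [← ENNReal.ofReal_mul (hα j hj).le, ← ENNReal.ofReal_sum_of_nonneg fun i hi =>
    hc0 i hi j hj _ fun h => (hσ i hi j hj h).mapsTo v.2]
  exact ENNReal.ofReal_le_ofReal (hA j hj v v.2)

end Pool.Agent.P.MP_181257_gt
end
end

-- part Pool.Agent.P.MP_181257_gt.PdG5b
section

set_option autoImplicit false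
set_option linter.unusedSectionVars false
set_option linter.unusedVariables false

open MeasureTheory ProbabilityTheory Module Set Filter Topology Function
open scoped RealInnerProductSpace ENNReal Pointwise LinearAlgebra.Projectivization

noncomputable section

namespace Pool.Agent.P.MP_181257_gt

variable {V : Type} [NormedAddCommGroup V] [InnerProductSpace ℝ V] [FiniteDimensional ℝ V]
  [MeasurableSpace V] [BorelSpace V] {ι : Type} [Fintype ι] [DecidableEq ι]

/-- from the two inequalities to a bound on finite sums of powers -/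
theorem core_end {P : Type} (X : Set P) (a : P → ℝ) (ha : ∀ x, 0 ≤ a x) {β s δ δ' C C' : ℝ}
    (hβ : 0 < β) (hs0 : 0 < s) (hs1 : s ≤ 1) (hδ : 0 < δ) (hδ' : 0 ≤ δ') (F G : ℝ → ℝ≥0∞)
    (hF : ∀ L, 0 ≤ L → F L ≠ ∞)
    (h1 : ∀ L, 0 ≤ L → ENNReal.ofReal (1 + δ) * F L ≤ G L + ENNReal.ofReal C)
    (h2 : ∀ L, 0 ≤ L → ENNReal.ofReal (1 + δ') * G L ≤ F L + ENNReal.ofReal C')
    (h3 : ∀ L, 0 ≤ L →
      ENNReal.ofReal β * ∑' x : X, ENNReal.ofReal (Psi L s (a x / β)) ≤ F L) :
    ∃ B : ℝ, ∀ S : Finset P, (S : Set P) ⊆ X → ∑ x ∈ S, a x ^ s ≤ B := by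
  have key : ∀ L, 0 ≤ L → F L ≤ ENNReal.ofReal ((max C 0 + max C' 0) / δ) := by
    intro L hL
    have g1 : G L ≤ F L + ENNReal.ofReal C' := by
      refine le_trans ?_ (h2 L hL)
      refine le_mul_of_one_le_left' ?_
      rw [← ENNReal.ofReal_one]
      exact ENNReal.ofReal_le_ofReal (by linarith)
    have g2 : ENNReal.ofReal (1 + δ) * F L ≤
        F L + ENNReal.ofReal (max C' 0) + ENNReal.ofReal (max C 0) := by
      refine (h1 L hL).trans (add_le_add (g1.trans (add_le_add le_rfl ?_)) ?_)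
      · exact ENNReal.ofReal_le_ofReal (le_max_left _ _)
      · exact ENNReal.ofReal_le_ofReal (le_max_left _ _)
    rw [← ENNReal.ofReal_toReal (hF L hL)] at g2 ⊢
    have f0 : 0 ≤ (F L).toReal := ENNReal.toReal_nonneg
    have m1 : 0 ≤ max C 0 := le_max_right _ _
    have m2 : 0 ≤ max C' 0 := le_max_right _ _
    rw [← ENNReal.ofReal_mul (by linarith), ← ENNReal.ofReal_add f0 m2,
      ← ENNReal.ofReal_add (by linarith) m1, ENNReal.ofReal_le_ofReal_iff (by linarith)] at g2
    refine ENNReal.ofReal_le_ofReal ?_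
    rw [le_div_iff₀ hδ]
    linarith
  refine ⟨β ^ s * ((max C 0 + max C' 0) / δ / β), fun S hS => ?_⟩
  have r0 : ∀ x, 0 ≤ a x / β := fun x => div_nonneg (ha x) hβ.le
  set L : ℝ := ∑ x ∈ S, (a x / β) ^ (s - 1) with hLdef
  have hL : 0 ≤ L := Finset.sum_nonneg fun x _ => Real.rpow_nonneg (r0 x) _
  have hP : ∀ x ∈ S, Psi L s (a x / β) = (a x / β) ^ s := by
    intro x hx
    refine min_eq_right ?_
    rcases (r0 x).eq_or_lt with h0 | h0
    · rw [← h0, Real.zero_rpow hs0.ne', mul_zero]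
    · have e1 : (a x / β) ^ s = (a x / β) ^ (s - 1) * (a x / β) := by
        rw [← Real.rpow_add_one h0.ne', sub_add_cancel]
      rw [e1]
      exact mul_le_mul_of_nonneg_right (Finset.single_le_sum
        (f := fun x => (a x / β) ^ (s - 1)) (fun x _ => Real.rpow_nonneg (r0 x) _) hx) h0.le
  have b1 : ∑ x ∈ S, ENNReal.ofReal (Psi L s (a x / β)) ≤
      ∑' x : X, ENNReal.ofReal (Psi L s (a x / β)) := by
    rw [← Finset.tsum_subtype' S fun x => ENNReal.ofReal (Psi L s (a x / β))]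
    exact ENNReal.tsum_mono_subtype (fun x => ENNReal.ofReal (Psi L s (a x / β))) hS
  have b2 : ENNReal.ofReal (β * ∑ x ∈ S, (a x / β) ^ s) ≤
      ENNReal.ofReal ((max C 0 + max C' 0) / δ) := by
    refine le_trans ?_ ((h3 L hL).trans (key L hL))
    rw [ENNReal.ofReal_mul hβ.le,
      ENNReal.ofReal_sum_of_nonneg fun x _ => Real.rpow_nonneg (r0 x) _]
    refine mul_le_mul_right (le_trans (le_of_eq ?_) b1) _
    exact Finset.sum_congr rfl fun x hx => by rw [hP x hx]
  have m0 : 0 ≤ (max C 0 + max C' 0) / δ :=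
    div_nonneg (add_nonneg (le_max_right _ _) (le_max_right _ _)) hδ.le
  rw [ENNReal.ofReal_le_ofReal_iff m0] at b2
  have e2 : ∑ x ∈ S, a x ^ s = β ^ s * ∑ x ∈ S, (a x / β) ^ s := by
    rw [Finset.mul_sum]
    refine Finset.sum_congr rfl fun x _ => ?_
    rw [← Real.mul_rpow hβ.le (r0 x), mul_div_cancel₀ _ hβ.ne']
  rw [e2]
  refine mul_le_mul_of_nonneg_left ?_ (Real.rpow_nonneg hβ.le _)
  rw [le_div_iff₀ hβ]
  linarith

end Pool.Agent.P.MP_181257_gt
end
end

-- part Pool.Agent.P.MP_181257_gt.PdA1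
section

set_option autoImplicit false
set_option linter.unusedSectionVars false
set_option linter.unusedVariables false

open MeasureTheory ProbabilityTheory Module Set Filter Topology Function
open scoped RealInnerProductSpace ENNReal Pointwise LinearAlgebra.Projectivization

noncomputable section

namespace Pool.Agent.P.MP_181257_gt

variable {V : Type} [NormedAddCommGroup V] [InnerProductSpace ℝ V] [FiniteDimensional ℝ V]
  [MeasurableSpace V] [BorelSpace V] {ι : Type} [Fintype ι] [DecidableEq ι]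

theorem inner_Nv (b : Basis ι ℝ V) (j : ι) (x : ι → V) (u : V) :
    ⟪u, Nv b j x⟫ = b.det (update x j u) := by
  have h : ∀ v, b.det (update x j v) = b.det.toMultilinearMap.toLinearMap x j v := fun v => rfl
  unfold Nv
  rw [inner_sum]
  conv_rhs => rw [h, ← (stdOrthonormalBasis ℝ V).sum_repr' u, map_sum]
  refine Finset.sum_congr rfl fun k _ => ?_
  rw [map_smul, real_inner_smul_right, h, smul_eq_mul, mul_comm, real_inner_comm]

theorem Nv_update (b : Basis ι ℝ V) (j : ι) (x : ι → V) (y : V) :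
    Nv b j (update x j y) = Nv b j x := by
  unfold Nv
  simp only [update_idem]

theorem continuous_bdet (b : Basis ι ℝ V) : Continuous fun x : ι → V => b.det x := by
  simp only [b.det_apply]
  refine Continuous.matrix_det (continuous_matrix fun i j => ?_)
  simp only [b.toMatrix_apply]
  exact (b.coord i).continuous_of_finiteDimensional.comp (continuous_apply j)

theorem continuous_Nv (b : Basis ι ℝ V) (j : ι) : Continuous (Nv b j) := by
  unfold Nv
  refine continuous_finsetSum _ fun k _ => Continuous.smul ?_ continuous_const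
  exact (continuous_bdet b).comp (continuous_id.update j continuous_const)

theorem bdet_bound (b : Basis ι ℝ V) :
    ∃ C : ℝ, 0 ≤ C ∧ ∀ x : ι → V, |b.det x| ≤ C * ∏ i, ‖x i‖ := by
  obtain ⟨C, hC, h⟩ := b.det.exists_bound_of_continuous (continuous_bdet b)
  exact ⟨C, hC.le, fun x => by simpa using h x⟩

theorem bdet_ne_zero_iff (b : Basis ι ℝ V) (x : ι → V) :
    b.det x ≠ 0 ↔ LinearIndependent ℝ x := by
  rw [← isUnit_iff_ne_zero, ← b.is_basis_iff_det]
  exact ⟨fun h => h.1, fun h => ⟨h, h.span_eq_top_of_card_eq_finrank'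
    (Module.finrank_eq_card_basis b).symm⟩⟩

theorem inner_Nv_self (b : Basis ι ℝ V) (x : ι → V) (i j : ι) :
    ⟪x i, Nv b j x⟫ = if i = j then b.det x else 0 := by
  rw [inner_Nv]
  split_ifs with h
  · rw [h, update_eq_self]
  · exact b.det.map_update_self x (Ne.symm h)

/-- Cramer's rule -/
theorem cramer_vec (b : Basis ι ℝ V) (x : ι → V) (u : V) :
    b.det x • u = ∑ j, b.det (update x j u) • x j := by
  refine b.ext_elem fun i => ?_
  have h := congrFun (Matrix.mulVec_cramer (b.toMatrix x) (b.repr u)) i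
  rw [map_smul, map_sum, Finsupp.smul_apply, Finsupp.finsetSum_apply, b.det_apply]
  rw [Pi.smul_apply] at h
  rw [← h, Matrix.mulVec, dotProduct]
  refine Finset.sum_congr rfl fun j _ => ?_
  rw [map_smul, Finsupp.smul_apply, b.det_apply, b.toMatrix_update, Matrix.cramer_apply,
    b.toMatrix_apply, smul_eq_mul, mul_comm]

theorem cramer_dual (b : Basis ι ℝ V) (x : ι → V) (w : V) :
    b.det x • w = ∑ j, ⟪x j, w⟫ • Nv b j x := by
  refine ext_inner_left ℝ fun u => ?_
  rw [real_inner_smul_right, ← real_inner_smul_left, cramer_vec, sum_inner, inner_sum]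
  refine Finset.sum_congr rfl fun j _ => ?_
  rw [real_inner_smul_left, real_inner_smul_right, inner_Nv, mul_comm]

theorem linearIndependent_Nv (b : Basis ι ℝ V) {x : ι → V} (hx : b.det x ≠ 0) :
    LinearIndependent ℝ fun j => Nv b j x := by
  rw [Fintype.linearIndependent_iff]
  intro g hg i
  have h := congrArg (fun w => ⟪x i, w⟫) hg
  simp only [inner_sum, real_inner_smul_right, inner_Nv_self, inner_zero_right, mul_ite, mul_zero,
    Finset.sum_ite_eq, Finset.mem_univ, if_true] at h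
  exact (mul_eq_zero.1 h).resolve_right hx

theorem bdet_zero_of_card (b : Basis ι ℝ V) {x : ι → V} {U : Submodule ℝ V} {S : Finset ι}
    (hS : ∀ i ∈ S, x i ∈ U) (hc : finrank ℝ U < S.card) : b.det x = 0 := by
  by_contra h
  have h1 : LinearIndependent ℝ x := (bdet_ne_zero_iff b x).1 h
  have h2 : LinearIndependent ℝ fun i : S => x i := h1.comp _ Subtype.val_injective
  have h3 : LinearIndependent ℝ fun i : S => (⟨x i, hS i i.2⟩ : U) :=
    LinearIndependent.of_comp U.subtype h2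
  have h4 := h3.fintype_card_le_finrank
  rw [Fintype.card_coe] at h4
  omega

theorem Nv_smul (b : Basis ι ℝ V) (j : ι) (x : ι → V) (t : ι → ℝ) :
    Nv b j (fun i => t i • x i) = (∏ i ∈ Finset.univ.erase j, t i) • Nv b j x := by
  refine ext_inner_left ℝ fun u => ?_
  rw [real_inner_smul_right, inner_Nv, inner_Nv]
  have e : update (fun i => t i • x i) j u = fun i => update t j 1 i • update x j u i := by
    funext i
    by_cases h : i = j
    · subst h; simp
    · simp [update_of_ne h]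
  rw [e, b.det.map_smul_univ, Finset.prod_update_of_mem (Finset.mem_univ j), one_mul,
    Finset.sdiff_singleton_eq_erase, smul_eq_mul]

theorem abs_bdet_perm (b : Basis ι ℝ V) (x : ι → V) (σ : Equiv.Perm ι) :
    |b.det (x ∘ σ)| = |b.det x| := by
  rw [b.det.map_perm]
  rcases Int.units_eq_one_or (Equiv.Perm.sign σ) with h | h <;> simp [h]

/-- `y ↦ Nv b j (update x k y)` is linear for `k ≠ j` -/
theorem exists_linear_Nv (b : Basis ι ℝ V) {j k : ι} (hjk : j ≠ k) (x : ι → V) :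
    ∃ T : V →ₗ[ℝ] V, ∀ y, T y = Nv b j (update x k y) := by
  refine ⟨⟨⟨fun y => Nv b j (update x k y), fun y y' => ?_⟩, fun c y => ?_⟩, fun y => rfl⟩
  · refine ext_inner_left ℝ fun u => ?_
    rw [inner_add_right, inner_Nv, inner_Nv, inner_Nv, update_comm hjk.symm, update_comm hjk.symm,
      update_comm hjk.symm, b.det.map_update_add]
  · refine ext_inner_left ℝ fun u => ?_
    show ⟪u, Nv b j (update x k (c • y))⟫ = ⟪u, c • Nv b j (update x k y)⟫
    rw [real_inner_smul_right, inner_Nv, inner_Nv, update_comm hjk.symm, update_comm hjk.symm,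
      b.det.map_update_smul, smul_eq_mul]

end Pool.Agent.P.MP_181257_gt
end
end

-- part Pool.Agent.P.MP_181257_gt.PdB0
section

set_option autoImplicit false
set_option linter.unusedSectionVars false
set_option linter.unusedVariables false

open MeasureTheory ProbabilityTheory Module Set Filter Topology Function
open scoped RealInnerProductSpace ENNReal Pointwise LinearAlgebra.Projectivization

noncomputable section

namespace Pool.Agent.P.MP_181257_gt

variable {V : Type} [NormedAddCommGroup V] [InnerProductSpace ℝ V] [FiniteDimensional ℝ V]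
  [MeasurableSpace V] [BorelSpace V] {ι : Type} [Fintype ι] [DecidableEq ι]

theorem mp_update (μ : Measure V) [IsProbabilityMeasure μ] (j : ι) :
    MeasurePreserving (fun p : (ι → V) × V => update p.1 j p.2) ((pw μ ι).prod μ) (pw μ ι) := by
  have hm : Measurable fun p : (ι → V) × V => update p.1 j p.2 := measurable_update'
  refine ⟨hm, (Measure.pi_eq fun s hs => ?_).symm⟩
  rw [Measure.map_apply hm (MeasurableSet.univ_pi hs)]
  have e : (fun p : (ι → V) × V => update p.1 j p.2) ⁻¹' univ.pi s =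
      (univ.pi (update s j univ)) ×ˢ s j := by
    ext ⟨x, y⟩
    simp only [mem_preimage, mem_univ_pi, mem_prod]
    constructor
    · intro h
      refine ⟨fun i => ?_, by simpa using h j⟩
      by_cases hi : i = j
      · rw [hi, update_self]
        exact mem_univ _
      · have := h i
        rw [update_of_ne hi] at this ⊢
        exact this
    · rintro ⟨h1, h2⟩ i
      by_cases hi : i = j
      · rw [hi, update_self]
        exact h2
      · have := h1 i
        rw [update_of_ne hi] at this ⊢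
        exact this
  rw [e, Measure.prod_prod, Measure.pi_pi,
    ← Finset.prod_erase_mul _ _ (Finset.mem_univ j),
    ← Finset.prod_erase_mul _ (fun i => μ (s i)) (Finset.mem_univ j), update_self, measure_univ,
    mul_one]
  congr 1
  exact Finset.prod_congr rfl fun i hi => by rw [update_of_ne (Finset.ne_of_mem_erase hi)]

theorem mp_permP (μ : Measure V) [IsProbabilityMeasure μ] (σ : Equiv.Perm ι) :
    MeasurePreserving (fun x : ι → V => x ∘ σ) (pw μ ι) (pw μ ι) := by
  have hm : Measurable fun x : ι → V => x ∘ σ :=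
    measurable_pi_lambda _ fun i => measurable_pi_apply (σ i)
  refine ⟨hm, (Measure.pi_eq fun s hs => ?_).symm⟩
  rw [Measure.map_apply hm (MeasurableSet.univ_pi hs)]
  have e : (fun x : ι → V => x ∘ σ) ⁻¹' univ.pi s = univ.pi fun i => s (σ.symm i) := by
    ext x
    simp only [mem_preimage, mem_univ_pi, comp_apply]
    constructor
    · intro h i
      simpa using h (σ.symm i)
    · intro h i
      simpa using h (σ i)
  rw [e, Measure.pi_pi]
  exact Equiv.prod_comp σ.symm fun i => μ (s i)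

theorem ae_ae_update {μ : Measure V} [IsProbabilityMeasure μ] (j : ι) {P : (ι → V) → Prop}
    (h : ∀ᵐ x ∂(pw μ ι), P x) : ∀ᵐ x ∂(pw μ ι), ∀ᵐ y ∂μ, P (update x j y) := by
  exact Measure.ae_ae_of_ae_prod ((mp_update μ j).quasiMeasurePreserving.ae h)

theorem null_of_update {μ : Measure V} [IsProbabilityMeasure μ] (j : ι) {S : Set (ι → V)}
    (hS : MeasurableSet S) (h : ∀ x, μ {y | update x j y ∈ S} = 0) : pw μ ι S = 0 := by
  rw [← (mp_update μ j).measure_preimage hS.nullMeasurableSet,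
    Measure.measure_prod_null ((mp_update μ j).measurable hS)]
  exact Eventually.of_forall h

theorem ae_pw {μ : Measure V} [IsProbabilityMeasure μ] {P : V → Prop} (h : ∀ᵐ y ∂μ, P y) :
    ∀ᵐ x ∂(pw μ ι), ∀ i, P (x i) := by
  rw [ae_all_iff]
  intro i
  exact (measurePreserving_eval (fun _ : ι => μ) i).quasiMeasurePreserving.ae h

theorem lintegral_update (μ : Measure V) [IsProbabilityMeasure μ] (j : ι) {F : (ι → V) → ℝ≥0∞}
    (hF : Measurable F) :
    ∫⁻ x, F x ∂(pw μ ι) = ∫⁻ x, ∫⁻ y, F (update x j y) ∂μ ∂(pw μ ι) := by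
  rw [← (mp_update μ j).lintegral_comp hF]
  exact lintegral_prod _ (hF.comp (mp_update μ j).measurable).aemeasurable

theorem lintegral_update' (μ : Measure V) [IsProbabilityMeasure μ] (j : ι) {F : (ι → V) → ℝ≥0∞}
    (hF : Measurable F) :
    ∫⁻ x, F x ∂(pw μ ι) = ∫⁻ y, ∫⁻ x, F (update x j y) ∂(pw μ ι) ∂μ := by
  rw [← (mp_update μ j).lintegral_comp hF]
  exact lintegral_prod_symm _ (hF.comp (mp_update μ j).measurable).aemeasurable

end Pool.Agent.P.MP_181257_gt
end
end

-- part Pool.Agent.P.MP_181257_gt.PdB1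
section

set_option autoImplicit false
set_option linter.unusedSectionVars false
set_option linter.unusedVariables false

open MeasureTheory ProbabilityTheory Module Set Filter Topology Function
open scoped RealInnerProductSpace ENNReal Pointwise LinearAlgebra.Projectivization

noncomputable section

namespace Pool.Agent.P.MP_181257_gt

variable {V : Type} [NormedAddCommGroup V] [InnerProductSpace ℝ V] [FiniteDimensional ℝ V]
  [MeasurableSpace V] [BorelSpace V] {ι : Type} [Fintype ι] [DecidableEq ι]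

theorem integrable_Hm {μ : Measure V} (hμ : Mom μ) (u : V) :
    Integrable (fun x => |⟪u, x⟫|) μ := by
  refine (hμ.int.const_mul ‖u‖).mono' ?_ (ae_of_all _ fun x => ?_)
  · exact (continuous_const.inner continuous_id).abs.aestronglyMeasurable
  · rw [Real.norm_eq_abs, abs_abs]
    exact abs_real_inner_le_norm u x

theorem integrable_pw_PdB1 (b : Basis ι ℝ V) {μ : Measure V} (hμ : Mom μ) (S : Finset ι)
    (w : ι → V) :
    Integrable (fun x : ι → V => |b.det (fun i => if i ∈ S then w i else x i)|) (pw μ ι) := by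
  have := hμ.prob
  obtain ⟨C, hC, h⟩ := bdet_bound b
  have h1 : Integrable (fun x : ι → V => ∏ i, (fun y : V => ‖if i ∈ S then w i else y‖) (x i))
      (pw μ ι) := by
    refine Integrable.fintype_prod (f := fun i (y : V) => ‖if i ∈ S then w i else y‖) fun i => ?_
    by_cases hi : i ∈ S
    · simp only [if_pos hi]
      exact integrable_const _
    · simp only [if_neg hi]
      exact hμ.int
  refine (h1.const_mul C).mono' ?_ (ae_of_all _ fun x => ?_)
  · refine ((continuous_bdet b).comp (continuous_pi fun i => ?_)).abs.aestronglyMeasurable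
    by_cases hi : i ∈ S
    · simp only [if_pos hi]
      exact continuous_const
    · simp only [if_neg hi]
      exact continuous_apply i
  · rw [Real.norm_eq_abs, abs_abs]
    exact h _

theorem integrable_bdet (b : Basis ι ℝ V) {μ : Measure V} (hμ : Mom μ) :
    Integrable (fun x : ι → V => |b.det x|) (pw μ ι) := by
  simpa using integrable_pw_PdB1 b hμ ∅ 0

theorem integrable_Qm (b : Basis ι ℝ V) (j : ι) {μ : Measure V} (hμ : Mom μ) (u : V) :
    Integrable (fun x : ι → V => |b.det (update x j u)|) (pw μ ι) := by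
  have e : ∀ x : ι → V, update x j u = fun i => if i ∈ ({j} : Finset ι) then u else x i := by
    intro x
    funext i
    simp [update_apply]
  simp only [e]
  exact integrable_pw_PdB1 b hμ {j} fun _ => u

theorem integrable_Gm (b : Basis ι ℝ V) (j k : ι) {μ : Measure V} (hμ : Mom μ) (u v : V) :
    Integrable (fun x : ι → V => |b.det (update (update x j u) k v)|) (pw μ ι) := by
  have e : ∀ x : ι → V, update (update x j u) k v =
      fun i => if i ∈ ({j, k} : Finset ι) then (if i = k then v else u) else x i := by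
    intro x
    funext i
    by_cases h1 : i = k <;> by_cases h2 : i = j <;> simp [update_apply, h1, h2]
  simp only [e]
  exact integrable_pw_PdB1 b hμ {j, k} fun i => if i = k then v else u

theorem integrable_norm_Nv (b : Basis ι ℝ V) (j : ι) {μ : Measure V} (hμ : Mom μ) :
    Integrable (fun x : ι → V => ‖Nv b j x‖) (pw μ ι) := by
  have h1 : Integrable (fun x : ι → V =>
      ∑ k, |b.det (update x j (stdOrthonormalBasis ℝ V k))|) (pw μ ι) :=
    integrable_finsetSum _ fun k _ => integrable_Qm b j hμ _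
  refine h1.mono' (continuous_Nv b j).norm.aestronglyMeasurable (ae_of_all _ fun x => ?_)
  rw [norm_norm]
  unfold Nv
  refine (norm_sum_le _ _).trans (Finset.sum_le_sum fun k _ => ?_)
  rw [norm_smul, (stdOrthonormalBasis ℝ V).orthonormal.1 k, mul_one, Real.norm_eq_abs]

theorem Hm_nonneg (μ : Measure V) (u : V) : 0 ≤ Hm μ u :=
  integral_nonneg fun _ => abs_nonneg _

theorem Hm_smul (μ : Measure V) (t : ℝ) (u : V) : Hm μ (t • u) = |t| * Hm μ u := by
  unfold Hm
  rw [← integral_const_mul]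
  simp only [real_inner_smul_left, abs_mul]

theorem Hm_le {μ : Measure V} (hμ : Mom μ) (u : V) : Hm μ u ≤ (∫ x, ‖x‖ ∂μ) * ‖u‖ := by
  unfold Hm
  rw [← integral_mul_const]
  refine integral_mono (integrable_Hm hμ u) (hμ.int.mul_const _) fun x => ?_
  have := abs_real_inner_le_norm u x
  simpa [mul_comm] using this

theorem Hm_add_le {μ : Measure V} (hμ : Mom μ) (u v : V) : Hm μ (u + v) ≤ Hm μ u + Hm μ v := by
  unfold Hm
  rw [← integral_add (integrable_Hm hμ u) (integrable_Hm hμ v)]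
  refine integral_mono (integrable_Hm hμ _) ((integrable_Hm hμ u).add (integrable_Hm hμ v))
    fun x => ?_
  show |⟪u + v, x⟫| ≤ |⟪u, x⟫| + |⟪v, x⟫|
  rw [inner_add_left]
  exact abs_add_le _ _

theorem continuous_Hm {μ : Measure V} (hμ : Mom μ) : Continuous (Hm μ) := by
  have h0 : 0 ≤ ∫ x, ‖x‖ ∂μ := integral_nonneg fun _ => norm_nonneg _
  refine (LipschitzWith.of_le_add_mul (Real.toNNReal (∫ x, ‖x‖ ∂μ)) fun u v => ?_).continuous
  have h1 := Hm_add_le hμ v (u - v)
  have h2 := Hm_le hμ (u - v)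
  rw [add_sub_cancel] at h1
  rw [Real.coe_toNNReal _ h0, dist_eq_norm]
  linarith

theorem ofReal_Hm {μ : Measure V} (hμ : Mom μ) (u : V) :
    ENNReal.ofReal (Hm μ u) = ∫⁻ x, ENNReal.ofReal |⟪u, x⟫| ∂μ :=
  ofReal_integral_eq_lintegral_ofReal (integrable_Hm hμ u) (ae_of_all _ fun _ => abs_nonneg _)

theorem integrable_Hm_comp {μ ν : Measure V} (hμ : Mom μ) (hν : Mom ν) :
    Integrable (Hm ν) μ := by
  refine (hμ.int.const_mul (∫ x, ‖x‖ ∂ν)).mono' (continuous_Hm hν).aestronglyMeasurable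
    (ae_of_all _ fun x => ?_)
  rw [Real.norm_eq_abs, abs_of_nonneg (Hm_nonneg ν x)]
  exact Hm_le hν x

theorem Good.lower {μ : Measure V} (hμ : Good μ) : ∃ δ : ℝ, 0 < δ ∧ ∀ u, δ * ‖u‖ ≤ Hm μ u := by
  have key : ∃ δ : ℝ, 0 < δ ∧ ∀ u : V, ‖u‖ = 1 → δ ≤ Hm μ u := by
    rcases (Metric.sphere (0 : V) 1).eq_empty_or_nonempty with h | h
    · refine ⟨1, one_pos, fun u hu => ?_⟩
      have : u ∈ Metric.sphere (0 : V) 1 := by simpa using hu
      rw [h] at this
      exact this.elim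
    · obtain ⟨u0, hu0, hmin⟩ := (isCompact_sphere (0 : V) 1).exists_isMinOn h
        (continuous_Hm hμ.mom).continuousOn
      have h1 : ‖u0‖ = 1 := by simpa using hu0
      refine ⟨Hm μ u0, hμ.pos u0 ?_, fun u hu => hmin (by simpa using hu)⟩
      rintro rfl
      simp at h1
  obtain ⟨δ, hδ, h⟩ := key
  refine ⟨δ, hδ, fun u => ?_⟩
  by_cases hu : u = 0
  · rw [hu, norm_zero, mul_zero]
    exact Hm_nonneg μ 0
  · have hn : 0 < ‖u‖ := norm_pos_iff.2 hu
    have h1 := h (‖u‖⁻¹ • u) (by rw [norm_smul, norm_inv, norm_norm, inv_mul_cancel₀ hn.ne'])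
    rw [Hm_smul, abs_of_pos (inv_pos.2 hn), le_inv_mul_iff₀ hn, mul_comm] at h1
    exact h1

end Pool.Agent.P.MP_181257_gt
end
end

-- part Pool.Agent.P.MP_181257_gt.PdB1b
section

set_option autoImplicit false
set_option linter.unusedSectionVars false
set_option linter.unusedVariables false

open MeasureTheory ProbabilityTheory Module Set Filter Topology Function
open scoped RealInnerProductSpace ENNReal Pointwise LinearAlgebra.Projectivization

noncomputable section

namespace Pool.Agent.P.MP_181257_gt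

variable {V : Type} [NormedAddCommGroup V] [InnerProductSpace ℝ V] [FiniteDimensional ℝ V]
  [MeasurableSpace V] [BorelSpace V] {ι : Type} [Fintype ι] [DecidableEq ι]

theorem perm_PdB1b (μ : Measure V) [IsProbabilityMeasure μ] (σ : Equiv.Perm ι) {g : (ι → V) → ℝ}
    (hg : Measurable g) : ∫ x, g (x ∘ σ) ∂(pw μ ι) = ∫ x, g x ∂(pw μ ι) := by
  have h := mp_permP μ σ
  rw [← integral_map h.measurable.aemeasurable hg.aestronglyMeasurable, h.map_eq]

theorem cont_PdB1b (b : Basis ι ℝ V) (j k : ι) (u v : V) :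
    Continuous fun x : ι → V => |b.det (update (update x j u) k v)| :=
  ((continuous_bdet b).comp
    ((continuous_id.update j continuous_const).update k continuous_const)).abs

theorem bound_PdB1b (b : Basis ι ℝ V) (k : ι) (y : ι → V) (v : V) {R : ℝ} (hv : ‖v‖ ≤ R) :
    |b.det (update y k v)| ≤ R * ∑ c, |b.det (update y k (stdOrthonormalBasis ℝ V c))| := by
  rw [← inner_Nv, ← (stdOrthonormalBasis ℝ V).sum_inner_mul_inner, Finset.mul_sum]
  refine (Finset.abs_sum_le_sum_abs _ _).trans (Finset.sum_le_sum fun c _ => ?_)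
  rw [abs_mul, inner_Nv]
  refine mul_le_mul_of_nonneg_right ((abs_real_inner_le_norm _ _).trans ?_) (abs_nonneg _)
  rwa [(stdOrthonormalBasis ℝ V).norm_eq_one, mul_one]

theorem Qm_smul (b : Basis ι ℝ V) (j : ι) (μ : Measure V) (t : ℝ) (u : V) :
    Qm b j μ (t • u) = |t| * Qm b j μ u := by
  simp only [Qm, AlternatingMap.map_update_smul, smul_eq_mul, abs_mul]
  exact integral_const_mul _ _

theorem Qm_perm (b : Basis ι ℝ V) (j k : ι) (μ : Measure V) [IsProbabilityMeasure μ] (u : V) :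
    Qm b j μ u = Qm b k μ u := by
  rw [Qm, Qm, ← perm_PdB1b μ (Equiv.swap j k) (g := fun x => |b.det (update x j u)|)
    ((continuous_bdet b).comp (continuous_id.update j continuous_const)).abs.measurable]
  refine integral_congr_ae (ae_of_all _ fun x => ?_)
  dsimp only
  rw [← abs_bdet_perm b (update x k u) (Equiv.swap j k), update_comp_equiv, Equiv.symm_swap,
    Equiv.swap_apply_right]

theorem Gm_perm (b : Basis ι ℝ V) {j k k' : ι} (hjk : j ≠ k) (hjk' : j ≠ k') (μ : Measure V)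
    [IsProbabilityMeasure μ] (u v : V) : Gm b j k μ u v = Gm b j k' μ u v := by
  rw [Gm, Gm, ← perm_PdB1b μ (Equiv.swap k k') (g := fun x => |b.det (update (update x j u) k v)|)
    (cont_PdB1b b j k u v).measurable]
  refine integral_congr_ae (ae_of_all _ fun x => ?_)
  dsimp only
  rw [← abs_bdet_perm b (update (update x j u) k' v) (Equiv.swap k k'), update_comp_equiv,
    update_comp_equiv, Equiv.symm_swap, Equiv.swap_apply_right,
    Equiv.swap_apply_of_ne_of_ne hjk hjk']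

theorem Mp_perm (b : Basis ι ℝ V) {j j' k : ι} (hjk : j ≠ k) (hjk' : j' ≠ k) (μ : Measure V)
    [IsProbabilityMeasure μ] (π : Pl V) : Mp b j k μ π = Mp b j' k μ π := by
  have mM : ∀ j : ι, MeasurableSet {y : ι → V | ∀ i, i ≠ j → i ≠ k → y i ∈ π.spᗮ} := fun j => by
    simp only [Set.ofPred_forall]
    exact MeasurableSet.iInter fun m => MeasurableSet.iInter fun _ => MeasurableSet.iInter fun _ =>
      measurable_pi_apply m π.spᗮ.closed_of_finiteDimensional.measurableSet
  have hk : Equiv.swap j j' k = k := Equiv.swap_apply_of_ne_of_ne hjk.symm hjk'.symm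
  rw [Mp, Mp, ← integral_indicator (mM j), ← integral_indicator (mM j'),
    ← perm_PdB1b μ (Equiv.swap j j') ((cont_PdB1b b j k π.p π.q).measurable.indicator (mM j))]
  refine integral_congr_ae (ae_of_all _ fun x => ?_)
  have e : x ∘ Equiv.swap j j' ∈ {y : ι → V | ∀ i, i ≠ j → i ≠ k → y i ∈ π.spᗮ} ↔
      x ∈ {y : ι → V | ∀ i, i ≠ j' → i ≠ k → y i ∈ π.spᗮ} := by
    refine (Equiv.swap j j').forall_congr fun i => imp_congr ?_ (imp_congr ?_ Iff.rfl)
    · rw [← (Equiv.swap j j').injective.ne_iff, Equiv.swap_apply_left]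
    · rw [← (Equiv.swap j j').injective.ne_iff, hk]
  dsimp only
  by_cases hx : x ∈ {y : ι → V | ∀ i, i ≠ j' → i ≠ k → y i ∈ π.spᗮ}
  · rw [indicator_of_mem hx, indicator_of_mem (e.2 hx),
      ← abs_bdet_perm b (update (update x j' π.p) k π.q) (Equiv.swap j j'), update_comp_equiv,
      update_comp_equiv, Equiv.symm_swap, Equiv.swap_apply_right, hk]
  · rw [indicator_of_notMem hx, indicator_of_notMem fun h => hx (e.1 h)]

theorem continuous_Qm (b : Basis ι ℝ V) (j : ι) {μ : Measure V} (hμ : Mom μ) :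
    Continuous (Qm b j μ) := by
  have := hμ.prob
  have hm := (continuous_Nv b j).measurable.aemeasurable (μ := pw μ ι)
  have h : Mom ((pw μ ι).map (Nv b j)) := ⟨Measure.isProbabilityMeasure_map hm,
    (integrable_map_measure continuous_norm.aestronglyMeasurable hm).2 (integrable_norm_Nv b j hμ)⟩
  refine (continuous_Hm h).congr fun u => ?_
  rw [Hm, integral_map hm (continuous_const.inner continuous_id).abs.aestronglyMeasurable]
  simp only [inner_Nv, Qm]

theorem continuous_Gm (b : Basis ι ℝ V) {j k : ι} (hjk : j ≠ k) {μ : Measure V} (hμ : Mom μ) :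
    Continuous fun p : V × V => Gm b j k μ p.1 p.2 := by
  refine continuous_iff_continuousAt.2 fun p₀ => continuousAt_of_dominated
    (bound := fun x => (‖p₀‖ + 1) * ∑ c, (‖p₀‖ + 1) * ∑ a, |b.det (update (update x j
      (stdOrthonormalBasis ℝ V a)) k (stdOrthonormalBasis ℝ V c))|)
    (Eventually.of_forall fun p => (cont_PdB1b b j k p.1 p.2).aestronglyMeasurable) ?_ ?_
    (ae_of_all _ fun x => ?_)
  · filter_upwards [continuous_norm.continuousAt.eventually (gt_mem_nhds (lt_add_one ‖p₀‖))]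
      with p hp
    refine ae_of_all _ fun x => ?_
    rw [Real.norm_eq_abs, abs_abs]
    refine (bound_PdB1b b k _ _ ((norm_snd_le p).trans hp.le)).trans
      (mul_le_mul_of_nonneg_left (Finset.sum_le_sum fun c _ => ?_) (by positivity))
    simp only [update_comm hjk]
    exact bound_PdB1b b j _ _ ((norm_fst_le p).trans hp.le)
  · exact (integrable_finsetSum _ fun c _ => (integrable_finsetSum _ fun a _ =>
      integrable_Gm b j k hμ _ _).const_mul _).const_mul _
  · exact ((continuous_bdet b).comp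
      ((continuous_const.update j continuous_fst).update k continuous_snd)).abs.continuousAt

end Pool.Agent.P.MP_181257_gt
end
end

-- part Pool.Agent.P.MP_181257_gt.PdA2
section

set_option autoImplicit false
set_option linter.unusedSectionVars false
set_option linter.unusedVariables false

open MeasureTheory ProbabilityTheory Module Set Filter Topology Function
open scoped RealInnerProductSpace ENNReal Pointwise LinearAlgebra.Projectivization

noncomputable section

namespace Pool.Agent.P.MP_181257_gt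

variable {V : Type} [NormedAddCommGroup V] [InnerProductSpace ℝ V] [FiniteDimensional ℝ V]
  [MeasurableSpace V] [BorelSpace V] {ι : Type} [Fintype ι] [DecidableEq ι]

theorem aux_PdA2 {A : Set V} {U : Submodule ℝ V} (hU : Sp A U) {J₀ : Finset ι} {x : ι → V}
    (hx : LinearIndepOn ℝ x (J₀ : Set ι)) (K : Finset ι) (hK : Disjoint K J₀)
    (hc : K.card + J₀.card ≤ finrank ℝ U) :
    ∃ y : ι → V, (∀ i ∈ J₀, y i = x i) ∧ (∀ i ∈ K, y i ∈ A ∧ y i ∈ U) ∧
      LinearIndepOn ℝ y ((K ∪ J₀ : Finset ι) : Set ι) := by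
  induction K using Finset.induction_on with
  | empty => exact ⟨x, fun _ _ => rfl, by simp, by simpa using hx⟩
  | insert a K ha ih =>
    rw [Finset.disjoint_insert_left] at hK
    rw [Finset.card_insert_of_notMem ha] at hc
    obtain ⟨y, hy1, hy2, hy3⟩ := ih hK.2 (by omega)
    have haK : a ∉ K ∪ J₀ := by
      rw [Finset.mem_union, not_or]
      exact ⟨ha, hK.1⟩
    obtain ⟨p, hp, hp'⟩ : ∃ p ∈ A ∩ (U : Set V),
        p ∉ Submodule.span ℝ (y '' ((K ∪ J₀ : Finset ι) : Set ι)) := by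
      by_contra hn
      push Not at hn
      have h1 : U ≤ Submodule.span ℝ (y '' ((K ∪ J₀ : Finset ι) : Set ι)) :=
        hU.trans (Submodule.span_le.2 hn)
      have h2 := Submodule.finrank_mono h1
      classical
      rw [← Finset.coe_image] at h2
      have h3 := finrank_span_finset_le_card (R := ℝ) ((K ∪ J₀).image y)
      have h4 : ((K ∪ J₀).image y).card ≤ K.card + J₀.card :=
        Finset.card_image_le.trans (Finset.card_union_le _ _)
      unfold Set.finrank at h3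
      omega
    have hne : ∀ i ∈ K ∪ J₀, update y a p i = y i := fun i hi =>
      update_of_ne (fun (h : i = a) => haK (h ▸ hi)) _ _
    refine ⟨update y a p, ?_, ?_, ?_⟩
    · intro i hi
      rw [hne i (Finset.mem_union_right _ hi), hy1 i hi]
    · intro i hi
      rcases Finset.mem_insert.1 hi with rfl | hi
      · rw [update_self]
        exact hp
      · rw [hne i (Finset.mem_union_left _ hi)]
        exact hy2 i hi
    · rw [Finset.insert_union, Finset.coe_insert,
        linearIndepOn_insert (by exact_mod_cast haK), update_self]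
      have he : EqOn y (update y a p) ((K ∪ J₀ : Finset ι) : Set ι) := fun i hi =>
        (hne i hi).symm
      exact ⟨hy3.congr he, by rwa [← he.image_eq]⟩

/-- extension of an independent part of a family by points of `A` inside `U` -/
theorem ext_indep {A : Set V} {U : Submodule ℝ V} (hU : Sp A U) {J₀ J : Finset ι} (hJ : J₀ ⊆ J)
    (hc : J.card ≤ finrank ℝ U) {x : ι → V} (hx : LinearIndepOn ℝ x (J₀ : Set ι))
    (hxU : ∀ i ∈ J₀, x i ∈ U) :
    ∃ y : ι → V, (∀ i ∈ J₀, y i = x i) ∧ (∀ i ∈ J, i ∉ J₀ → y i ∈ A ∧ y i ∈ U) ∧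
      LinearIndepOn ℝ y (J : Set ι) := by
  obtain ⟨y, h1, h2, h3⟩ := aux_PdA2 hU hx (J \ J₀) Finset.sdiff_disjoint
    (by rw [Finset.card_sdiff_add_card_eq_card hJ]; exact hc)
  rw [Finset.sdiff_union_of_subset hJ] at h3
  exact ⟨y, h1, fun i hi hi' => h2 i (Finset.mem_sdiff.2 ⟨hi, hi'⟩), h3⟩

theorem ext_basis (b : Basis ι ℝ V) {A : Set V} (hA : Submodule.span ℝ A = ⊤) {J₀ : Finset ι}
    {x : ι → V} (hx : LinearIndepOn ℝ x (J₀ : Set ι)) :
    ∃ y : ι → V, (∀ i ∈ J₀, y i = x i) ∧ (∀ i, i ∉ J₀ → y i ∈ A) ∧ b.det y ≠ 0 := by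
  have hU : Sp A ⊤ := by
    unfold Sp
    rw [Submodule.top_coe, inter_univ, hA]
  obtain ⟨y, h1, h2, h3⟩ := ext_indep hU (J := Finset.univ) (Finset.subset_univ J₀)
    (by rw [finrank_top, Finset.card_univ, finrank_eq_card_basis b]) hx
    (fun _ _ => Submodule.mem_top)
  refine ⟨y, h1, fun i hi => (h2 i (Finset.mem_univ i) hi).1, (bdet_ne_zero_iff b y).2 ?_⟩
  rw [Finset.coe_univ] at h3
  exact linearIndepOn_univ_iff.1 h3

end Pool.Agent.P.MP_181257_gt
end
end

-- part Pool.Agent.P.MP_181257_gt.PdA3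
section

set_option autoImplicit false
set_option linter.unusedSectionVars false
set_option linter.unusedVariables false

open MeasureTheory ProbabilityTheory Module Set Filter Topology Function
open scoped RealInnerProductSpace ENNReal Pointwise LinearAlgebra.Projectivization

noncomputable section

namespace Pool.Agent.P.MP_181257_gt

variable {V : Type} [NormedAddCommGroup V] [InnerProductSpace ℝ V] [FiniteDimensional ℝ V]
  [MeasurableSpace V] [BorelSpace V] {ι : Type} [Fintype ι] [DecidableEq ι]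

theorem Pl.pp_PdA3 (π : Pl V) : ⟪π.p, π.p⟫ = 1 := by
  rw [real_inner_self_eq_norm_sq, π.hp, one_pow]

theorem Pl.qq_PdA3 (π : Pl V) : ⟪π.q, π.q⟫ = 1 := by
  rw [real_inner_self_eq_norm_sq, π.hq, one_pow]

theorem Pl.qp_PdA3 (π : Pl V) : ⟪π.q, π.p⟫ = 0 := by
  rw [real_inner_comm, π.hpq]

theorem Pl.ind_PdA3 (π : Pl V) {a b : ℝ} (h : a • π.p + b • π.q = 0) : a = 0 ∧ b = 0 := by
  have h1 := congrArg (fun z => ⟪z, π.p⟫) h
  have h2 := congrArg (fun z => ⟪z, π.q⟫) h
  simp only [inner_add_left, real_inner_smul_left, π.pp_PdA3, π.qq_PdA3, π.qp_PdA3, π.hpq,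
    inner_zero_left] at h1 h2
  exact ⟨by linarith, by linarith⟩

theorem Pl.mem_PdA3 (π : Pl V) (a b : ℝ) : a • π.p + b • π.q ∈ π.sp :=
  Submodule.mem_span_pair.mpr ⟨a, b, rfl⟩

theorem Pl.orth_PdA3 (π : Pl V) (x : V) : x ∈ π.spᗮ ↔ ⟪x, π.p⟫ = 0 ∧ ⟪x, π.q⟫ = 0 := by
  rw [Submodule.mem_orthogonal']
  constructor
  · intro h
    exact ⟨h _ (Submodule.subset_span (Or.inl rfl)), h _ (Submodule.subset_span (Or.inr rfl))⟩
  · rintro ⟨h1, h2⟩ u hu
    obtain ⟨a, b, rfl⟩ := Submodule.mem_span_pair.mp hu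
    rw [inner_add_right, real_inner_smul_right, real_inner_smul_right, h1, h2]
    ring

theorem Pl.J_PdA3 (π : Pl V) (x : V) : π.J x = ⟪x, π.q⟫ • π.p + (-⟪x, π.p⟫) • π.q := by
  rw [Pl.J, neg_smul, sub_eq_add_neg]

theorem Pl.finrank_sp (π : Pl V) : finrank ℝ π.sp = 2 := by
  have h1 : LinearIndependent ℝ ![π.p, π.q] :=
    LinearIndependent.pair_iff.mpr fun a b h => π.ind_PdA3 h
  have h2 : range ![π.p, π.q] = {π.p, π.q} := Matrix.range_cons_cons_empty _ _ _
  rw [Pl.sp, ← h2, finrank_span_eq_card h1, Fintype.card_fin]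

theorem exists_Pl {U : Submodule ℝ V} (hU : finrank ℝ U = 2) : ∃ π : Pl V, π.sp = U := by
  obtain ⟨b⟩ : Nonempty (OrthonormalBasis (Fin 2) ℝ U) :=
    ⟨(stdOrthonormalBasis ℝ U).reindex (finCongr hU)⟩
  refine ⟨⟨b 0, b 1, b.orthonormal.1 0, b.orthonormal.1 1, b.orthonormal.2 (by decide)⟩, ?_⟩
  refine Submodule.eq_of_le_of_finrank_eq ?_ ((Pl.finrank_sp _).trans hU.symm)
  rw [Pl.sp, Submodule.span_le]
  rintro z (rfl | rfl)
  · exact (b 0).2
  · exact (b 1).2

theorem Pl.J_mem (π : Pl V) (x : V) : π.J x ∈ π.sp := by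
  rw [π.J_PdA3]
  exact π.mem_PdA3 _ _

theorem Pl.inner_J (π : Pl V) (x : V) : ⟪x, π.J x⟫ = 0 := by
  rw [Pl.J, inner_sub_right, real_inner_smul_right, real_inner_smul_right]
  ring

theorem Pl.J_smul (π : Pl V) (t : ℝ) (x : V) : π.J (t • x) = t • π.J x := by
  simp only [Pl.J, real_inner_smul_left]
  module

theorem Pl.J_eq_zero_iff (π : Pl V) (x : V) : π.J x = 0 ↔ x ∈ π.spᗮ := by
  rw [π.orth_PdA3, π.J_PdA3]
  constructor
  · intro h
    have := π.ind_PdA3 h
    exact ⟨neg_eq_zero.mp this.2, this.1⟩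
  · rintro ⟨h1, h2⟩
    rw [h1, h2, neg_zero, zero_smul, zero_smul, add_zero]

theorem Pl.continuous_J (π : Pl V) : Continuous π.J := by
  unfold Pl.J
  fun_prop

theorem gp_comm (l π : Pl V) : gp l π = gp π l := by
  unfold gp
  rw [real_inner_comm l.p π.p, real_inner_comm l.q π.q, real_inner_comm l.q π.p,
    real_inner_comm l.p π.q]
  congr 1
  ring

/-- the two perspectivities are inverse to each other up to the scalar -/
theorem Pl.J_J (l π : Pl V) {v : V} (hv : v ∈ π.sp) :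
    π.J (l.J v) = -(⟪l.p, π.p⟫ * ⟪l.q, π.q⟫ - ⟪l.p, π.q⟫ * ⟪l.q, π.p⟫) • v := by
  obtain ⟨a, c, rfl⟩ := Submodule.mem_span_pair.mp hv
  simp only [Pl.J, inner_sub_left, inner_add_left, real_inner_smul_left]
  rw [real_inner_comm l.p π.p, real_inner_comm l.q π.q, real_inner_comm l.q π.p,
    real_inner_comm l.p π.q]
  module

theorem gp_ne_zero_iff (l π : Pl V) : gp l π ≠ 0 ↔ Disjoint l.sp π.spᗮ := by
  rw [gp, abs_ne_zero, Submodule.disjoint_def]
  constructor
  · intro h x hx hx'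
    obtain ⟨a, c, rfl⟩ := Submodule.mem_span_pair.mp hx
    rw [π.orth_PdA3] at hx'
    simp only [inner_add_left, real_inner_smul_left] at hx'
    have ha : a = 0 := by
      refine (mul_eq_zero.mp ?_).resolve_right h
      linear_combination ⟪l.q, π.q⟫ * hx'.1 - ⟪l.q, π.p⟫ * hx'.2
    have hc : c = 0 := by
      refine (mul_eq_zero.mp ?_).resolve_right h
      linear_combination ⟪l.p, π.p⟫ * hx'.2 - ⟪l.p, π.q⟫ * hx'.1
    rw [ha, hc, zero_smul, zero_smul, add_zero]
  · intro h h0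
    have h1 := l.ind_PdA3 (h _ (l.mem_PdA3 ⟪l.q, π.q⟫ (-⟪l.p, π.q⟫)) (by
      rw [π.orth_PdA3]
      simp only [inner_add_left, real_inner_smul_left]
      exact ⟨by linear_combination h0, by ring⟩))
    have h2 := l.ind_PdA3 (h _ (l.mem_PdA3 ⟪l.q, π.p⟫ (-⟪l.p, π.p⟫)) (by
      rw [π.orth_PdA3]
      simp only [inner_add_left, real_inner_smul_left]
      exact ⟨by ring, by linear_combination -h0⟩))
    have h3 := h l.p (Submodule.subset_span (Or.inl rfl))
      ((π.orth_PdA3 _).mpr ⟨neg_eq_zero.mp h2.2, neg_eq_zero.mp h1.2⟩)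
    have h4 := l.hp
    rw [h3, norm_zero] at h4
    exact zero_ne_one h4

/-- a vector of the plane orthogonal to `v` is a multiple of `J v` -/
theorem Pl.mem_span_J (l : Pl V) {v x : V} (hv : l.J v ≠ 0) (hx : x ∈ l.sp) (hxv : ⟪x, v⟫ = 0) :
    x ∈ ℝ ∙ l.J v := by
  obtain ⟨a, c, rfl⟩ := Submodule.mem_span_pair.mp hx
  simp only [inner_add_left, real_inner_smul_left] at hxv
  rw [real_inner_comm v l.p, real_inner_comm v l.q] at hxv
  unfold Pl.J at hv ⊢
  generalize ⟪v, l.p⟫ = P at hv hxv ⊢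
  generalize ⟪v, l.q⟫ = Q at hv hxv ⊢
  have h0 : P ^ 2 + Q ^ 2 ≠ 0 := by
    intro h
    have hP : P = 0 := by nlinarith [sq_nonneg P, sq_nonneg Q]
    have hQ : Q = 0 := by nlinarith [sq_nonneg P, sq_nonneg Q]
    exact hv (by rw [hP, hQ, zero_smul, zero_smul, sub_zero])
  refine Submodule.mem_span_singleton.mpr ⟨(a * Q - c * P) / (P ^ 2 + Q ^ 2), ?_⟩
  have h1 : (a * Q - c * P) / (P ^ 2 + Q ^ 2) * Q = a := by
    field_simp
    linear_combination (-P) * hxv
  have h2 : (a * Q - c * P) / (P ^ 2 + Q ^ 2) * P = -c := by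
    field_simp
    linear_combination Q * hxv
  rw [smul_sub, smul_smul, smul_smul, h1, h2, neg_smul, sub_neg_eq_add]

end Pool.Agent.P.MP_181257_gt
end
end

-- part Pool.Agent.P.MP_181257_gt.PdA4
section

set_option autoImplicit false
set_option linter.unusedSectionVars false
set_option linter.unusedVariables false

open MeasureTheory ProbabilityTheory Module Set Filter Topology Function
open scoped RealInnerProductSpace ENNReal Pointwise LinearAlgebra.Projectivization

noncomputable section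

namespace Pool.Agent.P.MP_181257_gt

variable {V : Type} [NormedAddCommGroup V] [InnerProductSpace ℝ V] [FiniteDimensional ℝ V]
  [MeasurableSpace V] [BorelSpace V] {ι : Type} [Fintype ι] [DecidableEq ι]

theorem J_ne_PdA4 {l π : Pl V} (h : gp l π ≠ 0) {v : V} (hv : v ∈ π.sp) (h0 : v ≠ 0) :
    l.J v ≠ 0 := by
  intro h1
  have h2 := Pl.J_J l π hv
  have h3 : π.J 0 = 0 := by simp [Pl.J]
  rw [h1, h3] at h2
  rcases smul_eq_zero.1 h2.symm with h4 | h4
  · exact h (abs_eq_zero.2 (neg_eq_zero.1 h4))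
  · exact h0 h4

theorem persp_eq_PdA4 (l : Pl V) {x : ℙ ℝ V} (h : l.J x.rep ≠ 0) :
    persp l x = Projectivization.mk ℝ (l.J x.rep) h := by
  unfold persp
  exact dif_neg h

theorem maps_PdA4 {l π : Pl V} (h : gp l π ≠ 0) :
    MapsTo (persp l) {v : ℙ ℝ V | v.rep ∈ π.sp} {x : ℙ ℝ V | x.rep ∈ l.sp} := by
  intro v hv
  have h1 := J_ne_PdA4 h hv v.rep_nonzero
  obtain ⟨a, ha⟩ := Projectivization.exists_smul_eq_mk_rep ℝ _ h1
  change (persp l v).rep ∈ l.sp
  rw [persp_eq_PdA4 l h1, ← ha]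
  exact l.sp.smul_mem (a : ℝ) (l.J_mem _)

theorem inv_PdA4 {l π : Pl V} (h : gp l π ≠ 0) :
    LeftInvOn (persp π) (persp l) {v : ℙ ℝ V | v.rep ∈ π.sp} := by
  intro v hv
  have h1 := J_ne_PdA4 h hv v.rep_nonzero
  obtain ⟨a, ha⟩ := Projectivization.exists_smul_eq_mk_rep ℝ _ h1
  have h2 : π.J (persp l v).rep ≠ 0 :=
    J_ne_PdA4 (by rwa [gp_comm]) (maps_PdA4 h hv) (persp l v).rep_nonzero
  rw [persp_eq_PdA4 π h2]
  conv_rhs => rw [← v.mk_rep]
  rw [Projectivization.mk_eq_mk_iff']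
  refine ⟨(a : ℝ) * -(⟪l.p, π.p⟫ * ⟪l.q, π.q⟫ - ⟪l.p, π.q⟫ * ⟪l.q, π.p⟫), ?_⟩
  rw [persp_eq_PdA4 l h1, ← ha, Units.smul_def, Pl.J_smul, Pl.J_J l π hv, smul_smul]

theorem persp_bij {l π : Pl V} (h : gp l π ≠ 0) :
    BijOn (persp l) {v : ℙ ℝ V | v.rep ∈ π.sp} {x : ℙ ℝ V | x.rep ∈ l.sp} := by
  have h' : gp π l ≠ 0 := by rwa [gp_comm]
  exact InvOn.bijOn ⟨inv_PdA4 h, inv_PdA4 h'⟩ (maps_PdA4 h) (maps_PdA4 h')

theorem addr_PdA4 (b : Basis ι ℝ V) (j k : ι) (y : ι → V) (u v v' : V) :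
    b.det (update (update y j u) k (v + v')) =
      b.det (update (update y j u) k v) + b.det (update (update y j u) k v') :=
  b.det.map_update_add _ _ _ _

theorem smulr_PdA4 (b : Basis ι ℝ V) (j k : ι) (y : ι → V) (u v : V) (t : ℝ) :
    b.det (update (update y j u) k (t • v)) = t * b.det (update (update y j u) k v) :=
  b.det.map_update_smul _ _ _ _

theorem addl_PdA4 (b : Basis ι ℝ V) {j k : ι} (hjk : j ≠ k) (y : ι → V) (u u' v : V) :
    b.det (update (update y j (u + u')) k v) =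
      b.det (update (update y j u) k v) + b.det (update (update y j u') k v) := by
  simp only [update_comm hjk]
  exact b.det.map_update_add _ _ _ _

theorem smull_PdA4 (b : Basis ι ℝ V) {j k : ι} (hjk : j ≠ k) (y : ι → V) (u v : V) (t : ℝ) :
    b.det (update (update y j (t • u)) k v) = t * b.det (update (update y j u) k v) := by
  simp only [update_comm hjk]
  exact b.det.map_update_smul _ _ _ _

theorem self_PdA4 (b : Basis ι ℝ V) {j k : ι} (hjk : j ≠ k) (y : ι → V) (u : V) :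
    b.det (update (update y j u) k u) = 0 :=
  b.det.map_eq_zero_of_eq _ (by rw [update_of_ne hjk, update_self, update_self]) hjk

theorem two_PdA4 (b : Basis ι ℝ V) {j k : ι} (hjk : j ≠ k) (l : Pl V) (y : ι → V) {u v : V}
    (hu : u ∈ l.sp) (hv : v ∈ l.sp) :
    b.det (update (update y j u) k v) = b.det (update (update y j l.p) k l.q)
      * (⟪u, l.p⟫ * ⟪v, l.q⟫ - ⟪u, l.q⟫ * ⟪v, l.p⟫) := by
  obtain ⟨a, c, rfl⟩ := Submodule.mem_span_pair.1 hu
  obtain ⟨a', c', rfl⟩ := Submodule.mem_span_pair.1 hv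
  have h1 : ⟪l.p, l.p⟫ = 1 := by rw [real_inner_self_eq_norm_sq, l.hp, one_pow]
  have h2 : ⟪l.q, l.q⟫ = 1 := by rw [real_inner_self_eq_norm_sq, l.hq, one_pow]
  have h3 : ⟪l.q, l.p⟫ = 0 := by rw [real_inner_comm, l.hpq]
  have h4 := self_PdA4 b hjk y (l.p + l.q)
  simp only [addl_PdA4 b hjk, addr_PdA4, self_PdA4 b hjk] at h4
  have h5 : b.det (update (update y j l.q) k l.p) = -b.det (update (update y j l.p) k l.q) := by
    linarith
  simp only [addl_PdA4 b hjk, addr_PdA4, smull_PdA4 b hjk, smulr_PdA4, self_PdA4 b hjk,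
    inner_add_left, real_inner_smul_left, h1, h2, h3, l.hpq, h5]
  ring

/-- the determinant on families orthogonal to a plane -/
theorem bdet_plane (b : Basis ι ℝ V) {j k : ι} (hjk : j ≠ k) (π : Pl V) {y : ι → V}
    (hy : ∀ i, i ≠ j → i ≠ k → y i ∈ π.spᗮ) (u v : V) :
    b.det (update (update y j u) k v) = b.det (update (update y j π.p) k π.q)
      * (⟪u, π.p⟫ * ⟪v, π.q⟫ - ⟪u, π.q⟫ * ⟪v, π.p⟫) := by
  obtain ⟨u0, hu0, u', hu', rfl⟩ := π.sp.exists_add_mem_mem_orthogonal u
  obtain ⟨v0, hv0, v', hv', rfl⟩ := π.sp.exists_add_mem_mem_orthogonal v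
  have hn : finrank ℝ π.spᗮ + 2 = Fintype.card ι := by
    have h1 := Submodule.finrank_add_finrank_orthogonal π.sp
    rw [π.finrank_sp, Module.finrank_eq_card_basis b] at h1
    omega
  have h1 : ∀ w, b.det (update (update y j u') k w) = 0 := by
    intro w
    refine bdet_zero_of_card b (U := π.spᗮ) (S := Finset.univ.erase k) (fun i hi => ?_) ?_
    · have hik := Finset.ne_of_mem_erase hi
      rw [update_of_ne hik]
      by_cases hij : i = j
      · rw [hij, update_self]
        exact hu'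
      · rw [update_of_ne hij]
        exact hy i hij hik
    · rw [Finset.card_erase_of_mem (Finset.mem_univ k), Finset.card_univ]
      omega
  have h2 : ∀ w, b.det (update (update y j w) k v') = 0 := by
    intro w
    refine bdet_zero_of_card b (U := π.spᗮ) (S := Finset.univ.erase j) (fun i hi => ?_) ?_
    · have hij := Finset.ne_of_mem_erase hi
      by_cases hik : i = k
      · rw [hik, update_self]
        exact hv'
      · rw [update_of_ne hik, update_of_ne hij]
        exact hy i hij hik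
    · rw [Finset.card_erase_of_mem (Finset.mem_univ j), Finset.card_univ]
      omega
  have hp : π.p ∈ π.sp := Submodule.subset_span (by simp)
  have hq : π.q ∈ π.sp := Submodule.subset_span (by simp)
  rw [addl_PdA4 b hjk, h1, addr_PdA4, h2, add_zero, add_zero, two_PdA4 b hjk π y hu0 hv0]
  simp only [inner_add_left, Submodule.inner_left_of_mem_orthogonal hp hu',
    Submodule.inner_left_of_mem_orthogonal hq hu', Submodule.inner_left_of_mem_orthogonal hp hv',
    Submodule.inner_left_of_mem_orthogonal hq hv', add_zero]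

/-- the determinant with two vectors of a plane -/
theorem bdet_two (b : Basis ι ℝ V) {j k : ι} (hjk : j ≠ k) (l : Pl V) (y : ι → V) {u v : V}
    (hu : u ∈ l.sp) (hv : v ∈ l.sp) :
    b.det (update (update y j u) k v) = b.det (update (update y j l.p) k l.q)
      * (⟪u, l.p⟫ * ⟪v, l.q⟫ - ⟪u, l.q⟫ * ⟪v, l.p⟫) := by
  exact two_PdA4 b hjk l y hu hv

end Pool.Agent.P.MP_181257_gt
end
end

-- part Pool.Agent.P.MP_181257_gt.PdB2
section

set_option autoImplicit false
set_option linter.unusedSectionVars false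
set_option linter.unusedVariables false

open MeasureTheory ProbabilityTheory Module Set Filter Topology Function
open scoped RealInnerProductSpace ENNReal Pointwise LinearAlgebra.Projectivization

noncomputable section

namespace Pool.Agent.P.MP_181257_gt

variable {V : Type} [NormedAddCommGroup V] [InnerProductSpace ℝ V] [FiniteDimensional ℝ V]
  [MeasurableSpace V] [BorelSpace V] {ι : Type} [Fintype ι] [DecidableEq ι]

theorem isClosed_csupp (μ : Measure V) : IsClosed (csupp μ) := by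
  rw [← isOpen_compl_iff, isOpen_iff_forall_mem_open]
  intro z hz
  simp only [csupp, mem_compl_iff, mem_ofPred_eq, not_forall, not_not] at hz
  obtain ⟨O, h1, h2, h3⟩ := hz
  exact ⟨O, fun w hw h => h O h1 hw h3, h1, h2⟩

theorem zero_mem_PdB2 {μ : Measure V} (h0 : μ ≠ 0) : (0 : V) ∈ csupp μ := by
  intro O hO hz h
  refine h0 (Measure.measure_univ_eq_zero.1 (measure_mono_null (fun x _ => ?_) h))
  have h1 : ∀ᶠ t in 𝓝 (0 : ℝ), t • x ∈ O :=
    (continuous_id.smul continuous_const).continuousAt.eventually_mem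
      (hO.mem_nhds (by simpa using hz))
  exact ((eventually_mem_nhdsWithin (s := {0}ᶜ)).and (h1.filter_mono nhdsWithin_le_nhds)).exists

theorem csupp_smul {μ : Measure V} (h0 : μ ≠ 0) (t : ℝ) {z : V} (hz : z ∈ csupp μ) :
    t • z ∈ csupp μ := by
  by_cases ht : t = 0
  · rw [ht, zero_smul]
    exact zero_mem_PdB2 h0
  · intro O hO hzO h
    refine hz ((fun x => t • x) ⁻¹' O) (hO.preimage (continuous_const_smul t)) hzO
      (measure_mono_null ?_ h)
    rintro x ⟨s, hs, hx⟩
    exact ⟨t * s, mul_ne_zero ht hs, by rwa [mul_smul]⟩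

theorem null_compl_csupp (μ : Measure V) : μ (csupp μ)ᶜ = 0 := by
  refine measure_null_of_locally_null _ fun z hz => ?_
  simp only [csupp, mem_compl_iff, mem_ofPred_eq, not_forall, not_not] at hz
  obtain ⟨O, h1, h2, h3⟩ := hz
  exact ⟨O, mem_nhdsWithin_of_mem_nhds (h1.mem_nhds h2),
    measure_mono_null (t := cone O) (fun x hx => ⟨1, one_ne_zero, by rwa [one_smul]⟩) h3⟩

theorem span_of_null {μ : Measure V} (hμ : Good μ) {A : Set V} (hA : μ Aᶜ = 0) :
    Submodule.span ℝ A = ⊤ := by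
  by_contra hn
  obtain ⟨u, hu, h0⟩ := Submodule.exists_mem_ne_zero_of_ne_bot
    (mt Submodule.orthogonal_eq_bot_iff.1 hn)
  refine (hμ.pos u h0).ne' (integral_eq_zero_of_ae ?_)
  filter_upwards [show ∀ᵐ x ∂μ, x ∈ A from hA] with x hx
  rw [Submodule.inner_left_of_mem_orthogonal (Submodule.subset_span hx) hu, abs_zero, Pi.zero_apply]

theorem Good.ne_top {μ : Measure V} (hμ : Good μ) {U : Submodule ℝ V} (hU : U ≠ ⊤) :
    μ (U : Set V)ᶜ ≠ 0 := fun h =>
  hU (by rw [← span_of_null hμ h, Submodule.span_eq])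

/-- open sets that are cones in every variable and meet the product of the supports -/
theorem pos_of_csupp {μ : Measure V} [IsFiniteMeasure μ] {S : ι → Set V}
    (hS : ∀ i, MeasurableSet (S i)) {z : ι → V} (hz : ∀ i, z i ∈ csupp (μ.restrict (S i)))
    {U : Set (ι → V)} (hU : IsOpen U) (hzU : z ∈ U)
    (hcone : ∀ (t : ι → ℝ) (x : ι → V), (∀ i, t i ≠ 0) → (fun i => t i • x i) ∈ U → x ∈ U) :
    pw μ ι (U ∩ univ.pi S) ≠ 0 := by
  obtain ⟨O, h1, h2⟩ := isOpen_pi_iff'.1 hU z hzU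
  intro h
  have h3 : univ.pi (fun i => cone (O i) ∩ S i) ⊆ U ∩ univ.pi S := fun x hx => by
    choose t ht ht' using fun i => (hx i (mem_univ i)).1
    exact ⟨hcone t x ht (h2 fun i _ => ht' i), fun i hi => (hx i hi).2⟩
  have h4 := measure_mono_null h3 h
  rw [Measure.pi_pi, Finset.prod_eq_zero_iff] at h4
  obtain ⟨i, -, hi⟩ := h4
  exact hz i (O i) (h1 i).1 (h1 i).2 (by rwa [Measure.restrict_apply' (hS i)])

theorem ne_zero_PdB2 {μ : Measure V} (hμ : Good μ) : μ ≠ 0 :=
  have := hμ.mom.prob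
  IsProbabilityMeasure.ne_zero μ

theorem pos_PdB2 (b : Basis ι ℝ V) {μ : Measure V} (hμ : Good μ) {F : (ι → V) → ι → V}
    (hF : Continuous F) (hi : Integrable (fun x => |b.det (F x)|) (pw μ ι)) {z : ι → V}
    (hz : ∀ i, z i ∈ csupp μ) (hz' : b.det (F z) ≠ 0)
    (hc : ∀ (t : ι → ℝ) x, ∃ s : ι → ℝ, F (fun i => t i • x i) = fun i => s i • F x i) :
    0 < ∫ x, |b.det (F x)| ∂(pw μ ι) := by
  have := hμ.mom.prob
  rw [integral_pos_iff_support_of_nonneg (fun x => abs_nonneg _) hi, pos_iff_ne_zero]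
  have h := pos_of_csupp (μ := μ) (S := fun _ : ι => univ) (fun _ => MeasurableSet.univ) (z := z)
    (fun i => by rw [Measure.restrict_univ]; exact hz i) (U := {x | b.det (F x) ≠ 0})
    (isOpen_ne_fun ((continuous_bdet b).comp hF) continuous_const) hz' fun t x _ h h0 => by
      obtain ⟨s, hs⟩ := hc t x
      exact h (by rw [hs, AlternatingMap.map_smul_univ, h0, smul_zero])
  exact fun h' => h (measure_mono_null (fun x hx => abs_ne_zero.2 hx.1) h')

theorem Qm_pos (b : Basis ι ℝ V) (j : ι) {μ : Measure V} (hμ : Good μ) {u : V} (hu : u ≠ 0) :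
    0 < Qm b j μ u := by
  obtain ⟨y, h1, h2, h3⟩ := ext_basis b (span_of_null hμ (null_compl_csupp μ)) (J₀ := {j})
    (x := fun _ => u) (by rw [Finset.coe_singleton]; exact LinearIndepOn.singleton hu)
  refine pos_PdB2 b hμ (F := fun x => update x j u) (continuous_id.update j continuous_const)
    (integrable_Qm b j hμ.mom u) (z := update y j 0) (fun i => ?_) ?_
    fun t x => ⟨update t j 1, funext fun i => ?_⟩
  · by_cases hi : i = j
    · rw [hi, update_self]; exact zero_mem_PdB2 (ne_zero_PdB2 hμ)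
    · rw [update_of_ne hi]; exact h2 i (by simpa using hi)
  · rwa [update_idem, ← show y j = u from h1 j (by simp), update_eq_self]
  · by_cases hi : i = j
    · simp [hi]
    · simp [hi]

theorem Gm_pos (b : Basis ι ℝ V) {j k : ι} (hjk : j ≠ k) {μ : Measure V} (hμ : Good μ) {u v : V}
    (huv : LinearIndependent ℝ ![u, v]) : 0 < Gm b j k μ u v := by
  obtain ⟨y, h1, h2, h3⟩ := ext_basis b (span_of_null hμ (null_compl_csupp μ)) (J₀ := {j, k})
    (x := update (fun _ => u) k v) (by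
      rw [Finset.coe_pair, LinearIndepOn.pair_iff _ hjk, update_self, update_of_ne hjk]
      exact LinearIndependent.pair_iff.1 huv)
  have e1 := h1 j (by simp)
  have e2 := h1 k (by simp)
  rw [update_of_ne hjk] at e1
  rw [update_self] at e2
  refine pos_PdB2 b hμ (F := fun x => update (update x j u) k v)
    ((continuous_id.update j continuous_const).update k continuous_const)
    (integrable_Gm b j k hμ.mom u v) (z := update (update y k 0) j 0) (fun i => ?_) ?_
    fun t x => ⟨update (update t j 1) k 1, funext fun i => ?_⟩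
  · by_cases hi : i = j
    · rw [hi, update_self]; exact zero_mem_PdB2 (ne_zero_PdB2 hμ)
    · rw [update_of_ne hi]
      by_cases hk : i = k
      · rw [hk, update_self]; exact zero_mem_PdB2 (ne_zero_PdB2 hμ)
      · rw [update_of_ne hk]; exact h2 i (by simp [hi, hk])
  · rwa [update_idem, update_comm hjk.symm, update_idem, ← e1, ← e2, update_eq_self,
      update_eq_self]
  · by_cases hk : i = k
    · simp [hk]
    · by_cases hi : i = j
      · simp [hi, hjk]
      · simp [hi, hk]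

end Pool.Agent.P.MP_181257_gt
end
end

-- part Pool.Agent.P.MP_181257_gt.PdB2b
section

set_option autoImplicit false
set_option linter.unusedSectionVars false
set_option linter.unusedVariables false

open MeasureTheory ProbabilityTheory Module Set Filter Topology Function
open scoped RealInnerProductSpace ENNReal Pointwise LinearAlgebra.Projectivization

noncomputable section

namespace Pool.Agent.P.MP_181257_gt

variable {V : Type} [NormedAddCommGroup V] [InnerProductSpace ℝ V] [FiniteDimensional ℝ V]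
  [MeasurableSpace V] [BorelSpace V] {ι : Type} [Fintype ι] [DecidableEq ι]

theorem D_eq_abs_det_PdB2b {k : ℕ} (o : OrthonormalBasis (Fin k) ℝ V) (v : Fin k → V) :
    D v = |o.toBasis.det v| := by
  have h : Matrix.gram ℝ v = (o.toBasis.toMatrix v).transpose * o.toBasis.toMatrix v := by
    ext a c
    rw [Matrix.gram_apply, Matrix.mul_apply, ← o.sum_inner_mul_inner (v a) (v c)]
    refine Finset.sum_congr rfl fun i _ => ?_
    rw [Matrix.transpose_apply, Basis.toMatrix_apply, Basis.toMatrix_apply,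
      OrthonormalBasis.coe_toBasis_repr_apply, OrthonormalBasis.coe_toBasis_repr_apply,
      OrthonormalBasis.repr_apply_apply, OrthonormalBasis.repr_apply_apply,
      real_inner_comm (v a) (o i)]
  unfold D
  rw [h, Matrix.det_mul, Matrix.det_transpose, Basis.det_apply, Real.sqrt_mul_self_eq_abs]

theorem mp_tail_PdB2b {m : ℕ} (e : Fin (m + 1) ≃ ι) (μ : Measure V) [IsProbabilityMeasure μ] :
    MeasurePreserving (fun (x : ι → V) (i : Fin m) => x (e i.succ)) (pw μ ι) (mk μ m) := by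
  have hm : Measurable fun (x : ι → V) (i : Fin m) => x (e i.succ) :=
    measurable_pi_iff.2 fun i => measurable_pi_apply _
  refine ⟨hm, (Measure.pi_eq fun s hs => ?_).symm⟩
  rw [Measure.map_apply hm (MeasurableSet.univ_pi hs)]
  have h : (fun (x : ι → V) (i : Fin m) => x (e i.succ)) ⁻¹' univ.pi s
      = univ.pi fun i => (Fin.cons univ s : Fin (m + 1) → Set V) (e.symm i) := by
    ext x
    simp only [mem_preimage, mem_univ_pi]
    constructor
    · intro hx i
      obtain ⟨l, rfl⟩ := e.surjective i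
      rw [e.symm_apply_apply]
      refine Fin.cases ?_ (fun l => ?_) l
      · exact mem_univ _
      · exact hx l
    · intro hx l
      have := hx (e l.succ)
      rw [e.symm_apply_apply] at this
      exact this
  rw [h, Measure.pi_pi,
    e.symm.prod_comp fun l => μ ((Fin.cons univ s : Fin (m + 1) → Set V) l), Fin.prod_univ_succ]
  simp

theorem continuous_D_cons_PdB2b {m : ℕ} (u : V) :
    Continuous fun x : Fin m → V => D (Fin.cons u x : Fin (m + 1) → V) := by
  refine continuous_D.comp (continuous_pi fun l => ?_)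
  refine Fin.cases ?_ (fun l => ?_) l
  · exact continuous_const
  · exact continuous_apply l

theorem Qm_aux_PdB2b {m : ℕ} (hm : finrank ℝ V = m + 1) (b : Basis ι ℝ V) (j : ι) :
    ∃ c : ℝ, 0 < c ∧ ∀ (μ : Measure V) [IsProbabilityMeasure μ] (u : V),
      Qm b j μ u = c * ∫ x, D (Fin.cons u x : Fin (m + 1) → V) ∂(mk μ m) := by
  have hc : Fintype.card ι = m + 1 := by rw [← hm, finrank_eq_card_basis b]
  obtain ⟨e, he⟩ : ∃ e : Fin (m + 1) ≃ ι, e 0 = j :=
    ⟨(Equiv.swap 0 (Fintype.equivFinOfCardEq hc j)).trans (Fintype.equivFinOfCardEq hc).symm,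
      by simp⟩
  let o : OrthonormalBasis (Fin (m + 1)) ℝ V := (stdOrthonormalBasis ℝ V).reindex (finCongr hm)
  let b' : Basis (Fin (m + 1)) ℝ V := b.reindex e.symm
  have hb : ∀ y : ι → V, |b.det y| = |b'.det o.toBasis| * D (fun l => y (e l)) := by
    intro y
    have h1 : b'.det (fun l => y (e l)) = b.det y := by
      rw [Basis.det_reindex]
      congr 1
      funext i
      simp
    have h2 := congrArg (fun f : V [⋀^Fin (m + 1)]→ₗ[ℝ] ℝ => f fun l => y (e l))
      (AlternatingMap.eq_smul_basis_det o.toBasis b'.det)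
    simp only [AlternatingMap.smul_apply, smul_eq_mul] at h2
    rw [D_eq_abs_det_PdB2b o, ← abs_mul, ← h1, h2]
  refine ⟨|b'.det o.toBasis|, abs_pos.2 (b'.isUnit_det o.toBasis).ne_zero, fun μ _ u => ?_⟩
  have hmp := mp_tail_PdB2b e μ
  rw [← hmp.map_eq, integral_map hmp.measurable.aemeasurable
    (continuous_D_cons_PdB2b u).aestronglyMeasurable, ← integral_const_mul]
  unfold Qm
  refine integral_congr_ae (Eventually.of_forall fun x => ?_)
  simp only
  rw [hb]
  congr 2
  funext l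
  refine Fin.cases ?_ (fun l => ?_) l
  · rw [he, update_self, Fin.cons_zero]
  · rw [Fin.cons_succ, update_of_ne]
    rw [← he]
    exact fun h => Fin.succ_ne_zero l (e.injective h)

theorem Qm_eq_Qd (b : Basis ι ℝ V) (j : ι) : ∃ c : ℝ, 0 < c ∧
    ∀ (μ : Measure V) [IsProbabilityMeasure μ] (u : V), Qm b j μ u = c * Qd μ u := by
  have h1 : 0 < finrank ℝ V := by
    rw [finrank_eq_card_basis b]
    exact Fintype.card_pos_iff.2 ⟨j⟩
  exact Qm_aux_PdB2b (m := finrank ℝ V - 1) (by omega) b j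

theorem Qd_pos {μ : Measure V} (hμ : Good μ) {u : V} (hu : u ≠ 0) : 0 < Qd μ u := by
  haveI := hμ.mom.prob
  haveI : Nontrivial V := ⟨⟨u, 0, hu⟩⟩
  have h1 : 0 < finrank ℝ V := finrank_pos
  obtain ⟨c, hc, h⟩ := Qm_eq_Qd (finBasis ℝ V) ⟨0, h1⟩
  have h2 := Qm_pos (finBasis ℝ V) ⟨0, h1⟩ hμ hu
  rw [h] at h2
  exact (mul_pos_iff_of_pos_left hc).1 h2

theorem Qd_smul (hn : 1 ≤ finrank ℝ V) (μ : Measure V) [IsProbabilityMeasure μ] (t : ℝ) (u : V) :
    Qd μ (t • u) = |t| * Qd μ u := by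
  unfold Qd
  rw [← integral_const_mul]
  refine integral_congr_ae (Eventually.of_forall fun x => ?_)
  simp only
  rw [D_cons_eq, D_cons_eq, map_smul, norm_smul, Real.norm_eq_abs]
  ring

end Pool.Agent.P.MP_181257_gt
end
end

-- part Pool.Agent.P.MP_181257_gt.PdB3
section

set_option autoImplicit false
set_option linter.unusedSectionVars false
set_option linter.unusedVariables false

open MeasureTheory ProbabilityTheory Module Set Filter Topology Function
open scoped RealInnerProductSpace ENNReal Pointwise LinearAlgebra.Projectivization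

noncomputable section

namespace Pool.Agent.P.MP_181257_gt

variable {V : Type} [NormedAddCommGroup V] [InnerProductSpace ℝ V] [FiniteDimensional ℝ V]
  [MeasurableSpace V] [BorelSpace V] {ι : Type} [Fintype ι] [DecidableEq ι]

/-- the transfer identity -/
theorem Half.transfer (b : Basis ι ℝ V) {μ ν : Measure V} (hμ : Mom μ) (hν : Mom ν)
    (h : Half μ ν) : ∃ a : ℝ, 0 < a ∧ (∀ j u, Hm ν u = a * Qm b j μ u) ∧
      ∀ (j : ι) (φ : V → ℝ≥0∞), Measurable φ →
        (∀ (t : ℝ) (x : V), φ (t • x) = ENNReal.ofReal |t| * φ x) →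
        ∫⁻ w, φ w ∂ν = ENNReal.ofReal a * ∫⁻ x, φ (Nv b j x) ∂(pw μ ι) := by
  have := hμ.prob
  obtain ⟨a, ha, hau⟩ := h
  rcases isEmpty_or_nonempty ι with hι | ⟨⟨j0⟩⟩
  · exact ⟨1, one_pos, fun j => hι.elim j, fun j => hι.elim j⟩
  obtain ⟨c, hc, hcu⟩ := Qm_eq_Qd b j0
  have h1 : ∀ j u, Hm ν u = a / c * Qm b j μ u := by
    intro j u
    rw [Qm_perm b j j0, hcu μ u, hau u]
    field_simp
  refine ⟨a / c, div_pos ha hc, h1, fun j φ hφ hom => ?_⟩
  have hm : Measurable (Nv b j) := (continuous_Nv b j).measurable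
  have hβ : Mom ((pw μ ι).map (Nv b j)) := by
    refine ⟨Measure.isProbabilityMeasure_map hm.aemeasurable, ?_⟩
    rw [integrable_map_measure continuous_norm.aestronglyMeasurable hm.aemeasurable]
    exact integrable_norm_Nv b j hμ
  have h2 : ∀ u : V, ∫ x, |⟪u, x⟫| ∂ν = a / c * ∫ x, |⟪u, x⟫| ∂((pw μ ι).map (Nv b j)) := by
    intro u
    have hcu : Continuous fun x : V => |⟪u, x⟫| := (continuous_const.inner continuous_id).abs
    rw [integral_map hm.aemeasurable hcu.aestronglyMeasurable]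
    simp only [inner_Nv]
    exact h1 j u
  rw [cos_inj hν hβ (div_pos ha hc) h2 hφ hom, lintegral_map hφ hm]

theorem marginal_pt (b : Basis ι ℝ V) (j : ι) {μ : Measure V} (hμ : Mom μ) {ψ : V → ℝ≥0∞}
    (hψ : Measurable ψ) :
    ∫⁻ x, ψ (x j) * ENNReal.ofReal |b.det x| ∂(pw μ ι)
      = ∫⁻ y, ψ y * ENNReal.ofReal (Qm b j μ y) ∂μ := by
  have := hμ.prob
  have hd : Measurable fun x : ι → V => ENNReal.ofReal |b.det x| :=
    (continuous_bdet b).abs.measurable.ennreal_ofReal
  have hF : Measurable fun x : ι → V => ψ (x j) * ENNReal.ofReal |b.det x| :=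
    (hψ.comp (measurable_pi_apply j)).mul hd
  rw [lintegral_update' μ j hF]
  refine lintegral_congr fun y => ?_
  simp only [update_self]
  have hu : Measurable fun x : ι → V => update x j y := measurable_update_left
  have hd' : Measurable fun x : ι → V => ENNReal.ofReal |b.det (update x j y)| := hd.comp hu
  rw [lintegral_const_mul _ hd', Qm,
    ofReal_integral_eq_lintegral_ofReal (integrable_Qm b j hμ y)
      (ae_of_all _ fun x => abs_nonneg _)]

theorem marginal_nv (b : Basis ι ℝ V) (j : ι) {μ : Measure V} (hμ : Mom μ) {ψ : V → ℝ≥0∞}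
    (hψ : Measurable ψ) :
    ∫⁻ x, ψ (Nv b j x) * ENNReal.ofReal |b.det x| ∂(pw μ ι)
      = ∫⁻ x, ψ (Nv b j x) * ENNReal.ofReal (Hm μ (Nv b j x)) ∂(pw μ ι) := by
  have := hμ.prob
  have hd : Measurable fun x : ι → V => ENNReal.ofReal |b.det x| :=
    (continuous_bdet b).abs.measurable.ennreal_ofReal
  have hm : Measurable (Nv b j) := (continuous_Nv b j).measurable
  have hF : Measurable fun x : ι → V => ψ (Nv b j x) * ENNReal.ofReal |b.det x| :=
    (hψ.comp hm).mul hd
  rw [lintegral_update μ j hF]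
  refine lintegral_congr fun x => ?_
  simp only [Nv_update]
  have hu : Measurable fun y : V => update x j y := measurable_update x
  have hd' : Measurable fun y : V => ENNReal.ofReal |b.det (update x j y)| := hd.comp hu
  rw [lintegral_const_mul _ hd', ofReal_Hm hμ]
  congr 1
  refine lintegral_congr fun y => ?_
  rw [real_inner_comm, inner_Nv]

end Pool.Agent.P.MP_181257_gt
end
end

-- part Pool.Agent.P.MP_181257_gt.PdB4
section

set_option autoImplicit false
set_option linter.unusedSectionVars false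
set_option linter.unusedVariables false

open MeasureTheory ProbabilityTheory Module Set Filter Topology Function
open scoped RealInnerProductSpace ENNReal Pointwise LinearAlgebra.Projectivization

noncomputable section

namespace Pool.Agent.P.MP_181257_gt

variable {V : Type} [NormedAddCommGroup V] [InnerProductSpace ℝ V] [FiniteDimensional ℝ V]
  [MeasurableSpace V] [BorelSpace V] {ι : Type} [Fintype ι] [DecidableEq ι]

theorem lint_zero_PdB4 {X : Type} [MeasurableSpace X] (m : Measure X) {f : X → V}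
    (hf : Measurable f) {S : Set V} (hS : MeasurableSet S) :
    ∫⁻ x, S.indicator (fun w => ENNReal.ofReal ‖w‖) (f x) ∂m = 0 ↔
      m {x | f x ∈ S ∧ f x ≠ 0} = 0 := by
  have hφ : Measurable (S.indicator fun w : V => ENNReal.ofReal ‖w‖) :=
    (measurable_norm.ennreal_ofReal).indicator hS
  have hm : Measurable fun x => S.indicator (fun w : V => ENNReal.ofReal ‖w‖) (f x) := hφ.comp hf
  rw [lintegral_eq_zero_iff hm, Filter.EventuallyEq, ae_iff]
  have : {x | ¬ S.indicator (fun w : V => ENNReal.ofReal ‖w‖) (f x) = (0 : X → ℝ≥0∞) x}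
      = {x | f x ∈ S ∧ f x ≠ 0} := by
    ext x
    by_cases hx : f x ∈ S
    · simp [hx]
    · simp [hx]
  rw [this]

/-- null cones correspond -/
theorem Half.null_iff (b : Basis ι ℝ V) (j : ι) {μ ν : Measure V} (hμ : Mom μ) (hν : Good ν)
    (h : Half μ ν) {S : Set V} (hS : MeasurableSet S)
    (hc : ∀ (t : ℝ) (x : V), t ≠ 0 → (t • x ∈ S ↔ x ∈ S)) :
    ν S = 0 ↔ pw μ ι {x | Nv b j x ∈ S ∧ Nv b j x ≠ 0} = 0 := by
  obtain ⟨a, ha, -, ht⟩ := Half.transfer b hμ hν.mom h
  have hφ : Measurable (S.indicator fun w : V => ENNReal.ofReal ‖w‖) :=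
    (measurable_norm.ennreal_ofReal).indicator hS
  have hom : ∀ (t : ℝ) (x : V), S.indicator (fun w : V => ENNReal.ofReal ‖w‖) (t • x)
      = ENNReal.ofReal |t| * S.indicator (fun w : V => ENNReal.ofReal ‖w‖) x := by
    intro t x
    by_cases h0 : t = 0
    · subst h0
      by_cases hz : (0 : V) ∈ S <;> simp [hz]
    · by_cases hx : x ∈ S
      · rw [indicator_of_mem hx, indicator_of_mem ((hc t x h0).2 hx), norm_smul,
          ENNReal.ofReal_mul (norm_nonneg _), Real.norm_eq_abs]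
      · rw [indicator_of_notMem hx, indicator_of_notMem (fun h' => hx ((hc t x h0).1 h')), mul_zero]
  have e := ht j _ hφ hom
  rw [← lint_zero_PdB4 (pw μ ι) (continuous_Nv b j).measurable hS]
  have e1 := lint_zero_PdB4 ν (f := id) measurable_id hS
  simp only [id] at e1
  have e2 : ν S = 0 ↔ ν {x | x ∈ S ∧ x ≠ 0} = 0 := by
    constructor
    · intro h1
      exact measure_mono_null (fun x hx => hx.1) h1
    · intro h1
      refine measure_mono_null (t := {x | x ∈ S ∧ x ≠ 0} ∪ {0}) ?_ (measure_union_null h1 hν.zero)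
      intro x hx
      by_cases hx0 : x = 0
      · exact Or.inr hx0
      · exact Or.inl ⟨hx, hx0⟩
  rw [e2, ← e1, e, mul_eq_zero, or_iff_right]
  exact (ENNReal.ofReal_pos.2 ha).ne'

theorem exists_Half (hn : 1 ≤ finrank ℝ V) {μ : Measure V} (hμ : Good μ) :
    ∃ ν : Measure V, Good ν ∧ Half μ ν := by
  have := hμ.mom.prob
  set b := Module.finBasis ℝ V with hb
  set j : Fin (finrank ℝ V) := ⟨0, hn⟩ with hj
  have hN : Measurable (Nv b j) := (continuous_Nv b j).measurable
  set β : Measure V := (pw μ (Fin (finrank ℝ V))).map (Nv b j) with hβ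
  have : IsProbabilityMeasure β := Measure.isProbabilityMeasure_map hN.aemeasurable
  have hT : MeasurableSet ({0}ᶜ : Set V) := (measurableSet_singleton 0).compl
  have hcont : ∀ u : V, Continuous fun x : V => |⟪u, x⟫| := fun u => by fun_prop
  have hQ : ∀ u, ∫ x in ({0}ᶜ : Set V), |⟪u, x⟫| ∂β = Qm b j μ u := by
    intro u
    rw [setIntegral_eq_integral_of_forall_compl_eq_zero (fun x hx => by
      have : x = 0 := by simpa using hx
      simp [this]), hβ, integral_map hN.aemeasurable (hcont u).aestronglyMeasurable]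
    simp only [inner_Nv]
    rfl
  have hne : β ({0}ᶜ : Set V) ≠ 0 := by
    intro h0
    have h1 := Qm_pos b j hμ (b.ne_zero j)
    rw [← hQ, Measure.restrict_eq_zero.2 h0, integral_zero_measure] at h1
    exact lt_irrefl _ h1
  have hpos : 0 < (β ({0}ᶜ : Set V))⁻¹.toReal :=
    ENNReal.toReal_pos (ENNReal.inv_ne_zero.2 (measure_ne_top _ _)) (ENNReal.inv_ne_top.2 hne)
  have hH : ∀ u, Hm (β[|({0}ᶜ : Set V)]) u = (β ({0}ᶜ : Set V))⁻¹.toReal * Qm b j μ u := by
    intro u
    rw [Hm, ProbabilityTheory.cond, integral_smul_measure, hQ, smul_eq_mul]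
  obtain ⟨c, hc, hcQ⟩ := Qm_eq_Qd b j
  refine ⟨β[|({0}ᶜ : Set V)], ⟨⟨cond_isProbabilityMeasure hne, ?_⟩, ?_, fun u hu => ?_⟩,
    (β ({0}ᶜ : Set V))⁻¹.toReal * c, mul_pos hpos hc, fun u => ?_⟩
  · have hi : Integrable (fun x : V => ‖x‖) β :=
      (integrable_map_measure continuous_norm.aestronglyMeasurable hN.aemeasurable).2
        (integrable_norm_Nv b j hμ.mom)
    exact hi.restrict.smul_measure (ENNReal.inv_ne_top.2 hne)
  · rw [cond_apply hT]
    simp
  · rw [hH]
    exact mul_pos hpos (Qm_pos b j hμ hu)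
  · rw [hH, hcQ, mul_assoc]

theorem Qd_congr {α β : Measure V} (hα : Mom α) (hβ : Mom β) {c : ℝ} (hc : 0 < c)
    (h : ∀ u, Hm α u = c * Hm β u) (u : V) : Qd α u = c ^ (finrank ℝ V - 1) * Qd β u := by
  have hm : Measurable fun x : Fin (finrank ℝ V - 1) → V =>
      D (Fin.cons u x : Fin (finrank ℝ V - 1 + 1) → V) := by
    refine measurable_D (measurable_pi_lambda _ fun j => ?_)
    refine Fin.cases ?_ (fun j => ?_) j <;> simp only [Fin.cons_zero, Fin.cons_succ] <;> fun_prop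
  have e := cos_inj_pi hα hβ hc h (finrank ℝ V - 1) hm.ennreal_ofReal (fun t x => by
    have e1 : (Fin.cons u (fun j => t j • x j) : Fin (finrank ℝ V - 1 + 1) → V)
        = fun l => (Fin.cons 1 t : Fin (finrank ℝ V - 1 + 1) → ℝ) l •
          (Fin.cons u x : Fin (finrank ℝ V - 1 + 1) → V) l := by
      funext l
      refine Fin.cases ?_ (fun l => ?_) l <;> simp
    rw [e1, D_smul, Fin.prod_univ_succ, ENNReal.ofReal_mul (by positivity)]
    simp only [Fin.cons_zero, Fin.cons_succ, abs_one, one_mul]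
    rw [ENNReal.ofReal_prod_of_nonneg (fun _ _ => abs_nonneg _)])
  unfold Qd
  rw [integral_eq_lintegral_of_nonneg_ae (ae_of_all _ fun _ => D_nonneg _) hm.aestronglyMeasurable,
    integral_eq_lintegral_of_nonneg_ae (ae_of_all _ fun _ => D_nonneg _) hm.aestronglyMeasurable,
    e, ENNReal.toReal_mul, ENNReal.toReal_pow, ENNReal.toReal_ofReal hc.le]

end Pool.Agent.P.MP_181257_gt
end
end

-- part Pool.Agent.P.MP_181257_gt.PdG1
section

set_option autoImplicit false
set_option linter.unusedSectionVars false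
set_option linter.unusedVariables false

open MeasureTheory ProbabilityTheory Module Set Filter Topology Function
open scoped RealInnerProductSpace ENNReal Pointwise LinearAlgebra.Projectivization

noncomputable section

namespace Pool.Agent.P.MP_181257_gt

variable {V : Type} [NormedAddCommGroup V] [InnerProductSpace ℝ V] [FiniteDimensional ℝ V]
  [MeasurableSpace V] [BorelSpace V] {ι : Type} [Fintype ι] [DecidableEq ι]

theorem meas_PdG1 (U : Submodule ℝ V) : MeasurableSet (U : Set V) :=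
  (Submodule.closed_of_finiteDimensional U).measurableSet

theorem meet_PdG1 {x y : ℙ ℝ V} (h : x ≠ y) {z : V} (hx : z ∈ x.submodule) (hy : z ∈ y.submodule) :
    z = 0 := by
  by_contra hz
  have key : ∀ w : ℙ ℝ V, z ∈ w.submodule → w.submodule = ℝ ∙ z := fun w hw =>
    (Submodule.eq_of_le_of_finrank_eq ((Submodule.span_singleton_le_iff_mem _ _).2 hw)
      (by rw [finrank_span_singleton hz, w.finrank_submodule])).symm
  exact h (Projectivization.submodule_injective ((key x hx).trans (key y hy).symm))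

theorem Mp_nonneg (b : Basis ι ℝ V) (j k : ι) (μ : Measure V) (π : Pl V) : 0 ≤ Mp b j k μ π := by
  exact integral_nonneg fun _ => abs_nonneg _

theorem aL_nonneg (μ ν : Measure V) (x : ℙ ℝ V) : 0 ≤ aL μ ν x := by
  exact integral_nonneg fun z => Hm_nonneg ν z

theorem aL_le {μ ν : Measure V} (hμ : Mom μ) (hν : Mom ν) (x : ℙ ℝ V) :
    aL μ ν x ≤ ∫ z, Hm ν z ∂μ := by
  exact setIntegral_le_integral (integrable_Hm_comp hμ hν)
    (Eventually.of_forall fun z => Hm_nonneg ν z)

theorem sum_aL_le {μ ν : Measure V} (hμ : Good μ) (hν : Mom ν) (S : Finset (ℙ ℝ V)) :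
    ∑ x ∈ S, aL μ ν x ≤ ∫ z, Hm ν z ∂μ := by
  have hi := integrable_Hm_comp hμ.mom hν
  have e : ∀ x : ℙ ℝ V, aL μ ν x = ∫ z in (x.submodule : Set V) \ {0}, Hm ν z ∂μ := fun x =>
    (setIntegral_congr_set (sdiff_null_ae_eq_self hμ.zero)).symm
  simp only [e]
  rw [← integral_biUnion_finset S (fun x _ => (meas_PdG1 _).diff (measurableSet_singleton 0))
    (fun x _ y _ hxy => Set.disjoint_left.2 fun z hx hy => hx.2 (meet_PdG1 hxy hx.1 hy.1))
    fun x _ => hi.integrableOn]
  exact setIntegral_le_integral hi (Eventually.of_forall fun z => Hm_nonneg ν z)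

theorem aL_pos {μ ν : Measure V} (hμ : Good μ) (hν : Good ν) {x : ℙ ℝ V}
    (hx : x.rep ∈ atoms μ) : 0 < aL μ ν x := by
  have hi := integrable_Hm_comp hμ.mom hν.mom
  have h0 : μ ((x.submodule : Set V)) ≠ 0 := by
    rw [Projectivization.submodule_eq]
    exact hx.resolve_left x.rep_nonzero
  refine (setIntegral_pos_iff_support_of_nonneg_ae
    (Eventually.of_forall fun z => Hm_nonneg ν z) hi.integrableOn).2 ?_
  rw [pos_iff_ne_zero]
  intro h
  refine h0 (measure_mono_null (t := (support (Hm ν) ∩ (x.submodule : Set V)) ∪ {0})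
    (fun z hz => ?_) (measure_union_null h hμ.zero))
  by_cases hz0 : z = 0
  · exact Or.inr hz0
  · exact Or.inl ⟨(hν.pos z hz0).ne', hz⟩

end Pool.Agent.P.MP_181257_gt
end
end

-- part Pool.Agent.P.MP_181257_gt.PdG2
section

set_option autoImplicit false
set_option linter.unusedSectionVars false
set_option linter.unusedVariables false

open MeasureTheory ProbabilityTheory Module Set Filter Topology Function
open scoped RealInnerProductSpace ENNReal Pointwise LinearAlgebra.Projectivization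

noncomputable section

namespace Pool.Agent.P.MP_181257_gt

variable {V : Type} [NormedAddCommGroup V] [InnerProductSpace ℝ V] [FiniteDimensional ℝ V]
  [MeasurableSpace V] [BorelSpace V] {ι : Type} [Fintype ι] [DecidableEq ι]

theorem det_ne_PdG2 (b : Basis ι ℝ V) {j k : ι} (hjk : j ≠ k) (π : Pl V) {z y : ι → V}
    (hz : LinearIndepOn ℝ z (((Finset.univ.erase j).erase k : Finset ι) : Set ι))
    (hU : ∀ i, i ≠ j → i ≠ k → y i ∈ π.spᗮ)
    (hy : ∀ i, i ≠ j → i ≠ k → ∃ t : ℝ, t ≠ 0 ∧ t • z i = y i) :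
    b.det (update (update y j π.p) k π.q) ≠ 0 := by
  rw [bdet_ne_zero_iff, Fintype.linearIndependent_iff]
  intro g hg
  have hp : π.p ∈ π.sp := Submodule.subset_span (by simp)
  have hq : π.q ∈ π.sp := Submodule.subset_span (by simp)
  have hj : g j = 0 := by
    have e := congrArg (fun w => ⟪π.p, w⟫) hg
    simp only [inner_sum, inner_smul_right, inner_zero_right] at e
    rw [Finset.sum_eq_single j] at e
    · rwa [update_of_ne hjk, update_self, real_inner_self_eq_norm_sq, π.hp, one_pow, mul_one] at e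
    · intro i _ hij
      by_cases hik : i = k
      · rw [hik, update_self, π.hpq, mul_zero]
      · rw [update_of_ne hik, update_of_ne hij, (hU i hij hik) _ hp, mul_zero]
    · simp
  have hk : g k = 0 := by
    have e := congrArg (fun w => ⟪π.q, w⟫) hg
    simp only [inner_sum, inner_smul_right, inner_zero_right] at e
    rw [Finset.sum_eq_single k] at e
    · rwa [update_self, real_inner_self_eq_norm_sq, π.hq, one_pow, mul_one] at e
    · intro i _ hik
      by_cases hij : i = j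
      · rw [hij, hj, zero_mul]
      · rw [update_of_ne hik, update_of_ne hij, (hU i hij hik) _ hq, mul_zero]
    · simp
  choose! t ht using hy
  have hs : ∑ i ∈ (Finset.univ.erase j).erase k, (g i * t i) • z i = 0 := by
    rw [← hg]
    refine (Finset.sum_congr rfl fun i hi => ?_).trans
      (Finset.sum_subset (Finset.subset_univ _) fun i _ hi => ?_)
    · simp only [Finset.mem_erase, Finset.mem_univ, and_true] at hi
      rw [update_of_ne hi.1, update_of_ne hi.2, ← (ht i hi.2 hi.1).2, smul_smul]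
    · by_cases hik : i = k
      · rw [hik, hk, zero_smul]
      · have hij : i = j := by
          by_contra hij
          exact hi (by simp [hij, hik])
        rw [hij, hj, zero_smul]
  intro i
  by_cases hij : i = j
  · rw [hij, hj]
  by_cases hik : i = k
  · rw [hik, hk]
  have h0 := linearIndepOn_finset_iff.1 hz _ hs i (by simp [hij, hik])
  exact (mul_eq_zero.1 h0).resolve_right (ht i hij hik).1

theorem Mp_pos (b : Basis ι ℝ V) {j k : ι} (hjk : j ≠ k) {μ : Measure V} (hμ : Good μ)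
    {π : Pl V} (h : Sp (atoms μ) π.spᗮ) : 0 < Mp b j k μ π := by
  have := hμ.mom.prob
  have hc : ((Finset.univ.erase j).erase k : Finset ι).card ≤ finrank ℝ π.spᗮ := by
    have h1 := π.sp.finrank_add_finrank_orthogonal
    rw [π.finrank_sp, finrank_eq_card_basis b] at h1
    rw [Finset.card_erase_of_mem (by simp [hjk.symm]), Finset.card_erase_of_mem (by simp),
      Finset.card_univ]
    omega
  obtain ⟨z, -, hz, hi⟩ := ext_indep (J₀ := ∅) (x := fun _ : ι => (0 : V)) h (Finset.empty_subset _)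
    hc (by simp) (by simp)
  let B : ι → Set V := fun i =>
    if i = j ∨ i = k then univ else ((ℝ ∙ z i : Submodule ℝ V) : Set V) \ {0}
  have hB : pw μ ι (univ.pi B) ≠ 0 := by
    rw [Measure.pi_pi]
    refine Finset.prod_ne_zero_iff.2 fun i _ => ?_
    by_cases h1 : i = j ∨ i = k
    · simp [B, h1]
    · simp only [B, if_neg h1]
      rw [measure_sdiff_null hμ.zero]
      have hm : i ∈ (Finset.univ.erase j).erase k := by
        rw [not_or] at h1
        simp [h1.1, h1.2]
      exact (hz i hm (by simp)).1.resolve_left (hi.ne_zero (Finset.mem_coe.2 hm))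
  rw [Mp, setIntegral_pos_iff_support_of_nonneg_ae (Eventually.of_forall fun y => abs_nonneg _)
    (integrable_Gm b j k hμ.mom _ _).integrableOn]
  refine lt_of_lt_of_le (pos_iff_ne_zero.2 hB) (measure_mono fun y hy => ?_)
  have hy' : ∀ i, i ≠ j → i ≠ k → ∃ t : ℝ, t ≠ 0 ∧ t • z i = y i := fun i hij hik => by
    have h1 := hy i (mem_univ i)
    simp only [B, if_neg (not_or.2 ⟨hij, hik⟩)] at h1
    obtain ⟨t, ht⟩ := Submodule.mem_span_singleton.1 h1.1
    refine ⟨t, ?_, ht⟩
    rintro rfl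
    exact h1.2 (by rw [← ht, zero_smul]; rfl)
  have hU : ∀ i, i ≠ j → i ≠ k → y i ∈ π.spᗮ := fun i hij hik => by
    obtain ⟨t, -, ht⟩ := hy' i hij hik
    rw [← ht]
    exact Submodule.smul_mem _ _ (hz i (by simp [hij, hik]) (by simp)).2
  exact ⟨abs_ne_zero.2 (det_ne_PdG2 b hjk π hi hU hy'), hU⟩

/-- the pointwise inequality -/
theorem point_PdG2 (b : Basis ι ℝ V) (j : ι) {x ξ v : V} (hv : ⟪x, v⟫ = 0) (y : ι → V) :
    |⟪ξ, v⟫| * |b.det (update y j x)| ≤
      ∑ i ∈ Finset.univ.erase j, |b.det (update (update y j x) i ξ)| * |⟪v, y i⟫| := by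
  have e := congrArg (fun w => ⟪v, w⟫) (cramer_vec b (update y j x) ξ)
  simp only [inner_sum, inner_smul_right] at e
  rw [← Finset.add_sum_erase _ _ (Finset.mem_univ j), update_self, real_inner_comm x v, hv,
    mul_zero, zero_add] at e
  rw [← abs_mul, mul_comm, real_inner_comm v ξ, e]
  refine (Finset.abs_sum_le_sum_abs _ _).trans (Finset.sum_le_sum fun i hi => ?_)
  rw [abs_mul, update_of_ne (Finset.ne_of_mem_erase hi)]

/-- one term of the expansion -/
theorem term_PdG2 (b : Basis ι ℝ V) {j i : ι} (hij : j ≠ i) {μ : Measure V} (hμ : Mom μ)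
    (x ξ v : V) :
    Integrable (fun y : ι → V => |b.det (update (update y j x) i ξ)| * |⟪v, y i⟫|) (pw μ ι) ∧
      ∫ y, |b.det (update (update y j x) i ξ)| * |⟪v, y i⟫| ∂(pw μ ι)
        = Hm μ v * Gm b j i μ x ξ := by
  have := hμ.prob
  have hmp := mp_update (ι := ι) μ i
  have hc : Continuous fun y : ι → V => |b.det (update (update y j x) i ξ)| * |⟪v, y i⟫| := by
    refine Continuous.mul (Continuous.abs ((continuous_bdet b).comp ?_)) (by fun_prop)
    exact (continuous_id.update j continuous_const).update i continuous_const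
  have e : (fun y : ι → V => |b.det (update (update y j x) i ξ)| * |⟪v, y i⟫|) ∘
      (fun p : (ι → V) × V => update p.1 i p.2) =
      fun p => |b.det (update (update p.1 j x) i ξ)| * |⟪v, p.2⟫| := by
    funext p
    simp only [comp_apply, update_self]
    rw [update_comm hij.symm, update_idem]
  refine ⟨(hmp.integrable_comp hc.aestronglyMeasurable).1 ?_, ?_⟩
  · rw [e]
    exact (integrable_Gm b j i hμ x ξ).mul_prod (integrable_Hm hμ v)
  · have h1 := integral_map (μ := (pw μ ι).prod μ) hmp.measurable.aemeasurable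
      hc.aestronglyMeasurable
    rw [hmp.map_eq] at h1
    rw [h1, mul_comm]
    refine Eq.trans (integral_congr_ae (Eventually.of_forall fun p => congrFun e p)) ?_
    exact integral_prod_mul (fun y : ι → V => |b.det (update (update y j x) i ξ)|)
      fun w : V => |⟪v, w⟫|

/-- the Laplace inequality -/
theorem laplace_le (b : Basis ι ℝ V) {j k : ι} (hjk : j ≠ k) {μ : Measure V} (hμ : Mom μ)
    {x ξ v : V} (hv : ⟪x, v⟫ = 0) :
    |⟪ξ, v⟫| * Qm b j μ x ≤ ((Fintype.card ι : ℝ) - 1) * (Hm μ v * Gm b j k μ x ξ) := by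
  have := hμ.prob
  have hI := fun i (hi : i ∈ Finset.univ.erase j) =>
    term_PdG2 b (Finset.ne_of_mem_erase hi).symm hμ x ξ v
  rw [Qm, ← integral_const_mul]
  refine (integral_mono ((integrable_Qm b j hμ x).const_mul _)
    (integrable_finsetSum _ fun i hi => (hI i hi).1) (point_PdG2 b j hv)).trans (le_of_eq ?_)
  rw [integral_finsetSum _ fun i hi => (hI i hi).1,
    Finset.sum_congr rfl fun i hi => (hI i hi).2.trans
      (by rw [Gm_perm b (Finset.ne_of_mem_erase hi).symm hjk]),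
    Finset.sum_const, Finset.card_erase_of_mem (Finset.mem_univ j), Finset.card_univ, nsmul_eq_mul,
    Nat.cast_sub (Fintype.card_pos_iff.2 ⟨j⟩), Nat.cast_one]

end Pool.Agent.P.MP_181257_gt
end
end

-- part Pool.Agent.P.MP_181257_gt.PdG2b
section

set_option autoImplicit false
set_option linter.unusedSectionVars false
set_option linter.unusedVariables false

open MeasureTheory ProbabilityTheory Module Set Filter Topology Function
open scoped RealInnerProductSpace ENNReal Pointwise LinearAlgebra.Projectivization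

noncomputable section

namespace Pool.Agent.P.MP_181257_gt

variable {V : Type} [NormedAddCommGroup V] [InnerProductSpace ℝ V] [FiniteDimensional ℝ V]
  [MeasurableSpace V] [BorelSpace V] {ι : Type} [Fintype ι] [DecidableEq ι]

theorem point_PdG2b (b : Basis ι ℝ V) (j : ι) {x ξ v : V} (hv : ⟪x, v⟫ = 0) (w : ι → V) :
    |⟪ξ, v⟫| * |b.det (update w j x)| ≤
      ∑ i ∈ Finset.univ.erase j, |b.det (update (update w j x) i ξ)| * |⟪v, w i⟫| := by
  have h := congrArg (fun u => ⟪u, v⟫) (cramer_vec b (update w j x) ξ)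
  simp only [sum_inner, real_inner_smul_left] at h
  rw [← Finset.add_sum_erase _ _ (Finset.mem_univ j), update_self, hv, mul_zero, zero_add] at h
  rw [← abs_mul, mul_comm, h]
  refine (Finset.abs_sum_le_sum_abs _ _).trans (le_of_eq ?_)
  refine Finset.sum_congr rfl fun i hi => ?_
  rw [abs_mul, update_of_ne (Finset.ne_of_mem_erase hi), real_inner_comm]

theorem term_PdG2b (b : Basis ι ℝ V) {j i : ι} (hij : i ≠ j) {μ : Measure V} (hμ : Mom μ)
    (x ξ v : V) :
    Integrable (fun w : ι → V => |b.det (update (update w j x) i ξ)| * |⟪v, w i⟫|) (pw μ ι) ∧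
      ∫ w, |b.det (update (update w j x) i ξ)| * |⟪v, w i⟫| ∂(pw μ ι) =
        Gm b j i μ x ξ * Hm μ v := by
  have := hμ.1
  have hc : Continuous fun w : ι → V => |b.det (update (update w j x) i ξ)| * |⟪v, w i⟫| := by
    refine Continuous.mul (Continuous.abs ?_) (Continuous.abs ?_)
    · exact (continuous_bdet b).comp
        ((continuous_id.update j continuous_const).update i continuous_const)
    · exact continuous_const.inner (continuous_apply i)
  have hmp := mp_update (ι := ι) μ i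
  have he : ((fun w : ι → V => |b.det (update (update w j x) i ξ)| * |⟪v, w i⟫|) ∘
      fun p : (ι → V) × V => update p.1 i p.2) =
      fun p : (ι → V) × V => |b.det (update (update p.1 j x) i ξ)| * |⟪v, p.2⟫| := by
    funext p
    simp only [Function.comp, update_self]
    rw [update_comm hij, update_idem]
  constructor
  · rw [← hmp.integrable_comp hc.aestronglyMeasurable, he]
    exact (integrable_Gm b j i hμ x ξ).mul_prod (integrable_Hm hμ v)
  · rw [← hmp.map_eq, integral_map hmp.measurable.aemeasurable hc.aestronglyMeasurable]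
    have := congrArg (fun F => ∫ p, F p ∂((pw μ ι).prod μ)) he
    simp only [Function.comp] at this
    rw [this]
    exact integral_prod_mul (fun w : ι → V => |b.det (update (update w j x) i ξ)|)
      (fun z : V => |⟪v, z⟫|)

theorem laplace_lt (b : Basis ι ℝ V) {j k : ι} (hjk : j ≠ k) {μ : Measure V} (hμ : Good μ)
    (ha : Submodule.span ℝ (atoms μ) = ⊤) (hn : 3 ≤ Fintype.card ι) {x ξ v y : V}
    (hv : ⟪x, v⟫ = 0) (hy : y ∈ atoms μ) (hyv : ⟪y, v⟫ ≠ 0)
    (hi : LinearIndependent ℝ ![x, ξ, y]) :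
    |⟪ξ, v⟫| * Qm b j μ x < ((Fintype.card ι : ℝ) - 1) * (Hm μ v * Gm b j k μ x ξ) := by
  have := hμ.mom.1
  obtain ⟨i0, -, hi0⟩ : ∃ i0 : ι, i0 ∈ Finset.univ ∧ i0 ∉ ({j, k} : Finset ι) := by
    apply Finset.exists_mem_notMem_of_card_lt_card
    rw [Finset.card_univ]
    exact lt_of_le_of_lt Finset.card_le_two (by omega)
  simp only [Finset.mem_insert, Finset.mem_singleton, not_or] at hi0
  obtain ⟨hij, hik⟩ := hi0
  -- a basis through `x`, `ξ`, `y` and atoms
  obtain ⟨z, hzj, hzk, hzi, hza, hz⟩ : ∃ z : ι → V, z j = x ∧ z k = ξ ∧ z i0 = y ∧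
      (∀ m, m ≠ j → m ≠ k → z m ∈ atoms μ) ∧ b.det z ≠ 0 := by
    let e : Fin 3 → ι := ![j, k, i0]
    have he : Injective e := by
      intro a c hac
      fin_cases a <;> fin_cases c <;> simp_all [e, eq_comm]
    let x0 : ι → V := update (update (update 0 j x) k ξ) i0 y
    have h0 : x0 j = x := by
      simp only [x0]
      rw [update_of_ne (Ne.symm hij), update_of_ne hjk, update_self]
    have h1 : x0 k = ξ := by
      simp only [x0]
      rw [update_of_ne (Ne.symm hik), update_self]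
    have h2 : x0 i0 = y := by simp only [x0, update_self]
    have hcomp : x0 ∘ e = ![x, ξ, y] := by
      funext a
      fin_cases a
      · exact h0
      · exact h1
      · exact h2
    have hli : LinearIndepOn ℝ x0 ((Finset.univ.image e : Finset ι) : Set ι) := by
      rw [Finset.coe_image, Finset.coe_univ, image_univ, linearIndepOn_range_iff he, hcomp]
      exact hi
    obtain ⟨z, hz1, hz2, hz3⟩ := ext_basis b ha hli
    have hm : ∀ a, e a ∈ Finset.univ.image e := fun a => Finset.mem_image_of_mem e (by simp)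
    have hzi : z i0 = y := (hz1 _ (hm 2)).trans h2
    refine ⟨z, (hz1 _ (hm 0)).trans h0, (hz1 _ (hm 1)).trans h1, hzi, ?_, hz3⟩
    intro m hmj hmk
    by_cases hmi : m = i0
    · rw [hmi, hzi]
      exact hy
    · apply hz2
      intro hmem
      obtain ⟨a, -, rfl⟩ := Finset.mem_image.1 hmem
      fin_cases a
      · exact hmj rfl
      · exact hmk rfl
      · exact hmi rfl
  have hzne : ∀ m, z m ≠ 0 := fun m => ((bdet_ne_zero_iff b z).1 hz).ne_zero m
  have hy0 : y ≠ 0 := hzi ▸ hzne i0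
  -- the box
  let L : ι → V := update z k y
  have hL0 : ∀ m, L m ≠ 0 := by
    intro m
    by_cases hm : m = k
    · simp only [L, hm, update_self]
      exact hy0
    · simp only [L, update_of_ne hm]
      exact hzne m
  have hLa : ∀ m, m ≠ j → L m ∈ atoms μ := by
    intro m hmj
    by_cases hm : m = k
    · simp only [L, hm, update_self]
      exact hy
    · simp only [L, update_of_ne hm]
      exact hza m hmj hm
  let S : ι → Set V := fun m =>
    if m = j then univ else ((ℝ ∙ L m : Submodule ℝ V) : Set V) \ {0}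
  have hS : pw μ ι (univ.pi S) ≠ 0 := by
    rw [Measure.pi_pi, Finset.prod_ne_zero_iff]
    intro m _
    by_cases hm : m = j
    · simp [S, hm]
    · simp only [S, if_neg hm]
      rw [measure_sdiff_null hμ.zero]
      exact (hLa m hm).resolve_left (hL0 m)
  -- the difference
  let T : ι → (ι → V) → ℝ := fun i w => |b.det (update (update w j x) i ξ)| * |⟪v, w i⟫|
  have hTi : ∀ i ∈ Finset.univ.erase j, Integrable (T i) (pw μ ι) := fun i hi =>
    (term_PdG2b b (Finset.ne_of_mem_erase hi) hμ.mom x ξ v).1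
  have hI1 : Integrable (fun w => ∑ i ∈ Finset.univ.erase j, T i w) (pw μ ι) :=
    integrable_finsetSum _ hTi
  have hI2 : Integrable (fun w : ι → V => |⟪ξ, v⟫| * |b.det (update w j x)|) (pw μ ι) :=
    (integrable_Qm b j hμ.mom x).const_mul _
  have hpos : 0 < ∫ w, (∑ i ∈ Finset.univ.erase j, T i w - |⟪ξ, v⟫| * |b.det (update w j x)|)
      ∂(pw μ ι) := by
    rw [integral_pos_iff_support_of_nonneg
      (fun w => sub_nonneg.2 (point_PdG2b b j hv w)) (hI1.sub hI2)]
    refine pos_iff_ne_zero.2 fun h0 => hS (measure_mono_null ?_ h0)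
    intro w hw
    have hw' : ∀ m, m ≠ j → ∃ t : ℝ, t ≠ 0 ∧ w m = t • L m := by
      intro m hm
      have := hw m (mem_univ m)
      simp only [S, if_neg hm] at this
      obtain ⟨h1, h2⟩ := this
      obtain ⟨t, ht⟩ := Submodule.mem_span_singleton.1 h1
      refine ⟨t, ?_, ht.symm⟩
      rintro rfl
      apply h2
      rw [← ht, zero_smul]
      rfl
    choose! t ht0 ht using hw'
    have hkj : k ≠ j := Ne.symm hjk
    have hwk : w k = t k • y := by rw [ht k hkj]; simp only [L, update_self]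
    have hwi : w i0 = t i0 • y := by
      rw [ht i0 hij]
      simp only [L, update_of_ne hik, hzi]
    have hd0 : b.det (update w j x) = 0 := by
      refine bdet_zero_of_card b (U := ℝ ∙ y) (S := {k, i0}) ?_ ?_
      · intro m hm
        simp only [Finset.mem_insert, Finset.mem_singleton] at hm
        rcases hm with rfl | rfl
        · rw [update_of_ne hkj, hwk]
          exact Submodule.smul_mem _ _ (Submodule.mem_span_singleton_self y)
        · rw [update_of_ne hij, hwi]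
          exact Submodule.smul_mem _ _ (Submodule.mem_span_singleton_self y)
      · rw [finrank_span_singleton hy0, Finset.card_pair (Ne.symm hik)]
        norm_num
    have hd1 : b.det (update (update w j x) k ξ) ≠ 0 := by
      have he : update (update w j x) k ξ =
          fun m => (update (update t j 1) k 1 : ι → ℝ) m • z m := by
        funext m
        by_cases hmk : m = k
        · rw [hmk, update_self, update_self, one_smul, hzk]
        · rw [update_of_ne hmk, update_of_ne hmk]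
          by_cases hmj : m = j
          · rw [hmj, update_self, update_self, one_smul, hzj]
          · rw [update_of_ne hmj, update_of_ne hmj, ht m hmj]
            simp only [L, update_of_ne hmk]
      rw [he, AlternatingMap.map_smul_univ, smul_eq_mul]
      refine mul_ne_zero (Finset.prod_ne_zero_iff.2 fun m _ => ?_) hz
      by_cases hmk : m = k
      · rw [hmk, update_self]
        exact one_ne_zero
      · rw [update_of_ne hmk]
        by_cases hmj : m = j
        · rw [hmj, update_self]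
          exact one_ne_zero
        · rw [update_of_ne hmj]
          exact ht0 m hmj
    have hTk : 0 < T k w := by
      refine mul_pos (abs_pos.2 hd1) (abs_pos.2 ?_)
      rw [hwk, real_inner_smul_right, real_inner_comm]
      exact mul_ne_zero (ht0 k hkj) hyv
    have hsum : T k w ≤ ∑ i ∈ Finset.univ.erase j, T i w :=
      Finset.single_le_sum (f := fun i => T i w)
        (fun i _ => mul_nonneg (abs_nonneg _) (abs_nonneg _))
        (Finset.mem_erase.2 ⟨hkj, Finset.mem_univ k⟩)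
    rw [mem_support, hd0, abs_zero, mul_zero, sub_zero]
    exact (lt_of_lt_of_le hTk hsum).ne'
  rw [integral_sub hI1 hI2, integral_finsetSum _ hTi, integral_const_mul] at hpos
  have hs : ∑ i ∈ Finset.univ.erase j, ∫ w, T i w ∂(pw μ ι) =
      ((Fintype.card ι : ℝ) - 1) * (Hm μ v * Gm b j k μ x ξ) := by
    rw [Finset.sum_congr rfl (g := fun _ => Hm μ v * Gm b j k μ x ξ)]
    · rw [Finset.sum_const, Finset.card_erase_of_mem (Finset.mem_univ j), Finset.card_univ,
        nsmul_eq_mul, Nat.cast_sub (by omega), Nat.cast_one]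
    · intro i hi
      have hi' := Finset.ne_of_mem_erase hi
      rw [(term_PdG2b b hi' hμ.mom x ξ v).2, mul_comm, Gm_perm b (Ne.symm hi') hjk]
  rw [hs] at hpos
  exact sub_pos.1 hpos

end Pool.Agent.P.MP_181257_gt
end
end

-- part Pool.Agent.P.MP_181257_gt.PdG3
section

set_option autoImplicit false
set_option linter.unusedSectionVars false
set_option linter.unusedVariables false

open MeasureTheory ProbabilityTheory Module Set Filter Topology Function
open scoped RealInnerProductSpace ENNReal Pointwise LinearAlgebra.Projectivization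

noncomputable section

namespace Pool.Agent.P.MP_181257_gt

variable {V : Type} [NormedAddCommGroup V] [InnerProductSpace ℝ V] [FiniteDimensional ℝ V]
  [MeasurableSpace V] [BorelSpace V] {ι : Type} [Fintype ι] [DecidableEq ι]

theorem sp_eq_PdG3 (b : Basis ι ℝ V) {j k : ι} (hjk : j ≠ k) {π π' : Pl V} {y : ι → V} {u v : V}
    (h0 : b.det (update (update y j u) k v) ≠ 0) (h : ∀ i, i ≠ j → i ≠ k → y i ∈ π.spᗮ)
    (h' : ∀ i, i ≠ j → i ≠ k → y i ∈ π'.spᗮ) : π.sp = π'.sp := by
  have hc : ((Finset.univ.erase j).erase k).card + 2 = finrank ℝ V := by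
    have e1 := Finset.card_erase_add_one (Finset.mem_univ j)
    have e2 := Finset.card_erase_add_one
      (Finset.mem_erase.mpr ⟨hjk.symm, Finset.mem_univ k⟩ : k ∈ Finset.univ.erase j)
    rw [Module.finrank_eq_card_basis b, ← Finset.card_univ]
    omega
  have hle : ((Finset.univ.erase j).erase k).card ≤ finrank ℝ (π.spᗮ ⊓ π'.spᗮ : Submodule ℝ V) := by
    by_contra hn
    refine h0 (bdet_zero_of_card b (fun i hi => ?_) (not_le.mp hn))
    have hk := (Finset.mem_erase.mp hi).1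
    have hj := (Finset.mem_erase.mp (Finset.mem_erase.mp hi).2).1
    rw [update_of_ne hk, update_of_ne hj]
    exact ⟨h i hj hk, h' i hj hk⟩
  have e1 := π.sp.finrank_add_finrank_orthogonal
  have e2 := π'.sp.finrank_add_finrank_orthogonal
  rw [Pl.finrank_sp] at e1 e2
  have e3 : π.spᗮ ⊓ π'.spᗮ = π.spᗮ := Submodule.eq_of_le_of_finrank_le inf_le_left (by omega)
  have e4 : π.spᗮ ⊓ π'.spᗮ = π'.spᗮ := Submodule.eq_of_le_of_finrank_le inf_le_right (by omega)
  rw [← π.sp.orthogonal_orthogonal, ← e3, e4, Submodule.orthogonal_orthogonal]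

theorem meas_PdG3 (j k : ι) (π : Pl V) :
    MeasurableSet {y : ι → V | ∀ i, i ≠ j → i ≠ k → y i ∈ π.spᗮ} := by
  refine IsClosed.measurableSet ?_
  simp only [ofPred_forall]
  exact isClosed_iInter fun i => isClosed_iInter fun _ => isClosed_iInter fun _ =>
    π.sp.isClosed_orthogonal.preimage (continuous_apply i)

theorem sum_Mp_le (b : Basis ι ℝ V) {j k : ι} (hjk : j ≠ k) {μ : Measure V} (hμ : Mom μ)
    (J : Finset (Pl V)) (hJ : InjOn Pl.sp (J : Set (Pl V))) (u v : V) :
    ∑ π ∈ J, |⟪u, π.p⟫ * ⟪v, π.q⟫ - ⟪u, π.q⟫ * ⟪v, π.p⟫| * Mp b j k μ π ≤ Gm b j k μ u v := by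
  have hi := integrable_Gm b j k hμ u v
  have h1 : ∀ π ∈ J, |⟪u, π.p⟫ * ⟪v, π.q⟫ - ⟪u, π.q⟫ * ⟪v, π.p⟫| * Mp b j k μ π =
      ∫ y, {y : ι → V | ∀ i, i ≠ j → i ≠ k → y i ∈ π.spᗮ}.indicator
        (fun y => |b.det (update (update y j u) k v)|) y ∂(pw μ ι) := by
    intro π _
    unfold Mp
    rw [integral_indicator (meas_PdG3 j k π), ← integral_const_mul]
    refine setIntegral_congr_fun (meas_PdG3 j k π) fun y hy => ?_
    show _ = |b.det (update (update y j u) k v)|
    rw [bdet_plane b hjk π hy u v, abs_mul, mul_comm]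
  rw [Finset.sum_congr rfl h1, ← integral_finsetSum _ fun π _ => hi.indicator (meas_PdG3 j k π)]
  refine integral_mono (integrable_finsetSum _ fun π _ => hi.indicator (meas_PdG3 j k π)) hi
    fun y => ?_
  show ∑ π ∈ J, _ ≤ |b.det (update (update y j u) k v)|
  by_cases h0 : b.det (update (update y j u) k v) = 0
  · refine le_trans (le_of_eq (Finset.sum_eq_zero fun π _ => ?_)) (abs_nonneg _)
    rw [indicator_apply_eq_zero]
    intro _
    rw [h0, abs_zero]
  · by_cases hex : ∃ π ∈ J, ∀ i, i ≠ j → i ≠ k → y i ∈ π.spᗮ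
    · obtain ⟨π, hπ, hy⟩ := hex
      rw [Finset.sum_eq_single_of_mem π hπ fun π' hπ' hne =>
        indicator_of_notMem (s := {y : ι → V | ∀ i, i ≠ j → i ≠ k → y i ∈ π'.spᗮ})
          (fun e => hne (hJ hπ' hπ (sp_eq_PdG3 b hjk h0 e hy))) _]
      exact le_of_eq (indicator_of_mem (s := {y : ι → V | ∀ i, i ≠ j → i ≠ k → y i ∈ π.spᗮ}) hy _)
    · refine le_trans (le_of_eq (Finset.sum_eq_zero fun π hπ => ?_)) (abs_nonneg _)
      exact indicator_of_notMem (s := {y : ι → V | ∀ i, i ≠ j → i ≠ k → y i ∈ π.spᗮ})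
        (fun e => hex ⟨π, hπ, e⟩) _

end Pool.Agent.P.MP_181257_gt
end
end

-- part Pool.Agent.P.MP_181257_gt.PdG3b
section

set_option autoImplicit false
set_option linter.unusedSectionVars false
set_option linter.unusedVariables false

open MeasureTheory ProbabilityTheory Module Set Filter Topology Function
open scoped RealInnerProductSpace ENNReal Pointwise LinearAlgebra.Projectivization

noncomputable section

namespace Pool.Agent.P.MP_181257_gt

variable {V : Type} [NormedAddCommGroup V] [InnerProductSpace ℝ V] [FiniteDimensional ℝ V]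
  [MeasurableSpace V] [BorelSpace V] {ι : Type} [Fintype ι] [DecidableEq ι]

theorem measB_PdG3b (j k : ι) (π : Pl V) :
    MeasurableSet {y : ι → V | ∀ i, i ≠ j → i ≠ k → y i ∈ π.spᗮ} := by
  simp only [ofPred_forall]
  exact MeasurableSet.iInter fun i => MeasurableSet.iInter fun _ => MeasurableSet.iInter fun _ =>
    measurable_pi_apply i (Submodule.closed_of_finiteDimensional π.spᗮ).measurableSet

theorem setInt_PdG3b (b : Basis ι ℝ V) {j k : ι} (hjk : j ≠ k) (μ : Measure V) (π : Pl V)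
    (u v : V) : ∫ y in {y : ι → V | ∀ i, i ≠ j → i ≠ k → y i ∈ π.spᗮ},
      |b.det (update (update y j u) k v)| ∂(pw μ ι)
      = |⟪u, π.p⟫ * ⟪v, π.q⟫ - ⟪u, π.q⟫ * ⟪v, π.p⟫| * Mp b j k μ π := by
  rw [Mp, ← integral_const_mul]
  refine setIntegral_congr_fun (measB_PdG3b j k π) fun y hy => ?_
  show |b.det (update (update y j u) k v)| = _ * |b.det (update (update y j π.p) k π.q)|
  rw [bdet_plane b hjk π hy u v, abs_mul, mul_comm]

theorem atoms_PdG3b {μ : Measure V} (ha : Atomic μ) : ∃ S : Set V, S.Countable ∧ S ⊆ atoms μ ∧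
    ∀ᵐ y ∂μ, ∃ z ∈ S, y ∈ (ℝ ∙ z : Submodule ℝ V) := by
  obtain ⟨S, hS, h0⟩ := ha
  refine ⟨S ∩ atoms μ, hS.mono inter_subset_left, inter_subset_right, ?_⟩
  have h1 : μ (⋃ z ∈ S \ atoms μ, ((ℝ ∙ z : Submodule ℝ V) : Set V)) = 0 := by
    refine (measure_biUnion_null_iff (hS.mono sdiff_subset)).2 fun z hz => ?_
    by_contra h
    exact hz.2 (Or.inr h)
  refine measure_mono_null ?_ (measure_union_null h0 h1)
  intro y hy
  by_cases h2 : y ∈ ⋃ z ∈ S, ((ℝ ∙ z : Submodule ℝ V) : Set V)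
  · obtain ⟨z, hz, hyz⟩ := mem_iUnion₂.1 h2
    exact Or.inr (mem_iUnion₂.2 ⟨z, ⟨hz, fun h3 => hy ⟨z, ⟨hz, h3⟩, hyz⟩⟩, hyz⟩)
  · exact Or.inl h2

theorem rank_PdG3b (b : Basis ι ℝ V) {j k : ι} (hjk : j ≠ k) {y z : ι → V}
    (hyz : ∀ i, y i ∈ (ℝ ∙ z i : Submodule ℝ V)) {u v : V}
    (hd : b.det (update (update y j u) k v) ≠ 0) :
    finrank ℝ (Submodule.span ℝ (z '' ((Finset.univ.erase j).erase k : Finset ι)))ᗮ = 2 := by
  classical
  set I : Finset ι := (Finset.univ.erase j).erase k with hI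
  have hc : I.card + 2 = finrank ℝ V := by
    have h1 : k ∈ Finset.univ.erase j := by simp [hjk.symm]
    have h2 := Finset.card_erase_add_one h1
    have h3 := Finset.card_erase_add_one (Finset.mem_univ j)
    rw [Module.finrank_eq_card_basis b, hI, ← Finset.card_univ]
    omega
  have h1 : finrank ℝ (Submodule.span ℝ (z '' (I : Set ι))) ≤ I.card := by
    rw [← Finset.coe_image]
    exact (finrank_span_finset_le_card _).trans Finset.card_image_le
  have h2 : I.card ≤ finrank ℝ (Submodule.span ℝ (z '' (I : Set ι))) := by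
    by_contra h
    refine hd (bdet_zero_of_card b (S := I) (fun i hi => ?_) (not_le.1 h))
    have h3 : i ≠ k ∧ i ≠ j := by simpa [hI] using hi
    rw [update_of_ne h3.1, update_of_ne h3.2]
    exact Submodule.span_mono (singleton_subset_iff.2 (mem_image_of_mem z hi)) (hyz i)
  have h3 := Submodule.finrank_add_finrank_orthogonal (Submodule.span ℝ (z '' (I : Set ι)))
  omega

/-- in the atomic case countably many planes exhaust the weight -/
theorem exists_planes (b : Basis ι ℝ V) {j k : ι} (hjk : j ≠ k) {μ : Measure V} (hμ : Good μ)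
    (ha : Atomic μ) : ∃ T : Set (Pl V), InjOn Pl.sp T ∧ (∀ π ∈ T, Sp (atoms μ) π.spᗮ) ∧
      (∀ U : Submodule ℝ V, finrank ℝ U = 2 → Sp (atoms μ) Uᗮ → ∃ π ∈ T, π.sp = U) ∧
      ∀ (u v : V) (ε : ℝ), 0 < ε → ∃ J : Finset (Pl V), (J : Set (Pl V)) ⊆ T ∧
        Gm b j k μ u v - ε
          ≤ ∑ π ∈ J, |⟪u, π.p⟫ * ⟪v, π.q⟫ - ⟪u, π.q⟫ * ⟪v, π.p⟫| * Mp b j k μ π := by
  classical
  have := hμ.mom.prob
  choose pl hpl using fun (U : Submodule ℝ V) (hU : finrank ℝ U = 2) => exists_Pl hU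
  set T : Set (Pl V) := {π | ∃ U hU, Sp (atoms μ) Uᗮ ∧ π = pl U hU} with hT
  have hinj : InjOn Pl.sp T := by
    rintro _ ⟨U, hU, -, rfl⟩ _ ⟨W, hW, -, rfl⟩ h
    rw [hpl, hpl] at h
    subst h
    rfl
  have hall : ∀ U : Submodule ℝ V, finrank ℝ U = 2 → Sp (atoms μ) Uᗮ → ∃ π ∈ T, π.sp = U :=
    fun U hU h => ⟨pl U hU, ⟨U, hU, h, rfl⟩, hpl U hU⟩
  refine ⟨T, hinj, ?_, hall, fun u v ε hε => ?_⟩
  · rintro _ ⟨U, hU, h, rfl⟩
    rw [hpl]
    exact h
  obtain ⟨S, hS, hSa, hae⟩ := atoms_PdG3b ha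
  set I : Finset ι := (Finset.univ.erase j).erase k with hI
  set C : Set (Submodule ℝ V) :=
    (fun z : ι → V => (Submodule.span ℝ (z '' (I : Set ι)))ᗮ) '' (univ.pi fun _ => S) with hC
  have hCc : C.Countable := (countable_univ_pi fun _ => hS).image _
  set T₀ : Set (Pl V) := T ∩ Pl.sp ⁻¹' C with hT₀
  have hT₀c : T₀.Countable := countable_of_injective_of_countable_image
    (hinj.mono inter_subset_left) (hCc.mono (by rintro _ ⟨π, h, rfl⟩; exact h.2))
  have := hT₀c.to_subtype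
  set B : Pl V → Set (ι → V) := fun π => {y | ∀ i, i ≠ j → i ≠ k → y i ∈ π.spᗮ} with hB
  set f : (ι → V) → ℝ := fun y => |b.det (update (update y j u) k v)| with hf
  have hfi : Integrable f (pw μ ι) := integrable_Gm b j k hμ.mom u v
  have hf0 : ∀ y, 0 ≤ f y := fun y => abs_nonneg _
  have key : ENNReal.ofReal (Gm b j k μ u v)
      ≤ ∑' π : T₀, ∫⁻ y in B π, ENNReal.ofReal (f y) ∂(pw μ ι) := by
    refine le_trans ?_ (lintegral_iUnion_le _ _)
    refine le_trans ?_ (lintegral_indicator_le _ _)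
    rw [Gm, ofReal_integral_eq_lintegral_ofReal hfi (Eventually.of_forall hf0)]
    refine lintegral_mono_ae ((ae_pw (ι := ι) hae).mono fun y hy => ?_)
    choose z hzS hyz using hy
    by_cases hd : b.det (update (update y j u) k v) = 0
    · simp [hf, hd]
    · obtain ⟨π, hπ, hsp⟩ := hall _ (rank_PdG3b b hjk hyz hd) (by
        rw [Submodule.orthogonal_orthogonal]
        refine Submodule.span_mono ?_
        rintro _ ⟨i, hi, rfl⟩
        exact ⟨hSa (hzS i), Submodule.subset_span ⟨i, hi, rfl⟩⟩)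
      have hy : y ∈ ⋃ π : T₀, B π := by
        refine mem_iUnion.2 ⟨⟨π, hπ, z, fun i _ => hzS i, hsp.symm⟩, fun i h1 h2 => ?_⟩
        show y i ∈ π.spᗮ
        rw [hsp, Submodule.orthogonal_orthogonal]
        have hi : i ∈ (I : Set ι) := by simp [hI, h1, h2]
        exact Submodule.span_mono (singleton_subset_iff.2 (mem_image_of_mem z hi)) (hyz i)
      rw [indicator_of_mem hy]
  by_cases h0 : Gm b j k μ u v - ε ≤ 0
  · exact ⟨∅, by simp, by simpa using h0⟩
  have hlt : ENNReal.ofReal (Gm b j k μ u v - ε) < ENNReal.ofReal (Gm b j k μ u v) :=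
    (ENNReal.ofReal_lt_ofReal_iff (by linarith)).2 (by linarith)
  have h1 := hlt.trans_le key
  rw [ENNReal.tsum_eq_iSup_sum, lt_iSup_iff] at h1
  obtain ⟨s, hs⟩ := h1
  have hnn : ∀ π : Pl V,
      0 ≤ |⟪u, π.p⟫ * ⟪v, π.q⟫ - ⟪u, π.q⟫ * ⟪v, π.p⟫| * Mp b j k μ π :=
    fun π => mul_nonneg (abs_nonneg _) (Mp_nonneg b j k μ π)
  have h2 : ∀ π : T₀, ∫⁻ y in B π, ENNReal.ofReal (f y) ∂(pw μ ι) = ENNReal.ofReal
      (|⟪u, π.1.p⟫ * ⟪v, π.1.q⟫ - ⟪u, π.1.q⟫ * ⟪v, π.1.p⟫| * Mp b j k μ π.1) := fun π => by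
    rw [← setInt_PdG3b b hjk μ π.1 u v,
      ofReal_integral_eq_lintegral_ofReal hfi.integrableOn (Eventually.of_forall hf0)]
  simp only [h2] at hs
  rw [← ENNReal.ofReal_sum_of_nonneg fun π _ => hnn π.1] at hs
  refine ⟨s.map (Embedding.subtype _), ?_, ?_⟩
  · intro π hπ
    obtain ⟨π', -, rfl⟩ := Finset.mem_map.1 hπ
    exact π'.2.1
  · rw [Finset.sum_map]
    exact ((ENNReal.ofReal_lt_ofReal_iff_of_nonneg (not_le.1 h0).le).1 hs).le

end Pool.Agent.P.MP_181257_gt
end
end

-- part Pool.Agent.P.MP_181257_gt.PdG1b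
section

set_option autoImplicit false
set_option linter.unusedSectionVars false
set_option linter.unusedVariables false

open MeasureTheory ProbabilityTheory Module Set Filter Topology Function
open scoped RealInnerProductSpace ENNReal Pointwise LinearAlgebra.Projectivization

noncomputable section

namespace Pool.Agent.P.MP_181257_gt

variable {V : Type} [NormedAddCommGroup V] [InnerProductSpace ℝ V] [FiniteDimensional ℝ V]
  [MeasurableSpace V] [BorelSpace V] {ι : Type} [Fintype ι] [DecidableEq ι]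

theorem meas_sub_PdG1b (U : Submodule ℝ V) : MeasurableSet (U : Set V) :=
  U.closed_of_finiteDimensional.measurableSet

theorem lint_aL_PdG1b {μ ν : Measure V} (hμ : Mom μ) (hν : Mom ν) (x : ℙ ℝ V) :
    ∫⁻ z, (x.submodule : Set V).indicator (fun z => ENNReal.ofReal (Hm ν z)) z ∂μ =
      ENNReal.ofReal (aL μ ν x) := by
  rw [lintegral_indicator (meas_sub_PdG1b _), aL, ofReal_integral_eq_lintegral_ofReal
    (integrable_Hm_comp hμ hν).integrableOn (ae_of_all _ fun z => Hm_nonneg ν z)]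

theorem Nv_plane_PdG1b (b : Basis ι ℝ V) {i k : ι} (hik : i ≠ k) (π : Pl V) {y : ι → V}
    (hy : ∀ m, m ≠ i → m ≠ k → y m ∈ π.spᗮ) :
    Nv b k y = (-b.det (update (update y i π.p) k π.q)) • π.J (y i) := by
  refine ext_inner_left ℝ fun u => ?_
  have h := bdet_plane b hik π hy (y i) u
  rw [update_eq_self] at h
  rw [inner_Nv, h, inner_smul_right, Pl.J, inner_sub_right, inner_smul_right, inner_smul_right]
  ring

theorem exists_smul_PdG1b {x : ℙ ℝ V} {z : V} (hz : z ∈ x.submodule) : ∃ t : ℝ, t • x.rep = z := by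
  rwa [Projectivization.submodule_eq, Submodule.mem_span_singleton] at hz

/-- item (i): the mass received by a line of a pencil -/
theorem sum_Rp_le (b : Basis ι ℝ V) {j k : ι} (hjk : j ≠ k) {μ ν : Measure V} (h : Pair μ ν)
    (π : Pl V) (v : ℙ ℝ V) (S : Finset (ℙ ℝ V))
    (hS : ∀ x ∈ S, π.J x.rep ≠ 0 ∧ π.J x.rep ∈ v.submodule) :
    ∑ x ∈ S, Rp b j k μ π x.rep * aL μ ν x ≤ aL ν μ v := by
  classical
  have := h.gl.mom.prob
  obtain ⟨a, ha, hQ, htr⟩ := Half.transfer b h.gl.mom h.gr.mom h.hl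
  have H0 : Hm μ 0 = 0 := by simpa using Hm_smul μ 0 0
  have cH := continuous_Hm h.gl.mom
  let φ : V → ℝ≥0∞ := (v.submodule : Set V).indicator fun w => ENNReal.ofReal (Hm μ w)
  let M : ι → Set (ι → V) := fun i => {y | ∀ m, m ≠ i → m ≠ k → y m ∈ π.spᗮ}
  let f : ι → (ι → V) → ℝ≥0∞ := fun i => (M i).indicator fun y =>
    ENNReal.ofReal |b.det (update (update y i π.p) k π.q)|
  let g : ℙ ℝ V → V → ℝ≥0∞ := fun x => (x.submodule : Set V).indicator fun z =>
    ENNReal.ofReal (Hm μ (π.J z))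
  have mφ : Measurable φ := cH.measurable.ennreal_ofReal.indicator (meas_sub_PdG1b _)
  have hφ : ∀ (t : ℝ) (x : V), φ (t • x) = ENNReal.ofReal |t| * φ x := by
    intro t x
    by_cases hx : x ∈ v.submodule
    · simp only [φ]
      rw [indicator_of_mem (v.submodule.smul_mem t hx), indicator_of_mem hx, Hm_smul,
        ENNReal.ofReal_mul (abs_nonneg t)]
    · by_cases ht : t = 0
      · simp [φ, ht, H0]
      · simp only [φ]
        rw [indicator_of_notMem hx, mul_zero,
          indicator_of_notMem fun h' => hx ((v.submodule.smul_mem_iff ht).1 h')]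
  have mM : ∀ i, MeasurableSet (M i) := fun i => by
    simp only [M, Set.ofPred_forall]
    exact MeasurableSet.iInter fun m => MeasurableSet.iInter fun _ => MeasurableSet.iInter fun _ =>
      measurable_pi_apply m (meas_sub_PdG1b _)
  have mf : ∀ i, Measurable (f i) := fun i => by
    refine Measurable.indicator (Measurable.ennreal_ofReal (Continuous.measurable ?_)) (mM i)
    exact ((continuous_bdet b).comp
      ((continuous_id.update i continuous_const).update k continuous_const)).abs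
  have mg : ∀ x, Measurable (g x) := fun x =>
    (cH.comp π.continuous_J).measurable.ennreal_ofReal.indicator (meas_sub_PdG1b _)
  have mF : ∀ i x, Measurable fun y : ι → V => f i y * g x (y i) := fun i x =>
    (mf i).mul ((mg x).comp (measurable_pi_apply i))
  have hf : ∀ i, i ≠ k → ∫⁻ y, f i y ∂(pw μ ι) = ENNReal.ofReal (Mp b j k μ π) := fun i hi => by
    rw [Mp_perm b hjk hi, lintegral_indicator (mM i), Mp, ofReal_integral_eq_lintegral_ofReal
      (integrable_Gm b i k h.gl.mom _ _).integrableOn (ae_of_all _ fun y => abs_nonneg _)]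
  have hfu : ∀ i y z, f i (update y i z) = f i y := fun i y z => by
    have e : update y i z ∈ M i ↔ y ∈ M i :=
      forall_congr' fun m => forall_congr' fun hm => by rw [update_of_ne hm]
    by_cases hy : y ∈ M i
    · simp only [f]
      rw [indicator_of_mem hy, indicator_of_mem (e.2 hy), update_idem]
    · simp only [f]
      rw [indicator_of_notMem hy, indicator_of_notMem fun h' => hy (e.1 h')]
  have hF : ∀ i, i ≠ k → ∀ x, ∫⁻ y, f i y * g x (y i) ∂(pw μ ι) =
      ENNReal.ofReal (Mp b j k μ π) * ∫⁻ z, g x z ∂μ := fun i hi x => by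
    rw [lintegral_update' μ i (mF i x), ← lintegral_const_mul _ (mg x)]
    refine lintegral_congr fun z => ?_
    simp only [hfu, update_self]
    rw [lintegral_mul_const _ (mf i), hf i hi]
  have hg : ∀ x : ℙ ℝ V, ENNReal.ofReal a * ∫⁻ z, g x z ∂μ =
      ENNReal.ofReal (Hm μ (π.J x.rep) / Qm b j μ x.rep) * ENNReal.ofReal (aL μ ν x) := by
    intro x
    have hq := Qm_pos b j h.gl x.rep_nonzero
    rw [← lint_aL_PdG1b h.gl.mom h.gr.mom, ← lintegral_const_mul _ (mg x),
      ← lintegral_const_mul' _ _ ENNReal.ofReal_ne_top]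
    refine lintegral_congr fun z => ?_
    by_cases hz : z ∈ x.submodule
    · simp only [g]
      rw [indicator_of_mem hz, indicator_of_mem hz, ← ENNReal.ofReal_mul ha.le,
        ← ENNReal.ofReal_mul (div_nonneg (Hm_nonneg _ _) hq.le)]
      obtain ⟨t, rfl⟩ := exists_smul_PdG1b hz
      rw [hQ j, Qm_smul, Pl.J_smul, Hm_smul]
      congr 1
      field_simp
    · simp only [g]
      rw [indicator_of_notMem hz, indicator_of_notMem hz, mul_zero, mul_zero]
  have hsupp : ∀ i x y, f i y * g x (y i) ≠ 0 → y ∈ M i ∧ y i ∈ x.submodule ∧ y i ∉ π.spᗮ := by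
    intro i x y hy
    obtain ⟨h1, h2⟩ := mul_ne_zero_iff.1 hy
    have h3 : y i ∈ x.submodule := mem_of_indicator_ne_zero h2
    refine ⟨mem_of_indicator_ne_zero h1, h3, fun h4 => h2 ?_⟩
    simp only [g]
    rw [indicator_of_mem h3, (π.J_eq_zero_iff _).2 h4, H0, ENNReal.ofReal_zero]
  have hpt : ∀ y, ∑ p ∈ Finset.univ.erase k ×ˢ S, f p.1 y * g p.2 (y p.1) ≤ φ (Nv b k y) := by
    intro y
    by_cases hn : ∃ p ∈ Finset.univ.erase k ×ˢ S, f p.1 y * g p.2 (y p.1) ≠ 0
    · obtain ⟨⟨i, x⟩, hp, hp'⟩ := hn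
      obtain ⟨h1, h2, h3⟩ := hsupp i x y hp'
      obtain ⟨hi, hx⟩ := Finset.mem_product.1 hp
      have hi' := Finset.ne_of_mem_erase hi
      rw [Finset.sum_eq_single_of_mem _ hp]
      · rw [Nv_plane_PdG1b b hi' π h1, hφ, abs_neg]
        have h4 : π.J (y i) ∈ v.submodule := by
          obtain ⟨t, ht⟩ := exists_smul_PdG1b h2
          rw [← ht, Pl.J_smul]
          exact v.submodule.smul_mem t (hS x hx).2
        simp only [f, g, φ]
        rw [indicator_of_mem h1, indicator_of_mem h2, indicator_of_mem h4]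
      · rintro ⟨i', x'⟩ hq hne
        by_contra hq'
        obtain ⟨-, g2, g3⟩ := hsupp i' x' y hq'
        have e : i' = i := by
          by_contra hi2
          exact g3 (h1 i' hi2 (Finset.ne_of_mem_erase (Finset.mem_product.1 hq).1))
        subst e
        have h0 : y i' ≠ 0 := fun h0 => h3 (h0 ▸ Submodule.zero_mem _)
        have e2 : ∀ w : ℙ ℝ V, y i' ∈ w.submodule → Projectivization.mk ℝ (y i') h0 = w := by
          intro w hw
          obtain ⟨t, ht⟩ := exists_smul_PdG1b hw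
          rw [← w.mk_rep]
          exact (Projectivization.mk_eq_mk_iff' ℝ _ _ _ _).2 ⟨t, ht⟩
        exact hne (by rw [← e2 x h2, ← e2 x' g2])
    · push Not at hn
      rw [Finset.sum_eq_zero hn]
      exact bot_le
  have hc : (0 : ℝ) ≤ (Fintype.card ι : ℝ) - 1 := by
    have : 1 ≤ Fintype.card ι := Fintype.card_pos_iff.2 ⟨k⟩
    rw [sub_nonneg]
    exact_mod_cast this
  have hM := Mp_nonneg b j k μ π
  have hd : ∀ x : ℙ ℝ V, 0 ≤ Hm μ (π.J x.rep) / Qm b j μ x.rep := fun x =>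
    div_nonneg (Hm_nonneg _ _) (Qm_pos b j h.gl x.rep_nonzero).le
  have hR : ∀ x : ℙ ℝ V, Rp b j k μ π x.rep =
      ((Fintype.card ι : ℝ) - 1) * Mp b j k μ π * (Hm μ (π.J x.rep) / Qm b j μ x.rep) :=
    fun x => mul_div_assoc _ _ _
  rw [← ENNReal.ofReal_le_ofReal_iff (aL_nonneg ν μ v), ← lint_aL_PdG1b h.gr.mom h.gl.mom,
    htr k φ mφ hφ]
  refine le_trans (le_of_eq ?_) (mul_le_mul_right (lintegral_mono hpt) _)
  rw [lintegral_finsetSum _ fun p _ => mF p.1 p.2, Finset.sum_product_right, Finset.mul_sum,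
    ENNReal.ofReal_sum_of_nonneg fun x _ =>
      mul_nonneg (by rw [hR]; exact mul_nonneg (mul_nonneg hc hM) (hd x)) (aL_nonneg _ _ _)]
  refine Finset.sum_congr rfl fun x _ => ?_
  have e : ENNReal.ofReal ((Fintype.card ι : ℝ) - 1) = ((Finset.univ.erase k).card : ℝ≥0∞) := by
    rw [Finset.card_erase_of_mem (Finset.mem_univ k), Finset.card_univ, ← ENNReal.ofReal_natCast,
      Nat.cast_pred (Fintype.card_pos_iff.2 ⟨k⟩)]
  rw [Finset.sum_congr rfl fun i hi => hF i (Finset.ne_of_mem_erase hi) x, Finset.sum_const,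
    nsmul_eq_mul, hR, mul_assoc, mul_assoc, ENNReal.ofReal_mul hc, ENNReal.ofReal_mul hM,
    ENNReal.ofReal_mul (hd x), ← hg, e]
  ring

end Pool.Agent.P.MP_181257_gt
end
end

-- part Pool.Agent.P.MP_181257_gt.PdE1
section

set_option autoImplicit false
set_option linter.unusedSectionVars false
set_option linter.unusedVariables false

open MeasureTheory ProbabilityTheory Module Set Filter Topology Function
open scoped RealInnerProductSpace ENNReal Pointwise LinearAlgebra.Projectivization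

noncomputable section

namespace Pool.Agent.P.MP_181257_gt

variable {V : Type} [NormedAddCommGroup V] [InnerProductSpace ℝ V] [FiniteDimensional ℝ V]
  [MeasurableSpace V] [BorelSpace V] {ι : Type} [Fintype ι] [DecidableEq ι]

theorem Sp.sup {A : Set V} {U W : Submodule ℝ V} (hU : Sp A U) (hW : Sp A W) : Sp A (U ⊔ W) := by
  refine sup_le (le_trans hU (Submodule.span_mono ?_)) (le_trans hW (Submodule.span_mono ?_))
  · exact fun x hx => ⟨hx.1, Submodule.mem_sup_left hx.2⟩
  · exact fun x hx => ⟨hx.1, Submodule.mem_sup_right hx.2⟩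

theorem Sp.span {A B : Set V} (h : B ⊆ A) : Sp A (Submodule.span ℝ B) := by
  exact Submodule.span_mono fun x hx => ⟨h hx, Submodule.subset_span hx⟩

theorem of_smul_mem_PdE1 {U : Submodule ℝ V} {d : ℝ} (hd : d ≠ 0) {w : V} (h : d • w ∈ U) :
    w ∈ U := (U.smul_mem_iff hd).1 h

theorem Cl.orth {A A' : Set V} (h : Cl A A') {U : Submodule ℝ V} (hU : Sp A U) : Sp A' Uᗮ := by
  classical
  set b := Module.finBasis ℝ V with hb
  obtain ⟨J, -, hJ⟩ := Finset.exists_subset_card_eq (s := (Finset.univ : Finset (Fin (finrank ℝ V))))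
    (n := finrank ℝ U) (by simpa using U.finrank_le)
  obtain ⟨y, -, hy, hyi⟩ := ext_indep hU (J₀ := ∅) (J := J) (Finset.empty_subset _) hJ.le
    (x := fun _ => 0) (by simp) (by simp)
  obtain ⟨x, hxy, hxA, hd⟩ := ext_basis b h.tl hyi
  have hA : ∀ i, x i ∈ A := fun i => by
    by_cases hi : i ∈ J
    · rw [hxy i hi]; exact (hy i hi (by simp)).1
    · exact hxA i hi
  have hxU : ∀ i ∈ J, x i ∈ U := fun i hi => by rw [hxy i hi]; exact (hy i hi (by simp)).2
  have hN : ∀ j, Nv b j x ∈ A' := fun j => by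
    refine h.dl _ (fun h0 => hd ?_) fun w hw => ?_
    · have h1 := inner_Nv_self b x j j
      rw [h0, inner_zero_right, if_pos rfl] at h1
      exact h1.symm
    · refine of_smul_mem_PdE1 hd ?_
      rw [cramer_vec]
      refine Submodule.sum_mem _ fun i _ => ?_
      by_cases hi : i = j
      · rw [hi, ← inner_Nv, Submodule.mem_orthogonal_singleton_iff_inner_left.1 hw, zero_smul]
        exact Submodule.zero_mem _
      · refine Submodule.smul_mem _ _ (Submodule.subset_span ⟨hA i, ?_⟩)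
        refine Submodule.mem_orthogonal_singleton_iff_inner_left.2 ?_
        rw [inner_Nv_self, if_neg hi]
  have hNU : ∀ j, j ∉ J → Nv b j x ∈ Uᗮ := fun j hj u hu => by
    rw [inner_Nv]
    refine bdet_zero_of_card b (U := U) (S := insert j J) (fun i hi => ?_) ?_
    · rcases Finset.mem_insert.1 hi with rfl | hi
      · rwa [update_self]
      · rw [update_of_ne (fun he : i = j => hj (he ▸ hi))]
        exact hxU i hi
    · rw [Finset.card_insert_of_notMem hj, hJ]
      omega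
  intro w hw
  refine of_smul_mem_PdE1 hd ?_
  rw [cramer_dual]
  refine Submodule.sum_mem _ fun j _ => ?_
  by_cases hj : j ∈ J
  · rw [hw _ (hxU j hj), zero_smul]
    exact Submodule.zero_mem _
  · exact Submodule.smul_mem _ _ (Submodule.subset_span ⟨hN j, hNU j hj⟩)

theorem Cl.inf {A A' : Set V} (h : Cl A A') {U W : Submodule ℝ V} (hU : Sp A U) (hW : Sp A W) :
    Sp A (U ⊓ W) := by
  have h1 := h.symm.orth ((h.orth hU).sup (h.orth hW))
  rwa [← Submodule.inf_orthogonal, Submodule.orthogonal_orthogonal,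
    Submodule.orthogonal_orthogonal] at h1

theorem Cl.mem_of_sp {A A' : Set V} (h : Cl A A') {z : V} (hz0 : z ≠ 0) (hz : Sp A (ℝ ∙ z)) :
    z ∈ A := by
  exact h.dr z hz0 (h.orth hz)

/-- a line through two points meets a subspace in a point -/
theorem Cl.meet {A A' : Set V} (h : Cl A A') {x y z : V} (hx : x ∈ A) (hy : y ∈ A)
    {U : Submodule ℝ V} (hU : Sp A U) (hz0 : z ≠ 0) (hz : z ∈ Submodule.span ℝ {x, y})
    (hzU : z ∈ U) (hyU : y ∉ U) : z ∈ A := by
  have h1 : Sp A (Submodule.span ℝ {x, y} ⊓ U) :=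
    h.inf (Sp.span (by rintro w (rfl | rfl) <;> assumption)) hU
  have h2 : Submodule.span ℝ {x, y} ⊓ U = ℝ ∙ z := by
    refine le_antisymm (fun w hw => ?_)
      ((Submodule.span_singleton_le_iff_mem _ _).2 ⟨hz, hzU⟩)
    obtain ⟨a, c, hac⟩ := Submodule.mem_span_pair.1 hz
    obtain ⟨a', c', hac'⟩ := Submodule.mem_span_pair.1 hw.1
    have ha : a ≠ 0 := by
      rintro rfl
      rw [zero_smul, zero_add] at hac
      have hc : c ≠ 0 := by
        rintro rfl
        exact hz0 (by rw [← hac, zero_smul])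
      exact hyU (of_smul_mem_PdE1 hc (hac ▸ hzU))
    have h3 : (a * c' - a' * c) • y = a • w - a' • z := by
      rw [← hac, ← hac']
      module
    have h4 : a * c' - a' * c = 0 := by
      by_contra h5
      exact hyU (of_smul_mem_PdE1 h5
        (h3 ▸ U.sub_mem (U.smul_mem _ hw.2) (U.smul_mem _ hzU)))
    rw [h4, zero_smul, eq_comm, sub_eq_zero] at h3
    exact of_smul_mem_PdE1 ha (h3 ▸ Submodule.smul_mem _ _ (Submodule.mem_span_singleton_self z))
  exact h.mem_of_sp hz0 (h2 ▸ h1)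

end Pool.Agent.P.MP_181257_gt
end
end

-- part Pool.Agent.P.MP_181257_gt.PdE1b
section

set_option autoImplicit false
set_option linter.unusedSectionVars false
set_option linter.unusedVariables false

open MeasureTheory ProbabilityTheory Module Set Filter Topology Function
open scoped RealInnerProductSpace ENNReal Pointwise LinearAlgebra.Projectivization

noncomputable section

namespace Pool.Agent.P.MP_181257_gt

variable {V : Type} [NormedAddCommGroup V] [InnerProductSpace ℝ V] [FiniteDimensional ℝ V]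
  [MeasurableSpace V] [BorelSpace V] {ι : Type} [Fintype ι] [DecidableEq ι]

/-- a third point on a line leaving `U` -/
theorem Cl.third {A A' : Set V} (h : Cl A A') (hs : ¬ SplitsS A) {U : Submodule ℝ V}
    (hU : Sp A U) (hb : U ≠ ⊥) (ht : U ≠ ⊤) :
    ∃ z r : V, z ∈ A ∧ z ∈ U ∧ z ≠ 0 ∧ r ∈ A ∧ r ∉ U ∧ z + r ∈ A := by
  classical
  have hsub : A ⊆ (U : Set V) ∪ (Submodule.span ℝ (A \ (U : Set V)) : Set V) := by
    intro a ha
    by_cases hu : a ∈ U
    · exact Or.inl hu
    · exact Or.inr (Submodule.subset_span ⟨ha, hu⟩)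
  have hsup : U ⊔ Submodule.span ℝ (A \ (U : Set V)) = ⊤ := by
    rw [eq_top_iff, ← h.tl, Submodule.span_le]
    intro a ha
    rcases hsub ha with h1 | h1
    · exact Submodule.mem_sup_left h1
    · exact Submodule.mem_sup_right h1
  have hF : Submodule.span ℝ (A \ (U : Set V)) ≠ ⊥ := by
    intro e
    rw [e, sup_bot_eq] at hsup
    exact ht hsup
  have hnd : ¬ Disjoint U (Submodule.span ℝ (A \ (U : Set V))) := fun hd =>
    hs ⟨U, _, ⟨hd, codisjoint_iff.2 hsup⟩, hb, hF, hsub⟩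
  have hex : ∃ n : ℕ, ∃ s : Finset V, s.card = n ∧ (s : Set V) ⊆ A \ (U : Set V) ∧
      ∃ z : V, z ≠ 0 ∧ z ∈ U ∧ z ∈ Submodule.span ℝ (s : Set V) := by
    rw [Submodule.disjoint_def] at hnd
    push Not at hnd
    obtain ⟨z, hzU, hzF, hz0⟩ := hnd
    obtain ⟨s, hs1, hs2⟩ := Submodule.mem_span_finite_of_mem_span hzF
    exact ⟨_, s, rfl, hs1, z, hz0, hzU, hs2⟩
  obtain ⟨s, hsc, hsA, z, hz0, hzU, hzs⟩ := Nat.find_spec hex
  have hne : s.Nonempty := by
    rw [Finset.nonempty_iff_ne_empty]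
    rintro rfl
    simp only [Finset.coe_empty, Submodule.span_empty, Submodule.mem_bot] at hzs
    exact hz0 hzs
  obtain ⟨r, hr⟩ := hne
  have hins : (s : Set V) = insert r ((s.erase r : Finset V) : Set V) := by
    rw [← Finset.coe_insert, Finset.insert_erase hr]
  have hsA' : ((s.erase r : Finset V) : Set V) ⊆ A \ (U : Set V) :=
    fun a ha => hsA (Finset.mem_coe.2 (Finset.mem_of_mem_erase (Finset.mem_coe.1 ha)))
  have hmin : ∀ w : V, w ∈ U → w ∈ Submodule.span ℝ ((s.erase r : Finset V) : Set V) → w = 0 := by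
    intro w hwU hws
    by_contra hw0
    refine Nat.find_min hex (m := (s.erase r).card) ?_ ⟨_, rfl, hsA', w, hw0, hwU, hws⟩
    rw [← hsc]
    exact Finset.card_erase_lt_of_mem hr
  have hrA : r ∈ A := (hsA (Finset.mem_coe.2 hr)).1
  have hrU : r ∉ U := (hsA (Finset.mem_coe.2 hr)).2
  have hzs' := hzs
  rw [hins, Submodule.mem_span_insert] at hzs'
  obtain ⟨c, y, hy, hz⟩ := hzs'
  have hc : c ≠ 0 := by
    rintro rfl
    rw [zero_smul, zero_add] at hz
    exact hz0 (hmin z hzU (hz ▸ hy))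
  have hline : Submodule.span ℝ (s : Set V) ⊓ U = ℝ ∙ z := by
    apply le_antisymm
    · rintro w ⟨hws, hwU⟩
      have hws' : w ∈ Submodule.span ℝ (s : Set V) := hws
      rw [hins, Submodule.mem_span_insert] at hws'
      obtain ⟨c', y', hy', hw⟩ := hws'
      have h0 : c • w - c' • z = 0 := by
        refine hmin _ (U.sub_mem (U.smul_mem _ hwU) (U.smul_mem _ hzU)) ?_
        have e : c • w - c' • z = c • y' - c' • y := by
          rw [hw, hz]; module
        rw [e]
        exact Submodule.sub_mem _ (Submodule.smul_mem _ _ hy') (Submodule.smul_mem _ _ hy)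
      rw [Submodule.mem_span_singleton]
      refine ⟨c⁻¹ * c', ?_⟩
      rw [mul_smul, ← sub_eq_zero.1 h0, smul_smul, inv_mul_cancel₀ hc, one_smul]
    · rw [Submodule.span_singleton_le_iff_mem]
      exact ⟨hzs, hzU⟩
  have hzA : z ∈ A := by
    refine h.mem_of_sp hz0 ?_
    rw [← hline]
    exact h.inf (Sp.span fun a ha => (hsA ha).1) hU
  have hcr : c • r ∉ U := fun hm => hrU ((U.smul_mem_iff hc).1 hm)
  have hy0 : y ≠ 0 := by
    rintro rfl
    rw [add_zero] at hz
    exact hcr (hz ▸ hzU)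
  have hrs : r ∉ Submodule.span ℝ ((s.erase r : Finset V) : Set V) := fun hm =>
    hz0 (hmin z hzU (hz ▸ Submodule.add_mem _ (Submodule.smul_mem _ _ hm) hy))
  have hyz : y = z + (-c) • r := by rw [hz]; module
  have hyA : y ∈ A := by
    refine h.meet hzA hrA (Sp.span fun a ha => (hsA' ha).1) hy0 ?_ hy hrs
    rw [Submodule.mem_span_pair]
    exact ⟨1, -c, by rw [one_smul, hyz]⟩
  refine ⟨z, (-c) • r, hzA, hzU, hz0, h.sl _ _ hrA, ?_, hyz ▸ hyA⟩
  exact fun hm => hrU ((U.smul_mem_iff (neg_ne_zero.2 hc)).1 hm)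

theorem exists_compl_sp {A : Set V} (hA : Submodule.span ℝ A = ⊤) (U : Submodule ℝ V) :
    ∃ W : Submodule ℝ V, Sp A W ∧ IsCompl U W := by
  obtain ⟨W, ⟨hW, hd⟩, hmax⟩ := (wellFounded_gt (α := Submodule ℝ V)).has_min
    {W | Sp A W ∧ Disjoint U W} ⟨⊥, bot_le, disjoint_bot_right⟩
  refine ⟨W, hW, hd, codisjoint_iff.2 ?_⟩
  rw [eq_top_iff, ← hA, Submodule.span_le]
  intro a ha
  by_contra hn
  have hn' : a ∉ U ⊔ W := hn
  refine hmax (W ⊔ Submodule.span ℝ {a})
    ⟨hW.sup (Sp.span (Set.singleton_subset_iff.2 ha)), ?_⟩ ?_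
  · rw [Submodule.disjoint_def]
    intro u hu hu'
    obtain ⟨w, hw, v, hv, e⟩ := Submodule.mem_sup.1 hu'
    obtain ⟨c, rfl⟩ := Submodule.mem_span_singleton.1 hv
    by_cases hc : c = 0
    · rw [hc, zero_smul, add_zero] at e
      exact Submodule.disjoint_def.1 hd u hu (e ▸ hw)
    · exfalso
      refine hn' (((U ⊔ W).smul_mem_iff hc).1 ?_)
      rw [eq_sub_of_add_eq' e]
      exact Submodule.sub_mem _ (Submodule.mem_sup_left hu) (Submodule.mem_sup_right hw)
  · refine lt_of_le_of_ne le_sup_left fun e => hn' (Submodule.mem_sup_right ?_)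
    rw [e]
    exact Submodule.mem_sup_right (Submodule.mem_span_singleton_self a)

end Pool.Agent.P.MP_181257_gt
end
end

-- part Pool.Agent.P.MP_181257_gt.PdE2
section

set_option autoImplicit false
set_option linter.unusedSectionVars false
set_option linter.unusedVariables false

open MeasureTheory ProbabilityTheory Module Set Filter Topology Function
open scoped RealInnerProductSpace ENNReal Pointwise LinearAlgebra.Projectivization

noncomputable section

namespace Pool.Agent.P.MP_181257_gt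

variable {V : Type} [NormedAddCommGroup V] [InnerProductSpace ℝ V] [FiniteDimensional ℝ V]
  [MeasurableSpace V] [BorelSpace V] {ι : Type} [Fintype ι] [DecidableEq ι]

/-- the meeting lemma in coordinates -/
theorem meet_PdE2 {A A' : Set V} (h : Cl A A') {e₁ e₂ e₃ : V}
    (hI : ∀ a b c : ℝ, a • e₁ + b • e₂ + c • e₃ = 0 → a = 0 ∧ b = 0 ∧ c = 0)
    {x₁ x₂ x₃ y₁ y₂ y₃ u₁ u₂ u₃ w₁ w₂ w₃ z₁ z₂ z₃ : ℝ}
    (hx : x₁ • e₁ + x₂ • e₂ + x₃ • e₃ ∈ A) (hy : y₁ • e₁ + y₂ • e₂ + y₃ • e₃ ∈ A)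
    (hu : u₁ • e₁ + u₂ • e₂ + u₃ • e₃ ∈ A) (hw : w₁ • e₁ + w₂ • e₂ + w₃ • e₃ ∈ A) (β γ δ : ℝ)
    (h1 : z₁ = x₁ + β * y₁) (h2 : z₂ = x₂ + β * y₂) (h3 : z₃ = x₃ + β * y₃)
    (k1 : z₁ = γ * u₁ + δ * w₁) (k2 : z₂ = γ * u₂ + δ * w₂) (k3 : z₃ = γ * u₃ + δ * w₃)
    (hz : z₂ ≠ 0 ∨ z₃ ≠ 0)
    (hn : ∀ s t : ℝ, s * u₁ + t * w₁ = y₁ → s * u₂ + t * w₂ = y₂ → s * u₃ + t * w₃ = y₃ → False) :
    z₁ • e₁ + z₂ • e₂ + z₃ • e₃ ∈ A := by
  refine h.meet hx hy (U := Submodule.span ℝ
    {u₁ • e₁ + u₂ • e₂ + u₃ • e₃, w₁ • e₁ + w₂ • e₂ + w₃ • e₃}) (Sp.span ?_) ?_ ?_ ?_ ?_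
  · rintro v (rfl | rfl)
    exacts [hu, hw]
  · intro h0
    obtain ⟨-, a2, a3⟩ := hI _ _ _ h0
    exact hz.elim (fun a => a a2) fun a => a a3
  · exact Submodule.mem_span_pair.2 ⟨1, β, by rw [h1, h2, h3]; module⟩
  · exact Submodule.mem_span_pair.2 ⟨γ, δ, by rw [k1, k2, k3]; module⟩
  · intro h0
    obtain ⟨s, t, e⟩ := Submodule.mem_span_pair.1 h0
    obtain ⟨a1, a2, a3⟩ := hI (s * u₁ + t * w₁ - y₁) (s * u₂ + t * w₂ - y₂)
      (s * u₃ + t * w₃ - y₃) (by rw [← sub_eq_zero.2 e]; module)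
    exact hn s t (by linarith) (by linarith) (by linarith)

theorem frame_PdE2 {A A' : Set V} (h : Cl A A') {e₁ e₂ e₃ : V}
    (hI : ∀ a b c : ℝ, a • e₁ + b • e₂ + c • e₃ = 0 → a = 0 ∧ b = 0 ∧ c = 0)
    (h1 : e₁ ∈ A) (h2 : e₂ ∈ A) (h3 : e₃ ∈ A) (h12 : e₁ + e₂ ∈ A) (h123 : e₁ + e₂ + e₃ ∈ A) :
    LinearIndependent ℝ ![e₁, e₂, e₃] ∧ e₁ ∈ A ∧ e₂ ∈ A ∧ e₃ ∈ A ∧
      e₂ + e₃ ∈ A ∧ e₁ + e₃ ∈ A ∧ e₃ - e₁ ∈ A := by
  have a1 : (1 : ℝ) • e₁ + (0 : ℝ) • e₂ + (0 : ℝ) • e₃ ∈ A := by simpa using h1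
  have a2 : (0 : ℝ) • e₁ + (1 : ℝ) • e₂ + (0 : ℝ) • e₃ ∈ A := by simpa using h2
  have a3 : (0 : ℝ) • e₁ + (0 : ℝ) • e₂ + (1 : ℝ) • e₃ ∈ A := by simpa using h3
  have a12 : (1 : ℝ) • e₁ + (1 : ℝ) • e₂ + (0 : ℝ) • e₃ ∈ A := by simpa using h12
  have a123 : (1 : ℝ) • e₁ + (1 : ℝ) • e₂ + (1 : ℝ) • e₃ ∈ A := by simpa using h123
  have a23 : (0 : ℝ) • e₁ + (1 : ℝ) • e₂ + (1 : ℝ) • e₃ ∈ A :=
    meet_PdE2 h hI a123 a1 a2 a3 (-1) 1 1 (by ring) (by ring) (by ring) (by ring) (by ring)
      (by ring) (Or.inl one_ne_zero) fun s t _ _ _ => by linarith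
  have a13 : (1 : ℝ) • e₁ + (0 : ℝ) • e₂ + (1 : ℝ) • e₃ ∈ A :=
    meet_PdE2 h hI a123 a2 a1 a3 (-1) 1 1 (by ring) (by ring) (by ring) (by ring) (by ring)
      (by ring) (Or.inr one_ne_zero) fun s t _ _ _ => by linarith
  have a31 : (-1 : ℝ) • e₁ + (0 : ℝ) • e₂ + (1 : ℝ) • e₃ ∈ A :=
    meet_PdE2 h hI a23 a12 a1 a3 (-1) (-1) 1 (by ring) (by ring) (by ring) (by ring) (by ring)
      (by ring) (Or.inr one_ne_zero) fun s t _ _ _ => by linarith
  refine ⟨?_, h1, h2, h3, by simpa using a23, by simpa using a13, ?_⟩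
  · rw [Fintype.linearIndependent_iff]
    intro g hg
    rw [Fin.sum_univ_three] at hg
    obtain ⟨b1, b2, b3⟩ := hI _ _ _ hg
    intro i
    fin_cases i
    exacts [b1, b2, b3]
  · have e : e₃ - e₁ = (-1 : ℝ) • e₁ + (0 : ℝ) • e₂ + (1 : ℝ) • e₃ := by module
    rw [e]
    exact a31

theorem ne_top_PdE2 (hn : 3 ≤ finrank ℝ V) (x y : V) : Submodule.span ℝ {x, y} ≠ (⊤ : Submodule ℝ V) := by
  classical
  intro h
  have h1 := finrank_span_finset_le_card (R := ℝ) ({x, y} : Finset V)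
  have h2 : ({x, y} : Finset V).card ≤ 2 := Finset.card_le_two
  rw [Set.finrank, Finset.coe_pair, h, finrank_top] at h1
  omega

theorem Cl.frame {A A' : Set V} (h : Cl A A') (hs : ¬ SplitsS A) (hn : 3 ≤ finrank ℝ V) :
    ∃ e₁ e₂ e₃ : V, LinearIndependent ℝ ![e₁, e₂, e₃] ∧ e₁ ∈ A ∧ e₂ ∈ A ∧ e₃ ∈ A ∧
      e₂ + e₃ ∈ A ∧ e₁ + e₃ ∈ A ∧ e₃ - e₁ ∈ A := by
  obtain ⟨p, hp, hp0⟩ : ∃ p ∈ A, p ≠ 0 := by
    by_contra hc
    push Not at hc
    have h0 : Submodule.span ℝ A = ⊥ := Submodule.span_eq_bot.2 hc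
    refine ne_top_PdE2 hn (0 : V) 0 (top_le_iff.1 ?_)
    rw [← h.tl, h0]
    exact bot_le
  have hb : ∀ {x y : V}, x ≠ 0 → Submodule.span ℝ {x, y} ≠ (⊥ : Submodule ℝ V) := fun hx h0 =>
    hx (Submodule.span_eq_bot.1 h0 _ (Or.inl rfl))
  obtain ⟨z, r, hz, hzU, hz0, hr, hrU, hzr⟩ := h.third hs (U := Submodule.span ℝ {p, p})
    (Sp.span (by rintro v (rfl | rfl) <;> exact hp)) (hb hp0) (ne_top_PdE2 hn p p)
  obtain ⟨z', r', hz', hzU', hz0', hr', hrU', hzr'⟩ := h.third hs (U := Submodule.span ℝ {z, r})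
    (Sp.span (by rintro v (rfl | rfl); exacts [hz, hr])) (hb hz0) (ne_top_PdE2 hn z r)
  have hI : ∀ a b c : ℝ, a • z + b • r + c • r' = 0 → a = 0 ∧ b = 0 ∧ c = 0 := by
    intro a b c e
    have hc : c = 0 := by
      by_contra hc
      refine hrU' (Submodule.mem_span_pair.2 ⟨-(c⁻¹ * a), -(c⁻¹ * b), ?_⟩)
      have e2 : r' = c⁻¹ • (c • r') := by rw [smul_smul, inv_mul_cancel₀ hc, one_smul]
      rw [e2, eq_neg_of_add_eq_zero_right e]
      module
    rw [hc, zero_smul, add_zero] at e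
    have hb : b = 0 := by
      by_contra hb
      apply hrU
      have e2 : r = b⁻¹ • (b • r) := by rw [smul_smul, inv_mul_cancel₀ hb, one_smul]
      rw [e2, eq_neg_of_add_eq_zero_right e]
      exact Submodule.smul_mem _ _ (Submodule.neg_mem _ (Submodule.smul_mem _ _ hzU))
    rw [hb, zero_smul, add_zero] at e
    exact ⟨(smul_eq_zero.1 e).resolve_right hz0, hb, hc⟩
  obtain ⟨a, c, rfl⟩ := Submodule.mem_span_pair.1 hzU'
  by_cases ha : a = 0
  · have hc : c ≠ 0 := fun hc => hz0' (by simp [ha, hc])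
    have e : a • z + c • r = c • (z + r) + (-c) • z := by rw [ha]; module
    rw [e] at hz' hzr'
    refine ⟨_, _, _, frame_PdE2 h (fun s t u e => ?_) (h.sl c _ hzr) (h.sl (-c) _ hz) hr' hz' hzr'⟩
    obtain ⟨b1, b2, b3⟩ := hI ((s - t) * c) (s * c) u (by rw [← e]; module)
    have b4 := (mul_eq_zero.1 b1).resolve_right hc
    have b5 := (mul_eq_zero.1 b2).resolve_right hc
    exact ⟨b5, by linarith, b3⟩
  by_cases hc : c = 0
  · have e : a • z + c • r = a • (z + r) + (-a) • r := by rw [hc]; module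
    rw [e] at hz' hzr'
    refine ⟨_, _, _, frame_PdE2 h (fun s t u e => ?_) (h.sl a _ hzr) (h.sl (-a) _ hr) hr' hz' hzr'⟩
    obtain ⟨b1, b2, b3⟩ := hI (s * a) ((s - t) * a) u (by rw [← e]; module)
    have b4 := (mul_eq_zero.1 b1).resolve_right ha
    have b5 := (mul_eq_zero.1 b2).resolve_right ha
    exact ⟨b4, by linarith, b3⟩
  · refine ⟨_, _, _, frame_PdE2 h (fun s t u e => ?_) (h.sl a _ hz) (h.sl c _ hr) hr' hz' hzr'⟩
    obtain ⟨b1, b2, b3⟩ := hI (s * a) (t * c) u (by rw [← e]; module)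
    exact ⟨(mul_eq_zero.1 b1).resolve_right ha, (mul_eq_zero.1 b2).resolve_right hc, b3⟩

theorem Cl.plane {A A' : Set V} (h : Cl A A') (hcl : IsClosed A) {e₁ e₂ e₃ : V}
    (hi : LinearIndependent ℝ ![e₁, e₂, e₃]) (h1 : e₁ ∈ A) (h2 : e₂ ∈ A) (h3 : e₃ ∈ A)
    (h23 : e₂ + e₃ ∈ A) (h13 : e₁ + e₃ ∈ A) (h31 : e₃ - e₁ ∈ A) :
    ((Submodule.span ℝ {e₁, e₂} : Submodule ℝ V) : Set V) ⊆ A := by
  have hI : ∀ a b c : ℝ, a • e₁ + b • e₂ + c • e₃ = 0 → a = 0 ∧ b = 0 ∧ c = 0 := by
    intro a b c e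
    have := Fintype.linearIndependent_iff.1 hi ![a, b, c] (by rw [Fin.sum_univ_three]; exact e)
    exact ⟨this 0, this 1, this 2⟩
  have a1 : (1 : ℝ) • e₁ + (0 : ℝ) • e₂ + (0 : ℝ) • e₃ ∈ A := by simpa using h1
  have a2 : (0 : ℝ) • e₁ + (1 : ℝ) • e₂ + (0 : ℝ) • e₃ ∈ A := by simpa using h2
  have a3 : (0 : ℝ) • e₁ + (0 : ℝ) • e₂ + (1 : ℝ) • e₃ ∈ A := by simpa using h3
  have a23 : (0 : ℝ) • e₁ + (1 : ℝ) • e₂ + (1 : ℝ) • e₃ ∈ A := by simpa using h23
  have a13 : (1 : ℝ) • e₁ + (0 : ℝ) • e₂ + (1 : ℝ) • e₃ ∈ A := by simpa using h13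
  have a31 : (-1 : ℝ) • e₁ + (0 : ℝ) • e₂ + (1 : ℝ) • e₃ ∈ A := by
    have e : e₃ - e₁ = (-1 : ℝ) • e₁ + (0 : ℝ) • e₂ + (1 : ℝ) • e₃ := by module
    rw [← e]
    exact h31
  set S : Set ℝ := {t | t • e₁ + (1 : ℝ) • e₂ + (0 : ℝ) • e₃ ∈ A} with hS
  have up : ∀ t, t ∈ S → t + 1 ∈ S := fun t ht => by
    have b : t • e₁ + (1 : ℝ) • e₂ + (1 : ℝ) • e₃ ∈ A :=
      meet_PdE2 h hI ht a3 a1 a23 1 t 1 (by ring) (by ring) (by ring) (by ring) (by ring)
        (by ring) (Or.inl one_ne_zero) fun s t _ _ _ => by linarith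
    exact meet_PdE2 h hI b a31 a1 a2 (-1) (t + 1) 1 (by ring) (by ring) (by ring) (by ring)
      (by ring) (by ring) (Or.inl one_ne_zero) fun s t _ _ _ => by linarith
  have down : ∀ t, t ∈ S → t - 1 ∈ S := fun t ht => by
    have b : (t - 1) • e₁ + (1 : ℝ) • e₂ + (1 : ℝ) • e₃ ∈ A :=
      meet_PdE2 h hI ht a31 a1 a23 1 (t - 1) 1 (by ring) (by ring) (by ring) (by ring) (by ring)
        (by ring) (Or.inl one_ne_zero) fun s t _ _ _ => by linarith
    exact meet_PdE2 h hI b a3 a1 a2 (-1) (t - 1) 1 (by ring) (by ring) (by ring) (by ring)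
      (by ring) (by ring) (Or.inl one_ne_zero) fun s t _ _ _ => by linarith
  have half : ∀ t, t ∈ S → t / 2 ∈ S := fun t ht => by
    have b : (t / 2) • e₁ + (1 : ℝ) • e₂ + (t / 2) • e₃ ∈ A :=
      meet_PdE2 h hI ht a31 a2 a13 (t / 2) 1 (t / 2) (by ring) (by ring) (by ring) (by ring)
        (by ring) (by ring) (Or.inl one_ne_zero) fun s t _ _ _ => by linarith
    exact meet_PdE2 h hI b a3 a1 a2 (-(t / 2)) (t / 2) 1 (by ring) (by ring) (by ring) (by ring)
      (by ring) (by ring) (Or.inl one_ne_zero) fun s t _ _ _ => by linarith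
  have dy : ∀ (r : ℕ) (m : ℤ), (m : ℝ) / 2 ^ r ∈ S := by
    intro r
    induction r with
    | zero =>
      intro m
      rw [pow_zero, div_one]
      induction m using Int.induction_on with
      | zero => rw [Int.cast_zero]; exact a2
      | succ k ih => rw [Int.cast_add, Int.cast_one]; exact up _ ih
      | pred k ih => rw [Int.cast_sub, Int.cast_one]; exact down _ ih
    | succ r ih =>
      intro m
      rw [pow_succ, ← div_div]
      exact half _ (ih m)
  have hSc : IsClosed S := hcl.preimage (f := fun t : ℝ => t • e₁ + (1 : ℝ) • e₂ + (0 : ℝ) • e₃)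
    (by fun_prop)
  have all : ∀ t, t ∈ S := fun t => by
    rw [← hSc.closure_eq, Metric.mem_closure_iff]
    intro ε hε
    obtain ⟨r, hr⟩ := exists_pow_lt_of_lt_one hε (by norm_num : (1 / 2 : ℝ) < 1)
    refine ⟨_, dy r ⌊t * 2 ^ r⌋, lt_of_le_of_lt ?_ hr⟩
    have hp : (0 : ℝ) < 2 ^ r := by positivity
    have b1 := Int.floor_le (t * 2 ^ r)
    have b2 := Int.lt_floor_add_one (t * 2 ^ r)
    have e : t - (⌊t * 2 ^ r⌋ : ℝ) / 2 ^ r = (t * 2 ^ r - ⌊t * 2 ^ r⌋) / 2 ^ r := by
      field_simp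
    rw [Real.dist_eq, e, abs_of_nonneg (div_nonneg (by linarith) hp.le), one_div, inv_pow,
      ← one_div]
    exact div_le_div_of_nonneg_right (by linarith) hp.le
  intro v hv
  obtain ⟨a, b, rfl⟩ := Submodule.mem_span_pair.1 hv
  by_cases hb : b = 0
  · rw [hb, zero_smul, add_zero]
    exact h.sl a _ h1
  · have e : a • e₁ + b • e₂ = b • ((a / b) • e₁ + (1 : ℝ) • e₂ + (0 : ℝ) • e₃) := by
      rw [smul_add, smul_add, smul_smul, mul_div_cancel₀ a hb]
      module
    rw [e]
    exact h.sl b _ (all _)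

end Pool.Agent.P.MP_181257_gt
end
end

-- part Pool.Agent.P.MP_181257_gt.PdE2b
section

set_option autoImplicit false
set_option linter.unusedSectionVars false
set_option linter.unusedVariables false

open MeasureTheory ProbabilityTheory Module Set Filter Topology Function
open scoped RealInnerProductSpace ENNReal Pointwise LinearAlgebra.Projectivization

noncomputable section

namespace Pool.Agent.P.MP_181257_gt

variable {V : Type} [NormedAddCommGroup V] [InnerProductSpace ℝ V] [FiniteDimensional ℝ V]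
  [MeasurableSpace V] [BorelSpace V] {ι : Type} [Fintype ι] [DecidableEq ι]

theorem step_PdE2b {A A' : Set V} (h : Cl A A') (hcl : IsClosed A) (hs : ¬ SplitsS A)
    {U : Submodule ℝ V} (hU : (U : Set V) ⊆ A) (h2 : 2 ≤ finrank ℝ U) (ht : U ≠ ⊤) :
    ∃ W : Submodule ℝ V, U < W ∧ (W : Set V) ⊆ A := by
  have hsp : Sp A U := fun u hu => Submodule.subset_span ⟨hU hu, hu⟩
  have hb : U ≠ ⊥ := fun e => by
    rw [e, finrank_bot] at h2
    omega
  obtain ⟨z, r, hz, hzU, hz0, hr, hrU, hzr⟩ := h.third hs hsp hb ht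
  have k1 : ∀ u ∈ U, u ∉ (ℝ ∙ z) → u + r ∈ A := by
    intro u hu hn
    refine h.meet (x := u - z) (y := z + r) (U := Submodule.span ℝ {u, r})
      (hU (U.sub_mem hu hzU)) hzr (Sp.span ?_) (fun e => hrU ?_)
      (Submodule.mem_span_pair.2 ⟨1, 1, by module⟩)
      (Submodule.mem_span_pair.2 ⟨1, 1, by module⟩) fun hm => ?_
    · exact insert_subset (hU hu) (singleton_subset_iff.2 hr)
    · rw [eq_neg_of_add_eq_zero_right e]
      exact U.neg_mem hu
    · obtain ⟨a, c, e⟩ := Submodule.mem_span_pair.1 hm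
      have e1 : (c - 1) • r = z - a • u := by linear_combination (norm := module) e
      have hc : c - 1 = 0 := by
        by_contra hc
        exact hrU ((U.smul_mem_iff hc).1 (e1 ▸ U.sub_mem hzU (U.smul_mem a hu)))
      rw [hc, zero_smul, eq_comm, sub_eq_zero] at e1
      have ha : a ≠ 0 := fun e2 => hz0 (by rw [e1, e2, zero_smul])
      exact hn (((ℝ ∙ z).smul_mem_iff ha).1 (e1 ▸ Submodule.mem_span_singleton_self z))
  obtain ⟨u', hu', hn'⟩ : ∃ u' ∈ U, u' ∉ (ℝ ∙ z) := by
    by_contra hc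
    push Not at hc
    have h3 := Submodule.finrank_mono (show U ≤ ℝ ∙ z from hc)
    rw [finrank_span_singleton hz0] at h3
    omega
  have k2 : ∀ u ∈ U, u + r ∈ A := by
    intro u hu
    by_cases hn : u ∈ (ℝ ∙ z)
    · have h3 : Tendsto (fun t : ℝ => u + t • u' + r) (𝓝[≠] 0) (𝓝 (u + (0 : ℝ) • u' + r)) :=
        (Continuous.tendsto (by fun_prop) _).mono_left nhdsWithin_le_nhds
      rw [zero_smul, add_zero] at h3
      refine hcl.mem_of_tendsto h3 (eventually_nhdsWithin_of_forall fun t ht0 => ?_)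
      refine k1 _ (U.add_mem hu (U.smul_mem t hu')) fun hm => hn' ?_
      exact ((ℝ ∙ z).smul_mem_iff ht0).1 (((ℝ ∙ z).add_mem_iff_right hn).1 hm)
    · exact k1 u hu hn
  refine ⟨U ⊔ ℝ ∙ r, lt_of_le_of_ne le_sup_left fun e => hrU ?_, fun w hw => ?_⟩
  · rw [e]
    exact Submodule.mem_sup_right (Submodule.mem_span_singleton_self r)
  · obtain ⟨u, hu, v, hv, rfl⟩ := Submodule.mem_sup.1 hw
    obtain ⟨c, rfl⟩ := Submodule.mem_span_singleton.1 hv
    by_cases hc : c = 0
    · rw [hc, zero_smul, add_zero]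
      exact hU hu
    · have h3 := h.sl c _ (k2 _ (U.smul_mem c⁻¹ hu))
      rwa [smul_add, smul_inv_smul₀ hc] at h3

theorem Cl.full {A A' : Set V} (h : Cl A A') (hcl : IsClosed A) (hs : ¬ SplitsS A)
    (hn : 3 ≤ finrank ℝ V) : A = univ := by
  have key : ∀ (n : ℕ) (U : Submodule ℝ V), (U : Set V) ⊆ A → 2 ≤ finrank ℝ U →
      finrank ℝ V ≤ finrank ℝ U + n → A = univ := by
    intro n
    induction n with
    | zero =>
      intro U hU _ h3
      rw [Submodule.eq_top_of_finrank_eq (le_antisymm U.finrank_le h3)] at hU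
      exact univ_subset_iff.1 hU
    | succ n ih =>
      intro U hU h2 h3
      by_cases ht : U = ⊤
      · rw [ht] at hU
        exact univ_subset_iff.1 hU
      · obtain ⟨W, h4, h5⟩ := step_PdE2b h hcl hs hU h2 ht
        have h6 := Submodule.finrank_lt_finrank_of_lt h4
        exact ih W h5 (by omega) (by omega)
  obtain ⟨e₁, e₂, e₃, hi, h1, h2, h3, h23, h13, h31⟩ := h.frame hs hn
  refine key (finrank ℝ V) _ (h.plane hcl hi h1 h2 h3 h23 h13 h31) ?_ (Nat.le_add_left _ _)
  have h4 : LinearIndependent ℝ ![e₁, e₂] := by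
    refine LinearIndependent.pair_iff.2 fun a c e => ?_
    have h5 := Fintype.linearIndependent_iff.1 hi ![a, c, 0] (by simpa [Fin.sum_univ_three] using e)
    exact ⟨h5 0, h5 1⟩
  have h5 := finrank_span_eq_card h4
  rw [Matrix.range_cons_cons_empty] at h5
  rw [h5]
  simp

end Pool.Agent.P.MP_181257_gt
end
end

-- part Pool.Agent.P.MP_181257_gt.PdE3
section

set_option autoImplicit false
set_option linter.unusedSectionVars false
set_option linter.unusedVariables false

open MeasureTheory ProbabilityTheory Module Set Filter Topology Function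
open scoped RealInnerProductSpace ENNReal Pointwise LinearAlgebra.Projectivization

noncomputable section

namespace Pool.Agent.P.MP_181257_gt

variable {V : Type} [NormedAddCommGroup V] [InnerProductSpace ℝ V] [FiniteDimensional ℝ V]
  [MeasurableSpace V] [BorelSpace V] {ι : Type} [Fintype ι] [DecidableEq ι]

theorem not_splitsS {μ : Measure V} (hs : ¬ Splits μ) {A : Set V} (hA : μ Aᶜ = 0) :
    ¬ SplitsS A := by
  rintro ⟨E, F, h1, h2, h3, h4⟩
  exact hs ⟨E, F, h1, h2, h3, measure_mono_null (compl_subset_compl.2 h4) hA⟩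

/-- a vector orthogonal to a hyperplane spanned by points of `A` is a generalised cross product -/
theorem exists_Nv (b : Basis ι ℝ V) (j : ι) {A : Set V} {w : V} (hw : w ≠ 0)
    (h : Sp A (ℝ ∙ w)ᗮ) :
    ∃ (x : ι → V) (t : ℝ), (∀ i, i ≠ j → x i ∈ A ∧ x i ≠ 0) ∧ t ≠ 0 ∧ Nv b j x = t • w := by
  have hcard : (Finset.univ.erase j).card ≤ finrank ℝ (ℝ ∙ w)ᗮ := by
    have h1 := Submodule.finrank_add_finrank_orthogonal (ℝ ∙ w)
    rw [finrank_span_singleton hw, Module.finrank_eq_card_basis b] at h1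
    rw [Finset.card_erase_of_mem (Finset.mem_univ j), Finset.card_univ]
    omega
  obtain ⟨y, -, hy, hind⟩ := ext_indep h (J₀ := ∅) (J := Finset.univ.erase j)
    (Finset.empty_subset _) hcard (x := fun _ => 0) (by simp) (by simp)
  have hmem : ∀ i, i ≠ j → i ∈ Finset.univ.erase j := fun i hi => by simp [hi]
  have horth : ∀ i, i ≠ j → ⟪y i, w⟫ = 0 := fun i hi =>
    (Submodule.mem_orthogonal_singleton_iff_inner_left).1 (hy i (hmem i hi) (by simp)).2
  have hww : ⟪w, w⟫ ≠ 0 := fun h0 => hw (inner_self_eq_zero.1 h0)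
  have hsum : ∀ g : ι → ℝ, ∑ i, g i * ⟪update y j w i, w⟫ = g j * ⟪w, w⟫ := by
    intro g
    rw [Finset.sum_eq_single j]
    · simp
    · intro i _ hi
      rw [update_of_ne hi, horth i hi, mul_zero]
    · simp
  have hdet : b.det (update y j w) ≠ 0 := by
    rw [bdet_ne_zero_iff, Fintype.linearIndependent_iff]
    intro g hg
    have hj : g j = 0 := by
      have h1 : ⟪∑ i, g i • update y j w i, w⟫ = 0 := by rw [hg, inner_zero_left]
      simp_rw [sum_inner, real_inner_smul_left] at h1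
      rw [hsum] at h1
      exact (mul_eq_zero.1 h1).resolve_right hww
    have h2 : ∑ i ∈ Finset.univ.erase j, g i • y i = 0 := by
      rw [← Finset.add_sum_erase _ _ (Finset.mem_univ j), hj, zero_smul, zero_add] at hg
      rw [← hg]
      exact Finset.sum_congr rfl fun i hi => by rw [update_of_ne (Finset.ne_of_mem_erase hi)]
    intro i
    by_cases hi : i = j
    · rw [hi, hj]
    · exact linearIndepOn_finset_iff.1 hind g h2 i (hmem i hi)
  have hcr := cramer_dual b (update y j w) w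
  rw [Finset.sum_eq_single j, update_self, Nv_update] at hcr
  · refine ⟨y, b.det (update y j w) / ⟪w, w⟫, fun i hi => ⟨(hy i (hmem i hi) (by simp)).1,
      hind.ne_zero (by simpa using hi)⟩, div_ne_zero hdet hww, ?_⟩
    rw [div_eq_inv_mul, mul_smul, hcr, smul_smul, inv_mul_cancel₀ hww, one_smul]
  · intro i _ hi
    rw [update_of_ne hi, horth i hi, zero_smul]
  · simp

theorem cone_smul_PdE3 (O : Set V) (t : ℝ) (x : V) (ht : t ≠ 0) :
    t • x ∈ cone O ↔ x ∈ cone O := by
  constructor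
  · rintro ⟨s, hs, h⟩
    exact ⟨s * t, mul_ne_zero hs ht, by rwa [mul_smul]⟩
  · rintro ⟨s, hs, h⟩
    refine ⟨s * t⁻¹, mul_ne_zero hs (inv_ne_zero ht), ?_⟩
    rwa [smul_smul, mul_assoc, inv_mul_cancel₀ ht, mul_one]

theorem isOpen_cone_PdE3 {O : Set V} (hO : IsOpen O) : IsOpen (cone O) := by
  have : cone O = ⋃ t : ℝ, ⋃ _ : t ≠ 0, (fun x : V => t • x) ⁻¹' O := by
    ext x
    simp [cone]
  rw [this]
  exact isOpen_iUnion fun t => isOpen_iUnion fun _ => hO.preimage (continuous_const_smul t)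

theorem dual_PdE3 {μ ν : Measure V} (hμ : Good μ) (hν : Good ν) (h : Half μ ν) (w : V)
    (hw : w ≠ 0) (hsp : Sp (csupp μ) (ℝ ∙ w)ᗮ) : w ∈ csupp ν := by
  intro O hO hwO
  haveI := hμ.mom.prob
  haveI : Nontrivial V := ⟨⟨w, 0, hw⟩⟩
  let b := Module.finBasis ℝ V
  let j : Fin (finrank ℝ V) := ⟨0, Module.finrank_pos⟩
  obtain ⟨x, t, hx, ht, hxt⟩ := exists_Nv b j hw hsp
  obtain ⟨z, hz⟩ : (csupp μ).Nonempty := by
    by_contra hne
    have h0 := null_compl_csupp μ
    rw [not_nonempty_iff_eq_empty.1 hne, compl_empty, measure_univ] at h0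
    exact one_ne_zero h0
  rw [Ne, h.null_iff b j hμ.mom hν (isOpen_cone_PdE3 hO).measurableSet (cone_smul_PdE3 O)]
  have key := pos_of_csupp (μ := μ) (S := fun _ : Fin (finrank ℝ V) => univ)
    (fun _ => MeasurableSet.univ) (z := update x j z)
    (U := {x | Nv b j x ∈ cone O ∧ Nv b j x ≠ 0}) ?_ ?_ ?_ ?_
  · simpa using key
  · intro i
    rw [Measure.restrict_univ]
    by_cases hi : i = j
    · rw [hi, update_self]
      exact hz
    · rw [update_of_ne hi]
      exact (hx i hi).1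
  · exact ((isOpen_cone_PdE3 hO).preimage (continuous_Nv b j)).inter
      (isOpen_compl_singleton.preimage (continuous_Nv b j))
  · simp only [mem_setOf_eq, Nv_update, hxt]
    exact ⟨(cone_smul_PdE3 O t w ht).2 ⟨1, one_ne_zero, by simpa using hwO⟩, smul_ne_zero ht hw⟩
  · intro s y hs hy
    simp only [mem_setOf_eq, Nv_smul] at hy ⊢
    exact ⟨(cone_smul_PdE3 O _ _ (Finset.prod_ne_zero_iff.2 fun i _ => hs i)).1 hy.1,
      fun h0 => hy.2 (by rw [h0, smul_zero])⟩

theorem Pair.cl_csupp {μ ν : Measure V} (h : Pair μ ν) : Cl (csupp μ) (csupp ν) := by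
  haveI := h.gl.mom.prob
  haveI := h.gr.mom.prob
  exact ⟨fun t z hz => csupp_smul (IsProbabilityMeasure.ne_zero μ) t hz,
    fun t z hz => csupp_smul (IsProbabilityMeasure.ne_zero ν) t hz,
    span_of_null h.gl (null_compl_csupp μ), span_of_null h.gr (null_compl_csupp ν),
    dual_PdE3 h.gl h.gr h.hl, dual_PdE3 h.gr h.gl h.hr⟩

theorem Pair.csupp_eq {μ ν : Measure V} (h : Pair μ ν) (hs : ¬ Splits μ)
    (hn : 3 ≤ finrank ℝ V) : csupp μ = univ := by
  exact h.cl_csupp.full (isClosed_csupp μ) (not_splitsS hs (null_compl_csupp μ)) hn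

end Pool.Agent.P.MP_181257_gt
end
end

-- part Pool.Agent.P.MP_181257_gt.PdE4
section

set_option autoImplicit false
set_option linter.unusedSectionVars false
set_option linter.unusedVariables false

open MeasureTheory ProbabilityTheory Module Set Filter Topology Function
open scoped RealInnerProductSpace ENNReal Pointwise LinearAlgebra.Projectivization

noncomputable section

namespace Pool.Agent.P.MP_181257_gt

variable {V : Type} [NormedAddCommGroup V] [InnerProductSpace ℝ V] [FiniteDimensional ℝ V]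
  [MeasurableSpace V] [BorelSpace V] {ι : Type} [Fintype ι] [DecidableEq ι]

theorem Atomic.null {μ : Measure V} (h : Atomic μ) : μ (atoms μ)ᶜ = 0 := by
  obtain ⟨S, hS, h0⟩ := h
  have h1 : μ (⋃ z ∈ {z ∈ S | μ ((ℝ ∙ z : Submodule ℝ V) : Set V) = 0},
      ((ℝ ∙ z : Submodule ℝ V) : Set V)) = 0 :=
    (measure_biUnion_null_iff (hS.mono fun z hz => hz.1)).2 fun z hz => hz.2
  refine measure_mono_null (fun x hx => ?_) (measure_union_null h0 h1)
  simp only [atoms, mem_compl_iff, mem_ofPred_eq, not_or, not_not] at hx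
  by_cases h2 : x ∈ ⋃ z ∈ S, ((ℝ ∙ z : Submodule ℝ V) : Set V)
  · obtain ⟨z, hz, hxz⟩ := mem_iUnion₂.1 h2
    refine Or.inr (mem_iUnion₂.2 ⟨z, ⟨hz, ?_⟩, hxz⟩)
    obtain ⟨t, rfl⟩ := Submodule.mem_span_singleton.1 hxz
    have ht : t ≠ 0 := fun ht => hx.1 (by rw [ht, zero_smul])
    rw [← Submodule.span_singleton_smul_eq (IsUnit.mk0 t ht) z]
    exact hx.2
  · exact Or.inl h2

theorem Pair.atomic (hn : 1 ≤ finrank ℝ V) {μ ν : Measure V} (h : Pair μ ν) (ha : Atomic μ) :
    Atomic ν := by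
  obtain ⟨S, hS, h0⟩ := ha
  have := h.gl.mom.prob
  let b := Module.finBasis ℝ V
  let j : Fin (finrank ℝ V) := ⟨0, hn⟩
  have hS' : (Nv b j '' {x | ∀ i, x i ∈ S}).Countable := (countable_pi fun _ => hS).image _
  refine ⟨_, hS', (h.hl.null_iff b j h.gl.mom h.gr ?_ fun t x ht => ?_).2 ?_⟩
  · exact (MeasurableSet.biUnion hS' fun z _ =>
      (Submodule.closed_of_finiteDimensional _).measurableSet).compl
  · simp only [mem_compl_iff, mem_iUnion, SetLike.mem_coe, Submodule.smul_mem_iff _ ht]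
  · have h1 : ∀ᵐ y ∂μ, y ∈ ⋃ z ∈ S, ((ℝ ∙ z : Submodule ℝ V) : Set V) := h0
    have h3 := ae_pw (ι := Fin (finrank ℝ V)) h1
    rw [ae_iff] at h3
    refine measure_mono_null ?_ h3
    intro x hx hall
    refine hx.1 ?_
    have h2 : ∀ i, ∃ z ∈ S, ∃ t : ℝ, t • z = x i := by
      intro i
      obtain ⟨z, hz, hxz⟩ := mem_iUnion₂.1 (hall i)
      exact ⟨z, hz, Submodule.mem_span_singleton.1 hxz⟩
    choose z hz t ht using h2
    obtain rfl : x = fun i => t i • z i := funext fun i => (ht i).symm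
    refine mem_iUnion₂.2 ⟨Nv b j z, ⟨z, hz, rfl⟩, ?_⟩
    rw [Nv_smul]
    exact Submodule.smul_mem _ _ (Submodule.mem_span_singleton_self _)

theorem smul_PdE4 (μ : Measure V) (t : ℝ) (z : V) (hz : z ∈ atoms μ) : t • z ∈ atoms μ := by
  by_cases ht : t = 0
  · exact Or.inl (by rw [ht, zero_smul])
  rcases hz with hz | hz
  · exact Or.inl (by rw [hz, smul_zero])
  · refine Or.inr ?_
    rwa [Submodule.span_singleton_smul_eq (IsUnit.mk0 t ht) z]

theorem dual_PdE4 {μ ν : Measure V} (h : Pair μ ν) (w : V) (hw : w ≠ 0)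
    (hs : Sp (atoms μ) (ℝ ∙ w)ᗮ) : w ∈ atoms ν := by
  have := h.gl.mom.prob
  have : Nontrivial V := ⟨w, 0, hw⟩
  let b := Module.finBasis ℝ V
  let j : Fin (finrank ℝ V) := ⟨0, Module.finrank_pos⟩
  obtain ⟨x, t, hx, ht, hN⟩ := exists_Nv b j hw hs
  refine Or.inr fun h0 => ?_
  have h1 := (h.hl.null_iff b j h.gl.mom h.gr
    (Submodule.closed_of_finiteDimensional (ℝ ∙ w)).measurableSet
    (fun t x ht => Submodule.smul_mem_iff _ ht)).1 h0
  let B : Fin (finrank ℝ V) → Set V := fun i =>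
    if i = j then univ else ((ℝ ∙ x i : Submodule ℝ V) : Set V) \ {0}
  have h2 : pw μ _ (univ.pi B) = 0 := by
    refine measure_mono_null (fun y hy => ?_) h1
    have h3 : ∀ i, ∃ s : ℝ, s ≠ 0 ∧ s • update x j (y j) i = y i := by
      intro i
      by_cases hi : i = j
      · exact ⟨1, one_ne_zero, by rw [hi, update_self, one_smul]⟩
      · have h4 := hy i (mem_univ i)
        simp only [B, if_neg hi] at h4
        obtain ⟨s, hs⟩ := Submodule.mem_span_singleton.1 h4.1
        refine ⟨s, fun h5 => h4.2 ?_, by rwa [update_of_ne hi]⟩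
        rw [← hs, h5, zero_smul]
        rfl
    choose s hs0 hs using h3
    have h4 : Nv b j y = ((∏ i ∈ Finset.univ.erase j, s i) * t) • w := by
      rw [mul_smul, ← hN, ← Nv_update b j x (y j), ← Nv_smul]
      exact congrArg _ (funext fun i => (hs i).symm)
    refine ⟨?_, ?_⟩
    · rw [h4]
      exact Submodule.smul_mem _ _ (Submodule.mem_span_singleton_self _)
    · rw [h4]
      exact smul_ne_zero (mul_ne_zero (Finset.prod_ne_zero_iff.2 fun i _ => hs0 i) ht) hw
  rw [Measure.pi_pi, Finset.prod_eq_zero_iff] at h2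
  obtain ⟨i, -, h3⟩ := h2
  by_cases hi : i = j
  · simp only [B, if_pos hi, measure_univ] at h3
    exact one_ne_zero h3
  · simp only [B, if_neg hi] at h3
    rw [measure_sdiff_null h.gl.zero] at h3
    exact ((hx i hi).1.resolve_left (hx i hi).2) h3

theorem Pair.cl_atoms {μ ν : Measure V} (h : Pair μ ν) (ha : Atomic μ) (ha' : Atomic ν) :
    Cl (atoms μ) (atoms ν) := by
  exact ⟨smul_PdE4 μ, smul_PdE4 ν, span_of_null h.gl ha.null, span_of_null h.gr ha'.null,
    dual_PdE4 h, dual_PdE4 h.symm⟩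

theorem exists_atom {μ : Measure V} (ha : Atomic μ) (hs : csupp μ = univ)
    {U W : Submodule ℝ V} (hU : U ≠ ⊤) (hW : W ≠ ⊤) : ∃ y ∈ atoms μ, y ∉ U ∧ y ∉ W := by
  by_contra hc
  push Not at hc
  obtain ⟨z, hzU, hzW⟩ : ∃ z, z ∉ U ∧ z ∉ W := by
    obtain ⟨x, -, hx⟩ := SetLike.exists_of_lt (lt_top_iff_ne_top.2 hU)
    obtain ⟨y, -, hy⟩ := SetLike.exists_of_lt (lt_top_iff_ne_top.2 hW)
    by_cases h1 : x ∈ W
    · by_cases h2 : y ∈ U
      · exact ⟨x + y, fun h => hx ((U.add_mem_iff_left h2).1 h),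
          fun h => hy ((W.add_mem_iff_right h1).1 h)⟩
      · exact ⟨y, h2, hy⟩
    · exact ⟨x, hx, h1⟩
  have hz : z ∈ csupp μ := hs ▸ mem_univ z
  refine hz ((U : Set V) ∪ (W : Set V))ᶜ ((Submodule.closed_of_finiteDimensional U).union
    (Submodule.closed_of_finiteDimensional W)).isOpen_compl (fun h => h.elim hzU hzW) ?_
  refine measure_mono_null ?_ ha.null
  rintro x ⟨t, -, hx⟩ hxa
  by_cases h1 : x ∈ U
  · exact hx (Or.inl (U.smul_mem t h1))
  · exact hx (Or.inr (W.smul_mem t (hc x hxa h1)))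

end Pool.Agent.P.MP_181257_gt
end
end

-- part Pool.Agent.P.MP_181257_gt.PdG4
section

set_option autoImplicit false
set_option linter.unusedSectionVars false
set_option linter.unusedVariables false

open MeasureTheory ProbabilityTheory Module Set Filter Topology Function
open scoped RealInnerProductSpace ENNReal Pointwise LinearAlgebra.Projectivization

noncomputable section

namespace Pool.Agent.P.MP_181257_gt

variable {V : Type} [NormedAddCommGroup V] [InnerProductSpace ℝ V] [FiniteDimensional ℝ V]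
  [MeasurableSpace V] [BorelSpace V] {ι : Type} [Fintype ι] [DecidableEq ι]

theorem tp_le_Rp (b : Basis ι ℝ V) {j k : ι} (hjk : j ≠ k) {μ : Measure V} (hμ : Good μ)
    (l π : Pl V) {x : V} (hx : x ∈ l.sp) (hx0 : x ≠ 0) : tp b j k μ l π ≤ Rp b j k μ π x := by
  obtain ⟨a, c, rfl⟩ := Submodule.mem_span_pair.1 hx
  have pp : ⟪l.p, l.p⟫ = (1 : ℝ) := by rw [real_inner_self_eq_norm_sq, l.hp, one_pow]
  have qq : ⟪l.q, l.q⟫ = (1 : ℝ) := by rw [real_inner_self_eq_norm_sq, l.hq, one_pow]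
  have pq := l.hpq
  have qp : ⟪l.q, l.p⟫ = (0 : ℝ) := by rw [real_inner_comm, pq]
  have hJ : l.J (a • l.p + c • l.q) = c • l.p - a • l.q := by
    simp only [Pl.J, inner_add_left, real_inner_smul_left, pp, qq, pq, qp]
    simp
  have hs : 0 < a ^ 2 + c ^ 2 := by
    by_contra h
    have ha : a = 0 := by nlinarith [sq_nonneg a, sq_nonneg c]
    have hc : c = 0 := by nlinarith [sq_nonneg a, sq_nonneg c]
    exact hx0 (by simp [ha, hc])
  have hG : Gm b j k μ (a • l.p + c • l.q) (c • l.p - a • l.q) =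
      (a ^ 2 + c ^ 2) * Gm b j k μ l.p l.q := by
    rw [Gm, Gm, ← integral_const_mul]
    refine integral_congr_ae (Eventually.of_forall fun y => ?_)
    beta_reduce
    rw [bdet_two b hjk l y hx (hJ ▸ l.J_mem _), abs_mul, mul_comm]
    congr 1
    simp only [inner_add_left, inner_sub_left, real_inner_smul_left, pp, qq, pq, qp]
    rw [← abs_neg, ← abs_of_pos hs]
    congr 1
    ring
  have hv : |⟪c • l.p - a • l.q, π.J (a • l.p + c • l.q)⟫| = (a ^ 2 + c ^ 2) * gp l π := by
    rw [gp, ← abs_of_pos hs, ← abs_mul]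
    congr 1
    simp only [Pl.J, inner_add_left, inner_sub_left, inner_sub_right, real_inner_smul_left,
      real_inner_smul_right]
    ring
  have hL := laplace_le b hjk hμ.mom (ξ := c • l.p - a • l.q) (π.inner_J (a • l.p + c • l.q))
  rw [hG, hv] at hL
  have hQ := Qm_pos b j hμ hx0
  have hP : 0 < Gm b j k μ l.p l.q := by
    refine Gm_pos b hjk hμ (LinearIndependent.pair_iff.2 fun s t h => ?_)
    have h1 := congrArg (fun z => ⟪z, l.p⟫) h
    have h2 := congrArg (fun z => ⟪z, l.q⟫) h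
    simp only [inner_add_left, real_inner_smul_left, pp, qq, pq, qp, inner_zero_left] at h1 h2
    exact ⟨by linarith, by linarith⟩
  have hM : 0 ≤ Mp b j k μ π := integral_nonneg fun _ => abs_nonneg _
  have h3 : gp l π * Qm b j μ (a • l.p + c • l.q) ≤
      ((Fintype.card ι : ℝ) - 1) * Hm μ (π.J (a • l.p + c • l.q)) * Gm b j k μ l.p l.q :=
    le_of_mul_le_mul_left (by linarith) hs
  rw [tp, Rp, div_le_div_iff₀ hP hQ]
  nlinarith [mul_le_mul_of_nonneg_left h3 hM]

end Pool.Agent.P.MP_181257_gt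
end
end

-- part Pool.Agent.P.MP_181257_gt.PdG6
section

set_option autoImplicit false
set_option linter.unusedSectionVars false
set_option linter.unusedVariables false

open MeasureTheory ProbabilityTheory Module Set Filter Topology Function
open scoped RealInnerProductSpace ENNReal Pointwise LinearAlgebra.Projectivization

noncomputable section

namespace Pool.Agent.P.MP_181257_gt

variable {V : Type} [NormedAddCommGroup V] [InnerProductSpace ℝ V] [FiniteDimensional ℝ V]
  [MeasurableSpace V] [BorelSpace V] {ι : Type} [Fintype ι] [DecidableEq ι]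

theorem tp_pos_PdG6 (b : Basis ι ℝ V) {j k : ι} (hjk : j ≠ k) {μ : Measure V} (hμ : Good μ)
    {l π : Pl V} (hg : gp l π ≠ 0) (hs : Sp (atoms μ) π.spᗮ) : 0 < tp b j k μ l π := by
  have h1 : 0 < gp l π := lt_of_le_of_ne (abs_nonneg _) hg.symm
  have h2 := Mp_pos b hjk hμ hs
  have h3 : LinearIndependent ℝ ![l.p, l.q] := by
    refine LinearIndependent.pair_iff.2 fun s t hst => ?_
    have e1 := congrArg (fun z => ⟪l.p, z⟫) hst
    have e2 := congrArg (fun z => ⟪z, l.q⟫) hst
    simp only [inner_add_right, inner_add_left, real_inner_smul_right, real_inner_smul_left,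
      real_inner_self_eq_norm_sq, l.hp, l.hq, l.hpq, inner_zero_right, inner_zero_left] at e1 e2
    constructor <;> linarith
  exact div_pos (mul_pos h1 h2) (Gm_pos b hjk hμ h3)

theorem one_PdG6 (b : Basis ι ℝ V) {j k : ι} (hjk : j ≠ k) {μ ν : Measure V} (h : Pair μ ν)
    (l π : Pl V) {x v : ℙ ℝ V} (hx : x.rep ∈ l.sp) (h0 : π.J x.rep ≠ 0)
    (hv : π.J x.rep ∈ v.submodule) : tp b j k μ l π * aL μ ν x ≤ aL ν μ v := by
  have h1 := sum_Rp_le b hjk h π v {x} (fun y hy => by
    rw [Finset.mem_singleton.1 hy]; exact ⟨h0, hv⟩)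
  rw [Finset.sum_singleton] at h1
  exact (mul_le_mul_of_nonneg_right (tp_le_Rp b hjk h.gl l π hx x.rep_nonzero)
    (aL_nonneg μ ν x)).trans h1

theorem step_aL {μ ν : Measure V} (h : Pair μ ν) (hn : 2 ≤ finrank ℝ V)
    (hcl : Cl (atoms μ) (atoms ν))
    {l l' W : Submodule ℝ V} (hl : finrank ℝ l = 2) (hl' : finrank ℝ l' = 2)
    (hsl' : Sp (atoms μ) l') (hW : Sp (atoms μ) W) (hc : IsCompl l W) (hc' : IsCompl l' W) :
    ∃ c : ℝ, 0 < c ∧ ∀ x x' : ℙ ℝ V, x.rep ∈ l → x'.rep ∈ l' → x'.rep ∈ x.submodule ⊔ W →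
      c * aL μ ν x ≤ aL μ ν x' := by
  let b := Module.finBasis ℝ V
  let j : Fin (finrank ℝ V) := ⟨0, by omega⟩
  let k : Fin (finrank ℝ V) := ⟨1, by omega⟩
  have hjk : j ≠ k := by simp [j, k]
  have hWo : finrank ℝ Wᗮ = 2 := by
    have e1 := Submodule.finrank_add_finrank_orthogonal W
    have e2 := Submodule.finrank_add_eq_of_isCompl hc
    omega
  obtain ⟨P, rfl⟩ := exists_Pl hl
  obtain ⟨P', rfl⟩ := exists_Pl hl'
  obtain ⟨π, hπ⟩ := exists_Pl hWo
  have hπ' : π.spᗮ = W := by rw [hπ, Submodule.orthogonal_orthogonal]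
  have g1 : gp P π ≠ 0 := (gp_ne_zero_iff P π).2 (hπ' ▸ hc.disjoint)
  have g2 : gp π P' ≠ 0 := gp_comm P' π ▸ (gp_ne_zero_iff P' π).2 (hπ' ▸ hc'.disjoint)
  have t1 := tp_pos_PdG6 b hjk h.gl g1 (hπ' ▸ hW)
  have t2 := tp_pos_PdG6 b hjk h.gr g2 (hcl.orth hsl')
  refine ⟨_, mul_pos t2 t1, fun x x' hx hx' hxx => ?_⟩
  have n1 : π.J x.rep ≠ 0 := fun h0 => x.rep_nonzero
    ((Submodule.disjoint_def.1 hc.disjoint) _ hx (hπ' ▸ (π.J_eq_zero_iff _).1 h0))
  obtain ⟨a, ha⟩ := Projectivization.exists_smul_eq_mk_rep ℝ (π.J x.rep) n1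
  set v := Projectivization.mk ℝ (π.J x.rep) n1 with hv
  have m1 : v.rep ∈ π.sp := ha ▸ π.sp.smul_mem (a : ℝ) (π.J_mem _)
  have s1 := one_PdG6 b hjk h P π (v := v) hx n1 (by
    rw [hv, Projectivization.submodule_mk]; exact Submodule.mem_span_singleton_self _)
  have n2 : P'.J v.rep ≠ 0 := fun h0 => v.rep_nonzero
    ((Submodule.disjoint_def.1 ((gp_ne_zero_iff π P').1 g2)) _ m1 ((P'.J_eq_zero_iff _).1 h0))
  have o1 : ⟪x'.rep, v.rep⟫ = 0 := by
    obtain ⟨y, hy, w, hw, he⟩ := Submodule.mem_sup.1 hxx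
    rw [Projectivization.submodule_eq] at hy
    obtain ⟨s, rfl⟩ := Submodule.mem_span_singleton.1 hy
    have o2 : ⟪w, v.rep⟫ = 0 := Submodule.inner_right_of_mem_orthogonal hw (hπ ▸ m1)
    have o3 : ⟪x.rep, v.rep⟫ = 0 := by
      rw [← ha, Units.smul_def, real_inner_smul_right, π.inner_J, mul_zero]
    rw [← he, inner_add_left, real_inner_smul_left, o2, o3, mul_zero, add_zero]
  obtain ⟨s, hs⟩ := Submodule.mem_span_singleton.1 (P'.mem_span_J n2 hx' o1)
  have hs0 : s ≠ 0 := fun h0 => x'.rep_nonzero (by rw [← hs, h0, zero_smul])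
  have s2 := one_PdG6 b hjk h.symm π P' (v := x') m1 n2 (by
    rw [Projectivization.submodule_eq]
    exact Submodule.mem_span_singleton.2 ⟨s⁻¹, by rw [← hs, inv_smul_smul₀ hs0]⟩)
  rw [mul_assoc]
  exact (mul_le_mul_of_nonneg_left s1 t2.le).trans s2

end Pool.Agent.P.MP_181257_gt
end
end

-- part Pool.Agent.P.MP_181257_gt.PdG6b
section

set_option autoImplicit false
set_option linter.unusedSectionVars false
set_option linter.unusedVariables false

open MeasureTheory ProbabilityTheory Module Set Filter Topology Function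
open scoped RealInnerProductSpace ENNReal Pointwise LinearAlgebra.Projectivization

noncomputable section

namespace Pool.Agent.P.MP_181257_gt

variable {V : Type} [NormedAddCommGroup V] [InnerProductSpace ℝ V] [FiniteDimensional ℝ V]
  [MeasurableSpace V] [BorelSpace V] {ι : Type} [Fintype ι] [DecidableEq ι]

theorem one_PdG6b (y : V) : finrank ℝ (ℝ ∙ y : Submodule ℝ V) ≤ 1 := by
  simpa using finrank_span_le_card (R := ℝ) ({y} : Set V)

theorem compl_PdG6b {U W₀ : Submodule ℝ V} (hU : finrank ℝ U = 3) (hc : IsCompl U W₀) {u v y : V}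
    (h : U ≤ Submodule.span ℝ {u, v} ⊔ ℝ ∙ y) :
    finrank ℝ (Submodule.span ℝ {u, v} : Submodule ℝ V) = 2 ∧
      IsCompl (Submodule.span ℝ {u, v}) ((ℝ ∙ y) ⊔ W₀) := by
  have h1 : finrank ℝ (Submodule.span ℝ {u, v} : Submodule ℝ V) ≤ 2 := by
    rw [Submodule.span_insert]
    have := Submodule.finrank_add_le_finrank_add_finrank (ℝ ∙ u) (ℝ ∙ v)
    have := one_PdG6b u
    have := one_PdG6b v
    omega
  have h2 : finrank ℝ ((ℝ ∙ y) ⊔ W₀ : Submodule ℝ V) ≤ 1 + finrank ℝ W₀ := by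
    have := Submodule.finrank_add_le_finrank_add_finrank (ℝ ∙ y) W₀
    have := one_PdG6b y
    omega
  have h3 : Submodule.span ℝ {u, v} ⊔ ((ℝ ∙ y) ⊔ W₀) = ⊤ := by
    rw [← sup_assoc, eq_top_iff, ← hc.sup_eq_top]
    exact sup_le_sup_right h _
  have h4 := Submodule.finrank_add_eq_of_isCompl hc
  have h5 := Submodule.finrank_sup_add_finrank_inf_eq (Submodule.span ℝ {u, v}) ((ℝ ∙ y) ⊔ W₀)
  rw [h3, finrank_top] at h5
  refine ⟨by omega, ?_, codisjoint_iff.mpr h3⟩
  rw [disjoint_iff, ← Submodule.finrank_eq_zero]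
  omega

theorem pair_PdG6b {u v e : V} (a b : ℝ) (h : e = a • u + b • v) :
    e ∈ Submodule.span ℝ ({u, v} : Set V) := Submodule.mem_span_pair.mpr ⟨a, b, h.symm⟩

theorem mem_PdG6b {u v y e : V} (a b c : ℝ) (h : e = a • u + b • v + c • y) :
    e ∈ Submodule.span ℝ ({u, v} : Set V) ⊔ ℝ ∙ y := by
  rw [h]
  exact Submodule.add_mem_sup (pair_PdG6b a b rfl)
    (Submodule.smul_mem _ _ (Submodule.mem_span_singleton_self y))

theorem le_PdG6b {e₁ e₂ e₃ : V} {T : Submodule ℝ V} (h1 : e₁ ∈ T) (h2 : e₂ ∈ T) (h3 : e₃ ∈ T) :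
    Submodule.span ℝ (range ![e₁, e₂, e₃]) ≤ T := by
  rw [Submodule.span_le]
  rintro _ ⟨i, rfl⟩
  fin_cases i
  · exact h1
  · exact h2
  · exact h3

theorem sp_pair_PdG6b {A : Set V} {u v : V} (hu : u ∈ A) (hv : v ∈ A) :
    Sp A (Submodule.span ℝ {u, v}) := by
  refine Submodule.span_mono ?_
  rintro z (rfl | rfl)
  · exact ⟨hu, Submodule.subset_span (Or.inl rfl)⟩
  · exact ⟨hv, Submodule.subset_span (Or.inr rfl)⟩

theorem sp_sup_PdG6b {A : Set V} {y : V} {W₀ : Submodule ℝ V} (hy : y ∈ A) (hW : Sp A W₀) :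
    Sp A ((ℝ ∙ y) ⊔ W₀) := by
  refine sup_le ?_ (hW.trans (Submodule.span_mono ?_))
  · rw [Submodule.span_singleton_le_iff_mem]
    exact Submodule.subset_span
      ⟨hy, Submodule.mem_sup_left (Submodule.mem_span_singleton_self y)⟩
  · exact fun z hz => ⟨hz.1, Submodule.mem_sup_right hz.2⟩

theorem rep_PdG6b {T : Submodule ℝ V} {a : V} (ha : a ≠ 0) (h : a ∈ T) :
    (Projectivization.mk ℝ a ha).rep ∈ T := by
  obtain ⟨t, ht⟩ := Projectivization.exists_smul_eq_mk_rep ℝ a ha
  rw [← ht]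
  exact T.smul_mem (t : ℝ) h

theorem step_PdG6b {μ ν : Measure V} (h : Pair μ ν) (hcl : Cl (atoms μ) (atoms ν))
    (hn : 3 ≤ finrank ℝ V) {U W₀ : Submodule ℝ V} (hU : finrank ℝ U = 3) (hc : IsCompl U W₀)
    (hW : Sp (atoms μ) W₀) {u v u' v' y : V} (hu' : u' ∈ atoms μ) (hv' : v' ∈ atoms μ)
    (hy : y ∈ atoms μ) (h1 : U ≤ Submodule.span ℝ {u, v} ⊔ ℝ ∙ y)
    (h2 : U ≤ Submodule.span ℝ {u', v'} ⊔ ℝ ∙ y) :
    ∃ c : ℝ, 0 < c ∧ ∀ (a a' : V) (ha : a ≠ 0) (ha' : a' ≠ 0) (t : ℝ),
      a ∈ Submodule.span ℝ ({u, v} : Set V) → a' ∈ Submodule.span ℝ ({u', v'} : Set V) →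
      a' = a + t • y →
      c * aL μ ν (Projectivization.mk ℝ a ha) ≤ aL μ ν (Projectivization.mk ℝ a' ha') := by
  obtain ⟨d1, c1⟩ := compl_PdG6b hU hc h1
  obtain ⟨d2, c2⟩ := compl_PdG6b hU hc h2
  obtain ⟨c, hc0, hc⟩ := step_aL h (by omega) hcl d1 d2 (sp_pair_PdG6b hu' hv')
    (sp_sup_PdG6b hy hW) c1 c2
  refine ⟨c, hc0, fun a a' ha ha' t m1 m2 e => hc _ _ (rep_PdG6b ha m1) (rep_PdG6b ha' m2) ?_⟩
  refine rep_PdG6b ha' ?_
  rw [Projectivization.submodule_mk, e]
  exact Submodule.add_mem_sup (Submodule.mem_span_singleton_self a)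
    (Submodule.mem_sup_left (Submodule.smul_mem _ _ (Submodule.mem_span_singleton_self y)))

theorem ind_PdG6b {e₁ e₂ e₃ : V} (hi : LinearIndependent ℝ ![e₁, e₂, e₃]) {a b c : ℝ}
    (h : a • e₁ + b • e₂ + c • e₃ = 0) : a = 0 ∧ b = 0 := by
  have := Fintype.linearIndependent_iff.mp hi ![a, b, c] (by simpa [Fin.sum_univ_three] using h)
  exact ⟨this 0, this 1⟩

/-- item (v): exponentially many lines of exponentially small weight in one plane -/
theorem growth {μ ν : Measure V} (h : Pair μ ν) (hcl : Cl (atoms μ) (atoms ν))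
    (hs : ¬ SplitsS (atoms μ)) (hn : 3 ≤ finrank ℝ V) :
    ∃ (l : Submodule ℝ V) (c : ℝ), finrank ℝ l = 2 ∧ Sp (atoms μ) l ∧ 0 < c ∧ c ≤ 1 ∧
      ∀ r : ℕ, ∃ S : Finset (ℙ ℝ V), S.card = 2 ^ r ∧
        ∀ x ∈ S, x.rep ∈ l ∧ c ^ (r + 1) ≤ aL μ ν x := by
  classical
  obtain ⟨e₁, e₂, e₃, hi, m1, m2, m3, m23, m13, m31⟩ := hcl.frame hs hn
  obtain ⟨W₀, hW, hc⟩ := exists_compl_sp hcl.tl (Submodule.span ℝ (range ![e₁, e₂, e₃]))
  have hU : finrank ℝ (Submodule.span ℝ (range ![e₁, e₂, e₃])) = 3 := by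
    rw [finrank_span_eq_card hi, Fintype.card_fin]
  have a0 : Submodule.span ℝ (range ![e₁, e₂, e₃]) ≤ Submodule.span ℝ {e₁, e₂} ⊔ ℝ ∙ e₃ :=
    le_PdG6b (mem_PdG6b 1 0 0 (by module)) (mem_PdG6b 0 1 0 (by module))
      (mem_PdG6b 0 0 1 (by module))
  have b0 : Submodule.span ℝ (range ![e₁, e₂, e₃]) ≤ Submodule.span ℝ {e₁, e₂} ⊔ ℝ ∙ (e₃ - e₁) :=
    le_PdG6b (mem_PdG6b 1 0 0 (by module)) (mem_PdG6b 0 1 0 (by module))
      (mem_PdG6b 1 0 1 (by module))
  have a1 : Submodule.span ℝ (range ![e₁, e₂, e₃]) ≤ Submodule.span ℝ {e₁, e₂ + e₃} ⊔ ℝ ∙ e₃ :=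
    le_PdG6b (mem_PdG6b 1 0 0 (by module)) (mem_PdG6b 0 1 (-1) (by module))
      (mem_PdG6b 0 0 1 (by module))
  have b1 : Submodule.span ℝ (range ![e₁, e₂, e₃]) ≤
      Submodule.span ℝ {e₁, e₂ + e₃} ⊔ ℝ ∙ (e₃ - e₁) :=
    le_PdG6b (mem_PdG6b 1 0 0 (by module)) (mem_PdG6b (-1) 1 (-1) (by module))
      (mem_PdG6b 1 0 1 (by module))
  have a2 : Submodule.span ℝ (range ![e₁, e₂, e₃]) ≤ Submodule.span ℝ {e₂, e₁ + e₃} ⊔ ℝ ∙ e₃ :=
    le_PdG6b (mem_PdG6b 0 1 (-1) (by module)) (mem_PdG6b 1 0 0 (by module))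
      (mem_PdG6b 0 0 1 (by module))
  have b2 : Submodule.span ℝ (range ![e₁, e₂, e₃]) ≤
      Submodule.span ℝ {e₂, e₁ + e₃} ⊔ ℝ ∙ (e₃ - e₁) :=
    le_PdG6b (mem_PdG6b 0 (1 / 2) (-1 / 2) (by module)) (mem_PdG6b 1 0 0 (by module))
      (mem_PdG6b 0 (1 / 2) (1 / 2) (by module))
  obtain ⟨c1, p1, s1⟩ := step_PdG6b h hcl hn hU hc hW m1 m23 m3 a0 a1
  obtain ⟨c2, p2, s2⟩ := step_PdG6b h hcl hn hU hc hW m1 m2 m31 b1 b0
  obtain ⟨c3, p3, s3⟩ := step_PdG6b h hcl hn hU hc hW m2 m13 m3 a0 a2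
  obtain ⟨c4, p4, s4⟩ := step_PdG6b h hcl hn hU hc hW m1 m2 m31 b2 b0
  have hne : ∀ t s : ℝ, t • e₁ + (1 : ℝ) • e₂ + s • e₃ ≠ 0 := fun t s h0 =>
    one_ne_zero (ind_PdG6b hi h0).2
  obtain ⟨X, hX⟩ : ∃ X : ℕ → ℙ ℝ V, ∀ m : ℕ,
      X m = Projectivization.mk ℝ ((m : ℝ) • e₁ + (1 : ℝ) • e₂ + (0 : ℝ) • e₃) (hne _ _) :=
    ⟨_, fun _ => rfl⟩
  have hl : ∀ t : ℝ, t • e₁ + (1 : ℝ) • e₂ + (0 : ℝ) • e₃ ∈ Submodule.span ℝ ({e₁, e₂} : Set V) :=
    fun t => pair_PdG6b t 1 (by module)
  have hsucc : ∀ m, c2 * c1 * aL μ ν (X m) ≤ aL μ ν (X (m + 1)) := by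
    intro m
    have q1 := s1 _ _ (hne m 0) (hne m 1) 1 (hl m) (pair_PdG6b m 1 (by module)) (by module)
    have q2 := s2 _ _ (hne m 1) (hne ((m + 1 : ℕ) : ℝ) 0) (-1) (pair_PdG6b m 1 (by module))
      (hl _) (by push_cast; module)
    rw [hX, hX, mul_assoc]
    exact (mul_le_mul_of_nonneg_left q1 p2.le).trans q2
  have hdbl : ∀ m, c4 * c3 * aL μ ν (X m) ≤ aL μ ν (X (2 * m)) := by
    intro m
    have q1 := s3 _ _ (hne m 0) (hne m m) m (hl m) (pair_PdG6b 1 m (by module)) (by module)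
    have q2 := s4 _ _ (hne m m) (hne ((2 * m : ℕ) : ℝ) 0) (-(m : ℝ)) (pair_PdG6b 1 m (by module))
      (hl _) (by push_cast; module)
    rw [hX, hX, mul_assoc]
    exact (mul_le_mul_of_nonneg_left q1 p4.le).trans q2
  have hinj : Injective X := by
    intro m m' e
    rw [hX, hX, Projectivization.mk_eq_mk_iff'] at e
    obtain ⟨a, ha⟩ := e
    have := ind_PdG6b hi (a := a * m' - m) (b := a - 1) (c := 0) (by
      rw [← sub_eq_zero.mpr ha]
      module)
    have h1 : a = 1 := by linarith [this.2]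
    have h2 : (m : ℝ) = m' := by
      have := this.1
      rw [h1] at this
      linarith
    exact_mod_cast h2
  have h0 : 0 < aL μ ν (X 0) := by
    refine aL_pos h.gl h.gr ?_
    have : (X 0).rep ∈ (ℝ ∙ e₂ : Submodule ℝ V) := by
      rw [hX]
      exact rep_PdG6b _ (Submodule.mem_span_singleton.mpr ⟨1, by push_cast; module⟩)
    obtain ⟨t, ht⟩ := Submodule.mem_span_singleton.mp this
    rw [← ht]
    exact hcl.sl t _ m2
  have pA : 0 < c2 * c1 := mul_pos p2 p1
  have pB : 0 < c4 * c3 := mul_pos p4 p3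
  generalize c2 * c1 = α at hsucc pA
  generalize c4 * c3 = β at hdbl pB
  obtain ⟨c, c0, k1, k2, k3, k4⟩ : ∃ c : ℝ, 0 < c ∧ c ≤ 1 ∧ c ≤ aL μ ν (X 0) ∧ c ≤ β ∧
      c ≤ α * β :=
    ⟨min (min 1 (aL μ ν (X 0))) (min β (α * β)),
      lt_min (lt_min one_pos h0) (lt_min pB (mul_pos pA pB)),
      (min_le_left _ _).trans (min_le_left _ _), (min_le_left _ _).trans (min_le_right _ _),
      (min_le_right _ _).trans (min_le_left _ _), (min_le_right _ _).trans (min_le_right _ _)⟩
  have key : ∀ r m : ℕ, m < 2 ^ r → c ^ (r + 1) ≤ aL μ ν (X m) := by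
    intro r
    induction r with
    | zero =>
      intro m hm
      obtain rfl : m = 0 := by omega
      simpa using k2
    | succ r ih =>
      intro m hm
      have hp : 0 ≤ c ^ (r + 1) := by positivity
      rw [pow_succ 2] at hm
      rw [pow_succ' c]
      obtain ⟨m', rfl | rfl⟩ := Nat.even_or_odd' m
      · exact (mul_le_mul k3 (ih m' (by omega)) hp pB.le).trans (hdbl m')
      · refine (mul_le_mul k4 (ih m' (by omega)) hp (mul_pos pA pB).le).trans ?_
        rw [mul_assoc]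
        exact (mul_le_mul_of_nonneg_left (hdbl m') pA.le).trans (hsucc _)
  refine ⟨Submodule.span ℝ {e₁, e₂}, c, (compl_PdG6b hU hc a0).1, sp_pair_PdG6b m1 m2, c0, k1,
    fun r => ⟨(Finset.range (2 ^ r)).image X, ?_, fun x hx => ?_⟩⟩
  · rw [Finset.card_image_of_injective _ hinj, Finset.card_range]
  · obtain ⟨m, hm, rfl⟩ := Finset.mem_image.mp hx
    refine ⟨?_, key r m (Finset.mem_range.mp hm)⟩
    rw [hX]
    exact rep_PdG6b _ (hl _)

end Pool.Agent.P.MP_181257_gt
end
end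

-- part Pool.Agent.P.MP_181257_gt.PdG4b
section

set_option autoImplicit false
set_option linter.unusedSectionVars false
set_option linter.unusedVariables false

open MeasureTheory ProbabilityTheory Module Set Filter Topology Function
open scoped RealInnerProductSpace ENNReal Pointwise LinearAlgebra.Projectivization

noncomputable section

namespace Pool.Agent.P.MP_181257_gt

variable {V : Type} [NormedAddCommGroup V] [InnerProductSpace ℝ V] [FiniteDimensional ℝ V]
  [MeasurableSpace V] [BorelSpace V] {ι : Type} [Fintype ι] [DecidableEq ι]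

/-- the transition weight as a function of two vectors -/
def tz_PdG4b (b : Basis ι ℝ V) (j k : ι) (μ : Measure V) (π : Pl V) (z : V × V) : ℝ :=
  |⟪z.1, π.p⟫ * ⟪z.2, π.q⟫ - ⟪z.1, π.q⟫ * ⟪z.2, π.p⟫| * Mp b j k μ π / Gm b j k μ z.1 z.2

/-- one term of the sum -/
def tm_PdG4b (b : Basis ι ℝ V) (j k : ι) (μ : Measure V) (s : ℝ) (π : Pl V) (z : V × V) : ℝ :=
  tz_PdG4b b j k μ π z
    + s * min (Rp b j k μ π z.1 - tz_PdG4b b j k μ π z) (tz_PdG4b b j k μ π z)

/-- orthonormal pairs -/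
def fl_PdG4b (V : Type) [NormedAddCommGroup V] [InnerProductSpace ℝ V] : Set (V × V) :=
  {z | ‖z.1‖ = 1 ∧ ‖z.2‖ = 1 ∧ ⟪z.1, z.2⟫ = 0}

theorem compact_PdG4b : IsCompact (fl_PdG4b V) := by
  refine ((isCompact_sphere (0 : V) 1).prod (isCompact_sphere (0 : V) 1)).of_isClosed_subset ?_
    fun z hz => ⟨by simpa using hz.1, by simpa using hz.2.1⟩
  exact (isClosed_eq (by fun_prop) continuous_const).inter
    ((isClosed_eq (by fun_prop) continuous_const).inter
      (isClosed_eq (by fun_prop) continuous_const))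

theorem ne_PdG4b {z : V × V} (hz : z ∈ fl_PdG4b V) : z.1 ≠ 0 := fun h => by
  have h1 := hz.1
  rw [h, norm_zero] at h1
  exact zero_ne_one h1

theorem li_PdG4b {z : V × V} (hz : z ∈ fl_PdG4b V) : LinearIndependent ℝ ![z.1, z.2] := by
  obtain ⟨h1, h2, h3⟩ := hz
  refine LinearIndependent.pair_iff.2 fun a c h => ?_
  have e1 := congrArg (fun w => ⟪z.1, w⟫) h
  have e2 := congrArg (fun w => ⟪w, z.2⟫) h
  simp only [inner_add_right, inner_add_left, real_inner_smul_right, real_inner_smul_left,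
    real_inner_self_eq_norm_sq, h1, h2, h3, inner_zero_right, inner_zero_left] at e1 e2
  constructor <;> linarith

theorem min_nonneg_PdG4b (b : Basis ι ℝ V) {j k : ι} (hjk : j ≠ k) {μ : Measure V} (hμ : Good μ)
    (π : Pl V) {z : V × V} (hz : z ∈ fl_PdG4b V) : 0 ≤ tz_PdG4b b j k μ π z ∧
      0 ≤ min (Rp b j k μ π z.1 - tz_PdG4b b j k μ π z) (tz_PdG4b b j k μ π z) := by
  have h1 : 0 ≤ tz_PdG4b b j k μ π z :=
    div_nonneg (mul_nonneg (abs_nonneg _) (Mp_nonneg b j k μ π))
      (Gm_pos b hjk hμ (li_PdG4b hz)).le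
  have h2 := tp_le_Rp b hjk hμ ⟨z.1, z.2, hz.1, hz.2.1, hz.2.2⟩ π (x := z.1)
    (Submodule.subset_span (by simp)) (ne_PdG4b hz)
  exact ⟨h1, le_min (sub_nonneg.2 h2) h1⟩

theorem cont_PdG4b (b : Basis ι ℝ V) {j k : ι} (hjk : j ≠ k) {μ : Measure V} (hμ : Good μ)
    (s : ℝ) (π : Pl V) : ContinuousOn (tm_PdG4b b j k μ s π) (fl_PdG4b V) := by
  have h1 : ContinuousOn (tz_PdG4b b j k μ π) (fl_PdG4b V) :=
    ContinuousOn.div (Continuous.continuousOn (by fun_prop))
      (continuous_Gm b hjk hμ.mom).continuousOn fun z hz => (Gm_pos b hjk hμ (li_PdG4b hz)).ne'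
  have h2 : ContinuousOn (fun z : V × V => Rp b j k μ π z.1) (fl_PdG4b V) :=
    ContinuousOn.div (continuous_const.mul ((continuous_Hm hμ.mom).comp
      (π.continuous_J.comp continuous_fst))).continuousOn
      ((continuous_Qm b j hμ.mom).comp continuous_fst).continuousOn
      fun z hz => (Qm_pos b j hμ (ne_PdG4b hz)).ne'
  exact h1.add (continuousOn_const.mul
    (continuous_min.comp_continuousOn ((h2.sub h1).prodMk h1)))

/-- a plane with a strict gain -/
theorem strict_PdG4b (b : Basis ι ℝ V) {j k : ι} (hjk : j ≠ k) {μ : Measure V} (hμ : Good μ)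
    (ha : Atomic μ) (hs : csupp μ = univ) (hn : 3 ≤ Fintype.card ι) {T : Set (Pl V)}
    (hT : ∀ U : Submodule ℝ V, finrank ℝ U = 2 → Sp (atoms μ) Uᗮ → ∃ π ∈ T, π.sp = U)
    {z : V × V} (hz : z ∈ fl_PdG4b V) : ∃ π ∈ T,
      0 < min (Rp b j k μ π z.1 - tz_PdG4b b j k μ π z) (tz_PdG4b b j k μ π z) := by
  have hA := span_of_null hμ ha.null
  let l : Pl V := ⟨z.1, z.2, hz.1, hz.2.1, hz.2.2⟩
  obtain ⟨W, hW, hc⟩ := exists_compl_sp hA l.sp
  have hW2 : finrank ℝ Wᗮ = 2 := by
    have h1 := Submodule.finrank_add_eq_of_isCompl hc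
    have h2 := W.finrank_add_finrank_orthogonal
    have h3 := l.finrank_sp
    omega
  obtain ⟨π, hπ, hsp⟩ := hT Wᗮ hW2 (by rwa [Submodule.orthogonal_orthogonal])
  have ho : π.spᗮ = W := by rw [hsp, Submodule.orthogonal_orthogonal]
  have hg : gp l π ≠ 0 := (gp_ne_zero_iff l π).2 (by rw [ho]; exact hc.disjoint)
  have hM : 0 < Mp b j k μ π := Mp_pos b hjk hμ (by rwa [ho])
  have hG := Gm_pos b hjk hμ (li_PdG4b hz)
  have hQ := Qm_pos b j hμ (ne_PdG4b hz)
  have he : |⟪z.2, π.J z.1⟫| = gp l π := by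
    rw [Pl.J, inner_sub_right, real_inner_smul_right, real_inner_smul_right, abs_sub_comm]
    rfl
  have hv : π.J z.1 ≠ 0 := fun h => hg (by rw [← he, h, inner_zero_right, abs_zero])
  have hU : l.sp ≠ ⊤ := fun h => by
    have h3 := l.finrank_sp
    rw [h, finrank_top, finrank_eq_card_basis b] at h3
    omega
  have hU' : (ℝ ∙ π.J z.1)ᗮ ≠ ⊤ := fun h =>
    hv (Submodule.span_singleton_eq_bot.1 (Submodule.orthogonal_eq_top_iff _ |>.1 h))
  obtain ⟨y, hy, hy1, hy2⟩ := exists_atom ha hs hU hU'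
  have hi : LinearIndependent ℝ ![z.1, z.2, y] := by
    refine Fintype.linearIndependent_iff.2 fun g hg' => ?_
    simp only [Fin.sum_univ_three, Matrix.cons_val_zero, Matrix.cons_val_one,
      Matrix.cons_val_two, Matrix.head_cons, Matrix.tail_cons] at hg'
    have h2 : g 2 = 0 := by
      by_contra h2
      refine hy1 ((l.sp.smul_mem_iff h2).1 ?_)
      rw [eq_neg_of_add_eq_zero_right hg']
      exact l.sp.neg_mem (Submodule.mem_span_pair.2 ⟨g 0, g 1, rfl⟩)
    rw [h2, zero_smul, add_zero] at hg'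
    have h3 := LinearIndependent.pair_iff.1 (li_PdG4b hz) _ _ hg'
    intro i
    fin_cases i
    exacts [h3.1, h3.2, h2]
  have hl := laplace_lt b hjk hμ hA hn (π.inner_J z.1) hy
    (fun h => hy2 (Submodule.mem_orthogonal_singleton_iff_inner_left.2 h)) hi
  rw [he] at hl
  have hg0 : 0 < gp l π := lt_of_le_of_ne (abs_nonneg _) hg.symm
  refine ⟨π, hπ, lt_min (sub_pos.2 ?_) (div_pos (mul_pos hg0 hM) hG)⟩
  change gp l π * Mp b j k μ π / Gm b j k μ z.1 z.2 < _
  rw [Rp, div_lt_div_iff₀ hG hQ]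
  nlinarith [mul_lt_mul_of_pos_left hl hM]

theorem mono_PdG4b (b : Basis ι ℝ V) {j k : ι} (hjk : j ≠ k) {μ : Measure V} (hμ : Good μ)
    {s : ℝ} (hs0 : 0 < s) {J J' : Finset (Pl V)} (h : J ⊆ J') {z : V × V}
    (hz : z ∈ fl_PdG4b V) :
    ∑ π ∈ J, tm_PdG4b b j k μ s π z ≤ ∑ π ∈ J', tm_PdG4b b j k μ s π z :=
  Finset.sum_le_sum_of_subset_of_nonneg h fun π _ _ =>
    add_nonneg (min_nonneg_PdG4b b hjk hμ π hz).1
      (mul_nonneg hs0.le (min_nonneg_PdG4b b hjk hμ π hz).2)

theorem Rp_smul_PdG4b (b : Basis ι ℝ V) (j k : ι) (μ : Measure V) (π : Pl V) {t : ℝ} (ht : t ≠ 0)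
    (x : V) : Rp b j k μ π (t • x) = Rp b j k μ π x := by
  rw [Rp, Rp, Pl.J_smul, Hm_smul, Qm_smul, mul_left_comm _ |t|,
    mul_div_mul_left _ _ (abs_ne_zero.2 ht)]

theorem rot_PdG4b (b : Basis ι ℝ V) {j k : ι} (hjk : j ≠ k) (μ : Measure V) (l : Pl V) {x : V}
    (hx : x ∈ l.sp) (h1 : ‖x‖ = 1) : ∃ ξ : V, (x, ξ) ∈ fl_PdG4b V ∧
      ∀ π : Pl V, tz_PdG4b b j k μ π (x, ξ) = tp b j k μ l π := by
  obtain ⟨a, c, rfl⟩ := Submodule.mem_span_pair.1 hx
  have hpq := l.hpq
  have hqp : ⟪l.q, l.p⟫ = 0 := by rw [real_inner_comm, hpq]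
  have hp : ⟪l.p, l.p⟫ = 1 := by rw [real_inner_self_eq_norm_sq, l.hp, one_pow]
  have hq : ⟪l.q, l.q⟫ = 1 := by rw [real_inner_self_eq_norm_sq, l.hq, one_pow]
  have hac : a ^ 2 + c ^ 2 = 1 := by
    have h2 := real_inner_self_eq_norm_sq (a • l.p + c • l.q)
    simp only [inner_add_right, inner_add_left, real_inner_smul_right, real_inner_smul_left,
      hpq, hqp, hp, hq, h1] at h2
    linarith
  have hξ : (-c) • l.p + a • l.q ∈ l.sp := Submodule.mem_span_pair.2 ⟨_, _, rfl⟩
  refine ⟨(-c) • l.p + a • l.q, ⟨h1, ?_, ?_⟩, fun π => ?_⟩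
  · have h2 := real_inner_self_eq_norm_sq ((-c) • l.p + a • l.q)
    simp only [inner_add_right, inner_add_left, real_inner_smul_right, real_inner_smul_left,
      hpq, hqp, hp, hq] at h2
    exact (pow_eq_one_iff_of_nonneg (norm_nonneg _) two_ne_zero).1 (by linarith)
  · simp only [inner_add_right, inner_add_left, real_inner_smul_right, real_inner_smul_left,
      hpq, hqp, hp, hq]
    ring
  · have hG : Gm b j k μ (a • l.p + c • l.q) ((-c) • l.p + a • l.q) = Gm b j k μ l.p l.q := by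
      refine congrArg _ (funext fun y => ?_)
      rw [bdet_two b hjk l y hx hξ]
      simp only [inner_add_left, real_inner_smul_left, hpq, hqp, hp, hq]
      refine congrArg _ ?_
      linear_combination (b.det (update (update y j l.p) k l.q)) * hac
    rw [tz_PdG4b, tp, gp, hG]
    simp only [inner_add_left, real_inner_smul_left]
    refine congrArg (fun r => |r| * _ / _) ?_
    linear_combination (⟪l.p, π.p⟫ * ⟪l.q, π.q⟫ - ⟪l.p, π.q⟫ * ⟪l.q, π.p⟫) * hac

/-- item (iii): a uniform gain on finitely many planes -/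
theorem exists_gainP (b : Basis ι ℝ V) {j k : ι} (hjk : j ≠ k) {μ : Measure V} (hμ : Good μ)
    (ha : Atomic μ) (hs : csupp μ = univ) (hn : 3 ≤ Fintype.card ι) {s : ℝ} (hs0 : 0 < s)
    (l₀ : Pl V) (h₀ : Sp (atoms μ) l₀.spᗮ) :
    ∃ (J : Finset (Pl V)) (δ : ℝ), 0 < δ ∧ InjOn Pl.sp (J : Set (Pl V)) ∧
      (∀ π ∈ J, Sp (atoms μ) π.spᗮ) ∧ (∃ π ∈ J, π.sp = l₀.sp) ∧
      ∀ (l : Pl V) (x : V), x ∈ l.sp → x ≠ 0 →
        1 + δ ≤ ∑ π ∈ J, (tp b j k μ l π
          + s * min (Rp b j k μ π x - tp b j k μ l π) (tp b j k μ l π)) := by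
  classical
  obtain ⟨T, hT1, hT2, hT3, hT4⟩ := exists_planes b hjk hμ ha
  have key : ∃ J : Finset (Pl V), (J : Set (Pl V)) ⊆ T ∧ ∃ δ : ℝ, 0 < δ ∧
      ∀ z ∈ fl_PdG4b V, z ∈ fl_PdG4b V → 1 + δ ≤ ∑ π ∈ J, tm_PdG4b b j k μ s π z := by
    refine compact_PdG4b.induction_on (p := fun S => ∃ J : Finset (Pl V), (J : Set (Pl V)) ⊆ T ∧
      ∃ δ : ℝ, 0 < δ ∧ ∀ z ∈ S, z ∈ fl_PdG4b V → 1 + δ ≤ ∑ π ∈ J, tm_PdG4b b j k μ s π z)
      ⟨∅, by simp, 1, one_pos, fun z hz => hz.elim⟩ ?_ ?_ ?_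
    · rintro S S' hS ⟨J, h1, δ, h2, h3⟩
      exact ⟨J, h1, δ, h2, fun z hz => h3 z (hS hz)⟩
    · rintro S S' ⟨J, h1, δ, h2, h3⟩ ⟨J', h1', δ', h2', h3'⟩
      refine ⟨J ∪ J', by rw [Finset.coe_union]; exact union_subset h1 h1', min δ δ',
        lt_min h2 h2', fun z hz hz' => ?_⟩
      rcases hz with hz | hz
      · exact (add_le_add le_rfl (min_le_left _ _)).trans ((h3 z hz hz').trans
          (mono_PdG4b b hjk hμ hs0 Finset.subset_union_left hz'))
      · exact (add_le_add le_rfl (min_le_right _ _)).trans ((h3' z hz hz').trans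
          (mono_PdG4b b hjk hμ hs0 Finset.subset_union_right hz'))
    · intro z hz
      obtain ⟨π₀, hπ₀, h0⟩ := strict_PdG4b b hjk hμ ha hs hn hT3 hz
      have hG := Gm_pos b hjk hμ (li_PdG4b hz)
      have hη := mul_pos hs0 h0
      set η := s * min (Rp b j k μ π₀ z.1 - tz_PdG4b b j k μ π₀ z) (tz_PdG4b b j k μ π₀ z)
        with hηd
      obtain ⟨J, hJ, h1⟩ := hT4 z.1 z.2 (η / 3 * Gm b j k μ z.1 z.2) (by positivity)
      have h2 : 1 - η / 3 ≤ ∑ π ∈ J, tz_PdG4b b j k μ π z := by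
        simp only [tz_PdG4b]
        rw [← Finset.sum_div, le_div_iff₀ hG]
        linarith
      have h3 : ∑ π ∈ J, tz_PdG4b b j k μ π z ≤ ∑ π ∈ insert π₀ J, tz_PdG4b b j k μ π z :=
        Finset.sum_le_sum_of_subset_of_nonneg (Finset.subset_insert _ _) fun π _ _ =>
          (min_nonneg_PdG4b b hjk hμ π hz).1
      have h4 : η ≤ ∑ π ∈ insert π₀ J,
          s * min (Rp b j k μ π z.1 - tz_PdG4b b j k μ π z) (tz_PdG4b b j k μ π z) :=
        Finset.single_le_sum (f := fun π => s * min (Rp b j k μ π z.1 - tz_PdG4b b j k μ π z)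
          (tz_PdG4b b j k μ π z)) (fun π _ => mul_nonneg hs0.le
            (min_nonneg_PdG4b b hjk hμ π hz).2) (Finset.mem_insert_self _ _)
      have h5 : 1 + η / 3 < ∑ π ∈ insert π₀ J, tm_PdG4b b j k μ s π z := by
        simp only [tm_PdG4b]
        rw [Finset.sum_add_distrib]
        linarith
      have h6 : ContinuousOn (fun z => ∑ π ∈ insert π₀ J, tm_PdG4b b j k μ s π z)
          (fl_PdG4b V) := continuousOn_finsetSum _ fun π _ => cont_PdG4b b hjk hμ s π
      refine ⟨_, (h6 z hz).eventually (lt_mem_nhds h5), insert π₀ J, ?_, η / 3, by positivity,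
        fun w hw _ => le_of_lt hw⟩
      rw [Finset.coe_insert]
      exact insert_subset hπ₀ hJ
  obtain ⟨J, hJ, δ, hδ, h⟩ := key
  obtain ⟨π₀, hπ₀, h0⟩ := hT3 l₀.sp l₀.finrank_sp h₀
  have hJ' : ((insert π₀ J : Finset (Pl V)) : Set (Pl V)) ⊆ T := by
    rw [Finset.coe_insert]
    exact insert_subset hπ₀ hJ
  refine ⟨insert π₀ J, δ, hδ, hT1.mono hJ', fun π hπ => hT2 π (hJ' hπ),
    ⟨π₀, Finset.mem_insert_self _ _, h0⟩, fun l x hx hx0 => ?_⟩
  have hn0 : ‖x‖⁻¹ ≠ 0 := inv_ne_zero (norm_ne_zero_iff.2 hx0)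
  obtain ⟨ξ, h1, h2⟩ := rot_PdG4b b hjk μ l (l.sp.smul_mem ‖x‖⁻¹ hx) (norm_smul_inv_norm hx0)
  refine ((h _ h1 h1).trans (mono_PdG4b b hjk hμ hs0 (Finset.subset_insert π₀ J) h1)).trans
    (Finset.sum_congr rfl fun π _ => ?_).le
  rw [tm_PdG4b, h2, Rp_smul_PdG4b b j k μ π hn0]

end Pool.Agent.P.MP_181257_gt
end
end

-- part Pool.Agent.P.MP_181257_gt.PdD1
section

set_option autoImplicit false
set_option linter.unusedSectionVars false
set_option linter.unusedVariables false

open MeasureTheory ProbabilityTheory Module Set Filter Topology Function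
open scoped RealInnerProductSpace ENNReal Pointwise LinearAlgebra.Projectivization

noncomputable section

namespace Pool.Agent.P.MP_181257_gt

variable {V : Type} [NormedAddCommGroup V] [InnerProductSpace ℝ V] [FiniteDimensional ℝ V]
  [MeasurableSpace V] [BorelSpace V] {ι : Type} [Fintype ι] [DecidableEq ι]

theorem meas_PdD1 (E : Submodule ℝ V) : MeasurableSet (E : Set V) :=
  E.closed_of_finiteDimensional.measurableSet

theorem res_apply (μ : Measure V) (E : Submodule ℝ V) {s : Set E} (hs : MeasurableSet s) :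
    res μ E s = (μ E)⁻¹ * μ (Subtype.val '' s) := by
  have hm : MeasurableEmbedding (Subtype.val : E → V) :=
    MeasurableEmbedding.subtype_coe (meas_PdD1 E)
  rw [res, Measure.smul_apply, hm.comap_apply, smul_eq_mul]

theorem lintegral_res (μ : Measure V) [IsFiniteMeasure μ] {E : Submodule ℝ V} (hE : μ E ≠ 0)
    {f : V → ℝ≥0∞} (hf : Measurable f) :
    ∫⁻ x in (E : Set V), f x ∂μ = μ E * ∫⁻ y : E, f y ∂(res μ E) := by
  have h1 : ∫⁻ y : E, f y ∂(μ.comap Subtype.val) = ∫⁻ x in (E : Set V), f x ∂μ :=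
    lintegral_subtype_comap (meas_PdD1 E) f
  rw [res, lintegral_smul_measure, h1, smul_eq_mul, ← mul_assoc,
    ENNReal.mul_inv_cancel hE (measure_ne_top _ _), one_mul]

theorem meas_ne_zero {μ : Measure V} (hμ : Good μ) {E F : Submodule ℝ V} (hEF : IsCompl E F)
    (hE : E ≠ ⊥) (h : μ ((E : Set V) ∪ (F : Set V))ᶜ = 0) : μ E ≠ 0 := by
  intro h0
  have hF : F ≠ ⊤ := fun h1 => hE (by
    have h2 := hEF.inf_eq_bot
    rwa [h1, inf_top_eq] at h2)
  refine hμ.ne_top hF (measure_mono_null (fun x hx => ?_) (measure_union_null h h0))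
  by_cases h1 : x ∈ (E : Set V)
  · exact Or.inr h1
  · exact Or.inl fun h2 => h2.elim h1 hx

theorem setIntegral_res {μ : Measure V} (hμ : Mom μ) {E : Submodule ℝ V} (hE : μ E ≠ 0) (u : V) :
    ∫ x in (E : Set V), |⟪u, x⟫| ∂μ
      = (μ E).toReal * Hm (res μ E) (E.orthogonalProjectionOnto u) := by
  have := hμ.prob
  have h1 : ∫ y : E, |⟪u, (y : V)⟫| ∂(μ.comap Subtype.val) = ∫ x in (E : Set V), |⟪u, x⟫| ∂μ :=
    integral_subtype_comap (meas_PdD1 E) fun x => |⟪u, x⟫|
  unfold Hm res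
  simp only [Submodule.inner_orthogonalProjectionOnto_eq_of_mem_right]
  rw [integral_smul_measure, h1, smul_eq_mul, ← mul_assoc, ← ENNReal.toReal_mul,
    ENNReal.mul_inv_cancel hE (measure_ne_top _ _), ENNReal.toReal_one, one_mul]

/-- on the annihilator of `F` only the part on `E` is seen -/
theorem Hm_res {μ : Measure V} (hμ : Good μ) {E F : Submodule ℝ V} (hEF : IsCompl E F)
    (hE : E ≠ ⊥) (h : μ ((E : Set V) ∪ (F : Set V))ᶜ = 0) {w : V} (hw : w ∈ Fᗮ) :
    Hm μ w = (μ E).toReal * Hm (res μ E) (E.orthogonalProjectionOnto w) := by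
  rw [← setIntegral_res hμ.mom (meas_ne_zero hμ hEF hE h) w]
  refine (setIntegral_eq_integral_of_ae_compl_eq_zero ?_).symm
  have h1 : ∀ᵐ x ∂μ, x ∈ (E : Set V) ∪ (F : Set V) := h
  filter_upwards [h1] with x hx hxE
  rw [Submodule.inner_left_of_mem_orthogonal (hx.resolve_left hxE) hw, abs_zero]

theorem exists_lift {E F : Submodule ℝ V} (hEF : IsCompl E F) (u : E) :
    ∃ w ∈ Fᗮ, E.orthogonalProjectionOnto w = u := by
  let T : Fᗮ →ₗ[ℝ] E := E.orthogonalProjectionOnto.toLinearMap.comp Fᗮ.subtype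
  have hi : Injective T := by
    refine (injective_iff_map_eq_zero T).2 fun w hw => Subtype.ext ?_
    have h1 : (w : V) ∈ Eᗮ := Submodule.orthogonalProjectionOnto_eq_zero_iff.1 hw
    have h2 : (w : V) ∈ Eᗮ ⊓ Fᗮ := ⟨h1, w.2⟩
    rwa [Submodule.inf_orthogonal, hEF.sup_eq_top, Submodule.top_orthogonal_eq_bot,
      Submodule.mem_bot] at h2
  have hd : finrank ℝ Fᗮ = finrank ℝ E := by
    have h1 := F.finrank_add_finrank_orthogonal
    have h2 := Submodule.finrank_add_eq_of_isCompl hEF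
    omega
  obtain ⟨w, hw⟩ := (LinearMap.injective_iff_surjective_of_finrank_eq_finrank hd).1 hi u
  exact ⟨w, w.2, hw⟩

theorem Good.res {μ : Measure V} (hμ : Good μ) {E F : Submodule ℝ V} (hEF : IsCompl E F)
    (hE : E ≠ ⊥) (h : μ ((E : Set V) ∪ (F : Set V))ᶜ = 0) : Good (res μ E) := by
  have := hμ.mom.prob
  have h0 := meas_ne_zero hμ hEF hE h
  have hm : MeasurableEmbedding (Subtype.val : E → V) :=
    MeasurableEmbedding.subtype_coe (meas_PdD1 E)
  refine ⟨⟨⟨?_⟩, ?_⟩, ?_, fun u hu => ?_⟩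
  · rw [res_apply μ E MeasurableSet.univ, image_univ, Subtype.range_coe_subtype]
    exact ENNReal.inv_mul_cancel h0 (measure_ne_top _ _)
  · refine Integrable.smul_measure ?_ (ENNReal.inv_ne_top.2 h0)
    have h1 : Integrable (fun x : V => ‖x‖) ((μ.comap (Subtype.val : E → V)).map Subtype.val) := by
      rw [hm.map_comap]
      exact hμ.mom.int.restrict
    exact hm.integrable_map_iff.1 h1
  · rw [res_apply μ E (measurableSet_singleton 0), image_singleton]
    exact mul_eq_zero_of_right _ hμ.zero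
  · obtain ⟨w, hw, rfl⟩ := exists_lift hEF u
    have h1 := hμ.pos w fun h2 => hu (by rw [h2, map_zero])
    rw [Hm_res hμ hEF hE h hw] at h1
    exact (pos_iff_pos_of_mul_pos h1).1 (ENNReal.toReal_pos h0 (measure_ne_top _ _))

end Pool.Agent.P.MP_181257_gt
end
end

-- part Pool.Agent.P.MP_181257_gt.PdD1b
section

set_option autoImplicit false
set_option linter.unusedSectionVars false
set_option linter.unusedVariables false

open MeasureTheory ProbabilityTheory Module Set Filter Topology Function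
open scoped RealInnerProductSpace ENNReal Pointwise LinearAlgebra.Projectivization

noncomputable section

namespace Pool.Agent.P.MP_181257_gt

variable {V : Type} [NormedAddCommGroup V] [InnerProductSpace ℝ V] [FiniteDimensional ℝ V]
  [MeasurableSpace V] [BorelSpace V] {ι : Type} [Fintype ι] [DecidableEq ι]

theorem isCompl_orth {E F : Submodule ℝ V} (hEF : IsCompl E F) : IsCompl Fᗮ Eᗮ := by
  refine ⟨disjoint_iff.2 ?_, codisjoint_iff.2 ?_⟩
  · rw [Submodule.inf_orthogonal, hEF.symm.sup_eq_top, Submodule.top_orthogonal_eq_bot]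
  · rw [← Submodule.orthogonal_eq_bot_iff, ← Submodule.inf_orthogonal,
      Submodule.orthogonal_orthogonal, Submodule.orthogonal_orthogonal, hEF.symm.inf_eq_bot]

theorem nv_mem_PdD1b (b : Basis ι ℝ V) (j : ι) {E F : Submodule ℝ V} (hEF : IsCompl E F)
    {x : ι → V} (hx : ∀ i, x i ∈ (E : Set V) ∪ (F : Set V)) :
    Nv b j x ∈ (Fᗮ : Set V) ∪ (Eᗮ : Set V) := by
  classical
  by_contra hn
  simp only [mem_union, SetLike.mem_coe, Submodule.mem_orthogonal, not_or, not_forall] at hn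
  obtain ⟨⟨f, hf, hf0⟩, ⟨e, he, he0⟩⟩ := hn
  rw [inner_Nv] at hf0 he0
  have key : ∀ (U : Submodule ℝ V) (u : V) (S : Finset ι), u ∈ U → j ∉ S → (∀ i ∈ S, x i ∈ U) →
      b.det (update x j u) ≠ 0 → S.card + 1 ≤ finrank ℝ U := by
    intro U u S hu hj hS hd
    by_contra hc
    refine hd (bdet_zero_of_card b (U := U) (S := insert j S) (fun i hi => ?_) ?_)
    · rcases Finset.mem_insert.1 hi with rfl | hi
      · rwa [update_self]
      · rw [update_of_ne (fun h => hj (by rwa [← h]))]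
        exact hS i hi
    · rw [Finset.card_insert_of_notMem hj]
      omega
  have h1 := key E e ((Finset.univ.erase j).filter fun i => x i ∈ E) he (by simp)
    (fun i hi => (Finset.mem_filter.1 hi).2) he0
  have h2 := key F f ((Finset.univ.erase j).filter fun i => ¬ x i ∈ E) hf (by simp)
    (fun i hi => (hx i).resolve_left (Finset.mem_filter.1 hi).2) hf0
  have h3 := Finset.card_filter_add_card_filter_not (s := Finset.univ.erase j) fun i => x i ∈ E
  have h4 := Submodule.finrank_add_eq_of_isCompl hEF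
  have h5 := Module.finrank_eq_card_basis b
  rw [Finset.card_erase_of_mem (Finset.mem_univ j), Finset.card_univ] at h3
  have h6 : 0 < Fintype.card ι := Fintype.card_pos_iff.2 ⟨j⟩
  omega

theorem Half.split {μ ν : Measure V} (hμ : Good μ) (hν : Good ν) (h : Half μ ν)
    {E F : Submodule ℝ V} (hEF : IsCompl E F) (hs : μ ((E : Set V) ∪ (F : Set V))ᶜ = 0) :
    ν ((Fᗮ : Set V) ∪ (Eᗮ : Set V))ᶜ = 0 := by
  rcases Nat.eq_zero_or_pos (finrank ℝ V) with h0 | h0
  · have : Subsingleton V := Module.finrank_zero_iff.1 h0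
    have e : ((Fᗮ : Set V) ∪ (Eᗮ : Set V))ᶜ = ∅ := by
      rw [compl_empty_iff]
      refine eq_univ_of_forall fun x => Or.inl ?_
      rw [Subsingleton.elim x 0]
      exact Submodule.zero_mem _
    rw [e, measure_empty]
  have := hμ.mom.1
  have hm : ∀ U : Submodule ℝ V, MeasurableSet (U : Set V) := fun U =>
    (Submodule.closed_of_finiteDimensional U).measurableSet
  refine (h.null_iff (Module.finBasis ℝ V) ⟨0, h0⟩ hμ.mom hν ((hm _).union (hm _)).compl
    fun t x ht => ?_).2 ?_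
  · simp only [mem_compl_iff, mem_union, SetLike.mem_coe, Submodule.smul_mem_iff _ ht]
  · have ha : ∀ᵐ y ∂μ, y ∈ (E : Set V) ∪ (F : Set V) := hs
    refine measure_mono_null (fun x hx => ?_) (ae_pw (ι := Fin (finrank ℝ V)) ha)
    exact fun hx' => hx.1 (nv_mem_PdD1b _ _ hEF hx')

theorem Pair.splits {μ ν : Measure V} (h : Pair μ ν) (hs : Splits μ) : Splits ν := by
  obtain ⟨E, F, hEF, hE, hF, hs⟩ := hs
  refine ⟨Fᗮ, Eᗮ, isCompl_orth hEF, fun h0 => hE ?_, fun h0 => hF ?_, h.hl.split h.gl h.gr hEF hs⟩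
  · rw [Submodule.orthogonal_eq_bot_iff] at h0
    rw [← hEF.inf_eq_bot, h0, inf_top_eq]
  · rw [Submodule.orthogonal_eq_bot_iff] at h0
    rw [← hEF.inf_eq_bot, h0, top_inf_eq]

end Pool.Agent.P.MP_181257_gt
end
end

-- part Pool.Agent.P.MP_181257_gt.PdG7
section

set_option autoImplicit false
set_option linter.unusedSectionVars false
set_option linter.unusedVariables false

open MeasureTheory ProbabilityTheory Module Set Filter Topology Function
open scoped RealInnerProductSpace ENNReal Pointwise LinearAlgebra.Projectivization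

noncomputable section

namespace Pool.Agent.P.MP_181257_gt

variable {V : Type} [NormedAddCommGroup V] [InnerProductSpace ℝ V] [FiniteDimensional ℝ V]
  [MeasurableSpace V] [BorelSpace V] {ι : Type} [Fintype ι] [DecidableEq ι]

theorem persp_rep_PdG7 (l : Pl V) (v : ℙ ℝ V) (h : l.J v.rep ≠ 0) :
    ∃ t : ℝ, t ≠ 0 ∧ (persp l v).rep = t • l.J v.rep := by
  have e : persp l v = Projectivization.mk ℝ (l.J v.rep) h := by
    unfold persp
    exact dif_neg h
  obtain ⟨a, ha⟩ := Projectivization.exists_smul_eq_mk_rep ℝ (l.J v.rep) h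
  exact ⟨a, a.ne_zero, by rw [e, ← ha]; rfl⟩

theorem subsingleton_PdG7 {U : Submodule ℝ V} (hU : finrank ℝ U ≤ 1) :
    {x : ℙ ℝ V | x.rep ∈ U}.Subsingleton := by
  intro x hx y hy
  have h1 : x.submodule = U := Submodule.eq_of_le_of_finrank_le
    (by rw [Projectivization.submodule_eq, Submodule.span_singleton_le_iff_mem]; exact hx)
    (by rw [Projectivization.finrank_submodule]; exact hU)
  have h2 : y.submodule = U := Submodule.eq_of_le_of_finrank_le
    (by rw [Projectivization.submodule_eq, Submodule.span_singleton_le_iff_mem]; exact hy)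
    (by rw [Projectivization.finrank_submodule]; exact hU)
  exact Projectivization.submodule_injective (h1.trans h2.symm)

theorem exists_Ex_PdG7 (I₀ : Finset (Pl V)) (hI : InjOn Pl.sp (I₀ : Set (Pl V))) :
    ∃ Ex : Finset (ℙ ℝ V), ∀ i ∈ I₀, ∀ i' ∈ I₀, i ≠ i' → ∀ x : ℙ ℝ V, x.rep ∈ i.sp →
      x.rep ∈ i'.sp → x ∈ Ex := by
  have hfin : (⋃ i ∈ (I₀ : Set (Pl V)), ⋃ i' ∈ (I₀ : Set (Pl V)),
      {x : ℙ ℝ V | i ≠ i' ∧ x.rep ∈ i.sp ⊓ i'.sp}).Finite := by
    refine I₀.finite_toSet.biUnion fun i hi => I₀.finite_toSet.biUnion fun i' hi' => ?_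
    by_cases hii : i = i'
    · simp [hii]
    · have hlt : i.sp ⊓ i'.sp < i.sp := by
        refine lt_of_le_of_ne inf_le_left fun e => hii (hI hi hi' ?_)
        exact Submodule.eq_of_le_of_finrank_le (inf_eq_left.1 e)
          (by rw [i.finrank_sp, i'.finrank_sp])
      have h1 := Submodule.finrank_lt_finrank_of_lt hlt
      rw [i.finrank_sp] at h1
      exact (subsingleton_PdG7 (U := i.sp ⊓ i'.sp) (by omega)).finite.subset fun x hx => hx.2
  refine ⟨hfin.toFinset, fun i hi i' hi' hii x h1 h2 => ?_⟩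
  rw [Finite.mem_toFinset]
  exact mem_biUnion hi (mem_biUnion hi' ⟨hii, h1, h2⟩)

theorem indep_PdG7 (l : Pl V) : LinearIndependent ℝ ![l.p, l.q] := by
  rw [LinearIndependent.pair_iff]
  intro s t h
  have h1 : ⟪l.p, s • l.p + t • l.q⟫ = 0 := by rw [h, inner_zero_right]
  have h2 : ⟪s • l.p + t • l.q, l.q⟫ = 0 := by rw [h, inner_zero_left]
  rw [inner_add_right, real_inner_smul_right, real_inner_smul_right, l.hpq,
    real_inner_self_eq_norm_sq, l.hp] at h1
  rw [inner_add_left, real_inner_smul_left, real_inner_smul_left, l.hpq,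
    real_inner_self_eq_norm_sq, l.hq] at h2
  constructor <;> linarith

/-- the truncated power sums -/
def FF (b : Basis ι ℝ V) (j k : ι) (μ ν : Measure V) (I₀ : Finset (Pl V)) (s L : ℝ) : ℝ≥0∞ :=
  ∑ l ∈ I₀, ENNReal.ofReal (Mp b j k ν l * Gm b j k μ l.p l.q) *
    ∑' x : {x : ℙ ℝ V | x.rep ∈ l.sp},
      ENNReal.ofReal (Psi L s (aL μ ν x / (Mp b j k ν l * Gm b j k μ l.p l.q)))

theorem FF_ne_top (b : Basis ι ℝ V) {j k : ι} (hjk : j ≠ k) {μ ν : Measure V} (h : Pair μ ν)
    {I₀ : Finset (Pl V)} (hI : ∀ l ∈ I₀, Sp (atoms ν) l.spᗮ) (s : ℝ) {L : ℝ} (hL : 0 ≤ L) :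
    FF b j k μ ν I₀ s L ≠ ∞ := by
  classical
  refine ENNReal.sum_ne_top.2 fun l hl => ENNReal.mul_ne_top ENNReal.ofReal_ne_top ?_
  set β := Mp b j k ν l * Gm b j k μ l.p l.q with hβ
  have hβ0 : 0 < β := mul_pos (Mp_pos b hjk h.gr (hI l hl)) (Gm_pos b hjk h.gl (indep_PdG7 l))
  refine ne_top_of_le_ne_top (b := ENNReal.ofReal (L / β * ∫ z, Hm ν z ∂μ))
    ENNReal.ofReal_ne_top ?_
  rw [ENNReal.tsum_eq_iSup_sum]
  refine iSup_le fun S => ?_
  have hn : ∀ x : ℙ ℝ V, 0 ≤ L / β * aL μ ν x := fun x =>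
    mul_nonneg (div_nonneg hL hβ0.le) (aL_nonneg μ ν x)
  calc ∑ x ∈ S, ENNReal.ofReal (Psi L s (aL μ ν x / β))
      ≤ ∑ x ∈ S, ENNReal.ofReal (L / β * aL μ ν x) := by
        refine Finset.sum_le_sum fun x _ => ENNReal.ofReal_le_ofReal ?_
        refine (min_le_left _ _).trans_eq ?_
        ring
    _ = ENNReal.ofReal (L / β * ∑ x ∈ S.image Subtype.val, aL μ ν x) := by
        rw [Finset.sum_image fun x _ y _ e => Subtype.ext e, Finset.mul_sum,
          ENNReal.ofReal_sum_of_nonneg fun (x : {x : ℙ ℝ V | x.rep ∈ l.sp}) _ => hn x.1]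
    _ ≤ _ := ENNReal.ofReal_le_ofReal
        (mul_le_mul_of_nonneg_left (sum_aL_le h.gl h.gr.mom _) (div_nonneg hL hβ0.le))

theorem FF_half (b : Basis ι ℝ V) {j k : ι} (hjk : j ≠ k) {μ ν : Measure V} (h : Pair μ ν)
    {I₀ J₀ : Finset (Pl V)} (hI : ∀ l ∈ I₀, Sp (atoms ν) l.spᗮ)
    (hJ : ∀ π ∈ J₀, Sp (atoms μ) π.spᗮ) (hIi : InjOn Pl.sp (I₀ : Set (Pl V))) {s δ : ℝ}
    (hs0 : 0 < s) (hs1 : s ≤ 1) (hδ : 0 ≤ δ)
    (hg : ∀ (l : Pl V) (x : V), x ∈ l.sp → x ≠ 0 →
      1 + δ ≤ ∑ π ∈ J₀, (tp b j k μ l π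
        + s / 2 * min (Rp b j k μ π x - tp b j k μ l π) (tp b j k μ l π))) :
    ∃ C : ℝ, ∀ L, 0 ≤ L →
      ENNReal.ofReal (1 + δ) * FF b j k μ ν I₀ s L ≤ FF b j k ν μ J₀ s L + ENNReal.ofReal C := by
  obtain ⟨Ex, hEx⟩ := exists_Ex_PdG7 I₀ hIi
  have ht : ∀ l ∈ I₀, ∀ π : Pl V, gp l π * Mp b j k μ π * Mp b j k ν l
      / (Mp b j k ν l * Gm b j k μ l.p l.q) = tp b j k μ l π := fun l hl π => by
    have h1 := (Mp_pos b hjk h.gr (hI l hl)).ne'
    have h2 := (Gm_pos b hjk h.gl (indep_PdG7 l)).ne'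
    unfold tp
    field_simp
  refine ⟨_, fun L hL => core_half I₀ J₀ (fun l => {x : ℙ ℝ V | x.rep ∈ l.sp})
    (fun l => {x : ℙ ℝ V | x.rep ∈ l.sp}) (aL μ ν) (aL ν μ)
    (fun l => Mp b j k ν l * Gm b j k μ l.p l.q) (fun π => Mp b j k μ π * Gm b j k ν π.p π.q)
    (fun l π => gp l π * Mp b j k μ π * Mp b j k ν l) persp (fun π x => Rp b j k μ π x.rep) Ex
    (Z := ∫ z, Hm ν z ∂μ) hs0 hs1 hδ hL
    (fun x => ⟨aL_nonneg μ ν x, aL_le h.gl.mom h.gr.mom x⟩)
    (fun l hl => mul_pos (Mp_pos b hjk h.gr (hI l hl)) (Gm_pos b hjk h.gl (indep_PdG7 l)))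
    (fun π hπ => mul_pos (Mp_pos b hjk h.gl (hJ π hπ)) (Gm_pos b hjk h.gr (indep_PdG7 π)))
    (fun l π => mul_nonneg (mul_nonneg (abs_nonneg _) (Mp_nonneg b j k μ π)) (Mp_nonneg b j k ν l))
    (fun π hπ => ?_) (fun l hl π hπ hτ => ?_) hEx (fun π hπ v hv S hS => ?_)
    (fun l hl π hπ x hx => ?_) (fun l hl x hx => ?_)⟩
  · have h1 := sum_Mp_le b hjk h.gr.mom I₀ hIi π.p π.q
    refine le_trans (le_of_eq ?_) (mul_le_mul_of_nonneg_left h1 (Mp_nonneg b j k μ π))
    rw [Finset.mul_sum]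
    refine Finset.sum_congr rfl fun l _ => ?_
    rw [gp_comm l π, gp]
    ring
  · exact persp_bij fun e => hτ (by rw [e]; ring)
  · refine sum_Rp_le b hjk h π v S fun x hx => ?_
    obtain ⟨l, hl, hτ, rfl⟩ := hS x hx
    have hg0 : ⟪l.p, π.p⟫ * ⟪l.q, π.q⟫ - ⟪l.p, π.q⟫ * ⟪l.q, π.p⟫ ≠ 0 := fun e =>
      hτ (by rw [gp, e]; simp)
    have hJJ := Pl.J_J l π hv
    have hne : π.J (l.J v.rep) ≠ 0 := by
      rw [hJJ]
      exact smul_ne_zero (neg_ne_zero.2 hg0) v.rep_nonzero
    have hl0 : l.J v.rep ≠ 0 := fun e => hne (by rw [e]; simp [Pl.J])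
    obtain ⟨t, ht0, hte⟩ := persp_rep_PdG7 l v hl0
    rw [hte, Pl.J_smul]
    refine ⟨smul_ne_zero ht0 hne, Submodule.smul_mem _ _ ?_⟩
    rw [hJJ, Projectivization.submodule_eq]
    exact Submodule.smul_mem _ _ (Submodule.mem_span_singleton_self _)
  · rw [ht l hl π]
    exact tp_le_Rp b hjk h.gl l π hx x.rep_nonzero
  · simp only [ht l hl]
    exact hg l x.rep hx x.rep_nonzero

theorem Pair.not_atomic {μ ν : Measure V} (h : Pair μ ν) (hs : ¬ Splits μ)
    (hn : 3 ≤ finrank ℝ V) : ¬ Atomic μ := by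
  intro ha
  have ha' := h.atomic (by omega) ha
  have hs' : ¬ Splits ν := fun s => hs (h.symm.splits s)
  have hcl := h.cl_atoms ha ha'
  obtain ⟨l, c, hl2, hlsp, hc0, hc1, hgrow⟩ := growth h hcl (not_splitsS hs ha.null) hn
  set A := -Real.log c with hA
  have hA0 : 0 ≤ A := by
    have := Real.log_nonpos hc0.le hc1
    linarith
  set s := 1 / (4 * (A + 1)) with hsd
  have hs0 : 0 < s := by positivity
  have hs1 : s ≤ 1 := by
    rw [hsd, div_le_one (by positivity)]
    linarith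
  have hcs : 3 / 4 ≤ c ^ s := by
    rw [Real.rpow_def_of_pos hc0]
    have h1 : Real.log c * s = -(A * s) := by rw [hA]; ring
    have h2 : A * s ≤ 1 / 4 := by
      rw [hsd, mul_one_div, div_le_div_iff₀ (by positivity) (by norm_num)]
      linarith
    have := Real.add_one_le_exp (Real.log c * s)
    linarith
  let b := Module.finBasis ℝ V
  let j : Fin (finrank ℝ V) := ⟨0, by omega⟩
  let k : Fin (finrank ℝ V) := ⟨1, by omega⟩
  have hjk : j ≠ k := by simp [j, k]
  have hcard : 3 ≤ Fintype.card (Fin (finrank ℝ V)) := by simpa using hn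
  obtain ⟨l₀, hl₀⟩ := exists_Pl hl2
  obtain ⟨W, hW, hWc⟩ := exists_compl_sp hcl.tl l
  have hW2 : finrank ℝ (Wᗮ : Submodule ℝ V) = 2 := by
    have h1 := Submodule.finrank_add_finrank_orthogonal W
    have h2 := Submodule.finrank_add_eq_of_isCompl hWc
    omega
  obtain ⟨π₀, hπ₀⟩ := exists_Pl hW2
  obtain ⟨I₀, δ', hδ', hIi, hI, ⟨l₁, hl₁, hl₁e⟩, hgI⟩ := exists_gainP b hjk h.gr ha'
    (h.symm.csupp_eq hs' hn) hcard (half_pos hs0) l₀ (by rw [hl₀]; exact hcl.orth hlsp)
  obtain ⟨J₀, δ, hδ, hJi, hJ, -, hgJ⟩ := exists_gainP b hjk h.gl ha (h.csupp_eq hs hn) hcard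
    (half_pos hs0) π₀ (by rw [hπ₀, Submodule.orthogonal_orthogonal]; exact hW)
  obtain ⟨C, hC⟩ := FF_half b hjk h hI hJ hIi hs0 hs1 hδ.le hgJ
  obtain ⟨C', hC'⟩ := FF_half b hjk h.symm hJ hI hJi hs0 hs1 hδ'.le hgI
  obtain ⟨B, hB⟩ := core_end {x : ℙ ℝ V | x.rep ∈ l₁.sp} (aL μ ν) (aL_nonneg μ ν)
    (mul_pos (Mp_pos b hjk h.gr (hI l₁ hl₁)) (Gm_pos b hjk h.gl (indep_PdG7 l₁))) hs0 hs1 hδ
    hδ'.le (FF b j k μ ν I₀ s) (FF b j k ν μ J₀ s) (fun L hL => FF_ne_top b hjk h hI s hL) hC hC'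
    (fun L hL => Finset.single_le_sum (f := fun l : Pl V =>
      ENNReal.ofReal (Mp b j k ν l * Gm b j k μ l.p l.q) *
        ∑' x : {x : ℙ ℝ V | x.rep ∈ l.sp},
          ENNReal.ofReal (Psi L s (aL μ ν x / (Mp b j k ν l * Gm b j k μ l.p l.q))))
      (fun _ _ => zero_le) hl₁)
  obtain ⟨r, hr⟩ := pow_unbounded_of_one_lt (B / (3 / 4)) (by norm_num : (1 : ℝ) < 3 / 2)
  obtain ⟨S, hSc, hS⟩ := hgrow r
  have h1 := hB S fun x hx => by
    have := (hS x hx).1
    rwa [← hl₀, ← hl₁e] at this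
  have h2 : ∀ x ∈ S, (3 / 4 : ℝ) ^ (r + 1) ≤ aL μ ν x ^ s := fun x hx => by
    refine le_trans ?_ (Real.rpow_le_rpow (by positivity) (hS x hx).2 hs0.le)
    rw [← Real.rpow_natCast c, ← Real.rpow_mul hc0.le, mul_comm, Real.rpow_mul hc0.le,
      Real.rpow_natCast]
    exact pow_le_pow_left₀ (by norm_num) hcs _
  have h3 := Finset.card_nsmul_le_sum S _ _ h2
  rw [hSc, nsmul_eq_mul] at h3
  have h4 : ((2 ^ r : ℕ) : ℝ) * (3 / 4 : ℝ) ^ (r + 1) = (3 / 2) ^ r * (3 / 4) := by
    push_cast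
    rw [pow_succ, ← mul_assoc, ← mul_pow]
    norm_num
  rw [div_lt_iff₀ (by norm_num)] at hr
  linarith

end Pool.Agent.P.MP_181257_gt
end
end

-- part Pool.Agent.P.MP_181257_gt.PdF2
section

set_option autoImplicit false
set_option linter.unusedSectionVars false
set_option linter.unusedVariables false

open MeasureTheory ProbabilityTheory Module Set Filter Topology Function
open scoped RealInnerProductSpace ENNReal Pointwise LinearAlgebra.Projectivization

noncomputable section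

namespace Pool.Agent.P.MP_181257_gt

variable {V : Type} [NormedAddCommGroup V] [InnerProductSpace ℝ V] [FiniteDimensional ℝ V]
  [MeasurableSpace V] [BorelSpace V] {ι : Type} [Fintype ι] [DecidableEq ι]

theorem arrow_mem (b : Basis ι ℝ V) {x : ι → V} (hx : b.det x ≠ 0) {j k : ι} (hjk : j ≠ k)
    {G : Submodule ℝ V} (hj : Nv b j x ∈ G) {y : V} (hy : Nv b j (update x k y) ∈ G)
    (hyj : ⟪y, Nv b j x⟫ ≠ 0) : Nv b k x ∈ G := by
  set z := Nv b j (update x k y) with hz
  have h1 : ∀ i, i ≠ j → i ≠ k → ⟪x i, z⟫ = 0 := by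
    intro i hi hk
    have h2 := inner_Nv_self b (update x k y) i j
    rw [update_of_ne hk, if_neg hi] at h2
    exact h2
  have h2 : ⟪x k, z⟫ = -⟪y, Nv b j x⟫ := by
    rw [hz, inner_Nv, inner_Nv, ← b.det.map_swap (update x j y) hjk]
    congr 1
    funext i
    by_cases hi : i = j
    · subst hi
      simp [update_of_ne hjk.symm]
    · by_cases hk : i = k
      · subst hk
        simp [update_of_ne hi]
      · simp [update_of_ne hi, update_of_ne hk, Equiv.swap_apply_of_ne_of_ne hi hk]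
  have h3 : b.det x • z = ⟪x j, z⟫ • Nv b j x + ⟪x k, z⟫ • Nv b k x := by
    rw [cramer_dual b x z]
    refine Finset.sum_eq_add_of_mem j k (Finset.mem_univ _) (Finset.mem_univ _) hjk ?_
    intro i _ hi
    rw [h1 i hi.1 hi.2, zero_smul]
  have h4 : ⟪x k, z⟫ • Nv b k x ∈ G := by
    rw [← sub_eq_iff_eq_add'] at h3
    rw [← h3]
    exact G.sub_mem (G.smul_mem _ hy) (G.smul_mem _ hj)
  have h5 : ⟪x k, z⟫ ≠ 0 := by
    rw [h2]
    exact neg_ne_zero.2 hyj
  exact (G.smul_mem_iff h5).1 h4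

theorem flat_count (b : Basis ι ℝ V) {x : ι → V} (hx : b.det x ≠ 0) {E G : ι → Submodule ℝ V}
    (hE : ∀ k, x k ∈ E k) (hG : ∀ j, Nv b j x ∈ G j)
    (h : ∀ j k, j ≠ k → ∀ y ∈ E k, Nv b j (update x k y) ∈ G j) :
    ∑ k, finrank ℝ (E k) ≤ ∑ j, finrank ℝ (G j) ∧
      (∑ j, finrank ℝ (G j) ≤ ∑ k, finrank ℝ (E k) →
        ∀ k, E k ≤ Submodule.span ℝ (x '' {j | x j ∈ E k})) := by
  classical
  let A : ι → ι → Prop := fun k j => ∃ y ∈ E k, ⟪y, Nv b j x⟫ ≠ 0
  have h1 : ∀ j, (Finset.univ.filter fun k => A k j).card ≤ finrank ℝ (G j) := by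
    intro j
    have h2 : ∀ k : {k // k ∈ Finset.univ.filter fun k => A k j}, Nv b k.1 x ∈ G j := by
      rintro ⟨k, hk⟩
      obtain ⟨y, hy, hy'⟩ := (Finset.mem_filter.1 hk).2
      by_cases hjk : j = k
      · subst hjk
        exact hG j
      · exact arrow_mem b hx hjk (hG j) (h j k hjk y hy) hy'
    have h3 : LinearIndependent ℝ
        fun k : {k // k ∈ Finset.univ.filter fun k => A k j} => (⟨Nv b k.1 x, h2 k⟩ : G j) :=
      LinearIndependent.of_comp (G j).subtype
        ((linearIndependent_Nv b hx).comp Subtype.val Subtype.val_injective)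
    have h4 := h3.fintype_card_le_finrank
    rwa [Fintype.card_coe] at h4
  have h2 : ∀ k, E k ≤
      Submodule.span ℝ (((Finset.univ.filter fun j => A k j).image x : Finset V) : Set V) := by
    intro k y hy
    rw [← Submodule.smul_mem_iff _ hx, cramer_vec b x y]
    refine Submodule.sum_mem _ fun j _ => ?_
    by_cases hj : ⟪y, Nv b j x⟫ = 0
    · rw [← inner_Nv, hj, zero_smul]
      exact Submodule.zero_mem _
    · refine Submodule.smul_mem _ _ (Submodule.subset_span ?_)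
      exact Finset.mem_coe.2
        (Finset.mem_image_of_mem x (Finset.mem_filter.2 ⟨Finset.mem_univ _, y, hy, hj⟩))
  have h3 : ∀ k, finrank ℝ (Submodule.span ℝ
      (((Finset.univ.filter fun j => A k j).image x : Finset V) : Set V)) ≤
      (Finset.univ.filter fun j => A k j).card :=
    fun k => (finrank_span_finset_le_card _).trans Finset.card_image_le
  have h4 : ∀ k, finrank ℝ (E k) ≤ (Finset.univ.filter fun j => A k j).card :=
    fun k => (Submodule.finrank_mono (h2 k)).trans (h3 k)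
  have h5 : ∑ k, (Finset.univ.filter fun j => A k j).card =
      ∑ j, (Finset.univ.filter fun k => A k j).card := by
    simp only [Finset.card_filter]
    exact Finset.sum_comm
  have h6 : ∑ k, finrank ℝ (E k) ≤ ∑ k, (Finset.univ.filter fun j => A k j).card :=
    Finset.sum_le_sum fun k _ => h4 k
  have h7 : ∑ j, (Finset.univ.filter fun k => A k j).card ≤ ∑ j, finrank ℝ (G j) :=
    Finset.sum_le_sum fun j _ => h1 j
  refine ⟨by omega, fun h8 k => ?_⟩
  have h9 : ∑ k, finrank ℝ (E k) = ∑ k, (Finset.univ.filter fun j => A k j).card := by omega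
  have h10 := (Finset.sum_eq_sum_iff_of_le fun k _ => h4 k).1 h9 k (Finset.mem_univ _)
  have h11 := Submodule.eq_of_le_of_finrank_le (h2 k) ((h3 k).trans h10.ge)
  refine (h2 k).trans (Submodule.span_mono fun v hv => ?_)
  have h12 : v ∈ E k := by
    rw [h11]
    exact Submodule.subset_span hv
  obtain ⟨j, -, rfl⟩ := Finset.mem_image.1 (Finset.mem_coe.1 hv)
  exact ⟨j, h12, rfl⟩

theorem flat_big (b : Basis ι ℝ V) {x : ι → V} (hx : b.det x ≠ 0) {i j : ι} (hij : i ≠ j)
    {G : Submodule ℝ V} (hG : Nv b j x ∈ G)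
    (h : ∀ k, k ≠ i → j ≠ k → ∀ y, Nv b j (update x k y) ∈ G) : (ℝ ∙ x i)ᗮ ≤ G := by
  intro w hw
  rw [Submodule.mem_orthogonal_singleton_iff_inner_right] at hw
  rw [← Submodule.smul_mem_iff _ hx, cramer_dual b x w]
  refine Submodule.sum_mem _ fun k _ => ?_
  by_cases hk : k = i
  · rw [hk, hw, zero_smul]
    exact G.zero_mem
  · refine G.smul_mem _ ?_
    by_cases hjk : j = k
    · rw [← hjk]
      exact hG
    · refine arrow_mem b hx hjk hG (h k hk hjk (x j)) ?_
      rw [inner_Nv_self, if_pos rfl]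
      exact hx

end Pool.Agent.P.MP_181257_gt
end
end

-- part Pool.Agent.P.MP_181257_gt.PdF1
section

set_option autoImplicit false
set_option linter.unusedSectionVars false
set_option linter.unusedVariables false

open MeasureTheory ProbabilityTheory Module Set Filter Topology Function
open scoped RealInnerProductSpace ENNReal Pointwise LinearAlgebra.Projectivization

noncomputable section

namespace Pool.Agent.P.MP_181257_gt

variable {V : Type} [NormedAddCommGroup V] [InnerProductSpace ℝ V] [FiniteDimensional ℝ V]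
  [MeasurableSpace V] [BorelSpace V] {ι : Type} [Fintype ι] [DecidableEq ι]

theorem meas_sub_PdF1 (F : Submodule ℝ V) : MeasurableSet (F : Set V) :=
  F.closed_of_finiteDimensional.measurableSet

theorem meas_cov_PdF1 {C : Set (Submodule ℝ V)} (hC : C.Countable) (p : Submodule ℝ V → Prop) :
    MeasurableSet {x : V | ∃ G ∈ C, p G ∧ x ∈ G} := by
  have : {x : V | ∃ G ∈ C, p G ∧ x ∈ G} = ⋃ G ∈ {G ∈ C | p G}, (G : Set V) := by
    ext x
    simp only [mem_ofPred_eq, mem_iUnion, SetLike.mem_coe, exists_prop, and_assoc]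
  rw [this]
  exact MeasurableSet.biUnion (hC.mono fun G hG => hG.1) fun G _ => meas_sub_PdF1 G

theorem step_PdF1 (μ : Measure V) [IsFiniteMeasure μ] (d : ℕ) :
    ∃ C : Set (Submodule ℝ V), C.Countable ∧ ∀ F : Submodule ℝ V, finrank ℝ F < d →
      μ {x | x ∈ F ∧ ¬ ∃ G ∈ C, G ≤ F ∧ x ∈ G} = 0 := by
  induction d with
  | zero => exact ⟨∅, countable_empty, fun F h => absurd h (Nat.not_lt_zero _)⟩
  | succ d ih =>
    obtain ⟨C, hC, h⟩ := ih
    have hc := Measure.countable_meas_pos_of_disjoint_iUnion₀ (μ := μ)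
      (As := fun F : {F : Submodule ℝ V // finrank ℝ F = d} =>
        {x | x ∈ F.1 ∧ ¬ ∃ G ∈ C, G ≤ F.1 ∧ x ∈ G})
      (fun F => ((meas_sub_PdF1 F.1).inter
        (meas_cov_PdF1 hC fun G => G ≤ F.1).compl).nullMeasurableSet) (by
        intro F F' hne
        have hlt : finrank ℝ (F.1 ⊓ F'.1 : Submodule ℝ V) < d := by
          refine (Submodule.finrank_lt_finrank_of_lt
            (lt_of_le_of_ne inf_le_left fun he => hne ?_)).trans_eq F.2
          exact Subtype.ext (Submodule.eq_of_le_of_finrank_eq (inf_eq_left.1 he)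
            (F.2.trans F'.2.symm))
        refine measure_mono_null ?_ (h _ hlt)
        rintro x ⟨⟨h1, h2⟩, h3, -⟩
        exact ⟨⟨h1, h3⟩, fun ⟨G, k1, k2, k3⟩ => h2 ⟨G, k1, k2.trans inf_le_left, k3⟩⟩)
    refine ⟨_, hC.union (hc.image Subtype.val), fun F hF => ?_⟩
    have hsub : μ {x | x ∈ F ∧ ¬ ∃ G ∈ C, G ≤ F ∧ x ∈ G} = 0 → ∀ C' : Set (Submodule ℝ V),
        μ {x | x ∈ F ∧ ¬ ∃ G ∈ C ∪ C', G ≤ F ∧ x ∈ G} = 0 := fun h0 C' =>
      measure_mono_null (by
        rintro x ⟨k0, k3⟩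
        exact ⟨k0, fun ⟨G, k1, k2⟩ => k3 ⟨G, Or.inl k1, k2⟩⟩) h0
    rcases (Nat.lt_succ_iff.1 hF).lt_or_eq with h1 | h1
    · exact hsub (h F h1) _
    · by_cases h0 : μ {x | x ∈ F ∧ ¬ ∃ G ∈ C, G ≤ F ∧ x ∈ G} = 0
      · exact hsub h0 _
      · refine measure_mono_null (fun x hx => ?_) (measure_empty (μ := μ))
        exact hx.2 ⟨F, Or.inr ⟨⟨F, h1⟩, pos_iff_ne_zero.2 h0, rfl⟩, le_rfl, hx.1⟩

theorem least_PdF1 {C : Set (Submodule ℝ V)} (ht : ⊤ ∈ C)
    (hi : ∀ F ∈ C, ∀ G ∈ C, F ⊓ G ∈ C) (x : V) : sInf {G | G ∈ C ∧ x ∈ G} ∈ C := by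
  obtain ⟨m, hm, hmin⟩ := (wellFounded_lt (α := Submodule ℝ V)).has_min {G | G ∈ C ∧ x ∈ G}
    ⟨⊤, ht, Submodule.mem_top⟩
  have : sInf {G | G ∈ C ∧ x ∈ G} = m := by
    refine le_antisymm (sInf_le hm) (le_sInf fun G hG => ?_)
    by_contra hn
    exact hmin (m ⊓ G) ⟨hi m hm.1 G hG.1, hm.2, hG.2⟩
      (lt_of_le_of_ne inf_le_left fun he => hn (inf_eq_left.1 he))
  rw [this]
  exact hm.1

theorem exists_flat (μ : Measure V) [IsFiniteMeasure μ] : ∃ e : V → Submodule ℝ V, Flat μ e := by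
  obtain ⟨C0, hC0, h0⟩ := step_PdF1 μ (finrank ℝ V + 1)
  obtain ⟨C, hC, hsub, ht, hi⟩ : ∃ C : Set (Submodule ℝ V), C.Countable ∧ C0 ⊆ C ∧ ⊤ ∈ C ∧
      ∀ F ∈ C, ∀ G ∈ C, F ⊓ G ∈ C := by
    refine ⟨sInf '' {t | t.Finite ∧ t ⊆ C0}, (countable_ofPred_finite_subset hC0).image _,
      fun G hG => ⟨{G}, ⟨finite_singleton G, singleton_subset_iff.2 hG⟩, sInf_singleton⟩,
      ⟨∅, ⟨finite_empty, empty_subset _⟩, sInf_empty⟩, ?_⟩
    rintro _ ⟨s, hs, rfl⟩ _ ⟨t, ht, rfl⟩
    exact ⟨s ∪ t, ⟨hs.1.union ht.1, union_subset hs.2 ht.2⟩, sInf_union⟩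
  have hm : ∀ x : V, x ∈ sInf {G | G ∈ C ∧ x ∈ G} := fun x =>
    Submodule.mem_sInf.2 fun G hG => hG.2
  have hle : ∀ (x : V) G, G ∈ C → x ∈ G → sInf {G | G ∈ C ∧ x ∈ G} ≤ G := fun x G k1 k2 =>
    sInf_le ⟨k1, k2⟩
  refine ⟨fun x => sInf {G | G ∈ C ∧ x ∈ G}, hC.mono ?_, fun E => ?_, hm, fun t x ht0 => ?_,
    fun F => ?_⟩
  · rintro _ ⟨x, rfl⟩
    exact least_PdF1 ht hi x
  · have : {x : V | sInf {G | G ∈ C ∧ x ∈ G} = E} =
        {x : V | ∃ G ∈ C, G ≤ E ∧ x ∈ G} ∩ {x : V | ∃ G ∈ C, (¬ E ≤ G) ∧ x ∈ G}ᶜ := by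
      ext x
      constructor
      · intro hx
        have hx' : sInf {G | G ∈ C ∧ x ∈ G} = E := hx
        refine ⟨⟨_, least_PdF1 ht hi x, hx'.le, hm x⟩, fun ⟨G, k1, k2, k3⟩ => k2 ?_⟩
        exact hx'.ge.trans (hle x G k1 k3)
      · rintro ⟨⟨G, k1, k2, k3⟩, h2⟩
        refine le_antisymm ((hle x G k1 k3).trans k2) (le_sInf fun G' hG' => ?_)
        by_contra hn
        exact h2 ⟨G', hG'.1, hn, hG'.2⟩
    rw [this]
    exact (meas_cov_PdF1 hC _).inter (meas_cov_PdF1 hC _).compl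
  · simp only [Submodule.smul_mem_iff _ ht0]
  · refine measure_mono_null ?_ (h0 F (Nat.lt_succ_of_le F.finrank_le))
    rintro x ⟨h1, h2⟩
    exact ⟨h1, fun ⟨G, k1, k2, k3⟩ => h2 ((hle x G (hsub k1) k3).trans k2)⟩

end Pool.Agent.P.MP_181257_gt
end
end

-- part Pool.Agent.P.MP_181257_gt.PdF3
section

set_option autoImplicit false
set_option linter.unusedSectionVars false
set_option linter.unusedVariables false

open MeasureTheory ProbabilityTheory Module Set Filter Topology Function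
open scoped RealInnerProductSpace ENNReal Pointwise LinearAlgebra.Projectivization

noncomputable section

namespace Pool.Agent.P.MP_181257_gt

variable {V : Type} [NormedAddCommGroup V] [InnerProductSpace ℝ V] [FiniteDimensional ℝ V]
  [MeasurableSpace V] [BorelSpace V] {ι : Type} [Fintype ι] [DecidableEq ι]

theorem null_PdF3 (b : Basis ι ℝ V) {μ : Measure V} [IsProbabilityMeasure μ]
    {e : V → Submodule ℝ V} (he : Flat μ e) {j k : ι} (hjk : j ≠ k) (E G : Submodule ℝ V) :
    pw μ ι {x | e (x k) = E ∧ Nv b j x ∈ G ∧ ∃ y ∈ E, Nv b j (update x k y) ∉ G} = 0 := by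
  have hG : IsClosed (G : Set V) := G.closed_of_finiteDimensional
  refine null_of_update k ?_ fun x => ?_
  · refine ((he.meas E).preimage (measurable_pi_apply k)).inter
      ((hG.preimage (continuous_Nv b j)).measurableSet.inter (IsOpen.measurableSet ?_))
    have : {x : ι → V | ∃ y ∈ E, Nv b j (update x k y) ∉ G} =
        ⋃ y ∈ E, (fun x : ι → V => Nv b j (update x k y)) ⁻¹' (G : Set V)ᶜ := by
      ext x; simp
    change IsOpen {x : ι → V | ∃ y ∈ E, Nv b j (update x k y) ∉ G}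
    rw [this]
    exact isOpen_biUnion fun y _ => hG.isOpen_compl.preimage
      ((continuous_Nv b j).comp (continuous_id.update k continuous_const))
  · obtain ⟨T, hT⟩ := exists_linear_Nv b hjk x
    refine measure_mono_null ?_ (he.gen (G.comap T))
    rintro y ⟨h1, h2, z, hz, h3⟩
    rw [update_self] at h1
    rw [update_idem] at h3
    exact ⟨by rwa [Submodule.mem_comap, hT], fun h => h3 (hT z ▸ h (h1 ▸ hz))⟩

theorem ae_generic (b : Basis ι ℝ V) {μ ν : Measure V} [IsProbabilityMeasure μ]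
    {e e' : V → Submodule ℝ V} (he : Flat μ e) (he' : Flat ν e') :
    ∀ᵐ x ∂(pw μ ι), ∀ j k, j ≠ k → ∀ y ∈ e (x k), Nv b j (update x k y) ∈ e' (Nv b j x) := by
  refine ae_all_iff.mpr fun j => ae_all_iff.mpr fun k => ?_
  by_cases hjk : j = k
  · exact ae_of_all _ fun x h => absurd hjk h
  have key : ∀ᵐ x ∂(pw μ ι), ∀ E ∈ range e, ∀ G ∈ range e',
      ¬ (e (x k) = E ∧ Nv b j x ∈ G ∧ ∃ y ∈ E, Nv b j (update x k y) ∉ G) :=
    (ae_ball_iff he.count).mpr fun E _ => (ae_ball_iff he'.count).mpr fun G _ =>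
      measure_eq_zero_iff_ae_notMem.mp (null_PdF3 b he hjk E G)
  filter_upwards [key] with x hx _ y hy
  by_contra h
  exact hx _ ⟨_, rfl⟩ _ ⟨_, rfl⟩ ⟨rfl, he'.mem _, y, hy, h⟩

end Pool.Agent.P.MP_181257_gt
end
end

-- part Pool.Agent.P.MP_181257_gt.PdF3b
section

set_option autoImplicit false
set_option linter.unusedSectionVars false
set_option linter.unusedVariables false

open MeasureTheory ProbabilityTheory Module Set Filter Topology Function
open scoped RealInnerProductSpace ENNReal Pointwise LinearAlgebra.Projectivization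

noncomputable section

namespace Pool.Agent.P.MP_181257_gt

variable {V : Type} [NormedAddCommGroup V] [InnerProductSpace ℝ V] [FiniteDimensional ℝ V]
  [MeasurableSpace V] [BorelSpace V] {ι : Type} [Fintype ι] [DecidableEq ι]

theorem meas_PdF3b {μ : Measure V} {e : V → Submodule ℝ V} (he : Flat μ e) :
    Measurable fun x => ((finrank ℝ (e x) : ℕ) : ℝ≥0∞) := by
  intro S _
  have : (fun x => ((finrank ℝ (e x) : ℕ) : ℝ≥0∞)) ⁻¹' S =
      ⋃ E ∈ {E ∈ range e | ((finrank ℝ E : ℕ) : ℝ≥0∞) ∈ S}, {x | e x = E} := by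
    ext x
    simp only [mem_preimage, mem_iUnion, mem_ofPred_eq, exists_prop]
    constructor
    · intro hx
      exact ⟨e x, ⟨⟨x, rfl⟩, hx⟩, rfl⟩
    · rintro ⟨E, ⟨-, hE⟩, rfl⟩
      exact hE
  rw [this]
  exact MeasurableSet.biUnion (he.count.mono fun _ h => h.1) fun E _ => he.meas E

theorem mdet_PdF3b (b : Basis ι ℝ V) :
    Measurable fun x : ι → V => ENNReal.ofReal |b.det x| :=
  ENNReal.measurable_ofReal.comp (continuous_bdet b).abs.measurable

theorem sums_PdF3b (b : Basis ι ℝ V) {μ ν : Measure V} (hμ : Mom μ) (hν : Mom ν) (h : Half μ ν)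
    {e e' : V → Submodule ℝ V} (he : Flat μ e) (he' : Flat ν e') :
    ∃ a : ℝ, 0 < a ∧
      ENNReal.ofReal a * ∫⁻ x, (∑ k, ((finrank ℝ (e (x k)) : ℕ) : ℝ≥0∞)) *
          ENNReal.ofReal |b.det x| ∂(pw μ ι) =
        (Fintype.card ι : ℝ≥0∞) *
          ∫⁻ y, ((finrank ℝ (e y) : ℕ) : ℝ≥0∞) * ENNReal.ofReal (Hm ν y) ∂μ ∧
      ENNReal.ofReal a * ∫⁻ x, (∑ j, ((finrank ℝ (e' (Nv b j x)) : ℕ) : ℝ≥0∞)) *
          ENNReal.ofReal |b.det x| ∂(pw μ ι) =
        (Fintype.card ι : ℝ≥0∞) *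
          ∫⁻ w, ((finrank ℝ (e' w) : ℕ) : ℝ≥0∞) * ENNReal.ofReal (Hm μ w) ∂ν := by
  obtain ⟨a, ha, h1, h2⟩ := h.transfer b hμ hν
  refine ⟨a, ha, ?_, ?_⟩
  · simp only [Finset.sum_mul]
    have m : ∀ k ∈ (Finset.univ : Finset ι), Measurable fun x : ι → V =>
        ((finrank ℝ (e (x k)) : ℕ) : ℝ≥0∞) * ENNReal.ofReal |b.det x| := fun k _ =>
      ((meas_PdF3b he).comp (measurable_pi_apply k)).mul (mdet_PdF3b b)
    rw [lintegral_finsetSum _ m, Finset.mul_sum]
    rw [Finset.sum_congr rfl (g := fun _ =>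
      ∫⁻ y, ((finrank ℝ (e y) : ℕ) : ℝ≥0∞) * ENNReal.ofReal (Hm ν y) ∂μ)]
    · simp
    · intro k _
      have := marginal_pt b k hμ (meas_PdF3b he)
      rw [this, ← lintegral_const_mul' _ _ ENNReal.ofReal_ne_top]
      refine lintegral_congr fun y => ?_
      rw [h1 k y, ENNReal.ofReal_mul ha.le]
      ring
  · simp only [Finset.sum_mul]
    have m : ∀ j ∈ (Finset.univ : Finset ι), Measurable fun x : ι → V =>
        ((finrank ℝ (e' (Nv b j x)) : ℕ) : ℝ≥0∞) * ENNReal.ofReal |b.det x| := fun j _ =>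
      ((meas_PdF3b he').comp (continuous_Nv b j).measurable).mul (mdet_PdF3b b)
    rw [lintegral_finsetSum _ m, Finset.mul_sum]
    rw [Finset.sum_congr rfl (g := fun _ =>
      ∫⁻ w, ((finrank ℝ (e' w) : ℕ) : ℝ≥0∞) * ENNReal.ofReal (Hm μ w) ∂ν)]
    · simp
    · intro j _
      have := marginal_nv b j hμ (meas_PdF3b he')
      rw [this]
      refine (h2 j (fun w => ((finrank ℝ (e' w) : ℕ) : ℝ≥0∞) * ENNReal.ofReal (Hm μ w))
        ((meas_PdF3b he').mul (ENNReal.measurable_ofReal.comp (continuous_Hm hμ).measurable))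
        fun t x => ?_).symm
      rw [Hm_smul, ENNReal.ofReal_mul (abs_nonneg t)]
      by_cases ht : t = 0
      · simp [ht]
      · rw [he'.smul t x ht]
        ring

theorem le_PdF3b (b : Basis ι ℝ V) {μ ν : Measure V} [IsProbabilityMeasure μ]
    {e e' : V → Submodule ℝ V} (he : Flat μ e) (he' : Flat ν e') :
    (fun x : ι → V => (∑ k, ((finrank ℝ (e (x k)) : ℕ) : ℝ≥0∞)) * ENNReal.ofReal |b.det x|)
      ≤ᵐ[pw μ ι] fun x => (∑ j, ((finrank ℝ (e' (Nv b j x)) : ℕ) : ℝ≥0∞)) *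
        ENNReal.ofReal |b.det x| := by
  filter_upwards [ae_generic b he he'] with x hx
  by_cases h0 : b.det x = 0
  · simp [h0]
  · have := (flat_count b h0 (E := fun k => e (x k)) (G := fun j => e' (Nv b j x))
      (fun k => he.mem _) (fun j => he'.mem _) hx).1
    exact mul_le_mul_left (by exact_mod_cast this) _

theorem Pair.ae_span (b : Basis ι ℝ V) {μ ν : Measure V} (h : Pair μ ν)
    {e : V → Submodule ℝ V} (he : Flat μ e) :
    ∀ᵐ x ∂(pw μ ι), b.det x ≠ 0 →
      ∀ k, e (x k) ≤ Submodule.span ℝ (x '' {j | x j ∈ e (x k)}) := by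
  have := h.gl.mom.prob
  have := h.gr.mom.prob
  obtain ⟨e', he'⟩ := exists_flat ν
  obtain ⟨a, ha, h1, h2⟩ := sums_PdF3b b h.gl.mom h.gr.mom h.hl he he'
  obtain ⟨a', ha', h3, h4⟩ := sums_PdF3b b h.gr.mom h.gl.mom h.hr he' he
  have l1 := le_PdF3b b he he'
  have l2 := lintegral_mono_ae (le_PdF3b b he' he)
  have l3 : ∫⁻ x, (∑ j, ((finrank ℝ (e' (Nv b j x)) : ℕ) : ℝ≥0∞)) *
      ENNReal.ofReal |b.det x| ∂(pw μ ι) ≤
      ∫⁻ x, (∑ k, ((finrank ℝ (e (x k)) : ℕ) : ℝ≥0∞)) * ENNReal.ofReal |b.det x| ∂(pw μ ι) := by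
    rw [← ENNReal.mul_le_mul_iff_right (ENNReal.ofReal_pos.2 ha).ne' ENNReal.ofReal_ne_top,
      h1, h2, ← h3, ← h4]
    gcongr
  have fin : ∫⁻ x, (∑ k, ((finrank ℝ (e (x k)) : ℕ) : ℝ≥0∞)) * ENNReal.ofReal |b.det x|
      ∂(pw μ ι) ≠ ∞ := by
    have b1 : ∫⁻ x, (∑ k, ((finrank ℝ (e (x k)) : ℕ) : ℝ≥0∞)) * ENNReal.ofReal |b.det x|
        ∂(pw μ ι) ≤ ∫⁻ x, (∑ _k : ι, ((finrank ℝ V : ℕ) : ℝ≥0∞)) * ENNReal.ofReal |b.det x|
        ∂(pw μ ι) := by
      refine lintegral_mono fun x => ?_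
      simp only
      gcongr with k
      exact Submodule.finrank_le _
    refine ne_top_of_le_ne_top ?_ b1
    rw [lintegral_const_mul _ (mdet_PdF3b b)]
    refine ENNReal.mul_ne_top (ENNReal.sum_ne_top.2 fun _ _ => ENNReal.natCast_ne_top _) ?_
    exact (integrable_bdet b h.gl.mom).lintegral_lt_top.ne
  have mg : Measurable fun x : ι → V => (∑ j, ((finrank ℝ (e' (Nv b j x)) : ℕ) : ℝ≥0∞)) *
      ENNReal.ofReal |b.det x| :=
    (Finset.measurable_sum _ fun j _ =>
      (meas_PdF3b he').comp (continuous_Nv b j).measurable).mul (mdet_PdF3b b)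
  filter_upwards [ae_eq_of_ae_le_of_lintegral_le l1 fin mg.aemeasurable l3,
    ae_generic b he he'] with x hx hg h0
  refine (flat_count b h0 (E := fun k => e (x k)) (G := fun j => e' (Nv b j x))
    (fun k => he.mem _) (fun j => he'.mem _) hg).2 ?_
  have hp : ENNReal.ofReal |b.det x| ≠ 0 := (ENNReal.ofReal_pos.2 (abs_pos.2 h0)).ne'
  have := (ENNReal.mul_left_inj hp ENNReal.ofReal_ne_top).1 hx
  exact le_of_eq (by exact_mod_cast this.symm)

end Pool.Agent.P.MP_181257_gt
end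
end

-- part Pool.Agent.P.MP_181257_gt.PdF4
section

set_option autoImplicit false
set_option linter.unusedSectionVars false
set_option linter.unusedVariables false

open MeasureTheory ProbabilityTheory Module Set Filter Topology Function
open scoped RealInnerProductSpace ENNReal Pointwise LinearAlgebra.Projectivization

noncomputable section

namespace Pool.Agent.P.MP_181257_gt

variable {V : Type} [NormedAddCommGroup V] [InnerProductSpace ℝ V] [FiniteDimensional ℝ V]
  [MeasurableSpace V] [BorelSpace V] {ι : Type} [Fintype ι] [DecidableEq ι]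

theorem two_points_PdF4 {μ : Measure V} {e : V → Submodule ℝ V}
    (he : Flat μ e) {E : Submodule ℝ V} (hE : μ {x | e x = E} ≠ 0) (h2 : 2 ≤ finrank ℝ E)
    (p : V) : ∃ q ∈ csupp (μ.restrict {x | e x = E}), q ∉ (ℝ ∙ p : Submodule ℝ V) := by
  by_contra hn
  push Not at hn
  apply hE
  have h1 : ¬ E ≤ (ℝ ∙ p : Submodule ℝ V) := fun hle => by
    have h3 := Submodule.finrank_mono hle
    have h4 : finrank ℝ (ℝ ∙ p : Submodule ℝ V) ≤ 1 := by
      have := finrank_span_le_card (R := ℝ) ({p} : Set V)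
      simpa using this
    omega
  have h5 := null_compl_csupp (μ.restrict {x | e x = E})
  rw [Measure.restrict_apply' (he.meas E)] at h5
  refine measure_mono_null (fun x hx => ?_) (measure_union_null h5 (he.gen (ℝ ∙ p)))
  by_cases hc : x ∈ csupp (μ.restrict {x | e x = E})
  · refine Or.inr ⟨hn x hc, ?_⟩
    have hx' : e x = E := hx
    rw [hx']
    exact h1
  · exact Or.inl ⟨hc, hx⟩

theorem good_family_PdF4 (b : Basis ι ℝ V) {μ : Measure V} (hμ : Good μ)
    {e : V → Submodule ℝ V} (he : Flat μ e) {E : Submodule ℝ V} (hE : μ {x | e x = E} ≠ 0)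
    (h2 : 2 ≤ finrank ℝ E) {i0 i1 : ι} (hi : i1 ≠ i0) {P : (ι → V) → Prop}
    (hP : ∀ᵐ x ∂(pw μ ι), P x) :
    ∃ x : ι → V, b.det x ≠ 0 ∧ e (x i0) = E ∧ e (x i1) = E ∧ P x := by
  classical
  have := hμ.mom.prob
  obtain ⟨p, hp, hp0⟩ := two_points_PdF4 he hE h2 0
  obtain ⟨q, hq, hqp⟩ := two_points_PdF4 he hE h2 p
  have hp0' : p ≠ 0 := fun h => hp0 (by rw [h]; exact Submodule.zero_mem _)
  have hind : LinearIndepOn ℝ (fun i => if i = i0 then p else q)
      ((({i1, i0} : Finset ι)) : Set ι) := by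
    rw [Finset.coe_insert, Finset.coe_singleton]
    refine LinearIndepOn.insert (LinearIndepOn.singleton (by simpa using hp0')) ?_
    simpa [hi] using hqp
  obtain ⟨y, hy0, hy1, hy⟩ := ext_basis b (span_of_null hμ (null_compl_csupp μ)) hind
  have hpos := pos_of_csupp (μ := μ)
    (S := fun i => if i ∈ ({i1, i0} : Finset ι) then {x | e x = E} else univ) (z := y)
    (U := {x | b.det x ≠ 0}) (fun i => by
      split_ifs
      · exact he.meas E
      · exact MeasurableSet.univ) (fun i => by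
      by_cases hm : i ∈ ({i1, i0} : Finset ι)
      · rw [if_pos hm, hy0 i hm]
        split_ifs
        · exact hp
        · exact hq
      · rw [if_neg hm, Measure.restrict_univ]
        exact hy1 i hm) (isOpen_ne_fun (continuous_bdet b) continuous_const) hy
    (fun t x _ hx h0 => hx (by
      show b.det (fun i => t i • x i) = 0
      rw [AlternatingMap.map_smul_univ, h0, smul_zero]))
  obtain ⟨x, ⟨hx1, hx2⟩, hx3⟩ :=
    Measure.exists_mem_of_measure_ne_zero_of_ae hpos (ae_restrict_of_ae hP)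
  refine ⟨x, hx1, ?_, ?_, hx3⟩
  · simpa using hx2 i0 (mem_univ _)
  · simpa using hx2 i1 (mem_univ _)

theorem Pair.splits_of_flat {μ ν : Measure V} (h : Pair μ ν) {e : V → Submodule ℝ V}
    (he : Flat μ e) {E : Submodule ℝ V} (hE : μ {x | e x = E} ≠ 0) (h2 : 2 ≤ finrank ℝ E)
    (ht : E ≠ ⊤) : Splits μ := by
  classical
  have := h.gl.mom.prob
  have hn : 2 ≤ finrank ℝ V := h2.trans (Submodule.finrank_le E)
  let b := Module.finBasis ℝ V
  have hi : (⟨1, by omega⟩ : Fin (finrank ℝ V)) ≠ ⟨0, by omega⟩ := by simp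
  have hsp := h.ae_span b he
  obtain ⟨x, hx, h0, h1, hP1, hP2⟩ := good_family_PdF4 b h.gl he hE h2 hi
    (hsp.and (ae_all_iff.2 fun j => ae_ae_update j hsp))
  have hli := (bdet_ne_zero_iff b x).1 hx
  have hEJ : E = Submodule.span ℝ (x '' {j | x j ∈ E}) := by
    refine le_antisymm ?_ (Submodule.span_le.2 ?_)
    · have h3 := hP1 hx ⟨0, by omega⟩
      rwa [h0] at h3
    · rintro _ ⟨j, hj, rfl⟩
      exact hj
  have hmem : ∀ (y : V) (G : Submodule ℝ V),
      (∀ j, b.det (update x j y) = 0 ∨ x j ∈ G) → y ∈ G := fun y G hG => by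
    have h3 : b.det x • y ∈ G := by
      rw [cramer_vec]
      refine Submodule.sum_mem _ fun j _ => ?_
      rcases hG j with h4 | h4
      · rw [h4, zero_smul]
        exact G.zero_mem
      · exact G.smul_mem _ h4
    exact (G.smul_mem_iff hx).1 h3
  have hF : ∀ j, x j ∉ E → x j ∈ Submodule.span ℝ (x '' {j | x j ∈ E}ᶜ) := fun j hj =>
    Submodule.subset_span ⟨j, hj, rfl⟩
  have hc : IsCompl E (Submodule.span ℝ (x '' {j | x j ∈ E}ᶜ)) := by
    constructor
    · have h3 := hli.disjoint_span_image (disjoint_compl_right (a := {j | x j ∈ E}))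
      rwa [← hEJ] at h3
    · rw [codisjoint_iff, eq_top_iff]
      intro y _
      refine hmem y _ fun j => Or.inr ?_
      by_cases hj : x j ∈ E
      · exact Submodule.mem_sup_left hj
      · exact Submodule.mem_sup_right (hF j hj)
  refine ⟨E, _, hc, fun hb => ?_, fun hb => ?_, ?_⟩
  · rw [hb, finrank_bot] at h2
    omega
  · rw [hb] at hc
    exact ht (eq_top_of_isCompl_bot hc)
  · have h3 : ∀ᵐ y ∂μ, y ∈ (E : Set V) ∪
        (Submodule.span ℝ (x '' {j | x j ∈ E}ᶜ) : Submodule ℝ V) := by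
      filter_upwards [ae_all_iff.2 hP2] with y hy
      by_cases hyE : y ∈ E
      · exact Or.inl hyE
      refine Or.inr (hmem y _ fun j => ?_)
      by_cases hj : x j ∈ E
      · left
        by_contra hd
        obtain ⟨i, hij, hie⟩ : ∃ i, i ≠ j ∧ e (x i) = E := by
          by_cases hj0 : (⟨0, by omega⟩ : Fin (finrank ℝ V)) = j
          · exact ⟨_, hj0 ▸ hi, h1⟩
          · exact ⟨_, hj0, h0⟩
        have h4 := hy j hd i
        rw [update_of_ne hij, hie] at h4
        refine hli.notMem_span_image (s := {j}ᶜ) (x := j) (by simp) ?_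
        refine Submodule.span_mono ?_ (h4 hj)
        rintro _ ⟨k, hk, rfl⟩
        have hkj : k ≠ j := fun hkj => hyE (by simpa [hkj] using hk)
        exact ⟨k, hkj, (update_of_ne hkj _ _).symm⟩
      · exact Or.inr (hF j hj)
    exact h3

end Pool.Agent.P.MP_181257_gt
end
end

-- part Pool.Agent.P.MP_181257_gt.PdF5
section

set_option autoImplicit false
set_option linter.unusedSectionVars false
set_option linter.unusedVariables false

open MeasureTheory ProbabilityTheory Module Set Filter Topology Function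
open scoped RealInnerProductSpace ENNReal Pointwise LinearAlgebra.Projectivization

noncomputable section

namespace Pool.Agent.P.MP_181257_gt

variable {V : Type} [NormedAddCommGroup V] [InnerProductSpace ℝ V] [FiniteDimensional ℝ V]
  [MeasurableSpace V] [BorelSpace V] {ι : Type} [Fintype ι] [DecidableEq ι]

theorem mass_PdF5 {μ : Measure V} {e : V → Submodule ℝ V} (he : Flat μ e) {S : Set V}
    (hS : μ S ≠ 0) : ∃ E, μ (S ∩ {x | e x = E}) ≠ 0 := by
  by_contra hn
  push Not at hn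
  apply hS
  have h1 : S ⊆ ⋃ E ∈ range e, (S ∩ {x | e x = E}) := by
    intro x hx
    simp only [mem_iUnion]
    exact ⟨e x, ⟨x, rfl⟩, hx, rfl⟩
  exact measure_mono_null h1 ((measure_biUnion_null_iff he.count).2 fun E _ => hn E)

theorem meas_PdF5 {μ : Measure V} {e : V → Submodule ℝ V} (he : Flat μ e) (F : Submodule ℝ V) :
    MeasurableSet {x | F ≤ e x} := by
  have h1 : {x | F ≤ e x} = ⋃ E ∈ range e ∩ {E | F ≤ E}, {x | e x = E} := by
    ext x
    simp only [mem_iUnion, mem_ofPred_eq]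
    constructor
    · intro hx
      exact ⟨e x, ⟨⟨x, rfl⟩, hx⟩, rfl⟩
    · rintro ⟨E, hE, rfl⟩
      exact hE.2
  rw [h1]
  exact MeasurableSet.biUnion (he.count.mono inter_subset_left) fun E _ => he.meas E

theorem line_PdF5 {E : Submodule ℝ V} (hE : finrank ℝ E ≤ 1) : ∃ z : V, E ≤ ℝ ∙ z := by
  obtain ⟨v, hv⟩ := finrank_le_one_iff.1 hE
  refine ⟨v, fun w hw => ?_⟩
  obtain ⟨c, hc⟩ := hv ⟨w, hw⟩
  exact Submodule.mem_span_singleton.2 ⟨c, by simpa using congrArg Subtype.val hc⟩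

theorem atomic_PdF5 {μ ν : Measure V} (h : Pair μ ν) (hs : ¬ Splits μ) {e : V → Submodule ℝ V}
    (he : Flat μ e) (ht : μ {x | e x = ⊤} = 0) : Atomic μ := by
  have h1 : ∀ E : Submodule ℝ V, ∃ z : V, μ {x | e x = E} ≠ 0 → E ≤ ℝ ∙ z := by
    intro E
    by_cases h0 : μ {x | e x = E} = 0
    · exact ⟨0, fun h2 => absurd h0 h2⟩
    · have h2 : E ≠ ⊤ := by
        rintro rfl
        exact h0 ht
      have h3 : finrank ℝ E ≤ 1 := by
        by_contra h4
        exact hs (h.splits_of_flat he h0 (by omega) h2)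
      obtain ⟨z, hz⟩ := line_PdF5 h3
      exact ⟨z, fun _ => hz⟩
  choose z hz using h1
  refine ⟨z '' range e, he.count.image z, ?_⟩
  by_contra hn
  obtain ⟨E, hE⟩ := mass_PdF5 he hn
  have h2 : μ {x | e x = E} ≠ 0 := fun h3 => hE (measure_mono_null inter_subset_right h3)
  obtain ⟨x, hx1, hx2⟩ := nonempty_of_measure_ne_zero hE
  apply hx1
  simp only [mem_iUnion]
  have h4 : e x = E := hx2
  exact ⟨z E, ⟨E, ⟨x, h4⟩, rfl⟩, hz E h2 (h4 ▸ he.mem x)⟩

theorem point_PdF5 {μ : Measure V} (h0 : μ {0} = 0) {S : Set V} (hS : μ S ≠ 0) :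
    ∃ z ∈ csupp (μ.restrict S), z ≠ 0 := by
  by_contra hn
  push Not at hn
  apply hS
  have h1 := null_compl_csupp (μ.restrict S)
  have h2 : μ.restrict S {0} = 0 := le_antisymm ((Measure.restrict_le_self _).trans h0.le) bot_le
  have h3 : (univ : Set V) ⊆ (csupp (μ.restrict S))ᶜ ∪ {0} := by
    intro x _
    by_cases hx : x ∈ csupp (μ.restrict S)
    · exact Or.inr (hn x hx)
    · exact Or.inl hx
  have h4 := measure_mono_null h3 (measure_union_null h1 h2)
  rwa [Measure.restrict_apply_univ] at h4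

theorem span_PdF5 {μ : Measure V} {e : V → Submodule ℝ V} (he : Flat μ e)
    (ht : μ {x | e x = ⊤} ≠ 0) :
    Submodule.span ℝ (csupp (μ.restrict {x | e x = ⊤})) = ⊤ := by
  by_contra hn
  apply ht
  have h1 := null_compl_csupp (μ.restrict {x | e x = ⊤})
  rw [Measure.restrict_apply' (he.meas ⊤)] at h1
  refine measure_mono_null ?_ (measure_union_null h1
    (he.gen (Submodule.span ℝ (csupp (μ.restrict {x | e x = ⊤})))))
  intro x hx
  by_cases h2 : x ∈ csupp (μ.restrict {x | e x = ⊤})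
  · refine Or.inr ⟨Submodule.subset_span h2, fun h3 => hn ?_⟩
    have h4 : e x = ⊤ := hx
    rw [h4] at h3
    exact top_le_iff.1 h3
  · exact Or.inl ⟨h2, hx⟩

theorem Pair.dichotomy {μ ν : Measure V} (h : Pair μ ν) (hs : ¬ Splits μ)
    (hn : 3 ≤ finrank ℝ V) :
    (∀ u : V, u ≠ 0 → μ {x | ⟪u, x⟫ = 0} = 0) ∨ Atomic μ := by
  have := h.gl.mom.prob
  have := h.gr.mom.prob
  obtain ⟨e, he⟩ := exists_flat μ
  obtain ⟨e', he'⟩ := exists_flat ν
  by_cases ht : μ {x | e x = ⊤} = 0
  · exact Or.inr (atomic_PdF5 h hs he ht)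
  refine Or.inl fun u hu => ?_
  by_contra hm
  have hF : μ {x | x ≠ 0 ∧ e x ≤ (ℝ ∙ u)ᗮ} ≠ 0 := by
    intro h0
    apply hm
    refine measure_mono_null ?_ (measure_union_null h0
      (measure_union_null h.gl.zero (he.gen (ℝ ∙ u)ᗮ)))
    intro x hx
    by_cases h1 : x = 0
    · exact Or.inr (Or.inl h1)
    · by_cases h2 : e x ≤ (ℝ ∙ u)ᗮ
      · exact Or.inl ⟨h1, h2⟩
      · exact Or.inr (Or.inr ⟨Submodule.mem_orthogonal_singleton_iff_inner_right.2 hx, h2⟩)
  obtain ⟨E, hE⟩ := mass_PdF5 he hF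
  have hE0 : μ {x | e x = E} ≠ 0 := fun h3 => hE (measure_mono_null inter_subset_right h3)
  obtain ⟨x0, ⟨hx0, hx1⟩, hx2⟩ := nonempty_of_measure_ne_zero hE
  have hx3 : e x0 = E := hx2
  have hx4 : x0 ∈ E := hx3 ▸ he.mem x0
  have hEt : E ≠ ⊤ := by
    intro h1
    rw [hx3, h1] at hx1
    have h2 : u ∈ (ℝ ∙ u)ᗮ := hx1 Submodule.mem_top
    rw [Submodule.mem_orthogonal_singleton_iff_inner_right] at h2
    exact hu (inner_self_eq_zero.1 h2)
  have hE1 : finrank ℝ E ≤ 1 := by
    by_contra h4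
    exact hs (h.splits_of_flat he hE0 (by omega) hEt)
  have hline : ∀ y ∈ E, y ≠ 0 → (ℝ ∙ y) = E := by
    intro y hy hy0
    apply Submodule.eq_of_le_of_finrank_le ((Submodule.span_singleton_le_iff_mem _ _).2 hy)
    rw [finrank_span_singleton hy0]
    exact hE1
  let b := Module.finBasis ℝ V
  let i : Fin (finrank ℝ V) := ⟨0, by omega⟩
  let j : Fin (finrank ℝ V) := ⟨1, by omega⟩
  have hij : i ≠ j := by
    intro h1
    have := congrArg Fin.val h1
    simp [i, j] at this
  obtain ⟨z0, hz0, hz1⟩ := point_PdF5 h.gl.zero hE0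
  obtain ⟨z, hz2, hz3, hz4⟩ := ext_basis b (span_PdF5 he ht) (J₀ := {i}) (x := fun _ => z0)
    (by
      rw [Finset.coe_singleton]
      exact LinearIndepOn.singleton hz1)
  let S : Fin (finrank ℝ V) → Set V := fun k => if k = i then {x | e x = E} else {x | e x = ⊤}
  have hpos := pos_of_csupp (μ := μ) (S := S) (z := z) (U := {x | b.det x ≠ 0})
    (fun k => by
      simp only [S]
      split_ifs
      · exact he.meas _
      · exact he.meas _)
    (fun k => by
      simp only [S]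
      split_ifs with hk
      · rw [hz2 k (Finset.mem_singleton.2 hk)]
        exact hz0
      · exact hz3 k fun h1 => hk (Finset.mem_singleton.1 h1))
    (isOpen_ne_fun (continuous_bdet b) continuous_const) hz4
    (fun t x _ hx h0 => hx (by
      have h1 := b.det.map_smul_univ t x
      rw [h1, h0, smul_zero]))
  have hT : ν {w | w ∈ Eᗮ ∧ Eᗮ ≤ e' w} ≠ 0 := by
    intro h0
    have hmeas : MeasurableSet {w | w ∈ Eᗮ ∧ Eᗮ ≤ e' w} :=
      (Submodule.closed_of_finiteDimensional Eᗮ).measurableSet.inter (meas_PdF5 he' Eᗮ)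
    have h1 := (h.hl.null_iff b j h.gl.mom h.gr hmeas (fun t x ht => by
      simp only [mem_ofPred_eq, he'.smul t x ht, Submodule.smul_mem_iff _ ht])).1 h0
    apply hpos
    have h2 := ae_generic b he he'
    rw [ae_iff] at h2
    refine measure_mono_null ?_ (measure_union_null h1 h2)
    rintro x ⟨hx, hxS⟩
    by_contra hn'
    simp only [mem_union, mem_ofPred_eq, not_or, not_not] at hn'
    obtain ⟨h3, h4⟩ := hn'
    have hd : b.det x ≠ 0 := hx
    have h5 : e (x i) = E := by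
      have := hxS i (mem_univ _)
      simpa [S] using this
    have h6 : ∀ k, k ≠ i → e (x k) = ⊤ := by
      intro k hk
      have := hxS k (mem_univ _)
      simpa [S, hk] using this
    have h7 : x i ≠ 0 := ((bdet_ne_zero_iff b x).1 hd).ne_zero i
    have h8 : (ℝ ∙ x i) = E := hline _ (h5 ▸ he.mem (x i)) h7
    apply h3
    refine ⟨⟨?_, ?_⟩, ?_⟩
    · rw [← h8, Submodule.mem_orthogonal_singleton_iff_inner_right, inner_Nv_self, if_neg hij]
    · rw [← h8]
      exact flat_big b hd hij (he'.mem _) fun k hk hjk y =>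
        h4 j k hjk y (by rw [h6 k hk]; exact Submodule.mem_top)
    · intro h9
      have h10 := inner_Nv_self b x j j
      rw [h9, inner_zero_right, if_pos rfl] at h10
      exact hd h10.symm
  have hT2 : ν {w | e' w = Eᗮ} ≠ 0 := by
    intro h0
    apply hT
    refine measure_mono_null ?_ (measure_union_null h0 (he'.gen Eᗮ))
    rintro w ⟨h1, h2⟩
    by_cases h3 : e' w ≤ Eᗮ
    · exact Or.inl (le_antisymm h3 h2)
    · exact Or.inr ⟨h1, h3⟩
  have hdim := Submodule.finrank_add_finrank_orthogonal E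
  refine hs (h.symm.splits (h.symm.splits_of_flat he' hT2 (by omega) fun h1 => ?_))
  rw [Submodule.orthogonal_eq_top_iff] at h1
  rw [h1] at hx4
  exact hx0 ((Submodule.mem_bot ℝ).1 hx4)

end Pool.Agent.P.MP_181257_gt
end
end

-- part Pool.Agent.P.MP_181257_gt.PdD2
section

set_option autoImplicit false
set_option linter.unusedSectionVars false
set_option linter.unusedVariables false

open MeasureTheory ProbabilityTheory Module Set Filter Topology Function
open scoped RealInnerProductSpace ENNReal Pointwise LinearAlgebra.Projectivization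

noncomputable section

namespace Pool.Agent.P.MP_181257_gt

variable {V : Type} [NormedAddCommGroup V] [InnerProductSpace ℝ V] [FiniteDimensional ℝ V]
  [MeasurableSpace V] [BorelSpace V] {ι : Type} [Fintype ι] [DecidableEq ι]

/-- a family glued from vectors of `E` on `S` and arbitrary vectors off `S` -/
def glue_PdD2 (E : Submodule ℝ V) (S : Finset ι) (y : {i // i ∈ S} → E)
    (z : {i // ¬ i ∈ S} → V) : ι → V :=
  fun i => if h : i ∈ S then (y ⟨i, h⟩ : V) else z ⟨i, h⟩

theorem glue_update_PdD2 (E : Submodule ℝ V) (S : Finset ι) (y : {i // i ∈ S} → E)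
    (z : {i // ¬ i ∈ S} → V) {j : ι} (hj : j ∈ S) (u : E) :
    update (glue_PdD2 E S y z) j (u : V) = glue_PdD2 E S (update y ⟨j, hj⟩ u) z := by
  funext i
  by_cases hi : i = j
  · subst hi
    rw [update_self]
    unfold glue_PdD2
    rw [dif_pos hj, update_self]
  · rw [update_of_ne hi]
    unfold glue_PdD2
    by_cases h : i ∈ S
    · rw [dif_pos h, dif_pos h, update_of_ne (fun e => hi (congrArg Subtype.val e))]
    · rw [dif_neg h, dif_neg h]

theorem det_glue_PdD2 (b : Basis ι ℝ V) {E : Submodule ℝ V} {S : Finset ι}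
    (c : Basis {i // i ∈ S} ℝ E) (y : {i // i ∈ S} → E) (z : {i // ¬ i ∈ S} → V) :
    b.det (glue_PdD2 E S y z) = c.det y * b.det (glue_PdD2 E S c z) := by
  let ω : E [⋀^{i // i ∈ S}]→ₗ[ℝ] ℝ :=
    { toMultilinearMap := (b.det.toMultilinearMap.domDomRestrict (fun i => i ∈ S) z).compLinearMap
        fun _ => E.subtype
      map_eq_zero_of_eq' := by
        intro v i k hv hik
        show b.det (glue_PdD2 E S v z) = 0
        refine b.det.map_eq_zero_of_eq _ (i := i.1) (j := k.1) ?_ fun e => hik (Subtype.ext e)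
        unfold glue_PdD2
        rw [dif_pos i.2, dif_pos k.2]
        exact congrArg Subtype.val hv }
  have h := congrArg (fun f : E [⋀^{i // i ∈ S}]→ₗ[ℝ] ℝ => f y) (ω.eq_smul_basis_det c)
  rw [mul_comm]
  exact h

theorem continuous_glue_PdD2 (E : Submodule ℝ V) (S : Finset ι) (y : {i // i ∈ S} → E) :
    Continuous (glue_PdD2 E S y) := by
  refine continuous_pi fun i => ?_
  unfold glue_PdD2
  by_cases h : i ∈ S
  · simp only [dif_pos h]
    exact continuous_const
  · simp only [dif_neg h]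
    exact continuous_apply _

theorem pi_smul_PdD2 {α κ : Type} [MeasurableSpace α] [Fintype κ] (ρ : Measure α)
    [IsFiniteMeasure ρ] {c : ℝ≥0∞} (hc : c ≠ ∞) :
    (Measure.pi fun _ : κ => c • ρ) = c ^ Fintype.card κ • Measure.pi fun _ : κ => ρ := by
  have : IsFiniteMeasure (c • ρ) := ρ.smul_finite hc
  refine Measure.pi_eq fun s _ => ?_
  rw [Measure.smul_apply, Measure.pi_pi, smul_eq_mul]
  simp only [Measure.smul_apply, smul_eq_mul]
  rw [Finset.prod_mul_distrib, Finset.prod_const, Finset.card_univ]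

/-- the boxes -/
def box_PdD2 (E : Submodule ℝ V) (S : Finset ι) : ι → Set V :=
  fun i => if i ∈ S then (E : Set V) else (E : Set V)ᶜ

theorem mp_glue_PdD2 (μ : Measure V) [IsProbabilityMeasure μ] {E : Submodule ℝ V} (hE : μ E ≠ 0)
    (S : Finset ι) :
    MeasurePreserving (fun p : ({i // i ∈ S} → E) × ({i // ¬ i ∈ S} → V) => glue_PdD2 E S p.1 p.2)
      ((Measure.pi fun _ : {i // i ∈ S} => μ E • res μ E).prod
        (Measure.pi fun _ : {i // ¬ i ∈ S} => μ.restrict (E : Set V)ᶜ))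
      ((pw μ ι).restrict (univ.pi (box_PdD2 E S))) := by
  have hm : MeasurableSet (E : Set V) := E.closed_of_finiteDimensional.measurableSet
  have h1 : MeasurePreserving (Subtype.val : E → V) (μ E • res μ E) (μ.restrict E) := by
    refine ⟨measurable_subtype_coe, ?_⟩
    unfold res
    rw [smul_smul, ENNReal.mul_inv_cancel hE (measure_ne_top _ _), one_smul]
    exact map_comap_subtype_coe hm μ
  have : IsFiniteMeasure (μ E • res μ E) := ⟨by
    rw [← preimage_univ (f := (Subtype.val : E → V)),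
      h1.measure_preimage MeasurableSet.univ.nullMeasurableSet]
    exact measure_lt_top _ _⟩
  have h2 := (measurePreserving_pi (fun _ : {i // i ∈ S} => μ E • res μ E)
    (fun _ : {i // i ∈ S} => μ.restrict E) fun _ => h1).prod
    (MeasurePreserving.id (Measure.pi fun _ : {i // ¬ i ∈ S} => μ.restrict (E : Set V)ᶜ))
  have h3 := (measurePreserving_piEquivPiSubtypeProd (fun i => μ.restrict (box_PdD2 E S i))
    (fun i => i ∈ S)).symm
  have e1 : (fun i : {i // i ∈ S} => μ.restrict (box_PdD2 E S i)) = fun _ => μ.restrict E := by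
    funext i
    unfold box_PdD2
    rw [if_pos i.2]
  have e2 : (fun i : {i // ¬ i ∈ S} => μ.restrict (box_PdD2 E S i)) =
      fun _ => μ.restrict (E : Set V)ᶜ := by
    funext i
    unfold box_PdD2
    rw [if_neg i.2]
  rw [e1, e2, Subsingleton.elim (Subtype.fintype fun i => i ∈ S) (Finset.Subtype.fintype S)] at h3
  rw [Measure.restrict_pi_pi]
  exact h3.comp h2

theorem term_PdD2 (b : Basis ι ℝ V) (j : ι) {μ : Measure V} (hμ : Good μ) {E F : Submodule ℝ V}
    (hEF : IsCompl E F) (hE : E ≠ ⊥) (h : μ ((E : Set V) ∪ (F : Set V))ᶜ = 0) (S : Finset ι)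
    (hj : j ∈ S) : ∃ C : ℝ≥0∞, ∀ u : E,
      ∫⁻ x in univ.pi (box_PdD2 E S), ENNReal.ofReal |b.det (update x j (u : V))| ∂(pw μ ι)
        = C * ENNReal.ofReal (Qd (res μ E) u) := by
  have := hμ.mom.prob
  have hm : MeasurableSet (E : Set V) := E.closed_of_finiteDimensional.measurableSet
  have hbox : MeasurableSet (univ.pi (box_PdD2 E S)) := MeasurableSet.univ_pi fun i => by
    unfold box_PdD2
    split_ifs
    · exact hm
    · exact hm.compl
  by_cases hc : S.card = finrank ℝ E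
  · have hG := hμ.res hEF hE h
    have := hG.mom.prob
    have hE0 := meas_ne_zero hμ hEF hE h
    let c : Basis {i // i ∈ S} ℝ E := (Module.finBasis ℝ E).reindex
      (Fintype.equivFinOfCardEq (by rw [Fintype.card_coe, hc])).symm
    obtain ⟨a, ha, hQ⟩ := Qm_eq_Qd c ⟨j, hj⟩
    refine ⟨μ E ^ Fintype.card {i // i ∈ S} * ENNReal.ofReal a *
      ∫⁻ z, ENNReal.ofReal |b.det (glue_PdD2 E S c z)|
        ∂(Measure.pi fun _ : {i // ¬ i ∈ S} => μ.restrict (E : Set V)ᶜ), fun u => ?_⟩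
    have hf : Measurable fun x : ι → V => ENNReal.ofReal |b.det (update x j (u : V))| :=
      (((continuous_bdet b).comp (continuous_id.update j continuous_const)).abs.measurable
        ).ennreal_ofReal
    have hf1 : Measurable fun y : {i // i ∈ S} → E =>
        ENNReal.ofReal |c.det (update y ⟨j, hj⟩ u)| :=
      (((continuous_bdet c).comp (continuous_id.update _ continuous_const)).abs.measurable
        ).ennreal_ofReal
    have hf2 : Measurable fun z : {i // ¬ i ∈ S} → V =>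
        ENNReal.ofReal |b.det (glue_PdD2 E S c z)| :=
      (((continuous_bdet b).comp (continuous_glue_PdD2 E S c)).abs.measurable).ennreal_ofReal
    rw [← (mp_glue_PdD2 μ hE0 S).lintegral_comp hf]
    have e : ∀ p : ({i // i ∈ S} → E) × ({i // ¬ i ∈ S} → V),
        ENNReal.ofReal |b.det (update (glue_PdD2 E S p.1 p.2) j (u : V))| =
          ENNReal.ofReal |c.det (update p.1 ⟨j, hj⟩ u)| *
            ENNReal.ofReal |b.det (glue_PdD2 E S c p.2)| := by
      intro p
      rw [glue_update_PdD2 E S _ _ hj, det_glue_PdD2 b c, abs_mul,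
        ENNReal.ofReal_mul (abs_nonneg _)]
    simp only [e]
    rw [lintegral_prod_mul hf1.aemeasurable hf2.aemeasurable,
      pi_smul_PdD2 _ (measure_ne_top _ _), lintegral_smul_measure, smul_eq_mul,
      ← ofReal_integral_eq_lintegral_ofReal (integrable_Qm c ⟨j, hj⟩ hG.mom u)
        (Eventually.of_forall fun _ => abs_nonneg _)]
    have e2 : ∫ y, |c.det (update y ⟨j, hj⟩ u)| ∂(pw (res μ E) {i // i ∈ S}) =
        a * Qd (res μ E) u := hQ _ u
    rw [e2, ENNReal.ofReal_mul ha.le]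
    ring
  · refine ⟨0, fun u => ?_⟩
    rw [zero_mul]
    have hae : ∀ᵐ x ∂(pw μ ι), ∀ i, x i ∈ (E : Set V) ∪ (F : Set V) :=
      ae_pw (P := fun y => y ∈ (E : Set V) ∪ (F : Set V)) h
    refine (lintegral_congr_ae (g := fun _ => 0) ?_).trans lintegral_zero
    filter_upwards [ae_restrict_of_ae hae, ae_restrict_mem hbox] with x h1 h2
    have h3 : b.det (update x j (u : V)) = 0 := by
      rcases lt_or_gt_of_ne hc with hc | hc
      · refine bdet_zero_of_card b (U := F) (S := Sᶜ) (fun i hi => ?_) ?_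
        · have hi' : i ∉ S := Finset.mem_compl.mp hi
          have hij : i ≠ j := fun e => hi' (e ▸ hj)
          rw [update_of_ne hij]
          have h4 := h2 i (mem_univ i)
          unfold box_PdD2 at h4
          rw [if_neg hi'] at h4
          exact (h1 i).resolve_left h4
        · have e1 := Submodule.finrank_add_eq_of_isCompl hEF
          have e2 := Module.finrank_eq_card_basis b
          have e3 := Finset.card_add_card_compl S
          omega
      · refine bdet_zero_of_card b (U := E) (S := S) (fun i hi => ?_) hc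
        by_cases hij : i = j
        · rw [hij, update_self]
          exact u.2
        · rw [update_of_ne hij]
          have h4 := h2 i (mem_univ i)
          unfold box_PdD2 at h4
          rw [if_pos hi] at h4
          exact h4
    rw [h3, abs_zero, ENNReal.ofReal_zero]

theorem split_PdD2 (j : ι) (μ : Measure V) [IsProbabilityMeasure μ] (E : Submodule ℝ V)
    {f : (ι → V) → ℝ≥0∞} (hf : Measurable f) (hj : ∀ x y, f (update x j y) = f x) :
    μ E * ∫⁻ x, f x ∂(pw μ ι) = ∑ S ∈ Finset.univ.filter (fun S : Finset ι => j ∈ S),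
      ∫⁻ x in univ.pi (box_PdD2 E S), f x ∂(pw μ ι) := by
  classical
  have hm : MeasurableSet (E : Set V) := E.closed_of_finiteDimensional.measurableSet
  have hbox : ∀ S : Finset ι, MeasurableSet (univ.pi (box_PdD2 E S)) := fun S =>
    MeasurableSet.univ_pi fun i => by
      unfold box_PdD2
      split_ifs
      · exact hm
      · exact hm.compl
  have hi : Measurable fun y : V => (E : Set V).indicator (1 : V → ℝ≥0∞) y :=
    measurable_one.indicator hm
  have h1 := lintegral_update' μ j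
    (F := fun x => (E : Set V).indicator (1 : V → ℝ≥0∞) (x j) * f x)
    ((hi.comp (measurable_pi_apply j)).mul hf)
  simp only [update_self, hj] at h1
  have h2 : ∀ y : V, ∫⁻ x, (E : Set V).indicator (1 : V → ℝ≥0∞) y * f x ∂(pw μ ι) =
      (E : Set V).indicator (1 : V → ℝ≥0∞) y * ∫⁻ x, f x ∂(pw μ ι) := fun y =>
    lintegral_const_mul _ hf
  simp only [h2] at h1
  rw [lintegral_mul_const _ hi, lintegral_indicator_one hm] at h1
  rw [← h1]
  simp only [← lintegral_indicator (hbox _)]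
  rw [← lintegral_finsetSum _ fun S _ => hf.indicator (hbox S)]
  refine lintegral_congr fun x => ?_
  have hmem : ∀ i, i ∈ (Finset.univ.filter fun i => x i ∈ E) ↔ x i ∈ E := fun i => by simp
  have hx : ∀ S : Finset ι, x ∈ univ.pi (box_PdD2 E S) ↔
      S = Finset.univ.filter fun i => x i ∈ E := by
    intro S
    constructor
    · intro hS
      ext i
      have h4 := hS i (mem_univ i)
      unfold box_PdD2 at h4
      rw [Finset.mem_filter]
      by_cases hi : i ∈ S
      · rw [if_pos hi] at h4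
        exact ⟨fun _ => ⟨Finset.mem_univ i, h4⟩, fun _ => hi⟩
      · rw [if_neg hi] at h4
        exact ⟨fun e => absurd e hi, fun e => absurd e.2 h4⟩
    · rintro rfl i _
      unfold box_PdD2
      by_cases hi : x i ∈ E
      · rw [if_pos ((hmem i).mpr hi)]
        exact hi
      · rw [if_neg fun e => hi ((hmem i).mp e)]
        exact hi
  by_cases hxj : x j ∈ E
  · rw [indicator_of_mem (show x j ∈ (E : Set V) from hxj), Pi.one_apply, one_mul,
      Finset.sum_eq_single (Finset.univ.filter fun i => x i ∈ E)]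
    · rw [indicator_of_mem ((hx _).mpr rfl)]
    · intro S _ hS
      exact indicator_of_notMem (fun e => hS ((hx S).mp e)) _
    · intro hS
      refine absurd (Finset.mem_filter.mpr ⟨Finset.mem_univ _, ?_⟩) hS
      exact (hmem j).mpr hxj
  · rw [indicator_of_notMem (show x j ∉ (E : Set V) from hxj), zero_mul]
    refine (Finset.sum_eq_zero fun S hS => indicator_of_notMem (fun e => hxj ?_) _).symm
    have h5 := (Finset.mem_filter.mp hS).2
    rw [(hx S).mp e] at h5
    exact (Finset.mem_filter.mp h5).2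

/-- the product formula -/
theorem Qd_res {μ : Measure V} (hμ : Good μ) {E F : Submodule ℝ V} (hEF : IsCompl E F)
    (hE : E ≠ ⊥) (h : μ ((E : Set V) ∪ (F : Set V))ᶜ = 0) :
    ∃ C : ℝ, 0 < C ∧ ∀ u : E, Qd μ u = C * Qd (res μ E) u := by
  have := hμ.mom.prob
  obtain ⟨v, hvE, hv⟩ := Submodule.exists_mem_ne_zero_of_ne_bot hE
  have : Nontrivial V := nontrivial_of_ne v 0 hv
  let b := Module.finBasis ℝ V
  let j : Fin (finrank ℝ V) := ⟨0, Module.finrank_pos⟩
  have hG := hμ.res hEF hE h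
  have hE0 := meas_ne_zero hμ hEF hE h
  obtain ⟨a, ha, hQ⟩ := Qm_eq_Qd b j
  have h1 : ∀ S : Finset (Fin (finrank ℝ V)), ∃ C : ℝ≥0∞, j ∈ S → ∀ u : E,
      ∫⁻ x in univ.pi (box_PdD2 E S), ENNReal.ofReal |b.det (update x j (u : V))| ∂(pw μ _)
        = C * ENNReal.ofReal (Qd (res μ E) u) := by
    intro S
    by_cases hj : j ∈ S
    · obtain ⟨C, hC⟩ := term_PdD2 b j hμ hEF hE h S hj
      exact ⟨C, fun _ => hC⟩
    · exact ⟨0, fun e => absurd e hj⟩
  choose C hC using h1
  obtain ⟨T, hT⟩ : ∃ T : ℝ≥0∞, ∀ u : E, μ E * ENNReal.ofReal (a * Qd μ u) =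
      T * ENNReal.ofReal (Qd (res μ E) u) := by
    refine ⟨∑ S ∈ Finset.univ.filter (fun S => j ∈ S), C S, fun u => ?_⟩
    have hf : Measurable fun x : Fin (finrank ℝ V) → V =>
        ENNReal.ofReal |b.det (update x j (u : V))| :=
      (((continuous_bdet b).comp (continuous_id.update j continuous_const)).abs.measurable
        ).ennreal_ofReal
    have h2 := split_PdD2 j μ E hf fun x y => by rw [update_idem]
    rw [← ofReal_integral_eq_lintegral_ofReal (integrable_Qm b j hμ.mom u)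
      (Eventually.of_forall fun _ => abs_nonneg _)] at h2
    rw [← hQ μ u, Finset.sum_mul]
    refine h2.trans (Finset.sum_congr rfl fun S hS => hC S (Finset.mem_filter.mp hS).2 u)
  have hn : ∀ u : V, 0 ≤ Qd μ u := fun u => integral_nonneg fun _ => D_nonneg _
  have hn' : ∀ u : E, 0 ≤ Qd (res μ E) u := fun u => integral_nonneg fun _ => D_nonneg _
  have hR : ∀ u : E, (μ E).toReal * (a * Qd μ u) = T.toReal * Qd (res μ E) u := by
    intro u
    have h2 := congrArg ENNReal.toReal (hT u)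
    rwa [ENNReal.toReal_mul, ENNReal.toReal_mul, ENNReal.toReal_ofReal (mul_nonneg ha.le (hn u)),
      ENNReal.toReal_ofReal (hn' u)] at h2
  have hp : 0 < (μ E).toReal := ENNReal.toReal_pos hE0 (measure_ne_top _ _)
  have hv1 : 0 < Qd μ v := Qd_pos hμ hv
  have hT0 : 0 < T.toReal := by
    rcases (ENNReal.toReal_nonneg (a := T)).lt_or_eq with e | e
    · exact e
    · have h2 := hR ⟨v, hvE⟩
      rw [← e, zero_mul] at h2
      exact absurd h2 (mul_pos hp (mul_pos ha hv1)).ne'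
  refine ⟨T.toReal / ((μ E).toReal * a), div_pos hT0 (mul_pos hp ha), fun u => ?_⟩
  rw [div_mul_eq_mul_div, eq_div_iff (mul_pos hp ha).ne', ← hR u]
  ring

end Pool.Agent.P.MP_181257_gt
end
end

-- part Pool.Agent.P.MP_181257_gt.PdD3
section

set_option autoImplicit false
set_option linter.unusedSectionVars false
set_option linter.unusedVariables false

open MeasureTheory ProbabilityTheory Module Set Filter Topology Function
open scoped RealInnerProductSpace ENNReal Pointwise LinearAlgebra.Projectivization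

noncomputable section

namespace Pool.Agent.P.MP_181257_gt

variable {V : Type} [NormedAddCommGroup V] [InnerProductSpace ℝ V] [FiniteDimensional ℝ V]
  [MeasurableSpace V] [BorelSpace V] {ι : Type} [Fintype ι] [DecidableEq ι]

theorem Qd_map {W : Type} [NormedAddCommGroup W] [InnerProductSpace ℝ W] [FiniteDimensional ℝ W]
    [MeasurableSpace W] [BorelSpace W] (hn : 1 ≤ finrank ℝ V) (T : V ≃ₗ[ℝ] W) :
    ∃ c : ℝ, 0 < c ∧ ∀ (ρ : Measure V) [IsProbabilityMeasure ρ] (u : V),
      Qd (ρ.map T) (T u) = c * Qd ρ u := by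
  let b := Module.finBasis ℝ V
  let j : Fin (finrank ℝ V) := ⟨0, by omega⟩
  obtain ⟨c1, hc1, h1⟩ := Qm_eq_Qd b j
  obtain ⟨c2, hc2, h2⟩ := Qm_eq_Qd (b.map T) j
  have hT : Measurable T := T.toContinuousLinearEquiv.continuous.measurable
  refine ⟨c1 / c2, by positivity, fun ρ _ u => ?_⟩
  have : IsProbabilityMeasure (ρ.map T) := Measure.isProbabilityMeasure_map hT.aemeasurable
  have hmp : MeasurePreserving (fun (x : Fin (finrank ℝ V) → V) i => T (x i))
      (pw ρ (Fin (finrank ℝ V))) (pw (ρ.map T) (Fin (finrank ℝ V))) :=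
    measurePreserving_pi _ _ fun _ => ⟨hT, rfl⟩
  have h3 : Qm (b.map T) j (ρ.map T) (T u) = Qm b j ρ u := by
    unfold Qm
    rw [← hmp.map_eq, integral_map hmp.measurable.aemeasurable]
    · refine integral_congr_ae (Eventually.of_forall fun x => ?_)
      simp only
      rw [Basis.det_map]
      congr 2
      funext i
      by_cases hi : i = j
      · subst hi
        simp
      · simp [update_of_ne hi]
    · exact (((continuous_bdet (b.map T)).comp
        (continuous_id.update j continuous_const)).abs).aestronglyMeasurable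
  rw [h1, h2] at h3
  field_simp
  linarith

/-- the part of `ν` on the annihilator of `F`, projected to `E` -/
theorem exists_part {ν : Measure V} (hν : Good ν) {E F : Submodule ℝ V} (hEF : IsCompl E F)
    (hE : E ≠ ⊥) (h : ν ((Fᗮ : Set V) ∪ (Eᗮ : Set V))ᶜ = 0) :
    ∃ (ρ : Measure E) (c c' : ℝ), Good ρ ∧ 0 < c ∧ 0 < c' ∧ (∀ u : E, Hm ν u = c * Hm ρ u) ∧
      ∀ w ∈ Fᗮ, Qd ν w = c' * Qd ρ (E.orthogonalProjectionOnto w) := by
  have hO := isCompl_orth hEF
  have hF : Fᗮ ≠ ⊥ := by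
    intro h0
    rw [Submodule.orthogonal_eq_bot_iff] at h0
    subst h0
    exact hE (by simpa using hEF.disjoint)
  let P : Fᗮ →ₗ[ℝ] E := (E.orthogonalProjectionOnto : V →ₗ[ℝ] E) ∘ₗ Fᗮ.subtype
  have hP : Function.Bijective P := by
    constructor
    · rw [← LinearMap.ker_eq_bot, LinearMap.ker_eq_bot']
      intro y hy
      have h1 : (y : V) ∈ Eᗮ := Submodule.orthogonalProjectionOnto_eq_zero_iff.1 hy
      have h2 : (y : V) = 0 := Submodule.disjoint_def.1 hO.disjoint _ y.2 h1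
      exact Subtype.ext h2
    · intro u
      obtain ⟨w, hw, hu⟩ := exists_lift hEF u
      exact ⟨⟨w, hw⟩, hu⟩
  let T : Fᗮ ≃ₗ[ℝ] E := LinearEquiv.ofBijective P hP
  have hTa : ∀ y : Fᗮ, T y = E.orthogonalProjectionOnto (y : V) := fun y => rfl
  have hT : Measurable T := T.toContinuousLinearEquiv.continuous.measurable
  have hg := hν.res hO hF h
  have := hg.mom.prob
  have := hν.mom.prob
  have hm := meas_ne_zero hν hO hF h
  have hc : 0 < (ν Fᗮ).toReal := ENNReal.toReal_pos hm (measure_ne_top _ _)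
  have hH : ∀ u : E, Hm ν u = (ν Fᗮ).toReal * Hm ((res ν Fᗮ).map T) u := by
    intro u
    rw [Hm_res hν hO hF h (E.le_orthogonal_orthogonal u.2)]
    congr 1
    unfold Hm
    rw [integral_map hT.aemeasurable
      ((continuous_const.inner continuous_id).abs).aestronglyMeasurable]
    refine integral_congr_ae (Eventually.of_forall fun y => ?_)
    simp only [id]
    rw [hTa, Submodule.inner_orthogonalProjectionOnto_eq_of_mem_left,
      Submodule.inner_orthogonalProjectionOnto_eq_of_mem_right]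
  have hn : 1 ≤ finrank ℝ Fᗮ := by
    rw [Nat.one_le_iff_ne_zero]
    intro h0
    exact hF (Submodule.finrank_eq_zero.1 h0)
  obtain ⟨C, hC, hC1⟩ := Qd_res hν hO hF h
  obtain ⟨c2, hc2, hc3⟩ := Qd_map hn T
  refine ⟨(res ν Fᗮ).map T, (ν Fᗮ).toReal, C / c2, ⟨⟨?_, ?_⟩, ?_, ?_⟩, hc, by positivity, hH, ?_⟩
  · exact Measure.isProbabilityMeasure_map hT.aemeasurable
  · rw [integrable_map_measure continuous_norm.aestronglyMeasurable hT.aemeasurable]
    refine hg.mom.int.mono'
      (continuous_norm.comp T.toContinuousLinearEquiv.continuous).aestronglyMeasurable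
      (Eventually.of_forall fun y => ?_)
    simp only [Function.comp, norm_norm]
    rw [hTa]
    exact Submodule.norm_orthogonalProjectionOnto_apply_le E (y : V)
  · rw [Measure.map_apply hT (measurableSet_singleton 0)]
    have h1 : T ⁻¹' {0} = {0} := by
      ext y
      simp
    rw [h1]
    exact hg.zero
  · intro u hu
    have h1 := hν.pos (u : V) fun h2 => hu (Subtype.ext h2)
    rw [hH] at h1
    exact (mul_pos_iff_of_pos_left hc).1 h1
  · intro w hw
    have h1 := hC1 ⟨w, hw⟩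
    have h2 := hc3 (res ν Fᗮ) ⟨w, hw⟩
    rw [hTa] at h2
    simp only at h1 h2
    rw [h1, h2]
    field_simp

theorem Pair.res {μ ν : Measure V} (h : Pair μ ν) {E F : Submodule ℝ V} (hEF : IsCompl E F)
    (hE : E ≠ ⊥) (hs : μ ((E : Set V) ∪ (F : Set V))ᶜ = 0) :
    ∃ ρ : Measure E, Pair (res μ E) ρ := by
  have := h.gl.mom.prob
  obtain ⟨ρ, c, c', hρ, hc, hc', h1, h2⟩ :=
    exists_part h.gr hEF hE (h.hl.split h.gl h.gr hEF hs)
  obtain ⟨a0, ha0, h3⟩ := h.hl
  obtain ⟨a1, ha1, h4⟩ := h.hr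
  obtain ⟨C, hC, h5⟩ := Qd_res h.gl hEF hE hs
  have hm : 0 < (μ E).toReal :=
    ENNReal.toReal_pos (meas_ne_zero h.gl hEF hE hs) (measure_ne_top _ _)
  refine ⟨ρ, h.gl.res hEF hE hs, hρ, ⟨a0 * C / c, by positivity, fun u => ?_⟩,
    ⟨a1 * c' / (μ E).toReal, by positivity, fun u => ?_⟩⟩
  · have h6 := h1 u
    rw [h3, h5] at h6
    field_simp
    linarith
  · obtain ⟨w, hw, hu⟩ := exists_lift hEF u
    have h6 := Hm_res h.gl hEF hE hs hw
    rw [h4, h2 w hw, hu] at h6
    field_simp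
    linarith

end Pool.Agent.P.MP_181257_gt
end
end

-- part Pool.Agent.P.MP_181257_gt.PdC2
section

set_option autoImplicit false
set_option linter.unusedSectionVars false
set_option linter.unusedVariables false

open MeasureTheory ProbabilityTheory Module Set Filter Topology Function
open scoped RealInnerProductSpace ENNReal Pointwise LinearAlgebra.Projectivization

noncomputable section

namespace Pool.Agent.P.MP_181257_gt

variable {V : Type} [NormedAddCommGroup V] [InnerProductSpace ℝ V] [FiniteDimensional ℝ V]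
  [MeasurableSpace V] [BorelSpace V] {ι : Type} [Fintype ι] [DecidableEq ι]

theorem mem_Zs_iff {μ : Measure V} (c : ℝ) (z : V) :
    z ∈ (Zs fun u => c * Hm μ u) ↔ ∀ u, ⟪z, u⟫ ≤ c * Hm μ u := by
  refine ⟨fun h u => ?_, fun h u _ => h u⟩
  by_cases hu : u = 0
  · simp [hu, Hm]
  have hn : 0 < ‖u‖ := norm_pos_iff.2 hu
  have h1 := mul_le_mul_of_nonneg_left (h _ (norm_smul_inv_norm (𝕜 := ℝ) hu)) hn.le
  simp only [RCLike.ofReal_real_eq_id, id] at h1
  rw [real_inner_smul_right, Hm_smul, abs_of_pos (inv_pos.2 hn), mul_left_comm c,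
    mul_inv_cancel_left₀ hn.ne', mul_inv_cancel_left₀ hn.ne'] at h1
  exact h1

theorem exists_support_point {μ : Measure V} (hμ : Mom μ) {c : ℝ} (hc : 0 ≤ c) (u : V) :
    ∃ z ∈ (Zs fun u => c * Hm μ u), ⟪z, u⟫ = c * Hm μ u := by
  have : CompleteSpace V := FiniteDimensional.complete ℝ V
  let f : V → V := fun x => if 0 ≤ ⟪u, x⟫ then x else -x
  have hm : Measurable f :=
    Measurable.ite (measurableSet_le measurable_const (by fun_prop)) measurable_id measurable_neg
  have hf : Integrable f μ := by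
    refine hμ.int.mono' hm.aestronglyMeasurable (Eventually.of_forall fun x => ?_)
    simp only [f]
    split_ifs <;> simp
  have key : ∀ w, ⟪c • ∫ x, f x ∂μ, w⟫ = c * ∫ x, ⟪w, f x⟫ ∂μ := fun w => by
    rw [real_inner_smul_left, real_inner_comm, integral_inner hf]
  refine ⟨c • ∫ x, f x ∂μ, (mem_Zs_iff c _).2 fun w => ?_, ?_⟩
  · rw [key]
    refine mul_le_mul_of_nonneg_left (integral_mono (hf.const_inner w) (integrable_Hm hμ w)
      fun x => ?_) hc
    simp only [f]
    split_ifs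
    · exact le_abs_self _
    · rw [inner_neg_right]
      exact neg_le_abs _
  · rw [key]
    refine congrArg (c * ·) (integral_congr_ae (Eventually.of_forall fun x => ?_))
    simp only [f]
    split_ifs with h
    · exact (abs_of_nonneg h).symm
    · rw [inner_neg_right, abs_of_neg (not_le.1 h)]

theorem body_Zs {μ : Measure V} (hμ : Good μ) {c : ℝ} (hc : 0 < c) :
    IsCompact (Zs fun u => c * Hm μ u) ∧ Convex ℝ (Zs fun u => c * Hm μ u) ∧
      (interior (Zs fun u => c * Hm μ u)).Nonempty ∧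
      -(Zs fun u => c * Hm μ u) = Zs fun u => c * Hm μ u := by
  obtain ⟨δ, hδ, hl⟩ := hμ.lower
  have hneg : ∀ z, z ∈ (Zs fun u => c * Hm μ u) → -z ∈ Zs fun u => c * Hm μ u := fun z hz => by
    rw [mem_Zs_iff] at hz ⊢
    intro u
    have h1 := hz ((-1 : ℝ) • u)
    rw [Hm_smul, real_inner_smul_right] at h1
    rw [inner_neg_left]
    simpa using h1
  refine ⟨isCompact_Zs (B := c * ∫ x, ‖x‖ ∂μ) fun u hu => ?_, convex_Zs _,
    ⟨0, mem_interior.2 ⟨Metric.ball 0 (c * δ), fun z hz u hu => ?_, Metric.isOpen_ball,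
      Metric.mem_ball_self (mul_pos hc hδ)⟩⟩, ?_⟩
  · have h1 := Hm_le hμ.mom u
    rw [hu, mul_one] at h1
    exact mul_le_mul_of_nonneg_left h1 hc.le
  · have h1 := hl u
    have h2 := real_inner_le_norm z u
    rw [hu, mul_one] at h1 h2
    exact h2.trans ((mem_ball_zero_iff.1 hz).le.trans (mul_le_mul_of_nonneg_left h1 hc.le))
  · ext z
    rw [Set.mem_neg]
    exact ⟨fun h => neg_neg z ▸ hneg _ h, hneg z⟩

theorem smooth_Zs {μ : Measure V} (hμ : Good μ) {c : ℝ} (hc : 0 < c) (hs : csupp μ = univ) :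
    SmoothBody (Zs fun u => c * Hm μ u) := by
  intro z hz u u' hu hu' h1 h2
  by_contra hne
  have hz' := (mem_Zs_iff c z).1 hz
  obtain ⟨y, hy, ey⟩ := exists_support_point hμ.mom hc.le u
  obtain ⟨y', hy', ey'⟩ := exists_support_point hμ.mom hc.le u'
  have h3 : Hm μ u + Hm μ u' ≤ Hm μ (u + u') := by
    refine le_of_mul_le_mul_left ?_ hc
    have h4 := hz' (u + u')
    rw [inner_add_right] at h4
    linarith [h1 y hy, h2 y' hy']
  have hi := ((integrable_Hm hμ.mom u).add (integrable_Hm hμ.mom u')).sub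
    (integrable_Hm hμ.mom (u + u'))
  have hn : 0 ≤ ((fun x => |⟪u, x⟫|) + fun x => |⟪u', x⟫|) - fun x => |⟪u + u', x⟫| := fun x => by
    simp only [Pi.zero_apply, Pi.sub_apply, Pi.add_apply, inner_add_left]
    linarith [abs_add_le ⟪u, x⟫ ⟪u', x⟫]
  have h0 := (integral_eq_zero_iff_of_nonneg hn hi).1 (le_antisymm (by
    rw [integral_sub' ((integrable_Hm hμ.mom u).add (integrable_Hm hμ.mom u'))
      (integrable_Hm hμ.mom (u + u')), integral_add' (integrable_Hm hμ.mom u)
      (integrable_Hm hμ.mom u')]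
    exact sub_nonpos.2 h3) (integral_nonneg hn))
  have hlt : ⟪u, u'⟫ < 1 := (inner_lt_one_iff_real_of_norm_eq_one hu hu').2 hne
  have hm : u - u' ∈ csupp μ := hs ▸ mem_univ _
  refine hm {x | ⟪u, x⟫ * ⟪u', x⟫ < 0} (isOpen_lt (by fun_prop) continuous_const) ?_ ?_
  · change ⟪u, u - u'⟫ * ⟪u', u - u'⟫ < 0
    rw [inner_sub_right, inner_sub_right, real_inner_self_eq_norm_sq, real_inner_self_eq_norm_sq,
      hu, hu', real_inner_comm u u']
    exact mul_neg_of_pos_of_neg (by linarith) (by linarith)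
  · refine measure_mono_null ?_ (ae_iff.1 h0)
    rintro x ⟨t, ht, hx⟩ e
    have hx' : ⟪u, t • x⟫ * ⟪u', t • x⟫ < 0 := hx
    rw [real_inner_smul_right, real_inner_smul_right] at hx'
    simp only [Pi.zero_apply, Pi.sub_apply, Pi.add_apply, inner_add_left] at e
    have h5 : 0 ≤ ⟪u, x⟫ * ⟪u', x⟫ := by
      rcases (abs_add_eq_add_abs_iff ⟪u, x⟫ ⟪u', x⟫).1 (by linarith) with h | h
      · exact mul_nonneg h.1 h.2
      · exact mul_nonneg_of_nonpos_of_nonpos h.1 h.2
    nlinarith [mul_nonneg (mul_self_nonneg t) h5]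

end Pool.Agent.P.MP_181257_gt
end
end

-- part Pool.Agent.P.MP_181257_gt.PdD4
section

set_option autoImplicit false
set_option linter.unusedSectionVars false
set_option linter.unusedVariables false

open MeasureTheory ProbabilityTheory Module Set Filter Topology Function
open scoped RealInnerProductSpace ENNReal Pointwise LinearAlgebra.Projectivization

noncomputable section

namespace Pool.Agent.P.MP_181257_gt

variable {V : Type} [NormedAddCommGroup V] [InnerProductSpace ℝ V] [FiniteDimensional ℝ V]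
  [MeasurableSpace V] [BorelSpace V] {ι : Type} [Fintype ι] [DecidableEq ι]

theorem isCompl_family {r : ℕ} {E : Fin r → Submodule ℝ V} (hi : iSupIndep E)
    (ht : ⨆ j, E j = ⊤) (j : Fin r) : IsCompl (E j) (⨆ (i : Fin r) (_ : i ≠ j), E i) := by
  refine ⟨hi j, codisjoint_iff.2 (top_le_iff.1 ?_)⟩
  rw [← ht]
  refine iSup_le fun i => ?_
  by_cases h : i = j
  · rw [h]; exact le_sup_left
  · exact le_sup_of_le_right (le_iSup₂_of_le i h le_rfl)

theorem null_family {μ : Measure V} {r : ℕ} {E : Fin r → Submodule ℝ V}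
    (h : μ (⋃ j, (E j : Set V))ᶜ = 0) (j : Fin r) :
    μ ((E j : Set V) ∪ ((⨆ (i : Fin r) (_ : i ≠ j), E i : Submodule ℝ V) : Set V))ᶜ = 0 := by
  refine measure_mono_null (compl_subset_compl.2 (iUnion_subset fun i x hx => ?_)) h
  by_cases e : i = j
  · exact Or.inl (e ▸ hx)
  · exact Or.inr ((le_iSup₂_of_le i e le_rfl : E i ≤ ⨆ (i : Fin r) (_ : i ≠ j), E i) hx)

theorem indep_iff_PdD4 {r : ℕ} {E : Fin r → Submodule ℝ V} : iSupIndep E ↔
    ∀ v : Fin r → V, (∀ i, v i ∈ E i) → ∑ i, v i = 0 → ∀ i, v i = 0 := by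
  rw [iSupIndep_iff_finsetSum_eq_zero_imp_eq_zero]
  constructor
  · exact fun h v hv h0 i => h Finset.univ v (fun i _ => hv i) h0 i (Finset.mem_univ i)
  · intro h s v hv h0 i hi
    have := h (fun i => if i ∈ s then v i else 0) (fun i => by
      split_ifs with c
      · exact hv i c
      · exact zero_mem _) (by rw [Finset.sum_ite_mem, Finset.univ_inter, h0]) i
    simpa [hi] using this

theorem refine_PdD4 {μ : Measure V} [IsFiniteMeasure μ] {r : ℕ} {E : Fin r → Submodule ℝ V}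
    (hi : iSupIndep E) (ht : ⨆ j, E j = ⊤) (hb : ∀ j, E j ≠ ⊥)
    (h0 : μ (⋃ j, (E j : Set V))ᶜ = 0) {j : Fin r} (hs : Splits (res μ (E j))) :
    ∃ G : Fin (r + 1) → Submodule ℝ V, iSupIndep G ∧ ⨆ j, G j = ⊤ ∧ (∀ j, G j ≠ ⊥) ∧
      μ (⋃ j, (G j : Set V))ᶜ = 0 := by
  obtain ⟨A, B, hAB, hA, hB, hn⟩ := hs
  have hinj := (E j).injective_subtype
  have hd : Disjoint (A.map (E j).subtype) (B.map (E j).subtype) := by
    rw [disjoint_iff, ← Submodule.map_inf _ hinj, hAB.inf_eq_bot, Submodule.map_bot]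
  have hsup : A.map (E j).subtype ⊔ B.map (E j).subtype = E j := by
    rw [← Submodule.map_sup, hAB.sup_eq_top, Submodule.map_subtype_top]
  have hne : ∀ C : Submodule ℝ (E j), C ≠ ⊥ → C.map (E j).subtype ≠ ⊥ := fun C hC h =>
    hC (Submodule.map_injective_of_injective hinj (h.trans (Submodule.map_bot _).symm))
  refine ⟨Fin.cons (A.map (E j).subtype) (update E j (B.map (E j).subtype)), ?_, ?_, ?_, ?_⟩
  · rw [indep_iff_PdD4] at hi ⊢
    intro v hv hs
    have v0 : v 0 ∈ A.map (E j).subtype := by simpa using hv 0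
    have vj : v j.succ ∈ B.map (E j).subtype := by simpa using hv j.succ
    have hw := hi (fun i => v i.succ + if i = j then v 0 else 0) (fun i => by
      by_cases c : i = j
      · subst c
        rw [if_pos rfl]
        exact add_mem (Submodule.map_subtype_le _ _ vj) (Submodule.map_subtype_le _ _ v0)
      · simpa [c] using hv i.succ) (by
      rw [Fin.sum_univ_succ] at hs
      rw [Finset.sum_add_distrib, add_comm]
      simpa using hs)
    have e := hw j
    rw [if_pos rfl] at e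
    have z0 : v 0 = 0 := by
      refine Submodule.disjoint_def.1 hd _ v0 ?_
      rw [eq_neg_of_add_eq_zero_right e]
      exact neg_mem vj
    intro i
    refine Fin.cases z0 (fun i => ?_) i
    simpa [z0] using hw i
  · refine top_le_iff.1 (ht.ge.trans (iSup_le fun i => ?_))
    by_cases c : i = j
    · subst c
      refine hsup.ge.trans (sup_le (le_iSup_of_le 0 (by simp)) (le_iSup_of_le i.succ (by simp)))
    · exact le_iSup_of_le i.succ (by simp [c])
  · intro i
    refine Fin.cases (by simpa using hne A hA) (fun i => ?_) i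
    by_cases c : i = j
    · subst c
      simpa using hne B hB
    · simpa [c] using hb i
  · have hm : MeasurableSet ((A : Set (E j)) ∪ (B : Set (E j)))ᶜ :=
      (A.closed_of_finiteDimensional.measurableSet.union
        B.closed_of_finiteDimensional.measurableSet).compl
    rw [res_apply _ _ hm, mul_eq_zero] at hn
    have h1 := hn.resolve_left (ENNReal.inv_ne_zero.2 (measure_ne_top _ _))
    refine measure_mono_null (fun x hx => ?_) (measure_union_null h0 h1)
    by_contra hc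
    rw [mem_union, not_or, notMem_compl_iff, mem_iUnion] at hc
    obtain ⟨⟨i, hxi⟩, h2⟩ := hc
    refine hx (mem_iUnion.2 ?_)
    by_cases c : i = j
    · subst c
      by_cases a : (⟨x, hxi⟩ : E i) ∈ A
      · exact ⟨0, by simpa using ⟨hxi, a⟩⟩
      by_cases b : (⟨x, hxi⟩ : E i) ∈ B
      · exact ⟨i.succ, by simpa using ⟨hxi, b⟩⟩
      exact absurd ⟨⟨x, hxi⟩, fun h => h.elim a b, rfl⟩ h2
    · exact ⟨i.succ, by simpa [c] using hxi⟩

theorem exists_family (hn : 1 ≤ finrank ℝ V) {μ : Measure V} (hμ : Good μ) :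
    ∃ (r : ℕ) (E : Fin r → Submodule ℝ V), iSupIndep E ∧ ⨆ j, E j = ⊤ ∧ (∀ j, E j ≠ ⊥) ∧
      μ (⋃ j, (E j : Set V))ᶜ = 0 ∧ ∀ j, ¬ Splits (res μ (E j)) := by
  classical
  have := hμ.mom.prob
  let P : ℕ → Prop := fun r => ∃ E : Fin r → Submodule ℝ V, iSupIndep E ∧ ⨆ j, E j = ⊤ ∧
    (∀ j, E j ≠ ⊥) ∧ μ (⋃ j, (E j : Set V))ᶜ = 0
  have h1 : P 1 := by
    have : Nontrivial V := Module.finrank_pos_iff.1 hn
    exact ⟨fun _ => ⊤, iSupIndep_subsingleton _, by simp, fun _ => top_ne_bot,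
      by simp [iInter_const]⟩
  have h2 : ∀ r, P r → r ≤ finrank ℝ V := by
    rintro r ⟨E, hi, -, hb, -⟩
    have := hi.subtype_ne_bot_le_finrank
    rwa [Fintype.card_congr (Equiv.subtypeUnivEquiv hb), Fintype.card_fin] at this
  obtain ⟨E, hi, ht, hb, h0⟩ := Nat.findGreatest_spec (P := P) hn h1
  refine ⟨_, E, hi, ht, hb, h0, fun j hs => ?_⟩
  have h3 : P (Nat.findGreatest P (finrank ℝ V) + 1) := refine_PdD4 hi ht hb h0 hs
  exact Nat.findGreatest_is_greatest (Nat.lt_succ_self _) (h2 _ h3) h3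

end Pool.Agent.P.MP_181257_gt
end
end

-- part Pool.Agent.P.MP_181257_gt.PdD5
section

set_option autoImplicit false
set_option linter.unusedSectionVars false
set_option linter.unusedVariables false

open MeasureTheory ProbabilityTheory Module Set Filter Topology Function
open scoped RealInnerProductSpace ENNReal Pointwise LinearAlgebra.Projectivization

noncomputable section

namespace Pool.Agent.P.MP_181257_gt

variable {V : Type} [NormedAddCommGroup V] [InnerProductSpace ℝ V] [FiniteDimensional ℝ V]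
  [MeasurableSpace V] [BorelSpace V] {ι : Type} [Fintype ι] [DecidableEq ι]

theorem Hm_family {μ : Measure V} (hμ : Good μ) {r : ℕ} {E : Fin r → Submodule ℝ V}
    (hi : iSupIndep E) (ht : ⨆ j, E j = ⊤) (hb : ∀ j, E j ≠ ⊥)
    (h : μ (⋃ j, (E j : Set V))ᶜ = 0) (u : V) :
    Hm μ u = ∑ j, (μ (E j)).toReal * Hm (res μ (E j)) ((E j).orthogonalProjectionOnto u) := by
  have hm : ∀ j, MeasurableSet (E j : Set V) := fun j =>
    (E j).closed_of_finiteDimensional.measurableSet
  have h1 : ∀ᵐ x ∂μ, |⟪u, x⟫| = ∑ j, (E j : Set V).indicator (fun x => |⟪u, x⟫|) x := by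
    have h2 : ∀ᵐ x ∂μ, x ∈ ⋃ j, (E j : Set V) := h
    filter_upwards [h2] with x hx
    obtain ⟨j, hj⟩ := mem_iUnion.mp hx
    rw [Finset.sum_eq_single j (fun i _ hij => ?_) (fun hn => absurd (Finset.mem_univ j) hn),
      indicator_of_mem hj]
    by_cases hx : x ∈ (E i : Set V)
    · have h0 : x = 0 := (Submodule.disjoint_def.mp (hi.pairwiseDisjoint hij)) x hx hj
      rw [indicator_of_mem hx, h0, inner_zero_right, abs_zero]
    · exact indicator_of_notMem hx _
  unfold Hm
  rw [integral_congr_ae h1,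
    integral_finsetSum _ fun j _ => (integrable_Hm hμ.mom u).indicator (hm j)]
  refine Finset.sum_congr rfl fun j _ => ?_
  rw [integral_indicator (hm j)]
  exact setIntegral_res hμ.mom
    (meas_ne_zero hμ (isCompl_family hi ht j) (hb j) (null_family h j)) u

theorem Zs_family {μ : Measure V} (hμ : Good μ) {r : ℕ} {E : Fin r → Submodule ℝ V}
    (hi : iSupIndep E) (ht : ⨆ j, E j = ⊤) (hb : ∀ j, E j ≠ ⊥)
    (h : μ (⋃ j, (E j : Set V))ᶜ = 0) {c : ℝ} (hc : 0 < c) :
    (Zs fun u => c * Hm μ u) = ∑ j, (Subtype.val : E j → V) ''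
      Zs fun u : E j => (c * (μ (E j)).toReal) * Hm (res μ (E j)) u := by
  ext z
  rw [mem_Zs_iff, Set.mem_fintype_sum]
  constructor
  · intro hz
    have h1 : z ∈ ⨆ j ∈ (Finset.univ : Finset (Fin r)), E j := by
      simp [ht]
    obtain ⟨y, rfl⟩ := (Submodule.mem_iSup_finset_iff_exists_sum _ _).mp h1
    refine ⟨fun j => (y j : V), fun j => ⟨y j, ?_, rfl⟩, rfl⟩
    rw [mem_Zs_iff]
    intro u
    obtain ⟨w, hw, rfl⟩ := exists_lift (isCompl_family hi ht j) u
    have h2 := hz w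
    rw [Hm_res hμ (isCompl_family hi ht j) (hb j) (null_family h j) hw, sum_inner,
      Finset.sum_eq_single j (fun i _ hij => ?_) (fun hn => absurd (Finset.mem_univ j) hn)] at h2
    · rw [Submodule.inner_orthogonalProjectionOnto_eq_of_mem_left, mul_assoc]
      exact h2
    · exact Submodule.inner_right_of_mem_orthogonal
        (Submodule.mem_iSup_of_mem i (Submodule.mem_iSup_of_mem hij (y i).2)) hw
  · rintro ⟨g, hg, rfl⟩ u
    rw [Hm_family hμ hi ht hb h u, sum_inner, Finset.mul_sum]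
    refine Finset.sum_le_sum fun j _ => ?_
    obtain ⟨y, hy, e⟩ := hg j
    rw [mem_Zs_iff] at hy
    have h2 := hy ((E j).orthogonalProjectionOnto u)
    rw [Submodule.inner_orthogonalProjectionOnto_eq_of_mem_left, mul_assoc, e] at h2
    exact h2

end Pool.Agent.P.MP_181257_gt
end
end

-- part Pool.Agent.P.MP_181257_gt.PdC1
section

set_option autoImplicit false
set_option linter.unusedSectionVars false
set_option linter.unusedVariables false

open MeasureTheory ProbabilityTheory Module Set Filter Topology Function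
open scoped RealInnerProductSpace ENNReal Pointwise LinearAlgebra.Projectivization

noncomputable section

namespace Pool.Agent.P.MP_181257_gt

variable {V : Type} [NormedAddCommGroup V] [InnerProductSpace ℝ V] [FiniteDimensional ℝ V]
  [MeasurableSpace V] [BorelSpace V] {ι : Type} [Fintype ι] [DecidableEq ι]

theorem unit_PdC1 {u : V} (hu : u ≠ 0) : ∃ v : V, ‖v‖ = 1 ∧ u = ‖u‖ • v := by
  have hn : ‖u‖ ≠ 0 := norm_ne_zero_iff.2 hu
  refine ⟨‖u‖⁻¹ • u, ?_, ?_⟩
  · rw [norm_smul, norm_inv, norm_norm, inv_mul_cancel₀ hn]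
  · rw [smul_smul, mul_inv_cancel₀ hn, one_smul]

theorem exists_Good (hn : 1 ≤ finrank ℝ V) {h : V → ℝ} {δ : ℝ} (hZ : Zon h) (hδ : 0 < δ)
    (hpos : ∀ u, ‖u‖ = 1 → δ ≤ h u) :
    ∃ (μ : Measure V) (t : ℝ), Good μ ∧ 0 < t ∧ ∀ u, ‖u‖ = 1 → h u = t * Hm μ u := by
  obtain ⟨m, hm, h1, hh⟩ := hZ.exists_measure
  have : Nontrivial V := finrank_pos_iff.1 hn
  obtain ⟨u, hu⟩ := exists_norm_eq V zero_le_one
  have hm0 : m ≠ 0 := by
    rintro rfl
    have h2 := hpos u hu
    rw [hh u hu] at h2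
    simp only [integral_zero_measure] at h2
    linarith
  have hu0 : m univ ≠ 0 := by simpa using hm0
  have hut : m univ ≠ ∞ := measure_ne_top _ _
  have hp : IsProbabilityMeasure ((m univ)⁻¹ • m) :=
    ⟨by simp [ENNReal.inv_mul_cancel hu0 hut]⟩
  have ht : 0 < (m univ).toReal := ENNReal.toReal_pos hu0 hut
  have key : ∀ u, ‖u‖ = 1 → h u = (m univ).toReal * Hm ((m univ)⁻¹ • m) u := fun u hu => by
    rw [Hm, integral_smul_measure, hh u hu, smul_eq_mul, ENNReal.toReal_inv, ← mul_assoc,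
      mul_inv_cancel₀ ht.ne', one_mul]
  refine ⟨(m univ)⁻¹ • m, (m univ).toReal, ⟨⟨hp, ?_⟩, ?_, fun u hu => ?_⟩, ht, key⟩
  · refine Integrable.smul_measure ?_ (ENNReal.inv_ne_top.2 hu0)
    exact (integrable_const (1 : ℝ)).congr (h1.mono fun x hx => hx.symm)
  · have h0 : m {0} = 0 := by
      refine measure_mono_null ?_ (ae_iff.1 h1)
      rintro x rfl
      simp
    rw [Measure.smul_apply, h0, smul_zero]
  · obtain ⟨v, hv, e⟩ := unit_PdC1 hu
    have h2 := hδ.trans_le (hpos v hv)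
    rw [key v hv] at h2
    rw [e, Hm_smul]
    exact mul_pos (abs_pos.2 (norm_ne_zero_iff.2 hu)) ((mul_pos_iff_of_pos_left ht).1 h2)

theorem PP_Hm : ∃ c : ℝ, 0 < c ∧ ∀ μ : Measure V, Mom μ → ∀ u : V, ‖u‖ = 1 →
    PP (finrank ℝ V - 1) (Hm μ) u = c * Qd μ u := by
  obtain ⟨c, hc, h⟩ := PP_meas (V := V) (finrank ℝ V - 1)
  refine ⟨c, hc, fun μ hμ u hu => ?_⟩
  have := h μ hμ u hu
  simp only [← D_cons_eq] at this
  exact this

theorem step_PdC1 {c₀ : ℝ} (h₀ : ∀ μ : Measure V, Mom μ → ∀ u : V, ‖u‖ = 1 →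
    PP (finrank ℝ V - 1) (Hm μ) u = c₀ * Qd μ u) {μ : Measure V} (hμ : Mom μ) {h : V → ℝ} {t : ℝ}
    (ht : 0 < t) (e : ∀ u, ‖u‖ = 1 → h u = t * Hm μ u) (u : V) (hu : ‖u‖ = 1) :
    PP (finrank ℝ V - 1) h u = t ^ (finrank ℝ V - 1) * c₀ * Qd μ u := by
  rw [PP_congr _ e, PP_smul _ _ ht, h₀ μ hμ u hu, mul_assoc]

theorem pair_of_selfProj (hn : 1 ≤ finrank ℝ V) {K : Set V} (hK : IsCompact K) (hc : Convex ℝ K)
    (hint : (interior K).Nonempty) (h : SelfProj K) :
    ∃ (μ ν : Measure V) (c : ℝ) (x : V), Pair μ ν ∧ 0 < c ∧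
      K = x +ᵥ Zs fun u => c * Hm μ u := by
  obtain ⟨c₀, hc₀, h₀⟩ := PP_Hm (V := V)
  obtain ⟨x, lam, hlam, hKe⟩ :=
    (fixed_iff (Nat.sub_le _ 1) hK hc (hint.mono interior_subset)).1 h
  set i := finrank ℝ V - 1 with hi
  set h₁ : V → ℝ := fun u => intrinsicVol i (pr u '' K) with hh₁
  have e1 : projBody i K = Zs h₁ := projBody_eq i K
  have e2 : projBody i (projBody i K) = Zs (PP i h₁) := by rw [projBody_eq, e1]; rfl
  rw [e2] at hKe
  set h₂ := PP i h₁ with hh₂
  obtain ⟨B, hB⟩ := exists_bound_proj i hK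
  have hZ : Zon h₂ := zon_proj i (isCompact_Zs (B := B) fun u _ => hB u) (convex_Zs h₁)
    ⟨0, fun u _ => by simpa using intrinsicVol_nonneg i _⟩
  have e3 : h₁ = fun u => lam ^ i * PP i h₂ u := by
    ext u
    show intrinsicVol i (pr u '' K) = _
    conv_lhs => rw [hKe]
    exact vol_proj_affine i u x hlam.le _
  have hfix : ∀ u, ‖u‖ = 1 → h₂ u = (lam ^ i) ^ i * PP i (PP i h₂) u := fun u _ => by
    rw [← PP_smul i _ (pow_pos hlam i), ← e3]
  have hev : ∀ u, h₂ (-u) = h₂ u := fun u => by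
    have : pr (-u) = pr u := funext fun v => by
      simpa using pr_smul_left (t := -1) (by norm_num) u v
    simp only [hh₂, PP, this]
  obtain ⟨y, hy⟩ := hint
  obtain ⟨r, hr, hball⟩ := Metric.mem_nhds_iff.1 (mem_interior_iff_mem_nhds.1 hy)
  have hs : ∀ u, ‖u‖ = 1 → ⟪y - x, u⟫ + r / 2 ≤ lam * h₂ u := fun u hu => by
    have : y + (r / 2) • u ∈ K := hball (by
      rw [mem_ball_iff_norm, add_sub_cancel_left, norm_smul, hu, Real.norm_of_nonneg
        (by positivity)]
      linarith)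
    rw [hKe] at this
    obtain ⟨_, ⟨z, hz, rfl⟩, hz'⟩ := this
    have h3 := mul_le_mul_of_nonneg_left (hz u hu) hlam.le
    have h4 : lam • z = y - x + (r / 2) • u := by
      simp only [vadd_eq_add] at hz'
      rw [← sub_eq_zero] at hz' ⊢
      rw [← hz']
      abel
    rw [← real_inner_smul_left, h4, inner_add_left, real_inner_smul_left,
      real_inner_self_eq_norm_sq, hu] at h3
    linarith
  have hpos : ∀ u, ‖u‖ = 1 → r / (2 * lam) ≤ h₂ u := fun u hu => by
    have a1 := hs u hu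
    have a2 := hs (-u) (by rw [norm_neg, hu])
    rw [hev, inner_neg_right] at a2
    rw [div_le_iff₀ (by positivity)]
    linarith
  obtain ⟨μ, t, hμ, ht, hh⟩ := exists_Good hn hZ (by positivity) hpos
  obtain ⟨ν, hν, a, ha, hl⟩ := exists_Half hn hμ
  have f1 : ∀ u, ‖u‖ = 1 → PP i h₂ u = t ^ i * c₀ / a * Hm ν u := fun u hu => by
    rw [step_PdC1 h₀ hμ.mom ht hh u hu, hl u, ← hi]
    field_simp
  have hs1 : 0 < t ^ i * c₀ / a := by positivity
  have f2 : ∀ u, ‖u‖ = 1 →
      Hm μ u = (lam ^ i) ^ i * ((t ^ i * c₀ / a) ^ i * c₀) / t * Qd ν u := fun u hu => by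
    have e := hfix u hu
    rw [step_PdC1 h₀ hν.mom hs1 f1 u hu, hh u hu] at e
    rw [div_mul_eq_mul_div, eq_div_iff ht.ne', mul_comm _ t, e]
    ring
  have := hν.mom.prob
  refine ⟨μ, ν, lam * t, x, ⟨hμ, hν, ⟨a, ha, hl⟩,
    ⟨(lam ^ i) ^ i * ((t ^ i * c₀ / a) ^ i * c₀) / t, by positivity, fun u => ?_⟩⟩,
    by positivity, ?_⟩
  · rcases eq_or_ne u 0 with rfl | hu
    · have e4 := Hm_smul μ 0 (0 : V)
      have e5 := Qd_smul hn ν 0 (0 : V)
      rw [smul_zero, abs_zero, zero_mul] at e4 e5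
      rw [e4, e5, mul_zero]
    · obtain ⟨v, hv, e⟩ := unit_PdC1 hu
      rw [e, Hm_smul, Qd_smul hn, f2 v hv]
      ring
  · rw [hKe, ← Zs_smul _ hlam]
    congr 1
    exact Zs_congr fun u hu => by rw [hh u hu, mul_assoc]

theorem selfProj_of_pair (hn : 1 ≤ finrank ℝ V) {μ ν : Measure V} (h : Pair μ ν) {c : ℝ}
    (hc : 0 < c) (x : V) : SelfProj (x +ᵥ Zs fun u => c * Hm μ u) := by
  obtain ⟨c₀, hc₀, h₀⟩ := PP_Hm (V := V)
  obtain ⟨a, ha, hl⟩ := h.hl
  obtain ⟨a', ha', hr⟩ := h.hr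
  have hC : IsCompact (Zs fun u => c * Hm μ u) :=
    isCompact_Zs (B := c * ∫ x, ‖x‖ ∂μ) fun u hu => by
      have := Hm_le h.gl.mom u
      rw [hu, mul_one] at this
      exact mul_le_mul_of_nonneg_left this hc.le
  have hne : (Zs fun u => c * Hm μ u).Nonempty :=
    ⟨0, fun u _ => by simpa using mul_nonneg hc.le (Hm_nonneg μ u)⟩
  refine (fixed_iff (Nat.sub_le _ 1) (hC.vadd x) ((convex_Zs _).vadd x) hne.vadd_set).2 ?_
  set i := finrank ℝ V - 1 with hi
  have hs1 : 0 < c ^ i * c₀ / a := by positivity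
  have hs2 : 0 < (c ^ i * c₀ / a) ^ i * c₀ / a' := by positivity
  have e1 : projBody i (x +ᵥ Zs fun u => c * Hm μ u) = Zs fun u => c ^ i * c₀ / a * Hm ν u := by
    rw [projBody_eq]
    refine Zs_congr fun u hu => ?_
    have e := vol_proj_affine i u x zero_le_one (Zs fun u => c * Hm μ u)
    rw [one_smul, one_pow, one_mul] at e
    rw [e]
    refine (step_PdC1 h₀ h.gl.mom hc (fun _ _ => rfl) u hu).trans ?_
    rw [hl u, ← hi]
    field_simp
  have e2 : projBody i (Zs fun u => c ^ i * c₀ / a * Hm ν u) =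
      Zs fun u => (c ^ i * c₀ / a) ^ i * c₀ / a' * Hm μ u := by
    rw [projBody_eq]
    refine Zs_congr fun u hu => ?_
    refine (step_PdC1 h₀ h.gr.mom hs1 (fun _ _ => rfl) u hu).trans ?_
    rw [hr u, div_mul_eq_mul_div, eq_div_iff ha'.ne']
    ring
  refine ⟨x, c / ((c ^ i * c₀ / a) ^ i * c₀ / a'), by positivity, ?_⟩
  rw [e1, e2, ← Zs_smul _ (by positivity)]
  congr 2
  funext u
  rw [← mul_assoc, div_mul_cancel₀ _ hs2.ne']

end Pool.Agent.P.MP_181257_gt
end
end

-- part Pool.Agent.P.MP_181257_gt.PdC3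
section

set_option autoImplicit false
set_option linter.unusedSectionVars false
set_option linter.unusedVariables false

open MeasureTheory ProbabilityTheory Module Set Filter Topology Function
open scoped RealInnerProductSpace ENNReal Pointwise LinearAlgebra.Projectivization

noncomputable section

namespace Pool.Agent.P.MP_181257_gt

variable {V : Type} [NormedAddCommGroup V] [InnerProductSpace ℝ V] [FiniteDimensional ℝ V]
  [MeasurableSpace V] [BorelSpace V] {ι : Type} [Fintype ι] [DecidableEq ι]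

theorem support_dir_PdC3 {μ : Measure V} (hμ : Mom μ) (c : ℝ) (m : V)
    (hm : m ∉ interior (Zs fun u => c * Hm μ u)) :
    ∃ u : V, ‖u‖ = 1 ∧ c * Hm μ u ≤ ⟪m, u⟫ := by
  by_contra hcon
  push Not at hcon
  apply hm
  have hφ : Continuous fun u : V => c * Hm μ u - ⟪m, u⟫ :=
    (continuous_const.mul (continuous_Hm hμ)).sub (continuous_const.inner continuous_id)
  obtain ⟨ε, hε, hle⟩ : ∃ ε : ℝ, 0 < ε ∧ ∀ u : V, ‖u‖ = 1 → ε ≤ c * Hm μ u - ⟪m, u⟫ := by
    rcases (Metric.sphere (0 : V) 1).eq_empty_or_nonempty with h | h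
    · refine ⟨1, one_pos, fun u hu => ?_⟩
      have : u ∈ Metric.sphere (0 : V) 1 := by simpa using hu
      rw [h] at this
      exact absurd this (Set.notMem_empty _)
    · obtain ⟨u0, hu0, hmin⟩ := (isCompact_sphere (0 : V) 1).exists_isMinOn h hφ.continuousOn
      have h1 : ‖u0‖ = 1 := by simpa using hu0
      refine ⟨c * Hm μ u0 - ⟪m, u0⟫, sub_pos.2 (hcon u0 h1), fun u hu => ?_⟩
      exact hmin (show u ∈ Metric.sphere (0 : V) 1 by simpa using hu)
  refine mem_interior.2 ⟨Metric.ball m ε, ?_, Metric.isOpen_ball, Metric.mem_ball_self hε⟩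
  intro w hw u hu
  have h1 : ‖w - m‖ < ε := by simpa [dist_eq_norm] using hw
  have h2 : ⟪w - m, u⟫ ≤ ‖w - m‖ * ‖u‖ := real_inner_le_norm _ _
  rw [hu, mul_one, inner_sub_left] at h2
  have h3 := hle u hu
  show ⟪w, u⟫ ≤ c * Hm μ u
  linarith

theorem abs_aux_PdC3 (a b : ℝ) : |a + b| + |a - b| - 2 * |a| ≤ 2 * |b| := by
  have h1 := abs_add_le a b
  have h2 := abs_sub a b
  linarith

theorem abs_aux2_PdC3 (a b : ℝ) : 0 ≤ |a + b| + |a - b| - 2 * |a| := by
  have h1 := abs_add_le (a + b) (a - b)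
  have h2 : a + b + (a - b) = 2 * a := by ring
  rw [h2, abs_mul, abs_two] at h1
  linarith

theorem abs_aux3_PdC3 (a b : ℝ) (h : |b| ≤ |a|) : |a + b| + |a - b| - 2 * |a| = 0 := by
  have hb := abs_le.1 h
  rcases le_total 0 a with ha | ha
  · rw [abs_of_nonneg ha] at hb ⊢
    rw [abs_of_nonneg (by linarith [hb.1]), abs_of_nonneg (by linarith [hb.2])]
    ring
  · rw [abs_of_nonpos ha] at hb ⊢
    rw [abs_of_nonpos (by linarith [hb.2]), abs_of_nonpos (by linarith [hb.1])]
    ring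

theorem tendsto_PdC3 {μ : Measure V} (hμ : Mom μ) (u v : V) (hu : μ {x | ⟪u, x⟫ = 0} = 0) :
    Tendsto (fun n : ℕ => ((n : ℝ) + 1) *
      (Hm μ (u + (1 / ((n : ℝ) + 1)) • v) + Hm μ (u - (1 / ((n : ℝ) + 1)) • v) - 2 * Hm μ u))
      atTop (𝓝 0) := by
  set F : ℕ → V → ℝ := fun n x => ((n : ℝ) + 1) *
    (|⟪u + (1 / ((n : ℝ) + 1)) • v, x⟫| + |⟪u - (1 / ((n : ℝ) + 1)) • v, x⟫| - 2 * |⟪u, x⟫|)
    with hF
  have hint : ∀ n, Integrable (F n) μ := fun n =>
    (((integrable_Hm hμ _).add (integrable_Hm hμ _)).sub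
      ((integrable_Hm hμ u).const_mul 2)).const_mul _
  have hval : ∀ n : ℕ, ∫ x, F n x ∂μ = ((n : ℝ) + 1) *
      (Hm μ (u + (1 / ((n : ℝ) + 1)) • v) + Hm μ (u - (1 / ((n : ℝ) + 1)) • v)
        - 2 * Hm μ u) := by
    intro n
    have hi : Integrable (fun x => |⟪u + (1 / ((n : ℝ) + 1)) • v, x⟫| +
        |⟪u - (1 / ((n : ℝ) + 1)) • v, x⟫|) μ := (integrable_Hm hμ _).add (integrable_Hm hμ _)
    simp only [hF, Hm]
    rw [integral_const_mul, integral_sub hi
      ((integrable_Hm hμ u).const_mul 2), integral_add (integrable_Hm hμ _) (integrable_Hm hμ _),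
      integral_const_mul]
  have hform : ∀ (n : ℕ) x, F n x = ((n : ℝ) + 1) *
      (|⟪u, x⟫ + (1 / ((n : ℝ) + 1)) * ⟪v, x⟫| + |⟪u, x⟫ - (1 / ((n : ℝ) + 1)) * ⟪v, x⟫|
        - 2 * |⟪u, x⟫|) := by
    intro n x
    simp only [hF, inner_add_left, inner_sub_left, real_inner_smul_left]
  have key : Tendsto (fun n : ℕ => ∫ x, F n x ∂μ) atTop (𝓝 (∫ x, (0 : ℝ) ∂μ)) := by
    refine tendsto_integral_of_dominated_convergence (fun x => 2 * |⟪v, x⟫|)
      (fun n => (hint n).aestronglyMeasurable) ((integrable_Hm hμ v).const_mul 2)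
      (fun n => Eventually.of_forall fun x => ?_) ?_
    · have hn : (0 : ℝ) < (n : ℝ) + 1 := by positivity
      rw [hform, Real.norm_eq_abs, abs_of_nonneg (mul_nonneg hn.le (abs_aux2_PdC3 _ _))]
      have h1 := abs_aux_PdC3 ⟪u, x⟫ ((1 / ((n : ℝ) + 1)) * ⟪v, x⟫)
      have h2 : |(1 / ((n : ℝ) + 1)) * ⟪v, x⟫| = (1 / ((n : ℝ) + 1)) * |⟪v, x⟫| := by
        rw [abs_mul, abs_of_pos (by positivity)]
      rw [h2] at h1
      calc _ ≤ ((n : ℝ) + 1) * (2 * ((1 / ((n : ℝ) + 1)) * |⟪v, x⟫|)) :=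
            mul_le_mul_of_nonneg_left h1 hn.le
        _ = 2 * |⟪v, x⟫| := by field_simp
    · have hae : ∀ᵐ x ∂μ, ⟪u, x⟫ ≠ 0 := by
        rw [ae_iff]
        simpa using hu
      filter_upwards [hae] with x hx
      have hpos : 0 < |⟪u, x⟫| := abs_pos.2 hx
      obtain ⟨N, hN⟩ := exists_nat_ge (|⟪v, x⟫| / |⟪u, x⟫|)
      refine tendsto_const_nhds.congr' ?_
      filter_upwards [eventually_ge_atTop N] with n hn
      have hn0 : (0 : ℝ) < (n : ℝ) + 1 := by positivity
      have hn1 : (N : ℝ) ≤ n := by exact_mod_cast hn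
      rw [hform, abs_aux3_PdC3, mul_zero]
      rw [abs_mul, abs_of_pos (by positivity : (0 : ℝ) < 1 / ((n : ℝ) + 1)), one_div,
        inv_mul_le_iff₀ hn0]
      rw [div_le_iff₀ hpos] at hN
      nlinarith
  rw [integral_zero] at key
  exact key.congr hval

theorem strict_Zs {μ : Measure V} (hμ : Good μ) {c : ℝ} (hc : 0 < c)
    (hg : ∀ u : V, u ≠ 0 → μ {x | ⟪u, x⟫ = 0} = 0) :
    StrictConvex ℝ (Zs fun u => c * Hm μ u) := by
  intro z hz z' hz' hne a b ha hb hab
  by_contra hm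
  obtain ⟨u, hu, hle⟩ := support_dir_PdC3 hμ.mom c _ hm
  have hzz := (mem_Zs_iff c z).1 hz
  have hzz' := (mem_Zs_iff c z').1 hz'
  have hu0 : u ≠ 0 := by
    intro h
    rw [h, norm_zero] at hu
    exact zero_ne_one hu
  rw [inner_add_left, real_inner_smul_left, real_inner_smul_left] at hle
  have h1 := hzz u
  have h2 := hzz' u
  have hsum : c * Hm μ u = a * (c * Hm μ u) + b * (c * Hm μ u) := by
    rw [← add_mul, hab, one_mul]
  have e1 : ⟪z, u⟫ = c * Hm μ u := by
    by_contra h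
    have h3 : ⟪z, u⟫ < c * Hm μ u := lt_of_le_of_ne h1 h
    have h4 := mul_lt_mul_of_pos_left h3 ha
    have h5 := mul_le_mul_of_nonneg_left h2 hb.le
    linarith
  have e2 : ⟪z', u⟫ = c * Hm μ u := by
    by_contra h
    have h3 : ⟪z', u⟫ < c * Hm μ u := lt_of_le_of_ne h2 h
    have h4 := mul_lt_mul_of_pos_left h3 hb
    have h5 := mul_le_mul_of_nonneg_left h1 ha.le
    linarith
  have hlim := (tendsto_PdC3 hμ.mom u (z - z') (hg u hu0)).const_mul c
  rw [mul_zero] at hlim
  have hge : ⟪z - z', z - z'⟫ ≤ (0 : ℝ) := by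
    refine ge_of_tendsto' hlim fun n => ?_
    have hn : (0 : ℝ) < (n : ℝ) + 1 := by positivity
    have k1 := hzz (u + (1 / ((n : ℝ) + 1)) • (z - z'))
    have k2 := hzz' (u - (1 / ((n : ℝ) + 1)) • (z - z'))
    rw [inner_add_right, real_inner_smul_right, e1] at k1
    rw [inner_sub_right, real_inner_smul_right, e2] at k2
    have k3 : ⟪z - z', z - z'⟫ = ⟪z, z - z'⟫ - ⟪z', z - z'⟫ := inner_sub_left _ _ _
    have k4 : (1 / ((n : ℝ) + 1)) * ⟪z - z', z - z'⟫ ≤
        c * (Hm μ (u + (1 / ((n : ℝ) + 1)) • (z - z')) +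
          Hm μ (u - (1 / ((n : ℝ) + 1)) • (z - z')) - 2 * Hm μ u) := by
      rw [k3]
      linarith
    have k5 := mul_le_mul_of_nonneg_left k4 hn.le
    have k6 : ((n : ℝ) + 1) * ((1 / ((n : ℝ) + 1)) * ⟪z - z', z - z'⟫) = ⟪z - z', z - z'⟫ := by
      field_simp
    rw [k6] at k5
    linarith
  have : z - z' = 0 := real_inner_self_nonpos.1 hge
  exact hne (sub_eq_zero.1 this)

end Pool.Agent.P.MP_181257_gt
end
end

-- part Pool.Agent.P.MP_181257_gt.PdH1
section

set_option autoImplicit false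
set_option linter.unusedSectionVars false
set_option linter.unusedVariables false

open MeasureTheory ProbabilityTheory Module Set Filter Topology Function
open scoped RealInnerProductSpace ENNReal Pointwise LinearAlgebra.Projectivization

noncomputable section

namespace Pool.Agent.P.MP_181257_gt

variable {V : Type} [NormedAddCommGroup V] [InnerProductSpace ℝ V] [FiniteDimensional ℝ V]
  [MeasurableSpace V] [BorelSpace V] {ι : Type} [Fintype ι] [DecidableEq ι]

theorem Qm_two_PdH1 (b : OrthonormalBasis (Fin 2) ℝ V) (μ : Measure V) [IsProbabilityMeasure μ]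
    (u : V) : Qm b.toBasis 0 μ u = Hm μ (⟪b 1, u⟫ • b 0 - ⟪b 0, u⟫ • b 1) := by
  have h1 : ∀ x : Fin 2 → V, |b.toBasis.det (update x 0 u)| =
      |⟪⟪b 1, u⟫ • b 0 - ⟪b 0, u⟫ • b 1, x 1⟫| := by
    intro x
    rw [Basis.det_apply, Matrix.det_fin_two, ← abs_neg]
    simp only [Basis.toMatrix_apply, OrthonormalBasis.coe_toBasis_repr_apply,
      OrthonormalBasis.repr_apply_apply, update_self, inner_sub_left, real_inner_smul_left]
    rw [update_of_ne (by decide)]
    congr 1
    ring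
  have h2 := measurePreserving_eval (fun _ : Fin 2 => μ) 1
  unfold Qm Hm
  simp only [h1]
  conv_rhs => rw [← h2.map_eq]
  rw [integral_map h2.measurable.aemeasurable (Continuous.aestronglyMeasurable (by fun_prop))]

/-- in dimension at most two every measure is part of a pair -/
theorem pair_low (h1 : 1 ≤ finrank ℝ V) (h2 : finrank ℝ V ≤ 2) {μ : Measure V} (hμ : Good μ) :
    ∃ ν : Measure V, Pair μ ν := by
  obtain ⟨ν, hν, a, ha, h⟩ := exists_Half h1 hμ
  refine ⟨ν, hμ, hν, ⟨a, ha, h⟩, ?_⟩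
  have i1 := hμ.mom.prob
  have i2 := hν.mom.prob
  rcases h1.lt_or_eq with h3 | h3
  · have h4 : finrank ℝ V = 2 := by omega
    let b : OrthonormalBasis (Fin 2) ℝ V := (stdOrthonormalBasis ℝ V).reindex (finCongr h4)
    obtain ⟨c, hc, hq⟩ := Qm_eq_Qd b.toBasis 0
    refine ⟨c * c / a, by positivity, fun u => ?_⟩
    have e1 := (hq ν u).symm.trans (Qm_two_PdH1 b ν u)
    have e2 := (hq μ (⟪b 1, u⟫ • b 0 - ⟪b 0, u⟫ • b 1)).symm.trans (Qm_two_PdH1 b μ _)
    have e3 : ⟪b 1, ⟪b 1, u⟫ • b 0 - ⟪b 0, u⟫ • b 1⟫ • b 0 -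
        ⟪b 0, ⟪b 1, u⟫ • b 0 - ⟪b 0, u⟫ • b 1⟫ • b 1 = (-1 : ℝ) • u := by
      have o := orthonormal_iff_ite.1 b.orthonormal
      have s := b.sum_repr' u
      rw [Fin.sum_univ_two] at s
      simp only [inner_sub_right, real_inner_smul_right, o]
      simp only [Fin.isValue, one_ne_zero, zero_ne_one, if_false, if_true, mul_zero, mul_one,
        zero_sub, sub_zero]
      conv_rhs => rw [← s]
      module
    rw [e3, Hm_smul, abs_neg, abs_one, one_mul] at e2
    rw [h] at e1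
    rw [← e2, div_mul_eq_mul_div, mul_assoc, e1, eq_div_iff ha.ne']
    ring
  · obtain ⟨v, hv, hs⟩ := finrank_eq_one_iff'.1 h3.symm
    have p1 := hμ.pos v hv
    have p2 := Qd_pos hν hv
    refine ⟨Hm μ v / Qd ν v, by positivity, fun u => ?_⟩
    obtain ⟨t, rfl⟩ := hs u
    rw [Hm_smul, Qd_smul h1]
    field_simp

end Pool.Agent.P.MP_181257_gt
end
end

-- part Pool.Agent.P.MP_181257_gt.PdH1b
section

set_option autoImplicit false
set_option linter.unusedSectionVars false
set_option linter.unusedVariables false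

open MeasureTheory ProbabilityTheory Module Set Filter Topology Function
open scoped RealInnerProductSpace ENNReal Pointwise LinearAlgebra.Projectivization

noncomputable section

namespace Pool.Agent.P.MP_181257_gt

variable {V : Type} [NormedAddCommGroup V] [InnerProductSpace ℝ V] [FiniteDimensional ℝ V]
  [MeasurableSpace V] [BorelSpace V] {ι : Type} [Fintype ι] [DecidableEq ι]

theorem eq_Zs_PdH1b {C : Set V} (hC : IsCompact C) (hc : Convex ℝ C) (hne : C.Nonempty)
    {h : V → ℝ} (hle : ∀ u, ∀ y ∈ C, ⟪y, u⟫ ≤ h u) (hat : ∀ u, ∃ y ∈ C, ⟪y, u⟫ = h u) :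
    C = Zs h := by
  have := FiniteDimensional.complete ℝ V
  refine Subset.antisymm (fun y hy u _ => hle u y hy) fun x hx => ?_
  by_contra hxC
  obtain ⟨f, r, h1, h2⟩ := geometric_hahn_banach_closed_point hc hC.isClosed hxC
  set w : V := (InnerProductSpace.toDual ℝ V).symm f with hw
  have hf : ∀ y, ⟪y, w⟫ = f y := fun y => by
    rw [real_inner_comm, hw, InnerProductSpace.toDual_symm_apply]
  have hw0 : w ≠ 0 := by
    intro e
    obtain ⟨y, hy⟩ := hne
    have a1 := h1 y hy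
    rw [← hf, e, inner_zero_right] at a1
    rw [← hf, e, inner_zero_right] at h2
    linarith
  have hn : 0 < ‖w‖⁻¹ := inv_pos.2 (norm_pos_iff.2 hw0)
  have h3 := hx (‖w‖⁻¹ • w) (norm_smul_inv_norm hw0)
  obtain ⟨y, hy, e⟩ := hat (‖w‖⁻¹ • w)
  rw [← e, real_inner_smul_right, real_inner_smul_right, hf, hf] at h3
  have h4 := le_of_mul_le_mul_left h3 hn
  have h5 := h1 y hy
  linarith

theorem vol_seg_PdH1b {C : Set V} (hc : Convex ℝ C) (hs : ∀ y ∈ C, -y ∈ C) {u : V} (hu : ‖u‖ = 1)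
    {r : ℝ} (hr : 0 < r) (hle : ∀ y ∈ C, ⟪y, u⟫ ≤ r) (hat : ∃ y ∈ C, ⟪y, u⟫ = r) :
    intrinsicVol 1 ((fun v => ⟪v, u⟫ • u) '' C) = 2 * c0 * r := by
  obtain ⟨m, hm, em⟩ := hat
  have hseg : ∀ t : ℝ, |t| ≤ r → ∃ v ∈ C, ⟪v, u⟫ = t := by
    intro t ht
    obtain ⟨t1, t2⟩ := abs_le.1 ht
    refine ⟨((r + t) / (2 * r)) • m + ((r - t) / (2 * r)) • (-m),
      hc hm (hs m hm) (div_nonneg (by linarith) (by linarith))
        (div_nonneg (by linarith) (by linarith)) (by field_simp; ring), ?_⟩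
    rw [inner_add_left, real_inner_smul_left, real_inner_smul_left, inner_neg_left, em]
    field_simp
    ring
  have habs : ∀ y ∈ C, |⟪y, u⟫| ≤ r := by
    intro y hy
    have a1 := hle y hy
    have a2 := hle _ (hs y hy)
    rw [inner_neg_left] at a2
    exact abs_le.2 ⟨by linarith, a1⟩
  have key : ∀ g : Fin 1 → V, (volume (lin g '' ((fun v => ⟪v, u⟫ • u) '' C))).toReal
      = 2 * r * |⟪u, g 0⟫| := by
    intro g
    have e : lin g '' ((fun v => ⟪v, u⟫ • u) '' C)
        = Icc (fun _ => -(r * |⟪u, g 0⟫|)) (fun _ => r * |⟪u, g 0⟫|) := by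
      ext z
      constructor
      · rintro ⟨_, ⟨v, hv, rfl⟩, rfl⟩
        have a1 : |⟪v, u⟫ * ⟪u, g 0⟫| ≤ r * |⟪u, g 0⟫| := by
          rw [abs_mul]
          exact mul_le_mul_of_nonneg_right (habs v hv) (abs_nonneg _)
        obtain ⟨a2, a3⟩ := abs_le.1 a1
        constructor
        · intro j
          rw [Subsingleton.elim j 0, lin_apply, real_inner_smul_right, real_inner_comm u (g 0)]
          exact a2
        · intro j
          rw [Subsingleton.elim j 0, lin_apply, real_inner_smul_right, real_inner_comm u (g 0)]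
          exact a3
      · rintro ⟨a2, a3⟩
        have a1 : |z 0| ≤ r * |⟪u, g 0⟫| := abs_le.2 ⟨a2 0, a3 0⟩
        have : ∃ t : ℝ, |t| ≤ r ∧ t * ⟪u, g 0⟫ = z 0 := by
          by_cases hk : ⟪u, g 0⟫ = (0 : ℝ)
          · rw [hk, abs_zero, mul_zero] at a1
            refine ⟨0, by simpa using hr.le, ?_⟩
            rw [zero_mul]
            exact (abs_nonpos_iff.1 a1).symm
          · refine ⟨z 0 / ⟪u, g 0⟫, ?_, by field_simp⟩
            rw [abs_div, div_le_iff₀ (abs_pos.2 hk)]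
            exact a1
        obtain ⟨t, ht, et⟩ := this
        obtain ⟨v, hv, ev⟩ := hseg t ht
        refine ⟨_, ⟨v, hv, rfl⟩, ?_⟩
        funext j
        rw [Subsingleton.elim j 0, lin_apply, real_inner_smul_right, real_inner_comm u (g 0), ev,
          et]
    have hp : 0 ≤ r * |⟪u, g 0⟫| := mul_nonneg hr.le (abs_nonneg _)
    rw [e, Real.volume_Icc_pi_toReal (fun _ => by linarith)]
    simp only [Finset.univ_unique, Finset.prod_singleton]
    ring
  rw [intrinsicVol_eq]
  simp only [key]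
  rw [integral_const_mul]
  have e2 : ∫ g : Fin 1 → V, |⟪u, g 0⟫| ∂(γk V 1) = ∫ x, |⟪u, x⟫| ∂(stdGaussian V) :=
    (measurePreserving_funUnique (stdGaussian V) (Fin 1)).integral_comp' fun x => |⟪u, x⟫|
  rw [e2, integral_abs_inner, hu]
  ring

theorem zon_one_PdH1b (h1 : finrank ℝ V = 1) {C : Set V} (hs : ∀ y ∈ C, -y ∈ C)
    {h : V → ℝ} (hle : ∀ u, ∀ y ∈ C, ⟪y, u⟫ ≤ h u) (hat : ∀ u, ∃ y ∈ C, ⟪y, u⟫ = h u) :
    Zon h := by
  intro κ s c u hu H
  let b : OrthonormalBasis (Fin 1) ℝ V := (stdOrthonormalBasis ℝ V).reindex (finCongr h1)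
  have hin : ∀ x y : V, ⟪x, y⟫ = ⟪x, b 0⟫ * ⟪b 0, y⟫ := fun x y => by
    rw [← b.sum_inner_mul_inner x y]
    simp
  obtain ⟨m, hm, em⟩ := hat (b 0)
  have habs : ∀ y ∈ C, |⟪y, b 0⟫| ≤ |⟪m, b 0⟫| := by
    intro y hy
    have a1 := hle (b 0) y hy
    have a2 := hle (b 0) _ (hs y hy)
    rw [inner_neg_left] at a2
    rw [em]
    exact (abs_le.2 ⟨by linarith, a1⟩).trans (le_abs_self _)
  have e : ∀ j, h (u j) = |⟪u j, m⟫| := by
    intro j
    rw [real_inner_comm]
    apply le_antisymm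
    · obtain ⟨y, hy, ey⟩ := hat (u j)
      rw [← ey]
      refine (le_abs_self _).trans ?_
      rw [hin y, hin m, abs_mul, abs_mul]
      exact mul_le_mul_of_nonneg_right (habs y hy) (abs_nonneg _)
    · have a1 := hle (u j) m hm
      have a2 := hle (u j) _ (hs m hm)
      rw [inner_neg_left] at a2
      exact abs_le.2 ⟨by linarith, a1⟩
  simp only [e]
  exact H m

theorem zon_two_PdH1b (h2 : finrank ℝ V = 2) {C : Set V} (hC : IsCompact C) (hc : Convex ℝ C)
    (hne : C.Nonempty) (hs : ∀ y ∈ C, -y ∈ C) {h : V → ℝ} (hpos : ∀ u, ‖u‖ = 1 → 0 < h u)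
    (hle : ∀ u, ∀ y ∈ C, ⟪y, u⟫ ≤ h u) (hat : ∀ u, ∃ y ∈ C, ⟪y, u⟫ = h u) :
    Zon h := by
  intro κ s c u hu H
  let b : OrthonormalBasis (Fin 2) ℝ V := (stdOrthonormalBasis ℝ V).reindex (finCongr h2)
  have hin : ∀ x y : V, ⟪x, y⟫ = ⟪b 0, x⟫ * ⟪b 0, y⟫ + ⟪b 1, x⟫ * ⟪b 1, y⟫ := fun x y => by
    rw [← b.sum_inner_mul_inner x y, Fin.sum_univ_two, real_inner_comm (b 0) x,
      real_inner_comm (b 1) x]
  have hext : ∀ x y : V, ⟪b 0, x⟫ = ⟪b 0, y⟫ → ⟪b 1, x⟫ = ⟪b 1, y⟫ → x = y := by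
    intro x y e0 e1
    rw [← b.sum_repr' x, ← b.sum_repr' y, Fin.sum_univ_two, Fin.sum_univ_two, e0, e1]
  have b00 : ⟪b 0, b 0⟫ = (1 : ℝ) := by simp
  have b11 : ⟪b 1, b 1⟫ = (1 : ℝ) := by simp
  have b01 : ⟪b 0, b 1⟫ = (0 : ℝ) := b.orthonormal.2 (by decide)
  have b10 : ⟪b 1, b 0⟫ = (0 : ℝ) := b.orthonormal.2 (by decide)
  let J : V → V := fun x => ⟪b 1, x⟫ • b 0 - ⟪b 0, x⟫ • b 1
  have J0 : ∀ x, ⟪b 0, J x⟫ = ⟪b 1, x⟫ := fun x => by
    simp only [J, inner_sub_right, real_inner_smul_right, b00, b01]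
    ring
  have J1 : ∀ x, ⟪b 1, J x⟫ = -⟪b 0, x⟫ := fun x => by
    simp only [J, inner_sub_right, real_inner_smul_right, b11, b10]
    ring
  have hsq : ∀ x : V, ‖x‖ = 1 → ⟪b 0, x⟫ * ⟪b 0, x⟫ + ⟪b 1, x⟫ * ⟪b 1, x⟫ = (1 : ℝ) := by
    intro x hx
    rw [← hin, real_inner_self_eq_norm_sq, hx]
    norm_num
  have hJn : ∀ x : V, ‖x‖ = 1 → ‖J x‖ = 1 := by
    intro x hx
    have a1 : ‖J x‖ ^ 2 = 1 := by
      rw [← real_inner_self_eq_norm_sq, hin, J0, J1]
      have := hsq x hx
      linarith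
    have a2 := norm_nonneg (J x)
    nlinarith
  have hpr : ∀ x : V, ‖x‖ = 1 → pr (J x) = fun v => ⟪v, x⟫ • x := by
    intro x hx
    funext v
    have a1 := hsq x hx
    apply hext
    · rw [pr, hJn x hx, inner_sub_right, real_inner_smul_right, real_inner_smul_right, J0,
        hin (J x) v, hin v x, J0, J1]
      linear_combination (-⟪b 0, v⟫) * a1
    · rw [pr, hJn x hx, inner_sub_right, real_inner_smul_right, real_inner_smul_right, J1,
        hin (J x) v, hin v x, J0, J1]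
      linear_combination (-⟪b 1, v⟫) * a1
  have Z := zon_proj 1 hC hc hne κ s c (fun j => J (u j)) (fun j => hJn _ (hu j)) (by
    intro y
    have a1 : ∀ j, |⟪J (u j), y⟫| = |⟪u j, J y⟫| := by
      intro j
      rw [← abs_neg, hin (J (u j)) y, hin (u j) (J y), J0, J1, J0, J1]
      congr 1
      ring
    simp only [a1]
    exact H (J y))
  have e : ∀ j, intrinsicVol 1 (pr (J (u j)) '' C) = 2 * c0 * h (u j) := by
    intro j
    rw [hpr _ (hu j)]
    exact vol_seg_PdH1b hc hs (hu j) (hpos _ (hu j)) (hle _) (hat _)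
  simp only [e] at Z
  have e2 : ∑ j ∈ s, c j * (2 * c0 * h (u j)) = 2 * c0 * ∑ j ∈ s, c j * h (u j) := by
    rw [Finset.mul_sum]
    exact Finset.sum_congr rfl fun j _ => by ring
  rw [e2] at Z
  have := c0_pos
  exact nonneg_of_mul_nonneg_right Z (by linarith) |> fun a => a

/-- symmetric bodies of dimension at most two are zonoids -/
theorem zonoid_low (h1 : 1 ≤ finrank ℝ V) (h2 : finrank ℝ V ≤ 2) {C : Set V} (hC : IsCompact C)
    (hc : Convex ℝ C) (hint : (interior C).Nonempty) (hs : -C = C) :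
    ∃ (μ : Measure V) (c : ℝ), Good μ ∧ 0 < c ∧ C = Zs fun u => c * Hm μ u := by
  have hs' : ∀ y ∈ C, -y ∈ C := by
    intro y hy
    rw [← hs]
    simpa using hy
  have hne : C.Nonempty := hint.mono interior_subset
  have hmax : ∀ u : V, ∃ m ∈ C, ∀ y ∈ C, ⟪y, u⟫ ≤ ⟪m, u⟫ := by
    intro u
    obtain ⟨m, hm, h⟩ := hC.exists_isMaxOn hne (f := fun y => ⟪y, u⟫) (by fun_prop)
    exact ⟨m, hm, fun y hy => h hy⟩
  choose m hm hle using hmax
  have h0 : (0 : V) ∈ interior C := by
    obtain ⟨z, hz⟩ := hint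
    have hz' : -z ∈ C := hs' z (interior_subset hz)
    have := hc.combo_interior_self_mem_interior hz hz' (a := 1 / 2) (b := 1 / 2) (by norm_num)
      (by norm_num) (by norm_num)
    simpa using this
  obtain ⟨ε, hε, hb⟩ := Metric.mem_nhds_iff.1 (mem_interior_iff_mem_nhds.1 h0)
  have hlow : ∀ u : V, ‖u‖ = 1 → ε / 2 ≤ ⟪m u, u⟫ := by
    intro u hu
    have a1 : (ε / 2) • u ∈ C := by
      apply hb
      rw [mem_ball_zero_iff, norm_smul, hu, Real.norm_of_nonneg (by linarith)]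
      linarith
    have a2 := hle u _ a1
    rw [real_inner_smul_left, real_inner_self_eq_norm_sq, hu] at a2
    linarith
  have hat : ∀ u : V, ∃ y ∈ C, ⟪y, u⟫ = (fun u => ⟪m u, u⟫) u := fun u => ⟨m u, hm u, rfl⟩
  have hZ : Zon fun u : V => ⟪m u, u⟫ := by
    rcases (by omega : finrank ℝ V = 1 ∨ finrank ℝ V = 2) with e | e
    · exact zon_one_PdH1b e hs' hle hat
    · exact zon_two_PdH1b e hC hc hne hs' (fun u hu => by have := hlow u hu; linarith) hle hat
  obtain ⟨μ, t, hμ, ht, e⟩ := exists_Good h1 hZ (half_pos hε) hlow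
  refine ⟨μ, t, hμ, ht, ?_⟩
  rw [← Zs_congr e]
  exact eq_Zs_PdH1b hC hc hne hle hat

end Pool.Agent.P.MP_181257_gt
end
end

-- part Pool.Agent.P.MP_181257_gt.PdH2
section

set_option autoImplicit false
set_option linter.unusedSectionVars false
set_option linter.unusedVariables false

open MeasureTheory ProbabilityTheory Module Set Filter Topology Function
open scoped RealInnerProductSpace ENNReal Pointwise LinearAlgebra.Projectivization

noncomputable section

namespace Pool.Agent.P.MP_181257_gt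

variable {V : Type} [NormedAddCommGroup V] [InnerProductSpace ℝ V] [FiniteDimensional ℝ V]
  [MeasurableSpace V] [BorelSpace V] {ι : Type} [Fintype ι] [DecidableEq ι]

theorem cards_PdH2 (b : Basis ι ℝ V) {E F : Submodule ℝ V} [DecidablePred (· ∈ E)]
    (hEF : IsCompl E F) {x : ι → V} (hx : b.det x ≠ 0) (hm : ∀ i, x i ∈ E ∨ x i ∈ F) :
    (Finset.univ.filter fun j => x j ∈ E).card = finrank ℝ E ∧
      (Finset.univ.filter fun j => ¬ x j ∈ E).card = finrank ℝ F := by
  have h1 : (Finset.univ.filter fun j => x j ∈ E).card ≤ finrank ℝ E := by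
    by_contra hn
    exact hx (bdet_zero_of_card b (U := E) (fun i hi => (Finset.mem_filter.1 hi).2) (not_le.1 hn))
  have h2 : (Finset.univ.filter fun j => ¬ x j ∈ E).card ≤ finrank ℝ F := by
    by_contra hn
    exact hx (bdet_zero_of_card b (U := F)
      (fun i hi => (hm i).resolve_left (Finset.mem_filter.1 hi).2) (not_le.1 hn))
  have h3 := Finset.card_filter_add_card_filter_not (s := (Finset.univ : Finset ι))
    fun j => x j ∈ E
  have h4 := Submodule.finrank_add_eq_of_isCompl hEF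
  have h5 := Module.finrank_eq_card_basis b
  rw [Finset.card_univ] at h3
  omega

theorem nv_iff_PdH2 (b : Basis ι ℝ V) {E F : Submodule ℝ V}
    (hEF : IsCompl E F) {x : ι → V} (hx : b.det x ≠ 0) (hm : ∀ i, x i ∈ E ∨ x i ∈ F) (j : ι) :
    Nv b j x ∈ Fᗮ ↔ x j ∈ E := by
  classical
  constructor
  · intro h
    by_contra hn
    have h1 := (Submodule.mem_orthogonal F _).1 h _ ((hm j).resolve_left hn)
    rw [inner_Nv_self, if_pos rfl] at h1
    exact hx h1
  · intro h
    rw [Submodule.mem_orthogonal]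
    intro y hy
    rw [inner_Nv]
    refine bdet_zero_of_card b (U := F) (S := insert j (Finset.univ.filter fun j => ¬ x j ∈ E))
      (fun i hi => ?_) ?_
    · by_cases hij : i = j
      · rw [hij, update_self]
        exact hy
      · rw [update_of_ne hij]
        exact (hm i).resolve_left
          (Finset.mem_filter.1 ((Finset.mem_insert.1 hi).resolve_left hij)).2
    · rw [Finset.card_insert_of_notMem (by simp [h]), (cards_PdH2 b hEF hx hm).2]
      omega

theorem lsum_PdH2 (b : Basis ι ℝ V) {μ : Measure V} [IsProbabilityMeasure μ]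
    {E F : Submodule ℝ V} (hEF : IsCompl E F) (hs : μ ((E : Set V) ∪ (F : Set V))ᶜ = 0)
    {g : ι → (ι → V) → ℝ≥0∞} (hg : ∀ j, Measurable (g j))
    (hgj : ∀ x, b.det x ≠ 0 → (∀ i, x i ∈ E ∨ x i ∈ F) → ∀ j,
      g j x = (E : Set V).indicator 1 (x j)) :
    ∑ j, ∫⁻ x, g j x * ENNReal.ofReal |b.det x| ∂(pw μ ι)
      = finrank ℝ E * ∫⁻ x, ENNReal.ofReal |b.det x| ∂(pw μ ι) := by
  classical
  have hd : Measurable fun x : ι → V => ENNReal.ofReal |b.det x| :=
    (continuous_bdet b).abs.measurable.ennreal_ofReal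
  rw [← lintegral_finsetSum _ fun j _ => (hg j).fun_mul hd, ← lintegral_const_mul _ hd]
  refine lintegral_congr_ae ?_
  have h1 : ∀ᵐ y ∂μ, y ∈ E ∨ y ∈ F := hs
  filter_upwards [ae_pw (ι := ι) h1] with x hm
  by_cases hx : b.det x = 0
  · simp [hx]
  · rw [← Finset.sum_mul, ← (cards_PdH2 b hEF hx hm).1]
    congr 1
    rw [Finset.sum_congr rfl fun j _ => hgj x hx hm j]
    simp [Set.indicator_apply]

theorem real_PdH2 {ν : Measure V} {f : V → ℝ} (hf : Continuous f) (h0 : ∀ w, 0 ≤ f w)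
    {S : Set V} (hS : MeasurableSet S) {n m : ℕ}
    (h : (n : ℝ≥0∞) * ∫⁻ w, S.indicator 1 w * ENNReal.ofReal (f w) ∂ν
      = m * ∫⁻ w, ENNReal.ofReal (f w) ∂ν) :
    (n : ℝ) * ∫ w in S, f w ∂ν = m * ∫ w, f w ∂ν := by
  have h1 : ∫⁻ w, S.indicator 1 w * ENNReal.ofReal (f w) ∂ν
      = ∫⁻ w in S, ENNReal.ofReal (f w) ∂ν := by
    rw [← lintegral_indicator hS]
    refine lintegral_congr fun w => ?_
    by_cases hw : w ∈ S <;> simp [hw]
  rw [integral_eq_lintegral_of_nonneg_ae (ae_of_all _ h0) hf.aestronglyMeasurable,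
    integral_eq_lintegral_of_nonneg_ae (ae_of_all _ h0) hf.aestronglyMeasurable, ← h1]
  have h2 := congrArg ENNReal.toReal h
  simpa only [ENNReal.toReal_mul, ENNReal.toReal_natCast] using h2

theorem triv_PdH2 (E : Submodule ℝ V) (h : finrank ℝ V = 0) (s t : ℝ) :
    (finrank ℝ V : ℝ) * s = finrank ℝ E * t := by
  have h1 := Submodule.finrank_le E
  have h2 : finrank ℝ E = 0 := by omega
  rw [h, h2]
  simp

theorem count_nv {μ ν : Measure V} (hμ : Good μ) (hν : Good ν) (h : Half μ ν)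
    {E F : Submodule ℝ V} (hEF : IsCompl E F) (hs : μ ((E : Set V) ∪ (F : Set V))ᶜ = 0) :
    (finrank ℝ V : ℝ) * ∫ w in (Fᗮ : Set V), Hm μ w ∂ν = finrank ℝ E * ∫ w, Hm μ w ∂ν := by
  have := hμ.mom.prob
  rcases Nat.eq_zero_or_pos (finrank ℝ V) with h0 | h0
  · exact triv_PdH2 E h0 _ _
  let b := Module.finBasis ℝ V
  obtain ⟨a, ha, -, htr⟩ := h.transfer b hμ.mom hν.mom
  have hS : MeasurableSet (Fᗮ : Set V) := (Submodule.closed_of_finiteDimensional _).measurableSet
  have hH : Measurable fun w => ENNReal.ofReal (Hm μ w) :=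
    (continuous_Hm hμ.mom).measurable.ennreal_ofReal
  have hψ : Measurable ((Fᗮ : Set V).indicator (1 : V → ℝ≥0∞)) := measurable_one.indicator hS
  have h1 : ∀ j, ∫⁻ w, (Fᗮ : Set V).indicator 1 w * ENNReal.ofReal (Hm μ w) ∂ν
      = ENNReal.ofReal a * ∫⁻ x, (Fᗮ : Set V).indicator 1 (Nv b j x) *
        ENNReal.ofReal |b.det x| ∂(pw μ _) := fun j => by
    rw [marginal_nv b j hμ.mom hψ]
    refine htr j _ (hψ.mul hH) fun t x => ?_
    rw [Hm_smul, ENNReal.ofReal_mul (abs_nonneg t)]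
    by_cases ht : t = 0
    · simp [ht]
    · by_cases hx : x ∈ Fᗮ
      · have h2 : t • x ∈ Fᗮ := Submodule.smul_mem _ t hx
        simp [hx, h2]
      · have h2 : t • x ∉ Fᗮ := fun h2 => hx ((Submodule.smul_mem_iff _ ht).1 h2)
        simp [hx, h2]
  have h2 : ∫⁻ w, ENNReal.ofReal (Hm μ w) ∂ν
      = ENNReal.ofReal a * ∫⁻ x, ENNReal.ofReal |b.det x| ∂(pw μ _) := by
    have h3 := marginal_nv b ⟨0, h0⟩ hμ.mom (ψ := fun _ => 1) measurable_const
    simp only [one_mul] at h3
    rw [h3]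
    refine htr ⟨0, h0⟩ _ hH fun t x => ?_
    rw [Hm_smul, ENNReal.ofReal_mul (abs_nonneg t)]
  have h3 := lsum_PdH2 b hEF hs (g := fun j x => (Fᗮ : Set V).indicator 1 (Nv b j x))
    (fun j => hψ.comp (continuous_Nv b j).measurable) fun x hx hm j => by
      have h4 := nv_iff_PdH2 b hEF hx hm j
      by_cases h5 : x j ∈ E
      · simp [h5, h4.2 h5]
      · have h6 : Nv b j x ∉ Fᗮ := fun h6 => h5 (h4.1 h6)
        simp [h5, h6]
  refine real_PdH2 (continuous_Hm hμ.mom) (Hm_nonneg μ) hS ?_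
  rw [h2, mul_left_comm, ← h3, Finset.mul_sum, ← Finset.sum_congr rfl fun j _ => h1 j]
  simp

theorem count_pt {ν ρ : Measure V} (hν : Good ν) (hρ : Good ρ) (h : Half ν ρ)
    {E F : Submodule ℝ V} (hEF : IsCompl E F) (hs : ν ((E : Set V) ∪ (F : Set V))ᶜ = 0) :
    (finrank ℝ V : ℝ) * ∫ w in (E : Set V), Hm ρ w ∂ν = finrank ℝ E * ∫ w, Hm ρ w ∂ν := by
  have := hν.mom.prob
  rcases Nat.eq_zero_or_pos (finrank ℝ V) with h0 | h0
  · exact triv_PdH2 E h0 _ _
  let b := Module.finBasis ℝ V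
  obtain ⟨a, ha, htr, -⟩ := h.transfer b hν.mom hρ.mom
  have hS : MeasurableSet (E : Set V) := (Submodule.closed_of_finiteDimensional _).measurableSet
  have hψ : Measurable ((E : Set V).indicator (1 : V → ℝ≥0∞)) := measurable_one.indicator hS
  have h1 : ∀ (ψ : V → ℝ≥0∞), Measurable ψ → ∀ j, ∫⁻ w, ψ w * ENNReal.ofReal (Hm ρ w) ∂ν
      = ENNReal.ofReal a * ∫⁻ x, ψ (x j) * ENNReal.ofReal |b.det x| ∂(pw ν _) := fun ψ hψ j => by
    rw [marginal_pt b j hν.mom hψ, ← lintegral_const_mul _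
      (hψ.fun_mul (continuous_Qm b j hν.mom).measurable.ennreal_ofReal)]
    refine lintegral_congr fun w => ?_
    rw [htr j w, ENNReal.ofReal_mul ha.le, mul_left_comm]
  have h2 := h1 (fun _ => 1) measurable_const ⟨0, h0⟩
  simp only [one_mul] at h2
  have h3 := lsum_PdH2 b hEF hs (g := fun j x => (E : Set V).indicator 1 (x j))
    (fun j => hψ.comp (measurable_pi_apply j)) fun x hx hm j => rfl
  refine real_PdH2 (continuous_Hm hρ.mom) (Hm_nonneg ρ) hS ?_
  rw [h2, mul_left_comm, ← h3, Finset.mul_sum, ← Finset.sum_congr rfl fun j _ => h1 _ hψ j]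
  simp

end Pool.Agent.P.MP_181257_gt
end
end

-- part Pool.Agent.P.MP_181257_gt.PdH3
section

set_option autoImplicit false
set_option linter.unusedSectionVars false
set_option linter.unusedVariables false

open MeasureTheory ProbabilityTheory Module Set Filter Topology Function
open scoped RealInnerProductSpace ENNReal Pointwise LinearAlgebra.Projectivization

noncomputable section

namespace Pool.Agent.P.MP_181257_gt

variable {V : Type} [NormedAddCommGroup V] [InnerProductSpace ℝ V] [FiniteDimensional ℝ V]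
  [MeasurableSpace V] [BorelSpace V] {ι : Type} [Fintype ι] [DecidableEq ι]

theorem lam_PdH3 {μ ν ρ : Measure V} (hμ : Good μ) (hν : Good ν) (h1 : Half μ ν)
    (h2 : Half ν ρ) {E F : Submodule ℝ V} (hEF : IsCompl E F) (hE : E ≠ ⊥)
    (hs : μ ((E : Set V) ∪ (F : Set V))ᶜ = 0) {σ : Measure E} (hσ : Pair (res μ E) σ) :
    ∃ lam : ℝ, ∀ w ∈ Fᗮ, Hm ρ w = lam * Hm μ w := by
  have := hμ.mom.prob
  obtain ⟨τ, c, c', hτ, hc, hc', e1, e2⟩ := exists_part hν hEF hE (Half.split hμ hν h1 hEF hs)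
  obtain ⟨C, hC, e3⟩ := Qd_res hμ hEF hE hs
  obtain ⟨a, ha, e4⟩ := h1
  obtain ⟨a', ha', e5⟩ := h2
  obtain ⟨a1, ha1, e6⟩ := hσ.hl
  obtain ⟨a2, ha2, e7⟩ := hσ.hr
  have hm : 0 < (μ E).toReal :=
    ENNReal.toReal_pos (meas_ne_zero hμ hEF hE hs) (measure_ne_top _ _)
  have e8 : ∀ u : E, Hm τ u = a * C / (c * a1) * Hm σ u := by
    intro u
    have h3 := e1 u
    rw [e4, e3] at h3
    rw [e6]
    field_simp
    linarith
  have e9 := Qd_congr hτ.mom hσ.gr.mom (by positivity) e8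
  refine ⟨a' * c' * (a * C / (c * a1)) ^ (finrank ℝ E - 1) / (a2 * (μ E).toReal),
    fun w hw => ?_⟩
  rw [e5, e2 w hw, e9, Hm_res hμ hEF hE hs hw, e7]
  field_simp

theorem int_pos_PdH3 {μ ν : Measure V} (hμ : Good μ) (hν : Good ν) : 0 < ∫ w, Hm μ w ∂ν := by
  have := hν.mom.prob
  rw [integral_pos_iff_support_of_nonneg (fun w => Hm_nonneg μ w)
    (integrable_Hm_comp hν.mom hμ.mom)]
  have h1 : ν ({0} : Set V)ᶜ = 1 := (prob_compl_eq_one_iff (measurableSet_singleton 0)).2 hν.zero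
  have h2 : ({0} : Set V)ᶜ ⊆ support (Hm μ) := fun w hw => (hμ.pos w hw).ne'
  exact lt_of_lt_of_le (by rw [h1]; exact zero_lt_one) (measure_mono h2)

theorem lam_eq_PdH3 {μ ν ρ : Measure V} (hμ : Good μ) (hν : Good ν) (hρ : Good ρ)
    (h1 : Half μ ν) (h2 : Half ν ρ) {E F : Submodule ℝ V} (hEF : IsCompl E F) (hE : E ≠ ⊥)
    (hs : μ ((E : Set V) ∪ (F : Set V))ᶜ = 0) {σ : Measure E} (hσ : Pair (res μ E) σ) :
    ∀ w ∈ Fᗮ, Hm ρ w = (∫ w, Hm ρ w ∂ν) / (∫ w, Hm μ w ∂ν) * Hm μ w := by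
  obtain ⟨lam, hl⟩ := lam_PdH3 hμ hν h1 h2 hEF hE hs hσ
  have c1 := count_nv hμ hν h1 hEF hs
  have c2 := count_pt hν hρ h2 (isCompl_orth hEF) (Half.split hμ hν h1 hEF hs)
  have hF : MeasurableSet (Fᗮ : Set V) := (Submodule.closed_of_finiteDimensional Fᗮ).measurableSet
  have c3 : ∫ w in (Fᗮ : Set V), Hm ρ w ∂ν = lam * ∫ w in (Fᗮ : Set V), Hm μ w ∂ν := by
    rw [← integral_const_mul]
    exact setIntegral_congr_fun hF fun w hw => hl w hw
  have c4 : finrank ℝ Fᗮ = finrank ℝ E := by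
    have h3 := Submodule.finrank_add_eq_of_isCompl hEF
    have h4 := Submodule.finrank_add_finrank_orthogonal F
    omega
  have c5 : (0 : ℝ) < finrank ℝ E := by
    have : finrank ℝ E ≠ 0 := fun h => hE (Submodule.finrank_eq_zero.1 h)
    positivity
  have c6 := int_pos_PdH3 hμ hν
  have c7 : lam = (∫ w, Hm ρ w ∂ν) / (∫ w, Hm μ w ∂ν) := by
    rw [eq_div_iff c6.ne']
    rw [c3, c4] at c2
    refine mul_left_cancel₀ c5.ne' ?_
    rw [← c2, mul_left_comm, ← c1]
    ring
  intro w hw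
  rw [hl w hw, c7]

theorem inter_PdH3 {r : ℕ} {E : Fin r → Submodule ℝ V} (hi : iSupIndep E) (ht : ⨆ j, E j = ⊤)
    {x : V} (hx : ∀ j, x ∈ (⨆ (i : Fin r) (_ : i ≠ j), E i : Submodule ℝ V)) : x = 0 := by
  have h1 : x ∈ ⨆ i ∈ (Finset.univ : Finset (Fin r)), E i := by
    simp only [Finset.mem_univ, iSup_pos, ht, Submodule.mem_top]
  obtain ⟨y, hy⟩ := (Submodule.mem_iSup_finset_iff_exists_sum E x).1 h1
  have h2 : ∀ j, (y j : V) = 0 := by
    intro j
    have h3 : ∑ i ∈ Finset.univ.erase j, (y i : V) ∈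
        (⨆ (i : Fin r) (_ : i ≠ j), E i : Submodule ℝ V) := by
      refine Submodule.sum_mem _ fun i hi' => ?_
      exact (le_iSup₂_of_le (f := fun (i : Fin r) (_ : i ≠ j) => E i) i
        (Finset.ne_of_mem_erase hi') le_rfl) (y i).2
    have h4 : (y j : V) = x - ∑ i ∈ Finset.univ.erase j, (y i : V) := by
      rw [← hy, ← Finset.add_sum_erase _ _ (Finset.mem_univ j), add_sub_cancel_right]
    have h5 := Submodule.sub_mem _ (hx j) h3
    rw [← h4] at h5
    exact (Submodule.disjoint_def.1 (isCompl_family hi ht j).disjoint) _ (y j).2 h5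
  rw [← hy]
  exact Finset.sum_eq_zero fun j _ => h2 j

theorem pair_of_family {μ : Measure V} (hμ : Good μ) {r : ℕ} {E : Fin r → Submodule ℝ V}
    (hn : 1 ≤ finrank ℝ V) (hi : iSupIndep E) (ht : ⨆ j, E j = ⊤) (hb : ∀ j, E j ≠ ⊥)
    (h : μ (⋃ j, (E j : Set V))ᶜ = 0) (hp : ∀ j, ∃ ρ : Measure (E j), Pair (res μ (E j)) ρ) :
    ∃ ν : Measure V, Pair μ ν := by
  obtain ⟨ν, hν, h1⟩ := exists_Half hn hμ
  obtain ⟨ρ, hρ, h2⟩ := exists_Half hn hν
  have hc := isCompl_family hi ht
  have hs := null_family h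
  have hρj : ∀ j, ρ ((E j : Set V) ∪
      ((⨆ (i : Fin r) (_ : i ≠ j), E i : Submodule ℝ V) : Set V))ᶜ = 0 := by
    intro j
    have h3 := Half.split hν hρ h2 (isCompl_orth (hc j)) (Half.split hμ hν h1 (hc j) (hs j))
    rwa [Submodule.orthogonal_orthogonal, Submodule.orthogonal_orthogonal] at h3
  have hρu : ρ (⋃ j, (E j : Set V))ᶜ = 0 := by
    have h3 : ρ (({0} : Set V) ∪ ⋃ j, ((E j : Set V) ∪
        ((⨆ (i : Fin r) (_ : i ≠ j), E i : Submodule ℝ V) : Set V))ᶜ) = 0 :=
      measure_union_null hρ.zero (measure_iUnion_null hρj)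
    refine measure_mono_null (fun x hx => ?_) h3
    by_contra h4
    simp only [mem_union, mem_singleton_iff, mem_iUnion, mem_compl_iff, not_or, not_exists,
      SetLike.mem_coe, not_and, not_not] at h4 hx
    exact h4.1 (inter_PdH3 hi ht fun j => h4.2 j (hx j))
  have hl : 0 < (∫ w, Hm ρ w ∂ν) / (∫ w, Hm μ w ∂ν) :=
    div_pos (int_pos_PdH3 hρ hν) (int_pos_PdH3 hμ hν)
  have key : ∀ u, Hm ρ u = (∫ w, Hm ρ w ∂ν) / (∫ w, Hm μ w ∂ν) * Hm μ u := by
    intro u
    rw [Hm_family hρ hi ht hb hρu u, Hm_family hμ hi ht hb h u, Finset.mul_sum]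
    refine Finset.sum_congr rfl fun j _ => ?_
    obtain ⟨w, hw, e⟩ := exists_lift (hc j) ((E j).orthogonalProjectionOnto u)
    obtain ⟨σ, hσ⟩ := hp j
    rw [← e, ← Hm_res hρ (hc j) (hb j) (hρj j) hw, ← Hm_res hμ (hc j) (hb j) (hs j) hw]
    exact lam_eq_PdH3 hμ hν hρ h1 h2 (hc j) (hb j) (hs j) hσ w hw
  obtain ⟨a, ha, e⟩ := h2
  refine ⟨ν, hμ, hν, h1, a / ((∫ w, Hm ρ w ∂ν) / (∫ w, Hm μ w ∂ν)), div_pos ha hl, fun u => ?_⟩
  rw [div_mul_eq_mul_div, ← e, key, mul_div_cancel_left₀ _ hl.ne']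

end Pool.Agent.P.MP_181257_gt
end
end

-- part Pool.Agent.P.MP_181257_gt.PdH4
section

set_option autoImplicit false
set_option linter.unusedSectionVars false
set_option linter.unusedVariables false

open MeasureTheory ProbabilityTheory Module Set Filter Topology Function
open scoped RealInnerProductSpace ENNReal Pointwise LinearAlgebra.Projectivization

noncomputable section

namespace Pool.Agent.P.MP_181257_gt

variable {V : Type} [NormedAddCommGroup V] [InnerProductSpace ℝ V] [FiniteDimensional ℝ V]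
  [MeasurableSpace V] [BorelSpace V] {ι : Type} [Fintype ι] [DecidableEq ι]

/-- gluing of measures on the summands -/
theorem exists_glue {r : ℕ} {E : Fin r → Submodule ℝ V} (hn : 1 ≤ finrank ℝ V)
    (hi : iSupIndep E) (ht : ⨆ j, E j = ⊤)
    (m : ∀ j, Measure (E j)) (hm : ∀ j, Good (m j)) (c : Fin r → ℝ) (hc : ∀ j, 0 < c j) :
    ∃ (μ : Measure V) (t : ℝ), Good μ ∧ 0 < t ∧ μ (⋃ j, (E j : Set V))ᶜ = 0 ∧
      ∀ j, res μ (E j) = m j ∧ t * (μ (E j)).toReal = c j := by
  have hr : Nonempty (Fin r) := by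
    by_contra h0
    rw [not_nonempty_iff] at h0
    rw [iSup_of_empty] at ht
    have h1 : finrank ℝ (⊤ : Submodule ℝ V) = 0 := by rw [← ht, finrank_bot]
    rw [finrank_top] at h1
    omega
  set t : ℝ := ∑ j, c j with htd
  have ht0 : 0 < t := Finset.sum_pos (fun j _ => hc j) Finset.univ_nonempty
  have hE : ∀ j, MeasurableSet (E j : Set V) := fun j =>
    (Submodule.closed_of_finiteDimensional (E j)).measurableSet
  have hemb : ∀ j, MeasurableEmbedding (Subtype.val : E j → V) := fun j =>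
    MeasurableEmbedding.subtype_coe (hE j)
  set w : Fin r → ℝ≥0∞ := fun j => ENNReal.ofReal (c j / t) with hw
  have hw0 : ∀ j, w j ≠ 0 := fun j => (ENNReal.ofReal_pos.2 (div_pos (hc j) ht0)).ne'
  have hwt : ∀ j, w j ≠ ∞ := fun j => ENNReal.ofReal_ne_top
  set μ : Measure V := ∑ j, w j • (m j).map (Subtype.val : E j → V) with hμ
  have app : ∀ s : Set V, μ s = ∑ j, w j * m j (Subtype.val ⁻¹' s) := fun s => by
    rw [hμ, Measure.finsetSum_apply]
    refine Finset.sum_congr rfl fun j _ => ?_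
    rw [Measure.smul_apply, (hemb j).map_apply, smul_eq_mul]
  have app' : ∀ j (s : Set V), s ⊆ E j → μ s = w j * m j (Subtype.val ⁻¹' s) := fun j s hs => by
    rw [app]
    refine Finset.sum_eq_single j (fun i _ hij => ?_) (fun h => absurd (Finset.mem_univ j) h)
    have : m i (Subtype.val ⁻¹' s) = 0 := by
      refine measure_mono_null (fun x hx => ?_) (hm i).zero
      have h1 : (x : V) = 0 :=
        Submodule.disjoint_def.1 (hi.pairwiseDisjoint hij) x x.2 (hs hx)
      exact Subtype.ext h1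
    rw [this, mul_zero]
  have hEw : ∀ j, μ (E j) = w j := fun j => by
    have := (hm j).mom.prob
    have e : (Subtype.val ⁻¹' (E j : Set V) : Set (E j)) = univ :=
      eq_univ_of_forall fun x => x.2
    rw [app' j _ subset_rfl, e, measure_univ, mul_one]
  have hres : ∀ j, res μ (E j) = m j := fun j => by
    ext s hs
    rw [res_apply μ _ hs, hEw, app' j _ (by rintro _ ⟨x, -, rfl⟩; exact x.2),
      preimage_image_eq _ Subtype.val_injective, ← mul_assoc,
      ENNReal.inv_mul_cancel (hw0 j) (hwt j), one_mul]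
  have hmom : Mom μ := by
    refine ⟨⟨?_⟩, ?_⟩
    · rw [app]
      have e : ∀ j, w j * m j (Subtype.val ⁻¹' univ) = w j := fun j => by
        have := (hm j).mom.prob
        rw [preimage_univ, measure_univ, mul_one]
      rw [Finset.sum_congr rfl fun j _ => e j]
      simp only [hw]
      rw [← ENNReal.ofReal_sum_of_nonneg fun j _ => (div_pos (hc j) ht0).le, ← Finset.sum_div,
        ← htd, div_self ht0.ne', ENNReal.ofReal_one]
    · rw [hμ, integrable_finsetSum_measure]
      intro j _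
      refine Integrable.smul_measure ?_ (hwt j)
      rw [(hemb j).integrable_map_iff]
      exact (hm j).mom.int
  refine ⟨μ, t, ⟨hmom, ?_, fun u hu => ?_⟩, ht0, ?_, fun j => ⟨hres j, ?_⟩⟩
  · rw [app]
    refine Finset.sum_eq_zero fun j _ => ?_
    have : m j (Subtype.val ⁻¹' {0}) = 0 :=
      measure_mono_null (fun x hx => (Subtype.ext hx : x = 0)) (hm j).zero
    rw [this, mul_zero]
  · obtain ⟨j, hj⟩ : ∃ j, (E j).orthogonalProjectionOnto u ≠ 0 := by
      by_contra hne
      push Not at hne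
      apply hu
      have h1 : ∀ j, E j ≤ (ℝ ∙ u)ᗮ := fun j x hx => by
        rw [Submodule.mem_orthogonal_singleton_iff_inner_right]
        have h2 : u ∈ (E j)ᗮ := Submodule.orthogonalProjectionOnto_eq_zero_iff.1 (hne j)
        exact Submodule.inner_left_of_mem_orthogonal hx h2
      have h3 : u ∈ (ℝ ∙ u)ᗮ := (ht ▸ iSup_le h1 : (⊤ : Submodule ℝ V) ≤ _) Submodule.mem_top
      rw [Submodule.mem_orthogonal_singleton_iff_inner_right] at h3
      exact inner_self_eq_zero.1 h3
    have h1 := setIntegral_res hmom (E := E j) (by rw [hEw]; exact hw0 j) u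
    rw [hres, hEw] at h1
    have h2 : 0 < (w j).toReal * Hm (m j) ((E j).orthogonalProjectionOnto u) :=
      mul_pos (ENNReal.toReal_pos (hw0 j) (hwt j)) ((hm j).pos _ hj)
    rw [← h1] at h2
    exact h2.trans_le (setIntegral_le_integral (integrable_Hm hmom u)
      (ae_of_all _ fun x => abs_nonneg _))
  · rw [app]
    refine Finset.sum_eq_zero fun j _ => ?_
    have e : (Subtype.val ⁻¹' (⋃ j, (E j : Set V))ᶜ : Set (E j)) = ∅ :=
      eq_empty_of_forall_notMem fun x hx => hx (mem_iUnion.2 ⟨j, x.2⟩)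
    rw [e, measure_empty, mul_zero]
  · rw [hEw, hw]
    simp only
    rw [ENNReal.toReal_ofReal (div_pos (hc j) ht0).le, mul_div_cancel₀ _ ht0.ne']

end Pool.Agent.P.MP_181257_gt
end
end

-- part Pool.Agent.P.MP_181257_gt.PdMain
section

set_option autoImplicit false
set_option linter.unusedSectionVars false
set_option linter.unusedVariables false

open MeasureTheory ProbabilityTheory Module Set Filter Topology Function
open scoped RealInnerProductSpace ENNReal Pointwise LinearAlgebra.Projectivization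

noncomputable section

namespace Pool.Agent.P.MP_181257_gt

variable {V : Type} [NormedAddCommGroup V] [InnerProductSpace ℝ V] [FiniteDimensional ℝ V]
  [MeasurableSpace V] [BorelSpace V] {ι : Type} [Fintype ι] [DecidableEq ι]

theorem center_zero {μ : Measure V} (hμ : Good μ) {c : ℝ} (hc : 0 < c) {x : V}
    (h : -(x +ᵥ Zs fun u => c * Hm μ u) = x +ᵥ Zs fun u => c * Hm μ u) : x = 0 := by
  obtain ⟨z, hz, hzx⟩ := exists_support_point hμ.mom hc.le x
  have hz' : -z ∈ (Zs fun u => c * Hm μ u) := by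
    rw [← (body_Zs hμ hc).2.2.2]
    simpa using hz
  have h1 : -(x + -z) ∈ x +ᵥ Zs fun u => c * Hm μ u := by
    rw [← h, Set.neg_mem_neg]
    exact ⟨-z, hz', rfl⟩
  obtain ⟨w, hw, hwe⟩ := h1
  obtain ⟨z', hz1, hz2⟩ := exists_support_point hμ.mom hc.le (-x)
  have hz3 : -z' ∈ (Zs fun u => c * Hm μ u) := by
    rw [← (body_Zs hμ hc).2.2.2]
    simpa using hz1
  have h2 : -(x + -z') ∈ x +ᵥ Zs fun u => c * Hm μ u := by
    rw [← h, Set.neg_mem_neg]
    exact ⟨-z', hz3, rfl⟩
  obtain ⟨w', hw', hwe'⟩ := h2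
  have h3 := (mem_Zs_iff c w').1 hw' (-x)
  have e : w' = z' - x - x := by
    simp only [vadd_eq_add] at hwe'
    rw [← sub_eq_zero] at hwe' ⊢
    rw [← hwe']
    abel
  rw [e, inner_sub_left, inner_sub_left, hz2, inner_neg_right, real_inner_self_eq_norm_sq] at h3
  have h4 : ‖x‖ ^ 2 ≤ 0 := by linarith
  exact norm_eq_zero.1 (pow_eq_zero_iff two_ne_zero |>.1 (le_antisymm h4 (sq_nonneg _)))

theorem structure_iff (hn : 1 ≤ finrank ℝ V) {K : Set V} (hK : IsCompact K) (hc : Convex ℝ K)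
    (hint : (interior K).Nonempty) :
    SelfProj K ↔ ∃ (r : ℕ) (E : Fin r → Submodule ℝ V) (C : ∀ j, Set (E j)) (x : V),
      iSupIndep E ∧ ⨆ j, E j = ⊤ ∧ K = x +ᵥ ∑ j, (Subtype.val : E j → V) '' C j ∧
      ∀ j, E j ≠ ⊥ ∧ IsCompact (C j) ∧ Convex ℝ (C j) ∧ (interior (C j)).Nonempty ∧
        -C j = C j ∧ (finrank ℝ (E j) ≤ 2 ∨
          (StrictConvex ℝ (C j) ∧ SmoothBody (C j) ∧ SelfProj (C j))) := by
  constructor
  · intro h
    obtain ⟨μ, ν, c, x, hp, hc0, hKe⟩ := pair_of_selfProj hn hK hc hint h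
    obtain ⟨r, E, hi, ht, hb, hnull, hns⟩ := exists_family hn hp.gl
    have := hp.gl.mom.prob
    refine ⟨r, E, fun j => Zs fun u : E j => (c * (μ (E j)).toReal) * Hm (res μ (E j)) u, x, hi, ht,
      by rw [hKe, Zs_family hp.gl hi ht hb hnull hc0], fun j => ?_⟩
    have hco := isCompl_family hi ht j
    have hnj := null_family hnull j
    obtain ⟨ρ, hρ⟩ := hp.res hco (hb j) hnj
    have hcj : 0 < c * (μ (E j)).toReal :=
      mul_pos hc0 (ENNReal.toReal_pos (meas_ne_zero hp.gl hco (hb j) hnj) (measure_ne_top _ _))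
    obtain ⟨b1, b2, b3, b4⟩ := body_Zs hρ.gl hcj
    refine ⟨hb j, b1, b2, b3, b4, ?_⟩
    rcases le_or_gt (finrank ℝ (E j)) 2 with h2 | h2
    · exact Or.inl h2
    · refine Or.inr ⟨?_, smooth_Zs hρ.gl hcj (hρ.csupp_eq (hns j) h2), ?_⟩
      · rcases hρ.dichotomy (hns j) h2 with hg | ha
        · exact strict_Zs hρ.gl hcj hg
        · exact absurd ha (hρ.not_atomic (hns j) h2)
      · have := selfProj_of_pair (by omega) hρ hcj 0
        rwa [zero_vadd] at this
  · rintro ⟨r, E, C, x, hi, ht, hKe, hC⟩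
    have key : ∀ j, ∃ (m : Measure (E j)) (c : ℝ), (∃ ρ, Pair m ρ) ∧ 0 < c ∧
        C j = Zs fun u => c * Hm m u := by
      intro j
      obtain ⟨hb, b1, b2, b3, b4, b5⟩ := hC j
      have h1 : 1 ≤ finrank ℝ (E j) := by
        rw [Nat.one_le_iff_ne_zero]
        exact fun h0 => hb (Submodule.finrank_eq_zero.1 h0)
      rcases b5 with h2 | ⟨-, -, hs⟩
      · obtain ⟨m, c, hm, hc0, e⟩ := zonoid_low h1 h2 b1 b2 b3 b4
        exact ⟨m, c, pair_low h1 h2 hm, hc0, e⟩
      · obtain ⟨m, ρ, c, y, hp, hc0, e⟩ := pair_of_selfProj h1 b1 b2 b3 hs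
        have hy : y = 0 := center_zero hp.gl hc0 (by rw [← e]; exact b4)
        rw [hy, zero_vadd] at e
        exact ⟨m, c, ⟨ρ, hp⟩, hc0, e⟩
    choose m c hm hc0 hCe using key
    have hb : ∀ j, E j ≠ ⊥ := fun j => (hC j).1
    obtain ⟨μ, t, hμ, ht0, hnull, hres⟩ :=
      exists_glue hn hi ht m (fun j => (hm j).choose_spec.gl) c hc0
    obtain ⟨ν, hp⟩ := pair_of_family hμ hn hi ht hb hnull fun j => by
      rw [(hres j).1]
      exact hm j
    have e : K = x +ᵥ Zs fun u => t * Hm μ u := by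
      rw [hKe, Zs_family hμ hi ht hb hnull ht0]
      congr 1
      refine Finset.sum_congr rfl fun j _ => ?_
      rw [hCe j, (hres j).1, (hres j).2]
    rw [e]
    exact selfProj_of_pair hn hp ht0 x

end Pool.Agent.P.MP_181257_gt
end
end
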