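import Pool.Agent.K.MP_181257_gt.C2

-- part Pool.Agent.P.MP_181257_gt.HiD1
section

/-! Peeling off the rows of a frame. -/

set_option autoImplicit false
set_option linter.unusedSectionVars false
set_option linter.unusedVariables false

open MeasureTheory ProbabilityTheory Module Set Filter Topology
open scoped RealInnerProductSpace ENNReal Pointwise Matrix

noncomputable section

namespace Pool.Agent.P.MP_181257_gt

variable {V : Type} [NormedAddCommGroup V] [InnerProductSpace ℝ V] [FiniteDimensional ℝ V]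
  [MeasurableSpace V] [BorelSpace V]

theorem cons_HiD1 (U : Submodule ℝ V) {k : ℕ} (a : V) (x : Fin k → V) :
    (fun j => pU U ((Fin.cons a x : Fin (k + 1) → V) j))
      = (Fin.cons (pU U a) fun j => pU U (x j) : Fin (k + 1) → V) := by
  funext j
  refine Fin.cases ?_ (fun j => ?_) j <;> simp

theorem e1_HiD1 (U : Submodule ℝ V) {k : ℕ} (a : V) (x : Fin k → V) :
    ENNReal.ofReal (D fun j => pU U ((Fin.cons a x : Fin (k + 1) → V) j))
      = ENNReal.ofReal (D fun j => pU U (x j))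
        * ENNReal.ofReal ‖pU (U ⊓ nrm fun j => pU U (x j)) a‖ := by
  rw [cons_HiD1, D_cons_eq, Pj_pU, ENNReal.ofReal_mul (D_nonneg _)]

theorem e2_HiD1 (U : Submodule ℝ V) {k : ℕ} (a : V) (x : Fin k → V) :
    ENNReal.ofReal (D fun j => pU U ((Fin.cons a x : Fin (k + 1) → V) j))
      = ENNReal.ofReal ‖pU U a‖
        * ENNReal.ofReal (D fun j => pU (U ⊓ (ℝ ∙ pU U a)ᗮ) (x j)) := by
  rw [cons_HiD1, D_cons, ENNReal.ofReal_mul (norm_nonneg _)]
  simp only [pr_pU]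

theorem meas_HiD1 (U : Submodule ℝ V) (k : ℕ) :
    Measurable fun x : Fin k → V => ENNReal.ofReal (D fun j => pU U (x j)) :=
  (measurable_D (measurable_pi_lambda _ fun j =>
    (pU U).continuous.measurable.comp (measurable_pi_apply j))).ennreal_ofReal

theorem peel {μ : Measure V} (hμ : Mom μ) {d K : ℕ} {B : ℝ≥0∞}
    (Ψ : ∀ k : ℕ, (Fin k → V) → ℝ≥0∞) (hΨ : ∀ k, Measurable (Ψ k)) (h0 : ∀ x, Ψ 0 x ≤ 1)
    (hstep : ∀ k, k < K → ∀ (x : Fin k → V) (U : Submodule ℝ V), d + 1 ≤ finrank ℝ U →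
      ∫⁻ a, ENNReal.ofReal ‖pU U a‖ * Ψ (k + 1) (Fin.cons a x) ∂μ
        ≤ B * Ψ k x * ∫⁻ a, ENNReal.ofReal ‖pU U a‖ ∂μ) :
    ∀ k, k ≤ K → ∀ U : Submodule ℝ V, d + k ≤ finrank ℝ U →
      ∫⁻ x, ENNReal.ofReal (D fun j => pU U (x j)) * Ψ k x ∂(mk μ k)
        ≤ B ^ k * ∫⁻ x, ENNReal.ofReal (D fun j => pU U (x j)) ∂(mk μ k) := by
  have := hμ.prob
  intro k
  induction k with
  | zero =>
    intro _ U _
    rw [pow_zero, one_mul]
    exact lintegral_mono fun x => mul_le_of_le_one_right' (h0 x)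
  | succ k ih =>
    intro hk U hU
    have mc : Measurable fun p : (Fin k → V) × V => (Fin.cons p.2 p.1 : Fin (k + 1) → V) :=
      bp_measurable_cons measurable_snd measurable_fst
    have m1 : Measurable fun p : (Fin k → V) × V =>
        ENNReal.ofReal (D fun j => pU U ((Fin.cons p.2 p.1 : Fin (k + 1) → V) j)) :=
      (meas_HiD1 U (k + 1)).comp mc
    have m2 : Measurable fun p : (Fin k → V) × V =>
        ENNReal.ofReal (D fun j => pU U ((Fin.cons p.2 p.1 : Fin (k + 1) → V) j)) * Ψ k p.1 :=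
      m1.mul ((hΨ k).comp measurable_fst)
    have m0 : Measurable fun x : Fin (k + 1) → V =>
        ENNReal.ofReal (D fun j => pU U (x j)) * Ψ (k + 1) x :=
      (meas_HiD1 U (k + 1)).mul (hΨ (k + 1))
    rw [lintegral_mk_cons hμ m0,
      lintegral_mk_cons hμ (meas_HiD1 U (k + 1))]
    have s1 : ∀ x : Fin k → V,
        ∫⁻ a, ENNReal.ofReal (D fun j => pU U ((Fin.cons a x : Fin (k + 1) → V) j))
          * Ψ (k + 1) (Fin.cons a x) ∂μ
        ≤ B * ∫⁻ a, ENNReal.ofReal (D fun j => pU U ((Fin.cons a x : Fin (k + 1) → V) j))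
          * Ψ k x ∂μ := by
      intro x
      have hr := finrank_inf_nrm U fun j => pU U (x j)
      have h1 := hstep k (by omega) x (U ⊓ nrm fun j => pU U (x j)) (by omega)
      have m3 : Measurable fun a : V =>
          ENNReal.ofReal ‖pU (U ⊓ nrm fun j => pU U (x j)) a‖ :=
        (pU _).continuous.measurable.norm.ennreal_ofReal
      simp only [e1_HiD1, mul_assoc]
      rw [lintegral_const_mul' _ _ ENNReal.ofReal_ne_top,
        lintegral_const_mul' _ _ ENNReal.ofReal_ne_top, lintegral_mul_const _ m3]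
      calc _ ≤ ENNReal.ofReal (D fun j => pU U (x j)) * (B * Ψ k x *
            ∫⁻ a, ENNReal.ofReal ‖pU (U ⊓ nrm fun j => pU U (x j)) a‖ ∂μ) :=
          mul_le_mul_right h1 _
        _ = _ := by ring
    have s2 : ∀ a : V,
        ∫⁻ x, ENNReal.ofReal (D fun j => pU U ((Fin.cons a x : Fin (k + 1) → V) j))
          * Ψ k x ∂(mk μ k)
        ≤ B ^ k * ∫⁻ x, ENNReal.ofReal (D fun j => pU U ((Fin.cons a x : Fin (k + 1) → V) j))
          ∂(mk μ k) := by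
      intro a
      have hr := finrank_link U (pU U a)
      have h1 := ih (by omega) (U ⊓ (ℝ ∙ pU U a)ᗮ) (by omega)
      simp only [e2_HiD1, mul_assoc]
      rw [lintegral_const_mul' _ _ ENNReal.ofReal_ne_top,
        lintegral_const_mul' _ _ ENNReal.ofReal_ne_top]
      exact (mul_le_mul_right h1 _).trans (le_of_eq (by ring))
    have w1 : ∫⁻ x, ∫⁻ a, ENNReal.ofReal
          (D fun j => pU U ((Fin.cons a x : Fin (k + 1) → V) j)) ∂μ ∂(mk μ k)
        = ∫⁻ a, ∫⁻ x, ENNReal.ofReal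
          (D fun j => pU U ((Fin.cons a x : Fin (k + 1) → V) j)) ∂(mk μ k) ∂μ :=
      lintegral_lintegral_swap m1.aemeasurable
    have w2 : ∫⁻ x, ∫⁻ a, ENNReal.ofReal
          (D fun j => pU U ((Fin.cons a x : Fin (k + 1) → V) j)) * Ψ k x ∂μ ∂(mk μ k)
        = ∫⁻ a, ∫⁻ x, ENNReal.ofReal
          (D fun j => pU U ((Fin.cons a x : Fin (k + 1) → V) j)) * Ψ k x ∂(mk μ k) ∂μ :=
      lintegral_lintegral_swap m2.aemeasurable
    refine (lintegral_mono s1).trans ((lintegral_const_mul _ m2.lintegral_prod_right').le.trans ?_)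
    rw [w1, pow_succ', mul_assoc]
    refine mul_le_mul_right (w2.le.trans ((lintegral_mono s2).trans (le_of_eq ?_))) _
    exact lintegral_const_mul _ m1.lintegral_prod_left'

theorem peel_Fr {μ : Measure V} (hμ : Mom μ) {d K : ℕ} (hd : d + K ≤ finrank ℝ V)
    (hW : 0 < Wr K μ) {B : ℝ≥0∞}
    (Ψ : ∀ k : ℕ, (Fin k → V) → ℝ≥0∞) (hΨ : ∀ k, Measurable (Ψ k)) (h0 : ∀ x, Ψ 0 x ≤ 1)
    (hstep : ∀ k, k < K → ∀ (x : Fin k → V) (U : Submodule ℝ V), d + 1 ≤ finrank ℝ U →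
      ∫⁻ a, ENNReal.ofReal ‖pU U a‖ * Ψ (k + 1) (Fin.cons a x) ∂μ
        ≤ B * Ψ k x * ∫⁻ a, ENNReal.ofReal ‖pU U a‖ ∂μ) :
    ∫⁻ x, Ψ K x ∂(Fr K μ) ≤ B ^ K := by
  have h1 := peel hμ Ψ hΨ h0 hstep K le_rfl ⊤ (by rwa [finrank_top])
  simp only [pU, Submodule.starProjection_top, ContinuousLinearMap.id_apply] at h1
  rw [← ofReal_Wr hμ] at h1
  rw [lintegral_Fr μ K (hΨ K)]
  refine (mul_le_mul_right h1 _).trans (le_of_eq ?_)
  rw [mul_comm, mul_assoc,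
    ENNReal.mul_inv_cancel (ENNReal.ofReal_pos.2 hW).ne' ENNReal.ofReal_ne_top, mul_one]

end Pool.Agent.P.MP_181257_gt
end
end

-- part Pool.Agent.P.MP_181257_gt.HiD2
section

/-! The regularised determinant. -/

set_option autoImplicit false
set_option linter.unusedSectionVars false
set_option linter.unusedVariables false

open MeasureTheory ProbabilityTheory Module Set Filter Topology
open scoped RealInnerProductSpace ENNReal Pointwise Matrix

noncomputable section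

namespace Pool.Agent.P.MP_181257_gt

variable {V : Type} [NormedAddCommGroup V] [InnerProductSpace ℝ V] [FiniteDimensional ℝ V]
  [MeasurableSpace V] [BorelSpace V]

theorem rho_nonneg (δ : ℝ) (U : Submodule ℝ V) (w : V) : 0 ≤ rho δ U w := by
  unfold rho
  positivity

theorem rho_le {δ : ℝ} (h0 : 0 ≤ δ) (h1 : δ ≤ 1) (U : Submodule ℝ V) (w : V) :
    rho δ U w ≤ 2 := by
  unfold rho
  have h2 : ‖pU U w‖ ^ 2 / ‖w‖ ^ 2 ≤ 1 :=
    div_le_one_of_le₀ (pow_le_pow_left₀ (norm_nonneg _) (norm_pU_le U w) 2) (sq_nonneg _)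
  nlinarith

theorem measurable_rho (δ : ℝ) (U : Submodule ℝ V) : Measurable (rho δ U) := by
  unfold rho
  exact ((((pU U).continuous.norm.pow 2).measurable).div
    ((continuous_norm.pow 2).measurable)).add measurable_const

theorem measurable_Dl {r : ℕ} (δ : ℝ) (e : Fin r → V) (k : ℕ) :
    Measurable fun x : Fin k → V => Dl δ e x := by
  have hc : Continuous fun y : Fin r → V =>
      D fun l => (WithLp.toLp 2 (y l, δ • e l) : Db V) := by
    refine continuous_D.comp (continuous_pi fun l => ?_)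
    exact (WithLp.prod_continuous_toLp 2 V V).comp ((continuous_apply l).prodMk continuous_const)
  have hm : Measurable fun x : Fin k → V => fun l => Pj k x (e l) :=
    measurable_pi_lambda _ fun l => measurable_Pj k measurable_id measurable_const
  exact hc.measurable.comp hm

theorem Dl_zero {r : ℕ} (δ : ℝ) {e : Fin r → V} (he : Orthonormal ℝ e) (x : Fin 0 → V) :
    1 ≤ Dl δ e x := by
  unfold Dl D
  have hg : Matrix.gram ℝ (fun l => (WithLp.toLp 2 (Pj 0 x (e l), δ • e l) : Db V))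
      = (1 + δ ^ 2) • (1 : Matrix (Fin r) (Fin r) ℝ) := by
    ext i j
    have h := orthonormal_iff_ite.1 he i j
    simp only [Matrix.gram_apply, WithLp.prod_inner_apply, Pj_zero, real_inner_smul_left,
      real_inner_smul_right, h, Matrix.smul_apply, Matrix.one_apply, smul_eq_mul]
    split_ifs <;> ring
  rw [hg, Matrix.det_smul, Matrix.det_one, mul_one, Real.one_le_sqrt]
  exact one_le_pow₀ (by nlinarith [sq_nonneg δ])

theorem norm_sq_toLp_HiD2 (y z : V) :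
    ‖(WithLp.toLp 2 (y, z) : Db V)‖ ^ 2 = ‖y‖ ^ 2 + ‖z‖ ^ 2 := by
  rw [WithLp.prod_norm_sq_eq_of_L2]
  rfl

theorem pr_toLp_HiD2 (p y z : V) :
    pr (WithLp.toLp 2 (p, (0 : V)) : Db V) (WithLp.toLp 2 (y, z)) = WithLp.toLp 2 (pr p y, z) := by
  unfold pr
  rw [norm_sq_toLp_HiD2, WithLp.prod_inner_apply, ← WithLp.toLp_smul, ← WithLp.toLp_sub]
  simp

theorem span_HiD2 {r : ℕ} (δ : ℝ) (T : V →L[ℝ] V) (e : Fin r → V) {w : Db V}
    (hw : w ∈ Submodule.span ℝ (range fun l => (WithLp.toLp 2 (T (e l), δ • e l) : Db V))) :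
    ∃ u ∈ Submodule.span ℝ (range e), w = WithLp.toLp 2 (T u, δ • u) := by
  induction hw using Submodule.span_induction with
  | mem w h =>
    obtain ⟨l, rfl⟩ := h
    exact ⟨e l, Submodule.subset_span ⟨l, rfl⟩, rfl⟩
  | zero => exact ⟨0, Submodule.zero_mem _, by simp; rfl⟩
  | add w w' _ _ ih ih' =>
    obtain ⟨u, hu, rfl⟩ := ih
    obtain ⟨u', hu', rfl⟩ := ih'
    refine ⟨u + u', Submodule.add_mem _ hu hu', ?_⟩
    rw [← WithLp.toLp_add]
    simp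
  | smul t w _ ih =>
    obtain ⟨u, hu, rfl⟩ := ih
    refine ⟨t • u, Submodule.smul_mem _ _ hu, ?_⟩
    rw [← WithLp.toLp_smul]
    simp [smul_comm t δ]

theorem core_HiD2 {δ : ℝ} (h0 : 0 ≤ δ) (h1 : δ ≤ 1) {p q s u : V} (hp : ⟪q, p⟫ = ‖q‖ ^ 2)
    (hs : ⟪q, s⟫ = 0) (hu : ‖s‖ ≤ ‖u‖) :
    (‖q‖ ^ 2 + δ ^ 2 * ‖p‖ ^ 2) / 2 ≤ ‖p - s‖ ^ 2 + δ ^ 2 * ‖u‖ ^ 2 := by
  have e1 : ‖p - s - q‖ ^ 2 = ‖p - s‖ ^ 2 - ‖q‖ ^ 2 := by
    rw [norm_sub_sq_real (p - s) q, real_inner_comm, inner_sub_right, hp, hs]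
    ring
  have e2 : ‖p - q‖ ^ 2 = ‖p‖ ^ 2 - ‖q‖ ^ 2 := by
    rw [norm_sub_sq_real p q, real_inner_comm, hp]
    ring
  have e3 : ‖p - q‖ ≤ ‖p - s - q‖ + ‖u‖ := by
    have : p - q = (p - s - q) + s := by abel
    rw [this]
    exact (norm_add_le _ _).trans (by linarith)
  have e4 : ‖p - q‖ ^ 2 ≤ 2 * ‖p - s - q‖ ^ 2 + 2 * ‖u‖ ^ 2 := by
    have := pow_le_pow_left₀ (norm_nonneg _) e3 2
    nlinarith [sq_nonneg (‖p - s - q‖ - ‖u‖)]
  have d1 : δ ^ 2 ≤ 1 := by nlinarith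
  have d0 : 0 ≤ δ ^ 2 := sq_nonneg δ
  have e5 : δ ^ 2 * ‖p - q‖ ^ 2 ≤ δ ^ 2 * (2 * ‖p - s - q‖ ^ 2 + 2 * ‖u‖ ^ 2) :=
    mul_le_mul_of_nonneg_left e4 d0
  have e6 : δ ^ 2 * ‖p - s - q‖ ^ 2 ≤ ‖p - s - q‖ ^ 2 :=
    mul_le_of_le_one_left (sq_nonneg _) d1
  have e7 : δ ^ 2 * ‖q‖ ^ 2 ≤ ‖q‖ ^ 2 := mul_le_of_le_one_left (sq_nonneg _) d1
  rw [e2] at e5
  nlinarith

theorem Dl_cons {r k : ℕ} {δ : ℝ} (h0 : 0 ≤ δ) (h1 : δ ≤ 1) (e : Fin r → V) (x : Fin k → V) :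
    ∃ U : Submodule ℝ V, finrank ℝ V ≤ finrank ℝ U + k + r ∧
      ∀ a : V, Dl δ e x ^ 2 * (rho δ U a / 2) ≤ Dl δ e (Fin.cons a x : Fin (k + 1) → V) ^ 2 := by
  refine ⟨nrm x ⊓ nrm e, ?_, fun a => ?_⟩
  · have h2 := finrank_inf_nrm (nrm x) e
    have h3 := finrank_nrm_ge x
    omega
  set U : Submodule ℝ V := nrm x ⊓ nrm e with hU
  set p : V := Pj k x a with hpdef
  set v : Fin r → Db V := fun l => WithLp.toLp 2 (Pj k x (e l), δ • e l) with hv
  set q : Db V := WithLp.toLp 2 (p, (0 : V)) with hq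
  have hD : Dl δ e x = D v := rfl
  have hD' : Dl δ e (Fin.cons a x : Fin (k + 1) → V) = D fun l => pr q (v l) := by
    unfold Dl
    congr 1
    funext l
    rw [Pj_cons, hq, hv, pr_toLp_HiD2]
  by_cases hp0 : p = 0
  · have hq0 : q = 0 := by rw [hq, hp0]; rfl
    rw [hD', hD, hq0]
    simp only [pr_zero_left]
    have := rho_le h0 h1 U a
    exact mul_le_of_le_one_right (sq_nonneg _) (by linarith)
  have hpp : 0 < ‖p‖ ^ 2 := pow_pos (norm_pos_iff.2 hp0) 2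
  have hqn : ‖q‖ ^ 2 = ‖p‖ ^ 2 := by rw [hq, norm_sq_toLp_HiD2]; simp
  have hkey : ‖p‖ ^ 2 * (D fun l => pr q (v l)) ^ 2 = D v ^ 2 * ‖Pj r v q‖ ^ 2 := by
    rw [← hqn, ← mul_pow, ← mul_pow, ← D_cons, D_cons_eq]
  have hmem : q - Pj r v q ∈ Submodule.span ℝ (range v) := by
    letI : MeasurableSpace (Db V) := borel _
    haveI : BorelSpace (Db V) := ⟨rfl⟩
    rw [Pj_eq v]
    have := Submodule.sub_starProjection_mem_orthogonal (K := nrm v) q
    rwa [nrm, Submodule.orthogonal_orthogonal] at this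
  obtain ⟨u, hu, hu'⟩ := span_HiD2 δ (Pj k x) e hmem
  have hP : Pj r v q = WithLp.toLp 2 (p - Pj k x u, -(δ • u)) := by
    have : Pj r v q = q - WithLp.toLp 2 (Pj k x u, δ • u) := by rw [← hu']; abel
    rw [this, hq, ← WithLp.toLp_sub]
    simp
  have hmemU : pU U a ∈ U := Submodule.starProjection_apply_mem U a
  have hfix : Pj k x (pU U a) = pU U a := by
    rw [Pj_eq]
    exact Submodule.starProjection_eq_self_iff.2 hmemU.1
  have hi1 : ⟪pU U a, p⟫ = ‖pU U a‖ ^ 2 := by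
    rw [hpdef, ← inner_Pj_comm, hfix]
    have h := Submodule.starProjection_inner_eq_zero (K := U) a (pU U a) hmemU
    rw [inner_sub_left, real_inner_self_eq_norm_sq, real_inner_comm] at h
    linarith
  have hi2 : ⟪pU U a, Pj k x u⟫ = 0 := by
    rw [← inner_Pj_comm, hfix, real_inner_comm]
    exact (Submodule.mem_orthogonal _ _).1 hmemU.2 u hu
  have hcore := core_HiD2 h0 h1 hi1 hi2 (norm_Pj_le x u)
  have hPn : ‖Pj r v q‖ ^ 2 = ‖p - Pj k x u‖ ^ 2 + δ ^ 2 * ‖u‖ ^ 2 := by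
    rw [hP, norm_sq_toLp_HiD2, norm_neg, norm_smul, mul_pow, Real.norm_eq_abs, sq_abs]
  have hpa : ‖p‖ ^ 2 / ‖a‖ ^ 2 ≤ 1 :=
    div_le_one_of_le₀ (pow_le_pow_left₀ (norm_nonneg _) (norm_Pj_le x a) 2) (sq_nonneg _)
  have hrho : ‖p‖ ^ 2 * (rho δ U a / 2) ≤ ‖Pj r v q‖ ^ 2 := by
    have h3 : ‖p‖ ^ 2 * (‖pU U a‖ ^ 2 / ‖a‖ ^ 2) ≤ ‖pU U a‖ ^ 2 := by
      have : ‖p‖ ^ 2 * (‖pU U a‖ ^ 2 / ‖a‖ ^ 2) = ‖p‖ ^ 2 / ‖a‖ ^ 2 * ‖pU U a‖ ^ 2 := by ring
      rw [this]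
      exact mul_le_of_le_one_left (sq_nonneg _) hpa
    rw [hPn]
    unfold rho
    nlinarith
  rw [hD', hD]
  refine le_of_mul_le_mul_left ?_ hpp
  rw [hkey]
  calc ‖p‖ ^ 2 * (D v ^ 2 * (rho δ U a / 2)) = D v ^ 2 * (‖p‖ ^ 2 * (rho δ U a / 2)) := by ring
    _ ≤ D v ^ 2 * ‖Pj r v q‖ ^ 2 := mul_le_mul_of_nonneg_left hrho (sq_nonneg _)

end Pool.Agent.P.MP_181257_gt
end
end

-- part Pool.Agent.P.MP_181257_gt.HiD3
section

/-! A negative moment of the regularised determinant. -/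

set_option autoImplicit false
set_option linter.unusedSectionVars false
set_option linter.unusedVariables false

open MeasureTheory ProbabilityTheory Module Set Filter Topology
open scoped RealInnerProductSpace ENNReal Pointwise Matrix

noncomputable section

namespace Pool.Agent.P.MP_181257_gt

variable {V : Type} [NormedAddCommGroup V] [InnerProductSpace ℝ V] [FiniteDimensional ℝ V]
  [MeasurableSpace V] [BorelSpace V]

theorem holder_HiD3 {μ : Measure V} {A Y : V → ℝ≥0∞} (hA : Measurable A) (hY : Measurable Y)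
    {p : ℝ} (hp0 : 0 ≤ p) (hp1 : p ≤ 1) {B : ℝ≥0∞}
    (h : ∫⁻ a, A a * Y a ∂μ ≤ B * ∫⁻ a, A a ∂μ) :
    ∫⁻ a, A a * Y a ^ p ∂μ ≤ B ^ p * ∫⁻ a, A a ∂μ := by
  have e : ∀ t : ℝ≥0∞, t ^ p * t ^ (1 - p) = t := fun t => by
    rw [← ENNReal.rpow_add_of_nonneg _ _ hp0 (by linarith)]; simp
  calc ∫⁻ a, A a * Y a ^ p ∂μ = ∫⁻ a, (A a * Y a) ^ p * A a ^ (1 - p) ∂μ := by
        refine lintegral_congr fun a => ?_
        rw [ENNReal.mul_rpow_of_nonneg _ _ hp0, mul_right_comm, e]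
    _ ≤ (∫⁻ a, A a * Y a ∂μ) ^ p * (∫⁻ a, A a ∂μ) ^ (1 - p) :=
        ENNReal.lintegral_mul_norm_pow_le (hA.mul hY).aemeasurable hA.aemeasurable hp0
          (by linarith) (by ring)
    _ ≤ (B * ∫⁻ a, A a ∂μ) ^ p * (∫⁻ a, A a ∂μ) ^ (1 - p) := by gcongr
    _ = _ := by rw [ENNReal.mul_rpow_of_nonneg _ _ hp0, mul_assoc, e]

theorem cs_HiD3 {μ : Measure V} {δ N n : ℝ} (hN : 0 < N) (hn : 0 ≤ n)
    (hi2 : Integrable (fun w => ‖w‖ ^ 2) μ) (h2 : ∫ w, ‖w‖ ^ 2 ∂μ ≤ n) (U U' : Submodule ℝ V)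
    (hNb : ∫⁻ w, (ENNReal.ofReal (rho δ U' w))⁻¹ ∂μ ≤ ENNReal.ofReal N) :
    ∫⁻ a, ENNReal.ofReal ‖pU U a‖ * (ENNReal.ofReal √(rho δ U' a / 2))⁻¹ ∂μ
      ≤ ENNReal.ofReal √(2 * n * N) := by
  have hm : Measurable fun a => (ENNReal.ofReal (rho δ U' a))⁻¹ :=
    (measurable_rho δ U').ennreal_ofReal.inv
  have h1 : ∫⁻ a, ENNReal.ofReal (‖a‖ ^ 2) ∂μ ≤ ENNReal.ofReal n := by
    rw [← ofReal_integral_eq_lintegral_ofReal hi2 (ae_of_all _ fun a => by positivity)]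
    exact ENNReal.ofReal_le_ofReal h2
  have h3 : ∫⁻ a, 2 * (ENNReal.ofReal (rho δ U' a))⁻¹ ∂μ ≤ ENNReal.ofReal (2 * N) := by
    rw [lintegral_const_mul _ hm, ENNReal.ofReal_mul (by norm_num), ENNReal.ofReal_ofNat]
    gcongr
  calc _ ≤ ∫⁻ a, ENNReal.ofReal (‖a‖ ^ 2) ^ (1 / 2 : ℝ)
          * (2 * (ENNReal.ofReal (rho δ U' a))⁻¹) ^ (1 / 2 : ℝ) ∂μ := by
        refine lintegral_mono fun a => mul_le_mul' ?_ (le_of_eq ?_)
        · rw [ENNReal.ofReal_rpow_of_nonneg (by positivity) (by norm_num), ← Real.sqrt_eq_rpow,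
            Real.sqrt_sq (norm_nonneg _)]
          exact ENNReal.ofReal_le_ofReal (norm_pU_le U a)
        · have h4 : 0 ≤ rho δ U' a := rho_nonneg δ U' a
          rw [Real.sqrt_eq_rpow, ← ENNReal.ofReal_rpow_of_nonneg (by positivity) (by norm_num),
            ← ENNReal.inv_rpow, ENNReal.ofReal_div_of_pos (by norm_num), ENNReal.ofReal_ofNat,
            ENNReal.inv_div (Or.inl (by norm_num)) (Or.inl (by norm_num)), div_eq_mul_inv]
    _ ≤ (∫⁻ a, ENNReal.ofReal (‖a‖ ^ 2) ∂μ) ^ (1 / 2 : ℝ)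
          * (∫⁻ a, 2 * (ENNReal.ofReal (rho δ U' a))⁻¹ ∂μ) ^ (1 / 2 : ℝ) :=
        ENNReal.lintegral_mul_norm_pow_le (by fun_prop) (hm.const_mul 2).aemeasurable
          (by norm_num) (by norm_num) (by norm_num)
    _ ≤ ENNReal.ofReal n ^ (1 / 2 : ℝ) * ENNReal.ofReal (2 * N) ^ (1 / 2 : ℝ) := by gcongr
    _ = _ := by
        rw [← ENNReal.mul_rpow_of_nonneg _ _ (by norm_num), ← ENNReal.ofReal_mul hn,
          ENNReal.ofReal_rpow_of_nonneg (by positivity) (by norm_num), ← Real.sqrt_eq_rpow]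
        congr 2
        ring

theorem step_HiD3 {s t u p : ℝ} (hs : 0 ≤ s) (ht : 0 ≤ t) (hu : 0 ≤ u) (hp : 0 ≤ p)
    (h : s ^ 2 * u ≤ t ^ 2) :
    ENNReal.ofReal t ^ (-p) ≤ ENNReal.ofReal s ^ (-p) * (ENNReal.ofReal √u)⁻¹ ^ p := by
  have h1 : s * √u ≤ t := by
    refine abs_le_of_sq_le_sq' ?_ ht |>.2
    rw [mul_pow, Real.sq_sqrt hu]
    exact h
  rw [ENNReal.inv_rpow, ← ENNReal.rpow_neg,
    ← ENNReal.mul_rpow_of_ne_top ENNReal.ofReal_ne_top ENNReal.ofReal_ne_top,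
    ← ENNReal.ofReal_mul hs, ENNReal.rpow_neg, ENNReal.rpow_neg]
  exact ENNReal.inv_le_inv.2 (ENNReal.rpow_le_rpow (ENNReal.ofReal_le_ofReal h1) hp)

theorem Dl_moment {μ : Measure V} (hμ : Mom μ) {i r : ℕ} (hW : 0 < Wr i μ) (hr : 16 ≤ r)
    (hrq : 2 * r + i ≤ finrank ℝ V + 1) {δ : ℝ} (h0 : 0 ≤ δ) (h1 : δ ≤ 1) {lam N : ℝ}
    (hlam : 0 < lam) (hN : 0 < N) (hi2 : Integrable (fun w => ‖w‖ ^ 2) μ)
    (h2 : ∫ w, ‖w‖ ^ 2 ∂μ ≤ finrank ℝ V)
    (hU : ∀ U : Submodule ℝ V, r ≤ finrank ℝ U → lam ≤ ∫ w, ‖pU U w‖ ∂μ)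
    (hNb : ∀ U : Submodule ℝ V, r ≤ finrank ℝ U →
      ∫⁻ w, (ENNReal.ofReal (rho δ U w))⁻¹ ∂μ ≤ ENNReal.ofReal N)
    {e : Fin r → V} (he : Orthonormal ℝ e) :
    ∫⁻ x, ENNReal.ofReal (Dl δ e x) ^ (-(8 / (r : ℝ))) ∂(Fr i μ)
      ≤ ENNReal.ofReal ((√(2 * finrank ℝ V * N) / lam) ^ (8 * (i : ℝ) / r)) := by
  haveI := hμ.prob
  have hr0 : (0 : ℝ) < r := by exact_mod_cast (by omega : 0 < r)
  have hr16 : (16 : ℝ) ≤ r := by exact_mod_cast hr
  have hp0 : (0 : ℝ) ≤ 8 / r := by positivity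
  have hp1 : (8 : ℝ) / r ≤ 1 := by rw [div_le_one hr0]; linarith
  set B0 : ℝ := √(2 * finrank ℝ V * N) / lam with hB0
  have hB : 0 ≤ B0 := by positivity
  have key := peel_Fr hμ (d := finrank ℝ V - i) (K := i) (by omega) hW
    (B := ENNReal.ofReal B0 ^ (8 / (r : ℝ)))
    (fun k x => ENNReal.ofReal (Dl δ e x) ^ (-(8 / (r : ℝ))))
    (fun k => (measurable_Dl δ e k).ennreal_ofReal.pow_const _) (fun x => ?_) ?_
  · refine key.trans (le_of_eq ?_)
    rw [← ENNReal.rpow_natCast, ← ENNReal.rpow_mul,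
      ENNReal.ofReal_rpow_of_nonneg hB (by positivity)]
    congr 2
    ring
  · exact ENNReal.rpow_le_one_of_one_le_of_neg (ENNReal.one_le_ofReal.2 (Dl_zero δ he x))
      (neg_neg_of_pos (by positivity))
  · intro k hk x U hUd
    obtain ⟨U', hU', hc⟩ := Dl_cons h0 h1 e x
    have hA : Measurable fun a => ENNReal.ofReal ‖pU U a‖ := by fun_prop
    have hY : Measurable fun a => (ENNReal.ofReal √(rho δ U' a / 2))⁻¹ :=
      ((measurable_rho δ U').div_const 2).sqrt.ennreal_ofReal.inv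
    have hint : Integrable (fun a => ‖pU U a‖) μ :=
      Integrable.mono' hμ.int (by fun_prop) (ae_of_all _ fun a => by simpa using norm_pU_le U a)
    have hl : ENNReal.ofReal lam ≤ ∫⁻ a, ENNReal.ofReal ‖pU U a‖ ∂μ := by
      rw [← ofReal_integral_eq_lintegral_ofReal hint (ae_of_all _ fun a => norm_nonneg _)]
      exact ENNReal.ofReal_le_ofReal (hU U (by omega))
    have h3 := holder_HiD3 (μ := μ) hA hY hp0 hp1 (B := ENNReal.ofReal B0) (by
      refine (cs_HiD3 hN (Nat.cast_nonneg _) hi2 h2 U U' (hNb U' (by omega))).trans ?_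
      refine le_trans (le_of_eq ?_) (mul_le_mul' le_rfl hl)
      rw [← ENNReal.ofReal_mul hB, hB0, div_mul_cancel₀ _ hlam.ne'])
    calc _ ≤ ∫⁻ a, ENNReal.ofReal (Dl δ e x) ^ (-(8 / (r : ℝ))) * (ENNReal.ofReal ‖pU U a‖
            * (ENNReal.ofReal √(rho δ U' a / 2))⁻¹ ^ (8 / (r : ℝ))) ∂μ := by
          refine lintegral_mono fun a => ?_
          rw [mul_left_comm]
          refine mul_le_mul' le_rfl (step_HiD3 (D_nonneg _) (D_nonneg _) ?_ hp0 (hc a))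
          have := rho_nonneg δ U' a
          positivity
      _ ≤ _ := by
          have hm : Measurable fun a => ENNReal.ofReal ‖pU U a‖
              * (ENNReal.ofReal √(rho δ U' a / 2))⁻¹ ^ (8 / (r : ℝ)) := hA.mul (hY.pow_const _)
          rw [lintegral_const_mul _ hm, mul_comm (ENNReal.ofReal B0 ^ _), mul_assoc]
          exact mul_le_mul' le_rfl h3

end Pool.Agent.P.MP_181257_gt
end
end

-- part Pool.Agent.P.MP_181257_gt.HiG2
section

/-! A negative moment of a Gaussian quadratic form. -/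

set_option autoImplicit false
set_option linter.unusedSectionVars false
set_option linter.unusedVariables false

open MeasureTheory ProbabilityTheory Module Set Filter Topology
open scoped RealInnerProductSpace ENNReal Pointwise Matrix

noncomputable section

namespace Pool.Agent.P.MP_181257_gt

variable {V : Type} [NormedAddCommGroup V] [InnerProductSpace ℝ V] [FiniteDimensional ℝ V]
  [MeasurableSpace V] [BorelSpace V]

theorem gauss_le_HiG2 : gaussianReal 0 1 ≤ (1 / 2 : ℝ≥0∞) • (volume : Measure ℝ) := by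
  rw [gaussianReal_of_var_ne_zero 0 one_ne_zero, ← withDensity_const]
  refine withDensity_mono (Eventually.of_forall fun x => ?_)
  have h2 : (1 / 2 : ℝ≥0∞) = ENNReal.ofReal (1 / 2) := by
    rw [ENNReal.ofReal_div_of_pos (by norm_num)]; simp
  rw [h2]
  refine ENNReal.ofReal_le_ofReal ?_
  rw [gaussianPDFReal]
  have h3 : (2 : ℝ) ≤ √(2 * Real.pi * ((1 : NNReal) : ℝ)) := by
    refine Real.le_sqrt_of_sq_le ?_
    have := Real.pi_gt_three
    simp only [NNReal.coe_one]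
    nlinarith
  have h4 : (√(2 * Real.pi * ((1 : NNReal) : ℝ)))⁻¹ ≤ 1 / 2 := by
    rw [one_div]
    exact inv_anti₀ (by norm_num) h3
  have h5 : Real.exp (-(x - 0) ^ 2 / (2 * ((1 : NNReal) : ℝ))) ≤ 1 := by
    refine Real.exp_le_one_iff.2 ?_
    simp only [NNReal.coe_one]
    have := sq_nonneg (x - 0)
    linarith
  calc _ ≤ (1 / 2 : ℝ) * 1 := mul_le_mul h4 h5 (Real.exp_pos _).le (by norm_num)
    _ = 1 / 2 := by norm_num

/-- the singular part on the unit interval -/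
def gs_HiG2 (s : ℝ) : ℝ≥0∞ :=
  (Ioc (0 : ℝ) 1).indicator (fun s => ENNReal.ofReal (s ^ (-(1 / 2 : ℝ)))) s

theorem meas_gs_HiG2 : Measurable gs_HiG2 :=
  Measurable.indicator (by fun_prop) measurableSet_Ioc

theorem int_gs_HiG2 : ∫⁻ s, gs_HiG2 s = 2 := by
  unfold gs_HiG2
  rw [lintegral_indicator measurableSet_Ioc, ← ofReal_integral_eq_lintegral_ofReal]
  · rw [← intervalIntegral.integral_of_le zero_le_one, integral_rpow (Or.inl (by norm_num))]
    have : ((1 : ℝ) ^ (-(1 / 2 : ℝ) + 1) - 0 ^ (-(1 / 2 : ℝ) + 1)) / (-(1 / 2 : ℝ) + 1) = 2 := by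
      rw [Real.one_rpow, Real.zero_rpow (by norm_num)]; norm_num
    rw [this]; simp
  · exact (intervalIntegrable_iff_integrableOn_Ioc_of_le zero_le_one).1
      (intervalIntegral.intervalIntegrable_rpow' (by norm_num))
  · filter_upwards [ae_restrict_mem measurableSet_Ioc] with s hs
    exact Real.rpow_nonneg hs.1.le _

theorem pt_pos_HiG2 {s : ℝ} (hs : 0 < s) :
    ENNReal.ofReal s ^ (-(1 / 2 : ℝ)) ≤ 1 + gs_HiG2 s := by
  by_cases h : s ≤ 1
  · unfold gs_HiG2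
    rw [indicator_of_mem (show s ∈ Ioc (0 : ℝ) 1 from ⟨hs, h⟩), ENNReal.ofReal_rpow_of_pos hs]
    exact le_add_self
  · refine le_trans ?_ le_self_add
    refine ENNReal.rpow_le_one_of_one_le_of_neg ?_ (by norm_num)
    exact ENNReal.one_le_ofReal.2 (not_le.1 h).le

theorem pt_HiG2 {s : ℝ} (hs : s ≠ 0) :
    ENNReal.ofReal |s| ^ (-(1 / 2 : ℝ)) ≤ 1 + (gs_HiG2 s + gs_HiG2 (-s)) := by
  rcases lt_or_gt_of_ne hs with h | h
  · rw [abs_of_neg h]
    exact (pt_pos_HiG2 (neg_pos.2 h)).trans (add_le_add le_rfl le_add_self)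
  · rw [abs_of_pos h]
    exact (pt_pos_HiG2 h).trans (add_le_add le_rfl le_self_add)

theorem shift_neg_half (c : ℝ) :
    ∫⁻ t, ENNReal.ofReal |c + t| ^ (-(1 / 2 : ℝ)) ∂(gaussianReal 0 1) ≤ 3 := by
  have hm : Measurable fun s => gs_HiG2 s + gs_HiG2 (-s) :=
    meas_gs_HiG2.add (meas_gs_HiG2.comp measurable_neg)
  have hae : ∀ᵐ t ∂(gaussianReal 0 1), c + t ≠ 0 := by
    have h : ∀ᵐ t ∂(volume : Measure ℝ), t ≠ -c := by
      simp [ae_iff, measure_singleton]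
    filter_upwards [(gaussianReal_absolutelyContinuous 0 one_ne_zero).ae_le h] with t ht
    intro h'
    exact ht (by linarith)
  have h4 : ∫⁻ t, (gs_HiG2 (c + t) + gs_HiG2 (-(c + t))) = 4 := by
    rw [lintegral_add_left_eq_self (fun s => gs_HiG2 s + gs_HiG2 (-s)) c,
      lintegral_add_left meas_gs_HiG2, lintegral_neg_eq_self gs_HiG2, int_gs_HiG2]
    norm_num
  calc _ ≤ ∫⁻ t, (1 + (gs_HiG2 (c + t) + gs_HiG2 (-(c + t)))) ∂(gaussianReal 0 1) :=
        lintegral_mono_ae (hae.mono fun t ht => pt_HiG2 ht)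
    _ = 1 + ∫⁻ t, (gs_HiG2 (c + t) + gs_HiG2 (-(c + t))) ∂(gaussianReal 0 1) := by
        rw [lintegral_add_left measurable_const]; simp
    _ ≤ 1 + ∫⁻ t, (gs_HiG2 (c + t) + gs_HiG2 (-(c + t)))
          ∂((1 / 2 : ℝ≥0∞) • (volume : Measure ℝ)) :=
        add_le_add le_rfl (lintegral_mono' gauss_le_HiG2 le_rfl)
    _ = 3 := by
        rw [lintegral_smul_measure, h4, smul_eq_mul]
        have : (1 / 2 : ℝ≥0∞) * 4 = 2 := by
          have h : (4 : ℝ≥0∞) = 2 * 2 := by norm_num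
          rw [h, ← mul_assoc, one_div, ENNReal.inv_mul_cancel (by norm_num) (by norm_num), one_mul]
        rw [this]; norm_num

theorem shift_neg_HiG2 {a : ℝ} (h0 : 0 ≤ a) (h1 : a ≤ 1 / 2) (c : ℝ) :
    ∫⁻ t, ENNReal.ofReal |c + t| ^ (-a) ∂(gaussianReal 0 1) ≤ ENNReal.ofReal (3 ^ (2 * a)) := by
  have hm : Measurable fun t : ℝ => ENNReal.ofReal |c + t| ^ (-(1 / 2 : ℝ)) := by fun_prop
  have h := ENNReal.lintegral_mul_norm_pow_le (μ := gaussianReal 0 1) hm.aemeasurable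
    (g := fun _ => 1) aemeasurable_const (p := 2 * a) (q := 1 - 2 * a) (by linarith)
    (by linarith) (by ring)
  simp only [ENNReal.one_rpow, mul_one, lintegral_const, measure_univ] at h
  have he : ∀ t : ℝ, ENNReal.ofReal |c + t| ^ (-a)
      = (ENNReal.ofReal |c + t| ^ (-(1 / 2 : ℝ))) ^ (2 * a) := by
    intro t
    rw [← ENNReal.rpow_mul]
    congr 1
    ring
  simp only [he]
  refine h.trans ?_
  rw [← ENNReal.ofReal_rpow_of_pos (by norm_num)]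
  refine ENNReal.rpow_le_rpow ?_ (by linarith)
  simpa using shift_neg_half c

theorem scale_neg_HiG2 {a : ℝ} (h0 : 0 ≤ a) (h1 : a ≤ 1 / 2) (c : ℝ) {σ : ℝ} (hσ : 0 < σ) :
    ∫⁻ t, ENNReal.ofReal |c + t * σ| ^ (-a) ∂(gaussianReal 0 1)
      ≤ ENNReal.ofReal (3 ^ (2 * a)) * ENNReal.ofReal σ ^ (-a) := by
  have he : ∀ t : ℝ, ENNReal.ofReal |c + t * σ| ^ (-a)
      = ENNReal.ofReal |c / σ + t| ^ (-a) * ENNReal.ofReal σ ^ (-a) := by
    intro t
    rw [← ENNReal.mul_rpow_of_ne_top ENNReal.ofReal_ne_top ENNReal.ofReal_ne_top,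
      ← ENNReal.ofReal_mul (abs_nonneg _)]
    congr 2
    rw [← abs_of_pos hσ, ← abs_mul, abs_of_pos hσ]
    congr 1
    field_simp
  simp only [he]
  rw [lintegral_mul_const _ (by fun_prop)]
  exact mul_le_mul_left (shift_neg_HiG2 h0 h1 _) _

theorem prod_neg_moment {a : ℝ} (h0 : 0 ≤ a) (h1 : a ≤ 1 / 2) : ∀ (r : ℕ) (v : Fin r → V),
    ∫⁻ G, ∏ l, ENNReal.ofReal |⟪v l, G⟫| ^ (-a) ∂(stdGaussian V)
      ≤ ENNReal.ofReal (3 ^ (2 * a * r)) * ENNReal.ofReal (D v) ^ (-a) := by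
  rcases h0.eq_or_lt with rfl | hpos
  · intro r v
    simp
  intro r
  induction r with
  | zero => intro v; simp
  | succ r ih =>
    intro v
    obtain ⟨u, x, rfl⟩ : ∃ (u : V) (x : Fin r → V), v = Fin.cons u x :=
      ⟨v 0, Fin.tail v, (Fin.cons_self_tail v).symm⟩
    rw [D_cons_eq]
    by_cases hσ0 : ‖Pj r x u‖ = 0
    · rw [hσ0, mul_zero, ENNReal.ofReal_zero, ENNReal.zero_rpow_of_neg (by linarith),
        ENNReal.mul_top]
      · exact le_top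
      · exact (ENNReal.ofReal_pos.2 (Real.rpow_pos_of_pos (by norm_num) _)).ne'
    have hσ : 0 < ‖Pj r x u‖ := lt_of_le_of_ne (norm_nonneg _) (Ne.symm hσ0)
    set σ := ‖Pj r x u‖ with hσd
    set z : V := σ⁻¹ • Pj r x u with hz
    have hz1 : ‖z‖ = 1 := by
      rw [hz, norm_smul, norm_inv, Real.norm_of_nonneg hσ.le, ← hσd, inv_mul_cancel₀ hσ0]
    have hxz : ∀ l, ⟪x l, z⟫ = 0 := by
      intro l
      rw [hz, inner_smul_right, ← inner_Pj_comm, Pj_row, inner_zero_left, mul_zero]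
    have huz : ⟪u, z⟫ = σ := by
      rw [hz, inner_smul_right, real_inner_comm, inner_Pj_self, ← hσd]
      field_simp
    have hxp : ∀ l G, ⟪x l, pr z G⟫ = ⟪x l, G⟫ := by
      intro l G
      rw [pr, inner_sub_right, inner_smul_right, hxz, mul_zero, sub_zero]
    have hF : Measurable fun G : V =>
        ∏ l, ENNReal.ofReal |⟪(Fin.cons u x : Fin (r + 1) → V) l, G⟫| ^ (-a) := by
      fun_prop
    have hP : Measurable fun G : V => ∏ l, ENNReal.ofReal |⟪x l, G⟫| ^ (-a) := by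
      fun_prop
    have hF2 : Measurable fun q : V × ℝ =>
        ∏ l, ENNReal.ofReal |⟪(Fin.cons u x : Fin (r + 1) → V) l, pr z q.1 + q.2 • z⟫| ^ (-a) :=
      hF.comp (mp_pr_split hz1).measurable
    rw [← (mp_pr_split hz1).lintegral_comp hF, lintegral_prod _ hF2.aemeasurable]
    calc _ ≤ ∫⁻ G, (ENNReal.ofReal (3 ^ (2 * a)) * ENNReal.ofReal σ ^ (-a))
            * ∏ l, ENNReal.ofReal |⟪x l, G⟫| ^ (-a) ∂(stdGaussian V) := by
          refine lintegral_mono fun G => ?_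
          simp only [Fin.prod_univ_succ, Fin.cons_zero, Fin.cons_succ, inner_add_right,
            inner_smul_right, hxz, hxp, huz, mul_zero, add_zero]
          rw [lintegral_mul_const _ (by fun_prop)]
          exact mul_le_mul_left (scale_neg_HiG2 h0 h1 _ hσ) _
      _ = (ENNReal.ofReal (3 ^ (2 * a)) * ENNReal.ofReal σ ^ (-a))
            * ∫⁻ G, ∏ l, ENNReal.ofReal |⟪x l, G⟫| ^ (-a) ∂(stdGaussian V) :=
          lintegral_const_mul _ hP
      _ ≤ (ENNReal.ofReal (3 ^ (2 * a)) * ENNReal.ofReal σ ^ (-a))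
            * (ENNReal.ofReal (3 ^ (2 * a * r)) * ENNReal.ofReal (D x) ^ (-a)) :=
          mul_le_mul_right (ih x) _
      _ = _ := by
          rw [ENNReal.ofReal_mul (D_nonneg x),
            ENNReal.mul_rpow_of_ne_top ENNReal.ofReal_ne_top ENNReal.ofReal_ne_top]
          have h3 : (3 : ℝ) ^ (2 * a * ((r + 1 : ℕ) : ℝ)) = 3 ^ (2 * a) * 3 ^ (2 * a * r) := by
            rw [← Real.rpow_add (by norm_num)]
            congr 1
            push_cast
            ring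
          rw [h3, ENNReal.ofReal_mul (Real.rpow_nonneg (by norm_num) _)]
          ring

theorem amgm_HiG2 {r : ℕ} (hr : 0 < r) (y : Fin r → ℝ) :
    (r : ℝ) * (∏ l, |y l|) ^ (2 / (r : ℝ)) ≤ ∑ l, y l ^ 2 := by
  have hr' : (0 : ℝ) < r := Nat.cast_pos.2 hr
  have h := Real.geom_mean_le_arith_mean_weighted (Finset.univ : Finset (Fin r))
    (fun _ => 1 / (r : ℝ)) (fun l => y l ^ 2) (fun _ _ => by positivity)
    (by simp; field_simp) (fun _ _ => sq_nonneg _)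
  have he : (∏ l, |y l|) ^ (2 / (r : ℝ)) = ∏ l, (y l ^ 2) ^ (1 / (r : ℝ)) := by
    rw [← Real.finsetProd_rpow _ _ (fun l _ => abs_nonneg _)]
    refine Finset.prod_congr rfl fun l _ => ?_
    rw [← sq_abs, ← Real.rpow_natCast, ← Real.rpow_mul (abs_nonneg _)]
    congr 1
    push_cast
    ring
  rw [he]
  rw [← Finset.mul_sum] at h
  calc _ ≤ (r : ℝ) * (1 / (r : ℝ) * ∑ l, y l ^ 2) := mul_le_mul_of_nonneg_left h hr'.le
    _ = _ := by field_simp

theorem neg_moment {r : ℕ} (hr : 16 ≤ r) (v : Fin r → V) :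
    ∫⁻ G, (ENNReal.ofReal (∑ l, ⟪v l, G⟫ ^ 2))⁻¹ ^ 4 ∂(stdGaussian V)
      ≤ ENNReal.ofReal (3 ^ 16 / (r : ℝ) ^ 4) * ENNReal.ofReal (D v) ^ (-(8 / (r : ℝ))) := by
  have hr0 : 0 < r := by omega
  have hr' : (0 : ℝ) < r := Nat.cast_pos.2 hr0
  have hr16 : (16 : ℝ) ≤ r := by exact_mod_cast hr
  have ha0 : (0 : ℝ) ≤ 8 / (r : ℝ) := by positivity
  have ha1 : 8 / (r : ℝ) ≤ 1 / 2 := by
    rw [div_le_div_iff₀ hr' (by norm_num)]; linarith
  have hpt : ∀ G : V, (ENNReal.ofReal (∑ l, ⟪v l, G⟫ ^ 2))⁻¹ ^ 4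
      ≤ ENNReal.ofReal (1 / (r : ℝ) ^ 4)
        * ∏ l, ENNReal.ofReal |⟪v l, G⟫| ^ (-(8 / (r : ℝ))) := by
    intro G
    have hn : 0 ≤ ∏ l, |⟪v l, G⟫| := Finset.prod_nonneg fun l _ => abs_nonneg _
    rw [ENNReal.prod_rpow_of_ne_top (fun l _ => ENNReal.ofReal_ne_top),
      ← ENNReal.ofReal_prod_of_nonneg (fun l _ => abs_nonneg _)]
    have h := ENNReal.ofReal_le_ofReal (amgm_HiG2 hr0 fun l => ⟪v l, G⟫)
    rw [ENNReal.ofReal_mul hr'.le, ← ENNReal.ofReal_rpow_of_nonneg hn (by positivity)] at h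
    refine (pow_le_pow_left' (ENNReal.inv_le_inv.2 h) 4).trans (le_of_eq ?_)
    rw [ENNReal.mul_inv (Or.inl (ENNReal.ofReal_pos.2 hr').ne') (Or.inl ENNReal.ofReal_ne_top),
      mul_pow, ← ENNReal.ofReal_inv_of_pos hr', ← ENNReal.ofReal_pow (inv_nonneg.2 hr'.le),
      ← ENNReal.rpow_neg, ← ENNReal.rpow_natCast, ← ENNReal.rpow_mul]
    congr 2
    · rw [one_div, inv_pow]
    · push_cast; ring
  calc _ ≤ ∫⁻ G, ENNReal.ofReal (1 / (r : ℝ) ^ 4)
        * ∏ l, ENNReal.ofReal |⟪v l, G⟫| ^ (-(8 / (r : ℝ))) ∂(stdGaussian V) :=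
        lintegral_mono hpt
    _ = ENNReal.ofReal (1 / (r : ℝ) ^ 4)
        * ∫⁻ G, ∏ l, ENNReal.ofReal |⟪v l, G⟫| ^ (-(8 / (r : ℝ))) ∂(stdGaussian V) :=
        lintegral_const_mul _ (by fun_prop)
    _ ≤ ENNReal.ofReal (1 / (r : ℝ) ^ 4) * (ENNReal.ofReal (3 ^ (2 * (8 / (r : ℝ)) * r))
        * ENNReal.ofReal (D v) ^ (-(8 / (r : ℝ)))) :=
        mul_le_mul_right (prod_neg_moment ha0 ha1 r v) _
    _ = _ := by
        rw [← mul_assoc, ← ENNReal.ofReal_mul (by positivity)]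
        have h16 : 2 * (8 / (r : ℝ)) * r = ((16 : ℕ) : ℝ) := by
          push_cast; field_simp; norm_num
        rw [h16, Real.rpow_natCast]
        congr 2
        ring

end Pool.Agent.P.MP_181257_gt
end
end

-- part Pool.Agent.P.MP_181257_gt.HiD4
section

/-! From the determinant to the Gaussian normal vector. -/

set_option autoImplicit false
set_option linter.unusedSectionVars false
set_option linter.unusedVariables false

open MeasureTheory ProbabilityTheory Module Set Filter Topology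
open scoped RealInnerProductSpace ENNReal Pointwise Matrix

noncomputable section

namespace Pool.Agent.P.MP_181257_gt

variable {V : Type} [NormedAddCommGroup V] [InnerProductSpace ℝ V] [FiniteDimensional ℝ V]
  [MeasurableSpace V] [BorelSpace V]

theorem mp_fst_HiD4 :
    MeasurePreserving (fun G : Db V => G.fst) (stdGaussian (Db V)) (stdGaussian V) := by
  refine mp_coiso _ (by fun_prop) (fun t => WithLp.toLp 2 (t, 0)) (fun z t => ?_) fun t => ?_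
  · simp [WithLp.prod_inner_apply]
  · simp

/-- the quadratic form -/
def eta_HiD4 {r k : ℕ} (δ : ℝ) (e : Fin r → V) (p : (Fin k → V) × Db V) : ℝ :=
  ∑ l, ⟪(WithLp.toLp 2 (Pj k p.1 (e l), δ • e l) : Db V), p.2⟫ ^ 2

theorem eta_eq_HiD4 {r k : ℕ} (δ : ℝ) (e : Fin r → V) (p : (Fin k → V) × Db V) :
    eta_HiD4 δ e p = ∑ l, (⟪e l, Pj k p.1 p.2.fst⟫ + δ * ⟪e l, p.2.snd⟫) ^ 2 := by
  unfold eta_HiD4
  refine Finset.sum_congr rfl fun l _ => ?_
  rw [WithLp.prod_inner_apply, ← inner_Pj_comm]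
  simp [real_inner_smul_left]

theorem meas_eta_HiD4 {r k : ℕ} (δ : ℝ) (e : Fin r → V) :
    Measurable (eta_HiD4 (k := k) δ e) := by
  have h1 : Measurable fun p : (Fin k → V) × Db V => Pj k p.1 p.2.fst :=
    measurable_Pj k measurable_fst (by fun_prop)
  rw [funext (eta_eq_HiD4 δ e)]
  fun_prop

theorem neg_HiD4 {μ : Measure V} {i r : ℕ} (hr : 16 ≤ r) {δ M : ℝ} {e : Fin r → V}
    (hM : ∫⁻ x, ENNReal.ofReal (Dl δ e x) ^ (-(8 / (r : ℝ))) ∂(Fr i μ) ≤ ENNReal.ofReal M) :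
    ∫⁻ p, (ENNReal.ofReal (eta_HiD4 δ e p))⁻¹ ^ 4 ∂((Fr i μ).prod (stdGaussian (Db V)))
      ≤ ENNReal.ofReal (3 ^ 16 / (r : ℝ) ^ 4 * M) := by
  have hm : Measurable fun p : (Fin i → V) × Db V => (ENNReal.ofReal (eta_HiD4 δ e p))⁻¹ ^ 4 :=
    (meas_eta_HiD4 δ e).ennreal_ofReal.inv.pow_const 4
  rw [lintegral_prod _ hm.aemeasurable, ENNReal.ofReal_mul (by positivity)]
  have h1 : ∀ x : Fin i → V,
      ∫⁻ G, (ENNReal.ofReal (eta_HiD4 δ e (x, G)))⁻¹ ^ 4 ∂(stdGaussian (Db V))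
        ≤ ENNReal.ofReal (3 ^ 16 / (r : ℝ) ^ 4)
          * ENNReal.ofReal (Dl δ e x) ^ (-(8 / (r : ℝ))) := fun x =>
    neg_moment hr fun l => (WithLp.toLp 2 (Pj i x (e l), δ • e l) : Db V)
  refine (lintegral_mono h1).trans ?_
  rw [lintegral_const_mul' _ _ ENNReal.ofReal_ne_top]
  exact mul_le_mul_right hM _

theorem lift_HiD4 {μ : Measure V} (hμ : Mom μ) {i : ℕ} (hW : 0 < Wr i μ) {φ : V → ℝ≥0∞}
    (hφ : Measurable φ) : ∫⁻ y, φ y ∂(Tn i μ)
      = ∫⁻ p, φ (Pj i p.1 p.2.fst) ∂((Fr i μ).prod (stdGaussian (Db V))) := by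
  have hm : Measurable fun p : (Fin i → V) × Db V => φ (Pj i p.1 p.2.fst) :=
    hφ.comp (measurable_Pj i measurable_fst (by fun_prop))
  rw [lintegral_Tn hμ hW hφ, lintegral_prod _ hm.aemeasurable]
  refine lintegral_congr fun x => ?_
  exact (mp_fst_HiD4.lintegral_comp (hφ.comp (Pj i x).continuous.measurable)).symm

theorem eta_le_HiD4 {r k : ℕ} (δ : ℝ) {e : Fin r → V} (he : Orthonormal ℝ e) {U : Submodule ℝ V}
    (hU : ∀ l, e l ∈ U) (p : (Fin k → V) × Db V) :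
    eta_HiD4 δ e p ≤ 2 * ‖p.2‖ ^ 2 * rho δ U (Pj k p.1 p.2.fst) := by
  set w := Pj k p.1 p.2.fst with hw
  have h1 := sum_inner_sq_le he hU w
  have h2 := (sum_inner_sq_le he hU p.2.snd).trans
    (pow_le_pow_left₀ (norm_nonneg _) (norm_pU_le U _) 2)
  have h3 : ‖p.2‖ ^ 2 = ‖p.2.fst‖ ^ 2 + ‖p.2.snd‖ ^ 2 := WithLp.prod_norm_sq_eq_of_L2 p.2
  have h4 : ‖w‖ ^ 2 ≤ ‖p.2.fst‖ ^ 2 := pow_le_pow_left₀ (norm_nonneg _) (norm_Pj_le _ _) 2
  have h5 : ‖pU U w‖ ^ 2 ≤ ‖p.2‖ ^ 2 * (‖pU U w‖ ^ 2 / ‖w‖ ^ 2) := by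
    rcases (norm_nonneg w).eq_or_lt with h0 | h0
    · have : w = 0 := norm_eq_zero.1 h0.symm
      simp [this]
    · rw [← mul_div_assoc, le_div_iff₀ (by positivity), mul_comm]
      exact mul_le_mul_of_nonneg_right (by nlinarith [sq_nonneg ‖p.2.snd‖]) (by positivity)
  have h6 : eta_HiD4 δ e p ≤ 2 * ∑ l, ⟪e l, w⟫ ^ 2 + 2 * δ ^ 2 * ∑ l, ⟪e l, p.2.snd⟫ ^ 2 := by
    rw [eta_eq_HiD4, Finset.mul_sum, Finset.mul_sum, ← Finset.sum_add_distrib]
    refine Finset.sum_le_sum fun l _ => ?_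
    nlinarith [sq_nonneg (⟪e l, w⟫ - δ * ⟪e l, p.2.snd⟫)]
  have h7 : δ ^ 2 * ∑ l, ⟪e l, p.2.snd⟫ ^ 2 ≤ δ ^ 2 * ‖p.2‖ ^ 2 :=
    mul_le_mul_of_nonneg_left (by nlinarith [sq_nonneg ‖p.2.fst‖]) (sq_nonneg δ)
  unfold rho
  nlinarith

theorem rho_moment {μ : Measure V} (hμ : Mom μ) {i r : ℕ} (hW : 0 < Wr i μ) (hr : 16 ≤ r)
    {δ : ℝ} (h0 : 0 ≤ δ) {M : ℝ} (hM0 : 0 ≤ M)
    (hM : ∀ e : Fin r → V, Orthonormal ℝ e →
      ∫⁻ x, ENNReal.ofReal (Dl δ e x) ^ (-(8 / (r : ℝ))) ∂(Fr i μ) ≤ ENNReal.ofReal M)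
    (U : Submodule ℝ V) (hU : r ≤ finrank ℝ U) :
    ∫⁻ y, (ENNReal.ofReal (rho δ U y))⁻¹ ^ 2 ∂(Tn i μ)
      ≤ ENNReal.ofReal (4 * √((2 * finrank ℝ V) ^ 4 * Km 4) * √(3 ^ 16 / (r : ℝ) ^ 4 * M)) := by
  obtain ⟨e, he, heU⟩ := exists_on U hU
  have := Fr_prob hμ hW
  have hfr : finrank ℝ (Db V) = 2 * finrank ℝ V := by
    rw [(WithLp.linearEquiv 2 ℝ (V × V)).finrank_eq, Module.finrank_prod, two_mul]
  have h1 : 1 ≤ finrank ℝ (Db V) := by
    have := Submodule.finrank_le U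
    omega
  set Q := (Fr i μ).prod (stdGaussian (Db V)) with hQ
  have hm : Measurable fun y => (ENNReal.ofReal (rho δ U y))⁻¹ ^ 2 :=
    (measurable_rho δ U).ennreal_ofReal.inv.pow_const 2
  rw [lift_HiD4 hμ hW hm]
  have hae : ∀ᵐ p ∂Q, p.2 ≠ 0 :=
    (measurePreserving_snd (μ := Fr i μ)).quasiMeasurePreserving.ae (ae_ne_zero h1)
  have hf : Measurable fun p : (Fin i → V) × Db V => ENNReal.ofReal (‖p.2‖ ^ 4) := by fun_prop
  have hg : Measurable fun p : (Fin i → V) × Db V => (ENNReal.ofReal (eta_HiD4 δ e p))⁻¹ ^ 2 :=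
    (meas_eta_HiD4 δ e).ennreal_ofReal.inv.pow_const 2
  have a1 : ∫⁻ p, (ENNReal.ofReal (rho δ U (Pj i p.1 p.2.fst)))⁻¹ ^ 2 ∂Q
      ≤ ∫⁻ p, 4 * (ENNReal.ofReal (‖p.2‖ ^ 4) * (ENNReal.ofReal (eta_HiD4 δ e p))⁻¹ ^ 2) ∂Q := by
    refine lintegral_mono_ae (hae.mono fun p hp => ?_)
    have hp' : 0 < 2 * ‖p.2‖ ^ 2 := by
      have := norm_pos_iff.2 hp
      positivity
    have b1 := ENNReal.ofReal_le_ofReal (eta_le_HiD4 δ he heU p)
    rw [ENNReal.ofReal_mul hp'.le] at b1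
    have c0 : ENNReal.ofReal (2 * ‖p.2‖ ^ 2) ≠ 0 := by simpa using hp
    have b2 := ENNReal.inv_le_inv.2 b1
    rw [ENNReal.mul_inv (Or.inl c0) (Or.inl ENNReal.ofReal_ne_top)] at b2
    have b3 := mul_le_mul_right b2 (ENNReal.ofReal (2 * ‖p.2‖ ^ 2))
    rw [← mul_assoc, ENNReal.mul_inv_cancel c0 ENNReal.ofReal_ne_top, one_mul] at b3
    refine (pow_le_pow_left' b3 2).trans (le_of_eq ?_)
    rw [mul_pow, ← mul_assoc, ← ENNReal.ofReal_pow hp'.le,
      show (2 * ‖p.2‖ ^ 2) ^ 2 = 4 * ‖p.2‖ ^ 4 by ring, ENNReal.ofReal_mul (by norm_num)]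
    simp
  have a2 := ENNReal.lintegral_mul_le_Lp_mul_Lq Q Real.HolderConjugate.two_two hf.aemeasurable
    hg.aemeasurable
  have a3 : ∫⁻ p, ENNReal.ofReal (‖p.2‖ ^ 4) ^ (2 : ℝ) ∂Q
      ≤ ENNReal.ofReal ((2 * finrank ℝ V) ^ 4 * Km 4) := by
    have e1 : ∫⁻ p, ENNReal.ofReal (‖p.2‖ ^ 4) ^ (2 : ℝ) ∂Q
        = ∫⁻ G, ENNReal.ofReal (‖G‖ ^ (2 * 4)) ∂(stdGaussian (Db V)) := by
      rw [← (measurePreserving_snd (μ := Fr i μ) (ν := stdGaussian (Db V))).lintegral_comp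
        (f := fun G => ENNReal.ofReal (‖G‖ ^ (2 * 4))) (by fun_prop)]
      refine lintegral_congr fun p => ?_
      rw [ENNReal.rpow_two, ← ENNReal.ofReal_pow (by positivity)]
      congr 1
      ring
    rw [e1, ← ofReal_integral_eq_lintegral_ofReal (integrable_norm_pow _)
      (ae_of_all _ fun G => by positivity)]
    refine ENNReal.ofReal_le_ofReal ((integral_norm_pow_le (by norm_num)).trans (le_of_eq ?_))
    rw [hfr]
    push_cast
    ring
  have a4 : ∫⁻ p, ((ENNReal.ofReal (eta_HiD4 δ e p))⁻¹ ^ 2) ^ (2 : ℝ) ∂Q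
      ≤ ENNReal.ofReal (3 ^ 16 / (r : ℝ) ^ 4 * M) := by
    refine le_trans (le_of_eq (lintegral_congr fun p => ?_)) (neg_HiD4 hr (hM e he))
    rw [ENNReal.rpow_two, ← pow_mul]
  have k4 := Km_nonneg 4
  refine a1.trans ?_
  rw [lintegral_const_mul' _ _ (by simp), mul_assoc, ENNReal.ofReal_mul (by norm_num),
    ENNReal.ofReal_mul (by positivity), Real.sqrt_eq_rpow, Real.sqrt_eq_rpow,
    ← ENNReal.ofReal_rpow_of_nonneg (by positivity) (by norm_num),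
    ← ENNReal.ofReal_rpow_of_nonneg (by positivity) (by norm_num)]
  refine mul_le_mul' (by simp) (a2.trans (mul_le_mul' ?_ ?_))
  · exact ENNReal.rpow_le_rpow a3 (by norm_num)
  · exact ENNReal.rpow_le_rpow a4 (by norm_num)

theorem pU_moment {μ : Measure V} (hμ : Mom μ) {i r : ℕ} (hW : 0 < Wr i μ) (hr : 16 ≤ r)
    {M : ℝ} (hM0 : 0 ≤ M)
    (hM : ∀ e : Fin r → V, Orthonormal ℝ e →
      ∫⁻ x, ENNReal.ofReal (Dl 0 e x) ^ (-(8 / (r : ℝ))) ∂(Fr i μ) ≤ ENNReal.ofReal M)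
    (U : Submodule ℝ V) (hU : r ≤ finrank ℝ U) :
    ∫⁻ y, (ENNReal.ofReal ‖pU U y‖)⁻¹ ^ 8 ∂(Tn i μ)
      ≤ ENNReal.ofReal (3 ^ 16 / (r : ℝ) ^ 4 * M) := by
  obtain ⟨e, he, heU⟩ := exists_on U hU
  have hm : Measurable fun y => (ENNReal.ofReal ‖pU U y‖)⁻¹ ^ 8 :=
    (pU U).continuous.measurable.norm.ennreal_ofReal.inv.pow_const 8
  rw [lift_HiD4 hμ hW hm]
  refine (lintegral_mono fun p => ?_).trans (neg_HiD4 hr (hM e he))
  have h1 : eta_HiD4 0 e p ≤ ‖pU U (Pj i p.1 p.2.fst)‖ ^ 2 := by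
    rw [eta_eq_HiD4]
    simpa using sum_inner_sq_le he heU (Pj i p.1 p.2.fst)
  have h2 := ENNReal.inv_le_inv.2 (ENNReal.ofReal_le_ofReal h1)
  rw [ENNReal.ofReal_pow (norm_nonneg _), ENNReal.inv_pow] at h2
  refine le_trans (le_of_eq ?_) (pow_le_pow_left' h2 4)
  rw [← pow_mul]

end Pool.Agent.P.MP_181257_gt
end
end

-- part Pool.Agent.P.MP_181257_gt.HiA1
section

/-! Alexandrov-Fenchel inequality for a base measure that dominates the Gaussian. -/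

set_option autoImplicit false
set_option linter.unusedSectionVars false
set_option linter.unusedVariables false

open MeasureTheory ProbabilityTheory Module Set Filter Topology
open scoped RealInnerProductSpace ENNReal Pointwise Matrix

noncomputable section

namespace Pool.Agent.P.MP_181257_gt

variable {V : Type} [NormedAddCommGroup V] [InnerProductSpace ℝ V] [FiniteDimensional ℝ V]
  [MeasurableSpace V] [BorelSpace V]

/-- first moment and a uniform lower bound for the mean length -/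
structure Good_HiA1 (ρ : Measure V) : Prop where
  mom : Mom ρ
  low : ∃ c : ℝ, 0 < c ∧ ∀ T : V →L[ℝ] V, Ex T 1 → c ≤ ∫ x, ‖T x‖ ∂ρ

/-- the constant of the lower bound -/
def cc_HiA1 (ρ : Measure V) [h : Fact (Good_HiA1 ρ)] : ℝ := h.out.low.choose

theorem cc_pos_HiA1 (ρ : Measure V) [h : Fact (Good_HiA1 ρ)] : 0 < cc_HiA1 ρ :=
  h.out.low.choose_spec.1

theorem cc_le_HiA1 {ρ : Measure V} [h : Fact (Good_HiA1 ρ)] {T : V →L[ℝ] V} (hT : Ex T 1) :
    cc_HiA1 ρ ≤ ∫ x, ‖T x‖ ∂ρ :=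
  h.out.low.choose_spec.2 T hT

theorem good_HiA1 {ρ : Measure V} (hρ : Mom ρ) {c : ℝ} (hc : 0 < c)
    (hcρ : ENNReal.ofReal c • stdGaussian V ≤ ρ) : Good_HiA1 ρ := by
  refine ⟨hρ, c * c0, mul_pos hc c0_pos, fun T hT => ?_⟩
  have hi : Integrable (fun x => ‖T x‖) ρ :=
    Integrable.mono' hρ.int (by fun_prop) (ae_of_all _ fun x => by simpa using hT.le x)
  calc c * c0 ≤ c * ∫ x, ‖T x‖ ∂(stdGaussian V) := mul_le_mul_of_nonneg_left hT.c0_le hc.le
    _ = ∫ x, ‖T x‖ ∂(ENNReal.ofReal c • stdGaussian V) := by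
      rw [integral_smul_measure, ENNReal.toReal_ofReal hc.le, smul_eq_mul]
    _ ≤ _ := integral_mono_measure hcρ (ae_of_all _ fun x => norm_nonneg _) hi

section copy

variable {ρ : Measure V} [IsProbabilityMeasure ρ] [Fact (Good_HiA1 ρ)]

theorem integrable_D_HiA1 {k : ℕ} (T : V →L[ℝ] V) (hT : ∀ x, ‖T x‖ ≤ ‖x‖) {g : Fin k → V → ℝ}
    (hg : ∀ j, Bd (g j)) :
    Integrable (fun x : Fin k → V => D (fun j => T (x j)) * ∏ j, g j (x j)) (mk ρ k) := by
  choose C hC using fun j => (hg j).bdd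
  refine Integrable.mono' ((integrable_prod_norm_mk (Fact.out : Good_HiA1 ρ).mom k).mul_const (∏ j, C j))
    (af_measurable T hg).aestronglyMeasurable (ae_of_all _ fun x => ?_)
  rw [Real.norm_eq_abs, abs_mul, abs_of_nonneg (D_nonneg _), Finset.abs_prod]
  refine mul_le_mul ((D_le_prod _).trans ?_) ?_ (by positivity) (by positivity)
  · exact Finset.prod_le_prod (fun _ _ => norm_nonneg _) fun j _ => by simpa using hT _
  · exact Finset.prod_le_prod (fun _ _ => abs_nonneg _) fun j _ => hC j _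

/-- mixed volume of projected zonoids -/
def IIR_HiA1 (ρ : Measure V) {k : ℕ} (T : V →L[ℝ] V) (g : Fin k → V → ℝ) : ℝ :=
  ∫ x, D (fun j => T (x j)) * ∏ j, g j (x j) ∂(mk ρ k)

theorem integrable_norm_T_HiA1 {T : V →L[ℝ] V} (hT : ∀ x, ‖T x‖ ≤ ‖x‖) :
    Integrable (fun x => ‖T x‖) ρ :=
  Integrable.mono' (Fact.out : Good_HiA1 ρ).mom.int (by fun_prop)
    (ae_of_all _ fun x => by simpa using hT x)

theorem II_perm_HiA1 {k : ℕ} (T : V →L[ℝ] V) {g : Fin k → V → ℝ} (hg : ∀ j, Bd (g j))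
    (σ : Equiv.Perm (Fin k)) : IIR_HiA1 ρ T (fun j => g (σ j)) = IIR_HiA1 ρ T g := by
  unfold IIR_HiA1
  rw [← af_mp_integral (mp_perm ρ σ)
    (af_measurable T (g := fun j => g (σ j)) fun j => hg _).aestronglyMeasurable]
  congr 1
  ext x
  rw [D_perm (fun j => T (x j)) σ, Equiv.prod_comp σ fun j => g j (x j)]

theorem II_cons_HiA1 {k : ℕ} {T : V →L[ℝ] V} (hT : ∀ x, ‖T x‖ ≤ ‖x‖) {a : V → ℝ} {g : Fin k → V → ℝ}
    (ha : Bd a) (hg : ∀ j, Bd (g j)) :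
    Integrable (fun x => a x * (‖T x‖ * IIR_HiA1 ρ (lk T x) g)) ρ ∧
      IIR_HiA1 ρ T (Fin.cons a g : Fin (k + 1) → V → ℝ)
        = ∫ x, a x * (‖T x‖ * IIR_HiA1 ρ (lk T x) g) ∂ρ := by
  have hi := integrable_D_HiA1 (ρ := ρ) T hT (bd_cons ha hg)
  have hi2 := (mp_cons (k := k) ρ).integrable_comp_of_integrable hi
  have e : ∀ x : V, ∫ y : Fin k → V, a x * (‖T x‖ * (D (fun j => lk T x (y j)) * ∏ j, g j (y j)))
      ∂(mk ρ k) = a x * (‖T x‖ * IIR_HiA1 ρ (lk T x) g) := fun x => by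
    rw [integral_const_mul, integral_const_mul]; rfl
  have hi3 : Integrable (fun q : V × (Fin k → V) =>
      a q.1 * (‖T q.1‖ * (D (fun j => lk T q.1 (q.2 j)) * ∏ j, g j (q.2 j))))
      (ρ.prod (mk ρ k)) := by
    refine hi2.congr (ae_of_all _ fun q => ?_)
    exact II_cons_aux T a g q.1 q.2
  refine ⟨by simpa only [e] using hi3.integral_prod_left, ?_⟩
  unfold IIR_HiA1
  rw [← af_mp_integral (mp_cons (k := k) ρ) hi.aestronglyMeasurable]
  simp only [II_cons_aux]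
  rw [integral_prod _ hi3]
  exact congrArg _ (funext e)

theorem II_nonneg_HiA1 {k : ℕ} (T : V →L[ℝ] V) {g : Fin k → V → ℝ} (hg : ∀ j, Pos (g j)) :
    0 ≤ IIR_HiA1 ρ T g :=
  integral_nonneg fun _ => mul_nonneg (D_nonneg _)
    (Finset.prod_nonneg fun j _ => ((hg j).pos _).le)

theorem II_one_ge_HiA1 : ∀ (k : ℕ) {T : V →L[ℝ] V}, Ex T k →
    cc_HiA1 ρ ^ k ≤ IIR_HiA1 ρ T fun (_ : Fin k) (_ : V) => (1 : ℝ)
  | 0, T, _ => by simp [IIR_HiA1]
  | k + 1, T, h => by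
    have e : (fun (_ : Fin (k + 1)) (_ : V) => (1 : ℝ))
        = Fin.cons (fun _ => 1) fun (_ : Fin k) (_ : V) => (1 : ℝ) := by
      ext j; refine Fin.cases ?_ (fun j => ?_) j <;> simp
    obtain ⟨hi, he⟩ := II_cons_HiA1 (ρ := ρ) (k := k) h.le bd_one (g := fun _ _ => 1) fun _ => bd_one
    rw [e, he]
    calc cc_HiA1 ρ ^ (k + 1) = cc_HiA1 ρ * cc_HiA1 ρ ^ k := by ring
      _ ≤ (∫ x, ‖T x‖ ∂ρ) * cc_HiA1 ρ ^ k :=
        mul_le_mul_of_nonneg_right (cc_le_HiA1 (h.mono (by omega))) (pow_pos (cc_pos_HiA1 ρ) k).le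
      _ = ∫ x, ‖T x‖ * cc_HiA1 ρ ^ k ∂ρ := (integral_mul_const _ _).symm
      _ ≤ _ := by
        refine integral_mono ((integrable_norm_T_HiA1 h.le).mul_const _) hi fun x => ?_
        simp only [one_mul]
        exact mul_le_mul_of_nonneg_left (II_one_ge_HiA1 k (h.lk x)) (norm_nonneg _)

theorem II_bounds_HiA1 {k : ℕ} {g : Fin k → V → ℝ} (hg : ∀ j, Pos (g j)) :
    ∃ c C : ℝ, 0 < c ∧ ∀ T : V →L[ℝ] V, Ex T k → c ≤ IIR_HiA1 ρ T g ∧ IIR_HiA1 ρ T g ≤ C := by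
  choose c C hc h using fun j => (hg j).bdd
  have hcp : 0 < ∏ j, c j := Finset.prod_pos fun j _ => hc j
  refine ⟨cc_HiA1 ρ ^ k * ∏ j, c j, (∫ x, ∏ j, ‖x j‖ ∂(mk ρ k)) * ∏ j, C j,
    mul_pos (pow_pos (cc_pos_HiA1 ρ) k) hcp, fun T hT => ⟨?_, ?_⟩⟩
  · refine (mul_le_mul_of_nonneg_right (II_one_ge_HiA1 k hT) hcp.le).trans ?_
    unfold IIR_HiA1
    rw [← integral_mul_const]
    refine integral_mono ((integrable_D_HiA1 T hT.le fun _ => bd_one).mul_const _)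
      (integrable_D_HiA1 T hT.le fun j => (hg j).bd) fun x => ?_
    simp only [Finset.prod_const_one, mul_one]
    exact mul_le_mul_of_nonneg_left
      (Finset.prod_le_prod (fun j _ => (hc j).le) fun j _ => (h j _).1) (D_nonneg _)
  · unfold IIR_HiA1
    rw [← integral_mul_const]
    refine integral_mono (integrable_D_HiA1 T hT.le fun j => (hg j).bd)
      ((integrable_prod_norm_mk (Fact.out : Good_HiA1 ρ).mom k).mul_const _) fun x => ?_
    refine mul_le_mul ((D_le_prod _).trans ?_) ?_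
      (Finset.prod_nonneg fun j _ => ((hg j).pos _).le) (by positivity)
    · exact Finset.prod_le_prod (fun _ _ => norm_nonneg _) fun j _ => by simpa using hT.le _
    · exact Finset.prod_le_prod (fun j _ => ((hg j).pos _).le) fun j _ => (h j _).2

theorem om_eq_HiA1 {k : ℕ} (T : V →L[ℝ] V) (g : Fin k → V → ℝ) (x z : V) :
    omR ρ T g (x, z) = ‖T x‖ * (‖lk T x z‖ * IIR_HiA1 ρ (lk (lk T x) z) g) := by
  unfold omR IIR_HiA1
  rw [← integral_const_mul, ← integral_const_mul]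
  congr 1
  ext y
  rw [D_succ, D_succ]
  simp only [Fin.cons_zero, Fin.cons_succ, lk_apply]
  ring

theorem om_eq2_HiA1 {k : ℕ} (T : V →L[ℝ] V) (g : Fin k → V → ℝ) (x z : V) :
    omR ρ T g (x, z) = D ![T x, T z] * IIR_HiA1 ρ (lk (lk T x) z) g := by
  rw [om_eq_HiA1, D_two, lk_apply, mul_assoc]

theorem om_symm_HiA1 {k : ℕ} (T : V →L[ℝ] V) (g : Fin k → V → ℝ) (x z : V) :
    omR ρ T g (x, z) = omR ρ T g (z, x) := by
  unfold omR
  congr 1
  ext y
  congr 1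
  have e : ∀ a b : V, (fun j => T ((Fin.cons a (Fin.cons b y : Fin (k + 1) → V) :
      Fin (k + 2) → V) j)) = Fin.cons (T a) (Fin.cons (T b) fun j => T (y j) : Fin (k + 1) → V) := by
    intro a b
    ext j
    refine Fin.cases ?_ (fun j => Fin.cases ?_ (fun j => ?_) j) j <;> simp
  rw [e, e, D_swap]

theorem measurable_om_HiA1 {k : ℕ} (T : V →L[ℝ] V) {g : Fin k → V → ℝ} (hg : ∀ j, Bd (g j)) :
    Measurable (omR ρ T g) := by
  unfold omR
  refine (StronglyMeasurable.integral_prod_right (f := fun (p : V × V) (y : Fin k → V) =>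
    D (fun j => T ((Fin.cons p.1 (Fin.cons p.2 y : Fin (k + 1) → V) : Fin (k + 2) → V) j))
      * ∏ j, g j (y j)) (Measurable.stronglyMeasurable ?_)).measurable
  refine Measurable.mul (measurable_D (measurable_pi_lambda _ fun j => ?_))
    (Finset.measurable_prod _ fun j _ => ?_)
  · refine Fin.cases ?_ (fun j => Fin.cases ?_ (fun j => ?_) j) j <;>
      simp only [Fin.cons_zero, Fin.cons_succ] <;> fun_prop
  · exact (hg j).meas.comp ((measurable_pi_apply j).comp measurable_snd)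

theorem integrable_D2_HiA1 {T : V →L[ℝ] V} (hT : ∀ x, ‖T x‖ ≤ ‖x‖) :
    Integrable (fun p : V × V => D ![T p.1, T p.2]) (ρ.prod ρ) := by
  refine Integrable.mono' ((Fact.out : Good_HiA1 ρ).mom.int.mul_prod (Fact.out : Good_HiA1 ρ).mom.int)
    (measurable_D2 T).aestronglyMeasurable (ae_of_all _ fun p => ?_)
  rw [Real.norm_eq_abs, abs_of_nonneg (D_nonneg _)]
  simpa using D2_le hT p.1 p.2

theorem integrable_D2_row_HiA1 {T : V →L[ℝ] V} (hT : ∀ x, ‖T x‖ ≤ ‖x‖) (x : V) :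
    Integrable (fun z : V => D ![T x, T z]) ρ := by
  refine Integrable.mono' ((Fact.out : Good_HiA1 ρ).mom.int.const_mul ‖x‖)
    ((measurable_D2 T).comp measurable_prodMk_left).aestronglyMeasurable (ae_of_all _ fun z => ?_)
  rw [Real.norm_eq_abs, abs_of_nonneg (D_nonneg _)]
  simpa using D2_le hT x z

theorem om_bounds_HiA1 {k : ℕ} {T : V →L[ℝ] V} (hT : Ex T (k + 2)) {g : Fin k → V → ℝ}
    (hg : ∀ j, Pos (g j)) : ∃ c C : ℝ, 0 < c ∧
      ∀ p : V × V, c * D ![T p.1, T p.2] ≤ omR ρ T g p ∧ omR ρ T g p ≤ C * D ![T p.1, T p.2] := by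
  obtain ⟨c, C, hc, h⟩ := II_bounds_HiA1 (ρ := ρ) hg
  refine ⟨c, C, hc, fun ⟨x, z⟩ => ?_⟩
  have := h _ ((hT.lk x).lk z)
  rw [om_eq2_HiA1, mul_comm c, mul_comm C]
  exact ⟨mul_le_mul_of_nonneg_left this.1 (D_nonneg _),
    mul_le_mul_of_nonneg_left this.2 (D_nonneg _)⟩

theorem integrable_om_HiA1 {k : ℕ} {T : V →L[ℝ] V} (hT : Ex T (k + 2)) {g : Fin k → V → ℝ}
    (hg : ∀ j, Pos (g j)) : Integrable (omR ρ T g) (ρ.prod ρ) := by
  obtain ⟨c, C, hc, h⟩ := om_bounds_HiA1 (ρ := ρ) hT hg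
  refine Integrable.mono' ((integrable_D2_HiA1 hT.le).const_mul C)
    (measurable_om_HiA1 T fun j => (hg j).bd).aestronglyMeasurable (ae_of_all _ fun p => ?_)
  rw [Real.norm_eq_abs, abs_of_nonneg ((mul_nonneg hc.le (D_nonneg _)).trans (h p).1)]
  exact (h p).2

theorem integrable_BF_HiA1 {w : V × V → ℝ} (hw : Integrable w (ρ.prod ρ))
    {a b : V → ℝ} (ha : Bd a) (hb : Bd b) :
    Integrable (fun p : V × V => w p * (a p.1 * b p.2)) (ρ.prod ρ) := by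
  obtain ⟨A, hA⟩ := ha.bdd
  obtain ⟨B, hB⟩ := hb.bdd
  refine hw.mul_bdd (c := A * B) ((ha.meas.comp measurable_fst).mul
    (hb.meas.comp measurable_snd)).aestronglyMeasurable (ae_of_all _ fun p => ?_)
  rw [Real.norm_eq_abs, abs_mul]
  exact mul_le_mul (hA _) (hB _) (abs_nonneg _) ((abs_nonneg _).trans (hA p.1))

theorem row_om_HiA1 {k : ℕ} {T : V →L[ℝ] V} (hT : ∀ x, ‖T x‖ ≤ ‖x‖) {g : Fin k → V → ℝ}
    (hg : ∀ j, Bd (g j)) {b : V → ℝ} (hb : Bd b) (x : V) :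
    ∫ z, omR ρ T g (x, z) * b z ∂ρ
      = ‖T x‖ * IIR_HiA1 ρ (lk T x) (Fin.cons b g : Fin (k + 1) → V → ℝ) := by
  rw [(II_cons_HiA1 (lk_le hT x) hb hg).2, ← integral_const_mul]
  congr 1
  ext z
  rw [om_eq_HiA1]
  ring

theorem II_eq_BF_HiA1 {k : ℕ} {T : V →L[ℝ] V} (hT : Ex T (k + 2)) {g : Fin k → V → ℝ}
    (hg : ∀ j, Pos (g j)) {a b : V → ℝ} (ha : Bd a) (hb : Bd b) :
    IIR_HiA1 ρ T (Fin.cons a (Fin.cons b g : Fin (k + 1) → V → ℝ) : Fin (k + 2) → V → ℝ)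
      = BF ρ (omR ρ T g) a b := by
  rw [(II_cons_HiA1 hT.le ha (bd_cons hb fun j => (hg j).bd)).2, BF,
    integral_prod _ (integrable_BF_HiA1 (integrable_om_HiA1 hT hg) ha hb)]
  congr 1
  ext x
  rw [← row_om_HiA1 hT.le (fun j => (hg j).bd) hb x, ← integral_const_mul]
  congr 1
  ext z
  ring

theorem BF_symm_HiA1 {w : V × V → ℝ} (hs : ∀ x z, w (x, z) = w (z, x)) (a b : V → ℝ) :
    BF ρ w a b = BF ρ w b a := by
  unfold BF
  rw [← integral_prod_swap]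
  congr 1
  ext ⟨x, z⟩
  simp only [Prod.swap_prod_mk]
  rw [hs z x, mul_comm (a z)]

theorem BF_sub_left_HiA1 {w : V × V → ℝ} (hw : Integrable w (ρ.prod ρ))
    {a b c : V → ℝ} (ha : Bd a) (hb : Bd b) (hc : Bd c) (s : ℝ) :
    BF ρ w (fun x => a x - s * b x) c
      = BF ρ w a c - s * BF ρ w b c := by
  unfold BF
  rw [← integral_const_mul, ← integral_sub (integrable_BF_HiA1 hw ha hc)
    ((integrable_BF_HiA1 hw hb hc).const_mul s)]
  congr 1
  ext p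
  ring

/-- negative on a hyperplane implies the reverse Cauchy-Schwarz inequality -/
theorem hyp_of_neg_HiA1 {w : V × V → ℝ} (hw : Integrable w (ρ.prod ρ))
    (hs : ∀ x z, w (x, z) = w (z, x)) (ℓ : (V → ℝ) → ℝ) {ξ η : V → ℝ} (hξ : Bd ξ) (hη : Bd η)
    (hℓ : ∀ s, ℓ (fun x => ξ x - s * η x) = ℓ ξ - s * ℓ η) (h0 : ℓ η ≠ 0)
    (hη0 : 0 ≤ BF ρ w η η)
    (neg : ∀ ζ, Bd ζ → ℓ ζ = 0 → BF ρ w ζ ζ ≤ 0) :
    BF ρ w ξ ξ * BF ρ w η η ≤ BF ρ w ξ η ^ 2 := by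
  set s := ℓ ξ / ℓ η
  have hz := hξ.sub_mul hη s
  have h1 := neg _ hz (by rw [hℓ]; simp only [s]; field_simp; ring)
  rw [BF_sub_left_HiA1 hw hξ hη hz, BF_symm_HiA1 hs ξ, BF_symm_HiA1 hs η, BF_sub_left_HiA1 hw hξ hη hξ,
    BF_sub_left_HiA1 hw hξ hη hη, BF_symm_HiA1 hs η ξ] at h1
  nlinarith [mul_nonneg hη0 (neg_nonneg.2 h1),
    sq_nonneg (BF ρ w ξ η - s * BF ρ w η η)]

theorem hyp_base_HiA1 {T : V →L[ℝ] V} (hT : Ex T 1) {ξ η : V → ℝ} (hξ : Bd ξ) (hη : Pos η) :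
    BF ρ (fun p => D ![T p.1, T p.2]) ξ ξ
        * BF ρ (fun p => D ![T p.1, T p.2]) η η
      ≤ BF ρ (fun p => D ![T p.1, T p.2]) ξ η ^ 2 := by
  have hi := integrable_norm_T_HiA1 (ρ := ρ) hT.le
  have hm : ∀ {a : V → ℝ}, Bd a → Integrable (fun x => ‖T x‖ * a x) ρ := by
    intro a ha
    obtain ⟨A, hA⟩ := ha.bdd
    exact hi.mul_bdd ha.meas.aestronglyMeasurable (ae_of_all _ hA)
  refine hyp_of_neg_HiA1 (integrable_D2_HiA1 hT.le) (fun x z => D_swap _ _ _)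
    (fun a => ∫ x, ‖T x‖ * a x ∂ρ) hξ hη.bd (fun s => ?_) ?_ ?_ fun ζ hζ h => ?_
  · rw [← integral_const_mul, ← integral_sub (hm hξ) ((hm hη.bd).const_mul s)]
    congr 1
    ext x
    ring
  · obtain ⟨c, C, hc, h⟩ := hη.bdd
    refine ne_of_gt (lt_of_lt_of_le (mul_pos (cc_pos_HiA1 ρ) hc) ?_)
    refine (mul_le_mul_of_nonneg_right (cc_le_HiA1 hT) hc.le).trans ?_
    rw [← integral_mul_const]
    exact integral_mono (hi.mul_const c) (hm hη.bd) fun x =>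
      mul_le_mul_of_nonneg_left (h x).1 (norm_nonneg _)
  · exact integral_nonneg fun p => mul_nonneg (D_nonneg _) (mul_pos (hη.pos _) (hη.pos _)).le
  · exact ker_neg ρ (v := fun x => T x) (by fun_prop) hi hζ h

theorem om_zero_HiA1 (T : V →L[ℝ] V) (g : Fin 0 → V → ℝ) : omR ρ T g = fun p => D ![T p.1, T p.2] := by
  ext ⟨x, z⟩
  rw [om_eq2_HiA1]
  simp [IIR_HiA1]

theorem integrable_trickle_HiA1 {w : V × V → ℝ} (hm : Measurable w)
    (hw : Integrable w (ρ.prod ρ)) (h0 : ∀ p, 0 ≤ w p)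
    {g : V → ℝ} (hg : Bd g) :
    Integrable (fun x => (∫ z, w (x, z) * g z ∂ρ) ^ 2
      / ∫ z, w (x, z) ∂ρ) ρ := by
  obtain ⟨A, hA⟩ := hg.bdd
  have m1 : Measurable fun x => ∫ z, w (x, z) * g z ∂ρ :=
    (StronglyMeasurable.integral_prod_right (f := fun x z => w (x, z) * g z)
      (hm.mul (hg.meas.comp measurable_snd)).stronglyMeasurable).measurable
  have m2 : Measurable fun x => ∫ z, w (x, z) ∂ρ :=
    (StronglyMeasurable.integral_prod_right (f := fun x z => w (x, z))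
      hm.stronglyMeasurable).measurable
  refine Integrable.mono' (hw.integral_prod_left.const_mul (A ^ 2))
    ((m1.pow_const 2).div m2).aestronglyMeasurable ?_
  filter_upwards [hw.prod_right_ae] with x hx
  have hW : 0 ≤ ∫ z, w (x, z) ∂ρ := integral_nonneg fun z => h0 _
  have h1 : |∫ z, w (x, z) * g z ∂ρ| ≤ A * ∫ z, w (x, z) ∂ρ := by
    rw [← integral_const_mul, ← Real.norm_eq_abs]
    refine norm_integral_le_of_norm_le (hx.const_mul A) (ae_of_all _ fun z => ?_)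
    rw [Real.norm_eq_abs, abs_mul, abs_of_nonneg (h0 _), mul_comm]
    exact mul_le_mul_of_nonneg_right (hA z) (h0 _)
  rw [Real.norm_eq_abs, abs_of_nonneg (by positivity)]
  refine div_le_of_le_mul₀ hW (by positivity) ?_
  have := pow_le_pow_left₀ (abs_nonneg _) h1 2
  rw [sq_abs] at this
  nlinarith

theorem hyp_HiA1 : ∀ (r : ℕ) {T : V →L[ℝ] V}, Ex T (r + 2) → ∀ {g : Fin r → V → ℝ},
    (∀ j, Pos (g j)) → ∀ {ξ η : V → ℝ}, Bd ξ → Pos η →
    BF ρ (omR ρ T g) ξ ξ * BF ρ (omR ρ T g) η η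
      ≤ BF ρ (omR ρ T g) ξ η ^ 2
  | 0, T, hT, g, _, ξ, η, hξ, hη => by
    rw [om_zero_HiA1]; exact hyp_base_HiA1 (hT.mono (by omega)) hξ hη
  | r + 1, T, hT, g, hg, ξ, η, hξ, hη => by
    obtain ⟨m, g', rfl⟩ : ∃ (m : V → ℝ) (g' : Fin r → V → ℝ), g = Fin.cons m g' :=
      ⟨g 0, Fin.tail g, (Fin.cons_self_tail g).symm⟩
    have hm : Pos m := hg 0
    have hg' : ∀ j, Pos (g' j) := fun j => hg j.succ
    have hb : ∀ j, Bd ((Fin.cons m g' : Fin (r + 1) → V → ℝ) j) := fun j => (hg j).bd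
    set ω := omR ρ T (Fin.cons m g' : Fin (r + 1) → V → ℝ) with hω
    have hωi : Integrable ω (ρ.prod ρ) := integrable_om_HiA1 hT hg
    set w : V × V → ℝ := fun p => ω p * (m p.1 * m p.2) with hw
    have hwm : Measurable w := (measurable_om_HiA1 T hb).mul
      ((hm.meas.comp measurable_fst).mul (hm.meas.comp measurable_snd))
    have hwB : ∀ a b : V → ℝ, BF ρ w a b
        = BF ρ ω (fun x => a x * m x) fun x => b x * m x := fun a b => by
      unfold BF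
      congr 1
      ext p
      simp only [hw]
      ring
    obtain ⟨c, C, hc, hcC⟩ := om_bounds_HiA1 (ρ := ρ) hT hg
    obtain ⟨c', C', hc', hm'⟩ := hm.bdd
    have hω0 : ∀ p, 0 ≤ ω p := fun p => (mul_nonneg hc.le (D_nonneg _)).trans (hcC p).1
    have hw0 : ∀ p, 0 ≤ w p := fun p => mul_nonneg (hω0 p) (mul_pos (hm.pos _) (hm.pos _)).le
    have hII : ∀ {a b : V → ℝ}, Pos a → Pos b → 0 < BF ρ ω a b := by
      intro a b ha hb'
      rw [hω, ← II_eq_BF_HiA1 hT hg ha.bd hb'.bd]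
      obtain ⟨c1, C1, hc1, h1⟩ := II_bounds_HiA1 (ρ := ρ) (pos_cons ha (pos_cons hb' hg))
      exact hc1.trans_le (h1 T hT).1
    have key : ∀ a : V → ℝ, Bd a → BF ρ w a (fun _ => 1) = 0 →
        BF ρ w a a ≤ 0 := by
      intro a ha
      refine bochner ρ (w₀ := fun p => D ![T p.1, T p.2]) hwm (measurable_D2 T)
        (fun x z => by simp only [hw, hω]; rw [om_symm_HiA1, mul_comm (m x)]) (fun x z => D_swap _ _ _)
        (fun p => D_nonneg _) (integrable_D2_HiA1 hT.le) (integrable_D2_row_HiA1 hT.le)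
        (c := c * (c' * c')) (C := C * (C' * C')) (by positivity) (fun p => ⟨?_, ?_⟩) ?_
        (fun b hb' => hyp_base_HiA1 (hT.mono (by omega)) hb' Den.one.toPos) (fun b hb' => ?_) ha
      · have h1 := mul_le_mul (hm' p.1).1 (hm' p.2).1 hc'.le (hm.pos _).le
        calc c * (c' * c') * D ![T p.1, T p.2] = c * D ![T p.1, T p.2] * (c' * c') := by ring
          _ ≤ _ := mul_le_mul (hcC p).1 h1 (by positivity) (hω0 p)
      · have h1 := mul_le_mul (hm' p.1).2 (hm' p.2).2 (hm.pos _).le ((hm.pos _).le.trans (hm' p.1).2)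
        calc w p ≤ C * D ![T p.1, T p.2] * (C' * C') :=
            mul_le_mul (hcC p).2 h1 (mul_pos (hm.pos _) (hm.pos _)).le ((hω0 p).trans (hcC p).2)
          _ = _ := by ring
      · have h2 : Ex T (0 + 2) := hT.mono (by omega)
        have hp : ∀ j : Fin 0, Pos ((fun _ _ => 1 : Fin 0 → V → ℝ) j) := fun j => j.elim0
        rw [← om_zero_HiA1 (ρ := ρ) T fun _ _ => 1, ← II_eq_BF_HiA1 h2 hp bd_one bd_one]
        obtain ⟨c1, C1, hc1, h1⟩ := II_bounds_HiA1 (ρ := ρ)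
          (pos_cons Den.one.toPos (pos_cons Den.one.toPos hp))
        exact hc1.trans_le (h1 T h2).1
      · have hbm : Bd fun x => b x * m x := hb'.mul hm.bd
        have hgb : ∀ j, Bd (g' j) := fun j => (hg' j).bd
        have hperm : IIR_HiA1 ρ T (Fin.cons (fun x => b x * m x) (Fin.cons (fun x => b x * m x)
              (Fin.cons m g' : Fin (r + 1) → V → ℝ) : Fin (r + 2) → V → ℝ) : Fin (r + 3) → V → ℝ)
            = IIR_HiA1 ρ T (Fin.cons m (Fin.cons (fun x => b x * m x)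
              (Fin.cons (fun x => b x * m x) g' : Fin (r + 1) → V → ℝ) : Fin (r + 2) → V → ℝ) :
                Fin (r + 3) → V → ℝ) := by
          rw [← II_perm_HiA1 T (bd_cons hbm (bd_cons hbm hb)) (Equiv.swap 0 (Fin.succ (Fin.succ 0)))]
          congr 1
          funext j
          refine Fin.cases ?_ (fun j => Fin.cases ?_ (fun j => Fin.cases ?_ (fun j => ?_) j) j) j
          · rw [Equiv.swap_apply_left]; rfl
          · rw [Equiv.swap_apply_of_ne_of_ne (Fin.succ_ne_zero _)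
              fun h => Fin.succ_ne_zero _ (Fin.succ_injective _ h).symm]
            rfl
          · rw [Equiv.swap_apply_right]; rfl
          · rw [Equiv.swap_apply_of_ne_of_ne (Fin.succ_ne_zero _)
              fun h => Fin.succ_ne_zero _ (Fin.succ_injective _ (Fin.succ_injective _ h))]
            rfl
        obtain ⟨hi, he⟩ := II_cons_HiA1 (ρ := ρ) hT.le hm.bd (bd_cons hbm (bd_cons hbm hgb))
        rw [hwB, hω, ← II_eq_BF_HiA1 hT hg hbm hbm, hperm, he]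
        refine integral_mono hi (integrable_trickle_HiA1 hwm (integrable_BF_HiA1 hωi hm.bd hm.bd) hw0 hb')
          fun x => ?_
        have r1 : ∫ z, w (x, z) * b z ∂ρ = m x * (‖T x‖ *
            BF ρ (omR ρ (lk T x) g') (fun x => b x * m x) m) := by
          rw [← II_eq_BF_HiA1 (hT.lk x) hg' hbm hm.bd, ← row_om_HiA1 hT.le hb hbm x, ← integral_const_mul]
          congr 1
          ext z
          simp only [hw, hω]
          ring
        have r2 : ∫ z, w (x, z) ∂ρ = m x * (‖T x‖ *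
            BF ρ (omR ρ (lk T x) g') m m) := by
          rw [← II_eq_BF_HiA1 (hT.lk x) hg' hm.bd hm.bd, ← row_om_HiA1 hT.le hb hm.bd x, ← integral_const_mul]
          congr 1
          ext z
          simp only [hw, hω]
          ring
        have hq : 0 < BF ρ (omR ρ (lk T x) g') m m := by
          rw [← II_eq_BF_HiA1 (hT.lk x) hg' hm.bd hm.bd]
          obtain ⟨c1, C1, hc1, h1⟩ := II_bounds_HiA1 (ρ := ρ) (pos_cons hm (pos_cons hm hg'))
          exact hc1.trans_le (h1 _ (hT.lk x)).1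
        have ih := hyp_HiA1 r (hT.lk x) hg' hbm hm
        simp only
        rw [r1, r2, II_eq_BF_HiA1 (hT.lk x) hg' hbm hbm]
        rcases (norm_nonneg (T x)).eq_or_lt with h0 | h0
        · rw [← h0]; simp
        · rw [le_div_iff₀ (mul_pos (hm.pos x) (mul_pos h0 hq))]
          have := mul_le_mul_of_nonneg_left ih (sq_nonneg (m x * ‖T x‖))
          nlinarith
    refine hyp_of_neg_HiA1 hωi (om_symm_HiA1 T _) (fun a => BF ρ ω a m) hξ hη.bd
      (fun s => BF_sub_left_HiA1 hωi hξ hη.bd hm.bd s) (hII hη hm).ne' (hII hη hη).le fun ζ hζ h => ?_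
    have e : (fun x => ζ x / m x * m x) = ζ := funext fun x => div_mul_cancel₀ _ (hm.pos x).ne'
    have := key _ (hζ.div hm) (by rw [hwB, e]; simpa using h)
    rwa [hwB, e] at this

end copy

theorem hypR {ρ : Measure V} (hρ : Mom ρ) {c : ℝ} (hc : 0 < c)
    (hcρ : ENNReal.ofReal c • stdGaussian V ≤ ρ) :
    ∀ (r : ℕ) {T : V →L[ℝ] V}, Ex T (r + 2) → ∀ {g : Fin r → V → ℝ},
    (∀ j, Pos (g j)) → ∀ {ξ η : V → ℝ}, Bd ξ → Pos η →
    BF ρ (omR ρ T g) ξ ξ * BF ρ (omR ρ T g) η η ≤ BF ρ (omR ρ T g) ξ η ^ 2 := by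
  haveI := hρ.prob
  haveI : Fact (Good_HiA1 ρ) := ⟨good_HiA1 hρ hc hcρ⟩
  exact hyp_HiA1

end Pool.Agent.P.MP_181257_gt
end
end

-- part Pool.Agent.P.MP_181257_gt.HiA2
section

/-! Alexandrov-Fenchel inequality for arbitrary measures. -/

set_option autoImplicit false
set_option linter.unusedSectionVars false
set_option linter.unusedVariables false

open MeasureTheory ProbabilityTheory Module Set Filter Topology
open scoped RealInnerProductSpace ENNReal Pointwise Matrix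

noncomputable section

namespace Pool.Agent.P.MP_181257_gt

variable {V : Type} [NormedAddCommGroup V] [InnerProductSpace ℝ V] [FiniteDimensional ℝ V]
  [MeasurableSpace V] [BorelSpace V]

theorem meas_HiA2 {r : ℕ} (U : Submodule ℝ V) :
    Measurable fun q : (V × V) × (Fin r → V) => D fun j =>
      pU U ((Fin.cons q.1.1 (Fin.cons q.1.2 q.2 : Fin (r + 1) → V) : Fin (r + 2) → V) j) := by
  have h : Measurable fun q : (V × V) × (Fin r → V) =>
      (Fin.cons q.1.1 (Fin.cons q.1.2 q.2 : Fin (r + 1) → V) : Fin (r + 2) → V) := by fun_prop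
  exact measurable_D (measurable_pi_lambda _ fun j =>
    (pU U).continuous.measurable.comp ((measurable_pi_apply j).comp h))

theorem le_HiA2 {r : ℕ} (U : Submodule ℝ V) (p : V × V) (y : Fin r → V) :
    (D fun j => pU U ((Fin.cons p.1 (Fin.cons p.2 y : Fin (r + 1) → V) : Fin (r + 2) → V) j))
      ≤ ‖p.1‖ * ‖p.2‖ * ∏ j, ‖y j‖ := by
  refine (D_le_prod _).trans ((Finset.prod_le_prod (fun _ _ => norm_nonneg _)
    fun j _ => norm_pU_le U _).trans (le_of_eq ?_))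
  simp [Fin.prod_univ_succ, mul_assoc]

theorem measurable_omU {μ : Measure V} (hμ : Mom μ) (r : ℕ) (U : Submodule ℝ V) :
    Measurable (omU μ r U) := by
  have := hμ.prob
  exact ((meas_HiA2 (r := r) U).stronglyMeasurable.integral_prod_right' (ν := mk μ r)).measurable

theorem omU_bound {μ : Measure V} (hμ : Mom μ) (r : ℕ) (U : Submodule ℝ V) (p : V × V) :
    0 ≤ omU μ r U p ∧ omU μ r U p ≤ ‖p.1‖ * ‖p.2‖ * (∫ x, ‖x‖ ∂μ) ^ r := by
  have := hμ.prob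
  refine ⟨integral_nonneg fun _ => D_nonneg _, ?_⟩
  refine (integral_mono_of_nonneg (ae_of_all _ fun _ => D_nonneg _)
    ((integrable_prod_norm_mk hμ r).const_mul (‖p.1‖ * ‖p.2‖))
    (ae_of_all _ fun y => le_HiA2 U p y)).trans (le_of_eq ?_)
  rw [integral_const_mul, integral_fintype_prod_eq_pow (fun x : V => ‖x‖), Fintype.card_fin]

theorem omU_symm (μ : Measure V) (r : ℕ) (U : Submodule ℝ V) (x z : V) :
    omU μ r U (x, z) = omU μ r U (z, x) := by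
  have h : ∀ (a b : V) (y : Fin r → V),
      (fun j => pU U ((Fin.cons a (Fin.cons b y : Fin (r + 1) → V) : Fin (r + 2) → V) j)) =
      (Fin.cons (pU U a) (Fin.cons (pU U b) fun j => pU U (y j) : Fin (r + 1) → V) :
        Fin (r + 2) → V) := fun a b y => by
    funext j
    refine Fin.cases rfl (fun j => Fin.cases rfl (fun j => rfl) j) j
  unfold omU
  simp only [h]
  exact integral_congr_ae (ae_of_all _ fun y => D_swap _ _ _)

theorem dens_HiA2 {ν ρ : Measure V} [IsFiniteMeasure ν] [IsFiniteMeasure ρ]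
    (h : ν ≤ (3 : ℝ≥0∞) • ρ) : ∃ p : V → ℝ, Measurable p ∧ (∀ x, 0 ≤ p x ∧ p x ≤ 3) ∧
      ν = ρ.withDensity fun x => ENNReal.ofReal (p x) := by
  have : IsFiniteMeasure ((3 : ℝ≥0∞) • ρ) := Measure.smul_finite ρ (by simp)
  refine ⟨fun x => 3 * (min (ν.rnDeriv ((3 : ℝ≥0∞) • ρ) x) 1).toReal, by fun_prop,
    fun x => ⟨by positivity, ?_⟩, ?_⟩
  · have : (min (ν.rnDeriv ((3 : ℝ≥0∞) • ρ) x) 1).toReal ≤ 1 :=
      ENNReal.toReal_le_of_le_ofReal zero_le_one (by simp)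
    linarith
  · have h1 := Measure.withDensity_rnDeriv_eq ν _ (Measure.absolutelyContinuous_of_le h)
    have h2 := Measure.rnDeriv_le_one_of_le h
    rw [Filter.EventuallyLE, Measure.ae_ennreal_smul_measure_iff (by simp)] at h2
    rw [withDensity_smul_measure, ← withDensity_smul' _ _ (by simp)] at h1
    conv_lhs => rw [← h1]
    refine withDensity_congr_ae ?_
    filter_upwards [h2] with x hx
    rw [Pi.one_apply] at hx
    rw [min_eq_left hx, ENNReal.ofReal_mul (by norm_num),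
      ENNReal.ofReal_toReal (ne_top_of_le_ne_top (by simp) hx)]
    simp

theorem pi_HiA2 {ρ : Measure V} [IsFiniteMeasure ρ] {p : V → ℝ} (hp : Measurable p)
    (h : ∀ x, 0 ≤ p x ∧ p x ≤ 3) (r : ℕ) :
    mk (ρ.withDensity fun x => ENNReal.ofReal (p x)) r =
      (mk ρ r).withDensity fun y => ENNReal.ofReal (∏ j, p (y j)) := by
  have hb : Bd p := ⟨hp, 3, fun x => by rw [abs_of_nonneg (h x).1]; exact (h x).2⟩
  have : IsFiniteMeasure (ρ.withDensity fun x => ENNReal.ofReal (p x)) :=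
    isFiniteMeasure_withDensity_ofReal (hb.integrable ρ).2
  refine Measure.pi_eq fun s hs => ?_
  rw [withDensity_apply _ (MeasurableSet.univ_pi hs), Measure.restrict_pi_pi,
    ← ofReal_integral_eq_lintegral_ofReal
      (Integrable.fintype_prod (f := fun _ : Fin r => p) fun j => hb.integrable _)
      (ae_of_all _ fun y => Finset.prod_nonneg fun j _ => (h _).1),
    integral_fintype_prod_eq_prod (fun _ : Fin r => p),
    ENNReal.ofReal_prod_of_nonneg fun j _ => integral_nonneg fun x => (h x).1]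
  refine Finset.prod_congr rfl fun j _ => ?_
  rw [withDensity_apply _ (hs j), ofReal_integral_eq_lintegral_ofReal (hb.integrable _)
    (ae_of_all _ fun x => (h x).1)]

theorem omU_eq_HiA2 {ρ : Measure V} [IsFiniteMeasure ρ] {p : V → ℝ} (hp : Measurable p)
    (h : ∀ x, 0 ≤ p x ∧ p x ≤ 3) (r : ℕ) (U : Submodule ℝ V) :
    omU (ρ.withDensity fun x => ENNReal.ofReal (p x)) r U = omR ρ (pU U) fun _ : Fin r => p := by
  funext q
  rw [omU, omR, pi_HiA2 hp h, integral_withDensity_eq_integral_toReal_smul (by fun_prop)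
    (ae_of_all _ fun _ => ENNReal.ofReal_lt_top)]
  refine integral_congr_ae (ae_of_all _ fun y => ?_)
  simp only [smul_eq_mul]
  rw [ENNReal.toReal_ofReal (Finset.prod_nonneg fun j _ => (h _).1), mul_comm]

theorem BF_eq_HiA2 {ρ : Measure V} [IsFiniteMeasure ρ] {s : V → ℝ} (hs : Measurable s)
    (h : ∀ x, 0 ≤ s x ∧ s x ≤ 3) (w : V × V → ℝ) (a b : V → ℝ) :
    BF (ρ.withDensity fun x => ENNReal.ofReal (s x)) w a b =
      BF ρ w (fun x => a x * s x) fun x => b x * s x := by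
  rw [BF, BF, prod_withDensity (by fun_prop) (by fun_prop),
    integral_withDensity_eq_integral_toReal_smul (by fun_prop)
    (ae_of_all _ fun _ => ENNReal.mul_lt_top ENNReal.ofReal_lt_top ENNReal.ofReal_lt_top)]
  refine integral_congr_ae (ae_of_all _ fun y => ?_)
  simp only [smul_eq_mul]
  rw [ENNReal.toReal_mul, ENNReal.toReal_ofReal (h _).1, ENNReal.toReal_ofReal (h _).1]
  ring

theorem cont_HiA2 {ρ : Measure V} (hρ : Mom ρ) {p : V → ℝ} (hp : Measurable p)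
    (h : ∀ x, 0 ≤ p x ∧ p x ≤ 3) (r : ℕ) (U : Submodule ℝ V) {a b : V → ℝ} (ha : Bd a)
    (hb : Bd b) (α β : ℝ) :
    ContinuousAt (fun δ : ℝ => BF ρ (omR ρ (pU U) fun (_ : Fin r) x => p x + δ)
      (fun x => a x + δ * α) fun x => b x + δ * β) 0 := by
  have := hρ.prob
  obtain ⟨A, hA⟩ := ha.bdd
  obtain ⟨B, hB⟩ := hb.bdd
  have ham := ha.meas
  have hbm := hb.meas
  have e1 : ∀ᶠ δ : ℝ in 𝓝 0, |δ| ≤ 1 := by
    filter_upwards [Metric.closedBall_mem_nhds (0 : ℝ) one_pos] with δ hδ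
    simpa using hδ
  have m1 : ∀ δ : ℝ, Measurable fun q : (V × V) × (Fin r → V) => (D fun j =>
      pU U ((Fin.cons q.1.1 (Fin.cons q.1.2 q.2 : Fin (r + 1) → V) : Fin (r + 2) → V) j)) *
      ∏ j, (p (q.2 j) + δ) := fun δ => (meas_HiA2 U).mul (by fun_prop)
  have b1 : ∀ δ : ℝ, |δ| ≤ 1 → ∀ (q : V × V) (y : Fin r → V), ‖(D fun j =>
      pU U ((Fin.cons q.1 (Fin.cons q.2 y : Fin (r + 1) → V) : Fin (r + 2) → V) j)) *
      ∏ j, (p (y j) + δ)‖ ≤ ‖q.1‖ * ‖q.2‖ * 4 ^ r * ∏ j, ‖y j‖ := fun δ hδ q y => by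
    rw [Real.norm_eq_abs, abs_mul, abs_of_nonneg (D_nonneg _), Finset.abs_prod, mul_right_comm]
    refine mul_le_mul (le_HiA2 U q y) ?_ (by positivity) (by positivity)
    refine (Finset.prod_le_prod (fun _ _ => abs_nonneg _) (g := fun _ => (4 : ℝ))
      fun j _ => ?_).trans (by simp)
    obtain ⟨h1, h2⟩ := h (y j)
    obtain ⟨h3, h4⟩ := abs_le.1 hδ
    rw [abs_le]; constructor <;> linarith
  have i1 : ∀ q : V × V, Integrable (fun y : Fin r → V => ‖q.1‖ * ‖q.2‖ * 4 ^ r * ∏ j, ‖y j‖)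
      (mk ρ r) := fun q => (integrable_prod_norm_mk hρ r).const_mul _
  have c1 : ∀ q : V × V,
      ContinuousAt (fun δ : ℝ => omR ρ (pU U) (fun (_ : Fin r) x => p x + δ) q) 0 := fun q =>
    continuousAt_of_dominated
      (Eventually.of_forall fun δ => ((m1 δ).comp measurable_prodMk_left).aestronglyMeasurable)
      (e1.mono fun δ hδ => ae_of_all _ (b1 δ hδ q)) (i1 q) (ae_of_all _ fun y => by fun_prop)
  refine continuousAt_of_dominated
    (bound := fun q : V × V => ‖q.1‖ * ‖q.2‖ * (4 ^ r * (∫ y, ∏ j, ‖y j‖ ∂(mk ρ r)) *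
      ((A + |α|) * (B + |β|)))) (Eventually.of_forall fun δ => ?_)
    (e1.mono fun δ hδ => ae_of_all _ fun q => ?_) ((hρ.int.mul_prod hρ.int).mul_const _)
    (ae_of_all _ fun q => (c1 q).mul (by fun_prop))
  · exact (((m1 δ).stronglyMeasurable.integral_prod_right' (ν := mk ρ r)).measurable.mul
      (by fun_prop)).aestronglyMeasurable
  · have a1 := norm_integral_le_of_norm_le (i1 q) (ae_of_all _ (b1 δ hδ q))
    rw [integral_const_mul, mul_assoc] at a1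
    have a2 : ∀ x C γ : ℝ, |x| ≤ C → |x + δ * γ| ≤ C + |γ| := fun x C γ hx =>
      (abs_add_le _ _).trans (add_le_add hx (by
        rw [abs_mul]; exact mul_le_of_le_one_left (abs_nonneg _) hδ))
    rw [norm_mul, norm_mul, ← mul_assoc (‖q.1‖ * ‖q.2‖)]
    exact mul_le_mul a1 (mul_le_mul (a2 _ _ _ (hA _)) (a2 _ _ _ (hB _)) (norm_nonneg _)
      ((abs_nonneg _).trans (a2 _ _ α (hA q.1)))) (by positivity) ((norm_nonneg _).trans a1)

theorem hypM {μ κ : Measure V} (hμ : Mom μ) (hκ : Mom κ) (r : ℕ) (U : Submodule ℝ V)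
    {ξ η : V → ℝ} (hξ : Bd ξ) (hη : Bd η) (h0 : ∀ x, 0 ≤ η x) :
    BF κ (omU μ r U) ξ ξ * BF κ (omU μ r U) η η ≤ BF κ (omU μ r U) ξ η ^ 2 := by
  rcases lt_or_ge (finrank ℝ U) (r + 2) with hU | hU
  · have : omU μ r U = fun _ => 0 := by
      funext q
      simp [omU, D_pU_eq_zero hU]
    simp [this, BF]
  have := hμ.prob
  have := hκ.prob
  have hγ : Integrable (fun x => ‖x‖) (stdGaussian V) := IsGaussian.integrable_id.norm
  obtain ⟨ρ, hρ⟩ : ∃ ρ : Measure V, ρ = (3 : ℝ≥0∞)⁻¹ • (μ + κ + stdGaussian V) := ⟨_, rfl⟩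
  have h3 : (3 : ℝ≥0∞) • ρ = μ + κ + stdGaussian V := by
    rw [hρ, smul_smul, ENNReal.mul_inv_cancel (by simp) (by simp), one_smul]
  have hm : Mom ρ := by
    refine ⟨⟨?_⟩, ?_⟩
    · rw [hρ]
      simp only [Measure.smul_apply, Measure.add_apply, measure_univ, smul_eq_mul]
      rw [show (1 : ℝ≥0∞) + 1 + 1 = 3 by norm_num, ENNReal.inv_mul_cancel (by simp) (by simp)]
    · rw [hρ]
      exact ((hμ.int.add_measure hκ.int).add_measure hγ).smul_measure (by simp)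
  have := hm.prob
  obtain ⟨p, p1, p2, p3⟩ := dens_HiA2 (ν := μ) (ρ := ρ)
    (by rw [h3, add_assoc]; exact Measure.le_add_right le_rfl)
  obtain ⟨s, s1, s2, s3⟩ := dens_HiA2 (ν := κ) (ρ := ρ)
    (by rw [h3]; exact Measure.le_add_right (Measure.le_add_left le_rfl))
  have hg : ENNReal.ofReal (1 / 3) • stdGaussian V ≤ ρ := by
    rw [hρ, one_div, ENNReal.ofReal_inv_of_pos (by norm_num), ENNReal.ofReal_ofNat, smul_add]
    exact Measure.le_add_left le_rfl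
  have hs : Bd s := ⟨s1, 3, fun x => by rw [abs_of_nonneg (s2 x).1]; exact (s2 x).2⟩
  have hE : Ex (pU U) (r + 2) :=
    ⟨norm_pU_le U, U, hU, fun u hu => Submodule.starProjection_eq_self_iff.2 hu⟩
  have ha := hξ.mul hs
  have hb := hη.mul hs
  have c1 := ((cont_HiA2 hm p1 p2 r U ha ha 0 0).mul (cont_HiA2 hm p1 p2 r U hb hb 1 1)).tendsto
  have c2 := ((cont_HiA2 hm p1 p2 r U ha hb 0 1).pow 2).tendsto
  have key := le_of_tendsto_of_tendsto (c1.mono_left (nhdsWithin_le_nhds (s := Ioi 0)))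
    (c2.mono_left nhdsWithin_le_nhds) (eventually_nhdsWithin_of_forall fun δ (hδ : 0 < δ) => by
      obtain ⟨A, hA⟩ := ha.bdd
      obtain ⟨B, hB⟩ := hb.bdd
      refine hypR hm (by norm_num) hg r hE (fun _ => ⟨by fun_prop, δ, 3 + δ, hδ, fun x => ?_⟩)
        ⟨ha.meas.add_const _, A, fun x => by simpa using hA x⟩
        ⟨hb.meas.add_const _, δ, B + δ, hδ, fun x => ?_⟩
      · constructor <;> linarith [(p2 x).1, (p2 x).2]
      · have := mul_nonneg (h0 x) (s2 x).1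
        have := (le_abs_self _).trans (hB x)
        constructor <;> linarith)
  simp only [Pi.mul_apply, Pi.pow_apply, add_zero, zero_mul] at key
  rw [p3, s3, omU_eq_HiA2 p1 p2, BF_eq_HiA2 s1 s2, BF_eq_HiA2 s1 s2, BF_eq_HiA2 s1 s2]
  exact key

end Pool.Agent.P.MP_181257_gt
end
end

-- part Pool.Agent.P.MP_181257_gt.HiA3
section

/-! Negative correlation in the links. -/

set_option autoImplicit false
set_option linter.unusedSectionVars false
set_option linter.unusedVariables false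

open MeasureTheory ProbabilityTheory Module Set Filter Topology
open scoped RealInnerProductSpace ENNReal Pointwise Matrix

noncomputable section

namespace Pool.Agent.P.MP_181257_gt

variable {V : Type} [NormedAddCommGroup V] [InnerProductSpace ℝ V] [FiniteDimensional ℝ V]
  [MeasurableSpace V] [BorelSpace V]

theorem integrable_IU_HiA3 {μ : Measure V} (hμ : Mom μ) {k : ℕ} (U : Submodule ℝ V)
    {F : (Fin k → V) → ℝ} (hF : Bd F) :
    Integrable (fun x : Fin k → V => D (fun j => pU U (x j)) * F x) (mk μ k) := by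
  obtain ⟨C, hC⟩ := hF.bdd
  exact (integrable_D_mk hμ k U).mul_bdd hF.meas.aestronglyMeasurable
    (Eventually.of_forall fun x => by simpa using hC x)

theorem D_pU_cons_HiA3 {k : ℕ} (U : Submodule ℝ V) (a : V) (x : Fin k → V) :
    D (fun j => pU U ((Fin.cons a x : Fin (k + 1) → V) j))
      = ‖pU U a‖ * D fun j => pU (U ⊓ (ℝ ∙ pU U a)ᗮ) (x j) := by
  have h : (fun j => pU U ((Fin.cons a x : Fin (k + 1) → V) j))
      = (Fin.cons (pU U a) (fun j => pU U (x j)) : Fin (k + 1) → V) := by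
    funext j
    refine Fin.cases ?_ (fun i => ?_) j <;> simp
  rw [h, D_cons]
  simp only [pr_pU]

theorem IU_cons {μ : Measure V} (hμ : Mom μ) {k : ℕ} (U : Submodule ℝ V)
    {F : (Fin (k + 1) → V) → ℝ} (hF : Bd F) :
    Integrable (fun a => ‖pU U a‖ *
      IU μ k (U ⊓ (ℝ ∙ pU U a)ᗮ) fun x => F (Fin.cons a x)) μ ∧
    IU μ (k + 1) U F
      = ∫ a, ‖pU U a‖ * IU μ k (U ⊓ (ℝ ∙ pU U a)ᗮ) (fun x => F (Fin.cons a x)) ∂μ := by
  have := hμ.prob
  have hi := integrable_IU_HiA3 hμ U hF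
  have hm := mp_cons (k := k) μ
  have hi2 := hm.integrable_comp_of_integrable hi
  have key : ∀ a : V, ∫ x, D (fun j => pU U ((Fin.cons a x : Fin (k + 1) → V) j))
      * F (Fin.cons a x) ∂(mk μ k)
      = ‖pU U a‖ * IU μ k (U ⊓ (ℝ ∙ pU U a)ᗮ) fun x => F (Fin.cons a x) := by
    intro a
    unfold IU
    rw [← integral_const_mul]
    refine integral_congr_ae (Eventually.of_forall fun x => ?_)
    simp only [D_pU_cons_HiA3]
    ring
  refine ⟨?_, ?_⟩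
  · have h := hi2.integral_prod_left
    simp only [Function.comp] at h
    simpa only [key] using h
  · have h1 := af_mp_integral hm hi.aestronglyMeasurable
    have h2 := integral_prod _ hi2
    simp only [Function.comp] at h2
    simp only [key] at h2
    rw [← h2, h1]
    rfl

theorem IU_perm {μ : Measure V} (hμ : Mom μ) {k : ℕ} (U : Submodule ℝ V)
    {F : (Fin k → V) → ℝ} (hF : Bd F) (σ : Equiv.Perm (Fin k)) :
    IU μ k U (fun x => F fun j => x (σ j)) = IU μ k U F := by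
  have := hμ.prob
  have hi := integrable_IU_HiA3 hμ U hF
  have h1 := af_mp_integral (mp_perm μ σ) hi.aestronglyMeasurable
  unfold IU
  rw [← h1]
  refine integral_congr_ae (Eventually.of_forall fun x => ?_)
  simp only []
  rw [D_perm (fun j => pU U (x j)) σ]

theorem Bd_two_HiA3 {k : ℕ} {φ ψ : V → ℝ} (hφ : Bd φ) (hψ : Bd ψ) (j j' : Fin k) :
    Bd fun x : Fin k → V => φ (x j) * ψ (x j') := by
  obtain ⟨C, hC⟩ := hφ.bdd
  obtain ⟨C', hC'⟩ := hψ.bdd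
  refine ⟨(hφ.meas.comp (measurable_pi_apply j)).mul (hψ.meas.comp (measurable_pi_apply j')),
    C * C', fun x => ?_⟩
  rw [abs_mul]
  exact mul_le_mul (hC _) (hC' _) (abs_nonneg _) ((abs_nonneg _).trans (hC (x j)))

theorem IU_eq_BF_HiA3 {μ : Measure V} (hμ : Mom μ) {r : ℕ} (U : Submodule ℝ V) {φ ψ : V → ℝ}
    (hφ : Bd φ) (hψ : Bd ψ) :
    IU μ (r + 2) U (fun x => φ (x 0) * ψ (x 1)) = BF μ (omU μ r U) φ ψ := by
  have := hμ.prob
  have hi := integrable_IU_HiA3 hμ U (Bd_two_HiA3 hφ hψ (0 : Fin (r + 2)) 1)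
  have hm : MeasurePreserving (fun q : (V × V) × (Fin r → V) =>
      (Fin.cons q.1.1 (Fin.cons q.1.2 q.2 : Fin (r + 1) → V) : Fin (r + 2) → V))
      ((μ.prod μ).prod (mk μ r)) (mk μ (r + 2)) :=
    ((mp_cons (k := r + 1) μ).comp
      ((MeasurePreserving.id μ).prod (mp_cons (k := r) μ))).comp
      (measurePreserving_prodAssoc μ μ (mk μ r))
  have hi2 := hm.integrable_comp_of_integrable hi
  have h1 := af_mp_integral hm hi.aestronglyMeasurable
  have h2 := integral_prod _ hi2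
  simp only [Function.comp] at h2
  unfold IU BF
  rw [← h1, h2]
  refine integral_congr_ae (Eventually.of_forall fun p => ?_)
  simp only [omU]
  rw [← integral_mul_const]
  rfl

theorem offdiag_HiA3 {μ : Measure V} (hμ : Mom μ) {r : ℕ} (U : Submodule ℝ V) {φ : V → ℝ}
    (hφ : Bd φ) (h0 : IU μ (r + 2) U (fun x => φ (x 0)) = 0) :
    IU μ (r + 2) U (fun x => φ (x 0) * φ (x 1)) ≤ 0 := by
  have h1 : Bd (fun _ : V => (1 : ℝ)) := ⟨measurable_const, 1, fun _ => by simp⟩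
  have hyp := hypM hμ hμ r U hφ h1 (fun _ => zero_le_one)
  rw [← IU_eq_BF_HiA3 hμ U hφ hφ, ← IU_eq_BF_HiA3 hμ U h1 h1, ← IU_eq_BF_HiA3 hμ U hφ h1] at hyp
  simp only [mul_one] at hyp
  rw [h0] at hyp
  have hn : 0 ≤ IU μ (r + 2) U (fun _ => 1) :=
    integral_nonneg fun x => mul_nonneg (D_nonneg _) zero_le_one
  rcases hn.eq_or_lt with he | hp
  · obtain ⟨C, hC⟩ := (Bd_two_HiA3 hφ hφ (0 : Fin (r + 2)) 1).bdd
    have hle : IU μ (r + 2) U (fun x => φ (x 0) * φ (x 1)) ≤ C * IU μ (r + 2) U (fun _ => 1) := by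
      unfold IU
      rw [← integral_const_mul]
      refine integral_mono (integrable_IU_HiA3 hμ U (Bd_two_HiA3 hφ hφ 0 1))
        ((integrable_IU_HiA3 hμ U ⟨measurable_const, 1, fun _ => by simp⟩).const_mul C) fun x => ?_
      have h2 := (abs_le.1 (hC x)).2
      have h3 := D_nonneg fun j => pU U (x j)
      simp only []
      nlinarith
    rw [← he] at hle
    simpa using hle
  · by_contra hc
    have := mul_pos (not_le.1 hc) hp
    nlinarith

theorem es_sum {μ : Measure V} (hμ : Mom μ) {k : ℕ} (U : Submodule ℝ V) {φ : V → ℝ} (hφ : Bd φ)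
    (h0 : IU μ (k + 1) U (fun x => φ (x 0)) = 0) :
    IU μ (k + 1) U (fun x => (∑ j, φ (x j)) ^ 2)
      ≤ (k + 1 : ℝ) * IU μ (k + 1) U fun x => φ (x 0) ^ 2 := by
  have hexp : IU μ (k + 1) U (fun x => (∑ j, φ (x j)) ^ 2)
      = ∑ j, ∑ j', IU μ (k + 1) U fun x => φ (x j) * φ (x j') := by
    unfold IU
    simp only [sq, Finset.sum_mul_sum]
    simp only [Finset.mul_sum]
    rw [integral_finsetSum]
    · refine Finset.sum_congr rfl fun j _ => ?_
      rw [integral_finsetSum]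
      exact fun j' _ => integrable_IU_HiA3 hμ U (Bd_two_HiA3 hφ hφ j j')
    · exact fun j _ => integrable_finsetSum _
        fun j' _ => integrable_IU_HiA3 hμ U (Bd_two_HiA3 hφ hφ j j')
  have hdiag : ∀ j : Fin (k + 1), (IU μ (k + 1) U fun x => φ (x j) * φ (x j))
      = IU μ (k + 1) U fun x => φ (x 0) ^ 2 := by
    intro j
    have h := IU_perm hμ U (Bd_two_HiA3 hφ hφ (0 : Fin (k + 1)) 0) (Equiv.swap 0 j)
    simp only [Equiv.swap_apply_left] at h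
    simp only [sq]
    exact h
  have hoff : ∀ j j' : Fin (k + 1), j' ≠ j →
      (IU μ (k + 1) U fun x => φ (x j) * φ (x j')) ≤ 0 := by
    intro j j' hne
    cases k with
    | zero => exact absurd (Subsingleton.elim (α := Fin 1) j' j) hne
    | succ r =>
      have h := IU_perm hμ U (Bd_two_HiA3 hφ hφ (0 : Fin (r + 2)) 1)
        (Equiv.swap 0 j * Equiv.swap 1 (Equiv.swap 0 j j'))
      have hne0 : (0 : Fin (r + 2)) ≠ Equiv.swap 0 j j' := by
        intro h0'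
        apply hne
        have := congrArg (Equiv.swap 0 j) h0'
        simpa using this.symm
      have e0 : (Equiv.swap 0 j * Equiv.swap 1 (Equiv.swap 0 j j')) 0 = j := by
        rw [Equiv.Perm.mul_apply, Equiv.swap_apply_of_ne_of_ne zero_ne_one hne0,
          Equiv.swap_apply_left]
      have e1 : (Equiv.swap 0 j * Equiv.swap 1 (Equiv.swap 0 j j')) 1 = j' := by
        rw [Equiv.Perm.mul_apply, Equiv.swap_apply_left, Equiv.swap_apply_self]
      simp only [e0, e1] at h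
      rw [h]
      exact offdiag_HiA3 hμ U hφ h0
  rw [hexp]
  calc ∑ j, ∑ j', IU μ (k + 1) U (fun x => φ (x j) * φ (x j'))
      ≤ ∑ _j : Fin (k + 1), IU μ (k + 1) U fun x => φ (x 0) ^ 2 := by
        refine Finset.sum_le_sum fun j _ => ?_
        rw [← Finset.add_sum_erase _ _ (Finset.mem_univ j), hdiag j]
        have : ∑ j' ∈ Finset.univ.erase j, IU μ (k + 1) U (fun x => φ (x j) * φ (x j')) ≤ 0 :=
          Finset.sum_nonpos fun j' hj' => hoff j j' (Finset.ne_of_mem_erase hj')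
        linarith
    _ = _ := by simp

end Pool.Agent.P.MP_181257_gt
end
end

-- part Pool.Agent.P.MP_181257_gt.HiA4
section

/-! The Efron-Stein inequality for frame laws. -/

set_option autoImplicit false
set_option linter.unusedSectionVars false
set_option linter.unusedVariables false

open MeasureTheory ProbabilityTheory Module Set Filter Topology
open scoped RealInnerProductSpace ENNReal Pointwise Matrix

noncomputable section

namespace Pool.Agent.P.MP_181257_gt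

variable {V : Type} [NormedAddCommGroup V] [InnerProductSpace ℝ V] [FiniteDimensional ℝ V]
  [MeasurableSpace V] [BorelSpace V]

theorem bd_sq_HiA4 {X : Type} [MeasurableSpace X] {F : X → ℝ} (hF : Bd F) :
    Bd fun x => F x ^ 2 := by
  have := AFK.bd_mul hF hF
  simpa only [sq] using this

theorem bd_sub_HiA4 {X : Type} [MeasurableSpace X] {F G : X → ℝ} (hF : Bd F) (hG : Bd G) :
    Bd fun x => F x - G x := by
  have := AFK.bd_add hF (AFK.bd_mul (AFK.bd_const (-1)) hG)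
  simpa only [neg_mul, one_mul, ← sub_eq_add_neg] using this

theorem bd_comp_HiA4 {X Y : Type} [MeasurableSpace X] [MeasurableSpace Y] {F : Y → ℝ}
    (hF : Bd F) {T : X → Y} (hT : Measurable T) : Bd fun x => F (T x) :=
  ⟨hF.meas.comp hT, by obtain ⟨C, hC⟩ := hF.bdd; exact ⟨C, fun x => hC _⟩⟩

theorem bd_sum_HiA4 {X ι : Type} [MeasurableSpace X] (s : Finset ι) {F : ι → X → ℝ}
    (hF : ∀ j, Bd (F j)) : Bd fun x => ∑ j ∈ s, F j x := by
  classical
  induction s using Finset.induction_on with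
  | empty => simpa using AFK.bd_const (X := X) 0
  | insert a s ha ih =>
    simp only [Finset.sum_insert ha]
    exact AFK.bd_add (hF a) ih

theorem meas_tail_HiA4 {k : ℕ} : Measurable fun x : Fin (k + 1) → V => Fin.tail x :=
  measurable_pi_lambda _ fun j => measurable_pi_apply j.succ

theorem meas_cons_HiA4 {k : ℕ} (a : V) :
    Measurable fun x : Fin k → V => (Fin.cons a x : Fin (k + 1) → V) :=
  bp_measurable_cons measurable_const measurable_id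

theorem IU_int_HiA4 {μ : Measure V} (hμ : Mom μ) {k : ℕ} (U : Submodule ℝ V)
    {F : (Fin k → V) → ℝ} (hF : Bd F) :
    Integrable (fun x => D (fun j => pU U (x j)) * F x) (mk μ k) :=
  AFK.int_mul (integrable_D_mk hμ k U) hF

theorem IU_add_HiA4 {μ : Measure V} (hμ : Mom μ) {k : ℕ} (U : Submodule ℝ V)
    {F G : (Fin k → V) → ℝ} (hF : Bd F) (hG : Bd G) :
    IU μ k U (fun x => F x + G x) = IU μ k U F + IU μ k U G := by
  unfold IU
  rw [← integral_add (IU_int_HiA4 hμ U hF) (IU_int_HiA4 hμ U hG)]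
  exact integral_congr_ae (ae_of_all _ fun x => by ring)

theorem IU_mul_HiA4 (μ : Measure V) {k : ℕ} (U : Submodule ℝ V) (c : ℝ)
    (F : (Fin k → V) → ℝ) : IU μ k U (fun x => c * F x) = c * IU μ k U F := by
  unfold IU
  rw [← integral_const_mul]
  exact integral_congr_ae (ae_of_all _ fun x => by ring)

theorem IU_const_HiA4 (μ : Measure V) {k : ℕ} (U : Submodule ℝ V) (c : ℝ) :
    IU μ k U (fun _ => c) = c * IU μ k U fun _ => 1 := by
  rw [← IU_mul_HiA4]; simp only [mul_one]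

theorem IU_nonneg_HiA4 (μ : Measure V) {k : ℕ} (U : Submodule ℝ V)
    {F : (Fin k → V) → ℝ} (h : ∀ x, 0 ≤ F x) : 0 ≤ IU μ k U F :=
  integral_nonneg fun x => mul_nonneg (D_nonneg _) (h x)

theorem IU_mono_HiA4 {μ : Measure V} (hμ : Mom μ) {k : ℕ} (U : Submodule ℝ V)
    {F G : (Fin k → V) → ℝ} (hF : Bd F) (hG : Bd G) (h : ∀ x, F x ≤ G x) :
    IU μ k U F ≤ IU μ k U G :=
  integral_mono (IU_int_HiA4 hμ U hF) (IU_int_HiA4 hμ U hG) fun x =>
    mul_le_mul_of_nonneg_left (h x) (D_nonneg _)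

theorem IU_abs_HiA4 {μ : Measure V} (hμ : Mom μ) {k : ℕ} (U : Submodule ℝ V)
    {F : (Fin k → V) → ℝ} (hF : Bd F) {C : ℝ} (hC : ∀ x, |F x| ≤ C) :
    |IU μ k U F| ≤ C * IU μ k U fun _ => 1 := by
  rw [abs_le]
  constructor
  · have := IU_mono_HiA4 hμ U (AFK.bd_const (-C)) hF fun x => (abs_le.1 (hC x)).1
    rw [IU_const_HiA4] at this
    linarith
  · have := IU_mono_HiA4 hμ U hF (AFK.bd_const C) fun x => (abs_le.1 (hC x)).2
    rwa [IU_const_HiA4] at this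

theorem IU_sum_HiA4 {μ : Measure V} (hμ : Mom μ) {k : ℕ} (U : Submodule ℝ V) {ι : Type}
    (s : Finset ι) {F : ι → (Fin k → V) → ℝ} (hF : ∀ j, Bd (F j)) :
    IU μ k U (fun x => ∑ j ∈ s, F j x) = ∑ j ∈ s, IU μ k U (F j) := by
  unfold IU
  rw [← integral_finsetSum _ fun j _ => IU_int_HiA4 hμ U (hF j)]
  exact integral_congr_ae (ae_of_all _ fun x => by simp only [Finset.mul_sum])

theorem IU_sq_sub_HiA4 {μ : Measure V} (hμ : Mom μ) {k : ℕ} (U : Submodule ℝ V)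
    {F G : (Fin k → V) → ℝ} (hF : Bd F) (hG : Bd G) :
    IU μ k U (fun x => (F x - G x) ^ 2) = IU μ k U (fun x => F x ^ 2)
      - 2 * IU μ k U (fun x => F x * G x) + IU μ k U fun x => G x ^ 2 := by
  have h1 := IU_add_HiA4 hμ U (bd_sq_HiA4 hF) (AFK.bd_mul (AFK.bd_const (-2)) (AFK.bd_mul hF hG))
  have h2 := IU_add_HiA4 hμ U (AFK.bd_add (bd_sq_HiA4 hF) (AFK.bd_mul (AFK.bd_const (-2)) (AFK.bd_mul hF hG)))
    (bd_sq_HiA4 hG)
  rw [h1, IU_mul_HiA4] at h2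
  have e : (fun x => (F x - G x) ^ 2) = fun x => F x ^ 2 + -2 * (F x * G x) + G x ^ 2 := by
    funext x; ring
  rw [e, h2]; ring

theorem IU_meas_HiA4 {μ : Measure V} (hμ : Mom μ) {k : ℕ} (U : Submodule ℝ V)
    {F : (Fin (k + 1) → V) → ℝ} (hF : Bd F) :
    Measurable fun a => IU μ k (U ⊓ (ℝ ∙ pU U a)ᗮ) fun x => F (Fin.cons a x) := by
  have := hμ.prob
  have e : (fun a => IU μ k (U ⊓ (ℝ ∙ pU U a)ᗮ) fun x => F (Fin.cons a x))
      = fun a => ∫ x, D (fun j => pr (pU U a) (pU U (x j))) * F (Fin.cons a x) ∂(mk μ k) := by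
    funext a
    unfold IU
    simp only [pr_pU]
  rw [e]
  have hm : Measurable fun q : V × (Fin k → V) =>
      D (fun j => pr (pU U q.1) (pU U (q.2 j))) * F (Fin.cons q.1 q.2) := by
    refine Measurable.mul (measurable_D (measurable_pi_lambda _ fun j => measurable_pr ?_ ?_))
      (hF.meas.comp brs_measurable_cons)
    · exact (pU U).continuous.measurable.comp measurable_fst
    · exact (pU U).continuous.measurable.comp ((measurable_pi_apply j).comp measurable_snd)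
  exact (hm.stronglyMeasurable.integral_prod_right' (ν := mk μ k)).measurable

theorem es_reduce_HiA4 {μ : Measure V} (hμ : Mom μ) (k : ℕ) (U : Submodule ℝ V)
    (H : ∀ {F : (Fin (k + 1) → V) → ℝ}, Bd F →
      (∀ (σ : Equiv.Perm (Fin (k + 1))) x, F (fun j => x (σ j)) = F x) →
      IU μ (k + 1) U F = 0 → ∀ {G : (Fin k → V) → ℝ}, Bd G →
      IU μ (k + 1) U (fun x => F x ^ 2)
        ≤ (k + 1 : ℝ) * IU μ (k + 1) U fun x => (F x - G (Fin.tail x)) ^ 2)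
    {F : (Fin (k + 1) → V) → ℝ} (hF : Bd F)
    (hs : ∀ (σ : Equiv.Perm (Fin (k + 1))) x, F (fun j => x (σ j)) = F x)
    {G : (Fin k → V) → ℝ} (hG : Bd G) :
    IU μ (k + 1) U (fun x => F x ^ 2) - IU μ (k + 1) U F ^ 2 / IU μ (k + 1) U (fun _ => 1)
      ≤ (k + 1 : ℝ) * IU μ (k + 1) U fun x => (F x - G (Fin.tail x)) ^ 2 := by
  by_cases h1 : IU μ (k + 1) U (fun _ => 1) = 0
  · obtain ⟨C, hC⟩ := (bd_sq_HiA4 hF).bdd
    have h2 := IU_abs_HiA4 hμ U (bd_sq_HiA4 hF) hC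
    rw [h1, mul_zero] at h2
    have h3 : 0 ≤ IU μ (k + 1) U fun x => (F x - G (Fin.tail x)) ^ 2 :=
      IU_nonneg_HiA4 μ U fun x => sq_nonneg _
    rw [h1, div_zero, sub_zero]
    have h4 := (abs_le.1 h2).2
    have h5 : (0 : ℝ) ≤ (k + 1 : ℝ) := by positivity
    exact h4.trans (mul_nonneg h5 h3)
  · set m := IU μ (k + 1) U F / IU μ (k + 1) U (fun _ => 1) with hm
    have hF' : Bd fun x => F x - m := bd_sub_HiA4 hF (AFK.bd_const m)
    have hG' : Bd fun x => G x - m := bd_sub_HiA4 hG (AFK.bd_const m)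
    have h0 : IU μ (k + 1) U (fun x => F x - m) = 0 := by
      have := IU_add_HiA4 hμ U hF (AFK.bd_const (-m))
      simp only [← sub_eq_add_neg] at this
      rw [this, IU_const_HiA4, hm]
      field_simp
      ring
    have h2 := H hF' (fun σ x => by simp only [hs σ x]) h0 hG'
    have e : (fun x : Fin (k + 1) → V => (F x - m - (G (Fin.tail x) - m)) ^ 2)
        = fun x => (F x - G (Fin.tail x)) ^ 2 := by
      funext x; ring
    rw [e, IU_sq_sub_HiA4 hμ U hF (AFK.bd_const m)] at h2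
    have h3 : IU μ (k + 1) U (fun x => F x * m) = m * IU μ (k + 1) U F := by
      rw [← IU_mul_HiA4]; simp only [mul_comm]
    rw [h3, IU_const_HiA4] at h2
    have h4 : IU μ (k + 1) U F ^ 2 / IU μ (k + 1) U (fun _ => 1)
        = 2 * (m * IU μ (k + 1) U F) - m ^ 2 * IU μ (k + 1) U (fun _ => 1) := by
      rw [hm]; field_simp; ring
    rw [h4]; linarith

theorem tail_swap_HiA4 {k : ℕ} (x : Fin (k + 2) → V) :
    Fin.tail (fun j => x (Equiv.swap 0 1 j))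
      = (Fin.cons (x 0) (Fin.tail (Fin.tail x)) : Fin (k + 1) → V) := by
  funext j
  refine Fin.cases ?_ (fun j => ?_) j
  · simp [Fin.tail]
  · simp only [Fin.tail, Fin.cons_succ]
    rw [Equiv.swap_apply_of_ne_of_ne (Fin.succ_ne_zero _)]
    intro h
    have := congrArg Fin.val h
    simp at this

theorem cons_perm_HiA4 {k : ℕ} (a : V) (σ : Equiv.Perm (Fin k)) (x : Fin k → V) :
    (Fin.cons a (fun j => x (σ j)) : Fin (k + 1) → V)
      = fun j => (Fin.cons a x : Fin (k + 1) → V) (Equiv.Perm.decomposeFin.symm (0, σ) j) := by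
  funext j
  refine Fin.cases ?_ (fun j => ?_) j
  · simp
  · simp [Equiv.Perm.decomposeFin_symm_apply_succ]

theorem es_step_HiA4 {μ : Measure V} (hμ : Mom μ) (k : ℕ)
    (ih : ∀ (U : Submodule ℝ V) {F : (Fin (k + 1) → V) → ℝ}, Bd F →
      (∀ (σ : Equiv.Perm (Fin (k + 1))) x, F (fun j => x (σ j)) = F x) →
      ∀ {G : (Fin k → V) → ℝ}, Bd G →
      IU μ (k + 1) U (fun x => F x ^ 2) - IU μ (k + 1) U F ^ 2 / IU μ (k + 1) U (fun _ => 1)
        ≤ (k + 1 : ℝ) * IU μ (k + 1) U fun x => (F x - G (Fin.tail x)) ^ 2)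
    (U : Submodule ℝ V) {F : (Fin (k + 2) → V) → ℝ} (hF : Bd F)
    (hs : ∀ (σ : Equiv.Perm (Fin (k + 2))) x, F (fun j => x (σ j)) = F x)
    (h0 : IU μ (k + 2) U F = 0) {G : (Fin (k + 1) → V) → ℝ} (hG : Bd G) :
    IU μ (k + 2) U (fun x => F x ^ 2)
      ≤ ((k + 1 : ℕ) + 1 : ℝ) * IU μ (k + 2) U fun x => (F x - G (Fin.tail x)) ^ 2 := by
  have := hμ.prob
  obtain ⟨C, hC⟩ := hF.bdd
  have hC0 : 0 ≤ C := (abs_nonneg _).trans (hC 0)
  have hFa : ∀ a, Bd fun x : Fin (k + 1) → V => F (Fin.cons a x) := fun a =>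
    bd_comp_HiA4 hF (meas_cons_HiA4 a)
  have hGa : ∀ a, Bd fun x : Fin k → V => G (Fin.cons a x) := fun a =>
    bd_comp_HiA4 hG (meas_cons_HiA4 a)
  set I1 : V → ℝ := fun a => IU μ (k + 1) (U ⊓ (ℝ ∙ pU U a)ᗮ) fun _ => 1 with hI1
  set IF : V → ℝ := fun a => IU μ (k + 1) (U ⊓ (ℝ ∙ pU U a)ᗮ) fun x => F (Fin.cons a x) with hIF
  have hI0 : ∀ a, 0 ≤ I1 a := fun a => IU_nonneg_HiA4 μ _ fun _ => zero_le_one
  have habs : ∀ a, |IF a| ≤ C * I1 a := fun a => IU_abs_HiA4 hμ _ (hFa a) fun x => hC _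
  set φ : V → ℝ := fun a => IF a / I1 a with hφd
  have hφ : Bd φ := by
    refine ⟨(IU_meas_HiA4 hμ U hF).div (IU_meas_HiA4 hμ U (F := fun _ => 1) (AFK.bd_const 1)),
      C, fun a => ?_⟩
    rcases (hI0 a).eq_or_lt with h | h
    · simp only [hφd, ← h, div_zero, abs_zero]; exact hC0
    · simp only [hφd, abs_div, abs_of_pos h]
      exact (div_le_iff₀ h).2 (habs a)
  have hmul : ∀ a, φ a * I1 a = IF a := by
    intro a
    rcases (hI0 a).eq_or_lt with h | h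
    · have := habs a
      rw [← h, mul_zero] at this
      rw [← h, mul_zero, abs_nonpos_iff.1 this]
    · simp only [hφd]; field_simp
  have hφj : ∀ j : Fin (k + 2), Bd fun x : Fin (k + 2) → V => φ (x j) := fun j =>
    bd_comp_HiA4 hφ (measurable_pi_apply j)
  -- the right side after the swap
  have hT : Measurable fun x : Fin (k + 2) → V =>
      (Fin.cons (x 0) (Fin.tail (Fin.tail x)) : Fin (k + 1) → V) :=
    bp_measurable_cons (measurable_pi_apply 0) (meas_tail_HiA4.comp meas_tail_HiA4)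
  have hR0 : Bd fun x : Fin (k + 2) → V => (F x - G (Fin.tail x)) ^ 2 :=
    bd_sq_HiA4 (bd_sub_HiA4 hF (bd_comp_HiA4 hG meas_tail_HiA4))
  have hR1 : Bd fun x : Fin (k + 2) → V =>
      (F x - G (Fin.cons (x 0) (Fin.tail (Fin.tail x)))) ^ 2 :=
    bd_sq_HiA4 (bd_sub_HiA4 hF (bd_comp_HiA4 hG hT))
  have eR : IU μ (k + 2) U (fun x => (F x - G (Fin.tail x)) ^ 2)
      = IU μ (k + 2) U fun x => (F x - G (Fin.cons (x 0) (Fin.tail (Fin.tail x)))) ^ 2 := by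
    rw [← IU_perm hμ U hR0 (Equiv.swap 0 1)]
    simp only [hs, tail_swap_HiA4]
  obtain ⟨iR, cR⟩ := IU_cons hμ U hR1
  obtain ⟨iF2, cF2⟩ := IU_cons hμ U (bd_sq_HiA4 hF)
  obtain ⟨iA, cA⟩ := IU_cons hμ U (bd_sq_HiA4 (hφj 0))
  obtain ⟨-, cB⟩ := IU_cons hμ U (AFK.bd_mul hF (hφj 0))
  obtain ⟨-, cφ⟩ := IU_cons hμ U (hφj 0)
  obtain ⟨-, cF⟩ := IU_cons hμ U hF
  simp only [Fin.cons_zero, Fin.tail_cons] at iR cR iA cA cB cφ
  set A := IU μ (k + 1 + 1) U fun x => φ (x 0) ^ 2 with hA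
  have k1 : IU μ (k + 2) U (fun x => F x ^ 2) - A
      ≤ (k + 1 : ℝ) * IU μ (k + 2) U fun x => (F x - G (Fin.tail x)) ^ 2 := by
    rw [eR, cR, cF2, cA, ← integral_sub iF2 iA, ← integral_const_mul]
    refine integral_mono (iF2.sub iA) (iR.const_mul _) fun a => ?_
    have h1 := ih (U ⊓ (ℝ ∙ pU U a)ᗮ) (hFa a)
      (fun σ x => by rw [cons_perm_HiA4, hs]) (hGa a)
    have h2 : IU μ (k + 1) (U ⊓ (ℝ ∙ pU U a)ᗮ) (fun _ => φ a ^ 2) = IF a ^ 2 / I1 a := by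
      rw [IU_const_HiA4]
      change φ a ^ 2 * I1 a = _
      rw [sq, mul_assoc, hmul a, hφd]
      simp only
      ring
    have h3 := mul_le_mul_of_nonneg_left h1 (norm_nonneg (pU U a))
    simp only [h2]
    change ‖pU U a‖ * (_ - IF a ^ 2 / I1 a) ≤ _ at h3
    linarith
  have k2 : IU μ (k + 2) U (fun x => F x * φ (x 0)) = A := by
    rw [cB, cA]
    refine integral_congr_ae (ae_of_all _ fun a => ?_)
    have h1 : IU μ (k + 1) (U ⊓ (ℝ ∙ pU U a)ᗮ) (fun x => F (Fin.cons a x) * φ a)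
        = φ a * IF a := by
      simp only [hIF]
      rw [← IU_mul_HiA4]; simp only [mul_comm]
    have h2 : IU μ (k + 1) (U ⊓ (ℝ ∙ pU U a)ᗮ) (fun _ => φ a ^ 2) = φ a * IF a := by
      rw [IU_const_HiA4]
      change φ a ^ 2 * I1 a = _
      rw [sq, mul_assoc, hmul a]
    simp only [h1, h2]
  have k3 : IU μ (k + 1 + 1) U (fun x => φ (x 0)) = 0 := by
    rw [cφ, ← h0, cF]
    refine integral_congr_ae (ae_of_all _ fun a => ?_)
    have h2 : IU μ (k + 1) (U ⊓ (ℝ ∙ pU U a)ᗮ) (fun _ => φ a) = IF a := by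
      rw [IU_const_HiA4]
      exact hmul a
    simp only [h2, hIF]
  have k4 := es_sum hμ U hφ k3
  have hS : Bd fun x : Fin (k + 2) → V => ∑ j, φ (x j) := bd_sum_HiA4 _ hφj
  have k5 : IU μ (k + 2) U (fun x => F x * ∑ j, φ (x j)) = (k + 2 : ℝ) * A := by
    simp only [Finset.mul_sum]
    rw [IU_sum_HiA4 hμ U _ fun j => AFK.bd_mul hF (hφj j)]
    have : ∀ j : Fin (k + 2), IU μ (k + 2) U (fun x => F x * φ (x j)) = A := by
      intro j
      rw [← k2, ← IU_perm hμ U (AFK.bd_mul hF (hφj 0)) (Equiv.swap 0 j)]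
      simp only [hs, Equiv.swap_apply_left]
    simp only [this, Finset.sum_const, Finset.card_univ, Fintype.card_fin, nsmul_eq_mul]
    push_cast; ring
  have k6 := IU_sq_sub_HiA4 hμ U hF hS
  have k7 : 0 ≤ IU μ (k + 2) U fun x => (F x - ∑ j, φ (x j)) ^ 2 :=
    IU_nonneg_HiA4 μ U fun x => sq_nonneg _
  rw [k6, k5] at k7
  have k8 : (k + 2 : ℝ) * A ≤ IU μ (k + 2) U fun x => F x ^ 2 := by
    have : ((k + 1 : ℕ) + 1 : ℝ) = k + 2 := by push_cast; ring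
    rw [this] at k4
    linarith
  have hk : (0 : ℝ) < k + 1 := by positivity
  have : ((k + 1 : ℕ) + 1 : ℝ) = k + 2 := by push_cast; ring
  rw [this]
  refine le_of_mul_le_mul_left ?_ hk
  nlinarith

theorem es_link {μ : Measure V} (hμ : Mom μ) : ∀ (k : ℕ) (U : Submodule ℝ V)
    {F : (Fin (k + 1) → V) → ℝ}, Bd F →
    (∀ (σ : Equiv.Perm (Fin (k + 1))) x, F (fun j => x (σ j)) = F x) →
    ∀ {G : (Fin k → V) → ℝ}, Bd G →
    IU μ (k + 1) U (fun x => F x ^ 2) - IU μ (k + 1) U F ^ 2 / IU μ (k + 1) U (fun _ => 1)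
      ≤ (k + 1 : ℝ) * IU μ (k + 1) U fun x => (F x - G (Fin.tail x)) ^ 2 := by
  intro k
  induction k with
  | zero =>
    intro U F hF hs G hG
    refine es_reduce_HiA4 hμ 0 U ?_ hF hs hG
    intro F hF hs h0 G hG
    have e : (fun x : Fin (0 + 1) → V => (F x - G (Fin.tail x)) ^ 2)
        = fun x => (F x - G default) ^ 2 := by
      funext x
      rw [Subsingleton.elim (Fin.tail x) default]
    rw [e, IU_sq_sub_HiA4 hμ U hF (AFK.bd_const _)]
    have h3 : IU μ (0 + 1) U (fun x => F x * G default) = G default * IU μ (0 + 1) U F := by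
      rw [← IU_mul_HiA4]; simp only [mul_comm]
    have h4 : 0 ≤ IU μ (0 + 1) U fun _ => G default ^ 2 :=
      IU_nonneg_HiA4 μ U fun x => sq_nonneg _
    rw [h3, h0]
    push_cast
    linarith
  | succ k ih =>
    intro U F hF hs G hG
    refine es_reduce_HiA4 hμ (k + 1) U ?_ hF hs hG
    intro F hF hs h0 G hG
    exact es_step_HiA4 hμ k ih U hF hs h0 hG

theorem efron_stein {μ : Measure V} (hμ : Mom μ) {k : ℕ} (h : 0 < Wr (k + 1) μ)
    {F : (Fin (k + 1) → V) → ℝ} (hF : Bd F)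
    (hs : ∀ (σ : Equiv.Perm (Fin (k + 1))) x, F (fun j => x (σ j)) = F x)
    {G : (Fin k → V) → ℝ} (hG : Bd G) :
    ∫ x, (F x - ∫ y, F y ∂(Fr (k + 1) μ)) ^ 2 ∂(Fr (k + 1) μ)
      ≤ (k + 1 : ℝ) * ∫ x, (F x - G (Fin.tail x)) ^ 2 ∂(Fr (k + 1) μ) := by
  have top : ∀ H : (Fin (k + 1) → V) → ℝ,
      ∫ x, H x ∂(Fr (k + 1) μ) = (Wr (k + 1) μ)⁻¹ * IU μ (k + 1) ⊤ H := by
    intro H
    rw [integral_Fr h]
    unfold IU
    simp only [pU, Submodule.starProjection_top, ContinuousLinearMap.id_apply]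
  have hW : IU μ (k + 1) ⊤ (fun _ => 1) = Wr (k + 1) μ := by
    unfold IU Wr
    simp only [pU, Submodule.starProjection_top, ContinuousLinearMap.id_apply, mul_one]
  have h1 := es_link hμ k ⊤ hF hs hG
  rw [hW] at h1
  rw [top, top, top]
  set m := (Wr (k + 1) μ)⁻¹ * IU μ (k + 1) ⊤ F with hm
  rw [IU_sq_sub_HiA4 hμ ⊤ hF (AFK.bd_const m)]
  have h3 : IU μ (k + 1) ⊤ (fun x => F x * m) = m * IU μ (k + 1) ⊤ F := by
    rw [← IU_mul_HiA4]; simp only [mul_comm]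
  rw [h3, IU_const_HiA4, hW]
  have h4 : IU μ (k + 1) ⊤ F ^ 2 / Wr (k + 1) μ
      = 2 * (m * IU μ (k + 1) ⊤ F) - m ^ 2 * Wr (k + 1) μ := by
    rw [hm]; field_simp; ring
  rw [h4] at h1
  have h5 := mul_le_mul_of_nonneg_left h1 (inv_pos.2 h).le
  linarith

end Pool.Agent.P.MP_181257_gt
end
end

-- part Pool.Agent.P.MP_181257_gt.HiC1
section

/-! Concentration of the length of projections. -/

set_option autoImplicit false
set_option linter.unusedSectionVars false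
set_option linter.unusedVariables false

open MeasureTheory ProbabilityTheory Module Set Filter Topology
open scoped RealInnerProductSpace ENNReal Pointwise Matrix

noncomputable section

namespace Pool.Agent.P.MP_181257_gt

variable {V : Type} [NormedAddCommGroup V] [InnerProductSpace ℝ V] [FiniteDimensional ℝ V]
  [MeasurableSpace V] [BorelSpace V]

theorem le_HiC1 {k : ℕ} (x : Fin k → V) (T : V →L[ℝ] V) (hT : ∀ v, ‖T v‖ ≤ ‖v‖) (w : V) (p : ℕ) :
    ‖Pj k x (T w)‖ ^ p ≤ ‖w‖ ^ p :=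
  pow_le_pow_left₀ (norm_nonneg _) ((norm_Pj_le x _).trans (hT w)) p

theorem int_HiC1 {κ : Measure V} {k : ℕ} (x : Fin k → V) (T : V →L[ℝ] V) (hT : ∀ v, ‖T v‖ ≤ ‖v‖)
    (h2 : Integrable (fun w => ‖w‖ ^ 2) κ) : Integrable (fun w => ‖Pj k x (T w)‖ ^ 2) κ := by
  refine h2.mono' (Measurable.aestronglyMeasurable (by fun_prop)) (ae_of_all _ fun w => ?_)
  rw [Real.norm_eq_abs, abs_of_nonneg (sq_nonneg _)]
  exact le_HiC1 x T hT w 2

theorem bd_HiC1 {κ : Measure V} [IsProbabilityMeasure κ] (k : ℕ) (T : V →L[ℝ] V)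
    (hT : ∀ v, ‖T v‖ ≤ ‖v‖) (h2 : Integrable (fun w => ‖w‖ ^ 2) κ) :
    Bd fun x : Fin k → V => ∫ w, ‖Pj k x (T w)‖ ^ 2 ∂κ := by
  refine ⟨?_, ∫ w, ‖w‖ ^ 2 ∂κ, fun x => ?_⟩
  · have h1 : Measurable fun p : (Fin k → V) × V => ‖Pj k p.1 (T p.2)‖ ^ 2 :=
      (measurable_Pj k measurable_fst (by fun_prop)).norm.pow_const 2
    exact (h1.stronglyMeasurable.integral_prod_right' (ν := κ)).measurable
  · rw [abs_of_nonneg (integral_nonneg fun w => sq_nonneg _)]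
    exact integral_mono (int_HiC1 x T hT h2) h2 fun w => le_HiC1 x T hT w 2

theorem sq_int_HiC1 {X : Type} [MeasurableSpace X] {κ : Measure X} [IsProbabilityMeasure κ]
    {f g : X → ℝ} (hf : Measurable f) (hg : Integrable g κ) (h : ∀ w, f w ^ 2 ≤ g w) (m : ℝ) :
    Integrable (fun w => (f w - m) ^ 2) κ := by
  refine ((hg.const_mul 2).add (integrable_const (2 * m ^ 2))).mono'
    (Measurable.aestronglyMeasurable (by fun_prop)) (ae_of_all _ fun w => ?_)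
  rw [Real.norm_eq_abs, abs_of_nonneg (sq_nonneg _)]
  have := h w
  simp only [Pi.add_apply]
  nlinarith [sq_nonneg (f w + m)]

theorem split_HiC1 {X : Type} [MeasurableSpace X] {κ : Measure X} [IsProbabilityMeasure κ]
    {f : X → ℝ} {m : ℝ} (hi : Integrable (fun w => (f w - m) ^ 2) κ) (M : ℝ) :
    ∫ w, (f w - M) ^ 2 ∂κ ≤ 2 * ∫ w, (f w - m) ^ 2 ∂κ + 2 * (m - M) ^ 2 := by
  have h1 := integral_mono_of_nonneg (μ := κ) (f := fun w => (f w - M) ^ 2)
    (g := fun w => 2 * (f w - m) ^ 2 + 2 * (m - M) ^ 2) (ae_of_all _ fun w => sq_nonneg _)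
    ((hi.const_mul 2).add (integrable_const _))
    (ae_of_all _ fun w => by nlinarith [sq_nonneg (f w - m - (m - M))])
  rw [integral_add (hi.const_mul 2) (integrable_const _), integral_const_mul, integral_const]
    at h1
  simpa using h1

theorem outer_HiC1 {X : Type} [MeasurableSpace X] {κ : Measure X} [IsProbabilityMeasure κ]
    {f m : X → ℝ} (hm : Bd m) (hf : ∀ x, 0 ≤ f x) {c M : ℝ}
    (h : ∀ x, f x ≤ c + 2 * (m x - M) ^ 2) :
    ∫ x, f x ∂κ ≤ c + 2 * ∫ x, (m x - M) ^ 2 ∂κ := by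
  obtain ⟨C, hC⟩ := hm.bdd
  have hi : Integrable (fun x => (m x - M) ^ 2) κ :=
    sq_int_HiC1 hm.meas (integrable_const (C ^ 2))
      (fun w => sq_le_sq' (abs_le.1 (hC w)).1 (abs_le.1 (hC w)).2) M
  have h1 := integral_mono_of_nonneg (μ := κ) (f := f)
    (g := fun x => c + 2 * (m x - M) ^ 2) (ae_of_all _ hf)
    ((integrable_const _).add (hi.const_mul 2)) (ae_of_all _ h)
  rw [integral_add (integrable_const _) (hi.const_mul 2), integral_const_mul, integral_const]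
    at h1
  simpa using h1

theorem swap_HiC1 (U : Submodule ℝ V) {k : ℕ} (y : Fin k → V) :
    ∫ g, ‖pU U (Pj k y g)‖ ^ 2 ∂(stdGaussian V) = ∫ g, ‖Pj k y (pU U g)‖ ^ 2 ∂(stdGaussian V) := by
  have h1 := integral_norm_sq_clm (stdOrthonormalBasis ℝ V) ((pU U).comp (Pj k y))
  have h2 := integral_norm_sq_clm (stdOrthonormalBasis ℝ V) ((Pj k y).comp (pU U))
  simp only [ContinuousLinearMap.comp_apply] at h1 h2
  rw [h1, h2]
  simp only [← (stdOrthonormalBasis ℝ V).sum_sq_inner_right]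
  rw [Finset.sum_comm]
  refine Finset.sum_congr rfl fun l _ => Finset.sum_congr rfl fun l' _ => ?_
  rw [← Submodule.inner_starProjection_left_eq_right, ← inner_Pj_comm, real_inner_comm]

/-- bounded differences -/
theorem es_one {μ : Measure V} (hμ : Mom μ) {i : ℕ} (hi : 1 ≤ i) (h : 0 < Wr i μ)
    {κ : Measure V} [IsProbabilityMeasure κ] (T : V →L[ℝ] V) (hT : ∀ v, ‖T v‖ ≤ ‖v‖)
    (h2 : Integrable (fun w => ‖w‖ ^ 2) κ) (h1 : ∀ a : V, ∫ w, ⟪a, w⟫ ^ 2 ∂κ ≤ ‖a‖ ^ 2) :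
    ∫ x, ((∫ w, ‖Pj i x (T w)‖ ^ 2 ∂κ) - ∫ y, ∫ w, ‖Pj i y (T w)‖ ^ 2 ∂κ ∂(Fr i μ)) ^ 2 ∂(Fr i μ)
      ≤ i := by
  obtain ⟨k, rfl⟩ : ∃ k, i = k + 1 := ⟨i - 1, by omega⟩
  have := Fr_prob hμ h
  have : CompleteSpace V := FiniteDimensional.complete ℝ V
  have h3 := efron_stein hμ h (bd_HiC1 (k + 1) T hT h2) (fun σ x => by simp only [Pj_perm])
    (bd_HiC1 k T hT h2)
  refine h3.trans ?_
  have h4 : ∀ x : Fin (k + 1) → V, ((∫ w, ‖Pj (k + 1) x (T w)‖ ^ 2 ∂κ)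
      - ∫ w, ‖Pj k (Fin.tail x) (T w)‖ ^ 2 ∂κ) ^ 2 ≤ 1 := by
    intro x
    obtain ⟨z, hz⟩ : ∃ z, z = Pj k (Fin.tail x) (x 0) := ⟨_, rfl⟩
    have e1 : ∀ w, ‖Pj (k + 1) x (T w)‖ ^ 2 = ‖Pj k (Fin.tail x) (T w)‖ ^ 2
        - ⟪ContinuousLinearMap.adjoint T z, w⟫ ^ 2 / ‖z‖ ^ 2 := by
      intro w
      have := norm_sq_Pj_cons (x 0) (Fin.tail x) (T w)
      rw [Fin.cons_self_tail, ← hz] at this
      rw [this, ContinuousLinearMap.adjoint_inner_left]
    have e2 : ‖ContinuousLinearMap.adjoint T z‖ ≤ ‖z‖ := by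
      have a1 : ‖T‖ ≤ 1 := T.opNorm_le_bound zero_le_one fun v => by simpa using hT v
      have a2 := (ContinuousLinearMap.adjoint T).le_opNorm z
      rw [LinearIsometryEquiv.norm_map] at a2
      nlinarith [norm_nonneg z]
    have e3 : ∫ w, ⟪ContinuousLinearMap.adjoint T z, w⟫ ^ 2 / ‖z‖ ^ 2 ∂κ ≤ 1 := by
      rw [integral_div]
      exact div_le_one_of_le₀ ((h1 _).trans (pow_le_pow_left₀ (norm_nonneg _) e2 2)) (sq_nonneg _)
    have e4 : 0 ≤ ∫ w, ⟪ContinuousLinearMap.adjoint T z, w⟫ ^ 2 / ‖z‖ ^ 2 ∂κ :=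
      integral_nonneg fun w => by positivity
    have e5 : (∫ w, ‖Pj k (Fin.tail x) (T w)‖ ^ 2 ∂κ) - ∫ w, ‖Pj (k + 1) x (T w)‖ ^ 2 ∂κ
        = ∫ w, ⟪ContinuousLinearMap.adjoint T z, w⟫ ^ 2 / ‖z‖ ^ 2 ∂κ := by
      rw [← integral_sub (int_HiC1 _ T hT h2) (int_HiC1 _ T hT h2)]
      congr 1
      ext w
      rw [e1]
      ring
    nlinarith
  have h5 := integral_mono_of_nonneg (μ := Fr (k + 1) μ) (ae_of_all _ fun x => sq_nonneg _)
    (integrable_const (1 : ℝ)) (ae_of_all _ h4)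
  rw [integral_const, probReal_univ, one_smul] at h5
  push_cast
  have h6 : (0 : ℝ) ≤ k + 1 := by positivity
  nlinarith

theorem conc_sub {i : ℕ} {μ ν : Measure V} (h : FP i μ ν) (hi : 1 ≤ i) (hin : i ≤ finrank ℝ V)
    (U : Submodule ℝ V) :
    ∫ w, (‖pU U w‖ ^ 2 - ∫ z, ‖pU U z‖ ^ 2 ∂μ) ^ 2 ∂μ ≤ 6 * (finrank ℝ V : ℝ) := by
  have := Fr_prob h.mr h.wr
  obtain ⟨M, hM⟩ : ∃ M, M = ∫ z, ‖pU U z‖ ^ 2 ∂μ := ⟨_, rfl⟩
  rw [← hM]
  have b2 : ∀ w, ‖pU U w‖ ^ 2 ≤ ‖w‖ ^ 2 := fun w =>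
    pow_le_pow_left₀ (norm_nonneg _) (norm_pU_le U w) 2
  have h1 := (integrable_Tn h.mr h.wr (φ := fun w => ‖pU U w‖ ^ 2) (by fun_prop) (C := 1) (p := 2)
    (fun w => by rw [abs_of_nonneg (sq_nonneg _)]; linarith [b2 w])).2
  have h2 := (integrable_Tn h.mr h.wr (φ := fun w => (‖pU U w‖ ^ 2 - M) ^ 2) (by fun_prop)
    (C := 2 + 2 * M ^ 2) (p := 4) (fun w => by
      rw [abs_of_nonneg (sq_nonneg _)]
      have a1 : (‖pU U w‖ ^ 2) ^ 2 ≤ (‖w‖ ^ 2) ^ 2 := pow_le_pow_left₀ (sq_nonneg _) (b2 w) 2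
      have a2 : 0 ≤ M ^ 2 * ‖w‖ ^ 4 := by positivity
      nlinarith [sq_nonneg (‖pU U w‖ ^ 2 + M)])).2
  rw [← h.el] at h1 h2
  rw [← hM] at h1
  simp only [swap_HiC1] at h1
  have h3 := es_one h.mr hi h.wr (κ := stdGaussian V) (pU U) (norm_pU_le U)
    (integrable_norm_pow 2) (fun a => by
      have := integral_inner_pow a 1
      rw [Km_one, one_mul] at this
      exact this.le)
  rw [← h1] at h3
  rw [h2]
  have h4 := outer_HiC1 (κ := Fr i ν) (bd_HiC1 i (pU U) (norm_pU_le U) (integrable_norm_pow 2))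
    (f := fun y => ∫ g, (‖pU U (Pj i y g)‖ ^ 2 - M) ^ 2 ∂(stdGaussian V))
    (fun y => integral_nonneg fun g => sq_nonneg _) (c := 4 * (finrank ℝ V : ℝ)) (M := M) (by
      intro y
      have a1 := quad_var ((pU U).comp (Pj i y)) fun g => (norm_pU_le U _).trans (norm_Pj_le y g)
      simp only [ContinuousLinearMap.comp_apply] at a1
      have a2 := split_HiC1 (κ := stdGaussian V) (sq_int_HiC1 (f := fun g => ‖pU U (Pj i y g)‖ ^ 2)
        (by fun_prop) (integrable_norm_pow 4) (fun g => by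
          rw [← pow_mul]
          exact pow_le_pow_left₀ (norm_nonneg _) ((norm_pU_le U _).trans (norm_Pj_le y g)) _)
        (∫ z, ‖pU U (Pj i y z)‖ ^ 2 ∂(stdGaussian V))) M
      rw [← swap_HiC1]
      linarith)
  have h5 : (i : ℝ) ≤ finrank ℝ V := by exact_mod_cast hin
  linarith

theorem conc_pair {i : ℕ} {μ ν : Measure V} (h : FP i μ ν) (hi : 1 ≤ i) (hin : i ≤ finrank ℝ V) :
    Integrable (fun p : (Fin i → V) × V => ‖Pj i p.1 p.2‖ ^ 2) ((Fr i μ).prod μ) ∧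
    Integrable (fun p : (Fin i → V) × V => ‖Pj i p.1 p.2‖ ^ 4) ((Fr i μ).prod μ) ∧
    ∫ p : (Fin i → V) × V, (‖Pj i p.1 p.2‖ ^ 2
        - ∫ s : (Fin i → V) × V, ‖Pj i s.1 s.2‖ ^ 2 ∂((Fr i μ).prod μ)) ^ 2 ∂((Fr i μ).prod μ)
      ≤ 14 * (finrank ℝ V : ℝ) := by
  have := Fr_prob h.ml h.wl
  have := h.ml.prob
  have n1 : ∀ q : ℕ, Integrable (fun w => ‖w‖ ^ q) μ := fun q => by
    have := integrable_norm_pow_Tn h.mr h.wr q
    rwa [← h.el] at this
  have m1 : Measurable fun p : (Fin i → V) × V => ‖Pj i p.1 p.2‖ :=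
    (measurable_Pj i measurable_fst measurable_snd).norm
  have n2 : ∀ q : ℕ, Integrable (fun p : (Fin i → V) × V => ‖Pj i p.1 p.2‖ ^ q)
      ((Fr i μ).prod μ) := fun q => by
    refine ((n1 q).comp_snd (Fr i μ)).mono' (m1.pow_const q).aestronglyMeasurable
      (ae_of_all _ fun p => ?_)
    rw [Real.norm_eq_abs, abs_of_nonneg (by positivity)]
    exact pow_le_pow_left₀ (norm_nonneg _) (norm_Pj_le _ _) q
  refine ⟨n2 2, n2 4, ?_⟩
  obtain ⟨M, hM⟩ : ∃ M, M = ∫ s : (Fin i → V) × V, ‖Pj i s.1 s.2‖ ^ 2 ∂((Fr i μ).prod μ) :=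
    ⟨_, rfl⟩
  rw [← hM]
  rw [integral_prod _ (n2 2)] at hM
  rw [integral_prod _ (sq_int_HiC1 (m1.pow_const 2) (n2 4) (fun p => by rw [← pow_mul]) M)]
  have h3 := es_one h.ml hi h.wl (κ := μ) (ContinuousLinearMap.id ℝ V) (fun v => le_rfl) (n1 2)
    (fun a => by
      have := integral_inner_pow_Tn h.mr h.wr a 1
      rwa [← h.el, Km_one, one_mul] at this)
  simp only [ContinuousLinearMap.id_apply] at h3
  rw [← hM] at h3
  have b1 := bd_HiC1 i (ContinuousLinearMap.id ℝ V) (fun v => le_rfl) (n1 2)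
  simp only [ContinuousLinearMap.id_apply] at b1
  have h4 := outer_HiC1 (κ := Fr i μ) b1 (f := fun x => ∫ w, (‖Pj i x w‖ ^ 2 - M) ^ 2 ∂μ)
    (fun y => integral_nonneg fun g => sq_nonneg _) (c := 12 * (finrank ℝ V : ℝ)) (M := M) (by
      intro x
      have a1 := conc_sub h hi hin (nrm x)
      rw [← Pj_eq] at a1
      have a2 := split_HiC1 (κ := μ) (sq_int_HiC1 (f := fun w => ‖Pj i x w‖ ^ 2)
        (by fun_prop) (n1 4) (fun g => by
          rw [← pow_mul]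
          exact pow_le_pow_left₀ (norm_nonneg _) (norm_Pj_le x g) _)
        (∫ z, ‖Pj i x z‖ ^ 2 ∂μ)) M
      linarith)
  have h5 : (i : ℝ) ≤ finrank ℝ V := by exact_mod_cast hin
  linarith

end Pool.Agent.P.MP_181257_gt
end
end

-- part Pool.Agent.P.MP_181257_gt.HiD5
section

/-! Consequences of isotropy for subspaces. -/

set_option autoImplicit false
set_option linter.unusedSectionVars false
set_option linter.unusedVariables false

open MeasureTheory ProbabilityTheory Module Set Filter Topology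
open scoped RealInnerProductSpace ENNReal Pointwise Matrix

noncomputable section

namespace Pool.Agent.P.MP_181257_gt

variable {V : Type} [NormedAddCommGroup V] [InnerProductSpace ℝ V] [FiniteDimensional ℝ V]
  [MeasurableSpace V] [BorelSpace V]

theorem int_pow_HiD5 {i : ℕ} {μ ν : Measure V} (h : FP i μ ν) (p : ℕ) :
    Integrable (fun w : V => ‖w‖ ^ p) μ := by
  have := integrable_norm_pow_Tn h.mr h.wr p
  rwa [← h.el] at this

theorem int_pU_HiD5 {i : ℕ} {μ ν : Measure V} (h : FP i μ ν) (U : Submodule ℝ V) (p : ℕ) :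
    Integrable (fun w : V => ‖pU U w‖ ^ p) μ := by
  refine Integrable.mono' (int_pow_HiD5 h p)
    (((pU U).continuous.norm.pow p).aestronglyMeasurable) (ae_of_all _ fun w => ?_)
  rw [Real.norm_eq_abs, abs_of_nonneg (by positivity)]
  exact pow_le_pow_left₀ (norm_nonneg _) (norm_pU_le U w) p

theorem int_var_HiD5 {i : ℕ} {μ ν : Measure V} (h : FP i μ ν) (U : Submodule ℝ V) (m : ℝ) :
    Integrable (fun w : V => (‖pU U w‖ ^ 2 - m) ^ 2) μ := by
  have := h.ml.prob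
  have h1 := ((int_pU_HiD5 h U 4).sub ((int_pU_HiD5 h U 2).const_mul (2 * m))).add
    (integrable_const (m ^ 2))
  refine h1.congr (ae_of_all _ fun w => ?_)
  simp only [Pi.add_apply, Pi.sub_apply]
  ring

theorem mean_HiD5 {i : ℕ} {μ ν : Measure V} (h : FP i μ ν)
    {s : ℝ} (hiso : ∀ a : V, ‖a‖ = 1 → s ≤ Sg μ a a) {r : ℕ}
    (U : Submodule ℝ V) (hU : r ≤ finrank ℝ U) : r * s ≤ ∫ z, ‖pU U z‖ ^ 2 ∂μ := by
  obtain ⟨e, he, heU⟩ := exists_on U hU
  have hint : ∀ l, Integrable (fun w => ⟪e l, w⟫ ^ 2) μ := fun l => by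
    have := integrable_inner_pow_Tn h.mr h.wr (e l) 2
    rwa [← h.el] at this
  calc (r : ℝ) * s = ∑ _l : Fin r, s := by simp
    _ ≤ ∑ l, ∫ w, ⟪e l, w⟫ ^ 2 ∂μ := by
        refine Finset.sum_le_sum fun l _ => ?_
        have := hiso (e l) (he.1 l)
        simpa only [Sg, sq] using this
    _ = ∫ w, ∑ l, ⟪e l, w⟫ ^ 2 ∂μ := (integral_finsetSum _ fun l _ => hint l).symm
    _ ≤ _ := integral_mono (integrable_finsetSum _ fun l _ => hint l) (int_pU_HiD5 h U 2)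
        fun w => sum_inner_sq_le he heU w

theorem cheb_HiD5 {i : ℕ} {μ ν : Measure V} (h : FP i μ ν) (hi : 1 ≤ i) (hin : i ≤ finrank ℝ V)
    (U : Submodule ℝ V) {t : ℝ} (ht : 0 < t) :
    μ {w | t ^ 2 ≤ (‖pU U w‖ ^ 2 - ∫ z, ‖pU U z‖ ^ 2 ∂μ) ^ 2}
      ≤ ENNReal.ofReal (6 * (finrank ℝ V : ℝ) / t ^ 2) := by
  have := h.ml.prob
  have h1 := mul_meas_ge_le_integral_of_nonneg (μ := μ)
    (f := fun w => (‖pU U w‖ ^ 2 - ∫ z, ‖pU U z‖ ^ 2 ∂μ) ^ 2)
    (ae_of_all _ fun w => sq_nonneg _) (int_var_HiD5 h U _) (t ^ 2)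
  have h2 := h1.trans (conc_sub h hi hin U)
  rw [← ofReal_measureReal]
  refine ENNReal.ofReal_le_ofReal ?_
  rw [le_div_iff₀ (by positivity), mul_comm]
  exact h2

theorem sub_lower {i : ℕ} {μ ν : Measure V} (h : FP i μ ν) (hi : 1 ≤ i) (hin : i ≤ finrank ℝ V)
    {s : ℝ} (hs : 0 < s) (hiso : ∀ a : V, ‖a‖ = 1 → s ≤ Sg μ a a) {r : ℕ} (hr : 1 ≤ r)
    (hbig : 48 * (finrank ℝ V : ℝ) ≤ (r * s) ^ 2) (U : Submodule ℝ V) (hU : r ≤ finrank ℝ U) :
    √(r * s / 2) / 2 ≤ ∫ w, ‖pU U w‖ ∂μ := by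
  have := h.ml.prob
  have hr' : (0 : ℝ) < r := by exact_mod_cast hr
  set t : ℝ := r * s / 2 with ht
  have ht0 : 0 < t := by positivity
  set m : ℝ := ∫ z, ‖pU U z‖ ^ 2 ∂μ with hm
  have hmt : 2 * t ≤ m := by
    have := mean_HiD5 h hiso U hU
    rw [ht]
    linarith
  have hv := conc_sub h hi hin U
  have hq : 0 ≤ √t := Real.sqrt_nonneg _
  have hpt : ∀ w, √t - √t / t ^ 2 * (‖pU U w‖ ^ 2 - m) ^ 2 ≤ ‖pU U w‖ := by
    intro w
    have h0 : 0 ≤ √t / t ^ 2 * (‖pU U w‖ ^ 2 - m) ^ 2 := by positivity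
    by_cases hw : t ≤ ‖pU U w‖ ^ 2
    · have : √t ≤ ‖pU U w‖ := Real.sqrt_le_iff.mpr ⟨norm_nonneg _, hw⟩
      linarith
    · have h1 : t ^ 2 ≤ (‖pU U w‖ ^ 2 - m) ^ 2 := by
        have h2 : t ≤ m - ‖pU U w‖ ^ 2 := by linarith [not_le.mp hw]
        have h3 := pow_le_pow_left₀ ht0.le h2 2
        linarith [sub_sq' m (‖pU U w‖ ^ 2), sub_sq' (‖pU U w‖ ^ 2) m]
      have h2 : √t / t ^ 2 * t ^ 2 ≤ √t / t ^ 2 * (‖pU U w‖ ^ 2 - m) ^ 2 :=
        mul_le_mul_of_nonneg_left h1 (by positivity)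
      rw [div_mul_cancel₀ _ (by positivity)] at h2
      linarith [norm_nonneg (pU U w)]
  have hI : Integrable (fun w => ‖pU U w‖) μ := by simpa using int_pU_HiD5 h U 1
  have h3 := integral_mono ((integrable_const (√t)).sub ((int_var_HiD5 h U m).const_mul
    (√t / t ^ 2))) hI hpt
  have h4 : ∫ w, (√t - √t / t ^ 2 * (‖pU U w‖ ^ 2 - m) ^ 2) ∂μ
      = √t - √t / t ^ 2 * ∫ w, (‖pU U w‖ ^ 2 - m) ^ 2 ∂μ := by
    rw [integral_sub (integrable_const _) ((int_var_HiD5 h U m).const_mul _), integral_const_mul]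
    simp
  have h5 : ∫ w, (‖pU U w‖ ^ 2 - m) ^ 2 ∂μ ≤ t ^ 2 / 2 := by
    have : t ^ 2 = (r * s) ^ 2 / 4 := by rw [ht]; ring
    linarith
  have h6 : √t / t ^ 2 * ∫ w, (‖pU U w‖ ^ 2 - m) ^ 2 ∂μ ≤ √t / t ^ 2 * (t ^ 2 / 2) :=
    mul_le_mul_of_nonneg_left h5 (by positivity)
  have h7 : √t / t ^ 2 * (t ^ 2 / 2) = √t / 2 := by field_simp
  have h8 : ∫ w, (√t - √t / t ^ 2 * (‖pU U w‖ ^ 2 - m) ^ 2) ∂μ ≤ ∫ w, ‖pU U w‖ ∂μ := h3
  linarith

theorem rho_small {i : ℕ} {μ ν : Measure V} (h : FP i μ ν) (hi : 1 ≤ i) (hin : i ≤ finrank ℝ V)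
    {s : ℝ} (hs : 0 < s) (hiso : ∀ a : V, ‖a‖ = 1 → s ≤ Sg μ a a) {r : ℕ} (hr : 1 ≤ r)
    (δ : ℝ) (U : Submodule ℝ V) (hU : r ≤ finrank ℝ U) :
    μ {w | rho δ U w < r * s / (4 * finrank ℝ V)}
      ≤ ENNReal.ofReal (24 * (finrank ℝ V : ℝ) / (r * s) ^ 2 + 6 / finrank ℝ V) := by
  have hr' : (0 : ℝ) < r := by exact_mod_cast hr
  have hn : (0 : ℝ) < finrank ℝ V := by
    have : 0 < finrank ℝ V := by omega
    exact_mod_cast this
  have ht0 : 0 < r * s / 2 := by positivity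
  have hm := mean_HiD5 h hiso U hU
  have htop : ∀ w : V, pU (⊤ : Submodule ℝ V) w = w := fun w =>
    Submodule.starProjection_eq_self_iff.mpr Submodule.mem_top
  have hm' : ∫ z, ‖z‖ ^ 2 ∂μ ≤ finrank ℝ V := by
    have := integral_norm_pow_Tn h.mr h.wr (j := 1) le_rfl
    rw [← h.el, Km_one] at this
    simpa using this
  have c1 := cheb_HiD5 h hi hin U ht0
  have c2 := cheb_HiD5 h hi hin ⊤ hn
  simp only [htop] at c2
  have hsub : {w | rho δ U w < r * s / (4 * finrank ℝ V)} ⊆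
      {w | (r * s / 2) ^ 2 ≤ (‖pU U w‖ ^ 2 - ∫ z, ‖pU U z‖ ^ 2 ∂μ) ^ 2} ∪
      {w | (finrank ℝ V : ℝ) ^ 2 ≤ (‖w‖ ^ 2 - ∫ z, ‖z‖ ^ 2 ∂μ) ^ 2} := by
    intro w hw
    by_cases h1 : r * s / 2 ≤ ‖pU U w‖ ^ 2
    · right
      by_cases h2 : 2 * (finrank ℝ V : ℝ) ≤ ‖w‖ ^ 2
      · exact pow_le_pow_left₀ hn.le (by linarith) 2
      · exfalso
        have h3 : ‖pU U w‖ ^ 2 ≤ ‖w‖ ^ 2 := pow_le_pow_left₀ (norm_nonneg _) (norm_pU_le U w) 2
        have h4 : 0 < ‖w‖ ^ 2 := by linarith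
        have h5 : r * s / (4 * finrank ℝ V) ≤ ‖pU U w‖ ^ 2 / ‖w‖ ^ 2 := by
          rw [div_le_div_iff₀ (by positivity) h4]
          have h6 := mul_le_mul h1 (not_le.mp h2).le h4.le (sq_nonneg _)
          linarith
        have h7 : rho δ U w < r * s / (4 * finrank ℝ V) := hw
        unfold rho at h7
        linarith [sq_nonneg δ]
    · left
      have h2 : r * s / 2 ≤ (∫ z, ‖pU U z‖ ^ 2 ∂μ) - ‖pU U w‖ ^ 2 := by linarith [not_le.mp h1]
      have h3 := pow_le_pow_left₀ ht0.le h2 2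
      show (r * s / 2) ^ 2 ≤ (‖pU U w‖ ^ 2 - ∫ z, ‖pU U z‖ ^ 2 ∂μ) ^ 2
      linarith [sub_sq' (∫ z, ‖pU U z‖ ^ 2 ∂μ) (‖pU U w‖ ^ 2),
        sub_sq' (‖pU U w‖ ^ 2) (∫ z, ‖pU U z‖ ^ 2 ∂μ)]
  refine (measure_mono hsub).trans ((measure_union_le _ _).trans ((add_le_add c1 c2).trans ?_))
  rw [← ENNReal.ofReal_add (by positivity) (by positivity)]
  refine ENNReal.ofReal_le_ofReal (le_of_eq ?_)
  field_simp
  ring

/-- splitting at a level -/
theorem split_level {X : Type} [MeasurableSpace X] (κ : Measure X) [IsProbabilityMeasure κ]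
    {f : X → ℝ} (hf : Measurable f) {c p A : ℝ} (hc : 0 < c) (hp : 0 ≤ p) (hA : 0 ≤ A)
    (h1 : κ {w | f w < c} ≤ ENNReal.ofReal p)
    (h2 : ∫⁻ w, (ENNReal.ofReal (f w))⁻¹ ^ 2 ∂κ ≤ ENNReal.ofReal A) :
    ∫⁻ w, (ENNReal.ofReal (f w))⁻¹ ∂κ ≤ ENNReal.ofReal (1 / c + √p * √A) := by
  have hS : MeasurableSet {w | f w < c} := measurableSet_lt hf measurable_const
  have hg : Measurable fun w => (ENNReal.ofReal (f w))⁻¹ := hf.ennreal_ofReal.inv
  have hind : Measurable ({w | f w < c}.indicator (1 : X → ℝ≥0∞)) :=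
    measurable_one.indicator hS
  have hpt : ∀ w, (ENNReal.ofReal (f w))⁻¹ ≤ ENNReal.ofReal (1 / c) +
      (({w | f w < c}.indicator (1 : X → ℝ≥0∞)) * fun w => (ENNReal.ofReal (f w))⁻¹) w := by
    intro w
    by_cases hw : f w < c
    · have : w ∈ {w | f w < c} := hw
      simp [indicator_of_mem this]
    · refine le_trans ?_ le_self_add
      rw [one_div, ENNReal.ofReal_inv_of_pos hc]
      exact ENNReal.inv_le_inv.mpr (ENNReal.ofReal_le_ofReal (not_lt.mp hw))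
  have hH := ENNReal.lintegral_mul_le_Lp_mul_Lq κ Real.HolderConjugate.two_two
    hind.aemeasurable hg.aemeasurable
  have e1 : ∫⁻ w, ({w | f w < c}.indicator (1 : X → ℝ≥0∞)) w ^ (2 : ℝ) ∂κ = κ {w | f w < c} := by
    rw [← lintegral_indicator_one hS]
    refine lintegral_congr fun w => ?_
    by_cases hw : w ∈ {w | f w < c}
    · simp [indicator_of_mem hw]
    · simp [indicator_of_notMem hw]
  have e2 : ∫⁻ w, (ENNReal.ofReal (f w))⁻¹ ^ (2 : ℝ) ∂κ
      = ∫⁻ w, (ENNReal.ofReal (f w))⁻¹ ^ 2 ∂κ := by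
    refine lintegral_congr fun w => ?_
    rw [← ENNReal.rpow_natCast]
    norm_num
  rw [e1, e2] at hH
  have e3 : ∀ q : ℝ, 0 ≤ q → ENNReal.ofReal q ^ (1 / 2 : ℝ) = ENNReal.ofReal (√q) := by
    intro q hq
    rw [Real.sqrt_eq_rpow, ENNReal.ofReal_rpow_of_nonneg hq (by norm_num)]
  have hH' := hH.trans (mul_le_mul' (ENNReal.rpow_le_rpow h1 (by norm_num))
    (ENNReal.rpow_le_rpow h2 (by norm_num)))
  rw [e3 p hp, e3 A hA, ← ENNReal.ofReal_mul (Real.sqrt_nonneg _)] at hH'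
  refine (lintegral_mono hpt).trans ?_
  rw [lintegral_add_left measurable_const, lintegral_const, measure_univ, mul_one,
    ENNReal.ofReal_add (by positivity) (by positivity)]
  exact add_le_add le_rfl hH'

theorem meas_rho_HiD5 (δ : ℝ) (U : Submodule ℝ V) :
    Measurable fun w => (ENNReal.ofReal (rho δ U w))⁻¹ := by
  refine (Measurable.ennreal_ofReal ?_).inv
  unfold rho
  exact (((pU U).continuous.measurable.norm.pow_const 2).div
    (measurable_norm.pow_const 2)).add_const _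

theorem one_HiD5 (κ : Measure V) [IsProbabilityMeasure κ] {N : ℝ} (hN : 1 ≤ N)
    (U : Submodule ℝ V) : ∫⁻ w, (ENNReal.ofReal (rho 1 U w))⁻¹ ∂κ ≤ ENNReal.ofReal N := by
  have h1 : ∀ w, (ENNReal.ofReal (rho 1 U w))⁻¹ ≤ ENNReal.ofReal N := by
    intro w
    have h2 : 1 ≤ rho 1 U w := by
      unfold rho
      have : 0 ≤ ‖pU U w‖ ^ 2 / ‖w‖ ^ 2 := by positivity
      linarith
    exact (ENNReal.inv_le_one.mpr (ENNReal.one_le_ofReal.mpr h2)).trans
      (ENNReal.one_le_ofReal.mpr hN)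
  refine (lintegral_mono h1).trans ?_
  simp

theorem half_HiD5 (κ : Measure V) {N δ : ℝ} (hδ : 0 < δ) (U : Submodule ℝ V)
    (h : ∫⁻ w, (ENNReal.ofReal (rho δ U w))⁻¹ ∂κ ≤ ENNReal.ofReal N) :
    ∫⁻ w, (ENNReal.ofReal (rho (δ * (1 / 2)) U w))⁻¹ ∂κ ≤ ENNReal.ofReal (4 * N) := by
  have h1 : ∀ w, (ENNReal.ofReal (rho (δ * (1 / 2)) U w))⁻¹
      ≤ ENNReal.ofReal 4 * (ENNReal.ofReal (rho δ U w))⁻¹ := by
    intro w
    have h0 : 0 ≤ ‖pU U w‖ ^ 2 / ‖w‖ ^ 2 := by positivity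
    have h2 : 0 < rho δ U w := by
      unfold rho
      positivity
    have h3 : 0 < rho (δ * (1 / 2)) U w := by
      unfold rho
      positivity
    rw [← ENNReal.ofReal_inv_of_pos h2, ← ENNReal.ofReal_inv_of_pos h3,
      ← ENNReal.ofReal_mul (by norm_num)]
    refine ENNReal.ofReal_le_ofReal ?_
    rw [← div_eq_mul_inv, inv_eq_one_div, div_le_div_iff₀ h3 h2]
    unfold rho
    nlinarith
  refine (lintegral_mono h1).trans ?_
  rw [lintegral_const_mul _ (meas_rho_HiD5 δ U), ENNReal.ofReal_mul (by norm_num)]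
  exact mul_le_mul' le_rfl h

theorem lim_HiD5 (κ : Measure V) {N : ℝ} (U : Submodule ℝ V)
    (h : ∀ l : ℕ, ∫⁻ w, (ENNReal.ofReal (rho ((1 / 2) ^ l) U w))⁻¹ ∂κ ≤ ENNReal.ofReal N) :
    ∫⁻ w, (ENNReal.ofReal (rho 0 U w))⁻¹ ∂κ ≤ ENNReal.ofReal N := by
  have h1 : ∀ w, Tendsto (fun l : ℕ => (ENNReal.ofReal (rho ((1 / 2) ^ l) U w))⁻¹) atTop
      (𝓝 (ENNReal.ofReal (rho 0 U w))⁻¹) := by
    intro w
    have h2 : Tendsto (fun l : ℕ => (1 / 2 : ℝ) ^ l) atTop (𝓝 0) :=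
      tendsto_pow_atTop_nhds_zero_of_lt_one (by norm_num) (by norm_num)
    have h3 : Continuous fun δ : ℝ => (ENNReal.ofReal (rho δ U w))⁻¹ := by
      refine Continuous.inv (ENNReal.continuous_ofReal.comp ?_)
      unfold rho
      exact continuous_const.add (continuous_pow 2)
    exact (h3.tendsto 0).comp h2
  have h4 := lintegral_liminf_le (μ := κ) (u := atTop)
    (f := fun (l : ℕ) w => (ENNReal.ofReal (rho ((1 / 2) ^ l) U w))⁻¹)
    (fun l => meas_rho_HiD5 _ U)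
  simp only [fun w => (h1 w).liminf_eq] at h4
  exact h4.trans (liminf_le_of_frequently_le' (Frequently.of_forall h))

/-- induction on dyadic scales -/
theorem dyadic {μ ν : Measure V} [IsProbabilityMeasure μ] [IsProbabilityMeasure ν] {r : ℕ}
    {N : ℝ} (hN : 1 ≤ N)
    (hstep : ∀ δ : ℝ, 0 < δ → δ ≤ 1 →
      (∀ U : Submodule ℝ V, r ≤ finrank ℝ U →
        ∫⁻ w, (ENNReal.ofReal (rho δ U w))⁻¹ ∂μ ≤ ENNReal.ofReal (4 * N) ∧
        ∫⁻ w, (ENNReal.ofReal (rho δ U w))⁻¹ ∂ν ≤ ENNReal.ofReal (4 * N)) →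
      ∀ U : Submodule ℝ V, r ≤ finrank ℝ U →
        ∫⁻ w, (ENNReal.ofReal (rho δ U w))⁻¹ ∂μ ≤ ENNReal.ofReal N ∧
        ∫⁻ w, (ENNReal.ofReal (rho δ U w))⁻¹ ∂ν ≤ ENNReal.ofReal N)
    (U : Submodule ℝ V) (hU : r ≤ finrank ℝ U) :
    ∫⁻ w, (ENNReal.ofReal (rho 0 U w))⁻¹ ∂μ ≤ ENNReal.ofReal N ∧
      ∫⁻ w, (ENNReal.ofReal (rho 0 U w))⁻¹ ∂ν ≤ ENNReal.ofReal N := by
  have key : ∀ l : ℕ, ∀ U : Submodule ℝ V, r ≤ finrank ℝ U →
      ∫⁻ w, (ENNReal.ofReal (rho ((1 / 2) ^ l) U w))⁻¹ ∂μ ≤ ENNReal.ofReal N ∧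
      ∫⁻ w, (ENNReal.ofReal (rho ((1 / 2) ^ l) U w))⁻¹ ∂ν ≤ ENNReal.ofReal N := by
    intro l
    induction l with
    | zero =>
      intro U _
      rw [pow_zero]
      exact ⟨one_HiD5 μ hN U, one_HiD5 ν hN U⟩
    | succ l ih =>
      refine hstep _ (by positivity) (pow_le_one₀ (by norm_num) (by norm_num)) fun U hU => ?_
      rw [pow_succ]
      exact ⟨half_HiD5 μ (by positivity) U (ih U hU).1, half_HiD5 ν (by positivity) U (ih U hU).2⟩
  exact ⟨lim_HiD5 μ U fun l => (key l U hU).1, lim_HiD5 ν U fun l => (key l U hU).2⟩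

end Pool.Agent.P.MP_181257_gt
end
end

-- part Pool.Agent.P.MP_181257_gt.HiC2
section

/-! Consecutive mean projections are close. -/

set_option autoImplicit false
set_option linter.unusedSectionVars false
set_option linter.unusedVariables false

open MeasureTheory ProbabilityTheory Module Set Filter Topology
open scoped RealInnerProductSpace ENNReal Pointwise Matrix

noncomputable section

namespace Pool.Agent.P.MP_181257_gt

variable {V : Type} [NormedAddCommGroup V] [InnerProductSpace ℝ V] [FiniteDimensional ℝ V]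
  [MeasurableSpace V] [BorelSpace V]

theorem point_HiC2 {k : ℕ} (x : Fin k → V) (w : V) {a b : V} (ha : ‖a‖ ≤ 1) (hb : ‖b‖ ≤ 1)
    {c : ℝ} (hc : 0 < c) (Z : ℝ) :
    |‖Pj k x w‖ * ⟪Pj (k + 1) (Fin.cons w x : Fin (k + 1) → V) a, b⟫ - Z * ⟪Pj k x a, b⟫|
      ≤ c / 8 * (‖Pj k x w‖ - Z) ^ 2 + (2 / c + 1 / 2) + 1 / 2 * ⟪Pj k x b, w⟫ ^ 2 := by
  have hPa : ‖Pj k x a‖ ≤ 1 := (norm_Pj_le x a).trans ha
  have hφ : |⟪Pj k x a, b⟫| ≤ 1 :=
    (abs_real_inner_le_norm _ _).trans (mul_le_one₀ hPa (norm_nonneg _) hb)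
  have hβ : ⟪Pj k x w, b⟫ = ⟪Pj k x b, w⟫ := by
    rw [inner_Pj_comm, real_inner_comm]
  rw [Pj_cons, pr, inner_sub_left, real_inner_smul_left, hβ]
  set R := ‖Pj k x w‖ with hR
  set φ := ⟪Pj k x a, b⟫
  set β := ⟪Pj k x b, w⟫
  have hα : |⟪Pj k x w, Pj k x a⟫| ≤ R := by
    refine (abs_real_inner_le_norm _ _).trans ?_
    exact mul_le_of_le_one_right (norm_nonneg _) hPa
  set α := ⟪Pj k x w, Pj k x a⟫
  have hR0 : 0 ≤ R := norm_nonneg _
  have h1 : |R * (α / R ^ 2)| ≤ 1 := by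
    rcases hR0.eq_or_lt with h0 | h0
    · rw [← h0]; simp
    · have : R * (α / R ^ 2) = α / R := by field_simp
      rw [this, abs_div, abs_of_pos h0, div_le_one h0]
      exact hα
  have e : R * (φ - α / R ^ 2 * β) - Z * φ = (R - Z) * φ - R * (α / R ^ 2) * β := by ring
  rw [e]
  have h2 : |(R - Z) * φ| ≤ |R - Z| := by
    rw [abs_mul]
    exact mul_le_of_le_one_right (abs_nonneg _) hφ
  have h3 : |R * (α / R ^ 2) * β| ≤ |β| := by
    rw [abs_mul]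
    exact mul_le_of_le_one_left (abs_nonneg _) h1
  have h4 : |β| ≤ 1 / 2 + 1 / 2 * β ^ 2 := by
    rw [← sq_abs β]
    nlinarith [sq_nonneg (|β| - 1)]
  have h5 : |R - Z| ≤ c / 8 * (R - Z) ^ 2 + 2 / c := by
    rw [← sq_abs (R - Z)]
    set y := |R - Z|
    have : c / 8 * y ^ 2 + 2 / c - y = (c * y - 4) ^ 2 / (8 * c) := by
      field_simp
      ring
    have h6 : 0 ≤ (c * y - 4) ^ 2 / (8 * c) := by positivity
    linarith
  have h7 := abs_sub ((R - Z) * φ) (R * (α / R ^ 2) * β)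
  linarith

theorem sq_int_HiC2 {X : Type} [MeasurableSpace X] {Q : Measure X} [IsProbabilityMeasure Q]
    {R : X → ℝ} (h1 : Integrable R Q) (h2 : Integrable (fun p => R p ^ 2) Q) (t : ℝ) :
    Integrable (fun p => (R p - t) ^ 2) Q ∧
      ∫ p, (R p - t) ^ 2 ∂Q = ∫ p, R p ^ 2 ∂Q - 2 * t * ∫ p, R p ∂Q + t ^ 2 := by
  have e : (fun p => (R p - t) ^ 2) = fun p => R p ^ 2 - 2 * t * R p + t ^ 2 := by
    ext p; ring
  have h3 : Integrable (fun p => R p ^ 2 - 2 * t * R p) Q := h2.sub (h1.const_mul _)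
  rw [e]
  refine ⟨h3.add (integrable_const _), ?_⟩
  rw [integral_add h3 (integrable_const _), integral_sub h2 (h1.const_mul _), integral_const_mul]
  simp

theorem var_HiC2 {X : Type} [MeasurableSpace X] {Q : Measure X} [IsProbabilityMeasure Q]
    {R : X → ℝ} (h0 : ∀ p, 0 ≤ R p) (h1 : Integrable R Q) (h2 : Integrable (fun p => R p ^ 2) Q)
    (h4 : Integrable (fun p => R p ^ 4) Q) {K : ℝ}
    (hK : ∫ p, (R p ^ 2 - ∫ s, R s ^ 2 ∂Q) ^ 2 ∂Q ≤ K) (hZ : 0 < ∫ p, R p ∂Q) :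
    ∫ p, (R p - ∫ s, R s ∂Q) ^ 2 ∂Q ≤ K / (∫ p, R p ∂Q) ^ 2 := by
  set Z := ∫ p, R p ∂Q with hZd
  set τ := ∫ p, R p ^ 2 ∂Q with hτ
  have a1 := (sq_int_HiC2 h1 h2 Z).2
  have a0 : 0 ≤ ∫ p, (R p - Z) ^ 2 ∂Q := integral_nonneg fun p => sq_nonneg _
  rw [← hZd, ← hτ] at a1
  have hτZ : Z ^ 2 ≤ τ := by nlinarith
  have hτ0 : 0 < τ := (pow_pos hZ 2).trans_le hτZ
  have a2 := sq_int_HiC2 h1 h2 (√τ)
  rw [← hZd, ← hτ] at a2
  have hl : √τ ^ 2 = τ := Real.sq_sqrt hτ0.le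
  have hl0 : 0 ≤ √τ := Real.sqrt_nonneg _
  have h4' : Integrable (fun p => (R p ^ 2) ^ 2) Q := by
    simpa [← pow_mul] using h4
  have a3 := (sq_int_HiC2 h2 h4' τ).1
  have a4 : ∫ p, (R p - √τ) ^ 2 ∂Q ≤ ∫ p, (R p ^ 2 - τ) ^ 2 / τ ∂Q := by
    refine integral_mono a2.1 (a3.div_const _) fun p => ?_
    simp only
    rw [le_div_iff₀ hτ0]
    have e : (R p ^ 2 - τ) ^ 2 = (R p - √τ) ^ 2 * (R p + √τ) ^ 2 := by
      rw [← mul_pow]
      congr 1
      nlinarith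
    rw [e]
    refine mul_le_mul_of_nonneg_left ?_ (sq_nonneg _)
    nlinarith [h0 p]
  rw [integral_div] at a4
  have hK0 : 0 ≤ K := (integral_nonneg fun p => sq_nonneg _).trans hK
  have a5 : (∫ p, (R p ^ 2 - τ) ^ 2 ∂Q) / τ ≤ K / Z ^ 2 :=
    div_le_div₀ hK0 hK (pow_pos hZ 2) hτZ
  have a6 := a2.2
  nlinarith [sq_nonneg (√τ - Z)]

theorem SS_close {i : ℕ} {μ ν : Measure V} (h : FP i μ ν) (hi : 1 ≤ i) (hin : i ≤ finrank ℝ V)
    {c m : ℝ} (hc : 0 < c) (hc1 : c ≤ 1) (hm : 1 ≤ m) (hmn : m ^ 4 = finrank ℝ V)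
    (hZ : c * m ^ 2 ≤ Zq i μ) {a b : V} (ha : ‖a‖ ≤ 1) (hb : ‖b‖ ≤ 1) :
    |SS (i + 1) μ a b - SS i μ a b| ≤ 10 / (c ^ 2 * m ^ 2) := by
  have := h.ml.prob
  have := Fr_prob h.ml h.wl
  obtain ⟨h2, h4, hK⟩ := conc_pair h hi hin
  have h1 := integrable_norm_Pj_prod h.ml h.wl
  have hZe := Zq_eq h.ml h.wl
  have hm0 : 0 < m := one_pos.trans_le hm
  have hcm : 0 < c * m ^ 2 := by positivity
  have hZ0 : 0 < Zq i μ := hcm.trans_le hZ
  have hv := var_HiC2 (fun p => norm_nonneg _) h1 h2 h4 hK (hZe ▸ hZ0)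
  rw [← hZe] at hv
  have hv' : 14 * (finrank ℝ V : ℝ) / Zq i μ ^ 2 ≤ 14 / c ^ 2 := by
    rw [← hmn, div_le_div_iff₀ (by positivity) (by positivity)]
    have : (c * m ^ 2) ^ 2 ≤ Zq i μ ^ 2 := by gcongr
    nlinarith
  have hbd : ∀ k : ℕ, Bd fun x : Fin k → V => ⟪Pj k x a, b⟫ := fun k =>
    ⟨(measurable_Pj k measurable_id measurable_const).inner measurable_const, 1, fun x =>
      (abs_real_inner_le_norm _ _).trans
        (mul_le_one₀ ((norm_Pj_le x a).trans ha) (norm_nonneg _) hb)⟩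
  have hF : Bd fun p : (Fin i → V) × V =>
      ⟪Pj (i + 1) (Fin.cons p.2 p.1 : Fin (i + 1) → V) a, b⟫ := by
    obtain ⟨hm', C, hC⟩ := hbd (i + 1)
    exact ⟨hm'.comp (bp_measurable_cons measurable_snd measurable_fst), C, fun p => hC _⟩
  have hφ : Bd fun p : (Fin i → V) × V => ⟪Pj i p.1 a, b⟫ := by
    obtain ⟨hm', C, hC⟩ := hbd i
    exact ⟨hm'.comp measurable_fst, C, fun p => hC _⟩
  have hS : SS (i + 1) μ a b = (Zq i μ)⁻¹ * ∫ p : (Fin i → V) × V,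
      ‖Pj i p.1 p.2‖ * ⟪Pj (i + 1) (Fin.cons p.2 p.1 : Fin (i + 1) → V) a, b⟫
        ∂((Fr i μ).prod μ) := integral_Fr_succ h.ml h.posl (hbd (i + 1))
  have hS0 : SS i μ a b = ∫ p : (Fin i → V) × V, ⟪Pj i p.1 a, b⟫ ∂((Fr i μ).prod μ) := by
    rw [integral_prod _ (hφ.integrable _)]
    simp [SS]
  have hβi : Integrable (fun p : (Fin i → V) × V => ⟪Pj i p.1 b, p.2⟫ ^ 2) ((Fr i μ).prod μ) := by
    refine h2.mono' ?_ (Eventually.of_forall fun p => ?_)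
    · exact (((measurable_Pj i measurable_fst measurable_const).inner measurable_snd).pow_const
        2).aestronglyMeasurable
    · rw [Real.norm_eq_abs, abs_of_nonneg (sq_nonneg _), inner_Pj_comm, ← sq_abs]
      refine pow_le_pow_left₀ (abs_nonneg _) ((abs_real_inner_le_norm _ _).trans ?_) 2
      exact mul_le_of_le_one_left (norm_nonneg _) hb
  have hβ : ∫ p : (Fin i → V) × V, ⟪Pj i p.1 b, p.2⟫ ^ 2 ∂((Fr i μ).prod μ) ≤ 1 := by
    rw [integral_prod _ hβi]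
    have hx : ∀ x : Fin i → V, ∫ w, ⟪Pj i x b, w⟫ ^ 2 ∂μ ≤ 1 := fun x => by
      have h5 := integral_inner_pow_Tn h.mr h.wr (Pj i x b) 1
      rw [← h.el, Km_one, one_mul, mul_one] at h5
      exact h5.trans (pow_le_one₀ (norm_nonneg _) ((norm_Pj_le x b).trans hb))
    refine (integral_mono_of_nonneg (Eventually.of_forall fun x => ?_) (integrable_const (1 : ℝ))
      (Eventually.of_forall hx)).trans (by simp)
    exact integral_nonneg fun w => sq_nonneg _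
  have hsq := (sq_int_HiC2 h1 h2 (Zq i μ)).1
  have hH1 : Integrable (fun p : (Fin i → V) × V =>
      c / 8 * (‖Pj i p.1 p.2‖ - Zq i μ) ^ 2 + (2 / c + 1 / 2)) ((Fr i μ).prod μ) :=
    (hsq.const_mul _).add (integrable_const _)
  have hG := norm_integral_le_of_norm_le (μ := (Fr i μ).prod μ)
    (f := fun p : (Fin i → V) × V =>
      ‖Pj i p.1 p.2‖ * ⟪Pj (i + 1) (Fin.cons p.2 p.1 : Fin (i + 1) → V) a, b⟫
        - Zq i μ * ⟪Pj i p.1 a, b⟫)
    (g := fun p : (Fin i → V) × V => c / 8 * (‖Pj i p.1 p.2‖ - Zq i μ) ^ 2 + (2 / c + 1 / 2)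
      + 1 / 2 * ⟪Pj i p.1 b, p.2⟫ ^ 2)
    (hH1.add (hβi.const_mul _))
    (Eventually.of_forall fun p => point_HiC2 p.1 p.2 ha hb hc _)
  rw [integral_sub (AFK.int_mul h1 hF) ((hφ.integrable _).const_mul _), integral_const_mul, ← hS0,
    integral_add hH1 (hβi.const_mul _), integral_add (hsq.const_mul _) (integrable_const _),
    integral_const_mul, integral_const_mul, Real.norm_eq_abs] at hG
  simp only [integral_const, probReal_univ, smul_eq_mul, one_mul] at hG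
  set I := ∫ p : (Fin i → V) × V,
      ‖Pj i p.1 p.2‖ * ⟪Pj (i + 1) (Fin.cons p.2 p.1 : Fin (i + 1) → V) a, b⟫ ∂((Fr i μ).prod μ)
  have e : SS (i + 1) μ a b - SS i μ a b = (I - Zq i μ * SS i μ a b) / Zq i μ := by
    rw [hS]
    field_simp
  have hb1 : |I - Zq i μ * SS i μ a b| ≤ 10 / c := by
    have t1 := mul_le_mul_of_nonneg_left (hv.trans hv') (by positivity : 0 ≤ c / 8)
    have t2 : c / 8 * (14 / c ^ 2) = 7 / 4 * (1 / c) := by field_simp; ring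
    have t3 : 1 ≤ 1 / c := by rw [le_div_iff₀ hc]; linarith
    have t4 : 2 / c = 2 * (1 / c) := by ring
    have t5 : 10 / c = 10 * (1 / c) := by ring
    linarith
  rw [e, abs_div, abs_of_pos hZ0]
  calc |I - Zq i μ * SS i μ a b| / Zq i μ ≤ (10 / c) / (c * m ^ 2) :=
        div_le_div₀ (by positivity) hb1 hcm hZ
    _ = 10 / (c ^ 2 * m ^ 2) := by field_simp

end Pool.Agent.P.MP_181257_gt
end
end

-- part Pool.Agent.P.MP_181257_gt.HiB1
section

/-! The Pohozaev identity. -/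

set_option autoImplicit false
set_option linter.unusedSectionVars false
set_option linter.unusedVariables false

open MeasureTheory ProbabilityTheory Module Set Filter Topology
open scoped RealInnerProductSpace ENNReal Pointwise Matrix

noncomputable section

namespace Pool.Agent.P.MP_181257_gt

variable {V : Type} [NormedAddCommGroup V] [InnerProductSpace ℝ V] [FiniteDimensional ℝ V]
  [MeasurableSpace V] [BorelSpace V]

theorem quot_le_HiB1 (z b : V) : |⟪z, b⟫ / ‖z‖| ≤ ‖b‖ := by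
  rcases eq_or_ne z 0 with hz | hz
  · simp [hz]
  · have hz' : 0 < ‖z‖ := norm_pos_iff.mpr hz
    rw [abs_div, abs_of_pos hz', div_le_iff₀ hz', mul_comm]
    exact abs_real_inner_le_norm z b

theorem term_le_HiB1 (a w z b : V) : |⟪a, w⟫ * (⟪z, b⟫ / ‖z‖)| ≤ ‖a‖ * ‖b‖ * ‖w‖ := by
  rw [abs_mul]
  calc |⟪a, w⟫| * |⟪z, b⟫ / ‖z‖| ≤ (‖a‖ * ‖w‖) * ‖b‖ :=
        mul_le_mul (abs_real_inner_le_norm a w) (quot_le_HiB1 z b) (abs_nonneg _) (by positivity)
    _ = ‖a‖ * ‖b‖ * ‖w‖ := by ring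

theorem meas_K_HiB1 {X : Type} [MeasurableSpace X] {i : ℕ} {x : X → Fin i → V} {w : X → V}
    (hx : Measurable x) (hw : Measurable w) (a b : V) :
    Measurable fun q : X => ⟪a, w q⟫ * (⟪Pj i (x q) (w q), b⟫ / ‖Pj i (x q) (w q)‖) := by
  have h1 : Measurable fun q : X => Pj i (x q) (w q) := measurable_Pj i hx hw
  exact (measurable_const.inner hw).mul ((h1.inner measurable_const).div h1.norm)

theorem int_K_HiB1 {μ : Measure V} (hμ : Mom μ) {i : ℕ} (h : 0 < Wr i μ) (a b : V) :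
    Integrable (fun p : (Fin i → V) × V => ⟪a, p.2⟫ * (⟪Pj i p.1 p.2, b⟫ / ‖Pj i p.1 p.2‖))
      ((Fr i μ).prod μ) := by
  have := hμ.prob
  have := Fr_prob hμ h
  have hb : Integrable (fun p : (Fin i → V) × V => (‖a‖ * ‖b‖) * ‖p.2‖) ((Fr i μ).prod μ) :=
    Integrable.mul_prod (f := fun _ : Fin i → V => ‖a‖ * ‖b‖) (integrable_const _) hμ.int
  refine hb.mono' (meas_K_HiB1 measurable_fst measurable_snd a b).aestronglyMeasurable ?_
  exact Eventually.of_forall fun p => term_le_HiB1 _ _ _ _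

theorem meas_H_HiB1 {i : ℕ} (a b : V) :
    Measurable fun q : V × (Fin i → V) =>
      D q.2 * (⟪a, q.1⟫ * (⟪Pj i q.2 q.1, b⟫ / ‖Pj i q.2 q.1‖)) :=
  (measurable_D measurable_snd).mul (meas_K_HiB1 measurable_snd measurable_fst a b)

theorem int_H_HiB1 {μ : Measure V} (hμ : Mom μ) {i : ℕ} (a b : V) :
    Integrable (fun q : V × (Fin i → V) =>
      D q.2 * (⟪a, q.1⟫ * (⟪Pj i q.2 q.1, b⟫ / ‖Pj i q.2 q.1‖))) (μ.prod (mk μ i)) := by
  have := hμ.prob
  have hb : Integrable (fun q : V × (Fin i → V) => ((‖a‖ * ‖b‖) * ‖q.1‖) * D q.2)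
      (μ.prod (mk μ i)) :=
    Integrable.mul_prod (f := fun w : V => (‖a‖ * ‖b‖) * ‖w‖) (hμ.int.const_mul _)
      (integrable_D_mk' hμ i)
  refine hb.mono' (meas_H_HiB1 a b).aestronglyMeasurable ?_
  refine Eventually.of_forall fun q => ?_
  rw [Real.norm_eq_abs, abs_mul, abs_of_nonneg (D_nonneg _), mul_comm]
  exact mul_le_mul_of_nonneg_right (term_le_HiB1 _ _ _ _) (D_nonneg _)

theorem mp_succAbove_HiB1 (μ : Measure V) [SigmaFinite μ] {i : ℕ} (j : Fin (i + 1)) :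
    MeasurePreserving (fun x : Fin (i + 1) → V => (x j, fun l => x (j.succAbove l)))
      (mk μ (i + 1)) (μ.prod (mk μ i)) :=
  measurePreserving_piFinSuccAbove (fun _ : Fin (i + 1) => μ) j

theorem poho {μ : Measure V} (hμ : Mom μ) {i : ℕ} (h : 0 < Wr (i + 1) μ) (a b : V) :
    ⟪a, b⟫ - SS (i + 1) μ a b = (i + 1 : ℝ) / Zq i μ *
      ∫ p : (Fin i → V) × V, ⟪a, p.2⟫ * (⟪Pj i p.1 p.2, b⟫ / ‖Pj i p.1 p.2‖)
        ∂((Fr i μ).prod μ) := by
  have := hμ.prob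
  have := Fr_prob hμ h
  have hi : 0 < Wr i μ := Wr_pos_of_succ hμ h
  have := Fr_prob hμ hi
  set H : V × (Fin i → V) → ℝ := fun q =>
    D q.2 * (⟪a, q.1⟫ * (⟪Pj i q.2 q.1, b⟫ / ‖Pj i q.2 q.1‖)) with hH
  have hHm : Measurable H := meas_H_HiB1 a b
  have hHi : Integrable H (μ.prod (mk μ i)) := int_H_HiB1 hμ a b
  have hP : Integrable (fun x : Fin (i + 1) → V => ⟪Pj (i + 1) x a, b⟫) (Fr (i + 1) μ) := by
    refine (integrable_const (‖a‖ * ‖b‖)).mono'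
      ((measurable_Pj (i + 1) measurable_id measurable_const).inner
        measurable_const).aestronglyMeasurable ?_
    refine Eventually.of_forall fun x => ?_
    exact (abs_real_inner_le_norm _ _).trans
      (mul_le_mul_of_nonneg_right (norm_Pj_le x a) (norm_nonneg _))
  have e1 : ⟪a, b⟫ - SS (i + 1) μ a b
      = ∫ x, (⟪a, b⟫ - ⟪Pj (i + 1) x a, b⟫) ∂(Fr (i + 1) μ) := by
    rw [integral_sub (integrable_const _) hP, integral_const]
    simp [SS]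
  have e2 : ∫ x, D x * (⟪a, b⟫ - ⟪Pj (i + 1) x a, b⟫) ∂(mk μ (i + 1))
      = (i + 1 : ℝ) * ∫ q, H q ∂(μ.prod (mk μ i)) := by
    have e3 : ∀ x : Fin (i + 1) → V, D x * (⟪a, b⟫ - ⟪Pj (i + 1) x a, b⟫)
        = ∑ j : Fin (i + 1), H (x j, fun l => x (j.succAbove l)) := fun x => dual_basis x a b
    simp_rw [e3]
    rw [integral_finsetSum (f := fun (j : Fin (i + 1)) (x : Fin (i + 1) → V) =>
      H (x j, fun l => x (j.succAbove l))) _ fun j _ =>
      (mp_succAbove_HiB1 μ j).integrable_comp_of_integrable hHi]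
    have e4 : ∀ j : Fin (i + 1), ∫ x, H (x j, fun l => x (j.succAbove l)) ∂(mk μ (i + 1))
        = ∫ q, H q ∂(μ.prod (mk μ i)) := fun j =>
      moment_integral_mp (mp_succAbove_HiB1 μ j) hHm
    simp_rw [e4]
    simp
  have e5 : ∫ p : (Fin i → V) × V, ⟪a, p.2⟫ * (⟪Pj i p.1 p.2, b⟫ / ‖Pj i p.1 p.2‖)
        ∂((Fr i μ).prod μ) = (Wr i μ)⁻¹ * ∫ q, H q ∂(μ.prod (mk μ i)) := by
    rw [integral_prod _ (int_K_HiB1 hμ hi a b), integral_Fr hi, integral_prod_symm _ hHi]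
    congr 1
    refine integral_congr_ae (Eventually.of_forall fun x => ?_)
    simp only [hH]
    rw [integral_const_mul]
  rw [e1, integral_Fr h, e2, e5, Zq]
  field_simp

theorem abs_sg_HiB1 (t : ℝ) : |sg t| ≤ 1 := by
  unfold sg
  rw [abs_div, abs_abs]
  exact div_self_le_one _

theorem side_HiB1 {i : ℕ} {μ ν : Measure V} (h : FP i μ ν) (a b : V) :
    c0 * ∫ p : (Fin i → V) × V, ⟪a, p.2⟫ * (⟪Pj i p.1 p.2, b⟫ / ‖Pj i p.1 p.2‖)
        ∂((Fr i μ).prod μ)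
      = ∫ w, ∫ y, ⟪a, w⟫ * (sg ⟪w, y⟫ * ⟪b, y⟫) ∂ν ∂μ := by
  have := h.ml.prob
  have := Fr_prob h.ml h.wl
  rw [integral_prod_symm _ (int_K_HiB1 h.ml h.wl a b), ← integral_const_mul]
  refine integral_congr_ae (Eventually.of_forall fun w => ?_)
  have := sg_Tn h.ml h.wl w b
  rw [← h.er] at this
  simp only
  rw [integral_const_mul, integral_const_mul, this]
  ring

theorem SS_eq {i : ℕ} {μ ν : Measure V} (h : FP i μ ν) (a b : V) :
    SS (i + 1) μ a b = SS (i + 1) ν a b := by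
  have := h.ml.prob
  have := h.mr.prob
  have p1 := poho h.ml h.posl a b
  have p2 := poho h.mr h.posr b a
  have s1 := side_HiB1 h a b
  have s2 := side_HiB1 h.symm b a
  have hz : Zq i μ = Zq i ν := Zq_symm h.ml h.mr h.wl h.wr h.el h.er
  have hint : Integrable (Function.uncurry fun w y : V => ⟪a, w⟫ * (sg ⟪w, y⟫ * ⟪b, y⟫))
      (μ.prod ν) := by
    have hb : Integrable (fun q : V × V => (‖a‖ * ‖q.1‖) * (‖b‖ * ‖q.2‖)) (μ.prod ν) :=
      Integrable.mul_prod (f := fun w : V => ‖a‖ * ‖w‖) (g := fun y : V => ‖b‖ * ‖y‖)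
        (h.ml.int.const_mul _) (h.mr.int.const_mul _)
    have hm : Measurable fun q : V × V => ⟪a, q.1⟫ * (sg ⟪q.1, q.2⟫ * ⟪b, q.2⟫) :=
      (measurable_const.inner measurable_fst).mul
        ((measurable_sg.comp (measurable_fst.inner measurable_snd)).mul
          (measurable_const.inner measurable_snd))
    refine hb.mono' hm.aestronglyMeasurable (Eventually.of_forall fun q => ?_)
    change |⟪a, q.1⟫ * (sg ⟪q.1, q.2⟫ * ⟪b, q.2⟫)| ≤ _
    rw [abs_mul, abs_mul]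
    refine mul_le_mul (abs_real_inner_le_norm _ _) ?_ (by positivity) (by positivity)
    exact (mul_le_of_le_one_left (abs_nonneg _) (abs_sg_HiB1 _)).trans
      (abs_real_inner_le_norm _ _)
  have hsw := integral_integral_swap hint
  have e : ∫ y, ∫ w, ⟪a, w⟫ * (sg ⟪w, y⟫ * ⟪b, y⟫) ∂μ ∂ν
      = ∫ y, ∫ w, ⟪b, y⟫ * (sg ⟪y, w⟫ * ⟪a, w⟫) ∂μ ∂ν := by
    refine integral_congr_ae (Eventually.of_forall fun y => ?_)
    refine integral_congr_ae (Eventually.of_forall fun w => ?_)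
    simp only
    rw [real_inner_comm y w]
    ring
  have hI := mul_left_cancel₀ c0_pos.ne' (s1.trans (hsw.trans (e.trans s2.symm)))
  rw [hI, hz, ← p2, real_inner_comm a b, SS_symm (i + 1) ν b a] at p1
  linarith

end Pool.Agent.P.MP_181257_gt
end
end

-- part Pool.Agent.P.MP_181257_gt.HiC3
section

/-! The self-consistent equation. -/

set_option autoImplicit false
set_option linter.unusedSectionVars false
set_option linter.unusedVariables false

open MeasureTheory ProbabilityTheory Module Set Filter Topology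
open scoped RealInnerProductSpace ENNReal Pointwise Matrix

noncomputable section

namespace Pool.Agent.P.MP_181257_gt

variable {V : Type} [NormedAddCommGroup V] [InnerProductSpace ℝ V] [FiniteDimensional ℝ V]
  [MeasurableSpace V] [BorelSpace V]

theorem pt_HiC3 {α β R lam m : ℝ} (hR : 0 ≤ R) (hβ : |β| ≤ R) (hl : 0 < lam) (hm : 0 < m) :
    |α * (β / R) - α * β / lam| ≤ (m ^ 2 / (2 * lam ^ 3) + 1 / m ^ 3) * α ^ 4
      + m ^ 2 / (2 * lam ^ 3) * β ^ 4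
      + (1 / (m ^ 2 * lam ^ 3) + 16 / 9 * m / lam ^ 4) * (R ^ 2 - lam ^ 2) ^ 2 := by
  have e0 : α * (β / R) - α * β / lam = α * (β / R - β / lam) := by ring
  rw [e0, abs_mul]
  have ha4 : α ^ 4 = |α| ^ 4 := by rw [← abs_pow, abs_of_nonneg (by positivity)]
  have hb4 : β ^ 4 = |β| ^ 4 := by rw [← abs_pow, abs_of_nonneg (by positivity)]
  have hA := abs_nonneg α
  have hB := abs_nonneg β
  have p1 : 0 ≤ m ^ 2 / (2 * lam ^ 3) * α ^ 4 := by positivity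
  have p2 : 0 ≤ 1 / m ^ 3 * α ^ 4 := by positivity
  have p3 : 0 ≤ m ^ 2 / (2 * lam ^ 3) * β ^ 4 := by positivity
  have p4 : 0 ≤ 1 / (m ^ 2 * lam ^ 3) * (R ^ 2 - lam ^ 2) ^ 2 := by positivity
  have p5 : 0 ≤ 16 / 9 * m / lam ^ 4 * (R ^ 2 - lam ^ 2) ^ 2 := by positivity
  by_cases hc : R < lam / 2
  · have h1 : |β / R - β / lam| ≤ 1 := by
      rcases hR.eq_or_lt with h0 | h0
      · have : β = 0 := abs_nonpos_iff.1 (h0 ▸ hβ)
        simp [this]
      · have e : β / R - β / lam = β / R * (1 - R / lam) := by field_simp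
        have h2 : |β / R| ≤ 1 := by
          rw [abs_div, abs_of_pos h0]; exact (div_le_one h0).2 hβ
        have h3 : R / lam ≤ 1 := (div_le_one hl).2 (by linarith)
        have h4 : 0 ≤ R / lam := by positivity
        rw [e, abs_mul, abs_of_nonneg (by linarith : 0 ≤ 1 - R / lam)]
        exact mul_le_one₀ h2 (by linarith) (by linarith)
    have h2 : |α| ≤ 1 / m ^ 3 * α ^ 4 + m := by
      by_cases h : |α| ≤ m
      · linarith
      · have h3 : m ^ 3 ≤ |α| ^ 3 := pow_le_pow_left₀ hm.le (not_le.1 h).le 3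
        have h4 : |α| ≤ 1 / m ^ 3 * α ^ 4 := by
          rw [ha4, one_div, inv_mul_eq_div, le_div_iff₀ (by positivity)]
          nlinarith
        linarith
    have h3 : m ≤ 16 / 9 * m / lam ^ 4 * (R ^ 2 - lam ^ 2) ^ 2 := by
      have h4 : R ^ 2 ≤ lam ^ 2 / 4 := by nlinarith
      have h5 : (3 / 4 * lam ^ 2) ^ 2 ≤ (lam ^ 2 - R ^ 2) ^ 2 :=
        pow_le_pow_left₀ (by positivity) (by linarith) 2
      calc m = 16 / 9 * m / lam ^ 4 * (3 / 4 * lam ^ 2) ^ 2 := by field_simp; ring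
        _ ≤ 16 / 9 * m / lam ^ 4 * (lam ^ 2 - R ^ 2) ^ 2 :=
          mul_le_mul_of_nonneg_left h5 (by positivity)
        _ = _ := by ring
    have h4 : |α| * |β / R - β / lam| ≤ |α| := mul_le_of_le_one_right hA h1
    nlinarith
  · have hc' : lam / 2 ≤ R := not_lt.1 hc
    have h0 : 0 < R := by linarith
    have e : β / R - β / lam = β * (lam ^ 2 - R ^ 2) / (R * lam * (R + lam)) := by
      field_simp; ring
    have hY := abs_nonneg (lam ^ 2 - R ^ 2)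
    have h1 : |β / R - β / lam| ≤ |β| * |lam ^ 2 - R ^ 2| / (lam ^ 3 / 2) := by
      rw [e, abs_div, abs_mul, abs_of_pos (by positivity : 0 < R * lam * (R + lam))]
      refine div_le_div_of_nonneg_left (by positivity) (by positivity) ?_
      have : lam / 2 * lam * lam ≤ R * lam * (R + lam) := by gcongr; linarith
      nlinarith
    have hY2 : (R ^ 2 - lam ^ 2) ^ 2 = |lam ^ 2 - R ^ 2| ^ 2 := by rw [sq_abs]; ring
    generalize |lam ^ 2 - R ^ 2| = Y at *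
    have h2 : 2 * (|α| * |β| * Y) ≤ m ^ 2 * ((|α| ^ 4 + |β| ^ 4) / 2) + Y ^ 2 / m ^ 2 := by
      have h3 : 2 * (|α| * |β| * Y) ≤ m ^ 2 * (|α| * |β|) ^ 2 + Y ^ 2 / m ^ 2 := by
        have h4 := sq_nonneg (m * (|α| * |β|) - Y / m)
        have e1 : (m * (|α| * |β|) - Y / m) ^ 2
            = m ^ 2 * (|α| * |β|) ^ 2 + Y ^ 2 / m ^ 2 - 2 * (|α| * |β| * Y) := by
          field_simp; ring
        linarith
      have h4 : (|α| * |β|) ^ 2 ≤ (|α| ^ 4 + |β| ^ 4) / 2 := by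
        nlinarith [sq_nonneg (|α| ^ 2 - |β| ^ 2)]
      have h5 := mul_le_mul_of_nonneg_left h4 (sq_nonneg m)
      linarith
    have h3 : |α| * |β / R - β / lam| ≤ 2 * (|α| * |β| * Y) / lam ^ 3 := by
      calc _ ≤ |α| * (|β| * Y / (lam ^ 3 / 2)) := mul_le_mul_of_nonneg_left h1 hA
        _ = _ := by field_simp
    have h4 := div_le_div_of_nonneg_right h2 (by positivity : (0 : ℝ) ≤ lam ^ 3)
    have e2 : (m ^ 2 * ((|α| ^ 4 + |β| ^ 4) / 2) + Y ^ 2 / m ^ 2) / lam ^ 3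
        = m ^ 2 / (2 * lam ^ 3) * α ^ 4 + m ^ 2 / (2 * lam ^ 3) * β ^ 4
          + 1 / (m ^ 2 * lam ^ 3) * (R ^ 2 - lam ^ 2) ^ 2 := by
      rw [ha4, hb4, hY2]; field_simp
    nlinarith

theorem num_HiC3 {c m lam Z N I : ℝ} (hc : 0 < c) (hc1 : c ≤ 1) (hm : 1 ≤ m) (hZ : c * m ^ 2 ≤ Z)
    (hl : Z ≤ lam) (hN0 : 0 ≤ N) (hN : N ≤ m ^ 4) (hI0 : 0 ≤ I)
    (hI : I ≤ (m ^ 2 / (2 * lam ^ 3) + 1 / m ^ 3) * 3 + m ^ 2 / (2 * lam ^ 3) * 3
      + (1 / (m ^ 2 * lam ^ 3) + 16 / 9 * m / lam ^ 4) * (14 * m ^ 4)) :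
    N / Z * I ≤ 100 / (c ^ 5 * m) := by
  have hm0 : 0 < m := by linarith
  have hcm : 0 < c * m ^ 2 := by positivity
  have hl' : c * m ^ 2 ≤ lam := hZ.trans hl
  have hl0 : 0 < lam := by linarith
  have h1 : N / Z ≤ m ^ 4 / (c * m ^ 2) := by gcongr
  have h2 : I ≤ (m ^ 2 / (2 * (c * m ^ 2) ^ 3) + 1 / m ^ 3) * 3 + m ^ 2 / (2 * (c * m ^ 2) ^ 3) * 3
      + (1 / (m ^ 2 * (c * m ^ 2) ^ 3) + 16 / 9 * m / (c * m ^ 2) ^ 4) * (14 * m ^ 4) := by
    refine hI.trans ?_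
    gcongr
  have h3 := mul_le_mul h1 h2 hI0 (by positivity)
  refine h3.trans ?_
  have e : m ^ 4 / (c * m ^ 2) * ((m ^ 2 / (2 * (c * m ^ 2) ^ 3) + 1 / m ^ 3) * 3
      + m ^ 2 / (2 * (c * m ^ 2) ^ 3) * 3
      + (1 / (m ^ 2 * (c * m ^ 2) ^ 3) + 16 / 9 * m / (c * m ^ 2) ^ 4) * (14 * m ^ 4))
      = (17 * (c / m) + 3 * c ^ 4 + 224 / 9) / (c ^ 5 * m) := by
    field_simp; ring
  rw [e]
  have h4 : c / m ≤ 1 := (div_le_one hm0).2 (hc1.trans hm)
  have h5 : c ^ 4 ≤ 1 := pow_le_one₀ hc.le hc1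
  exact div_le_div_of_nonneg_right (by linarith) (by positivity)

theorem selfcons {i : ℕ} {μ ν : Measure V} (h : FP i μ ν) (hi : 1 ≤ i)
    (hin : i + 1 ≤ finrank ℝ V) {c m : ℝ} (hc : 0 < c) (hc1 : c ≤ 1) (hm : 1 ≤ m)
    (hmn : m ^ 4 = finrank ℝ V) (hZ : c * m ^ 2 ≤ Zq i μ) :
    ∃ t : ℝ, 0 ≤ t ∧ t ≤ 1 / c ^ 2 ∧ ∀ a b : V, ‖a‖ ≤ 1 → ‖b‖ ≤ 1 →
      |⟪a, b⟫ - SS (i + 1) μ a b - t * ∫ x, Sg μ a (Pj i x b) ∂(Fr i μ)|
        ≤ 100 / (c ^ 5 * m) := by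
  have := h.ml.prob
  have := Fr_prob h.ml h.wl
  have hm0 : 0 < m := by linarith
  have hZ0 : 0 < Zq i μ := Zq_pos h.ml h.posl
  obtain ⟨I2, I4, hY⟩ := conc_pair h hi (by omega)
  set Q : Measure ((Fin i → V) × V) := (Fr i μ).prod μ with hQ
  set L : ℝ := ∫ s : (Fin i → V) × V, ‖Pj i s.1 s.2‖ ^ 2 ∂Q with hL
  have I1 := integrable_norm_Pj_prod h.ml h.wl
  have hZe := Zq_eq h.ml h.wl
  rw [← hQ] at I1 hZe
  have hZL : Zq i μ ^ 2 ≤ L := by
    have h1 : 0 ≤ ∫ s : (Fin i → V) × V,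
        (‖Pj i s.1 s.2‖ ^ 2 - 2 * Zq i μ * ‖Pj i s.1 s.2‖ + Zq i μ ^ 2) ∂Q :=
      integral_nonneg fun s => by
        have := sq_nonneg (‖Pj i s.1 s.2‖ - Zq i μ)
        simp only [Pi.zero_apply]
        nlinarith
    have I3 : Integrable (fun s : (Fin i → V) × V =>
        ‖Pj i s.1 s.2‖ ^ 2 - 2 * Zq i μ * ‖Pj i s.1 s.2‖) Q := I2.sub (I1.const_mul _)
    rw [integral_add I3 (integrable_const _),
      integral_sub I2 (I1.const_mul _), integral_const_mul, ← hZe] at h1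
    simp only [integral_const, probReal_univ, one_smul] at h1
    nlinarith
  set lam : ℝ := √L with hlam
  have hl : Zq i μ ≤ lam := Real.le_sqrt_of_sq_le hZL
  have hl0 : 0 < lam := by linarith
  have hl2 : lam ^ 2 = L := Real.sq_sqrt ((sq_nonneg _).trans hZL)
  have hN : (i + 1 : ℝ) ≤ m ^ 4 := by rw [hmn]; exact_mod_cast hin
  have hnp : ∀ p : ℕ, Integrable (fun s : (Fin i → V) × V => ‖s.2‖ ^ p) Q := fun p => by
    have h1 := integrable_norm_pow_Tn h.mr h.wr p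
    rw [← h.el] at h1
    exact h1.comp_snd _
  have h4 : ∀ u : V, ‖u‖ ≤ 1 → ∫ w, ⟪u, w⟫ ^ 4 ∂μ ≤ 3 := fun u hu => by
    have h1 := integral_inner_pow_Tn h.mr h.wr u 2
    rw [← h.el, Km_two] at h1
    have h2 : ‖u‖ ^ (2 * 2) ≤ 1 := pow_le_one₀ (norm_nonneg _) hu
    have h3 : ∫ w, ⟪u, w⟫ ^ 4 ∂μ = ∫ w, ⟪u, w⟫ ^ (2 * 2) ∂μ := rfl
    linarith
  refine ⟨(i + 1 : ℝ) / (Zq i μ * lam), by positivity, ?_, fun a b ha hb => ?_⟩
  · have h1 : (c * m ^ 2) * (c * m ^ 2) ≤ Zq i μ * lam :=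
      mul_le_mul hZ (hZ.trans hl) (by positivity) hZ0.le
    calc (i + 1 : ℝ) / (Zq i μ * lam) ≤ m ^ 4 / ((c * m ^ 2) * (c * m ^ 2)) := by gcongr
      _ = 1 / c ^ 2 := by field_simp
  have mP : Measurable fun s : (Fin i → V) × V => Pj i s.1 s.2 :=
    measurable_Pj i measurable_fst measurable_snd
  have mα : Measurable fun s : (Fin i → V) × V => ⟪a, s.2⟫ := measurable_const.inner measurable_snd
  have mβ : Measurable fun s : (Fin i → V) × V => ⟪Pj i s.1 s.2, b⟫ := mP.inner measurable_const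
  have bα : ∀ s : (Fin i → V) × V, |⟪a, s.2⟫| ≤ ‖s.2‖ := fun s =>
    (abs_real_inner_le_norm _ _).trans (mul_le_of_le_one_left (norm_nonneg _) ha)
  have bβ : ∀ s : (Fin i → V) × V, |⟪Pj i s.1 s.2, b⟫| ≤ ‖Pj i s.1 s.2‖ := fun s =>
    (abs_real_inner_le_norm _ _).trans (mul_le_of_le_one_right (norm_nonneg _) hb)
  have bβ' : ∀ s : (Fin i → V) × V, |⟪Pj i s.1 s.2, b⟫| ≤ ‖s.2‖ := fun s =>
    (bβ s).trans (norm_Pj_le _ _)
  have J1 : Integrable (fun s : (Fin i → V) × V =>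
      ⟪a, s.2⟫ * (⟪Pj i s.1 s.2, b⟫ / ‖Pj i s.1 s.2‖)) Q := by
    refine (hnp 1).mono' (mα.mul (mβ.div mP.norm)).aestronglyMeasurable (ae_of_all _ fun s => ?_)
    rw [Real.norm_eq_abs, abs_mul, pow_one, abs_div, abs_norm]
    exact (mul_le_of_le_one_right (abs_nonneg _) (div_le_one_of_le₀ (bβ s) (norm_nonneg _))).trans
      (bα s)
  have J2 : Integrable (fun s : (Fin i → V) × V => ⟪a, s.2⟫ * ⟪Pj i s.1 s.2, b⟫) Q := by
    refine (hnp 2).mono' (mα.mul mβ).aestronglyMeasurable (ae_of_all _ fun s => ?_)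
    rw [Real.norm_eq_abs, abs_mul, sq]
    exact mul_le_mul (bα s) (bβ' s) (abs_nonneg _) (norm_nonneg _)
  have J3 : Integrable (fun s : (Fin i → V) × V => ⟪a, s.2⟫ ^ 4) Q := by
    refine (hnp 4).mono' (mα.pow_const 4).aestronglyMeasurable (ae_of_all _ fun s => ?_)
    rw [Real.norm_eq_abs, abs_pow]
    exact pow_le_pow_left₀ (abs_nonneg _) (bα s) 4
  have J4 : Integrable (fun s : (Fin i → V) × V => ⟪Pj i s.1 s.2, b⟫ ^ 4) Q := by
    refine (hnp 4).mono' (mβ.pow_const 4).aestronglyMeasurable (ae_of_all _ fun s => ?_)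
    rw [Real.norm_eq_abs, abs_pow]
    exact pow_le_pow_left₀ (abs_nonneg _) (bβ' s) 4
  have J5 : Integrable (fun s : (Fin i → V) × V => (‖Pj i s.1 s.2‖ ^ 2 - L) ^ 2) Q := by
    have h1 := (I4.sub (I2.const_mul (2 * L))).add (integrable_const (L ^ 2))
    refine h1.congr (ae_of_all _ fun s => ?_)
    simp only [Pi.add_apply, Pi.sub_apply]
    ring
  have sw : ∀ (x : Fin i → V) (w : V), ⟪Pj i x w, b⟫ = ⟪Pj i x b, w⟫ := fun x w => by
    rw [inner_Pj_comm, real_inner_comm]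
  have E3 : ∫ s : (Fin i → V) × V, ⟪a, s.2⟫ ^ 4 ∂Q ≤ 3 := by
    rw [hQ, integral_prod _ J3]
    simpa using h4 a ha
  have E4 : ∫ s : (Fin i → V) × V, ⟪Pj i s.1 s.2, b⟫ ^ 4 ∂Q ≤ 3 := by
    rw [hQ, integral_prod _ J4]
    have h1 : ∫ x, ∫ w, ⟪Pj i x w, b⟫ ^ 4 ∂μ ∂(Fr i μ) ≤ ∫ x, (3 : ℝ) ∂(Fr i μ) := by
      refine integral_mono_of_nonneg (ae_of_all _ fun x => integral_nonneg fun w => ?_)
        (integrable_const _) (ae_of_all _ fun x => ?_)
      · simp only [Pi.zero_apply]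
        positivity
      · simp only [sw]
        exact h4 _ ((norm_Pj_le _ _).trans hb)
    simpa using h1
  have E2 : ∫ x, Sg μ a (Pj i x b) ∂(Fr i μ)
      = ∫ s : (Fin i → V) × V, ⟪a, s.2⟫ * ⟪Pj i s.1 s.2, b⟫ ∂Q := by
    rw [hQ, integral_prod _ J2]
    simp only [Sg, sw]
  rw [poho h.ml h.posl, E2, ← hQ]
  have e1 : (i + 1 : ℝ) / Zq i μ * ∫ s : (Fin i → V) × V,
        ⟪a, s.2⟫ * (⟪Pj i s.1 s.2, b⟫ / ‖Pj i s.1 s.2‖) ∂Q
      - (i + 1 : ℝ) / (Zq i μ * lam) * ∫ s : (Fin i → V) × V, ⟪a, s.2⟫ * ⟪Pj i s.1 s.2, b⟫ ∂Q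
      = (i + 1 : ℝ) / Zq i μ * ∫ s : (Fin i → V) × V,
        (⟪a, s.2⟫ * (⟪Pj i s.1 s.2, b⟫ / ‖Pj i s.1 s.2‖)
          - ⟪a, s.2⟫ * ⟪Pj i s.1 s.2, b⟫ / lam) ∂Q := by
    rw [integral_sub J1 (J2.div_const _), integral_div]
    field_simp
  rw [e1, abs_mul, abs_of_nonneg (by positivity : 0 ≤ (i + 1 : ℝ) / Zq i μ)]
  refine num_HiC3 hc hc1 hm hZ hl (by positivity) hN (abs_nonneg _) ?_
  refine (abs_integral_le_integral_abs).trans ?_
  have K := ((J3.const_mul (m ^ 2 / (2 * lam ^ 3) + 1 / m ^ 3)).add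
    (J4.const_mul (m ^ 2 / (2 * lam ^ 3)))).add
    (J5.const_mul (1 / (m ^ 2 * lam ^ 3) + 16 / 9 * m / lam ^ 4))
  refine (integral_mono_of_nonneg (ae_of_all _ fun s => abs_nonneg _) K
    (ae_of_all _ fun s => ?_)).trans ?_
  · have := pt_HiC3 (α := ⟪a, s.2⟫) (norm_nonneg _) (bβ s) hl0 hm0
    rw [hl2] at this
    exact this
  · rw [integral_add' ((J3.const_mul _).add (J4.const_mul _)) (J5.const_mul _),
      integral_add' (J3.const_mul _) (J4.const_mul _), integral_const_mul, integral_const_mul,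
      integral_const_mul]
    rw [← hmn] at hY
    gcongr

end Pool.Agent.P.MP_181257_gt
end
end

-- part Pool.Agent.P.MP_181257_gt.HiA5
section

/-! The reverse Khovanskii-Teissier inequality. -/

set_option autoImplicit false
set_option linter.unusedSectionVars false
set_option linter.unusedVariables false

open MeasureTheory ProbabilityTheory Module Set Filter Topology
open scoped RealInnerProductSpace ENNReal Pointwise Matrix

noncomputable section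

namespace Pool.Agent.P.MP_181257_gt

variable {V : Type} [NormedAddCommGroup V] [InnerProductSpace ℝ V] [FiniteDimensional ℝ V]
  [MeasurableSpace V] [BorelSpace V]

theorem BF_eq_HiA5 {ρ : Measure V} [IsFiniteMeasure ρ] {s t : V → ℝ} (hs : Measurable s)
    (ht : Measurable t) (h : ∀ x, 0 ≤ s x ∧ s x ≤ 3) (h' : ∀ x, 0 ≤ t x ∧ t x ≤ 3)
    (w : V × V → ℝ) :
    ∫ p, w p ∂((ρ.withDensity fun x => ENNReal.ofReal (s x)).prod
      (ρ.withDensity fun x => ENNReal.ofReal (t x))) = BF ρ w s t := by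
  rw [BF, prod_withDensity (by fun_prop) (by fun_prop),
    integral_withDensity_eq_integral_toReal_smul (by fun_prop)
    (ae_of_all _ fun _ => ENNReal.mul_lt_top ENNReal.ofReal_lt_top ENNReal.ofReal_lt_top)]
  refine integral_congr_ae (ae_of_all _ fun y => ?_)
  simp only [smul_eq_mul]
  rw [ENNReal.toReal_mul, ENNReal.toReal_ofReal (h _).1, ENNReal.toReal_ofReal (h' _).1]
  ring

theorem BF_lin_HiA5 {ρ : Measure V} [IsProbabilityMeasure ρ] {w : V × V → ℝ}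
    (hi : Integrable w (ρ.prod ρ)) {f g h : V → ℝ} (hf : Bd f) (hg : Bd g) (hh : Bd h) (s : ℝ) :
    BF ρ w (fun x => s * f x + g x) h = s * BF ρ w f h + BF ρ w g h := by
  unfold BF
  rw [← integral_const_mul, ← integral_add
    ((AFK.int_mul hi (AFK.bd_mul (AFK.bd_fst hf) (AFK.bd_snd hh))).const_mul _)
    (AFK.int_mul hi (AFK.bd_mul (AFK.bd_fst hg) (AFK.bd_snd hh)))]
  refine integral_congr_ae (ae_of_all _ fun p => ?_)
  simp only
  ring

theorem rKT {μ e a b : Measure V} (hμ : Mom μ) (he : Mom e) (ha : Mom a) (hb : Mom b) (r : ℕ)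
    (U : Submodule ℝ V) (hpos : 0 < ∫ p, omU μ r U p ∂(e.prod e)) :
    (∫ p, omU μ r U p ∂(e.prod e)) * ∫ p, omU μ r U p ∂(a.prod b)
      ≤ 2 * ((∫ p, omU μ r U p ∂(e.prod a)) * ∫ p, omU μ r U p ∂(e.prod b)) := by
  have := he.prob
  have := ha.prob
  have := hb.prob
  obtain ⟨ρ, hρ⟩ : ∃ ρ : Measure V, ρ = (3 : ℝ≥0∞)⁻¹ • (e + a + b) := ⟨_, rfl⟩
  have h3 : (3 : ℝ≥0∞) • ρ = e + a + b := by
    rw [hρ, smul_smul, ENNReal.mul_inv_cancel (by simp) (by simp), one_smul]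
  have hm : Mom ρ := by
    refine ⟨⟨?_⟩, ?_⟩
    · rw [hρ]
      simp only [Measure.smul_apply, Measure.add_apply, measure_univ, smul_eq_mul]
      rw [show (1 : ℝ≥0∞) + 1 + 1 = 3 by norm_num, ENNReal.inv_mul_cancel (by simp) (by simp)]
    · rw [hρ]
      exact ((he.int.add_measure ha.int).add_measure hb.int).smul_measure (by simp)
  have := hm.prob
  obtain ⟨f, f1, f2, rfl⟩ := dens_HiA2 (ν := e) (ρ := ρ)
    (by rw [h3, add_assoc]; exact Measure.le_add_right le_rfl)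
  obtain ⟨g, g1, g2, rfl⟩ := dens_HiA2 (ν := a) (ρ := ρ)
    (by rw [h3]; exact Measure.le_add_right (Measure.le_add_left le_rfl))
  obtain ⟨h, h1, h2, rfl⟩ := dens_HiA2 (ν := b) (ρ := ρ)
    (by rw [h3]; exact Measure.le_add_left le_rfl)
  rw [BF_eq_HiA5 f1 f1 f2 f2] at hpos
  rw [BF_eq_HiA5 f1 f1 f2 f2, BF_eq_HiA5 g1 h1 g2 h2, BF_eq_HiA5 f1 g1 f2 g2,
    BF_eq_HiA5 f1 h1 f2 h2]
  have hf : Bd f := ⟨f1, 3, fun x => by rw [abs_of_nonneg (f2 x).1]; exact (f2 x).2⟩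
  have hg : Bd g := ⟨g1, 3, fun x => by rw [abs_of_nonneg (g2 x).1]; exact (g2 x).2⟩
  have hh : Bd h := ⟨h1, 3, fun x => by rw [abs_of_nonneg (h2 x).1]; exact (h2 x).2⟩
  have hi : Integrable (omU μ r U) (ρ.prod ρ) :=
    Integrable.mono' ((hm.int.mul_prod hm.int).mul_const ((∫ x, ‖x‖ ∂μ) ^ r))
      (measurable_omU hμ r U).aestronglyMeasurable (ae_of_all _ fun p => by
        rw [Real.norm_eq_abs, abs_of_nonneg (omU_bound hμ r U p).1]
        exact (omU_bound hμ r U p).2)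
  have hs : ∀ u v, BF ρ (omU μ r U) u v = BF ρ (omU μ r U) v u :=
    AFK.BF_comm (omU_symm μ r U)
  have nn : ∀ u v : V → ℝ, (∀ x, 0 ≤ u x ∧ u x ≤ 3) → (∀ x, 0 ≤ v x ∧ v x ≤ 3) →
      0 ≤ BF ρ (omU μ r U) u v := fun u v hu hv => integral_nonneg fun p =>
    mul_nonneg (omU_bound hμ r U p).1 (mul_nonneg (hu _).1 (hv _).1)
  have k1 := hypM hμ hm r U hg hf fun x => (f2 x).1
  have k2 := hypM hμ hm r U hh hf fun x => (f2 x).1
  have k3 : ∀ s : ℝ, _ := fun s => by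
    have hx : Bd fun x => s * g x + h x := AFK.bd_add (AFK.bd_mul (AFK.bd_const s) hg) hh
    have := hypM hμ hm r U hx hf fun x => (f2 x).1
    rw [BF_lin_HiA5 hi hg hh hx, BF_lin_HiA5 hi hg hh hf, hs g fun x => s * g x + h x,
      hs h fun x => s * g x + h x, BF_lin_HiA5 hi hg hh hg, BF_lin_HiA5 hi hg hh hh, hs h g,
      hs g f, hs h f] at this
    exact this
  rw [hs g f] at k1
  rw [hs h f] at k2
  have n1 := nn g g g2 g2
  have n2 := nn h h h2 h2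
  have n3 := nn f g f2 g2
  have n4 := nn f h f2 h2
  generalize BF ρ (omU μ r U) f f = E at *
  generalize BF ρ (omU μ r U) f g = x at *
  generalize BF ρ (omU μ r U) f h = y at *
  generalize BF ρ (omU μ r U) g h = z at *
  generalize BF ρ (omU μ r U) g g = A at *
  generalize BF ρ (omU μ r U) h h = B at *
  have d := discrim_le_zero (a := x ^ 2 - A * E) (b := 2 * (x * y - z * E)) (c := y ^ 2 - B * E)
    fun s => by have := k3 s; nlinarith
  rw [discrim] at d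
  have d1 : (x ^ 2 - A * E) * (y ^ 2 - B * E) ≤ x ^ 2 * y ^ 2 :=
    mul_le_mul (by nlinarith) (by nlinarith) (by linarith) (by positivity)
  have d2 : (z * E - x * y) ^ 2 ≤ (x * y) ^ 2 := by nlinarith
  have d3 := (abs_le_of_sq_le_sq' d2 (mul_nonneg n3 n4)).2
  linarith

end Pool.Agent.P.MP_181257_gt
end
end

-- part Pool.Agent.P.MP_181257_gt.HiA6
section

/-! Comparison of consecutive frame laws. -/

set_option autoImplicit false
set_option linter.unusedSectionVars false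
set_option linter.unusedVariables false

open MeasureTheory ProbabilityTheory Module Set Filter Topology
open scoped RealInnerProductSpace ENNReal Pointwise Matrix

noncomputable section

namespace Pool.Agent.P.MP_181257_gt

variable {V : Type} [NormedAddCommGroup V] [InnerProductSpace ℝ V] [FiniteDimensional ℝ V]
  [MeasurableSpace V] [BorelSpace V]

theorem gauss_cons_HiA6 {k d : ℕ} (hd : finrank ℝ V = d + k) (x : Fin k → V) :
    ∫ g, D (Fin.cons g x : Fin (k + 1) → V) ∂(stdGaussian V) = (aN d).toReal * D x := by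
  simp_rw [D_cons_eq]
  rw [integral_const_mul]
  by_cases hx : D x = 0
  · simp [hx]
  · have h1 := finrank_nrm_eq hx
    have h2 : finrank ℝ (nrm x) = d := by omega
    rw [Pj_eq, integral_norm_pU, h2, mul_comm]

theorem D_cons_le_HiA6 {k : ℕ} (a : V) (x : Fin k → V) :
    D (Fin.cons a x : Fin (k + 1) → V) ≤ ‖a‖ * ∏ j, ‖x j‖ := by
  have := D_le_prod (Fin.cons a x : Fin (k + 1) → V)
  rwa [Fin.prod_univ_succ] at this

theorem D_cons2_le_HiA6 {k : ℕ} (a b : V) (x : Fin k → V) :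
    D (Fin.cons a (Fin.cons b x : Fin (k + 1) → V) : Fin (k + 2) → V)
      ≤ ‖a‖ * ‖b‖ * ∏ j, ‖x j‖ := by
  have := D_cons_le_HiA6 a (Fin.cons b x : Fin (k + 1) → V)
  rw [Fin.prod_univ_succ] at this
  simpa [mul_assoc] using this

theorem omU_top_HiA6 (μ : Measure V) (k : ℕ) (p : V × V) :
    omU μ k ⊤ p = ∫ y, D (Fin.cons p.1 (Fin.cons p.2 y : Fin (k + 1) → V) : Fin (k + 2) → V)
      ∂(mk μ k) := by
  unfold omU
  simp only [pU, Submodule.starProjection_top, ContinuousLinearMap.id_apply]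

theorem mom_gauss_HiA6 : Mom (stdGaussian V) :=
  ⟨inferInstance, by simpa using integrable_norm_pow (V := V) 1⟩

theorem mom_dirac_HiA6 (u : V) : Mom (Measure.dirac u) :=
  ⟨inferInstance, integrable_dirac (by simp)⟩

theorem B_gauss_HiA6 {μ κ : Measure V} (hμ : Mom μ) (hκ : Mom κ) {k d : ℕ}
    (hd : finrank ℝ V = d + (k + 1)) :
    ∫ p, omU μ k ⊤ p ∂((stdGaussian V).prod κ)
      = (aN d).toReal * ∫ y, ∫ z, D (Fin.cons z y : Fin (k + 1) → V) ∂κ ∂(mk μ k) := by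
  have := hμ.prob
  have := hκ.prob
  have hγ : Integrable (fun x : V => ‖x‖) (stdGaussian V) := (mom_gauss_HiA6 (V := V)).int
  have hp : Integrable (fun p : V × V => ‖p.1‖ * ‖p.2‖) ((stdGaussian V).prod κ) :=
    hγ.mul_prod hκ.int
  have hI : Integrable (Function.uncurry fun (p : V × V) (y : Fin k → V) =>
      D (Fin.cons p.1 (Fin.cons p.2 y : Fin (k + 1) → V) : Fin (k + 2) → V))
      (((stdGaussian V).prod κ).prod (mk μ k)) := by
    refine (hp.mul_prod (integrable_prod_norm_mk hμ k)).mono' ?_ (Eventually.of_forall fun q => ?_)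
    · refine Measurable.aestronglyMeasurable ?_
      exact measurable_D (bp_measurable_cons (measurable_fst.comp measurable_fst)
        (bp_measurable_cons (measurable_snd.comp measurable_fst) measurable_snd))
    · rw [Real.norm_eq_abs, Function.uncurry, abs_of_nonneg (D_nonneg _)]
      exact D_cons2_le_HiA6 _ _ _
  simp_rw [omU_top_HiA6]
  rw [integral_integral_swap hI, ← integral_const_mul]
  refine integral_congr_ae (Eventually.of_forall fun y => ?_)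
  have hy : Integrable (fun p : V × V =>
      D (Fin.cons p.1 (Fin.cons p.2 y : Fin (k + 1) → V) : Fin (k + 2) → V))
      ((stdGaussian V).prod κ) := by
    refine (hp.mul_const (∏ j, ‖y j‖)).mono' ?_ (Eventually.of_forall fun q => ?_)
    · refine Measurable.aestronglyMeasurable ?_
      exact measurable_D (bp_measurable_cons measurable_fst
        (bp_measurable_cons measurable_snd measurable_const))
    · rw [Real.norm_eq_abs, abs_of_nonneg (D_nonneg _)]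
      exact D_cons2_le_HiA6 _ _ _
  simp only
  rw [integral_prod_symm _ hy, ← integral_const_mul]
  refine integral_congr_ae (Eventually.of_forall fun z => ?_)
  exact gauss_cons_HiA6 hd (Fin.cons z y : Fin (k + 1) → V)

theorem D_th_HiA6 {μ : Measure V} {k : ℕ} (h : 0 < Wr k μ) (u : V) :
    ∫ y, D (Fin.cons u y : Fin (k + 1) → V) ∂(mk μ k) = Wr k μ * th k μ u := by
  unfold th
  rw [integral_Fr h, ← mul_assoc, mul_inv_cancel₀ h.ne', one_mul]
  simp_rw [D_cons_eq]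

theorem th_nonneg_HiA6 (μ : Measure V) (k : ℕ) (u : V) : 0 ≤ th k μ u :=
  integral_nonneg fun _ => norm_nonneg _

theorem th_succ_le {μ : Measure V} (hμ : Mom μ) {i : ℕ} (hi : i + 2 ≤ finrank ℝ V)
    (h : 0 < Wr (i + 1) μ) (u : V) : th (i + 1) μ u ≤ 2 * th i μ u := by
  have := hμ.prob
  obtain ⟨d, hd⟩ := Nat.exists_eq_add_of_le hi
  have hW : 0 < Wr i μ := Wr_pos_of_succ hμ h
  have hd1 : finrank ℝ V = (d + 1) + (i + 1) := by omega
  have hd2 : finrank ℝ V = (d + 2) + i := by omega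
  have ha1 : 0 < (aN (d + 1)).toReal := ENNReal.toReal_pos (aN_ne_zero d) (aN_ne_top _)
  have ha2 : (aN (d + 1)).toReal ≤ (aN (d + 2)).toReal := aN_mono (d + 1)
  have hee : ∫ p, omU μ i ⊤ p ∂((stdGaussian V).prod (stdGaussian V))
      = (aN (d + 1)).toReal * ((aN (d + 2)).toReal * Wr i μ) := by
    rw [B_gauss_HiA6 hμ mom_gauss_HiA6 hd1]
    simp_rw [gauss_cons_HiA6 hd2]
    rw [integral_const_mul]
    rfl
  have hea : ∫ p, omU μ i ⊤ p ∂((stdGaussian V).prod μ)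
      = (aN (d + 1)).toReal * Wr (i + 1) μ := by
    rw [B_gauss_HiA6 hμ hμ hd1]
    congr 1
    have hI := (mp_cons (k := i) μ).integrable_comp_of_integrable (integrable_D_mk' hμ (i + 1))
    unfold Wr
    rw [← moment_integral_mp (mp_cons (k := i) μ)
      (F := fun x : Fin (i + 1) → V => D x) (measurable_D measurable_id)]
    exact (integral_prod_symm _ hI).symm
  have heb : ∫ p, omU μ i ⊤ p ∂((stdGaussian V).prod (Measure.dirac u))
      = (aN (d + 1)).toReal * (Wr i μ * th i μ u) := by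
    rw [B_gauss_HiA6 hμ (mom_dirac_HiA6 u) hd1, ← D_th_HiA6 hW]
    simp_rw [integral_dirac]
  have hab : ∫ p, omU μ i ⊤ p ∂(μ.prod (Measure.dirac u))
      = Wr (i + 1) μ * th (i + 1) μ u := by
    have hm : Measurable fun y : Fin (i + 1) → V => D (Fin.cons u y : Fin (i + 2) → V) :=
      measurable_D (bp_measurable_cons measurable_const measurable_id)
    have hI0 : Integrable (fun y : Fin (i + 1) → V => D (Fin.cons u y : Fin (i + 2) → V))
        (mk μ (i + 1)) := by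
      refine ((integrable_prod_norm_mk hμ (i + 1)).const_mul ‖u‖).mono' hm.aestronglyMeasurable
        (Eventually.of_forall fun y => ?_)
      rw [Real.norm_eq_abs, abs_of_nonneg (D_nonneg _)]
      exact D_cons_le_HiA6 _ _
    have hI := (mp_cons (k := i) μ).integrable_comp_of_integrable hI0
    rw [Measure.prod_dirac, integral_map (by fun_prop)
      (measurable_omU hμ i ⊤).aestronglyMeasurable, ← D_th_HiA6 h,
      ← moment_integral_mp (mp_cons (k := i) μ) hm]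
    refine Eq.trans ?_ (integral_prod _ hI).symm
    refine integral_congr_ae (Eventually.of_forall fun x => ?_)
    simp only [omU_top_HiA6, Function.comp]
    refine integral_congr_ae (Eventually.of_forall fun y => ?_)
    exact D_swap _ _ _
  have hpos : 0 < ∫ p, omU μ i ⊤ p ∂((stdGaussian V).prod (stdGaussian V)) := by
    rw [hee]
    exact mul_pos ha1 (mul_pos (ha1.trans_le ha2) hW)
  have key := rKT hμ mom_gauss_HiA6 hμ (mom_dirac_HiA6 u) i ⊤ hpos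
  rw [hee, hea, heb, hab] at key
  have t0 := th_nonneg_HiA6 μ i u
  have t1 := th_nonneg_HiA6 μ (i + 1) u
  set a1 := (aN (d + 1)).toReal
  set a2 := (aN (d + 2)).toReal
  have hc : 0 < a1 * a1 * Wr i μ * Wr (i + 1) μ := by positivity
  have h3 : a1 * a1 * Wr i μ * Wr (i + 1) μ * th (i + 1) μ u
      ≤ a1 * a1 * Wr i μ * Wr (i + 1) μ * (2 * th i μ u) := by
    have h4 : a1 * (a1 * Wr i μ) * (Wr (i + 1) μ * th (i + 1) μ u)
        ≤ a1 * (a2 * Wr i μ) * (Wr (i + 1) μ * th (i + 1) μ u) := by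
      gcongr
    nlinarith [h4, key]
  exact le_of_mul_le_mul_left h3 hc

end Pool.Agent.P.MP_181257_gt
end
end

-- part Pool.Agent.P.MP_181257_gt.HiB2
section

/-! Fixed pairs are not thin. -/

set_option autoImplicit false
set_option linter.unusedSectionVars false
set_option linter.unusedVariables false

open MeasureTheory ProbabilityTheory Module Set Filter Topology
open scoped RealInnerProductSpace ENNReal Pointwise Matrix

noncomputable section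

namespace Pool.Agent.P.MP_181257_gt

variable {V : Type} [NormedAddCommGroup V] [InnerProductSpace ℝ V] [FiniteDimensional ℝ V]
  [MeasurableSpace V] [BorelSpace V]

theorem int_norm_HiB2 {μ : Measure V} (hμ : Mom μ) {k : ℕ} (h : 0 < Wr k μ) (a : V) (p : ℕ) :
    Integrable (fun x : Fin k → V => ‖Pj k x a‖ ^ p) (Fr k μ) := by
  have := Fr_prob hμ h
  have hm : Measurable fun x : Fin k → V => Pj k x a :=
    measurable_Pj k measurable_id measurable_const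
  refine Integrable.of_bound (hm.norm.pow_const p).aestronglyMeasurable (‖a‖ ^ p)
    (ae_of_all _ fun x => ?_)
  rw [Real.norm_eq_abs, abs_of_nonneg (by positivity)]
  exact pow_le_pow_left₀ (norm_nonneg _) (norm_Pj_le x a) p

theorem SS_le_th_HiB2 {μ : Measure V} (hμ : Mom μ) {k : ℕ} (h : 0 < Wr k μ) (a : V) :
    SS k μ a a ≤ ‖a‖ * th k μ a := by
  rw [SS_self, th, ← integral_const_mul]
  have h1 : Integrable (fun x : Fin k → V => ‖Pj k x a‖) (Fr k μ) := by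
    simpa using int_norm_HiB2 hμ h a 1
  refine integral_mono (int_norm_HiB2 hμ h a 2) (h1.const_mul _) fun x => ?_
  have h2 := norm_Pj_le x a
  have h3 := norm_nonneg (Pj k x a)
  change ‖Pj k x a‖ ^ 2 ≤ ‖a‖ * ‖Pj k x a‖
  nlinarith

theorem th_sq_le_HiB2 {μ : Measure V} (hμ : Mom μ) {k : ℕ} (h : 0 < Wr k μ) (a : V) :
    th k μ a ^ 2 ≤ SS k μ a a := by
  have := Fr_prob hμ h
  have h1 : Integrable (fun x : Fin k → V => ‖Pj k x a‖) (Fr k μ) := by
    simpa using int_norm_HiB2 hμ h a 1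
  have h2 : ∫ x, (2 * th k μ a * ‖Pj k x a‖ - th k μ a ^ 2) ∂(Fr k μ)
      ≤ ∫ x, ‖Pj k x a‖ ^ 2 ∂(Fr k μ) := by
    refine integral_mono ((h1.const_mul _).sub (integrable_const _)) (int_norm_HiB2 hμ h a 2)
      fun x => ?_
    change 2 * th k μ a * ‖Pj k x a‖ - th k μ a ^ 2 ≤ ‖Pj k x a‖ ^ 2
    nlinarith [sq_nonneg (th k μ a - ‖Pj k x a‖)]
  rw [integral_sub (h1.const_mul _) (integrable_const _), integral_const_mul, integral_const,
    probReal_univ, one_smul, ← SS_self] at h2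
  change 2 * th k μ a * th k μ a - _ ≤ _ at h2
  linarith

theorem point_HiB2 {T X r t q : ℝ} (hT : 0 ≤ T) (hX : 0 ≤ X) (hr : 0 ≤ r) (hq : 0 < q)
    (h1 : X ≤ r * (2 * T)) (h2 : X ≤ r * r) :
    t * X - t ^ 2 / 4 * (q * r ^ 2 + r ^ 4 / q) ≤ T := by
  have h3 : 2 * r ^ 3 ≤ q * r ^ 2 + r ^ 4 / q := by
    have h4 : q * r ^ 2 + r ^ 4 / q - 2 * r ^ 3 = (r * (q - r)) ^ 2 / q := by
      field_simp
      ring
    have h5 : 0 ≤ (r * (q - r)) ^ 2 / q := by positivity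
    linarith
  have h6 : t * X - t ^ 2 / 2 * r ^ 3 ≤ T := by
    rcases hr.eq_or_lt with h0 | h0
    · subst h0
      have : X = 0 := by linarith
      subst this
      simpa using hT
    · refine le_of_mul_le_mul_left ?_ (by linarith : 0 < 2 * r)
      have h7 : 0 ≤ X * (1 - t * r) ^ 2 := by positivity
      have h8 : 0 ≤ (t * r) ^ 2 * (r * r - X) := mul_nonneg (sq_nonneg _) (by linarith)
      nlinarith
  have h9 := mul_le_mul_of_nonneg_left h3 (by positivity : 0 ≤ t ^ 2 / 4)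
  linarith

theorem nonthin {i : ℕ} {μ ν : Measure V} (h : FP i μ ν) (hi : i + 2 ≤ finrank ℝ V) :
    (((finrank ℝ V : ℝ) - i - 1) / finrank ℝ V) ^ 6 * √(finrank ℝ V : ℝ) / 100 ≤ Zq i μ := by
  have := h.ml.prob
  obtain ⟨b, sl, hb⟩ := exists_diag (SS (i + 1) μ) (SS_symm _ _) (SS_add h.ml h.posl)
    (SS_smul _ _)
  have hsum := sum_SS h.ml h.posl b
  have hbb : ∀ l, SS (i + 1) μ (b l) (b l) = sl l := fun l => by
    rw [hb, real_inner_self_eq_norm_sq, b.orthonormal.1 l, one_pow, mul_one]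
  simp only [hbb] at hsum
  have hcard : ((Finset.univ : Finset (Fin (finrank ℝ V))).card : ℝ) = (finrank ℝ V : ℝ) := by
    simp
  have hE2 : ∫ w, ‖w‖ ^ 2 ∂μ ≤ (finrank ℝ V : ℝ) := by
    have := integral_norm_pow_Tn h.mr h.wr (j := 1) le_rfl
    rw [← h.el, Km_one] at this
    simpa using this
  have hE4 : ∫ w, ‖w‖ ^ 4 ∂μ ≤ (finrank ℝ V : ℝ) ^ 2 * 3 := by
    have := integral_norm_pow_Tn h.mr h.wr (j := 2) (by norm_num)
    rwa [← h.el, Km_two] at this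
  have hi' : (i : ℝ) + 2 ≤ (finrank ℝ V : ℝ) := by exact_mod_cast hi
  have hi0 : (0 : ℝ) ≤ i := Nat.cast_nonneg i
  generalize hN : (finrank ℝ V : ℝ) = N at hsum hcard hE2 hE4 hi' ⊢
  have hN0 : 0 < N := by linarith
  obtain ⟨q, hq0, hq⟩ : ∃ q : ℝ, 0 < q ∧ N = q ^ 2 :=
    ⟨√N, Real.sqrt_pos.2 hN0, (Real.sq_sqrt hN0.le).symm⟩
  have hsq : √N = q := by rw [hq, Real.sqrt_sq hq0.le]
  rw [hsq]
  obtain ⟨s, hs⟩ : ∃ s : ℝ, s = (N - i - 1) / N := ⟨_, rfl⟩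
  rw [← hs]
  have hs0 : 0 ≤ s := by
    rw [hs]
    exact div_nonneg (by linarith) hN0.le
  have hsN : ∑ l, sl l = N * s := by
    rw [hsum, hs]
    push_cast
    field_simp
    ring
  have hSn : ∀ w, 0 ≤ SS (i + 1) μ w w := fun w => by
    rw [SS_self]
    exact integral_nonneg fun x => sq_nonneg _
  have hsl : ∀ l, 0 ≤ sl l := fun l => hbb l ▸ hSn (b l)
  have hth0 : ∀ (κ : Measure V) w, 0 ≤ th i κ w := fun κ w =>
    integral_nonneg fun x => norm_nonneg _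
  -- the quadratic form in the eigenbasis
  have hform : ∀ w, SS (i + 1) μ w w = ∑ l, sl l * ⟪b l, w⟫ ^ 2 := fun w => by
    let L : V →ₗ[ℝ] ℝ :=
      { toFun := fun u => SS (i + 1) μ u w
        map_add' := fun u u' => SS_add h.ml h.posl u u' w
        map_smul' := fun t u => SS_smul _ _ t u w }
    have h1 : SS (i + 1) μ w w = L (∑ l, ⟪b l, w⟫ • b l) := by
      rw [b.sum_repr' w]
      rfl
    rw [h1, map_sum]
    refine Finset.sum_congr rfl fun l _ => ?_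
    rw [map_smul, smul_eq_mul]
    change ⟪b l, w⟫ * SS (i + 1) μ (b l) w = _
    rw [hb]
    ring
  -- second moments from below
  have hmom : ∀ l, sl l ^ 2 / 4 ≤ ∫ w, ⟪b l, w⟫ ^ 2 ∂μ := fun l => by
    have h1 := SS_le_th_HiB2 h.mr h.posr (b l)
    rw [← SS_eq h, hbb, b.orthonormal.1 l, one_mul] at h1
    have h2 := th_succ_le h.mr hi h.posr (b l)
    have h3 := th_sq_le_HiB2 h.mr h.wr (b l)
    rw [← Sg_Tn h.mr h.wr, ← h.el] at h3
    have h4 : Sg μ (b l) (b l) = ∫ w, ⟪b l, w⟫ ^ 2 ∂μ := by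
      simp only [Sg, pow_two]
    have h5 := hsl l
    have h6 := hth0 ν (b l)
    rw [← h4]
    nlinarith
  have hI2 : ∀ l, Integrable (fun w => ⟪b l, w⟫ ^ 2) μ := fun l => by
    have := integrable_inner_pow_Tn h.mr h.wr (b l) 2
    rwa [← h.el] at this
  have hIn : ∀ p : ℕ, Integrable (fun w : V => ‖w‖ ^ p) μ := fun p => by
    have := integrable_norm_pow_Tn h.mr h.wr p
    rwa [← h.el] at this
  have hIS : Integrable (fun w => ∑ l, sl l * ⟪b l, w⟫ ^ 2) μ :=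
    integrable_finsetSum _ fun l _ => (hI2 l).const_mul _
  have hES : N * s ^ 3 / 4 ≤ ∫ w, ∑ l, sl l * ⟪b l, w⟫ ^ 2 ∂μ := by
    rw [integral_finsetSum _ fun l _ => (hI2 l).const_mul _]
    have h1 : ∀ l, (3 * s ^ 2 * sl l - 2 * s ^ 3) / 4 ≤ ∫ w, sl l * ⟪b l, w⟫ ^ 2 ∂μ := fun l => by
      rw [integral_const_mul]
      have h2 := mul_le_mul_of_nonneg_left (hmom l) (hsl l)
      have h3 : 0 ≤ (sl l - s) ^ 2 * (sl l + 2 * s) :=
        mul_nonneg (sq_nonneg _) (by linarith [hsl l])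
      nlinarith
    refine le_trans (le_of_eq ?_) (Finset.sum_le_sum fun l _ => h1 l)
    rw [← Finset.sum_div, Finset.sum_sub_distrib, ← Finset.mul_sum, hsN, Finset.sum_const,
      nsmul_eq_mul, hcard]
    ring
  have hIth : Integrable (fun w => th i μ w) μ := by
    have := Fr_prob h.ml h.wl
    exact (integrable_norm_Pj_prod h.ml h.wl).integral_prod_right
  obtain ⟨t, ht⟩ : ∃ t : ℝ, t = s ^ 3 / (8 * q) := ⟨_, rfl⟩
  have ht0 : 0 ≤ t := by rw [ht]; positivity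
  have hI3 : Integrable (fun w : V => q * ‖w‖ ^ 2 + ‖w‖ ^ 4 / q) μ :=
    ((hIn 2).const_mul q).add ((hIn 4).div_const q)
  have hmain : ∫ w, (t * ∑ l, sl l * ⟪b l, w⟫ ^ 2 - t ^ 2 / 4 * (q * ‖w‖ ^ 2 + ‖w‖ ^ 4 / q)) ∂μ
      ≤ ∫ w, th i μ w ∂μ := by
    refine integral_mono ((hIS.const_mul t).sub (hI3.const_mul _)) hIth fun w => ?_
    have h1 := SS_le_th_HiB2 h.ml h.posl w
    have h2 := mul_le_mul_of_nonneg_left (th_succ_le h.ml hi h.posl w) (norm_nonneg w)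
    have h3 := (le_abs_self _).trans (abs_SS_le h.ml h.posl w w)
    have h4 := point_HiB2 (t := t) (hth0 μ w) (hSn w) (norm_nonneg w) hq0 (h1.trans h2) h3
    rw [hform] at h4
    exact h4
  rw [integral_sub (hIS.const_mul t) (hI3.const_mul _), integral_const_mul, integral_const_mul,
    integral_add ((hIn 2).const_mul q) ((hIn 4).div_const q), integral_const_mul, integral_div,
    ← Zq_eq_th h.ml h.wl] at hmain
  have h1 := mul_le_mul_of_nonneg_left hES ht0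
  have h2 : q * ∫ w, ‖w‖ ^ 2 ∂μ + (∫ w, ‖w‖ ^ 4 ∂μ) / q ≤ 4 * q ^ 3 := by
    have h3 := mul_le_mul_of_nonneg_left hE2 hq0.le
    have h4 := div_le_div_of_nonneg_right hE4 hq0.le
    have h5 : q * N + N ^ 2 * 3 / q = 4 * q ^ 3 := by
      rw [hq]
      field_simp
      ring
    linarith
  have h3 := mul_le_mul_of_nonneg_left h2 (by positivity : 0 ≤ t ^ 2 / 4)
  have h4 : t * (N * s ^ 3 / 4) - t ^ 2 / 4 * (4 * q ^ 3) = s ^ 6 * q / 64 := by
    rw [ht, hq]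
    field_simp
    ring
  have h5 : 0 ≤ s ^ 6 * q := by positivity
  linarith

end Pool.Agent.P.MP_181257_gt
end
end

-- part Pool.Agent.P.MP_181257_gt.HiC4
section

/-! Isotropy. -/

set_option autoImplicit false
set_option linter.unusedSectionVars false
set_option linter.unusedVariables false

open MeasureTheory ProbabilityTheory Module Set Filter Topology
open scoped RealInnerProductSpace ENNReal Pointwise Matrix

noncomputable section

namespace Pool.Agent.P.MP_181257_gt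

variable {V : Type} [NormedAddCommGroup V] [InnerProductSpace ℝ V] [FiniteDimensional ℝ V]
  [MeasurableSpace V] [BorelSpace V]

theorem measurable_SS_HiC4 {ν : Measure V} (hν : Mom ν) {k : ℕ} (h : 0 < Wr k ν) (a : V) :
    Measurable fun y : V => SS k ν a y := by
  let L : V →ₗ[ℝ] ℝ :=
    { toFun := fun y => SS k ν a y
      map_add' := fun y z => by
        rw [SS_symm k ν a (y + z), SS_add hν h, SS_symm k ν y a, SS_symm k ν z a]
      map_smul' := fun t y => by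
        rw [SS_symm k ν a (t • y), SS_smul, SS_symm k ν y a]; rfl }
  exact (LinearMap.continuous_of_finiteDimensional L).measurable

theorem root_close_HiC4 {s s' t e : ℝ} (hs : 0 ≤ s) (hs' : 0 ≤ s') (ht : 0 ≤ t)
    (h1 : |1 - s - t * s ^ 2| ≤ e) (h2 : |1 - s' - t * s' ^ 2| ≤ e) : |s - s'| ≤ 2 * e := by
  have hk : 0 ≤ t * (s + s') := mul_nonneg ht (add_nonneg hs hs')
  have h3 : |(s - s') * (1 + t * (s + s'))| ≤ 2 * e := by
    have : (s - s') * (1 + t * (s + s')) = (1 - s' - t * s' ^ 2) - (1 - s - t * s ^ 2) := by ring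
    rw [this]
    have := abs_sub (1 - s' - t * s' ^ 2) (1 - s - t * s ^ 2)
    linarith
  rw [abs_mul, abs_of_nonneg (by linarith : (0 : ℝ) ≤ 1 + t * (s + s'))] at h3
  have := mul_nonneg (abs_nonneg (s - s')) hk
  nlinarith

theorem iso_core {i : ℕ} {μ ν : Measure V} (h : FP i μ ν) (hi : 1 ≤ i)
    (hin : i + 1 ≤ finrank ℝ V) {c m : ℝ} (hc : 0 < c) (hc1 : c ≤ 1) (hm : 1 ≤ m)
    (hmn : m ^ 4 = finrank ℝ V) (hZ : c * m ^ 2 ≤ Zq i μ) {a : V} (ha : ‖a‖ = 1) :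
    |Sg μ a a - ((finrank ℝ V : ℝ) - i - 1) / finrank ℝ V| ≤ 1000 / (c ^ 6 * m) := by
  haveI := Fr_prob h.ml h.wl
  have hm0 : 0 < m := by linarith
  have hin' : i ≤ finrank ℝ V := by omega
  have hZ' : c * m ^ 2 ≤ Zq i ν := by
    rw [← Zq_symm h.ml h.mr h.wl h.wr h.el h.er]; exact hZ
  have hSg : ∀ u v : V, Sg μ u v = SS i ν u v := by
    intro u v
    have := Sg_Tn h.mr h.wr u v
    rwa [← h.el] at this
  set δ : ℝ := 10 / (c ^ 2 * m ^ 2) with hδ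
  have hδ0 : 0 ≤ δ := by positivity
  have hcl : ∀ u v : V, ‖u‖ ≤ 1 → ‖v‖ ≤ 1 → |SS (i + 1) μ u v - SS i μ u v| ≤ δ :=
    fun u v hu hv => SS_close h hi hin' hc hc1 hm hmn hZ hu hv
  have hcl' : ∀ u v : V, ‖u‖ ≤ 1 → ‖v‖ ≤ 1 → |SS (i + 1) μ u v - SS i ν u v| ≤ δ := by
    intro u v hu hv
    rw [SS_eq h]
    exact SS_close h.symm hi hin' hc hc1 hm hmn hZ' hu hv
  obtain ⟨b, s, hb⟩ := exists_diag (SS (i + 1) μ) (SS_symm _ _) (SS_add h.ml h.posl)
    (SS_smul _ _)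
  obtain ⟨t, ht0, ht1, ht⟩ := selfcons h hi hin hc hc1 hm hmn hZ
  have hb1 : ∀ l, ‖b l‖ = 1 := fun l => b.orthonormal.1 l
  have hbb : ∀ l, ⟪b l, b l⟫ = (1 : ℝ) := fun l => by
    rw [real_inner_self_eq_norm_sq, hb1]; norm_num
  have hsl : ∀ l, SS (i + 1) μ (b l) (b l) = s l := fun l => by rw [hb, hbb, mul_one]
  have hs0 : ∀ l, 0 ≤ s l := fun l => by
    rw [← hsl, SS_self]
    exact integral_nonneg fun x => sq_nonneg _
  have hs1 : ∀ l, s l ≤ 1 := fun l => by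
    have := abs_SS_le h.ml h.posl (b l) (b l)
    rw [hsl, hb1, mul_one] at this
    exact (le_abs_self _).trans this
  have hkey : ∀ l, |1 - s l - t * s l ^ 2| ≤ 120 / (c ^ 5 * m) := by
    intro l
    have hP : Measurable fun x : Fin i → V => Pj i x (b l) :=
      measurable_Pj i measurable_id measurable_const
    have hPn : ∀ x : Fin i → V, ‖Pj i x (b l)‖ ≤ 1 := fun x => by
      simpa [hb1] using norm_Pj_le x (b l)
    have hI1 : Integrable (fun x : Fin i → V => SS i ν (b l) (Pj i x (b l))) (Fr i μ) := by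
      refine Bd.integrable ⟨(measurable_SS_HiC4 h.mr h.wr (b l)).comp hP, 1, fun x => ?_⟩ _
      have := abs_SS_le h.mr h.wr (b l) (Pj i x (b l))
      rw [hb1, one_mul] at this
      exact this.trans (hPn x)
    have hI2 : Integrable (fun x : Fin i → V => s l * ⟪Pj i x (b l), b l⟫) (Fr i μ) := by
      refine Integrable.const_mul (Bd.integrable ⟨hP.inner measurable_const, 1, fun x => ?_⟩ _) _
      have := abs_real_inner_le_norm (Pj i x (b l)) (b l)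
      rw [hb1, mul_one] at this
      exact this.trans (hPn x)
    have hd : |(∫ x, Sg μ (b l) (Pj i x (b l)) ∂(Fr i μ)) - s l * SS i μ (b l) (b l)| ≤ δ := by
      have e1 : (∫ x, Sg μ (b l) (Pj i x (b l)) ∂(Fr i μ)) - s l * SS i μ (b l) (b l)
          = ∫ x, (SS i ν (b l) (Pj i x (b l)) - s l * ⟪Pj i x (b l), b l⟫) ∂(Fr i μ) := by
        rw [integral_sub hI1 hI2, integral_const_mul]
        simp only [hSg]
        rfl
      rw [e1]
      have := norm_integral_le_of_norm_le_const (μ := Fr i μ) (C := δ)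
        (f := fun x => SS i ν (b l) (Pj i x (b l)) - s l * ⟪Pj i x (b l), b l⟫)
        (Eventually.of_forall fun x => by
          have h1 := hcl' (b l) (Pj i x (b l)) (hb1 l).le (hPn x)
          rw [hb, real_inner_comm, abs_sub_comm] at h1
          exact h1)
      simpa using this
    have h2 := hcl (b l) (b l) (hb1 l).le (hb1 l).le
    rw [hsl] at h2
    have h3 := ht (b l) (b l) (hb1 l).le (hb1 l).le
    rw [hsl, hbb] at h3
    set J := ∫ x, Sg μ (b l) (Pj i x (b l)) ∂(Fr i μ) with hJ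
    set Q := SS i μ (b l) (b l) with hQ
    have h4 : |J - s l ^ 2| ≤ 2 * δ := by
      have e2 : J - s l ^ 2 = (J - s l * Q) - s l * (s l - Q) := by ring
      have h5 : |s l * (s l - Q)| ≤ δ := by
        rw [abs_mul, abs_of_nonneg (hs0 l)]
        calc s l * |s l - Q| ≤ 1 * δ :=
              mul_le_mul (hs1 l) h2 (abs_nonneg _) zero_le_one
          _ = δ := one_mul _
      rw [e2]
      have := abs_sub (J - s l * Q) (s l * (s l - Q))
      linarith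
    have h6 : |t * (J - s l ^ 2)| ≤ 20 / (c ^ 5 * m) := by
      rw [abs_mul, abs_of_nonneg ht0]
      calc t * |J - s l ^ 2| ≤ 1 / c ^ 2 * (2 * δ) :=
            mul_le_mul ht1 h4 (abs_nonneg _) (by positivity)
        _ = 20 / (c ^ 4 * m ^ 2) := by rw [hδ]; field_simp; norm_num
        _ ≤ 20 / (c ^ 5 * m) := by
            apply div_le_div_of_nonneg_left (by norm_num) (by positivity)
            have h7 : c ≤ m := hc1.trans hm
            have : c ^ 4 * m * c ≤ c ^ 4 * m * m :=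
              mul_le_mul_of_nonneg_left h7 (by positivity)
            calc c ^ 5 * m = c ^ 4 * m * c := by ring
              _ ≤ c ^ 4 * m * m := this
              _ = c ^ 4 * m ^ 2 := by ring
    have e3 : 1 - s l - t * s l ^ 2 = (1 - s l - t * J) + t * (J - s l ^ 2) := by ring
    rw [e3]
    have := abs_add_le (1 - s l - t * J) (t * (J - s l ^ 2))
    have e4 : (120 : ℝ) / (c ^ 5 * m) = 100 / (c ^ 5 * m) + 20 / (c ^ 5 * m) := by ring
    linarith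
  set e : ℝ := 120 / (c ^ 5 * m) with he
  have hss : ∀ l l', |s l - s l'| ≤ 2 * e := fun l l' =>
    root_close_HiC4 (hs0 l) (hs0 l') ht0 (hkey l) (hkey l')
  have hn0 : (0 : ℝ) < finrank ℝ V := by
    have : 0 < finrank ℝ V := by omega
    exact_mod_cast this
  have hsum : ∑ l, s l = (finrank ℝ V : ℝ) - i - 1 := by
    have := sum_SS h.ml h.posl b
    simp only [hsl] at this
    rw [this]; push_cast; ring
  set σ : ℝ := ((finrank ℝ V : ℝ) - i - 1) / finrank ℝ V with hσ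
  have hmean : ∀ l, |s l - σ| ≤ 2 * e := by
    intro l
    have e5 : s l - σ = (∑ l', (s l - s l')) / finrank ℝ V := by
      rw [Finset.sum_sub_distrib, hsum, hσ]
      simp only [Finset.sum_const, Finset.card_univ, Fintype.card_fin, nsmul_eq_mul]
      field_simp
    rw [e5, abs_div, abs_of_pos hn0, div_le_iff₀ hn0]
    calc |∑ l', (s l - s l')| ≤ ∑ l', |s l - s l'| := Finset.abs_sum_le_sum_abs _ _
      _ ≤ ∑ l' : Fin (finrank ℝ V), 2 * e := Finset.sum_le_sum fun l' _ => hss l l'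
      _ = 2 * e * finrank ℝ V := by
          simp only [Finset.sum_const, Finset.card_univ, Fintype.card_fin, nsmul_eq_mul]
          ring
  have hone : ∑ l, ⟪b l, a⟫ ^ 2 = (1 : ℝ) := by
    have := b.sum_sq_inner_right a
    rw [this, ha]; norm_num
  have hSa : SS (i + 1) μ a a = ∑ l, s l * ⟪b l, a⟫ ^ 2 := by
    have hlin : ∀ (T : Finset (Fin (finrank ℝ V))) (r : Fin (finrank ℝ V) → ℝ),
        SS (i + 1) μ (∑ l ∈ T, r l • b l) a = ∑ l ∈ T, r l * SS (i + 1) μ (b l) a := by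
      intro T r
      induction T using Finset.induction_on with
      | empty =>
        have := SS_smul (i + 1) μ 0 a a
        simpa using this
      | insert l T hl ih =>
        rw [Finset.sum_insert hl, Finset.sum_insert hl, SS_add h.ml h.posl, SS_smul, ih]
    have e6 := hlin Finset.univ fun l => ⟪b l, a⟫
    rw [b.sum_repr' a] at e6
    rw [e6]
    refine Finset.sum_congr rfl fun l _ => ?_
    rw [hb]; ring
  have hA : |SS (i + 1) μ a a - σ| ≤ 2 * e := by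
    have e7 : SS (i + 1) μ a a - σ = ∑ l, (s l - σ) * ⟪b l, a⟫ ^ 2 := by
      simp only [sub_mul, Finset.sum_sub_distrib, ← Finset.mul_sum, hone, hSa, mul_one]
    rw [e7]
    calc |∑ l, (s l - σ) * ⟪b l, a⟫ ^ 2| ≤ ∑ l, |(s l - σ) * ⟪b l, a⟫ ^ 2| :=
          Finset.abs_sum_le_sum_abs _ _
      _ ≤ ∑ l, 2 * e * ⟪b l, a⟫ ^ 2 := Finset.sum_le_sum fun l _ => by
          rw [abs_mul, abs_of_nonneg (sq_nonneg ⟪b l, a⟫)]
          exact mul_le_mul_of_nonneg_right (hmean l) (sq_nonneg _)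
      _ = 2 * e := by rw [← Finset.mul_sum, hone, mul_one]
  have hB := hcl' a a ha.le ha.le
  rw [← hSg] at hB
  have hc6 : c ^ 6 * m ≤ c ^ 5 * m := by
    have : c ^ 5 * m * c ≤ c ^ 5 * m * 1 := mul_le_mul_of_nonneg_left hc1 (by positivity)
    calc c ^ 6 * m = c ^ 5 * m * c := by ring
      _ ≤ c ^ 5 * m * 1 := this
      _ = c ^ 5 * m := by ring
  have hc2 : c ^ 6 * m ≤ c ^ 2 * m ^ 2 := by
    have h4 : c ^ 4 ≤ m := (pow_le_one₀ hc.le hc1).trans hm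
    have : c ^ 2 * m * c ^ 4 ≤ c ^ 2 * m * m := mul_le_mul_of_nonneg_left h4 (by positivity)
    calc c ^ 6 * m = c ^ 2 * m * c ^ 4 := by ring
      _ ≤ c ^ 2 * m * m := this
      _ = c ^ 2 * m ^ 2 := by ring
  have hE : e ≤ 120 / (c ^ 6 * m) :=
    div_le_div_of_nonneg_left (by norm_num) (by positivity) hc6
  have hD : δ ≤ 10 / (c ^ 6 * m) :=
    div_le_div_of_nonneg_left (by norm_num) (by positivity) hc2
  have e8 : Sg μ a a - σ = (SS (i + 1) μ a a - σ) - (SS (i + 1) μ a a - Sg μ a a) := by ring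
  rw [e8]
  have h9 := abs_sub (SS (i + 1) μ a a - σ) (SS (i + 1) μ a a - Sg μ a a)
  have hp : 0 < 1 / (c ^ 6 * m) := by positivity
  have e9 : (1000 : ℝ) / (c ^ 6 * m) = 1000 * (1 / (c ^ 6 * m)) := by ring
  have e10 : (120 : ℝ) / (c ^ 6 * m) = 120 * (1 / (c ^ 6 * m)) := by ring
  have e11 : (10 : ℝ) / (c ^ 6 * m) = 10 * (1 / (c ^ 6 * m)) := by ring
  linarith

theorem isotropy {ε η : ℝ} (hε : 0 < ε) (hη : 0 < η) : ∃ n₀ : ℕ, ∀ n : ℕ, n₀ ≤ n →
    ∀ (i : ℕ) (μ ν : Measure (En n)), FP i μ ν → 1 ≤ i → (i : ℝ) ≤ (1 - ε) * n →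
      ∀ a : En n, ‖a‖ = 1 → |Sg μ a a - ((n : ℝ) - i - 1) / n| ≤ η := by
  set c : ℝ := (ε / 2) ^ 6 / 100 with hcdef
  have hc : 0 < c := by positivity
  obtain ⟨n₁, hn₁⟩ := exists_nat_ge (2 / ε)
  obtain ⟨n₂, hn₂⟩ := exists_nat_ge ((1000 / (c ^ 6 * η)) ^ 4)
  refine ⟨n₁ + n₂ + 1, fun n hn i μ ν h hi hin a ha => ?_⟩
  have hfr : finrank ℝ (En n) = n := finrank_euclideanSpace_fin
  have hn1 : (1 : ℝ) ≤ n := by exact_mod_cast (by omega : 1 ≤ n)
  have hn0 : (0 : ℝ) < n := by linarith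
  have hi1 : (1 : ℝ) ≤ i := by exact_mod_cast hi
  have hε1 : ε < 1 := by
    by_contra hh
    push Not at hh
    have : (1 - ε) * n ≤ 0 := mul_nonpos_of_nonpos_of_nonneg (by linarith) hn0.le
    linarith
  have hεn : 2 ≤ ε * n := by
    have h1 : (n₁ : ℝ) ≤ n := by exact_mod_cast (by omega : n₁ ≤ n)
    have h2 : 2 / ε ≤ n := hn₁.trans h1
    rw [div_le_iff₀ hε] at h2
    linarith
  have hi2 : i + 2 ≤ n := by
    have : (i : ℝ) + 2 ≤ n := by linarith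
    exact_mod_cast this
  set m : ℝ := √(√(n : ℝ)) with hmdef
  have hm2 : m ^ 2 = √(n : ℝ) := Real.sq_sqrt (Real.sqrt_nonneg _)
  have hm4 : m ^ 4 = n := by
    rw [show m ^ 4 = (m ^ 2) ^ 2 by ring, hm2, Real.sq_sqrt hn0.le]
  have hm1 : 1 ≤ m := Real.one_le_sqrt.2 (Real.one_le_sqrt.2 hn1)
  have hc1 : c ≤ 1 := by
    have : (ε / 2) ^ 6 ≤ 1 := pow_le_one₀ (by positivity) (by linarith)
    rw [hcdef]; linarith
  have hnt := nonthin h (by rw [hfr]; exact hi2)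
  rw [hfr] at hnt
  have hZ : c * m ^ 2 ≤ Zq i μ := by
    refine le_trans ?_ hnt
    rw [hm2, hcdef]
    have h1 : ε / 2 ≤ ((n : ℝ) - i - 1) / n := by
      rw [le_div_iff₀ hn0]; nlinarith
    have h2 : (ε / 2) ^ 6 ≤ (((n : ℝ) - i - 1) / n) ^ 6 := pow_le_pow_left₀ (by positivity) h1 6
    have h3 := mul_le_mul_of_nonneg_right h2 (Real.sqrt_nonneg (n : ℝ))
    linarith
  have hcore := iso_core h hi (by rw [hfr]; omega) hc hc1 hm1 (by rw [hfr]; exact hm4) hZ ha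
  rw [hfr] at hcore
  refine hcore.trans ?_
  have h4 : (1000 / (c ^ 6 * η)) ^ 4 ≤ m ^ 4 := by
    rw [hm4]
    have h1 : (n₂ : ℝ) ≤ n := by exact_mod_cast (by omega : n₂ ≤ n)
    exact hn₂.trans h1
  have h5 : 1000 / (c ^ 6 * η) ≤ m :=
    le_of_pow_le_pow_left₀ (by norm_num) (by linarith) h4
  rw [div_le_iff₀ (by positivity)] at h5 ⊢
  calc (1000 : ℝ) ≤ m * (c ^ 6 * η) := h5
    _ = η * (c ^ 6 * m) := by ring

end Pool.Agent.P.MP_181257_gt
end
end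

-- part Pool.Agent.P.MP_181257_gt.HiD6
section

/-! Negative moments for subspaces. -/

set_option autoImplicit false
set_option linter.unusedSectionVars false
set_option linter.unusedVariables false

open MeasureTheory ProbabilityTheory Module Set Filter Topology
open scoped RealInnerProductSpace ENNReal Pointwise Matrix

noncomputable section

namespace Pool.Agent.P.MP_181257_gt

variable {V : Type} [NormedAddCommGroup V] [InnerProductSpace ℝ V] [FiniteDimensional ℝ V]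
  [MeasurableSpace V] [BorelSpace V]

/-- bound for the negative moment of the regularised determinant -/
def M0_HiD6 (ε : ℝ) : ℝ := (√(8 * (64 / ε ^ 2)) * (8 / ε)) ^ (16 / ε)

/-- bound for the inverse second moment of the relative length -/
def A0_HiD6 (ε : ℝ) : ℝ := 4 * √((4 / ε) ^ 4 * (Km 4 * (3 ^ 16 * M0_HiD6 ε)))

theorem M0_nonneg_HiD6 {ε : ℝ} (hε : 0 < ε) : 0 ≤ M0_HiD6 ε := by
  unfold M0_HiD6; positivity

theorem A0_nonneg_HiD6 (ε : ℝ) : 0 ≤ A0_HiD6 ε := by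
  unfold A0_HiD6; positivity

theorem N_ge_HiD6 {ε : ℝ} (hε : 0 < ε) (hε1 : ε ≤ 1) : 1 ≤ 32 / ε ^ 2 := by
  rw [le_div_iff₀ (by positivity)]; nlinarith

theorem low_HiD6 {i r : ℕ} {μ ν : Measure V} (h : FP i μ ν) (hi : 1 ≤ i)
    (hin : i ≤ finrank ℝ V) {ε : ℝ} (hε : 0 < ε) (hr : 16 ≤ r)
    (hεr : ε * finrank ℝ V ≤ 2 * r) (hl : ∀ a : V, ‖a‖ = 1 → ε / 4 ≤ Sg μ a a)
    (hbig : 3072 ≤ ε ^ 4 * finrank ℝ V) (U : Submodule ℝ V) (hU : r ≤ finrank ℝ U) :
    ε / 8 * √(finrank ℝ V : ℝ) ≤ ∫ w, ‖pU U w‖ ∂μ := by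
  have hn : (0 : ℝ) ≤ finrank ℝ V := Nat.cast_nonneg _
  have h1 : ε ^ 2 * finrank ℝ V / 8 ≤ r * (ε / 4) := by nlinarith
  have h2 : 48 * (finrank ℝ V : ℝ) ≤ (r * (ε / 4)) ^ 2 := by
    have h3 : (ε ^ 2 * finrank ℝ V / 8) ^ 2 ≤ (r * (ε / 4)) ^ 2 :=
      pow_le_pow_left₀ (by positivity) h1 2
    nlinarith [mul_le_mul_of_nonneg_right hbig hn]
  refine le_trans ?_ (sub_lower h hi hin (by positivity) hl (by omega) h2 U hU)
  have h4 : ε / 4 * √(finrank ℝ V : ℝ) ≤ √(r * (ε / 4) / 2) := by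
    refine Real.le_sqrt_of_sq_le ?_
    rw [mul_pow, Real.sq_sqrt hn]
    nlinarith
  linarith

theorem det_HiD6 {i r : ℕ} {μ ν : Measure V} (h : FP i μ ν) (hi : 1 ≤ i)
    (hin : i ≤ finrank ℝ V) {ε : ℝ} (hε : 0 < ε) (hε1 : ε ≤ 1) (hr : 16 ≤ r)
    (hrq : 2 * r + i ≤ finrank ℝ V + 1)
    (hεr : ε * finrank ℝ V ≤ 2 * r) (hl : ∀ a : V, ‖a‖ = 1 → ε / 4 ≤ Sg μ a a)
    (hbig : 3072 ≤ ε ^ 4 * finrank ℝ V) {δ : ℝ} (h0 : 0 ≤ δ) (h1 : δ ≤ 1)
    (hN : ∀ U : Submodule ℝ V, r ≤ finrank ℝ U →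
      ∫⁻ w, (ENNReal.ofReal (rho δ U w))⁻¹ ∂μ ≤ ENNReal.ofReal (4 * (64 / ε ^ 2)))
    (e : Fin r → V) (he : Orthonormal ℝ e) :
    ∫⁻ x, ENNReal.ofReal (Dl δ e x) ^ (-(8 / (r : ℝ))) ∂(Fr i μ)
      ≤ ENNReal.ofReal (M0_HiD6 ε) := by
  have hn : (0 : ℝ) < finrank ℝ V := by exact_mod_cast (by omega : 0 < finrank ℝ V)
  have hs : 0 < √(finrank ℝ V : ℝ) := Real.sqrt_pos.2 hn
  have hr0 : (0 : ℝ) < r := by exact_mod_cast (by omega : 0 < r)
  have hi2 : Integrable (fun w => ‖w‖ ^ 2) μ := by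
    have := integrable_norm_pow_Tn h.mr h.wr 2
    rwa [← h.el] at this
  have h2 : ∫ w, ‖w‖ ^ 2 ∂μ ≤ finrank ℝ V := by
    have := integral_norm_pow_Tn h.mr h.wr (j := 1) le_rfl
    rw [← h.el, Km_one] at this
    simpa using this
  refine (Dl_moment h.ml h.wl hr hrq h0 h1 (lam := ε / 8 * √(finrank ℝ V : ℝ)) (by positivity)
    (by positivity) hi2 h2 (low_HiD6 h hi hin hε hr hεr hl hbig) hN he).trans
    (ENNReal.ofReal_le_ofReal ?_)
  have e1 : √(2 * finrank ℝ V * (4 * (64 / ε ^ 2))) / (ε / 8 * √(finrank ℝ V : ℝ))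
      = √(8 * (64 / ε ^ 2)) * (8 / ε) := by
    rw [show 2 * (finrank ℝ V : ℝ) * (4 * (64 / ε ^ 2)) = finrank ℝ V * (8 * (64 / ε ^ 2)) by ring,
      Real.sqrt_mul hn.le]
    field_simp
  rw [e1, M0_HiD6]
  have hb1 : 1 ≤ √(8 * (64 / ε ^ 2)) := by
    refine Real.le_sqrt_of_sq_le ?_
    have := N_ge_HiD6 hε hε1
    rw [show 8 * (64 / ε ^ 2) = 16 * (32 / ε ^ 2) by ring]
    linarith
  have hb2 : 1 ≤ 8 / ε := by rw [le_div_iff₀ hε]; linarith
  refine Real.rpow_le_rpow_of_exponent_le (by nlinarith) ?_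
  have hin' : (i : ℝ) ≤ finrank ℝ V := by exact_mod_cast hin
  rw [div_le_div_iff₀ hr0 hε]
  nlinarith

theorem step_HiD6 {i r : ℕ} {μ ν : Measure V} (h : FP i μ ν) (hi : 1 ≤ i)
    (hin : i ≤ finrank ℝ V) {ε : ℝ} (hε : 0 < ε) (hε1 : ε ≤ 1) (hr : 16 ≤ r)
    (hrq : 2 * r + i ≤ finrank ℝ V + 1) (hεr : ε * finrank ℝ V ≤ 2 * r)
    (hl : ∀ a : V, ‖a‖ = 1 → ε / 4 ≤ Sg μ a a) (hl' : ∀ a : V, ‖a‖ = 1 → ε / 4 ≤ Sg ν a a)
    (hbig : 3072 ≤ ε ^ 4 * finrank ℝ V)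
    (hbig2 : (1536 / ε ^ 4 + 6) * A0_HiD6 ε ≤ finrank ℝ V) {δ : ℝ} (h0 : 0 ≤ δ) (h1 : δ ≤ 1)
    (hN : ∀ U : Submodule ℝ V, r ≤ finrank ℝ U →
      ∫⁻ w, (ENNReal.ofReal (rho δ U w))⁻¹ ∂ν ≤ ENNReal.ofReal (4 * (64 / ε ^ 2)))
    (U : Submodule ℝ V) (hU : r ≤ finrank ℝ U) :
    ∫⁻ w, (ENNReal.ofReal (rho δ U w))⁻¹ ∂μ ≤ ENNReal.ofReal (64 / ε ^ 2) := by
  have := h.ml.prob
  have hn : (0 : ℝ) < finrank ℝ V := by exact_mod_cast (by omega : 0 < finrank ℝ V)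
  have hr0 : (0 : ℝ) < r := by exact_mod_cast (by omega : 0 < r)
  have hM := M0_nonneg_HiD6 hε
  have hK := Km_nonneg 4
  have hA := A0_nonneg_HiD6 ε
  have h2 := rho_moment h.mr h.wr hr h0 hM
    (det_HiD6 h.symm hi hin hε hε1 hr hrq hεr hl' hbig h0 h1 hN) U hU
  rw [← h.el] at h2
  have h3 : 4 * √((2 * finrank ℝ V) ^ 4 * Km 4) * √(3 ^ 16 / (r : ℝ) ^ 4 * M0_HiD6 ε)
      ≤ A0_HiD6 ε := by
    rw [A0_HiD6, mul_assoc, ← Real.sqrt_mul (by positivity)]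
    refine mul_le_mul_of_nonneg_left (Real.sqrt_le_sqrt ?_) (by norm_num)
    have h4 : 2 * (finrank ℝ V : ℝ) / r ≤ 4 / ε := by
      rw [div_le_div_iff₀ hr0 hε]; nlinarith
    calc _ = (2 * (finrank ℝ V : ℝ) / r) ^ 4 * (Km 4 * (3 ^ 16 * M0_HiD6 ε)) := by
          rw [div_pow]; ring
      _ ≤ _ := mul_le_mul_of_nonneg_right (pow_le_pow_left₀ (by positivity) h4 4) (by positivity)
  have h5 := rho_small h hi hin (s := ε / 4) (by positivity) hl (by omega) δ U hU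
  refine (split_level μ (measurable_rho δ U) (by positivity) (by positivity) hA h5
    (h2.trans (ENNReal.ofReal_le_ofReal h3))).trans (ENNReal.ofReal_le_ofReal ?_)
  have h6 : ε ^ 2 * finrank ℝ V / 8 ≤ r * (ε / 4) := by nlinarith
  have h7 : 1 / (r * (ε / 4) / (4 * finrank ℝ V)) ≤ 32 / ε ^ 2 := by
    rw [one_div_div, div_le_div_iff₀ (by positivity) (by positivity)]; nlinarith
  have h8 : 24 * (finrank ℝ V : ℝ) / (r * (ε / 4)) ^ 2 ≤ 1536 / ε ^ 4 / finrank ℝ V := by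
    calc _ ≤ 24 * (finrank ℝ V : ℝ) / (ε ^ 2 * finrank ℝ V / 8) ^ 2 :=
          div_le_div_of_nonneg_left (by positivity) (by positivity)
            (pow_le_pow_left₀ (by positivity) h6 2)
      _ = _ := by field_simp; ring
  have h9 : √(24 * (finrank ℝ V : ℝ) / (r * (ε / 4)) ^ 2 + 6 / finrank ℝ V) * √(A0_HiD6 ε)
      ≤ 1 := by
    rw [← Real.sqrt_mul (by positivity)]
    refine Real.sqrt_le_iff.2 ⟨zero_le_one, ?_⟩
    rw [one_pow]
    calc _ ≤ (1536 / ε ^ 4 / finrank ℝ V + 6 / finrank ℝ V) * A0_HiD6 ε :=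
          mul_le_mul_of_nonneg_right (by linarith) hA
      _ = (1536 / ε ^ 4 + 6) * A0_HiD6 ε / finrank ℝ V := by ring
      _ ≤ 1 := (div_le_one hn).2 hbig2
  have h10 := N_ge_HiD6 hε hε1
  rw [show 64 / ε ^ 2 = 32 / ε ^ 2 + 32 / ε ^ 2 by ring]
  linarith

theorem core_HiD6 {i r : ℕ} {μ ν : Measure V} (h : FP i μ ν) (hi : 1 ≤ i)
    (hin : i ≤ finrank ℝ V) {ε : ℝ} (hε : 0 < ε) (hε1 : ε ≤ 1) (hr : 16 ≤ r)
    (hrq : 2 * r + i ≤ finrank ℝ V + 1) (hεr : ε * finrank ℝ V ≤ 2 * r)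
    (hl : ∀ a : V, ‖a‖ = 1 → ε / 4 ≤ Sg μ a a) (hl' : ∀ a : V, ‖a‖ = 1 → ε / 4 ≤ Sg ν a a)
    (hbig : 3072 ≤ ε ^ 4 * finrank ℝ V)
    (hbig2 : (1536 / ε ^ 4 + 6) * A0_HiD6 ε ≤ finrank ℝ V)
    (U : Submodule ℝ V) (hU : r ≤ finrank ℝ U) :
    ∫⁻ w, (ENNReal.ofReal ‖pU U w‖)⁻¹ ^ 8 ∂μ
      ≤ ENNReal.ofReal (3 ^ 16 / (r : ℝ) ^ 4 * M0_HiD6 ε) := by
  have := h.ml.prob
  have := h.mr.prob
  have h10 := N_ge_HiD6 hε hε1
  have hN : 1 ≤ 64 / ε ^ 2 := by
    rw [show 64 / ε ^ 2 = 32 / ε ^ 2 + 32 / ε ^ 2 by ring]; linarith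
  have hd := dyadic (μ := μ) (ν := ν) (r := r) hN fun δ h0 h1 hh W hW =>
    ⟨step_HiD6 h hi hin hε hε1 hr hrq hεr hl hl' hbig hbig2 h0.le h1 (fun X hX => (hh X hX).2) W hW,
      step_HiD6 h.symm hi hin hε hε1 hr hrq hεr hl' hl hbig hbig2 h0.le h1
        (fun X hX => (hh X hX).1) W hW⟩
  have h2 := pU_moment h.mr h.wr hr (M0_nonneg_HiD6 hε)
    (det_HiD6 h.symm hi hin hε hε1 hr hrq hεr hl' hbig le_rfl zero_le_one
      fun X hX => (hd X hX).2.trans (ENNReal.ofReal_le_ofReal (by linarith))) U hU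
  rwa [← h.el] at h2

theorem negsub {ε : ℝ} (hε : 0 < ε) : ∃ c : ℝ, 0 < c ∧ c ≤ 1 ∧ ∃ n₀ : ℕ, ∀ n : ℕ, n₀ ≤ n →
    ∀ (i : ℕ) (μ ν : Measure (En n)), FP i μ ν → 1 ≤ i → (i : ℝ) ≤ (1 - ε) * n →
      Sub i μ (c * √(n : ℝ)) := by
  have hM := M0_nonneg_HiD6 hε
  have hA := A0_nonneg_HiD6 ε
  obtain ⟨X, hX⟩ : ∃ X : ℝ, X = 3 ^ 16 * M0_HiD6 ε * (2 / ε) ^ 4 := ⟨_, rfl⟩
  have hX0 : 0 ≤ X := by rw [hX]; positivity
  obtain ⟨c, hc⟩ : ∃ c : ℝ, c = min (ε / 8) (1 / (X + 1)) := ⟨_, rfl⟩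
  have hc0 : 0 < c := by rw [hc]; positivity
  have hc1 : c ≤ ε / 8 := by rw [hc]; exact min_le_left _ _
  have hc2 : c * (X + 1) ≤ 1 := by
    rw [← le_div_iff₀ (by positivity), hc]; exact min_le_right _ _
  have hc3 : c ≤ 1 := by nlinarith
  obtain ⟨n₁, h₁⟩ := isotropy hε (η := ε / 4) (by positivity)
  obtain ⟨n₂, h₂⟩ := exists_nat_ge (32 / ε + 3072 / ε ^ 4 + (1536 / ε ^ 4 + 6) * A0_HiD6 ε)
  refine ⟨c, hc0, hc3, max n₁ n₂, fun n hn i μ ν h hi hin => ?_⟩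
  have hn1 : n₁ ≤ n := le_trans (le_max_left _ _) hn
  have hn2 : (n₂ : ℝ) ≤ n := by exact_mod_cast le_trans (le_max_right _ _) hn
  have p1 : 0 < 32 / ε := by positivity
  have p2 : 0 < 3072 / ε ^ 4 := by positivity
  have p3 : 0 ≤ (1536 / ε ^ 4 + 6) * A0_HiD6 ε := by positivity
  have q1 : 32 ≤ ε * n := by
    have : 32 / ε ≤ n := by linarith
    rw [div_le_iff₀ hε] at this; linarith
  have q2 : 3072 ≤ ε ^ 4 * n := by
    have : 3072 / ε ^ 4 ≤ n := by linarith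
    rw [div_le_iff₀ (by positivity)] at this; linarith
  have q3 : (1536 / ε ^ 4 + 6) * A0_HiD6 ε ≤ n := by linarith
  have hn0 : (0 : ℝ) < n := by linarith
  have hi' : (1 : ℝ) ≤ i := by exact_mod_cast hi
  have hε1 : ε ≤ 1 := by nlinarith
  have hq : i + 32 ≤ n := by
    have : (i : ℝ) + 32 ≤ n := by nlinarith
    exact_mod_cast this
  have hf : finrank ℝ (En n) = n := by simp
  obtain ⟨r, hr⟩ : ∃ r : ℕ, r = (n - i + 1) / 2 := ⟨_, rfl⟩
  have hr1 : 16 ≤ r := by omega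
  have hr2 : 2 * r + i ≤ finrank ℝ (En n) + 1 := by rw [hf]; omega
  have hr3 : ε * finrank ℝ (En n) ≤ 2 * r := by
    have h3 : n ≤ 2 * r + i := by omega
    have h4 : (n : ℝ) ≤ 2 * r + i := by exact_mod_cast h3
    rw [hf]; nlinarith
  have hiso : ∀ μ' ν' : Measure (En n), FP i μ' ν' → ∀ a : En n, ‖a‖ = 1 →
      ε / 4 ≤ Sg μ' a a := by
    intro μ' ν' h' a ha
    have h5 := (abs_le.1 (h₁ n hn1 i μ' ν' h' hi hin a ha)).1
    have h6 : ε / 2 ≤ ((n : ℝ) - i - 1) / n := by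
      rw [le_div_iff₀ hn0]; nlinarith
    linarith
  have hin' : i ≤ finrank ℝ (En n) := by rw [hf]; omega
  intro U hU
  have hU' : r ≤ finrank ℝ U := by rw [hf] at hU; omega
  have hs : 0 < √(n : ℝ) := Real.sqrt_pos.2 hn0
  refine ⟨?_, ?_⟩
  · have h7 := low_HiD6 h hi hin' hε hr1 hr3 (hiso μ ν h) (by rw [hf]; exact q2) U hU'
    rw [hf] at h7
    exact le_trans (mul_le_mul_of_nonneg_right hc1 hs.le) h7
  · refine (core_HiD6 h hi hin' hε hε1 hr1 hr2 hr3 (hiso μ ν h) (hiso ν μ h.symm)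
      (by rw [hf]; exact q2) (by rw [hf]; exact q3) U hU').trans ?_
    rw [← ENNReal.ofReal_inv_of_pos (by positivity), ← ENNReal.ofReal_pow (by positivity)]
    refine ENNReal.ofReal_le_ofReal ?_
    have hr0 : (0 : ℝ) < r := by exact_mod_cast (by omega : 0 < r)
    have h8 : (n : ℝ) / r ≤ 2 / ε := by
      rw [hf] at hr3
      rw [div_le_div_iff₀ hr0 hε]; nlinarith
    have h9 : (c * √(n : ℝ)) ^ 8 = c ^ 8 * (n : ℝ) ^ 4 := by
      rw [mul_pow, show (8 : ℕ) = 2 * 4 by rfl, pow_mul (√(n : ℝ)), Real.sq_sqrt hn0.le]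
    have h10 : c ^ 8 ≤ c := by
      calc c ^ 8 ≤ c ^ 1 := pow_le_pow_of_le_one hc0.le hc3 (by norm_num)
        _ = c := pow_one c
    rw [inv_pow, h9, ← one_div, le_div_iff₀ (by positivity)]
    calc _ = c ^ 8 * (3 ^ 16 * M0_HiD6 ε * ((n : ℝ) / r) ^ 4) := by rw [div_pow]; ring
      _ ≤ c * X := by
          rw [hX]
          exact mul_le_mul h10 (mul_le_mul_of_nonneg_left
            (pow_le_pow_left₀ (by positivity) h8 4) (by positivity)) (by positivity) hc0.le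
      _ ≤ 1 := by nlinarith

end Pool.Agent.P.MP_181257_gt
end
end

-- part Pool.Agent.P.MP_181257_gt.PwA
section

/-! Rank dependent peeling: tools. -/

set_option autoImplicit false
set_option linter.unusedSectionVars false
set_option linter.unusedVariables false

open MeasureTheory ProbabilityTheory Module Set Filter Topology
open scoped RealInnerProductSpace ENNReal Pointwise Matrix

noncomputable section

namespace Pool.Agent.P.MP_181257_gt

variable {V : Type} [NormedAddCommGroup V] [InnerProductSpace ℝ V] [FiniteDimensional ℝ V]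
  [MeasurableSpace V] [BorelSpace V]

theorem peel_exp {μ : Measure V} (hμ : Mom μ) {d K : ℕ} (hd : d + K ≤ finrank ℝ V)
    (hW : 0 < Wr K μ) (γ : ℕ → ℝ)
    (Ψ : ∀ k : ℕ, (Fin k → V) → ℝ≥0∞) (hΨ : ∀ k, Measurable (Ψ k)) (h0 : ∀ x, Ψ 0 x ≤ 1)
    (hstep : ∀ k, k < K → ∀ (x : Fin k → V) (U : Submodule ℝ V), d + 1 ≤ finrank ℝ U →
      ∫⁻ a, ENNReal.ofReal ‖pU U a‖ * Ψ (k + 1) (Fin.cons a x) ∂μ
        ≤ ENNReal.ofReal (Real.exp (γ k)) * Ψ k x * ∫⁻ a, ENNReal.ofReal ‖pU U a‖ ∂μ) :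
    ∫⁻ x, Ψ K x ∂(Fr K μ) ≤ ENNReal.ofReal (Real.exp (∑ k ∈ Finset.range K, γ k)) := by
  have key := peel_Fr hμ hd hW (B := 1)
    (fun k x => ENNReal.ofReal (Real.exp (-(∑ j ∈ Finset.range k, γ j))) * Ψ k x)
    (fun k => (hΨ k).const_mul _) (fun x => by simpa using h0 x) (by
      intro k hk x U hU
      have h1 := hstep k hk x U hU
      simp only [mul_left_comm (ENNReal.ofReal ‖pU U _‖)]
      rw [lintegral_const_mul' _ _ ENNReal.ofReal_ne_top, one_mul]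
      refine (mul_le_mul_right h1 _).trans (le_of_eq ?_)
      rw [← mul_assoc, ← mul_assoc, ← ENNReal.ofReal_mul (Real.exp_pos _).le, ← Real.exp_add,
        Finset.sum_range_succ]
      congr 4
      ring)
  rw [one_pow, lintegral_const_mul' _ _ ENNReal.ofReal_ne_top] at key
  have h2 := mul_le_mul_right key (ENNReal.ofReal (Real.exp (∑ k ∈ Finset.range K, γ k)))
  rwa [← mul_assoc, ← ENNReal.ofReal_mul (Real.exp_pos _).le, ← Real.exp_add, add_neg_cancel,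
    Real.exp_zero, ENNReal.ofReal_one, one_mul, mul_one] at h2

theorem harm_le {a : ℝ} (K : ℕ) (h : (K : ℝ) < a) :
    ∑ k ∈ Finset.range K, 1 / (a - k) ≤ Real.log (a / (a - K)) := by
  induction K with
  | zero =>
    have : a ≠ 0 := by simp at h; exact h.ne'
    simp [this]
  | succ K ih =>
    push_cast at h ⊢
    have h1 : (K : ℝ) < a := by linarith
    have h2 : 0 < a - K := by linarith
    have h3 : 0 < a - (K + 1) := by linarith
    have h0 : 0 < a := by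
      have : (0 : ℝ) ≤ K := Nat.cast_nonneg K
      linarith
    rw [Finset.sum_range_succ]
    have e : a / (a - (K + 1)) = a / (a - K) * ((a - K) / (a - (K + 1))) := by field_simp
    rw [e, Real.log_mul (by positivity) (by positivity)]
    have h4 := Real.one_sub_inv_le_log_of_pos (div_pos h2 h3)
    have e2 : 1 - ((a - K) / (a - (K + 1)))⁻¹ = 1 / (a - K) := by
      field_simp
      ring
    rw [e2] at h4
    linarith [ih h1]

theorem split_sub {A B : Submodule ℝ V} (h : B ≤ A) (w : V) :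
    ‖pU A w‖ ^ 2 ≤ ‖pU B w‖ ^ 2 + ‖pU (Bᗮ ⊓ A) w‖ ^ 2 := by
  have h1 : pU B (pU A w) = pU B w :=
    congrArg (fun T : V →L[ℝ] V => T w) (Submodule.starProjection_comp_starProjection_of_le h)
  set p := pU A w with hp
  set q := pU B w with hq
  have hpA : p ∈ A := Submodule.starProjection_apply_mem A w
  have hqB : q ∈ B := Submodule.starProjection_apply_mem B w
  have hm : p - q ∈ Bᗮ ⊓ A := by
    refine ⟨?_, A.sub_mem hpA (h hqB)⟩
    rw [← h1]
    exact Submodule.sub_starProjection_mem_orthogonal (K := B) p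
  have h2 : ⟪q, p - q⟫ = 0 := (Submodule.mem_orthogonal _ _).1 hm.1 q hqB
  have h3 : ‖p‖ ^ 2 = ‖q‖ ^ 2 + ‖p - q‖ ^ 2 := by
    have e : p = q + (p - q) := by abel
    conv_lhs => rw [e]
    rw [norm_add_sq_real, h2]
    ring
  have h4 : ⟪p - q, w⟫ = ‖p - q‖ ^ 2 := by
    have h5 := Submodule.starProjection_inner_eq_zero (K := A) w (p - q) hm.2
    rw [inner_sub_left, ← hp] at h5
    have h6 : ⟪p, p - q⟫ = ‖p - q‖ ^ 2 := by
      rw [← real_inner_self_eq_norm_sq, inner_sub_left (𝕜 := ℝ) p q (p - q), h2, sub_zero]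
    rw [real_inner_comm]
    linarith
  have h7 : ⟪p - q, w⟫ = ⟪p - q, pU (Bᗮ ⊓ A) w⟫ := by
    have h5 := Submodule.starProjection_inner_eq_zero (K := Bᗮ ⊓ A) w (p - q) hm
    rw [inner_sub_left] at h5
    rw [real_inner_comm, real_inner_comm (pU (Bᗮ ⊓ A) w)]
    linarith
  have h8 := real_inner_le_norm (p - q) (pU (Bᗮ ⊓ A) w)
  rw [← h7, h4] at h8
  nlinarith [sq_nonneg (‖p - q‖ - ‖pU (Bᗮ ⊓ A) w‖)]

theorem mean_up {i : ℕ} {μ ν : Measure V} (h : FP i μ ν)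
    {s : ℝ} (hs : 0 ≤ s) (hiso : ∀ a : V, ‖a‖ = 1 → Sg μ a a ≤ s) {r : ℕ}
    (U : Submodule ℝ V) (hU : finrank ℝ U ≤ r) : ∫ z, ‖pU U z‖ ^ 2 ∂μ ≤ r * s := by
  obtain ⟨e, he, heU, hsum⟩ := exists_onb U
  have hint : ∀ l, Integrable (fun w => ⟪e l, w⟫ ^ 2) μ := fun l => by
    have := integrable_inner_pow_Tn h.mr h.wr (e l) 2
    rwa [← h.el] at this
  simp only [hsum]
  rw [integral_finsetSum _ fun l _ => hint l]
  calc ∑ l, ∫ w, ⟪e l, w⟫ ^ 2 ∂μ ≤ ∑ _l : Fin (finrank ℝ U), s := by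
        refine Finset.sum_le_sum fun l _ => ?_
        have := hiso (e l) (he.1 l)
        simpa only [Sg, sq] using this
    _ = finrank ℝ U * s := by simp
    _ ≤ r * s := mul_le_mul_of_nonneg_right (by exact_mod_cast hU) hs

theorem Dl_cons2 {r k : ℕ} {δ : ℝ} (h0 : 0 ≤ δ) (h1 : δ ≤ 1) (e : Fin r → V) (x : Fin k → V) :
    ∃ U Q : Submodule ℝ V, finrank ℝ V ≤ finrank ℝ U + k + r ∧ finrank ℝ Q ≤ r ∧
      ∀ a : V, Dl δ e x ^ 2 * (rho δ U a / 2) ≤ Dl δ e (Fin.cons a x : Fin (k + 1) → V) ^ 2 ∧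
        ∀ u : ℝ, 0 ≤ u → u ≤ 1 → u * (‖pU U a‖ ^ 2 + ‖pU Q a‖ ^ 2) ≤ ‖pU U a‖ ^ 2 →
          Dl δ e x ^ 2 * u ≤ Dl δ e (Fin.cons a x : Fin (k + 1) → V) ^ 2 := by
  refine ⟨nrm x ⊓ nrm e, (nrm x ⊓ nrm e)ᗮ ⊓ nrm x, ?_, ?_, fun a => ?_⟩
  · have h2 := finrank_inf_nrm (nrm x) e
    have h3 := finrank_nrm_ge x
    omega
  · have h2 := finrank_inf_nrm (nrm x) e
    have h3 := Submodule.finrank_add_inf_finrank_orthogonal
      (inf_le_left : nrm x ⊓ nrm e ≤ nrm x)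
    omega
  have hsplit := split_sub (inf_le_left : nrm x ⊓ nrm e ≤ nrm x) a
  rw [← Pj_eq x] at hsplit
  set U : Submodule ℝ V := nrm x ⊓ nrm e with hU
  set p : V := Pj k x a with hpdef
  set v : Fin r → Db V := fun l => WithLp.toLp 2 (Pj k x (e l), δ • e l) with hv
  set q : Db V := WithLp.toLp 2 (p, (0 : V)) with hq
  have hD : Dl δ e x = D v := rfl
  have hD' : Dl δ e (Fin.cons a x : Fin (k + 1) → V) = D fun l => pr q (v l) := by
    unfold Dl
    congr 1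
    funext l
    rw [Pj_cons, hq, hv, pr_toLp_HiD2]
  by_cases hp0 : p = 0
  · have hq0 : q = 0 := by rw [hq, hp0]; rfl
    rw [hD', hD, hq0]
    simp only [pr_zero_left]
    have := rho_le h0 h1 U a
    exact ⟨mul_le_of_le_one_right (sq_nonneg _) (by linarith),
      fun u _ hu1 _ => mul_le_of_le_one_right (sq_nonneg _) hu1⟩
  have hpp : 0 < ‖p‖ ^ 2 := pow_pos (norm_pos_iff.2 hp0) 2
  have hqn : ‖q‖ ^ 2 = ‖p‖ ^ 2 := by rw [hq, norm_sq_toLp_HiD2]; simp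
  have hkey : ‖p‖ ^ 2 * (D fun l => pr q (v l)) ^ 2 = D v ^ 2 * ‖Pj r v q‖ ^ 2 := by
    rw [← hqn, ← mul_pow, ← mul_pow, ← D_cons, D_cons_eq]
  have hmem : q - Pj r v q ∈ Submodule.span ℝ (range v) := by
    letI : MeasurableSpace (Db V) := borel _
    haveI : BorelSpace (Db V) := ⟨rfl⟩
    rw [Pj_eq v]
    have := Submodule.sub_starProjection_mem_orthogonal (K := nrm v) q
    rwa [nrm, Submodule.orthogonal_orthogonal] at this
  obtain ⟨u, hu, hu'⟩ := span_HiD2 δ (Pj k x) e hmem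
  have hP : Pj r v q = WithLp.toLp 2 (p - Pj k x u, -(δ • u)) := by
    have : Pj r v q = q - WithLp.toLp 2 (Pj k x u, δ • u) := by rw [← hu']; abel
    rw [this, hq, ← WithLp.toLp_sub]
    simp
  have hmemU : pU U a ∈ U := Submodule.starProjection_apply_mem U a
  have hfix : Pj k x (pU U a) = pU U a := by
    rw [Pj_eq]
    exact Submodule.starProjection_eq_self_iff.2 hmemU.1
  have hi1 : ⟪pU U a, p⟫ = ‖pU U a‖ ^ 2 := by
    rw [hpdef, ← inner_Pj_comm, hfix]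
    have h := Submodule.starProjection_inner_eq_zero (K := U) a (pU U a) hmemU
    rw [inner_sub_left, real_inner_self_eq_norm_sq, real_inner_comm] at h
    linarith
  have hi2 : ⟪pU U a, Pj k x u⟫ = 0 := by
    rw [← inner_Pj_comm, hfix, real_inner_comm]
    exact (Submodule.mem_orthogonal _ _).1 hmemU.2 u hu
  have hcore := core_HiD2 h0 h1 hi1 hi2 (norm_Pj_le x u)
  have hPn : ‖Pj r v q‖ ^ 2 = ‖p - Pj k x u‖ ^ 2 + δ ^ 2 * ‖u‖ ^ 2 := by
    rw [hP, norm_sq_toLp_HiD2, norm_neg, norm_smul, mul_pow, Real.norm_eq_abs, sq_abs]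
  have hpa : ‖p‖ ^ 2 / ‖a‖ ^ 2 ≤ 1 :=
    div_le_one_of_le₀ (pow_le_pow_left₀ (norm_nonneg _) (norm_Pj_le x a) 2) (sq_nonneg _)
  have hrho : ‖p‖ ^ 2 * (rho δ U a / 2) ≤ ‖Pj r v q‖ ^ 2 := by
    have h3 : ‖p‖ ^ 2 * (‖pU U a‖ ^ 2 / ‖a‖ ^ 2) ≤ ‖pU U a‖ ^ 2 := by
      have : ‖p‖ ^ 2 * (‖pU U a‖ ^ 2 / ‖a‖ ^ 2) = ‖p‖ ^ 2 / ‖a‖ ^ 2 * ‖pU U a‖ ^ 2 := by ring
      rw [this]
      exact mul_le_of_le_one_left (sq_nonneg _) hpa
    rw [hPn]
    unfold rho
    nlinarith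
  have hfin : ∀ t : ℝ, ‖p‖ ^ 2 * t ≤ ‖Pj r v q‖ ^ 2 →
      D v ^ 2 * t ≤ (D fun l => pr q (v l)) ^ 2 := by
    intro t ht
    refine le_of_mul_le_mul_left ?_ hpp
    rw [hkey]
    calc ‖p‖ ^ 2 * (D v ^ 2 * t) = D v ^ 2 * (‖p‖ ^ 2 * t) := by ring
      _ ≤ D v ^ 2 * ‖Pj r v q‖ ^ 2 := mul_le_mul_of_nonneg_left ht (sq_nonneg _)
  rw [hD', hD]
  refine ⟨hfin _ hrho, fun t ht0 _ ht => hfin t ?_⟩
  have e1 : ‖p - Pj k x u - pU U a‖ ^ 2 = ‖p - Pj k x u‖ ^ 2 - ‖pU U a‖ ^ 2 := by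
    rw [norm_sub_sq_real (p - Pj k x u) (pU U a), real_inner_comm, inner_sub_right, hi1, hi2]
    ring
  have e2 := mul_le_mul_of_nonneg_left hsplit ht0
  have e3 : 0 ≤ δ ^ 2 * ‖u‖ ^ 2 := by positivity
  rw [hPn]
  nlinarith [sq_nonneg ‖p - Pj k x u - pU U a‖]

end Pool.Agent.P.MP_181257_gt
end
end

-- part Pool.Agent.P.MP_181257_gt.PwB
section

/-! Polynomial bound for the negative moment of the regularised determinant. -/

set_option autoImplicit false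
set_option linter.unusedSectionVars false
set_option linter.unusedVariables false

open MeasureTheory ProbabilityTheory Module Set Filter Topology
open scoped RealInnerProductSpace ENNReal Pointwise Matrix

noncomputable section

namespace Pool.Agent.P.MP_181257_gt

variable {V : Type} [NormedAddCommGroup V] [InnerProductSpace ℝ V] [FiniteDimensional ℝ V]
  [MeasurableSpace V] [BorelSpace V]

theorem cs_PwB {μ : Measure V} {δ N Φ : ℝ} (hN : 0 < N) (hΦ : 0 ≤ Φ) {φ G : V → ℝ}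
    (hφ : Measurable φ) (h0 : ∀ a, 0 ≤ φ a) (hG : Integrable G μ) (hle : ∀ a, φ a ^ 2 ≤ G a)
    (h2 : ∫ w, G w ∂μ ≤ Φ) (U' : Submodule ℝ V)
    (hNb : ∫⁻ w, (ENNReal.ofReal (rho δ U' w))⁻¹ ∂μ ≤ ENNReal.ofReal N) :
    ∫⁻ a, ENNReal.ofReal (φ a) * (ENNReal.ofReal √(rho δ U' a / 2))⁻¹ ∂μ
      ≤ ENNReal.ofReal √(2 * Φ * N) := by
  have hm : Measurable fun a => (ENNReal.ofReal (rho δ U' a))⁻¹ :=
    (measurable_rho δ U').ennreal_ofReal.inv
  have h1 : ∫⁻ a, ENNReal.ofReal (φ a ^ 2) ∂μ ≤ ENNReal.ofReal Φ := by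
    refine (lintegral_mono fun a => ENNReal.ofReal_le_ofReal (hle a)).trans ?_
    rw [← ofReal_integral_eq_lintegral_ofReal hG
      (ae_of_all _ fun a => (sq_nonneg _).trans (hle a))]
    exact ENNReal.ofReal_le_ofReal h2
  have h3 : ∫⁻ a, 2 * (ENNReal.ofReal (rho δ U' a))⁻¹ ∂μ ≤ ENNReal.ofReal (2 * N) := by
    rw [lintegral_const_mul _ hm, ENNReal.ofReal_mul (by norm_num), ENNReal.ofReal_ofNat]
    gcongr
  calc _ ≤ ∫⁻ a, ENNReal.ofReal (φ a ^ 2) ^ (1 / 2 : ℝ)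
          * (2 * (ENNReal.ofReal (rho δ U' a))⁻¹) ^ (1 / 2 : ℝ) ∂μ := by
        refine lintegral_mono fun a => mul_le_mul' (le_of_eq ?_) (le_of_eq ?_)
        · rw [ENNReal.ofReal_rpow_of_nonneg (by positivity) (by norm_num), ← Real.sqrt_eq_rpow,
            Real.sqrt_sq (h0 a)]
        · have h4 : 0 ≤ rho δ U' a := rho_nonneg δ U' a
          rw [Real.sqrt_eq_rpow, ← ENNReal.ofReal_rpow_of_nonneg (by positivity) (by norm_num),
            ← ENNReal.inv_rpow, ENNReal.ofReal_div_of_pos (by norm_num), ENNReal.ofReal_ofNat,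
            ENNReal.inv_div (Or.inl (by norm_num)) (Or.inl (by norm_num)), div_eq_mul_inv]
    _ ≤ (∫⁻ a, ENNReal.ofReal (φ a ^ 2) ∂μ) ^ (1 / 2 : ℝ)
          * (∫⁻ a, 2 * (ENNReal.ofReal (rho δ U' a))⁻¹ ∂μ) ^ (1 / 2 : ℝ) :=
        ENNReal.lintegral_mul_norm_pow_le (hφ.pow_const 2).ennreal_ofReal.aemeasurable
          (hm.const_mul 2).aemeasurable (by norm_num) (by norm_num) (by norm_num)
    _ ≤ ENNReal.ofReal Φ ^ (1 / 2 : ℝ) * ENNReal.ofReal (2 * N) ^ (1 / 2 : ℝ) := by gcongr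
    _ = _ := by
        rw [← ENNReal.mul_rpow_of_nonneg _ _ (by norm_num), ← ENNReal.ofReal_mul hΦ,
          ENNReal.ofReal_rpow_of_nonneg (by positivity) (by norm_num), ← Real.sqrt_eq_rpow]
        congr 2
        ring

theorem top_PwB (w : V) : pU (⊤ : Submodule ℝ V) w = w :=
  Submodule.starProjection_eq_self_iff.mpr Submodule.mem_top

theorem sq_mean_PwB {i : ℕ} {μ ν : Measure V} (h : FP i μ ν) :
    ∫ z, ‖z‖ ^ 2 ∂μ ≤ finrank ℝ V := by
  have := integral_norm_pow_Tn h.mr h.wr (j := 1) le_rfl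
  rw [← h.el, Km_one] at this
  simpa using this

theorem exp_PwB {x β : ℝ} (hx : 0 ≤ x) (hβ : 0 ≤ β) : √(1 + x) + β ≤ Real.exp (x / 2 + β) := by
  have h1 : √(1 + x) ≤ Real.exp (x / 2) := by
    refine Real.sqrt_le_iff.2 ⟨(Real.exp_pos _).le, ?_⟩
    rw [← Real.exp_nat_mul]
    have := Real.add_one_le_exp x
    norm_num
    rw [show 2 * (x / 2) = x by ring]
    linarith
  have h2 : 1 ≤ Real.exp (x / 2) := Real.one_le_exp (by linarith)
  have h3 := Real.add_one_le_exp β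
  rw [Real.exp_add]
  nlinarith

theorem dev_PwB {A B M1 M2 rs js : ℝ} (hrs : 0 < rs) (hjs : rs ≤ js) (m1 : js ≤ M1)
    (m2 : M2 ≤ 2 * rs) (ha : ¬(js / 2 ≤ A ∧ B ≤ 3 * rs)) :
    rs ^ 2 / 4 ≤ (A - M1) ^ 2 + (B - M2) ^ 2 := by
  by_cases hb : js / 2 ≤ A
  · have hb2 : 3 * rs < B := not_le.1 fun hh => ha ⟨hb, hh⟩
    have g5 : rs ≤ B - M2 := by linarith
    have g6 := pow_le_pow_left₀ hrs.le g5 2
    nlinarith [sq_nonneg (A - M1)]
  · have g5 : rs / 2 ≤ M1 - A := by linarith [not_le.1 hb]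
    have g6 := pow_le_pow_left₀ (by positivity) g5 2
    nlinarith [sq_nonneg (B - M2)]

theorem lin_PwB {t m : ℝ} (hm : 0 < m) : t ≤ 1 / (2 * m) * t ^ 2 + m / 2 := by
  have g2 : 0 ≤ 1 / (2 * m) * (t - m) ^ 2 := by positivity
  have g3 : 1 / (2 * m) * (t - m) ^ 2 = 1 / (2 * m) * t ^ 2 - t + m / 2 := by
    field_simp
    ring
  linarith

theorem Dl_moment2 {i r : ℕ} {μ ν : Measure V} (h : FP i μ ν) (hi : 1 ≤ i) (hr : 16 ≤ r)
    (hrq : 2 * r + i ≤ finrank ℝ V + 1) {δ : ℝ} (h0 : 0 ≤ δ) (h1 : δ ≤ 1) {s lam N β : ℝ}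
    (hs : 0 < s) (hl : ∀ a : V, ‖a‖ = 1 → s ≤ Sg μ a a)
    (hu : ∀ a : V, ‖a‖ = 1 → Sg μ a a ≤ 2 * s)
    (hlam : 0 < lam) (hN : 0 < N) (hβ : 0 ≤ β)
    (hU : ∀ U : Submodule ℝ V, r ≤ finrank ℝ U → lam ≤ ∫ w, ‖pU U w‖ ∂μ)
    (hNb : ∀ U : Submodule ℝ V, r ≤ finrank ℝ U →
      ∫⁻ w, (ENNReal.ofReal (rho δ U w))⁻¹ ∂μ ≤ ENNReal.ofReal N)
    (hsm : √(2 * (48 * (finrank ℝ V : ℝ) ^ 2 / (r * s) ^ 2 + 4 * √(finrank ℝ V : ℝ)) * N)
      ≤ β * lam)
    {e : Fin r → V} (he : Orthonormal ℝ e) :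
    ∫⁻ x, ENNReal.ofReal (Dl δ e x) ^ (-(8 / (r : ℝ))) ∂(Fr i μ)
      ≤ ENNReal.ofReal (Real.exp (24 * Real.log (((finrank ℝ V : ℝ) - r)
        / ((finrank ℝ V : ℝ) - r - i)) + 8 * β * i / r)) := by
  have hμ := h.ml
  have := hμ.prob
  set n := finrank ℝ V with hn
  have hin : i ≤ n := by omega
  have hn0 : (0 : ℝ) < n := by exact_mod_cast (by omega : 0 < n)
  have hsn : 0 < √(n : ℝ) := Real.sqrt_pos.2 hn0
  have hr0 : (0 : ℝ) < r := by exact_mod_cast (by omega : 0 < r)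
  have hr16 : (16 : ℝ) ≤ r := by exact_mod_cast hr
  have hp0 : (0 : ℝ) ≤ 8 / r := by positivity
  have hp1 : (8 : ℝ) / r ≤ 1 := by rw [div_le_one hr0]; linarith
  have hrq' : 2 * (r : ℝ) + i ≤ n + 1 := by exact_mod_cast hrq
  have key := peel_exp hμ (d := n - i) (K := i) (by omega) h.wl
    (fun k => 24 * (1 / ((n : ℝ) - r - k)) + 8 * β / r)
    (fun k x => ENNReal.ofReal (Dl δ e x) ^ (-(8 / (r : ℝ))))
    (fun k => (measurable_Dl δ e k).ennreal_ofReal.pow_const _) (fun x => ?_) ?_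
  · refine key.trans (ENNReal.ofReal_le_ofReal (Real.exp_le_exp.2 ?_))
    rw [Finset.sum_add_distrib, ← Finset.mul_sum, Finset.sum_const, Finset.card_range,
      nsmul_eq_mul]
    have h3 := harm_le (a := (n : ℝ) - r) i (by linarith)
    have e1 : (i : ℝ) * (8 * β / r) = 8 * β * i / r := by ring
    linarith
  · exact ENNReal.rpow_le_one_of_one_le_of_neg (ENNReal.one_le_ofReal.2 (Dl_zero δ he x))
      (neg_neg_of_pos (by positivity))
  intro k hk x W hW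
  obtain ⟨U, Q, hUd, hQd, hc⟩ := Dl_cons2 h0 h1 e x
  obtain ⟨j, hj⟩ : ∃ j : ℕ, j + k + r = n := ⟨n - k - r, by omega⟩
  have hjr : r ≤ j := by omega
  have hjr' : (r : ℝ) ≤ j := by exact_mod_cast hjr
  have hj0 : (0 : ℝ) < j := by linarith
  have hjn : (n : ℝ) - r - k = j := by
    have : (j : ℝ) + k + r = n := by exact_mod_cast hj
    linarith
  have m1 := mean_HiD5 h hl (r := j) U (by omega)
  have m2 := mean_up h (by positivity) hu Q hQd
  have m0 := sq_mean_PwB h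
  have v1 := conc_sub h hi hin U
  have v2 := conc_sub h hi hin Q
  have v0 := conc_sub h hi hin ⊤
  have i1 := int_var_HiD5 h U (∫ z, ‖pU U z‖ ^ 2 ∂μ)
  have i2 := int_var_HiD5 h Q (∫ z, ‖pU Q z‖ ^ 2 ∂μ)
  have i0 := int_var_HiD5 h ⊤ (∫ z, ‖z‖ ^ 2 ∂μ)
  simp only [top_PwB] at v0 i0
  rw [← hn] at m0 v1 v2 v0
  set M1 := ∫ z, ‖pU U z‖ ^ 2 ∂μ with hM1
  set M2 := ∫ z, ‖pU Q z‖ ^ 2 ∂μ with hM2
  set M0 := ∫ z, ‖z‖ ^ 2 ∂μ with hM0
  set y : ℝ := 6 * r / j with hy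
  have hy0 : 0 ≤ y := by positivity
  set S : Set V := {a | j * s / 2 ≤ ‖pU U a‖ ^ 2 ∧ ‖pU Q a‖ ^ 2 ≤ 3 * (r * s)} with hS
  have hSm : MeasurableSet S :=
    (measurableSet_le measurable_const ((pU U).continuous.measurable.norm.pow_const 2)).inter
      (measurableSet_le ((pU Q).continuous.measurable.norm.pow_const 2) measurable_const)
  classical
  set u : V → ℝ := fun a => if a ∈ S then 1 / (1 + y) else rho δ U a / 2 with hudef
  set φ : V → ℝ := fun a => if a ∈ S then 0 else ‖a‖ with hφ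
  have hum : Measurable u :=
    Measurable.ite hSm measurable_const ((measurable_rho δ U).div_const 2)
  have hφm : Measurable φ := Measurable.ite hSm measurable_const measurable_norm
  have hu0 : ∀ a, 0 ≤ u a := fun a => by
    have := rho_nonneg δ U a
    simp only [hudef]
    split_ifs <;> positivity
  have hcu : ∀ a, Dl δ e x ^ 2 * u a ≤ Dl δ e (Fin.cons a x : Fin (k + 1) → V) ^ 2 := by
    intro a
    simp only [hudef]
    split_ifs with ha
    · refine (hc a).2 _ (by positivity) (by rw [div_le_one (by positivity)]; linarith) ?_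
      rw [one_div, inv_mul_le_iff₀ (by positivity)]
      have h3 : y * (j * s / 2) = 3 * (r * s) := by rw [hy]; field_simp; ring
      have h4 := mul_le_mul_of_nonneg_left ha.1 hy0
      linarith [ha.2]
    · exact (hc a).1
  have hT : 0 < (r * s) ^ 2 := by positivity
  have hcs := cs_PwB (μ := μ) (δ := δ) hN
    (Φ := 48 * (n : ℝ) ^ 2 / (r * s) ^ 2 + 4 * √(n : ℝ)) (by positivity) hφm
    (fun a => by simp only [hφ]; split_ifs <;> positivity)
    (G := fun a => 4 * n / (r * s) ^ 2 * ((‖pU U a‖ ^ 2 - M1) ^ 2 + (‖pU Q a‖ ^ 2 - M2) ^ 2)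
      + (1 / (2 * √(n : ℝ)) * (‖a‖ ^ 2 - M0) ^ 2 + √(n : ℝ) / 2))
    (((i1.add i2).const_mul _).add ((i0.const_mul _).add (integrable_const _))) ?_ ?_ U
    (hNb U (by omega))
  rotate_left
  · intro a
    have g1 := lin_PwB (t := ‖a‖ ^ 2 - M0) hsn
    simp only [hφ]
    split_ifs with ha
    · have : (0 : ℝ) ^ 2 = 0 := by norm_num
      rw [this]
      positivity
    · have g4 : (r * s) ^ 2 / 4 ≤ (‖pU U a‖ ^ 2 - M1) ^ 2 + (‖pU Q a‖ ^ 2 - M2) ^ 2 :=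
        dev_PwB (by positivity) (mul_le_mul_of_nonneg_right hjr' hs.le) m1
          (m2.trans (le_of_eq (by ring))) ha
      have g7 := mul_le_mul_of_nonneg_left g4 (by positivity : 0 ≤ 4 * (n : ℝ) / (r * s) ^ 2)
      have g8 : 4 * (n : ℝ) / (r * s) ^ 2 * ((r * s) ^ 2 / 4) = n := by field_simp
      linarith
  · have j1 : Integrable (fun a => 4 * n / (r * s) ^ 2
        * ((‖pU U a‖ ^ 2 - M1) ^ 2 + (‖pU Q a‖ ^ 2 - M2) ^ 2)) μ := (i1.add i2).const_mul _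
    have j2 : Integrable (fun a : V => 1 / (2 * √(n : ℝ)) * (‖a‖ ^ 2 - M0) ^ 2 + √(n : ℝ) / 2) μ :=
      (i0.const_mul _).add (integrable_const _)
    rw [integral_add j1 j2,
      integral_const_mul, integral_add i1 i2, integral_add (i0.const_mul _) (integrable_const _),
      integral_const_mul]
    simp only [integral_const, probReal_univ, smul_eq_mul, one_mul]
    have g1 := mul_le_mul_of_nonneg_left (add_le_add v1 v2)
      (by positivity : 0 ≤ 4 * (n : ℝ) / (r * s) ^ 2)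
    have g2 := mul_le_mul_of_nonneg_left v0 (by positivity : 0 ≤ 1 / (2 * √(n : ℝ)))
    have g3 : 1 / (2 * √(n : ℝ)) * (6 * n) = 3 * √(n : ℝ) := by
      field_simp
      rw [Real.sq_sqrt hn0.le]
      ring
    have g4 : 4 * (n : ℝ) / (r * s) ^ 2 * (6 * n + 6 * n) = 48 * (n : ℝ) ^ 2 / (r * s) ^ 2 := by
      ring
    linarith
  have hA : Measurable fun a => ENNReal.ofReal ‖pU W a‖ := by fun_prop
  have hY : Measurable fun a => (ENNReal.ofReal √(u a))⁻¹ := hum.sqrt.ennreal_ofReal.inv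
  have hint : Integrable (fun a => ‖pU W a‖) μ :=
    Integrable.mono' hμ.int (by fun_prop) (ae_of_all _ fun a => by simpa using norm_pU_le W a)
  have hlI : ENNReal.ofReal lam ≤ ∫⁻ a, ENNReal.ofReal ‖pU W a‖ ∂μ := by
    rw [← ofReal_integral_eq_lintegral_ofReal hint (ae_of_all _ fun a => norm_nonneg _)]
    exact ENNReal.ofReal_le_ofReal (hU W (by omega))
  have hpt : ∀ a, ENNReal.ofReal ‖pU W a‖ * (ENNReal.ofReal √(u a))⁻¹
      ≤ ENNReal.ofReal √(1 + y) * ENNReal.ofReal ‖pU W a‖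
        + ENNReal.ofReal (φ a) * (ENNReal.ofReal √(rho δ U a / 2))⁻¹ := by
    intro a
    simp only [hudef, hφ]
    split_ifs with ha
    · refine le_trans (le_of_eq ?_) le_self_add
      rw [mul_comm, one_div, Real.sqrt_inv, ENNReal.ofReal_inv_of_pos (by positivity), inv_inv]
    · exact le_trans (mul_le_mul' (ENNReal.ofReal_le_ofReal (norm_pU_le W a)) le_rfl) le_add_self
  have h3 := holder_HiD3 (μ := μ) hA hY hp0 hp1
    (B := ENNReal.ofReal (Real.exp (y / 2 + β))) (by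
      refine (lintegral_mono hpt).trans ?_
      rw [lintegral_add_left (hA.const_mul _), lintegral_const_mul _ hA]
      refine le_trans ?_ (mul_le_mul' (ENNReal.ofReal_le_ofReal (exp_PwB hy0 hβ)) le_rfl)
      rw [ENNReal.ofReal_add (Real.sqrt_nonneg _) hβ, add_mul]
      refine add_le_add_right (hcs.trans ((ENNReal.ofReal_le_ofReal hsm).trans ?_)) _
      rw [ENNReal.ofReal_mul hβ]
      exact mul_le_mul' le_rfl hlI)
  have e5 : ENNReal.ofReal (Real.exp (y / 2 + β)) ^ (8 / (r : ℝ))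
      = ENNReal.ofReal (Real.exp (24 * (1 / ((n : ℝ) - r - k)) + 8 * β / r)) := by
    rw [ENNReal.ofReal_rpow_of_nonneg (Real.exp_pos _).le hp0, ← Real.exp_mul, hjn, hy]
    congr 2
    field_simp
    ring
  rw [e5] at h3
  calc _ ≤ ∫⁻ a, ENNReal.ofReal (Dl δ e x) ^ (-(8 / (r : ℝ))) * (ENNReal.ofReal ‖pU W a‖
        * (ENNReal.ofReal √(u a))⁻¹ ^ (8 / (r : ℝ))) ∂μ := by
        refine lintegral_mono fun a => ?_
        rw [mul_left_comm]
        exact mul_le_mul' le_rfl (step_HiD3 (D_nonneg _) (D_nonneg _) (hu0 a) hp0 (hcu a))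
    _ ≤ _ := by
        have hm : Measurable fun a => ENNReal.ofReal ‖pU W a‖
            * (ENNReal.ofReal √(u a))⁻¹ ^ (8 / (r : ℝ)) := hA.mul (hY.pow_const _)
        rw [lintegral_const_mul _ hm, mul_comm (ENNReal.ofReal (Real.exp _)), mul_assoc]
        exact mul_le_mul' le_rfl h3

end Pool.Agent.P.MP_181257_gt
end
end

-- part Pool.Agent.P.MP_181257_gt.PwC
section

/-! Negative moments for subspaces with polynomial constants. -/

set_option autoImplicit false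
set_option linter.unusedSectionVars false
set_option linter.unusedVariables false

open MeasureTheory ProbabilityTheory Module Set Filter Topology
open scoped RealInnerProductSpace ENNReal Pointwise Matrix

noncomputable section

namespace Pool.Agent.P.MP_181257_gt

variable {V : Type} [NormedAddCommGroup V] [InnerProductSpace ℝ V] [FiniteDimensional ℝ V]
  [MeasurableSpace V] [BorelSpace V]

/-- two-sided bound for the second moments -/
def Iso (μ : Measure V) (s : ℝ) : Prop := ∀ a : V, ‖a‖ = 1 → s ≤ Sg μ a a ∧ Sg μ a a ≤ 2 * s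

theorem ar_PwC {ε m x : ℝ} (hε : 0 < ε) (hε1 : ε ≤ 1) (hm : 2 ^ 26 / ε ^ 6 ≤ m)
    (hx : ε ^ 2 * m ^ 2 / 8 ≤ x) :
    √(2 * (48 * (m ^ 2) ^ 2 / x ^ 2 + 4 * m) * (4 * (64 / ε ^ 2))) ≤ ε / 16 * (ε / 8 * m) := by
  have h6 : 0 < ε ^ 6 := by positivity
  have hm' : 2 ^ 26 ≤ m * ε ^ 6 := (div_le_iff₀ h6).1 hm
  have hm0 : 0 < m := lt_of_lt_of_le (by positivity) hm
  refine Real.sqrt_le_iff.2 ⟨by positivity, ?_⟩
  have h1 : 48 * (m ^ 2) ^ 2 / x ^ 2 ≤ 3072 / ε ^ 4 := by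
    calc _ ≤ 48 * (m ^ 2) ^ 2 / (ε ^ 2 * m ^ 2 / 8) ^ 2 :=
          div_le_div_of_nonneg_left (by positivity) (by positivity)
            (pow_le_pow_left₀ (by positivity) hx 2)
      _ = _ := by field_simp; norm_num
  have h2 : 3072 / ε ^ 4 ≤ m := by
    refine le_trans ?_ hm
    rw [div_le_div_iff₀ (by positivity) h6]
    have : ε ^ 6 ≤ ε ^ 4 := pow_le_pow_of_le_one hε.le hε1 (by norm_num)
    nlinarith [pow_pos hε 4]
  have h3 : 2 * (48 * (m ^ 2) ^ 2 / x ^ 2 + 4 * m) * (4 * (64 / ε ^ 2))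
      ≤ 2 * (5 * m) * (4 * (64 / ε ^ 2)) :=
    mul_le_mul_of_nonneg_right (by linarith) (by positivity)
  refine h3.trans ?_
  have e1 : 2 * (5 * m) * (4 * (64 / ε ^ 2)) = 2560 * m / ε ^ 2 := by ring
  rw [e1, div_le_iff₀ (by positivity)]
  have e2 : (ε / 16 * (ε / 8 * m)) ^ 2 * ε ^ 2 = m * (m * ε ^ 6) / 16384 := by ring
  rw [e2]
  have := mul_le_mul_of_nonneg_left hm' hm0.le
  linarith

theorem det_PwC {i r : ℕ} {μ ν : Measure V} (h : FP i μ ν) (hi : 1 ≤ i)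
    {ε s : ℝ} (hε : 0 < ε) (hε1 : ε ≤ 1) (hr : 16 ≤ r)
    (hrq : 2 * r + i ≤ finrank ℝ V + 1) (hεr : ε * finrank ℝ V ≤ 2 * r) (hs : ε / 4 ≤ s)
    (hI : Iso μ s) (hbig : 2 ^ 26 / ε ^ 6 ≤ √(finrank ℝ V : ℝ)) {δ : ℝ} (h0 : 0 ≤ δ) (h1 : δ ≤ 1)
    (hN : ∀ U : Submodule ℝ V, r ≤ finrank ℝ U →
      ∫⁻ w, (ENNReal.ofReal (rho δ U w))⁻¹ ∂μ ≤ ENNReal.ofReal (4 * (64 / ε ^ 2)))
    (e : Fin r → V) (he : Orthonormal ℝ e) :
    ∫⁻ x, ENNReal.ofReal (Dl δ e x) ^ (-(8 / (r : ℝ))) ∂(Fr i μ)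
      ≤ ENNReal.ofReal (3 * (4 / ε) ^ 24) := by
  have hin : i ≤ finrank ℝ V := by omega
  have hn : (0 : ℝ) < finrank ℝ V := by exact_mod_cast (by omega : 0 < finrank ℝ V)
  have hsn : 0 < √(finrank ℝ V : ℝ) := Real.sqrt_pos.2 hn
  have hsq : √(finrank ℝ V : ℝ) ^ 2 = finrank ℝ V := Real.sq_sqrt hn.le
  have hr0 : (0 : ℝ) < r := by exact_mod_cast (by omega : 0 < r)
  have hr16 : (16 : ℝ) ≤ r := by exact_mod_cast hr
  have hb2 : 3072 ≤ ε ^ 4 * finrank ℝ V := by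
    have h2 : 2 ^ 26 ≤ √(finrank ℝ V : ℝ) * ε ^ 6 := (div_le_iff₀ (by positivity)).1 hbig
    have h3 : ε ^ 6 ≤ ε ^ 2 := pow_le_pow_of_le_one hε.le hε1 (by norm_num)
    have h4 : 2 ^ 26 ≤ √(finrank ℝ V : ℝ) * ε ^ 2 :=
      h2.trans (mul_le_mul_of_nonneg_left h3 hsn.le)
    have h5 := pow_le_pow_left₀ (by positivity) h4 2
    rw [mul_pow, hsq] at h5
    nlinarith
  have hx : ε ^ 2 * √(finrank ℝ V : ℝ) ^ 2 / 8 ≤ r * s := by
    rw [hsq]
    have := mul_le_mul_of_nonneg_left hs hr0.le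
    nlinarith
  have hsm := ar_PwC hε hε1 hbig hx
  rw [hsq] at hsm
  refine (Dl_moment2 h hi hr hrq h0 h1 (lam := ε / 8 * √(finrank ℝ V : ℝ)) (β := ε / 16)
    (by linarith) (fun a ha => (hI a ha).1) (fun a ha => (hI a ha).2) (by positivity)
    (by positivity) (by positivity)
    (low_HiD6 h hi hin hε hr hεr (fun a ha => hs.trans (hI a ha).1) hb2) hN hsm he).trans
    (ENNReal.ofReal_le_ofReal ?_)
  have hrq' : 2 * (r : ℝ) + i ≤ finrank ℝ V + 1 := by exact_mod_cast hrq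
  have hi0 : (0 : ℝ) ≤ i := Nat.cast_nonneg i
  have hin' : (i : ℝ) ≤ finrank ℝ V := by exact_mod_cast hin
  have hd : 0 < (finrank ℝ V : ℝ) - r - i := by linarith
  have hq : ((finrank ℝ V : ℝ) - r) / ((finrank ℝ V : ℝ) - r - i) ≤ 4 / ε := by
    rw [div_le_div_iff₀ hd hε]
    nlinarith
  have hq0 : 0 < ((finrank ℝ V : ℝ) - r) / ((finrank ℝ V : ℝ) - r - i) := div_pos (by linarith) hd
  have h7 : 8 * (ε / 16) * i / r ≤ 1 := by
    rw [div_le_one hr0]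
    nlinarith
  rw [Real.exp_add, mul_comm 3]
  refine mul_le_mul ?_ ((Real.exp_le_exp.2 h7).trans ?_) (Real.exp_pos _).le (by positivity)
  · rw [show (24 : ℝ) = (24 : ℕ) by norm_num, Real.exp_nat_mul, Real.exp_log hq0]
    exact pow_le_pow_left₀ hq0.le hq 24
  · linarith [Real.exp_one_lt_d9]

theorem step_PwC {i r : ℕ} {μ ν : Measure V} (h : FP i μ ν) (hi : 1 ≤ i)
    {ε s : ℝ} (hε : 0 < ε) (hε1 : ε ≤ 1) (hr : 16 ≤ r)
    (hrq : 2 * r + i ≤ finrank ℝ V + 1) (hεr : ε * finrank ℝ V ≤ 2 * r) (hs : ε / 4 ≤ s)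
    (hI : Iso μ s) (hI' : Iso ν s) (hbig : 2 ^ 26 / ε ^ 6 ≤ √(finrank ℝ V : ℝ))
    (hbig2 : (1536 / ε ^ 4 + 6) * (4 * √(3 ^ 17 * Km 4) * (4 / ε) ^ 14) ≤ finrank ℝ V)
    {δ : ℝ} (h0 : 0 ≤ δ) (h1 : δ ≤ 1)
    (hN : ∀ U : Submodule ℝ V, r ≤ finrank ℝ U →
      ∫⁻ w, (ENNReal.ofReal (rho δ U w))⁻¹ ∂ν ≤ ENNReal.ofReal (4 * (64 / ε ^ 2)))
    (U : Submodule ℝ V) (hU : r ≤ finrank ℝ U) :
    ∫⁻ w, (ENNReal.ofReal (rho δ U w))⁻¹ ∂μ ≤ ENNReal.ofReal (64 / ε ^ 2) := by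
  have := h.ml.prob
  have hin : i ≤ finrank ℝ V := by omega
  have hn : (0 : ℝ) < finrank ℝ V := by exact_mod_cast (by omega : 0 < finrank ℝ V)
  have hr0 : (0 : ℝ) < r := by exact_mod_cast (by omega : 0 < r)
  have hK := Km_nonneg 4
  obtain ⟨A, hAd⟩ : ∃ A : ℝ, A = 4 * √(3 ^ 17 * Km 4) * (4 / ε) ^ 14 := ⟨_, rfl⟩
  rw [← hAd] at hbig2
  have hA : 0 ≤ A := by rw [hAd]; positivity
  have h2 := rho_moment h.mr h.wr hr h0 (by positivity)
    (det_PwC h.symm hi hε hε1 hr hrq hεr hs hI' hbig h0 h1 hN) U hU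
  rw [← h.el] at h2
  have h3 : 4 * √((2 * finrank ℝ V) ^ 4 * Km 4) * √(3 ^ 16 / (r : ℝ) ^ 4 * (3 * (4 / ε) ^ 24))
      ≤ A := by
    rw [hAd, mul_assoc, mul_assoc 4, ← Real.sqrt_mul (by positivity)]
    refine mul_le_mul_of_nonneg_left (Real.sqrt_le_iff.2 ⟨by positivity, ?_⟩) (by norm_num)
    rw [mul_pow (√_), Real.sq_sqrt (by positivity)]
    have h4 : 2 * (finrank ℝ V : ℝ) / r ≤ 4 / ε := by
      rw [div_le_div_iff₀ hr0 hε]; nlinarith
    calc _ = (2 * (finrank ℝ V : ℝ) / r) ^ 4 * (3 ^ 17 * Km 4 * (4 / ε) ^ 24) := by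
          rw [div_pow (2 * _)]; ring
      _ ≤ (4 / ε) ^ 4 * (3 ^ 17 * Km 4 * (4 / ε) ^ 24) :=
          mul_le_mul_of_nonneg_right (pow_le_pow_left₀ (by positivity) h4 4) (by positivity)
      _ = _ := by ring
  have h5 := rho_small h hi hin (s := ε / 4) (by positivity)
    (fun a ha => hs.trans (hI a ha).1) (by omega) δ U hU
  refine (split_level μ (measurable_rho δ U) (by positivity) (by positivity) hA h5
    (h2.trans (ENNReal.ofReal_le_ofReal h3))).trans (ENNReal.ofReal_le_ofReal ?_)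
  have h6 : ε ^ 2 * finrank ℝ V / 8 ≤ r * (ε / 4) := by nlinarith
  have h7 : 1 / (r * (ε / 4) / (4 * finrank ℝ V)) ≤ 32 / ε ^ 2 := by
    rw [one_div_div, div_le_div_iff₀ (by positivity) (by positivity)]; nlinarith
  have h8 : 24 * (finrank ℝ V : ℝ) / (r * (ε / 4)) ^ 2 ≤ 1536 / ε ^ 4 / finrank ℝ V := by
    calc _ ≤ 24 * (finrank ℝ V : ℝ) / (ε ^ 2 * finrank ℝ V / 8) ^ 2 :=
          div_le_div_of_nonneg_left (by positivity) (by positivity)
            (pow_le_pow_left₀ (by positivity) h6 2)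
      _ = _ := by field_simp; ring
  have h9 : √(24 * (finrank ℝ V : ℝ) / (r * (ε / 4)) ^ 2 + 6 / finrank ℝ V) * √A ≤ 1 := by
    rw [← Real.sqrt_mul (by positivity)]
    refine Real.sqrt_le_iff.2 ⟨zero_le_one, ?_⟩
    rw [one_pow]
    calc _ ≤ (1536 / ε ^ 4 / finrank ℝ V + 6 / finrank ℝ V) * A :=
          mul_le_mul_of_nonneg_right (by linarith) hA
      _ = (1536 / ε ^ 4 + 6) * A / finrank ℝ V := by ring
      _ ≤ 1 := (div_le_one hn).2 hbig2
  have h10 := N_ge_HiD6 hε hε1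
  rw [show 64 / ε ^ 2 = 32 / ε ^ 2 + 32 / ε ^ 2 by ring]
  linarith

theorem sub_poly {i : ℕ} {μ ν : Measure V} (h : FP i μ ν) (hi : 1 ≤ i)
    {ε s : ℝ} (hε : 0 < ε) (hε1 : ε ≤ 1) (hin : (i : ℝ) ≤ (1 - ε) * finrank ℝ V) (hs : ε / 4 ≤ s)
    (hI : Iso μ s) (hI' : Iso ν s) (hbig : 2 ^ 26 / ε ^ 6 ≤ √(finrank ℝ V : ℝ))
    (hbig2 : (1536 / ε ^ 4 + 6) * (4 * √(3 ^ 17 * Km 4) * (4 / ε) ^ 14) ≤ finrank ℝ V) :
    Sub i μ (ε ^ 4 / 1000 * √(finrank ℝ V : ℝ)) := by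
  have := h.ml.prob
  have := h.mr.prob
  have hsn : 0 < √(finrank ℝ V : ℝ) := lt_of_lt_of_le (by positivity) hbig
  have hn : (0 : ℝ) < finrank ℝ V := Real.sqrt_pos.1 hsn
  have hsq : √(finrank ℝ V : ℝ) ^ 2 = finrank ℝ V := Real.sq_sqrt hn.le
  have hb2 : 3072 ≤ ε ^ 4 * finrank ℝ V := by
    have h2 : 2 ^ 26 ≤ √(finrank ℝ V : ℝ) * ε ^ 6 := (div_le_iff₀ (by positivity)).1 hbig
    have h3 : ε ^ 6 ≤ ε ^ 2 := pow_le_pow_of_le_one hε.le hε1 (by norm_num)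
    have h4 : 2 ^ 26 ≤ √(finrank ℝ V : ℝ) * ε ^ 2 :=
      h2.trans (mul_le_mul_of_nonneg_left h3 hsn.le)
    have h5 := pow_le_pow_left₀ (by positivity) h4 2
    rw [mul_pow, hsq] at h5
    nlinarith
  have he4 : ε ^ 4 ≤ ε := by
    calc ε ^ 4 ≤ ε ^ 1 := pow_le_pow_of_le_one hε.le hε1 (by norm_num)
      _ = ε := pow_one ε
  have hq : i + 32 ≤ finrank ℝ V := by
    have : (i : ℝ) + 32 ≤ finrank ℝ V := by nlinarith
    exact_mod_cast this
  obtain ⟨r, hr⟩ : ∃ r : ℕ, r = (finrank ℝ V - i + 1) / 2 := ⟨_, rfl⟩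
  have hr1 : 16 ≤ r := by omega
  have hr2 : 2 * r + i ≤ finrank ℝ V + 1 := by omega
  have hr3 : ε * finrank ℝ V ≤ 2 * r := by
    have h3 : finrank ℝ V ≤ 2 * r + i := by omega
    have h4 : (finrank ℝ V : ℝ) ≤ 2 * r + i := by exact_mod_cast h3
    nlinarith
  intro U hU
  have hU' : r ≤ finrank ℝ U := by omega
  refine ⟨?_, ?_⟩
  · refine le_trans (mul_le_mul_of_nonneg_right (by linarith) hsn.le)
      (low_HiD6 h hi (by omega) hε hr1 hr3 (fun a ha => hs.trans (hI a ha).1) hb2 U hU')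
  have h10 := N_ge_HiD6 hε hε1
  have hN : 1 ≤ 64 / ε ^ 2 := by
    rw [show 64 / ε ^ 2 = 32 / ε ^ 2 + 32 / ε ^ 2 by ring]; linarith
  have hd := dyadic (μ := μ) (ν := ν) (r := r) hN fun δ h0 h1 hh W hW =>
    ⟨step_PwC h hi hε hε1 hr1 hr2 hr3 hs hI hI' hbig hbig2 h0.le h1
        (fun X hX => (hh X hX).2) W hW,
      step_PwC h.symm hi hε hε1 hr1 hr2 hr3 hs hI' hI hbig hbig2 h0.le h1
        (fun X hX => (hh X hX).1) W hW⟩
  have h2 := pU_moment h.mr h.wr hr1 (by positivity)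
    (det_PwC h.symm hi hε hε1 hr1 hr2 hr3 hs hI' hbig le_rfl zero_le_one
      fun X hX => (hd X hX).2.trans (ENNReal.ofReal_le_ofReal (by linarith))) U hU'
  rw [← h.el] at h2
  refine h2.trans ?_
  rw [← ENNReal.ofReal_inv_of_pos (by positivity), ← ENNReal.ofReal_pow (by positivity)]
  refine ENNReal.ofReal_le_ofReal ?_
  have hr0 : (0 : ℝ) < r := by exact_mod_cast (by omega : 0 < r)
  have h8 : (finrank ℝ V : ℝ) / r ≤ 2 / ε := by
    rw [div_le_div_iff₀ hr0 hε]; nlinarith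
  have h9 : (ε ^ 4 / 1000 * √(finrank ℝ V : ℝ)) ^ 8
      = (ε ^ 4 / 1000) ^ 8 * (finrank ℝ V : ℝ) ^ 4 := by
    rw [mul_pow, show (8 : ℕ) = 2 * 4 by rfl, pow_mul (√(finrank ℝ V : ℝ)), hsq]
  rw [inv_pow, h9, ← one_div, le_div_iff₀ (by positivity)]
  calc _ = ((finrank ℝ V : ℝ) / r) ^ 4 * (3 ^ 17 * (4 / ε) ^ 24 * (ε ^ 4 / 1000) ^ 8) := by
        rw [div_pow (finrank ℝ V : ℝ)]; ring
    _ ≤ (2 / ε) ^ 4 * (3 ^ 17 * (4 / ε) ^ 24 * (ε ^ 4 / 1000) ^ 8) :=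
        mul_le_mul_of_nonneg_right (pow_le_pow_left₀ (by positivity) h8 4) (by positivity)
    _ = ε ^ 4 * (2 ^ 4 * 3 ^ 17 * 4 ^ 24 / 1000 ^ 8) := by field_simp
    _ ≤ 1 * 1 := mul_le_mul (he4.trans hε1) (by norm_num) (by positivity) zero_le_one
    _ = 1 := one_mul 1

end Pool.Agent.P.MP_181257_gt
end
end

-- part Pool.Agent.P.MP_181257_gt.HiE1
section

/-! Two mixed moments. -/

set_option autoImplicit false
set_option linter.unusedSectionVars false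
set_option linter.unusedVariables false

open MeasureTheory ProbabilityTheory Module Set Filter Topology
open scoped RealInnerProductSpace ENNReal Pointwise Matrix

noncomputable section

namespace Pool.Agent.P.MP_181257_gt

variable {V : Type} [NormedAddCommGroup V] [InnerProductSpace ℝ V] [FiniteDimensional ℝ V]
  [MeasurableSpace V] [BorelSpace V]

theorem gen_HiE1 {μ : Measure V} {lam K c B : ℝ} (hlam : 0 < lam) (hK : 0 < K) (hc : 0 < c)
    {U : Submodule ℝ V}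
    (hU : ∫⁻ w, (ENNReal.ofReal ‖pU U w‖)⁻¹ ^ 8 ∂μ ≤ (ENNReal.ofReal lam)⁻¹ ^ 8)
    {f g : V → ℝ} {p : ℕ} (hf : ∀ w, 0 ≤ f w) (hg0 : ∀ w, 0 ≤ g w) (hg : Integrable g μ)
    (hB : ∫ w, g w ∂μ + c ≤ B)
    (hpt : ∀ w (r : ℝ), 0 < r → ‖w‖ * (f w * r ^ p) ≤ K * (g w + c * lam ^ 8 * r ^ 8)) :
    ∫⁻ w, ENNReal.ofReal ‖w‖ * (ENNReal.ofReal (f w) * (ENNReal.ofReal ‖pU U w‖)⁻¹ ^ p) ∂μ
      ≤ ENNReal.ofReal (K * B) := by
  have hcl : 0 < c * lam ^ 8 := by positivity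
  have h1 : ∀ w, ENNReal.ofReal ‖w‖ * (ENNReal.ofReal (f w) * (ENNReal.ofReal ‖pU U w‖)⁻¹ ^ p)
      ≤ ENNReal.ofReal K * (ENNReal.ofReal (g w)
        + ENNReal.ofReal (c * lam ^ 8) * (ENNReal.ofReal ‖pU U w‖)⁻¹ ^ 8) := by
    intro w
    rcases (norm_nonneg (pU U w)).eq_or_lt with h0 | h0
    · have e : ENNReal.ofReal K * (ENNReal.ofReal (g w)
          + ENNReal.ofReal (c * lam ^ 8) * (ENNReal.ofReal ‖pU U w‖)⁻¹ ^ 8) = ⊤ := by
        rw [← h0, ENNReal.ofReal_zero, ENNReal.inv_zero, ENNReal.top_pow (by norm_num),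
          ENNReal.mul_top (ENNReal.ofReal_pos.2 hcl).ne', add_top,
          ENNReal.mul_top (ENNReal.ofReal_pos.2 hK).ne']
      rw [e]
      exact le_top
    · have hr : 0 < ‖pU U w‖⁻¹ := inv_pos.2 h0
      rw [← ENNReal.ofReal_inv_of_pos h0, ← ENNReal.ofReal_pow hr.le, ← ENNReal.ofReal_pow hr.le,
        ← ENNReal.ofReal_mul (hf w), ← ENNReal.ofReal_mul (norm_nonneg w),
        ← ENNReal.ofReal_mul hcl.le, ← ENNReal.ofReal_add (hg0 w) (by positivity),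
        ← ENNReal.ofReal_mul hK.le]
      exact ENNReal.ofReal_le_ofReal (hpt w _ hr)
  refine (lintegral_mono h1).trans ?_
  have hI : 0 ≤ ∫ w, g w ∂μ := integral_nonneg hg0
  rw [lintegral_const_mul' _ _ ENNReal.ofReal_ne_top,
    lintegral_add_left' hg.aemeasurable.ennreal_ofReal,
    lintegral_const_mul' _ _ ENNReal.ofReal_ne_top,
    ← ofReal_integral_eq_lintegral_ofReal hg (ae_of_all _ hg0), ENNReal.ofReal_mul hK.le]
  refine mul_le_mul_right ?_ _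
  have h2 : ENNReal.ofReal (c * lam ^ 8) * ∫⁻ w, (ENNReal.ofReal ‖pU U w‖)⁻¹ ^ 8 ∂μ
      ≤ ENNReal.ofReal c := by
    refine (mul_le_mul_right hU _).trans (le_of_eq ?_)
    rw [← ENNReal.ofReal_inv_of_pos hlam, ← ENNReal.ofReal_pow (inv_pos.2 hlam).le,
      ← ENNReal.ofReal_mul hcl.le]
    congr 1
    field_simp
  refine (add_le_add_right h2 _).trans ?_
  rw [← ENNReal.ofReal_add hI hc.le]
  exact ENNReal.ofReal_le_ofReal hB

theorem young_HiE1 (X Y Z : ℝ) : X * (Y * Z) ≤ X ^ 2 / 2 + Y ^ 4 / 4 + Z ^ 4 / 4 := by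
  nlinarith [sq_nonneg (X - Y * Z), sq_nonneg (Y ^ 2 - Z ^ 2)]

theorem mom_a {i : ℕ} {μ ν : Measure V} (h : FP i μ ν) (hn : 1 ≤ finrank ℝ V) {lam : ℝ}
    (hlam : 0 < lam) {U : Submodule ℝ V}
    (hU : ∫⁻ w, (ENNReal.ofReal ‖pU U w‖)⁻¹ ^ 8 ∂μ ≤ (ENNReal.ofReal lam)⁻¹ ^ 8) {l : V}
    (hl : ‖l‖ ≤ 1) :
    ∫⁻ w, ENNReal.ofReal ‖w‖ * (ENNReal.ofReal (⟪l, w⟫ ^ 2) * (ENNReal.ofReal ‖pU U w‖)⁻¹ ^ 2) ∂μ
      ≤ ENNReal.ofReal (√(finrank ℝ V : ℝ) / lam ^ 2 * (1 + Km 4)) := by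
  have hn' : (0 : ℝ) < finrank ℝ V := by exact_mod_cast hn
  have hs : 0 < √(finrank ℝ V : ℝ) := Real.sqrt_pos.2 hn'
  have hs2 : √(finrank ℝ V : ℝ) ^ 2 = finrank ℝ V := Real.sq_sqrt hn'.le
  have I1 := integrable_norm_pow_Tn h.mr h.wr 2
  have I2 := integrable_inner_pow_Tn h.mr h.wr l 8
  have E1 := integral_norm_pow_Tn h.mr h.wr (j := 1) le_rfl
  have E2 := integral_inner_pow_Tn h.mr h.wr l 4
  rw [← h.el] at I1 I2 E1 E2
  have hK := Km_nonneg 4
  refine gen_HiE1 (c := 1 / 4) hlam (by positivity) (by norm_num) hU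
    (f := fun w => ⟪l, w⟫ ^ 2)
    (g := fun w => ‖w‖ ^ 2 / (2 * finrank ℝ V) + ⟪l, w⟫ ^ 8 / 4)
    (fun w => by positivity) (fun w => by positivity) ((I1.div_const _).add (I2.div_const _)) ?_ ?_
  · rw [integral_add (I1.div_const _) (I2.div_const _), integral_div, integral_div]
    have h1 : (∫ w, ‖w‖ ^ 2 ∂μ) / (2 * finrank ℝ V) ≤ 1 / 2 := by
      rw [div_le_iff₀ (by positivity)]
      rw [Km_one] at E1
      norm_num at E1
      linarith
    have h2 : ∫ w, ⟪l, w⟫ ^ 8 ∂μ ≤ Km 4 :=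
      E2.trans (mul_le_of_le_one_right hK (pow_le_one₀ (norm_nonneg _) hl))
    linarith
  · intro w r hr
    have h1 := young_HiE1 (‖w‖ / √(finrank ℝ V : ℝ)) (⟪l, w⟫ ^ 2) ((lam * r) ^ 2)
    have h2 := mul_le_mul_of_nonneg_left h1
      (by positivity : 0 ≤ √(finrank ℝ V : ℝ) / lam ^ 2)
    rw [div_pow, hs2] at h2
    calc _ = √(finrank ℝ V : ℝ) / lam ^ 2 *
          (‖w‖ / √(finrank ℝ V : ℝ) * (⟪l, w⟫ ^ 2 * (lam * r) ^ 2)) := by field_simp
      _ ≤ _ := h2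
      _ = _ := by
        congr 1
        field_simp


theorem mom_b {i : ℕ} {μ ν : Measure V} (h : FP i μ ν) (hn : 1 ≤ finrank ℝ V) {lam : ℝ}
    (hlam : 0 < lam) {U : Submodule ℝ V}
    (hU : ∫⁻ w, (ENNReal.ofReal ‖pU U w‖)⁻¹ ^ 8 ∂μ ≤ (ENNReal.ofReal lam)⁻¹ ^ 8) {l : V}
    (hl : ‖l‖ ≤ 1) :
    ∫⁻ w, ENNReal.ofReal ‖w‖ * (ENNReal.ofReal (⟪l, w⟫ ^ 4) * (ENNReal.ofReal ‖pU U w‖)⁻¹ ^ 4) ∂μ
      ≤ ENNReal.ofReal (√(finrank ℝ V : ℝ) / lam ^ 4 * (2 + Km 8)) := by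
  have hn' : (0 : ℝ) < finrank ℝ V := by exact_mod_cast hn
  have hs : 0 < √(finrank ℝ V : ℝ) := Real.sqrt_pos.2 hn'
  have hs2 : √(finrank ℝ V : ℝ) ^ 2 = finrank ℝ V := Real.sq_sqrt hn'.le
  have I1 := integrable_norm_pow_Tn h.mr h.wr 4
  have I2 := integrable_inner_pow_Tn h.mr h.wr l 16
  have E1 := integral_norm_pow_Tn h.mr h.wr (j := 2) (by norm_num)
  have E2 := integral_inner_pow_Tn h.mr h.wr l 8
  rw [← h.el] at I1 I2 E1 E2
  have hK := Km_nonneg 8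
  refine gen_HiE1 (c := 1 / 2) hlam (by positivity) (by norm_num) hU
    (f := fun w => ⟪l, w⟫ ^ 4)
    (g := fun w => ‖w‖ ^ 4 / (4 * (finrank ℝ V : ℝ) ^ 2) + ⟪l, w⟫ ^ 16 / 4)
    (fun w => by positivity) (fun w => by positivity) ((I1.div_const _).add (I2.div_const _)) ?_ ?_
  · rw [integral_add (I1.div_const _) (I2.div_const _), integral_div, integral_div]
    have h1 : (∫ w, ‖w‖ ^ 4 ∂μ) / (4 * (finrank ℝ V : ℝ) ^ 2) ≤ 3 / 4 := by
      rw [div_le_iff₀ (by positivity)]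
      rw [Km_two] at E1
      norm_num at E1
      linarith
    have h2 : ∫ w, ⟪l, w⟫ ^ 16 ∂μ ≤ Km 8 :=
      E2.trans (mul_le_of_le_one_right hK (pow_le_one₀ (norm_nonneg _) hl))
    linarith
  · intro w r hr
    have h1 := young_HiE1 ((lam * r) ^ 4) (‖w‖ / √(finrank ℝ V : ℝ)) (⟪l, w⟫ ^ 4)
    have h2 := mul_le_mul_of_nonneg_left h1
      (by positivity : 0 ≤ √(finrank ℝ V : ℝ) / lam ^ 4)
    have hs4 : √(finrank ℝ V : ℝ) ^ 4 = (finrank ℝ V : ℝ) ^ 2 := by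
      rw [show (4 : ℕ) = 2 * 2 from rfl, pow_mul, hs2]
    rw [div_pow, hs4] at h2
    calc _ = √(finrank ℝ V : ℝ) / lam ^ 4 *
          ((lam * r) ^ 4 * (‖w‖ / √(finrank ℝ V : ℝ) * ⟪l, w⟫ ^ 4)) := by field_simp
      _ ≤ _ := h2
      _ = _ := by
        congr 1
        field_simp
        ring

end Pool.Agent.P.MP_181257_gt
end
end

-- part Pool.Agent.P.MP_181257_gt.HiE2
section

/-! Negative moments of the normal part of a fixed vector. -/

set_option autoImplicit false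
set_option linter.unusedSectionVars false
set_option linter.unusedVariables false

open MeasureTheory ProbabilityTheory Module Set Filter Topology
open scoped RealInnerProductSpace ENNReal Pointwise Matrix

noncomputable section

namespace Pool.Agent.P.MP_181257_gt

variable {V : Type} [NormedAddCommGroup V] [InnerProductSpace ℝ V] [FiniteDimensional ℝ V]
  [MeasurableSpace V] [BorelSpace V]

theorem point_HiE2 {k : ℕ} (x : Fin k → V) (u a : V) (hp : Pj k x u ≠ 0)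
    (ha : Pj (k + 1) (Fin.cons u x : Fin (k + 1) → V) a ≠ 0) {t : ℝ} (ht0 : 0 ≤ t)
    (ht : t ≤ ‖a‖) :
    ENNReal.ofReal t * (ENNReal.ofReal ‖Pj (k + 1) (Fin.cons a x : Fin (k + 1) → V) u‖)⁻¹ ^ 4
      ≤ (ENNReal.ofReal ‖Pj k x u‖)⁻¹ ^ 4 * (ENNReal.ofReal t
        + 2 * (ENNReal.ofReal ‖a‖ * (ENNReal.ofReal (⟪‖Pj k x u‖⁻¹ • Pj k x u, a⟫ ^ 2)
          * (ENNReal.ofReal ‖Pj (k + 1) (Fin.cons u x : Fin (k + 1) → V) a‖)⁻¹ ^ 2))
        + ENNReal.ofReal ‖a‖ * (ENNReal.ofReal (⟪‖Pj k x u‖⁻¹ • Pj k x u, a⟫ ^ 4)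
          * (ENNReal.ofReal ‖Pj (k + 1) (Fin.cons u x : Fin (k + 1) → V) a‖)⁻¹ ^ 4)) := by
  have h1 := norm_Pj_swap a u x
  have h2 := norm_sq_Pj_cons u x a
  have hP : 0 < ‖Pj k x u‖ := norm_pos_iff.2 hp
  have hQ : 0 < ‖Pj (k + 1) (Fin.cons u x : Fin (k + 1) → V) a‖ := norm_pos_iff.2 ha
  rw [real_inner_smul_left]
  have hN0 := norm_nonneg (Pj (k + 1) (Fin.cons a x : Fin (k + 1) → V) u)
  have hA0 := norm_nonneg (Pj k x a)
  have ha0 := norm_nonneg a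
  generalize ‖Pj (k + 1) (Fin.cons a x : Fin (k + 1) → V) u‖ = N at *
  generalize ‖Pj (k + 1) (Fin.cons u x : Fin (k + 1) → V) a‖ = Q at *
  generalize ‖Pj k x a‖ = A at *
  generalize ⟪Pj k x u, a⟫ = w at *
  generalize ‖Pj k x u‖ = P at *
  generalize ‖a‖ = s at *
  have hNA : 0 < N * A := h1 ▸ mul_pos hP hQ
  have hN : 0 < N := lt_of_le_of_ne hN0 (by rintro rfl; simp at hNA)
  have hA : 0 < A := lt_of_le_of_ne hA0 (by rintro rfl; simp at hNA)
  have e1 : N⁻¹ = P⁻¹ * (A * Q⁻¹) := by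
    field_simp
    linarith
  have e2 : (A * Q⁻¹) ^ 2 = 1 + (P⁻¹ * w) ^ 2 * Q⁻¹ ^ 2 := by
    have : A ^ 2 = Q ^ 2 + w ^ 2 / P ^ 2 := by linarith
    rw [mul_pow, this]
    field_simp
  have two : (2 : ℝ≥0∞) = ENNReal.ofReal 2 := by simp
  rw [← ENNReal.ofReal_inv_of_pos hN, ← ENNReal.ofReal_inv_of_pos hP,
    ← ENNReal.ofReal_inv_of_pos hQ, two]
  simp only [← ENNReal.ofReal_pow (inv_nonneg.2 hN.le), ← ENNReal.ofReal_pow (inv_nonneg.2 hP.le),
    ← ENNReal.ofReal_pow (inv_nonneg.2 hQ.le)]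
  rw [← ENNReal.ofReal_mul ht0, ← ENNReal.ofReal_mul (sq_nonneg _),
    ← ENNReal.ofReal_mul (p := (P⁻¹ * w) ^ 4) (by positivity), ← ENNReal.ofReal_mul ha0,
    ← ENNReal.ofReal_mul ha0, ← ENNReal.ofReal_mul (by norm_num : (0 : ℝ) ≤ 2),
    ← ENNReal.ofReal_add ht0 (by positivity), ← ENNReal.ofReal_add (by positivity) (by positivity),
    ← ENNReal.ofReal_mul (by positivity)]
  refine ENNReal.ofReal_le_ofReal ?_
  have e3 : t * N⁻¹ ^ 4 = P⁻¹ ^ 4 * (t * ((A * Q⁻¹) ^ 2) ^ 2) := by rw [e1]; ring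
  rw [e3, e2]
  refine mul_le_mul_of_nonneg_left ?_ (by positivity)
  have e4 : (P⁻¹ * w) ^ 4 * Q⁻¹ ^ 4 = ((P⁻¹ * w) ^ 2 * Q⁻¹ ^ 2) ^ 2 := by ring
  rw [e4]
  have hy : 0 ≤ (P⁻¹ * w) ^ 2 * Q⁻¹ ^ 2 := by positivity
  generalize (P⁻¹ * w) ^ 2 * Q⁻¹ ^ 2 = y at *
  nlinarith [mul_le_mul_of_nonneg_right ht hy, mul_le_mul_of_nonneg_right ht (sq_nonneg y)]

theorem arith_HiE2 {n c K4 K8 : ℝ} (hn : 1 ≤ n) (hc : 0 < c) (hc1 : c ≤ 1) (h4 : 0 ≤ K4)
    (h8 : 0 ≤ K8) :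
    2 * (√n / (c * √n) ^ 2 * (1 + K4)) + √n / (c * √n) ^ 4 * (2 + K8)
      ≤ (4 + 2 * K4 + K8) / c ^ 5 / n * (c * √n) := by
  have hn0 : 0 < n := by linarith
  have hs : √n ^ 2 = n := Real.sq_sqrt hn0.le
  have hs0 : 0 < √n := Real.sqrt_pos.2 hn0
  have e1 : (c * √n) ^ 2 = c ^ 2 * n := by rw [mul_pow, hs]
  have e2 : (c * √n) ^ 4 = c ^ 4 * n ^ 2 := by
    rw [show (c * √n) ^ 4 = ((c * √n) ^ 2) ^ 2 by ring, e1]; ring
  rw [e1, e2]
  have k1 : √n / (c ^ 2 * n) ≤ √n / (c ^ 4 * n) := by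
    refine div_le_div_of_nonneg_left hs0.le (by positivity) ?_
    refine mul_le_mul_of_nonneg_right ?_ hn0.le
    exact pow_le_pow_of_le_one hc.le hc1 (by norm_num)
  have k2 : √n / (c ^ 4 * n ^ 2) ≤ √n / (c ^ 4 * n) := by
    refine div_le_div_of_nonneg_left hs0.le (by positivity) ?_
    refine mul_le_mul_of_nonneg_left (by nlinarith) (by positivity)
  have e3 : (4 + 2 * K4 + K8) / c ^ 5 / n * (c * √n)
      = 2 * (√n / (c ^ 4 * n) * (1 + K4)) + √n / (c ^ 4 * n) * (2 + K8) := by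
    field_simp
    ring
  rw [e3]
  have k3 := mul_le_mul_of_nonneg_right k1 (by linarith : 0 ≤ 1 + K4)
  have k4 := mul_le_mul_of_nonneg_right k2 (by linarith : 0 ≤ 2 + K8)
  linarith

theorem neg4 {i : ℕ} {μ ν : Measure V} (h : FP i μ ν) (hin : i + 1 ≤ finrank ℝ V) {c : ℝ}
    (hc : 0 < c) (hc1 : c ≤ 1) (hS : Sub i μ (c * √(finrank ℝ V : ℝ))) :
    Neg4 i μ (Real.exp ((4 + 2 * Km 4 + Km 8) / c ^ 5)) := by
  intro u hu
  set n := finrank ℝ V with hn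
  set κ := (4 + 2 * Km 4 + Km 8) / c ^ 5 with hκ
  have hn1 : 1 ≤ n := by omega
  have hn1' : (1 : ℝ) ≤ n := by exact_mod_cast hn1
  have h4 := Km_nonneg 4
  have h8 := Km_nonneg 8
  have hκ0 : 0 ≤ κ := by positivity
  have hlam : 0 < c * √(n : ℝ) := mul_pos hc (Real.sqrt_pos.2 (by linarith))
  have key := peel_Fr h.ml (d := n - i) (K := i) (by omega) (Wr_pos_of_succ h.ml h.posl)
    (B := ENNReal.ofReal (1 + κ / n)) (fun k x => (ENNReal.ofReal ‖Pj k x u‖)⁻¹ ^ 4)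
    (fun k => ((measurable_Pj k measurable_id measurable_const).norm.ennreal_ofReal.inv).pow_const 4)
    (fun x => by simp [Pj, hu]) ?_
  · refine key.trans ?_
    rw [← ENNReal.ofReal_pow (by positivity)]
    refine ENNReal.ofReal_le_ofReal ?_
    calc (1 + κ / n) ^ i ≤ Real.exp (κ / n) ^ i :=
          pow_le_pow_left₀ (by positivity) (by linarith [Real.add_one_le_exp (κ / n)]) i
      _ = Real.exp (i * (κ / n)) := (Real.exp_nat_mul _ _).symm
      _ ≤ Real.exp κ := by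
          refine Real.exp_le_exp.2 ?_
          have : (i : ℝ) ≤ n := by exact_mod_cast (by omega : i ≤ n)
          calc (i : ℝ) * (κ / n) ≤ n * (κ / n) := mul_le_mul_of_nonneg_right this (by positivity)
            _ = κ := by field_simp
  intro k hk x U hU
  have hmU : Measurable fun a : V => ENNReal.ofReal ‖pU U a‖ :=
    (pU U).continuous.measurable.norm.ennreal_ofReal
  have hI : ENNReal.ofReal (c * √(n : ℝ)) ≤ ∫⁻ a, ENNReal.ofReal ‖pU U a‖ ∂μ := by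
    rw [← ofReal_integral_eq_lintegral_ofReal
      (h.ml.int.mono' (pU U).continuous.norm.aestronglyMeasurable
        (ae_of_all _ fun a => by rw [norm_norm]; exact norm_pU_le U a))
      (ae_of_all _ fun a => norm_nonneg _)]
    exact ENNReal.ofReal_le_ofReal (hS U (by omega)).1
  by_cases hp : Pj k x u = 0
  · have h1 : ENNReal.ofReal (1 + κ / n) ≠ 0 := (ENNReal.ofReal_pos.2 (by positivity)).ne'
    have h2 : ∫⁻ a, ENNReal.ofReal ‖pU U a‖ ∂μ ≠ 0 :=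
      ((ENNReal.ofReal_pos.2 hlam).trans_le hI).ne'
    simp only [hp, norm_zero, ENNReal.ofReal_zero, ENNReal.inv_zero]
    rw [ENNReal.top_pow (by norm_num), ENNReal.mul_top h1, ENNReal.top_mul h2]
    exact le_top
  have hU2 := (hS (nrm (Fin.cons u x : Fin (k + 1) → V))
    (by have := finrank_nrm_ge (Fin.cons u x : Fin (k + 1) → V); omega)).2
  have hl : ‖‖Pj k x u‖⁻¹ • Pj k x u‖ ≤ 1 := by
    rw [norm_smul, norm_inv, norm_norm, inv_mul_cancel₀ (norm_ne_zero_iff.2 hp)]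
  have ka := mom_a h hn1 hlam hU2 hl
  have kb := mom_b h hn1 hlam hU2 hl
  rw [← Pj_eq] at hU2 ka kb
  have hm2 : Measurable fun a : V =>
      (ENNReal.ofReal ‖Pj (k + 1) (Fin.cons u x : Fin (k + 1) → V) a‖)⁻¹ :=
    (Pj (k + 1) (Fin.cons u x : Fin (k + 1) → V)).continuous.measurable.norm.ennreal_ofReal.inv
  have hae : ∀ᵐ a ∂μ, Pj (k + 1) (Fin.cons u x : Fin (k + 1) → V) a ≠ 0 := by
    have := ae_lt_top (hm2.pow_const 8) (ne_top_of_le_ne_top
      (ENNReal.pow_ne_top (ENNReal.inv_ne_top.2 (ENNReal.ofReal_pos.2 hlam).ne')) hU2)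
    filter_upwards [this] with a ha h0
    simp [h0] at ha
  have hin : Measurable fun a : V => ⟪‖Pj k x u‖⁻¹ • Pj k x u, a⟫ := by fun_prop
  have hma : Measurable fun a : V => ENNReal.ofReal ‖pU U a‖ + 2 * (ENNReal.ofReal ‖a‖ *
      (ENNReal.ofReal (⟪‖Pj k x u‖⁻¹ • Pj k x u, a⟫ ^ 2) *
        (ENNReal.ofReal ‖Pj (k + 1) (Fin.cons u x : Fin (k + 1) → V) a‖)⁻¹ ^ 2)) :=
    hmU.add ((measurable_norm.ennreal_ofReal.mul
      ((hin.pow_const 2).ennreal_ofReal.mul (hm2.pow_const 2))).const_mul 2)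
  have hfin : (ENNReal.ofReal ‖Pj k x u‖)⁻¹ ^ 4 ≠ ∞ :=
    ENNReal.pow_ne_top (ENNReal.inv_ne_top.2 (ENNReal.ofReal_pos.2 (norm_pos_iff.2 hp)).ne')
  refine (lintegral_mono_ae (hae.mono fun a ha =>
    point_HiE2 x u a hp ha (norm_nonneg _) (norm_pU_le U a))).trans ?_
  rw [lintegral_const_mul' _ _ hfin, lintegral_add_left hma,
    lintegral_add_left hmU, lintegral_const_mul' _ _ (by simp), mul_comm (ENNReal.ofReal (1 + κ / n)),
    mul_assoc]
  refine mul_le_mul_right ?_ _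
  rw [ENNReal.ofReal_add zero_le_one (by positivity), ENNReal.ofReal_one, add_mul, one_mul,
    add_assoc]
  refine add_le_add_right ?_ _
  refine (add_le_add (mul_le_mul_right ka 2) kb).trans ?_
  refine le_trans ?_ (mul_le_mul_right hI _)
  have two : (2 : ℝ≥0∞) = ENNReal.ofReal 2 := by simp
  rw [two, ← ENNReal.ofReal_mul (by norm_num : (0 : ℝ) ≤ 2),
    ← ENNReal.ofReal_add (by positivity) (by positivity), ← ENNReal.ofReal_mul (by positivity)]
  exact ENNReal.ofReal_le_ofReal (arith_HiE2 hn1' hc hc1 h4 h8)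

end Pool.Agent.P.MP_181257_gt
end
end

-- part Pool.Agent.P.MP_181257_gt.HiE3
section

/-! Concentration of the normal part of a fixed vector. -/

set_option autoImplicit false
set_option linter.unusedSectionVars false
set_option linter.unusedVariables false

open MeasureTheory ProbabilityTheory Module Set Filter Topology
open scoped RealInnerProductSpace ENNReal Pointwise Matrix

noncomputable section

namespace Pool.Agent.P.MP_181257_gt

variable {V : Type} [NormedAddCommGroup V] [InnerProductSpace ℝ V] [FiniteDimensional ℝ V]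
  [MeasurableSpace V] [BorelSpace V]

theorem meas_HiE3 (k : ℕ) (u : V) : Measurable fun x : Fin k → V => ‖Pj k x u‖ ^ 2 :=
  ((measurable_Pj k measurable_id measurable_const).norm).pow_const 2

theorem bd_HiE3 (k : ℕ) {u : V} (hu : ‖u‖ = 1) : Bd fun x : Fin k → V => ‖Pj k x u‖ ^ 2 := by
  refine ⟨meas_HiE3 k u, 1, fun x => ?_⟩
  have h1 := norm_Pj_le x u
  rw [hu] at h1
  rw [abs_of_nonneg (sq_nonneg _)]
  exact pow_le_one₀ (norm_nonneg _) h1

theorem point_HiE3 {k : ℕ} (x : Fin k → V) (a u : V) :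
    ENNReal.ofReal ‖Pj k x a‖ * ENNReal.ofReal
      ((‖Pj (k + 1) (Fin.cons a x : Fin (k + 1) → V) u‖ ^ 2 - ‖Pj k x u‖ ^ 2) ^ 2)
      ≤ ENNReal.ofReal ‖a‖ * (ENNReal.ofReal (⟪Pj k x u, a⟫ ^ 4)
        * (ENNReal.ofReal ‖pU (nrm x) a‖)⁻¹ ^ 4) := by
  rw [← Pj_eq]
  rcases (norm_nonneg (Pj k x a)).eq_or_lt with h0 | h0
  · rw [← h0]
    simp
  · refine mul_le_mul' (ENNReal.ofReal_le_ofReal (norm_Pj_le x a)) (le_of_eq ?_)
    rw [← ENNReal.ofReal_inv_of_pos h0, ← ENNReal.ofReal_pow (inv_nonneg.mpr h0.le),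
      ← ENNReal.ofReal_mul (by positivity), norm_sq_Pj_cons]
    have h1 : ⟪Pj k x a, u⟫ = ⟪Pj k x u, a⟫ := by
      rw [inner_Pj_comm, real_inner_comm]
    rw [h1]
    congr 1
    field_simp
    ring

theorem Zq_ge_HiE3 {k : ℕ} {μ : Measure V} (hμ : Mom μ) (h : 0 < Wr k μ) {lam : ℝ}
    (hS : Sub (k + 1) μ lam) : lam ≤ Zq k μ := by
  have := hμ.prob
  have := Fr_prob hμ h
  have hi := integrable_norm_Pj_prod hμ h
  rw [Zq_eq hμ h, integral_prod _ hi]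
  have h1 : ∫ _x, lam ∂(Fr k μ) = lam := by simp
  rw [← h1]
  refine integral_mono (integrable_const _) hi.integral_prod_left fun x => ?_
  have h2 := (hS (nrm x) (by have := finrank_nrm_ge x; omega)).1
  simp only [Pj_eq]
  exact h2

theorem var_point {i : ℕ} {μ ν : Measure V} (h : FP i μ ν) (hi : 1 ≤ i)
    (hin : i + 1 ≤ finrank ℝ V) {c : ℝ} (hc : 0 < c) (hS : Sub i μ (c * √(finrank ℝ V : ℝ)))
    {u : V} (hu : ‖u‖ = 1) :
    ∫ x, (‖Pj i x u‖ ^ 2 - Sg ν u u) ^ 2 ∂(Fr i μ) ≤ (2 + Km 8) / (c ^ 5 * finrank ℝ V) := by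
  obtain ⟨k, rfl⟩ : ∃ k, i = k + 1 := ⟨i - 1, by omega⟩
  have hw := h.wl
  have hw' := Wr_pos_of_succ h.ml hw
  have := h.ml.prob
  have := Fr_prob h.ml hw
  have := Fr_prob h.ml hw'
  have hn : (0 : ℝ) < finrank ℝ V := by
    have : 0 < finrank ℝ V := by omega
    exact_mod_cast this
  set s : ℝ := √(finrank ℝ V : ℝ) with hs
  have hs0 : 0 < s := Real.sqrt_pos.mpr hn
  have hs2 : s ^ 2 = finrank ℝ V := Real.sq_sqrt hn.le
  have hlam : 0 < c * s := mul_pos hc hs0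
  have hK : 0 ≤ 2 + Km 8 := by have := Km_nonneg 8; linarith
  have hmean : Sg ν u u = ∫ y, ‖Pj (k + 1) y u‖ ^ 2 ∂(Fr (k + 1) μ) := by
    have := Sg_Tn h.ml hw u u
    rw [← h.er] at this
    rw [this, SS_self]
  have hes := efron_stein h.ml hw (bd_HiE3 (k + 1) hu)
    (fun σ x => by simp only [Pj_perm]) (bd_HiE3 k hu)
  have htail : Measurable fun x : Fin (k + 1) → V => (Fin.tail x : Fin k → V) :=
    measurable_pi_lambda _ fun j => measurable_pi_apply _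
  have hm : Measurable fun x : Fin (k + 1) → V =>
      (‖Pj (k + 1) x u‖ ^ 2 - ‖Pj k (Fin.tail x) u‖ ^ 2) ^ 2 :=
    ((meas_HiE3 (k + 1) u).sub ((meas_HiE3 k u).comp htail)).pow_const 2
  have hL : ∫⁻ x, ENNReal.ofReal ((‖Pj (k + 1) x u‖ ^ 2 - ‖Pj k (Fin.tail x) u‖ ^ 2) ^ 2)
      ∂(Fr (k + 1) μ) ≤ ENNReal.ofReal ((c * s)⁻¹ * (s / (c * s) ^ 4 * (2 + Km 8))) := by
    rw [lintegral_Fr_succ h.ml hw hm.ennreal_ofReal,
      ENNReal.ofReal_mul (inv_nonneg.mpr hlam.le), ENNReal.ofReal_inv_of_pos hlam]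
    refine mul_le_mul' (ENNReal.inv_le_inv.mpr
      (ENNReal.ofReal_le_ofReal (Zq_ge_HiE3 h.ml hw' hS))) ?_
    have h1 : ∫⁻ _x, ENNReal.ofReal (s / (c * s) ^ 4 * (2 + Km 8)) ∂(Fr k μ)
        = ENNReal.ofReal (s / (c * s) ^ 4 * (2 + Km 8)) := by simp
    rw [← h1]
    refine lintegral_mono fun x => ?_
    have h2 := (hS (nrm x) (by have := finrank_nrm_ge x; omega)).2
    have h3 : ‖Pj k x u‖ ≤ 1 := by
      have := norm_Pj_le x u
      rwa [hu] at this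
    refine le_trans (lintegral_mono fun a => ?_) (mom_b h (by omega) hlam h2 h3)
    simp only [Fin.tail_cons]
    exact point_HiE3 x a u
  have hR : ∫ x, (‖Pj (k + 1) x u‖ ^ 2 - ‖Pj k (Fin.tail x) u‖ ^ 2) ^ 2 ∂(Fr (k + 1) μ)
      ≤ (c * s)⁻¹ * (s / (c * s) ^ 4 * (2 + Km 8)) := by
    rw [integral_eq_lintegral_of_nonneg_ae (ae_of_all _ fun x => sq_nonneg _)
      hm.aestronglyMeasurable]
    exact ENNReal.toReal_le_of_le_ofReal (by positivity) hL
  rw [hmean]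
  refine hes.trans ?_
  have hk : (k + 1 : ℝ) ≤ s ^ 2 := by
    rw [hs2]
    have : k + 1 ≤ finrank ℝ V := by omega
    exact_mod_cast this
  have hB : 0 ≤ (c * s)⁻¹ * (s / (c * s) ^ 4 * (2 + Km 8)) := by positivity
  calc (k + 1 : ℝ) * ∫ x, (‖Pj (k + 1) x u‖ ^ 2 - ‖Pj k (Fin.tail x) u‖ ^ 2) ^ 2 ∂(Fr (k + 1) μ)
      ≤ (k + 1 : ℝ) * ((c * s)⁻¹ * (s / (c * s) ^ 4 * (2 + Km 8))) :=
        mul_le_mul_of_nonneg_left hR (by positivity)
    _ ≤ s ^ 2 * ((c * s)⁻¹ * (s / (c * s) ^ 4 * (2 + Km 8))) :=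
        mul_le_mul_of_nonneg_right hk hB
    _ = (2 + Km 8) / (c ^ 5 * finrank ℝ V) := by
        rw [← hs2]
        field_simp

end Pool.Agent.P.MP_181257_gt
end
end

-- part Pool.Agent.P.MP_181257_gt.HiE4
section

/-! Basic properties of the second derivative. -/

set_option autoImplicit false
set_option linter.unusedSectionVars false
set_option linter.unusedVariables false

open MeasureTheory ProbabilityTheory Module Set Filter Topology
open scoped RealInnerProductSpace ENNReal Pointwise Matrix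

noncomputable section

namespace Pool.Agent.P.MP_181257_gt

variable {V : Type} [NormedAddCommGroup V] [InnerProductSpace ℝ V] [FiniteDimensional ℝ V]
  [MeasurableSpace V] [BorelSpace V]

theorem young_HiE4 {p : ℕ} (hp : p ≤ 4) {y : ℝ} (hy : 0 ≤ y) :
    y ^ p ≤ (1 - (p : ℝ) / 4) + (p : ℝ) / 4 * y ^ 4 := by
  interval_cases p
  · simp
  · norm_num
    nlinarith [sq_nonneg (y ^ 2 - 1), sq_nonneg (y - 1)]
  · norm_num
    nlinarith [sq_nonneg (y ^ 2 - 1)]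
  · norm_num
    nlinarith [mul_nonneg (sq_nonneg (y - 1)) (show 0 ≤ 3 * y ^ 2 + 2 * y + 1 by positivity)]
  · norm_num

theorem ofReal_inv_HiE4 (y : ℝ) (hy : 0 ≤ y) :
    ENNReal.ofReal (y⁻¹ ^ 4) ≤ (ENNReal.ofReal y)⁻¹ ^ 4 := by
  rcases hy.eq_or_lt with h | h
  · subst h
    simp
  · rw [ENNReal.ofReal_pow (by positivity), ENNReal.ofReal_inv_of_pos h]

theorem unit_diff_HiE4 (p q : V) (hp : p ≠ 0) (hq : q ≠ 0) :
    ‖‖p‖⁻¹ • p - ‖q‖⁻¹ • q‖ ≤ 2 * ‖p - q‖ * ‖p‖⁻¹ := by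
  have hp0 : 0 < ‖p‖ := norm_pos_iff.mpr hp
  have hq0 : 0 < ‖q‖ := norm_pos_iff.mpr hq
  have e : ‖p‖⁻¹ • p - ‖q‖⁻¹ • q = ‖p‖⁻¹ • (p - q) + (‖p‖⁻¹ - ‖q‖⁻¹) • q := by
    rw [smul_sub, sub_smul]; abel
  have h1 : ‖‖p‖⁻¹ • (p - q)‖ = ‖p - q‖ * ‖p‖⁻¹ := by
    rw [norm_smul, Real.norm_of_nonneg (by positivity), mul_comm]
  have h2 : ‖(‖p‖⁻¹ - ‖q‖⁻¹) • q‖ ≤ ‖p - q‖ * ‖p‖⁻¹ := by
    have e2 : ‖p‖⁻¹ - ‖q‖⁻¹ = (‖q‖ - ‖p‖) * (‖p‖⁻¹ * ‖q‖⁻¹) := by field_simp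
    have h3 : |‖q‖ - ‖p‖| ≤ ‖p - q‖ := by
      rw [abs_sub_comm]; exact abs_norm_sub_norm_le p q
    rw [norm_smul, Real.norm_eq_abs, e2, abs_mul, abs_of_pos (show 0 < ‖p‖⁻¹ * ‖q‖⁻¹ by positivity)]
    calc |‖q‖ - ‖p‖| * (‖p‖⁻¹ * ‖q‖⁻¹) * ‖q‖ = |‖q‖ - ‖p‖| * ‖p‖⁻¹ := by field_simp
      _ ≤ ‖p - q‖ * ‖p‖⁻¹ := by gcongr
  rw [e]
  refine (norm_add_le _ _).trans ?_
  linarith

theorem lip_core_HiE4 (p q A B : V) (hp : p ≠ 0) (hq : q ≠ 0) (hA : ‖A‖ ≤ 1) (hB : ‖B‖ ≤ 1) :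
    |(⟪A, B⟫ / ‖p‖ - ⟪A, p⟫ * ⟪B, p⟫ / ‖p‖ ^ 3) - (⟪A, B⟫ / ‖q‖ - ⟪A, q⟫ * ⟪B, q⟫ / ‖q‖ ^ 3)|
      ≤ 6 * ‖p - q‖ * (‖p‖⁻¹ * ‖q‖⁻¹) := by
  have hp0 : 0 < ‖p‖ := norm_pos_iff.mpr hp
  have hq0 : 0 < ‖q‖ := norm_pos_iff.mpr hq
  set p1 := ‖p‖⁻¹ • p with hp1
  set q1 := ‖q‖⁻¹ • q with hq1
  have np : ‖p1‖ = 1 := by
    rw [hp1, norm_smul, Real.norm_of_nonneg (by positivity)]; field_simp
  have nq : ‖q1‖ = 1 := by
    rw [hq1, norm_smul, Real.norm_of_nonneg (by positivity)]; field_simp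
  have hd : ‖p1 - q1‖ ≤ 2 * ‖p - q‖ * ‖p‖⁻¹ := unit_diff_HiE4 p q hp hq
  have inn : ∀ X Y : V, ‖X‖ ≤ 1 → |⟪X, Y⟫| ≤ ‖Y‖ := fun X Y hX =>
    (abs_real_inner_le_norm _ _).trans (by nlinarith [norm_nonneg Y])
  have c0 : |⟪A, B⟫| ≤ 1 := (inn A B hA).trans hB
  have a1 : |⟪A, p1⟫| ≤ 1 := (inn A p1 hA).trans np.le
  have b1 : |⟪B, p1⟫| ≤ 1 := (inn B p1 hB).trans np.le
  have a2 : |⟪A, q1⟫| ≤ 1 := (inn A q1 hA).trans nq.le
  have da : |⟪A, p1⟫ - ⟪A, q1⟫| ≤ ‖p1 - q1‖ := by rw [← inner_sub_right]; exact inn A _ hA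
  have db : |⟪B, p1⟫ - ⟪B, q1⟫| ≤ ‖p1 - q1‖ := by rw [← inner_sub_right]; exact inn B _ hB
  have e1 : ⟪A, p⟫ * ⟪B, p⟫ / ‖p‖ ^ 3 = ⟪A, p1⟫ * ⟪B, p1⟫ * ‖p‖⁻¹ := by
    rw [hp1, real_inner_smul_right, real_inner_smul_right]; field_simp
  have e2 : ⟪A, q⟫ * ⟪B, q⟫ / ‖q‖ ^ 3 = ⟪A, q1⟫ * ⟪B, q1⟫ * ‖q‖⁻¹ := by
    rw [hq1, real_inner_smul_right, real_inner_smul_right]; field_simp
  rw [e1, e2]
  have e3 : (⟪A, B⟫ / ‖p‖ - ⟪A, p1⟫ * ⟪B, p1⟫ * ‖p‖⁻¹) - (⟪A, B⟫ / ‖q‖ - ⟪A, q1⟫ * ⟪B, q1⟫ * ‖q‖⁻¹)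
      = (⟪A, B⟫ - ⟪A, p1⟫ * ⟪B, p1⟫) * (‖p‖⁻¹ - ‖q‖⁻¹)
        - ((⟪A, p1⟫ - ⟪A, q1⟫) * ⟪B, p1⟫ + ⟪A, q1⟫ * (⟪B, p1⟫ - ⟪B, q1⟫)) * ‖q‖⁻¹ := by
    ring
  rw [e3]
  have f1 : |⟪A, B⟫ - ⟪A, p1⟫ * ⟪B, p1⟫| ≤ 2 := by
    refine (abs_sub _ _).trans ?_
    rw [abs_mul]
    nlinarith [abs_nonneg ⟪A, p1⟫, abs_nonneg ⟪B, p1⟫]
  have f2 : |‖p‖⁻¹ - ‖q‖⁻¹| ≤ ‖p - q‖ * (‖p‖⁻¹ * ‖q‖⁻¹) := by
    have e4 : ‖p‖⁻¹ - ‖q‖⁻¹ = (‖q‖ - ‖p‖) * (‖p‖⁻¹ * ‖q‖⁻¹) := by field_simp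
    have h3 : |‖q‖ - ‖p‖| ≤ ‖p - q‖ := by
      rw [abs_sub_comm]; exact abs_norm_sub_norm_le p q
    rw [e4, abs_mul, abs_of_pos (show 0 < ‖p‖⁻¹ * ‖q‖⁻¹ by positivity)]
    gcongr
  have f3 : |(⟪A, p1⟫ - ⟪A, q1⟫) * ⟪B, p1⟫ + ⟪A, q1⟫ * (⟪B, p1⟫ - ⟪B, q1⟫)| ≤ 2 * ‖p1 - q1‖ := by
    refine (abs_add_le _ _).trans ?_
    rw [abs_mul, abs_mul]
    nlinarith [abs_nonneg (⟪A, p1⟫ - ⟪A, q1⟫), abs_nonneg (⟪B, p1⟫ - ⟪B, q1⟫), abs_nonneg ⟪B, p1⟫,
      abs_nonneg ⟪A, q1⟫, norm_nonneg (p1 - q1)]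
  refine (abs_sub _ _).trans ?_
  rw [abs_mul, abs_mul, abs_of_pos (show 0 < ‖q‖⁻¹ by positivity)]
  have g1 : |⟪A, B⟫ - ⟪A, p1⟫ * ⟪B, p1⟫| * |‖p‖⁻¹ - ‖q‖⁻¹| ≤ 2 * (‖p - q‖ * (‖p‖⁻¹ * ‖q‖⁻¹)) :=
    mul_le_mul f1 f2 (abs_nonneg _) (by norm_num)
  have g2 : |(⟪A, p1⟫ - ⟪A, q1⟫) * ⟪B, p1⟫ + ⟪A, q1⟫ * (⟪B, p1⟫ - ⟪B, q1⟫)| * ‖q‖⁻¹
      ≤ 2 * (2 * ‖p - q‖ * ‖p‖⁻¹) * ‖q‖⁻¹ :=
    mul_le_mul_of_nonneg_right (f3.trans (by linarith)) (by positivity)
  nlinarith [g1, g2]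

theorem abs_Phi_le {T : V →L[ℝ] V} (hT : ∀ v, ‖T v‖ ≤ ‖v‖) (u a b : V) :
    |Phi T u a b| ≤ 2 * (‖a‖ * ‖b‖) / ‖T u‖ := by
  have ha := hT a
  have hb := hT b
  by_cases h0 : T u = 0
  · simp [Phi, h0]
  have hp : 0 < ‖T u‖ := norm_pos_iff.mpr h0
  have h1 : |⟪T a, T b⟫| ≤ ‖a‖ * ‖b‖ :=
    (abs_real_inner_le_norm _ _).trans (mul_le_mul ha hb (norm_nonneg _) (norm_nonneg _))
  have h2 : |⟪T a, T u⟫| ≤ ‖a‖ * ‖T u‖ :=
    (abs_real_inner_le_norm _ _).trans (mul_le_mul_of_nonneg_right ha (norm_nonneg _))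
  have h3 : |⟪T b, T u⟫| ≤ ‖b‖ * ‖T u‖ :=
    (abs_real_inner_le_norm _ _).trans (mul_le_mul_of_nonneg_right hb (norm_nonneg _))
  have h4 : |⟪T a, T u⟫ * ⟪T b, T u⟫| ≤ (‖a‖ * ‖T u‖) * (‖b‖ * ‖T u‖) := by
    rw [abs_mul]
    exact mul_le_mul h2 h3 (abs_nonneg _) (by positivity)
  unfold Phi
  refine (abs_sub _ _).trans ?_
  rw [abs_div, abs_div, abs_of_pos hp, abs_of_pos (pow_pos hp 3)]
  have h5 : |⟪T a, T b⟫| / ‖T u‖ ≤ ‖a‖ * ‖b‖ / ‖T u‖ := by gcongr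
  have h6 : |⟪T a, T u⟫ * ⟪T b, T u⟫| / ‖T u‖ ^ 3 ≤ ‖a‖ * ‖b‖ / ‖T u‖ := by
    refine (div_le_div_of_nonneg_right h4 (by positivity)).trans (le_of_eq ?_)
    field_simp
  have h7 : 2 * (‖a‖ * ‖b‖) / ‖T u‖ = ‖a‖ * ‖b‖ / ‖T u‖ + ‖a‖ * ‖b‖ / ‖T u‖ := by ring
  linarith

theorem Phi_lip {T : V →L[ℝ] V} (hT : ∀ v, ‖T v‖ ≤ ‖v‖) {u u' : V} (hu : T u ≠ 0)
    (hu' : T u' ≠ 0) {a b : V} (ha : ‖a‖ ≤ 1) (hb : ‖b‖ ≤ 1) :
    |Phi T u a b - Phi T u' a b| ≤ 10 * ‖u - u'‖ * (‖T u‖⁻¹ ^ 2 + ‖T u'‖⁻¹ ^ 2) := by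
  have hd : ‖T u - T u'‖ ≤ ‖u - u'‖ := by rw [← map_sub]; exact hT _
  have h := lip_core_HiE4 (T u) (T u') (T a) (T b) hu hu' ((hT a).trans ha) ((hT b).trans hb)
  unfold Phi
  refine h.trans ?_
  have hx : 0 ≤ ‖T u‖⁻¹ := by positivity
  have hy : 0 ≤ ‖T u'‖⁻¹ := by positivity
  have h1 : ‖T u‖⁻¹ * ‖T u'‖⁻¹ ≤ ‖T u‖⁻¹ ^ 2 + ‖T u'‖⁻¹ ^ 2 := by
    nlinarith [sq_nonneg (‖T u‖⁻¹ - ‖T u'‖⁻¹), mul_nonneg hx hy]
  have h2 : 0 ≤ ‖T u‖⁻¹ * ‖T u'‖⁻¹ := mul_nonneg hx hy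
  calc 6 * ‖T u - T u'‖ * (‖T u‖⁻¹ * ‖T u'‖⁻¹)
      ≤ 10 * ‖u - u'‖ * (‖T u‖⁻¹ * ‖T u'‖⁻¹) := by
        refine mul_le_mul_of_nonneg_right ?_ h2
        nlinarith [norm_nonneg (u - u'), norm_nonneg (T u - T u')]
    _ ≤ 10 * ‖u - u'‖ * (‖T u‖⁻¹ ^ 2 + ‖T u'‖⁻¹ ^ 2) :=
        mul_le_mul_of_nonneg_left h1 (by positivity)

theorem measurable_Phi (i : ℕ) (a b : V) :
    Measurable fun p : (Fin i → V) × V => Phi (Pj i p.1) p.2 a b := by
  have h1 : Measurable fun p : (Fin i → V) × V => Pj i p.1 a :=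
    measurable_Pj i measurable_fst measurable_const
  have h2 : Measurable fun p : (Fin i → V) × V => Pj i p.1 b :=
    measurable_Pj i measurable_fst measurable_const
  have h3 : Measurable fun p : (Fin i → V) × V => Pj i p.1 p.2 :=
    measurable_Pj i measurable_fst measurable_snd
  unfold Phi
  exact ((h1.inner h2).div h3.norm).sub
    (((h1.inner h3).mul (h2.inner h3)).div (h3.norm.pow_const 3))

theorem Neg4.ae_ne {i : ℕ} {μ : Measure V} {C : ℝ} (h : Neg4 i μ C) {u : V} (hu : ‖u‖ = 1) :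
    ∀ᵐ x ∂(Fr i μ), Pj i x u ≠ 0 := by
  have hm : Measurable fun x : Fin i → V => (ENNReal.ofReal ‖Pj i x u‖)⁻¹ ^ 4 :=
    ((measurable_Pj i measurable_id measurable_const).norm.ennreal_ofReal.inv).pow_const 4
  have h1 := ae_lt_top hm (ne_top_of_le_ne_top ENNReal.ofReal_ne_top (h u hu))
  filter_upwards [h1] with x hx
  intro h0
  rw [h0] at hx
  simp at hx

theorem Neg4.inv_pow {i : ℕ} {μ : Measure V} (hμ : Mom μ) (hW : 0 < Wr i μ) {C : ℝ} (hC : 1 ≤ C)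
    (h : Neg4 i μ C) {u : V} (hu : ‖u‖ = 1) {p : ℕ} (hp : p ≤ 4) :
    Integrable (fun x => ‖Pj i x u‖⁻¹ ^ p) (Fr i μ) ∧
      ∫ x, ‖Pj i x u‖⁻¹ ^ p ∂(Fr i μ) ≤ C := by
  haveI := Fr_prob hμ hW
  have hm : Measurable fun x : Fin i → V => ‖Pj i x u‖⁻¹ :=
    (measurable_Pj i measurable_id measurable_const).norm.inv
  have h4 : ∫⁻ x, ENNReal.ofReal (‖Pj i x u‖⁻¹ ^ 4) ∂(Fr i μ) ≤ ENNReal.ofReal C :=
    (lintegral_mono fun x => ofReal_inv_HiE4 _ (norm_nonneg _)).trans (h u hu)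
  have hi4 : Integrable (fun x => ‖Pj i x u‖⁻¹ ^ 4) (Fr i μ) := by
    refine ⟨(hm.pow_const 4).aestronglyMeasurable, ?_⟩
    rw [hasFiniteIntegral_iff_ofReal (Eventually.of_forall fun x => by positivity)]
    exact h4.trans_lt ENNReal.ofReal_lt_top
  have hb4 : ∫ x, ‖Pj i x u‖⁻¹ ^ 4 ∂(Fr i μ) ≤ C := by
    rw [integral_eq_lintegral_of_nonneg_ae (Eventually.of_forall fun x => by positivity)
      hi4.aestronglyMeasurable]
    exact ENNReal.toReal_le_of_le_ofReal (by linarith) h4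
  have hp4 : (p : ℝ) ≤ 4 := by exact_mod_cast hp
  have hp0 : (0 : ℝ) ≤ p := Nat.cast_nonneg p
  have hg : Integrable (fun x => (1 - (p : ℝ) / 4) + (p : ℝ) / 4 * ‖Pj i x u‖⁻¹ ^ 4) (Fr i μ) :=
    (integrable_const _).add (hi4.const_mul _)
  have hle : ∀ x : Fin i → V, ‖Pj i x u‖⁻¹ ^ p
      ≤ (1 - (p : ℝ) / 4) + (p : ℝ) / 4 * ‖Pj i x u‖⁻¹ ^ 4 :=
    fun x => young_HiE4 hp (by positivity)
  have hip : Integrable (fun x => ‖Pj i x u‖⁻¹ ^ p) (Fr i μ) := by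
    refine hg.mono' (hm.pow_const p).aestronglyMeasurable (Eventually.of_forall fun x => ?_)
    rw [Real.norm_of_nonneg (by positivity)]
    exact hle x
  refine ⟨hip, (integral_mono hip hg hle).trans ?_⟩
  rw [integral_add (integrable_const _) (hi4.const_mul _), integral_const, integral_const_mul]
  simp only [probReal_univ, smul_eq_mul, one_mul]
  nlinarith [mul_le_mul_of_nonneg_left hb4 (show (0 : ℝ) ≤ p / 4 by positivity)]

theorem Neg4.lintegral_ne_top {i : ℕ} {μ : Measure V} (hμ : Mom μ) (hW : 0 < Wr i μ) {C : ℝ}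
    (h : Neg4 i μ C) {u : V} (hu : ‖u‖ = 1) :
    ∫⁻ x, (ENNReal.ofReal ‖Pj i x u‖)⁻¹ ∂(Fr i μ) ≠ ∞ := by
  haveI := Fr_prob hμ hW
  have hm : Measurable fun x : Fin i → V => (ENNReal.ofReal ‖Pj i x u‖)⁻¹ ^ 4 :=
    ((measurable_Pj i measurable_id measurable_const).norm.ennreal_ofReal.inv).pow_const 4
  have h1 : ∀ y : ℝ≥0∞, y ≤ 1 + y ^ 4 := by
    intro y
    rcases le_total y 1 with hy | hy
    · exact hy.trans le_self_add
    · exact (le_self_pow hy (by norm_num)).trans le_add_self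
  refine ne_top_of_le_ne_top ?_ (lintegral_mono fun x => h1 _)
  rw [lintegral_add_right _ hm, lintegral_const, measure_univ]
  exact ENNReal.add_ne_top.mpr ⟨by simp, ne_top_of_le_ne_top ENNReal.ofReal_ne_top (h u hu)⟩

theorem integrable_Phi {i : ℕ} {μ : Measure V} (hμ : Mom μ) (hW : 0 < Wr i μ) {C : ℝ}
    (hC : 1 ≤ C) (h : Neg4 i μ C) {u : V} (hu : ‖u‖ = 1) (a b : V) :
    Integrable (fun x => Phi (Pj i x) u a b) (Fr i μ) := by
  have h1 := (h.inv_pow hμ hW hC hu (p := 1) (by norm_num)).1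
  have hm : Measurable fun x : Fin i → V => Phi (Pj i x) u a b :=
    (measurable_Phi i a b).comp (measurable_id.prodMk measurable_const)
  refine (h1.const_mul (2 * (‖a‖ * ‖b‖))).mono' hm.aestronglyMeasurable
    (Eventually.of_forall fun x => ?_)
  rw [Real.norm_eq_abs, pow_one, ← div_eq_mul_inv]
  exact abs_Phi_le (norm_Pj_le x) u a b

theorem abs_MK_le {i : ℕ} {μ : Measure V} (hμ : Mom μ) (hW : 0 < Wr i μ) {C : ℝ}
    (hC : 1 ≤ C) (h : Neg4 i μ C) {u : V} (hu : ‖u‖ = 1) (a b : V) :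
    |MK i μ u a b| ≤ 2 * C * (‖a‖ * ‖b‖) := by
  obtain ⟨h1, h2⟩ := h.inv_pow hμ hW hC hu (p := 1) (by norm_num)
  have h3 : ‖MK i μ u a b‖ ≤ ∫ x, 2 * (‖a‖ * ‖b‖) * ‖Pj i x u‖⁻¹ ^ 1 ∂(Fr i μ) := by
    refine norm_integral_le_of_norm_le (h1.const_mul _) (Eventually.of_forall fun x => ?_)
    rw [Real.norm_eq_abs, pow_one, ← div_eq_mul_inv]
    exact abs_Phi_le (norm_Pj_le x) u a b
  rw [integral_const_mul, Real.norm_eq_abs] at h3
  have h4 := mul_le_mul_of_nonneg_left h2 (show 0 ≤ 2 * (‖a‖ * ‖b‖) by positivity)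
  linarith

theorem MK_lip {i : ℕ} {μ : Measure V} (hμ : Mom μ) (hW : 0 < Wr i μ) {C : ℝ}
    (hC : 1 ≤ C) (h : Neg4 i μ C) {u u' : V} (hu : ‖u‖ = 1) (hu' : ‖u'‖ = 1) {a b : V}
    (ha : ‖a‖ ≤ 1) (hb : ‖b‖ ≤ 1) : |MK i μ u a b - MK i μ u' a b| ≤ 20 * C * ‖u - u'‖ := by
  obtain ⟨h1, h2⟩ := h.inv_pow hμ hW hC hu (p := 2) (by norm_num)
  obtain ⟨h1', h2'⟩ := h.inv_pow hμ hW hC hu' (p := 2) (by norm_num)
  unfold MK
  rw [← integral_sub (integrable_Phi hμ hW hC h hu a b) (integrable_Phi hμ hW hC h hu' a b)]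
  have h3 : ‖∫ x, (Phi (Pj i x) u a b - Phi (Pj i x) u' a b) ∂(Fr i μ)‖
      ≤ ∫ x, 10 * ‖u - u'‖ * (‖Pj i x u‖⁻¹ ^ 2 + ‖Pj i x u'‖⁻¹ ^ 2) ∂(Fr i μ) := by
    refine norm_integral_le_of_norm_le ((h1.add h1').const_mul _) ?_
    filter_upwards [h.ae_ne hu, h.ae_ne hu'] with x hx hx'
    rw [Real.norm_eq_abs]
    exact Phi_lip (norm_Pj_le x) hx hx' ha hb
  rw [integral_const_mul, integral_add h1 h1', Real.norm_eq_abs] at h3
  have h4 := mul_le_mul_of_nonneg_left (add_le_add h2 h2')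
    (show 0 ≤ 10 * ‖u - u'‖ by positivity)
  linarith

theorem MK_hom (i : ℕ) (μ : Measure V) {t : ℝ} (ht : 0 < t) (u a b : V) :
    MK i μ (t • u) a b = t⁻¹ * MK i μ u a b := by
  unfold MK
  rw [← integral_const_mul]
  refine integral_congr_ae (Eventually.of_forall fun x => ?_)
  simp only [Phi, map_smul, norm_smul, Real.norm_of_nonneg ht.le, real_inner_smul_right]
  by_cases h0 : ‖Pj i x u‖ = 0
  · simp [h0]
  · have := ht.ne'
    field_simp

theorem measurable_MK {i : ℕ} {μ : Measure V} (hμ : Mom μ) (hW : 0 < Wr i μ) (a b : V) :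
    Measurable fun u => MK i μ u a b := by
  haveI := Fr_prob hμ hW
  exact ((measurable_Phi i a b).stronglyMeasurable.integral_prod_left'
    (μ := Fr i μ)).measurable

end Pool.Agent.P.MP_181257_gt
end
end

-- part Pool.Agent.P.MP_181257_gt.HiE5
section

/-! Pinching. -/

set_option autoImplicit false
set_option linter.unusedSectionVars false
set_option linter.unusedVariables false

open MeasureTheory ProbabilityTheory Module Set Filter Topology
open scoped RealInnerProductSpace ENNReal Pointwise Matrix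

noncomputable section

namespace Pool.Agent.P.MP_181257_gt

variable {V : Type} [NormedAddCommGroup V] [InnerProductSpace ℝ V] [FiniteDimensional ℝ V]
  [MeasurableSpace V] [BorelSpace V]

theorem young_HiE5 {η : ℝ} (hη : 0 < η) (y z : ℝ) : |y| * z ≤ (y ^ 2 / η + η * z ^ 2) / 2 := by
  have h1 : 0 ≤ (|y| - η * z) ^ 2 / η := by positivity
  have h2 : (|y| - η * z) ^ 2 / η = y ^ 2 / η + η * z ^ 2 - 2 * (|y| * z) := by
    rw [← sq_abs y]; field_simp; ring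
  linarith

theorem point_HiE5 {A B c σ η ya yb : ℝ} (hA : 0 < A) (hσ : 0 < σ) (hη : 0 < η)
    (hc : |c| ≤ A) (hc2 : 2 * c = ya - yb) :
    |B / A - c * c / A ^ 3 - √σ| ≤ ((B - σ) ^ 2 / η + η * A⁻¹ ^ 2) / 2
      + ((A ^ 2 - σ) ^ 2 / η + η * A⁻¹ ^ 2) / 2
      + (((ya - σ) ^ 2 / η + η * A⁻¹ ^ 4) / 2 + ((yb - σ) ^ 2 / η + η * A⁻¹ ^ 4) / 2) / 2 := by
  have hs : 0 < √σ := Real.sqrt_pos.2 hσ
  have hss : √σ ^ 2 = σ := Real.sq_sqrt hσ.le
  have hAi : 0 < A⁻¹ := inv_pos.2 hA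
  have e1 : B / A - c * c / A ^ 3 - √σ
      = (B - σ) * A⁻¹ + (√σ * (√σ - A)) * A⁻¹ - c * c / A ^ 3 := by
    have : √σ * (√σ - A) = σ - √σ * A := by rw [mul_sub, ← sq, hss]
    rw [this]; field_simp; ring
  have h1 : |(B - σ) * A⁻¹| ≤ ((B - σ) ^ 2 / η + η * A⁻¹ ^ 2) / 2 := by
    rw [abs_mul, abs_of_pos hAi]; exact young_HiE5 hη _ _
  have h2 : |(√σ * (√σ - A)) * A⁻¹| ≤ ((A ^ 2 - σ) ^ 2 / η + η * A⁻¹ ^ 2) / 2 := by
    refine le_trans ?_ (young_HiE5 hη (A ^ 2 - σ) A⁻¹)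
    rw [abs_mul, abs_of_pos hAi]
    refine mul_le_mul_of_nonneg_right ?_ hAi.le
    have e : A ^ 2 - σ = -((√σ + A) * (√σ - A)) := by nlinarith
    rw [e, abs_neg, abs_mul, abs_mul, abs_of_pos hs, abs_of_pos (by linarith : 0 < √σ + A)]
    exact mul_le_mul_of_nonneg_right (by linarith) (abs_nonneg _)
  have h3 : |c * c / A ^ 3| ≤ |c| * A⁻¹ ^ 2 := by
    rw [abs_div, abs_mul, abs_of_pos (pow_pos hA 3), div_le_iff₀ (pow_pos hA 3)]
    have : |c| * A⁻¹ ^ 2 * A ^ 3 = |c| * A := by field_simp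
    rw [this]
    exact mul_le_mul_of_nonneg_left hc (abs_nonneg _)
  have h4 : |c| ≤ (|ya - σ| + |yb - σ|) / 2 := by
    have e : c = ((ya - σ) - (yb - σ)) / 2 := by linarith
    rw [e, abs_div, abs_two]
    exact div_le_div_of_nonneg_right (abs_sub _ _) (by norm_num)
  have h5 := young_HiE5 hη (ya - σ) (A⁻¹ ^ 2)
  have h6 := young_HiE5 hη (yb - σ) (A⁻¹ ^ 2)
  have e4 : (A⁻¹ ^ 2) ^ 2 = A⁻¹ ^ 4 := by ring
  rw [e4] at h5 h6
  have h7 : |c| * A⁻¹ ^ 2 ≤ (|ya - σ| * A⁻¹ ^ 2 + |yb - σ| * A⁻¹ ^ 2) / 2 := by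
    have := mul_le_mul_of_nonneg_right h4 (pow_pos hAi 2).le
    linarith
  rw [e1]
  have t1 := abs_sub ((B - σ) * A⁻¹ + (√σ * (√σ - A)) * A⁻¹) (c * c / A ^ 3)
  have t2 := abs_add_le ((B - σ) * A⁻¹) ((√σ * (√σ - A)) * A⁻¹)
  linarith

theorem int_sq_HiE5 {i : ℕ} {μ : Measure V} (hμ : Mom μ) (hW : 0 < Wr i μ) {σ : ℝ} (hσ : 0 < σ)
    (hσ1 : σ ≤ 1) {u : V} (hu : ‖u‖ = 1) :
    Integrable (fun x => (‖Pj i x u‖ ^ 2 - σ) ^ 2) (Fr i μ) := by
  have := Fr_prob hμ hW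
  have hm : Measurable fun x : Fin i → V => Pj i x u :=
    measurable_Pj i measurable_id measurable_const
  refine Integrable.of_bound (C := 1) ?_ (Eventually.of_forall fun x => ?_)
  · exact ((hm.norm.pow_const 2).sub_const σ |>.pow_const 2).aestronglyMeasurable
  · have h1 : ‖Pj i x u‖ ≤ 1 := hu ▸ norm_Pj_le x u
    have h0 := norm_nonneg (Pj i x u)
    have h2 : ‖Pj i x u‖ ^ 2 ≤ 1 := by nlinarith
    have h3 : 0 ≤ ‖Pj i x u‖ ^ 2 := by positivity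
    rw [Real.norm_eq_abs, abs_of_nonneg (sq_nonneg _)]
    nlinarith

theorem pinch {i : ℕ} {μ : Measure V} (hμ : Mom μ) (hW : 0 < Wr i μ) {C σ η : ℝ} (hC : 1 ≤ C)
    (h : Neg4 i μ C) (hσ : 0 < σ) (hσ1 : σ ≤ 1) (hη : 0 < η)
    (hv : ∀ u : V, ‖u‖ = 1 → ∫ x, (‖Pj i x u‖ ^ 2 - σ) ^ 2 ∂(Fr i μ) ≤ η ^ 2) {u v : V}
    (hu : ‖u‖ = 1) (hv1 : ‖v‖ = 1) (huv : ⟪u, v⟫ = 0) :
    |MK i μ u v v - √σ| ≤ 3 * η * C / σ := by
  have := Fr_prob hμ hW
  set t : ℝ := (√2)⁻¹ with ht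
  have ht2 : t ^ 2 = 1 / 2 := by
    rw [ht, inv_pow, Real.sq_sqrt (by norm_num)]; norm_num
  have ht0 : 0 < t := by positivity
  have hna : ‖t • (u + v)‖ = 1 := by
    have : ‖t • (u + v)‖ ^ 2 = 1 := by
      rw [norm_smul, mul_pow, Real.norm_eq_abs, sq_abs, ht2, norm_add_sq_real, hu, hv1, huv]
      norm_num
    exact (pow_eq_one_iff_of_nonneg (norm_nonneg _) two_ne_zero).1 this
  have hnb : ‖t • (u - v)‖ = 1 := by
    have : ‖t • (u - v)‖ ^ 2 = 1 := by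
      rw [norm_smul, mul_pow, Real.norm_eq_abs, sq_abs, ht2, norm_sub_sq_real, hu, hv1, huv]
      norm_num
    exact (pow_eq_one_iff_of_nonneg (norm_nonneg _) two_ne_zero).1 this
  have iu := int_sq_HiE5 hμ hW hσ hσ1 hu
  have iv := int_sq_HiE5 hμ hW hσ hσ1 hv1
  have ia := int_sq_HiE5 hμ hW hσ hσ1 hna
  have ib := int_sq_HiE5 hμ hW hσ hσ1 hnb
  obtain ⟨i2, b2⟩ := h.inv_pow hμ hW hC hu (p := 2) (by norm_num)
  obtain ⟨i4, b4⟩ := h.inv_pow hμ hW hC hu (p := 4) le_rfl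
  have iP := integrable_Phi hμ hW hC h hu v v
  have e0 : MK i μ u v v - √σ = ∫ x, (Phi (Pj i x) u v v - √σ) ∂(Fr i μ) := by
    rw [integral_sub iP (integrable_const _), MK]; simp
  have key : ∀ {w : V} {p : ℕ}, Integrable (fun x => (‖Pj i x w‖ ^ 2 - σ) ^ 2) (Fr i μ) →
      ‖w‖ = 1 → Integrable (fun x => ‖Pj i x u‖⁻¹ ^ p) (Fr i μ) →
      ∫ x, ‖Pj i x u‖⁻¹ ^ p ∂(Fr i μ) ≤ C →
      Integrable (fun x => ((‖Pj i x w‖ ^ 2 - σ) ^ 2 / η + η * ‖Pj i x u‖⁻¹ ^ p) / 2) (Fr i μ) ∧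
      ∫ x, ((‖Pj i x w‖ ^ 2 - σ) ^ 2 / η + η * ‖Pj i x u‖⁻¹ ^ p) / 2 ∂(Fr i μ) ≤ η * C := by
    intro w p iw hw ip bp
    refine ⟨((iw.div_const η).add (ip.const_mul η)).div_const 2, ?_⟩
    rw [integral_div, integral_add (iw.div_const η) (ip.const_mul η), integral_div,
      integral_const_mul]
    have h1 : (∫ x, (‖Pj i x w‖ ^ 2 - σ) ^ 2 ∂(Fr i μ)) / η ≤ η := by
      rw [div_le_iff₀ hη, ← sq]; exact hv w hw
    have h2 := mul_le_mul_of_nonneg_left bp hη.le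
    have h3 := mul_le_mul_of_nonneg_left hC hη.le
    linarith
  obtain ⟨j1, c1⟩ := key iv hv1 i2 b2
  obtain ⟨j2, c2'⟩ := key iu hu i2 b2
  obtain ⟨j3, c3⟩ := key ia hna i4 b4
  obtain ⟨j4, c4⟩ := key ib hnb i4 b4
  have main : |∫ x, (Phi (Pj i x) u v v - √σ) ∂(Fr i μ)| ≤ 3 * η * C := by
    rw [← Real.norm_eq_abs]
    refine (norm_integral_le_of_norm_le ((j1.add j2).add ((j3.add j4).div_const 2)) ?_).trans ?_
    · filter_upwards [h.ae_ne hu] with x hx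
      have hA : 0 < ‖Pj i x u‖ := norm_pos_iff.2 hx
      have hc : |⟪Pj i x v, Pj i x u⟫| ≤ ‖Pj i x u‖ := by
        refine (abs_real_inner_le_norm _ _).trans ?_
        have h1 : ‖Pj i x v‖ ≤ 1 := hv1 ▸ norm_Pj_le x v
        nlinarith
      have hc2 : 2 * ⟪Pj i x v, Pj i x u⟫
          = ‖Pj i x (t • (u + v))‖ ^ 2 - ‖Pj i x (t • (u - v))‖ ^ 2 := by
        rw [map_smul, map_smul, map_add, map_sub, norm_smul, norm_smul, mul_pow, mul_pow,
          Real.norm_eq_abs, sq_abs, ht2, norm_add_sq_real, norm_sub_sq_real, real_inner_comm]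
        ring
      have := point_HiE5 (B := ‖Pj i x v‖ ^ 2) hA hσ hη hc hc2
      rw [Real.norm_eq_abs, Phi, real_inner_self_eq_norm_sq]
      simpa only [Pi.add_apply] using this
    · have a1 := integral_add (j1.add j2) ((j3.add j4).div_const 2)
      have a2 := integral_add j1 j2
      have a3 := integral_add j3 j4
      simp only [Pi.add_apply] at a1 ⊢
      rw [a1, a2, integral_div 2 fun x =>
        ((‖Pj i x (t • (u + v))‖ ^ 2 - σ) ^ 2 / η + η * ‖Pj i x u‖⁻¹ ^ 4) / 2 +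
          ((‖Pj i x (t • (u - v))‖ ^ 2 - σ) ^ 2 / η + η * ‖Pj i x u‖⁻¹ ^ 4) / 2, a3]
      linarith
  rw [e0]
  refine main.trans ?_
  rw [le_div_iff₀ hσ]
  have : 0 ≤ 3 * η * C := by positivity
  nlinarith

end Pool.Agent.P.MP_181257_gt
end
end

-- part Pool.Agent.P.MP_181257_gt.HiE6
section

/-! The a priori estimates. -/

set_option autoImplicit false
set_option linter.unusedSectionVars false
set_option linter.unusedVariables false

open MeasureTheory ProbabilityTheory Module Set Filter Topology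
open scoped RealInnerProductSpace ENNReal Pointwise Matrix

noncomputable section

namespace Pool.Agent.P.MP_181257_gt

variable {V : Type} [NormedAddCommGroup V] [InnerProductSpace ℝ V] [FiniteDimensional ℝ V]
  [MeasurableSpace V] [BorelSpace V]

theorem shift_HiE6 {i : ℕ} {μ : Measure V} (hμ : Mom μ) (hW : 0 < Wr i μ) {u : V} (hu : ‖u‖ = 1)
    (a b : ℝ) : ∫ x, (‖Pj i x u‖ ^ 2 - b) ^ 2 ∂(Fr i μ)
      ≤ 2 * ∫ x, (‖Pj i x u‖ ^ 2 - a) ^ 2 ∂(Fr i μ) + 2 * (a - b) ^ 2 := by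
  have := Fr_prob hμ hW
  have hm : Measurable fun x : Fin i → V => Pj i x u :=
    measurable_Pj i measurable_id measurable_const
  have hI : ∀ t : ℝ, Integrable (fun x : Fin i → V => (‖Pj i x u‖ ^ 2 - t) ^ 2) (Fr i μ) := by
    intro t
    refine Integrable.of_bound (C := 2 + 2 * t ^ 2)
      (((hm.norm.pow_const 2).sub_const t).pow_const 2).aestronglyMeasurable
      (Eventually.of_forall fun x => ?_)
    have h1 : ‖Pj i x u‖ ≤ 1 := hu ▸ norm_Pj_le x u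
    have h2 : ‖Pj i x u‖ ^ 2 ≤ 1 := by nlinarith [norm_nonneg (Pj i x u)]
    have h3 : 0 ≤ ‖Pj i x u‖ ^ 2 := sq_nonneg _
    rw [Real.norm_eq_abs, abs_of_nonneg (sq_nonneg _)]
    nlinarith [sq_nonneg (‖Pj i x u‖ ^ 2 + t)]
  calc ∫ x, (‖Pj i x u‖ ^ 2 - b) ^ 2 ∂(Fr i μ)
      ≤ ∫ x, (2 * (‖Pj i x u‖ ^ 2 - a) ^ 2 + 2 * (a - b) ^ 2) ∂(Fr i μ) := by
        refine integral_mono (hI b) (((hI a).const_mul 2).add (integrable_const _)) fun x => ?_
        nlinarith [sq_nonneg (‖Pj i x u‖ ^ 2 - a - (a - b))]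
    _ = _ := by
        rw [integral_add ((hI a).const_mul 2) (integrable_const _), integral_const_mul]
        simp

theorem ar1_HiE6 {ε η C σ : ℝ} (hε : 0 < ε) (hη : 0 < η) (hC : 1 ≤ C) (h1 : ε / 2 ≤ σ)
    (h2 : σ ≤ 1) : 3 * (η * (ε / 2) ^ 2 / (3 * C)) * C / σ ≤ η * √σ := by
  have hσ : 0 < σ := (half_pos hε).trans_le h1
  have p2 : σ ≤ √σ := by
    apply Real.le_sqrt_of_sq_le
    nlinarith
  have : 3 * (η * (ε / 2) ^ 2 / (3 * C)) * C = η * (ε / 2) ^ 2 := by field_simp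
  rw [this, div_le_iff₀ hσ]
  have q1 : (ε / 2) ^ 2 ≤ σ ^ 2 := pow_le_pow_left₀ (half_pos hε).le h1 2
  have q2 : σ ^ 2 ≤ √σ * σ := by nlinarith
  nlinarith

theorem ar2_HiE6 {K c e n : ℝ} (hc : 0 < c) (he : 0 < e) (hn : 0 < n)
    (h : 4 * K / (c * e ^ 2) ≤ n) : K / (c * n) ≤ e ^ 2 / 4 := by
  have := (div_le_iff₀ (by positivity)).1 h
  rw [div_le_div_iff₀ (by positivity) (by norm_num)]
  nlinarith

theorem ar3_HiE6 {ε n i : ℝ} (hε : 0 < ε) (hn : 1 ≤ n) (hi : 0 ≤ i) (h : 2 / ε ≤ n)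
    (hin : i ≤ (1 - ε) * n) : i + 1 ≤ n ∧ ε / 2 ≤ (n - i - 1) / n ∧ (n - i - 1) / n ≤ 1 := by
  have hnpos : (0 : ℝ) < n := by linarith
  have b1 : 2 ≤ ε * n := by
    have := (div_le_iff₀ hε).1 h
    linarith
  have b2 : ε / 2 * n ≤ n - i - 1 := by linarith
  refine ⟨by linarith, (le_div_iff₀ hnpos).2 b2, ?_⟩
  rw [div_le_one hnpos]
  linarith

theorem apriori {ε η : ℝ} (hε : 0 < ε) (hη : 0 < η) : ∃ n₀ : ℕ, ∀ n : ℕ, n₀ ≤ n →
    ∀ (i : ℕ) (μ ν : Measure (En n)), FP i μ ν → 1 ≤ i → (i : ℝ) ≤ (1 - ε) * n →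
      ∃ C s : ℝ, 1 ≤ C ∧ 0 < s ∧ Neg4 i μ C ∧ ∀ u v : En n, ‖u‖ = 1 → ‖v‖ = 1 → ⟪u, v⟫ = 0 →
        (1 - η) * s ≤ MK i μ u v v ∧ MK i μ u v v ≤ (1 + η) * s := by
  obtain ⟨c, hc, hc1, n₁, hsub⟩ := negsub hε
  obtain ⟨C, hCdef⟩ : ∃ C : ℝ, C = Real.exp ((4 + 2 * Km 4 + Km 8) / c ^ 5) := ⟨_, rfl⟩
  have hK4 := Km_nonneg 4
  have hK8 := Km_nonneg 8
  have hC : 1 ≤ C := hCdef ▸ Real.one_le_exp (by positivity)
  obtain ⟨e, hedef⟩ : ∃ e : ℝ, e = η * (ε / 2) ^ 2 / (3 * C) := ⟨_, rfl⟩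
  have he : 0 < e := by rw [hedef]; positivity
  obtain ⟨n₂, hiso⟩ := isotropy hε (half_pos he)
  obtain ⟨n₃, hn₃⟩ := exists_nat_ge (2 / ε)
  obtain ⟨n₄, hn₄⟩ := exists_nat_ge (4 * (2 + Km 8) / (c ^ 5 * e ^ 2))
  refine ⟨n₁ + n₂ + n₃ + n₄ + 1, fun n hn i μ ν h hi hin => ?_⟩
  have a1 : n₁ ≤ n := by omega
  have a2 : n₂ ≤ n := by omega
  have a3 : (n₃ : ℝ) ≤ n := Nat.cast_le.2 (by omega)
  have a4 : (n₄ : ℝ) ≤ n := Nat.cast_le.2 (by omega)
  have a5 : (1 : ℝ) ≤ n := Nat.one_le_cast.2 (by omega)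
  have hnpos : (0 : ℝ) < n := zero_lt_one.trans_le a5
  have hfr : finrank ℝ (En n) = n := finrank_euclideanSpace_fin
  obtain ⟨b1, hσε, hσ1⟩ := ar3_HiE6 hε a5 (Nat.cast_nonneg i) (hn₃.trans a3) hin
  have hin' : i + 1 ≤ finrank ℝ (En n) := by
    rw [hfr]
    exact_mod_cast b1
  obtain ⟨σ, hσdef⟩ : ∃ σ : ℝ, σ = ((n : ℝ) - i - 1) / n := ⟨_, rfl⟩
  rw [← hσdef] at hσε hσ1
  have hσ : 0 < σ := (half_pos hε).trans_le hσε
  have hS : Sub i μ (c * √(finrank ℝ (En n) : ℝ)) := by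
    rw [hfr]; exact hsub n a1 i μ ν h hi hin
  have hN : Neg4 i μ C := hCdef ▸ neg4 h hin' hc hc1 hS
  have hv : ∀ u : En n, ‖u‖ = 1 → ∫ x, (‖Pj i x u‖ ^ 2 - σ) ^ 2 ∂(Fr i μ) ≤ e ^ 2 := by
    intro u hu
    have e1 := shift_HiE6 h.ml h.wl hu (Sg ν u u) σ
    have e2 := var_point h hi hin' hc hS hu
    rw [hfr] at e2
    have e3 := hiso n a2 i ν μ h.symm hi hin u hu
    rw [← hσdef] at e3
    have e4 : (Sg ν u u - σ) ^ 2 ≤ (e / 2) ^ 2 := sq_le_sq' (abs_le.1 e3).1 (abs_le.1 e3).2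
    have e5 := ar2_HiE6 (pow_pos hc 5) he hnpos (hn₄.trans a4)
    have e6 : (e / 2) ^ 2 = e ^ 2 / 4 := by ring
    linarith
  refine ⟨C, √σ, hC, Real.sqrt_pos.2 hσ, hN, fun u v hu hv1 huv => ?_⟩
  have p1 := pinch h.ml h.wl hC hN hσ hσ1 he hv hu hv1 huv
  have p3 := ar1_HiE6 hε hη hC hσε hσ1
  rw [← hedef] at p3
  have p4 := abs_le.1 (p1.trans p3)
  constructor <;> linarith [p4.1, p4.2]

end Pool.Agent.P.MP_181257_gt
end
end

-- part Pool.Agent.P.MP_181257_gt.PwD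
section

/-! Inverse fourth moments of the normal part with polynomial constants. -/

set_option autoImplicit false
set_option linter.unusedSectionVars false
set_option linter.unusedVariables false

open MeasureTheory ProbabilityTheory Module Set Filter Topology
open scoped RealInnerProductSpace ENNReal Pointwise Matrix

noncomputable section

namespace Pool.Agent.P.MP_181257_gt

variable {V : Type} [NormedAddCommGroup V] [InnerProductSpace ℝ V] [FiniteDimensional ℝ V]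
  [MeasurableSpace V] [BorelSpace V]

theorem pt1_PwD {t z w : ℝ} (ht : 0 ≤ t) (hz : 0 < z) :
    t * w ^ 2 ≤ z * w ^ 2 + (1 / (2 * z ^ 2) * (t ^ 2 - z ^ 2) ^ 2 + 1 / 2 * w ^ 4) ∧
      z - 1 / 2 - 1 / (2 * z ^ 2) * (t ^ 2 - z ^ 2) ^ 2 ≤ t := by
  have h1 : (t - z) ^ 2 / 2 ≤ 1 / (2 * z ^ 2) * (t ^ 2 - z ^ 2) ^ 2 := by
    have e : 1 / (2 * z ^ 2) * (t ^ 2 - z ^ 2) ^ 2 = (t - z) ^ 2 / 2 * ((t + z) ^ 2 / z ^ 2) := by
      field_simp
      ring
    rw [e]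
    refine le_mul_of_one_le_right (by positivity) ?_
    rw [one_le_div (by positivity)]
    nlinarith
  constructor
  · nlinarith [sq_nonneg (t - z - w ^ 2)]
  · nlinarith [sq_nonneg (t - z + 1)]

theorem good_PwD {i : ℕ} {μ ν : Measure V} (h : FP i μ ν) (hi : 1 ≤ i) (hin : i ≤ finrank ℝ V)
    (W : Submodule ℝ V) {m S : ℝ} (hm : 0 < m) (hW : m ≤ ∫ z, ‖pU W z‖ ^ 2 ∂μ) {l : V}
    (hl : ‖l‖ = 1) (hS : Sg μ l l ≤ S) :
    Integrable (fun a => ‖pU W a‖ * ⟪l, a⟫ ^ 2) μ ∧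
      ∫ a, ‖pU W a‖ * ⟪l, a⟫ ^ 2 ∂μ ≤ S * ∫ a, ‖pU W a‖ ∂μ + (6 * finrank ℝ V / m + 2) := by
  have := h.ml.prob
  have v := conc_sub h hi hin W
  have iv := int_var_HiD5 h W (∫ z, ‖pU W z‖ ^ 2 ∂μ)
  set M := ∫ z, ‖pU W z‖ ^ 2 ∂μ with hM
  have hM0 : 0 < M := hm.trans_le hW
  have hz : 0 < √M := Real.sqrt_pos.2 hM0
  have hz2 : √M ^ 2 = M := Real.sq_sqrt hM0.le
  have I2 := integrable_inner_pow_Tn h.mr h.wr l 2
  have I4 := integrable_inner_pow_Tn h.mr h.wr l 4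
  have E2 := integral_inner_pow_Tn h.mr h.wr l 1
  have E4 := integral_inner_pow_Tn h.mr h.wr l 2
  rw [← h.el] at I2 I4 E2 E4
  rw [Km_one, hl] at E2
  rw [Km_two, hl] at E4
  norm_num at E2 E4
  have I1 : Integrable (fun w => ‖pU W w‖) μ := by simpa using int_pU_HiD5 h W 1
  have j2 : Integrable (fun a => 1 / (2 * M) * (‖pU W a‖ ^ 2 - M) ^ 2 + 1 / 2 * ⟪l, a⟫ ^ 4) μ :=
    (iv.const_mul _).add (I4.const_mul _)
  have j1 : Integrable (fun a => √M * ⟪l, a⟫ ^ 2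
      + (1 / (2 * M) * (‖pU W a‖ ^ 2 - M) ^ 2 + 1 / 2 * ⟪l, a⟫ ^ 4)) μ := (I2.const_mul _).add j2
  have p1 : ∀ a, ‖pU W a‖ * ⟪l, a⟫ ^ 2 ≤ √M * ⟪l, a⟫ ^ 2
      + (1 / (2 * M) * (‖pU W a‖ ^ 2 - M) ^ 2 + 1 / 2 * ⟪l, a⟫ ^ 4) := fun a => by
    have := (pt1_PwD (w := ⟪l, a⟫) (norm_nonneg (pU W a)) hz).1
    rwa [hz2] at this
  have p2 : ∀ a, √M - 1 / 2 - 1 / (2 * M) * (‖pU W a‖ ^ 2 - M) ^ 2 ≤ ‖pU W a‖ := fun a => by
    have := (pt1_PwD (w := 0) (norm_nonneg (pU W a)) hz).2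
    rwa [hz2] at this
  have j0 : Integrable (fun a => ‖pU W a‖ * ⟪l, a⟫ ^ 2) μ := by
    refine j1.mono' (by fun_prop) (ae_of_all _ fun a => ?_)
    rw [Real.norm_eq_abs, abs_of_nonneg (by positivity)]
    exact p1 a
  refine ⟨j0, ?_⟩
  have q1 := integral_mono j0 j1 p1
  have q2 : ∫ a, (√M - 1 / 2 - 1 / (2 * M) * (‖pU W a‖ ^ 2 - M) ^ 2) ∂μ ≤ ∫ a, ‖pU W a‖ ∂μ :=
    integral_mono ((integrable_const _).sub (iv.const_mul _)) I1 p2
  rw [integral_add (I2.const_mul _) j2, integral_add (iv.const_mul _) (I4.const_mul _),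
    integral_const_mul, integral_const_mul, integral_const_mul] at q1
  rw [integral_sub (integrable_const _) (iv.const_mul _), integral_const_mul] at q2
  simp only [integral_const, probReal_univ, smul_eq_mul, one_mul] at q2
  have hK : 1 / (2 * M) * ∫ a, (‖pU W a‖ ^ 2 - M) ^ 2 ∂μ ≤ 3 * finrank ℝ V / m := by
    calc _ ≤ 1 / (2 * m) * (6 * finrank ℝ V) :=
          mul_le_mul (one_div_le_one_div_of_le (by positivity) (by linarith)) v
            (integral_nonneg fun a => sq_nonneg _) (by positivity)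
      _ = _ := by field_simp; ring
  have hS' : ∫ a, ⟪l, a⟫ ^ 2 ∂μ ≤ S := by simpa only [Sg, sq] using hS
  have hY : 0 ≤ ∫ a, ⟪l, a⟫ ^ 2 ∂μ := integral_nonneg fun a => sq_nonneg _
  have hI : 0 ≤ ∫ a, ‖pU W a‖ ∂μ := integral_nonneg fun a => norm_nonneg _
  have hk0 : 0 ≤ 3 * (finrank ℝ V : ℝ) / m := by positivity
  have e6 : 6 * (finrank ℝ V : ℝ) / m = 2 * (3 * finrank ℝ V / m) := by ring
  have q3 : √M ≤ (∫ a, ‖pU W a‖ ∂μ) + (1 / 2 + 3 * finrank ℝ V / m) := by linarith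
  have q4 := mul_le_mul_of_nonneg_right q3 hY
  have q5 := mul_le_mul_of_nonneg_left hS' hI
  have q6 := mul_le_mul_of_nonneg_left E2 (by positivity : 0 ≤ 1 / 2 + 3 * (finrank ℝ V : ℝ) / m)
  nlinarith

theorem young_PwD {X Y Z θ : ℝ} (hθ : 0 < θ) :
    X * (Y * Z) ≤ θ / 4 * (X ^ 4 + Y ^ 4) + 1 / (4 * θ ^ 3) + θ / 4 * Z ^ 4 := by
  have h1 : 4 * ((θ * X) * (θ * Y) * (θ * Z)) ≤ (θ * X) ^ 4 + (θ * Y) ^ 4 + (θ * Z) ^ 4 + 1 := by
    nlinarith [sq_nonneg ((θ * X) ^ 2 - (θ * Y) ^ 2), sq_nonneg ((θ * Z) ^ 2 - 1),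
      sq_nonneg ((θ * X) * (θ * Y) - θ * Z)]
  have h3 : 0 < 4 * θ ^ 3 := by positivity
  refine le_of_mul_le_mul_left ?_ h3
  have e : 4 * θ ^ 3 * (θ / 4 * (X ^ 4 + Y ^ 4) + 1 / (4 * θ ^ 3) + θ / 4 * Z ^ 4)
      = (θ * X) ^ 4 + (θ * Y) ^ 4 + (θ * Z) ^ 4 + 1 := by
    field_simp
    ring
  rw [e]
  nlinarith

open Classical in
theorem bad_PwD {i : ℕ} {μ ν : Measure V} (h : FP i μ ν) (hi : 1 ≤ i) (hin : i ≤ finrank ℝ V)
    {lam θ m : ℝ} (hlam : 0 < lam) (hθ : 0 < θ) (hm : 0 < m) {U : Submodule ℝ V}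
    (hU : ∫⁻ w, (ENNReal.ofReal ‖pU U w‖)⁻¹ ^ 8 ∂μ ≤ (ENNReal.ofReal lam)⁻¹ ^ 8)
    (hmU : m ≤ ∫ z, ‖pU U z‖ ^ 2 ∂μ) {l : V} (hl : ‖l‖ = 1) :
    ∫⁻ w, ENNReal.ofReal ‖w‖ * (ENNReal.ofReal (if m / 2 ≤ ‖pU U w‖ ^ 2 then 0 else ⟪l, w⟫ ^ 2)
        * (ENNReal.ofReal ‖pU U w‖)⁻¹ ^ 2) ∂μ
      ≤ ENNReal.ofReal (√(finrank ℝ V : ℝ) / lam ^ 2
        * (θ / 4 * (4 + Km 4) + 1 / (4 * θ ^ 3) * (24 * finrank ℝ V / m ^ 2))) := by
  have hn' : (0 : ℝ) < finrank ℝ V := by exact_mod_cast (by omega : 0 < finrank ℝ V)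
  have hs : 0 < √(finrank ℝ V : ℝ) := Real.sqrt_pos.2 hn'
  have hs2 : √(finrank ℝ V : ℝ) ^ 2 = finrank ℝ V := Real.sq_sqrt hn'.le
  have I1 := integrable_norm_pow_Tn h.mr h.wr 4
  have I2 := integrable_inner_pow_Tn h.mr h.wr l 8
  have E1 := integral_norm_pow_Tn h.mr h.wr (j := 2) (by norm_num)
  have E2 := integral_inner_pow_Tn h.mr h.wr l 4
  rw [← h.el] at I1 I2 E1 E2
  rw [hl] at E2
  rw [Km_two] at E1
  norm_num at E1 E2
  have v := conc_sub h hi hin U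
  have iv := int_var_HiD5 h U (∫ z, ‖pU U z‖ ^ 2 ∂μ)
  set M := ∫ z, ‖pU U z‖ ^ 2 ∂μ with hM
  have j1 : Integrable (fun w : V => θ / 4 * (‖w‖ ^ 4 / (finrank ℝ V : ℝ) ^ 2 + ⟪l, w⟫ ^ 8)) μ :=
    ((I1.div_const _).add I2).const_mul _
  have j2 : Integrable (fun w : V => 1 / (4 * θ ^ 3) * (4 / m ^ 2 * (‖pU U w‖ ^ 2 - M) ^ 2)) μ :=
    (iv.const_mul _).const_mul _
  refine gen_HiE1 (c := θ / 4) hlam (by positivity) (by positivity) hU
    (f := fun w => if m / 2 ≤ ‖pU U w‖ ^ 2 then 0 else ⟪l, w⟫ ^ 2)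
    (g := fun w => θ / 4 * (‖w‖ ^ 4 / (finrank ℝ V : ℝ) ^ 2 + ⟪l, w⟫ ^ 8)
      + 1 / (4 * θ ^ 3) * (4 / m ^ 2 * (‖pU U w‖ ^ 2 - M) ^ 2))
    (fun w => by split_ifs <;> positivity) (fun w => by positivity) (j1.add j2) ?_ ?_
  · rw [integral_add j1 j2, integral_const_mul, integral_add (I1.div_const _) I2, integral_div,
      integral_const_mul, integral_const_mul]
    have h1 : (∫ w, ‖w‖ ^ 4 ∂μ) / (finrank ℝ V : ℝ) ^ 2 ≤ 3 := by
      rw [div_le_iff₀ (by positivity)]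
      linarith
    have h2 := mul_le_mul_of_nonneg_left (add_le_add h1 E2) (by positivity : 0 ≤ θ / 4)
    have h3 := mul_le_mul_of_nonneg_left (mul_le_mul_of_nonneg_left v
      (by positivity : 0 ≤ 4 / m ^ 2)) (by positivity : 0 ≤ 1 / (4 * θ ^ 3))
    have e : 4 / m ^ 2 * (6 * (finrank ℝ V : ℝ)) = 24 * finrank ℝ V / m ^ 2 := by ring
    rw [e] at h3
    linarith
  · intro w r hr
    split_ifs with hw
    · rw [zero_mul, mul_zero]
      positivity
    · have h1 := young_PwD (X := ‖w‖ / √(finrank ℝ V : ℝ)) (Y := ⟪l, w⟫ ^ 2)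
        (Z := (lam * r) ^ 2) hθ
      have hs4 : √(finrank ℝ V : ℝ) ^ 4 = (finrank ℝ V : ℝ) ^ 2 := by
        rw [show (4 : ℕ) = 2 * 2 from rfl, pow_mul, hs2]
      rw [div_pow, hs4, ← pow_mul, ← pow_mul, mul_pow lam r (2 * 4)] at h1
      have h3 : 1 ≤ 4 / m ^ 2 * (‖pU U w‖ ^ 2 - M) ^ 2 := by
        have g5 : m / 2 ≤ M - ‖pU U w‖ ^ 2 := by linarith [not_le.1 hw]
        have g6 := pow_le_pow_left₀ (by positivity) g5 2
        rw [div_mul_eq_mul_div, le_div_iff₀ (by positivity)]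
        nlinarith
      have h4 := mul_le_mul_of_nonneg_left h3 (by positivity : 0 ≤ 1 / (4 * θ ^ 3))
      calc _ = √(finrank ℝ V : ℝ) / lam ^ 2 *
            (‖w‖ / √(finrank ℝ V : ℝ) * (⟪l, w⟫ ^ 2 * (lam * r) ^ 2)) := by field_simp
        _ ≤ _ := by
          refine mul_le_mul_of_nonneg_left (h1.trans ?_) (by positivity)
          norm_num at h4 ⊢
          linarith

theorem mid_PwD {i : ℕ} {μ ν : Measure V} (h : FP i μ ν) (hi : 1 ≤ i) (hin : i ≤ finrank ℝ V)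
    {lam θ m m' S : ℝ} (hlam : 0 < lam) (hθ : 0 < θ) (hm : 0 < m) (hm' : 0 < m') (hS0 : 0 ≤ S)
    {U W : Submodule ℝ V}
    (hU : ∫⁻ w, (ENNReal.ofReal ‖pU U w‖)⁻¹ ^ 8 ∂μ ≤ (ENNReal.ofReal lam)⁻¹ ^ 8)
    (hmU : m ≤ ∫ z, ‖pU U z‖ ^ 2 ∂μ) (hW : m' ≤ ∫ z, ‖pU W z‖ ^ 2 ∂μ) {l : V} (hl : ‖l‖ = 1)
    (hS : Sg μ l l ≤ S) :
    ∫⁻ w, ENNReal.ofReal ‖pU W w‖ * (ENNReal.ofReal (⟪l, w⟫ ^ 2)
        * (ENNReal.ofReal ‖pU U w‖)⁻¹ ^ 2) ∂μ
      ≤ ENNReal.ofReal (2 / m * (S * ∫ a, ‖pU W a‖ ∂μ + (6 * finrank ℝ V / m' + 2))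
        + √(finrank ℝ V : ℝ) / lam ^ 2
          * (θ / 4 * (4 + Km 4) + 1 / (4 * θ ^ 3) * (24 * finrank ℝ V / m ^ 2))) := by
  classical
  obtain ⟨j0, g⟩ := good_PwD h hi hin W hm' hW hl hS
  have b := bad_PwD h hi hin hlam hθ hm hU hmU hl
  have hK := Km_nonneg 4
  have hI : 0 ≤ ∫ a, ‖pU W a‖ ∂μ := integral_nonneg fun a => norm_nonneg _
  have hpt : ∀ w, ENNReal.ofReal ‖pU W w‖ * (ENNReal.ofReal (⟪l, w⟫ ^ 2)
        * (ENNReal.ofReal ‖pU U w‖)⁻¹ ^ 2)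
      ≤ ENNReal.ofReal (2 / m * (‖pU W w‖ * ⟪l, w⟫ ^ 2))
        + ENNReal.ofReal ‖w‖ * (ENNReal.ofReal (if m / 2 ≤ ‖pU U w‖ ^ 2 then 0 else ⟪l, w⟫ ^ 2)
          * (ENNReal.ofReal ‖pU U w‖)⁻¹ ^ 2) := by
    intro w
    split_ifs with hw
    · refine le_trans ?_ le_self_add
      have h1 : 0 < ‖pU U w‖ ^ 2 := by linarith
      have h2 : 0 < ‖pU U w‖ := lt_of_le_of_ne (norm_nonneg _) fun h0 => by
        rw [← h0] at h1; simp at h1
      rw [← ENNReal.ofReal_inv_of_pos h2, ← ENNReal.ofReal_pow (by positivity),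
        ← ENNReal.ofReal_mul (sq_nonneg _), ← ENNReal.ofReal_mul (norm_nonneg _)]
      refine ENNReal.ofReal_le_ofReal ?_
      have h3 : ‖pU U w‖⁻¹ ^ 2 ≤ 2 / m := by
        rw [inv_pow, ← one_div, div_le_div_iff₀ h1 hm]
        linarith
      calc _ = ‖pU U w‖⁻¹ ^ 2 * (‖pU W w‖ * ⟪l, w⟫ ^ 2) := by ring
        _ ≤ _ := mul_le_mul_of_nonneg_right h3 (by positivity)
    · exact le_trans (mul_le_mul' (ENNReal.ofReal_le_ofReal (norm_pU_le W w)) le_rfl) le_add_self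
  refine (lintegral_mono hpt).trans ?_
  rw [lintegral_add_left (by fun_prop), ENNReal.ofReal_add (by positivity) (by positivity),
    ← ofReal_integral_eq_lintegral_ofReal (j0.const_mul _) (ae_of_all _ fun a => by positivity),
    integral_const_mul]
  exact add_le_add (ENNReal.ofReal_le_ofReal (mul_le_mul_of_nonneg_left g (by positivity))) b

end Pool.Agent.P.MP_181257_gt
end
end

-- part Pool.Agent.P.MP_181257_gt.PwE
section

/-! Rank dependent peeling for the inverse fourth moment. -/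

set_option autoImplicit false
set_option linter.unusedSectionVars false
set_option linter.unusedVariables false

open MeasureTheory ProbabilityTheory Module Set Filter Topology
open scoped RealInnerProductSpace ENNReal Pointwise Matrix

noncomputable section

namespace Pool.Agent.P.MP_181257_gt

variable {V : Type} [NormedAddCommGroup V] [InnerProductSpace ℝ V] [FiniteDimensional ℝ V]
  [MeasurableSpace V] [BorelSpace V]

theorem point_PwE {k : ℕ} (x : Fin k → V) (u a : V) (hp : Pj k x u ≠ 0)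
    (ha : Pj (k + 1) (Fin.cons u x : Fin (k + 1) → V) a ≠ 0) {t : ℝ} (ht0 : 0 ≤ t)
    (ht : t ≤ ‖a‖) :
    ENNReal.ofReal t * (ENNReal.ofReal ‖Pj (k + 1) (Fin.cons a x : Fin (k + 1) → V) u‖)⁻¹ ^ 4
      ≤ (ENNReal.ofReal ‖Pj k x u‖)⁻¹ ^ 4 * (ENNReal.ofReal t
        + 2 * (ENNReal.ofReal t * (ENNReal.ofReal (⟪‖Pj k x u‖⁻¹ • Pj k x u, a⟫ ^ 2)
          * (ENNReal.ofReal ‖Pj (k + 1) (Fin.cons u x : Fin (k + 1) → V) a‖)⁻¹ ^ 2))
        + ENNReal.ofReal ‖a‖ * (ENNReal.ofReal (⟪‖Pj k x u‖⁻¹ • Pj k x u, a⟫ ^ 4)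
          * (ENNReal.ofReal ‖Pj (k + 1) (Fin.cons u x : Fin (k + 1) → V) a‖)⁻¹ ^ 4)) := by
  have h1 := norm_Pj_swap a u x
  have h2 := norm_sq_Pj_cons u x a
  have hP : 0 < ‖Pj k x u‖ := norm_pos_iff.2 hp
  have hQ : 0 < ‖Pj (k + 1) (Fin.cons u x : Fin (k + 1) → V) a‖ := norm_pos_iff.2 ha
  rw [real_inner_smul_left]
  have hN0 := norm_nonneg (Pj (k + 1) (Fin.cons a x : Fin (k + 1) → V) u)
  have hA0 := norm_nonneg (Pj k x a)
  have ha0 := norm_nonneg a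
  generalize ‖Pj (k + 1) (Fin.cons a x : Fin (k + 1) → V) u‖ = N at *
  generalize ‖Pj (k + 1) (Fin.cons u x : Fin (k + 1) → V) a‖ = Q at *
  generalize ‖Pj k x a‖ = A at *
  generalize ⟪Pj k x u, a⟫ = w at *
  generalize ‖Pj k x u‖ = P at *
  generalize ‖a‖ = s at *
  have hNA : 0 < N * A := h1 ▸ mul_pos hP hQ
  have hN : 0 < N := lt_of_le_of_ne hN0 (by rintro rfl; simp at hNA)
  have hA : 0 < A := lt_of_le_of_ne hA0 (by rintro rfl; simp at hNA)
  have e1 : N⁻¹ = P⁻¹ * (A * Q⁻¹) := by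
    field_simp
    linarith
  have e2 : (A * Q⁻¹) ^ 2 = 1 + (P⁻¹ * w) ^ 2 * Q⁻¹ ^ 2 := by
    have : A ^ 2 = Q ^ 2 + w ^ 2 / P ^ 2 := by linarith
    rw [mul_pow, this]
    field_simp
  have two : (2 : ℝ≥0∞) = ENNReal.ofReal 2 := by simp
  rw [← ENNReal.ofReal_inv_of_pos hN, ← ENNReal.ofReal_inv_of_pos hP,
    ← ENNReal.ofReal_inv_of_pos hQ, two]
  simp only [← ENNReal.ofReal_pow (inv_nonneg.2 hN.le), ← ENNReal.ofReal_pow (inv_nonneg.2 hP.le),
    ← ENNReal.ofReal_pow (inv_nonneg.2 hQ.le)]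
  rw [← ENNReal.ofReal_mul ht0, ← ENNReal.ofReal_mul (sq_nonneg _),
    ← ENNReal.ofReal_mul (p := (P⁻¹ * w) ^ 4) (by positivity), ← ENNReal.ofReal_mul ht0,
    ← ENNReal.ofReal_mul ha0, ← ENNReal.ofReal_mul (by norm_num : (0 : ℝ) ≤ 2),
    ← ENNReal.ofReal_add ht0 (by positivity), ← ENNReal.ofReal_add (by positivity) (by positivity),
    ← ENNReal.ofReal_mul (by positivity)]
  refine ENNReal.ofReal_le_ofReal ?_
  have e3 : t * N⁻¹ ^ 4 = P⁻¹ ^ 4 * (t * ((A * Q⁻¹) ^ 2) ^ 2) := by rw [e1]; ring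
  rw [e3, e2]
  refine mul_le_mul_of_nonneg_left ?_ (by positivity)
  have e4 : (P⁻¹ * w) ^ 4 * Q⁻¹ ^ 4 = ((P⁻¹ * w) ^ 2 * Q⁻¹ ^ 2) ^ 2 := by ring
  rw [e4]
  have hy : 0 ≤ (P⁻¹ * w) ^ 2 * Q⁻¹ ^ 2 := by positivity
  generalize (P⁻¹ * w) ^ 2 * Q⁻¹ ^ 2 = y at *
  nlinarith [mul_le_mul_of_nonneg_right ht (sq_nonneg y)]

theorem ar_PwE {ε s c θ m j I K4 K8 : ℝ} (hε : 0 < ε) (hε1 : ε ≤ 1) (hs : ε / 4 ≤ s) (hc : 0 < c)
    (hθ : 0 < θ) (hm : 0 < m) (hj : ε * m ^ 2 ≤ j) (hI : c * m ≤ I) (h8 : 0 ≤ K8)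
    (hθc : θ * (4 + K4) = c ^ 3) (hA : 26 / ε ^ 2 ≤ ε / 4 * (c * m))
    (hB : 384 / (ε ^ 4 * m ^ 2) ≤ c ^ 3 * θ ^ 3) (hC : 2 + K8 ≤ c ^ 5 * m ^ 2) :
    2 * (2 / (j * s) * (2 * s * I + (6 * m ^ 2 / (ε ^ 2 * m ^ 2 / 4) + 2))
        + m / (c * m) ^ 2 * (θ / 4 * (4 + K4) + 1 / (4 * θ ^ 3) * (24 * m ^ 2 / (j * s) ^ 2)))
      + m / (c * m) ^ 4 * (2 + K8) ≤ (12 * (1 / j) + 2 / m ^ 2) * I := by
  have hs0 : 0 < s := by linarith
  have hj0 : 0 < j := lt_of_lt_of_le (by positivity) hj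
  have hI0 : 0 < I := lt_of_lt_of_le (by positivity) hI
  have a1 : 6 * m ^ 2 / (ε ^ 2 * m ^ 2 / 4) + 2 ≤ s * I := by
    have e : 6 * m ^ 2 / (ε ^ 2 * m ^ 2 / 4) = 24 / ε ^ 2 := by field_simp; norm_num
    have h1 : 2 ≤ 2 / ε ^ 2 := by rw [le_div_iff₀ (by positivity)]; nlinarith
    have h2 : ε / 4 * (c * m) ≤ s * I := mul_le_mul hs hI (by positivity) hs0.le
    have e2 : 26 / ε ^ 2 = 24 / ε ^ 2 + 2 / ε ^ 2 := by ring
    linarith
  have a2 : 2 / (j * s) * (2 * s * I + (6 * m ^ 2 / (ε ^ 2 * m ^ 2 / 4) + 2)) ≤ 6 * (1 / j) * I := by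
    calc _ ≤ 2 / (j * s) * (3 * (s * I)) :=
          mul_le_mul_of_nonneg_left (by linarith) (by positivity)
      _ = _ := by field_simp; norm_num
  have a3 : 24 * m ^ 2 / (j * s) ^ 2 ≤ 384 / (ε ^ 4 * m ^ 2) := by
    have h1 : ε * m ^ 2 * (ε / 4) ≤ j * s := mul_le_mul hj hs (by positivity) hj0.le
    calc _ ≤ 24 * m ^ 2 / (ε * m ^ 2 * (ε / 4)) ^ 2 :=
          div_le_div_of_nonneg_left (by positivity) (by positivity)
            (pow_le_pow_left₀ (by positivity) h1 2)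
      _ = _ := by field_simp; norm_num
  have a4 : θ / 4 * (4 + K4) + 1 / (4 * θ ^ 3) * (24 * m ^ 2 / (j * s) ^ 2) ≤ c ^ 3 / 2 := by
    have h1 := mul_le_mul_of_nonneg_left (a3.trans hB) (by positivity : 0 ≤ 1 / (4 * θ ^ 3))
    have e : 1 / (4 * θ ^ 3) * (c ^ 3 * θ ^ 3) = c ^ 3 / 4 := by field_simp
    linarith
  have a5 : m / (c * m) ^ 2 * (θ / 4 * (4 + K4) + 1 / (4 * θ ^ 3) * (24 * m ^ 2 / (j * s) ^ 2))
      ≤ 1 / (2 * m ^ 2) * I := by
    calc _ ≤ m / (c * m) ^ 2 * (c ^ 3 / 2) := mul_le_mul_of_nonneg_left a4 (by positivity)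
      _ = 1 / (2 * m ^ 2) * (c * m) := by field_simp
      _ ≤ _ := mul_le_mul_of_nonneg_left hI (by positivity)
  have a6 : m / (c * m) ^ 4 * (2 + K8) ≤ 1 / m ^ 2 * I := by
    calc _ ≤ m / (c * m) ^ 4 * (c ^ 5 * m ^ 2) := mul_le_mul_of_nonneg_left hC (by positivity)
      _ = 1 / m ^ 2 * (c * m) := by field_simp
      _ ≤ _ := mul_le_mul_of_nonneg_left hI (by positivity)
  have e7 : (12 * (1 / j) + 2 / m ^ 2) * I
      = 2 * (6 * (1 / j) * I + 1 / (2 * m ^ 2) * I) + 1 / m ^ 2 * I := by ring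
  rw [e7]
  linarith

theorem neg4_poly {i : ℕ} {μ ν : Measure V} (h : FP i μ ν) (hi : 1 ≤ i) {ε s c θ : ℝ}
    (hε : 0 < ε) (hε1 : ε ≤ 1) (hin : (i : ℝ) ≤ (1 - ε) * finrank ℝ V)
    (hεn : 2 ≤ ε * finrank ℝ V) (hs : ε / 4 ≤ s) (hI : Iso μ s) (hc : 0 < c) (hθ : 0 < θ)
    (hS : Sub i μ (c * √(finrank ℝ V : ℝ))) (hθc : θ * (4 + Km 4) = c ^ 3)
    (hA : 26 / ε ^ 2 ≤ ε / 4 * (c * √(finrank ℝ V : ℝ)))
    (hB : 384 / (ε ^ 4 * finrank ℝ V) ≤ c ^ 3 * θ ^ 3) (hC : 2 + Km 8 ≤ c ^ 5 * finrank ℝ V) :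
    Neg4 i μ (8 * (2 / ε) ^ 12) := by
  intro u hu
  set n := finrank ℝ V with hn
  have hi2 : i + 2 ≤ n := by
    have : (i : ℝ) + 2 ≤ n := by linarith
    exact_mod_cast this
  have hi2' : (i : ℝ) + 2 ≤ n := by exact_mod_cast hi2
  have hn1 : 1 ≤ n := by omega
  have hn0 : (0 : ℝ) < n := by exact_mod_cast hn1
  have hsn : 0 < √(n : ℝ) := Real.sqrt_pos.2 hn0
  have hsq : √(n : ℝ) ^ 2 = n := Real.sq_sqrt hn0.le
  have h4 := Km_nonneg 4
  have h8 := Km_nonneg 8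
  have hs0 : 0 < s := by linarith
  have hlam : 0 < c * √(n : ℝ) := mul_pos hc hsn
  have key := peel_exp h.ml (d := n - i) (K := i) (by omega) h.wl
    (fun k => 12 * (1 / ((n : ℝ) - 1 - k)) + 2 / n)
    (fun k x => (ENNReal.ofReal ‖Pj k x u‖)⁻¹ ^ 4)
    (fun k => ((measurable_Pj k measurable_id measurable_const).norm.ennreal_ofReal.inv).pow_const 4)
    (fun x => by simp [Pj, hu]) ?_
  · refine key.trans (ENNReal.ofReal_le_ofReal ?_)
    rw [Finset.sum_add_distrib, ← Finset.mul_sum, Finset.sum_const, Finset.card_range,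
      nsmul_eq_mul]
    have h3 := harm_le (a := (n : ℝ) - 1) i (by linarith)
    have hd : 0 < (n : ℝ) - 1 - i := by linarith
    have hq0 : 0 < ((n : ℝ) - 1) / ((n : ℝ) - 1 - i) := div_pos (by linarith) hd
    have hq : ((n : ℝ) - 1) / ((n : ℝ) - 1 - i) ≤ 2 / ε := by
      rw [div_le_div_iff₀ hd hε]
      nlinarith
    have h5 : (i : ℝ) * (2 / n) ≤ 2 := by
      rw [← mul_div_assoc, div_le_iff₀ hn0]
      linarith
    rw [Real.exp_add, mul_comm 8]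
    refine mul_le_mul ((Real.exp_le_exp.2 (mul_le_mul_of_nonneg_left h3 (by norm_num))).trans ?_)
      ((Real.exp_le_exp.2 h5).trans ?_) (Real.exp_pos _).le (by positivity)
    · rw [show (12 : ℝ) = (12 : ℕ) by norm_num, Real.exp_nat_mul, Real.exp_log hq0]
      exact pow_le_pow_left₀ hq0.le hq 12
    · rw [show (2 : ℝ) = 1 + 1 by norm_num, Real.exp_add]
      nlinarith [Real.exp_one_lt_d9, Real.exp_pos 1]
  intro k hk x U hU
  have hmU : Measurable fun a : V => ENNReal.ofReal ‖pU U a‖ :=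
    (pU U).continuous.measurable.norm.ennreal_ofReal
  have hIe : ENNReal.ofReal (∫ a, ‖pU U a‖ ∂μ) = ∫⁻ a, ENNReal.ofReal ‖pU U a‖ ∂μ :=
    ofReal_integral_eq_lintegral_ofReal
      (h.ml.int.mono' (pU U).continuous.norm.aestronglyMeasurable
        (ae_of_all _ fun a => by rw [norm_norm]; exact norm_pU_le U a))
      (ae_of_all _ fun a => norm_nonneg _)
  have hIl := (hS U (by omega)).1
  by_cases hp : Pj k x u = 0
  · have h1 : ENNReal.ofReal (Real.exp (12 * (1 / ((n : ℝ) - 1 - k)) + 2 / n)) ≠ 0 :=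
      (ENNReal.ofReal_pos.2 (Real.exp_pos _)).ne'
    have h2 : ∫⁻ a, ENNReal.ofReal ‖pU U a‖ ∂μ ≠ 0 := by
      rw [← hIe]
      exact (ENNReal.ofReal_pos.2 (hlam.trans_le hIl)).ne'
    simp only [hp, norm_zero, ENNReal.ofReal_zero, ENNReal.inv_zero]
    rw [ENNReal.top_pow (by norm_num), ENNReal.mul_top h1, ENNReal.top_mul h2]
    exact le_top
  have hfr := finrank_nrm_ge (Fin.cons u x : Fin (k + 1) → V)
  have hU2 := (hS (nrm (Fin.cons u x : Fin (k + 1) → V)) (by omega)).2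
  have hl : ‖‖Pj k x u‖⁻¹ • Pj k x u‖ = 1 := by
    rw [norm_smul, norm_inv, norm_norm, inv_mul_cancel₀ (norm_ne_zero_iff.2 hp)]
  obtain ⟨j, hj⟩ : ∃ j : ℕ, j + k + 1 = n := ⟨n - k - 1, by omega⟩
  have hjn : (n : ℝ) - 1 - k = j := by
    have : (j : ℝ) + k + 1 = n := by exact_mod_cast hj
    linarith
  have hjε : ε * n ≤ j := by
    have : (k : ℝ) + 1 ≤ i := by exact_mod_cast hk
    linarith
  have hj0 : (0 : ℝ) < j := by linarith
  have m1 := mean_HiD5 h (fun a ha => (hI a ha).1) (r := j)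
    (nrm (Fin.cons u x : Fin (k + 1) → V)) (by omega)
  have m2 : ε ^ 2 * n / 4 ≤ ∫ z, ‖pU U z‖ ^ 2 ∂μ := by
    refine le_trans ?_ (mean_HiD5 h (fun a ha => (hI a ha).1) (r := n - i) U (by omega))
    rw [Nat.cast_sub (by omega)]
    have h1 : ε * n * (ε / 4) ≤ (n - i) * s := mul_le_mul (by linarith) hs (by positivity)
      (by linarith)
    linarith
  have ka := mid_PwD h hi (by omega) hlam hθ (by positivity) (by positivity) (by positivity)
    hU2 m1 m2 hl (hI _ hl).2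
  have kb := mom_b h hn1 hlam hU2 hl.le
  have har := ar_PwE (j := j) hε hε1 hs hc hθ hsn (by rw [hsq]; exact hjε) hIl h8 hθc hA
    (by rw [hsq]; exact hB) (by rw [hsq]; exact hC)
  rw [hsq] at har
  rw [← Pj_eq] at hU2 ka kb
  rw [← hn] at ka kb
  have hm2 : Measurable fun a : V =>
      (ENNReal.ofReal ‖Pj (k + 1) (Fin.cons u x : Fin (k + 1) → V) a‖)⁻¹ :=
    (Pj (k + 1) (Fin.cons u x : Fin (k + 1) → V)).continuous.measurable.norm.ennreal_ofReal.inv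
  have hae : ∀ᵐ a ∂μ, Pj (k + 1) (Fin.cons u x : Fin (k + 1) → V) a ≠ 0 := by
    have := ae_lt_top (hm2.pow_const 8) (ne_top_of_le_ne_top
      (ENNReal.pow_ne_top (ENNReal.inv_ne_top.2 (ENNReal.ofReal_pos.2 hlam).ne')) hU2)
    filter_upwards [this] with a ha h0
    simp [h0] at ha
  have hin : Measurable fun a : V => ⟪‖Pj k x u‖⁻¹ • Pj k x u, a⟫ := by fun_prop
  have hma : Measurable fun a : V => ENNReal.ofReal ‖pU U a‖ + 2 * (ENNReal.ofReal ‖pU U a‖ *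
      (ENNReal.ofReal (⟪‖Pj k x u‖⁻¹ • Pj k x u, a⟫ ^ 2) *
        (ENNReal.ofReal ‖Pj (k + 1) (Fin.cons u x : Fin (k + 1) → V) a‖)⁻¹ ^ 2)) :=
    hmU.add ((hmU.mul ((hin.pow_const 2).ennreal_ofReal.mul (hm2.pow_const 2))).const_mul 2)
  have hfin : (ENNReal.ofReal ‖Pj k x u‖)⁻¹ ^ 4 ≠ ∞ :=
    ENNReal.pow_ne_top (ENNReal.inv_ne_top.2 (ENNReal.ofReal_pos.2 (norm_pos_iff.2 hp)).ne')
  refine (lintegral_mono_ae (hae.mono fun a ha =>
    point_PwE x u a hp ha (norm_nonneg _) (norm_pU_le U a))).trans ?_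
  rw [lintegral_const_mul' _ _ hfin, lintegral_add_left hma,
    lintegral_add_left hmU, lintegral_const_mul' _ _ (by simp),
    mul_comm (ENNReal.ofReal (Real.exp _)), mul_assoc, hjn]
  refine mul_le_mul_right ?_ _
  have hγ : 0 ≤ 12 * (1 / (j : ℝ)) + 2 / n := by positivity
  refine le_trans ?_ (mul_le_mul' (ENNReal.ofReal_le_ofReal (Real.add_one_le_exp _)) le_rfl)
  rw [add_comm _ (1 : ℝ), ENNReal.ofReal_add zero_le_one hγ, ENNReal.ofReal_one, add_mul, one_mul,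
    add_assoc]
  refine add_le_add_right ?_ _
  refine (add_le_add (mul_le_mul_right ka 2) kb).trans ?_
  have two : (2 : ℝ≥0∞) = ENNReal.ofReal 2 := by simp
  have hI0 : 0 ≤ ∫ a, ‖pU U a‖ ∂μ := hlam.le.trans hIl
  rw [← hIe, two, ← ENNReal.ofReal_mul (by norm_num : (0 : ℝ) ≤ 2),
    ← ENNReal.ofReal_add (by positivity) (by positivity), ← ENNReal.ofReal_mul hγ]
  exact ENNReal.ofReal_le_ofReal har

end Pool.Agent.P.MP_181257_gt
end
end

-- part Pool.Agent.P.MP_181257_gt.HiF1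
section

/-! Second moments on hyperplanes and the squared-volume moment. -/

set_option autoImplicit false
set_option linter.unusedSectionVars false
set_option linter.unusedVariables false

open MeasureTheory ProbabilityTheory Module Set Filter Topology
open scoped RealInnerProductSpace ENNReal Pointwise Matrix

noncomputable section

namespace Pool.Agent.P.MP_181257_gt

variable {V : Type} [NormedAddCommGroup V] [InnerProductSpace ℝ V] [FiniteDimensional ℝ V]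
  [MeasurableSpace V] [BorelSpace V]

theorem bd_pr_HiF1 {F : V → ℝ} (hF : Bd F) (u : V) : Bd fun g => F (pr u g) := by
  obtain ⟨C, hC⟩ := hF.bdd
  exact ⟨hF.meas.comp (by fun_prop), C, fun x => hC _⟩

theorem integrable_Mf_HiF1 {F : V → ℝ} (hF : Bd F) (u a b : V) :
    Integrable (fun g => ⟪a, pr u g⟫ * ⟪b, pr u g⟫ * F (pr u g)) (stdGaussian V) := by
  have h := moment_integrable_inner (bd_pr_HiF1 hF u) (pr u a) (pr u b)
  simpa only [inner_pr_comm] using h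

theorem prod_lip_HiF1 {ι : Type} (s : Finset ι) (a b : ι → ℝ) {B L : ℝ} (hB : 1 ≤ B) (hL : 0 ≤ L)
    (ha : ∀ j, |a j| ≤ B) (hb : ∀ j, |b j| ≤ B) (hab : ∀ j, |a j - b j| ≤ L) :
    |∏ j ∈ s, a j - ∏ j ∈ s, b j| ≤ s.card * B ^ s.card * L := by
  classical
  have hB0 : 0 ≤ B := by linarith
  induction s using Finset.induction_on with
  | empty => simp
  | insert j s hj ih =>
    rw [Finset.prod_insert hj, Finset.prod_insert hj, Finset.card_insert_of_notMem hj]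
    have h1 : |∏ j ∈ s, b j| ≤ B ^ s.card := by
      rw [Finset.abs_prod]
      calc ∏ j ∈ s, |b j| ≤ ∏ _j ∈ s, B :=
            Finset.prod_le_prod (fun _ _ => abs_nonneg _) fun j _ => hb j
        _ = B ^ s.card := by simp
    have hp : 0 ≤ B ^ s.card := by positivity
    have e : a j * ∏ j ∈ s, a j - b j * ∏ j ∈ s, b j
        = a j * (∏ j ∈ s, a j - ∏ j ∈ s, b j) + (a j - b j) * ∏ j ∈ s, b j := by ring
    have h2 : |a j * (∏ j ∈ s, a j - ∏ j ∈ s, b j)| ≤ B * (s.card * B ^ s.card * L) := by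
      rw [abs_mul]
      exact mul_le_mul (ha j) ih (abs_nonneg _) hB0
    have h3 : |(a j - b j) * ∏ j ∈ s, b j| ≤ L * B ^ s.card := by
      rw [abs_mul]
      exact mul_le_mul (hab j) h1 (abs_nonneg _) hL
    have h4 : L * B ^ s.card ≤ L * B ^ s.card * B :=
      le_mul_of_one_le_right (mul_nonneg hL hp) hB
    rw [e]
    refine (abs_add_le _ _).trans ?_
    push_cast
    rw [pow_succ]
    nlinarith

theorem Mf_symm (F : V → ℝ) (u a b : V) : Mf F u a b = Mf F u b a := by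
  unfold Mf
  congr 1
  ext g
  ring

theorem Mf_add {F : V → ℝ} (hF : Bd F) (u a a' b : V) :
    Mf F u (a + a') b = Mf F u a b + Mf F u a' b := by
  unfold Mf
  rw [← integral_add (integrable_Mf_HiF1 hF u a b) (integrable_Mf_HiF1 hF u a' b)]
  congr 1
  ext g
  rw [inner_add_left]
  ring

theorem Mf_smul (F : V → ℝ) (u : V) (t : ℝ) (a b : V) : Mf F u (t • a) b = t * Mf F u a b := by
  unfold Mf
  rw [← integral_const_mul]
  congr 1
  ext g
  rw [real_inner_smul_left]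
  ring

theorem Mf_pr (F : V → ℝ) (u a b : V) : Mf F u (pr u a) (pr u b) = Mf F u a b := by
  unfold Mf
  simp only [inner_pr_comm, pr_pr]

theorem Mf_hom (F : V → ℝ) {t : ℝ} (ht : t ≠ 0) (u a b : V) :
    Mf F (t • u) a b = Mf F u a b := by
  unfold Mf
  simp only [pr_smul_left ht]

theorem integrable_Mf {F : V → ℝ} (hF : Bd F) (u a b : V) :
    Integrable (fun g => ⟪a, pr u g⟫ * ⟪b, pr u g⟫ * F (pr u g)) (stdGaussian V) := by
  exact integrable_Mf_HiF1 hF u a b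

theorem Ei_smul (i : ℕ) (c : ℝ) (M : V → V → ℝ) :
    Ei i (fun a b => c * M a b) = c ^ i * Ei i M := by
  unfold Ei
  rw [Finset.mul_sum]
  refine Finset.sum_congr rfl fun l _ => ?_
  have e : (Matrix.of fun j j' : Fin i =>
      c * M (stdOrthonormalBasis ℝ V (l j)) (stdOrthonormalBasis ℝ V (l j')))
      = c • Matrix.of fun j j' : Fin i =>
        M (stdOrthonormalBasis ℝ V (l j)) (stdOrthonormalBasis ℝ V (l j')) := by
    ext j j'
    simp
  rw [e, Matrix.det_smul, Fintype.card_fin]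

theorem Ei_bound (i : ℕ) (C : ℝ) : ∃ K : ℝ, ∀ M : V → V → ℝ,
    (∀ a b, ‖a‖ = 1 → ‖b‖ = 1 → |M a b| ≤ C) → |Ei i M| ≤ K := by
  refine ⟨∑ _l : Fin i → Fin (finrank ℝ V),
    Nat.factorial (Fintype.card (Fin i)) • C ^ Fintype.card (Fin i), fun M hM => ?_⟩
  unfold Ei
  refine (Finset.abs_sum_le_sum_abs _ _).trans (Finset.sum_le_sum fun l _ => ?_)
  exact Matrix.det_le (abv := AbsoluteValue.abs) fun j j' =>
    hM _ _ ((stdOrthonormalBasis ℝ V).orthonormal.norm_eq_one _)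
      ((stdOrthonormalBasis ℝ V).orthonormal.norm_eq_one _)

theorem Ei_lip (i : ℕ) (C : ℝ) : ∃ K : ℝ, 0 ≤ K ∧ ∀ (M M' : V → V → ℝ) (L : ℝ), 0 ≤ L →
    (∀ a b, ‖a‖ = 1 → ‖b‖ = 1 → |M a b| ≤ C ∧ |M' a b| ≤ C ∧ |M a b - M' a b| ≤ L) →
      |Ei i M - Ei i M'| ≤ K * L := by
  have hB : 1 ≤ max C 1 := le_max_right _ _
  refine ⟨∑ _l : Fin i → Fin (finrank ℝ V), ∑ _σ : Equiv.Perm (Fin i),
    (i : ℝ) * max C 1 ^ i, by positivity, fun M M' L hL h => ?_⟩
  unfold Ei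
  rw [← Finset.sum_sub_distrib, Finset.sum_mul]
  refine (Finset.abs_sum_le_sum_abs _ _).trans (Finset.sum_le_sum fun l _ => ?_)
  rw [Matrix.det_apply', Matrix.det_apply', ← Finset.sum_sub_distrib, Finset.sum_mul]
  refine (Finset.abs_sum_le_sum_abs _ _).trans (Finset.sum_le_sum fun σ _ => ?_)
  have hn : ∀ t, ‖stdOrthonormalBasis ℝ V t‖ = 1 := fun t =>
    (stdOrthonormalBasis ℝ V).orthonormal.norm_eq_one t
  have hs : |((Equiv.Perm.sign σ : ℤ) : ℝ)| = 1 := by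
    rcases Int.units_eq_one_or (Equiv.Perm.sign σ) with h1 | h1 <;> simp [h1]
  rw [← mul_sub, abs_mul, hs, one_mul]
  have key := prod_lip_HiF1 (Finset.univ : Finset (Fin i))
    (fun j => M (stdOrthonormalBasis ℝ V (l (σ j))) (stdOrthonormalBasis ℝ V (l j)))
    (fun j => M' (stdOrthonormalBasis ℝ V (l (σ j))) (stdOrthonormalBasis ℝ V (l j))) hB hL
    (fun j => (h _ _ (hn _) (hn _)).1.trans (le_max_left _ _))
    (fun j => (h _ _ (hn _) (hn _)).2.1.trans (le_max_left _ _))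
    (fun j => (h _ _ (hn _) (hn _)).2.2)
  simpa only [Finset.card_univ, Fintype.card_fin, Matrix.of_apply] using key

theorem Ei_tendsto (i : ℕ) {ι : Type} {l : Filter ι} {M : ι → V → V → ℝ} {M' : V → V → ℝ}
    (h : ∀ a b, Tendsto (fun d => M d a b) l (𝓝 (M' a b))) :
    Tendsto (fun d => Ei i (M d)) l (𝓝 (Ei i M')) := by
  unfold Ei
  refine tendsto_finsetSum _ fun t _ => ?_
  simp only [Matrix.det_apply', Matrix.of_apply]
  refine tendsto_finsetSum _ fun σ _ => ?_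
  exact (tendsto_finsetProd _ fun j _ => h _ _).const_mul _

theorem measurable_Ei (i : ℕ) {X : Type} [MeasurableSpace X] {M : X → V → V → ℝ}
    (h : ∀ a b, Measurable fun x => M x a b) : Measurable fun x => Ei i (M x) := by
  unfold Ei
  refine Finset.measurable_sum _ fun t _ => ?_
  simp only [Matrix.det_apply', Matrix.of_apply]
  refine Finset.measurable_sum _ fun σ _ => ?_
  exact (Finset.measurable_prod _ fun j _ => h _ _).const_mul _

theorem integrable_Vq (i : ℕ) {F : V → ℝ} (hF : Bd F) (y : V) :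
    Integrable (fun x : Fin i → V => D (fun j => pr y (x j)) ^ 2 * ∏ j, F (pr y (x j)))
      (γk V i) := by
  obtain ⟨C, hC⟩ := hF.bdd
  have hprod : Measurable fun x : Fin i → V => ∏ j, F (pr y (x j)) :=
    Finset.measurable_prod _ fun j _ => hF.meas.comp (by fun_prop)
  have h1 : Integrable (fun x : Fin i → V => D (fun j => pr y (x j)) ^ 2) (γk V i) := by
    refine (integrable_prod_norm_pow i 2).mono' (Measurable.aestronglyMeasurable (by fun_prop))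
      (ae_of_all _ fun x => ?_)
    rw [Real.norm_of_nonneg (sq_nonneg _), Finset.prod_pow]
    refine pow_le_pow_left₀ (D_nonneg _) ((D_le_prod _).trans ?_) 2
    exact Finset.prod_le_prod (fun _ _ => norm_nonneg _) fun j _ => norm_pr_le _ _
  refine h1.mul_bdd (c := C ^ i) hprod.aestronglyMeasurable (ae_of_all _ fun x => ?_)
  rw [Real.norm_eq_abs, Finset.abs_prod]
  calc ∏ j, |F (pr y (x j))| ≤ ∏ _j : Fin i, C :=
        Finset.prod_le_prod (fun _ _ => abs_nonneg _) fun j _ => hC _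
    _ = C ^ i := by simp

theorem Vq_eq_Ei (i : ℕ) {F : V → ℝ} (hF : Bd F) (u : V) : Vq i F u = Ei i (Mf F u) := by
  classical
  set b := stdOrthonormalBasis ℝ V with hb
  have h1 : ∀ x : Fin i → V, D (fun j => pr u (x j)) ^ 2 * ∏ j, F (pr u (x j))
      = ∑ l : Fin i → Fin (finrank ℝ V), ∑ σ : Equiv.Perm (Fin i), (Equiv.Perm.sign σ : ℤ) *
        ∏ j, ⟪b (l (σ j)), pr u (x j)⟫ * ⟪b (l j), pr u (x j)⟫ * F (pr u (x j)) := by
    intro x
    rw [moment_det_expand b (fun j => pr u (x j)), Finset.sum_mul]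
    refine Finset.sum_congr rfl fun l _ => ?_
    rw [Finset.sum_mul]
    refine Finset.sum_congr rfl fun σ _ => ?_
    rw [mul_assoc, ← Finset.prod_mul_distrib]
  have hi : ∀ (l : Fin i → Fin (finrank ℝ V)) (σ : Equiv.Perm (Fin i)),
      Integrable (fun x : Fin i → V => ((Equiv.Perm.sign σ : ℤ) : ℝ) *
        ∏ j, ⟪b (l (σ j)), pr u (x j)⟫ * ⟪b (l j), pr u (x j)⟫ * F (pr u (x j))) (γk V i) :=
    fun l σ => (Integrable.fintype_prod
      (f := fun j (x : V) => ⟪b (l (σ j)), pr u x⟫ * ⟪b (l j), pr u x⟫ * F (pr u x))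
      fun j => integrable_Mf_HiF1 hF u _ _).const_mul _
  unfold Vq Ei
  simp only [h1]
  rw [integral_finsetSum _ fun l _ => integrable_finsetSum _ fun σ _ => hi l σ]
  refine Finset.sum_congr rfl fun l _ => ?_
  rw [integral_finsetSum _ fun σ _ => hi l σ, Matrix.det_apply']
  refine Finset.sum_congr rfl fun σ _ => ?_
  rw [integral_const_mul, integral_fintype_prod_eq_prod
    (f := fun j (x : V) => ⟪b (l (σ j)), pr u x⟫ * ⟪b (l j), pr u x⟫ * F (pr u x))]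
  rfl

theorem Vq_nonneg (i : ℕ) {F : V → ℝ} (h0 : ∀ x, 0 ≤ F x) (y : V) : 0 ≤ Vq i F y := by
  exact integral_nonneg fun x => mul_nonneg (sq_nonneg _) (Finset.prod_nonneg fun j _ => h0 _)

theorem Vq_hom (i : ℕ) (F : V → ℝ) {t : ℝ} (ht : t ≠ 0) (y : V) :
    Vq i F (t • y) = Vq i F y := by
  unfold Vq
  simp only [pr_smul_left ht]

theorem bd_Vq (i : ℕ) {F : V → ℝ} (hF : Bd F) : Bd (Vq i F) := by
  obtain ⟨C, hC⟩ := hF.bdd
  have hm : Measurable fun p : V × (Fin i → V) =>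
      D (fun j => pr p.1 (p.2 j)) ^ 2 * ∏ j, F (pr p.1 (p.2 j)) :=
    Measurable.mul (by fun_prop)
      (Finset.measurable_prod _ fun j _ => hF.meas.comp (by fun_prop))
  refine ⟨(hm.stronglyMeasurable.integral_prod_right' (ν := γk V i)).measurable,
    ∫ x, (∏ j, ‖x j‖ ^ 2) * C ^ i ∂(γk V i), fun y => ?_⟩
  rw [← Real.norm_eq_abs]
  refine norm_integral_le_of_norm_le ((integrable_prod_norm_pow i 2).mul_const _)
    (ae_of_all _ fun x => ?_)
  rw [Real.norm_eq_abs, abs_mul, abs_of_nonneg (sq_nonneg _), Finset.abs_prod]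
  refine mul_le_mul ?_ ?_ (Finset.prod_nonneg fun _ _ => abs_nonneg _)
    (Finset.prod_nonneg fun _ _ => sq_nonneg _)
  · rw [Finset.prod_pow]
    refine pow_le_pow_left₀ (D_nonneg _) ((D_le_prod _).trans ?_) 2
    exact Finset.prod_le_prod (fun _ _ => norm_nonneg _) fun j _ => norm_pr_le _ _
  · calc ∏ j, |F (pr y (x j))| ≤ ∏ _j : Fin i, C :=
          Finset.prod_le_prod (fun _ _ => abs_nonneg _) fun j _ => hC _
      _ = C ^ i := by simp

theorem bp_supp' {i : ℕ} (hi : i + 1 ≤ finrank ℝ V) : ∃ c : ℝ, 0 < c ∧ ∀ F : V → ℝ, Bd F →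
    (∀ x, 0 ≤ F x) → ∀ u : V,
      ∫ x, D x * ‖Pj i x u‖ * ∏ j, F (x j) ∂(γk V i) = c * hz (Vq i F) u := by
  obtain ⟨C, hC0, hCt, h⟩ := bp 1 i (finrank ℝ V) hi
  have hc := c0_pos
  refine ⟨C.toReal / c0, div_pos (ENNReal.toReal_pos hC0 hCt) hc, fun F hF h0 u => ?_⟩
  have hprod : Measurable fun x : Fin i → V => ∏ j, F (x j) :=
    Finset.measurable_prod _ fun j _ => hF.meas.comp (measurable_pi_apply j)
  have hA : Measurable fun x : Fin i → V => ENNReal.ofReal (D x * ∏ j, F (x j)) :=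
    ((measurable_D measurable_id).mul hprod).ennreal_ofReal
  have hφ : Measurable fun y : V => ENNReal.ofReal |⟪u, y⟫| :=
    Measurable.ennreal_ofReal (by fun_prop)
  have key := h V rfl (fun q => ENNReal.ofReal (D q.1 * ∏ j, F (q.1 j)) * ENNReal.ofReal |⟪u, q.2⟫|)
    ((hA.comp measurable_fst).mul (hφ.comp measurable_snd))
    (fun x y t ht => by
      simp only
      rw [real_inner_smul_right, abs_mul, abs_of_pos ht, pow_one, ENNReal.ofReal_mul ht.le]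
      ring)
  simp only at key
  have hpn : ∀ x : Fin i → V, 0 ≤ ∏ j, F (x j) := fun x => Finset.prod_nonneg fun j _ => h0 _
  have e1 : ∀ x : Fin i → V, ∫⁻ b, ENNReal.ofReal (D x * ∏ j, F (x j)) *
      ENNReal.ofReal |⟪u, Pj i x b⟫| ∂(stdGaussian V)
      = ENNReal.ofReal (c0 * (D x * ‖Pj i x u‖ * ∏ j, F (x j))) := by
    intro x
    rw [lintegral_const_mul' _ _ ENNReal.ofReal_ne_top]
    simp only [← inner_Pj_comm]
    rw [← ofReal_integral_eq_lintegral_ofReal (integrable_abs_inner _)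
      (ae_of_all _ fun _ => abs_nonneg _), integral_abs_inner,
      ← ENNReal.ofReal_mul (mul_nonneg (D_nonneg _) (hpn x))]
    congr 1
    ring
  have e2 : ∀ b : V, ∫⁻ x, ENNReal.ofReal (D fun j => pr b (x j)) *
      (ENNReal.ofReal (D (fun j => pr b (x j)) * ∏ j, F (pr b (x j))) * ENNReal.ofReal |⟪u, b⟫|)
      ∂(γk V i) = ENNReal.ofReal (|⟪u, b⟫| * Vq i F b) := by
    intro b
    have e3 : ∀ x : Fin i → V, ENNReal.ofReal (D fun j => pr b (x j)) *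
        (ENNReal.ofReal (D (fun j => pr b (x j)) * ∏ j, F (pr b (x j))) * ENNReal.ofReal |⟪u, b⟫|)
        = ENNReal.ofReal |⟪u, b⟫| *
          ENNReal.ofReal (D (fun j => pr b (x j)) ^ 2 * ∏ j, F (pr b (x j))) := fun x => by
      rw [← mul_assoc, ← ENNReal.ofReal_mul (D_nonneg _), mul_comm, ← mul_assoc, ← sq]
    simp only [e3]
    rw [lintegral_const_mul' _ _ ENNReal.ofReal_ne_top, ← ofReal_integral_eq_lintegral_ofReal
      (integrable_Vq i hF b) (ae_of_all _ fun x =>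
        mul_nonneg (sq_nonneg _) (Finset.prod_nonneg fun j _ => h0 _)),
      ← ENNReal.ofReal_mul (abs_nonneg _)]
    rfl
  simp only [e1, e2] at key
  have hmL : Measurable fun x : Fin i → V => c0 * (D x * ‖Pj i x u‖ * ∏ j, F (x j)) :=
    (((measurable_D measurable_id).mul
      (measurable_Pj i measurable_id measurable_const).norm).mul hprod).const_mul _
  have hmR : Measurable fun b : V => |⟪u, b⟫| * Vq i F b :=
    Measurable.mul (by fun_prop) (bd_Vq i hF).meas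
  have key2 := congrArg ENNReal.toReal key
  rw [← integral_eq_lintegral_of_nonneg_ae (ae_of_all _ fun x =>
      mul_nonneg hc.le (mul_nonneg (mul_nonneg (D_nonneg _) (norm_nonneg _)) (hpn x)))
      hmL.aestronglyMeasurable,
    ENNReal.toReal_mul, ← integral_eq_lintegral_of_nonneg_ae (ae_of_all _ fun b =>
      mul_nonneg (abs_nonneg _) (Vq_nonneg i h0 b)) hmR.aestronglyMeasurable,
    integral_const_mul] at key2
  rw [hz, div_mul_eq_mul_div, eq_div_iff hc.ne', ← key2, mul_comm]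

end Pool.Agent.P.MP_181257_gt
end
end

-- part Pool.Agent.P.MP_181257_gt.HiF2
section

/-! Second differences of the cosine transform. -/

set_option autoImplicit false
set_option linter.unusedSectionVars false
set_option linter.unusedVariables false

open MeasureTheory ProbabilityTheory Module Set Filter Topology
open scoped RealInnerProductSpace ENNReal Pointwise Matrix

noncomputable section

namespace Pool.Agent.P.MP_181257_gt

variable {V : Type} [NormedAddCommGroup V] [InnerProductSpace ℝ V] [FiniteDimensional ℝ V]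
  [MeasurableSpace V] [BorelSpace V]

theorem tent_pt_HiF2 (s b : ℝ) : |s + b| + |s - b| - 2 * |s| = 2 * max (|b| - |s|) 0 := by
  rcases le_total (|b| - |s|) 0 with h | h
  · rw [max_eq_right h]
    rcases abs_cases s with h1 | h1 <;> rcases abs_cases b with h2 | h2 <;>
      rcases abs_cases (s + b) with h3 | h3 <;> rcases abs_cases (s - b) with h4 | h4 <;>
      linarith [h1.1, h1.2, h2.1, h2.2, h3.1, h3.2, h4.1, h4.2]
  · rw [max_eq_left h]
    rcases abs_cases s with h1 | h1 <;> rcases abs_cases b with h2 | h2 <;>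
      rcases abs_cases (s + b) with h3 | h3 <;> rcases abs_cases (s - b) with h4 | h4 <;>
      linarith [h1.1, h1.2, h2.1, h2.2, h3.1, h3.2, h4.1, h4.2]

theorem tent_integrable_HiF2 (A : ℝ) : Integrable (fun σ : ℝ => max (A - |σ|) 0) := by
  refine Continuous.integrable_of_hasCompactSupport (by fun_prop) ?_
  refine HasCompactSupport.intro (isCompact_Icc (a := -|A|) (b := |A|)) fun x hx => ?_
  refine max_eq_right ?_
  by_contra h
  push Not at h
  have h1 : |x| ≤ |A| := by linarith [le_abs_self A]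
  exact hx (abs_le.1 h1)

theorem tent_integral_HiF2 {A : ℝ} (hA : 0 ≤ A) : ∫ σ : ℝ, max (A - |σ|) 0 = A ^ 2 := by
  rw [integral_comp_abs (f := fun x => max (A - x) 0)]
  have h1 : ∫ x in Ioi (0 : ℝ), max (A - x) 0 = ∫ x in Ioc (0 : ℝ) A, max (A - x) 0 := by
    refine setIntegral_eq_of_subset_of_forall_sdiff_eq_zero measurableSet_Ioi Ioc_subset_Ioi_self
      fun x hx => max_eq_right ?_
    have h2 : ¬ x ≤ A := fun h => hx.2 ⟨hx.1, h⟩
    linarith [not_le.1 h2]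
  have h2 : ∫ x in Ioc (0 : ℝ) A, max (A - x) 0 = ∫ x in Ioc (0 : ℝ) A, (A - x) :=
    setIntegral_congr_fun measurableSet_Ioc fun x hx => max_eq_left (by linarith [hx.2])
  rw [h1, h2, ← intervalIntegral.integral_of_le hA,
    intervalIntegral.integral_sub (by simp) (by simp)]
  simp only [intervalIntegral.integral_const, integral_id, smul_eq_mul]
  ring

theorem pdf_le_HiF2 (x : ℝ) : gaussianPDFReal 0 1 x ≤ gaussianPDFReal 0 1 0 := by
  unfold gaussianPDFReal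
  refine mul_le_mul_of_nonneg_left (Real.exp_le_exp.2 ?_) (by positivity)
  simp only [sub_zero, NNReal.coe_one, mul_one, ne_eq, OfNat.ofNat_ne_zero, not_false_eq_true,
    zero_pow, neg_zero, zero_div]
  nlinarith [sq_nonneg x]

theorem pdf_cont_HiF2 : Continuous (gaussianPDFReal 0 1) := by
  unfold gaussianPDFReal
  fun_prop

theorem line_eq_HiF2 (G : ℝ → ℝ) (A : ℝ) {t : ℝ} (ht : 0 < t) :
    (∫ s, 2 * max (t * A - |s|) 0 * G s ∂(gaussianReal 0 1)) / t ^ 2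
      = ∫ σ, 2 * max (A - |σ|) 0 * G (t * σ) * gaussianPDFReal 0 1 (t * σ) := by
  rw [integral_gaussianReal_eq_integral_smul one_ne_zero]
  have h := Measure.integral_comp_mul_left
    (fun s : ℝ => gaussianPDFReal 0 1 s • (2 * max (t * A - |s|) 0 * G s)) t
  have h2 : ∀ σ : ℝ, gaussianPDFReal 0 1 (t * σ) • (2 * max (t * A - |t * σ|) 0 * G (t * σ))
      = t * (2 * max (A - |σ|) 0 * G (t * σ) * gaussianPDFReal 0 1 (t * σ)) := by
    intro σ
    have : max (t * A - |t * σ|) 0 = t * max (A - |σ|) 0 := by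
      rw [mul_max_of_nonneg _ _ ht.le, abs_mul, abs_of_pos ht, mul_zero, mul_sub]
    rw [this, smul_eq_mul]
    ring
  simp only [h2] at h
  rw [integral_const_mul, abs_of_pos (inv_pos.2 ht), smul_eq_mul] at h
  rw [div_eq_iff (by positivity)]
  have h3 := congrArg (fun z => t * z) h
  rw [← mul_assoc t t⁻¹, mul_inv_cancel₀ ht.ne', one_mul] at h3
  rw [← h3]
  ring

theorem line_bd_HiF2 {G : ℝ → ℝ} {C : ℝ} (hC : ∀ s, |G s| ≤ C) (A t σ : ℝ) :
    ‖2 * max (A - |σ|) 0 * G (t * σ) * gaussianPDFReal 0 1 (t * σ)‖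
      ≤ 2 * C * gaussianPDFReal 0 1 0 * max (A - |σ|) 0 := by
  have h0 : 0 ≤ max (A - |σ|) 0 := le_max_right _ _
  have h1 := gaussianPDFReal_nonneg 0 1 (t * σ)
  have hC0 : 0 ≤ C := (abs_nonneg _).trans (hC 0)
  rw [Real.norm_eq_abs, abs_mul, abs_mul, abs_mul, abs_of_nonneg h0, abs_of_nonneg h1, abs_two]
  calc 2 * max (A - |σ|) 0 * |G (t * σ)| * gaussianPDFReal 0 1 (t * σ)
      ≤ 2 * max (A - |σ|) 0 * C * gaussianPDFReal 0 1 0 := by
        gcongr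
        · exact hC _
        · exact pdf_le_HiF2 _
    _ = _ := by ring

theorem line_le_HiF2 {G : ℝ → ℝ} {C : ℝ} (hC : ∀ s, |G s| ≤ C) {A : ℝ} (hA : 0 ≤ A) {t : ℝ}
    (ht : 0 < t) :
    ‖(∫ s, 2 * max (t * A - |s|) 0 * G s ∂(gaussianReal 0 1)) / t ^ 2‖
      ≤ 2 * C * gaussianPDFReal 0 1 0 * A ^ 2 := by
  rw [line_eq_HiF2 G A ht, ← tent_integral_HiF2 hA, ← integral_const_mul]
  exact norm_integral_le_of_norm_le ((tent_integrable_HiF2 A).const_mul _)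
    (Eventually.of_forall fun σ => line_bd_HiF2 hC A t σ)

theorem line_tendsto_HiF2 {G : ℝ → ℝ} (hG : Measurable G) {C : ℝ} (hC : ∀ s, |G s| ≤ C)
    (hc : ContinuousAt G 0) {A : ℝ} (hA : 0 ≤ A) :
    Tendsto (fun t : ℝ => (∫ s, 2 * max (t * A - |s|) 0 * G s ∂(gaussianReal 0 1)) / t ^ 2)
      (𝓝[>] 0) (𝓝 (c2 * (A ^ 2 * G 0))) := by
  have h1 : Tendsto (fun t : ℝ =>
      ∫ σ, 2 * max (A - |σ|) 0 * G (t * σ) * gaussianPDFReal 0 1 (t * σ)) (𝓝[>] 0)
      (𝓝 (∫ σ, 2 * max (A - |σ|) 0 * G 0 * gaussianPDFReal 0 1 0)) := by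
    refine tendsto_integral_filter_of_dominated_convergence
      (fun σ => 2 * C * gaussianPDFReal 0 1 0 * max (A - |σ|) 0)
      (Eventually.of_forall fun t => ?_)
      (Eventually.of_forall fun t => Eventually.of_forall fun σ => line_bd_HiF2 hC A t σ)
      ((tent_integrable_HiF2 A).const_mul _) (Eventually.of_forall fun σ => ?_)
    · have hp := pdf_cont_HiF2.measurable
      refine Measurable.aestronglyMeasurable ?_
      fun_prop
    · have h0 : Tendsto (fun t : ℝ => t * σ) (𝓝[>] 0) (𝓝 0) := by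
        have : Tendsto (fun t : ℝ => t * σ) (𝓝 0) (𝓝 (0 * σ)) :=
          (continuous_id.mul continuous_const).tendsto 0
        rw [zero_mul] at this
        exact this.mono_left nhdsWithin_le_nhds
      exact (tendsto_const_nhds.mul (hc.tendsto.comp h0)).mul
        ((pdf_cont_HiF2.tendsto 0).comp h0)
  have h2 : ∫ σ : ℝ, 2 * max (A - |σ|) 0 * G 0 * gaussianPDFReal 0 1 0 = c2 * (A ^ 2 * G 0) := by
    rw [integral_mul_const, integral_mul_const, integral_const_mul, tent_integral_HiF2 hA, c2]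
    ring
  rw [h2] at h1
  refine h1.congr' ?_
  filter_upwards [self_mem_nhdsWithin] with t ht
  exact (line_eq_HiF2 G A ht).symm

theorem hz_second (hn : 2 ≤ finrank ℝ V) {F : V → ℝ} (hF : Bd F) (hc : ContinuousOn F {0}ᶜ)
    {u v : V} (hu : ‖u‖ = 1) (huv : ⟪u, v⟫ = 0) :
    Tendsto (fun t : ℝ => (hz F (u + t • v) + hz F (u - t • v) - 2 * hz F u) / t ^ 2) (𝓝[>] 0)
      (𝓝 (c2 * Mf F u v v)) := by
  obtain ⟨C, hC⟩ := hF.bdd
  have hFm := hF.meas
  have hu0 : u ≠ 0 := by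
    rintro rfl
    simp at hu
  obtain ⟨m, hm⟩ : ∃ m, finrank ℝ V = m + 2 := ⟨finrank ℝ V - 2, by omega⟩
  have hmp := mp_pr_split hu
  -- the second difference as one integral
  have hint : ∀ t : ℝ, Integrable (fun y => |⟪u + t • v, y⟫| * F y + |⟪u - t • v, y⟫| * F y
      - 2 * (|⟪u, y⟫| * F y)) (stdGaussian V) := fun t =>
    ((proj_integrable_hz hF _).add (proj_integrable_hz hF _)).sub
      ((proj_integrable_hz hF u).const_mul 2)
  have hpt : ∀ t : ℝ, 0 < t → ∀ q : V × ℝ,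
      |⟪u + t • v, pr u q.1 + q.2 • u⟫| * F (pr u q.1 + q.2 • u)
        + |⟪u - t • v, pr u q.1 + q.2 • u⟫| * F (pr u q.1 + q.2 • u)
        - 2 * (|⟪u, pr u q.1 + q.2 • u⟫| * F (pr u q.1 + q.2 • u))
      = 2 * max (t * |⟪v, pr u q.1⟫| - |q.2|) 0 * F (pr u q.1 + q.2 • u) := by
    intro t ht q
    have e1 : ⟪u, pr u q.1 + q.2 • u⟫ = q.2 := by
      rw [inner_add_right, inner_pr_self, real_inner_smul_right, real_inner_self_eq_norm_sq, hu]
      ring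
    have e2 : ⟪v, pr u q.1 + q.2 • u⟫ = ⟪v, pr u q.1⟫ := by
      rw [inner_add_right, real_inner_smul_right, real_inner_comm u v, huv]
      ring
    rw [inner_add_left, inner_sub_left, real_inner_smul_left, e1, e2]
    have e3 := tent_pt_HiF2 q.2 (t * ⟪v, pr u q.1⟫)
    rw [abs_mul t, abs_of_pos ht] at e3
    rw [← e3]
    ring
  have hprod : ∀ t : ℝ, 0 < t → Integrable (fun q : V × ℝ =>
      2 * max (t * |⟪v, pr u q.1⟫| - |q.2|) 0 * F (pr u q.1 + q.2 • u))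
      ((stdGaussian V).prod (gaussianReal 0 1)) := by
    intro t ht
    have h1 := (hmp.integrable_comp (hint t).aestronglyMeasurable).2 (hint t)
    refine h1.congr (Eventually.of_forall fun q => ?_)
    exact hpt t ht q
  have heq : ∀ t : ℝ, 0 < t → (hz F (u + t • v) + hz F (u - t • v) - 2 * hz F u) / t ^ 2
      = ∫ g, (∫ s, 2 * max (t * |⟪v, pr u g⟫| - |s|) 0 * F (pr u g + s • u)
          ∂(gaussianReal 0 1)) / t ^ 2 ∂(stdGaussian V) := by
    intro t ht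
    rw [integral_div, ← integral_prod _ (hprod t ht)]
    congr 1
    unfold hz
    have ha : Integrable (fun y => |⟪u + t • v, y⟫| * F y + |⟪u - t • v, y⟫| * F y)
        (stdGaussian V) := (proj_integrable_hz hF _).add (proj_integrable_hz hF _)
    rw [← integral_add (proj_integrable_hz hF _) (proj_integrable_hz hF _), ← integral_const_mul,
      ← integral_sub ha ((proj_integrable_hz hF u).const_mul 2),
      ← af_mp_integral hmp (hint t).aestronglyMeasurable]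
    exact integral_congr_ae (Eventually.of_forall fun q => hpt t ht q)
  have hlim : Tendsto (fun t : ℝ => ∫ g, (∫ s, 2 * max (t * |⟪v, pr u g⟫| - |s|) 0
      * F (pr u g + s • u) ∂(gaussianReal 0 1)) / t ^ 2 ∂(stdGaussian V)) (𝓝[>] 0)
      (𝓝 (∫ g, c2 * (|⟪v, pr u g⟫| ^ 2 * F (pr u g + (0 : ℝ) • u)) ∂(stdGaussian V))) := by
    refine tendsto_integral_filter_of_dominated_convergence
      (fun g => 2 * C * gaussianPDFReal 0 1 0 * |⟪v, pr u g⟫| ^ 2) ?_ ?_ ?_ ?_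
    · filter_upwards [self_mem_nhdsWithin] with t ht
      exact ((hprod t ht).integral_prod_left.div_const _).aestronglyMeasurable
    · filter_upwards [self_mem_nhdsWithin] with t ht
      exact Eventually.of_forall fun g =>
        line_le_HiF2 (G := fun s => F (pr u g + s • u)) (fun s => hC _) (abs_nonneg _) ht
    · refine Integrable.const_mul ?_ _
      refine (integrable_inner_pow (pr u v) 2).congr (Eventually.of_forall fun g => ?_)
      simp only [sq_abs, inner_pr_comm]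
    · filter_upwards [bp_ae_pr hm hu0] with g hg
      refine line_tendsto_HiF2 (G := fun s => F (pr u g + s • u)) (by fun_prop)
        (fun s => hC _) ?_ (abs_nonneg _)
      have h1 : ContinuousAt F (pr u g + (0 : ℝ) • u) := by
        rw [zero_smul, add_zero]
        exact hc.continuousAt (isOpen_compl_singleton.mem_nhds hg)
      exact ContinuousAt.comp (f := fun s : ℝ => pr u g + s • u) h1 (by fun_prop)
  have hval : ∫ g, c2 * (|⟪v, pr u g⟫| ^ 2 * F (pr u g + (0 : ℝ) • u)) ∂(stdGaussian V)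
      = c2 * Mf F u v v := by
    rw [integral_const_mul, Mf]
    congr 1
    refine integral_congr_ae (Eventually.of_forall fun g => ?_)
    simp only [zero_smul, add_zero, sq_abs]
    ring
  rw [hval] at hlim
  refine hlim.congr' ?_
  filter_upwards [self_mem_nhdsWithin] with t ht
  exact (heq t ht).symm

end Pool.Agent.P.MP_181257_gt
end
end

-- part Pool.Agent.P.MP_181257_gt.HiF3
section

/-! Second differences of a mean norm. -/

set_option autoImplicit false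
set_option linter.unusedSectionVars false
set_option linter.unusedVariables false

open MeasureTheory ProbabilityTheory Module Set Filter Topology
open scoped RealInnerProductSpace ENNReal Pointwise Matrix

noncomputable section

namespace Pool.Agent.P.MP_181257_gt

variable {V : Type} [NormedAddCommGroup V] [InnerProductSpace ℝ V] [FiniteDimensional ℝ V]
  [MeasurableSpace V] [BorelSpace V]

theorem sq_add_HiF3 (a b : V) (t : ℝ) :
    ‖a + t • b‖ ^ 2 = ‖a‖ ^ 2 + 2 * t * ⟪b, a⟫ + t ^ 2 * ‖b‖ ^ 2 := by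
  rw [norm_add_sq_real, real_inner_smul_right, norm_smul, mul_pow, Real.norm_eq_abs, sq_abs,
    real_inner_comm]
  ring

theorem sq_sub_HiF3 (a b : V) (t : ℝ) :
    ‖a - t • b‖ ^ 2 = ‖a‖ ^ 2 - 2 * t * ⟪b, a⟫ + t ^ 2 * ‖b‖ ^ 2 := by
  rw [norm_sub_sq_real, real_inner_smul_right, norm_smul, mul_pow, Real.norm_eq_abs, sq_abs,
    real_inner_comm]
  ring

theorem tri_HiF3 (a b : V) (t : ℝ) : 2 * ‖a‖ ≤ ‖a + t • b‖ + ‖a - t • b‖ := by
  have h := norm_add_le (a + t • b) (a - t • b)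
  have e : a + t • b + (a - t • b) = (2 : ℝ) • a := by rw [two_smul]; abel
  rw [e, norm_smul] at h
  simpa using h

theorem alg_HiF3 {x y A p B t : ℝ} (hA : 0 < A) (hx : 0 ≤ x) (hy : 0 ≤ y) (hxy : 2 * A ≤ x + y)
    (ht : 0 < t) (h1 : x ^ 2 = A ^ 2 + 2 * t * p + t ^ 2 * B)
    (h2 : y ^ 2 = A ^ 2 - 2 * t * p + t ^ 2 * B) :
    (x + y - 2 * A) / t ^ 2
      = B * (1 / (x + A) + 1 / (y + A)) - 8 * p ^ 2 / ((x + A) * (y + A) * (x + y)) := by
  have a1 : 0 < x + A := by linarith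
  have a2 : 0 < y + A := by linarith
  have a3 : 0 < x + y := by linarith
  have e1 : x - A = (2 * t * p + t ^ 2 * B) / (x + A) := by
    rw [eq_div_iff a1.ne']; linarith
  have e2 : y - A = (-(2 * t * p) + t ^ 2 * B) / (y + A) := by
    rw [eq_div_iff a2.ne']; linarith
  have e3 : y - x = -(4 * t * p) / (x + y) := by
    rw [eq_div_iff a3.ne']; linarith
  have e4 : x + y - 2 * A = t ^ 2 * B * (1 / (x + A) + 1 / (y + A))
      + 2 * t * p * (y - x) / ((x + A) * (y + A)) := by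
    have : x + y - 2 * A = (x - A) + (y - A) := by ring
    rw [this, e1, e2]
    field_simp
    ring
  rw [e4, e3]
  field_simp
  ring

theorem norm_second {a : V} (ha : a ≠ 0) (b : V) :
    Tendsto (fun t : ℝ => (‖a + t • b‖ + ‖a - t • b‖ - 2 * ‖a‖) / t ^ 2) (𝓝[>] 0)
      (𝓝 (⟪b, b⟫ / ‖a‖ - ⟪b, a⟫ * ⟪b, a⟫ / ‖a‖ ^ 3)) := by
  have hA : 0 < ‖a‖ := norm_pos_iff.2 ha
  have cx : Tendsto (fun t : ℝ => ‖a + t • b‖) (𝓝 0) (𝓝 ‖a‖) := by
    have : Continuous fun t : ℝ => ‖a + t • b‖ := by fun_prop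
    simpa using this.tendsto 0
  have cy : Tendsto (fun t : ℝ => ‖a - t • b‖) (𝓝 0) (𝓝 ‖a‖) := by
    have : Continuous fun t : ℝ => ‖a - t • b‖ := by fun_prop
    simpa using this.tendsto 0
  have h2 : ‖a‖ + ‖a‖ ≠ 0 := by positivity
  have key : Tendsto (fun t : ℝ => ‖b‖ ^ 2 * (1 / (‖a + t • b‖ + ‖a‖) + 1 / (‖a - t • b‖ + ‖a‖))
      - 8 * ⟪b, a⟫ ^ 2 / ((‖a + t • b‖ + ‖a‖) * (‖a - t • b‖ + ‖a‖)
        * (‖a + t • b‖ + ‖a - t • b‖))) (𝓝 0)
      (𝓝 (‖b‖ ^ 2 * (1 / (‖a‖ + ‖a‖) + 1 / (‖a‖ + ‖a‖))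
        - 8 * ⟪b, a⟫ ^ 2 / ((‖a‖ + ‖a‖) * (‖a‖ + ‖a‖) * (‖a‖ + ‖a‖)))) :=
    (((tendsto_const_nhds.div (cx.add_const _) h2).add
      (tendsto_const_nhds.div (cy.add_const _) h2)).const_mul _).sub
      (tendsto_const_nhds.div (((cx.add_const _).mul (cy.add_const _)).mul (cx.add cy))
        (by positivity))
  have e : ‖b‖ ^ 2 * (1 / (‖a‖ + ‖a‖) + 1 / (‖a‖ + ‖a‖))
        - 8 * ⟪b, a⟫ ^ 2 / ((‖a‖ + ‖a‖) * (‖a‖ + ‖a‖) * (‖a‖ + ‖a‖))
      = ⟪b, b⟫ / ‖a‖ - ⟪b, a⟫ * ⟪b, a⟫ / ‖a‖ ^ 3 := by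
    rw [real_inner_self_eq_norm_sq]
    field_simp
    ring
  rw [e] at key
  refine (key.mono_left nhdsWithin_le_nhds).congr' ?_
  filter_upwards [self_mem_nhdsWithin] with t ht
  exact (alg_HiF3 hA (norm_nonneg _) (norm_nonneg _) (tri_HiF3 a b t) ht (sq_add_HiF3 a b t)
    (sq_sub_HiF3 a b t)).symm

theorem norm_second_le {a : V} (ha : a ≠ 0) (b : V) {t : ℝ} (ht : 0 < t) :
    |(‖a + t • b‖ + ‖a - t • b‖ - 2 * ‖a‖) / t ^ 2| ≤ ‖b‖ ^ 2 / ‖a‖ := by
  have hA : 0 < ‖a‖ := norm_pos_iff.2 ha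
  have h0 := tri_HiF3 a b t
  have h1 := sq_add_HiF3 a b t
  have h2 := sq_sub_HiF3 a b t
  rw [abs_of_nonneg (div_nonneg (by linarith) (sq_nonneg _)),
    div_le_div_iff₀ (by positivity) hA]
  nlinarith [sq_nonneg (‖a + t • b‖ - ‖a‖), sq_nonneg (‖a - t • b‖ - ‖a‖)]

theorem Phi_pr_HiF3 (T : V →L[ℝ] V) (u a : V) : Phi T u (pr u a) (pr u a) = Phi T u a a := by
  by_cases h : T u = 0
  · simp [Phi, h]
  · have hA : 0 < ‖T u‖ := norm_pos_iff.2 h
    simp only [Phi, pr, map_sub, map_smul, inner_sub_left, inner_sub_right, real_inner_smul_left,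
      real_inner_smul_right, real_inner_self_eq_norm_sq, real_inner_comm (T a) (T u), norm_smul,
      mul_pow, Real.norm_eq_abs, sq_abs]
    generalize ⟪u, a⟫ / ‖u‖ ^ 2 = s
    field_simp
    ring

theorem Phi_pol_HiF3 (T : V →L[ℝ] V) (u a b : V) :
    4 * Phi T u a b = Phi T u (a + b) (a + b) - Phi T u (a - b) (a - b) := by
  simp only [Phi, map_add, map_sub, inner_add_left, inner_add_right, inner_sub_left,
    inner_sub_right, real_inner_comm (T a) (T b)]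
  ring

theorem Mf_pol_HiF3 {F : V → ℝ} (hF : Bd F) (u a b : V) :
    4 * Mf F u a b = Mf F u (a + b) (a + b) - Mf F u (a - b) (a - b) := by
  have hs : ∀ x y z : V, Mf F u (x - y) z = Mf F u x z - Mf F u y z := fun x y z => by
    rw [sub_eq_add_neg, Mf_add hF, ← neg_one_smul ℝ y, Mf_smul]
    ring
  rw [Mf_add hF, hs, Mf_symm F u a (a + b), Mf_symm F u b (a + b), Mf_symm F u a (a - b),
    Mf_symm F u b (a - b), Mf_add hF, Mf_add hF, hs, hs, Mf_symm F u b a]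
  ring

theorem Mf_eq_Phi (hn : 2 ≤ finrank ℝ V) {Ω : Type} [MeasurableSpace Ω] (κ : Measure Ω)
    [IsProbabilityMeasure κ] (T : Ω → V →L[ℝ] V) (hTm : ∀ v, Measurable fun ω => T ω v)
    (hT : ∀ ω v, ‖T ω v‖ ≤ ‖v‖) {F : V → ℝ} (hF : Bd F) (hc : ContinuousOn F {0}ᶜ) {c : ℝ}
    (h : ∀ w, hz F w = c * ∫ ω, ‖T ω w‖ ∂κ) {u : V} (hu : ‖u‖ = 1)
    (hfin : ∫⁻ ω, (ENNReal.ofReal ‖T ω u‖)⁻¹ ∂κ ≠ ∞) (a b : V) :
    c2 * Mf F u a b = c * ∫ ω, Phi (T ω) u a b ∂κ := by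
  have hm : Measurable fun ω => (ENNReal.ofReal ‖T ω u‖)⁻¹ :=
    (ENNReal.measurable_ofReal.comp (hTm u).norm).inv
  have hne : ∀ᵐ ω ∂κ, T ω u ≠ 0 := by
    filter_upwards [ae_lt_top hm hfin] with ω hω h0
    simp [h0] at hω
  have hinv : Integrable (fun ω => ‖T ω u‖⁻¹) κ := by
    refine (integrable_toReal_of_lintegral_ne_top hm.aemeasurable hfin).congr
      (Eventually.of_forall fun ω => ?_)
    simp
  have hPm : ∀ x y, Measurable fun ω => Phi (T ω) u x y := fun x y =>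
    (((hTm x).inner (hTm y)).div (hTm u).norm).sub
      ((((hTm x).inner (hTm u)).mul ((hTm y).inner (hTm u))).div ((hTm u).norm.pow_const 3))
  have hPi : ∀ x y, Integrable (fun ω => Phi (T ω) u x y) κ := fun x y => by
    refine (hinv.const_mul (2 * (‖x‖ * ‖y‖))).mono' (hPm x y).aestronglyMeasurable
      (Eventually.of_forall fun ω => ?_)
    rw [Real.norm_eq_abs, ← div_eq_mul_inv]
    exact abs_Phi_le (hT ω) u x y
  have hNi : ∀ w, Integrable (fun ω => ‖T ω w‖) κ := fun w =>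
    Integrable.of_bound (C := ‖w‖) (hTm w).norm.aestronglyMeasurable
      (Eventually.of_forall fun ω => by simpa using hT ω w)
  have hdiag : ∀ v, ⟪u, v⟫ = 0 → c2 * Mf F u v v = c * ∫ ω, Phi (T ω) u v v ∂κ := by
    intro v huv
    have t1 := hz_second hn hF hc hu huv
    have t2 : Tendsto (fun t : ℝ => ∫ ω, (‖T ω u + t • T ω v‖ + ‖T ω u - t • T ω v‖
        - 2 * ‖T ω u‖) / t ^ 2 ∂κ) (𝓝[>] 0) (𝓝 (∫ ω, Phi (T ω) u v v ∂κ)) := by
      refine tendsto_integral_filter_of_dominated_convergence (fun ω => ‖v‖ ^ 2 * ‖T ω u‖⁻¹)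
        (Eventually.of_forall fun t => ?_) ?_ (hinv.const_mul _) ?_
      · exact ((((((hTm u).add ((hTm v).const_smul t)).norm).add
          (((hTm u).sub ((hTm v).const_smul t)).norm)).sub
          ((hTm u).norm.const_mul 2)).div_const _).aestronglyMeasurable
      · filter_upwards [self_mem_nhdsWithin] with t ht
        filter_upwards [hne] with ω hω
        rw [Real.norm_eq_abs, ← div_eq_mul_inv]
        refine (norm_second_le hω (T ω v) ht).trans ?_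
        exact div_le_div_of_nonneg_right (pow_le_pow_left₀ (norm_nonneg _) (hT ω v) 2)
          (norm_nonneg _)
      · filter_upwards [hne] with ω hω
        exact norm_second hω (T ω v)
    refine tendsto_nhds_unique t1 ((t2.const_mul c).congr fun t => ?_)
    have e : ∀ ω, (‖T ω u + t • T ω v‖ + ‖T ω u - t • T ω v‖ - 2 * ‖T ω u‖) / t ^ 2
        = (‖T ω (u + t • v)‖ + ‖T ω (u - t • v)‖ - 2 * ‖T ω u‖) / t ^ 2 := fun ω => by
      simp only [map_add, map_sub, map_smul]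
    simp only [e]
    have i1 : Integrable (fun ω => ‖T ω (u + t • v)‖ + ‖T ω (u - t • v)‖) κ :=
      (hNi _).add (hNi _)
    rw [integral_div, integral_sub i1 ((hNi _).const_mul 2),
      integral_add (hNi _) (hNi _), integral_const_mul, h, h, h]
    ring
  have hall : ∀ v, c2 * Mf F u v v = c * ∫ ω, Phi (T ω) u v v ∂κ := fun v => by
    have := hdiag (pr u v) (inner_pr_self u v)
    rw [Mf_pr] at this
    simpa only [Phi_pr_HiF3] using this
  have e1 := Mf_pol_HiF3 hF u a b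
  have e2 : 4 * ∫ ω, Phi (T ω) u a b ∂κ
      = ∫ ω, Phi (T ω) u (a + b) (a + b) ∂κ - ∫ ω, Phi (T ω) u (a - b) (a - b) ∂κ := by
    rw [← integral_sub (hPi _ _) (hPi _ _), ← integral_const_mul]
    simp only [Phi_pol_HiF3]
  have e3 := hall (a + b)
  have e4 := hall (a - b)
  have e5 : 4 * (c2 * Mf F u a b) = 4 * (c * ∫ ω, Phi (T ω) u a b ∂κ) := by
    calc 4 * (c2 * Mf F u a b) = c2 * (4 * Mf F u a b) := by ring
      _ = c * (4 * ∫ ω, Phi (T ω) u a b ∂κ) := by rw [e1, e2, mul_sub, mul_sub, e3, e4]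
      _ = _ := by ring
  linarith

end Pool.Agent.P.MP_181257_gt
end
end

-- part Pool.Agent.P.MP_181257_gt.HiF4
section

/-! Gaussian smoothing in the normal directions. -/

set_option autoImplicit false
set_option linter.unusedSectionVars false
set_option linter.unusedVariables false

open MeasureTheory ProbabilityTheory Module Set Filter Topology
open scoped RealInnerProductSpace ENNReal Pointwise Matrix

noncomputable section

namespace Pool.Agent.P.MP_181257_gt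

variable {V : Type} [NormedAddCommGroup V] [InnerProductSpace ℝ V] [FiniteDimensional ℝ V]
  [MeasurableSpace V] [BorelSpace V]

theorem Td_apply_HiF4 (d : ℝ) (P : V →L[ℝ] V) (v : V) : Td d P v = P v + d • (v - P v) := by
  simp [Td]

theorem pU_pU_HiF4 (U : Submodule ℝ V) (v : V) : pU U (pU U v) = pU U v :=
  Submodule.starProjection_eq_self_iff.2 (U.starProjection_apply_mem v)

theorem inner_pU_sub_HiF4 (U : Submodule ℝ V) (v w : V) : ⟪pU U v, w - pU U w⟫ = 0 :=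
  Submodule.inner_right_of_mem_orthogonal (U.starProjection_apply_mem v)
    (U.sub_starProjection_mem_orthogonal w)

theorem norm_sq_Td_HiF4 (d : ℝ) (U : Submodule ℝ V) (v : V) :
    ‖Td d (pU U) v‖ ^ 2 = ‖pU U v‖ ^ 2 + d ^ 2 * ‖v - pU U v‖ ^ 2 := by
  rw [Td_apply_HiF4, norm_add_sq_real, real_inner_smul_right, inner_pU_sub_HiF4, norm_smul,
    mul_pow, Real.norm_eq_abs, sq_abs]
  ring

theorem norm_sq_split_HiF4 (U : Submodule ℝ V) (v : V) :
    ‖v‖ ^ 2 = ‖pU U v‖ ^ 2 + ‖v - pU U v‖ ^ 2 := by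
  have h := norm_sq_Td_HiF4 1 U v
  rw [Td_apply_HiF4, one_smul, add_sub_cancel] at h
  rw [h]; ring

theorem Td_Td_HiF4 (d e : ℝ) (U : Submodule ℝ V) (v : V) :
    Td d (pU U) (Td e (pU U) v) = Td (d * e) (pU U) v := by
  have h : pU U (Td e (pU U) v) = pU U v := by
    rw [Td_apply_HiF4, map_add, map_smul, map_sub, pU_pU_HiF4, sub_self, smul_zero, add_zero]
  rw [Td_apply_HiF4 d, h, Td_apply_HiF4, Td_apply_HiF4, add_sub_cancel_left, smul_smul]

theorem Td_one_HiF4 (P : V →L[ℝ] V) (v : V) : Td 1 P v = v := by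
  rw [Td_apply_HiF4, one_smul, add_sub_cancel]

theorem coef_nonneg_HiF4 {d : ℝ} (h0 : 0 < d) (h1 : d ≤ 1) : 0 ≤ d⁻¹ ^ 2 - 1 := by
  have h : 1 ≤ d⁻¹ := (one_le_inv₀ h0).2 h1
  nlinarith

theorem Gd_pos_HiF4 (d : ℝ) (P : V →L[ℝ] V) (x : V) : 0 < Gd d P x := Real.exp_pos _

theorem Gd_le_one_HiF4 {d : ℝ} (h0 : 0 < d) (h1 : d ≤ 1) (P : V →L[ℝ] V) (x : V) :
    Gd d P x ≤ 1 := by
  unfold Gd
  rw [Real.exp_le_one_iff]
  have := coef_nonneg_HiF4 h0 h1
  have h2 : 0 ≤ (d⁻¹ ^ 2 - 1) * ‖x - P x‖ ^ 2 / 2 := by positivity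
  linarith

theorem continuous_Gd_HiF4 (d : ℝ) (P : V →L[ℝ] V) : Continuous (Gd d P) := by
  unfold Gd
  fun_prop

theorem integrable_Gd_HiF4 {d : ℝ} (h0 : 0 < d) (h1 : d ≤ 1) (P : V →L[ℝ] V) :
    Integrable (Gd d P) (stdGaussian V) := by
  refine (integrable_const (1 : ℝ)).mono' (continuous_Gd_HiF4 d P).aestronglyMeasurable
    (ae_of_all _ fun x => ?_)
  rw [Real.norm_eq_abs, abs_of_pos (Gd_pos_HiF4 d P x)]
  exact Gd_le_one_HiF4 h0 h1 P x

theorem integral_Gd_pos_HiF4 {d : ℝ} (h0 : 0 < d) (h1 : d ≤ 1) (P : V →L[ℝ] V) :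
    0 < ∫ z, Gd d P z ∂(stdGaussian V) := by
  have h := integrable_Gd_HiF4 h0 h1 P
  unfold Gd at h ⊢
  exact integral_exp_pos h

theorem lintegral_Td_HiF4 {d : ℝ} (h0 : 0 < d) (U : Submodule ℝ V) : ∃ κ : ℝ≥0∞,
    ∀ φ : V → ℝ≥0∞, Measurable φ → ∫⁻ g, φ (Td d (pU U) g) ∂(stdGaussian V)
      = κ * ∫⁻ x, ENNReal.ofReal (Gd d (pU U) x) * φ x ∂(stdGaussian V) := by
  have hdet : LinearMap.det ((Td d (pU U) : V →L[ℝ] V) : V →ₗ[ℝ] V) ≠ 0 := by
    have hc : ((Td d (pU U) : V →L[ℝ] V) : V →ₗ[ℝ] V).comp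
        ((Td d⁻¹ (pU U) : V →L[ℝ] V) : V →ₗ[ℝ] V) = LinearMap.id := by
      ext v
      simp only [LinearMap.comp_apply, ContinuousLinearMap.coe_coe, LinearMap.id_apply]
      rw [Td_Td_HiF4, mul_inv_cancel₀ h0.ne', Td_one_HiF4]
    have h := congrArg LinearMap.det hc
    rw [LinearMap.det_comp, LinearMap.det_id] at h
    exact left_ne_zero_of_mul_eq_one h
  have hmap := Measure.map_linearMap_addHaar_eq_smul_addHaar (volume : Measure V) hdet
  refine ⟨ENNReal.ofReal |(LinearMap.det ((Td d (pU U) : V →L[ℝ] V) : V →ₗ[ℝ] V))⁻¹|,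
    fun φ hφ => ?_⟩
  set ρ : V → ℝ≥0∞ := fun x =>
    ENNReal.ofReal ((2 * Real.pi) ^ (-(finrank ℝ V : ℝ) / 2) * Real.exp (-‖x‖ ^ 2 / 2)) with hρ
  have hρm : Measurable ρ := by rw [hρ]; fun_prop
  have hT : Measurable (Td d (pU U)) := (Td d (pU U)).continuous.measurable
  have hS : Measurable (Td d⁻¹ (pU U)) := (Td d⁻¹ (pU U)).continuous.measurable
  have hG : Measurable fun x => ENNReal.ofReal (Gd d (pU U) x) :=
    (continuous_Gd_HiF4 d (pU U)).measurable.ennreal_ofReal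
  have hρS : ∀ x, ρ (Td d⁻¹ (pU U) x) = ρ x * ENNReal.ofReal (Gd d (pU U) x) := by
    intro x
    simp only [hρ]
    rw [← ENNReal.ofReal_mul (by positivity)]
    congr 1
    unfold Gd
    rw [mul_assoc, ← Real.exp_add, norm_sq_Td_HiF4, norm_sq_split_HiF4 U x]
    congr 2
    ring
  have hγ : stdGaussian V = (volume : Measure V).withDensity ρ := stdGaussian_eq_withDensity
  have e1 : ∫⁻ g, φ (Td d (pU U) g) ∂(stdGaussian V)
      = ∫⁻ g, (fun x => ρ (Td d⁻¹ (pU U) x) * φ x) (Td d (pU U) g) ∂(volume : Measure V) := by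
    have hφT : Measurable fun g => φ (Td d (pU U) g) := hφ.comp hT
    rw [hγ, lintegral_withDensity_eq_lintegral_mul _ hρm hφT]
    refine lintegral_congr fun g => ?_
    simp only [Pi.mul_apply]
    rw [Td_Td_HiF4, inv_mul_cancel₀ h0.ne', Td_one_HiF4]
  have hm : Measurable fun x => ρ (Td d⁻¹ (pU U) x) * φ x := (hρm.comp hS).mul hφ
  rw [e1, ← lintegral_map hm hT]
  have hmap' : Measure.map (Td d (pU U)) (volume : Measure V)
      = ENNReal.ofReal |(LinearMap.det ((Td d (pU U) : V →L[ℝ] V) : V →ₗ[ℝ] V))⁻¹|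
        • (volume : Measure V) := hmap
  rw [hmap', lintegral_smul_measure, smul_eq_mul]
  congr 1
  have hGφ : Measurable fun x => ENNReal.ofReal (Gd d (pU U) x) * φ x := hG.mul hφ
  rw [hγ, lintegral_withDensity_eq_lintegral_mul _ hρm hGφ]
  refine lintegral_congr fun x => ?_
  simp only [Pi.mul_apply]
  rw [hρS, mul_assoc]

theorem norm_Td {d : ℝ} (h0 : 0 ≤ d) (h1 : d ≤ 1) (U : Submodule ℝ V) (v : V) :
    ‖pU U v‖ ≤ ‖Td d (pU U) v‖ ∧ ‖Td d (pU U) v‖ ≤ ‖v‖ ∧ d * ‖v‖ ≤ ‖Td d (pU U) v‖ := by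
  have e1 := norm_sq_Td_HiF4 d U v
  have e2 := norm_sq_split_HiF4 U v
  have hd : d ^ 2 ≤ 1 := by nlinarith
  have ha := sq_nonneg ‖pU U v‖
  have hb := sq_nonneg ‖v - pU U v‖
  have hd0 := sq_nonneg d
  refine ⟨?_, ?_, ?_⟩
  · refine (pow_le_pow_iff_left₀ (norm_nonneg _) (norm_nonneg _) two_ne_zero).1 ?_
    rw [e1]; nlinarith
  · refine (pow_le_pow_iff_left₀ (norm_nonneg _) (norm_nonneg _) two_ne_zero).1 ?_
    rw [e1, e2]; nlinarith
  · refine (pow_le_pow_iff_left₀ (by positivity) (norm_nonneg _) two_ne_zero).1 ?_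
    rw [mul_pow, e1, e2]; nlinarith

theorem inner_Td_comm (d : ℝ) (U : Submodule ℝ V) (v w : V) :
    ⟪Td d (pU U) v, w⟫ = ⟪v, Td d (pU U) w⟫ := by
  have h : ⟪pU U v, w⟫ = ⟪v, pU U w⟫ := U.inner_starProjection_left_eq_right v w
  rw [Td_apply_HiF4, Td_apply_HiF4, inner_add_left, inner_add_right, real_inner_smul_left,
    real_inner_smul_right, inner_sub_left, inner_sub_right, h]

theorem tendsto_Td (P : V →L[ℝ] V) (v : V) :
    Tendsto (fun d : ℝ => Td d P v) (𝓝[>] 0) (𝓝 (P v)) := by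
  have h : Continuous fun d : ℝ => P v + d • (v - P v) := by fun_prop
  have h2 := (h.tendsto 0).mono_left (nhdsWithin_le_nhds (s := Ioi (0 : ℝ)))
  simp only [zero_smul, add_zero] at h2
  simpa only [Td_apply_HiF4] using h2

theorem measurable_Td (d : ℝ) (i : ℕ) :
    Measurable fun p : (Fin i → V) × V => Td d (Pj i p.1) p.2 := by
  have h : Measurable fun p : (Fin i → V) × V => Pj i p.1 p.2 :=
    measurable_Pj i measurable_fst measurable_snd
  simp only [Td_apply_HiF4]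
  exact h.add ((measurable_snd.sub h).const_smul d)

theorem Fd_bound {d : ℝ} (h0 : 0 < d) (h1 : d ≤ 1) : ∃ C : ℝ, ∀ (U : Submodule ℝ V) (x : V),
    0 ≤ Fd d (pU U) x ∧ Fd d (pU U) x ≤ C := by
  have hpos := integral_Gd_pos_HiF4 h0 h1 (0 : V →L[ℝ] V)
  refine ⟨1 / ∫ z, Gd d (0 : V →L[ℝ] V) z ∂(stdGaussian V), fun U x => ⟨?_, ?_⟩⟩
  · exact div_nonneg (Gd_pos_HiF4 d _ x).le (integral_Gd_pos_HiF4 h0 h1 _).le
  · unfold Fd
    refine div_le_div₀ zero_le_one (Gd_le_one_HiF4 h0 h1 _ x) hpos ?_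
    refine integral_mono (integrable_Gd_HiF4 h0 h1 _) (integrable_Gd_HiF4 h0 h1 _) fun z => ?_
    unfold Gd
    rw [Real.exp_le_exp]
    have e2 := norm_sq_split_HiF4 U z
    have hc := coef_nonneg_HiF4 h0 h1
    have ha := sq_nonneg ‖pU U z‖
    simp only [ContinuousLinearMap.zero_apply, sub_zero]
    rw [e2]
    nlinarith [mul_nonneg hc ha]

theorem continuous_Fd (d : ℝ) (P : V →L[ℝ] V) : Continuous (Fd d P) := by
  unfold Fd
  exact (continuous_Gd_HiF4 d P).div_const _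

theorem measurable_Fd (d : ℝ) (i : ℕ) :
    Measurable fun p : (Fin i → V) × V => Fd d (Pj i p.1) p.2 := by
  have h : Measurable fun p : (Fin i → V) × V => Pj i p.1 p.2 :=
    measurable_Pj i measurable_fst measurable_snd
  have hG : Measurable fun p : (Fin i → V) × V => Gd d (Pj i p.1) p.2 := by
    unfold Gd
    exact ((((measurable_snd.sub h).norm.pow_const 2).const_mul _).div_const 2).neg.exp
  have hI : Measurable fun y : Fin i → V => ∫ z, Gd d (Pj i y) z ∂(stdGaussian V) :=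
    (hG.stronglyMeasurable.integral_prod_right' (ν := stdGaussian V)).measurable
  unfold Fd
  exact hG.div (hI.comp measurable_fst)

theorem map_Td {d : ℝ} (h0 : 0 < d) (h1 : d ≤ 1) (U : Submodule ℝ V) :
    (stdGaussian V).map (Td d (pU U))
      = (stdGaussian V).withDensity fun x => ENNReal.ofReal (Fd d (pU U) x) := by
  obtain ⟨κ, hκ⟩ := lintegral_Td_HiF4 h0 U
  have hT : Measurable (Td d (pU U)) := (Td d (pU U)).continuous.measurable
  have hG : Measurable fun x => ENNReal.ofReal (Gd d (pU U) x) :=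
    (continuous_Gd_HiF4 d (pU U)).measurable.ennreal_ofReal
  have hF : Measurable fun x => ENNReal.ofReal (Fd d (pU U) x) :=
    (continuous_Fd d (pU U)).measurable.ennreal_ofReal
  have hpos := integral_Gd_pos_HiF4 h0 h1 (pU U)
  have h1' := hκ (fun _ => 1) measurable_const
  simp only [lintegral_const, measure_univ, mul_one] at h1'
  rw [← ofReal_integral_eq_lintegral_ofReal (integrable_Gd_HiF4 h0 h1 _)
    (ae_of_all _ fun x => (Gd_pos_HiF4 d _ x).le)] at h1'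
  have hκ' : κ = (ENNReal.ofReal (∫ z, Gd d (pU U) z ∂(stdGaussian V)))⁻¹ :=
    ENNReal.eq_inv_of_mul_eq_one_left h1'.symm
  have hFG : ∀ x, ENNReal.ofReal (Fd d (pU U) x) = κ * ENNReal.ofReal (Gd d (pU U) x) := by
    intro x
    unfold Fd
    rw [ENNReal.ofReal_div_of_pos hpos, hκ', div_eq_mul_inv, mul_comm]
  refine Measure.ext_of_lintegral _ fun φ hφ => ?_
  have hGφ : Measurable fun x => ENNReal.ofReal (Gd d (pU U) x) * φ x := hG.mul hφ
  rw [lintegral_map hφ hT, hκ φ hφ, lintegral_withDensity_eq_lintegral_mul _ hF hφ,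
    ← lintegral_const_mul _ hGφ]
  refine lintegral_congr fun x => ?_
  simp only [Pi.mul_apply]
  rw [hFG, mul_assoc]

theorem hz_Fd {d : ℝ} (h0 : 0 < d) (h1 : d ≤ 1) (U : Submodule ℝ V) (w : V) :
    hz (Fd d (pU U)) w = c0 * ‖Td d (pU U) w‖ := by
  obtain ⟨C, hC⟩ := Fd_bound (V := V) h0 h1
  have hT : Measurable (Td d (pU U)) := (Td d (pU U)).continuous.measurable
  have hF : Measurable fun x => ENNReal.ofReal (Fd d (pU U) x) :=
    (continuous_Fd d (pU U)).measurable.ennreal_ofReal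
  have hc : Continuous fun y : V => |⟪w, y⟫| := by fun_prop
  have e1 := integral_withDensity_eq_integral_toReal_smul (μ := stdGaussian V) hF
    (ae_of_all _ fun x => ENNReal.ofReal_lt_top) (fun y : V => |⟪w, y⟫|)
  rw [← map_Td h0 h1 U, integral_map hT.aemeasurable hc.aestronglyMeasurable] at e1
  rw [← integral_abs_inner]
  unfold hz
  calc ∫ y, |⟪w, y⟫| * Fd d (pU U) y ∂(stdGaussian V)
      = ∫ y, (ENNReal.ofReal (Fd d (pU U) y)).toReal • |⟪w, y⟫| ∂(stdGaussian V) := by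
        refine integral_congr_ae (ae_of_all _ fun y => ?_)
        simp only [smul_eq_mul]
        rw [ENNReal.toReal_ofReal (hC U y).1, mul_comm]
    _ = ∫ y, |⟪w, Td d (pU U) y⟫| ∂(stdGaussian V) := e1.symm
    _ = _ := by
        refine integral_congr_ae (ae_of_all _ fun y => ?_)
        simp only [inner_Td_comm]

end Pool.Agent.P.MP_181257_gt
end
end

-- part Pool.Agent.P.MP_181257_gt.HiF5
section

/-! Second moments of the smoothed density. -/

set_option autoImplicit false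
set_option linter.unusedSectionVars false
set_option linter.unusedVariables false

open MeasureTheory ProbabilityTheory Module Set Filter Topology
open scoped RealInnerProductSpace ENNReal Pointwise Matrix

noncomputable section

namespace Pool.Agent.P.MP_181257_gt

variable {V : Type} [NormedAddCommGroup V] [InnerProductSpace ℝ V] [FiniteDimensional ℝ V]
  [MeasurableSpace V] [BorelSpace V]

theorem meas_Td_HiF5 (d : ℝ) (i : ℕ) (v : V) :
    Measurable fun y : Fin i → V => Td d (Pj i y) v :=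
  (measurable_Td d i).comp (measurable_id.prodMk measurable_const)

theorem meas_Phi_HiF5 (d : ℝ) (i : ℕ) (u a b : V) :
    Measurable fun y : Fin i → V => Phi (Td d (Pj i y)) u a b := by
  have h := meas_Td_HiF5 (V := V) d i
  unfold Phi
  exact (((h a).inner (h b)).div (h u).norm).sub
    ((((h a).inner (h u)).mul ((h b).inner (h u))).div ((h u).norm.pow_const 3))

theorem Fd_bound_HiF5 {d : ℝ} (h0 : 0 < d) (h1 : d ≤ 1) (i : ℕ) :
    ∃ C : ℝ, ∀ (y : Fin i → V) (x : V), 0 ≤ Fd d (Pj i y) x ∧ Fd d (Pj i y) x ≤ C := by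
  obtain ⟨C, hC⟩ := Fd_bound (V := V) h0 h1
  refine ⟨C, fun y x => ?_⟩
  rw [Pj_eq]
  exact hC _ x

theorem bd_Fa {i : ℕ} {ν : Measure V} (hν : Mom ν) (hW : 0 < Wr i ν) {d : ℝ} (h0 : 0 < d)
    (h1 : d ≤ 1) : Bd (Fa d i ν) ∧ (∀ x, 0 ≤ Fa d i ν x) ∧ Continuous (Fa d i ν) := by
  have := Fr_prob hν hW
  obtain ⟨C, hC⟩ := Fd_bound_HiF5 (V := V) h0 h1 i
  have hb : ∀ (y : Fin i → V) (x : V), ‖Fd d (Pj i y) x‖ ≤ C := fun y x => by
    rw [Real.norm_of_nonneg (hC y x).1]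
    exact (hC y x).2
  have hc : Continuous (Fa d i ν) := by
    unfold Fa
    refine continuous_of_dominated (F := fun (x : V) (y : Fin i → V) => Fd d (Pj i y) x)
      (bound := fun _ => C) (fun x => ?_) (fun x => Eventually.of_forall fun y => hb y x)
      (integrable_const C) (Eventually.of_forall fun y => continuous_Fd d _)
    exact ((measurable_Fd d i).comp (measurable_id.prodMk measurable_const)).aestronglyMeasurable
  refine ⟨⟨hc.measurable, C, fun x => ?_⟩, fun x => integral_nonneg fun y => (hC y x).1, hc⟩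
  have h := norm_integral_le_of_norm_le_const (μ := Fr i ν)
    (f := fun y => Fd d (Pj i y) x) (Eventually.of_forall fun y => hb y x)
  simpa [Fa] using h

theorem hz_Fa_HiF5 {i : ℕ} {ν : Measure V} (hν : Mom ν) (hW : 0 < Wr i ν) {d : ℝ} (h0 : 0 < d)
    (h1 : d ≤ 1) (w : V) : hz (Fa d i ν) w = c0 * ∫ y, ‖Td d (Pj i y) w‖ ∂(Fr i ν) := by
  have := Fr_prob hν hW
  obtain ⟨C, hC⟩ := Fd_bound_HiF5 (V := V) h0 h1 i
  have hI : Integrable (fun x : V => |⟪w, x⟫| * C) (stdGaussian V) := by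
    have h := (integrable_inner_pow w 1).abs.mul_const C
    simpa using h
  have hint : Integrable (Function.uncurry fun (x : V) (y : Fin i → V) =>
      |⟪w, x⟫| * Fd d (Pj i y) x) ((stdGaussian V).prod (Fr i ν)) := by
    refine (hI.comp_fst (Fr i ν)).mono' ?_ (Eventually.of_forall fun p => ?_)
    · have h1 : Measurable fun p : V × (Fin i → V) => |⟪w, p.1⟫| := by fun_prop
      have h2 := (measurable_Fd (V := V) d i).comp
        (measurable_snd.prodMk measurable_fst :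
          Measurable fun p : V × (Fin i → V) => (p.2, p.1))
      have h3 : Measurable fun p : V × (Fin i → V) => Fd d (Pj i p.2) p.1 := by
        simpa only [Function.comp_def] using h2
      have hm : Measurable fun p : V × (Fin i → V) => |⟪w, p.1⟫| * Fd d (Pj i p.2) p.1 :=
        h1.mul h3
      exact hm.aestronglyMeasurable
    · show ‖|⟪w, p.1⟫| * Fd d (Pj i p.2) p.1‖ ≤ |⟪w, p.1⟫| * C
      rw [Real.norm_of_nonneg (mul_nonneg (abs_nonneg _) (hC _ _).1)]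
      exact mul_le_mul_of_nonneg_left (hC _ _).2 (abs_nonneg _)
  calc hz (Fa d i ν) w
      = ∫ x, ∫ y, |⟪w, x⟫| * Fd d (Pj i y) x ∂(Fr i ν) ∂(stdGaussian V) := by
        unfold hz Fa
        simp only [integral_const_mul]
    _ = ∫ y, ∫ x, |⟪w, x⟫| * Fd d (Pj i y) x ∂(stdGaussian V) ∂(Fr i ν) :=
        integral_integral_swap hint
    _ = ∫ y, c0 * ‖Td d (Pj i y) w‖ ∂(Fr i ν) := by
        refine integral_congr_ae (Eventually.of_forall fun y => ?_)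
        have h := hz_Fd h0 h1 (nrm y) w
        rw [← Pj_eq] at h
        exact h
    _ = _ := integral_const_mul _ _

theorem Td_HiF5 {d : ℝ} (h0 : 0 ≤ d) (h1 : d ≤ 1) {i : ℕ} (y : Fin i → V) (v : V) :
    ‖Pj i y v‖ ≤ ‖Td d (Pj i y) v‖ ∧ ‖Td d (Pj i y) v‖ ≤ ‖v‖
      ∧ d * ‖v‖ ≤ ‖Td d (Pj i y) v‖ := by
  rw [Pj_eq]
  exact norm_Td h0 h1 _ v

theorem Mf_Fa (hn : 2 ≤ finrank ℝ V) {i : ℕ} {ν : Measure V} (hν : Mom ν) (hW : 0 < Wr i ν)
    {d : ℝ} (h0 : 0 < d) (h1 : d ≤ 1) {u : V} (hu : ‖u‖ = 1) (a b : V) :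
    c2 * Mf (Fa d i ν) u a b = c0 * ∫ y, Phi (Td d (Pj i y)) u a b ∂(Fr i ν) := by
  have := Fr_prob hν hW
  obtain ⟨hB, -, hc⟩ := bd_Fa hν hW h0 h1
  refine Mf_eq_Phi hn (Fr i ν) (fun y => Td d (Pj i y)) (meas_Td_HiF5 d i)
    (fun y v => (Td_HiF5 h0.le h1 y v).2.1) hB hc.continuousOn (hz_Fa_HiF5 hν hW h0 h1) hu ?_ a b
  have hle : ∫⁻ y, (ENNReal.ofReal ‖Td d (Pj i y) u‖)⁻¹ ∂(Fr i ν)
      ≤ ∫⁻ _, (ENNReal.ofReal d)⁻¹ ∂(Fr i ν) := by
    refine lintegral_mono fun y => ENNReal.inv_le_inv.2 (ENNReal.ofReal_le_ofReal ?_)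
    have h := (Td_HiF5 h0.le h1 y u).2.2
    rwa [hu, mul_one] at h
  refine ne_top_of_le_ne_top ?_ hle
  rw [lintegral_const, measure_univ, mul_one]
  exact ENNReal.inv_ne_top.2 (ENNReal.ofReal_pos.2 h0).ne'

theorem Mf_Fa_HiF5 (hn : 2 ≤ finrank ℝ V) {i : ℕ} {ν : Measure V} (hν : Mom ν) (hW : 0 < Wr i ν)
    {d : ℝ} (h0 : 0 < d) (h1 : d ≤ 1) {u : V} (hu : ‖u‖ = 1) (a b : V) :
    Mf (Fa d i ν) u a b = c0 / c2 * ∫ y, Phi (Td d (Pj i y)) u a b ∂(Fr i ν) := by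
  have h := Mf_Fa hn hν hW h0 h1 hu a b
  have h2 := c2_pos.ne'
  rw [div_mul_eq_mul_div, ← h]
  field_simp

theorem Phi_le_HiF5 {d : ℝ} (h0 : 0 ≤ d) (h1 : d ≤ 1) {i : ℕ} {y : Fin i → V} {u : V}
    (hy : Pj i y u ≠ 0) (a b : V) :
    ‖Phi (Td d (Pj i y)) u a b‖ ≤ 2 * (‖a‖ * ‖b‖) * ‖Pj i y u‖⁻¹ ^ 1 := by
  rw [Real.norm_eq_abs, pow_one, ← div_eq_mul_inv]
  refine (abs_Phi_le (fun v => (Td_HiF5 h0 h1 y v).2.1) u a b).trans ?_
  exact div_le_div_of_nonneg_left (by positivity) (norm_pos_iff.2 hy) (Td_HiF5 h0 h1 y u).1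

theorem Mf_Fa_bound (hn : 2 ≤ finrank ℝ V) {i : ℕ} {ν : Measure V} (hν : Mom ν)
    (hW : 0 < Wr i ν) {C : ℝ} (hC : 1 ≤ C) (hN : Neg4 i ν C) {d : ℝ} (h0 : 0 < d) (h1 : d ≤ 1)
    {u : V} (hu : ‖u‖ = 1) (a b : V) :
    |Mf (Fa d i ν) u a b| ≤ c0 / c2 * (2 * C) * (‖a‖ * ‖b‖) := by
  obtain ⟨hI, hle⟩ := hN.inv_pow hν hW hC hu (p := 1) (by norm_num)
  have hq : 0 ≤ c0 / c2 := (div_pos c0_pos c2_pos).le
  rw [Mf_Fa_HiF5 hn hν hW h0 h1 hu, abs_mul, abs_of_nonneg hq, mul_assoc]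
  refine mul_le_mul_of_nonneg_left ?_ hq
  have h := norm_integral_le_of_norm_le (hI.const_mul (2 * (‖a‖ * ‖b‖)))
    ((hN.ae_ne hu).mono fun y hy => Phi_le_HiF5 h0.le h1 hy a b)
  rw [integral_const_mul, Real.norm_eq_abs] at h
  calc _ ≤ _ := h
    _ ≤ 2 * (‖a‖ * ‖b‖) * C := mul_le_mul_of_nonneg_left hle (by positivity)
    _ = _ := by ring

theorem Mf_Fa_tendsto (hn : 2 ≤ finrank ℝ V) {i : ℕ} {ν : Measure V} (hν : Mom ν)
    (hW : 0 < Wr i ν) {C : ℝ} (hC : 1 ≤ C) (hN : Neg4 i ν C) {u : V} (hu : ‖u‖ = 1) (a b : V) :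
    Tendsto (fun d : ℝ => Mf (Fa d i ν) u a b) (𝓝[>] 0) (𝓝 (c0 / c2 * MK i ν u a b)) := by
  obtain ⟨hI, -⟩ := hN.inv_pow hν hW hC hu (p := 1) (by norm_num)
  have hev : ∀ᶠ d : ℝ in 𝓝[>] 0, 0 < d ∧ d ≤ 1 :=
    Ioc_mem_nhdsGT (zero_lt_one' ℝ)
  have hT : Tendsto (fun d : ℝ => ∫ y, Phi (Td d (Pj i y)) u a b ∂(Fr i ν)) (𝓝[>] 0)
      (𝓝 (MK i ν u a b)) := by
    unfold MK
    refine tendsto_integral_filter_of_dominated_convergence
      (fun y => 2 * (‖a‖ * ‖b‖) * ‖Pj i y u‖⁻¹ ^ 1)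
      (Eventually.of_forall fun d => (meas_Phi_HiF5 d i u a b).aestronglyMeasurable)
      (hev.mono fun d hd => (hN.ae_ne hu).mono fun y hy => Phi_le_HiF5 hd.1.le hd.2 hy a b)
      (hI.const_mul _) ((hN.ae_ne hu).mono fun y hy => ?_)
    have h := tendsto_Td (Pj i y)
    have hn0 : ‖Pj i y u‖ ≠ 0 := norm_ne_zero_iff.2 hy
    unfold Phi
    exact (((h a).inner (h b)).div (h u).norm hn0).sub
      ((((h a).inner (h u)).mul ((h b).inner (h u))).div ((h u).norm.pow 3) (pow_ne_zero 3 hn0))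
  exact (hT.const_mul (c0 / c2)).congr'
    (hev.mono fun d hd => (Mf_Fa_HiF5 hn hν hW hd.1 hd.2 hu a b).symm)

end Pool.Agent.P.MP_181257_gt
end
end

-- part Pool.Agent.P.MP_181257_gt.HiF6
section

/-! Volumes for the smoothed density. -/

set_option autoImplicit false
set_option linter.unusedSectionVars false
set_option linter.unusedVariables false

open MeasureTheory ProbabilityTheory Module Set Filter Topology
open scoped RealInnerProductSpace ENNReal Pointwise Matrix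

noncomputable section

namespace Pool.Agent.P.MP_181257_gt

variable {V : Type} [NormedAddCommGroup V] [InnerProductSpace ℝ V] [FiniteDimensional ℝ V]
  [MeasurableSpace V] [BorelSpace V]

theorem Fa_meas_HiF6 {i : ℕ} {ν : Measure V} (hν : Mom ν) (hW : 0 < Wr i ν) (d : ℝ) :
    Measurable (Fa d i ν) := by
  have := Fr_prob hν hW
  exact ((measurable_Fd d i).stronglyMeasurable.integral_prod_left' (μ := Fr i ν)).measurable

theorem Fa_bd_HiF6 {i : ℕ} {ν : Measure V} (hν : Mom ν) (hW : 0 < Wr i ν) {d : ℝ} (h0 : 0 < d)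
    (h1 : d ≤ 1) : ∃ C, ∀ x, 0 ≤ Fa d i ν x ∧ Fa d i ν x ≤ C := by
  obtain ⟨C, hC⟩ := Fd_bound (V := V) h0 h1
  have := Fr_prob hν hW
  have hb : ∀ (y : Fin i → V) x, 0 ≤ Fd d (Pj i y) x ∧ Fd d (Pj i y) x ≤ C := fun y x => by
    rw [Pj_eq]; exact hC _ x
  refine ⟨C, fun x => ⟨integral_nonneg fun y => (hb y x).1, ?_⟩⟩
  have := integral_mono_of_nonneg (μ := Fr i ν) (ae_of_all _ fun y => (hb y x).1)
    (integrable_const C) (ae_of_all _ fun y => (hb y x).2)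
  simpa [Fa] using this

theorem map_Fa {i : ℕ} {ν : Measure V} (hν : Mom ν) (hW : 0 < Wr i ν) {d : ℝ} (h0 : 0 < d)
    (h1 : d ≤ 1) :
    ((Fr i ν).prod (stdGaussian V)).map (fun p : (Fin i → V) × V => Td d (Pj i p.1) p.2)
      = (stdGaussian V).withDensity fun x => ENNReal.ofReal (Fa d i ν x) := by
  obtain ⟨C, hC⟩ := Fd_bound (V := V) h0 h1
  have := Fr_prob hν hW
  have hb : ∀ (y : Fin i → V) x, 0 ≤ Fd d (Pj i y) x ∧ Fd d (Pj i y) x ≤ C := fun y x => by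
    rw [Pj_eq]; exact hC _ x
  refine Measure.ext_of_lintegral _ fun φ hφ => ?_
  have m1 : Measurable fun p : (Fin i → V) × V => φ (Td d (Pj i p.1) p.2) := by
    have h := hφ.comp (measurable_Td (V := V) d i)
    exact h
  have m2 : Measurable fun p : (Fin i → V) × V => ENNReal.ofReal (Fd d (Pj i p.1) p.2) :=
    (measurable_Fd d i).ennreal_ofReal
  have m3 : Measurable fun x => ENNReal.ofReal (Fa d i ν x) := 
    (Fa_meas_HiF6 hν hW d).ennreal_ofReal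
  rw [lintegral_map hφ (measurable_Td d i), lintegral_prod _ m1.aemeasurable,
    lintegral_withDensity_eq_lintegral_mul _ m3 hφ]
  have e1 : ∀ y : Fin i → V, ∫⁻ g, φ (Td d (Pj i y) g) ∂(stdGaussian V)
      = ∫⁻ x, ENNReal.ofReal (Fd d (Pj i y) x) * φ x ∂(stdGaussian V) := fun y => by
    rw [← lintegral_map hφ (Td d (Pj i y)).continuous.measurable, Pj_eq, map_Td h0 h1,
      lintegral_withDensity_eq_lintegral_mul _ (continuous_Fd d _).measurable.ennreal_ofReal hφ]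
    rfl
  have m6 : Measurable fun p : (Fin i → V) × V => φ p.2 := hφ.comp measurable_snd
  have m5 : Measurable (Function.uncurry fun (y : Fin i → V) (x : V) =>
      ENNReal.ofReal (Fd d (Pj i y) x) * φ x) := by
    have h := m2.mul m6
    exact h
  rw [lintegral_congr e1, lintegral_lintegral_swap m5.aemeasurable]
  refine lintegral_congr fun x => ?_
  have m4 : Measurable fun y : Fin i → V => Fd d (Pj i y) x :=
    by
    have h := (measurable_Fd (V := V) d i).comp (measurable_prodMk_right (y := x))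
    exact h
  have i4 : Integrable (fun y : Fin i → V => Fd d (Pj i y) x) (Fr i ν) :=
    Integrable.of_bound m4.aestronglyMeasurable C
      (ae_of_all _ fun y => by rw [Real.norm_of_nonneg (hb y x).1]; exact (hb y x).2)
  have e2 : ENNReal.ofReal (Fa d i ν x) = ∫⁻ y, ENNReal.ofReal (Fd d (Pj i y) x) ∂(Fr i ν) :=
    ofReal_integral_eq_lintegral_ofReal i4 (ae_of_all _ fun y => (hb y x).1)
  rw [lintegral_mul_const _ m4.ennreal_ofReal, ← e2]
  rfl

theorem pi_HiF6 {p : V → ℝ} (hp : Measurable p) {C : ℝ} (h : ∀ x, 0 ≤ p x ∧ p x ≤ C) (r : ℕ) :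
    mk ((stdGaussian V).withDensity fun x => ENNReal.ofReal (p x)) r =
      (γk V r).withDensity fun y => ENNReal.ofReal (∏ j, p (y j)) := by
  have hb : Bd p := ⟨hp, C, fun x => by rw [abs_of_nonneg (h x).1]; exact (h x).2⟩
  have : IsFiniteMeasure ((stdGaussian V).withDensity fun x => ENNReal.ofReal (p x)) :=
    isFiniteMeasure_withDensity_ofReal (hb.integrable _).2
  refine Measure.pi_eq fun s hs => ?_
  rw [withDensity_apply _ (MeasurableSet.univ_pi hs), Measure.restrict_pi_pi,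
    ← ofReal_integral_eq_lintegral_ofReal
      (Integrable.fintype_prod (f := fun _ : Fin r => p) fun j => hb.integrable _)
      (ae_of_all _ fun y => Finset.prod_nonneg fun j _ => (h _).1),
    integral_fintype_prod_eq_prod (fun _ : Fin r => p),
    ENNReal.ofReal_prod_of_nonneg fun j _ => integral_nonneg fun x => (h x).1]
  refine Finset.prod_congr rfl fun j _ => ?_
  rw [withDensity_apply _ (hs j), ofReal_integral_eq_lintegral_ofReal (hb.integrable _)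
    (ae_of_all _ fun x => (h x).1)]

theorem vol_Fa_tendsto {i : ℕ} {ν : Measure V} (hν : Mom ν) (hW : 0 < Wr i ν) (k : ℕ) (u : V) :
    Tendsto (fun d : ℝ => ∫ x, D x * ‖Pj k x u‖ * ∏ j, Fa d i ν (x j) ∂(γk V k)) (𝓝[>] 0)
      (𝓝 (∫ x, D x * ‖Pj k x u‖ ∂(mk (Tn i ν) k))) := by
  have := Fr_prob hν hW
  have := (Tn_mom hν hW).prob
  set Q := (Fr i ν).prod (stdGaussian V) with hQ
  have hΦ : Continuous fun x : Fin k → V => D x * ‖Pj k x u‖ := by
    simp only [← D_cons_eq]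
    refine continuous_D.comp (continuous_pi fun j => ?_)
    refine Fin.cases ?_ (fun j => ?_) j
    · simpa using continuous_const
    · simpa using continuous_apply j
  have hle : ∀ x : Fin k → V, D x * ‖Pj k x u‖ ≤ (∏ j, ‖x j‖) * ‖u‖ := fun x =>
    mul_le_mul (D_le_prod x) (norm_Pj_le x u) (norm_nonneg _) (by positivity)
  have e0 : ∫ x, D x * ‖Pj k x u‖ ∂(mk (Tn i ν) k)
      = ∫ ω : Fin k → (Fin i → V) × V, D (fun j => Pj i (ω j).1 (ω j).2)
        * ‖Pj k (fun j => Pj i (ω j).1 (ω j).2) u‖ ∂(Measure.pi fun _ => Q) :=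
    (moment_integral_mp (measurePreserving_pi _ _ fun _ => mp_Tn) hΦ.measurable).symm
  have e1 : ∀ d : ℝ, 0 < d → d ≤ 1 → ∫ x, D x * ‖Pj k x u‖ * ∏ j, Fa d i ν (x j) ∂(γk V k)
      = ∫ ω : Fin k → (Fin i → V) × V, D (fun j => Td d (Pj i (ω j).1) (ω j).2)
        * ‖Pj k (fun j => Td d (Pj i (ω j).1) (ω j).2) u‖ ∂(Measure.pi fun _ => Q) := by
    intro d h0 h1
    obtain ⟨C, hC⟩ := Fa_bd_HiF6 hν hW h0 h1
    have hm := Fa_meas_HiF6 hν hW d
    have hp : MeasurePreserving (fun p : (Fin i → V) × V => Td d (Pj i p.1) p.2) Q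
        ((stdGaussian V).withDensity fun x => ENNReal.ofReal (Fa d i ν x)) :=
      ⟨measurable_Td d i, map_Fa hν hW h0 h1⟩
    have : IsProbabilityMeasure
        ((stdGaussian V).withDensity fun x => ENNReal.ofReal (Fa d i ν x)) := by
      rw [← hp.map_eq]
      exact Measure.isProbabilityMeasure_map hp.measurable.aemeasurable
    refine Eq.trans ?_
      (moment_integral_mp (measurePreserving_pi _ _ fun _ => hp) hΦ.measurable).symm
    have h2 := pi_HiF6 hm hC k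
    unfold mk at h2
    rw [h2, integral_withDensity_eq_integral_toReal_smul (by fun_prop)
      (ae_of_all _ fun _ => ENNReal.ofReal_lt_top)]
    refine integral_congr_ae (ae_of_all _ fun y => ?_)
    simp only [smul_eq_mul]
    rw [ENNReal.toReal_ofReal (Finset.prod_nonneg fun j _ => (hC _).1), mul_comm]
  have hev : ∀ᶠ d : ℝ in 𝓝[>] 0, 0 < d ∧ d ≤ 1 := Ioc_mem_nhdsGT one_pos
  rw [e0]
  refine Tendsto.congr' (hev.mono fun d hd => (e1 d hd.1 hd.2).symm) ?_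
  have hi : Integrable (fun p : (Fin i → V) × V => ‖p.2‖) Q := rep_int_norm.comp_snd _
  refine tendsto_integral_filter_of_dominated_convergence
    (fun ω => (∏ j, ‖(ω j).2‖) * ‖u‖) (Eventually.of_forall fun d => ?_)
    (hev.mono fun d hd => ae_of_all _ fun ω => ?_)
    ((Integrable.fintype_prod (f := fun _ (p : (Fin i → V) × V) => ‖p.2‖)
      fun _ => hi).mul_const _) (ae_of_all _ fun ω => ?_)
  · have hm : Measurable fun (ω : Fin k → (Fin i → V) × V) (j : Fin k) =>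
        Td d (Pj i (ω j).1) (ω j).2 :=
      measurable_pi_lambda _ fun j => (measurable_Td d i).comp (measurable_pi_apply j)
    exact (hΦ.measurable.comp hm).aestronglyMeasurable
  · rw [Real.norm_of_nonneg (mul_nonneg (D_nonneg _) (norm_nonneg _))]
    refine (hle _).trans (mul_le_mul_of_nonneg_right
      (Finset.prod_le_prod (fun _ _ => norm_nonneg _) fun j _ => ?_) (norm_nonneg _))
    rw [Pj_eq]
    exact (norm_Td hd.1.le hd.2 _ _).2.1
  · exact (hΦ.tendsto _).comp (tendsto_pi_nhds.2 fun j => tendsto_Td _ _)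

end Pool.Agent.P.MP_181257_gt
end
end

-- part Pool.Agent.P.MP_181257_gt.HiF7
section

/-! The density of a fixed pair. -/

set_option autoImplicit false
set_option linter.unusedSectionVars false
set_option linter.unusedVariables false

open MeasureTheory ProbabilityTheory Module Set Filter Topology
open scoped RealInnerProductSpace ENNReal Pointwise Matrix

noncomputable section

namespace Pool.Agent.P.MP_181257_gt

variable {V : Type} [NormedAddCommGroup V] [InnerProductSpace ℝ V] [FiniteDimensional ℝ V]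
  [MeasurableSpace V] [BorelSpace V]

theorem dens_eq (i : ℕ) (μ : Measure V) {y : V} (hy : y ≠ 0) :
    dens i μ y = Ei i (MK i μ (‖y‖⁻¹ • y)) := by
  have h : 0 < ‖y‖ := norm_pos_iff.2 hy
  unfold dens
  congr 1
  funext a b
  rw [MK_hom i μ (inv_pos.2 h), inv_inv]

theorem unit_HiF7 {y : V} (hy : y ≠ 0) : ‖‖y‖⁻¹ • y‖ = 1 := by
  rw [norm_smul, norm_inv, norm_norm, inv_mul_cancel₀ (norm_ne_zero_iff.2 hy)]

theorem ev_HiF7 : ∀ᶠ d : ℝ in 𝓝[>] 0, 0 < d ∧ d ≤ 1 := by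
  filter_upwards [Ioc_mem_nhdsGT (zero_lt_one' ℝ)] with d hd using hd

theorem Vq_unit_HiF7 (i : ℕ) {F : V → ℝ} (hF : Bd F) {y : V} (hy : y ≠ 0) :
    Vq i F y = Ei i (Mf F (‖y‖⁻¹ • y)) := by
  rw [← Vq_eq_Ei i hF, Vq_hom i F (inv_ne_zero (norm_ne_zero_iff.2 hy))]

theorem Vq_tendsto_HiF7 (hn : 2 ≤ finrank ℝ V) {i : ℕ} {ν : Measure V} (hν : Mom ν)
    (hW : 0 < Wr i ν) {C : ℝ} (hC : 1 ≤ C) (hN : Neg4 i ν C) {y : V} (hy : y ≠ 0) :
    Tendsto (fun d : ℝ => Vq i (Fa d i ν) y) (𝓝[>] 0) (𝓝 ((c0 / c2) ^ i * dens i ν y)) := by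
  have h := Ei_tendsto i (fun a b => Mf_Fa_tendsto hn hν hW hC hN (unit_HiF7 hy) a b)
  rw [Ei_smul, ← dens_eq i ν hy] at h
  refine h.congr' ?_
  filter_upwards [ev_HiF7] with d hd
  exact (Vq_unit_HiF7 i (bd_Fa hν hW hd.1 hd.2).1 hy).symm

theorem density {i : ℕ} {μ ν : Measure V} (h : FP i μ ν) (hi : 1 ≤ i)
    (hin : i + 1 ≤ finrank ℝ V) {C : ℝ} (hC : 1 ≤ C) (hN : Neg4 i ν C) :
    (∀ y, 0 ≤ dens i ν y) ∧ ∃ c : ℝ, 0 < c ∧ ∀ u, th i μ u = c * hz (dens i ν) u := by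
  have hn : 2 ≤ finrank ℝ V := by omega
  have hq : 0 < (c0 / c2) ^ i := pow_pos (div_pos c0_pos c2_pos) i
  refine ⟨fun y => ?_, ?_⟩
  · by_cases hy : y = 0
    · rw [hy, dens, Ei_smul, norm_zero, zero_pow (by omega), zero_mul]
    · have h1 : 0 ≤ (c0 / c2) ^ i * dens i ν y := by
        refine ge_of_tendsto (Vq_tendsto_HiF7 hn h.mr h.wr hC hN hy) ?_
        filter_upwards [ev_HiF7] with d hd
        exact Vq_nonneg i (bd_Fa h.mr h.wr hd.1 hd.2).2.1 y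
      exact (mul_nonneg_iff_of_pos_left hq).1 h1
  · obtain ⟨c, hc, hb⟩ := bp_supp' (V := V) hin
    obtain ⟨K, hK⟩ := Ei_bound (V := V) i (c0 / c2 * (2 * C))
    refine ⟨(Wr i μ)⁻¹ * (c * (c0 / c2) ^ i), mul_pos (inv_pos.2 h.wl) (mul_pos hc hq),
      fun u => ?_⟩
    have h1 : Tendsto (fun d : ℝ => hz (Vq i (Fa d i ν)) u) (𝓝[>] 0)
        (𝓝 (∫ y, |⟪u, y⟫| * ((c0 / c2) ^ i * dens i ν y) ∂(stdGaussian V))) := by
      refine tendsto_integral_filter_of_dominated_convergence (fun y => |⟪u, y⟫| * K) ?_ ?_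
        (proj_integrable_hz (f := fun _ => K) ⟨measurable_const, |K|, fun _ => le_rfl⟩ u)
        (Eventually.of_forall fun y => ?_)
      · filter_upwards [ev_HiF7] with d hd
        exact (proj_integrable_hz (bd_Vq i (bd_Fa h.mr h.wr hd.1 hd.2).1) u).aestronglyMeasurable
      · filter_upwards [ev_HiF7] with d hd
        refine Eventually.of_forall fun y => ?_
        by_cases hy : y = 0
        · simp [hy]
        · rw [Real.norm_eq_abs, abs_mul, abs_abs,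
            Vq_unit_HiF7 i (bd_Fa h.mr h.wr hd.1 hd.2).1 hy]
          refine mul_le_mul_of_nonneg_left (hK _ fun a b ha hb' => ?_) (abs_nonneg _)
          have := Mf_Fa_bound hn h.mr h.wr hC hN hd.1 hd.2 (unit_HiF7 hy) a b
          rwa [ha, hb', mul_one, mul_one] at this
      · by_cases hy : y = 0
        · simp [hy]
        · exact (Vq_tendsto_HiF7 hn h.mr h.wr hC hN hy).const_mul _
    have h2 := vol_Fa_tendsto h.mr h.wr i u
    rw [← h.el] at h2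
    have h3 := tendsto_nhds_unique h2 ((h1.const_mul c).congr' (by
      filter_upwards [ev_HiF7] with d hd
      exact (hb _ (bd_Fa h.mr h.wr hd.1 hd.2).1 (bd_Fa h.mr h.wr hd.1 hd.2).2.1 u).symm))
    have h4 : ∫ y, |⟪u, y⟫| * ((c0 / c2) ^ i * dens i ν y) ∂(stdGaussian V)
        = (c0 / c2) ^ i * hz (dens i ν) u := by
      rw [hz, ← integral_const_mul]
      exact integral_congr_ae (Eventually.of_forall fun y => by ring)
    rw [th, integral_Fr h.wl, h3, h4]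
    ring

theorem Lf_dens {i : ℕ} {μ : Measure V} (hμ : Mom μ) (hW : 0 < Wr i μ) {C : ℝ} (hC : 1 ≤ C)
    (hN : Neg4 i μ C) (h0 : ∀ y, 0 ≤ dens i μ y) : Lf (dens i μ) := by
  have hb : ∀ u a b : V, ‖u‖ = 1 → ‖a‖ = 1 → ‖b‖ = 1 → |MK i μ u a b| ≤ 2 * C := by
    intro u a b hu ha hb
    have := abs_MK_le hμ hW hC hN hu a b
    rwa [ha, hb, mul_one, mul_one] at this
  refine ⟨measurable_Ei i fun a b => measurable_norm.mul (measurable_MK hμ hW a b),
    fun t ht x => ?_, h0, ?_, ?_⟩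
  · unfold dens
    congr 1
    funext a b
    rw [MK_hom i μ ht, norm_smul, Real.norm_of_nonneg ht.le]
    field_simp
  · obtain ⟨K, hK⟩ := Ei_bound (V := V) i (2 * C)
    refine ⟨max K (dens i μ 0), fun x => ?_⟩
    by_cases hx : x = 0
    · rw [hx]; exact le_max_right _ _
    · rw [dens_eq i μ hx]
      exact ((le_abs_self _).trans (hK _ fun a b => hb _ a b (unit_HiF7 hx))).trans
        (le_max_left _ _)
  · obtain ⟨K, hK0, hK⟩ := Ei_lip (V := V) i (2 * C)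
    refine ⟨K * (20 * C), by positivity, fun x y hx hy => ?_⟩
    have e : ∀ z : V, ‖z‖ = 1 → dens i μ z = Ei i (MK i μ z) := by
      intro z hz'
      unfold dens
      congr 1
      funext a b
      rw [hz', one_mul]
    rw [e x hx, e y hy, mul_assoc]
    exact hK _ _ _ (by positivity) fun a b ha hb' =>
      ⟨hb x a b hx ha hb', hb y a b hy ha hb', MK_lip hμ hW hC hN hx hy ha.le hb'.le⟩

end Pool.Agent.P.MP_181257_gt
end
end

-- part Pool.Agent.P.MP_181257_gt.HiL4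
section

/-! Homogeneous Lipschitz functions. -/

set_option autoImplicit false
set_option linter.unusedSectionVars false
set_option linter.unusedVariables false

open MeasureTheory ProbabilityTheory Module Set Filter Topology
open scoped RealInnerProductSpace ENNReal Pointwise Matrix

noncomputable section

namespace Pool.Agent.P.MP_181257_gt

variable {V : Type} [NormedAddCommGroup V] [InnerProductSpace ℝ V] [FiniteDimensional ℝ V]
  [MeasurableSpace V] [BorelSpace V]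

theorem Lf.bd {f : V → ℝ} (hf : Lf f) : Bd f := by
  obtain ⟨C, hC⟩ := hf.bdd
  exact ⟨hf.meas, C, fun x => by rw [abs_of_nonneg (hf.nonneg x)]; exact hC x⟩

theorem Lf.lip' {f : V → ℝ} (hf : Lf f) : ∃ L : ℝ, 0 ≤ L ∧ ∀ x y : V, x ≠ 0 → y ≠ 0 →
    |f x - f y| ≤ L * (‖x - y‖ / ‖x‖) := by
  obtain ⟨L, hL, h⟩ := hf.lip
  refine ⟨2 * L, by positivity, fun x y hx hy => ?_⟩
  have hx' : 0 < ‖x‖ := norm_pos_iff.2 hx
  have hy' : 0 < ‖y‖ := norm_pos_iff.2 hy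
  have h1 := h (‖x‖⁻¹ • x) (‖y‖⁻¹ • y) (by rw [norm_smul, norm_inv, norm_norm]; field_simp)
    (by rw [norm_smul, norm_inv, norm_norm]; field_simp)
  rw [hf.hom _ (inv_pos.2 hx'), hf.hom _ (inv_pos.2 hy')] at h1
  have e : ‖x‖⁻¹ • x - ‖y‖⁻¹ • y = ‖x‖⁻¹ • (x - y) + (‖x‖⁻¹ - ‖y‖⁻¹) • y := by module
  have h2 : ‖(‖x‖⁻¹ - ‖y‖⁻¹) • y‖ ≤ ‖x - y‖ / ‖x‖ := by
    have e2 : ‖x‖⁻¹ - ‖y‖⁻¹ = (‖y‖ - ‖x‖) / (‖x‖ * ‖y‖) := by field_simp
    have h3 : |‖y‖ - ‖x‖| ≤ ‖x - y‖ := by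
      rw [abs_sub_comm]; exact abs_norm_sub_norm_le x y
    rw [norm_smul, e2, Real.norm_eq_abs, abs_div, abs_of_pos (mul_pos hx' hy')]
    calc |‖y‖ - ‖x‖| / (‖x‖ * ‖y‖) * ‖y‖ = |‖y‖ - ‖x‖| / ‖x‖ := by field_simp
      _ ≤ ‖x - y‖ / ‖x‖ := by gcongr
  have h4 : ‖‖x‖⁻¹ • (x - y)‖ = ‖x - y‖ / ‖x‖ := by
    rw [norm_smul, norm_inv, norm_norm, div_eq_inv_mul]
  have h5 : ‖‖x‖⁻¹ • x - ‖y‖⁻¹ • y‖ ≤ 2 * (‖x - y‖ / ‖x‖) := by
    rw [e]
    have := norm_add_le (‖x‖⁻¹ • (x - y)) ((‖x‖⁻¹ - ‖y‖⁻¹) • y)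
    linarith
  calc |f x - f y| ≤ L * ‖‖x‖⁻¹ • x - ‖y‖⁻¹ • y‖ := h1
    _ ≤ L * (2 * (‖x - y‖ / ‖x‖)) := by gcongr
    _ = 2 * L * (‖x - y‖ / ‖x‖) := by ring

theorem lipOn_HiL4 {f : V → ℝ} (hf : Lf f) {δ : ℝ} (hδ : 0 < δ) :
    ∃ C : NNReal, LipschitzOnWith C f {x | δ < ‖x‖} := by
  obtain ⟨L, hL, h⟩ := hf.lip'
  refine ⟨⟨L / δ, by positivity⟩, LipschitzOnWith.of_dist_le_mul fun x hx y hy => ?_⟩
  have hx' : δ < ‖x‖ := hx
  have hy' : δ < ‖y‖ := hy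
  rw [Real.dist_eq, dist_eq_norm]
  calc |f x - f y| ≤ L * (‖x - y‖ / ‖x‖) :=
        h x y (norm_pos_iff.1 (hδ.trans hx')) (norm_pos_iff.1 (hδ.trans hy'))
    _ ≤ L * (‖x - y‖ / δ) := by gcongr
    _ = L / δ * ‖x - y‖ := by ring

theorem open_HiL4 (δ : ℝ) : IsOpen {x : V | δ < ‖x‖} :=
  isOpen_lt continuous_const continuous_norm

theorem Lf.contOn {f : V → ℝ} (hf : Lf f) : ContinuousOn f {0}ᶜ := by
  intro x hx
  have hx' : 0 < ‖x‖ := norm_pos_iff.2 hx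
  obtain ⟨C, hC⟩ := lipOn_HiL4 hf (half_pos hx')
  exact (hC.continuousOn.continuousAt
    ((open_HiL4 _).mem_nhds (half_lt_self hx'))).continuousWithinAt

theorem Lf.ae_diff {f : V → ℝ} (hf : Lf f) (hn : 1 ≤ finrank ℝ V) :
    ∀ᵐ x ∂(stdGaussian V), DifferentiableAt ℝ f x := by
  have h1 : ∀ k : ℕ, ∀ᵐ x ∂(volume : Measure V), 1 / ((k : ℝ) + 1) < ‖x‖ →
      DifferentiableAt ℝ f x := by
    intro k
    obtain ⟨C, hC⟩ := lipOn_HiL4 hf (δ := 1 / ((k : ℝ) + 1)) (by positivity)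
    filter_upwards [hC.ae_differentiableWithinAt_of_mem (μ := volume)] with x hx hk
    exact (hx hk).differentiableAt ((open_HiL4 _).mem_nhds hk)
  have h2 : stdGaussian V ≪ (volume : Measure V) := by
    rw [stdGaussian_eq_withDensity]
    exact withDensity_absolutelyContinuous _ _
  filter_upwards [h2.ae_le (ae_all_iff.2 h1), ae_ne_zero hn] with x hx h0
  obtain ⟨k, hk⟩ := exists_nat_one_div_lt (norm_pos_iff.2 h0)
  exact hx k hk

theorem Lf.diff_smul {f : V → ℝ} (hf : Lf f) {t : ℝ} (ht : 0 < t) (x : V) :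
    DifferentiableAt ℝ f (t • x) ↔ DifferentiableAt ℝ f x := by
  have key : ∀ {s : ℝ}, 0 < s → ∀ y : V, DifferentiableAt ℝ f (s • y) →
      DifferentiableAt ℝ f y := by
    intro s hs y hy
    have e : f = f ∘ fun z : V => s • z := funext fun z => (hf.hom s hs z).symm
    rw [e]
    exact DifferentiableAt.comp y hy (differentiableAt_id.const_smul s)
  refine ⟨key ht x, fun h => key (inv_pos.2 ht) _ ?_⟩
  rwa [smul_smul, inv_mul_cancel₀ ht.ne', one_smul]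

theorem Lf.fderiv_smul {f : V → ℝ} (hf : Lf f) {t : ℝ} (ht : 0 < t) (x : V) :
    fderiv ℝ f (t • x) = t⁻¹ • fderiv ℝ f x := by
  have e : (fun z : V => f (t • z)) = f := funext fun z => hf.hom t ht z
  have h := fderiv_comp_smul (𝕜 := ℝ) (f := f) (x := x) t
  rw [e] at h
  rw [h, smul_smul, inv_mul_cancel₀ ht.ne', one_smul]

theorem Lf.fderiv_self {f : V → ℝ} (hf : Lf f) (x : V) : fderiv ℝ f x x = 0 := by
  by_cases hd : DifferentiableAt ℝ f x
  · have h1 : HasDerivAt (fun s : ℝ => s • x) x 1 := by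
      simpa using (hasDerivAt_id (1 : ℝ)).smul_const x
    have h2 : HasFDerivAt f (fderiv ℝ f x) ((fun s : ℝ => s • x) 1) := by
      simpa using hd.hasFDerivAt
    have h3 := h2.comp_hasDerivAt (1 : ℝ) h1
    have h4 : HasDerivAt (f ∘ fun s : ℝ => s • x) 0 1 := by
      refine (hasDerivAt_const (1 : ℝ) (f x)).congr_of_eventuallyEq ?_
      filter_upwards [lt_mem_nhds (zero_lt_one' ℝ)] with s hs
      exact hf.hom s hs x
    exact h3.unique h4
  · rw [fderiv_zero_of_not_differentiableAt hd]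
    rfl

theorem Lf.norm_fderiv {f : V → ℝ} (hf : Lf f) :
    ∃ L : ℝ, 0 ≤ L ∧ ∀ x : V, ‖x‖ * ‖fderiv ℝ f x‖ ≤ L := by
  obtain ⟨L, hL, h⟩ := hf.lip'
  refine ⟨L, hL, fun x => ?_⟩
  by_cases hx : x = 0
  · rw [hx, norm_zero, zero_mul]; exact hL
  have hx' : 0 < ‖x‖ := norm_pos_iff.2 hx
  have h1 : ‖fderiv ℝ f x‖ ≤ L / ‖x‖ := by
    refine norm_fderiv_le_of_lip' ℝ (by positivity) ?_
    filter_upwards [isOpen_ne.mem_nhds hx] with y hy
    rw [Real.norm_eq_abs, abs_sub_comm, norm_sub_rev]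
    exact (h x y hx hy).trans_eq (by ring)
  rw [le_div_iff₀ hx'] at h1
  linarith

theorem measurable_fderiv_pair (f : V → ℝ) :
    Measurable fun p : V × V => fderiv ℝ f p.1 p.2 := by
  exact ContinuousLinearMap.measurable_apply₂.comp
    (((measurable_fderiv ℝ f).comp measurable_fst).prodMk measurable_snd)

theorem Jf_ne_top {f : V → ℝ} (hf : Lf f) {δ : ℝ} (hδ : 0 < δ) (hpos : ∀ x, x ≠ 0 → δ ≤ f x) :
    Jf f ≠ ∞ := by
  obtain ⟨L, hL, h⟩ := hf.norm_fderiv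
  have h1 : Jf f ≤ ∫⁻ _ : V, ENNReal.ofReal (L ^ 2 / δ) ∂(stdGaussian V) := by
    refine lintegral_mono fun x => ENNReal.ofReal_le_ofReal ?_
    by_cases hx : x = 0
    · rw [hx, norm_zero]
      simp only [ne_eq, OfNat.ofNat_ne_zero, not_false_eq_true, zero_pow, zero_mul, zero_div]
      positivity
    · have h2 : ‖x‖ ^ 2 * ‖fderiv ℝ f x‖ ^ 2 ≤ L ^ 2 := by
        rw [← mul_pow]
        exact pow_le_pow_left₀ (by positivity) (h x) 2
      exact div_le_div₀ (by positivity) h2 hδ (hpos x hx)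
  rw [lintegral_const, measure_univ, mul_one] at h1
  exact ne_top_of_le_ne_top ENNReal.ofReal_ne_top h1

end Pool.Agent.P.MP_181257_gt
end
end

-- part Pool.Agent.P.MP_181257_gt.HiL5
section

/-! Orthogonal pairs of directions. -/

set_option autoImplicit false
set_option linter.unusedSectionVars false
set_option linter.unusedVariables false

open MeasureTheory ProbabilityTheory Module Set Filter Topology
open scoped RealInnerProductSpace ENNReal Pointwise Matrix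

noncomputable section

namespace Pool.Agent.P.MP_181257_gt

variable {V : Type} [NormedAddCommGroup V] [InnerProductSpace ℝ V] [FiniteDimensional ℝ V]
  [MeasurableSpace V] [BorelSpace V]

/-- radial and angular parts of the projection on a hyperplane are independent -/
theorem radial_gen_HiL5 {y : V} (h1 : 1 ≤ finrank ℝ (ℝ ∙ y)ᗮ) {ρ : ℝ → ℝ≥0∞}
    (hρ : Measurable ρ) {ψ : V → ℝ≥0∞} (hψ : Measurable ψ)
    (hom : ∀ t : ℝ, 0 < t → ∀ x, ψ (t • x) = ψ x) :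
    ∫⁻ G, ρ ‖pr y G‖ * ψ (pr y G) ∂(stdGaussian V)
      = (∫⁻ z, ρ ‖z‖ ∂(stdGaussian (ℝ ∙ y)ᗮ)) * ∫⁻ G, ψ (pr y G) ∂(stdGaussian V) := by
  have hψ' : Measurable fun z : (ℝ ∙ y)ᗮ => ψ (z : V) := hψ.comp measurable_subtype_coe
  have e1 : ∫⁻ G, ρ ‖pr y G‖ * ψ (pr y G) ∂(stdGaussian V)
      = ∫⁻ z : (ℝ ∙ y)ᗮ, ρ ‖z‖ * ψ (z : V) ∂(stdGaussian (ℝ ∙ y)ᗮ) :=
    (mp_prS y).lintegral_comp (f := fun z : (ℝ ∙ y)ᗮ => ρ ‖z‖ * ψ (z : V))
      ((hρ.comp measurable_norm).mul hψ')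
  have e2 : ∫⁻ G, ψ (pr y G) ∂(stdGaussian V)
      = ∫⁻ z : (ℝ ∙ y)ᗮ, ψ (z : V) ∂(stdGaussian (ℝ ∙ y)ᗮ) :=
    (mp_prS y).lintegral_comp (f := fun z : (ℝ ∙ y)ᗮ => ψ (z : V)) hψ'
  rw [e1, e2]
  exact radial_indep_lintegral h1 hρ hψ' fun t ht x => by
    simpa using hom t ht (x : V)

theorem radial_pr {m : ℕ} (hm : finrank ℝ V = m + 1) (h1 : 1 ≤ m) {y : V} (hy : y ≠ 0)
    {ψ : V → ℝ≥0∞} (hψ : Measurable ψ) (hom : ∀ t : ℝ, 0 < t → ∀ x, ψ (t • x) = ψ x) :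
    ∫⁻ G, ENNReal.ofReal (‖pr y G‖ ^ 2) * ψ (pr y G) ∂(stdGaussian V)
      = (m : ℝ≥0∞) * ∫⁻ G, ψ (pr y G) ∂(stdGaussian V) := by
  have hf : finrank ℝ (ℝ ∙ y)ᗮ = m := moment_finrank hm hy
  have h := radial_gen_HiL5 (y := y) (by omega) (ρ := fun r => ENNReal.ofReal (r ^ 2))
    (by fun_prop) hψ hom
  rw [h]
  congr 1
  rw [← ofReal_integral_eq_lintegral_ofReal (integrable_norm_pow 2)
    (ae_of_all _ fun x => by positivity), integral_norm_sq, hf, ENNReal.ofReal_natCast]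

theorem swap_inc (hn : 2 ≤ finrank ℝ V) {H : V × V → ℝ≥0∞} (hH : Measurable H)
    (h1 : ∀ x y (t : ℝ), 0 < t → H (t • x, y) = H (x, y))
    (h2 : ∀ x y (t : ℝ), 0 < t → H (x, t • y) = H (x, y)) :
    ∫⁻ a, ∫⁻ b, H (a, pr a b) ∂(stdGaussian V) ∂(stdGaussian V)
      = ∫⁻ b, ∫⁻ a, H (pr b a, b) ∂(stdGaussian V) ∂(stdGaussian V) := by
  obtain ⟨m, hm⟩ : ∃ m, finrank ℝ V = m + 1 := ⟨finrank ℝ V - 1, by omega⟩
  obtain ⟨C, hC0, hCt, hC⟩ := bp_one (finrank ℝ V) 0 hn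
  obtain ⟨μ, hμ0, hμt, hμ⟩ := bpg_mean m (by omega)
  have key : ∀ K : V × V → ℝ≥0∞, Measurable K →
      (∀ x y (t : ℝ), 0 < t → K (t • x, y) = K (x, y)) →
      (∀ x y (t : ℝ), 0 < t → K (x, t • y) = K (x, y)) →
      ∫⁻ a, ∫⁻ b, K (a, pr a b) ∂(stdGaussian V) ∂(stdGaussian V)
        = C * μ * ∫⁻ b, ∫⁻ a, K (pr b a, b) ∂(stdGaussian V) ∂(stdGaussian V) := by
    intro K hK k1 k2
    rw [hC V rfl K hK fun x y t ht => by simp [k2 x y t ht], mul_assoc,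
      ← lintegral_const_mul' μ _ hμt]
    congr 1
    refine lintegral_congr_ae ?_
    filter_upwards [ae_ne_zero (V := V) (by omega)] with b hb
    have hf : finrank ℝ (ℝ ∙ b)ᗮ = m := moment_finrank hm hb
    have h := radial_gen_HiL5 (y := b) (by omega) ENNReal.measurable_ofReal
      (ψ := fun x => K (x, b)) (hK.comp (measurable_id.prodMk measurable_const))
      fun t ht x => k1 x b t ht
    rw [h, hμ _ hf]
  have one := key (fun _ => 1) measurable_const (fun _ _ _ _ => rfl) fun _ _ _ _ => rfl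
  simp only [lintegral_const, measure_univ, mul_one] at one
  rw [key H hH h1 h2, ← one, one_mul]

theorem Lf.ae_ae_diff {f : V → ℝ} (hf : Lf f) (hn : 2 ≤ finrank ℝ V) :
    ∀ᵐ y ∂(stdGaussian V), ∀ᵐ G ∂(stdGaussian V), DifferentiableAt ℝ f (pr y G) := by
  set S : Set V := {x | DifferentiableAt ℝ f x}ᶜ with hS
  have hSm : MeasurableSet S := (measurableSet_of_differentiableAt ℝ f).compl
  have hI : Measurable (S.indicator fun _ : V => (1 : ℝ≥0∞)) := measurable_const.indicator hSm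
  have h := swap_inc hn (H := fun p => S.indicator (fun _ => 1) p.1) (hI.comp measurable_fst)
    (fun x y t ht => by
      have e : t • x ∈ S ↔ x ∈ S := not_congr (hf.diff_smul ht x)
      by_cases hx : x ∈ S
      · simp only [indicator_of_mem hx, indicator_of_mem (e.2 hx)]
      · simp only [indicator_of_notMem hx, indicator_of_notMem fun h => hx (e.1 h)])
    (fun _ _ _ _ => rfl)
  have hl : ∫⁻ a, ∫⁻ b : V, S.indicator (fun _ => (1 : ℝ≥0∞)) a ∂(stdGaussian V)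
      ∂(stdGaussian V) = 0 := by
    simp only [lintegral_const, measure_univ, mul_one]
    rw [lintegral_eq_zero_iff hI]
    filter_upwards [hf.ae_diff (by omega)] with x hx
    simp [hS, indicator, hx]
  have hm : Measurable fun p : V × V => S.indicator (fun _ => (1 : ℝ≥0∞)) (pr p.1 p.2) :=
    hI.comp (measurable_pr measurable_fst measurable_snd)
  have h0 : ∫⁻ b, ∫⁻ a, S.indicator (fun _ => (1 : ℝ≥0∞)) (pr b a) ∂(stdGaussian V)
      ∂(stdGaussian V) = 0 := h.symm.trans hl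
  rw [lintegral_eq_zero_iff hm.lintegral_prod_right'] at h0
  filter_upwards [h0] with y hy
  have hy' : ∫⁻ a, S.indicator (fun _ => (1 : ℝ≥0∞)) (pr y a) ∂(stdGaussian V) = 0 := hy
  have hm' : Measurable fun a : V => S.indicator (fun _ => (1 : ℝ≥0∞)) (pr y a) :=
    hI.comp (measurable_pr measurable_const measurable_id)
  rw [lintegral_eq_zero_iff hm'] at hy'
  filter_upwards [hy'] with G hG
  by_contra hd
  have : pr y G ∈ S := hd
  simp [indicator, this] at hG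

end Pool.Agent.P.MP_181257_gt
end
end
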