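import Pool.Agent.K.MP_181257_gt.C2
import Pool.Agent.K.MP_181257_gt.C5

-- part Pool.Agent.P.MP_181257_gt.HiL1
section

/-! Leaving one vector out of the squared-volume moment. -/

set_option autoImplicit false
set_option linter.unusedSectionVars false
set_option linter.unusedVariables false

open MeasureTheory ProbabilityTheory Module Set Filter Topology
open scoped RealInnerProductSpace ENNReal Pointwise Matrix

noncomputable section

namespace Pool.Agent.P.MP_181257_gt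

variable {V : Type} [NormedAddCommGroup V] [InnerProductSpace ℝ V] [FiniteDimensional ℝ V]
  [MeasurableSpace V] [BorelSpace V]

theorem det_HiL1 {m k : ℕ} (W M : Fin m → Fin m → ℝ) (hM : ∀ a c, a ≠ c → M a c = 0)
    (l : Fin (k + 1) → Fin m) :
    ∑ σ : Equiv.Perm (Fin (k + 1)), ((Equiv.Perm.sign σ : ℤ) : ℝ) *
        (W (l (σ 0)) (l 0) * ∏ j : Fin k, M (l (σ j.succ)) (l j.succ))
      = if Function.Injective l then W (l 0) (l 0) * ∏ j : Fin k, M (l j.succ) (l j.succ)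
        else 0 := by
  classical
  obtain ⟨N, hN⟩ : ∃ N : Matrix (Fin (k + 1)) (Fin (k + 1)) ℝ, N = Matrix.of fun i j =>
      (Fin.cons (W (l i) (l 0)) (fun j : Fin k => M (l i) (l j.succ)) : Fin (k + 1) → ℝ) j :=
    ⟨_, rfl⟩
  have h0 : ∀ i, N i 0 = W (l i) (l 0) := fun i => by rw [hN]; rfl
  have h1 : ∀ i (j : Fin k), N i j.succ = M (l i) (l j.succ) := fun i j => by rw [hN]; rfl
  have h2 : ∑ σ : Equiv.Perm (Fin (k + 1)), ((Equiv.Perm.sign σ : ℤ) : ℝ) *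
      (W (l (σ 0)) (l 0) * ∏ j : Fin k, M (l (σ j.succ)) (l j.succ)) = N.det := by
    rw [Matrix.det_apply']
    refine Finset.sum_congr rfl fun σ _ => ?_
    rw [Fin.prod_univ_succ, h0]
    simp only [h1]
  rw [h2]
  split_ifs with hl
  · rw [Matrix.det_of_isLowerTriangular, Fin.prod_univ_succ, h0]
    · simp only [h1]
    · intro i j hij
      have h3 : i < j := hij
      obtain ⟨j', rfl⟩ := Fin.exists_succ_eq.2 (Fin.ne_zero_of_lt h3)
      rw [h1]
      exact hM _ _ fun h => h3.ne (hl h)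
  · obtain ⟨i, j, hij, hne⟩ := Function.not_injective_iff.1 hl
    refine Matrix.det_zero_of_row_eq hne ?_
    ext t
    refine Fin.cases ?_ (fun t => ?_) t
    · rw [h0, h0, hij]
    · rw [h1, h1, hij]

theorem key_HiL1 {m k : ℕ} (ρ : Fin m → ℝ) {r : ℝ} (hr : 0 ≤ r) (hρ : ∀ a, r ≤ ρ a) (a c : Fin m) :
    ∑ l : Fin (k + 1) → Fin m,
        (if Function.Injective l ∧ l 0 = a then r * ∏ j : Fin k, ρ (l j.succ) else 0)
      ≤ ∑ l : Fin (k + 1) → Fin m,
        (if Function.Injective l ∧ l 0 = c then ρ (l 0) * ∏ j : Fin k, ρ (l j.succ) else 0) := by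
  classical
  rw [← Equiv.sum_comp (Equiv.piCongrRight fun _ : Fin (k + 1) => Equiv.swap a c)
    (fun l : Fin (k + 1) → Fin m =>
      if Function.Injective l ∧ l 0 = c then ρ (l 0) * ∏ j : Fin k, ρ (l j.succ) else 0)]
  refine Finset.sum_le_sum fun l _ => ?_
  have e : ∀ j, (Equiv.piCongrRight fun _ : Fin (k + 1) => Equiv.swap a c) l j
      = Equiv.swap a c (l j) := fun j => rfl
  have hp : ∀ l' : Fin (k + 1) → Fin m, 0 ≤ ∏ j : Fin k, ρ (l' j.succ) := fun l' =>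
    Finset.prod_nonneg fun j _ => hr.trans (hρ _)
  by_cases h : Function.Injective l ∧ l 0 = a
  · obtain ⟨h1, h2⟩ := h
    rw [if_pos ⟨h1, h2⟩, if_pos ⟨(Equiv.swap a c).injective.comp h1, by
      rw [e, h2, Equiv.swap_apply_left]⟩]
    by_cases hc : ∃ j0, l j0 = c
    · obtain ⟨j0, rfl⟩ := hc
      subst h2
      rw [← Fin.prod_univ_succ fun j =>
        ρ ((Equiv.piCongrRight fun _ : Fin (k + 1) => Equiv.swap (l 0) (l j0)) l j)]
      simp only [e, h1.swap_apply]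
      rw [Equiv.prod_comp (Equiv.swap 0 j0) fun j => ρ (l j), Fin.prod_univ_succ]
      exact mul_le_mul_of_nonneg_right (hρ _) (hp l)
    · have h3 : ∀ j : Fin k, Equiv.swap a c (l j.succ) = l j.succ := fun j =>
        Equiv.swap_apply_of_ne_of_ne (fun h => Fin.succ_ne_zero j (h1 (h.trans h2.symm)))
          fun h => hc ⟨_, h⟩
      simp only [e, h3]
      exact mul_le_mul_of_nonneg_right (hρ _) (hp l)
  · rw [if_neg h]
    split_ifs
    · exact mul_nonneg (hr.trans (hρ _)) (hp _)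
    · exact le_rfl

theorem comb_HiL1 {m k : ℕ} (ρ u : Fin m → ℝ) {r : ℝ} (hr : 0 ≤ r) (hρ : ∀ a, r ≤ ρ a)
    (hu : ∀ a, 0 ≤ u a) :
    (m : ℝ) * r * ∑ l : Fin (k + 1) → Fin m,
        (if Function.Injective l then u (l 0) * ∏ j : Fin k, ρ (l j.succ) else 0)
      ≤ (∑ a, u a) * ∑ l : Fin (k + 1) → Fin m,
        (if Function.Injective l then ρ (l 0) * ∏ j : Fin k, ρ (l j.succ) else 0) := by
  classical
  have h1 : r * ∑ l : Fin (k + 1) → Fin m,
      (if Function.Injective l then u (l 0) * ∏ j : Fin k, ρ (l j.succ) else 0)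
      = ∑ a, u a * ∑ l : Fin (k + 1) → Fin m,
        (if Function.Injective l ∧ l 0 = a then r * ∏ j : Fin k, ρ (l j.succ) else 0) := by
    simp only [Finset.mul_sum]
    rw [Finset.sum_comm]
    refine Finset.sum_congr rfl fun l _ => ?_
    rw [Finset.sum_eq_single (l 0) (fun a _ ha => by
      rw [if_neg fun h => ha h.2.symm, mul_zero]) (by simp)]
    by_cases hl : Function.Injective l
    · rw [if_pos hl, if_pos ⟨hl, rfl⟩]
      ring
    · rw [if_neg hl, if_neg fun h => hl h.1, mul_zero, mul_zero]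
  have h2 : ∑ l : Fin (k + 1) → Fin m,
      (if Function.Injective l then ρ (l 0) * ∏ j : Fin k, ρ (l j.succ) else 0)
      = ∑ c, ∑ l : Fin (k + 1) → Fin m,
        (if Function.Injective l ∧ l 0 = c then ρ (l 0) * ∏ j : Fin k, ρ (l j.succ) else 0) := by
    rw [Finset.sum_comm]
    refine Finset.sum_congr rfl fun l _ => ?_
    rw [Finset.sum_eq_single (l 0) (fun a _ ha => by rw [if_neg fun h => ha h.2.symm]) (by simp)]
    by_cases hl : Function.Injective l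
    · rw [if_pos hl, if_pos ⟨hl, rfl⟩]
    · rw [if_neg hl, if_neg fun h => hl h.1]
  rw [mul_assoc, h1, h2, Finset.mul_sum, Finset.sum_mul]
  refine Finset.sum_le_sum fun a _ => ?_
  rw [mul_left_comm]
  refine mul_le_mul_of_nonneg_left ?_ (hu a)
  have h3 := Finset.sum_le_sum fun c (_ : c ∈ Finset.univ) => key_HiL1 (k := k) ρ hr hρ a c
  rwa [Finset.sum_const, Finset.card_univ, Fintype.card_fin, nsmul_eq_mul] at h3

theorem kappa_core {m k : ℕ} (hm : finrank ℝ V = m) {f : V → ℝ} (hf : Bd f) (h0 : ∀ x, 0 ≤ f x)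
    {r : ℝ} (hr : 0 ≤ r) (hl : ∀ v : V, ‖v‖ = 1 → r ≤ ∫ x, ⟪v, x⟫ ^ 2 * f x ∂(stdGaussian V))
    (w : V) :
    (m : ℝ) * r * ∫ x, D (Fin.cons w x : Fin (k + 1) → V) ^ 2 * ∏ j, f (x j) ∂(γk V k)
      ≤ ‖w‖ ^ 2 * ∫ x, D x ^ 2 * ∏ j, f (x j) ∂(γk V (k + 1)) := by
  classical
  obtain ⟨b, hb⟩ := moment_exists_diag hm hf
  obtain ⟨M, hM⟩ : ∃ M : Fin m → Fin m → ℝ, ∀ l l',
      M l l' = ∫ x, ⟪b l, x⟫ * ⟪b l', x⟫ * f x ∂(stdGaussian V) := ⟨_, fun _ _ => rfl⟩
  have hd : ∀ a c, a ≠ c → M a c = 0 := fun a c h => by rw [hM, hb a c h]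
  have hL : ∫ x, D (Fin.cons w x : Fin (k + 1) → V) ^ 2 * ∏ j, f (x j) ∂(γk V k)
      = ∑ l : Fin (k + 1) → Fin m, (if Function.Injective l then
        ⟪b (l 0), w⟫ * ⟪b (l 0), w⟫ * ∏ j : Fin k, M (l j.succ) (l j.succ) else 0) := by
    have h1 : ∀ x : Fin k → V, D (Fin.cons w x : Fin (k + 1) → V) ^ 2 * ∏ j, f (x j)
        = ∑ l : Fin (k + 1) → Fin m, ∑ σ : Equiv.Perm (Fin (k + 1)),
          ((Equiv.Perm.sign σ : ℤ) : ℝ) * (⟪b (l (σ 0)), w⟫ * ⟪b (l 0), w⟫ *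
            ∏ j : Fin k, ⟪b (l (σ j.succ)), x j⟫ * ⟪b (l j.succ), x j⟫ * f (x j)) := by
      intro x
      rw [moment_det_expand b, Finset.sum_mul]
      refine Finset.sum_congr rfl fun l _ => ?_
      rw [Finset.sum_mul]
      refine Finset.sum_congr rfl fun σ _ => ?_
      rw [Fin.prod_univ_succ, mul_assoc, mul_assoc, ← Finset.prod_mul_distrib]
      rfl
    have hi : ∀ (l : Fin (k + 1) → Fin m) (σ : Equiv.Perm (Fin (k + 1))),
        Integrable (fun x : Fin k → V => ((Equiv.Perm.sign σ : ℤ) : ℝ) *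
          (⟪b (l (σ 0)), w⟫ * ⟪b (l 0), w⟫ *
            ∏ j : Fin k, ⟪b (l (σ j.succ)), x j⟫ * ⟪b (l j.succ), x j⟫ * f (x j))) (γk V k) :=
      fun l σ => ((Integrable.fintype_prod
        (f := fun (j : Fin k) (x : V) => ⟪b (l (σ j.succ)), x⟫ * ⟪b (l j.succ), x⟫ * f x)
        fun j => moment_integrable_inner hf _ _).const_mul _).const_mul _
    simp only [h1]
    rw [integral_finsetSum _ fun l _ => integrable_finsetSum _ fun σ _ => hi l σ]
    refine Finset.sum_congr rfl fun l _ => ?_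
    rw [integral_finsetSum _ fun σ _ => hi l σ,
      ← det_HiL1 (fun a c => ⟪b a, w⟫ * ⟪b c, w⟫) M hd l]
    refine Finset.sum_congr rfl fun σ _ => ?_
    rw [integral_const_mul, integral_const_mul, integral_fintype_prod_eq_prod
      (f := fun (j : Fin k) (x : V) => ⟪b (l (σ j.succ)), x⟫ * ⟪b (l j.succ), x⟫ * f x)]
    simp only [hM]
  have hR : ∫ x, D x ^ 2 * ∏ j, f (x j) ∂(γk V (k + 1))
      = ∑ l : Fin (k + 1) → Fin m, (if Function.Injective l then
        M (l 0) (l 0) * ∏ j : Fin k, M (l j.succ) (l j.succ) else 0) := by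
    have h1 : ∀ x : Fin (k + 1) → V, D x ^ 2 * ∏ j, f (x j) = ∑ l : Fin (k + 1) → Fin m,
        ∑ σ : Equiv.Perm (Fin (k + 1)), ((Equiv.Perm.sign σ : ℤ) : ℝ) *
          ∏ j, ⟪b (l (σ j)), x j⟫ * ⟪b (l j), x j⟫ * f (x j) := by
      intro x
      rw [moment_det_expand b x, Finset.sum_mul]
      refine Finset.sum_congr rfl fun l _ => ?_
      rw [Finset.sum_mul]
      refine Finset.sum_congr rfl fun σ _ => ?_
      rw [mul_assoc, ← Finset.prod_mul_distrib]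
    have hi : ∀ (l : Fin (k + 1) → Fin m) (σ : Equiv.Perm (Fin (k + 1))),
        Integrable (fun x : Fin (k + 1) → V => ((Equiv.Perm.sign σ : ℤ) : ℝ) *
          ∏ j, ⟪b (l (σ j)), x j⟫ * ⟪b (l j), x j⟫ * f (x j)) (γk V (k + 1)) := fun l σ =>
      (Integrable.fintype_prod (f := fun j (x : V) => ⟪b (l (σ j)), x⟫ * ⟪b (l j), x⟫ * f x)
        fun j => moment_integrable_inner hf _ _).const_mul _
    simp only [h1]
    rw [integral_finsetSum _ fun l _ => integrable_finsetSum _ fun σ _ => hi l σ]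
    refine Finset.sum_congr rfl fun l _ => ?_
    rw [integral_finsetSum _ fun σ _ => hi l σ, ← det_HiL1 M M hd l]
    refine Finset.sum_congr rfl fun σ _ => ?_
    rw [integral_const_mul, integral_fintype_prod_eq_prod
      (f := fun j (x : V) => ⟪b (l (σ j)), x⟫ * ⟪b (l j), x⟫ * f x), Fin.prod_univ_succ]
    simp only [hM]
  have hρ : ∀ a, r ≤ M a a := fun a => by
    have := hl (b a) (b.orthonormal.norm_eq_one a)
    rw [hM]
    simpa only [sq] using this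
  have h2 := comb_HiL1 (k := k) (fun a => M a a) (fun a => ⟪b a, w⟫ * ⟪b a, w⟫) hr hρ
    fun a => mul_self_nonneg _
  have h3 : ∑ a, ⟪b a, w⟫ * ⟪b a, w⟫ = ‖w‖ ^ 2 := by
    simpa only [sq] using b.sum_sq_inner_right w
  rw [hL, hR, ← h3]
  exact h2

end Pool.Agent.P.MP_181257_gt
end
end

-- part Pool.Agent.P.MP_181257_gt.HiL2
section

/-! The squared-volume moment on hyperplanes. -/

set_option autoImplicit false
set_option linter.unusedSectionVars false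
set_option linter.unusedVariables false

open MeasureTheory ProbabilityTheory Module Set Filter Topology
open scoped RealInnerProductSpace ENNReal Pointwise Matrix

noncomputable section

namespace Pool.Agent.P.MP_181257_gt

variable {V : Type} [NormedAddCommGroup V] [InnerProductSpace ℝ V] [FiniteDimensional ℝ V]
  [MeasurableSpace V] [BorelSpace V]

theorem row_HiL2 {m k : ℕ} (hm : finrank ℝ V = m) {f : V → ℝ} (hf : Bd f)
    {r : ℝ} (hr : 0 ≤ r) (hl : ∀ v : V, ‖v‖ = 1 → r ≤ ∫ x, ⟪v, x⟫ ^ 2 * f x ∂(stdGaussian V))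
    (x : Fin k → V) :
    ((m - k : ℕ) : ℝ) * r ≤ ∫ w, ‖Pj k x w‖ ^ 2 * f w ∂(stdGaussian V) := by
  obtain ⟨e, he, -, hw⟩ := exists_onb (nrm x)
  have h1 : ∀ w, ‖Pj k x w‖ ^ 2 * f w = ∑ l, ⟪e l, w⟫ ^ 2 * f w := by
    intro w
    rw [Pj_eq, hw, Finset.sum_mul]
  simp only [h1]
  rw [integral_finsetSum _ fun l _ => moment_integrable_sq hf (e l)]
  have h2 : ((m - k : ℕ) : ℝ) ≤ (finrank ℝ (nrm x) : ℝ) := by
    have := finrank_nrm_ge x
    exact_mod_cast (by omega : m - k ≤ finrank ℝ (nrm x))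
  calc ((m - k : ℕ) : ℝ) * r ≤ (finrank ℝ (nrm x) : ℝ) * r := mul_le_mul_of_nonneg_right h2 hr
    _ = ∑ _l : Fin (finrank ℝ (nrm x)), r := by simp
    _ ≤ _ := Finset.sum_le_sum fun l _ => hl _ (he.1 l)

theorem vol_core {m : ℕ} (hm : finrank ℝ V = m) {f : V → ℝ} (hf : Bd f) (h0 : ∀ x, 0 ≤ f x)
    {r : ℝ} (hr : 0 ≤ r) (hl : ∀ v : V, ‖v‖ = 1 → r ≤ ∫ x, ⟪v, x⟫ ^ 2 * f x ∂(stdGaussian V)) :
    ∀ k : ℕ, (m.descFactorial k : ℝ) * r ^ k ≤ ∫ x, D x ^ 2 * ∏ j, f (x j) ∂(γk V k) := by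
  intro k
  induction k with
  | zero => simp
  | succ k ih =>
    have hmp := mp_cons (k := k) (stdGaussian V)
    have hI := integrable_D_sq (k := k + 1) (g := fun _ => f) fun _ => hf
    have hI' := integrable_D_sq (k := k) (g := fun _ => f) fun _ => hf
    have hpt : ∀ q : V × (Fin k → V),
        D (Fin.cons q.1 q.2 : Fin (k + 1) → V) ^ 2
            * ∏ j, f ((Fin.cons q.1 q.2 : Fin (k + 1) → V) j)
          = (D q.2 ^ 2 * ∏ j, f (q.2 j)) * (‖Pj k q.2 q.1‖ ^ 2 * f q.1) := by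
      intro q
      rw [D_cons_eq, Fin.prod_univ_succ]
      simp only [Fin.cons_zero, Fin.cons_succ]
      ring
    have hP : Integrable (fun q : V × (Fin k → V) =>
        (D q.2 ^ 2 * ∏ j, f (q.2 j)) * (‖Pj k q.2 q.1‖ ^ 2 * f q.1))
        ((stdGaussian V).prod (γk V k)) :=
      ((hmp.integrable_comp hI.aestronglyMeasurable).2 hI).congr (ae_of_all _ fun q => hpt q)
    have h1 : ∫ x, D x ^ 2 * ∏ j, f (x j) ∂(γk V (k + 1))
        = ∫ x, (D x ^ 2 * ∏ j, f (x j)) * ∫ w, ‖Pj k x w‖ ^ 2 * f w ∂(stdGaussian V)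
          ∂(γk V k) := by
      rw [← af_mp_integral hmp hI.aestronglyMeasurable]
      simp only [hpt]
      rw [integral_prod_symm _ hP]
      simp only [integral_const_mul]
    have h2 : Integrable (fun x : Fin k → V => (D x ^ 2 * ∏ j, f (x j))
        * ∫ w, ‖Pj k x w‖ ^ 2 * f w ∂(stdGaussian V)) (γk V k) := by
      refine hP.integral_prod_right.congr (ae_of_all _ fun x => ?_)
      simp only [integral_const_mul]
    rw [h1, Nat.descFactorial_succ, Nat.cast_mul]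
    have hc : (0 : ℝ) ≤ ((m - k : ℕ) : ℝ) * r := mul_nonneg (Nat.cast_nonneg _) hr
    calc ((m - k : ℕ) : ℝ) * (m.descFactorial k : ℝ) * r ^ (k + 1)
        = ((m.descFactorial k : ℝ) * r ^ k) * (((m - k : ℕ) : ℝ) * r) := by ring
      _ ≤ (∫ x, D x ^ 2 * ∏ j, f (x j) ∂(γk V k)) * (((m - k : ℕ) : ℝ) * r) :=
          mul_le_mul_of_nonneg_right ih hc
      _ = ∫ x, (D x ^ 2 * ∏ j, f (x j)) * (((m - k : ℕ) : ℝ) * r) ∂(γk V k) :=
          (integral_mul_const _ _).symm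
      _ ≤ _ := by
          refine integral_mono (hI'.mul_const _) h2 fun x => ?_
          exact mul_le_mul_of_nonneg_left (row_HiL2 hm hf hr hl x)
            (mul_nonneg (sq_nonneg _) (Finset.prod_nonneg fun j _ => h0 _))

theorem bd_coe_HiL2 {f : V → ℝ} (hf : Bd f) (W : Submodule ℝ V) : Bd fun z : W => f (z : V) := by
  obtain ⟨C, hC⟩ := hf.bdd
  exact ⟨hf.meas.comp measurable_subtype_coe, C, fun z => hC _⟩

theorem Vq_eq_HiL2 (k : ℕ) {f : V → ℝ} (hf : Measurable f) (y : V) :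
    Vq k f y = ∫ z : Fin k → (ℝ ∙ y)ᗮ, D z ^ 2 * ∏ j, f (z j : V) ∂(γk (ℝ ∙ y)ᗮ k) := by
  have hT : MeasurePreserving (fun (x : Fin k → V) j => prS y (x j)) (γk V k) (γk (ℝ ∙ y)ᗮ k) :=
    measurePreserving_pi _ _ fun _ => mp_prS y
  have hF : Measurable fun z : Fin k → (ℝ ∙ y)ᗮ => D z ^ 2 * ∏ j, f (z j : V) :=
    ((measurable_D measurable_id).pow_const 2).mul (Finset.measurable_prod _ fun j _ =>
      hf.comp (measurable_subtype_coe.comp (measurable_pi_apply j)))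
  rw [← moment_integral_mp hT hF]
  unfold Vq
  refine integral_congr_ae (ae_of_all _ fun x => ?_)
  have : D (fun j => pr y (x j)) = D (fun j => prS y (x j)) :=
    D_map (ℝ ∙ y)ᗮ.subtypeₗᵢ fun j => prS y (x j)
  simp only [this, coe_prS]

theorem low_HiL2 {f : V → ℝ} (hf : Measurable f) {y : V} {r : ℝ}
    (hl : ∀ v : V, ‖v‖ = 1 → ⟪y, v⟫ = 0 → r ≤ Mf f y v v) (v : (ℝ ∙ y)ᗮ) (hv : ‖v‖ = 1) :
    r ≤ ∫ z : (ℝ ∙ y)ᗮ, ⟪v, z⟫ ^ 2 * f (z : V) ∂(stdGaussian (ℝ ∙ y)ᗮ) := by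
  have hF : Measurable fun z : (ℝ ∙ y)ᗮ => ⟪v, z⟫ ^ 2 * f (z : V) :=
    ((measurable_const.inner measurable_id).pow_const 2).mul (hf.comp measurable_subtype_coe)
  rw [← moment_integral_mp (mp_prS y) hF]
  refine (hl v hv (Submodule.mem_orthogonal_singleton_iff_inner_right.1 v.2)).trans_eq ?_
  unfold Mf
  refine integral_congr_ae (ae_of_all _ fun g => ?_)
  simp only [Submodule.coe_inner, coe_prS, sq]

theorem kappa_le {m k : ℕ} (hm : finrank ℝ V = m + 1) {f : V → ℝ} (hf : Bd f)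
    (h0 : ∀ x, 0 ≤ f x) {y : V} (hy : ‖y‖ = 1) {r : ℝ} (hr : 0 ≤ r)
    (hl : ∀ v : V, ‖v‖ = 1 → ⟪y, v⟫ = 0 → r ≤ Mf f y v v) (w : V) :
    (m : ℝ) * r * ∫ x, D (Fin.cons (pr y w) fun j => pr y (x j) : Fin (k + 1) → V) ^ 2
        * ∏ j, f (pr y (x j)) ∂(γk V k)
      ≤ ‖pr y w‖ ^ 2 * Vq (k + 1) f y := by
  have hy0 : y ≠ 0 := by
    rintro rfl
    simp at hy
  have h := kappa_core (k := k) (moment_finrank hm hy0) (bd_coe_HiL2 hf (ℝ ∙ y)ᗮ)
    (fun z => h0 _) hr (low_HiL2 hf.meas hl) (prS y w)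
  rw [← Vq_eq_HiL2 (k + 1) hf.meas y] at h
  have hT : MeasurePreserving (fun (x : Fin k → V) j => prS y (x j)) (γk V k) (γk (ℝ ∙ y)ᗮ k) :=
    measurePreserving_pi _ _ fun _ => mp_prS y
  have hF : Measurable fun z : Fin k → (ℝ ∙ y)ᗮ =>
      D (Fin.cons (prS y w) z : Fin (k + 1) → (ℝ ∙ y)ᗮ) ^ 2 * ∏ j, f (z j : V) :=
    ((measurable_D (bp_measurable_cons measurable_const measurable_id)).pow_const 2).mul
      (Finset.measurable_prod _ fun j _ =>
        hf.meas.comp (measurable_subtype_coe.comp (measurable_pi_apply j)))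
  rw [← moment_integral_mp hT hF] at h
  refine le_of_eq_of_le ?_ h
  congr 1
  refine integral_congr_ae (ae_of_all _ fun x => ?_)
  have : D (Fin.cons (pr y w) fun j => pr y (x j) : Fin (k + 1) → V)
      = D (Fin.cons (prS y w) fun j => prS y (x j) : Fin (k + 1) → (ℝ ∙ y)ᗮ) := by
    rw [← D_map (ℝ ∙ y)ᗮ.subtypeₗᵢ]
    congr 1
    funext j
    refine Fin.cases ?_ (fun j => ?_) j <;> simp
  simp only [this, coe_prS]

theorem vol_lower {m : ℕ} (hm : finrank ℝ V = m + 1) {f : V → ℝ} (hf : Bd f)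
    (h0 : ∀ x, 0 ≤ f x) {r R : ℝ} (hr : 0 ≤ r) (hP : Pin f r R) (k : ℕ) {y : V} (hy : y ≠ 0) :
    (m.descFactorial k : ℝ) * r ^ k ≤ Vq k f y := by
  have hn : ‖y‖ ≠ 0 := norm_ne_zero_iff.2 hy
  have hu : ‖(‖y‖⁻¹ • y : V)‖ = 1 := by
    rw [norm_smul, norm_inv, norm_norm, inv_mul_cancel₀ hn]
  have hu0 : (‖y‖⁻¹ • y : V) ≠ 0 := smul_ne_zero (inv_ne_zero hn) hy
  rw [← Vq_hom k f (inv_ne_zero hn) y, Vq_eq_HiL2 k hf.meas]
  exact vol_core (moment_finrank hm hu0) (bd_coe_HiL2 hf _) (fun z => h0 _) hr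
    (low_HiL2 hf.meas fun v hv hyv => (hP _ v hu hv hyv).1) k

end Pool.Agent.P.MP_181257_gt
end
end

-- part Pool.Agent.P.MP_181257_gt.HiL3
section

/-! Plane rotations. -/

set_option autoImplicit false
set_option linter.unusedSectionVars false
set_option linter.unusedVariables false

open MeasureTheory ProbabilityTheory Module Set Filter Topology
open scoped RealInnerProductSpace ENNReal Pointwise Matrix

noncomputable section

namespace Pool.Agent.P.MP_181257_gt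

variable {V : Type} [NormedAddCommGroup V] [InnerProductSpace ℝ V] [FiniteDimensional ℝ V]
  [MeasurableSpace V] [BorelSpace V]

theorem rot_zero (y v w : V) : rot y v 0 w = w := by
  simp [rot]

theorem rot_smul (y v : V) (t c : ℝ) (w : V) : rot y v t (c • w) = c • rot y v t w := by
  simp only [rot, real_inner_smul_right]
  module

theorem rot_add_HiL3 (y v : V) (t : ℝ) (w w' : V) :
    rot y v t (w + w') = rot y v t w + rot y v t w' := by
  simp only [rot, inner_add_right]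
  module

theorem rot_sub_HiL3 (y v : V) (t : ℝ) (w w' : V) :
    rot y v t (w - w') = rot y v t w - rot y v t w' := by
  simp only [rot, inner_sub_right]
  module

theorem continuous_rot (y v : V) (t : ℝ) : Continuous (rot y v t) := by
  unfold rot
  fun_prop

theorem hasDerivAt_rot (y v w : V) :
    HasDerivAt (fun t => rot y v t w) (⟪y, w⟫ • v - ⟪v, w⟫ • y) 0 := by
  have hc : HasDerivAt (fun t : ℝ => Real.cos t - 1) 0 0 := by
    simpa using (Real.hasDerivAt_cos 0).sub_const 1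
  have hs : HasDerivAt Real.sin 1 0 := by simpa using Real.hasDerivAt_sin 0
  have h1 := ((hc.smul_const y).add (hs.smul_const v)).const_smul ⟪y, w⟫
  have h2 := ((hc.smul_const v).sub (hs.smul_const y)).const_smul ⟪v, w⟫
  have h3 := (h1.const_add w).add h2
  have e : ⟪y, w⟫ • v - ⟪v, w⟫ • y
      = ⟪y, w⟫ • ((0 : ℝ) • y + (1 : ℝ) • v) + ⟪v, w⟫ • ((0 : ℝ) • v - (1 : ℝ) • y) := by
    module
  rw [e]
  exact h3

theorem inner_y_rot_HiL3 {y v : V} (hy : ‖y‖ = 1) (hv : ‖v‖ = 1) (h : ⟪y, v⟫ = 0) (t : ℝ)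
    (w : V) : ⟪y, rot y v t w⟫ = Real.cos t * ⟪y, w⟫ - Real.sin t * ⟪v, w⟫ := by
  have hyy : ⟪y, y⟫ = (1 : ℝ) := by rw [real_inner_self_eq_norm_sq, hy]; norm_num
  simp only [rot, inner_add_right, inner_sub_right, real_inner_smul_right, hyy, h]
  ring

theorem inner_v_rot_HiL3 {y v : V} (hy : ‖y‖ = 1) (hv : ‖v‖ = 1) (h : ⟪y, v⟫ = 0) (t : ℝ)
    (w : V) : ⟪v, rot y v t w⟫ = Real.sin t * ⟪y, w⟫ + Real.cos t * ⟪v, w⟫ := by
  have hvv : ⟪v, v⟫ = (1 : ℝ) := by rw [real_inner_self_eq_norm_sq, hv]; norm_num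
  have h' : ⟪v, y⟫ = (0 : ℝ) := by rw [real_inner_comm]; exact h
  simp only [rot, inner_add_right, inner_sub_right, real_inner_smul_right, hvv, h']
  ring

theorem rot_rot {y v : V} (hy : ‖y‖ = 1) (hv : ‖v‖ = 1) (h : ⟪y, v⟫ = 0) (s t : ℝ) (w : V) :
    rot y v s (rot y v t w) = rot y v (s + t) w := by
  have e : rot y v s (rot y v t w) = rot y v t w
      + ⟪y, rot y v t w⟫ • ((Real.cos s - 1) • y + Real.sin s • v)
      + ⟪v, rot y v t w⟫ • ((Real.cos s - 1) • v - Real.sin s • y) := rfl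
  rw [e, inner_y_rot_HiL3 hy hv h, inner_v_rot_HiL3 hy hv h]
  simp only [rot, Real.cos_add, Real.sin_add]
  module

theorem rot_adj_HiL3 (y v : V) (t : ℝ) (w w' : V) :
    ⟪rot y v t w, w'⟫ = ⟪w, rot y v (-t) w'⟫ := by
  simp only [rot, inner_add_left, inner_sub_left, real_inner_smul_left, inner_add_right,
    inner_sub_right, real_inner_smul_right, Real.cos_neg, Real.sin_neg, real_inner_comm y w,
    real_inner_comm v w]
  ring

theorem rot_inner {y v : V} (hy : ‖y‖ = 1) (hv : ‖v‖ = 1) (h : ⟪y, v⟫ = 0) (t : ℝ) (w w' : V) :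
    ⟪rot y v t w, rot y v t w'⟫ = ⟪w, w'⟫ := by
  rw [rot_adj_HiL3, rot_rot hy hv h, neg_add_cancel, rot_zero]

theorem norm_rot {y v : V} (hy : ‖y‖ = 1) (hv : ‖v‖ = 1) (h : ⟪y, v⟫ = 0) (t : ℝ) (w : V) :
    ‖rot y v t w‖ = ‖w‖ := by
  rw [norm_eq_sqrt_real_inner, rot_inner hy hv h, ← norm_eq_sqrt_real_inner]

theorem bessel_HiL3 {y v : V} (hy : ‖y‖ = 1) (hv : ‖v‖ = 1) (h : ⟪y, v⟫ = 0) (w : V) :
    ⟪y, w⟫ ^ 2 + ⟪v, w⟫ ^ 2 ≤ ‖w‖ ^ 2 := by
  have hyy : ⟪y, y⟫ = (1 : ℝ) := by rw [real_inner_self_eq_norm_sq, hy]; norm_num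
  have hvv : ⟪v, v⟫ = (1 : ℝ) := by rw [real_inner_self_eq_norm_sq, hv]; norm_num
  have h' : ⟪v, y⟫ = (0 : ℝ) := by rw [real_inner_comm]; exact h
  have h0 : 0 ≤ ⟪w - ⟪y, w⟫ • y - ⟪v, w⟫ • v, w - ⟪y, w⟫ • y - ⟪v, w⟫ • v⟫ :=
    real_inner_self_nonneg
  simp only [inner_sub_left, inner_sub_right, real_inner_smul_left, real_inner_smul_right, hyy,
    hvv, h, h', real_inner_comm y w, real_inner_comm v w, real_inner_self_eq_norm_sq w] at h0
  nlinarith [h0]

theorem norm_rot_sub {y v : V} (hy : ‖y‖ = 1) (hv : ‖v‖ = 1) (h : ⟪y, v⟫ = 0) (t : ℝ) (w : V) :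
    ‖rot y v t w - w‖ ≤ |t| * ‖w‖ := by
  have h1 : ⟪rot y v t w, w⟫ = ‖w‖ ^ 2 + (Real.cos t - 1) * (⟪y, w⟫ ^ 2 + ⟪v, w⟫ ^ 2) := by
    simp only [rot, inner_add_left, inner_sub_left, real_inner_smul_left,
      real_inner_self_eq_norm_sq w]
    ring
  have h2 : ‖rot y v t w - w‖ ^ 2 = 2 * (1 - Real.cos t) * (⟪y, w⟫ ^ 2 + ⟪v, w⟫ ^ 2) := by
    rw [norm_sub_sq_real, norm_rot hy hv h, h1]
    ring
  have h3 := bessel_HiL3 hy hv h w
  have h4 : 2 * (1 - Real.cos t) ≤ t ^ 2 := by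
    have := Real.one_sub_sq_div_two_le_cos (x := t)
    linarith
  have h5 : 0 ≤ ⟪y, w⟫ ^ 2 + ⟪v, w⟫ ^ 2 := by positivity
  have h6 : ‖rot y v t w - w‖ ^ 2 ≤ (|t| * ‖w‖) ^ 2 := by
    rw [h2, mul_pow, sq_abs]
    exact mul_le_mul h4 h3 h5 (sq_nonneg t)
  exact (pow_le_pow_iff_left₀ (norm_nonneg _) (by positivity) two_ne_zero).1 h6

theorem mp_rot {y v : V} (hy : ‖y‖ = 1) (hv : ‖v‖ = 1) (h : ⟪y, v⟫ = 0) (t : ℝ) :
    MeasurePreserving (rot y v t) (stdGaussian V) (stdGaussian V) :=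
  mp_coiso (rot y v t) (continuous_rot y v t).measurable (rot y v (-t))
    (rot_adj_HiL3 y v t) (norm_rot hy hv h (-t))

theorem pr_rot_HiL3 {y v : V} (hy : ‖y‖ = 1) (hv : ‖v‖ = 1) (h : ⟪y, v⟫ = 0) (t : ℝ)
    (a x : V) : pr (rot y v t a) (rot y v t x) = rot y v t (pr a x) := by
  unfold pr
  rw [rot_sub_HiL3, rot_smul, rot_inner hy hv h, norm_rot hy hv h]

theorem D_rot_HiL3 {y v : V} (hy : ‖y‖ = 1) (hv : ‖v‖ = 1) (h : ⟪y, v⟫ = 0) (t : ℝ) {k : ℕ}
    (x : Fin k → V) : D (fun j => rot y v t (x j)) = D x := by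
  unfold D
  congr 2
  ext a b
  simp only [Matrix.gram_apply, rot_inner hy hv h]

theorem Vq_rot {y v : V} (hy : ‖y‖ = 1) (hv : ‖v‖ = 1) (h : ⟪y, v⟫ = 0) (t : ℝ) (i : ℕ)
    {f : V → ℝ} (hf : Measurable f) (a : V) :
    Vq i f (rot y v t a) = ∫ x, D (fun j => pr a (x j)) ^ 2
      * ∏ j, f (rot y v t (pr a (x j))) ∂(γk V i) := by
  have h2 := measurePreserving_pi (fun _ : Fin i => stdGaussian V) (fun _ => stdGaussian V)
    (f := fun _ => rot y v t) (fun _ => mp_rot hy hv h t)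
  have hm : Measurable fun x : Fin i → V => D (fun j => pr (rot y v t a) (x j)) ^ 2
      * ∏ j, f (pr (rot y v t a) (x j)) := by
    refine Measurable.mul (by fun_prop) (Finset.measurable_prod _ fun j _ => hf.comp ?_)
    fun_prop
  unfold Vq
  have h3 := integral_map (μ := γk V i) h2.measurable.aemeasurable hm.aestronglyMeasurable
  rw [h2.map_eq] at h3
  refine h3.trans (integral_congr_ae (Eventually.of_forall fun x => ?_))
  simp only [pr_rot_HiL3 hy hv h]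
  rw [D_rot_HiL3 hy hv h t fun j => pr a (x j)]

theorem hz_rot {y v : V} (hy : ‖y‖ = 1) (hv : ‖v‖ = 1) (h : ⟪y, v⟫ = 0) (t : ℝ)
    {f : V → ℝ} (hf : Measurable f) (a : V) :
    hz f (rot y v t a) = ∫ x, |⟪a, x⟫| * f (rot y v t x) ∂(stdGaussian V) := by
  have h2 := mp_rot hy hv h t
  have hm : Measurable fun x : V => |⟪rot y v t a, x⟫| * f x := by
    refine Measurable.mul ?_ hf
    fun_prop
  unfold hz
  have h3 := integral_map (μ := stdGaussian V) h2.measurable.aemeasurable hm.aestronglyMeasurable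
  rw [h2.map_eq] at h3
  refine h3.trans (integral_congr_ae (Eventually.of_forall fun x => ?_))
  simp only [rot_inner hy hv h]

theorem Lf.rot_lip {f : V → ℝ} (hf : Lf f) : ∃ L : ℝ, 0 ≤ L ∧ ∀ y v : V, ‖y‖ = 1 → ‖v‖ = 1 →
    ⟪y, v⟫ = 0 → ∀ (s t : ℝ) (w : V), |f (rot y v s w) - f (rot y v t w)| ≤ L * |s - t| := by
  obtain ⟨L, hL, hlip⟩ := hf.lip
  refine ⟨L, hL, fun y v hy hv h s t w => ?_⟩
  by_cases hw : w = 0
  · have h0 : ∀ r : ℝ, rot y v r w = 0 := fun r => by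
      rw [← norm_eq_zero, norm_rot hy hv h, hw, norm_zero]
    rw [h0, h0, sub_self, abs_zero]
    positivity
  · have hn : 0 < ‖w‖ := norm_pos_iff.2 hw
    have hu : ‖(‖w‖⁻¹ • w : V)‖ = 1 := norm_smul_inv_norm (𝕜 := ℝ) hw
    have e : ∀ r : ℝ, f (rot y v r w) = f (rot y v r (‖w‖⁻¹ • w)) := fun r => by
      rw [rot_smul, hf.hom _ (inv_pos.2 hn)]
    rw [e s, e t]
    refine le_trans (hlip _ _ ((norm_rot hy hv h _ _).trans hu)
      ((norm_rot hy hv h _ _).trans hu)) (mul_le_mul_of_nonneg_left ?_ hL)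
    have h1 := norm_rot_sub hy hv h (s - t) (rot y v t (‖w‖⁻¹ • w))
    rw [rot_rot hy hv h, sub_add_cancel, norm_rot hy hv h, hu, mul_one] at h1
    exact h1

theorem exists_perp_HiL3 (hn : 2 ≤ finrank ℝ V) (u : V) : ∃ v : V, ‖v‖ = 1 ∧ ⟪u, v⟫ = 0 := by
  have h1 : finrank ℝ (ℝ ∙ u) + finrank ℝ (ℝ ∙ u)ᗮ = finrank ℝ V :=
    Submodule.finrank_add_finrank_orthogonal _
  have h2 : finrank ℝ (ℝ ∙ u) ≤ 1 := by
    have := finrank_span_le_card (R := ℝ) ({u} : Set V)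
    simpa using this
  have h3 : 0 < finrank ℝ (ℝ ∙ u)ᗮ := by omega
  obtain ⟨z, hz⟩ := Module.finrank_pos_iff_exists_ne_zero.1 h3
  have hz0 : (z : V) ≠ 0 := fun h => hz (Subtype.ext h)
  refine ⟨‖(z : V)‖⁻¹ • (z : V), norm_smul_inv_norm (𝕜 := ℝ) hz0, ?_⟩
  rw [real_inner_smul_right, Submodule.mem_orthogonal_singleton_iff_inner_right.1 z.2, mul_zero]

theorem exists_rot (hn : 2 ≤ finrank ℝ V) {u u' : V} (hu : ‖u‖ = 1) (hu' : ‖u'‖ = 1) :
    ∃ (v : V) (t : ℝ), ‖v‖ = 1 ∧ ⟪u, v⟫ = 0 ∧ rot u v t u = u' := by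
  have huu : ⟪u, u⟫ = (1 : ℝ) := by rw [real_inner_self_eq_norm_sq, hu]; norm_num
  have hab : |⟪u, u'⟫| ≤ 1 := by
    have := abs_real_inner_le_norm u u'
    rwa [hu, hu', mul_one] at this
  obtain ⟨ha, hb⟩ := abs_le.1 hab
  have hp : ‖u' - ⟪u, u'⟫ • u‖ = Real.sin (Real.arccos ⟪u, u'⟫) := by
    rw [Real.sin_arccos, norm_eq_sqrt_real_inner]
    congr 1
    simp only [inner_sub_left, inner_sub_right, real_inner_smul_left, real_inner_smul_right, huu,
      real_inner_comm u u', real_inner_self_eq_norm_sq u', hu']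
    ring
  have hperp : ⟪u, u' - ⟪u, u'⟫ • u⟫ = 0 := by
    rw [inner_sub_right, real_inner_smul_right, huu, mul_one, sub_self]
  obtain ⟨v, hv, huv, hvp⟩ : ∃ v : V, ‖v‖ = 1 ∧ ⟪u, v⟫ = 0 ∧
      ‖u' - ⟪u, u'⟫ • u‖ • v = u' - ⟪u, u'⟫ • u := by
    by_cases h0 : u' - ⟪u, u'⟫ • u = 0
    · obtain ⟨v, hv, huv⟩ := exists_perp_HiL3 hn u
      exact ⟨v, hv, huv, by rw [h0, norm_zero, zero_smul]⟩
    · refine ⟨‖u' - ⟪u, u'⟫ • u‖⁻¹ • (u' - ⟪u, u'⟫ • u), norm_smul_inv_norm (𝕜 := ℝ) h0, ?_, ?_⟩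
      · rw [real_inner_smul_right, hperp, mul_zero]
      · rw [smul_smul, mul_inv_cancel₀ (norm_ne_zero_iff.2 h0), one_smul]
  refine ⟨v, Real.arccos ⟪u, u'⟫, hv, huv, ?_⟩
  have hvu : ⟪v, u⟫ = (0 : ℝ) := by rw [real_inner_comm]; exact huv
  unfold rot
  rw [huu, hvu, Real.cos_arccos ha hb, ← hp, hvp]
  module

end Pool.Agent.P.MP_181257_gt
end
end

-- part Pool.Agent.P.MP_181257_gt.HiL6
section

/-! The derivative of the squared-volume moment. -/

set_option autoImplicit false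
set_option linter.unusedSectionVars false
set_option linter.unusedVariables false

open MeasureTheory ProbabilityTheory Module Set Filter Topology
open scoped RealInnerProductSpace ENNReal Pointwise Matrix

noncomputable section

namespace Pool.Agent.P.MP_181257_gt

variable {V : Type} [NormedAddCommGroup V] [InnerProductSpace ℝ V] [FiniteDimensional ℝ V]
  [MeasurableSpace V] [BorelSpace V]

theorem prod_lip_HiL6 {ι : Type} (s : Finset ι) {a b : ι → ℝ} {C δ : ℝ} (hC : 1 ≤ C)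
    (hδ : 0 ≤ δ) (ha : ∀ j, |a j| ≤ C) (hb : ∀ j, |b j| ≤ C) (h : ∀ j, |a j - b j| ≤ δ) :
    |∏ j ∈ s, a j - ∏ j ∈ s, b j| ≤ s.card * C ^ s.card * δ := by
  classical
  induction s using Finset.induction_on with
  | empty => simp
  | insert i s hi ih =>
    rw [Finset.prod_insert hi, Finset.prod_insert hi, Finset.card_insert_of_notMem hi]
    have hP : |∏ j ∈ s, b j| ≤ C ^ s.card := by
      rw [Finset.abs_prod]
      calc ∏ j ∈ s, |b j| ≤ ∏ _j ∈ s, C :=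
            Finset.prod_le_prod (fun j _ => abs_nonneg _) fun j _ => hb j
        _ = C ^ s.card := by simp
    have e : a i * ∏ j ∈ s, a j - b i * ∏ j ∈ s, b j
        = a i * (∏ j ∈ s, a j - ∏ j ∈ s, b j) + (a i - b i) * ∏ j ∈ s, b j := by ring
    have hC0 : 0 ≤ C := by linarith
    have hpw : 0 ≤ C ^ s.card := pow_nonneg hC0 _
    have h1 : |a i * (∏ j ∈ s, a j - ∏ j ∈ s, b j)| ≤ C * (s.card * C ^ s.card * δ) := by
      rw [abs_mul]
      exact mul_le_mul (ha i) ih (abs_nonneg _) hC0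
    have h2 : |(a i - b i) * ∏ j ∈ s, b j| ≤ δ * (C * C ^ s.card) := by
      rw [abs_mul]
      refine mul_le_mul (h i) (hP.trans ?_) (abs_nonneg _) hδ
      nlinarith
    rw [e]
    refine (abs_add_le _ _).trans ?_
    push_cast
    rw [pow_succ]
    nlinarith

theorem prod_erase_HiL6 {k : ℕ} (j : Fin (k + 1)) (φ : Fin (k + 1) → ℝ) :
    ∏ l ∈ Finset.univ.erase j, φ l = ∏ l : Fin k, φ (j.succAbove l) := by
  have e : (Finset.univ.erase j : Finset (Fin (k + 1))) = Finset.univ.image j.succAbove := by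
    rw [Fin.image_succAbove_univ]
    ext l
    simp
  rw [e, Finset.prod_image fun a _ b _ h => Fin.succAbove_right_injective h]

theorem bd_prod_HiL6 {X ι : Type} [MeasurableSpace X] (s : Finset ι) {φ : ι → X → ℝ}
    (h : ∀ j, Bd (φ j)) : Bd fun x => ∏ j ∈ s, φ j x := by
  classical
  induction s using Finset.induction_on with
  | empty => simpa using AFK.bd_const (X := X) 1
  | insert i s hi ih =>
    simp only [Finset.prod_insert hi]
    exact AFK.bd_mul (h i) ih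

theorem bd_comp_HiL6 {X Y : Type} [MeasurableSpace X] [MeasurableSpace Y] {φ : Y → ℝ}
    (h : Bd φ) {T : X → Y} (hT : Measurable T) : Bd fun x => φ (T x) := by
  obtain ⟨C, hC⟩ := h.bdd
  exact ⟨h.meas.comp hT, C, fun x => hC _⟩

theorem term_le_HiL6 {m k : ℕ} (hm : finrank ℝ V = m + 1) {f g : V → ℝ} (hf : Bd f)
    (h0 : ∀ x, 0 ≤ f x) (hg : Bd g) (hg0 : ∀ x, 0 ≤ g x) {y : V} (hy : ‖y‖ = 1) {r : ℝ}
    (hr : 0 ≤ r) (hl : ∀ z : V, ‖z‖ = 1 → ⟪y, z⟫ = 0 → r ≤ Mf f y z z) (j : Fin (k + 1)) :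
    (m : ℝ) * r * ∫ x, D (fun l => pr y (x l)) ^ 2
        * ((∏ l ∈ Finset.univ.erase j, f (pr y (x l))) * g (pr y (x j))) ∂(γk V (k + 1))
      ≤ Vq (k + 1) f y * ∫ G, ‖pr y G‖ ^ 2 * g (pr y G) ∂(stdGaussian V) := by
  have hA : Integrable (fun x : Fin (k + 1) → V => D (fun l => pr y (x l)) ^ 2)
      (γk V (k + 1)) := by
    simpa using integrable_Vq (k + 1) (bd_one (V := V)) y
  set H : (Fin (k + 1) → V) → ℝ := fun x => D (fun l => pr y (x l)) ^ 2
    * ((∏ l : Fin k, f (pr y (x l.succ))) * g (pr y (x 0))) with hH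
  have hB : Bd fun x : Fin (k + 1) → V =>
      (∏ l : Fin k, f (pr y (x l.succ))) * g (pr y (x 0)) :=
    AFK.bd_mul (bd_prod_HiL6 _ fun l => bd_comp_HiL6 hf (by fun_prop))
      (bd_comp_HiL6 hg (by fun_prop))
  have hHm : Measurable H := by
    refine Measurable.mul ?_ hB.meas
    fun_prop
  have hHi : Integrable H (γk V (k + 1)) := AFK.int_mul hA hB
  have e1 : ∫ x, D (fun l => pr y (x l)) ^ 2
        * ((∏ l ∈ Finset.univ.erase j, f (pr y (x l))) * g (pr y (x j))) ∂(γk V (k + 1))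
      = ∫ x, H x ∂(γk V (k + 1)) := by
    rw [← moment_integral_mp (mp_perm (stdGaussian V) j.cycleRange.symm) hHm]
    refine integral_congr_ae (Eventually.of_forall fun x => ?_)
    simp only [hH, Fin.cycleRange_symm_zero, Fin.cycleRange_symm_succ]
    rw [prod_erase_HiL6 j fun l => f (pr y (x l)),
      D_perm (fun l => pr y (x l)) j.cycleRange.symm]
  have hc := mp_cons (k := k) (stdGaussian V)
  have hHi' := (hc.integrable_comp hHm.aestronglyMeasurable).2 hHi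
  have e2 : ∫ x, H x ∂(γk V (k + 1))
      = ∫ G, ∫ x, H (Fin.cons G x) ∂(γk V k) ∂(stdGaussian V) := by
    rw [← moment_integral_mp hc hHm]
    exact integral_prod _ hHi'
  have e3 : ∀ G : V, ∫ x, H (Fin.cons G x) ∂(γk V k)
      = g (pr y G) * ∫ x, D (Fin.cons (pr y G) fun l => pr y (x l) : Fin (k + 1) → V) ^ 2
        * ∏ l, f (pr y (x l)) ∂(γk V k) := by
    intro G
    rw [← integral_const_mul]
    refine integral_congr_ae (Eventually.of_forall fun x => ?_)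
    have e : (fun l => pr y ((Fin.cons G x : Fin (k + 1) → V) l))
        = (Fin.cons (pr y G) fun l => pr y (x l) : Fin (k + 1) → V) := by
      funext l
      refine Fin.cases ?_ (fun l => ?_) l <;> simp
    simp only [hH, e, Fin.cons_succ, Fin.cons_zero]
    ring
  have hN : Integrable (fun G => ‖pr y G‖ ^ 2) (stdGaussian V) := by
    refine (integrable_norm_pow (V := V) 2).mono' (by fun_prop) (Eventually.of_forall fun G => ?_)
    rw [Real.norm_of_nonneg (by positivity)]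
    exact pow_le_pow_left₀ (norm_nonneg _) (norm_pr_le y G) 2
  have hR : Integrable (fun G => ‖pr y G‖ ^ 2 * g (pr y G)) (stdGaussian V) :=
    AFK.int_mul hN (bd_comp_HiL6 hg (by fun_prop))
  rw [e1, e2, ← integral_const_mul, ← integral_const_mul]
  refine integral_mono (hHi'.integral_prod_left.const_mul _) (hR.const_mul _) fun G => ?_
  have := mul_le_mul_of_nonneg_left (kappa_le (k := k) hm hf h0 hy hr hl G) (hg0 (pr y G))
  simp only [e3]
  nlinarith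

theorem Vq_deriv {m k : ℕ} (hm : finrank ℝ V = m + 1) {f : V → ℝ} (hf : Lf f) {y v : V}
    (hy : ‖y‖ = 1) (hv : ‖v‖ = 1) (hyv : ⟪y, v⟫ = 0)
    (hd : ∀ᵐ G ∂(stdGaussian V), DifferentiableAt ℝ f (pr y G)) {r : ℝ} (hr : 0 ≤ r)
    (hl : ∀ z : V, ‖z‖ = 1 → ⟪y, z⟫ = 0 → r ≤ Mf f y z z) :
    ∃ Λ : ℝ, HasDerivAt (fun t => Vq (k + 1) f (rot y v t y)) Λ 0 ∧
      (m : ℝ) * r * |Λ| ≤ (k + 1 : ℝ) * Vq (k + 1) f y *
        ∫ G, ‖pr y G‖ ^ 2 * (|⟪v, pr y G⟫| * |fderiv ℝ f (pr y G) y|) ∂(stdGaussian V) := by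
  obtain ⟨L, hL0, hL⟩ := hf.rot_lip
  obtain ⟨L', hL0', hL'⟩ := hf.norm_fderiv
  obtain ⟨C₀, hC₀⟩ := hf.bd.bdd
  set C : ℝ := max C₀ 1 with hC
  have hC1 : 1 ≤ C := le_max_right _ _
  have hfC : ∀ x, |f x| ≤ C := fun x => (hC₀ x).trans (le_max_left _ _)
  set g : V → ℝ := fun w => -(⟪v, w⟫ * fderiv ℝ f w y) with hg
  have hgm : Measurable g := by
    have h1 : Measurable fun w : V => fderiv ℝ f w y :=
      (measurable_fderiv_pair f).comp (f := fun w : V => (w, y)) (by fun_prop)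
    exact (Measurable.mul (by fun_prop) h1).neg
  have hgb : ∀ w, |g w| ≤ L' := by
    intro w
    have h1 : |⟪v, w⟫| ≤ ‖w‖ := by simpa [hv] using abs_real_inner_le_norm v w
    have h2 : |fderiv ℝ f w y| ≤ ‖fderiv ℝ f w‖ := by
      simpa [hy] using (fderiv ℝ f w).le_opNorm y
    simp only [hg, abs_neg, abs_mul]
    exact (mul_le_mul h1 h2 (abs_nonneg _) (norm_nonneg _)).trans (hL' w)
  have hgB : Bd g := ⟨hgm, L', hgb⟩
  have hgB' : Bd fun w => |g w| := ⟨hgm.abs, L', fun w => by rw [abs_abs]; exact hgb w⟩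
  have hA : Integrable (fun x : Fin (k + 1) → V => D (fun l => pr y (x l)) ^ 2)
      (γk V (k + 1)) := by
    simpa using integrable_Vq (k + 1) (bd_one (V := V)) y
  have hT : ∀ {u : V → ℝ}, Bd u → ∀ j : Fin (k + 1), Bd fun x : Fin (k + 1) → V =>
      (∏ l ∈ Finset.univ.erase j, f (pr y (x l))) * u (pr y (x j)) := fun hu j =>
    AFK.bd_mul (bd_prod_HiL6 _ fun l => bd_comp_HiL6 hf.bd (by fun_prop))
      (bd_comp_HiL6 hu (by fun_prop))
  have hae : ∀ᵐ x ∂(γk V (k + 1)), ∀ j, DifferentiableAt ℝ f (pr y (x j)) := by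
    rw [ae_all_iff]
    intro j
    exact (measurePreserving_eval (fun _ : Fin (k + 1) => stdGaussian V)
      j).quasiMeasurePreserving.ae hd
  have key := hasDerivAt_integral_of_dominated_loc_of_lip (μ := γk V (k + 1)) (𝕜 := ℝ)
    (x₀ := (0 : ℝ)) (s := univ)
    (F := fun t x => D (fun l => pr y (x l)) ^ 2 * ∏ l, f (rot y v t (pr y (x l))))
    (F' := fun x => ∑ j, D (fun l => pr y (x l)) ^ 2
      * ((∏ l ∈ Finset.univ.erase j, f (pr y (x l))) * g (pr y (x j))))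
    (bound := fun x => D (fun l => pr y (x l)) ^ 2 * ((k + 1 : ℕ) * C ^ (k + 1) * L))
    univ_mem ?_ ?_ ?_ ?_ (hA.mul_const _) ?_
  · refine ⟨_, key.2.congr_of_eventuallyEq (Eventually.of_forall fun t =>
      Vq_rot hy hv hyv t (k + 1) hf.meas y), ?_⟩
    rw [integral_finsetSum _ fun j _ => AFK.int_mul hA (hT hgB j)]
    have hI : ∀ G : V, |⟪v, pr y G⟫| * |fderiv ℝ f (pr y G) y| = |g (pr y G)| := by
      intro G
      simp only [hg, abs_neg, abs_mul]
    simp only [hI]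
    have hmr : 0 ≤ (m : ℝ) * r := by positivity
    calc (m : ℝ) * r * |∑ j, ∫ x, D (fun l => pr y (x l)) ^ 2
          * ((∏ l ∈ Finset.univ.erase j, f (pr y (x l))) * g (pr y (x j))) ∂(γk V (k + 1))|
        ≤ (m : ℝ) * r * ∑ j, ∫ x, D (fun l => pr y (x l)) ^ 2
          * ((∏ l ∈ Finset.univ.erase j, f (pr y (x l))) * |g (pr y (x j))|)
            ∂(γk V (k + 1)) := by
          refine mul_le_mul_of_nonneg_left ((Finset.abs_sum_le_sum_abs _ _).trans
            (Finset.sum_le_sum fun j _ => ?_)) hmr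
          refine (abs_integral_le_integral_abs).trans (le_of_eq ?_)
          refine integral_congr_ae (Eventually.of_forall fun x => ?_)
          have h1 : 0 ≤ ∏ l ∈ Finset.univ.erase j, f (pr y (x l)) :=
            Finset.prod_nonneg fun l _ => hf.nonneg _
          simp only [abs_mul, abs_of_nonneg h1, abs_of_nonneg (sq_nonneg (D fun l => pr y (x l)))]
      _ ≤ ∑ _j : Fin (k + 1), Vq (k + 1) f y
          * ∫ G, ‖pr y G‖ ^ 2 * |g (pr y G)| ∂(stdGaussian V) := by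
          rw [Finset.mul_sum]
          exact Finset.sum_le_sum fun j _ =>
            term_le_HiL6 hm hf.bd hf.nonneg hgB' (fun w => abs_nonneg _) hy hr hl j
      _ = _ := by
          simp only [Finset.sum_const, Finset.card_univ, Fintype.card_fin, nsmul_eq_mul]
          push_cast
          ring
  · refine Eventually.of_forall fun t => Measurable.aestronglyMeasurable ?_
    refine Measurable.mul (by fun_prop) (Finset.measurable_prod _ fun l _ => ?_)
    exact hf.meas.comp ((continuous_rot y v t).measurable.comp (by fun_prop))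
  · simpa only [rot_zero] using integrable_Vq (k + 1) hf.bd y
  · exact (integrable_finsetSum _ fun j _ => AFK.int_mul hA (hT hgB j)).aestronglyMeasurable
  · refine Eventually.of_forall fun x => LipschitzWith.lipschitzOnWith ?_
    refine LipschitzWith.of_dist_le_mul fun s t => ?_
    have h1 := prod_lip_HiL6 (Finset.univ : Finset (Fin (k + 1)))
      (a := fun l => f (rot y v s (pr y (x l)))) (b := fun l => f (rot y v t (pr y (x l))))
      hC1 (mul_nonneg hL0 (abs_nonneg (s - t))) (fun l => hfC _) (fun l => hfC _)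
      fun l => hL y v hy hv hyv s t _
    simp only [Finset.card_univ, Fintype.card_fin] at h1
    have hD : 0 ≤ D (fun l => pr y (x l)) ^ 2 := sq_nonneg _
    have hb : 0 ≤ D (fun l => pr y (x l)) ^ 2 * (((k + 1 : ℕ) : ℝ) * C ^ (k + 1) * L) := by
      have : 0 ≤ C := by linarith
      positivity
    rw [Real.dist_eq, Real.dist_eq, Real.coe_nnabs, abs_of_nonneg hb, ← mul_sub, abs_mul,
      abs_of_nonneg hD, mul_assoc]
    refine mul_le_mul_of_nonneg_left (h1.trans (le_of_eq ?_)) hD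
    ring
  · filter_upwards [hae] with x hx
    rw [← Finset.mul_sum]
    refine HasDerivAt.const_mul _ ?_
    have h1 : ∀ j ∈ (Finset.univ : Finset (Fin (k + 1))),
        HasDerivAt (fun t => f (rot y v t (pr y (x j)))) (g (pr y (x j))) 0 := by
      intro j _
      have h2 : HasFDerivAt f (fderiv ℝ f (pr y (x j))) (rot y v 0 (pr y (x j))) := by
        rw [rot_zero]
        exact (hx j).hasFDerivAt
      have h3 := h2.comp_hasDerivAt (0 : ℝ) (hasDerivAt_rot y v (pr y (x j)))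
      have e : fderiv ℝ f (pr y (x j)) (⟪y, pr y (x j)⟫ • v - ⟪v, pr y (x j)⟫ • y)
          = g (pr y (x j)) := by
        simp [hg, inner_pr_self]
      rw [e] at h3
      exact h3
    simpa only [rot_zero, smul_eq_mul] using HasDerivAt.fun_finsetProd h1

end Pool.Agent.P.MP_181257_gt
end
end

-- part Pool.Agent.P.MP_181257_gt.HiL7
section

/-! The gradient bound. -/

set_option autoImplicit false
set_option linter.unusedSectionVars false
set_option linter.unusedVariables false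

open MeasureTheory ProbabilityTheory Module Set Filter Topology
open scoped RealInnerProductSpace ENNReal Pointwise Matrix

noncomputable section

namespace Pool.Agent.P.MP_181257_gt

variable {V : Type} [NormedAddCommGroup V] [InnerProductSpace ℝ V] [FiniteDimensional ℝ V]
  [MeasurableSpace V] [BorelSpace V]

/-- the Fisher integrand -/
def fi_HiL7 (f : V → ℝ) (z x : V) : ℝ := ‖x‖ ^ 2 * fderiv ℝ f x z ^ 2 / f x

theorem meas_fd_HiL7 (f : V → ℝ) (z : V) : Measurable fun x => fderiv ℝ f x z :=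
  (measurable_fderiv_pair f).comp (measurable_id.prodMk measurable_const)

theorem meas_fi_HiL7 {f : V → ℝ} (hf : Lf f) (z : V) : Measurable (fi_HiL7 f z) :=
  ((measurable_norm.pow_const 2).mul ((meas_fd_HiL7 f z).pow_const 2)).div hf.meas

theorem fi_nonneg_HiL7 {f : V → ℝ} (hf : Lf f) (z x : V) : 0 ≤ fi_HiL7 f z x :=
  div_nonneg (by positivity) (hf.nonneg x)

theorem fd_bound_HiL7 {f : V → ℝ} (hf : Lf f) (z : V) :
    ∃ L : ℝ, 0 ≤ L ∧ ∀ x, ‖x‖ * |fderiv ℝ f x z| ≤ L := by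
  obtain ⟨L, hL, h⟩ := hf.norm_fderiv
  refine ⟨L * ‖z‖, by positivity, fun x => ?_⟩
  calc ‖x‖ * |fderiv ℝ f x z| ≤ ‖x‖ * (‖fderiv ℝ f x‖ * ‖z‖) :=
        mul_le_mul_of_nonneg_left ((fderiv ℝ f x).le_opNorm z) (norm_nonneg _)
    _ = ‖x‖ * ‖fderiv ℝ f x‖ * ‖z‖ := by ring
    _ ≤ L * ‖z‖ := mul_le_mul_of_nonneg_right (h x) (norm_nonneg _)

theorem fi_bound_HiL7 {f : V → ℝ} (hf : Lf f) {δ : ℝ} (hδ : 0 < δ)
    (hpos : ∀ x, x ≠ 0 → δ ≤ f x) (z : V) : ∃ C : ℝ, 0 ≤ C ∧ ∀ x, fi_HiL7 f z x ≤ C := by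
  obtain ⟨L, hL, h⟩ := fd_bound_HiL7 hf z
  refine ⟨L ^ 2 / δ, by positivity, fun x => ?_⟩
  unfold fi_HiL7
  by_cases hx : x = 0
  · subst hx
    simp only [norm_zero, ne_eq, OfNat.ofNat_ne_zero, not_false_eq_true, zero_pow, zero_mul,
      zero_div]
    positivity
  · refine div_le_div₀ (sq_nonneg _) ?_ hδ (hpos x hx)
    have := pow_le_pow_left₀ (by positivity) (h x) 2
    rwa [mul_pow, sq_abs] at this

theorem fi_hom_HiL7 {f : V → ℝ} (hf : Lf f) (z : V) {t : ℝ} (ht : 0 < t) (x : V) :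
    fi_HiL7 f z (t • x) = fi_HiL7 f z x := by
  unfold fi_HiL7
  rw [hf.fderiv_smul ht, hf.hom t ht, norm_smul, Real.norm_eq_abs, abs_of_pos ht,
    ContinuousLinearMap.smul_apply, smul_eq_mul]
  congr 1
  field_simp

theorem integrable_fisher {m : ℕ} (hm : finrank ℝ V = m + 1) {f : V → ℝ} (hf : Lf f) {δ : ℝ}
    (hδ : 0 < δ) (hpos : ∀ x, x ≠ 0 → δ ≤ f x) (y z : V) :
    Integrable (fun G => ‖pr y G‖ ^ 2 * fderiv ℝ f (pr y G) z ^ 2 / f (pr y G))
      (stdGaussian V) := by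
  obtain ⟨C, hC, h⟩ := fi_bound_HiL7 hf hδ hpos z
  have hm' : Measurable fun G => fi_HiL7 f z (pr y G) :=
    (meas_fi_HiL7 hf z).comp (measurable_pr measurable_const measurable_id)
  refine Integrable.of_bound (f := fun G => fi_HiL7 f z (pr y G)) hm'.aestronglyMeasurable C
    (ae_of_all _ fun G => ?_)
  rw [Real.norm_eq_abs, abs_of_nonneg (fi_nonneg_HiL7 hf z _)]
  exact h _

theorem cs_HiL7 {X : Type} [MeasurableSpace X] {μ : Measure X} {a b c : X → ℝ}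
    (ha : Integrable a μ) (hb : Integrable b μ) (hc : Integrable c μ) (ha0 : ∀ x, 0 ≤ a x)
    (hb0 : ∀ x, 0 ≤ b x) (h : ∀ x, c x ^ 2 ≤ a x * b x) :
    (∫ x, c x ∂μ) ^ 2 ≤ (∫ x, a x ∂μ) * ∫ x, b x ∂μ := by
  have key : ∀ t : ℝ, 0 ≤ (∫ x, a x ∂μ) * (t * t) + (-2 * ∫ x, c x ∂μ) * t + ∫ x, b x ∂μ := by
    intro t
    have h1 : ∫ x, 2 * t * c x ∂μ ≤ ∫ x, (t ^ 2 * a x + b x) ∂μ := by
      refine integral_mono (hc.const_mul _) ((ha.const_mul _).add hb) fun x => ?_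
      refine (le_abs_self _).trans (abs_le_of_sq_le_sq ?_ ?_)
      · have h2 : t ^ 2 * c x ^ 2 ≤ t ^ 2 * (a x * b x) :=
          mul_le_mul_of_nonneg_left (h x) (sq_nonneg t)
        nlinarith [sq_nonneg (t ^ 2 * a x - b x)]
      · have := ha0 x
        have := hb0 x
        positivity
    rw [integral_add (ha.const_mul _) hb, integral_const_mul, integral_const_mul] at h1
    nlinarith
  have := discrim_le_zero key
  unfold discrim at this
  nlinarith

theorem integrable_sq_HiL7 {y : V} {F : V → ℝ} (hF : Measurable F) {C : ℝ} (hC : 0 ≤ C)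
    (h : ∀ x, |F x| ≤ C * ‖x‖ ^ 2) : Integrable (fun G => F (pr y G)) (stdGaussian V) := by
  refine Integrable.mono' ((integrable_norm_pow (V := V) 2).const_mul C)
    (hF.comp (measurable_pr measurable_const measurable_id)).aestronglyMeasurable
    (ae_of_all _ fun G => ?_)
  refine (h _).trans (mul_le_mul_of_nonneg_left ?_ hC)
  exact pow_le_pow_left₀ (norm_nonneg _) (norm_pr_le y G) 2

theorem psi_bound {m : ℕ} (hm : finrank ℝ V = m + 1) (h1 : 1 ≤ m) {f : V → ℝ} (hf : Lf f)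
    {δ : ℝ} (hδ : 0 < δ) (hpos : ∀ x, x ≠ 0 → δ ≤ f x) {y : V} (hy : ‖y‖ = 1) (v : V) :
    (∫ G, ‖pr y G‖ ^ 2 * (|⟪v, pr y G⟫| * |fderiv ℝ f (pr y G) y|) ∂(stdGaussian V)) ^ 2
      ≤ (m : ℝ) * Mf f y v v *
        ∫ G, ‖pr y G‖ ^ 2 * fderiv ℝ f (pr y G) y ^ 2 / f (pr y G) ∂(stdGaussian V) := by
  obtain ⟨C, hC, hCb⟩ := fi_bound_HiL7 hf hδ hpos y
  obtain ⟨L, hL, hLb⟩ := fd_bound_HiL7 hf y
  obtain ⟨B, hB⟩ := hf.bdd
  have hB0 : 0 ≤ B := (hf.nonneg 0).trans (hB 0)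
  have hy0 : y ≠ 0 := by
    intro h
    rw [h, norm_zero] at hy
    exact zero_ne_one hy
  have hin : Measurable fun x : V => ⟪v, x⟫ := (continuous_const.inner continuous_id).measurable
  have hcs : ∀ x : V, |⟪v, x⟫| ≤ ‖v‖ * ‖x‖ := fun x => abs_real_inner_le_norm v x
  have ia : Integrable (fun G => ⟪v, pr y G⟫ * ⟪v, pr y G⟫ * f (pr y G)) (stdGaussian V) := by
    refine integrable_sq_HiL7 (F := fun x => ⟪v, x⟫ * ⟪v, x⟫ * f x) ((hin.mul hin).mul hf.meas)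
      (C := ‖v‖ ^ 2 * B) (by positivity) fun x => ?_
    rw [abs_mul, abs_mul, abs_of_nonneg (hf.nonneg x)]
    calc |⟪v, x⟫| * |⟪v, x⟫| * f x ≤ (‖v‖ * ‖x‖) * (‖v‖ * ‖x‖) * B :=
          mul_le_mul (mul_le_mul (hcs x) (hcs x) (abs_nonneg _) (by positivity)) (hB x)
            (hf.nonneg x) (by positivity)
      _ = ‖v‖ ^ 2 * B * ‖x‖ ^ 2 := by ring
  have ib : Integrable (fun G => ‖pr y G‖ ^ 2 * fi_HiL7 f y (pr y G)) (stdGaussian V) := by
    refine integrable_sq_HiL7 (F := fun x => ‖x‖ ^ 2 * fi_HiL7 f y x)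
      ((measurable_norm.pow_const 2).mul (meas_fi_HiL7 hf y)) hC fun x => ?_
    rw [abs_of_nonneg (mul_nonneg (sq_nonneg _) (fi_nonneg_HiL7 hf y x)), mul_comm]
    exact mul_le_mul_of_nonneg_right (hCb x) (sq_nonneg _)
  have ic : Integrable (fun G => ‖pr y G‖ ^ 2 * (|⟪v, pr y G⟫| * |fderiv ℝ f (pr y G) y|))
      (stdGaussian V) := by
    refine integrable_sq_HiL7 (F := fun x => ‖x‖ ^ 2 * (|⟪v, x⟫| * |fderiv ℝ f x y|))
      ((measurable_norm.pow_const 2).mul (hin.abs.mul (meas_fd_HiL7 f y).abs))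
      (C := ‖v‖ * L) (by positivity) fun x => ?_
    rw [abs_of_nonneg (by positivity)]
    calc ‖x‖ ^ 2 * (|⟪v, x⟫| * |fderiv ℝ f x y|)
        ≤ ‖x‖ ^ 2 * (‖v‖ * ‖x‖ * |fderiv ℝ f x y|) :=
          mul_le_mul_of_nonneg_left (mul_le_mul_of_nonneg_right (hcs x) (abs_nonneg _))
            (sq_nonneg _)
      _ = ‖v‖ * (‖x‖ * |fderiv ℝ f x y|) * ‖x‖ ^ 2 := by ring
      _ ≤ ‖v‖ * L * ‖x‖ ^ 2 :=
          mul_le_mul_of_nonneg_right (mul_le_mul_of_nonneg_left (hLb x) (norm_nonneg _))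
            (sq_nonneg _)
  have hcsi := cs_HiL7 ia ib ic
    (fun G => mul_nonneg (mul_self_nonneg _) (hf.nonneg _))
    (fun G => mul_nonneg (sq_nonneg _) (fi_nonneg_HiL7 hf y _)) (fun G => by
      by_cases hx : pr y G = 0
      · simp [hx]
      · have hp : f (pr y G) ≠ 0 := (hδ.trans_le (hpos _ hx)).ne'
        unfold fi_HiL7
        rw [mul_pow, mul_pow, sq_abs, sq_abs]
        apply le_of_eq
        field_simp)
  have ifi : Integrable (fun G => fi_HiL7 f y (pr y G)) (stdGaussian V) :=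
    integrable_fisher hm hf hδ hpos y y
  have hrad := radial_pr hm h1 hy0 (ψ := fun x => ENNReal.ofReal (fi_HiL7 f y x))
    (meas_fi_HiL7 hf y).ennreal_ofReal (fun t ht x => by rw [fi_hom_HiL7 hf y ht])
  have hb : ∫ G, ‖pr y G‖ ^ 2 * fi_HiL7 f y (pr y G) ∂(stdGaussian V)
      = (m : ℝ) * ∫ G, fi_HiL7 f y (pr y G) ∂(stdGaussian V) := by
    rw [integral_eq_lintegral_of_nonneg_ae
        (ae_of_all _ fun G => mul_nonneg (sq_nonneg _) (fi_nonneg_HiL7 hf y _))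
        ib.aestronglyMeasurable,
      integral_eq_lintegral_of_nonneg_ae (ae_of_all _ fun G => fi_nonneg_HiL7 hf y _)
        ifi.aestronglyMeasurable]
    simp_rw [ENNReal.ofReal_mul (sq_nonneg _)]
    rw [hrad, ENNReal.toReal_mul, ENNReal.toReal_natCast]
  rw [hb] at hcsi
  refine hcsi.trans (le_of_eq ?_)
  unfold Mf fi_HiL7
  ring

theorem grad_bound {m k : ℕ} (hm : finrank ℝ V = m + 1) (h1 : 1 ≤ m) {f g : V → ℝ} (hf : Lf f)
    (hg : Lf g) {δ : ℝ} (hδ : 0 < δ) (hpos : ∀ x, x ≠ 0 → δ ≤ f x) {r R : ℝ} (hr : 0 < r)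
    (hP : Pin f r R) {c : ℝ} (hc : 0 < c) (hgf : ∀ y, y ≠ 0 → g y = c * Vq (k + 1) f y) {y : V}
    (hy : ‖y‖ = 1) (hd : ∀ᵐ G ∂(stdGaussian V), DifferentiableAt ℝ f (pr y G)) :
    ‖fderiv ℝ g y‖ ^ 2 ≤ g y ^ 2 * ((k + 1 : ℝ) ^ 2 * R / (m * r ^ 2)) *
      ∫ G, ‖pr y G‖ ^ 2 * fderiv ℝ f (pr y G) y ^ 2 / f (pr y G) ∂(stdGaussian V) := by
  set J : ℝ := ∫ G, ‖pr y G‖ ^ 2 * fderiv ℝ f (pr y G) y ^ 2 / f (pr y G) ∂(stdGaussian V)
    with hJ
  have hJ0 : 0 ≤ J := integral_nonneg fun G => fi_nonneg_HiL7 hf y _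
  have hm0 : (0 : ℝ) < m := by exact_mod_cast h1
  have hR : 0 ≤ R := by
    obtain ⟨v, t, hv, hyv, -⟩ := exists_rot (V := V) (by omega) hy hy
    have := hP y v hy hv hyv
    linarith [this.1, this.2]
  have hy0 : y ≠ 0 := by
    intro h
    rw [h, norm_zero] at hy
    exact zero_ne_one hy
  set S : ℝ := g y ^ 2 * ((k + 1 : ℝ) ^ 2 * R / (m * r ^ 2)) * J with hS
  have hS0 : 0 ≤ S := by positivity
  by_cases hdg : DifferentiableAt ℝ g y
  swap
  · rw [fderiv_zero_of_not_differentiableAt hdg]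
    simpa using hS0
  have unit : ∀ v : V, ‖v‖ = 1 → ⟪y, v⟫ = 0 → |fderiv ℝ g y v| ≤ √S := by
    intro v hv hyv
    obtain ⟨Λ, hΛ, hle⟩ := Vq_deriv (k := k) hm hf hy hv hyv hd hr.le
      fun z hz hyz => (hP y z hy hz hyz).1
    have d1 : HasDerivAt (fun t => g (rot y v t y)) (fderiv ℝ g y v) 0 := by
      have h2 := hasDerivAt_rot y v y
      rw [real_inner_self_eq_norm_sq, hy, real_inner_comm, hyv] at h2
      have h3 : HasFDerivAt g (fderiv ℝ g y) (rot y v 0 y) := by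
        rw [rot_zero]
        exact hdg.hasFDerivAt
      have h4 := h3.comp_hasDerivAt (0 : ℝ) h2
      simpa [Function.comp_def] using h4
    have d2 : HasDerivAt (fun t => g (rot y v t y)) (c * Λ) 0 := by
      have : (fun t => g (rot y v t y)) = fun t => c * Vq (k + 1) f (rot y v t y) := by
        funext t
        refine hgf _ fun h => ?_
        have h5 := norm_rot hy hv hyv t y
        rw [h, norm_zero, hy] at h5
        exact zero_ne_one h5
      rw [this]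
      exact hΛ.const_mul c
    rw [d1.unique d2]
    refine Real.abs_le_sqrt ?_
    have hψ := psi_bound hm h1 hf hδ hpos hy v
    rw [← hJ] at hψ
    set Ψ : ℝ := ∫ G, ‖pr y G‖ ^ 2 * (|⟪v, pr y G⟫| * |fderiv ℝ f (pr y G) y|) ∂(stdGaussian V)
    have hψ' : Ψ ^ 2 ≤ m * R * J :=
      hψ.trans (mul_le_mul_of_nonneg_right
        (mul_le_mul_of_nonneg_left (hP y v hy hv hyv).2 hm0.le) hJ0)
    have hsq := pow_le_pow_left₀ (by positivity) hle 2
    rw [mul_pow, mul_pow, sq_abs, mul_pow, mul_pow] at hsq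
    have h6 : (m : ℝ) ^ 2 * r ^ 2 * Λ ^ 2 ≤ (k + 1 : ℝ) ^ 2 * Vq (k + 1) f y ^ 2 * (m * R * J) :=
      hsq.trans (mul_le_mul_of_nonneg_left hψ' (by positivity))
    have h7 : S = c ^ 2 * ((k + 1 : ℝ) ^ 2 * Vq (k + 1) f y ^ 2 * (m * R * J)
        / ((m : ℝ) ^ 2 * r ^ 2)) := by
      rw [hS, hgf y hy0]
      field_simp
    rw [h7, mul_pow]
    refine mul_le_mul_of_nonneg_left ?_ (sq_nonneg c)
    rw [le_div_iff₀ (by positivity)]
    linarith
  have hop : ‖fderiv ℝ g y‖ ≤ √S := by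
    refine ContinuousLinearMap.opNorm_le_bound _ (Real.sqrt_nonneg _) fun z => ?_
    have e1 : fderiv ℝ g y z = fderiv ℝ g y (pr y z) := by
      unfold pr
      rw [map_sub, map_smul, hg.fderiv_self, smul_zero, sub_zero]
    rw [e1, Real.norm_eq_abs]
    by_cases hz : pr y z = 0
    · rw [hz, map_zero, abs_zero]
      positivity
    · have hn : 0 < ‖pr y z‖ := norm_pos_iff.2 hz
      have h2 := unit (‖pr y z‖⁻¹ • pr y z)
        (by rw [norm_smul, norm_inv, norm_norm, inv_mul_cancel₀ hn.ne'])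
        (by rw [real_inner_smul_right, inner_pr_self, mul_zero])
      rw [map_smul, smul_eq_mul, abs_mul, abs_of_pos (inv_pos.2 hn), inv_mul_le_iff₀ hn] at h2
      refine h2.trans ?_
      rw [mul_comm]
      exact mul_le_mul_of_nonneg_left (norm_pr_le y z) (Real.sqrt_nonneg _)
  have := pow_le_pow_left₀ (norm_nonneg _) hop 2
  rwa [Real.sq_sqrt hS0] at this

end Pool.Agent.P.MP_181257_gt
end
end

-- part Pool.Agent.P.MP_181257_gt.HiL8
section

/-! Contraction of the Fisher information. -/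

set_option autoImplicit false
set_option linter.unusedSectionVars false
set_option linter.unusedVariables false

open MeasureTheory ProbabilityTheory Module Set Filter Topology
open scoped RealInnerProductSpace ENNReal Pointwise Matrix

noncomputable section

namespace Pool.Agent.P.MP_181257_gt

variable {V : Type} [NormedAddCommGroup V] [InnerProductSpace ℝ V] [FiniteDimensional ℝ V]
  [MeasurableSpace V] [BorelSpace V]

theorem fisher_inner {m : ℕ} (hm : finrank ℝ V = m + 1) (h1 : 1 ≤ m) {g : V → ℝ} (hg : Lf g)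
    {r R : ℝ} (hR : 0 ≤ R) (hP : Pin g r R) {x : V} (hx : x ≠ 0) (ℓ : V →L[ℝ] ℝ)
    (hℓ : ℓ x = 0) :
    ∫⁻ b, ENNReal.ofReal (g (pr x b) * (ℓ (pr x b) ^ 2 / ‖pr x b‖ ^ 2)) ∂(stdGaussian V)
      ≤ ENNReal.ofReal (R * ‖ℓ‖ ^ 2 / m) := by
  set a : V := (InnerProductSpace.toDual ℝ V).symm ℓ with ha
  have hin : ∀ w, ⟪a, w⟫ = ℓ w := fun w => by
    rw [ha]; exact InnerProductSpace.toDual_symm_apply
  have hna : ‖a‖ = ‖ℓ‖ := by rw [ha]; exact LinearIsometryEquiv.norm_map _ _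
  have hM : Mf g x a a ≤ R * ‖ℓ‖ ^ 2 := by
    by_cases h0 : a = 0
    · have : Mf g x a a = 0 := by simp [Mf, h0]
      rw [this]; positivity
    · have hxn : ‖x‖ ≠ 0 := norm_ne_zero_iff.2 hx
      have han : ‖a‖ ≠ 0 := norm_ne_zero_iff.2 h0
      have h := (hP (‖x‖⁻¹ • x) (‖a‖⁻¹ • a) (norm_smul_inv_norm hx) (norm_smul_inv_norm h0)
        (by rw [inner_smul_left, inner_smul_right, real_inner_comm, hin, hℓ]; simp)).2
      rw [Mf_hom _ (inv_ne_zero hxn), Mf_smul, Mf_symm, Mf_smul] at h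
      rw [← hna]
      have h2 : Mf g x a a = ‖a‖ ^ 2 * (‖a‖⁻¹ * (‖a‖⁻¹ * Mf g x a a)) := by field_simp
      rw [h2, mul_comm R]
      exact mul_le_mul_of_nonneg_left h (by positivity)
  have hψ : Measurable fun w : V => ENNReal.ofReal (g w * (ℓ w ^ 2 / ‖w‖ ^ 2)) := by
    have := hg.meas
    have h2 : Measurable fun w : V => ℓ w := ℓ.continuous.measurable
    fun_prop
  have hrad := radial_pr hm h1 hx hψ (fun t ht w => by
    rw [hg.hom t ht, map_smul, norm_smul, Real.norm_eq_abs, abs_of_pos ht, smul_eq_mul, mul_pow,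
      mul_pow, mul_div_mul_left _ _ (by positivity)])
  have hL : ∫⁻ G, ENNReal.ofReal (‖pr x G‖ ^ 2)
      * ENNReal.ofReal (g (pr x G) * (ℓ (pr x G) ^ 2 / ‖pr x G‖ ^ 2)) ∂(stdGaussian V)
      = ENNReal.ofReal (Mf g x a a) := by
    rw [Mf, ofReal_integral_eq_lintegral_ofReal (integrable_Mf hg.bd x a a)
      (Eventually.of_forall fun G => mul_nonneg (mul_self_nonneg _) (hg.nonneg _))]
    refine lintegral_congr fun G => ?_
    rw [← ENNReal.ofReal_mul (by positivity), hin]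
    congr 1
    by_cases h0 : pr x G = 0
    · simp [h0]
    · have : ‖pr x G‖ ≠ 0 := norm_ne_zero_iff.2 h0
      field_simp
  rw [hL] at hrad
  have hm0 : (0 : ℝ) < m := by exact_mod_cast h1
  rw [ENNReal.ofReal_div_of_pos hm0, ENNReal.ofReal_natCast,
    ENNReal.le_div_iff_mul_le (Or.inl (by exact_mod_cast (by omega : m ≠ 0)))
      (Or.inl (ENNReal.natCast_ne_top m)), mul_comm, ← hrad]
  exact ENNReal.ofReal_le_ofReal hM

theorem Jf_le {m k : ℕ} (hm : finrank ℝ V = m + 1) (h1 : 1 ≤ m) {f g : V → ℝ} (hf : Lf f)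
    (hg : Lf g) {δ : ℝ} (hδ : 0 < δ) (hpos : ∀ x, x ≠ 0 → δ ≤ f x) {r R r' R' : ℝ} (hr : 0 < r)
    (hR : 0 ≤ R) (hR' : 0 ≤ R') (hP : Pin f r R) (hP' : Pin g r' R') {c : ℝ} (hc : 0 < c)
    (hgf : ∀ y, y ≠ 0 → g y = c * Vq (k + 1) f y) :
    Jf g ≤ ENNReal.ofReal (((k + 1 : ℝ) / m) ^ 2 * (R * R' / r ^ 2)) * Jf f := by
  have hm0 : (0 : ℝ) < m := by exact_mod_cast h1
  set H : V × V → ℝ≥0∞ := fun p => ENNReal.ofReal
    (g p.2 * (fderiv ℝ f p.1 p.2 ^ 2 / ‖p.2‖ ^ 2) * (‖p.1‖ ^ 2 / f p.1)) with hH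
  have hHm : Measurable H := by
    have h1 := hg.meas
    have h2 := hf.meas
    have h3 := measurable_fderiv_pair f
    rw [hH]
    fun_prop
  have hsw := swap_inc (by omega) hHm
    (fun x y t ht => by
      simp only [hH]
      rw [hf.fderiv_smul ht, hf.hom t ht, norm_smul, Real.norm_eq_abs, abs_of_pos ht,
        smul_apply, smul_eq_mul]
      congr 1
      have := ht.ne'
      rw [mul_assoc, mul_assoc, div_mul_div_comm, div_mul_div_comm]
      congr 2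
      field_simp)
    (fun x y t ht => by
      simp only [hH]
      rw [hg.hom t ht, map_smul, norm_smul, Real.norm_eq_abs, abs_of_pos ht, smul_eq_mul, mul_pow,
        mul_pow, mul_div_mul_left _ _ (by positivity)])
  set K : ℝ := (k + 1 : ℝ) ^ 2 * R / (m * r ^ 2) with hK
  have hK0 : 0 ≤ K := by positivity
  have hA : Jf g ≤ ENNReal.ofReal K
      * ∫⁻ b, ∫⁻ a, H (pr b a, b) ∂(stdGaussian V) ∂(stdGaussian V) := by
    rw [← lintegral_const_mul' _ _ ENNReal.ofReal_ne_top, Jf]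
    refine lintegral_mono_ae ?_
    filter_upwards [ae_ne_zero (V := V) (by omega), hf.ae_ae_diff (by omega)] with y hy hd
    have hyn : 0 < ‖y‖ := norm_pos_iff.2 hy
    have hpr : ∀ G, pr (‖y‖⁻¹ • y) G = pr y G := fun G => pr_smul_left (inv_ne_zero hyn.ne') y G
    have hy1 : ‖‖y‖⁻¹ • y‖ = 1 := by
      rw [norm_smul, norm_inv, norm_norm, inv_mul_cancel₀ hyn.ne']
    have hd' : ∀ᵐ G ∂(stdGaussian V), DifferentiableAt ℝ f (pr (‖y‖⁻¹ • y) G) :=
      hd.mono fun G h => by rw [hpr]; exact h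
    have hb := grad_bound hm h1 hf hg hδ hpos hr hP hc hgf hy1 hd'
    rw [hg.fderiv_smul (inv_pos.2 hyn), hg.hom _ (inv_pos.2 hyn), inv_inv, norm_smul,
      Real.norm_eq_abs, abs_of_pos hyn, mul_pow] at hb
    have hint := integrable_fisher hm hf hδ hpos (‖y‖⁻¹ • y) (‖y‖⁻¹ • y)
    simp only [hpr] at hb hint
    set I : ℝ := ∫ G, ‖pr y G‖ ^ 2 * fderiv ℝ f (pr y G) (‖y‖⁻¹ • y) ^ 2 / f (pr y G)
      ∂(stdGaussian V) with hI
    have hnn : ∀ G, 0 ≤ ‖pr y G‖ ^ 2 * fderiv ℝ f (pr y G) (‖y‖⁻¹ • y) ^ 2 / f (pr y G) :=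
      fun G => div_nonneg (by positivity) (hf.nonneg _)
    have hI0 : 0 ≤ I := integral_nonneg hnn
    have hg0 := hg.nonneg y
    have hE : ∫⁻ a, H (pr y a, y) ∂(stdGaussian V) = ENNReal.ofReal (g y * I) := by
      rw [ENNReal.ofReal_mul hg0, hI,
        ofReal_integral_eq_lintegral_ofReal hint (Eventually.of_forall hnn),
        ← lintegral_const_mul' _ _ ENNReal.ofReal_ne_top]
      refine lintegral_congr fun G => ?_
      rw [← ENNReal.ofReal_mul hg0]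
      simp only [hH]
      congr 1
      rw [map_smul, smul_eq_mul]
      simp only [div_eq_mul_inv, mul_pow, inv_pow]
      ring
    rw [hE, ← ENNReal.ofReal_mul hK0]
    refine ENNReal.ofReal_le_ofReal ?_
    rcases hg0.eq_or_lt with h0 | h0
    · rw [← h0]; simp
    · rw [div_le_iff₀ h0]
      calc _ ≤ _ := hb
        _ = _ := by ring
  have hB : ∫⁻ a, ∫⁻ b, H (a, pr a b) ∂(stdGaussian V) ∂(stdGaussian V)
      ≤ ENNReal.ofReal (R' / m) * Jf f := by
    rw [Jf, ← lintegral_const_mul' _ _ ENNReal.ofReal_ne_top]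
    refine lintegral_mono_ae ?_
    filter_upwards [ae_ne_zero (V := V) (by omega)] with x hx
    have hfi := fisher_inner hm h1 hg hR' hP' hx (fderiv ℝ f x) (hf.fderiv_self x)
    have hq : 0 ≤ ‖x‖ ^ 2 / f x := div_nonneg (by positivity) (hf.nonneg _)
    have hE : ∫⁻ b, H (x, pr x b) ∂(stdGaussian V) = (∫⁻ b, ENNReal.ofReal (g (pr x b)
        * (fderiv ℝ f x (pr x b) ^ 2 / ‖pr x b‖ ^ 2)) ∂(stdGaussian V))
        * ENNReal.ofReal (‖x‖ ^ 2 / f x) := by
      rw [← lintegral_mul_const' _ _ ENNReal.ofReal_ne_top]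
      refine lintegral_congr fun b => ?_
      simp only [hH]
      rw [ENNReal.ofReal_mul' hq]
    rw [hE]
    calc _ ≤ ENNReal.ofReal (R' * ‖fderiv ℝ f x‖ ^ 2 / m) * ENNReal.ofReal (‖x‖ ^ 2 / f x) :=
          mul_le_mul_left hfi _
      _ = _ := by
          rw [← ENNReal.ofReal_mul' hq, ← ENNReal.ofReal_mul (by positivity)]
          congr 1
          ring
  calc Jf g ≤ _ := hA
    _ ≤ ENNReal.ofReal K * (ENNReal.ofReal (R' / m) * Jf f) := by
        rw [← hsw]; exact mul_le_mul_right hB _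
    _ = _ := by
        rw [← mul_assoc, ← ENNReal.ofReal_mul hK0]
        congr 2
        rw [hK]
        field_simp

end Pool.Agent.P.MP_181257_gt
end
end

-- part Pool.Agent.P.MP_181257_gt.HiL9
section

/-! Vanishing Fisher information. -/

set_option autoImplicit false
set_option linter.unusedSectionVars false
set_option linter.unusedVariables false

open MeasureTheory ProbabilityTheory Module Set Filter Topology
open scoped RealInnerProductSpace ENNReal Pointwise Matrix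

noncomputable section

namespace Pool.Agent.P.MP_181257_gt

variable {V : Type} [NormedAddCommGroup V] [InnerProductSpace ℝ V] [FiniteDimensional ℝ V]
  [MeasurableSpace V] [BorelSpace V]

theorem ae_fderiv_HiL9 (hn : 2 ≤ finrank ℝ V) {f : V → ℝ} (hf : Lf f)
    (hpos : ∀ x, x ≠ 0 → 0 < f x) (h0 : Jf f = 0) :
    ∀ᵐ x ∂(stdGaussian V), fderiv ℝ f x = 0 := by
  have hm : Measurable fun x : V => ENNReal.ofReal (‖x‖ ^ 2 * ‖fderiv ℝ f x‖ ^ 2 / f x) := by
    refine ENNReal.measurable_ofReal.comp ?_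
    refine Measurable.div ?_ hf.meas
    exact (measurable_norm.pow_const 2).mul ((measurable_fderiv ℝ f).norm.pow_const 2)
  have h1 := (lintegral_eq_zero_iff hm).mp h0
  filter_upwards [h1, ae_ne_zero (V := V) (by omega)] with x hx hx0
  have h2 : ‖x‖ ^ 2 * ‖fderiv ℝ f x‖ ^ 2 / f x ≤ 0 := ENNReal.ofReal_eq_zero.mp hx
  have h3 := hpos x hx0
  have h4 : 0 < ‖x‖ := norm_pos_iff.mpr hx0
  have h5 : ‖x‖ ^ 2 * ‖fderiv ℝ f x‖ ^ 2 ≤ 0 := by
    by_contra hc
    exact absurd h2 (not_le.mpr (div_pos (not_le.mp hc) h3))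
  have h6 : ‖fderiv ℝ f x‖ ^ 2 ≤ 0 := by
    by_contra hc
    exact absurd h5 (not_le.mpr (mul_pos (pow_pos h4 2) (not_le.mp hc)))
  have h7 : ‖fderiv ℝ f x‖ = 0 := by
    have := pow_eq_zero_iff (n := 2) (a := ‖fderiv ℝ f x‖) (by norm_num)
    exact this.mp (le_antisymm h6 (sq_nonneg _))
  exact norm_eq_zero.mp h7

theorem deriv_zero_HiL9 (hn : 2 ≤ finrank ℝ V) {f : V → ℝ} (hf : Lf f)
    (hpos : ∀ x, x ≠ 0 → 0 < f x) (h0 : Jf f = 0) {y v : V} (hy : ‖y‖ = 1) (hv : ‖v‖ = 1)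
    (h : ⟪y, v⟫ = 0) (a : V) :
    HasDerivAt (fun s => ∫ x, |⟪a, x⟫| * f (rot y v s x) ∂(stdGaussian V)) 0 0 := by
  obtain ⟨L, hL, hlip⟩ := hf.rot_lip
  obtain ⟨C, hC⟩ := hf.bdd
  have hint : Integrable (fun x : V => |⟪a, x⟫|) (stdGaussian V) := integrable_abs_inner a
  have hmeas : ∀ s : ℝ, AEStronglyMeasurable (fun x : V => |⟪a, x⟫| * f (rot y v s x))
      (stdGaussian V) := fun s =>
    (hint.aestronglyMeasurable).mul
      (hf.meas.comp (continuous_rot y v s).measurable).aestronglyMeasurable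
  have key := hasDerivAt_integral_of_dominated_loc_of_lip (μ := stdGaussian V)
    (F := fun (s : ℝ) (x : V) => |⟪a, x⟫| * f (rot y v s x)) (F' := fun _ => (0 : ℝ))
    (x₀ := (0 : ℝ)) (s := univ) (bound := fun x => |⟪a, x⟫| * L) univ_mem
    (Eventually.of_forall hmeas)
    (by
      refine Integrable.mono' (hint.mul_const C) (hmeas 0) (ae_of_all _ fun x => ?_)
      rw [Real.norm_eq_abs, abs_mul, abs_abs, abs_of_nonneg (hf.nonneg _)]
      exact mul_le_mul_of_nonneg_left (hC _) (abs_nonneg _))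
    aestronglyMeasurable_const
    (ae_of_all _ fun x => by
      refine LipschitzOnWith.of_dist_le_mul fun s _ t _ => ?_
      rw [Real.dist_eq, Real.dist_eq, ← mul_sub, abs_mul, abs_abs, Real.coe_nnabs,
        abs_of_nonneg (mul_nonneg (abs_nonneg _) hL), mul_assoc]
      exact mul_le_mul_of_nonneg_left (hlip y v hy hv h s t x) (abs_nonneg _))
    (hint.mul_const L)
    (by
      filter_upwards [ae_fderiv_HiL9 hn hf hpos h0, hf.ae_diff (by omega)] with x hx hd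
      have h1 : HasFDerivAt f (0 : V →L[ℝ] ℝ) (rot y v 0 x) := by
        rw [rot_zero, ← hx]
        exact hd.hasFDerivAt
      have h2 := h1.comp_hasDerivAt (0 : ℝ) (hasDerivAt_rot y v x)
      have h3 := h2.const_mul |⟪a, x⟫|
      simpa [Function.comp_def] using h3)
  simpa using key.2

theorem hz_const (hn : 2 ≤ finrank ℝ V) {f : V → ℝ} (hf : Lf f) (hpos : ∀ x, x ≠ 0 → 0 < f x)
    (h0 : Jf f = 0) {u u' : V} (hu : ‖u‖ = 1) (hu' : ‖u'‖ = 1) : hz f u = hz f u' := by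
  obtain ⟨v, t, hv, huv, ht⟩ := exists_rot hn hu hu'
  have hd : ∀ t0 : ℝ, HasDerivAt (fun s => hz f (rot u v s u)) 0 t0 := by
    intro t0
    have h1 := deriv_zero_HiL9 hn hf hpos h0 hu hv huv (rot u v t0 u)
    have h2 : (fun s => hz f (rot u v s u)) =
        (fun s => ∫ x, |⟪rot u v t0 u, x⟫| * f (rot u v s x) ∂(stdGaussian V)) ∘
          fun s => s - t0 := by
      funext s
      simp only [Function.comp]
      rw [← hz_rot hu hv huv (s - t0) hf.meas, rot_rot hu hv huv, sub_add_cancel]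
    rw [h2]
    have h3 : HasDerivAt (fun s : ℝ => s - t0) 1 t0 := (hasDerivAt_id t0).sub_const t0
    have h4 : HasDerivAt
        (fun s => ∫ x, |⟪rot u v t0 u, x⟫| * f (rot u v s x) ∂(stdGaussian V)) 0 (t0 - t0) := by
      rw [sub_self]
      exact h1
    have h5 := HasDerivAt.comp (h := fun s : ℝ => s - t0) t0 h4 h3
    rwa [zero_mul] at h5
  have hc := is_const_of_deriv_eq_zero (f := fun s => hz f (rot u v s u))
    (fun s => (hd s).differentiableAt) (fun s => (hd s).deriv) 0 t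
  simp only [rot_zero, ht] at hc
  exact hc

end Pool.Agent.P.MP_181257_gt
end
end

-- part Pool.Agent.P.MP_181257_gt.HiMain
section

/-! Rigidity for `i ≤ (1 - ε) n`. -/

set_option autoImplicit false
set_option linter.unusedSectionVars false
set_option linter.unusedVariables false

open MeasureTheory ProbabilityTheory Module Set Filter Topology
open scoped RealInnerProductSpace ENNReal Pointwise Matrix

noncomputable section

namespace Pool.Agent.P.MP_181257_gt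

variable {V : Type} [NormedAddCommGroup V] [InnerProductSpace ℝ V] [FiniteDimensional ℝ V]
  [MeasurableSpace V] [BorelSpace V]

theorem local_rigid {m k : ℕ} (hm : finrank ℝ V = m + 1) (hk : k + 1 ≤ m) {f g : V → ℝ}
    (hf : Lf f) (hg : Lf g) {r R r' R' c c' : ℝ} (hr : 0 < r) (hr' : 0 < r') (hR : 0 ≤ R)
    (hR' : 0 ≤ R') (hP : Pin f r R) (hP' : Pin g r' R') (hc : 0 < c) (hc' : 0 < c')
    (hgf : ∀ y, y ≠ 0 → g y = c * Vq (k + 1) f y) (hfg : ∀ y, y ≠ 0 → f y = c' * Vq (k + 1) g y)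
    (hlt : (((k + 1 : ℝ) / m) ^ 2 * (R' * R / r' ^ 2)) * (((k + 1 : ℝ) / m) ^ 2 * (R * R' / r ^ 2))
      < 1) {u u' : V} (hu : ‖u‖ = 1) (hu' : ‖u'‖ = 1) : hz f u = hz f u' := by
  have h1 : 1 ≤ m := by omega
  have hd : (0 : ℝ) < m.descFactorial (k + 1) := moment_desc_pos hk
  have hfl : ∀ x, x ≠ 0 → c' * ((m.descFactorial (k + 1) : ℝ) * r' ^ (k + 1)) ≤ f x := by
    intro x hx
    rw [hfg x hx]
    exact mul_le_mul_of_nonneg_left (vol_lower hm hg.bd hg.nonneg hr'.le hP' _ hx) hc'.le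
  have hgl : ∀ x, x ≠ 0 → c * ((m.descFactorial (k + 1) : ℝ) * r ^ (k + 1)) ≤ g x := by
    intro x hx
    rw [hgf x hx]
    exact mul_le_mul_of_nonneg_left (vol_lower hm hf.bd hf.nonneg hr.le hP _ hx) hc.le
  have hf0 : 0 < c' * ((m.descFactorial (k + 1) : ℝ) * r' ^ (k + 1)) := by positivity
  have hg0 : 0 < c * ((m.descFactorial (k + 1) : ℝ) * r ^ (k + 1)) := by positivity
  have a1 := Jf_le hm h1 hf hg hf0 hfl hr hR hR' hP hP' hc hgf
  have a2 := Jf_le hm h1 hg hf hg0 hgl hr' hR' hR hP' hP hc' hfg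
  have a3 := a2.trans (mul_le_mul_right a1 _)
  rw [← mul_assoc, ← ENNReal.ofReal_mul (by positivity)] at a3
  have hJ : Jf f = 0 := by
    by_contra hne
    have h2 := ENNReal.mul_lt_mul_left hne (Jf_ne_top hf hf0 hfl) (ENNReal.ofReal_lt_one.2 hlt)
    rw [one_mul] at h2
    exact absurd a3 (not_le.2 h2)
  exact hz_const (by omega) hf (fun x hx => hf0.trans_le (hfl x hx)) hJ hu hu'

theorem dens_fix {i : ℕ} {μ ν : Measure V} (h : FP i μ ν) (hi : 1 ≤ i)
    (hin : i + 1 ≤ finrank ℝ V) {C C' : ℝ} (hC : 1 ≤ C) (hN : Neg4 i μ C) (hC' : 1 ≤ C')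
    (hN' : Neg4 i ν C') :
    Lf (dens i μ) ∧ ∃ a c : ℝ, 0 < c ∧ (∀ u, th i ν u = a * hz (dens i μ) u) ∧
      (∀ u, ‖u‖ = 1 → ∀ v w, Mf (dens i μ) u v w = c⁻¹ * MK i ν u v w) ∧
      ∀ y, y ≠ 0 → dens i ν y = c ^ i * Vq i (dens i μ) y := by
  obtain ⟨h0, a, ha, hth⟩ := density h.symm hi hin hC hN
  have hL : Lf (dens i μ) := Lf_dens h.ml h.wl hC hN h0
  haveI := Fr_prob h.mr h.wr
  have hM : ∀ u, ‖u‖ = 1 → ∀ v w, c2 * Mf (dens i μ) u v w = a⁻¹ * MK i ν u v w := by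
    intro u hu v w
    refine Mf_eq_Phi (by omega) (Fr i ν) (fun y => Pj i y)
      (fun v => measurable_Pj i measurable_id measurable_const) (fun y v => norm_Pj_le y v)
      hL.bd hL.contOn (fun z => ?_) hu (hN'.lintegral_ne_top h.mr h.wr hu) v w
    have := hth z
    unfold th at this
    rw [this]
    field_simp
  have hc2 := c2_pos
  refine ⟨hL, a, a * c2, by positivity, hth, fun u hu v w => ?_, fun y hy => ?_⟩
  · have := hM u hu v w
    field_simp at this ⊢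
    linarith
  · have hy' : ‖y‖ ≠ 0 := norm_ne_zero_iff.2 hy
    have hu : ‖‖y‖⁻¹ • y‖ = 1 := by
      rw [norm_smul, norm_inv, norm_norm, inv_mul_cancel₀ hy']
    rw [dens_eq i ν hy, Vq_eq_Ei i hL.bd, ← Ei_smul]
    congr 1
    funext v w
    have := hM _ hu v w
    rw [Mf_hom _ (inv_ne_zero hy')] at this
    field_simp at this ⊢
    linarith

theorem pin_of {i : ℕ} {ν : Measure V} {f : V → ℝ} {c η s : ℝ} (hc : 0 < c)
    (hM : ∀ u, ‖u‖ = 1 → ∀ v w, Mf f u v w = c⁻¹ * MK i ν u v w)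
    (hp : ∀ u v : V, ‖u‖ = 1 → ‖v‖ = 1 → ⟪u, v⟫ = 0 →
      (1 - η) * s ≤ MK i ν u v v ∧ MK i ν u v v ≤ (1 + η) * s) :
    Pin f (c⁻¹ * ((1 - η) * s)) (c⁻¹ * ((1 + η) * s)) := by
  intro y v hy hv hyv
  rw [hM y hy]
  exact ⟨mul_le_mul_of_nonneg_left (hp y v hy hv hyv).1 (inv_nonneg.2 hc.le),
    mul_le_mul_of_nonneg_left (hp y v hy hv hyv).2 (inv_nonneg.2 hc.le)⟩

theorem const_of_FP {ε : ℝ} (hε : 0 < ε) : ∃ n₀ : ℕ, ∀ n : ℕ, n₀ ≤ n →
    ∀ (i : ℕ) (μ ν : Measure (En n)), FP i μ ν → 1 ≤ i → (i : ℝ) ≤ (1 - ε) * n →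
      ∀ u u' : En n, ‖u‖ = 1 → ‖u'‖ = 1 → th i ν u = th i ν u' := by
  obtain ⟨n₁, h₁⟩ := apriori hε (by positivity : 0 < ε / 4)
  obtain ⟨n₂, h₂⟩ := exists_nat_gt (2 / ε)
  refine ⟨max n₁ n₂, fun n hn i μ ν h hi hin u u' hu hu' => ?_⟩
  have hn1 : n₁ ≤ n := (le_max_left _ _).trans hn
  have hn2 : (n₂ : ℝ) ≤ n := by exact_mod_cast (le_max_right _ _).trans hn
  have hεn : 2 < ε * n := by
    have := (div_lt_iff₀ hε).1 (h₂.trans_le hn2)
    linarith
  have hi1 : (1 : ℝ) ≤ i := by exact_mod_cast hi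
  have hn0 : (0 : ℝ) ≤ n := Nat.cast_nonneg n
  have hε1 : ε < 1 := by
    by_contra hcon
    have : (1 - ε) * n ≤ 0 := mul_nonpos_of_nonpos_of_nonneg (by linarith) hn0
    linarith
  have hi2 : i + 2 ≤ n := by
    have : (i : ℝ) + 2 ≤ n := by nlinarith
    exact_mod_cast this
  obtain ⟨C, s, hC, hs, hN, hp⟩ := h₁ n hn1 i μ ν h hi hin
  obtain ⟨C', s', hC', hs', hN', hp'⟩ := h₁ n hn1 i ν μ h.symm hi hin
  have hfr : finrank ℝ (En n) = n := by simp
  obtain ⟨hLf, a, c, hc, hth, hM, hV⟩ := dens_fix h hi (by omega) hC hN hC' hN'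
  obtain ⟨hLg, a', c', hc', -, hM', hV'⟩ := dens_fix h.symm hi (by omega) hC' hN' hC hN
  obtain ⟨k, rfl⟩ : ∃ k, i = k + 1 := ⟨i - 1, by omega⟩
  obtain ⟨m, rfl⟩ : ∃ m, n = m + 1 := ⟨n - 1, by omega⟩
  have hη : 0 < 1 - ε / 4 := by linarith
  have hm0 : (0 : ℝ) < m := by
    have : 0 < m := by omega
    exact_mod_cast this
  rw [hth u, hth u', local_rigid hfr (by omega) hLf hLg (by positivity) (by positivity)
    (by positivity) (by positivity) (pin_of hc hM hp') (pin_of hc' hM' hp) (pow_pos hc _)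
    (pow_pos hc' _) hV hV' ?_ hu hu']
  have e : (((k + 1 : ℝ) / m) ^ 2 * (c'⁻¹ * ((1 + ε / 4) * s) * (c⁻¹ * ((1 + ε / 4) * s'))
      / (c'⁻¹ * ((1 - ε / 4) * s)) ^ 2)) * (((k + 1 : ℝ) / m) ^ 2
        * (c⁻¹ * ((1 + ε / 4) * s') * (c'⁻¹ * ((1 + ε / 4) * s))
          / (c⁻¹ * ((1 - ε / 4) * s')) ^ 2))
      = (((k + 1 : ℝ) * (1 + ε / 4)) / (m * (1 - ε / 4))) ^ 4 := by
    field_simp
  rw [e]
  refine pow_lt_one₀ (by positivity) ((div_lt_one (by positivity)).2 ?_) (by norm_num)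
  push_cast at hin hεn
  have h3 : (k + 1 : ℝ) * (1 + ε / 4) ≤ (1 - ε) * (m + 1) * (1 + ε / 4) :=
    mul_le_mul_of_nonneg_right hin (by positivity)
  nlinarith [mul_pos hε hε, mul_pos (mul_pos hε hε) hm0]

theorem almost_all {ε : ℝ} (hε : 0 < ε) : ∃ n₀ : ℕ, ∀ n : ℕ, n₀ ≤ n → ∀ i : ℕ, 1 ≤ i →
    (i : ℝ) ≤ (1 - ε) * n → ∀ K : Set (En n), IsCompact K → Convex ℝ K → (interior K).Nonempty →
      ((∃ (x : En n) (lam : ℝ), 0 < lam ∧ K = x +ᵥ lam • projBodyS i (projBodyS i K)) ↔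
        ∃ (x : En n) (r : ℝ), K = Metric.closedBall x r) := by
  obtain ⟨n₀, h₀⟩ := const_of_FP hε
  refine ⟨n₀, fun n hn i hi hin K hK hc hint => ?_⟩
  have hi1 : (1 : ℝ) ≤ i := by exact_mod_cast hi
  have hn0 : (0 : ℝ) < n := by
    rcases Nat.eq_zero_or_pos n with rfl | hpos
    · simp at hin
      linarith
    · exact_mod_cast hpos
  have hlt : i < n := by
    have : (i : ℝ) < n := by nlinarith
    exact_mod_cast this
  have hfr : finrank ℝ (En n) = n := by simp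
  rw [fixed_iff (by omega) hK hc (hint.mono interior_subset)]
  refine classification_of (m := n - 1) (by omega) hi (by omega) ?_ hK hint
  intro h δ lam hZ hδ hpos hlam hfix u u' hu hu'
  obtain ⟨μ, ν, a, hFP, ha⟩ := reduce (by omega) hZ hδ hpos hlam hfix
  rw [ha u hu, ha u' hu', h₀ n hn i μ ν hFP hi hin u u' hu hu']

end Pool.Agent.P.MP_181257_gt
end
end

-- part Pool.Agent.P.MP_181257_gt.PwF
section

/-! Rigidity for `i ≤ n - n ^ (249 / 250)`. -/

set_option autoImplicit false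
set_option linter.unusedSectionVars false
set_option linter.unusedVariables false

open MeasureTheory ProbabilityTheory Module Set Filter Topology
open scoped RealInnerProductSpace ENNReal Pointwise Matrix

noncomputable section

namespace Pool.Agent.P.MP_181257_gt

variable {V : Type} [NormedAddCommGroup V] [InnerProductSpace ℝ V] [FiniteDimensional ℝ V]
  [MeasurableSpace V] [BorelSpace V]

theorem thr_PwF {ε a B x : ℝ} (hε : 0 < ε) (hε1 : ε ≤ 1) {k K : ℕ} (hk : k ≤ K) (ha : a ≤ B)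
    (hB : 0 ≤ B) (hx : B / ε ^ K ≤ x) : a ≤ x * ε ^ k := by
  have h1 : B ≤ x * ε ^ K := (div_le_iff₀ (by positivity)).1 hx
  have h0 : 0 ≤ x := le_trans (by positivity) hx
  exact ha.trans (h1.trans (mul_le_mul_of_nonneg_left (pow_le_pow_of_le_one hε.le hε1 hk) h0))

theorem iso_poly {i : ℕ} {μ ν : Measure V} (h : FP i μ ν) (hi : 1 ≤ i) {ε m e : ℝ} (hε : 0 < ε)
    (hε1 : ε ≤ 1) (hin : (i : ℝ) ≤ (1 - ε) * finrank ℝ V) (hεn : 2 ≤ ε * finrank ℝ V)
    (hm : 1 ≤ m) (hmn : m ^ 4 = finrank ℝ V) (he : 0 < e) (hb : 10 ^ 26 ≤ m * ε ^ 36 * e)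
    {a : V} (ha : ‖a‖ = 1) :
    |Sg μ a a - ((finrank ℝ V : ℝ) - i - 1) / finrank ℝ V| ≤ e := by
  have hi2 : i + 2 ≤ finrank ℝ V := by
    have : (i : ℝ) + 2 ≤ finrank ℝ V := by linarith
    exact_mod_cast this
  have hn0 : (0 : ℝ) < finrank ℝ V := by exact_mod_cast (by omega : 0 < finrank ℝ V)
  have hm2 : √(finrank ℝ V : ℝ) = m ^ 2 := by
    rw [← hmn, show m ^ 4 = (m ^ 2) ^ 2 by ring, Real.sqrt_sq (by positivity)]
  have hc1 : (ε / 2) ^ 6 / 100 ≤ 1 := by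
    have : (ε / 2) ^ 6 ≤ 1 := pow_le_one₀ (by positivity) (by linarith)
    linarith
  have hZ : (ε / 2) ^ 6 / 100 * m ^ 2 ≤ Zq i μ := by
    refine le_trans ?_ (nonthin h hi2)
    rw [hm2]
    have h1 : ε / 2 ≤ ((finrank ℝ V : ℝ) - i - 1) / finrank ℝ V := by
      rw [le_div_iff₀ hn0]; nlinarith
    have h2 := pow_le_pow_left₀ (by positivity) h1 6
    have h3 := mul_le_mul_of_nonneg_right h2 (sq_nonneg m)
    linarith
  refine (iso_core h hi (by omega) (by positivity) hc1 hm hmn hZ ha).trans ?_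
  rw [div_le_iff₀ (by positivity)]
  have e1 : e * (((ε / 2) ^ 6 / 100) ^ 6 * m) = m * ε ^ 36 * e / (2 ^ 36 * 10 ^ 12) := by ring
  rw [e1, le_div_iff₀ (by positivity)]
  refine le_trans ?_ hb
  norm_num

theorem apriori_poly : ∃ B : ℝ, 2 ≤ B ∧ ∀ (n : ℕ) (ε m : ℝ), 0 < ε → ε ≤ 1 → m ^ 4 = n →
    B / ε ^ 51 ≤ m → ∀ (i : ℕ) (μ ν : Measure (En n)), FP i μ ν → 1 ≤ i →
      (i : ℝ) ≤ (1 - ε) * n →
      ∃ C s : ℝ, 1 ≤ C ∧ 0 < s ∧ Neg4 i μ C ∧ ∀ u v : En n, ‖u‖ = 1 → ‖v‖ = 1 → ⟪u, v⟫ = 0 →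
        (1 - ε / 4) * s ≤ MK i μ u v v ∧ MK i μ u v v ≤ (1 + ε / 4) * s := by
  have hK4 := Km_nonneg 4
  have hK8 := Km_nonneg 8
  obtain ⟨a1, ha1⟩ : ∃ a : ℝ, a = 1542 * (4 * √(3 ^ 17 * Km 4) * 4 ^ 14) := ⟨_, rfl⟩
  obtain ⟨a2, ha2⟩ : ∃ a : ℝ, a = 384 * (4 + Km 4) ^ 3 * 1000 ^ 12 := ⟨_, rfl⟩
  obtain ⟨a3, ha3⟩ : ∃ a : ℝ, a = (2 + Km 8) * 1000 ^ 5 := ⟨_, rfl⟩
  have p1 : 0 ≤ a1 := by rw [ha1]; positivity
  have p2 : 0 ≤ a2 := by rw [ha2]; positivity
  have p3 : 0 ≤ a3 := by rw [ha3]; positivity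
  obtain ⟨B, hBd⟩ : ∃ B : ℝ, B = 10 ^ 33 + a1 + a2 + 10 ^ 14 * a3 := ⟨_, rfl⟩
  have hB : (10 : ℝ) ^ 33 ≤ B := by linarith
  have hB0 : 0 ≤ B := le_trans (by positivity) hB
  refine ⟨B, le_trans (by norm_num) hB, fun n ε m hε hε1 hmn hm i μ ν h hi hin => ?_⟩
  have hfr : finrank ℝ (En n) = n := finrank_euclideanSpace_fin
  have hm1 : 1 ≤ m := by
    have := thr_PwF hε hε1 (Nat.zero_le 51) (a := 1) (le_trans (by norm_num) hB) hB0 hm
    simpa using this
  have hm2 : √(n : ℝ) = m ^ 2 := by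
    rw [← hmn, show m ^ 4 = (m ^ 2) ^ 2 by ring, Real.sqrt_sq (by positivity)]
  have hmm : B / ε ^ 51 ≤ √(n : ℝ) := by rw [hm2]; nlinarith
  have hnn : B / ε ^ 102 ≤ n := by
    have h1 := pow_le_pow_left₀ (by positivity) hmm 2
    rw [Real.sq_sqrt (Nat.cast_nonneg n), div_pow, ← pow_mul] at h1
    refine le_trans (div_le_div_of_nonneg_right ?_ (by positivity)) h1
    have : (1 : ℝ) ≤ B := le_trans (by norm_num) hB
    nlinarith
  have hεn : 2 ≤ ε * n := by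
    have := thr_PwF hε hε1 (by norm_num : 1 ≤ 102) (a := 2) (le_trans (by norm_num) hB) hB0 hnn
    linarith
  have a5 : (1 : ℝ) ≤ n := by nlinarith
  have hnpos : (0 : ℝ) < n := by linarith
  obtain ⟨b1, hσε, hσ1⟩ := ar3_HiE6 hε a5 (Nat.cast_nonneg i)
    (by rw [div_le_iff₀ hε]; linarith) hin
  have hin' : i + 1 ≤ finrank ℝ (En n) := by
    rw [hfr]
    exact_mod_cast b1
  obtain ⟨σ, hσdef⟩ : ∃ σ : ℝ, σ = ((n : ℝ) - i - 1) / n := ⟨_, rfl⟩
  rw [← hσdef] at hσε hσ1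
  have hσ : 0 < σ := (half_pos hε).trans_le hσε
  obtain ⟨C, hCdef⟩ : ∃ C : ℝ, C = 8 * (2 / ε) ^ 12 := ⟨_, rfl⟩
  have hC : 1 ≤ C := by
    have : 1 ≤ (2 / ε) ^ 12 := one_le_pow₀ (by rw [le_div_iff₀ hε]; linarith)
    linarith
  obtain ⟨e, hedef⟩ : ∃ e : ℝ, e = ε / 4 * (ε / 2) ^ 2 / (3 * C) := ⟨_, rfl⟩
  have he15 : e = ε ^ 15 / 1572864 := by rw [hedef, hCdef]; field_simp; norm_num
  have he : 0 < e := by rw [he15]; positivity
  have hiso : ∀ μ' ν' : Measure (En n), FP i μ' ν' → ∀ a : En n, ‖a‖ = 1 →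
      |Sg μ' a a - σ| ≤ e / 2 := by
    intro μ' ν' h' a ha
    have := iso_poly h' hi hε hε1 (by rw [hfr]; exact hin) (by rw [hfr]; exact hεn) hm1
      (by rw [hfr]; exact hmn) (half_pos he) ?_ ha
    · rwa [hfr, ← hσdef] at this
    · have h1 := thr_PwF hε hε1 (le_refl 51) hB hB0 hm
      have e1 : m * ε ^ 36 * (e / 2) = m * ε ^ 51 / 3145728 := by rw [he15]; ring
      rw [e1, le_div_iff₀ (by norm_num)]
      exact le_trans (by norm_num) h1
  have he3 : e / 2 ≤ σ / 3 := by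
    have : ε ^ 15 ≤ ε := by
      calc ε ^ 15 ≤ ε ^ 1 := pow_le_pow_of_le_one hε.le hε1 (by norm_num)
        _ = ε := pow_one ε
    rw [he15]
    linarith
  have hI : ∀ μ' ν' : Measure (En n), FP i μ' ν' → Iso μ' (2 * σ / 3) := by
    intro μ' ν' h' a ha
    have := abs_le.1 (hiso μ' ν' h' a ha)
    constructor <;> linarith [this.1, this.2]
  have hs : ε / 4 ≤ 2 * σ / 3 := by linarith
  have hS : Sub i μ (ε ^ 4 / 1000 * √(finrank ℝ (En n) : ℝ)) := by
    refine sub_poly h hi hε hε1 (by rw [hfr]; exact hin) hs (hI μ ν h) (hI ν μ h.symm) ?_ ?_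
    · rw [hfr, div_le_iff₀ (by positivity)]
      exact thr_PwF hε hε1 (by norm_num) (le_trans (by norm_num) hB) hB0 hmm
    · have h1 := thr_PwF hε hε1 (by norm_num : 18 ≤ 102) (a := a1) (by linarith) hB0 hnn
      have h2 : 6 ≤ 6 / ε ^ 4 := by
        rw [le_div_iff₀ (by positivity)]
        have : ε ^ 4 ≤ 1 := pow_le_one₀ hε.le hε1
        linarith
      rw [hfr]
      calc _ ≤ (1536 / ε ^ 4 + 6 / ε ^ 4) * (4 * √(3 ^ 17 * Km 4) * (4 / ε) ^ 14) :=
            mul_le_mul_of_nonneg_right (by linarith) (by positivity)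
        _ = a1 / ε ^ 18 := by
            rw [ha1]
            generalize √(3 ^ 17 * Km 4) = w
            field_simp
            ring
        _ ≤ n := (div_le_iff₀ (by positivity)).2 h1
  have h30 : a3 ≤ n * ε ^ 20 :=
    thr_PwF hε hε1 (by norm_num : 20 ≤ 102) (by linarith) hB0 hnn
  have hN : Neg4 i μ C := by
    rw [hCdef]
    refine neg4_poly h hi hε hε1 (by rw [hfr]; exact hin) (by rw [hfr]; exact hεn) hs (hI μ ν h)
      (by positivity) (θ := (ε ^ 4 / 1000) ^ 3 / (4 + Km 4)) (by positivity) hS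
      (by field_simp) ?_ ?_ ?_
    · have h1 := thr_PwF hε hε1 (by norm_num : 7 ≤ 51) (a := 104000)
        (le_trans (by norm_num) hB) hB0 hmm
      rw [hfr, div_le_iff₀ (by positivity)]
      have e1 : ε / 4 * (ε ^ 4 / 1000 * √(n : ℝ)) * ε ^ 2 = √(n : ℝ) * ε ^ 7 / 4000 := by ring
      rw [e1]
      linarith
    · have h1 := thr_PwF hε hε1 (by norm_num : 52 ≤ 102) (a := a2) (by linarith) hB0 hnn
      rw [hfr, div_le_iff₀ (by positivity)]
      have e1 : (ε ^ 4 / 1000) ^ 3 * ((ε ^ 4 / 1000) ^ 3 / (4 + Km 4)) ^ 3 * (ε ^ 4 * n)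
          = n * ε ^ 52 / ((4 + Km 4) ^ 3 * 1000 ^ 12) := by field_simp
      rw [e1, le_div_iff₀ (by positivity), ← mul_assoc, ← ha2]
      exact h1
    · have e1 : (ε ^ 4 / 1000) ^ 5 * (n : ℝ) = n * ε ^ 20 / 1000 ^ 5 := by ring
      rw [hfr, e1, le_div_iff₀ (by positivity), ← ha3]
      exact h30
  have hv : ∀ u : En n, ‖u‖ = 1 → ∫ x, (‖Pj i x u‖ ^ 2 - σ) ^ 2 ∂(Fr i μ) ≤ e ^ 2 := by
    intro u hu
    have e1 := shift_HiE6 h.ml h.wl hu (Sg ν u u) σ
    have e2 := var_point h hi hin' (by positivity) hS hu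
    rw [hfr] at e2
    have e3 := hiso ν μ h.symm u hu
    have e4 : (Sg ν u u - σ) ^ 2 ≤ (e / 2) ^ 2 := sq_le_sq' (abs_le.1 e3).1 (abs_le.1 e3).2
    have e5 : (2 + Km 8) / ((ε ^ 4 / 1000) ^ 5 * n) ≤ e ^ 2 / 4 := by
      have h1 := thr_PwF hε hε1 (by norm_num : 50 ≤ 102) (a := 10 ^ 14 * a3) (by linarith) hB0 hnn
      have e7 : e ^ 2 / 4 * ((ε ^ 4 / 1000) ^ 5 * n)
          = n * ε ^ 50 / (4 * 1572864 ^ 2 * 1000 ^ 5) := by rw [he15]; ring
      rw [div_le_iff₀ (by positivity), e7, le_div_iff₀ (by positivity)]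
      refine le_trans ?_ h1
      rw [ha3]
      nlinarith
    have e6 : (e / 2) ^ 2 = e ^ 2 / 4 := by ring
    linarith
  refine ⟨C, √σ, hC, Real.sqrt_pos.2 hσ, hN, fun u v hu hv1 huv => ?_⟩
  have q1 := pinch h.ml h.wl hC hN hσ hσ1 he hv hu hv1 huv
  have q3 := ar1_HiE6 hε (by positivity : 0 < ε / 4) hC hσε hσ1
  rw [← hedef] at q3
  have q4 := abs_le.1 (q1.trans q3)
  constructor <;> linarith [q4.1, q4.2]

theorem const_poly : ∃ B : ℝ, 2 ≤ B ∧ ∀ (n : ℕ) (ε m : ℝ), 0 < ε → ε ≤ 1 → m ^ 4 = n →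
    B / ε ^ 51 ≤ m → ∀ (i : ℕ) (μ ν : Measure (En n)), FP i μ ν → 1 ≤ i →
      (i : ℝ) ≤ (1 - ε) * n → ∀ u u' : En n, ‖u‖ = 1 → ‖u'‖ = 1 → th i ν u = th i ν u' := by
  obtain ⟨B, hB, h₁⟩ := apriori_poly
  refine ⟨B, hB, fun n ε M hε hε1 hM hBM i μ ν h hi hin u u' hu hu' => ?_⟩
  have hεn : 2 < ε * n := by
    have h1 := thr_PwF hε hε1 (by norm_num : 1 ≤ 51) hB (by linarith) hBM
    have h2 : 2 ≤ M := by nlinarith
    have h3 : M * 2 ≤ M ^ 4 := by nlinarith [pow_le_pow_left₀ (by norm_num) h2 3]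
    rw [← hM]
    nlinarith
  have hi2 : i + 2 ≤ n := by
    have : (i : ℝ) + 2 ≤ n := by nlinarith
    exact_mod_cast this
  obtain ⟨C, s, hC, hs, hN, hp⟩ := h₁ n ε M hε hε1 hM hBM i μ ν h hi hin
  obtain ⟨C', s', hC', hs', hN', hp'⟩ := h₁ n ε M hε hε1 hM hBM i ν μ h.symm hi hin
  have hfr : finrank ℝ (En n) = n := by simp
  obtain ⟨hLf, a, c, hc, hth, hM1, hV⟩ := dens_fix h hi (by omega) hC hN hC' hN'
  obtain ⟨hLg, a', c', hc', -, hM', hV'⟩ := dens_fix h.symm hi (by omega) hC' hN' hC hN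
  obtain ⟨k, rfl⟩ : ∃ k, i = k + 1 := ⟨i - 1, by omega⟩
  obtain ⟨m, rfl⟩ : ∃ m, n = m + 1 := ⟨n - 1, by omega⟩
  have hη : 0 < 1 - ε / 4 := by linarith
  have hm0 : (0 : ℝ) < m := by
    have : 0 < m := by omega
    exact_mod_cast this
  rw [hth u, hth u', local_rigid hfr (by omega) hLf hLg (by positivity) (by positivity)
    (by positivity) (by positivity) (pin_of hc hM1 hp') (pin_of hc' hM' hp) (pow_pos hc _)
    (pow_pos hc' _) hV hV' ?_ hu hu']
  have e : (((k + 1 : ℝ) / m) ^ 2 * (c'⁻¹ * ((1 + ε / 4) * s) * (c⁻¹ * ((1 + ε / 4) * s'))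
      / (c'⁻¹ * ((1 - ε / 4) * s)) ^ 2)) * (((k + 1 : ℝ) / m) ^ 2
        * (c⁻¹ * ((1 + ε / 4) * s') * (c'⁻¹ * ((1 + ε / 4) * s))
          / (c⁻¹ * ((1 - ε / 4) * s')) ^ 2))
      = (((k + 1 : ℝ) * (1 + ε / 4)) / (m * (1 - ε / 4))) ^ 4 := by
    field_simp
  rw [e]
  refine pow_lt_one₀ (by positivity) ((div_lt_one (by positivity)).2 ?_) (by norm_num)
  push_cast at hin hεn
  have h3 : (k + 1 : ℝ) * (1 + ε / 4) ≤ (1 - ε) * (m + 1) * (1 + ε / 4) :=
    mul_le_mul_of_nonneg_right hin (by positivity)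
  nlinarith [mul_pos hε hε, mul_pos (mul_pos hε hε) hm0]

theorem power_range : ∃ n₀ : ℕ, ∀ n : ℕ, n₀ ≤ n → ∀ i : ℕ, 1 ≤ i →
    (i : ℝ) ≤ n - (n : ℝ) ^ (249 / 250 : ℝ) →
      ∀ K : Set (En n), IsCompact K → Convex ℝ K → (interior K).Nonempty →
      ((∃ (x : En n) (lam : ℝ), 0 < lam ∧ K = x +ᵥ lam • projBodyS i (projBodyS i K)) ↔
        ∃ (x : En n) (r : ℝ), K = Metric.closedBall x r) := by
  obtain ⟨B, hB, h₀⟩ := const_poly
  obtain ⟨n₀, hn₀⟩ := exists_nat_ge (B ^ 1000)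
  refine ⟨n₀, fun n hn i hi hin K hK hc hint => ?_⟩
  have hB1 : 1 ≤ B := by linarith
  have hnB : B ^ 1000 ≤ n := hn₀.trans (by exact_mod_cast hn)
  have hn1 : (1 : ℝ) ≤ n := (one_le_pow₀ hB1).trans hnB
  have hn0 : (0 : ℝ) < n := by linarith
  obtain ⟨t, ht⟩ : ∃ t : ℝ, t = (n : ℝ) ^ (1 / 1000 : ℝ) := ⟨_, rfl⟩
  have ht0 : 0 < t := by rw [ht]; positivity
  have hpow : ∀ k : ℕ, t ^ k = (n : ℝ) ^ ((k : ℝ) / 1000) := fun k => by
    rw [ht, ← Real.rpow_natCast, ← Real.rpow_mul hn0.le]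
    congr 1
    ring
  have h1000 : t ^ 1000 = n := by rw [hpow]; norm_num
  have h996 : t ^ 996 = (n : ℝ) ^ (249 / 250 : ℝ) := by rw [hpow]; norm_num
  have htB' : B ^ 1000 ≤ t ^ 1000 := by rw [h1000]; exact hnB
  have htB : B ≤ t := le_of_pow_le_pow_left₀ (n := 1000) (by norm_num) ht0.le htB'
  have ht1 : 1 ≤ t := hB1.trans htB
  have hε : 0 < 1 / t ^ 4 := by positivity
  have hε1 : 1 / t ^ 4 ≤ 1 := by rw [div_le_one (by positivity)]; exact one_le_pow₀ ht1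
  have hin' : (i : ℝ) ≤ (1 - 1 / t ^ 4) * n := by
    rw [← h996] at hin
    have e0 : t ^ 1000 = t ^ 4 * t ^ 996 := by rw [← pow_add]
    have : 1 / t ^ 4 * n = t ^ 996 := by
      rw [← h1000, e0, ← mul_assoc, one_div, inv_mul_cancel₀ (by positivity), one_mul]
    linarith
  have hM : (t ^ 250) ^ 4 = n := by rw [← pow_mul, h1000]
  have hBM : B / (1 / t ^ 4) ^ 51 ≤ t ^ 250 := by
    calc B / (1 / t ^ 4) ^ 51 = B * t ^ 204 := by
          rw [one_div, inv_pow, div_inv_eq_mul, ← pow_mul]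
      _ ≤ t * t ^ 204 := mul_le_mul_of_nonneg_right htB (by positivity)
      _ = t ^ 205 := by rw [← pow_succ']
      _ ≤ t ^ 250 := pow_le_pow_right₀ ht1 (by norm_num)
  have hlt : i < n := by
    have : (i : ℝ) < n := by nlinarith [mul_pos hε hn0]
    exact_mod_cast this
  have hfr : finrank ℝ (En n) = n := by simp
  rw [fixed_iff (by omega) hK hc (hint.mono interior_subset)]
  refine classification_of (m := n - 1) (by omega) hi (by omega) ?_ hK hint
  intro h δ lam hZ hδ hpos hlam hfix u u' hu hu'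
  obtain ⟨μ, ν, a, hFP, ha⟩ := reduce (by omega) hZ hδ hpos hlam hfix
  rw [ha u hu, ha u' hu', h₀ n _ _ hε hε1 hM hBM i μ ν hFP hi hin' u u' hu hu']

end Pool.Agent.P.MP_181257_gt
end
end
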